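import Pool.Agent.W_7d29a1_H.HDefs
import Pool.Agent.W_7d29a1_h4g.VarL
import Pool.Agent.W_7d29a1_h4g.LAinst
import Pool.Agent.W_7d29a1_F.Bridge2

/-!
MP_7d29a1_pr, TRACK H (all tilts), (H7): soft scales; growth at soft scales (growK), the upper bound of the unit at soft scales (hV),
cheap with probability `p` implies cheap in the mean (MC); for all tilts at once. (helper4)
-/

set_option autoImplicit false

namespace Pool.Agent.W_7d29a1_H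

open MeasureTheory ProbabilityTheory Filter Topology
open Pool.Agent.W_7d29a1_F Pool.Agent.W_7d29a1_h4g

noncomputable section

variable {μ : Measure ℝ} [IsProbabilityMeasure μ] {s : ℝ} {A : Set ℝ} {H δ : ℝ}

theorem ref_le_EE4 {m n : ℕ} (h : m ≤ n) : ∫ η, max (X μ s η 0 m (zs μ s m)) 0 ∂(law μ) ≤ EE μ s n := by
  have := ref_le_EU (μ := μ) (s := s) (z := zs μ s) h
  unfold EE
  linarith

theorem gg_nonneg (x : ℕ) : 0 ≤ gg μ s x := Real.logb_nonneg one_lt_two (one_le_EE _)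

theorem gg_mono : Monotone (gg μ s) := fun x y h =>
  Real.logb_le_logb_of_le one_lt_two (EE_pos _) (EE_mono (Nat.pow_le_pow_right (by norm_num) h))

theorem two_rpow_gg (x : ℕ) : (2 : ℝ) ^ gg μ s x = EE μ s (2 ^ x) :=
  Real.rpow_logb two_pos (by norm_num) (EE_pos _)

omit [IsProbabilityMeasure μ] in
/-- A level `α` with `2 ^ α` large. -/
theorem exists_level4 (B : ℝ) : ∃ α : ℝ, 0 ≤ α ∧ B ≤ (2 : ℝ) ^ α := by
  obtain ⟨n, hn⟩ := pow_unbounded_of_one_lt B (one_lt_two : (1 : ℝ) < 2)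
  exact ⟨n, Nat.cast_nonneg n, by rw [Real.rpow_natCast]; exact hn.le⟩

omit [IsProbabilityMeasure μ] in
theorem neg_level4 {p α : ℝ} (hp : 0 < p) (h : 1 / p ≤ (2 : ℝ) ^ α) : (2 : ℝ) ^ (-α) ≤ p := by
  rw [Real.rpow_neg two_pos.le]
  rw [one_div] at h
  exact inv_le_of_inv_le₀ hp h

/-! ### Soft scales -/

/-- Soft is monotone in the level. -/
theorem Sf.mono {x : ℕ} {α β : ℝ} (h : Sf μ s x α) (hαβ : α ≤ β) : Sf μ s x β := by
  obtain ⟨l, G, h1, h2, hpos, hle, h3, h4⟩ := h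
  have hE := (EE_pos (μ := μ) (s := s) (2 ^ x)).le
  have k1 : (2 : ℝ) ^ α ≤ 2 ^ β := Real.rpow_le_rpow_of_exponent_le one_le_two hαβ
  have k2 : (2 : ℝ) ^ (-β) ≤ 2 ^ (-α) := Real.rpow_le_rpow_of_exponent_le one_le_two (by linarith)
  refine ⟨l, G, h1.trans (Real.rpow_le_rpow_of_exponent_le one_le_two (by linarith)), h2, hpos, hle, ?_, ?_⟩
  · have := mul_le_mul_of_nonneg_right k1 hE
    linarith
  · refine k2.trans (h4.trans (measureReal_mono (fun η hη => ?_) (measure_ne_top _ _)))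
    rw [Set.mem_ofPred_eq] at hη ⊢
    exact (mul_le_mul_of_nonneg_right k2 hE).trans hη

omit [IsProbabilityMeasure μ] in
/-- Not soft: every functional of the class is concentrated. -/
theorem conc_of_not_Sf {x : ℕ} {α : ℝ} (h : ¬ Sf μ s x α) {l : ℕ} (hl : (l : ℝ) ≤ (2 : ℝ) ^ ((x : ℝ) + α)) {G : Env → ℝ}
    (hP : Poly (rows 0 l) G) (hG : ∀ η, 0 < G η) (hV : ∀ η, Real.log (G η) ≤ V μ s η 0 l)
    (hm : -((2 : ℝ) ^ α * EE μ s (2 ^ x)) ≤ ∫ η, Real.log (G η) ∂(law μ)) :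
    (law μ).real {η | (2 : ℝ) ^ (-α) * EE μ s (2 ^ x) ≤ |Real.log (G η) - ∫ ξ, Real.log (G ξ) ∂(law μ)|} <
      (2 : ℝ) ^ (-α) := by
  by_contra hcon
  exact h ⟨l, G, hl, hP, hG, hV, hm, not_lt.1 hcon⟩

/-- GROWTH AT SOFT SCALES, with any factor, uniformly in the tilt. -/
theorem grow_of_Sf (hEM : Pool.Agent.W_7d29a1_h47.EM μ) (hnd : Pool.Agent.W_7d29a1_h47.Nondeg μ)
    (hgr : Grow μ A) (α : ℝ) {B : ℝ} (hB : 0 ≤ B) :
    ∃ T x0 : ℕ, ∀ s ∈ A, ∀ x, x0 ≤ x → Sf μ s x α → B * EE μ s (2 ^ x) ≤ EE μ s (2 ^ (x + T)) := by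
  have h2a : (0 : ℝ) < 2 ^ α := Real.rpow_pos_of_pos two_pos _
  obtain ⟨U₀, D, hg⟩ := growth (LAfor_all hEM hnd) hEM (c := 2 ^ (-α)) (K := 2 ^ α + 6 * B)
    (Real.rpow_pos_of_pos two_pos _) (by positivity)
  obtain ⟨T, hT⟩ := pow_unbounded_of_one_lt (|D| * 2 ^ α) (one_lt_two : (1 : ℝ) < 2)
  obtain ⟨n0, hn0⟩ := hgr U₀
  refine ⟨T, n0, fun s hs x hx hS => ?_⟩
  obtain ⟨l, G, hl, hP, hG, hGV, hmean, hfl⟩ := hS
  have hxn : n0 ≤ 2 ^ x := (hx.trans Nat.lt_two_pow_self.le)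
  have hDM : D * l ≤ ((2 ^ (x + T) : ℕ) : ℝ) := by
    push_cast
    have e1 : (2 : ℝ) ^ ((x : ℝ) + α) = 2 ^ x * 2 ^ α := by
      rw [Real.rpow_add two_pos, Real.rpow_natCast]
    rw [e1] at hl
    have e2 : D * l ≤ |D| * l := mul_le_mul_of_nonneg_right (le_abs_self D) (Nat.cast_nonneg l)
    have e3 : |D| * l ≤ |D| * (2 ^ x * 2 ^ α) := mul_le_mul_of_nonneg_left hl (abs_nonneg D)
    have e4 : |D| * (2 ^ x * 2 ^ α) = 2 ^ x * (|D| * 2 ^ α) := by ring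
    have e5 : (2 : ℝ) ^ x * (|D| * 2 ^ α) ≤ 2 ^ x * 2 ^ T := mul_le_mul_of_nonneg_left hT.le (by positivity)
    rw [pow_add]
    linarith
  have h1 := hg s l (2 ^ (x + T)) (zs μ s) (EE μ s (2 ^ (x + T))) (fun m _ => zs_mem m)
    (fun m hm => ref_le_EE4 hm) hDM G hP hG hGV (EE μ s (2 ^ x)) (hn0 s hs _ hxn) hfl
  nlinarith

/-- **(growK)**: at a soft scale the unit grows by the factor `2 ^ K` within `T` octaves. -/
theorem growK0 (hEM : Pool.Agent.W_7d29a1_h47.EM μ) (hnd : Pool.Agent.W_7d29a1_h47.Nondeg μ) (hgr : Grow μ A)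
    (α K : ℝ) : ∃ T x0 : ℕ, ∀ s ∈ A, ∀ x, x0 ≤ x → Sf μ s x α → gg μ s x + K ≤ gg μ s (x + T) := by
  obtain ⟨T, x0, h⟩ := grow_of_Sf hEM hnd hgr α (B := 2 ^ K) (by positivity)
  refine ⟨T, x0, fun s hs x hx hS => ?_⟩
  have h1 := h s hs x hx hS
  have h2 := EE_pos (μ := μ) (s := s) (2 ^ x)
  have h3 : Real.logb 2 (2 ^ K * EE μ s (2 ^ x)) ≤ Real.logb 2 (EE μ s (2 ^ (x + T))) :=
    Real.logb_le_logb_of_le one_lt_two (by positivity) h1
  rw [Real.logb_mul (by positivity) h2.ne', Real.logb_rpow two_pos (by norm_num)] at h3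
  unfold gg
  linarith

/-- (hG): at a soft scale the unit doubles within `T` octaves. -/
theorem hG1 (hEM : Pool.Agent.W_7d29a1_h47.EM μ) (hnd : Pool.Agent.W_7d29a1_h47.Nondeg μ) (hgr : Grow μ A) (α : ℝ) :
    ∃ T x0 : ℕ, ∀ s ∈ A, ∀ x, x0 ≤ x → Sf μ s x α → gg μ s x + 1 ≤ gg μ s (x + T) := growK0 hEM hnd hgr α 1

/-- **(hV)**: at a soft scale the unit is at most of the order of the square root of the time; all tilts. -/
theorem hV0 (hEM : Pool.Agent.W_7d29a1_h47.EM μ) (α : ℝ) :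
    ∃ C : ℝ, ∀ (s : ℝ) (x : ℕ), Sf μ s x α → gg μ s x ≤ x / 2 + C := by
  obtain ⟨C, hC0, hC⟩ := cheb_law hEM
  refine ⟨(4 * α + Real.logb 2 (C + 1)) / 2, fun s x hS => ?_⟩
  obtain ⟨l, G, hl, hP, hG, hGV, hmean, hfl⟩ := hS
  obtain ⟨E, hE⟩ : ∃ E, E = EE μ s (2 ^ x) := ⟨_, rfl⟩
  have hE0 : 0 < E := by
    rw [hE]
    exact EE_pos _
  rw [← hE] at hfl
  have h2a : (0 : ℝ) < 2 ^ (-α) := Real.rpow_pos_of_pos two_pos _
  have h1 := hC s _ G l hP hG hGV (2 ^ (-α) * E) (by positivity)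
  have h2 : (2 ^ (-α) * E) ^ 2 * 2 ^ (-α) ≤ C * l := (mul_le_mul_of_nonneg_left hfl (sq_nonneg _)).trans h1
  have h3 : C * l ≤ (C + 1) * 2 ^ ((x : ℝ) + α) := by
    have : (0 : ℝ) ≤ l := Nat.cast_nonneg l
    nlinarith
  have h4 : (2 ^ (-α) * E) ^ 2 * 2 ^ (-α) ≤ (C + 1) * 2 ^ ((x : ℝ) + α) := h2.trans h3
  have h5 := Real.logb_le_logb_of_le one_lt_two (by positivity) h4
  have hp : (0 : ℝ) < 2 ^ ((x : ℝ) + α) := Real.rpow_pos_of_pos two_pos _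
  rw [Real.logb_mul (by positivity) h2a.ne', Real.logb_pow, Real.logb_mul h2a.ne' hE0.ne',
    Real.logb_rpow two_pos (by norm_num), Real.logb_mul (by linarith) hp.ne', Real.logb_rpow two_pos (by norm_num)] at h5
  have h6 : gg μ s x = Real.logb 2 E := by rw [gg, hE]
  rw [h6]
  push_cast at h5
  linarith

/-! ### Cheap with probability `p` implies cheap in the mean -/

/-- **(MC)** in the unit, all tilts. -/
theorem mc0 (hEM : Pool.Agent.W_7d29a1_h47.EM μ) (hnd : Pool.Agent.W_7d29a1_h47.Nondeg μ) {p : ℝ} (hp : 0 < p) :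
    ∃ (T : ℕ) (C : ℝ), 1 ≤ T ∧ 0 < C ∧ ∀ (s : ℝ) (l n : ℕ), T * l ≤ n → ∀ G : Env → ℝ, Poly (rows 0 l) G →
    (∀ η, 0 < G η) → (∀ η, Real.log (G η) ≤ V μ s η 0 l) → ∀ y : ℝ, p ≤ (law μ).real {η | -y ≤ Real.log (G η)} →
    -∫ η, Real.log (G η) ∂(law μ) ≤ max (max (2 * y) C) (6 * EE μ s n) := by
  obtain ⟨C, D, hg⟩ := mean_of_prob (LAfor_all hEM hnd) hEM hp
  obtain ⟨T, hT⟩ := exists_nat_ge D
  refine ⟨T + 1, max C 1, by omega, lt_max_of_lt_right one_pos, fun s l n hTn G hP hG hGV y hy => ?_⟩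
  refine (hg s l n (zs μ s) (EE μ s n) (fun m _ => zs_mem m) (fun m hm => ref_le_EE4 hm) ?_ G hP hG hGV y hy).trans ?_
  · refine (mul_le_mul_of_nonneg_right hT (Nat.cast_nonneg l)).trans ?_
    have h1 : T * l ≤ n := (Nat.mul_le_mul_right l (Nat.le_succ T)).trans hTn
    exact_mod_cast h1
  · exact max_le_max_right _ (max_le_max le_rfl (le_max_left _ _))

omit [IsProbabilityMeasure μ] in
theorem poly_WR4 (R : Set Pt) (T : ℕ) (z : ℤ) : Poly (rows 0 T) fun η => WR μ s R η 0 T z := by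
  refine (poly_WR (μ := μ) (s := s) R 0 T z).mono ?_
  rintro q ⟨q1, q2, _, _⟩
  refine ⟨q1, ?_⟩
  simpa using q2

omit [IsProbabilityMeasure μ] in
theorem poly_W4 (T : ℕ) (z : ℤ) : Poly (rows 0 T) fun η => W μ s η 0 T z := poly_WR4 Set.univ T z

omit [IsProbabilityMeasure μ] in
theorem log_W_le_V4 {n : ℕ} {y : ℤ} (h0 : 0 ≤ y) (h1 : y ≤ n) (η : Env) : Real.log (W μ s η 0 n y) ≤ V μ s η 0 n := by
  have h := neg_X_le_V (μ := μ) (s := s) η 0 h0 h1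
  unfold X at h
  rwa [neg_neg] at h

omit [IsProbabilityMeasure μ] in
theorem int_log_W4 (n : ℕ) (y : ℤ) : ∫ η, Real.log (W μ s η 0 n y) ∂(law μ) = -e μ s n y := by
  unfold e X
  rw [integral_neg, neg_neg]

/-- **(MC)** for a displacement. -/
theorem mc_X (hEM : Pool.Agent.W_7d29a1_h47.EM μ) (hnd : Pool.Agent.W_7d29a1_h47.Nondeg μ) {p : ℝ} (hp : 0 < p) :
    ∃ (T : ℕ) (C : ℝ), 1 ≤ T ∧ 6 ≤ C ∧ ∀ (s : ℝ) (l n : ℕ), T * l ≤ n → ∀ (k : ℤ), 0 ≤ k → k ≤ l → ∀ y : ℝ,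
    p ≤ (law μ).real {η | X μ s η 0 l k ≤ y} → e μ s l k ≤ max (2 * y) (C * EE μ s n) := by
  obtain ⟨T, C, hT, hC, h⟩ := mc0 (μ := μ) hEM hnd hp
  refine ⟨T, max 6 C, hT, le_max_left _ _, fun s l n hTn k hk0 hk1 y hy => ?_⟩
  have h1 := h s l n hTn (fun η => W μ s η 0 l k) (poly_W4 l k) (fun η => W_pos η 0 hk0 hk1) (log_W_le_V4 hk0 hk1) y (by
    refine hy.trans (measureReal_mono (fun η hη => ?_) (measure_ne_top _ _))
    rw [Set.mem_ofPred_eq] at hη ⊢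
    unfold X at hη
    linarith)
  rw [int_log_W4, neg_neg] at h1
  have hE := one_le_EE (μ := μ) (s := s) n
  refine h1.trans (max_le (max_le (le_max_left _ _) ?_) ?_)
  · refine le_trans ?_ (le_max_right _ _)
    have := le_max_right 6 C
    nlinarith [le_max_left 6 C]
  · exact (mul_le_mul_of_nonneg_right (le_max_left _ _) (by linarith)).trans (le_max_right _ _)

end

end Pool.Agent.W_7d29a1_H
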