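import Pool.Agent.W_7d29a1_H.LamH
import Pool.Agent.W_7d29a1_F.CoreD3
import Pool.Agent.W_7d29a1_F.Bridge2

/-!
MP_7d29a1_pr, TRACK H (all tilts). The unit `EE`: subadditivity, the linear bound, the bulk `Em`, the displacement `xs` (model:
`W_1b8d5d_p.Unit1`).
-/

set_option autoImplicit false

namespace Pool.Agent.W_7d29a1_H

open MeasureTheory ProbabilityTheory Filter Topology Set
open Pool.Agent.W_7d29a1_F Pool.Agent.W_7d29a1_h4g
open Pool.Agent.W_7d29a1_h47 (EM Nondeg)

noncomputable section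

variable {μ : Measure ℝ} [IsProbabilityMeasure μ] {s : ℝ}

/-! ### Integrability, stationarity (private) -/

private theorem u_int (hμ : EM μ) (a : Pt) {n : ℕ} {y : ℤ} (h0 : 0 ≤ y) (h1 : y ≤ n) :
    Integrable (fun η => X μ s η a n y) (law μ) := (Sub_X a h0 h1).integrable hμ

private theorem u_intp (hμ : EM μ) (a : Pt) {n : ℕ} {y : ℤ} (h0 : 0 ≤ y) (h1 : y ≤ n) :
    Integrable (fun η => max (X μ s η a n y) 0) (law μ) := (u_int hμ a h0 h1).pos_part

private theorem u_at (a : Pt) (n : ℕ) (y : ℤ) : ∫ η, max (X μ s η a n y) 0 ∂(law μ) = ep μ s n y := by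
  have h1 : ∀ η : Env, max (X μ s η a n y) 0 = (fun ξ : Env => max (X μ s ξ 0 n y) 0) (sh a η) := by
    intro η
    simp only
    rw [X_sh, zero_add]
  have hm : Measurable fun ξ : Env => max (X μ s ξ 0 n y) 0 := by
    unfold X
    exact (Real.measurable_log.comp (measurable_W 0 n y)).neg.max measurable_const
  calc ∫ η, max (X μ s η a n y) 0 ∂(law μ)
      = ∫ η, (fun ξ : Env => max (X μ s ξ 0 n y) 0) (sh a η) ∂(law μ) :=
        integral_congr_ae (Eventually.of_forall fun η => h1 η)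
    _ = ep μ s n y := by
        unfold ep
        conv_rhs => rw [← (mp_sh (μ := μ) a).map_eq]
        rw [integral_map (mp_sh (μ := μ) a).measurable.aemeasurable hm.aestronglyMeasurable]

private theorem u_sub (hμ : EM μ) {m n : ℕ} {k y : ℤ} (h0 : 0 ≤ k) (h1 : k ≤ m) (h2 : 0 ≤ y) (h3 : y ≤ n) :
    ep μ s (m + n) (k + y) ≤ ep μ s m k + ep μ s n y := by
  have hpt : ∀ η : Env, max (X μ s η 0 (m + n) (k + y)) 0 ≤
      max (X μ s η 0 m k) 0 + max (X μ s η ((0 : Pt) + ((m : ℤ), k)) n y) 0 := by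
    intro η
    have h := X_add_le (μ := μ) (s := s) η 0 h0 h1 h2 h3
    have e1 : X μ s η ((0 : Pt) + ((m : ℤ), k)) n y = X μ s η ((0 : Pt).1 + m, (0 : Pt).2 + k) n y := rfl
    rw [e1]
    refine max_le (h.trans (add_le_add (le_max_left _ _) (le_max_left _ _))) ?_
    exact add_nonneg (le_max_right _ _) (le_max_right _ _)
  have h5 := integral_mono (μ := law μ)
    (u_intp (s := s) hμ 0 (n := m + n) (y := k + y) (by omega) (by push_cast; omega))
    ((u_intp hμ 0 h0 h1).add (u_intp hμ ((0 : Pt) + ((m : ℤ), k)) h2 h3)) fun η => hpt η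
  have h6 : ∫ η, (max (X μ s η 0 m k) 0 + max (X μ s η ((0 : Pt) + ((m : ℤ), k)) n y) 0) ∂(law μ) =
      ep μ s m k + ep μ s n y := by
    rw [integral_add (u_intp hμ 0 h0 h1) (u_intp hμ ((0 : Pt) + ((m : ℤ), k)) h2 h3)]
    exact congrArg₂ (· + ·) rfl (u_at ((0 : Pt) + ((m : ℤ), k)) n y)
  exact h5.trans h6.le

private theorem u_e_le (hμ : EM μ) {n : ℕ} {y : ℤ} (h0 : 0 ≤ y) (h1 : y ≤ n) : e μ s n y ≤ ep μ s n y :=
  integral_mono (u_int hμ 0 h0 h1) (u_intp hμ 0 h0 h1) fun _ => le_max_left _ _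

/-! ### The unit -/

omit [IsProbabilityMeasure μ] in
theorem zs_zero : zs μ s 0 = 0 := by
  have h := zs_mem (μ := μ) (s := s) 0
  have h1 := h.1
  have h2 := h.2
  push_cast at h2
  omega

omit [IsProbabilityMeasure μ] in
theorem xs_zero : xs μ s 0 = 0 := by
  have h := xs_mem (μ := μ) (s := s) 0
  have h1 := h.1
  have h2 := h.2
  push_cast at h2
  omega

omit [IsProbabilityMeasure μ] in
theorem X_zero (η : Env) (a : Pt) : X μ s η a 0 0 = 0 := by
  unfold X W WR
  simp [Zr]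

omit [IsProbabilityMeasure μ] in
theorem ep_zero : ep μ s 0 0 = 0 := by
  unfold ep
  simp [X_zero]

omit [IsProbabilityMeasure μ] in
theorem es_zero : es μ s 0 = 0 := by rw [← ep_zs, zs_zero, ep_zero]

/-- The cost of the reference is subadditive. -/
theorem es_sub (hμ : EM μ) (s : ℝ) (m n : ℕ) : es μ s (m + n) ≤ es μ s m + es μ s n := by
  have h1 := zs_mem (μ := μ) (s := s) m
  have h2 := zs_mem (μ := μ) (s := s) n
  have h3 := u_sub (s := s) hμ h1.1 h1.2 h2.1 h2.2
  rw [ep_zs, ep_zs] at h3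
  exact (es_le (by omega) (by push_cast; omega)).trans h3

theorem EE_zero : EE μ s 0 = 1 := by
  refine le_antisymm (EE_le fun m hm => ?_) (one_le_EE 0)
  obtain rfl : m = 0 := by omega
  rw [es_zero]
  norm_num

theorem EE_add (hμ : EM μ) (s : ℝ) (m n : ℕ) : EE μ s (m + n) ≤ EE μ s m + EE μ s n := by
  refine EE_le fun k hk => ?_
  rcases le_total k m with h | h
  · have h1 := le_EE (μ := μ) (s := s) h
    have h2 := EE_pos (μ := μ) (s := s) n
    linarith
  · have h1 := es_sub hμ s m (k - m)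
    rw [show m + (k - m) = k by omega] at h1
    have h2 := le_EE (μ := μ) (s := s) (le_refl m)
    have h3 := le_EE (μ := μ) (s := s) (show k - m ≤ n by omega)
    linarith

theorem EE_mul (hμ : EM μ) (s : ℝ) (n : ℕ) {k : ℕ} (hk : 1 ≤ k) : EE μ s (k * n) ≤ k * EE μ s n := by
  induction k, hk using Nat.le_induction with
  | base => simp
  | succ k hk ih =>
    have h1 := EE_add hμ s (k * n) n
    rw [show k * n + n = (k + 1) * n by ring] at h1
    push_cast
    linarith

/-- The form most used: `m ≤ k n`. -/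
theorem EE_le_mul (hμ : EM μ) (s : ℝ) {m n k : ℕ} (hk : 1 ≤ k) (h : m ≤ k * n) : EE μ s m ≤ k * EE μ s n :=
  (EE_mono h).trans (EE_mul hμ s n hk)

/-- **The linear bound**, uniform for the tilts `|s| ≤ H`. -/
theorem EE_lin (hμ : EM μ) (hnd : Nondeg μ) (H : ℝ) : ∃ Ku : ℝ, 1 ≤ Ku ∧ ∀ s : ℝ, |s| ≤ H → ∀ n : ℕ, 1 ≤ n →
    EE μ s n ≤ Ku * n := by
  have hX1 : ∀ (s : ℝ) (η : Env), X μ s η 0 1 0 = lam μ s - η (1, 0) := by
    intro s η
    unfold X W WR
    simp only [Nat.cast_one, one_mul, Int.cast_zero, mul_zero]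
    rw [show Zr Set.univ η 0 1 0 = Real.exp (η ((1, 0) : Pt)) by simp [Zr], ← Real.exp_add, Real.log_exp]
    ring
  have hi0 : Integrable (fun η : Env => η ((1, 0) : Pt)) (law μ) := by
    have h := u_int (μ := μ) (s := 0) hμ 0 (n := 1) (y := 0) le_rfl (by norm_num)
    have h2 := (integrable_const (μ := law μ) (lam μ 0)).sub h
    refine h2.congr (Eventually.of_forall fun η => ?_)
    simp only [Pi.sub_apply]
    rw [hX1]
    ring
  set I : ℝ := ∫ η, |η ((1, 0) : Pt)| ∂(law μ) with hI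
  have hI0 : 0 ≤ I := integral_nonneg fun _ => abs_nonneg _
  have hlam : ∀ s : ℝ, |s| ≤ H → |lam μ s| ≤ |lam μ 0| + |H| := by
    intro s hs
    have h1 := lam_tangent hμ hnd 0 s
    have h2 := lam_tangent hμ hnd s 0
    have h3 := sl_mem hμ hnd 0
    have h4 := sl_mem hμ hnd s
    have h5 := abs_le.1 (hs.trans (le_abs_self H))
    have h6 := neg_abs_le (lam μ 0)
    have h7 := le_abs_self (lam μ 0)
    have h8 := abs_nonneg H
    rw [abs_le]
    constructor
    · nlinarith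
    · nlinarith
  have hes : ∀ s : ℝ, |s| ≤ H → es μ s 1 ≤ |lam μ 0| + |H| + I := by
    intro s hs
    refine (es_le (μ := μ) (s := s) (n := 1) (y := 0) le_rfl (by norm_num)).trans ?_
    unfold ep
    have h1 : ∫ η, max (X μ s η 0 1 0) 0 ∂(law μ) ≤ ∫ η, (|lam μ s| + |η ((1, 0) : Pt)|) ∂(law μ) := by
      refine integral_mono (u_intp hμ 0 (n := 1) (y := 0) le_rfl (by norm_num))
        ((integrable_const _).add hi0.abs) fun η => ?_
      simp only
      rw [hX1]
      refine max_le ?_ (by positivity)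
      have h2 := le_abs_self (lam μ s)
      have h3 := neg_abs_le (η ((1, 0) : Pt))
      linarith
    rw [integral_add (integrable_const _) hi0.abs] at h1
    have h2 := hlam s hs
    have h3 : ∫ _ : Env, |lam μ s| ∂(law μ) = |lam μ s| := by simp
    rw [h3] at h1
    linarith
  refine ⟨1 + (|lam μ 0| + |H| + I), by have := abs_nonneg (lam μ 0); have := abs_nonneg H; linarith, fun s hs n hn => ?_⟩
  have h1 := EE_mul hμ s 1 hn
  rw [mul_one] at h1
  have h2 : EE μ s 1 ≤ 1 + (|lam μ 0| + |H| + I) := by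
    refine EE_le fun m hm => ?_
    interval_cases m
    · rw [es_zero]
      have := abs_nonneg (lam μ 0)
      have := abs_nonneg H
      linarith
    · have := hes s hs
      linarith
  have hn0 : (0 : ℝ) < n := by exact_mod_cast hn
  nlinarith

/-! ### The cheapest displacement -/

theorem e_xs_le (hμ : EM μ) (s : ℝ) (n : ℕ) : e μ s n (xs μ s n) ≤ es μ s n := by
  have h1 := zs_mem (μ := μ) (s := s) n
  have h2 := xs_le (μ := μ) (s := s) h1.1 h1.2
  have h3 := u_e_le (s := s) hμ h1.1 h1.2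
  rw [ep_zs] at h3
  exact h2.trans h3

theorem e_xs_nonneg (hμ : EM μ) (s : ℝ) (n : ℕ) : 0 ≤ e μ s n (xs μ s n) :=
  e_nonneg hμ s (xs_mem n).1 (xs_mem n).2

theorem e_zs_le (hμ : EM μ) (s : ℝ) (n : ℕ) : e μ s n (zs μ s n) ≤ es μ s n := by
  have h1 := zs_mem (μ := μ) (s := s) n
  have h3 := u_e_le (s := s) hμ h1.1 h1.2
  rw [ep_zs] at h3
  exact h3

/-- The mean positive part is at most the mean plus the unit. -/
theorem ep_le61 (hμ : EM μ) (s : ℝ) {n : ℕ} {y : ℤ} (h0 : 0 ≤ y) (h1 : y ≤ n) :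
    ep μ s n y ≤ e μ s n y + es μ s n := by
  have hz := zs_mem (μ := μ) (s := s) n
  have hV : Integrable (fun η => V μ s η 0 n) (law μ) := (Sub_V 0 n).integrable hμ
  have hpt : ∀ η : Env, max (X μ s η 0 n y) 0 ≤ X μ s η 0 n y + V μ s η 0 n + max (X μ s η 0 n (zs μ s n)) 0 := by
    intro η
    have h2 := neg_X_le_V (μ := μ) (s := s) η 0 h0 h1
    have h3 := neg_X_le_V (μ := μ) (s := s) η 0 hz.1 hz.2
    have h4 := le_max_left (X μ s η 0 n (zs μ s n)) 0
    have h5 := le_max_right (X μ s η 0 n (zs μ s n)) 0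
    refine max_le ?_ ?_ <;> linarith
  have h5 := integral_mono (μ := law μ) (u_intp (s := s) hμ 0 h0 h1)
    (((u_int hμ 0 h0 h1).add hV).add (u_intp hμ 0 hz.1 hz.2)) fun η => hpt η
  have h6 : ∫ η, (X μ s η 0 n y + V μ s η 0 n + max (X μ s η 0 n (zs μ s n)) 0) ∂(law μ) =
      e μ s n y + (∫ η, V μ s η 0 n ∂(law μ)) + es μ s n := by
    have h7 : Integrable (fun η => X μ s η 0 n y + V μ s η 0 n) (law μ) := (u_int hμ 0 h0 h1).add hV
    rw [integral_add h7 (u_intp hμ 0 hz.1 hz.2), integral_add (u_int hμ 0 h0 h1) hV]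
    exact congrArg₂ (· + ·) rfl (ep_zs n)
  have h7 := integral_V_nonpos hμ s n
  have h8 : ep μ s n y ≤ e μ s n y + (∫ η, V μ s η 0 n ∂(law μ)) + es μ s n := h5.trans h6.le
  linarith

theorem ep_xs_le (hμ : EM μ) (s : ℝ) (n : ℕ) : ep μ s n (xs μ s n) ≤ 2 * es μ s n := by
  have h1 := ep_le61 hμ s (xs_mem (μ := μ) (s := s) n).1 (xs_mem (μ := μ) (s := s) n).2
  have h2 := e_xs_le hμ s n
  linarith

omit [IsProbabilityMeasure μ] in
/-- `EE` is at most the bulk plus the fluctuation: the form `es n ≤ E X⁺ (xs)`. -/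
theorem es_le_ep_xs (s : ℝ) (n : ℕ) : es μ s n ≤ ep μ s n (xs μ s n) := by
  have h := xs_mem (μ := μ) (s := s) n
  exact es_le h.1 h.2

/-! ### The bulk -/

omit [IsProbabilityMeasure μ] in
theorem le_Em {m n : ℕ} (h : m ≤ n) : e μ s m (xs μ s m) + 1 ≤ Em μ s n := by
  have h1 := Finset.le_sup' (f := fun m => e μ s m (xs μ s m)) (Finset.mem_range.2 (Nat.lt_succ_of_le h))
  unfold Em
  have h2 : e μ s m (xs μ s m) = (fun m => e μ s m (xs μ s m)) m := rfl
  rw [h2]
  linarith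

omit [IsProbabilityMeasure μ] in
theorem Em_le {n : ℕ} {R : ℝ} (h : ∀ m, m ≤ n → e μ s m (xs μ s m) + 1 ≤ R) : Em μ s n ≤ R := by
  unfold Em
  have h1 : ((Finset.range (n + 1)).sup' ⟨0, by simp⟩ fun m => e μ s m (xs μ s m)) ≤ R - 1 := by
    refine Finset.sup'_le _ _ fun m hm => ?_
    have h3 := h m (Nat.lt_succ_iff.1 (Finset.mem_range.1 hm))
    linarith
  linarith

omit [IsProbabilityMeasure μ] in
theorem Em_mono : Monotone (Em μ s) := fun _ _ h => Em_le fun _ hk => le_Em (hk.trans h)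

theorem e_zero_zero : e μ s 0 (xs μ s 0) = 0 := by rw [xs_zero, e_zero]

theorem one_le_Em (n : ℕ) : 1 ≤ Em μ s n := by
  have h := le_Em (μ := μ) (s := s) (Nat.zero_le n)
  rw [e_zero_zero] at h
  linarith

theorem Em_pos (n : ℕ) : 0 < Em μ s n := one_pos.trans_le (one_le_Em n)

theorem Em_le_EE (hμ : EM μ) (s : ℝ) (n : ℕ) : Em μ s n ≤ EE μ s n :=
  Em_le fun m hm => by
    have h1 := e_xs_le hμ s m
    have h2 := le_EE (μ := μ) (s := s) hm
    linarith

theorem e_xs_sub (hμ : EM μ) (s : ℝ) (m n : ℕ) :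
    e μ s (m + n) (xs μ s (m + n)) ≤ e μ s m (xs μ s m) + e μ s n (xs μ s n) := by
  have h1 := xs_mem (μ := μ) (s := s) m
  have h2 := xs_mem (μ := μ) (s := s) n
  have h3 := e_add_le (s := s) hμ h1.1 h1.2 h2.1 h2.2
  exact (xs_le (by omega) (by push_cast; omega)).trans h3

theorem Em_add (hμ : EM μ) (s : ℝ) (m n : ℕ) : Em μ s (m + n) ≤ Em μ s m + Em μ s n := by
  refine Em_le fun k hk => ?_
  rcases le_total k m with h | h
  · have h1 := le_Em (μ := μ) (s := s) h
    have h2 := Em_pos (μ := μ) (s := s) n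
    linarith
  · have h1 := e_xs_sub hμ s m (k - m)
    rw [show m + (k - m) = k by omega] at h1
    have h2 := le_Em (μ := μ) (s := s) (le_refl m)
    have h3 := le_Em (μ := μ) (s := s) (show k - m ≤ n by omega)
    linarith

theorem Em_mul (hμ : EM μ) (s : ℝ) (n : ℕ) {k : ℕ} (hk : 1 ≤ k) : Em μ s (k * n) ≤ k * Em μ s n := by
  induction k, hk using Nat.le_induction with
  | base => simp
  | succ k hk ih =>
    have h1 := Em_add hμ s (k * n) n
    rw [show k * n + n = (k + 1) * n by ring] at h1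
    push_cast
    linarith

theorem Em_le_mul (hμ : EM μ) (s : ℝ) {m n k : ℕ} (hk : 1 ≤ k) (h : m ≤ k * n) : Em μ s m ≤ k * Em μ s n :=
  (Em_mono h).trans (Em_mul hμ s n hk)

end

end Pool.Agent.W_7d29a1_H
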