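import Pool.Agent.W_7d29a1_H.UnitH
import Pool.Agent.W_7d29a1_H.Soft4

/-!
MP_7d29a1_pr, TRACK H (all tilts). The width facts: the level set, `vA` is its length, `w = n vA` is nondecreasing, `EE` grows at most
as `w`, uniform limits, `gg`, `ff`, the change of the level. Models: `W_1b8d5d_p.UnitV`, `Width99`, `HsP`.
-/

set_option autoImplicit false
set_option linter.unusedVariables false
set_option linter.unusedSectionVars false

namespace Pool.Agent.W_7d29a1_H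

open MeasureTheory ProbabilityTheory Filter Topology Set
open Pool.Agent.W_7d29a1_F Pool.Agent.W_7d29a1_h4g
open Pool.Agent.W_7d29a1_h47 (EM Nondeg)
open Pool.Agent.W_1b8d5d_p (wR wL wd Rf wd_nonneg le_wd wd_mono wd_mul wd_le wd_small)

noncomputable section

variable {μ : Measure ℝ} [IsProbabilityMeasure μ] {H δ a : ℝ} {A : Set ℝ} {s : ℝ} {n : ℕ}

theorem lev_nonneg (ha : 0 ≤ a) : 0 ≤ a * EE μ s n / n :=
  div_nonneg (mul_nonneg ha (EE_pos (μ := μ) (s := s) n).le) (Nat.cast_nonneg _)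

theorem lev_iff (hn : 1 ≤ n) (x : ℝ) : J μ s x ≤ a * EE μ s n / n ↔ n * J μ s x ≤ a * EE μ s n := by
  have hn0 : (0 : ℝ) < n := by exact_mod_cast hn
  rw [le_div_iff₀ hn0, mul_comm]

theorem Dirs.vr_nonneg (h : Dirs μ H δ A) (hd : s ∈ A) (ha : 0 ≤ a) (n : ℕ) : 0 ≤ vr a μ s n :=
  (h.rf hd).wR_nonneg (lev_nonneg ha)

theorem Dirs.vl_nonneg (h : Dirs μ H δ A) (hd : s ∈ A) (ha : 0 ≤ a) (n : ℕ) : 0 ≤ vl a μ s n :=
  (h.rf hd).wL_nonneg (lev_nonneg ha)

theorem Dirs.J_vr (h : Dirs μ H δ A) (hd : s ∈ A) (ha : 0 ≤ a) (hn : 1 ≤ n) : n * J μ s (vr a μ s n) = a * EE μ s n := by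
  have hn0 : (n : ℝ) ≠ 0 := by exact_mod_cast (show n ≠ 0 by omega)
  unfold vr
  rw [(h.rf hd).J_wR (lev_nonneg ha), mul_div_cancel₀ _ hn0]

theorem Dirs.J_vl (h : Dirs μ H δ A) (hd : s ∈ A) (ha : 0 ≤ a) (hn : 1 ≤ n) : n * J μ s (-vl a μ s n) = a * EE μ s n := by
  have hn0 : (n : ℝ) ≠ 0 := by exact_mod_cast (show n ≠ 0 by omega)
  unfold vl
  rw [(h.rf hd).J_wL (lev_nonneg ha), mul_div_cancel₀ _ hn0]

/-- The level set is the interval `[-vl, vr]`. -/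
theorem Dirs.lev (h : Dirs μ H δ A) (hd : s ∈ A) (ha : 0 ≤ a) (hn : 1 ≤ n) (x : ℝ) :
    n * J μ s x ≤ a * EE μ s n ↔ -vl a μ s n ≤ x ∧ x ≤ vr a μ s n := by
  rw [← lev_iff hn]
  exact (h.rf hd).level_iff (lev_nonneg ha)

/-- The slopes of the level set are at most the width. -/
theorem Dirs.lev_abs (h : Dirs μ H δ A) (hd : s ∈ A) (ha : 0 ≤ a) (hn : 1 ≤ n) {x : ℝ}
    (hx : n * J μ s x ≤ a * EE μ s n) : |x| ≤ vA a μ s n := by
  have h1 := (h.lev hd ha hn x).1 hx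
  have h2 := h.vr_nonneg hd ha n
  have h3 := h.vl_nonneg hd ha n
  unfold vA
  rw [abs_le]
  constructor <;> linarith [h1.1, h1.2]

/-- The levels. -/
theorem lev_two (hμ : EM μ) (ha : 0 ≤ a) (hn : 1 ≤ n) : a * EE μ s (2 * n) / ((2 * n : ℕ) : ℝ) ≤ a * EE μ s n / n := by
  have hn0 : (0 : ℝ) < n := by exact_mod_cast hn
  have h1 := EE_mul hμ s n (k := 2) (by norm_num)
  push_cast at h1 ⊢
  rw [div_le_div_iff₀ (by positivity) hn0]
  have h2 := mul_le_mul_of_nonneg_left h1 (mul_nonneg ha hn0.le)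
  linarith

theorem lev_half (ha : 0 ≤ a) {m : ℕ} (hn : 1 ≤ n) (hnm : n ≤ m) (hm : m ≤ 2 * n) :
    a * EE μ s n / n ≤ 2 * (a * EE μ s m / m) := by
  have hn0 : (0 : ℝ) < n := by exact_mod_cast hn
  have hm0 : (0 : ℝ) < m := by exact_mod_cast (show 0 < m by omega)
  have h1 := mul_le_mul_of_nonneg_left (EE_mono (μ := μ) (s := s) hnm) ha
  have h2 : (m : ℝ) ≤ 2 * n := by exact_mod_cast hm
  rw [← mul_div_assoc, div_le_div_iff₀ hn0 hm0]
  have h3 : 0 ≤ a * EE μ s m := mul_nonneg ha (EE_pos (μ := μ) (s := s) m).le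
  have h4 : a * EE μ s n * m ≤ a * EE μ s m * m := mul_le_mul_of_nonneg_right h1 hm0.le
  have h5 : a * EE μ s m * m ≤ a * EE μ s m * (2 * n) := mul_le_mul_of_nonneg_left h2 h3
  linarith

/-- The widths do not increase under doubling. -/
theorem Dirs.vA_two_le (h : Dirs μ H δ A) (hd : s ∈ A) (ha : 0 ≤ a) (hn : 1 ≤ n) : vA a μ s (2 * n) ≤ vA a μ s n :=
  add_le_add ((h.rf hd).wR_mono (lev_nonneg ha) (lev_two h.em ha hn)) ((h.rf hd).wL_mono (lev_nonneg ha) (lev_two h.em ha hn))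

/-- The widths lose at most a factor `2` between `n` and `2 n`. -/
theorem Dirs.vA_half (h : Dirs μ H δ A) (hd : s ∈ A) (ha : 0 ≤ a) (hn : 1 ≤ n) {m : ℕ} (hnm : n ≤ m) (hm : m ≤ 2 * n) :
    vA a μ s n ≤ 2 * vA a μ s m := by
  have h1 := (h.rf hd).wR_mono (lev_nonneg ha) (lev_half (μ := μ) (s := s) ha hn hnm hm)
  have h2 := (h.rf hd).wL_mono (lev_nonneg ha) (lev_half (μ := μ) (s := s) ha hn hnm hm)
  have h3 := (h.rf hd).wR_mul (B := a * EE μ s m / m) (t := 2) (lev_nonneg ha) (by norm_num)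
  have h4 := (h.rf hd).wL_mul (B := a * EE μ s m / m) (t := 2) (lev_nonneg ha) (by norm_num)
  unfold vA vr vl
  linarith


private def vW (a : ℝ) (μ : Measure ℝ) (s : ℝ) (n : ℕ) : ℝ := wd (J μ s) (a * EE μ s n / n)

/-! ### The width at one time -/

/-- a direction with strictly positive growth. -/
def Gw (μ : Measure ℝ) (s : ℝ) : Prop := ∃ r j : ℝ, 0 < j ∧ ∀ x, r ≤ |x| → j * |x| ≤ J μ s x

theorem Dirs.gw (h : Dirs μ H δ A) (hd : s ∈ A) : Gw μ s := by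
  obtain ⟨j, hj, h1⟩ := h.strict 1 one_pos
  exact ⟨1, j, hj, fun x hx => h1 s hd x hx⟩

private theorem vW_nonneg (n : ℕ) : 0 ≤ vW a μ s n := wd_nonneg _

private theorem vW_lower (hμ : EM μ) (hnd : Nondeg μ) (hr : Rf (J μ s)) (hg : Gw μ s) (hA : 0 ≤ a) {n : ℕ} (hn : 1 ≤ n) :
    2 * (a * EE μ s n / n) ≤ vW a μ s n := by
  obtain ⟨r, j, hj, h⟩ := hg
  have h1 := EE_pos (μ := μ) (s := s) n
  refine le_wd hj h (by positivity) fun x hx => (J_le_abs hμ hnd s x).trans ?_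
  linarith

private theorem vW_pos (hμ : EM μ) (hnd : Nondeg μ) (hr : Rf (J μ s)) (hg : Gw μ s) (hA : 0 < a) {n : ℕ} (hn : 1 ≤ n) : 0 < vW a μ s n := by
  refine lt_of_lt_of_le ?_ (vW_lower hμ hnd hr hg hA.le hn)
  have h1 := EE_pos (μ := μ) (s := s) n
  have h3 : (0 : ℝ) < n := by exact_mod_cast hn
  positivity

/-- The mean unit per time along multiples. -/
theorem EE_div_mul (hμ : EM μ) (s : ℝ) {n k : ℕ} (hn : 1 ≤ n) (hk : 1 ≤ k) :
    EE μ s (k * n) / (k * n : ℕ) ≤ EE μ s n / n := by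
  have h1 := EE_mul hμ s n hk
  have h3 : (0 : ℝ) < n := by exact_mod_cast hn
  have h4 : (0 : ℝ) < k := by exact_mod_cast hk
  push_cast
  rw [div_le_div_iff₀ (by positivity) h3]
  nlinarith

theorem EE_div_two (hμ : EM μ) (s : ℝ) {n n' : ℕ} (hn : 1 ≤ n) (h : n ≤ n') : EE μ s n' / n' ≤ 2 * (EE μ s n / n) := by
  obtain ⟨k, hk⟩ : ∃ k : ℕ, k = n' / n + 1 := ⟨_, rfl⟩
  have h1 : n' ≤ k * n := by
    rw [hk]
    have := Nat.lt_div_mul_add (a := n') (b := n) (by omega)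
    nlinarith
  have h2 : k * n ≤ 2 * n' := by
    rw [hk]
    have := Nat.div_mul_le_self n' n
    nlinarith
  have h3 := (EE_mono (μ := μ) (s := s) h1).trans (EE_mul hμ s n (by rw [hk]; exact Nat.succ_le_succ (Nat.zero_le _) : 1 ≤ k))
  have h4 : (0 : ℝ) < n := by exact_mod_cast hn
  have h5 : (0 : ℝ) < n' := by exact_mod_cast (hn.trans h)
  have h6 : (k : ℝ) * n ≤ 2 * n' := by exact_mod_cast h2
  have h7 := EE_pos (μ := μ) (s := s) n
  rw [← mul_div_assoc, div_le_div_iff₀ h5 h4]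
  nlinarith

/-- The width decreases along multiples. -/
private theorem vW_mul_le (hμ : EM μ) (hg : Gw μ s) (hA : 0 ≤ a) {n k : ℕ} (hn : 1 ≤ n) (hk : 1 ≤ k) : vW a μ s (k * n) ≤ vW a μ s n := by
  obtain ⟨r, j, hj, h⟩ := hg
  refine wd_mono hj h ?_
  rw [mul_div_assoc, mul_div_assoc]
  exact mul_le_mul_of_nonneg_left (EE_div_mul hμ s hn hk) hA

/-- The width at later times. -/
private theorem vW_le_two (hμ : EM μ) (hnd : Nondeg μ) (hr : Rf (J μ s)) (hg : Gw μ s) (hA : 0 ≤ a) {n n' : ℕ} (hn : 1 ≤ n) (h : n ≤ n') :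
    vW a μ s n' ≤ 2 * vW a μ s n := by
  obtain ⟨r, j, hj, h1⟩ := hg
  refine (wd_mono hj h1 ?_).trans (wd_mul hj h1 (hr.conv) hr.zero one_le_two)
  have h2 := mul_le_mul_of_nonneg_left (EE_div_two hμ s hn h) hA
  calc a * EE μ s n' / n' = a * (EE μ s n' / n') := by ring
    _ ≤ a * (2 * (EE μ s n / n)) := h2
    _ = 2 * (a * EE μ s n / n) := by ring

/-- The width `w n = n vW n` is nondecreasing. -/
private theorem vW_w (hμ : EM μ) (hnd : Nondeg μ) (hr : Rf (J μ s)) (hg : Gw μ s) (hA : 0 ≤ a) {n n' : ℕ} (hn : 1 ≤ n) (h : n ≤ n') :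
    n * vW a μ s n ≤ n' * vW a μ s n' := by
  obtain ⟨r, j, hj, h1⟩ := hg
  have h4 : (0 : ℝ) < n := by exact_mod_cast hn
  have h5 : (0 : ℝ) < n' := by exact_mod_cast (hn.trans h)
  have h6 : (n : ℝ) ≤ n' := by exact_mod_cast h
  have h2 : vW a μ s n ≤ (n' / n : ℝ) * vW a μ s n' := by
    refine (wd_mono hj h1 ?_).trans (wd_mul hj h1 (hr.conv) hr.zero (by rw [le_div_iff₀ h4]; linarith))
    have e1 : (n' / n : ℝ) * (a * EE μ s n' / n') = a * EE μ s n' / n := by field_simp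
    rw [e1]
    exact div_le_div_of_nonneg_right (mul_le_mul_of_nonneg_left (EE_mono (μ := μ) (s := s) h) hA) h4.le
  calc n * vW a μ s n ≤ n * ((n' / n : ℝ) * vW a μ s n') := mul_le_mul_of_nonneg_left h2 h4.le
    _ = n' * vW a μ s n' := by field_simp

private theorem vW_two (hμ : EM μ) (hnd : Nondeg μ) (hr : Rf (J μ s)) (hg : Gw μ s) (hA : 0 ≤ a) {n : ℕ} (hn : 1 ≤ n) : vW a μ s n ≤ 2 * vW a μ s (2 * n) := by
  have h1 := vW_w (a := a) hμ hnd hr hg hA hn (show n ≤ 2 * n by omega)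
  have h4 : (0 : ℝ) < n := by exact_mod_cast hn
  push_cast at h1
  have h2 : (n : ℝ) * vW a μ s n ≤ n * (2 * vW a μ s (2 * n)) := by linarith
  exact le_of_mul_le_mul_left h2 h4

/-- **The units grow at most as the widths.** -/
private theorem vW_EE (hμ : EM μ) (hnd : Nondeg μ) (hr : Rf (J μ s)) (hg : Gw μ s) {n k : ℕ} (hn : 1 ≤ n) (hk : 1 ≤ k) :
    EE μ s (k * n) * (n * vW a μ s n) ≤ (k * n : ℕ) * vW a μ s (k * n) * EE μ s n := by
  obtain ⟨r, j, hj, h1⟩ := hg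
  have h4 : (0 : ℝ) < n := by exact_mod_cast hn
  have hkn : 1 ≤ k * n := Nat.one_le_iff_ne_zero.2 (Nat.mul_ne_zero (by omega) (by omega))
  have h5 : (0 : ℝ) < (k * n : ℕ) := by exact_mod_cast hkn
  have hE := EE_pos (μ := μ) (s := s) n
  have hE' := EE_pos (μ := μ) (s := s) (k * n)
  have hc : 1 ≤ (EE μ s n / n) / (EE μ s (k * n) / (k * n : ℕ)) := by
    rw [one_le_div (by positivity)]
    exact EE_div_mul hμ s hn hk
  have h2 : vW a μ s n ≤ (EE μ s n / n) / (EE μ s (k * n) / (k * n : ℕ)) * vW a μ s (k * n) := by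
    refine (wd_mono hj h1 (le_of_eq ?_)).trans (wd_mul hj h1 (hr.conv) hr.zero hc)
    field_simp
  have h3 := mul_le_mul_of_nonneg_left h2 (show (0 : ℝ) ≤ EE μ s (k * n) * n by positivity)
  calc EE μ s (k * n) * (n * vW a μ s n) = EE μ s (k * n) * n * vW a μ s n := by ring
    _ ≤ EE μ s (k * n) * n * ((EE μ s n / n) / (EE μ s (k * n) / (k * n : ℕ)) * vW a μ s (k * n)) := h3
    _ = (k * n : ℕ) * vW a μ s (k * n) * EE μ s n := by field_simp

/-- The same for all later times, with a factor `2`. -/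
private theorem vW_EE_two (hμ : EM μ) (hnd : Nondeg μ) (hr : Rf (J μ s)) (hg : Gw μ s) (hA : 0 ≤ a) {n n' : ℕ} (hn : 1 ≤ n) (h : n ≤ n') :
    EE μ s n' * (n * vW a μ s n) ≤ 2 * (n' * vW a μ s n' * EE μ s n) := by
  obtain ⟨k, hk⟩ : ∃ k : ℕ, k = n' / n := ⟨_, rfl⟩
  have hk1 : 1 ≤ k := by
    rw [hk]
    exact (Nat.one_le_div_iff (by omega)).2 h
  have h1 : k * n ≤ n' := by
    rw [hk]
    exact Nat.div_mul_le_self n' n
  have h2 : n' ≤ 2 * (k * n) := by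
    rw [hk]
    have := Nat.lt_div_mul_add (a := n') (b := n) (by omega)
    rw [← hk] at this ⊢
    nlinarith
  have h3 := vW_EE (a := a) hμ hnd hr hg hn hk1
  have hkn : 1 ≤ k * n := Nat.one_le_iff_ne_zero.2 (Nat.mul_ne_zero (by omega) (by omega))
  have h4 := vW_w (a := a) hμ hnd hr hg hA hkn h1
  have h5 : EE μ s n' ≤ 2 * EE μ s (k * n) := by
    have h6 := (EE_mono (μ := μ) (s := s) h2).trans (EE_mul hμ s (k * n) one_le_two)
    exact_mod_cast h6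
  have h6 : 0 ≤ (n : ℝ) * vW a μ s n := mul_nonneg (Nat.cast_nonneg _) (vW_nonneg n)
  have h7 := mul_le_mul_of_nonneg_right h5 h6
  have h8 := mul_le_mul_of_nonneg_right h4 (EE_pos (μ := μ) (s := s) n).le
  linarith

/-! ### The bridge -/

/-- **The width is the length of the level set.** -/
theorem Dirs.vA_wd (hD : Dirs μ H δ A) (hd : s ∈ A) (hA : 0 ≤ a) (n : ℕ) : vA a μ s n = wd (J μ s) (a * EE μ s n / n) := by
  have h0 : 0 ≤ a * EE μ s n / n := lev_nonneg hA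
  have h1 : {x | J μ s x ≤ a * EE μ s n / n} = Icc (-vl a μ s n) (vr a μ s n) := by
    ext x
    rw [mem_Icc]
    exact (hD.rf hd).level_iff h0
  have h2 := hD.vr_nonneg hd hA n
  have h3 := hD.vl_nonneg hd hA n
  unfold wd
  rw [h1, Real.volume_real_Icc_of_le (by linarith)]
  unfold vA
  ring

section width

variable (hD : Dirs μ H δ A) (hd : s ∈ A)

include hD hd

private theorem vW_eq (hA : 0 ≤ a) (n : ℕ) : vA a μ s n = vW a μ s n := hD.vA_wd hd hA n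

theorem Dirs.vA_pos (hA : 0 < a) {n : ℕ} (hn : 1 ≤ n) : 0 < vA a μ s n := by
  rw [vW_eq hD hd hA.le]
  exact vW_pos hD.em hD.nd (hD.rf hd) (hD.gw hd) hA hn

/-- a lower bound of the width: `n vA ≥ 2 a EE / L`. -/
theorem Dirs.vA_lower (hA : 0 ≤ a) {n : ℕ} (hn : 1 ≤ n) : 2 * (a * EE μ s n / n) ≤ vA a μ s n := by
  rw [vW_eq hD hd hA]
  exact vW_lower hD.em hD.nd (hD.rf hd) (hD.gw hd) hA hn

/-- The width decreases along multiples. -/
theorem Dirs.vA_mul_le (hA : 0 ≤ a) {n k : ℕ} (hn : 1 ≤ n) (hk : 1 ≤ k) : vA a μ s (k * n) ≤ vA a μ s n := by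
  rw [vW_eq hD hd hA, vW_eq hD hd hA]
  exact vW_mul_le hD.em (hD.gw hd) hA hn hk

/-- The width at later times. -/
theorem Dirs.vA_le_two (hA : 0 ≤ a) {n n' : ℕ} (hn : 1 ≤ n) (h : n ≤ n') : vA a μ s n' ≤ 2 * vA a μ s n := by
  rw [vW_eq hD hd hA, vW_eq hD hd hA]
  exact vW_le_two hD.em hD.nd (hD.rf hd) (hD.gw hd) hA hn h

/-- The width `w n = n vA n` is nondecreasing. -/
theorem Dirs.w_mono (hA : 0 ≤ a) {n n' : ℕ} (hn : 1 ≤ n) (h : n ≤ n') : n * vA a μ s n ≤ n' * vA a μ s n' := by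
  rw [vW_eq hD hd hA, vW_eq hD hd hA]
  exact vW_w hD.em hD.nd (hD.rf hd) (hD.gw hd) hA hn h

theorem Dirs.vA_two (hA : 0 ≤ a) {n : ℕ} (hn : 1 ≤ n) : vA a μ s n ≤ 2 * vA a μ s (2 * n) := by
  rw [vW_eq hD hd hA, vW_eq hD hd hA]
  exact vW_two hD.em hD.nd (hD.rf hd) (hD.gw hd) hA hn

/-- **The units grow at most as the widths.** -/
theorem Dirs.EE_w (hA : 0 ≤ a) {n k : ℕ} (hn : 1 ≤ n) (hk : 1 ≤ k) :
    EE μ s (k * n) * (n * vA a μ s n) ≤ (k * n : ℕ) * vA a μ s (k * n) * EE μ s n := by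
  rw [vW_eq hD hd hA, vW_eq hD hd hA]
  exact vW_EE hD.em hD.nd (hD.rf hd) (hD.gw hd) hn hk

/-- The same for all later times, with a factor `2`. -/
theorem Dirs.EE_w_two (hA : 0 ≤ a) {n n' : ℕ} (hn : 1 ≤ n) (h : n ≤ n') :
    EE μ s n' * (n * vA a μ s n) ≤ 2 * (n' * vA a μ s n' * EE μ s n) := by
  rw [vW_eq hD hd hA, vW_eq hD hd hA]
  exact vW_EE_two hD.em hD.nd (hD.rf hd) (hD.gw hd) hA hn h

/-- The width as a function of the level. -/
theorem Dirs.vA_level_mono {a' : ℝ} (hA : 0 ≤ a) (h : a ≤ a') (n : ℕ) : vA a μ s n ≤ vA a' μ s n := by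
  rw [hD.vA_wd hd hA, hD.vA_wd hd (hA.trans h)]
  obtain ⟨r, j, hj, h1⟩ := hD.gw hd
  exact wd_mono hj h1 (div_le_div_of_nonneg_right (mul_le_mul_of_nonneg_right h (EE_pos (μ := μ) (s := s) n).le) (Nat.cast_nonneg _))

theorem Dirs.vA_level_mul {c : ℝ} (hA : 0 ≤ a) (hc : 1 ≤ c) (n : ℕ) : vA (c * a) μ s n ≤ c * vA a μ s n := by
  rw [hD.vA_wd hd hA, hD.vA_wd hd (mul_nonneg (zero_le_one.trans hc) hA)]
  obtain ⟨r, j, hj, h1⟩ := hD.gw hd
  have h2 := wd_mul (t := a * EE μ s n / n) hj h1 (hD.rf hd).conv (hD.rf hd).zero hc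
  have e1 : c * (a * EE μ s n / n) = c * a * EE μ s n / n := by ring
  rwa [e1] at h2

end width

/-! ### Uniform limits -/

/-- A bound of all units. -/
theorem EE_one_Ku (hD : Dirs μ H δ A) : ∃ Ku : ℝ, 1 ≤ Ku ∧ ∀ s ∈ A, ∀ n : ℕ, 1 ≤ n → EE μ s n ≤ Ku * n := by
  obtain ⟨Ku, h1, h2⟩ := EE_lin hD.em hD.nd H
  exact ⟨Ku, h1, fun s hs n hn => h2 s (hD.bd s hs) n hn⟩

omit [IsProbabilityMeasure μ] in
theorem Rate.one (hR : Rate μ A) {ε : ℝ} (hε : 0 < ε) :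
    ∃ n0 : ℕ, 1 ≤ n0 ∧ ∀ s ∈ A, ∀ n : ℕ, n0 ≤ n → EE μ s n ≤ ε * n := by
  obtain ⟨n0, h⟩ := hR ε hε
  exact ⟨max n0 1, le_max_right _ _, fun s hd n hn => h s hd n ((le_max_left _ _).trans hn)⟩

/-- The widths tend to `0`, uniformly in the direction. -/
theorem Dirs.vA_small (hD : Dirs μ H δ A) (hR : Rate μ A) (hA : 0 < a) {ε : ℝ} (hε : 0 < ε) :
    ∃ n0 : ℕ, 1 ≤ n0 ∧ ∀ s ∈ A, ∀ n : ℕ, n0 ≤ n → vA a μ s n ≤ ε := by
  obtain ⟨j, hj, h⟩ := hD.strict (ε / 2) (by positivity)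
  obtain ⟨n0, hn0, h1⟩ := Rate.one hR (ε := j * (ε / 2) / a) (by positivity)
  refine ⟨n0, hn0, fun s hd n hn => ?_⟩
  have h2 := h1 s hd n hn
  have hn00 : (0 : ℝ) < n := by exact_mod_cast hn0.trans hn
  have h3 : a * EE μ s n / n ≤ j * (ε / 2) := by
    rw [div_le_iff₀ hn00]
    have h4 := mul_le_mul_of_nonneg_left h2 hA.le
    have e1 : a * (j * (ε / 2) / a * n) = j * (ε / 2) * n := by field_simp
    linarith
  have h4 := wd_small (J := J μ s) (t := a * EE μ s n / n) (r := ε / 2) (by positivity) hj (fun x hx => h s hd x hx) h3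
  rw [hD.vA_wd hd hA.le]
  linarith

/-- **The widths are much larger than the units, uniformly in the direction.** -/
theorem Dirs.w_large (hD : Dirs μ H δ A) (hR : Rate μ A) (hA : 0 < a) (R : ℝ) :
    ∃ n0 : ℕ, 1 ≤ n0 ∧ ∀ s ∈ A, ∀ n : ℕ, n0 ≤ n → R * EE μ s n ≤ n * vA a μ s n := by
  obtain ⟨R', hR', hRR⟩ : ∃ R' : ℝ, 0 < R' ∧ R ≤ R' := ⟨max R 1, lt_max_of_lt_right one_pos, le_max_left _ _⟩
  obtain ⟨δ, hδ, h⟩ := hD.nc (a / R') (by positivity)
  obtain ⟨n0, hn0, h1⟩ := Rate.one hR (ε := δ / R') (by positivity)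
  refine ⟨n0, hn0, fun s hd n hn => ?_⟩
  have h2 := h1 s hd n hn
  have hE := EE_pos (μ := μ) (s := s) n
  have hn00 : (0 : ℝ) < n := by exact_mod_cast hn0.trans hn
  obtain ⟨j, hj, hs⟩ := hD.strict 1 one_pos
  have h3 : R' * EE μ s n / n ≤ δ := by
    rw [div_le_iff₀ hn00]
    have h4 := mul_le_mul_of_nonneg_left h2 hR'.le
    have e1 : R' * (δ / R' * n) = δ * n := by field_simp
    linarith
  have h4 : 2 * (R' * EE μ s n / n) ≤ vA a μ s n := by
    rw [hD.vA_wd hd hA.le]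
    refine le_wd hj (fun x hx => hs s hd x hx) (by positivity) fun x hx => ?_
    refine (h s hd x (hx.trans h3)).trans ?_
    have h5 : a / R' * |x| ≤ a / R' * (R' * EE μ s n / n) := mul_le_mul_of_nonneg_left hx (by positivity)
    refine h5.trans (le_of_eq ?_)
    field_simp
  have h5 := mul_le_mul_of_nonneg_left h4 hn00.le
  have e1 : (n : ℝ) * (2 * (R' * EE μ s n / n)) = 2 * (R' * EE μ s n) := by field_simp
  rw [e1] at h5
  have h6 := mul_le_mul_of_nonneg_right hRR hE.le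
  have h7 : 0 < R' * EE μ s n := by positivity
  linarith

/-! ### Logarithms -/

theorem pow_gg (s : ℝ) (x : ℕ) : (2 : ℝ) ^ gg μ s x = EE μ s (2 ^ x) :=
  Real.rpow_logb two_pos (by norm_num) (EE_pos (μ := μ) (s := s) _)

theorem gg_succ (hμ : EM μ) (s : ℝ) (x : ℕ) : gg μ s (x + 1) ≤ gg μ s x + 1 := by
  have h1 := EE_mul hμ s (2 ^ x) one_le_two
  have e1 : 2 ^ (x + 1) = 2 * 2 ^ x := by ring
  have h2 := EE_pos (μ := μ) (s := s) (2 ^ x)
  have e2 : gg μ s x + 1 = Real.logb 2 (2 * EE μ s (2 ^ x)) := by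
    rw [Real.logb_mul two_ne_zero h2.ne', Real.logb_self_eq_one one_lt_two]
    unfold gg
    ring
  rw [e2]
  refine (Real.logb_le_logb one_lt_two (EE_pos (μ := μ) (s := s) _) (by positivity)).2 ?_
  rw [e1]
  exact_mod_cast h1

theorem gg_add (hμ : EM μ) (s : ℝ) (x k : ℕ) : gg μ s (x + k) ≤ gg μ s x + k := by
  induction k with
  | zero => simp
  | succ k ih =>
    have h := gg_succ hμ s (x + k)
    push_cast
    rw [← add_assoc]
    linarith

/-- The first logarithm is bounded, uniformly. -/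
theorem gg_zero (hD : Dirs μ H δ A) : ∃ G0 : ℝ, ∀ s ∈ A, |gg μ s 0| ≤ G0 := by
  obtain ⟨Ku, h1, h2⟩ := EE_one_Ku hD
  refine ⟨Real.logb 2 Ku, fun s hs => ?_⟩
  have h3 := h2 s hs 1 le_rfl
  push_cast at h3
  rw [mul_one] at h3
  rw [abs_of_nonneg (gg_nonneg 0)]
  unfold gg
  rw [pow_zero]
  exact (Real.logb_le_logb one_lt_two (EE_pos _) (one_pos.trans_le h1)).2 h3

variable (hD : Dirs μ H δ A) (hA : 0 < a) (hd : s ∈ A)

include hD hA hd in
theorem pow_ff (x : ℕ) : (2 : ℝ) ^ (-ff a μ s x) = vA a μ s (2 ^ x) := by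
  unfold ff
  rw [neg_neg]
  exact Real.rpow_logb two_pos (by norm_num) (hD.vA_pos hd hA Nat.one_le_two_pow)

include hD hA hd in
theorem ff_mono : Monotone (ff a μ s) := by
  refine monotone_nat_of_le_succ fun x => ?_
  unfold ff
  have h1 := hD.vA_mul_le hd hA.le (n := 2 ^ x) (k := 2) Nat.one_le_two_pow one_le_two
  have e1 : 2 ^ (x + 1) = 2 * 2 ^ x := by ring
  refine neg_le_neg ((Real.logb_le_logb one_lt_two (hD.vA_pos hd hA Nat.one_le_two_pow)
    (hD.vA_pos hd hA Nat.one_le_two_pow)).2 ?_)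
  rw [e1]
  exact h1

include hD hA hd in
theorem ff_succ (x : ℕ) : ff a μ s (x + 1) ≤ ff a μ s x + 1 := by
  have h1 := hD.vA_two hd hA.le (n := 2 ^ x) Nat.one_le_two_pow
  have h2 : 0 < vA a μ s (2 ^ (x + 1)) := hD.vA_pos hd hA Nat.one_le_two_pow
  have e1 : 2 ^ (x + 1) = 2 * 2 ^ x := by ring
  rw [← e1] at h1
  have h3 : Real.logb 2 (vA a μ s (2 ^ x)) ≤ Real.logb 2 (2 * vA a μ s (2 ^ (x + 1))) :=
    (Real.logb_le_logb one_lt_two (hD.vA_pos hd hA Nat.one_le_two_pow) (by positivity)).2 h1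
  rw [Real.logb_mul two_ne_zero h2.ne', Real.logb_self_eq_one one_lt_two] at h3
  unfold ff
  linarith

include hD hA hd in
theorem ff_add (x k : ℕ) : ff a μ s (x + k) ≤ ff a μ s x + k := by
  induction k with
  | zero => simp
  | succ k ih =>
    have h := ff_succ hD hA hd (x + k)
    push_cast
    rw [← add_assoc]
    linarith

include hD hA hd in
/-- **The units grow at most as the widths**: `g(x+k) - g(x) ≤ k - (f(x+k) - f(x))`. -/
theorem gg_ff (x k : ℕ) : gg μ s (x + k) - gg μ s x ≤ k - (ff a μ s (x + k) - ff a μ s x) := by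
  have h1 := hD.EE_w hd hA.le (n := 2 ^ x) (k := 2 ^ k) Nat.one_le_two_pow Nat.one_le_two_pow
  have e1 : 2 ^ k * 2 ^ x = 2 ^ (x + k) := by ring
  rw [e1] at h1
  have h2 : 0 < vA a μ s (2 ^ x) := hD.vA_pos hd hA Nat.one_le_two_pow
  have h3 : 0 < vA a μ s (2 ^ (x + k)) := hD.vA_pos hd hA Nat.one_le_two_pow
  have h4 := EE_pos (μ := μ) (s := s) (2 ^ x)
  have h5 := EE_pos (μ := μ) (s := s) (2 ^ (x + k))
  push_cast at h1
  have h6 := (Real.logb_le_logb one_lt_two (by positivity) (by positivity)).2 h1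
  rw [Real.logb_mul h5.ne' (by positivity), Real.logb_mul (by positivity) h2.ne', Real.logb_mul (by positivity) h4.ne',
    Real.logb_mul (by positivity) h3.ne', Real.logb_pow, Real.logb_pow, Real.logb_self_eq_one one_lt_two] at h6
  push_cast at h6
  unfold gg ff
  linarith

include hD hA in
/-- The first width is bounded, uniformly. -/
theorem ff_zero : ∃ F0 : ℝ, ∀ s ∈ A, -F0 ≤ ff a μ s 0 := by
  obtain ⟨j, hj, h⟩ := hD.strict 1 one_pos
  obtain ⟨Ku, hKu, hE⟩ := EE_one_Ku hD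
  refine ⟨Real.logb 2 (2 * max 1 (a * Ku / j)), fun s hd => ?_⟩
  have h1 := hE s hd 1 le_rfl
  rw [Nat.cast_one, mul_one] at h1
  have h2 : vA a μ s 1 ≤ 2 * max 1 (a * EE μ s 1 / (1 : ℕ) / j) := by
    rw [hD.vA_wd hd hA.le]
    exact wd_le zero_le_one hj fun x hx => h s hd x hx
  have h3 : vA a μ s 1 ≤ 2 * max 1 (a * Ku / j) := by
    refine h2.trans ?_
    have h4 : a * EE μ s 1 / (1 : ℕ) / j ≤ a * Ku / j := by
      rw [Nat.cast_one, div_one]
      exact div_le_div_of_nonneg_right (mul_le_mul_of_nonneg_left h1 hA.le) hj.le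
    have h5 := max_le_max (le_refl (1 : ℝ)) h4
    linarith
  unfold ff
  rw [pow_zero]
  refine neg_le_neg ((Real.logb_le_logb one_lt_two (hD.vA_pos hd hA le_rfl) ?_).2 h3)
  have := le_max_left (1 : ℝ) (a * Ku / j)
  linarith

include hD hA in
/-- **`f` tends to infinity, uniformly.** -/
theorem ff_large (hR : Rate μ A) (M : ℝ) : ∃ x1 : ℕ, ∀ s ∈ A, ∀ x : ℕ, x1 ≤ x → M ≤ ff a μ s x := by
  obtain ⟨n0, hn0, h⟩ := hD.vA_small hR hA (ε := (2 : ℝ) ^ (-M)) (by positivity)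
  refine ⟨n0, fun s hd x hx => ?_⟩
  have h1 : n0 ≤ 2 ^ x := hx.trans Nat.lt_two_pow_self.le
  have h2 := h s hd (2 ^ x) h1
  have h3 := (Real.logb_le_logb one_lt_two (hD.vA_pos hd hA Nat.one_le_two_pow) (by positivity)).2 h2
  rw [Real.logb_rpow two_pos (by norm_num)] at h3
  unfold ff
  linarith

/-- `g` tends to infinity, uniformly. -/
theorem gg_large (hG : Grow μ A) (M : ℝ) : ∃ x1 : ℕ, ∀ s ∈ A, ∀ x : ℕ, x1 ≤ x → M ≤ gg μ s x := by
  obtain ⟨n0, h⟩ := hG ((2 : ℝ) ^ M)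
  refine ⟨n0, fun s hd x hx => ?_⟩
  have h1 : n0 ≤ 2 ^ x := hx.trans Nat.lt_two_pow_self.le
  have h2 := h s hd (2 ^ x) h1
  have h3 := (Real.logb_le_logb one_lt_two (by positivity) (EE_pos (μ := μ) (s := s) _)).2 h2
  rwa [Real.logb_rpow two_pos (by norm_num)] at h3


/-! ### Change of the level -/

theorem vA_change (hD : Dirs μ H δ A) {s : ℝ} (hd : s ∈ A) {a a' : ℝ} (ha : 0 < a) (ha' : 0 < a') (n : ℕ) :
    vA a' μ s n ≤ max (a' / a) (a / a') * vA a μ s n := by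
  have hc : 1 ≤ max (a' / a) (a / a') := by
    rcases le_total a a' with h | h
    · exact le_max_of_le_left ((one_le_div ha).2 h)
    · exact le_max_of_le_right ((one_le_div ha').2 h)
  have h0 : 0 ≤ vA a μ s n := add_nonneg (hD.vr_nonneg hd ha.le n) (hD.vl_nonneg hd ha.le n)
  rcases le_total a a' with h | h
  · have h1 := hD.vA_level_mul hd ha.le ((one_le_div ha).2 h) n
    rw [div_mul_cancel₀ _ ha.ne'] at h1
    exact h1.trans (mul_le_mul_of_nonneg_right (le_max_left _ _) h0)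
  · have h1 := hD.vA_level_mono hd ha'.le h n
    nlinarith

/-- The change of the level of the width. -/
theorem ff_change (hD : Dirs μ H δ A) {a a' : ℝ} (ha : 0 < a) (ha' : 0 < a') :
    ∃ C : ℝ, ∀ s ∈ A, ∀ x : ℕ, |ff a' μ s x - ff a μ s x| ≤ C := by
  set c := max (a' / a) (a / a') with hc
  have hc' : max (a / a') (a' / a) = c := max_comm _ _
  have hc0 : 0 < c := lt_max_of_lt_left (div_pos ha' ha)
  refine ⟨Real.logb 2 c, fun s hd x => ?_⟩
  have hn : 1 ≤ 2 ^ x := Nat.one_le_two_pow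
  have p1 := hD.vA_pos hd ha hn
  have p2 := hD.vA_pos hd ha' hn
  have h1 := vA_change hD hd ha ha' (2 ^ x)
  have h2 := vA_change hD hd ha' ha (2 ^ x)
  rw [hc'] at h2
  have h3 := Real.logb_le_logb_of_le (b := 2) (by norm_num) p2 h1
  have h4 := Real.logb_le_logb_of_le (b := 2) (by norm_num) p1 h2
  rw [Real.logb_mul hc0.ne' p1.ne'] at h3
  rw [Real.logb_mul hc0.ne' p2.ne'] at h4
  unfold ff
  rw [abs_le]
  constructor <;> linarith


end

end Pool.Agent.W_7d29a1_H
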