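import Pool.Agent.W_7d29a1_H.HDefs
import Pool.Agent.W_7d29a1_F.Final
import Pool.Agent.W_7d29a1_h47q.ParF

/-!
MP_7d29a1_pr, TRACK H (all tilts), (H1): the free energy near a tilt and its rate function. (helper61)
-/

set_option autoImplicit false

namespace Pool.Agent.W_7d29a1_H

open MeasureTheory ProbabilityTheory Filter Topology Set
open Pool.Agent.W_7d29a1_F
open Pool.Agent.W_1b8d5d_p (wR wL wd Rf)
open Pool.Agent.W_7d29a1_h47 (EM Nondeg)

variable {μ : Measure ℝ}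

/-! ### The slope and the excess of the free energy -/

section base

variable [IsProbabilityMeasure μ]

theorem lam_hasDerivAt (hμ : EM μ) (hnd : Nondeg μ) (s : ℝ) : HasDerivAt (lam μ) (sl μ s) s :=
  (differentiable_lam hμ hnd s).hasDerivAt

/-- The tangent lies below. -/
theorem lam_tangent (hμ : EM μ) (hnd : Nondeg μ) (s r : ℝ) : lam μ s + sl μ s * (r - s) ≤ lam μ r := by
  have hc := lam_convex (μ := μ) hμ
  have hd := lam_hasDerivAt hμ hnd s
  rcases lt_trichotomy r s with h | h | h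
  · have h1 := hc.slope_le_of_hasDerivAt (Set.mem_univ r) (Set.mem_univ s) h hd
    rw [slope_def_field, div_le_iff₀ (by linarith)] at h1
    linarith
  · subst h
    simp
  · have h1 := hc.le_slope_of_hasDerivAt (Set.mem_univ s) (Set.mem_univ r) h hd
    rw [slope_def_field, le_div_iff₀ (by linarith)] at h1
    linarith

/-- The slopes are in `(0, 1)`. -/
theorem sl_mem (hμ : EM μ) (hnd : Nondeg μ) (s : ℝ) : 0 < sl μ s ∧ sl μ s < 1 := slope_mem hμ (lam_tangent hμ hnd s)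

theorem sl_mono (hμ : EM μ) (hnd : Nondeg μ) : Monotone (sl μ) := by
  intro x y hxy
  rcases hxy.eq_or_lt with rfl | h
  · exact le_rfl
  have h1 := lam_tangent hμ hnd x y
  have h2 := lam_tangent hμ hnd y x
  by_contra hcon
  push Not at hcon
  nlinarith [mul_pos (sub_pos.2 h) (sub_pos.2 hcon)]

/-- The difference quotients are between the slopes. -/
theorem sl_quot (hμ : EM μ) (hnd : Nondeg μ) {x h : ℝ} :
    sl μ x * h ≤ lam μ (x + h) - lam μ x ∧ lam μ (x + h) - lam μ x ≤ sl μ (x + h) * h := by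
  have h1 := lam_tangent hμ hnd x (x + h)
  have h2 := lam_tangent hμ hnd (x + h) x
  constructor <;> linarith

theorem sl_cont (hμ : EM μ) (hnd : Nondeg μ) : Continuous (sl μ) := by
  rw [continuous_iff_continuousAt]
  intro s
  rw [Metric.continuousAt_iff]
  intro ε hε
  have hdl : Differentiable ℝ (lam μ) := differentiable_lam hμ hnd
  have hlc : Continuous (lam μ) := hdl.continuous
  -- a step `h` with difference quotients near the slope
  have hd := (hasDerivAt_iff_isLittleO.1 (lam_hasDerivAt hμ hnd s)).def (show (0 : ℝ) < ε / 2 by positivity)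
  rw [Metric.eventually_nhds_iff] at hd
  obtain ⟨ρ, hρ, hd⟩ := hd
  obtain ⟨h, hh⟩ : ∃ h : ℝ, h = ρ / 2 := ⟨_, rfl⟩
  have hh0 : 0 < h := by rw [hh]; positivity
  have hq1 := hd (y := s + h) (by rw [Real.dist_eq, add_sub_cancel_left, abs_of_pos hh0]; linarith)
  have hq2 := hd (y := s - h) (by rw [Real.dist_eq, sub_sub_cancel_left, abs_neg, abs_of_pos hh0]; linarith)
  rw [add_sub_cancel_left, Real.norm_eq_abs, Real.norm_eq_abs, abs_of_pos hh0, smul_eq_mul] at hq1
  rw [sub_sub_cancel_left, Real.norm_eq_abs, Real.norm_eq_abs, abs_neg, abs_of_pos hh0, smul_eq_mul] at hq2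
  have a1 := (abs_le.1 hq1).2
  have a2 := (abs_le.1 hq2).2
  -- continuity of `lam`
  have hc1 : ContinuousAt (fun r => lam μ (r + h) - lam μ r) s := by fun_prop
  have hc2 : ContinuousAt (fun r => lam μ (r - h) - lam μ r) s := by fun_prop
  rw [Metric.continuousAt_iff] at hc1 hc2
  obtain ⟨ρ1, hρ1, hc1⟩ := hc1 (ε / 2 * h) (by positivity)
  obtain ⟨ρ2, hρ2, hc2⟩ := hc2 (ε / 2 * h) (by positivity)
  refine ⟨min ρ1 ρ2, lt_min hρ1 hρ2, fun r hr => ?_⟩
  have b1 := hc1 (hr.trans_le (min_le_left _ _))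
  have b2 := hc2 (hr.trans_le (min_le_right _ _))
  rw [Real.dist_eq] at b1 b2 ⊢
  have b1' := (abs_lt.1 b1).2
  have b2' := (abs_lt.1 b2).2
  have q1 := (sl_quot hμ hnd (x := r) (h := h)).1
  have q2 := (sl_quot hμ hnd (x := r - h) (h := h)).2
  rw [sub_add_cancel] at q2
  rw [abs_lt]
  constructor
  · have : -ε * h < (sl μ r - sl μ s) * h := by nlinarith
    exact lt_of_mul_lt_mul_right this hh0.le
  · have : (sl μ r - sl μ s) * h < ε * h := by nlinarith
    exact lt_of_mul_lt_mul_right this hh0.le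

omit [IsProbabilityMeasure μ] in
theorem ex_zero (s : ℝ) : ex μ s 0 = 0 := by
  unfold ex
  simp

theorem ex_nonneg (hμ : EM μ) (hnd : Nondeg μ) (s r : ℝ) : 0 ≤ ex μ s r := by
  have h := lam_tangent hμ hnd s (s + r)
  unfold ex
  linarith

theorem ex_convex (hμ : EM μ) (s : ℝ) : ConvexOn ℝ univ (ex μ s) := by
  have h1 := lam_convex (μ := μ) hμ
  refine ⟨convex_univ, fun x _ y _ a b ha hb hab => ?_⟩
  have h2 := h1.2 (mem_univ (s + x)) (mem_univ (s + y)) ha hb hab
  simp only [smul_eq_mul] at h2 ⊢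
  unfold ex
  have e1 : a * (s + x) + b * (s + y) = s + (a * x + b * y) := by
    have : a * (s + x) + b * (s + y) = (a + b) * s + (a * x + b * y) := by ring
    rw [this, hab, one_mul]
  rw [e1] at h2
  have e2 : a * lam μ s + b * lam μ s = lam μ s := by rw [← add_mul, hab, one_mul]
  linarith

/-- The excess at a multiple: `ex (t r) ≤ t ex r` for `0 ≤ t ≤ 1`. -/
theorem ex_mul_le (hμ : EM μ) (s : ℝ) {t : ℝ} (h0 : 0 ≤ t) (h1 : t ≤ 1) (r : ℝ) : ex μ s (t * r) ≤ t * ex μ s r := by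
  have h := (ex_convex (μ := μ) hμ s).2 (mem_univ r) (mem_univ 0) h0 (sub_nonneg.2 h1) (by ring)
  simp only [smul_eq_mul, mul_zero, add_zero] at h
  rw [ex_zero, mul_zero, add_zero] at h
  exact h

/-- The excess is at most `|r|` times the increment of the slope. -/
theorem ex_le_sl (hμ : EM μ) (hnd : Nondeg μ) (s r : ℝ) : ex μ s r ≤ r * (sl μ (s + r) - sl μ s) := by
  have h := lam_tangent hμ hnd (s + r) s
  unfold ex
  linarith

theorem ex_le (hμ : EM μ) (hnd : Nondeg μ) (s r : ℝ) : ex μ s r ≤ |r| := by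
  have h := ex_le_sl hμ hnd s r
  have h1 := sl_mem hμ hnd s
  have h2 := sl_mem hμ hnd (s + r)
  rcases le_total 0 r with hr | hr
  · rw [abs_of_nonneg hr]
    nlinarith
  · rw [abs_of_nonpos hr]
    nlinarith

/-- **Power-law lower bound of the excess, uniformly for bounded tilts.** -/
theorem ex_power (hμ : EM μ) (hnd : Nondeg μ) (H : ℝ) : ∃ c : ℝ, 0 < c ∧ ∀ s, |s| ≤ H → ∀ r : ℝ, |r| ≤ 1 →
    c * |r| ^ 100 ≤ ex μ s r := by
  obtain ⟨c, hc, h⟩ := Pool.Agent.W_7d29a1_h47.power_convexF hμ hnd (|H| / 2 + 1)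
  refine ⟨c / 4 ^ 100, by positivity, fun s hs r hr => ?_⟩
  rcases eq_or_ne r 0 with rfl | hr0
  · rw [abs_zero, ex_zero]
    norm_num
  have hr1 : 0 < |r| := abs_pos.2 hr0
  have hH : |s| ≤ |H| := hs.trans (le_abs_self H)
  -- the second difference of `lam` with centre `s + r / 2`
  have hcen : |(s + r / 2) / 2| ≤ |H| / 2 + 1 := by
    rw [abs_div, abs_of_pos (two_pos : (0 : ℝ) < 2)]
    have : |s + r / 2| ≤ |s| + |r / 2| := abs_add_le _ _
    rw [abs_div, abs_of_pos (two_pos : (0 : ℝ) < 2)] at this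
    linarith
  have h1 := h ((s + r / 2) / 2) hcen (|r| / 4) (by positivity) (by linarith)
  have hsym : lam μ (s + r) + lam μ s - 2 * lam μ (s + r / 2) =
      Pool.Agent.W_7d29a1_h47.Lam μ ((s + r / 2) / 2 + |r| / 4) + Pool.Agent.W_7d29a1_h47.Lam μ ((s + r / 2) / 2 - |r| / 4) -
        2 * Pool.Agent.W_7d29a1_h47.Lam μ ((s + r / 2) / 2) := by
    unfold lam
    rcases abs_cases r with ⟨e, -⟩ | ⟨e, -⟩
    · rw [e, show (s + r / 2) / 2 + r / 4 = (s + r) / 2 by ring, show (s + r / 2) / 2 - r / 4 = s / 2 by ring]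
      ring
    · rw [e, show (s + r / 2) / 2 + -r / 4 = s / 2 by ring, show (s + r / 2) / 2 - -r / 4 = (s + r) / 2 by ring]
      ring
  have h2 := lam_tangent hμ hnd s (s + r / 2)
  have h3 : c / 4 ^ 100 * |r| ^ 100 = c * (|r| / 4) ^ 100 := by
    rw [div_pow]
    ring
  rw [h3]
  unfold ex
  linarith

theorem sl_strictMono (hμ : EM μ) (hnd : Nondeg μ) : StrictMono (sl μ) := by
  intro x y hxy
  refine lt_of_le_of_ne (sl_mono hμ hnd hxy.le) fun heq => ?_
  obtain ⟨c, hc, h⟩ := ex_power hμ hnd |x|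
  obtain ⟨r, hr⟩ : ∃ r : ℝ, r = min (y - x) 1 := ⟨_, rfl⟩
  have hr0 : 0 < r := by rw [hr]; exact lt_min (by linarith) one_pos
  have h1 := h x le_rfl r (by rw [abs_of_pos hr0, hr]; exact min_le_right _ _)
  have h2 := ex_le_sl hμ hnd x r
  have h3 : sl μ (x + r) ≤ sl μ y := sl_mono hμ hnd (by rw [hr]; linarith [min_le_left (y - x) 1])
  have h4 : r * (sl μ (x + r) - sl μ x) ≤ r * 0 := mul_le_mul_of_nonneg_left (by linarith) hr0.le
  have h5 : 0 < c * |r| ^ 100 := by
    rw [abs_of_pos hr0]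
    positivity
  linarith

/-! ### The rate function -/

omit [IsProbabilityMeasure μ] in
theorem J_ne (s x : ℝ) : {q | ∃ r : ℝ, |r| ≤ 1 ∧ q = r * x - ex μ s r}.Nonempty := ⟨_, 0, by simp, rfl⟩

theorem J_bdd (hμ : EM μ) (hnd : Nondeg μ) (s x : ℝ) : BddAbove {q | ∃ r : ℝ, |r| ≤ 1 ∧ q = r * x - ex μ s r} := by
  refine ⟨|x|, ?_⟩
  rintro q ⟨r, hr, rfl⟩
  have h1 := ex_nonneg hμ hnd s r
  have h2 : r * x ≤ |r| * |x| := by
    rw [← abs_mul]
    exact le_abs_self _
  have h3 : |r| * |x| ≤ 1 * |x| := mul_le_mul_of_nonneg_right hr (abs_nonneg x)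
  linarith

theorem le_J (hμ : EM μ) (hnd : Nondeg μ) (s x : ℝ) {r : ℝ} (hr : |r| ≤ 1) : r * x - ex μ s r ≤ J μ s x :=
  le_csSup (J_bdd hμ hnd s x) ⟨r, hr, rfl⟩

omit [IsProbabilityMeasure μ] in
theorem J_le {s x c : ℝ} (h : ∀ r : ℝ, |r| ≤ 1 → r * x - ex μ s r ≤ c) : J μ s x ≤ c := by
  refine csSup_le (J_ne s x) ?_
  rintro q ⟨r, hr, rfl⟩
  exact h r hr

theorem J_zero (hμ : EM μ) (hnd : Nondeg μ) (s : ℝ) : J μ s 0 = 0 := by
  refine le_antisymm (J_le fun r _ => ?_) ?_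
  · have := ex_nonneg hμ hnd s r
    linarith
  · have h := le_J hμ hnd s 0 (r := 0) (by simp)
    rw [ex_zero] at h
    linarith

theorem J_nonneg (hμ : EM μ) (hnd : Nondeg μ) (s x : ℝ) : 0 ≤ J μ s x := by
  have h := le_J hμ hnd s x (r := 0) (by simp)
  rw [ex_zero] at h
  linarith

theorem J_convex (hμ : EM μ) (hnd : Nondeg μ) (s : ℝ) : ConvexOn ℝ univ (J μ s) := by
  refine ⟨convex_univ, fun x _ y _ a b ha hb hab => ?_⟩
  simp only [smul_eq_mul]
  refine J_le fun r hr => ?_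
  have h1 := mul_le_mul_of_nonneg_left (le_J hμ hnd s x hr) ha
  have h2 := mul_le_mul_of_nonneg_left (le_J hμ hnd s y hr) hb
  have h3 : r * (a * x + b * y) - ex μ s r = a * (r * x - ex μ s r) + b * (r * y - ex μ s r) := by
    have : ex μ s r = (a + b) * ex μ s r := by rw [hab, one_mul]
    linear_combination -this
  linarith

/-- The rate function is `1`-Lipschitz. -/
theorem J_lip (hμ : EM μ) (hnd : Nondeg μ) (s x y : ℝ) : J μ s x ≤ J μ s y + |x - y| := by
  refine J_le fun r hr => ?_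
  have h1 := le_J hμ hnd s y hr
  have h2 : r * (x - y) ≤ |r| * |x - y| := by
    rw [← abs_mul]
    exact le_abs_self _
  have h3 : |r| * |x - y| ≤ 1 * |x - y| := mul_le_mul_of_nonneg_right hr (abs_nonneg _)
  have h4 : r * x = r * y + r * (x - y) := by ring
  linarith

theorem J_le_abs (hμ : EM μ) (hnd : Nondeg μ) (s x : ℝ) : J μ s x ≤ |x| := by
  have h := J_lip hμ hnd s x 0
  rw [J_zero hμ hnd, sub_zero, zero_add] at h
  exact h

end base

/-! ### Families of tilts -/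

variable {H δ : ℝ} {A A' : Set ℝ} {s : ℝ}

theorem Dirs.rf [IsProbabilityMeasure μ] (hD : Dirs μ H δ A) (hs : s ∈ A) : Rf (J μ s) := by
  obtain ⟨j, hj, h⟩ := hD.strict 1 one_pos
  exact ⟨J_convex hD.em hD.nd s, J_zero hD.em hD.nd s, J_nonneg hD.em hD.nd s, j, 1, hj, fun x hx => h s hs x hx⟩

theorem Dirs.mono_set (hD : Dirs μ H δ A) (hA : A' ⊆ A) : Dirs μ H δ A' :=
  ⟨hD.em, hD.nd, fun s hs => hD.bd s (hA hs), hD.δ0, fun s hs => hD.lo s (hA hs), fun s hs => hD.hi s (hA hs),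
    fun ε hε => by
      obtain ⟨δ', h1, h2⟩ := hD.nc ε hε
      exact ⟨δ', h1, fun s hs => h2 s (hA hs)⟩,
    fun r hr => by
      obtain ⟨j, h1, h2⟩ := hD.strict r hr
      exact ⟨j, h1, fun s hs => h2 s (hA hs)⟩⟩

end Pool.Agent.W_7d29a1_H
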