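import Pool.Agent.W_7d29a1_H.UnitH

/-!
MP_7d29a1_pr, TRACK H (all tilts), (H2), first half: means of the costs and lucks (integrability, stationarity, subadditivity,
convexity, change of the tilt, comparison with the rate function). (helper65)
-/

set_option autoImplicit false

namespace Pool.Agent.W_7d29a1_H

open MeasureTheory ProbabilityTheory Filter Topology Set
open Pool.Agent.W_7d29a1_F
open Pool.Agent.W_7d29a1_h47 (EM Nondeg)

noncomputable section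

variable {μ : Measure ℝ} [IsProbabilityMeasure μ] {s : ℝ}

/-! ### Integrability -/

theorem X_int (hμ : EM μ) (s : ℝ) (a : Pt) {n : ℕ} {y : ℤ} (h0 : 0 ≤ y) (h1 : y ≤ n) :
    Integrable (fun η => X μ s η a n y) (law μ) := (Sub_X a h0 h1).integrable hμ

theorem Xp_int (hμ : EM μ) (s : ℝ) (a : Pt) {n : ℕ} {y : ℤ} (h0 : 0 ≤ y) (h1 : y ≤ n) :
    Integrable (fun η => max (X μ s η a n y) 0) (law μ) := (X_int hμ s a h0 h1).pos_part

theorem X_sq_int (hμ : EM μ) (s : ℝ) (a : Pt) {n : ℕ} {y : ℤ} (h0 : 0 ≤ y) (h1 : y ≤ n) :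
    Integrable (fun η => X μ s η a n y ^ 2) (law μ) := (Sub_X a h0 h1).sq_integrable hμ

theorem V_int (hμ : EM μ) (s : ℝ) (a : Pt) (n : ℕ) : Integrable (fun η => V μ s η a n) (law μ) := (Sub_V a n).integrable hμ

theorem Vp_int (hμ : EM μ) (s : ℝ) (a : Pt) (n : ℕ) : Integrable (fun η => max (V μ s η a n) 0) (law μ) :=
  (V_int hμ s a n).pos_part

theorem Vn_int (hμ : EM μ) (s : ℝ) (a : Pt) (n : ℕ) : Integrable (fun η => max (-V μ s η a n) 0) (law μ) :=
  (V_int hμ s a n).neg.pos_part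

theorem Xn_int (hμ : EM μ) (s : ℝ) (a : Pt) {n : ℕ} {y : ℤ} (h0 : 0 ≤ y) (h1 : y ≤ n) :
    Integrable (fun η => max (-X μ s η a n y) 0) (law μ) := (X_int hμ s a h0 h1).neg.pos_part

theorem V_sq_int (hμ : EM μ) (s : ℝ) (a : Pt) (n : ℕ) : Integrable (fun η => V μ s η a n ^ 2) (law μ) :=
  (Sub_V a n).sq_integrable hμ

omit [IsProbabilityMeasure μ] in
theorem X_meas (s : ℝ) (a : Pt) (n : ℕ) (y : ℤ) : Measurable fun η : Env => X μ s η a n y :=
  (Real.measurable_log.comp (measurable_W (μ := μ) (s := s) a n y)).neg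

omit [IsProbabilityMeasure μ] in
theorem V_meas (s : ℝ) (a : Pt) (n : ℕ) : Measurable fun η : Env => V μ s η a n :=
  Real.measurable_log.comp (measurable_WS (μ := μ) (s := s) a n _)

/-! ### Stationarity -/

/-- Stationarity. -/
theorem int_sh (a : Pt) {f : Env → ℝ} (hf : Measurable f) : ∫ η, f (sh a η) ∂(law μ) = ∫ η, f η ∂(law μ) := by
  have h := mp_sh (μ := μ) a
  rw [← integral_map h.measurable.aemeasurable hf.aestronglyMeasurable, h.map_eq]

theorem e_at (s : ℝ) (a : Pt) (n : ℕ) (y : ℤ) : ∫ η, X μ s η a n y ∂(law μ) = e μ s n y := integral_X a n y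

theorem ep_at (s : ℝ) (a : Pt) (n : ℕ) (y : ℤ) : ∫ η, max (X μ s η a n y) 0 ∂(law μ) = ep μ s n y := by
  have h := int_sh (μ := μ) a ((X_meas (μ := μ) s 0 n y).max measurable_const (f := fun η => X μ s η 0 n y) (g := fun _ => (0 : ℝ)))
  simp only [X_sh, zero_add] at h
  exact h

theorem V_at (s : ℝ) (a : Pt) (n : ℕ) : ∫ η, V μ s η a n ∂(law μ) = ∫ η, V μ s η 0 n ∂(law μ) := integral_V a n

theorem Vp_at (s : ℝ) (a : Pt) (n : ℕ) : ∫ η, max (V μ s η a n) 0 ∂(law μ) = ∫ η, max (V μ s η 0 n) 0 ∂(law μ) := by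
  have h := int_sh (μ := μ) a ((V_meas (μ := μ) s 0 n).max measurable_const (f := fun η => V μ s η 0 n) (g := fun _ => (0 : ℝ)))
  simp only [V_sh, zero_add] at h
  exact h

/-! ### Comparison of `e`, `ep`, `es` and the luck -/

theorem e_le_ep (hμ : EM μ) (s : ℝ) {n : ℕ} {y : ℤ} (h0 : 0 ≤ y) (h1 : y ≤ n) : e μ s n y ≤ ep μ s n y :=
  integral_mono (X_int hμ s 0 h0 h1) (Xp_int hμ s 0 h0 h1) fun _ => le_max_left _ _

theorem abs_e (hμ : EM μ) (s : ℝ) {n : ℕ} {y : ℤ} (h0 : 0 ≤ y) (h1 : y ≤ n) : |e μ s n y| = e μ s n y :=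
  abs_of_nonneg (e_nonneg hμ s h0 h1)

theorem abs_e_le (hμ : EM μ) (s : ℝ) {n : ℕ} {y : ℤ} (h0 : 0 ≤ y) (h1 : y ≤ n) : |e μ s n y| ≤ ep μ s n y := by
  rw [abs_e hμ s h0 h1]
  exact e_le_ep hμ s h0 h1

/-- The luck has a nonpositive mean. -/
theorem V_mean_le (hμ : EM μ) (s : ℝ) (n : ℕ) : ∫ η, V μ s η 0 n ∂(law μ) ≤ 0 := integral_V_nonpos hμ s n

theorem V_mean_le' (hμ : EM μ) (s : ℝ) (a : Pt) (n : ℕ) : ∫ η, V μ s η a n ∂(law μ) ≤ 0 := by
  rw [V_at]
  exact V_mean_le hμ s n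

/-- The mean of the positive part of a cost is at most the mean plus the smallest mean of a positive part. -/
theorem ep_le_es (hμ : EM μ) (s : ℝ) {n : ℕ} {y : ℤ} (h0 : 0 ≤ y) (h1 : y ≤ n) : ep μ s n y ≤ e μ s n y + es μ s n :=
  ep_le61 hμ s h0 h1

theorem ep_le_EE (hμ : EM μ) (s : ℝ) {n N : ℕ} (hN : n ≤ N) {y : ℤ} (h0 : 0 ≤ y) (h1 : y ≤ n) :
    ep μ s n y ≤ e μ s n y + EE μ s N := by
  have h2 := ep_le_es hμ s h0 h1
  have h3 := le_EE (μ := μ) (s := s) hN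
  linarith

/-- The negative part of the luck. -/
theorem Vn_mean_le (hμ : EM μ) (s : ℝ) (a : Pt) (n : ℕ) : ∫ η, max (-V μ s η a n) 0 ∂(law μ) ≤ es μ s n := by
  have hz := zs_mem (μ := μ) (s := s) n
  have h1 : ∫ η, max (-V μ s η a n) 0 ∂(law μ) ≤ ∫ η, max (X μ s η a n (zs μ s n)) 0 ∂(law μ) := by
    refine integral_mono (Vn_int hμ s a n) (Xp_int hμ s a hz.1 hz.2) fun η => ?_
    have h2 := neg_X_le_V (μ := μ) (s := s) η a hz.1 hz.2
    exact max_le_max_right 0 (by linarith)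
  rw [ep_at, ep_zs] at h1
  exact h1

/-- The positive part of the luck. -/
theorem Vp_mean_le (hμ : EM μ) (s : ℝ) (a : Pt) (n : ℕ) : ∫ η, max (V μ s η a n) 0 ∂(law μ) ≤ es μ s n := by
  have h1 := Vn_mean_le hμ s a n
  have h2 := V_mean_le' hμ s a n
  have h3 : ∫ η, max (V μ s η a n) 0 ∂(law μ) = ∫ η, (V μ s η a n + max (-V μ s η a n) 0) ∂(law μ) := by
    refine integral_congr_ae (Eventually.of_forall fun η => ?_)
    show max (V μ s η a n) 0 = V μ s η a n + max (-V μ s η a n) 0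
    rcases le_total 0 (V μ s η a n) with h | h
    · rw [max_eq_left h, max_eq_right (by linarith), add_zero]
    · rw [max_eq_right h, max_eq_left (by linarith)]
      ring
  rw [h3, integral_add (V_int hμ s a n) (Vn_int hμ s a n)]
  linarith

/-- The mean absolute value of the luck. -/
theorem V_abs_le (hμ : EM μ) (s : ℝ) (a : Pt) (n : ℕ) : ∫ η, |V μ s η a n| ∂(law μ) ≤ 2 * es μ s n := by
  have h1 := Vn_mean_le hμ s a n
  have h2 := Vp_mean_le hμ s a n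
  have h3 : ∫ η, |V μ s η a n| ∂(law μ) = ∫ η, (max (V μ s η a n) 0 + max (-V μ s η a n) 0) ∂(law μ) := by
    refine integral_congr_ae (Eventually.of_forall fun η => ?_)
    show |V μ s η a n| = max (V μ s η a n) 0 + max (-V μ s η a n) 0
    rcases le_total 0 (V μ s η a n) with h | h
    · rw [max_eq_left h, max_eq_right (by linarith), add_zero, abs_of_nonneg h]
    · rw [max_eq_right h, max_eq_left (by linarith), zero_add, abs_of_nonpos h]
  rw [h3, integral_add (Vp_int hμ s a n) (Vn_int hμ s a n)]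
  linarith

/-- The mean of the luck is at least `- es`. -/
theorem V_mean_ge (hμ : EM μ) (s : ℝ) (n : ℕ) : -es μ s n ≤ ∫ η, V μ s η 0 n ∂(law μ) := by
  have h1 := Vn_mean_le hμ s 0 n
  have h3 : ∫ η, -V μ s η 0 n ∂(law μ) ≤ ∫ η, max (-V μ s η 0 n) 0 ∂(law μ) :=
    integral_mono (V_int hμ s 0 n).neg (Vn_int hμ s 0 n) fun _ => le_max_left _ _
  rw [integral_neg] at h3
  linarith

/-- The negative part of a cost. -/
theorem Xn_mean_le (hμ : EM μ) (s : ℝ) (a : Pt) {n : ℕ} {y : ℤ} (h0 : 0 ≤ y) (h1 : y ≤ n) :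
    ∫ η, max (-X μ s η a n y) 0 ∂(law μ) ≤ es μ s n := by
  refine le_trans (integral_mono (Xn_int hμ s a h0 h1) (Vp_int hμ s a n) fun η => ?_) (Vp_mean_le hμ s a n)
  exact max_le_max_right 0 (neg_X_le_V (μ := μ) (s := s) η a h0 h1)

/-- The mean absolute value of a cost. -/
theorem X_abs_le (hμ : EM μ) (s : ℝ) (a : Pt) {n : ℕ} {y : ℤ} (h0 : 0 ≤ y) (h1 : y ≤ n) :
    ∫ η, |X μ s η a n y| ∂(law μ) ≤ e μ s n y + 2 * es μ s n := by
  have h2 := Xn_mean_le hμ s a h0 h1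
  have h3 : ∫ η, |X μ s η a n y| ∂(law μ) = ∫ η, (max (X μ s η a n y) 0 + max (-X μ s η a n y) 0) ∂(law μ) := by
    refine integral_congr_ae (Eventually.of_forall fun η => ?_)
    show |X μ s η a n y| = max (X μ s η a n y) 0 + max (-X μ s η a n y) 0
    rcases le_total 0 (X μ s η a n y) with h | h
    · rw [max_eq_left h, max_eq_right (by linarith), add_zero, abs_of_nonneg h]
    · rw [max_eq_right h, max_eq_left (by linarith), zero_add, abs_of_nonpos h]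
  rw [h3, integral_add (Xp_int hμ s a h0 h1) (Xn_int hμ s a h0 h1), ep_at]
  have h4 := ep_le_es hμ s h0 h1
  linarith

/-! ### Subadditivity -/

theorem e_sub (hμ : EM μ) (s : ℝ) {m n : ℕ} {k y : ℤ} (h0 : 0 ≤ k) (h1 : k ≤ m) (h2 : 0 ≤ y) (h3 : y ≤ n) :
    e μ s (m + n) (k + y) ≤ e μ s m k + e μ s n y := e_add_le hμ h0 h1 h2 h3

theorem ep_sub (hμ : EM μ) (s : ℝ) {m n : ℕ} {k y : ℤ} (h0 : 0 ≤ k) (h1 : k ≤ m) (h2 : 0 ≤ y) (h3 : y ≤ n) :
    ep μ s (m + n) (k + y) ≤ ep μ s m k + ep μ s n y := by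
  have e1 := ep_at (μ := μ) s ((0 : Pt).1 + m, (0 : Pt).2 + k) n y
  have i1 := Xp_int hμ s 0 h0 h1
  have i2 := Xp_int hμ s ((0 : Pt).1 + m, (0 : Pt).2 + k) h2 h3
  have i3 := Xp_int hμ s 0 (n := m + n) (y := k + y) (by omega) (by push_cast; omega)
  have h5 := integral_mono i3 (i1.add i2) fun η => by
    have h := X_add_le (μ := μ) (s := s) η 0 h0 h1 h2 h3
    show max (X μ s η 0 (m + n) (k + y)) 0 ≤ max (X μ s η 0 m k) 0 + max (X μ s η ((0 : Pt).1 + m, (0 : Pt).2 + k) n y) 0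
    exact max_le (h.trans (add_le_add (le_max_left _ _) (le_max_left _ _)))
      (add_nonneg (le_max_right _ _) (le_max_right _ _))
  have h6 := integral_add i1 i2
  rw [e1] at h6
  exact h5.trans h6.le

/-- Multiples. -/
theorem e_mul (hμ : EM μ) (s : ℝ) {n : ℕ} {y : ℤ} (h0 : 0 ≤ y) (h1 : y ≤ n) (k : ℕ) :
    e μ s (k * n) (k * y) ≤ k * e μ s n y := by
  induction k with
  | zero => simp [e_zero]
  | succ k ih =>
    have h2 : (0 : ℤ) ≤ k * y := mul_nonneg (Nat.cast_nonneg k) h0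
    have h3 : (k : ℤ) * y ≤ ((k * n : ℕ) : ℤ) := by
      push_cast
      exact mul_le_mul_of_nonneg_left h1 (Nat.cast_nonneg k)
    have h4 := e_sub hμ s h2 h3 h0 h1
    have e1 : (k + 1) * n = k * n + n := by ring
    have e2 : ((k + 1 : ℕ) : ℤ) * y = k * y + y := by push_cast; ring
    rw [e1, e2]
    push_cast
    linarith

theorem ep_mul (hμ : EM μ) (s : ℝ) {n : ℕ} {y : ℤ} (h0 : 0 ≤ y) (h1 : y ≤ n) (k : ℕ) :
    ep μ s (k * n) (k * y) ≤ k * ep μ s n y := by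
  induction k with
  | zero =>
    have := ep_zero (μ := μ) (s := s)
    simp [this]
  | succ k ih =>
    have h2 : (0 : ℤ) ≤ k * y := mul_nonneg (Nat.cast_nonneg k) h0
    have h3 : (k : ℤ) * y ≤ ((k * n : ℕ) : ℤ) := by
      push_cast
      exact mul_le_mul_of_nonneg_left h1 (Nat.cast_nonneg k)
    have h4 := ep_sub hμ s h2 h3 h0 h1
    have e1 : (k + 1) * n = k * n + n := by ring
    have e2 : ((k + 1 : ℕ) : ℤ) * y = k * y + y := by push_cast; ring
    rw [e1, e2]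
    push_cast
    linarith

/-! ### Convexity in the position -/

theorem e_conv (hμ : EM μ) (s : ℝ) {n : ℕ} {y : ℤ} (h0 : 1 ≤ y) (h1 : y + 1 ≤ n) :
    2 * e μ s n y ≤ e μ s n (y - 1) + e μ s n (y + 1) := e_convex hμ h0 h1

section dconvA

variable {f : ℤ → ℝ} {N : ℤ} (hf : ∀ y, 1 ≤ y → y + 1 ≤ N → 2 * f y ≤ f (y - 1) + f (y + 1))

include hf

private theorem dcA_mono (y : ℤ) (h0 : 0 ≤ y) (k : ℕ) (hk : y + k + 1 ≤ N) :
    f (y + 1) - f y ≤ f (y + k + 1) - f (y + k) := by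
  induction k with
  | zero => simp
  | succ k ih =>
    push_cast at hk
    have h1 := ih (by omega)
    have h := hf (y + k + 1) (by omega) (by omega)
    rw [add_sub_cancel_right] at h
    have e1 : y + ((k + 1 : ℕ) : ℤ) = y + k + 1 := by push_cast; ring
    rw [e1]
    linarith

private theorem dcA_left (a : ℤ) (h0 : 0 ≤ a) (m : ℕ) (hm : a + m + 1 ≤ N) :
    f (a + m) ≤ f a + m * (f (a + m + 1) - f (a + m)) := by
  induction m with
  | zero => simp
  | succ m ih =>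
    push_cast at hm
    have h1 := ih (by omega)
    have h := hf (a + m + 1) (by omega) (by omega)
    rw [add_sub_cancel_right] at h
    have e1 : a + ((m + 1 : ℕ) : ℤ) = a + m + 1 := by push_cast; ring
    rw [e1]
    push_cast
    have h2 : (m : ℝ) * (f (a + m + 1) - f (a + m)) ≤ m * (f (a + m + 1 + 1) - f (a + m + 1)) :=
      mul_le_mul_of_nonneg_left (by linarith) (Nat.cast_nonneg _)
    nlinarith

private theorem dcA_right (b : ℤ) (h0 : 0 ≤ b) (n : ℕ) (hn : b + n ≤ N) : f b + n * (f (b + 1) - f b) ≤ f (b + n) := by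
  induction n with
  | zero => simp
  | succ n ih =>
    push_cast at hn
    have h1 := ih (by omega)
    have h := dcA_mono hf b h0 n (by omega)
    have e1 : b + ((n + 1 : ℕ) : ℤ) = b + n + 1 := by push_cast; ring
    rw [e1]
    push_cast
    nlinarith

/-- The chord inequality on an interval of integers. -/
theorem chordA65 {y0 y y1 : ℤ} (h00 : 0 ≤ y0) (h0 : y0 ≤ y) (h1 : y ≤ y1) (h11 : y1 ≤ N) :
    ((y1 : ℝ) - y0) * f y ≤ ((y1 : ℝ) - y) * f y0 + ((y : ℝ) - y0) * f y1 := by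
  obtain ⟨m, rfl⟩ : ∃ m : ℕ, y = y0 + m := ⟨(y - y0).toNat, by omega⟩
  obtain ⟨n, rfl⟩ : ∃ n : ℕ, y1 = y0 + m + n := ⟨(y1 - (y0 + m)).toNat, by omega⟩
  rcases Nat.eq_zero_or_pos n with hn | hn
  · subst hn
    push_cast
    simp
  have h2 := dcA_left hf y0 h00 m (by omega)
  have h3 := dcA_right hf (y0 + m) (by omega) n h11
  push_cast
  have h4 : (n : ℝ) * (f (y0 + m) - f y0) ≤ n * (m * (f (y0 + m + 1) - f (y0 + m))) :=
    mul_le_mul_of_nonneg_left (by linarith) (Nat.cast_nonneg _)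
  have h5 : (m : ℝ) * (n * (f (y0 + m + 1) - f (y0 + m))) ≤ m * (f (y0 + m + n) - f (y0 + m)) :=
    mul_le_mul_of_nonneg_left (by linarith) (Nat.cast_nonneg _)
  nlinarith

end dconvA

/-- The chord inequality for the mean costs. -/
theorem e_chord (hμ : EM μ) (s : ℝ) {n : ℕ} {y0 y y1 : ℤ} (h00 : 0 ≤ y0) (h0 : y0 ≤ y) (h1 : y ≤ y1) (h11 : y1 ≤ n) :
    ((y1 : ℝ) - y0) * e μ s n y ≤ ((y1 : ℝ) - y) * e μ s n y0 + ((y : ℝ) - y0) * e μ s n y1 :=
  chordA65 (f := e μ s n) (N := n) (fun _ h2 h3 => e_conv hμ s h2 h3) h00 h0 h1 h11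

theorem e_max (hμ : EM μ) (s : ℝ) {n : ℕ} {y1 y y2 : ℤ} (h0 : 0 ≤ y1) (h1 : y1 ≤ y) (h2 : y ≤ y2) (h3 : y2 ≤ n) :
    e μ s n y ≤ max (e μ s n y1) (e μ s n y2) := e_le_max hμ h0 h1 h2 h3

/-! ### Change of the tilt, comparison with the rate function -/

/-- Change of the tilt. -/
theorem e_tilt (hμ : EM μ) (s s' : ℝ) {n : ℕ} {y : ℤ} (h0 : 0 ≤ y) (h1 : y ≤ n) :
    e μ s' n y = e μ s n y + (lam μ s' - lam μ s) * n - (s' - s) * y := by
  rw [e_eq hμ s h0 h1, e_eq hμ s' h0 h1]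
  ring

/-- Change of the tilt, with the excess of the free energy. -/
theorem e_tilt_ex (hμ : EM μ) (s r : ℝ) {n : ℕ} {y : ℤ} (h0 : 0 ≤ y) (h1 : y ≤ n) :
    e μ (s + r) n y = e μ s n y + ex μ s r * n - r * ((y : ℝ) - sl μ s * n) := by
  rw [e_tilt hμ s (s + r) h0 h1]
  unfold ex
  ring

/-- **The finite volume mean is at least the rate function.** -/
theorem e_ge (hμ : EM μ) (_hnd : Nondeg μ) (s : ℝ) {n : ℕ} (hn : 1 ≤ n) {y : ℤ} (h0 : 0 ≤ y) (h1 : y ≤ n) :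
    n * J μ s ((y : ℝ) / n - sl μ s) ≤ e μ s n y := by
  have hn0 : (0 : ℝ) < n := by exact_mod_cast hn
  rw [mul_comm, ← le_div_iff₀ hn0]
  refine J_le fun r _ => ?_
  rw [le_div_iff₀ hn0]
  have h2 := e_nonneg hμ (s + r) h0 h1
  rw [e_tilt_ex hμ s r h0 h1] at h2
  have h3 : (r * ((y : ℝ) / n - sl μ s) - ex μ s r) * n = r * ((y : ℝ) - sl μ s * n) - ex μ s r * n := by
    field_simp
  rw [h3]
  linarith

/-- The same for the linear bound with one force `|r| ≤ 1`. -/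
theorem e_ge_lin (hμ : EM μ) (s r : ℝ) {n : ℕ} {y : ℤ} (h0 : 0 ≤ y) (h1 : y ≤ n) :
    r * ((y : ℝ) - sl μ s * n) - ex μ s r * n ≤ e μ s n y := by
  have h2 := e_nonneg hμ (s + r) h0 h1
  rw [e_tilt_ex hμ s r h0 h1] at h2
  linarith

/-- The rate function bounds the mean of the positive part. -/
theorem ep_ge (hμ : EM μ) (hnd : Nondeg μ) (s : ℝ) {n : ℕ} (hn : 1 ≤ n) {y : ℤ} (h0 : 0 ≤ y) (h1 : y ≤ n) :
    n * J μ s ((y : ℝ) / n - sl μ s) ≤ ep μ s n y := (e_ge hμ hnd s hn h0 h1).trans (e_le_ep hμ s h0 h1)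

end

end Pool.Agent.W_7d29a1_H
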