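import Pool.Agent.W_7d29a1_h68.Sites

/-!
MP_7d29a1_pr, TRACK H (all tilts), section CO, single sites: the sites of a tube around a line of any slope, and the fluctuations of the
point to point weight when the polymer is confined to the tube; the constants do not depend on the tilt. (helper68)
-/

set_option autoImplicit false

namespace Pool.Agent.W_7d29a1_H

open MeasureTheory ProbabilityTheory Filter Topology Pool.Agent.W_7d29a1_F
open Pool.Agent.W_7d29a1_h48 (pin)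
open Pool.Agent.W_7d29a1_h68 (SiteForm siteForm_pin pin_nonneg measurable_pin pin_sum pp pp_nat np_clip)

variable {μ : Measure ℝ}

open Classical in
/-- The positions at time `t` at distance at most `b` from `v t`. -/
noncomputable def cellv (v b : ℝ) (t : ℕ) : Finset ℤ :=
  (Finset.Icc (0 : ℤ) t).filter fun z => |(z : ℝ) - v * t| ≤ b

lemma mem_cellv {v b : ℝ} {t : ℕ} {z : ℤ} : z ∈ cellv v b t ↔ z ∈ Finset.Icc (0 : ℤ) t ∧
    |(z : ℝ) - v * t| ≤ b := by
  unfold cellv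
  rw [Finset.mem_filter]

lemma card_cellv (v b : ℝ) (t : ℕ) : ((cellv v b t).card : ℝ) ≤ 2 * |b| + 1 := by
  have h1 : cellv v b t ⊆ Finset.Icc ⌈v * t - |b|⌉ ⌊v * t + |b|⌋ := by
    intro z hz
    obtain ⟨h2, h3⟩ := abs_le.1 ((mem_cellv.1 hz).2.trans (le_abs_self b))
    rw [Finset.mem_Icc, Int.ceil_le, Int.le_floor]
    constructor <;> linarith
  have h2 : ((cellv v b t).card : ℝ) ≤ ((Finset.Icc ⌈v * t - |b|⌉ ⌊v * t + |b|⌋).card : ℝ) := by
    exact_mod_cast Finset.card_le_card h1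
  refine h2.trans ?_
  rw [Int.card_Icc]
  have h3 : ((((⌊v * t + |b|⌋ + 1 - ⌈v * t - |b|⌉).toNat : ℕ) : ℤ) : ℝ) ≤
      max (((⌊v * t + |b|⌋ + 1 - ⌈v * t - |b|⌉ : ℤ)) : ℝ) 0 := by
    rw [Int.toNat_eq_max]
    push_cast
    exact le_rfl
  rw [Int.cast_natCast] at h3
  refine h3.trans (max_le ?_ (by positivity))
  push_cast
  have h4 := Int.floor_le (v * t + |b|)
  have h5 := Int.le_ceil (v * t - |b|)
  linarith

/-- The sites of the tube of half width `b` at the times `1, ..., N`. -/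
noncomputable def tubev (v b : ℝ) (N : ℕ) : Finset Pt :=
  ((Finset.Icc 1 N).sigma fun t => cellv v b t).image fun q => ((q.1 : ℤ), q.2)

lemma tubev_inj (v b : ℝ) (N : ℕ) : Set.InjOn (fun q : (_ : ℕ) × ℤ => (((q.1 : ℤ), q.2) : Pt))
    ((Finset.Icc 1 N).sigma fun t => cellv v b t : Finset ((_ : ℕ) × ℤ)) := by
  rintro ⟨t, z⟩ _ ⟨t', z'⟩ _ h
  simp only [Prod.mk.injEq, Nat.cast_inj] at h
  obtain ⟨rfl, rfl⟩ := h
  rfl

lemma mem_tubev {v b : ℝ} {N : ℕ} {p : Pt} : p ∈ tubev v b N ↔ ∃ t : ℕ, ∃ z : ℤ, 1 ≤ t ∧ t ≤ N ∧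
    z ∈ cellv v b t ∧ p = ((t : ℤ), z) := by
  unfold tubev
  rw [Finset.mem_image]
  constructor
  · rintro ⟨⟨t, z⟩, h, rfl⟩
    rw [Finset.mem_sigma, Finset.mem_Icc] at h
    exact ⟨t, z, h.1.1, h.1.2, h.2, rfl⟩
  · rintro ⟨t, z, h1, h2, h3, rfl⟩
    exact ⟨⟨t, z⟩, Finset.mem_sigma.2 ⟨Finset.mem_Icc.2 ⟨h1, h2⟩, h3⟩, rfl⟩

lemma sum_tubev (v b : ℝ) (N : ℕ) (f : Pt → ℝ) :
    ∑ p ∈ tubev v b N, f p = ∑ t ∈ Finset.Icc 1 N, ∑ z ∈ cellv v b t, f ((t : ℤ), z) := by
  unfold tubev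
  rw [Finset.sum_image (tubev_inj v b N), Finset.sum_sigma]

lemma card_tubev (v b : ℝ) (N : ℕ) : ((tubev v b N).card : ℝ) ≤ N * (2 * |b| + 1) := by
  have h1 := sum_tubev v b N fun _ => 1
  rw [Finset.sum_const, nsmul_eq_mul, mul_one] at h1
  rw [h1]
  calc ∑ t ∈ Finset.Icc 1 N, ∑ _z ∈ cellv v b t, (1 : ℝ) ≤ ∑ _t ∈ Finset.Icc 1 N, (2 * |b| + 1) := by
        refine Finset.sum_le_sum fun t _ => ?_
        rw [Finset.sum_const, nsmul_eq_mul, mul_one]
        exact card_cellv v b t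
    _ = N * (2 * |b| + 1) := by
        rw [Finset.sum_const, Nat.card_Icc, nsmul_eq_mul]
        simp

variable [IsProbabilityMeasure μ]

/-- **Fluctuations of the point to point weight in probability, given that the polymer is in the
tube of half width `b` around the line of the slope `v` with probability at least `7 / 8` at all times.** -/
theorem fluctH68 (hEM : Pool.Agent.W_7d29a1_h47.EM μ) (hnd : Pool.Agent.W_7d29a1_h47.Nondeg μ) :
    ∃ c K : ℝ, 0 < c ∧ 0 ≤ K ∧ ∀ (s v : ℝ) (N : ℕ) (y : ℤ) (b : ℝ), 0 ≤ y → y ≤ N →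
      (∀ t : ℕ, 1 ≤ t → t ≤ N → 7 / 8 ≤ ∫ η, ∑ z ∈ cellv v b t, pin μ s η t (N - t) y z ∂(law μ)) →
      ∀ m r : ℝ, 0 ≤ r → (law μ).real {η | r ≤ |Real.log (W μ s η 0 N y) - m|} ≤ 1 / 8 →
      c * N ≤ (2 * |b| + 1) * (r ^ 2 + (r + K) ^ 2 / 8) := by
  obtain ⟨c, K, hc, hK, H⟩ := np_clip hEM hnd
  refine ⟨c ^ 2 / 4, K, by positivity, hK, ?_⟩
  intro s v N y b h0 h1 hconf m r hr hP
  obtain ⟨P, hPd⟩ : ∃ P, P = (law μ).real {η | r ≤ |Real.log (W μ s η 0 N y) - m|} := ⟨_, rfl⟩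
  have hP0 : 0 ≤ P := by
    rw [hPd]
    exact measureReal_nonneg
  have hF : Measurable fun η => Real.log (W μ s η 0 N y) :=
    Real.measurable_log.comp (measurable_W _ _ _)
  have hπ : ∀ p ∈ tubev v b N, Measurable (pp μ s N y p) := fun p _ => measurable_pin _ _ _ _
  have hS : ∀ p ∈ tubev v b N, SiteForm (fun η => Real.log (W μ s η 0 N y)) (pp μ s N y p) p := by
    intro p hp
    obtain ⟨t, z, ht1, htN, hz, rfl⟩ := mem_tubev.1 hp
    have e1 : t + (N - t) = N := by omega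
    have h2 := siteForm_pin (μ := μ) (s := s) (m := N - t) ht1 (mem_cellv.1 hz).1 h0
      (by rw [e1]; exact h1)
    rw [e1] at h2
    have e2 : pp μ s N y ((t : ℤ), z) = fun η => pin μ s η t (N - t) y z := by
      funext η
      exact pp_nat N y t z η
    rw [e2]
    exact h2
  have hint : ∀ t : ℕ, ∀ z : ℤ, t ∈ Finset.Icc 1 N → z ∈ cellv v b t →
      Integrable (fun η => pin μ s η t (N - t) y z) (law μ) := by
    intro t z ht hz
    rw [Finset.mem_Icc] at ht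
    have e1 : t + (N - t) = N := by omega
    refine Integrable.of_bound (C := 1) (measurable_pin _ _ _ _).aestronglyMeasurable
      (Filter.Eventually.of_forall fun η => ?_)
    have h2 := (siteForm_pin (μ := μ) (s := s) (m := N - t) ht.1 (mem_cellv.1 hz).1 h0
      (by rw [e1]; exact h1)).mem η
    rw [Real.norm_eq_abs, abs_of_nonneg h2.1]
    exact h2.2
  have hM : ∀ η, ∑ p ∈ tubev v b N, pp μ s N y p η ≤ N := by
    intro η
    rw [sum_tubev v b N fun p => pp μ s N y p η]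
    calc ∑ t ∈ Finset.Icc 1 N, ∑ z ∈ cellv v b t, pp μ s N y ((t : ℤ), z) η
        ≤ ∑ _t ∈ Finset.Icc 1 N, (1 : ℝ) := by
          refine Finset.sum_le_sum fun t ht => ?_
          rw [Finset.mem_Icc] at ht
          have e1 : t + (N - t) = N := by omega
          rw [← pin_sum (μ := μ) (s := s) η (t := t) (m := N - t) h0 (by rw [e1]; exact h1)]
          simp only [pp_nat]
          refine Finset.sum_le_sum_of_subset_of_nonneg (fun z hz => (mem_cellv.1 hz).1)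
            fun z _ _ => pin_nonneg _ _ _ _ _
      _ = N := by
          rw [Finset.sum_const, Nat.card_Icc, nsmul_eq_mul]
          simp
  have hsum : 7 / 8 * (N : ℝ) ≤ ∑ p ∈ tubev v b N, ∫ η, pp μ s N y p η ∂(law μ) := by
    rw [sum_tubev v b N fun p => ∫ η, pp μ s N y p η ∂(law μ)]
    calc 7 / 8 * (N : ℝ) = ∑ _t ∈ Finset.Icc 1 N, (7 / 8 : ℝ) := by
          rw [Finset.sum_const, Nat.card_Icc, nsmul_eq_mul]
          simp
          ring
      _ ≤ ∑ t ∈ Finset.Icc 1 N, ∑ z ∈ cellv v b t, ∫ η, pp μ s N y ((t : ℤ), z) η ∂(law μ) := by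
          refine Finset.sum_le_sum fun t ht => ?_
          simp only [pp_nat]
          rw [← integral_finsetSum _ fun z hz => hint t z ht hz]
          rw [Finset.mem_Icc] at ht
          exact hconf t ht.1 ht.2
  have hN0 : (0 : ℝ) ≤ N := Nat.cast_nonneg N
  rw [← hPd] at hP
  have hNP : (N : ℝ) * P ≤ N * (1 / 8) := mul_le_mul_of_nonneg_left hP hN0
  have hX : N / 2 ≤ 7 / 8 * (∑ p ∈ tubev v b N, ∫ η, pp μ s N y p η ∂(law μ)) - N * P := by
    linarith
  have h3 := H (tubev v b N) _ (pp μ s N y) hF hπ hS N m r hr hM (by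
    rw [← hPd]
    linarith)
  rw [← hPd] at h3
  have h4 : (c * (N / 2)) ^ 2 ≤ ((tubev v b N).card : ℝ) * (r ^ 2 + (r + K) ^ 2 * P) := by
    refine le_trans ?_ h3
    exact pow_le_pow_left₀ (by positivity) (mul_le_mul_of_nonneg_left hX hc.le) 2
  have h5 : r ^ 2 + (r + K) ^ 2 * P ≤ r ^ 2 + (r + K) ^ 2 / 8 := by
    have := mul_le_mul_of_nonneg_left hP (sq_nonneg (r + K))
    linarith
  have h6 : (c * (N / 2)) ^ 2 ≤ (N * (2 * |b| + 1)) * (r ^ 2 + (r + K) ^ 2 / 8) := by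
    refine h4.trans (mul_le_mul (card_tubev v b N) h5 (by positivity) (by positivity))
  rcases Nat.eq_zero_or_pos N with hN | hN
  · rw [hN]
    simp only [Nat.cast_zero, mul_zero]
    positivity
  · have hN1 : (0 : ℝ) < N := by exact_mod_cast hN
    have h7 : N * (c ^ 2 / 4 * N) ≤ N * ((2 * |b| + 1) * (r ^ 2 + (r + K) ^ 2 / 8)) := by
      calc N * (c ^ 2 / 4 * N) = (c * (N / 2)) ^ 2 := by ring
        _ ≤ _ := h6
        _ = _ := by ring
    exact le_of_mul_le_mul_left h7 hN1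

end Pool.Agent.W_7d29a1_H
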