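import Pool.Agent.W_7d29a1_H.TravH
import Pool.Agent.W_7d29a1_L78.LineB
import Pool.Agent.W_7d29a1_L78.RowA

/-!
MP_7d29a1_pr, TRACK H, (EL), last third: a cheap passage between two curves, and the lucks of a box, from travellers (no straight
displacement has to be cheap). Models: `h30g.pair_le`, `g.K67.hit_le`, `W_1b8d5d_p.ElI`. (helper67)
-/

set_option autoImplicit false

namespace Pool.Agent.W_7d29a1_H.EL

open MeasureTheory ProbabilityTheory Pool.Agent.W_7d29a1_F Pool.Agent.W_7d29a1_h60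
open Pool.Agent.W_7d29a1_h47 (EM Nondeg)
open Pool.Agent.W_7d29a1_H (ep EE)

noncomputable section

variable {μ : Measure ℝ} [IsProbabilityMeasure μ] {s : ℝ}

omit [IsProbabilityMeasure μ] in
private theorem io_real67 {p : Env → Prop} (h : MeasurableSet {η | p η}) :
    ∫ η, io (p η) ∂(law μ) = (law μ).real {η | p η} := by
  classical
  have e : (fun η => io (p η)) = Set.indicator {η | p η} fun _ => (1 : ℝ) := by
    funext η
    by_cases hp : p η
    · rw [io_of hp, Set.indicator_of_mem (show η ∈ {η | p η} from hp)]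
    · rw [io_not hp, Set.indicator_of_notMem (show η ∉ {η | p η} from hp)]
  rw [e, integral_indicator h, setIntegral_const, smul_eq_mul, mul_one]

/-- Three quarters of the mass of `ι` have `R ≤ 4 A` if `∫ ι R ≤ A ∫ ι` (Markov). -/
private theorem quarter_mass67 (hEM : EM μ) {ι R : Env → ℝ} (hιS : Sub ι) (hι0 : ∀ η, 0 ≤ ι η)
    (hRm : Measurable R) (hR0 : ∀ η, 0 ≤ R η) (hi : Integrable (fun η => ι η * R η) (law μ)) {A : ℝ} (hA : 0 < A)
    (h : ∫ η, ι η * R η ∂(law μ) ≤ A * ∫ η, ι η ∂(law μ)) :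
    ∫ η, ι η ∂(law μ) ≤ 4 / 3 * ∫ η, ι η * io (R η ≤ 4 * A) ∂(law μ) := by
  have hm : MeasurableSet {η | R η ≤ 4 * A} := measurableSet_le hRm measurable_const
  have h1 : ∀ η, ι η ≤ ι η * io (R η ≤ 4 * A) + ι η * R η * (1 / (4 * A)) := by
    intro η
    by_cases h2 : R η ≤ 4 * A
    · rw [io_of h2, mul_one]
      have h3 : 0 ≤ ι η * R η * (1 / (4 * A)) := by
        have := mul_nonneg (hι0 η) (hR0 η)
        positivity
      linarith
    · rw [io_not h2, mul_zero, zero_add]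
      have h3 : 1 ≤ R η * (1 / (4 * A)) := by
        rw [mul_one_div, le_div_iff₀ (by positivity)]
        linarith [not_le.1 h2]
      have h4 := mul_le_mul_of_nonneg_left h3 (hι0 η)
      linarith
  have i1 : Integrable (fun η => ι η * io (R η ≤ 4 * A)) (law μ) :=
    Sub.mul_integrable hEM hιS (Sub_io hm)
  have h5 := integral_mono (hιS.integrable hEM) (i1.add (hi.mul_const (1 / (4 * A)))) h1
  simp only [Pi.add_apply] at h5
  rw [integral_add i1 (hi.mul_const _), integral_mul_const] at h5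
  have h6 : (∫ η, ι η * R η ∂(law μ)) * (1 / (4 * A)) ≤ (∫ η, ι η ∂(law μ)) / 4 := by
    rw [mul_one_div, div_le_iff₀ (by positivity)]
    linarith
  linarith

omit [IsProbabilityMeasure μ] in
/-- A cost at most `B` is a weight at least `exp (-B)`. -/
private theorem exp_le_W67 {η : Env} {a : Pt} {m : ℕ} {y : ℤ} (h0 : 0 ≤ y) (h1 : y ≤ m) {B : ℝ}
    (h : max (X μ s η a m y) 0 ≤ B) : Real.exp (-B) ≤ W μ s η a m y := by
  have hpos := W_pos (μ := μ) (s := s) η a h0 h1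
  have h2 : X μ s η a m y ≤ B := (le_max_left _ _).trans h
  unfold X at h2
  rw [← Real.exp_log hpos]
  exact Real.exp_le_exp.2 (by linarith)

/-- **A cheap passage from the curve `u` to the curve `v` is as rare as one cheap displacement**: first completion, latest start, with
travellers from the far past `(-T, o)` and to the far future `(n + T, z)`. -/
theorem pair_gen (hEM : EM μ) {n T : ℕ} {u v : ℕ → ℤ} {o z : ℤ} {A : ℝ} (hA : 0 < A)
    (hu : ∀ t : ℕ, t ≤ n → 0 ≤ u t - o ∧ u t - o ≤ ((T + t : ℕ) : ℤ) ∧ ep μ s (T + t) (u t - o) ≤ A)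
    (hv : ∀ t : ℕ, t ≤ n → 0 ≤ z - v t ∧ z - v t ≤ ((T + (n - t) : ℕ) : ℤ) ∧ ep μ s (T + (n - t)) (z - v t) ≤ A)
    (y : ℝ) :
    (law μ).real {η | ∃ t k : ℕ, t + (k + 1) ≤ n ∧
      Real.exp (-y) ≤ W μ s η ((t : ℤ), u t) (k + 1) (v (t + (k + 1)) - u t)} ≤
    2 * (law μ).real {η | Real.exp (-(y + 8 * A)) ≤ W μ s η 0 (T + n + T) (z - o)} := by
  classical
  -- the middle event
  obtain ⟨q, hq⟩ : ∃ q : ℕ → Env → Prop, q = fun (t : ℕ) η => Real.exp (-(y + 4 * A)) ≤
      W μ s η ((t : ℤ), u t) (n + T - t) (z - u t) := ⟨_, rfl⟩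
  have hqm : ∀ t, MeasurableSet {η | q t η} := fun t => by
    rw [hq]
    exact measurableSet_le measurable_const (measurable_W _ _ _)
  have hQm : MeasurableSet {η | ∃ t ∈ Finset.range (n + 1), q t η} := by
    have e1 : {η | ∃ t ∈ Finset.range (n + 1), q t η} = ⋃ t ∈ Finset.range (n + 1), {η | q t η} := by
      ext η
      simp only [Set.mem_ofPred_eq, Set.mem_iUnion, exists_prop]
    rw [e1]
    exact Finset.measurableSet_biUnion _ fun t _ => hqm t
  -- (1) first completion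
  have step1 : (law μ).real {η | ∃ t k : ℕ, t + (k + 1) ≤ n ∧
      Real.exp (-y) ≤ W μ s η ((t : ℤ), u t) (k + 1) (v (t + (k + 1)) - u t)} ≤
      4 / 3 * (law μ).real {η | ∃ t ∈ Finset.range (n + 1), q t η} := by
    obtain ⟨K, hK⟩ : ∃ K : Finset (ℕ × ℕ), K = (Finset.range (n + 1) ×ˢ Finset.range (n + 1)).filter
        fun κ => κ.1 + (κ.2 + 1) ≤ n := ⟨_, rfl⟩
    have hKm : ∀ κ : ℕ × ℕ, κ ∈ K ↔ κ.1 + (κ.2 + 1) ≤ n := by
      intro κ
      rw [hK, Finset.mem_filter, Finset.mem_product, Finset.mem_range, Finset.mem_range]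
      constructor
      · exact fun h => h.2
      · exact fun h => ⟨⟨by omega, by omega⟩, h⟩
    obtain ⟨r, hr⟩ : ∃ r : (ℕ × ℕ) → ℕ ×ₗ ℕ, r = fun κ => toLex (κ.1 + (κ.2 + 1), κ.1) := ⟨_, rfl⟩
    have hrinj : Function.Injective r := by
      intro κ κ' h
      rw [hr] at h
      have h1 := toLex.injective h
      rw [Prod.mk.injEq] at h1
      refine Prod.ext h1.2 ?_
      have h2 := h1.1
      have h3 := h1.2
      omega
    have hrle : ∀ κ κ', r κ ≤ r κ' → κ.1 + (κ.2 + 1) ≤ κ'.1 + (κ'.2 + 1) := by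
      intro κ κ' h
      rw [hr] at h
      rcases (Prod.Lex.le_iff).1 h with h1 | h1
      · exact le_of_lt h1
      · exact le_of_eq h1.1
    obtain ⟨p, hp⟩ : ∃ p : (ℕ × ℕ) → Env → Prop, p = fun κ η => Real.exp (-y) ≤
        W μ s η ((κ.1 : ℤ), u κ.1) (κ.2 + 1) (v (κ.1 + (κ.2 + 1)) - u κ.1) := ⟨_, rfl⟩
    have hpm : ∀ κ, MeasurableSet {η | p κ η} := fun κ => by
      rw [hp]
      exact measurableSet_le measurable_const (measurable_W _ _ _)
    obtain ⟨ι, hι⟩ : ∃ ι : (ℕ × ℕ) → Env → ℝ, ι = fun κ η => io (Fi K r (fun j => p j η) κ) := ⟨_, rfl⟩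
    have hιS : ∀ κ ∈ K, Sub (ι κ) := fun κ hκ => by
      rw [hι]
      exact Sub_io (meas_Fi K r (fun j _ => hpm j) hκ)
    have hι0 : ∀ κ η, 0 ≤ ι κ η := fun k η => by rw [hι]; exact io_nonneg _
    have hιd : ∀ κ ∈ K, DependsOn (ι κ) (rows 0 ((κ.1 : ℤ) + (κ.2 + 1))) := by
      intro κ hκ
      rw [hι]
      refine dep_Fi K r hκ fun j _ hj η η' h => ?_
      rw [hp]
      show Real.exp (-y) ≤ _ ↔ Real.exp (-y) ≤ _
      have h1 : W μ s η ((j.1 : ℤ), u j.1) (j.2 + 1) (v (j.1 + (j.2 + 1)) - u j.1) =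
          W μ s η' ((j.1 : ℤ), u j.1) (j.2 + 1) (v (j.1 + (j.2 + 1)) - u j.1) := by
        refine W_dep_rows (μ := μ) (s := s) _ _ _ fun x hx => h x (rows_mono ?_ ?_ hx)
        · exact Int.natCast_nonneg _
        · have := hrle _ _ hj
          show ((j.1 : ℕ) : ℤ) + ((j.2 + 1 : ℕ) : ℤ) ≤ (κ.1 : ℤ) + (κ.2 + 1)
          exact_mod_cast this
      rw [h1]
    have hιsum : ∀ η, ∑ κ ∈ K, ι κ η = io (∃ κ ∈ K, p κ η) := by
      intro η
      rw [hι]
      exact sum_Fi K hrinj fun j => p j η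
    have hset : {η | ∃ t k : ℕ, t + (k + 1) ≤ n ∧
        Real.exp (-y) ≤ W μ s η ((t : ℤ), u t) (k + 1) (v (t + (k + 1)) - u t)} =
        {η | ∃ κ ∈ K, p κ η} := by
      ext η
      simp only [Set.mem_ofPred_eq]
      rw [hp]
      constructor
      · rintro ⟨t, k, h1, h2⟩
        exact ⟨(t, k), (hKm _).2 h1, h2⟩
      · rintro ⟨κ, hκ, h1⟩
        exact ⟨κ.1, κ.2, (hKm _).1 hκ, h1⟩
    have hPm : MeasurableSet {η | ∃ κ ∈ K, p κ η} := by
      have e1 : {η | ∃ κ ∈ K, p κ η} = ⋃ κ ∈ K, {η | p κ η} := by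
        ext η
        simp only [Set.mem_ofPred_eq, Set.mem_iUnion, exists_prop]
      rw [e1]
      exact Finset.measurableSet_biUnion _ fun κ _ => hpm κ
    -- the continuation to the far future
    obtain ⟨R, hR⟩ : ∃ R : (ℕ × ℕ) → Env → ℝ, R = fun κ η =>
        max (X μ s η ((κ.1 : ℤ) + (κ.2 + 1), v (κ.1 + (κ.2 + 1))) (T + (n - (κ.1 + (κ.2 + 1))))
          (z - v (κ.1 + (κ.2 + 1)))) 0 := ⟨_, rfl⟩
    have hRS : ∀ κ ∈ K, Sub (R κ) := fun κ hκ => by
      rw [hR]
      exact Pool.Agent.W_7d29a1_L78.Sub_Xp _ (hv _ ((hKm κ).1 hκ)).1 (hv _ ((hKm κ).1 hκ)).2.1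
    have hR0 : ∀ κ η, 0 ≤ R κ η := fun κ η => by
      rw [hR]
      exact le_max_right _ _
    have hRi : ∀ κ ∈ K, ∫ η, ι κ η * R κ η ∂(law μ) ≤ A * ∫ η, ι κ η ∂(law μ) := by
      intro κ hκ
      have h3 : DependsOn (R κ) (rows ((κ.1 : ℤ) + (κ.2 + 1)) (n + T)) := by
        intro η η' h
        rw [hR]
        have h5 : X μ s η ((κ.1 : ℤ) + (κ.2 + 1), v (κ.1 + (κ.2 + 1))) (T + (n - (κ.1 + (κ.2 + 1))))
            (z - v (κ.1 + (κ.2 + 1))) =
            X μ s η' ((κ.1 : ℤ) + (κ.2 + 1), v (κ.1 + (κ.2 + 1))) (T + (n - (κ.1 + (κ.2 + 1))))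
            (z - v (κ.1 + (κ.2 + 1))) := by
          refine X_dep_rows (μ := μ) (s := s) _ _ _ fun x hx => h x (rows_mono le_rfl ?_ hx)
          have h1 := (hKm κ).1 hκ
          show (κ.1 : ℤ) + (κ.2 + 1) + ((T + (n - (κ.1 + (κ.2 + 1))) : ℕ) : ℤ) ≤ n + T
          omega
        show max _ (0 : ℝ) = max _ 0
        rw [h5]
      rw [integral_indep (hιS κ hκ).1 (hRS κ hκ).1 (hιd κ hκ) h3 (rows_disj le_rfl), mul_comm]
      refine mul_le_mul_of_nonneg_right ?_ (integral_nonneg fun η => hι0 κ η)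
      rw [hR]
      show ∫ η, max (X μ s η ((κ.1 : ℤ) + (κ.2 + 1), v (κ.1 + (κ.2 + 1))) (T + (n - (κ.1 + (κ.2 + 1))))
            (z - v (κ.1 + (κ.2 + 1)))) 0 ∂(law μ) ≤ A
      rw [Pool.Agent.W_7d29a1_L78.integral_Xp]
      exact (hv _ ((hKm κ).1 hκ)).2.2
    have hpt : ∀ η, ∑ κ ∈ K, ι κ η * io (R κ η ≤ 4 * A) ≤ io (∃ t ∈ Finset.range (n + 1), q t η) := by
      intro η
      by_cases hBη : ∃ t ∈ Finset.range (n + 1), q t η
      · rw [io_of hBη]
        refine (Finset.sum_le_sum fun κ _ => ?_).trans ((hιsum η).trans_le (io_le_one _))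
        exact mul_le_of_le_one_right (hι0 κ η) (io_le_one _)
      · rw [io_not hBη]
        refine (Finset.sum_eq_zero fun κ hκ => ?_).le
        by_cases h1 : R κ η ≤ 4 * A
        · by_cases h2 : Fi K r (fun j => p j η) κ
          · exfalso
            apply hBη
            have hτ := (hKm κ).1 hκ
            refine ⟨κ.1, Finset.mem_range.2 (by omega), ?_⟩
            have h3 : p κ η := h2.1
            rw [hp] at h3
            have h3' : Real.exp (-y) ≤ W μ s η ((κ.1 : ℤ), u κ.1) (κ.2 + 1) (v (κ.1 + (κ.2 + 1)) - u κ.1) := h3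
            rw [hR] at h1
            have h4 := exp_le_W67 (hv _ hτ).1 (hv _ hτ).2.1 h1
            have h5 := mul_le_mul h3' h4 (Real.exp_pos _).le (W_nonneg _ _ _ _)
            have h6 := W_mul_le (μ := μ) (s := s) η (((κ.1 : ℕ) : ℤ), u κ.1) (κ.2 + 1)
              (T + (n - (κ.1 + (κ.2 + 1)))) (v (κ.1 + (κ.2 + 1)) - u κ.1) (z - v (κ.1 + (κ.2 + 1)))
            have e1 : κ.2 + 1 + (T + (n - (κ.1 + (κ.2 + 1)))) = n + T - κ.1 := by omega
            have e3 : (((((κ.1 : ℕ) : ℤ), u κ.1) : Pt).1 + ((κ.2 + 1 : ℕ) : ℤ),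
                ((((κ.1 : ℕ) : ℤ), u κ.1) : Pt).2 + (v (κ.1 + (κ.2 + 1)) - u κ.1)) =
                (((κ.1 : ℤ) + (κ.2 + 1), v (κ.1 + (κ.2 + 1))) : Pt) := by
              ext
              · show (κ.1 : ℤ) + ((κ.2 + 1 : ℕ) : ℤ) = (κ.1 : ℤ) + (κ.2 + 1)
                push_cast
                ring
              · show u κ.1 + (v (κ.1 + (κ.2 + 1)) - u κ.1) = _
                ring
            have e4 : v (κ.1 + (κ.2 + 1)) - u κ.1 + (z - v (κ.1 + (κ.2 + 1))) = z - u κ.1 := by ring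
            rw [e3, e1, e4] at h6
            rw [hq]
            show Real.exp (-(y + 4 * A)) ≤ W μ s η ((κ.1 : ℤ), u κ.1) (n + T - κ.1) (z - u κ.1)
            have e5 : Real.exp (-(y + 4 * A)) = Real.exp (-y) * Real.exp (-(4 * A)) := by
              rw [← Real.exp_add]
              congr 1
              ring
            rw [e5]
            exact h5.trans h6
          · have h3 : ι κ η = 0 := by
              rw [hι]
              exact io_not h2
            rw [h3, zero_mul]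
        · rw [io_not h1, mul_zero]
    have hSi : ∀ κ ∈ K, Integrable (fun η => ι κ η * io (R κ η ≤ 4 * A)) (law μ) := fun κ hκ =>
      Sub.mul_integrable hEM (hιS κ hκ) (Sub_io (measurableSet_le (hRS κ hκ).1 measurable_const))
    have h1 := integral_mono (integrable_finsetSum _ hSi) ((Sub_io hQm).integrable hEM) hpt
    rw [integral_finsetSum _ hSi, io_real67 hQm] at h1
    have h2 : (law μ).real {η | ∃ κ ∈ K, p κ η} = ∑ κ ∈ K, ∫ η, ι κ η ∂(law μ) := by
      rw [← io_real67 hPm, ← integral_finsetSum _ fun κ hκ => (hιS κ hκ).integrable hEM]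
      refine integral_congr_ae (Filter.Eventually.of_forall fun η => ?_)
      show io _ = ∑ κ ∈ K, ι κ η
      rw [hιsum]
    rw [hset, h2]
    have h3 : ∑ κ ∈ K, ∫ η, ι κ η ∂(law μ) ≤ ∑ κ ∈ K, 4 / 3 * ∫ η, ι κ η * io (R κ η ≤ 4 * A) ∂(law μ) :=
      Finset.sum_le_sum fun κ hκ => quarter_mass67 hEM (hιS κ hκ) (hι0 κ) (hRS κ hκ).1 (hR0 κ)
        (Sub.mul_integrable hEM (hιS κ hκ) (hRS κ hκ)) hA (hRi κ hκ)
    rw [← Finset.mul_sum] at h3
    linarith
  -- (2) latest start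
  obtain ⟨a, ha⟩ : ∃ a : Pt, a = (-(T : ℤ), o) := ⟨_, rfl⟩
  have hCm : ∀ b : Pt, MeasurableSet {η | Real.exp (-(y + 8 * A)) ≤ W μ s η b (T + n + T) (z - o)} :=
    fun b => measurableSet_le measurable_const (measurable_W _ _ _)
  have step2 : (law μ).real {η | ∃ t ∈ Finset.range (n + 1), q t η} ≤
      4 / 3 * (law μ).real {η | Real.exp (-(y + 8 * A)) ≤ W μ s η a (T + n + T) (z - o)} := by
    obtain ⟨r, hr⟩ : ∃ r : ℕ → ℤ, r = fun (t : ℕ) => -(t : ℤ) := ⟨_, rfl⟩
    have hrinj : Function.Injective r := by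
      intro t t' h
      rw [hr] at h
      have h1 : -(t : ℤ) = -(t' : ℤ) := h
      omega
    obtain ⟨S, hS⟩ : ∃ S : Finset ℕ, S = Finset.range (n + 1) := ⟨_, rfl⟩
    rw [← hS]
    rw [← hS] at hQm
    have hSm : ∀ t ∈ S, t ≤ n := fun t ht => by
      rw [hS, Finset.mem_range] at ht
      omega
    obtain ⟨ι, hι⟩ : ∃ ι : ℕ → Env → ℝ, ι = fun t η => io (Fi S r (fun j => q j η) t) := ⟨_, rfl⟩
    have hιS : ∀ t ∈ S, Sub (ι t) := fun t ht => by
      rw [hι]
      exact Sub_io (meas_Fi S r (fun j _ => hqm j) ht)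
    have hι0 : ∀ t η, 0 ≤ ι t η := fun k η => by rw [hι]; exact io_nonneg _
    have hιd : ∀ t ∈ S, DependsOn (ι t) (rows (t : ℤ) (n + T)) := by
      intro t ht
      rw [hι]
      refine dep_Fi S r ht fun j hjS hj η η' h => ?_
      rw [hq]
      show Real.exp (-(y + 4 * A)) ≤ _ ↔ Real.exp (-(y + 4 * A)) ≤ _
      have h1 : W μ s η ((j : ℤ), u j) (n + T - j) (z - u j) =
          W μ s η' ((j : ℤ), u j) (n + T - j) (z - u j) := by
        refine W_dep_rows (μ := μ) (s := s) _ _ _ fun x hx => h x (rows_mono ?_ ?_ hx)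
        · rw [hr] at hj
          have hj' : -(j : ℤ) ≤ -(t : ℤ) := hj
          show (t : ℤ) ≤ (j : ℤ)
          omega
        · have := hSm j hjS
          show ((j : ℕ) : ℤ) + ((n + T - j : ℕ) : ℤ) ≤ n + T
          omega
      rw [h1]
    have hιsum : ∀ η, ∑ t ∈ S, ι t η = io (∃ t ∈ S, q t η) := by
      intro η
      rw [hι]
      exact sum_Fi S hrinj fun j => q j η
    obtain ⟨R, hR⟩ : ∃ R : ℕ → Env → ℝ, R = fun (t : ℕ) η => max (X μ s η a (T + t) (u t - o)) 0 := ⟨_, rfl⟩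
    have hRS : ∀ t ∈ S, Sub (R t) := fun t ht => by
      rw [hR]
      exact Pool.Agent.W_7d29a1_L78.Sub_Xp _ (hu t (hSm t ht)).1 (hu t (hSm t ht)).2.1
    have hR0 : ∀ t η, 0 ≤ R t η := fun t η => by
      rw [hR]
      exact le_max_right _ _
    have hRi : ∀ t ∈ S, ∫ η, ι t η * R t η ∂(law μ) ≤ A * ∫ η, ι t η ∂(law μ) := by
      intro t ht
      have h3 : DependsOn (R t) (rows (-(T : ℤ)) t) := by
        intro η η' h
        rw [hR]
        have h5 : X μ s η a (T + t) (u t - o) = X μ s η' a (T + t) (u t - o) := by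
          refine X_dep_rows (μ := μ) (s := s) _ _ _ fun x hx => h x (rows_mono ?_ ?_ hx)
          · rw [ha]
          · rw [ha]
            show -(T : ℤ) + ((T + t : ℕ) : ℤ) ≤ t
            push_cast
            linarith
        show max _ (0 : ℝ) = max _ 0
        rw [h5]
      rw [integral_indep (hιS t ht).1 (hRS t ht).1 (hιd t ht) h3 (rows_disj le_rfl).symm, mul_comm]
      refine mul_le_mul_of_nonneg_right ?_ (integral_nonneg fun η => hι0 t η)
      rw [hR]
      show ∫ η, max (X μ s η a (T + t) (u t - o)) 0 ∂(law μ) ≤ A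
      rw [Pool.Agent.W_7d29a1_L78.integral_Xp]
      exact (hu t (hSm t ht)).2.2
    have hpt : ∀ η, ∑ t ∈ S, ι t η * io (R t η ≤ 4 * A) ≤
        io (Real.exp (-(y + 8 * A)) ≤ W μ s η a (T + n + T) (z - o)) := by
      intro η
      by_cases hBη : Real.exp (-(y + 8 * A)) ≤ W μ s η a (T + n + T) (z - o)
      · rw [io_of hBη]
        refine (Finset.sum_le_sum fun κ _ => ?_).trans ((hιsum η).trans_le (io_le_one _))
        exact mul_le_of_le_one_right (hι0 κ η) (io_le_one _)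
      · rw [io_not hBη]
        refine (Finset.sum_eq_zero fun t ht => ?_).le
        by_cases h1 : R t η ≤ 4 * A
        · by_cases h2 : Fi S r (fun j => q j η) t
          · exfalso
            apply hBη
            have hτ := hSm t ht
            have h3 : q t η := h2.1
            rw [hq] at h3
            have h3' : Real.exp (-(y + 4 * A)) ≤ W μ s η ((t : ℤ), u t) (n + T - t) (z - u t) := h3
            rw [hR] at h1
            have h4 := exp_le_W67 (hu t hτ).1 (hu t hτ).2.1 h1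
            have h5 := mul_le_mul h4 h3' (Real.exp_pos _).le (W_nonneg _ _ _ _)
            have h6 := W_mul_le (μ := μ) (s := s) η a (T + t) (n + T - t) (u t - o) (z - u t)
            have e1 : T + t + (n + T - t) = T + n + T := by omega
            have e3 : ((a.1 + ((T + t : ℕ) : ℤ), a.2 + (u t - o)) : Pt) = ((t : ℤ), u t) := by
              rw [ha]
              ext
              · show -(T : ℤ) + ((T + t : ℕ) : ℤ) = t
                push_cast
                ring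
              · show o + (u t - o) = u t
                ring
            have e4 : u t - o + (z - u t) = z - o := by ring
            rw [e3, e1, e4] at h6
            have e5 : Real.exp (-(y + 8 * A)) = Real.exp (-(4 * A)) * Real.exp (-(y + 4 * A)) := by
              rw [← Real.exp_add]
              congr 1
              ring
            rw [e5]
            exact h5.trans h6
          · have h3 : ι t η = 0 := by
              rw [hι]
              exact io_not h2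
            rw [h3, zero_mul]
        · rw [io_not h1, mul_zero]
    have hSi : ∀ t ∈ S, Integrable (fun η => ι t η * io (R t η ≤ 4 * A)) (law μ) := fun t ht =>
      Sub.mul_integrable hEM (hιS t ht) (Sub_io (measurableSet_le (hRS t ht).1 measurable_const))
    have h1 := integral_mono (integrable_finsetSum _ hSi) ((Sub_io (hCm a)).integrable hEM) hpt
    rw [integral_finsetSum _ hSi, io_real67 (hCm a)] at h1
    have h2 : (law μ).real {η | ∃ t ∈ S, q t η} = ∑ t ∈ S, ∫ η, ι t η ∂(law μ) := by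
      rw [← io_real67 hQm, ← integral_finsetSum _ fun t ht => (hιS t ht).integrable hEM]
      refine integral_congr_ae (Filter.Eventually.of_forall fun η => ?_)
      show io _ = ∑ t ∈ S, ι t η
      rw [hιsum]
    rw [h2]
    have h3 : ∑ t ∈ S, ∫ η, ι t η ∂(law μ) ≤ ∑ t ∈ S, 4 / 3 * ∫ η, ι t η * io (R t η ≤ 4 * A) ∂(law μ) :=
      Finset.sum_le_sum fun t ht => quarter_mass67 hEM (hιS t ht) (hι0 t) (hRS t ht).1 (hR0 t)
        (Sub.mul_integrable hEM (hιS t ht) (hRS t ht)) hA (hRi t ht)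
    rw [← Finset.mul_sum] at h3
    linarith
  -- (3) stationarity
  have step3 : (law μ).real {η | Real.exp (-(y + 8 * A)) ≤ W μ s η a (T + n + T) (z - o)} =
      (law μ).real {η | Real.exp (-(y + 8 * A)) ≤ W μ s η 0 (T + n + T) (z - o)} := by
    have h := (mp_sh (μ := μ) a).measureReal_preimage (hCm 0).nullMeasurableSet
    rw [← h]
    congr 1
    ext η
    simp only [Set.mem_preimage, Set.mem_ofPred_eq]
    rw [W_sh, zero_add]
  have h0 : 0 ≤ (law μ).real {η | Real.exp (-(y + 8 * A)) ≤ W μ s η 0 (T + n + T) (z - o)} :=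
    measureReal_nonneg
  rw [step3] at step2
  linarith

/-! ### The lucks of a box -/

omit [IsProbabilityMeasure μ] in
theorem meas_exV67 (S : Finset (ℕ × ℤ)) (l : ℕ × ℤ → ℕ) (Y : ℝ) :
    MeasurableSet {η : Env | ∃ q ∈ S, Y ≤ V μ s η ((q.1 : ℤ), q.2) (l q)} := by
  have e : {η : Env | ∃ q ∈ S, Y ≤ V μ s η ((q.1 : ℤ), q.2) (l q)} =
      ⋃ q ∈ S, {η : Env | Y ≤ V μ s η ((q.1 : ℤ), q.2) (l q)} := by
    ext η
    simp
  rw [e]
  exact Finset.measurableSet_biUnion _ fun q _ => measurableSet_le measurable_const (measurable_V _ _)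

omit [IsProbabilityMeasure μ] in
theorem meas_exjV67 (S : Finset (ℕ × ℤ)) (n : ℕ) (Y : ℝ) :
    MeasurableSet {η : Env | ∃ q ∈ S, ∃ j, q.1 + j ≤ n ∧ Y ≤ V μ s η ((q.1 : ℤ), q.2) j} := by
  have e : {η : Env | ∃ q ∈ S, ∃ j, q.1 + j ≤ n ∧ Y ≤ V μ s η ((q.1 : ℤ), q.2) j} =
      ⋃ q ∈ S, ⋃ j ∈ Finset.range (n + 1), {η : Env | q.1 + j ≤ n ∧ Y ≤ V μ s η ((q.1 : ℤ), q.2) j} := by
    ext η
    simp only [Set.mem_ofPred_eq, Set.mem_iUnion, Finset.mem_range, exists_prop]
    constructor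
    · rintro ⟨q, hq, j, hj, h⟩
      exact ⟨q, hq, j, by omega, hj, h⟩
    · rintro ⟨q, hq, j, _, hj, h⟩
      exact ⟨q, hq, j, hj, h⟩
  rw [e]
  refine Finset.measurableSet_biUnion _ fun q _ => Finset.measurableSet_biUnion _ fun j _ => ?_
  exact (MeasurableSet.const _).inter (measurableSet_le measurable_const (measurable_V _ _))

/-- **The lucks of a box**: every start is cheap from one of the far origins `(-T, b i)`. -/
theorem hit_gen (hμ : EM μ) {n T : ℕ} {E A : ℝ} (hE : 0 < E) (hA : 0 < A) (href : EE μ s (2 * n) ≤ E)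
    (S : Finset (ℕ × ℤ)) (hS : ∀ q ∈ S, q.1 ≤ n) {I : Finset ℤ} {b : ℤ → ℤ}
    (hcov : ∀ q ∈ S, ∃ i ∈ I, 0 ≤ q.2 - b i ∧ q.2 - b i ≤ ((T + q.1 : ℕ) : ℤ) ∧ ep μ s (T + q.1) (q.2 - b i) ≤ A)
    {Y p : ℝ} (hp : (law μ).real {η | Y - 2 * E - 2 * A ≤ V μ s η 0 (T + 2 * n)} ≤ p) :
    (law μ).real {η | ∃ q ∈ S, ∃ j, q.1 + j ≤ n ∧ Y ≤ V μ s η ((q.1 : ℤ), q.2) j} ≤ 4 * I.card * p := by
  classical
  have h2 := Pool.Agent.W_7d29a1_L78.first_completion (μ := μ) (s := s) hμ n S (y := fun m => zs μ s m)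
    (fun m _ _ => zs_mem m) hE (fun m _ hm => by
      have h3 := le_EE (μ := μ) (s := s) hm
      have h4 : ∫ η, max (X μ s η 0 m (zs μ s m)) 0 ∂(law μ) = es μ s m := ep_zs m
      show ∫ η, max (X μ s η 0 m (zs μ s m)) 0 ∂(law μ) ≤ E
      rw [h4]
      linarith) Y
  rw [io_real67 (meas_exjV67 S n _), io_real67 (meas_exV67 S (fun q => 2 * n - q.1) _)] at h2
  obtain ⟨Sc, hSc⟩ : ∃ Sc : ℤ → Finset (ℕ × ℤ), Sc = fun i => S.filter fun q => 0 ≤ q.2 - b i ∧
      q.2 - b i ≤ ((T + q.1 : ℕ) : ℤ) ∧ ep μ s (T + q.1) (q.2 - b i) ≤ A := ⟨_, rfl⟩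
  have hScm : ∀ i, ∀ q ∈ Sc i, q ∈ S ∧ (0 ≤ q.2 - b i ∧
      q.2 - b i ≤ ((T + q.1 : ℕ) : ℤ) ∧ ep μ s (T + q.1) (q.2 - b i) ≤ A) := fun i q hq => by
    rw [hSc] at hq
    exact Finset.mem_filter.1 hq
  have h3 : {η : Env | ∃ q ∈ S, Y - 2 * E ≤ V μ s η ((q.1 : ℤ), q.2) (2 * n - q.1)} ⊆
      ⋃ i ∈ I, {η : Env | ∃ q ∈ Sc i, Y - 2 * E ≤ V μ s η ((q.1 : ℤ), q.2) (2 * n - q.1)} := by
    rintro η ⟨q, hq, hV⟩
    obtain ⟨i, hi, h4⟩ := hcov q hq
    rw [Set.mem_iUnion₂]
    refine ⟨i, hi, q, ?_, hV⟩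
    rw [hSc]
    exact Finset.mem_filter.2 ⟨hq, h4⟩
  have h4 : ∀ i ∈ I, (law μ).real {η : Env | ∃ q ∈ Sc i, Y - 2 * E ≤ V μ s η ((q.1 : ℤ), q.2) (2 * n - q.1)} ≤ 2 * p := by
    intro i _
    have h5 := Pool.Agent.W_7d29a1_L78.latest_start_pt (μ := μ) (s := s) hμ n T (Sc i) (b i) hA
      (fun q hq => ⟨hS q (hScm i q hq).1, (hScm i q hq).2.1, (hScm i q hq).2.2.1⟩)
      (fun q hq => (hScm i q hq).2.2.2) (Y - 2 * E)
    rw [io_real67 (meas_exV67 (Sc i) (fun q => 2 * n - q.1) _),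
      io_real67 (measurableSet_le measurable_const (measurable_V _ _))] at h5
    linarith
  have h5 : (law μ).real (⋃ i ∈ I, {η : Env | ∃ q ∈ Sc i, Y - 2 * E ≤ V μ s η ((q.1 : ℤ), q.2) (2 * n - q.1)}) ≤
      I.card * (2 * p) := by
    refine (measureReal_biUnion_finset_le _ _).trans ((Finset.sum_le_card_nsmul _ _ _ h4).trans (le_of_eq ?_))
    rw [nsmul_eq_mul]
  have h6 := (measureReal_mono (μ := law μ) h3 (measure_ne_top _ _)).trans h5
  linarith

end

end Pool.Agent.W_7d29a1_H.EL
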