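import Pool.Agent.W_7d29a1_H.EL51H
import Pool.Agent.W_7d29a1_H.EL67P

/-!
MP_7d29a1_pr, TRACK H, (EL), last third: the lucks of the strip and the crossings, from travellers. Models: `g.K67.hit_le`, `crR_le`, `crL_le`,
`W_1b8d5d_p.ElI`. (helper67)
-/

set_option autoImplicit false

namespace Pool.Agent.W_7d29a1_H.EL

open Pool.Agent.W_7d29a1_F MeasureTheory ProbabilityTheory
open Pool.Agent.W_7d29a1_h47 (EM Nondeg)
open Pool.Agent.W_7d29a1_g.K67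

variable {μ : Measure ℝ} {s : ℝ} {L : ℤ → ℤ}

theorem sb_le_exp_V67 (R : Set Pt) (η : Env) (a : Pt) (n : ℕ) : sb μ s R η a n ≤ Real.exp (V μ s η a n) := by
  have h1 : sb μ s R η a n ≤ WS μ s η a n (Finset.Icc (0 : ℤ) n) := by
    unfold sb fw WS
    have e : Finset.Icc a.2 (a.2 + (n : ℤ)) = (Finset.Icc (0 : ℤ) n).map (addLeftEmbedding a.2) := by
      rw [Finset.map_add_left_Icc, add_zero]
    rw [e, Finset.sum_map]
    refine Finset.sum_le_sum fun y _ => ?_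
    have e2 : (addLeftEmbedding a.2) y - a.2 = y := by
      show a.2 + y - a.2 = y
      ring
    rw [e2]
    exact WR_le_W R η a n y
  refine h1.trans ?_
  rw [exp_V]

variable [Ln L]

/-- The sites of the strip as pairs. -/
noncomputable def prs67 (L : ℤ → ℤ) (w t : ℕ) : Finset (ℕ × ℤ) := (bx L (2 * w : ℤ) 0 0 t).image fun p => (p.1.toNat, p.2)

theorem mem_prs67 {w t : ℕ} {q : ℕ × ℤ} (h : q ∈ prs67 L w t) :
    q.1 ≤ t ∧ -(2 * w : ℤ) < q.2 - L (q.1 : ℤ) ∧ q.2 - L (q.1 : ℤ) < 2 * w := by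
  unfold prs67 at h
  rw [Finset.mem_image] at h
  obtain ⟨p, hp, rfl⟩ := h
  obtain ⟨h1, h2, h3⟩ := mem_bx.1 hp
  rw [mem_stp] at h3
  have h0 : (0 : ℤ) ≤ p.1 := by
    push_cast at h1
    exact h1
  have e : ((p.1.toNat : ℕ) : ℤ) = p.1 := Int.toNat_of_nonneg h0
  refine ⟨by omega, ?_, ?_⟩
  · show -(2 * w : ℤ) < p.2 - L ((p.1.toNat : ℕ) : ℤ)
    rw [e]
    omega
  · show p.2 - L ((p.1.toNat : ℕ) : ℤ) < 2 * w
    rw [e]
    omega

variable [IsProbabilityMeasure μ]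

/-- **The lucks of the strip.** -/
theorem hit_trav (hμ : EM μ) {n T t w l I : ℕ} {E A r ys Y p : ℝ} (hA : 0 < A) (ht : t ≤ n) (hl : 1 ≤ l)
    (hLr : ∀ k : ℕ, k ≤ n → |(L k : ℝ) - r * k| ≤ 1)
    (hTr : ∀ k : ℕ, k ≤ n → ∀ q : ℤ, |(q : ℝ) - (ys + r * k)| ≤ 3 * (l : ℝ) → 0 ≤ q ∧ q ≤ ((T + k : ℕ) : ℤ) ∧ ep μ s (T + k) q ≤ A)
    (hE : 0 < E) (href : EE μ s (2 * n) ≤ E) (hI : 2 * w ≤ I * (2 * l + 1)) (hY : 0 < Y)
    (hp : (law μ).real {η | Y - 2 * E - 2 * A ≤ V μ s η 0 (T + 2 * n)} ≤ p) :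
    (law μ).real {η | Real.exp Y ≤ mB μ s L (2 * w : ℤ) 0 0 t η} ≤ 4 * (2 * I + 1) * p := by
  classical
  have hl1 : (1 : ℝ) ≤ l := by exact_mod_cast hl
  have hys := abs_sub_round ys
  have h1 : {η : Env | Real.exp Y ≤ mB μ s L (2 * w : ℤ) 0 0 t η} ⊆
      {η : Env | ∃ q ∈ prs67 L w t, ∃ j, q.1 + j ≤ n ∧ Y ≤ V μ s η ((q.1 : ℤ), q.2) j} := by
    intro η hη
    have hη' : Real.exp Y ≤ mB μ s L (2 * w : ℤ) 0 0 t η := hη
    unfold mB at hη'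
    obtain ⟨x, hx, h2⟩ := exists_of_le_mx hη' (Real.one_lt_exp_iff.2 hY)
    rw [Finset.mem_product, Finset.mem_range] at hx
    obtain ⟨h3, h4, h5⟩ := mem_bx.1 hx.1
    have h0 : (0 : ℤ) ≤ x.1.1 := by
      push_cast at h3
      exact h3
    split_ifs at h2 with h6
    · refine ⟨(x.1.1.toNat, x.1.2), ?_, x.2, ?_, ?_⟩
      · exact Finset.mem_image.2 ⟨x.1, hx.1, rfl⟩
      · show x.1.1.toNat + x.2 ≤ n
        omega
      · have h7 := h2.trans (sb_le_exp_V67 _ η x.1 x.2)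
        rw [Real.exp_le_exp] at h7
        have e : ((((x.1.1.toNat, x.1.2) : ℕ × ℤ).1 : ℤ), ((x.1.1.toNat, x.1.2) : ℕ × ℤ).2) = x.1 := by
          refine Prod.ext ?_ rfl
          exact Int.toNat_of_nonneg h0
        rw [e]
        exact h7
    · exact absurd h2 (not_le.2 (Real.exp_pos _))
  refine (measureReal_mono (μ := law μ) h1 (measure_ne_top _ _)).trans ?_
  have h2 := hit_gen (μ := μ) (s := s) hμ (n := n) (T := T) hE hA href (prs67 L w t) (fun q hq => (mem_prs67 hq).1.trans ht)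
    (I := Finset.Icc (-(I : ℤ)) I) (b := fun i => i * (2 * (l : ℤ) + 1) - round ys) (fun q hq => by
      obtain ⟨h4, h5, h6⟩ := mem_prs67 hq
      have hI' : (2 * w : ℤ) ≤ I * (2 * l + 1) := by exact_mod_cast hI
      obtain ⟨i, hi⟩ : ∃ i, i = (q.2 - L (q.1 : ℤ) + l) / (2 * l + 1) := ⟨_, rfl⟩
      have hpos : (0 : ℤ) < 2 * l + 1 := by positivity
      have h7 := Int.emod_nonneg (q.2 - L (q.1 : ℤ) + l) hpos.ne'
      have h8 := Int.emod_lt_of_pos (q.2 - L (q.1 : ℤ) + l) hpos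
      have h9 := Int.emod_add_mul_ediv (q.2 - L (q.1 : ℤ) + l) (2 * l + 1)
      rw [← hi] at h9
      have h10 : (2 * (l : ℤ) + 1) * i = i * (2 * (l : ℤ) + 1) := by ring
      rw [h10] at h9
      refine ⟨i, Finset.mem_Icc.2 ⟨?_, ?_⟩, ?_⟩
      · by_contra hcon
        have h11 : i + 1 ≤ -(I : ℤ) := by omega
        have h12 : (i + 1) * (2 * (l : ℤ) + 1) ≤ -(I : ℤ) * (2 * l + 1) := mul_le_mul_of_nonneg_right h11 hpos.le
        nlinarith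
      · by_contra hcon
        have h11 : (I : ℤ) + 1 ≤ i := by omega
        have h12 : ((I : ℤ) + 1) * (2 * (l : ℤ) + 1) ≤ i * (2 * l + 1) := mul_le_mul_of_nonneg_right h11 hpos.le
        nlinarith
      · refine hTr q.1 (h4.trans ht) _ ?_
        have h11 : |q.2 - L (q.1 : ℤ) - i * (2 * (l : ℤ) + 1)| ≤ l := by
          rw [abs_le]
          omega
        have h12 : |(q.2 : ℝ) - L (q.1 : ℤ) - i * (2 * (l : ℝ) + 1)| ≤ l := by exact_mod_cast h11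
        have h13 := hLr q.1 (h4.trans ht)
        push_cast
        rw [abs_le] at h12 h13 hys ⊢
        constructor <;> linarith [h12.1, h12.2, h13.1, h13.2, hys.1, hys.2]) hp
  refine h2.trans (le_of_eq ?_)
  rw [Int.card_Icc]
  have : ((I : ℤ) + 1 - -(I : ℤ)).toNat = 2 * I + 1 := by omega
  rw [this]
  push_cast
  ring

/-- The crossing, for both sides: `e = ± 1`. -/
theorem cr_trav67 (hμ : EM μ) {n T t w l : ℕ} {A r ys C p : ℝ} {e : ℤ} (he : e = 1 ∨ e = -1) (hA : 0 < A) (ht : t ≤ n) (hl : 1 ≤ l)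
    (hLr : ∀ k : ℕ, k ≤ n → |(L k : ℝ) - r * k| ≤ 1)
    (hTr : ∀ k : ℕ, k ≤ n → ∀ q : ℤ, |(q : ℝ) - (ys + r * k)| ≤ 3 * (l : ℝ) → 0 ≤ q ∧ q ≤ ((T + k : ℕ) : ℤ) ∧ ep μ s (T + k) q ≤ A)
    (hw : 1 ≤ w)
    (hp : (law μ).real {η | Real.exp (-(C + 8 * A)) ≤ W μ s η 0 (T + n + T) (L n + 2 * round ys + e * w)} ≤ p) :
    (law μ).real {η | ∃ k1 ∈ Finset.range (t + 1), ∃ k2 ∈ Finset.range (t + 1), k1 ≤ k2 ∧
      Real.exp (-C) ≤ wt μ s η ((k1 : ℤ), L (k1 : ℤ) + e * w) ((k2 : ℤ), L (k2 : ℤ) + e * (2 * w))} ≤ 2 * p := by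
  have hl1 : (1 : ℝ) ≤ l := by exact_mod_cast hl
  have hys := abs_sub_round ys
  have h1 := pair_gen (μ := μ) (s := s) hμ (n := n) (T := T) (u := fun k => L (k : ℤ) + e * w)
    (v := fun k => L (k : ℤ) + e * (2 * w)) (o := e * w - round ys) (z := e * (2 * w) + L n + round ys) hA
    (fun k hk => by
      refine hTr k hk _ ?_
      have h13 := hLr k hk
      push_cast
      rw [abs_le] at h13 hys ⊢
      constructor <;> linarith [h13.1, h13.2, hys.1, hys.2])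
    (fun k hk => by
      refine hTr (n - k) (Nat.sub_le _ _) _ ?_
      have h13 := hLr k hk
      have h14 := hLr n le_rfl
      have f1 := Int.floor_le (0 : ℝ)
      rw [Nat.cast_sub hk]
      push_cast
      rw [abs_le] at h13 h14 hys ⊢
      constructor <;> linarith [h13.1, h13.2, h14.1, h14.2, hys.1, hys.2]) C
  have e1 : e * (2 * (w : ℤ)) + L n + round ys - (e * w - round ys) = L n + 2 * round ys + e * w := by ring
  rw [e1] at h1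
  refine le_trans (measureReal_mono ?_ (measure_ne_top _ _)) (h1.trans (by linarith))
  rintro η ⟨k1, hk1, k2, hk2, hle, h2⟩
  rw [Finset.mem_range] at hk1 hk2
  unfold wt at h2
  rw [if_pos (show (((k1 : ℤ), L (k1 : ℤ) + e * w) : Pt).1 ≤ (((k2 : ℤ), L (k2 : ℤ) + e * (2 * w)) : Pt).1
    from by show (k1 : ℤ) ≤ k2; exact_mod_cast hle)] at h2
  have e0 : ((((k2 : ℤ), L (k2 : ℤ) + e * (2 * w)) : Pt).1 - (((k1 : ℤ), L (k1 : ℤ) + e * w) : Pt).1).toNat = k2 - k1 := by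
    show ((k2 : ℤ) - k1).toNat = k2 - k1
    omega
  rw [e0] at h2
  rcases Nat.eq_or_lt_of_le hle with h3 | h3
  · exfalso
    subst h3
    have h4 : W μ s η ((k1 : ℤ), L (k1 : ℤ) + e * w) (k1 - k1)
        ((((k1 : ℤ), L (k1 : ℤ) + e * (2 * w)) : Pt).2 - (((k1 : ℤ), L (k1 : ℤ) + e * w) : Pt).2) = 0 := by
      unfold W WR
      rw [Zr_eq_zero _ _ _ (by
        show ¬ ((0 : ℤ) ≤ L (k1 : ℤ) + e * (2 * w) - (L (k1 : ℤ) + e * w) ∧
          L (k1 : ℤ) + e * (2 * w) - (L (k1 : ℤ) + e * w) ≤ ((k1 - k1 : ℕ) : ℤ))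
        rcases he with he | he
        · rw [he]
          omega
        · rw [he]
          omega), mul_zero]
    rw [h4] at h2
    exact absurd h2 (not_le.2 (Real.exp_pos _))
  · refine ⟨k1, k2 - k1 - 1, by omega, h2.trans (le_of_eq ?_)⟩
    have e1 : k2 - k1 - 1 + 1 = k2 - k1 := by omega
    have e2 : k1 + (k2 - k1 - 1 + 1) = k2 := by omega
    rw [e2, e1]

theorem crR_trav (hμ : EM μ) {n T t w l : ℕ} {A r ys C p : ℝ} (hA : 0 < A) (ht : t ≤ n) (hl : 1 ≤ l)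
    (hLr : ∀ k : ℕ, k ≤ n → |(L k : ℝ) - r * k| ≤ 1)
    (hTr : ∀ k : ℕ, k ≤ n → ∀ q : ℤ, |(q : ℝ) - (ys + r * k)| ≤ 3 * (l : ℝ) → 0 ≤ q ∧ q ≤ ((T + k : ℕ) : ℤ) ∧ ep μ s (T + k) q ≤ A)
    (hw : 1 ≤ w)
    (hp : (law μ).real {η | Real.exp (-(C + 8 * A)) ≤ W μ s η 0 (T + n + T) (L n + 2 * round ys + w)} ≤ p) :
    (law μ).real {η | CrR μ s L w (2 * w : ℤ) t (Real.exp (-C)) 0 η} ≤ 2 * p := by
  have h := cr_trav67 (L := L) hμ (e := 1) (C := C) (p := p) (Or.inl rfl) hA ht hl hLr hTr hw (by rw [one_mul]; exact hp)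
  refine le_trans (le_of_eq ?_) h
  congr 1
  ext η
  simp only [CrR, Set.mem_ofPred_eq, one_mul, zero_add]

theorem crL_trav (hμ : EM μ) {n T t w l : ℕ} {A r ys C p : ℝ} (hA : 0 < A) (ht : t ≤ n) (hl : 1 ≤ l)
    (hLr : ∀ k : ℕ, k ≤ n → |(L k : ℝ) - r * k| ≤ 1)
    (hTr : ∀ k : ℕ, k ≤ n → ∀ q : ℤ, |(q : ℝ) - (ys + r * k)| ≤ 3 * (l : ℝ) → 0 ≤ q ∧ q ≤ ((T + k : ℕ) : ℤ) ∧ ep μ s (T + k) q ≤ A)
    (hw : 1 ≤ w)
    (hp : (law μ).real {η | Real.exp (-(C + 8 * A)) ≤ W μ s η 0 (T + n + T) (L n + 2 * round ys - w)} ≤ p) :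
    (law μ).real {η | CrL μ s L w (2 * w : ℤ) t (Real.exp (-C)) 0 η} ≤ 2 * p := by
  have h := cr_trav67 (L := L) hμ (e := -1) (C := C) (p := p) (Or.inr rfl) hA ht hl hLr hTr hw (by
    rw [show L (n : ℤ) + 2 * round ys + -1 * (w : ℤ) = L (n : ℤ) + 2 * round ys - w by ring]
    exact hp)
  refine le_trans (le_of_eq ?_) h
  congr 1
  ext η
  simp only [CrL, Set.mem_ofPred_eq]
  have e1 : ∀ k : ℕ, L (k : ℤ) + (0 - (w : ℤ)) = L (k : ℤ) + -1 * w := fun k => by ring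
  have e2 : ∀ k : ℕ, L (k : ℤ) + (0 - (2 * w : ℤ)) = L (k : ℤ) + -1 * (2 * w) := fun k => by ring
  simp only [e1, e2]

end Pool.Agent.W_7d29a1_H.EL
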