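import Pool.Agent.W_7d29a1_H.HDefs
import Pool.Agent.W_7d29a1_L.LsDefs
import Pool.Agent.W_1b8d5d_p.HsU

/-!
MP_7d29a1_pr, TRACK H (all tilts). The interface: the statements of the sections as predicates of the law `μ` and the set of tilts
`A` (`a` is the level of the width). The width of the scale `n` in sites is `wH a μ s n = n * vA a μ s n`.
-/

set_option autoImplicit false

namespace Pool.Agent.W_7d29a1_H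

open MeasureTheory ProbabilityTheory Filter Topology Set
open Pool.Agent.W_7d29a1_F Pool.Agent.W_7d29a1_h4g
open Pool.Agent.W_7d29a1_L (Mh T kap Bx)
open Pool.Agent.W_1b8d5d_p (OctU D7U I1U SlowU)

noncomputable section

/-- The width of the scale `n`, in sites. -/
def wH (a : ℝ) (μ : Measure ℝ) (s : ℝ) (n : ℕ) : ℝ := n * vA a μ s n

/-! ### The frame -/

/-- **(L\*)** (`FLuck`): exponential moments of the tilted luck (tilts `t`, `|t| w_n ≤ c EE n`) of the boxes of time `N n` and width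
`w_n`, at the unit. -/
def LStarH (a : ℝ) (μ : Measure ℝ) (A : Set ℝ) : Prop :=
  ∀ N : ℕ, ∃ (c C : ℝ) (n0 : ℕ), 0 < c ∧ ∀ s ∈ A, ∀ n : ℕ, n0 ≤ n → ∀ t z : ℝ, |t| * wH a μ s n ≤ c * EE μ s n →
    ∫ η, Real.exp (c / EE μ s n * Mh μ s (sl μ s) t (wH a μ s n) z (N * n) η) ∂(law μ) ≤ C

/-- (`FTilt`): the tilted free end weight from one start. -/
def TiltH (a : ℝ) (μ : Measure ℝ) (A : Set ℝ) : Prop :=
  ∀ N : ℕ, ∃ (c C : ℝ) (n0 : ℕ), 0 < c ∧ ∀ s ∈ A, ∀ n : ℕ, n0 ≤ n → ∀ m : ℕ, m ≤ N * n →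
    ∫ η, Real.exp (c / EE μ s n * Real.log (∑ y ∈ Finset.Icc (0 : ℤ) m,
      W μ s η 0 m y * Real.exp (c * EE μ s n / wH a μ s n * |(y : ℝ) - sl μ s * m|))) ∂(law μ) ≤ C

/-- (TAIL) (`FTail`): a functional which is hard in the mean is exponentially rarely easy. -/
def TailH (a : ℝ) (μ : Measure ℝ) (A : Set ℝ) : Prop :=
  ∀ N : ℕ, ∃ (c C : ℝ) (n0 : ℕ), 0 < c ∧ ∀ s ∈ A, ∀ n : ℕ, n0 ≤ n → ∀ (S : Set Pt) (G : Env → ℝ), Poly S G → (∀ η, 0 < G η) →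
    (∃ t z : ℝ, |t| * wH a μ s n ≤ c * EE μ s n ∧
      ∀ η, Real.log (G η) ≤ EE μ s n + Mh μ s (sl μ s) t (wH a μ s n) z (N * n) η) →
    0 ≤ -∫ η, Real.log (G η) ∂(law μ) →
    ∫ η, Real.exp (c / EE μ s n * Real.log (G η)) ∂(law μ) ≤
      C * Real.exp (-(c / EE μ s n * (-∫ η, Real.log (G η) ∂(law μ)) / 2))

/-- (TAIL) (`FTail0`) for the functionals `log G ≤ V_t(0)`, `t ≤ N n`. -/
def Tail0H (μ : Measure ℝ) (A : Set ℝ) : Prop :=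
  ∀ N : ℕ, ∃ (c C : ℝ) (n0 : ℕ), 0 < c ∧ ∀ s ∈ A, ∀ n : ℕ, n0 ≤ n → ∀ (t : ℕ) (G : Env → ℝ), t ≤ N * n → Poly (rows 0 t) G →
    (∀ η, 0 < G η) → (∀ η, Real.log (G η) ≤ V μ s η 0 t) →
    ∫ η, Real.exp (c / EE μ s n * Real.log (G η)) ∂(law μ) ≤
      C * Real.exp (-(c / EE μ s n * (-∫ η, Real.log (G η) ∂(law μ)) / 2))

/-- (L0) (`FL0`): the lucks of one start. -/
def L0H (μ : Measure ℝ) (A : Set ℝ) : Prop :=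
  ∀ N : ℕ, ∃ (c C : ℝ) (n0 : ℕ), 0 < c ∧ ∀ s ∈ A, ∀ n : ℕ, n0 ≤ n → ∀ k : ℝ,
    (law μ).real {η | ∃ t : ℕ, t ≤ N * n ∧ k * EE μ s n ≤ V μ s η 0 t} ≤ C * Real.exp (-(c * k))

/-- **(CHEAP)** (`CheapP`): the cheap displacements. THE STRAIGHT DISPLACEMENT `(m, sl m)` NEED NOT BE CHEAP. -/
def CheapH (a : ℝ) (μ : Measure ℝ) (A : Set ℝ) : Prop :=
  ∃ c0 C' : ℝ, 0 < c0 ∧ ∀ s ∈ A, ∀ m : ℕ, 1 ≤ m → ∃ lo hi : ℤ, 0 ≤ lo ∧ lo ≤ xs μ s m ∧ xs μ s m ≤ hi ∧ hi ≤ m ∧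
    c0 * wH a μ s m - 1 ≤ (hi : ℝ) - lo ∧
    ∀ y : ℤ, lo ≤ y → y ≤ hi → e μ s m y ≤ C' * EE μ s m ∧ |(y : ℝ) - sl μ s * m| ≤ 2 * wH a μ s m + 1

/-- All statements of the frame. -/
structure FrameH (a : ℝ) (μ : Measure ℝ) (A : Set ℝ) : Prop where
  cheap : CheapH a μ A
  luck : LStarH a μ A
  tilt : TiltH a μ A
  l0 : L0H μ A
  tail : TailH a μ A
  tail0 : Tail0H μ A

/-! ### The sections of the chain -/

/-- The unit along the octaves. -/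
def EoH (μ : Measure ℝ) (A : Set ℝ) : A → ℕ → ℝ := fun s x => EE μ s (2 ^ x)

/-- The bulk along the octaves. -/
def EmH (μ : Measure ℝ) (A : Set ℝ) : A → ℕ → ℝ := fun s x => Em μ s (2 ^ x)

/-- The closing of the cone along the octaves. -/
def ffH (a : ℝ) (μ : Measure ℝ) (A : Set ℝ) : A → ℕ → ℝ := fun s x => ff a μ s x

/-- The soft scales. -/
def SfH (μ : Measure ℝ) (A : Set ℝ) : A → ℕ → ℝ → Prop := fun s x α => Sf μ s x α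

/-- (D7). -/
def D7H (μ : Measure ℝ) (A : Set ℝ) : Prop := D7U (EmH μ A) (SfH μ A)

/-- (I1). -/
def I1H (μ : Measure ℝ) (A : Set ℝ) : Prop := I1U (EoH μ A) (EmH μ A) (SfH μ A)

/-- One octave of (D4). -/
def OctH (a : ℝ) (μ : Measure ℝ) (A : Set ℝ) : Prop := OctU (EoH μ A) (EmH μ A) (ffH a μ A) (SfH μ A)

/-- (hS): slow growth of the unit on the stretches without soft scale. -/
def HSH (a : ℝ) (μ : Measure ℝ) (A : Set ℝ) : Prop :=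
  ∃ (P : A → ℕ → Prop) (α C : ℝ) (k x₀ : ℕ),
    (∀ s y x, x₀ ≤ y → y ≤ x → (∀ z, y ≤ z → z < x → P s z) →
      gg μ s.1 x - gg μ s.1 y ≤ (ff a μ s.1 x - ff a μ s.1 y) / 4 + C) ∧
    ∀ s x, x₀ ≤ x → ¬ P s x → ∃ y, x ≤ y + k ∧ y ≤ x + k ∧ Sf μ s.1 y α

/-- (hB0). -/
def HB0H (a : ℝ) (μ : Measure ℝ) (A : Set ℝ) : Prop :=
  ∃ C₀ α₀ : ℝ, ∀ s ∈ A, ∀ x : ℕ, Sf μ s x (max (gg μ s x - ff a μ s x / 2 + C₀) α₀)

/-- (hB). -/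
def HBH (a : ℝ) (μ : Measure ℝ) (A : Set ℝ) : Prop :=
  ∃ α₀ : ℝ, ∀ a₁ : ℝ, ∃ C : ℝ, ∀ T : ℕ, ∃ y₀ : ℕ, ∀ s ∈ A, ∀ y x : ℕ, y₀ ≤ y → y ≤ x → x ≤ y + T → Sf μ s y a₁ →
    Sf μ s x (max (gg μ s x - gg μ s y - (ff a μ s x - ff a μ s y) / 2 + C) α₀)

/-- (hF2). -/
def HF2H (a : ℝ) (μ : Measure ℝ) (A : Set ℝ) : Prop :=
  ∀ (T x₀ : ℕ) (b : ℝ), (∀ s ∈ A, ∀ y, x₀ ≤ y → gg μ s y + 1 ≤ gg μ s (y + T)) → (∀ s ∈ A, ∀ y, x₀ ≤ y → Sf μ s y b) →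
    (∀ s ∈ A, ∀ y : ℕ, gg μ s y ≤ (y : ℝ) / 2 + b) → ∃ (L x₁ : ℕ) (δ : ℝ), 0 < δ ∧ ∀ s ∈ A, ∀ x, x₁ ≤ x →
      (∀ j : ℕ, j ≤ L → gg μ s (x + j) ≤ gg μ s x + 3 / 4 * j) → ff a μ s x + δ ≤ ff a μ s (x + L)

/-- The widths are at most a power of the time. -/
def WidthPow (a : ℝ) (μ : Measure ℝ) (A : Set ℝ) : Prop :=
  ∃ c C : ℝ, 0 < c ∧ ∀ s ∈ A, ∀ x : ℕ, c * x - C ≤ ff a μ s x

/-- What the sections have to prove (the levels of the widths are free). -/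
structure LeavesH (μ : Measure ℝ) (A : Set ℝ) : Prop where
  oct : ∃ a : ℝ, 0 < a ∧ OctH a μ A
  d7 : D7H μ A
  i1 : I1H μ A
  hB0 : ∃ a : ℝ, 0 < a ∧ HB0H a μ A
  hB : ∃ a : ℝ, 0 < a ∧ HBH a μ A
  hF2 : ∃ a : ℝ, 0 < a ∧ HF2H a μ A

/-! ### The core -/

/-- The tube of half width `b` around the line of the slope `v` through `a`. -/
def tb (v : ℝ) (a : Pt) (b : ℝ) : Set Pt := {p | |((p.2 - a.2 : ℤ) : ℝ) - v * ((p.1 - a.1 : ℤ) : ℝ)| ≤ b}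

/-- The core event of the block which starts at `a`: the luck of the displacement `(M, k)` inside the tube is at least `Y`. -/
def EvH (μ : Measure ℝ) (s b Y : ℝ) (M : ℕ) (k : ℤ) (a : Pt) (η : Env) : Prop :=
  Y ≤ Real.log (WR μ s (tb (sl μ s) a b) η a M k)

/-- **THE CORE** (`CoreHB`, `CoreH`) at the scales which are soft at the level `a₁`: the displacement `((1 + r) m, k)`, `m = 2 ^ (y + j)`, has
with probability at least `p` a luck of at least `K EE m` inside the tube of half width `R w_m`; `r`, `C3` universal. -/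
def CoreH (a : ℝ) (μ : Measure ℝ) (A : Set ℝ) (r : ℕ) (C3 : ℝ) : Prop :=
  ∀ K a₁ : ℝ, ∃ (p R : ℝ) (j y0 : ℕ), 0 < p ∧ 0 ≤ R ∧ ∀ s ∈ A, ∀ y : ℕ, y0 ≤ y → Sf μ s y a₁ →
    ∀ m : ℕ, m = 2 ^ (y + j) → ∃ k : ℤ, 0 ≤ k ∧ k ≤ ((1 + r) * m : ℕ) ∧
      p ≤ (law μ).real {η | EvH μ s (R * wH a μ s m) (K * EE μ s m) ((1 + r) * m) k 0 η} ∧
      ep μ s ((1 + r) * m) k ≤ C3 * EE μ s m ∧ |(k : ℝ) - sl μ s * (((1 + r) * m : ℕ) : ℝ)| ≤ C3 * wH a μ s m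

/-! ### Doubling -/

/-- The halving of the caps. -/
def HalvH (μ : Measure ℝ) (A : Set ℝ) : Prop :=
  ∃ θ t₀ : ℝ, 0 < θ ∧ θ ≤ 1 ∧ 0 < t₀ ∧ ∀ s ∈ A, ∀ t : ℝ, 0 < t → t ≤ t₀ →
    Pool.Agent.W_1b8d5d_p.wd (J μ s) (θ * t) ≤ Pool.Agent.W_1b8d5d_p.wd (J μ s) t / 2

/-- **(BAL)**: the left and the right width are comparable. -/
def BalH (a : ℝ) (μ : Measure ℝ) (A : Set ℝ) : Prop :=
  ∃ (M0 : ℝ) (x1 : ℕ), 0 < M0 ∧ ∀ s ∈ A, ∀ x : ℕ, x1 ≤ x →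
    vl a μ s (2 ^ x) ≤ M0 * vr a μ s (2 ^ x) ∧ vr a μ s (2 ^ x) ≤ M0 * vl a μ s (2 ^ x)

/-- **(D2)**: doubling of the rate function at every tilt, uniformly. -/
def DblH (μ : Measure ℝ) (A : Set ℝ) : Prop :=
  ∃ D δ : ℝ, 0 < δ ∧ ∀ s ∈ A, ∀ x : ℝ, |x| ≤ δ → J μ s (2 * x) ≤ D * J μ s x

end

end Pool.Agent.W_7d29a1_H
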