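import Pool.Agent.W_7d29a1_H.ConH
import Pool.Agent.W_7d29a1_H.WidthH
import Pool.Agent.W_7d29a1_H.PredH

/-!
MP_7d29a1_pr, TRACK H (all tilts). The length `ln μ s n B` of the cheap sets (ConH) is comparable with the width `w_n = n vA n`.
Model: `W_1b8d5d_p.UnitL`.
-/

set_option autoImplicit false

namespace Pool.Agent.W_7d29a1_H

open MeasureTheory ProbabilityTheory Filter Topology Set
open Pool.Agent.W_7d29a1_F Pool.Agent.W_7d29a1_h4g
open Pool.Agent.W_7d29a1_h47 (EM Nondeg)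

noncomputable section

variable {μ : Measure ℝ} [IsProbabilityMeasure μ] {H δ : ℝ} {A : Set ℝ} {s : ℝ}

/-- `n J(y / n - sl) ≤ e`. -/
private theorem l_ge (hμ : EM μ) (s : ℝ) {n : ℕ} (hn : 1 ≤ n) {y : ℤ} (h0 : 0 ≤ y) (h1 : y ≤ n) :
    n * J μ s ((y : ℝ) / n - sl μ s) ≤ e μ s n y := by
  have hn0 : (0 : ℝ) < n := by exact_mod_cast hn
  rw [mul_comm, ← le_div_iff₀ hn0]
  refine J_le fun r _ => ?_
  rw [le_div_iff₀ hn0]
  have h2 := e_nonneg hμ (s + r) h0 h1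
  rw [e_eq hμ (s + r) h0 h1] at h2
  rw [e_eq hμ s h0 h1]
  unfold ex
  have e1 : (r * ((y : ℝ) / n - sl μ s) - (lam μ (s + r) - lam μ s - r * sl μ s)) * n =
      r * y - n * (lam μ (s + r) - lam μ s) := by
    field_simp
    ring
  rw [e1]
  linarith

/-- A cheap displacement of a duration `m ≤ n` lies in the cone of the scale `n`. -/
theorem Dirs.CI_lev (h : Dirs μ H δ A) (hs : s ∈ A) {b : ℝ} (hb : 0 ≤ b) {n m : ℕ} (hn : 1 ≤ n) (hmn : m ≤ n) {B : ℝ}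
    (hB : B ≤ b * EE μ s n) {y : ℤ} (hy : y ∈ CI μ s m B) (hB0 : 0 ≤ B) :
    -(n * vl b μ s n) ≤ (y : ℝ) - sl μ s * m ∧ (y : ℝ) - sl μ s * m ≤ n * vr b μ s n := by
  have hn0 : (0 : ℝ) < n := by exact_mod_cast hn
  have h1 : n * J μ s (((y : ℝ) - sl μ s * m) / n) ≤ b * EE μ s n := by
    rcases Nat.eq_zero_or_pos m with h0 | h0
    · subst h0
      have h2 := CI_zero hy
      subst h2
      simp only [Int.cast_zero, Nat.cast_zero, mul_zero, sub_zero, zero_div]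
      rw [(h.rf hs).zero, mul_zero]
      exact hB0.trans hB
    · have hm0 : (0 : ℝ) < m := by exact_mod_cast h0
      have hmn' : (m : ℝ) ≤ n := by exact_mod_cast hmn
      have h2 := l_ge h.em s h0 (CI_0 hy) (CI_n hy)
      have q1 : (0 : ℝ) ≤ 1 - (m : ℝ) / (n : ℝ) := by rw [sub_nonneg, div_le_one hn0]; exact hmn'
      have q2 : (0 : ℝ) ≤ (m : ℝ) / (n : ℝ) := by positivity
      have h3 := (h.rf hs).conv.2 (mem_univ (0 : ℝ)) (mem_univ ((y : ℝ) / m - sl μ s)) q1 q2 (by ring)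
      have e1 : (1 - (m : ℝ) / n) • (0 : ℝ) + ((m : ℝ) / n) • ((y : ℝ) / m - sl μ s) = ((y : ℝ) - sl μ s * m) / n := by
        simp only [smul_eq_mul]
        field_simp
        ring
      rw [e1] at h3
      simp only [smul_eq_mul, (h.rf hs).zero, mul_zero, zero_add] at h3
      have h4 := mul_le_mul_of_nonneg_left h3 hn0.le
      have e2 : (n : ℝ) * ((m : ℝ) / n * J μ s ((y : ℝ) / m - sl μ s)) = m * J μ s ((y : ℝ) / m - sl μ s) := by field_simp
      rw [e2] at h4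
      have h5 := CI_e hy
      linarith
  have h2 := (h.lev hs hb hn _).1 h1
  have e1 : (y : ℝ) - sl μ s * m = n * (((y : ℝ) - sl μ s * m) / n) := by field_simp
  rw [e1]
  constructor
  · have := mul_le_mul_of_nonneg_left h2.1 hn0.le
    linarith
  · exact mul_le_mul_of_nonneg_left h2.2 hn0.le

/-- A cheap displacement lies in the cone, in sites. -/
theorem Dirs.e_cone61 (h : Dirs μ H δ A) (hs : s ∈ A) {b : ℝ} (hb : 0 ≤ b) {m : ℕ} (hm : 1 ≤ m) {y : ℤ} (h0 : 0 ≤ y) (h1 : y ≤ m)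
    (hy : e μ s m y ≤ b * EE μ s m) : |(y : ℝ) - sl μ s * m| ≤ wH b μ s m := by
  have hm0 : (0 : ℝ) < m := by exact_mod_cast hm
  have h2 := h.lev_abs hs hb hm (x := (y : ℝ) / m - sl μ s) ((l_ge h.em s hm h0 h1).trans hy)
  have e1 : (y : ℝ) - sl μ s * m = m * ((y : ℝ) / m - sl μ s) := by field_simp
  unfold wH
  rw [e1, abs_mul, Nat.abs_cast]
  exact mul_le_mul_of_nonneg_left h2 hm0.le

/-- The cheapest displacement is in the cone of any level `≥ 1`. -/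
theorem Dirs.xs_cone61 (h : Dirs μ H δ A) (hs : s ∈ A) {b : ℝ} (hb : 1 ≤ b) {m : ℕ} (hm : 1 ≤ m) :
    |(xs μ s m : ℝ) - sl μ s * m| ≤ wH b μ s m := by
  refine h.e_cone61 hs (by linarith) hm (xs_mem m).1 (xs_mem m).2 ?_
  have h1 := e_xs_le h.em s m
  have h2 := le_EE (μ := μ) (s := s) (le_refl m)
  have h4 := EE_pos (μ := μ) (s := s) m
  nlinarith

theorem Dirs.ln_upper (h : Dirs μ H δ A) (hs : s ∈ A) {b : ℝ} (hb : 0 ≤ b) {n : ℕ} (hn : 1 ≤ n) {B : ℝ}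
    (hB1 : EE μ s n ≤ B) (hB : B ≤ b * EE μ s n) : (ln μ s n B : ℝ) ≤ n * vA b μ s n := by
  obtain ⟨m, hm1, hmn, y, h1, h2⟩ := ln_mem h.em hn hB1
  have hB0 : 0 ≤ B := (EE_pos n).le.trans hB1
  have h3 := (h.CI_lev hs hb hn hmn hB h1 hB0).1
  have h4 := (h.CI_lev hs hb hn hmn hB h2 hB0).2
  unfold vA
  push_cast at h4
  linarith

/-- The upper bound at any level of the width. -/
theorem Dirs.ln_upper' (h : Dirs μ H δ A) (hs : s ∈ A) {a b : ℝ} (ha : 0 < a) (hb : 0 ≤ b) {n : ℕ} (hn : 1 ≤ n) {B : ℝ}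
    (hB1 : EE μ s n ≤ B) (hB : B ≤ b * EE μ s n) : (ln μ s n B : ℝ) ≤ max 1 (b / a) * (n * vA a μ s n) := by
  have h1 := h.ln_upper hs hb hn hB1 hB
  have h2 : b ≤ max 1 (b / a) * a := by
    have h3 : b / a * a ≤ max 1 (b / a) * a := mul_le_mul_of_nonneg_right (le_max_right _ _) ha.le
    rwa [div_mul_cancel₀ _ ha.ne'] at h3
  have h3 := (h.vA_level_mono hs hb h2 n).trans (h.vA_level_mul hs ha.le (le_max_left 1 (b / a)) n)
  have hn0 : (0 : ℝ) ≤ n := Nat.cast_nonneg n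
  have h4 := mul_le_mul_of_nonneg_left h3 hn0
  linarith

/-- (CHEAP) with explicit constants. -/
def CheapI (a : ℝ) (μ : Measure ℝ) (A : Set ℝ) (c0 C' : ℝ) : Prop :=
  ∀ s ∈ A, ∀ m : ℕ, 1 ≤ m → ∃ lo hi : ℤ, 0 ≤ lo ∧ lo ≤ xs μ s m ∧ xs μ s m ≤ hi ∧ hi ≤ m ∧
    c0 * wH a μ s m - 1 ≤ (hi : ℝ) - lo ∧
    ∀ y : ℤ, lo ≤ y → y ≤ hi → e μ s m y ≤ C' * EE μ s m ∧ |(y : ℝ) - sl μ s * m| ≤ 2 * wH a μ s m + 1

omit [IsProbabilityMeasure μ] in
theorem CheapH.cheapI {a : ℝ} (h : CheapH a μ A) : ∃ c0 C' : ℝ, 0 < c0 ∧ CheapI a μ A c0 C' := h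

theorem CheapI.mono {a c0 C' C'' : ℝ} (h : CheapI a μ A c0 C') (hC : C' ≤ C'') : CheapI a μ A c0 C'' := by
  intro s hs m hm
  obtain ⟨lo, hi, h1, h2, h3, h4, h5, h6⟩ := h s hs m hm
  refine ⟨lo, hi, h1, h2, h3, h4, h5, fun y hy1 hy2 => ⟨(h6 y hy1 hy2).1.trans ?_, (h6 y hy1 hy2).2⟩⟩
  exact mul_le_mul_of_nonneg_right hC (EE_pos m).le

/-- Between the cheapest displacement and an end of the cheap interval the cost is below `2 EE` on a definite part. -/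
theorem Dirs.part (h : Dirs μ H δ A) {C' : ℝ} {n : ℕ} {y z : ℤ} (hz0 : 0 ≤ z) (hzn : z ≤ n)
    (hz : e μ s n z ≤ C' * EE μ s n) (h1 : |((y : ℝ) - xs μ s n)| * (2 * C') ≤ |(z : ℝ) - xs μ s n|)
    (h2 : (xs μ s n ≤ y ∧ y ≤ z) ∨ (z ≤ y ∧ y ≤ xs μ s n)) : e μ s n y ≤ 2 * EE μ s n := by
  have hE := EE_pos (μ := μ) (s := s) n
  have hx : e μ s n (xs μ s n) ≤ EE μ s n := by
    have h3 := e_xs_le h.em s n
    have h4 := le_EE (μ := μ) (s := s) (le_refl n)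
    linarith
  rcases h2 with ⟨ha, hb⟩ | ⟨ha, hb⟩
  · have ha' : (xs μ s n : ℝ) ≤ y := by exact_mod_cast ha
    have hb' : (y : ℝ) ≤ z := by exact_mod_cast hb
    rw [abs_of_nonneg (by linarith), abs_of_nonneg (by linarith)] at h1
    rcases eq_or_lt_of_le (ha'.trans hb') with h0 | h0
    · have : y = xs μ s n := by
        have : (y : ℝ) = xs μ s n := by linarith
        exact_mod_cast this
      rw [this]
      linarith
    have h5 := e_chord61 (s := s) h.em (xs_mem n).1 ha hb hzn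
    have h6 : ((z : ℝ) - y) * e μ s n (xs μ s n) ≤ (z - xs μ s n) * EE μ s n := by
      calc ((z : ℝ) - y) * e μ s n (xs μ s n) ≤ (z - y) * EE μ s n := mul_le_mul_of_nonneg_left hx (by linarith)
        _ ≤ (z - xs μ s n) * EE μ s n := mul_le_mul_of_nonneg_right (by linarith) hE.le
    have h7 : ((y : ℝ) - xs μ s n) * e μ s n z ≤ (z - xs μ s n) * EE μ s n := by
      calc ((y : ℝ) - xs μ s n) * e μ s n z ≤ (y - xs μ s n) * (C' * EE μ s n) := mul_le_mul_of_nonneg_left hz (by linarith)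
        _ = ((y - xs μ s n) * C') * EE μ s n := by ring
        _ ≤ (z - xs μ s n) * EE μ s n := mul_le_mul_of_nonneg_right (by nlinarith) hE.le
    have h8 : ((z : ℝ) - xs μ s n) * e μ s n y ≤ (z - xs μ s n) * (2 * EE μ s n) := by linarith
    exact le_of_mul_le_mul_left h8 (by linarith)
  · have ha' : (z : ℝ) ≤ y := by exact_mod_cast ha
    have hb' : (y : ℝ) ≤ xs μ s n := by exact_mod_cast hb
    rw [abs_of_nonpos (by linarith), abs_of_nonpos (by linarith)] at h1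
    rcases eq_or_lt_of_le (ha'.trans hb') with h0 | h0
    · have : y = xs μ s n := by
        have : (y : ℝ) = xs μ s n := by linarith
        exact_mod_cast this
      rw [this]
      linarith
    have h5 := e_chord61 (s := s) h.em hz0 ha hb (xs_mem n).2
    have h6 : ((y : ℝ) - z) * e μ s n (xs μ s n) ≤ (xs μ s n - z) * EE μ s n := by
      calc ((y : ℝ) - z) * e μ s n (xs μ s n) ≤ (y - z) * EE μ s n := mul_le_mul_of_nonneg_left hx (by linarith)
        _ ≤ (xs μ s n - z) * EE μ s n := mul_le_mul_of_nonneg_right (by linarith) hE.le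
    have h7 : ((xs μ s n : ℝ) - y) * e μ s n z ≤ (xs μ s n - z) * EE μ s n := by
      calc ((xs μ s n : ℝ) - y) * e μ s n z ≤ (xs μ s n - y) * (C' * EE μ s n) := mul_le_mul_of_nonneg_left hz (by linarith)
        _ = ((xs μ s n - y) * C') * EE μ s n := by ring
        _ ≤ (xs μ s n - z) * EE μ s n := mul_le_mul_of_nonneg_right (by nlinarith) hE.le
    have h8 : ((xs μ s n : ℝ) - z) * e μ s n y ≤ (xs μ s n - z) * (2 * EE μ s n) := by linarith
    exact le_of_mul_le_mul_left h8 (by linarith)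

/-- Around the cheapest displacement there is an interval of length `c w_n - 3` on which the cost is below `2 EE`. -/
theorem Dirs.cheap2 (h : Dirs μ H δ A) {a c0 C' : ℝ} (hC' : 1 ≤ C') (hch : CheapI a μ A c0 C')
    (hs : s ∈ A) {n : ℕ} (hn : 1 ≤ n) : ∃ lo hi : ℤ, 0 ≤ lo ∧ lo ≤ xs μ s n ∧ xs μ s n ≤ hi ∧ hi ≤ n ∧
      c0 / (2 * C') * (n * vA a μ s n) - 3 ≤ (hi : ℝ) - lo ∧ (∀ y : ℤ, lo ≤ y → y ≤ hi → e μ s n y ≤ 2 * EE μ s n) := by
  obtain ⟨lo', hi', h01, h1, h2, h02, h3, h4⟩ := hch s hs n hn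
  unfold wH at h3 h4
  have h1' : (lo' : ℝ) ≤ xs μ s n := by exact_mod_cast h1
  have h2' : (xs μ s n : ℝ) ≤ hi' := by exact_mod_cast h2
  have hC0 : 0 < 2 * C' := by linarith
  obtain ⟨p, hp⟩ : ∃ p : ℤ, p = ⌊((xs μ s n : ℝ) - lo') / (2 * C')⌋ := ⟨_, rfl⟩
  obtain ⟨q, hq⟩ : ∃ q : ℤ, q = ⌊((hi' : ℝ) - xs μ s n) / (2 * C')⌋ := ⟨_, rfl⟩
  have hp0 : 0 ≤ p := by rw [hp]; exact Int.floor_nonneg.2 (div_nonneg (by linarith) hC0.le)
  have hq0 : 0 ≤ q := by rw [hq]; exact Int.floor_nonneg.2 (div_nonneg (by linarith) hC0.le)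
  have hp1 : (p : ℝ) * (2 * C') ≤ xs μ s n - lo' := by
    rw [← le_div_iff₀ hC0, hp]
    exact Int.floor_le _
  have hq1 : (q : ℝ) * (2 * C') ≤ hi' - xs μ s n := by
    rw [← le_div_iff₀ hC0, hq]
    exact Int.floor_le _
  have hp2 : ((xs μ s n : ℝ) - lo') / (2 * C') - 1 < p := by rw [hp]; exact Int.sub_one_lt_floor _
  have hq2 : ((hi' : ℝ) - xs μ s n) / (2 * C') - 1 < q := by rw [hq]; exact Int.sub_one_lt_floor _
  have hp0' : (0 : ℝ) ≤ p := by exact_mod_cast hp0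
  have hq0' : (0 : ℝ) ≤ q := by exact_mod_cast hq0
  have hlo : (lo' : ℝ) ≤ xs μ s n - p := by nlinarith
  have hhi : (xs μ s n : ℝ) + q ≤ hi' := by nlinarith
  have hlo1 : lo' ≤ xs μ s n - p := by exact_mod_cast hlo
  have hhi1 : xs μ s n + q ≤ hi' := by exact_mod_cast hhi
  refine ⟨xs μ s n - p, xs μ s n + q, by omega, by omega, by omega, by omega, ?_, fun y hy1 hy2 => ?_⟩
  · push_cast
    have h5 : (c0 * (n * vA a μ s n) - 1) / (2 * C') ≤ ((hi' : ℝ) - lo') / (2 * C') := div_le_div_of_nonneg_right h3 hC0.le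
    have e1 : ((hi' : ℝ) - lo') / (2 * C') = ((xs μ s n : ℝ) - lo') / (2 * C') + ((hi' : ℝ) - xs μ s n) / (2 * C') := by ring
    have e2 : (c0 * (n * vA a μ s n) - 1) / (2 * C') = c0 / (2 * C') * (n * vA a μ s n) - 1 / (2 * C') := by ring
    have h6 : 1 / (2 * C') ≤ 1 := by rw [div_le_one hC0]; linarith
    linarith
  · rcases le_total (xs μ s n) y with h5 | h5
    · refine h.part (h01.trans (h1.trans h2)) h02 (h4 hi' (h1.trans h2) le_rfl).1 ?_ (Or.inl ⟨h5, ?_⟩)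
      · have h5' : (xs μ s n : ℝ) ≤ y := by exact_mod_cast h5
        have h6 : (y : ℝ) ≤ xs μ s n + q := by exact_mod_cast hy2
        rw [abs_of_nonneg (by linarith), abs_of_nonneg (by linarith)]
        nlinarith
      · omega
    · refine h.part h01 ((h1.trans h2).trans h02) (h4 lo' le_rfl (h1.trans h2)).1 ?_ (Or.inr ⟨?_, h5⟩)
      · have h5' : (y : ℝ) ≤ xs μ s n := by exact_mod_cast h5
        have h6 : (xs μ s n : ℝ) - p ≤ y := by exact_mod_cast hy1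
        rw [abs_of_nonpos (by linarith), abs_of_nonpos (by linarith)]
        nlinarith
      · omega

/-- The lower bound for the length of the cheap sets. -/
theorem Dirs.ln_lower (h : Dirs μ H δ A) (hR : Rate μ A) {a : ℝ} (ha : 0 < a) (hch : CheapH a μ A) :
    ∃ (c : ℝ) (n0 : ℕ), 0 < c ∧ 1 ≤ n0 ∧ ∀ s ∈ A, ∀ n : ℕ, n0 ≤ n → ∀ B : ℝ, 2 * EE μ s n ≤ B →
      c * (n * vA a μ s n) ≤ ln μ s n B := by
  obtain ⟨c0, C', hc0, hch0⟩ := hch.cheapI
  obtain ⟨C2, hC2, hC2'⟩ : ∃ C2 : ℝ, 1 ≤ C2 ∧ C' ≤ C2 := ⟨max 1 C', le_max_left _ _, le_max_right _ _⟩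
  have hch2 := hch0.mono hC2'
  obtain ⟨n0, hn0, h1⟩ := h.w_large hR ha (6 / (c0 / (2 * C2)))
  have hc : 0 < c0 / (2 * C2) := by positivity
  refine ⟨c0 / (2 * C2) / 2, n0, by positivity, hn0, fun s hs n hn B hB => ?_⟩
  have hn1 := hn0.trans hn
  obtain ⟨lo, hi, h01, h2, h3, h02, h4, h5⟩ := h.cheap2 hC2 hch2 hs hn1
  have h6 : (hi - lo : ℤ) ≤ ln μ s n B :=
    le_ln le_rfl (CI_mk h01 ((h2.trans h3).trans h02) ((h5 lo le_rfl (h2.trans h3)).trans hB))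
      (CI_mk (h01.trans (h2.trans h3)) h02 ((h5 hi (h2.trans h3) le_rfl).trans hB))
  have h7 : ((hi : ℝ) - lo) ≤ ln μ s n B := by exact_mod_cast h6
  have h8 : 6 / (c0 / (2 * C2)) ≤ n * vA a μ s n := by
    refine le_trans ?_ (h1 s hs n hn)
    have h10 := one_le_EE (μ := μ) (s := s) n
    have h11 : 0 < 6 / (c0 / (2 * C2)) := by positivity
    nlinarith
  have h9 : 6 ≤ c0 / (2 * C2) * (n * vA a μ s n) := by
    rw [div_le_iff₀ hc] at h8
    linarith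
  linarith

end

end Pool.Agent.W_7d29a1_H
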