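import Pool.Agent.W_7d29a1_H.I1H4
import Pool.Agent.W_7d29a1_H.UnitH

/-!
MP_7d29a1_pr, TRACK H (all tilts), (H7): scales which are not soft: (NS1) lucks of one unit are rare, (NS2) displacements of mean cost
at least `A1` units cost at least `A1 - 1` units with probability close to one. (helper4)
-/

set_option autoImplicit false

namespace Pool.Agent.W_7d29a1_H

open MeasureTheory ProbabilityTheory Filter Topology
open Pool.Agent.W_7d29a1_F Pool.Agent.W_7d29a1_h4g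
open Pool.Agent.W_7d29a1_G (int_X int_Xp)

noncomputable section

variable {μ : Measure ℝ} [IsProbabilityMeasure μ] {s : ℝ} {A : Set ℝ} {H δ : ℝ}

omit [IsProbabilityMeasure μ] in
/-- The exponential of the luck is a sum of path weights. -/
theorem poly_expV4 (m : ℕ) : Poly (rows 0 m) fun η => WS μ s η 0 m (Finset.Icc (0 : ℤ) m) := by
  refine (poly_WS (μ := μ) (s := s) 0 m (Finset.Icc (0 : ℤ) m)).mono ?_
  rintro q ⟨q1, q2, _, _⟩
  refine ⟨q1, ?_⟩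
  simpa using q2

/-- The mean luck is at least minus the unit. -/
theorem V_mean_ge4 (hμ : Pool.Agent.W_7d29a1_h47.EM μ) {m n : ℕ} (hmn : m ≤ n) :
    -EE μ s n ≤ ∫ η, V μ s η 0 m ∂(law μ) := by
  have hz := zs_mem (μ := μ) (s := s) m
  have h1 : ∫ η, -max (X μ s η 0 m (zs μ s m)) 0 ∂(law μ) ≤ ∫ η, V μ s η 0 m ∂(law μ) := by
    refine integral_mono (int_Xp hμ s hz.1 hz.2).neg (Sub.integrable hμ (Sub_V 0 m)) fun η => ?_
    have h4 := neg_X_le_V (μ := μ) (s := s) η 0 hz.1 hz.2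
    have h5 := le_max_left (X μ s η 0 m (zs μ s m)) 0
    show -max (X μ s η 0 m (zs μ s m)) 0 ≤ V μ s η 0 m
    linarith
  rw [integral_neg] at h1
  have h2 := ref_le_EE4 (μ := μ) (s := s) hmn
  linarith

/-- The unit at a multiple of the scale. -/
theorem EE_le_mul4 (hμ : Pool.Agent.W_7d29a1_h47.EM μ) {m K x : ℕ} (hK : 1 ≤ K) (hm : m ≤ K * 2 ^ x) :
    EE μ s m ≤ K * EE μ s (2 ^ x) := EE_le_mul hμ s hK hm

/-- **(NS1)**. -/
theorem ns1 (hμ : Pool.Agent.W_7d29a1_h47.EM μ) {p : ℝ} (hp : 0 < p) (K : ℕ) : ∃ α : ℝ, 0 ≤ α ∧ ∀ (s : ℝ) (x : ℕ),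
    ¬ Sf μ s x α → ∀ m, m ≤ K * 2 ^ x → (law μ).real {η | EE μ s (2 ^ x) ≤ V μ s η 0 m} ≤ p := by
  obtain ⟨α, hα, hB⟩ := exists_level4 (max (1 / p) (K + 1))
  refine ⟨α, hα, fun s x hS m hmx => ?_⟩
  have hE := EE_pos (μ := μ) (s := s) (2 ^ x)
  have hm1 : (m : ℝ) ≤ (2 : ℝ) ^ ((x : ℝ) + α) := by
    rw [Real.rpow_add two_pos, Real.rpow_natCast]
    have k1 : (m : ℝ) ≤ K * 2 ^ x := by exact_mod_cast hmx
    have k2 : (K : ℝ) ≤ 2 ^ α := by linarith [(le_max_right (1 / p) ((K : ℝ) + 1)).trans hB]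
    calc (m : ℝ) ≤ K * 2 ^ x := k1
      _ ≤ 2 ^ α * 2 ^ x := mul_le_mul_of_nonneg_right k2 (by positivity)
      _ = 2 ^ x * 2 ^ α := mul_comm _ _
  have hEm : EE μ s m ≤ 2 ^ α * EE μ s (2 ^ x) := by
    have k1 : m ≤ (K + 1) * 2 ^ x := hmx.trans (Nat.mul_le_mul_right _ (Nat.le_succ K))
    have k2 := EE_le_mul4 (μ := μ) (s := s) hμ (K := K + 1) (by omega) k1
    push_cast at k2
    exact k2.trans (mul_le_mul_of_nonneg_right ((le_max_right _ _).trans hB) hE.le)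
  have h1 := conc_of_not_Sf hS hm1 (poly_expV4 m) (fun η => by
      have h2 := sum_W_pos4 (μ := μ) (s := s) η m
      exact h2) (fun η => le_rfl) (by
    have := V_mean_ge4 (μ := μ) (s := s) hμ (le_refl m)
    show _ ≤ ∫ η, V μ s η 0 m ∂(law μ)
    linarith)
  refine (measureReal_mono (fun η hη => ?_) (measure_ne_top _ _)).trans
    (h1.le.trans (neg_level4 hp ((le_max_left _ _).trans hB)))
  rw [Set.mem_ofPred_eq] at hη ⊢
  have k1 : ∫ ξ, V μ s ξ 0 m ∂(law μ) ≤ 0 := integral_V_nonpos hμ s m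
  have k2 : (2 : ℝ) ^ (-α) ≤ 1 := by
    rw [Real.rpow_neg two_pos.le]
    exact inv_le_one_of_one_le₀ (Real.one_le_rpow one_le_two hα)
  have k3 : (2 : ℝ) ^ (-α) * EE μ s (2 ^ x) ≤ EE μ s (2 ^ x) := by nlinarith
  refine k3.trans (le_trans ?_ (le_abs_self _))
  show EE μ s (2 ^ x) ≤ V μ s η 0 m - ∫ ξ, V μ s ξ 0 m ∂(law μ)
  linarith

/-- **(NS2)**. -/
theorem ns2 (hμ : Pool.Agent.W_7d29a1_h47.EM μ) (hnd : Pool.Agent.W_7d29a1_h47.Nondeg μ) {p : ℝ} (hp : 0 < p) (A1 : ℝ)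
    (K : ℕ) : ∃ α : ℝ, 0 ≤ α ∧ ∀ (s : ℝ) (x : ℕ), ¬ Sf μ s x α → ∀ m, m ≤ K * 2 ^ x → ∀ y : ℤ, 0 ≤ y → y ≤ m →
    A1 * EE μ s (2 ^ x) ≤ e μ s m y → (law μ).real {η | X μ s η 0 m y ≤ (A1 - 1) * EE μ s (2 ^ x)} ≤ p := by
  obtain ⟨T, C, hT, hC, hmc⟩ := mc_X (μ := μ) hμ hnd hp
  obtain ⟨α, hα, hB⟩ := exists_level4 (max (1 / p) (max (2 * |A1|) (C * (T * (K + 1)))))
  have hB1 := (le_max_left _ _).trans hB
  have hB2 := (le_max_left _ _).trans ((le_max_right (1 / p) _).trans hB)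
  have hB3 := (le_max_right _ _).trans ((le_max_right (1 / p) _).trans hB)
  have hT' : (1 : ℝ) ≤ T := by exact_mod_cast hT
  have hK' : (0 : ℝ) ≤ K := Nat.cast_nonneg K
  refine ⟨α, hα, fun s x hS m hmx y hy0 hy1 hy => ?_⟩
  have hE := EE_pos (μ := μ) (s := s) (2 ^ x)
  rcases le_or_gt (e μ s m y) (2 ^ α * EE μ s (2 ^ x)) with he | he
  · have hm1 : (m : ℝ) ≤ (2 : ℝ) ^ ((x : ℝ) + α) := by
      rw [Real.rpow_add two_pos, Real.rpow_natCast]
      have k1 : (m : ℝ) ≤ K * 2 ^ x := by exact_mod_cast hmx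
      have k2 : (K : ℝ) ≤ 2 ^ α := by
        refine le_trans ?_ hB3
        have q1 : (K : ℝ) + 1 ≤ T * (K + 1) := le_mul_of_one_le_left (by linarith) hT'
        have q2 : (T : ℝ) * (K + 1) ≤ C * (T * (K + 1)) := le_mul_of_one_le_left (by linarith) (by linarith)
        linarith
      calc (m : ℝ) ≤ K * 2 ^ x := k1
        _ ≤ 2 ^ α * 2 ^ x := mul_le_mul_of_nonneg_right k2 (by positivity)
        _ = 2 ^ x * 2 ^ α := mul_comm _ _
    have h1 := conc_of_not_Sf hS hm1 (poly_W4 m y) (fun η => W_pos η 0 hy0 hy1) (log_W_le_V4 hy0 hy1)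
      (by rw [int_log_W4]; linarith)
    refine (measureReal_mono (fun η hη => ?_) (measure_ne_top _ _)).trans (h1.le.trans (neg_level4 hp hB1))
    rw [Set.mem_ofPred_eq] at hη ⊢
    rw [int_log_W4]
    have k2 : (2 : ℝ) ^ (-α) ≤ 1 := by
      rw [Real.rpow_neg two_pos.le]
      exact inv_le_one_of_one_le₀ (Real.one_le_rpow one_le_two hα)
    have k3 : (2 : ℝ) ^ (-α) * EE μ s (2 ^ x) ≤ EE μ s (2 ^ x) := by nlinarith
    refine k3.trans (le_trans ?_ (le_abs_self _))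
    unfold X at hη
    linarith
  · by_contra hcon
    rw [not_le] at hcon
    have h1 := hmc s m (T * m) le_rfl y hy0 hy1 _ hcon.le
    have h2 : EE μ s (T * m) ≤ T * (K + 1) * EE μ s (2 ^ x) := by
      have k1 : T * m ≤ (T * (K + 1)) * 2 ^ x := by
        rw [mul_assoc]
        exact Nat.mul_le_mul_left T (hmx.trans (Nat.mul_le_mul_right _ (Nat.le_succ K)))
      have k2 := EE_le_mul4 (μ := μ) (s := s) hμ (K := T * (K + 1)) (Nat.mul_pos hT (Nat.succ_pos K)) k1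
      push_cast at k2
      exact k2
    have h3 : C * EE μ s (T * m) ≤ 2 ^ α * EE μ s (2 ^ x) := by
      have k1 := mul_le_mul_of_nonneg_left h2 (by linarith : 0 ≤ C)
      have k2 := mul_le_mul_of_nonneg_right hB3 hE.le
      linarith
    have h4 : 2 * ((A1 - 1) * EE μ s (2 ^ x)) ≤ 2 ^ α * EE μ s (2 ^ x) := by
      have k1 : 2 * (A1 - 1) ≤ 2 ^ α := by linarith [le_abs_self A1]
      have k2 := mul_le_mul_of_nonneg_right k1 hE.le
      linarith
    have h5 := h1.trans (max_le h4 h3)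
    linarith

end

end Pool.Agent.W_7d29a1_H
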