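import Pool.Agent.W_7d29a1_H.EL51D
import Pool.Agent.W_7d29a1_H.LamH

/-!
MP_7d29a1_pr, TRACK H (all tilts), (EL): the mean of the largest one step weight of the strip, uniformly in the tilt. Model:
`W_7d29a1_g/EL67K.lean` (`oM_mean`). (helper76)
-/

set_option autoImplicit false

namespace Pool.Agent.W_7d29a1_H.EL

open Pool.Agent.W_7d29a1_F MeasureTheory ProbabilityTheory Filter
open Pool.Agent.W_7d29a1_g.K67

variable {μ : Measure ℝ} {H δ : ℝ} {A : Set ℝ}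

theorem mx_le_sum76 {κ : Type*} {b : ℝ} {S : Finset κ} {f : κ → ℝ} (hb : 0 ≤ b) (hf : ∀ x ∈ S, 0 ≤ f x) :
    mx b S f ≤ b + ∑ x ∈ S, f x := by
  refine mx_le.2 ⟨by linarith [Finset.sum_nonneg hf], fun x hx => ?_⟩
  have := Finset.single_le_sum (f := f) hf hx
  linarith

/-- The one step factors are bounded, uniformly in the tilt. -/
theorem k01_le76 [IsProbabilityMeasure μ] (hD : Dirs μ H δ A) {s : ℝ} (hs : s ∈ A) :
    k0 μ s + k1 μ s ≤ Real.exp (H - lam μ 0) + Real.exp (2 * H - lam μ 0) := by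
  have h1 := lam_tangent hD.em hD.nd 0 s
  have h2 := sl_mem hD.em hD.nd 0
  have h3 := abs_le.1 (hD.bd s hs)
  have h4 : lam μ 0 - H ≤ lam μ s := by
    rw [sub_zero] at h1
    nlinarith [h2.1, h2.2, h3.1, h3.2]
  have h5 : k0 μ s ≤ Real.exp (H - lam μ 0) := by
    unfold k0
    exact Real.exp_le_exp.2 (by linarith)
  have h6 : k1 μ s ≤ Real.exp (2 * H - lam μ 0) := by
    unfold k1
    exact Real.exp_le_exp.2 (by linarith [h3.2])
  linarith

/-- **The mean of the largest one step weight**, uniformly in the tilt and in the line. -/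
theorem oM_mean76 [IsProbabilityMeasure μ] (hD : Dirs μ H δ A) : ∃ M : ℝ, 0 ≤ M ∧ ∀ s ∈ A, ∀ (L : ℤ → ℤ) [Ln L]
    (S t : ℕ), ∫ η, oM μ s L (S : ℤ) 0 t η ∂(law μ) ≤ 1 + (t + 1) * (2 * S + 1) * M := by
  have hμ := hD.em
  obtain ⟨I, hI⟩ : ∃ I, I = ∫ η : Env, Real.exp (η (0, 0)) ∂(law μ) := ⟨_, rfl⟩
  have hI0 : 0 ≤ I := by
    rw [hI]
    exact integral_nonneg fun η => (Real.exp_pos _).le
  refine ⟨(Real.exp (H - lam μ 0) + Real.exp (2 * H - lam μ 0)) * I,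
    mul_nonneg (add_nonneg (Real.exp_pos _).le (Real.exp_pos _).le) hI0, fun s hs L hL S t => ?_⟩
  obtain ⟨M, hM⟩ : ∃ M, M = (k0 μ s + k1 μ s) * I := ⟨_, rfl⟩
  have hk : 0 < k0 μ s + k1 μ s := add_pos k0_pos k1_pos
  have hA : ∀ p : Pt, Adm fun η : Env => (k0 μ s + k1 μ s) * Real.exp (η p) := fun p =>
    (Adm.const hk.le).mul (Adm.exp_coord p)
  have hint : ∀ p : Pt, ∫ η : Env, (k0 μ s + k1 μ s) * Real.exp (η p) ∂(law μ) = M := by
    intro p
    rw [integral_const_mul, hM, hI]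
    congr 1
    have h1 := int_sh (μ := μ) p (f := fun η : Env => Real.exp (η (0, 0))) (Adm.exp_coord (0, 0)).1
    rw [← h1]
    refine integral_congr_ae (Filter.Eventually.of_forall fun η => ?_)
    show Real.exp (η p) = Real.exp (η ((0, 0) + p))
    have e : ((0, 0) : Pt) + p = p := zero_add p
    rw [e]
  have hMle : M ≤ (Real.exp (H - lam μ 0) + Real.exp (2 * H - lam μ 0)) * I := by
    rw [hM]
    exact mul_le_mul_of_nonneg_right (k01_le76 hD hs) hI0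
  obtain ⟨Z, hZ⟩ : ∃ Z : ℕ → Finset ℤ, Z = fun (τ : ℕ) => Finset.Icc (L (τ : ℤ) + 0 - S) (L (τ : ℤ) + 0 + S) := ⟨_, rfl⟩
  have hcard : ∀ τ, ((Z τ).card : ℝ) = 2 * S + 1 := by
    intro τ
    rw [hZ]
    show ((Finset.Icc (L (τ : ℤ) + 0 - S) (L (τ : ℤ) + 0 + S)).card : ℝ) = 2 * S + 1
    rw [Int.card_Icc]
    have : (L (τ : ℤ) + 0 + S + 1 - (L (τ : ℤ) + 0 - S)).toNat = 2 * S + 1 := by omega
    rw [this]
    push_cast
    ring
  have h1 : ∀ η, oM μ s L (S : ℤ) 0 t η ≤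
      1 + ∑ τ ∈ Finset.range (t + 1), ∑ z ∈ Z τ, (k0 μ s + k1 μ s) * Real.exp (η ((τ : ℤ), z)) := by
    intro η
    have h0 : ∀ τ : ℕ, 0 ≤ ∑ z ∈ Z τ, (k0 μ s + k1 μ s) * Real.exp (η ((τ : ℤ), z)) := fun τ =>
      Finset.sum_nonneg fun z _ => (hA _).2.1 η
    refine mx_le.2 ⟨by linarith [Finset.sum_nonneg fun τ (_ : τ ∈ Finset.range (t + 1)) => h0 τ], fun τ hτ => ?_⟩
    have h2 := Finset.single_le_sum (f := fun τ : ℕ => ∑ z ∈ Z τ, (k0 μ s + k1 μ s) * Real.exp (η ((τ : ℤ), z)))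
      (fun τ _ => h0 τ) hτ
    have h3 : oR μ s L (S : ℤ) 0 τ η ≤ 1 + ∑ z ∈ Z τ, (k0 μ s + k1 μ s) * Real.exp (η ((τ : ℤ), z)) := by
      unfold oR
      split_ifs with h4
      · linarith [h0 τ]
      · rw [hZ]
        exact mx_le_sum76 zero_le_one fun z _ => (hA _).2.1 η
    linarith
  have hS : Adm fun η : Env => ∑ τ ∈ Finset.range (t + 1), ∑ z ∈ Z τ, (k0 μ s + k1 μ s) * Real.exp (η ((τ : ℤ), z)) :=
    Adm.sum _ fun τ _ => Adm.sum _ fun z _ => hA _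
  have h2 := integral_mono ((Adm.oM (μ := μ) (s := s) (L := L) (S := (S : ℤ)) (x := 0) t).integrable hμ)
    ((integrable_const (1 : ℝ)).add (hS.integrable hμ)) h1
  simp only [Pi.add_apply] at h2
  rw [integral_add (integrable_const _) (hS.integrable hμ), integral_const, probReal_univ, one_smul,
    integral_finset_sum _ fun τ _ => (Adm.sum (Z τ) fun z _ => hA _).integrable hμ] at h2
  have h3 : ∀ τ ∈ Finset.range (t + 1), ∫ η : Env, ∑ z ∈ Z τ, (k0 μ s + k1 μ s) * Real.exp (η ((τ : ℤ), z)) ∂(law μ) =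
      (2 * S + 1) * M := by
    intro τ _
    rw [integral_finset_sum _ fun z _ => (hA _).integrable hμ, Finset.sum_congr rfl fun z _ => hint _,
      Finset.sum_const, nsmul_eq_mul, hcard]
  rw [Finset.sum_congr rfl h3, Finset.sum_const, Finset.card_range, nsmul_eq_mul] at h2
  refine h2.trans ?_
  have h4 : ((t + 1 : ℕ) : ℝ) * ((2 * S + 1) * M) ≤
      ((t + 1 : ℕ) : ℝ) * ((2 * S + 1) * ((Real.exp (H - lam μ 0) + Real.exp (2 * H - lam μ 0)) * I)) := by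
    refine mul_le_mul_of_nonneg_left (mul_le_mul_of_nonneg_left hMle (by positivity)) (by positivity)
  push_cast at h4 ⊢
  linarith

end Pool.Agent.W_7d29a1_H.EL
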