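import Pool.Agent.W_7d29a1_H.EL66I
import Pool.Agent.W_7d29a1_H.EL67J
import Pool.Agent.W_7d29a1_H.OM76
import Pool.Agent.W_7d29a1_H.LnH
import Pool.Agent.W_7d29a1_H.NSH4
import Pool.Agent.W_7d29a1_H.MeanA

/-!
MP_7d29a1_pr, TRACK H, (EL): **(EL) at a scale which is not soft, for all tilts** (form `ELH` of `ElDefH66`, consumed by (D7)). The line
is `⌊r t⌋` with the slope `r = xs n / n` of the moving frame. Models: `g.K67.el_out`, `W_1b8d5d_p.ElJ`. (helper67)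
-/

set_option autoImplicit false

namespace Pool.Agent.W_7d29a1_H.EL

open Pool.Agent.W_7d29a1_F MeasureTheory ProbabilityTheory
open Pool.Agent.W_7d29a1_h47 (EM Nondeg)
open Pool.Agent.W_7d29a1_g.K67 (wt)

noncomputable section

/-- The line of the slope `r`. -/
def Lr (r : ℝ) (t : ℤ) : ℤ := ⌊r * t⌋

theorem Lr_ln {r : ℝ} (h0 : 0 ≤ r) (h1 : r ≤ 1) : Ln (Lr r) where
  lo t := by
    unfold Lr
    refine Int.floor_le_floor ?_
    push_cast
    nlinarith
  hi t := by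
    unfold Lr
    have h2 : ⌊r * ((t + 1 : ℤ) : ℝ)⌋ ≤ ⌊r * t + 1⌋ := by
      refine Int.floor_le_floor ?_
      push_cast
      linarith
    rwa [Int.floor_add_one] at h2

theorem Lr_zero (r : ℝ) : Lr r 0 = 0 := by simp [Lr]

theorem Lr_near (r : ℝ) (k : ℤ) : |(Lr r k : ℝ) - r * k| ≤ 1 := by
  have h1 := Int.floor_le (r * k)
  have h2 := Int.lt_floor_add_one (r * k)
  unfold Lr
  rw [abs_le]
  constructor <;> linarith

variable {μ : Measure ℝ} [IsProbabilityMeasure μ] {s : ℝ} {A : Set ℝ} {H δ : ℝ}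

/-- A weight at least `exp (-B)` is a cost at most `B`. -/
theorem X_of_W67 {m : ℕ} {y : ℤ} {B U p : ℝ} (h : 0 ≤ y → y ≤ m → (law μ).real {η | X μ s η 0 m y ≤ U} ≤ p) (hBU : B ≤ U)
    (hp : 0 ≤ p) : (law μ).real {η | Real.exp (-B) ≤ W μ s η 0 m y} ≤ p := by
  by_cases hy : 0 ≤ y ∧ y ≤ m
  · refine le_trans (measureReal_mono (fun η hη => ?_) (measure_ne_top _ _)) (h hy.1 hy.2)
    rw [Set.mem_ofPred_eq] at hη ⊢
    have h1 := (Real.le_log_iff_exp_le (W_pos (μ := μ) (s := s) η 0 hy.1 hy.2)).2 hη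
    unfold X
    linarith
  · have h1 : {η : Env | Real.exp (-B) ≤ W μ s η 0 m y} = ∅ := by
      ext η
      rw [Set.mem_ofPred_eq]
      have h2 : W μ s η 0 m y = 0 := by
        unfold W WR
        rw [Zr_eq_zero _ _ _ hy, mul_zero]
      rw [h2]
      constructor
      · intro h3
        exact absurd h3 (not_le.2 (Real.exp_pos _))
      · intro h3
        exact absurd h3 (Set.notMem_empty η)
    rw [h1, measureReal_empty]
    exact hp

/-- **(EL) for all tilts**: one scale, all constants. -/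
theorem el_scale67 (hD : Dirs μ H δ A) (hR : Rate μ A) (hG : Grow μ A) (hLg : LogG μ A) {a : ℝ} (ha : 0 < a)
    (hCh : CheapH a μ A) :
    ∃ C K3 : ℝ, 1 ≤ C ∧ 1 ≤ K3 ∧ ∀ A' : ℝ, 1 ≤ A' → ∀ W₀ : ℝ, ∃ (α : ℝ) (x₀ : ℕ), ∀ s ∈ A, ∀ x : ℕ, x₀ ≤ x →
      ¬ Sf μ s x α → ∃ w : ℕ, W₀ ≤ w ∧ (w : ℝ) ≤ C * wH a μ s (2 ^ x) ∧ wH a μ s (2 ^ x) ≤ w ∧
        ∀ t wq : ℕ, 1 ≤ t → t ≤ 2 ^ (x + 1) → w ≤ 2 * wq → wq ≤ w → ∀ y0 : ℤ,
          ∫ η, GB66 μ s t wq y0 η ^ (4 * (A' / (K3 * EE μ s (2 ^ x)))) ∂(law μ) ≤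
            Real.exp (4 * (73 * A' - |(y0 : ℝ) - sl μ s * t| / wq)) := by
  have hμ := hD.em
  have hnd := hD.nd
  obtain ⟨K', n1, hn11, hK'1, htf⟩ := hD.trav_flat hR hG one_pos 3
  have hK'r : (1 : ℝ) ≤ K' := by exact_mod_cast hK'1
  obtain ⟨c1, nc, hc1, hnc1, hCh'⟩ := hD.ln_lower hR ha hCh
  obtain ⟨K3, hK3⟩ : ∃ K3 : ℝ, K3 = 4 * K' := ⟨_, rfl⟩
  have hK31 : 4 ≤ K3 := by rw [hK3]; linarith
  obtain ⟨A1, hA1⟩ : ∃ A1 : ℝ, A1 = 310 * K3 + 1 := ⟨_, rfl⟩
  have hA11 : 1 ≤ A1 := by rw [hA1]; linarith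
  have hA10 : 0 ≤ A1 := by linarith
  obtain ⟨c, hc⟩ : ∃ c : ℝ, c = max (A1 / a) 1 := ⟨_, rfl⟩
  have hc1' : 1 ≤ c := by rw [hc]; exact le_max_right _ _
  have hca : A1 ≤ c * a := by
    rw [← div_le_iff₀ ha, hc]
    exact le_max_left _ _
  obtain ⟨C2, hC2⟩ : ∃ C2 : ℝ, C2 = 16 * K' * c := ⟨_, rfl⟩
  have hKc : (1 : ℝ) ≤ K' * c := one_le_mul_of_one_le_of_one_le hK'r hc1'
  have hC21 : 16 ≤ C2 := by rw [hC2]; linarith
  obtain ⟨I, hI⟩ := exists_nat_ge ((C2 + 6) / c1)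
  rw [div_le_iff₀ hc1] at hI
  have hI0 : (0 : ℝ) ≤ I := Nat.cast_nonneg _
  obtain ⟨M, hM0, hM⟩ := oM_mean76 hD
  refine ⟨C2 + 6, K3, by linarith, by linarith, fun A' hA' W₀ => ?_⟩
  obtain ⟨p, hp⟩ : ∃ p : ℝ, p = Real.exp (-(64 * A' * (63 + 2))) := ⟨_, rfl⟩
  have hp0 : 0 < p := by rw [hp]; exact Real.exp_pos _
  obtain ⟨p1, hp1⟩ : ∃ p1 : ℝ, p1 = p / (4 * (2 * I + 1)) := ⟨_, rfl⟩
  have hp10 : 0 < p1 := by rw [hp1]; positivity
  have hp1p : 4 * (2 * I + 1) * p1 = p := by rw [hp1]; field_simp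
  have hp12 : 2 * p1 ≤ p := by
    have h1 : 0 ≤ I * p1 := mul_nonneg hI0 hp10.le
    linarith
  obtain ⟨Hn, hHn⟩ : ∃ Hn : ℕ, Hn = 4 * K' := ⟨_, rfl⟩
  obtain ⟨α1, hα1, hns1⟩ := ns1 (μ := μ) hμ hp10 Hn
  obtain ⟨α2, hα2, hns2⟩ := ns2 (μ := μ) hμ hnd hp10 A1 Hn
  obtain ⟨n3, hn3⟩ := hLg 1
  obtain ⟨B, hB⟩ : ∃ B : ℝ, B = 32 * A' + |Real.log (1 + 15 * M)| + 1 := ⟨_, rfl⟩
  obtain ⟨n5, hn5⟩ := hG B
  obtain ⟨n6, hn61, hn6⟩ := hD.w_large hR ha (|W₀| + 1)
  obtain ⟨n7, hn71, hn7⟩ := hD.vA_small hR ha (ε := 1 / (C2 + 6)) (by positivity)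
  refine ⟨max α1 α2, n1 + nc + n3 + n5 + n6 + n7, fun s hs x hx hS => ?_⟩
  have hx2 : x < 2 ^ x := Nat.lt_two_pow_self
  obtain ⟨N, hN⟩ : ∃ N : ℕ, N = 2 ^ x := ⟨_, rfl⟩
  have hNx : n1 + nc + n3 + n5 + n6 + n7 ≤ N := by omega
  have hN1 : 1 ≤ N := by omega
  have hNr : (1 : ℝ) ≤ N := by exact_mod_cast hN1
  obtain ⟨n, hn⟩ : ∃ n : ℕ, n = 2 * N := ⟨_, rfl⟩
  have hNn : N ≤ n := by omega
  have hn1' : 1 ≤ n := by omega
  have hKn1 : n ≤ K' * n := Nat.le_mul_of_pos_left n hK'1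
  have hKn2 : 2 * K' * n = 2 * (K' * n) := by ring
  have hnr : (n : ℝ) = 2 * N := by rw [hn]; push_cast; ring
  have hnp : (0 : ℝ) < n := by exact_mod_cast hn1'
  rw [← hN]
  obtain ⟨U, hU⟩ : ∃ U : ℝ, U = EE μ s N := ⟨_, rfl⟩
  have hU1 : 1 ≤ U := by rw [hU]; exact one_le_EE _
  have hU0 : 0 < U := by linarith
  obtain ⟨W', hW⟩ : ∃ W' : ℝ, W' = N * vA a μ s N := ⟨_, rfl⟩
  have hwH : wH a μ s N = W' := by rw [hW]; rfl
  rw [hwH, ← hU]
  -- the widths are large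
  have hWU : (|W₀| + 1) * U ≤ W' := by
    have h1 := hn6 s hs N (by omega)
    rw [← hU, ← hW] at h1
    exact h1
  have hz1 : (0 : ℝ) ≤ |W₀| := abs_nonneg _
  have hWW : |W₀| + 1 ≤ W' := by
    have h1 : (|W₀| + 1) * 1 ≤ (|W₀| + 1) * U := mul_le_mul_of_nonneg_left hU1 (by linarith)
    linarith
  have hW1 : 1 ≤ W' := by linarith
  have hW0' : 0 < W' := by linarith
  have hWN : (C2 + 6) * W' ≤ N := by
    have h1 := hn7 s hs N (by omega)
    have h2 : (C2 + 6) * (N * vA a μ s N) ≤ (C2 + 6) * (N * (1 / (C2 + 6))) := by gcongr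
    have h3 : (C2 + 6) * (N * (1 / (C2 + 6))) = N := by field_simp
    rw [hW]
    linarith
  -- the width
  obtain ⟨w, hw⟩ : ∃ w : ℕ, w = ⌈C2 * W'⌉₊ + 5 := ⟨_, rfl⟩
  have hwl : C2 * W' + 5 ≤ w := by
    rw [hw]
    push_cast
    have := Nat.le_ceil (C2 * W')
    linarith
  have hwu : (w : ℝ) ≤ (C2 + 6) * W' := by
    rw [hw]
    push_cast
    have := Nat.ceil_lt_add_one (show 0 ≤ C2 * W' by positivity)
    have e1 : (C2 + 6) * W' = C2 * W' + 6 * W' := by ring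
    rw [e1]
    linarith only [this, hW1]
  have hC2W : 16 * W' ≤ C2 * W' := mul_le_mul_of_nonneg_right hC21 hW0'.le
  have hWw : W' ≤ w := by linarith
  have hwpos : (0 : ℝ) < w := by linarith
  have hw1 : 1 ≤ w := by
    have : (1 : ℝ) ≤ w := by linarith
    exact_mod_cast this
  refine ⟨w, ?_, hwu, hWw, ?_⟩
  · exact (le_abs_self W₀).trans (by linarith)
  intro t wq ht1 ht2 hwq hwq' y0
  obtain ⟨E, hE⟩ : ∃ E : ℝ, E = K3 * U := ⟨_, rfl⟩
  rw [← hE]
  have hUE : U ≤ E := by rw [hE]; exact le_mul_of_one_le_left hU0.le (by linarith only [hK31])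
  have hUE4 : 4 * U ≤ E := by rw [hE]; exact mul_le_mul_of_nonneg_right hK31 hU0.le
  have hE0 : 0 < E := by linarith
  have htn : t ≤ n := by
    have e1 : 2 ^ (x + 1) = 2 * N := by rw [hN]; ring
    omega
  -- units at the multiples of the scale
  have hEK2 : EE μ s (2 * (K' * n)) ≤ E := by
    have h1 := EE_mul hμ s N (k := K' * 4) (by omega)
    have e1 : K' * 4 * N = 2 * (K' * n) := by rw [hn]; ring
    rw [e1] at h1
    push_cast at h1
    rw [hE, hK3, hU]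
    linarith
  have hEK : EE μ s (K' * n) ≤ E := (EE_mono (by omega)).trans hEK2
  have hBU : B ≤ U := by
    rw [hU]
    exact hn5 s hs N (by omega)
  have hlogM0 := abs_nonneg (Real.log (1 + 15 * M))
  have hlogU : Real.log N ≤ U := by
    have h1 := hn3 s hs N (by omega)
    rw [one_mul] at h1
    rw [hU]
    exact h1
  -- travellers
  obtain ⟨r, ys, T, hT1, hT12, hTn, hrv, hrn, hxl, hll, htr⟩ := htf s hs n (by omega)
  obtain ⟨l, hl⟩ : ∃ l : ℕ, l = ln μ s n (2 * EE μ s (12 * n)) := ⟨_, rfl⟩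
  rw [← hl] at htr hxl hll
  have hln : l ≤ n := by
    have hlnB : EE μ s n ≤ 2 * EE μ s (12 * n) := by
      have h2 := EE_mono (μ := μ) (s := s) (show n ≤ 12 * n by omega)
      have h3 := EE_pos (μ := μ) (s := s) (12 * n)
      linarith
    obtain ⟨m, hm, hmn, y, h1, h2⟩ := ln_mem hμ hn1' hlnB
    rw [← hl] at h2
    have h3 := CI_0 h1
    have h4 := CI_n h2
    omega
  have hlc : c1 * W' ≤ l := by
    have h1 := hCh' s hs n (by omega) (2 * EE μ s (12 * n)) (by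
      have := EE_mono (μ := μ) (s := s) (show n ≤ 12 * n by omega)
      linarith)
    rw [← hl] at h1
    have h2 := hD.w_mono hs ha.le hN1 hNn
    rw [← hW] at h2
    exact (mul_le_mul_of_nonneg_left h2 hc1.le).trans h1
  have hTr : ∀ k : ℕ, k ≤ n → ∀ q : ℤ, |(q : ℝ) - (ys + r * k)| ≤ 3 * (l : ℝ) →
      0 ≤ q ∧ q ≤ ((T + k : ℕ) : ℤ) ∧ ep μ s (T + k) q ≤ 30 * E := by
    intro k hk q hq
    have h1 : (3 : ℝ) * l ≤ 3 * n := by
      have : (l : ℝ) ≤ n := by exact_mod_cast hln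
      linarith
    obtain ⟨g1, g2, g3⟩ := htr k hk q (hq.trans h1)
    refine ⟨g1, g2, ?_⟩
    rw [max_eq_right (by linarith), mul_zero] at g3
    linarith
  have hr0 : 0 ≤ r := by
    rw [hrn]
    have h1 := (xs_mem (μ := μ) (s := s) n).1
    have h2 : (0 : ℝ) ≤ xs μ s n := by exact_mod_cast h1
    positivity
  have hr1 : r ≤ 1 := by
    rw [hrn, div_le_one hnp]
    exact_mod_cast (xs_mem (μ := μ) (s := s) n).2
  haveI hLn : Ln (Lr r) := Lr_ln hr0 hr1
  have hLr : ∀ k : ℕ, k ≤ n → |(Lr r (k : ℤ) : ℝ) - r * k| ≤ 1 := fun k _ => by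
    have := Lr_near r (k : ℤ)
    simpa using this
  -- the width of the level set
  have hlevn : ∀ m : ℕ, n ≤ m → m ≤ 2 * K' * n → m * vA A1 μ s m ≤ C2 * W' / 4 := by
    intro m hm hm'
    have h1 := hD.w_mono hs hA10 (n := m) (n' := 2 * K' * n) (by omega) hm'
    have h2 := hD.vA_mul_le hs hA10 (n := N) (k := 2 * K' * 2) hN1 (by omega)
    have e1 : 2 * K' * 2 * N = 2 * K' * n := by rw [hn]; ring
    rw [e1] at h2
    have h3 := hD.vA_level_mono hs hA10 hca N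
    have h4 := hD.vA_level_mul hs ha.le hc1' N
    have h5 : vA A1 μ s (2 * K' * n) ≤ c * vA a μ s N := h2.trans (h3.trans h4)
    have h6 := mul_le_mul_of_nonneg_left h5 (Nat.cast_nonneg (α := ℝ) (2 * K' * n))
    refine h1.trans (h6.trans (le_of_eq ?_))
    push_cast
    rw [hnr, hW, hC2]
    ring
  have hlev : ∀ m : ℕ, n ≤ m → m ≤ 2 * K' * n → ∀ z : ℤ, 0 ≤ z → z ≤ m → e μ s m z ≤ A1 * U →
      |(z : ℝ) - sl μ s * m| ≤ C2 * W' / 4 := by
    intro m hm hm' z hz0 hzm hz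
    have hm1 : 1 ≤ m := hn1'.trans hm
    have hmp : (0 : ℝ) < m := by exact_mod_cast hm1
    have h1 := e_ge hμ hnd s hm1 hz0 hzm
    have h2 : A1 * U ≤ A1 * EE μ s m := by
      refine mul_le_mul_of_nonneg_left ?_ hA10
      rw [hU]
      exact EE_mono (hNn.trans hm)
    have h3 := hD.lev_abs hs hA10 hm1 (h1.trans (hz.trans h2))
    have e1 : (z : ℝ) - sl μ s * m = m * ((z : ℝ) / m - sl μ s) := by field_simp
    rw [e1, abs_mul, Nat.abs_cast]
    exact (mul_le_mul_of_nonneg_left h3 hmp.le).trans (hlevn m hm hm')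
  -- the slope of the frame
  have hrn2 : |r - sl μ s| * n ≤ w / 2 := by
    have h1 := hlev n le_rfl (by omega) (xs μ s n) (xs_mem n).1 (xs_mem n).2 (by
      have h1 := e_xs_le hμ s n
      have h2 := le_EE (μ := μ) (s := s) hKn1
      have h3 : A1 * U = 310 * E + U := by rw [hA1, hE]; ring
      rw [h3]
      linarith)
    have e1 : (xs μ s n : ℝ) - sl μ s * n = (r - sl μ s) * n := by
      rw [hrn]
      field_simp
    rw [e1, abs_mul, Nat.abs_cast] at h1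
    linarith
  -- the centre of the far passages
  obtain ⟨z0, hz0⟩ : ∃ z0 : ℤ, z0 = Lr r n + 2 * round ys := ⟨_, rfl⟩
  have hTT1 : n ≤ T + n + T := by omega
  have hTT2 : T + n + T ≤ 2 * K' * n := by omega
  have hl1 : (1 : ℝ) ≤ l := by exact_mod_cast hxl
  have hys := abs_sub_round ys
  have hz0c : |(z0 : ℝ) - sl μ s * (T + n + T : ℕ)| ≤ C2 * W' / 4 := by
    have q1 := hTr 0 (Nat.zero_le _) (round ys) (by
      rw [Nat.cast_zero, mul_zero, add_zero, abs_sub_comm]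
      linarith)
    have q2 := hTr n le_rfl (Lr r n + round ys) (by
      have h1 := hLr n le_rfl
      push_cast
      rw [abs_le] at h1 hys ⊢
      constructor <;> linarith [h1.1, h1.2, hys.1, hys.2])
    rw [add_zero] at q1
    have h1 := e_sub hμ s (m := T + n) (n := T) (k := Lr r n + round ys) (y := round ys) q2.1 q2.2.1 q1.1
      (by simpa using q1.2.1)
    have h2 := e_le_ep hμ s (n := T + n) (y := Lr r n + round ys) q2.1 q2.2.1
    have h3 := e_le_ep hμ s (n := T) (y := round ys) q1.1 (by simpa using q1.2.1)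
    have e1 : Lr r n + round ys + round ys = z0 := by rw [hz0]; ring
    rw [e1] at h1
    have h6 := q2.2.1
    have h7 := q1.2.1
    have h8 := q1.1
    have h9 := q2.1
    refine hlev _ hTT1 hTT2 z0 (by rw [← e1]; linarith) (by
      rw [← e1]
      push_cast at h6 h7 ⊢
      linarith) ?_
    have h4 : A1 * U = 310 * E + U := by rw [hA1, hE]; ring
    rw [h4]
    linarith [q1.2.2, q2.2.2]
  have hS1 : ¬ Sf μ s x α1 := fun h => hS (h.mono (le_max_left _ _))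
  have hS2 : ¬ Sf μ s x α2 := fun h => hS (h.mono (le_max_right _ _))
  have hHx : 2 * K' * n = Hn * 2 ^ x := by rw [hHn, hn, hN]; ring
  have hA1E : A1 * U - U = 310 * E := by rw [hA1, hE]; ring
  -- the crossings
  have hfar : ∀ z : ℤ, |(z : ℝ) - z0| = w → (law μ).real {η | Real.exp (-(70 * E + 8 * (30 * E))) ≤
      W μ s η 0 (T + n + T) z} ≤ p1 := by
    intro z hz
    refine X_of_W67 (U := (A1 - 1) * U) (fun hz1 hz2 => ?_) (by linarith) hp10.le
    have h1 := hns2 s x hS2 (T + n + T) (by rw [← hHx]; exact hTT2) z hz1 hz2 (by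
      rw [← hN, ← hU]
      by_contra hcon
      have h1 := hlev _ hTT1 hTT2 z hz1 hz2 (not_le.1 hcon).le
      have h2 : |(z : ℝ) - z0| ≤ C2 * W' / 4 + C2 * W' / 4 := by
        have e1 : (z : ℝ) - z0 = ((z : ℝ) - sl μ s * (T + n + T : ℕ)) - ((z0 : ℝ) - sl μ s * (T + n + T : ℕ)) := by ring
        rw [e1]
        exact (abs_sub _ _).trans (add_le_add h1 hz0c)
      rw [hz] at h2
      linarith)
    rw [← hN, ← hU] at h1
    exact h1
  have hcR : (law μ).real {η | CrR μ s (Lr r) w (2 * w : ℤ) t (Real.exp (-(70 * E))) 0 η} ≤ 2 * p1 :=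
    crR_trav hμ (by positivity) htn hxl hLr hTr hw1 (hfar _ (by
      rw [hz0]
      push_cast
      rw [show (Lr r n : ℝ) + 2 * round ys + w - (Lr r n + 2 * round ys) = w by ring, abs_of_pos hwpos]))
  have hcL : (law μ).real {η | CrL μ s (Lr r) w (2 * w : ℤ) t (Real.exp (-(70 * E))) 0 η} ≤ 2 * p1 :=
    crL_trav hμ (by positivity) htn hxl hLr hTr hw1 (hfar _ (by
      rw [hz0]
      push_cast
      rw [show (Lr r n : ℝ) + 2 * round ys - w - (Lr r n + 2 * round ys) = -w by ring, abs_neg, abs_of_pos hwpos]))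
  -- the box luck
  have hhit : (law μ).real {η | Real.exp (63 * E) ≤ mB μ s (Lr r) (2 * w : ℤ) 0 0 t η} ≤ 4 * (2 * I + 1) * p1 := by
    refine hit_trav hμ (A := 30 * E) (E := E) (T := T) (l := l) (r := r) (ys := ys) (by positivity) htn hxl hLr hTr hE0
      ((EE_mono (by omega)).trans hEK2) ?_ (by positivity) ?_
    · have h1 : ((2 * w : ℕ) : ℝ) ≤ ((I * (2 * l + 1) : ℕ) : ℝ) := by
        push_cast
        have h2 : (C2 + 6) * W' ≤ I * c1 * W' := mul_le_mul_of_nonneg_right hI hW0'.le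
        have h3 : (I : ℝ) * (c1 * W') ≤ I * l := mul_le_mul_of_nonneg_left hlc hI0
        have e2 : (I : ℝ) * (2 * l + 1) = 2 * (I * l) + I := by ring
        have e3 : (I : ℝ) * c1 * W' = I * (c1 * W') := by ring
        rw [e2]
        linarith only [h2, h3, e3, hwu, hI0]
      exact_mod_cast h1
    · have h1 := hns1 s x hS1 (T + 2 * n) (by rw [← hHx]; omega)
      refine le_trans (measureReal_mono (fun η hη => ?_) (measure_ne_top _ _)) h1
      rw [Set.mem_ofPred_eq] at hη ⊢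
      rw [← hN, ← hU]
      linarith
  rw [hp1p] at hhit
  -- the logarithms
  have hexpN : (N : ℝ) ≤ Real.exp U := by
    calc (N : ℝ) = Real.exp (Real.log N) := (Real.exp_log (by linarith)).symm
      _ ≤ _ := Real.exp_le_exp.2 hlogU
  have htE : (t : ℝ) ≤ Real.exp E := by
    have h1 : (t : ℝ) ≤ 2 * N := by
      rw [← hnr]
      exact_mod_cast htn
    have h3 : (2 : ℝ) ≤ Real.exp U := by
      have := Real.add_one_le_exp U
      linarith
    calc (t : ℝ) ≤ 2 * N := h1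
      _ ≤ Real.exp U * Real.exp U := mul_le_mul h3 hexpN (by linarith) (Real.exp_pos _).le
      _ = Real.exp (U + U) := (Real.exp_add _ _).symm
      _ ≤ _ := Real.exp_le_exp.2 (by linarith)
  have hwN : (w : ℝ) ≤ N := hwu.trans hWN
  have hoM : ∫ η, oM μ s (Lr r) (2 * w : ℤ) 0 t η ∂(law μ) ≤ Real.exp E := by
    have h1 := hM s hs (Lr r) (2 * w) t
    have e1 : ((2 * w : ℕ) : ℤ) = (2 * w : ℤ) := by push_cast; ring
    rw [e1] at h1
    refine h1.trans ?_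
    have ht4 : (t : ℝ) ≤ 2 * N := by
      rw [← hnr]
      exact_mod_cast htn
    have h2 : ((t : ℝ) + 1) * (2 * ((2 * w : ℕ) : ℝ) + 1) ≤ 3 * N * (5 * N) := by
      push_cast
      refine mul_le_mul (by linarith) (by linarith) (by positivity) (by linarith)
    have h3 : 1 + ((t : ℝ) + 1) * (2 * ((2 * w : ℕ) : ℝ) + 1) * M ≤ (1 + 15 * M) * (N * N) := by
      have h4 : ((t : ℝ) + 1) * (2 * ((2 * w : ℕ) : ℝ) + 1) * M ≤ 3 * N * (5 * N) * M :=
        mul_le_mul_of_nonneg_right h2 hM0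
      have h5 : (1 : ℝ) ≤ N * N := one_le_mul_of_one_le_of_one_le hNr hNr
      linarith
    refine h3.trans ?_
    have h5 : 1 + 15 * M ≤ Real.exp U := by
      calc 1 + 15 * M = Real.exp (Real.log (1 + 15 * M)) := (Real.exp_log (by positivity)).symm
        _ ≤ _ := Real.exp_le_exp.2 (by
          have := le_abs_self (Real.log (1 + 15 * M))
          rw [hB] at hBU
          linarith)
    calc (1 + 15 * M) * (N * N) ≤ Real.exp U * (Real.exp U * Real.exp U) := by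
          gcongr
      _ = Real.exp (U + (U + U)) := by rw [← Real.exp_add, ← Real.exp_add]
      _ ≤ _ := Real.exp_le_exp.2 (by linarith)
  have hmain := el_GB (L := Lr r) (s := s) hμ (t := t) (w := w) (wq := wq) (E := E) (K0 := 63) (A := A') (p := p) hA'
    (by rw [hB] at hBU; linarith) (by norm_num) (Lr_zero r) ht1 hw1 hwq hwq' hhit
    (by
      have e1 : (63 + 7 : ℝ) * E = 70 * E := by ring
      rw [e1]
      exact hcR.trans hp12)
    (by
      have e1 : (63 + 7 : ℝ) * E = 70 * E := by ring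
      rw [e1]
      exact hcL.trans hp12) (by rw [hp]) htE hoM y0
  refine hmain.trans (Real.exp_le_exp.2 ?_)
  have hwr : (w : ℝ) ≤ 2 * wq := by exact_mod_cast hwq
  have hwqpos : (0 : ℝ) < wq := by linarith
  have hwq1 : (1 : ℝ) ≤ wq := by
    have h1 : 1 ≤ wq := by
      have : (0 : ℝ) < wq := hwqpos
      have h2 : 0 < wq := by exact_mod_cast this
      omega
    exact_mod_cast h1
  have h2 : |(y0 : ℝ) - sl μ s * t| ≤ |(y0 : ℝ) - Lr r t| + 2 * wq := by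
    have h3 : (y0 : ℝ) - sl μ s * t = ((y0 : ℝ) - Lr r t) + ((Lr r t : ℝ) - r * t) + (r - sl μ s) * t := by ring
    rw [h3]
    refine (abs_add_le _ _).trans ?_
    have h5 := abs_add_le ((y0 : ℝ) - Lr r t) ((Lr r t : ℝ) - r * t)
    have h6 := hLr t htn
    rw [abs_mul (r - sl μ s), Nat.abs_cast]
    have h4 : |r - sl μ s| * t ≤ |r - sl μ s| * n :=
      mul_le_mul_of_nonneg_left (by exact_mod_cast htn) (abs_nonneg _)
    linarith
  have h3 : |(y0 : ℝ) - sl μ s * t| / wq ≤ |(y0 : ℝ) - Lr r t| / wq + 2 := by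
    rw [div_le_iff₀ hwqpos, add_mul, div_mul_cancel₀ _ hwqpos.ne']
    exact h2
  linarith

/-- **(EL) for all tilts.** -/
theorem elH_all (hD : Dirs μ H δ A) (hR : Rate μ A) (hG : Grow μ A) (hLg : LogG μ A) {a : ℝ} (ha : 0 < a)
    (hCh : CheapH a μ A) : ELH a μ A := by
  obtain ⟨C, K3, hC, hK3, h⟩ := el_scale67 hD hR hG hLg ha hCh
  obtain ⟨M, hM⟩ : ∃ M : ℝ, M = max C K3 := ⟨_, rfl⟩
  have hMC : C ≤ M := by rw [hM]; exact le_max_left _ _
  have hMK : K3 ≤ M := by rw [hM]; exact le_max_right _ _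
  have hM0 : 0 < M := by linarith
  have hK0 : 0 < K3 := by linarith
  refine ⟨M / K3, M, 73, by linarith, by norm_num, fun A' hA' W₀ => ?_⟩
  have hA0 : 0 < A' := lt_of_lt_of_le (by positivity) hA'
  have hA1 : 1 ≤ A' * K3 / M := by
    rw [le_div_iff₀ hM0, one_mul]
    rwa [div_le_iff₀ hK0] at hA'
  have hA2 : A' * K3 / M ≤ A' := by
    rw [div_le_iff₀ hM0]
    exact mul_le_mul_of_nonneg_left hMK hA0.le
  obtain ⟨α, x0, h1⟩ := h (A' * K3 / M) hA1 W₀
  refine ⟨α, x0, fun s hs x hx hS => ?_⟩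
  obtain ⟨w, h2, h3, h4, h5⟩ := h1 s hs x hx hS
  have hw0 : (0 : ℝ) ≤ w := Nat.cast_nonneg _
  have hwH0 : 0 ≤ wH a μ s (2 ^ x) := by
    unfold wH
    exact mul_nonneg (Nat.cast_nonneg _) (hD.vA_pos hs ha Nat.one_le_two_pow).le
  refine ⟨w, h2, h3.trans (mul_le_mul_of_nonneg_right hMC hwH0), ?_, fun t wq ht ht' hwq hwq' y0 => ?_⟩
  · refine h4.trans ?_
    have : (1 : ℝ) * w ≤ M * w := mul_le_mul_of_nonneg_right (by linarith) hw0
    linarith
  · have h7 := h5 t wq ht ht' hwq hwq' y0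
    have hE := EE_pos (μ := μ) (s := s) (2 ^ x)
    have e1 : A' * K3 / M / (K3 * EE μ s (2 ^ x)) = A' / (M * EE μ s (2 ^ x)) := by field_simp
    rw [e1] at h7
    refine h7.trans (Real.exp_le_exp.2 ?_)
    linarith

end

end Pool.Agent.W_7d29a1_H.EL
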