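import Pool.Agent.W_7d29a1_H.HDefs
import Pool.Agent.W_7d29a1_L.LsDefs
import Pool.Agent.W_7d29a1_h30g.Fr0

/-!
MP_7d29a1_pr, TRACK H (all tilts). THE FRAME: definitions of the seams.

At the scale `n` the frame moves with a slope `r` close to `sl μ s` (the straight displacement need not be cheap, a displacement of
slope `r` is). TRAVELLERS: one far point from which all points of a line of slope `r`, in the time window `[0, n]`, are cheap.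
-/

set_option autoImplicit false

namespace Pool.Agent.W_7d29a1_H

open MeasureTheory ProbabilityTheory
open Pool.Agent.W_7d29a1_F Pool.Agent.W_7d29a1_h4g
open Pool.Agent.W_7d29a1_L (Mh)
open Pool.Agent.W_7d29a1_h30g (Stp)

noncomputable section

/-- **Travellers** along the line `g` in the window `[0, n]`: from the point `(-T, g 0 - ys)` to every point `(t, g t)`, and from
every point `(t, g t)` to `(n + T, g n + ys)`, the mean positive cost is at most `B`. -/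
structure TrvH (μ : Measure ℝ) (s : ℝ) (g : ℤ → ℤ) (n T : ℕ) (ys : ℤ) (B : ℝ) : Prop where
  A0 : 0 < B
  stp : Stp g
  st : ∀ t : ℕ, t ≤ n → 0 ≤ ys + (g t - g 0) ∧ ys + (g t - g 0) ≤ ((T + t : ℕ) : ℤ) ∧
    ep μ s (T + t) (ys + (g t - g 0)) ≤ B
  en : ∀ t : ℕ, t ≤ n → 0 ≤ ys + (g n - g t) ∧ ys + (g n - g t) ≤ ((T + (n - t) : ℕ) : ℤ) ∧
    ep μ s (T + (n - t)) (ys + (g n - g t)) ≤ B

/-- References: for every duration up to `M` some displacement has a mean positive cost of at most `E`. -/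
def RefH (μ : Measure ℝ) (s : ℝ) (M : ℕ) (E : ℝ) : Prop := ∀ m : ℕ, m ≤ M → ∃ y : ℤ, 0 ≤ y ∧ y ≤ m ∧ ep μ s m y ≤ E

/-- **(TRAV)** (`Dirs.trav_far`): at every scale `n` one far point from which all points of a box of time `n` and half width `R0 n`
around a line of slope `r` are reached at the price of `30` units plus `ε` times the distance from the line. -/
def TravH (μ : Measure ℝ) (A : Set ℝ) : Prop :=
  ∀ ε R0 : ℝ, 0 < ε → ∃ K' n0 : ℕ, 1 ≤ n0 ∧ 1 ≤ K' ∧ ∀ s ∈ A, ∀ n : ℕ, n0 ≤ n → ∃ (r ys : ℝ) (T : ℕ),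
    12 * n ≤ T ∧ T + n ≤ K' * n ∧ |r - sl μ s| ≤ ε ∧ ∀ t : ℕ, t ≤ n → ∀ y : ℤ, |(y : ℝ) - (ys + r * t)| ≤ R0 * n →
      0 ≤ y ∧ y ≤ ((T + t : ℕ) : ℤ) ∧ ep μ s (T + t) y ≤ 30 * EE μ s (K' * n) + ε * |(y : ℝ) - (ys + r * t)|

/-- **(L\*)** at the scale `n`, in the moving frame of slope `r`: `N` = duration of the cheap interval `[α, β]`, `w - 2` its length,
`E` the unit, `A` the level. -/
structure LsAtH (μ : Measure ℝ) (s : ℝ) (n N w : ℕ) (A E r : ℝ) (α β : ℤ) : Prop where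
  int : ∀ y : ℤ, 0 ≤ y → y ≤ N → (e μ s N y ≤ A * E ↔ α ≤ y ∧ y ≤ β)
  lo : 0 ≤ α
  hi : β ≤ N
  hw : (w : ℤ) = β - α + 2
  w3 : 3 ≤ w
  wE : A * E ≤ 24 * w
  r0 : 0 < r
  r1 : r < 1
  ls : ∀ m : ℕ, m ≤ n → ∀ h z : ℝ, |h| ≤ A * E / (48 * w) →
    ∫ η, Real.exp (Mh μ s r h ((w : ℝ) - 2) z m η / (9 * (A * E))) ∂(law μ) ≤ 4 * Real.exp 1

/-- **THE FRAME AT EVERY SCALE** (file F3: `frame30 : TravH, (MC), Rate, LogG → FrameAtH`). -/
def FrameAtH (μ : Measure ℝ) (A0 : Set ℝ) : Prop :=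
  ∀ ε : ℝ, 0 < ε → ∃ (A : ℝ) (H n0 : ℕ), 48 ≤ A ∧ 1 ≤ H ∧ 1 ≤ n0 ∧ ∀ s ∈ A0, ∀ n : ℕ, n0 ≤ n → ∃ (r : ℝ) (N w : ℕ) (α β : ℤ),
    |r - sl μ s| ≤ ε ∧ n ≤ N ∧ N ≤ H * n ∧ LsAtH μ s n N w A (EE μ s (H * n)) r α β

end

end Pool.Agent.W_7d29a1_H
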