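import Pool.Agent.W_7d29a1_H.TravH
import Pool.Agent.W_7d29a1_H.FrDefH30

/-!
MP_7d29a1_pr, TRACK H (all tilts). (TRAV) in the form of the frame.
-/

set_option autoImplicit false

namespace Pool.Agent.W_7d29a1_H

open MeasureTheory ProbabilityTheory Filter Topology Set
open Pool.Agent.W_7d29a1_F Pool.Agent.W_7d29a1_h4g

variable {μ : Measure ℝ} [IsProbabilityMeasure μ] {H δ : ℝ} {A : Set ℝ}

/-- **(TRAV)**. -/
theorem travH_all (h : Dirs μ H δ A) (hr : Rate μ A) (hg : Grow μ A) : TravH μ A := by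
  intro ε R0 hε
  obtain ⟨K', n0, h1, h2, h3⟩ := h.trav_far hr hg hε R0
  refine ⟨K', n0, h1, h2, fun s hs n hn => ?_⟩
  obtain ⟨r, ys, T, -, g2, g3, g4, -, -, -, g7⟩ := h3 s hs n hn
  exact ⟨r, ys, T, g2, g3, g4, g7⟩

/-- References. -/
theorem refH_all (s : ℝ) (M : ℕ) : RefH μ s M (EE μ s M) := fun _ hm => ref_le hm

end Pool.Agent.W_7d29a1_H
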