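import Pool.Agent.W_7d29a1_H.FrAtA30
import Pool.Agent.W_7d29a1_H.TrAll61
import Pool.Agent.W_7d29a1_H.Soft4
import Pool.Agent.W_7d29a1_H.MeanA

/-!
MP_7d29a1_pr, TRACK H (all tilts). The frame, 3b: THE FRAME AT EVERY SCALE, `frame30 : FrameAtH`. (helper30)
-/

set_option autoImplicit false

namespace Pool.Agent.W_7d29a1_H

open MeasureTheory ProbabilityTheory Filter Topology
open Pool.Agent.W_7d29a1_F Pool.Agent.W_7d29a1_h4g
open Pool.Agent.W_7d29a1_h47 (EM Nondeg)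

noncomputable section

variable {μ : Measure ℝ} [IsProbabilityMeasure μ] {s r : ℝ}

omit [IsProbabilityMeasure μ] in
/-- The travellers, in integer form. -/
theorem trvH30 {n T : ℕ} {ys B ε R : ℝ} (hr0 : 0 ≤ r) (hr1 : r ≤ 1) (hε : 0 ≤ ε) (hB : 0 < B + 2 * ε) (hR : 2 ≤ R)
    (h : ∀ t : ℕ, t ≤ n → ∀ y : ℤ, |(y : ℝ) - (ys + r * t)| ≤ R →
      0 ≤ y ∧ y ≤ ((T + t : ℕ) : ℤ) ∧ ep μ s (T + t) y ≤ B + ε * |(y : ℝ) - (ys + r * t)|) :
    TrvH μ s (gr30 r) n T ⌊ys⌋ (B + 2 * ε) := by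
  have a1 := Int.floor_le ys
  have a2 := Int.lt_floor_add_one ys
  refine ⟨hB, stp_gr30 hr0 hr1, fun t ht => ?_, fun t ht => ?_⟩
  · have h1 : |((⌊ys⌋ + (gr30 r t - gr30 r 0) : ℤ) : ℝ) - (ys + r * t)| ≤ 2 := by
      rw [gr30_zero, sub_zero]
      have b1 := gr30_le r t
      have b2 := gr30_lt r t
      push_cast at b1 b2 ⊢
      rw [abs_le]
      constructor <;> linarith
    obtain ⟨g1, g2, g3⟩ := h t ht _ (h1.trans hR)
    exact ⟨g1, g2, g3.trans (add_le_add le_rfl ((mul_le_mul_of_nonneg_left h1 hε).trans_eq (mul_comm _ _)))⟩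
  · have h1 : |((⌊ys⌋ + (gr30 r n - gr30 r t) : ℤ) : ℝ) - (ys + r * ((n - t : ℕ) : ℝ))| ≤ 2 := by
      have b1 := gr30_le r t
      have b2 := gr30_lt r t
      have c1 := gr30_le r n
      have c2 := gr30_lt r n
      rw [Nat.cast_sub ht]
      push_cast at b1 b2 c1 c2 ⊢
      rw [abs_le, mul_sub]
      constructor <;> linarith
    obtain ⟨g1, g2, g3⟩ := h (n - t) (Nat.sub_le _ _) _ (h1.trans hR)
    exact ⟨g1, g2, g3.trans (add_le_add le_rfl ((mul_le_mul_of_nonneg_left h1 hε).trans_eq (mul_comm _ _)))⟩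

omit [IsProbabilityMeasure μ] in
theorem TrvH.mono30 {g : ℤ → ℤ} {n T : ℕ} {ys : ℤ} {B B' : ℝ} (h : TrvH μ s g n T ys B) (hB : B ≤ B') :
    TrvH μ s g n T ys B' :=
  ⟨h.A0.trans_le hB, h.stp, fun t ht => ⟨(h.st t ht).1, (h.st t ht).2.1, (h.st t ht).2.2.trans hB⟩,
    fun t ht => ⟨(h.en t ht).1, (h.en t ht).2.1, (h.en t ht).2.2.trans hB⟩⟩

omit [IsProbabilityMeasure μ] in
/-- A displacement of small probability of being cheap is dear. -/
theorem hard30 {p u B : ℝ} {N : ℕ} {y : ℤ} (hB : 2 * u ≤ B)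
    (hmc : 0 ≤ y → y ≤ N → p ≤ (law μ).real {η | X μ s η 0 N y ≤ u} → e μ s N y ≤ max (2 * u) B) (hp : 0 ≤ p)
    (hy : 0 ≤ y → y ≤ N → B < e μ s N y) :
    (law μ).real {η | Real.exp (-u) ≤ W μ s η 0 N y} ≤ p := by
  by_cases hy' : 0 ≤ y ∧ y ≤ N
  · obtain ⟨y0, y1⟩ := hy'
    by_contra hc
    push Not at hc
    have h1 : (law μ).real {η | Real.exp (-u) ≤ W μ s η 0 N y} = (law μ).real {η | X μ s η 0 N y ≤ u} := by
      congr 1
      ext η
      rw [Set.mem_ofPred_eq, Set.mem_ofPred_eq, ← Real.le_log_iff_exp_le (W_pos η 0 y0 y1)]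
      unfold X
      constructor <;> intro h <;> linarith
    rw [h1] at hc
    have h2 := hmc y0 y1 hc.le
    have h3 := hy y0 y1
    rw [max_eq_right hB] at h2
    linarith
  · have h1 : {η : Env | Real.exp (-u) ≤ W μ s η 0 N y} = ∅ := by
      ext η
      rw [Set.mem_ofPred_eq, W_eq_zero η 0 hy']
      simp only [Set.mem_empty_iff_false, iff_false, not_le]
      exact Real.exp_pos _
    rw [h1]
    simpa using hp

/-- **THE HYPOTHESES OF THE FRAME AT ONE SCALE.** -/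
theorem frHyp_mk30 (hμ : EM μ) (hnd : Nondeg μ) {p : ℝ} (hp : 0 ≤ p) {Tm : ℕ} {Cm : ℝ} (hTm : 1 ≤ Tm) (hCm : 0 ≤ Cm)
    (hmc : ∀ (l n : ℕ), Tm * l ≤ n → ∀ (k : ℤ), 0 ≤ k → k ≤ l → ∀ y : ℝ,
      p ≤ (law μ).real {η | X μ s η 0 l k ≤ y} → e μ s l k ≤ max (2 * y) (Cm * EE μ s n))
    {n T K' : ℕ} {ys A j ε : ℝ} (hr0 : 0 < r) (hr1 : r < 1) (hn : 3 ≤ n) (hK : 1 ≤ K') (hTn : T + n ≤ K' * n)
    (hA : 1600 ≤ A) (hAm : Cm * Tm ≤ A) (hlog : Real.log n ≤ EE μ s (8 * K' * n))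
    (hsm : A * EE μ s (8 * K' * n) ≤ 1 / 4 * n) (hε0 : 0 ≤ ε) (hε : ε ≤ 1 / 8) (hj : 0 < j)
    (hst : ∀ x : ℝ, 1 / (8 * (K' : ℝ)) ≤ |x| → j * |x| ≤ J μ s x)
    (hj2 : A * EE μ s (8 * K' * n) < j * (1 / (8 * (K' : ℝ))) * n)
    (htr : ∀ t : ℕ, t ≤ n → ∀ y : ℤ, |(y : ℝ) - (ys + r * t)| ≤ n →
      0 ≤ y ∧ y ≤ ((T + t : ℕ) : ℤ) ∧ ep μ s (T + t) y ≤ 30 * EE μ s (8 * K' * n) + ε * |(y : ℝ) - (ys + r * t)|) :
    ∃ (w : ℕ) (α β : ℤ), FrHyp30 μ s r w n T ⌊ys⌋ α β (EE μ s (8 * K' * n)) 32 A 2 p ∧ (w : ℝ) ≤ n + 2 ∧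
      (∀ y : ℤ, 0 ≤ y → y ≤ ((T + (n + T) : ℕ) : ℤ) →
        (e μ s (T + (n + T)) y ≤ A * EE μ s (8 * K' * n) ↔ α ≤ y ∧ y ≤ β)) := by
  obtain ⟨E, hE⟩ : ∃ E : ℝ, E = EE μ s (8 * K' * n) := ⟨_, rfl⟩
  rw [← hE] at hlog hsm hj2 htr ⊢
  have hE1 : 1 ≤ E := by rw [hE]; exact one_le_EE _
  have hAE' : 1600 * E ≤ A * E := mul_le_mul_of_nonneg_right hA (by linarith)
  have hAE : 1600 ≤ A * E := by linarith
  have hnr : (3 : ℝ) ≤ n := by exact_mod_cast hn
  obtain ⟨N, hN⟩ : ∃ N : ℕ, N = T + (n + T) := ⟨_, rfl⟩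
  have hN8 : N ≤ 8 * K' * n := by
    rw [Nat.mul_assoc]
    omega
  have hnN : n ≤ N := by omega
  have hNr : (N : ℝ) ≤ 2 * (K' * n) := by
    have : N ≤ 2 * (K' * n) := by omega
    exact_mod_cast this
  have hN1 : 1 ≤ N := by omega
  have hN0 : (0 : ℝ) < N := by exact_mod_cast hN1
  have hK0 : (0 : ℝ) < K' := by exact_mod_cast hK
  obtain ⟨y0, hy0⟩ : ∃ y0 : ℤ, y0 = ⌊ys⌋ := ⟨_, rfl⟩
  rw [← hy0]
  have a1 : (y0 : ℝ) ≤ ys := by rw [hy0]; exact Int.floor_le ys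
  have a2 : ys < y0 + 1 := by rw [hy0]; exact Int.lt_floor_add_one ys
  have c1 := gr30_le r n
  have c2 := gr30_lt r n
  push_cast at c1 c2
  -- the interval
  obtain ⟨α, β, hab, hxa, hxb, hiff⟩ := CI_int' (s := s) hμ (m := N) hN8 (a := A) (by linarith)
  rw [← hE] at hiff
  have hiff' : ∀ y : ℤ, 0 ≤ y → y ≤ (N : ℤ) → (e μ s N y ≤ A * E ↔ α ≤ y ∧ y ≤ β) := fun y g0 g1 => by
    rw [← hiff y]
    exact ⟨fun h => CI_mk g0 g1 h, fun h => CI_e h⟩
  have hαm : α ∈ CI μ s N (A * E) := (hiff α).2 ⟨le_rfl, hab⟩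
  have hβm : β ∈ CI μ s N (A * E) := (hiff β).2 ⟨hab, le_rfl⟩
  -- the points of the interval are near the line
  have hnear : ∀ y : ℤ, y ∈ CI μ s N (A * E) → |(y : ℝ) - sl μ s * N| ≤ n / 4 := by
    intro y hy
    by_contra hc
    push Not at hc
    have h1 := e_ge hμ hnd s hN1 (CI_0 hy) (CI_n hy)
    have h2 := CI_e hy
    have h3 : (y : ℝ) / N - sl μ s = ((y : ℝ) - sl μ s * N) / N := by
      field_simp
    have h4 : |(y : ℝ) / N - sl μ s| = |(y : ℝ) - sl μ s * N| / N := by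
      rw [h3, abs_div, abs_of_pos hN0]
    have h5 : 1 / (8 * (K' : ℝ)) ≤ |(y : ℝ) / N - sl μ s| := by
      rw [h4, div_le_div_iff₀ (by positivity) hN0]
      have h6 : (n / 4 : ℝ) * (8 * K') ≤ |(y : ℝ) - sl μ s * N| * (8 * K') :=
        mul_le_mul_of_nonneg_right hc.le (by positivity)
      linarith
    have h6 := hst _ h5
    have h7 : j * |(y : ℝ) - sl μ s * N| ≤ A * E := by
      have h8 : (N : ℝ) * (j * |(y : ℝ) / N - sl μ s|) = j * |(y : ℝ) - sl μ s * N| := by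
        rw [h4]
        field_simp
      rw [← h8]
      exact (mul_le_mul_of_nonneg_left h6 hN0.le).trans (h1.trans h2)
    have h9 : j * (n / 4) < j * |(y : ℝ) - sl μ s * N| := mul_lt_mul_of_pos_left hc hj
    have h10 : j * (1 / (8 * (K' : ℝ))) * n ≤ j * (n / 4) := by
      have h11 : 1 / (8 * (K' : ℝ)) ≤ 1 / 8 := by
        rw [div_le_div_iff₀ (by positivity) (by norm_num)]
        have : (1 : ℝ) ≤ K' := by exact_mod_cast hK
        linarith
      have h12 : j * (1 / (8 * (K' : ℝ))) * n ≤ j * (1 / 8) * n :=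
        mul_le_mul_of_nonneg_right (mul_le_mul_of_nonneg_left h11 hj.le) (by linarith)
      have h13 : 0 ≤ j * n := by positivity
      linarith
    linarith
  have hαβ : (β : ℝ) - α ≤ n / 2 := by
    obtain ⟨b1, b2⟩ := abs_le.1 (hnear _ hαm)
    obtain ⟨b3, b4⟩ := abs_le.1 (hnear _ hβm)
    linarith
  -- many cheap points around the centre
  obtain ⟨x0, hx0⟩ : ∃ x0 : ℕ, x0 = ⌈A * E / 24⌉₊ := ⟨_, rfl⟩
  have hx1 : A * E / 24 ≤ x0 := by rw [hx0]; exact Nat.le_ceil _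
  have hx2 : (x0 : ℝ) < A * E / 24 + 1 := by rw [hx0]; exact Nat.ceil_lt_add_one (by positivity)
  have hpt : ∀ x : ℤ, |(x : ℝ)| ≤ x0 → 2 * y0 + gr30 r n + x ∈ CI μ s N (A * E) := by
    intro x hx
    have h1 := htr 0 (Nat.zero_le _) y0 (by
      push_cast
      rw [mul_zero, add_zero, abs_le]
      constructor <;> linarith)
    have h2 : |((y0 + gr30 r n + x : ℤ) : ℝ) - (ys + r * n)| ≤ x0 + 2 := by
      obtain ⟨b1, b2⟩ := abs_le.1 hx
      push_cast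
      rw [abs_le]
      constructor <;> linarith
    have h3 := htr n le_rfl (y0 + gr30 r n + x) (h2.trans (by linarith))
    have h4 : |(y0 : ℝ) - (ys + r * ((0 : ℕ) : ℝ))| ≤ 1 := by
      push_cast
      rw [mul_zero, add_zero, abs_le]
      constructor <;> linarith
    have e1 : n + T = T + n := Nat.add_comm _ _
    have h5 := e_sub (μ := μ) hμ s (m := T) (n := T + n) h1.1 (by simpa using h1.2.1) h3.1 h3.2.1
    have h6 := e_le_ep (μ := μ) hμ s (n := T) h1.1 (by simpa using h1.2.1)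
    have h7 := e_le_ep (μ := μ) hμ s (n := T + n) h3.1 h3.2.1
    have e2 : y0 + (y0 + gr30 r n + x) = 2 * y0 + gr30 r n + x := by ring
    have e3 : T + (T + n) = N := by omega
    rw [e2, e3] at h5
    have h8 := h1.2.2
    have h9 := h3.2.2
    rw [Nat.add_zero] at h8
    have h10 : ε * |(y0 : ℝ) - (ys + r * ((0 : ℕ) : ℝ))| ≤ 1 / 8 * 1 := mul_le_mul hε h4 (abs_nonneg _) (by norm_num)
    have h11 : ε * |((y0 + gr30 r n + x : ℤ) : ℝ) - (ys + r * n)| ≤ 1 / 8 * (x0 + 2) :=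
      mul_le_mul hε h2 (abs_nonneg _) (by norm_num)
    have h12 := h8.trans (add_le_add le_rfl h10)
    have h13 := h9.trans (add_le_add le_rfl h11)
    refine CI_mk ?_ ?_ ?_
    · have := h1.1
      have := h3.1
      omega
    · have b1 := h1.2.1
      have b2 := h3.2.1
      push_cast at b1 b2
      rw [← e3]
      push_cast
      omega
    · clear h8 h9 h10 h11
      linarith
  have hlo := (hiff _).1 (hpt (-(x0 : ℤ)) (by push_cast; rw [abs_neg, abs_of_nonneg (Nat.cast_nonneg _)]))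
  have hhi := (hiff _).1 (hpt (x0 : ℤ) (by push_cast; rw [abs_of_nonneg (Nat.cast_nonneg _)]))
  have hce := (hiff _).1 (hpt 0 (by push_cast; rw [abs_zero]; exact Nat.cast_nonneg _))
  obtain ⟨w, hw⟩ : ∃ w : ℕ, w = (β - α + 2).toNat := ⟨_, rfl⟩
  have hwz : (w : ℤ) = β - α + 2 := by
    rw [hw]
    exact Int.toNat_of_nonneg (by omega)
  have hwr : (w : ℝ) = β - α + 2 := by exact_mod_cast hwz
  have hw2 : 2 * (x0 : ℝ) + 2 ≤ w := by
    have h1 : 2 * (x0 : ℤ) + 2 ≤ w := by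
      have := hlo.1
      have := hhi.2
      omega
    exact_mod_cast h1
  have hα0 := CI_0 hαm
  have hβN := CI_n hβm
  refine ⟨w, α, β, ?_, by rw [hwr]; linarith, fun y g0 g1 => by rw [← hN] at g1 ⊢; exact hiff' y g0 g1⟩
  refine ⟨by omega, hr0.le, hr1.le, ?_, hwz, hE1, by norm_num, by norm_num, by linarith, by linarith, ?_, ?_, hα0,
    by rw [← hN]; exact hβN, fun y g0 g1 => ?_, ?_, ?_, by linarith⟩
  · have h1 : (3 : ℝ) ≤ w := by linarith
    exact_mod_cast h1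
  · have h1 := trvH30 (μ := μ) (s := s) (r := r) (n := n) (T := T) (ys := ys) (B := 30 * E) (ε := ε) (R := n) hr0.le hr1.le
      hε0 (by linarith) (by linarith) htr
    rw [← hy0] at h1
    exact h1.mono30 (by linarith)
  · intro m hm
    have h1 : m ≤ 8 * K' * n := hm.trans (by
      rw [Nat.mul_assoc]
      omega)
    obtain ⟨y, g0, g1, g2⟩ := refH_all (μ := μ) s (8 * K' * n) m h1
    exact ⟨y, g0, g1, by rw [hE]; exact g2⟩
  · rw [← hN]
    exact CI_e ((hiff y).2 ⟨g0, g1⟩)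
  · have h1 : (1 + 2 * n : ℝ) ≤ (n : ℝ) ^ 2 := by
      have h2 : (3 : ℝ) * n ≤ n * n := mul_le_mul_of_nonneg_right hnr (by linarith)
      rw [sq]
      linarith
    have h2 := Real.log_le_log (by positivity) h1
    rw [Real.log_pow] at h2
    push_cast at h2
    linarith
  · intro ε' hε'
    have hmul : Cm * EE μ s (Tm * N) ≤ A * E := by
      have h1 := EE_mul (μ := μ) hμ s N hTm
      have h2 : EE μ s N ≤ E := by rw [hE]; exact EE_mono hN8
      calc Cm * EE μ s (Tm * N) ≤ Cm * (Tm * E) := mul_le_mul_of_nonneg_left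
            (h1.trans (mul_le_mul_of_nonneg_left h2 (Nat.cast_nonneg _))) hCm
        _ = Cm * Tm * E := by ring
        _ ≤ A * E := mul_le_mul_of_nonneg_right hAm (by linarith)
    rw [← hN, gr30_zero, sub_zero]
    refine hard30 (B := A * E) ?_ (fun g0 g1 g2 => ?_) hp (fun g0 g1 => ?_)
    · linarith
    · exact (hmc N (Tm * N) le_rfl _ g0 g1 _ g2).trans (max_le_max le_rfl hmul)
    · by_contra hc
      push Not at hc
      have h1 := (hiff' _ g0 g1).1 hc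
      rcases hε' with h | h
      · rw [h, one_mul] at h1
        have := hce.1
        omega
      · rw [h] at h1
        have := hce.2
        omega

/-- **THE FRAME AT EVERY SCALE.** -/
theorem frame30 {H δ : ℝ} {A0 : Set ℝ} (hD : Dirs μ H δ A0) (hT : TravH μ A0) (hr : Rate μ A0) (hl : LogG μ A0) :
    FrameAtH μ A0 := by
  intro ε hε
  obtain ⟨a1, ha1, hstep⟩ := step_luck30 hD.em hD.nd H
  obtain ⟨p0, K, hp0, hls⟩ := ls30 hD.em ha1
  obtain ⟨ε1, hε1⟩ : ∃ ε1 : ℝ, ε1 = min (min ε (δ / 2)) (1 / 8) := ⟨_, rfl⟩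
  have hδ := hD.δ0
  have he0 : 0 < ε1 := by
    rw [hε1]
    exact lt_min (lt_min hε (by linarith)) (by norm_num)
  have he1 : ε1 ≤ ε := by rw [hε1]; exact (min_le_left _ _).trans (min_le_left _ _)
  have he2 : ε1 ≤ δ / 2 := by rw [hε1]; exact (min_le_left _ _).trans (min_le_right _ _)
  have he3 : ε1 ≤ 1 / 8 := by rw [hε1]; exact min_le_right _ _
  obtain ⟨K', n1, hn1, hK', htr⟩ := hT ε1 1 he0
  obtain ⟨Tm, Cm, hTm, hCm, hmc⟩ := mc_X (μ := μ) hD.em hD.nd (p := p0 / 64) (by positivity)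
  have hKr : (1 : ℝ) ≤ K' := by exact_mod_cast hK'
  have hK0 : (0 : ℝ) < K' := by linarith
  obtain ⟨j, hj, hst⟩ := hD.strict (1 / (8 * (K' : ℝ))) (by positivity)
  obtain ⟨A, hA⟩ : ∃ A : ℝ, A = max (max 1600 K) (max (Cm * Tm) (1600 * 32 / p0)) := ⟨_, rfl⟩
  have hA1 : 1600 ≤ A := by rw [hA]; exact (le_max_left _ _).trans (le_max_left _ _)
  have hA2 : K ≤ A := by rw [hA]; exact (le_max_right _ _).trans (le_max_left _ _)
  have hA3 : Cm * Tm ≤ A := by rw [hA]; exact (le_max_left _ _).trans (le_max_right _ _)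
  have hA4 : 1600 * 32 / p0 ≤ A := by rw [hA]; exact (le_max_right _ _).trans (le_max_right _ _)
  have hA0 : 0 < A := by linarith
  obtain ⟨c, hc⟩ : ∃ c : ℝ, c = min (1 / 4) (j * (1 / (8 * (K' : ℝ))) / 2) := ⟨_, rfl⟩
  have hc0 : 0 < c := by
    rw [hc]
    exact lt_min (by norm_num) (by positivity)
  have hc1 : c ≤ 1 / 4 := by rw [hc]; exact min_le_left _ _
  have hc2 : c ≤ j * (1 / (8 * (K' : ℝ))) / 2 := by rw [hc]; exact min_le_right _ _
  obtain ⟨n2, hn2⟩ := hr (c / (A * (8 * K'))) (by positivity)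
  obtain ⟨n3, hn3⟩ := hl 1
  refine ⟨A, 8 * K', max (max n1 3) (max n2 n3), by linarith, by omega, by omega, ?_⟩
  intro s hs n hn
  have g1 : n1 ≤ n := by omega
  have g2 : 3 ≤ n := by omega
  have g3 : n2 ≤ n := by omega
  have g4 : n3 ≤ n := by omega
  have hnr : (3 : ℝ) ≤ n := by exact_mod_cast g2
  obtain ⟨r, ys, T, hT1, hT2, hrs, hbox⟩ := htr s hs n g1
  have hlo := hD.lo s hs
  have hhi := hD.hi s hs
  obtain ⟨b1, b2⟩ := abs_le.1 hrs
  have hr0 : 0 < r := by linarith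
  have hr1 : r < 1 := by linarith
  have hn8 : n ≤ 8 * K' * n := Nat.le_mul_of_pos_left n (by omega)
  have hR := hn2 s hs (8 * K' * n) (g3.trans hn8)
  have hR' : A * EE μ s (8 * K' * n) ≤ c * n := by
    calc A * EE μ s (8 * K' * n) ≤ A * (c / (A * (8 * K')) * ((8 * K' * n : ℕ) : ℝ)) := mul_le_mul_of_nonneg_left hR hA0.le
      _ = c * n := by
        push_cast
        field_simp
  have hlog : Real.log n ≤ EE μ s (8 * K' * n) := by
    have h1 := hn3 s hs n g4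
    have h2 := EE_mono (μ := μ) (s := s) hn8
    linarith
  have hK8 : K' * n ≤ 8 * K' * n := Nat.mul_le_mul_right n (by omega)
  have hEK := EE_mono (μ := μ) (s := s) hK8
  obtain ⟨w, α, β, hF, hw, hint⟩ := frHyp_mk30 hD.em hD.nd (p := p0 / 64) (by positivity) hTm (by linarith) (hmc s)
    (n := n) (T := T) (K' := K') (ys := ys) (A := A) (j := j) (ε := ε1) hr0 hr1 g2 hK' hT2 hA1 hA3 hlog
    (hR'.trans (mul_le_mul_of_nonneg_right hc1 (by linarith))) he0.le he3 hj (hst s hs)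
    (by
      have h1 : c * n ≤ j * (1 / (8 * (K' : ℝ))) / 2 * n := mul_le_mul_of_nonneg_right hc2 (by linarith)
      have h2 : 0 < j * (1 / (8 * (K' : ℝ))) * n := by positivity
      linarith)
    (fun t ht y hy => by
      obtain ⟨h1, h2, h3⟩ := hbox t ht y (by linarith)
      exact ⟨h1, h2, by linarith⟩)
  refine ⟨r, T + (n + T), w, α, β, hrs.trans he1, by omega, ?_, ?_⟩
  · rw [Nat.mul_assoc]
    omega
  refine ⟨hint, hF.al0, hF.be1, hF.wab, hF.w3, hF.hw, hr0, hr1, ?_⟩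
  refine hls s r w n T ⌊ys⌋ α β _ 32 A 2 (p0 / 64) (hstep s (hD.bd s hs)) hF hA2 ?_ (by linarith) hlog hw
  rw [div_le_iff₀ hp0] at hA4
  rw [div_le_iff₀ hA0]
  linarith

/-- The frame from the rate of growth alone. -/
theorem Dirs.frame30 {H δ : ℝ} {A0 : Set ℝ} (hD : Dirs μ H δ A0) (hr : Rate μ A0) (hg : Grow μ A0) (hl : LogG μ A0) :
    FrameAtH μ A0 := Pool.Agent.W_7d29a1_H.frame30 hD (travH_all hD hr hg) hr hl

end

end Pool.Agent.W_7d29a1_H
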