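import Pool.Agent.W_7d29a1_H.UnitH
import Pool.Agent.W_7d29a1_F.Bridge5
import Pool.Agent.W_7d29a1_F.CoreC3

/-!
MP_7d29a1_pr, TRACK H (all tilts), (H6): the units are at most `C n ^ (4 / 5)`, uniformly for ALL tilts; in particular they are `o(n)`
(`Dirs.rate`). Models: `W_7d29a1_G.Unit2a`, `Unit2b` (`exists_cheap`, `ep_le`). (helper85)
-/

set_option autoImplicit false

namespace Pool.Agent.W_7d29a1_H

open MeasureTheory ProbabilityTheory Filter Topology Set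
open Pool.Agent.W_7d29a1_F Pool.Agent.W_7d29a1_h4g
open Pool.Agent.W_7d29a1_h47 (EM Nondeg)

noncomputable section

variable {μ : Measure ℝ} [IsProbabilityMeasure μ]

omit [IsProbabilityMeasure μ] in
private theorem r_eps (n : ℕ) (hn : 1 ≤ n) :
    Pool.Agent.W_7d29a1_h47.eps μ n ≤
      (10 + Pool.Agent.W_7d29a1_h47.Cc μ) * (n : ℝ) ^ (4 / 5 : ℝ) := by
  have hn1 : (1 : ℝ) ≤ n := by exact_mod_cast hn
  have hn0 : (0 : ℝ) < n := by linarith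
  have hC : 0 ≤ Pool.Agent.W_7d29a1_h47.Cc μ := by
    unfold Pool.Agent.W_7d29a1_h47.Cc
    positivity
  unfold Pool.Agent.W_7d29a1_h47.eps
  have h1 : Real.log (2 * (n : ℝ) + 1) ≤ 10 * (n : ℝ) ^ (3 / 10 : ℝ) := by
    have h2 := Real.log_le_rpow_div (x := 2 * (n : ℝ) + 1) (ε := 3 / 10) (by linarith) (by norm_num)
    have h3 : (2 * (n : ℝ) + 1) ^ (3 / 10 : ℝ) ≤ (3 * (n : ℝ)) ^ (3 / 10 : ℝ) :=
      Real.rpow_le_rpow (by linarith) (by linarith) (by norm_num)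
    have h4 : (3 * (n : ℝ)) ^ (3 / 10 : ℝ) = (3 : ℝ) ^ (3 / 10 : ℝ) * (n : ℝ) ^ (3 / 10 : ℝ) :=
      Real.mul_rpow (by norm_num) hn0.le
    have h5 : (3 : ℝ) ^ (3 / 10 : ℝ) ≤ 3 := by
      have := Real.rpow_le_rpow_of_exponent_le (x := 3) (by norm_num)
        (by norm_num : (3 / 10 : ℝ) ≤ 1)
      simpa using this
    have h6 : 0 ≤ (n : ℝ) ^ (3 / 10 : ℝ) := by positivity
    have h7 := mul_le_mul_of_nonneg_right h5 h6
    have h8 : (2 * (n : ℝ) + 1) ^ (3 / 10 : ℝ) / (3 / 10) ≤ (3 * (n : ℝ) ^ (3 / 10 : ℝ)) / (3 / 10) :=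
      div_le_div_of_nonneg_right (by linarith) (by norm_num)
    have h9 : (3 * (n : ℝ) ^ (3 / 10 : ℝ)) / (3 / 10) = 10 * (n : ℝ) ^ (3 / 10 : ℝ) := by ring
    linarith
  have h2 : Real.sqrt (n : ℝ) * (n : ℝ) ^ (3 / 10 : ℝ) = (n : ℝ) ^ (4 / 5 : ℝ) := by
    rw [Real.sqrt_eq_rpow, ← Real.rpow_add hn0]
    norm_num
  have h3 : Real.sqrt (n : ℝ) ≤ (n : ℝ) ^ (4 / 5 : ℝ) := by
    rw [Real.sqrt_eq_rpow]
    exact Real.rpow_le_rpow_of_exponent_le hn1 (by norm_num)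
  have h4 : 0 ≤ Real.sqrt (n : ℝ) := Real.sqrt_nonneg _
  calc Real.sqrt (n : ℝ) * (Real.log (2 * (n : ℝ) + 1) + Pool.Agent.W_7d29a1_h47.Cc μ)
      ≤ Real.sqrt (n : ℝ) * (10 * (n : ℝ) ^ (3 / 10 : ℝ) + Pool.Agent.W_7d29a1_h47.Cc μ) :=
        mul_le_mul_of_nonneg_left (by linarith) h4
    _ = 10 * (Real.sqrt (n : ℝ) * (n : ℝ) ^ (3 / 10 : ℝ)) +
        Pool.Agent.W_7d29a1_h47.Cc μ * Real.sqrt (n : ℝ) := by ring
    _ ≤ 10 * (n : ℝ) ^ (4 / 5 : ℝ) + Pool.Agent.W_7d29a1_h47.Cc μ * (n : ℝ) ^ (4 / 5 : ℝ) := by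
        rw [h2]
        have := mul_le_mul_of_nonneg_left h3 hC
        linarith
    _ = (10 + Pool.Agent.W_7d29a1_h47.Cc μ) * (n : ℝ) ^ (4 / 5 : ℝ) := by ring

/-- For every tilt and every duration there is a displacement of mean cost at most `C n ^ (4 / 5)`; `C` does not depend on the tilt. -/
theorem exists_cheap85 (hμ : EM μ) : ∃ C : ℝ, 0 ≤ C ∧ ∀ (s : ℝ) (n : ℕ), 1 ≤ n →
    ∃ y : ℤ, 0 ≤ y ∧ y ≤ n ∧ e μ s n y ≤ C * (n : ℝ) ^ (4 / 5 : ℝ) := by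
  have hC : 0 ≤ Pool.Agent.W_7d29a1_h47.Cc μ := by
    unfold Pool.Agent.W_7d29a1_h47.Cc
    positivity
  refine ⟨2 * (10 + Pool.Agent.W_7d29a1_h47.Cc μ), by positivity, fun s n hn => ?_⟩
  obtain ⟨z, hz, hz2⟩ := Pool.Agent.W_7d29a1_h47.exists_ap hμ (s / 2) n
  rw [Pool.Agent.W_7d29a1_h47.Reach_iff] at hz
  obtain ⟨h1, h2⟩ := hz
  rw [abs_le] at h1
  obtain ⟨y, hy⟩ : ∃ y : ℤ, z = 2 * y - n := ⟨(z + n) / 2, by omega⟩
  subst hy
  refine ⟨y, by omega, by omega, ?_⟩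
  rw [e_eq hμ s (by omega) (by omega)]
  have h3 := r_eps (μ := μ) n hn
  unfold lam
  push_cast at hz2
  nlinarith

omit [IsProbabilityMeasure μ] in
/-- The cost of a displacement for two tilts differs by a constant. -/
theorem X_tilt85 (s : ℝ) (η : Env) (a : Pt) {n : ℕ} {y : ℤ} (h0 : 0 ≤ y) (h1 : y ≤ n) :
    X μ s η a n y = X μ 0 η a n y + (n * (lam μ s - lam μ 0) - s * y) := by
  have hp := W_pos (μ := μ) (s := 0) η a h0 h1
  have h2 : W μ s η a n y = Real.exp (s * y - n * (lam μ s - lam μ 0)) * W μ 0 η a n y := by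
    unfold W WR
    rw [← mul_assoc, ← Real.exp_add]
    congr 2
    ring
  unfold X
  rw [h2, Real.log_mul (Real.exp_pos _).ne' hp.ne', Real.log_exp]
  ring

theorem e_tilt85 (hμ : EM μ) (s : ℝ) {n : ℕ} {y : ℤ} (h0 : 0 ≤ y) (h1 : y ≤ n) :
    e μ s n y = e μ 0 n y + (n * (lam μ s - lam μ 0) - s * y) := by
  have hi : Integrable (fun η => X μ 0 η 0 n y) (law μ) := (Sub_X 0 h0 h1).integrable hμ
  have h2 : e μ s n y = ∫ η, (X μ 0 η 0 n y + (n * (lam μ s - lam μ 0) - s * y)) ∂(law μ) :=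
    integral_congr_ae (Eventually.of_forall fun η => X_tilt85 s η 0 h0 h1)
  rw [h2, integral_add hi (integrable_const _)]
  simp [e]

/-- The variance of the cost of every displacement is at most `C n`; `C` does not depend on the tilt. -/
theorem var_X85 (hμ : EM μ) : ∃ C : ℝ, 0 ≤ C ∧ ∀ (s : ℝ) (n : ℕ) (y : ℤ), 0 ≤ y → y ≤ n →
    ∫ η, (X μ s η 0 n y - e μ s n y) ^ 2 ∂(law μ) ≤ C * n := by
  obtain ⟨C, hC⟩ := var_X hμ 0
  refine ⟨|C|, abs_nonneg C, fun s n y h0 h1 => ?_⟩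
  have h2 : ∫ η, (X μ s η 0 n y - e μ s n y) ^ 2 ∂(law μ) = ∫ η, (X μ 0 η 0 n y - e μ 0 n y) ^ 2 ∂(law μ) := by
    refine integral_congr_ae (Eventually.of_forall fun η => ?_)
    simp only
    rw [X_tilt85 s η 0 h0 h1, e_tilt85 hμ s h0 h1]
    ring
  rw [h2]
  exact (hC n y h0 h1).trans (mul_le_mul_of_nonneg_right (le_abs_self C) (Nat.cast_nonneg n))

/-- `E X⁺ ≤ E X + C √n`, uniformly in the tilt. -/
theorem ep_le_e85 (hμ : EM μ) : ∃ C : ℝ, 0 ≤ C ∧ ∀ (s : ℝ) (n : ℕ) (y : ℤ), 1 ≤ n → 0 ≤ y → y ≤ n →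
    ep μ s n y ≤ e μ s n y + C * Real.sqrt n := by
  obtain ⟨C, hC0, hC⟩ := var_X85 (μ := μ) hμ
  refine ⟨(C + 1) / 2, by positivity, fun s n y hn h0 h1 => ?_⟩
  have hn0 : (0 : ℝ) < n := by exact_mod_cast hn
  obtain ⟨a, ha⟩ : ∃ a : ℝ, a = Real.sqrt n := ⟨_, rfl⟩
  have ha0 : 0 < a := by rw [ha]; exact Real.sqrt_pos.2 hn0
  have haa : a * a = n := by rw [ha]; exact Real.mul_self_sqrt hn0.le
  have he := e_nonneg hμ s h0 h1
  have hX : Integrable (fun η => X μ s η 0 n y) (law μ) := (Sub_X 0 h0 h1).integrable hμ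
  have hX2 : Integrable (fun η => X μ s η 0 n y ^ 2) (law μ) := Sub.sq_integrable hμ (Sub_X 0 h0 h1)
  have hD : Integrable (fun η => (X μ s η 0 n y - e μ s n y) ^ 2) (law μ) := by
    have h2 := (hX2.sub (hX.const_mul (2 * e μ s n y))).add (integrable_const (e μ s n y ^ 2))
    refine h2.congr (Eventually.of_forall fun η => ?_)
    simp only [Pi.add_apply, Pi.sub_apply]
    ring
  have hpt : ∀ η, max (X μ s η 0 n y) 0 ≤
      X μ s η 0 n y + ((2 * a)⁻¹ * (X μ s η 0 n y - e μ s n y) ^ 2 + a / 2) := by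
    intro η
    set x := X μ s η 0 n y
    have h3 : 0 ≤ (2 * a)⁻¹ * (x - e μ s n y) ^ 2 := by positivity
    rcases le_total 0 x with h | h
    · rw [max_eq_left h]
      linarith
    · rw [max_eq_right h]
      have h4 : x ^ 2 ≤ (x - e μ s n y) ^ 2 := by nlinarith
      have h5 : -x ≤ (2 * a)⁻¹ * x ^ 2 + a / 2 := by
        have : 0 ≤ (2 * a)⁻¹ * (x + a) ^ 2 := by positivity
        have e1 : (2 * a)⁻¹ * (x + a) ^ 2 = (2 * a)⁻¹ * x ^ 2 + a / 2 + x := by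
          field_simp
          ring
        linarith
      have h6 : (2 * a)⁻¹ * x ^ 2 ≤ (2 * a)⁻¹ * (x - e μ s n y) ^ 2 :=
        mul_le_mul_of_nonneg_left h4 (by positivity)
      linarith
  have h7 : ep μ s n y ≤ e μ s n y + ((2 * a)⁻¹ * ∫ η, (X μ s η 0 n y - e μ s n y) ^ 2 ∂(law μ) + a / 2) := by
    have hI : Integrable (fun η => (2 * a)⁻¹ * (X μ s η 0 n y - e μ s n y) ^ 2 + a / 2) (law μ) :=
      (hD.const_mul (2 * a)⁻¹).add (integrable_const (a / 2))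
    have h8 := integral_mono hX.pos_part (hX.add hI) hpt
    have e1 : ∫ η, (X μ s η 0 n y + ((2 * a)⁻¹ * (X μ s η 0 n y - e μ s n y) ^ 2 + a / 2)) ∂(law μ) =
        e μ s n y + ((2 * a)⁻¹ * ∫ η, (X μ s η 0 n y - e μ s n y) ^ 2 ∂(law μ) + a / 2) := by
      rw [integral_add hX hI, integral_add (hD.const_mul (2 * a)⁻¹) (integrable_const (a / 2)),
        integral_const_mul, integral_const]
      simp [e]
    rw [← e1]
    exact h8
  have h9 : (2 * a)⁻¹ * ∫ η, (X μ s η 0 n y - e μ s n y) ^ 2 ∂(law μ) ≤ C / 2 * a := by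
    have h10 : ∫ η, (X μ s η 0 n y - e μ s n y) ^ 2 ∂(law μ) ≤ C * (a * a) := by
      rw [haa]
      exact hC s n y h0 h1
    calc (2 * a)⁻¹ * ∫ η, (X μ s η 0 n y - e μ s n y) ^ 2 ∂(law μ) ≤ (2 * a)⁻¹ * (C * (a * a)) :=
          mul_le_mul_of_nonneg_left h10 (by positivity)
      _ = C / 2 * a := by field_simp
  rw [← ha]
  linarith

/-- **The units are at most `C n ^ (4 / 5)`, uniformly for all tilts.** -/
theorem EE_pow85 (hμ : EM μ) : ∃ C : ℝ, 0 ≤ C ∧ ∀ (s : ℝ) (n : ℕ), 1 ≤ n → EE μ s n ≤ C * (n : ℝ) ^ (4 / 5 : ℝ) := by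
  obtain ⟨C1, hC1, h1⟩ := exists_cheap85 (μ := μ) hμ
  obtain ⟨C2, hC2, h2⟩ := ep_le_e85 (μ := μ) hμ
  refine ⟨C1 + C2 + 1, by positivity, fun s n hn => EE_le fun m hm => ?_⟩
  have hn1 : (1 : ℝ) ≤ n := by exact_mod_cast hn
  have hp1 : (1 : ℝ) ≤ (n : ℝ) ^ (4 / 5 : ℝ) := Real.one_le_rpow hn1 (by norm_num)
  rcases Nat.eq_zero_or_pos m with rfl | hm0
  · rw [es_zero]
    nlinarith
  · obtain ⟨y, hy0, hy1, hy⟩ := h1 s m hm0
    have h3 := h2 s m y hm0 hy0 hy1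
    have h4 := es_le (μ := μ) (s := s) hy0 hy1
    have hm1 : (1 : ℝ) ≤ m := by exact_mod_cast hm0
    have hmn : (m : ℝ) ≤ n := by exact_mod_cast hm
    have h5 : (m : ℝ) ^ (4 / 5 : ℝ) ≤ (n : ℝ) ^ (4 / 5 : ℝ) :=
      Real.rpow_le_rpow (by linarith) hmn (by norm_num)
    have h6 : Real.sqrt m ≤ (n : ℝ) ^ (4 / 5 : ℝ) := by
      refine le_trans ?_ h5
      rw [Real.sqrt_eq_rpow]
      exact Real.rpow_le_rpow_of_exponent_le hm1 (by norm_num)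
    have h7 := mul_le_mul_of_nonneg_left h5 hC1
    have h8 := mul_le_mul_of_nonneg_left h6 hC2
    nlinarith

/-- The units are `o(n)`, uniformly for all tilts. -/
theorem rate85 (hμ : EM μ) (A : Set ℝ) : Rate μ A := by
  intro ε hε
  obtain ⟨C, hC, h⟩ := EE_pow85 (μ := μ) hμ
  have h4 : Tendsto (fun n : ℕ => (n : ℝ) ^ (-(1 / 5) : ℝ)) atTop (𝓝 0) :=
    (tendsto_rpow_neg_atTop (by norm_num)).comp tendsto_natCast_atTop_atTop
  have h5 := (h4.const_mul C).eventually (eventually_lt_nhds (show C * 0 < ε by rw [mul_zero]; exact hε))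
  obtain ⟨n0, hn0⟩ := eventually_atTop.1 h5
  refine ⟨max n0 1, fun s _ n hn => (h s n ((le_max_right _ _).trans hn)).trans ?_⟩
  have h6 := hn0 n ((le_max_left _ _).trans hn)
  have hn1 : 1 ≤ n := (le_max_right _ _).trans hn
  have hnp : (0 : ℝ) < n := by exact_mod_cast hn1
  have h8 : (n : ℝ) ^ (4 / 5 : ℝ) = (n : ℝ) ^ (-(1 / 5) : ℝ) * n := by
    rw [← Real.rpow_add_one hnp.ne']
    norm_num
  rw [h8, ← mul_assoc]
  exact mul_le_mul_of_nonneg_right h6.le hnp.le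

/-- **(H6)** The units are `o(n)`, uniformly in the tilt. -/
theorem Dirs.rate {H δ : ℝ} {A : Set ℝ} (hD : Dirs μ H δ A) : Rate μ A := rate85 hD.em A

end

end Pool.Agent.W_7d29a1_H
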