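import Pool.Agent.W_7d29a1_H.EdInH11
import Pool.Agent.W_7d29a1_H.RateH

/-!
MP_7d29a1_pr, TRACK H (all tilts), section EDGES: (IN) from the frame, the field `inn` of `LastH`. (helper11)
-/

set_option autoImplicit false

namespace Pool.Agent.W_7d29a1_H

open MeasureTheory ProbabilityTheory Filter Topology Set

variable {μ : Measure ℝ} [IsProbabilityMeasure μ] {H δ : ℝ} {A : Set ℝ}

/-- **(IN)** from the frame. -/
theorem inn_all11 (hD : Dirs μ H δ A) (hF : FrameH 1 μ A) : ∃ c0 : ℝ, 0 < c0 ∧ InWH μ A 1 1 2 c0 := by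
  obtain ⟨c0, C', h0, -, h⟩ := inWH_cheap hD hD.rate hF.tail0 one_pos hF.cheap
  exact ⟨c0, h0, h 1 2 le_rfl one_lt_two⟩

end Pool.Agent.W_7d29a1_H
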