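import Pool.Agent.W_7d29a1_H.MainB92
import Pool.Agent.W_7d29a1_H.InnAll11
import Pool.Agent.W_7d29a1_H.FrAt30
import Pool.Agent.W_7d29a1_H.TrAll61
import Pool.Agent.W_7d29a1_H.EL67L

/-!
MP_7d29a1_pr, TRACK H (all tilts), parts 1 and 2, closed: for every law with exponential moments which is not degenerate, and every
bounded interval of tilts, the frame, the closing of the cone, the halving, the lower bound of power type, (BALANCE), (DOUBLING), the
comparison of the two sides and superlinearity, with constants which do not depend on the tilt.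
-/

set_option autoImplicit false

namespace Pool.Agent.W_7d29a1_H

open MeasureTheory ProbabilityTheory Filter Topology Set
open Pool.Agent.W_7d29a1_F Pool.Agent.W_7d29a1_h4g
open Pool.Agent.W_7d29a1_h47 (EM Nondeg)

/-- The three last statements. -/
theorem last_all (μ : Measure ℝ) [IsProbabilityMeasure μ] : LastH μ where
  frame _ _ _ hD := frame30 hD (travH_all hD hD.rate hD.grow) hD.rate hD.logg
  inn _ _ _ hD hF := inn_all11 hD hF
  el _ _ _ hD hF := EL.elH_all hD hD.rate hD.grow hD.logg one_pos hF.cheap

/-- The sections. -/
theorem sec_all (μ : Measure ℝ) [IsProbabilityMeasure μ] : SecH μ := (last_all μ).sec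

/-- **TRACK H**, parts 1 and 2, without hypotheses. -/
theorem out_all {μ : Measure ℝ} [IsProbabilityMeasure μ] (hμ : EM μ) (hnd : Nondeg μ) (H : ℝ) : OutH μ H :=
  (last_all μ).out hμ hnd H

end Pool.Agent.W_7d29a1_H
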