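import Pool.Agent.W_7d29a1_H.LamH

/-!
MP_7d29a1_pr, TRACK H (all tilts), (H1): the rate function near `0` is the true one (`J_at`, `J_true`), the rate functions of
neighbouring tilts (`J_tilt`, `Dirs.J_tilt`), the slopes near `sl μ s` are slopes of neighbouring tilts (`exists_tilt`). (helper87)
-/

set_option autoImplicit false

namespace Pool.Agent.W_7d29a1_H

open MeasureTheory ProbabilityTheory Filter Topology Set
open Pool.Agent.W_7d29a1_F Pool.Agent.W_7d29a1_h4g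
open Pool.Agent.W_7d29a1_h47 (EM Nondeg)

noncomputable section

variable {μ : Measure ℝ} [IsProbabilityMeasure μ]

/-- **The slopes near `sl μ s` are the slopes of the tilts near `s`**, uniformly for `|s| ≤ H`. -/
theorem exists_tilt (hμ : EM μ) (hnd : Nondeg μ) (H : ℝ) {κ : ℝ} (hκ : 0 < κ) : ∃ ρ : ℝ, 0 < ρ ∧ ∀ s : ℝ, |s| ≤ H →
    ∀ x : ℝ, |x| ≤ ρ → ∃ r : ℝ, |r| ≤ κ ∧ sl μ (s + r) = sl μ s + x := by
  have hc := sl_cont hμ hnd
  have hm := sl_strictMono hμ hnd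
  obtain ⟨f, hf⟩ : ∃ f : ℝ → ℝ, f = fun s => min (sl μ (s + κ) - sl μ s) (sl μ s - sl μ (s - κ)) := ⟨_, rfl⟩
  have hfc : Continuous f := by
    rw [hf]
    exact ((hc.comp (continuous_id.add continuous_const)).sub hc).min
      (hc.sub (hc.comp (continuous_id.sub continuous_const)))
  obtain ⟨s0, -, hmin⟩ := (isCompact_Icc (a := -|H|) (b := |H|)).exists_isMinOn
    ⟨0, by simp⟩ hfc.continuousOn
  refine ⟨f s0, ?_, fun s hs x hx => ?_⟩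
  · rw [hf]
    exact lt_min (sub_pos.2 (hm (by linarith))) (sub_pos.2 (hm (by linarith)))
  · have h1 : f s0 ≤ f s := hmin (mem_Icc.2 (abs_le.1 (hs.trans (le_abs_self H))))
    have h2 : f s ≤ sl μ (s + κ) - sl μ s := by rw [hf]; exact min_le_left _ _
    have h3 : f s ≤ sl μ s - sl μ (s - κ) := by rw [hf]; exact min_le_right _ _
    have h4 := abs_le.1 hx
    obtain ⟨t, ht, hts⟩ := intermediate_value_Icc (show s - κ ≤ s + κ by linarith) hc.continuousOn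
      (show sl μ s + x ∈ Icc (sl μ (s - κ)) (sl μ (s + κ)) from ⟨by linarith, by linarith⟩)
    refine ⟨t - s, abs_le.2 ⟨by linarith [ht.1], by linarith [ht.2]⟩, ?_⟩
    rw [add_sub_cancel]
    exact hts

/-- At the slope of the tilt `s + r` the force `r` is the best one, among all forces. -/
theorem arg_tilt (hμ : EM μ) (hnd : Nondeg μ) (s : ℝ) {r x : ℝ} (h : sl μ (s + r) = sl μ s + x) (r' : ℝ) :
    r' * x - ex μ s r' ≤ r * x - ex μ s r := by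
  have h1 := lam_tangent hμ hnd (s + r) (s + r')
  rw [h] at h1
  unfold ex
  have h2 : (sl μ s + x) * (s + r' - (s + r)) = (sl μ s + x) * (r' - r) := by ring
  rw [h2] at h1
  linarith

/-- **The value of the rate function at the slope of the tilt `s + r`**, `|r| ≤ 1`. -/
theorem J_at (hμ : EM μ) (hnd : Nondeg μ) (s : ℝ) {r x : ℝ} (hr : |r| ≤ 1) (h : sl μ (s + r) = sl μ s + x) :
    J μ s x = r * x - ex μ s r :=
  le_antisymm (J_le fun r' _ => arg_tilt hμ hnd s h r') (le_J hμ hnd s x hr)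

theorem J_at' (hμ : EM μ) (hnd : Nondeg μ) (s : ℝ) {r : ℝ} (hr : |r| ≤ 1) :
    J μ s (sl μ (s + r) - sl μ s) = r * (sl μ (s + r) - sl μ s) - ex μ s r :=
  J_at hμ hnd s hr (by ring)

/-- **Near `0` the rate function is the true one**: the supremum over `|r| ≤ 1` is the supremum over all forces. -/
theorem J_true (hμ : EM μ) (hnd : Nondeg μ) (H : ℝ) : ∃ ρ : ℝ, 0 < ρ ∧ ∀ s : ℝ, |s| ≤ H → ∀ x : ℝ, |x| ≤ ρ → ∀ r : ℝ,
    r * x - ex μ s r ≤ J μ s x := by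
  obtain ⟨ρ, h1, h2⟩ := exists_tilt hμ hnd H one_pos
  refine ⟨ρ, h1, fun s hs x hx r => ?_⟩
  obtain ⟨r0, h3, h4⟩ := h2 s hs x hx
  rw [J_at hμ hnd s h3 h4]
  exact arg_tilt hμ hnd s h4 r

/-- The rate functions of neighbouring tilts. -/
theorem J_tilt (hμ : EM μ) (hnd : Nondeg μ) (H : ℝ) : ∃ ρ : ℝ, 0 < ρ ∧ ρ ≤ 1 ∧ ∀ s : ℝ, |s| ≤ H → ∀ σ : ℝ, |σ| ≤ ρ →
    ∀ u : ℝ, |u| ≤ ρ →
      J μ (s + σ) u = J μ s (sl μ (s + σ) - sl μ s + u) - J μ s (sl μ (s + σ) - sl μ s) - σ * u := by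
  obtain ⟨ρ, h1, h2⟩ := exists_tilt hμ hnd (H + 1) (show (0 : ℝ) < 1 / 2 by norm_num)
  refine ⟨min ρ (1 / 2), lt_min h1 (by norm_num), (min_le_right _ _).trans (by norm_num), fun s hs σ hσ u hu => ?_⟩
  have hσ2 : |σ| ≤ 1 / 2 := hσ.trans (min_le_right _ _)
  have ht : |s + σ| ≤ H + 1 := (abs_add_le _ _).trans (by linarith)
  obtain ⟨q, h3, h4⟩ := h2 (s + σ) ht u (hu.trans (min_le_left _ _))
  have h5 := J_at hμ hnd (s + σ) (h3.trans (by norm_num)) h4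
  have h6 : sl μ (s + (σ + q)) = sl μ s + (sl μ (s + σ) - sl μ s + u) := by
    rw [← add_assoc, h4]
    ring
  have h7 := J_at hμ hnd s (r := σ + q) ((abs_add_le _ _).trans (by linarith)) h6
  have h8 := J_at' hμ hnd s (r := σ) (hσ2.trans (by norm_num))
  rw [h5, h7, h8]
  unfold ex
  rw [← add_assoc]
  ring

variable {H δ : ℝ} {A : Set ℝ}

/-- **The rate functions of neighbouring tilts of the family.** -/
theorem Dirs.J_tilt (hD : Dirs μ H δ A) : ∃ ρ : ℝ, 0 < ρ ∧ ρ ≤ 1 ∧ ∀ s ∈ A, ∀ σ : ℝ, s + σ ∈ A → |σ| ≤ ρ →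
    ∀ u : ℝ, |u| ≤ ρ →
      J μ (s + σ) u = J μ s (sl μ (s + σ) - sl μ s + u) - J μ s (sl μ (s + σ) - sl μ s) - σ * u := by
  obtain ⟨ρ, h1, h2, h3⟩ := Pool.Agent.W_7d29a1_H.J_tilt hD.em hD.nd H
  exact ⟨ρ, h1, h2, fun s hs σ _ hσ u hu => h3 s (hD.bd s hs) σ hσ u hu⟩

theorem Dirs.J_true (hD : Dirs μ H δ A) : ∃ ρ : ℝ, 0 < ρ ∧ ∀ s ∈ A, ∀ x : ℝ, |x| ≤ ρ → ∀ r : ℝ,
    r * x - ex μ s r ≤ J μ s x := by
  obtain ⟨ρ, h1, h2⟩ := Pool.Agent.W_7d29a1_H.J_true hD.em hD.nd H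
  exact ⟨ρ, h1, fun s hs => h2 s (hD.bd s hs)⟩

theorem Dirs.exists_tilt (hD : Dirs μ H δ A) {κ : ℝ} (hκ : 0 < κ) : ∃ ρ : ℝ, 0 < ρ ∧ ∀ s ∈ A, ∀ x : ℝ, |x| ≤ ρ →
    ∃ r : ℝ, |r| ≤ κ ∧ sl μ (s + r) = sl μ s + x := by
  obtain ⟨ρ, h1, h2⟩ := Pool.Agent.W_7d29a1_H.exists_tilt hD.em hD.nd H hκ
  exact ⟨ρ, h1, fun s hs => h2 s (hD.bd s hs)⟩

/-- The slopes of neighbouring tilts are near (uniform continuity of the slope). -/
theorem sl_near (hμ : EM μ) (hnd : Nondeg μ) (H : ℝ) {ε : ℝ} (hε : 0 < ε) : ∃ ρ : ℝ, 0 < ρ ∧ ρ ≤ 1 ∧ ∀ s : ℝ, |s| ≤ H →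
    ∀ σ : ℝ, |σ| ≤ ρ → |sl μ (s + σ) - sl μ s| ≤ ε := by
  have hU := (isCompact_Icc (a := -(H + 1)) (b := H + 1)).uniformContinuousOn_of_continuous (sl_cont hμ hnd).continuousOn
  rw [Metric.uniformContinuousOn_iff] at hU
  obtain ⟨d, hd, h1⟩ := hU ε hε
  refine ⟨min (d / 2) 1, lt_min (by positivity) one_pos, min_le_right _ _, fun s hs σ hσ => ?_⟩
  have hs1 := abs_le.1 hs
  have hσ1 := abs_le.1 (hσ.trans (min_le_right _ _))
  have hσ2 := hσ.trans (min_le_left _ _)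
  have h3 := h1 (s + σ) ⟨by linarith [hs1.1, hσ1.1], by linarith [hs1.2, hσ1.2]⟩ s ⟨by linarith [hs1.1], by linarith [hs1.2]⟩
    (by rw [Real.dist_eq, show s + σ - s = σ by ring]; linarith)
  rw [Real.dist_eq] at h3
  exact h3.le

end

end Pool.Agent.W_7d29a1_H
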