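import Pool.Agent.W_7d29a1_H.SupH14
import Pool.Agent.W_7d29a1_H.WidthH

/-!
MP_7d29a1_pr, TRACK H (all tilts), part 3, (ST2): cheap displacements on both sides of the straight one, at every scale. (helper14)

The tilt `t` whose slope is `sl s ± u0`, `u0` = width of the scale `m = 2 ^ (x - k)`: its cheapest displacement of time `2 ^ x` is at
the distance between `u0 n / 2` and `3 u0 n / 2` from the straight displacement of `s`, and is cheap for `s`.
-/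

set_option autoImplicit false

namespace Pool.Agent.W_7d29a1_H

open MeasureTheory ProbabilityTheory Filter Topology Set
open Pool.Agent.W_7d29a1_F Pool.Agent.W_7d29a1_h4g
open Pool.Agent.W_1b8d5d_p (wR wL Rf)

variable {μ : Measure ℝ} [IsProbabilityMeasure μ] {H δ : ℝ} {A A0 : Set ℝ}

/-- The rate function at the distance of the width of the scale `m`. -/
theorem J_u0_14 (hD : Dirs μ H δ A) {s : ℝ} (hs : s ∈ A) {D d : ℝ} (hD1 : 1 ≤ D)
    (hS : ∀ x, |x| ≤ d → J μ s (2 * x) ≤ D * J μ s x ∧ J μ s (-x) ≤ D * J μ s x) {m : ℕ} (hm : 1 ≤ m)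
    (hv : vA 1 μ s m ≤ d) {g : ℝ} (hg : g = 1 ∨ g = -1) :
    EE μ s m ≤ m * J μ s (g * vA 1 μ s m) ∧ m * J μ s (g * vA 1 μ s m) ≤ D ^ 2 * EE μ s m := by
  have hJ := hD.rf hs
  have hm0 : (0 : ℝ) < m := by exact_mod_cast hm
  have r0 := hD.vr_nonneg hs (a := 1) zero_le_one m
  have l0 := hD.vl_nonneg hs (a := 1) zero_le_one m
  have er := hD.J_vr hs (a := 1) zero_le_one hm
  have el := hD.J_vl hs (a := 1) zero_le_one hm
  rw [one_mul] at er el
  obtain ⟨r, hr⟩ : ∃ r, r = vr 1 μ s m := ⟨_, rfl⟩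
  obtain ⟨l, hl⟩ : ∃ l, l = vl 1 μ s m := ⟨_, rfl⟩
  have hu : vA 1 μ s m = r + l := by rw [hr, hl]; rfl
  rw [hu] at hv ⊢
  rw [← hr] at r0 er
  rw [← hl] at l0 el
  have hE := EE_pos (μ := μ) (s := s) m
  have m1 : J μ s r ≤ J μ s (r + l) := hJ.mono r0 (by linarith)
  have m2 : J μ s (-l) ≤ J μ s (-(r + l)) := hJ.neg.mono l0 (by linarith)
  have k1 := mul_le_mul_of_nonneg_left m1 hm0.le
  have k2 := mul_le_mul_of_nonneg_left m2 hm0.le
  have hDD : D ≤ D ^ 2 := by nlinarith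
  have hD0 : 0 ≤ D := by linarith
  -- the upper bounds
  have hup : m * J μ s (r + l) ≤ D ^ 2 * EE μ s m ∧ m * J μ s (-(r + l)) ≤ D ^ 2 * EE μ s m := by
    rcases le_total l r with h | h
    · have a1 : J μ s (r + l) ≤ J μ s (2 * r) := hJ.mono (by linarith) (by linarith)
      have a2 := (hS r (by rw [abs_of_nonneg r0]; linarith)).1
      have a3 := (hS (r + l) (by rw [abs_of_nonneg (by linarith)]; exact hv)).2
      have b1 : m * J μ s (r + l) ≤ D * EE μ s m := by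
        rw [← er]
        calc m * J μ s (r + l) ≤ m * (D * J μ s r) := mul_le_mul_of_nonneg_left (a1.trans a2) hm0.le
          _ = _ := by ring
      refine ⟨b1.trans (mul_le_mul_of_nonneg_right hDD hE.le), ?_⟩
      calc m * J μ s (-(r + l)) ≤ m * (D * J μ s (r + l)) := mul_le_mul_of_nonneg_left a3 hm0.le
        _ = D * (m * J μ s (r + l)) := by ring
        _ ≤ D * (D * EE μ s m) := mul_le_mul_of_nonneg_left b1 hD0
        _ = _ := by ring
    · have a1 : J μ s (-(r + l)) ≤ J μ s (-(2 * l)) := hJ.neg.mono (by linarith) (by linarith)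
      have a2 := (hS (-l) (by rw [abs_neg, abs_of_nonneg l0]; linarith)).1
      have e2 : 2 * -l = -(2 * l) := by ring
      rw [e2] at a2
      have a3 := (hS (-(r + l)) (by rw [abs_neg, abs_of_nonneg (by linarith)]; exact hv)).2
      rw [neg_neg] at a3
      have b1 : m * J μ s (-(r + l)) ≤ D * EE μ s m := by
        rw [← el]
        calc m * J μ s (-(r + l)) ≤ m * (D * J μ s (-l)) := mul_le_mul_of_nonneg_left (a1.trans a2) hm0.le
          _ = _ := by ring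
      refine ⟨?_, b1.trans (mul_le_mul_of_nonneg_right hDD hE.le)⟩
      calc m * J μ s (r + l) ≤ m * (D * J μ s (-(r + l))) := mul_le_mul_of_nonneg_left a3 hm0.le
        _ = D * (m * J μ s (-(r + l))) := by ring
        _ ≤ D * (D * EE μ s m) := mul_le_mul_of_nonneg_left b1 hD0
        _ = _ := by ring
  rcases hg with rfl | rfl
  · rw [one_mul]
    exact ⟨by linarith, hup.1⟩
  · rw [neg_one_mul]
    exact ⟨by linarith, hup.2⟩

/-- The unit of the tilt `s + r` at the scale `m`, `q = r g u0`. -/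
theorem unit_tilt14 (hD : Dirs μ H δ A) {s r : ℝ} (hs : s ∈ A) {m : ℕ} {g B : ℝ}
    (hgr : r * (g * vA 1 μ s m) = |r| * vA 1 μ s m) (hx : sl μ (s + r) = sl μ s + g * vA 1 μ s m)
    (hq : m * (|r| * vA 1 μ s m) ≤ B) : EE μ (s + r) m ≤ EE μ s m + 2 * B := by
  have hv0 : 0 ≤ vA 1 μ s m := add_nonneg (hD.vr_nonneg hs zero_le_one m) (hD.vl_nonneg hs zero_le_one m)
  have hB0 : 0 ≤ B := le_trans (by positivity) hq
  refine EE_le fun j hj => ?_
  obtain ⟨z0, z1⟩ := zs_mem (μ := μ) (s := s) j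
  have h1 : es μ (s + r) j ≤ ep μ (s + r) j (zs μ s j) := es_le z0 z1
  have h2 : es μ s j + 1 ≤ EE μ s m := le_EE hj
  rcases Nat.eq_zero_or_pos j with hj0 | hj0
  · subst hj0
    have e1 := es_zero (μ := μ) (s := s + r)
    have e2 := es_zero (μ := μ) (s := s)
    rw [e1]
    rw [e2] at h2
    linarith
  -- the distance of the reference
  have h3 : e μ s j (zs μ s j) ≤ 1 * EE μ s j := by
    have a1 := e_zs_le hD.em s j
    have a2 : es μ s j + 1 ≤ EE μ s j := le_EE le_rfl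
    linarith
  have h4 := hD.near_of_e hs (a := 1) zero_le_one hj0 z0 z1 h3
  have h5 := hD.w_mono hs (a := 1) zero_le_one hj0 hj
  have h6 : |(zs μ s j : ℝ) - sl μ s * j| ≤ m * vA 1 μ s m := h4.trans h5
  -- the change of the tilt
  have h7 : (s - (s + r)) * (zs μ s j : ℝ) - (lam μ s - lam μ (s + r)) * j ≤ 2 * B := by
    have a1 : (s - (s + r)) * (zs μ s j : ℝ) - (lam μ s - lam μ (s + r)) * j =
        -(r * ((zs μ s j : ℝ) - sl μ s * j)) + j * ex μ s r := by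
      unfold ex
      ring
    have a2 : -(r * ((zs μ s j : ℝ) - sl μ s * j)) ≤ |r| * (m * vA 1 μ s m) := by
      calc -(r * ((zs μ s j : ℝ) - sl μ s * j)) ≤ |r * ((zs μ s j : ℝ) - sl μ s * j)| := neg_le_abs _
        _ = |r| * |(zs μ s j : ℝ) - sl μ s * j| := abs_mul _ _
        _ ≤ _ := mul_le_mul_of_nonneg_left h6 (abs_nonneg _)
    have a3 : ex μ s r ≤ |r| * vA 1 μ s m := by
      have b1 := ex_le_sl hD.em hD.nd s r
      rw [hx] at b1
      have b2 : r * (sl μ s + g * vA 1 μ s m - sl μ s) = |r| * vA 1 μ s m := by rw [← hgr]; ring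
      linarith
    have a4 : (j : ℝ) * ex μ s r ≤ m * (|r| * vA 1 μ s m) :=
      mul_le_mul (by exact_mod_cast hj) a3 (ex_nonneg hD.em hD.nd s r) (Nat.cast_nonneg _)
    have a5 : |r| * (m * vA 1 μ s m) = m * (|r| * vA 1 μ s m) := by ring
    rw [a1]
    linarith
  have h8 := ep_cmp35 hD.em (s + r) s z0 z1 (D := 2 * B) (by linarith) h7
  rw [ep_zs] at h8
  linarith

/-- One scale. -/
theorem two_one14 (hD : Dirs μ H δ A) {ρ : ℝ} (hJ : JTilt35 μ A ρ) {D d : ℝ} (hD1 : 1 ≤ D)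
    (hS : ∀ s ∈ A, ∀ x, |x| ≤ d → J μ s (2 * x) ≤ D * J μ s x ∧ J μ s (-x) ≤ D * J μ s x) {θ : ℝ} (hθ1 : θ < 1)
    {s : ℝ} (hs : s ∈ A) (hSup : ∀ x, |x| ≤ d → 2 * J μ s (x / 2) ≤ θ * J μ s x) {r : ℝ} (hrA : s + r ∈ A) (hrρ : |r| ≤ ρ)
    {m n k : ℕ} (hm : 1 ≤ m) (hn : n = 2 ^ k * m) {g : ℝ} (hg : g = 1 ∨ g = -1)
    (hx : sl μ (s + r) = sl μ s + g * vA 1 μ s m) (hvd : vA 1 μ s m ≤ d) (hvρ : vA 1 μ s m ≤ ρ)
    (hv2 : 2 * vA 1 μ s m ≤ d) {P : ℝ} (hP : EE μ (s + r) n ≤ P * EE μ (s + r) m) (hP0 : 0 ≤ P)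
    (hk : P * (1 + 2 * D ^ 3) * D ^ 2 < (1 - θ) * 2 ^ k) :
    ∃ y : ℤ, 0 ≤ y ∧ y ≤ n ∧ 1 / 2 * (n * vA 1 μ s n) ≤ g * (y - sl μ s * n) ∧
      g * (y - sl μ s * n) ≤ (3 / 2 * 2 ^ k) * (n * vA 1 μ s n) ∧
      e μ s n y ≤ (P * (1 + 2 * D ^ 3) + 3 / 2 * 2 ^ k * D ^ 3) * EE μ s n := by
  have hJs := hD.rf hs
  have hJt := hD.rf hrA
  have hm0 : (0 : ℝ) < m := by exact_mod_cast hm
  have hn1 : 1 ≤ n := by rw [hn]; exact Nat.mul_pos (by positivity) hm
  have hn0 : (0 : ℝ) < n := by exact_mod_cast hn1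
  have hmn : m ≤ n := by
    rw [hn]
    exact Nat.le_mul_of_pos_left m (by positivity)
  have hnc : (n : ℝ) = 2 ^ k * m := by rw [hn]; push_cast; ring
  have hgg : g * g = 1 := by rcases hg with rfl | rfl <;> norm_num
  have hga : |g| = 1 := by rcases hg with rfl | rfl <;> norm_num
  have hv0 : 0 ≤ vA 1 μ s m := add_nonneg (hD.vr_nonneg hs zero_le_one m) (hD.vl_nonneg hs zero_le_one m)
  obtain ⟨hJ1, hJ2⟩ := J_u0_14 hD hs hD1 (hS s hs) hm hvd hg
  obtain ⟨hρ0, -, -⟩ := id hJ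
  have hmono := hD.w_mono hs (a := 1) zero_le_one hm hmn
  have hmul : vA 1 μ s n ≤ vA 1 μ s m := by rw [hn]; exact hD.vA_mul_le hs zero_le_one hm (Nat.one_le_two_pow)
  obtain ⟨u, hu⟩ : ∃ u, u = vA 1 μ s m := ⟨_, rfl⟩
  have hunit := fun B : ℝ => unit_tilt14 hD (r := r) hs (m := m) (g := g) (B := B)
  rw [← hu] at hx hvd hvρ hv2 hv0 hJ1 hJ2 hmono hmul hunit
  obtain ⟨E, hE⟩ : ∃ E, E = EE μ s m := ⟨_, rfl⟩
  rw [← hE] at hJ1 hJ2 hunit
  have hE0 : 0 < E := by rw [hE]; exact EE_pos _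
  have hgu : |g * u| = u := by rw [abs_mul, hga, one_mul, abs_of_nonneg hv0]
  have nnt : ∀ v, 0 ≤ J μ (s + r) v := hJt.nn
  have nns : ∀ v, 0 ≤ J μ s v := hJs.nn
  -- the identities
  have i1 := hJ.at hs hrA hrρ hx (u := g * u) (by rw [hgu]; exact hvρ)
  have i2 := hJ.at hs hrA hrρ hx (u := -(g * u)) (by rw [abs_neg, hgu]; exact hvρ)
  have i3 := hJ.at hs hrA hrρ hx (u := -(g * u / 2)) (by
    rw [abs_neg, abs_div, hgu, abs_of_pos (by norm_num : (0 : ℝ) < 2)]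
    linarith)
  have z1 : g * u + g * u = 2 * (g * u) := by ring
  have z2 : g * u + -(g * u) = 0 := by ring
  have z3 : g * u + -(g * u / 2) = g * u / 2 := by ring
  rw [z1] at i1
  rw [z2, J_zero hD.em hD.nd] at i2
  rw [z3] at i3
  obtain ⟨q, hq⟩ : ∃ q, q = r * (g * u) := ⟨_, rfl⟩
  have q2 : r * -(g * u) = -q := by rw [hq]; ring
  have q3 : r * -(g * u / 2) = -(q / 2) := by rw [hq]; ring
  rw [← hq] at i1
  rw [q2] at i2
  rw [q3] at i3
  have hD0 : 0 ≤ D := by linarith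
  -- `q ≤ J (2 g u)`
  have k1 : m * q ≤ D ^ 3 * E := by
    have a1 := (hS s hs (g * u) (by rw [hgu]; exact hvd)).1
    have a2 := nnt (g * u)
    have a3 := nns (g * u)
    have a4 : q ≤ D * J μ s (g * u) := by linarith
    calc m * q ≤ m * (D * J μ s (g * u)) := mul_le_mul_of_nonneg_left a4 hm0.le
      _ = D * (m * J μ s (g * u)) := by ring
      _ ≤ D * (D ^ 2 * E) := mul_le_mul_of_nonneg_left hJ2 hD0
      _ = _ := by ring
  -- `q ≥ (2 - θ) J (g u)`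
  have k2 : (2 - θ) * J μ s (g * u) ≤ q := by
    have a1 := hSup (g * u) (by rw [hgu]; exact hvd)
    have a2 := nnt (-(g * u / 2))
    have a3 : (2 - θ) * J μ s (g * u) = 2 * J μ s (g * u) - θ * J μ s (g * u) := by ring
    rw [a3]
    linarith
  have hq0 : 0 ≤ q := le_trans (mul_nonneg (by linarith) (nns _)) k2
  have k3 : (1 - θ) * J μ s (g * u) ≤ J μ (s + r) (-(g * u)) := by
    have a3 : (1 - θ) * J μ s (g * u) = (2 - θ) * J μ s (g * u) - J μ s (g * u) := by ring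
    rw [a3]
    linarith
  have k4 : (1 - θ) * E ≤ m * J μ (s + r) (-(g * u)) := by
    calc (1 - θ) * E ≤ (1 - θ) * (m * J μ s (g * u)) := mul_le_mul_of_nonneg_left hJ1 (by linarith)
      _ = m * ((1 - θ) * J μ s (g * u)) := by ring
      _ ≤ _ := mul_le_mul_of_nonneg_left k3 hm0.le
  -- both halves at the tilt
  have k5 : (1 - θ) * E ≤ D ^ 2 * (m * J μ (s + r) (-(g * u / 2))) := by
    have a1 := (hS (s + r) hrA (-(g * u / 2)) (by
      rw [abs_neg, abs_div, hgu, abs_of_pos (by norm_num : (0 : ℝ) < 2)]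
      linarith)).1
    have e1 : 2 * -(g * u / 2) = -(g * u) := by ring
    rw [e1] at a1
    have a2 := nnt (-(g * u / 2))
    have a3 : D * J μ (s + r) (-(g * u / 2)) ≤ D ^ 2 * J μ (s + r) (-(g * u / 2)) :=
      mul_le_mul_of_nonneg_right (by nlinarith) a2
    calc (1 - θ) * E ≤ m * J μ (s + r) (-(g * u)) := k4
      _ ≤ m * (D ^ 2 * J μ (s + r) (-(g * u / 2))) := mul_le_mul_of_nonneg_left (a1.trans a3) hm0.le
      _ = _ := by ring
  have k6 : (1 - θ) * E ≤ D ^ 2 * (m * J μ (s + r) (g * u / 2)) := by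
    have a1 := (hS (s + r) hrA (g * u / 2) (by
      rw [abs_div, hgu, abs_of_pos (by norm_num : (0 : ℝ) < 2)]
      linarith)).1
    have e1 : 2 * (g * u / 2) = g * u := by ring
    rw [e1] at a1
    have a2 := (hS (s + r) hrA (g * u) (by rw [hgu]; exact hvd)).2
    calc (1 - θ) * E ≤ m * J μ (s + r) (-(g * u)) := k4
      _ ≤ m * (D * J μ (s + r) (g * u)) := mul_le_mul_of_nonneg_left a2 hm0.le
      _ ≤ m * (D * (D * J μ (s + r) (g * u / 2))) :=
        mul_le_mul_of_nonneg_left (mul_le_mul_of_nonneg_left a1 hD0) hm0.le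
      _ = _ := by ring
  have k7 : (1 - θ) * E ≤ D ^ 2 * (m * J μ (s + r) (u / 2)) ∧ (1 - θ) * E ≤ D ^ 2 * (m * J μ (s + r) (-(u / 2))) := by
    rcases hg with rfl | rfl
    · rw [one_mul] at k5 k6
      exact ⟨k6, k5⟩
    · have e1 : -1 * u / 2 = -(u / 2) := by ring
      rw [e1] at k5 k6
      rw [neg_neg] at k5
      exact ⟨k5, k6⟩
  -- the unit of the tilt
  have hqa : r * (g * u) = |r| * u := by
    have a1 : 0 ≤ r * (g * u) := by rw [← hq]; exact hq0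
    rw [← abs_of_nonneg a1, abs_mul, hgu]
  have k8 : EE μ (s + r) m ≤ (1 + 2 * D ^ 3) * E := by
    have a1 := hunit (D ^ 3 * E) hqa hx (by rw [← hqa, ← hq]; exact k1)
    linarith
  have k9 : EE μ (s + r) n ≤ P * (1 + 2 * D ^ 3) * E := by
    refine hP.trans ?_
    have := mul_le_mul_of_nonneg_left k8 hP0
    linarith
  have hlt : ∀ v, (1 - θ) * E ≤ D ^ 2 * (m * J μ (s + r) v) → EE μ (s + r) n < n * J μ (s + r) v := by
    intro v hv
    have hDp : (0 : ℝ) < D ^ 2 := by positivity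
    have a1 : D ^ 2 * EE μ (s + r) n ≤ P * (1 + 2 * D ^ 3) * D ^ 2 * E := by
      have := mul_le_mul_of_nonneg_left k9 hDp.le
      linarith
    have a2 : P * (1 + 2 * D ^ 3) * D ^ 2 * E < (1 - θ) * 2 ^ k * E := mul_lt_mul_of_pos_right hk hE0
    have a3 : (1 - θ) * 2 ^ k * E ≤ D ^ 2 * (n * J μ (s + r) v) := by
      rw [hnc]
      have a4 := mul_le_mul_of_nonneg_left hv (show (0 : ℝ) ≤ 2 ^ k by positivity)
      calc (1 - θ) * 2 ^ k * E = 2 ^ k * ((1 - θ) * E) := by ring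
        _ ≤ _ := a4
        _ = _ := by ring
    exact lt_of_mul_lt_mul_left (by linarith : D ^ 2 * EE μ (s + r) n < D ^ 2 * (n * J μ (s + r) v)) hDp.le
  -- the cheapest displacement of the tilt
  obtain ⟨y, hy⟩ : ∃ y, y = xs μ (s + r) n := ⟨_, rfl⟩
  obtain ⟨y0, y1⟩ := xs_mem (μ := μ) (s := s + r) n
  have hye : e μ (s + r) n y ≤ EE μ (s + r) n := by
    rw [hy]
    have a1 := e_xs_le hD.em (s + r) n
    have a2 : es μ (s + r) n + 1 ≤ EE μ (s + r) n := le_EE le_rfl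
    linarith
  rw [← hy] at y0 y1
  have hge := e_ge35 hD.em (s + r) hn1 y0 y1
  obtain ⟨v, hv⟩ : ∃ v, v = (y : ℝ) / n - sl μ (s + r) := ⟨_, rfl⟩
  rw [← hv] at hge
  have hJv : n * J μ (s + r) v ≤ EE μ (s + r) n := hge.trans hye
  have hv1 : v < u / 2 := by
    by_contra hcon
    rw [not_lt] at hcon
    have a1 : J μ (s + r) (u / 2) ≤ J μ (s + r) v := hJt.mono (by linarith) hcon
    have a2 := hlt (u / 2) k7.1
    have a3 := mul_le_mul_of_nonneg_left a1 hn0.le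
    linarith
  have hv3 : -(u / 2) < v := by
    by_contra hcon
    rw [not_lt] at hcon
    have a1 : J μ (s + r) (-(u / 2)) ≤ J μ (s + r) v := by
      have := hJt.neg.mono (x := u / 2) (y := -v) (by linarith) (by linarith)
      simpa using this
    have a2 := hlt (-(u / 2)) k7.2
    have a3 := mul_le_mul_of_nonneg_left a1 hn0.le
    linarith
  have hyv : (y : ℝ) - sl μ s * n = n * (v + g * u) := by
    rw [hv, hx]
    field_simp
    ring
  have hgv : |g * v| ≤ u / 2 := by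
    rw [abs_mul, hga, one_mul, abs_le]
    exact ⟨hv3.le, hv1.le⟩
  have hgy : g * ((y : ℝ) - sl μ s * n) = n * (g * v + u) := by
    rw [hyv]
    calc g * (n * (v + g * u)) = n * (g * v + g * g * u) := by ring
      _ = _ := by rw [hgg, one_mul]
  obtain ⟨b1, b2⟩ := abs_le.1 hgv
  have hEn : E ≤ EE μ s n := by rw [hE]; exact EE_mono hmn
  refine ⟨y, y0, y1, ?_, ?_, ?_⟩
  · rw [hgy]
    have a1 := mul_le_mul_of_nonneg_left hmul hn0.le
    have a2 : (n : ℝ) * (u / 2) ≤ n * (g * v + u) := mul_le_mul_of_nonneg_left (by linarith) hn0.le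
    linarith
  · rw [hgy]
    have a2 : (n : ℝ) * (g * v + u) ≤ n * (3 / 2 * u) := mul_le_mul_of_nonneg_left (by linarith) hn0.le
    have a3 : (n : ℝ) * (3 / 2 * u) = (3 / 2 * 2 ^ k) * (m * u) := by rw [hnc]; ring
    have a4 : (3 / 2 * (2 : ℝ) ^ k) * (m * u) ≤ (3 / 2 * 2 ^ k) * (n * vA 1 μ s n) :=
      mul_le_mul_of_nonneg_left hmono (by positivity)
    linarith
  · have h1 := e_tilt35 hD.em (s + r) s y0 y1
    have h2 : (lam μ s - lam μ (s + r)) * n - (s - (s + r)) * y = r * ((y : ℝ) - sl μ s * n) - n * ex μ s r := by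
      unfold ex
      ring
    have h3 : r * ((y : ℝ) - sl μ s * n) ≤ n * (3 / 2 * q) := by
      have a1 : r * ((y : ℝ) - sl μ s * n) ≤ |r| * (n * (3 / 2 * u)) := by
        calc r * ((y : ℝ) - sl μ s * n) ≤ |r * ((y : ℝ) - sl μ s * n)| := le_abs_self _
          _ = |r| * |(y : ℝ) - sl μ s * n| := abs_mul _ _
          _ ≤ |r| * (n * (3 / 2 * u)) := by
            refine mul_le_mul_of_nonneg_left ?_ (abs_nonneg _)
            rw [hyv, abs_mul, abs_of_pos hn0]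
            refine mul_le_mul_of_nonneg_left ?_ hn0.le
            have c1 := abs_add_le v (g * u)
            rw [hgu] at c1
            have c2 : |v| ≤ u / 2 := abs_le.2 ⟨hv3.le, hv1.le⟩
            linarith
      have a2 : |r| * (n * (3 / 2 * u)) = n * (3 / 2 * q) := by rw [hq, hqa]; ring
      linarith
    have h4 := mul_nonneg hn0.le (ex_nonneg hD.em hD.nd s r)
    have h5 : (n : ℝ) * (3 / 2 * q) ≤ 3 / 2 * 2 ^ k * D ^ 3 * E := by
      rw [hnc]
      have := mul_le_mul_of_nonneg_left k1 (show (0 : ℝ) ≤ 3 / 2 * 2 ^ k by positivity)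
      calc (2 : ℝ) ^ k * m * (3 / 2 * q) = 3 / 2 * 2 ^ k * (m * q) := by ring
        _ ≤ _ := this
        _ = _ := by ring
    have h6 : e μ s n y ≤ (P * (1 + 2 * D ^ 3) + 3 / 2 * 2 ^ k * D ^ 3) * E := by
      have a1 : (P * (1 + 2 * D ^ 3) + 3 / 2 * 2 ^ k * D ^ 3) * E = P * (1 + 2 * D ^ 3) * E + 3 / 2 * 2 ^ k * D ^ 3 * E := by
        ring
      rw [a1, h1, h2]
      linarith
    exact h6.trans (mul_le_mul_of_nonneg_left hEn (by positivity))

/-- **(ST2).** -/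
theorem twoH_of14 (hD : Dirs μ H δ A) {ρ : ℝ} (hJ : JTilt35 μ A ρ) (hA : A0 ⊆ A) {t0 : ℝ} (hF : FamH A0 A t0)
    (hR : Rate μ A) (hC : ConeH 1 μ A) (hS : SymH μ A) : TwoH μ A0 := by
  obtain ⟨θ, d2, hθ0, hθ1, hd2, hSup⟩ := supH_of14 hD hJ hA hF hS
  obtain ⟨D, d1, hD1, hd1, hS⟩ := hS
  obtain ⟨β, C, δc, T, L, x1, -, -, -, -, hhalf, -⟩ := hC
  obtain ⟨ht0, hF⟩ := hF
  obtain ⟨hρ0, hρ1, -⟩ := id hJ
  obtain ⟨δ2, hδ2, hex⟩ := exists_tilt14 hD.em hD.nd H (ρ := min ρ t0) (lt_min hρ0 ht0)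
  -- the number of octaves
  obtain ⟨Q, hQ⟩ : ∃ Q : ℝ, Q = (2 : ℝ) ^ C * (1 + 2 * D ^ 3) * D ^ 2 / (1 - θ) := ⟨_, rfl⟩
  obtain ⟨k', hk'⟩ := pow_unbounded_of_one_lt Q (one_lt_two (α := ℝ))
  obtain ⟨k, hk⟩ : ∃ k : ℕ, k = 2 * k' := ⟨_, rfl⟩
  obtain ⟨P, hP⟩ : ∃ P : ℝ, P = (2 : ℝ) ^ ((k : ℝ) / 2 + C) := ⟨_, rfl⟩
  have hP0 : 0 ≤ P := by rw [hP]; positivity
  have hPe : P = 2 ^ k' * (2 : ℝ) ^ C := by
    rw [hP, Real.rpow_add (by norm_num)]
    congr 1
    rw [hk]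
    push_cast
    rw [mul_div_cancel_left₀ _ (by norm_num : (2 : ℝ) ≠ 0), Real.rpow_natCast]
  have hkk : P * (1 + 2 * D ^ 3) * D ^ 2 < (1 - θ) * 2 ^ k := by
    have h1 : 0 < 1 - θ := by linarith
    have h2 : (2 : ℝ) ^ C * (1 + 2 * D ^ 3) * D ^ 2 < (1 - θ) * 2 ^ k' := by
      rw [hQ, div_lt_iff₀ h1] at hk'
      linarith
    have h3 : (2 : ℝ) ^ k = 2 ^ k' * 2 ^ k' := by rw [hk, two_mul, pow_add]
    rw [hPe, h3]
    have h4 := mul_lt_mul_of_pos_left h2 (show (0 : ℝ) < 2 ^ k' by positivity)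
    calc 2 ^ k' * (2 : ℝ) ^ C * (1 + 2 * D ^ 3) * D ^ 2 = 2 ^ k' * ((2 : ℝ) ^ C * (1 + 2 * D ^ 3) * D ^ 2) := by ring
      _ < _ := h4
      _ = _ := by ring
  -- the widths
  obtain ⟨d, hd⟩ : ∃ d, d = min (min (min d1 d2) ρ) δ2 / 2 := ⟨_, rfl⟩
  have hd0 : 0 < d := by
    rw [hd]
    have := lt_min (lt_min (lt_min hd1 hd2) hρ0) hδ2
    linarith
  obtain ⟨n0, hn0, hv⟩ := hD.vA_small (a := 1) hR one_pos hd0
  obtain ⟨Cf, hCf⟩ : ∃ Cf : ℝ, Cf = P * (1 + 2 * D ^ 3) + 3 / 2 * 2 ^ k * D ^ 3 + 3 / 2 * 2 ^ k := ⟨_, rfl⟩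
  refine ⟨1 / 2, Cf, x1 + n0 + k, by norm_num, fun s hs x hx g hg => ?_⟩
  obtain ⟨z, rfl⟩ : ∃ z, x = z + k := ⟨x - k, by omega⟩
  have hm1 : 1 ≤ 2 ^ z := Nat.one_le_two_pow
  have hzn : n0 ≤ 2 ^ z := (show n0 ≤ z by omega).trans (Nat.lt_two_pow_self).le
  have hvs := hv s (hA hs) (2 ^ z) hzn
  have hv0 : 0 ≤ vA 1 μ s (2 ^ z) :=
    add_nonneg (hD.vr_nonneg (hA hs) zero_le_one _) (hD.vl_nonneg (hA hs) zero_le_one _)
  have hmin : min (min (min d1 d2) ρ) δ2 = 2 * d := by rw [hd]; ring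
  have c1 : 2 * d ≤ d1 := by rw [← hmin]; exact (min_le_left _ _).trans ((min_le_left _ _).trans (min_le_left _ _))
  have c2 : 2 * d ≤ d2 := by rw [← hmin]; exact (min_le_left _ _).trans ((min_le_left _ _).trans (min_le_right _ _))
  have c3 : 2 * d ≤ ρ := by rw [← hmin]; exact (min_le_left _ _).trans (min_le_right _ _)
  have c4 : 2 * d ≤ δ2 := by rw [← hmin]; exact min_le_right _ _
  have hga : |g| = 1 := by rcases hg with rfl | rfl <;> norm_num
  obtain ⟨r, hr1, -, hr⟩ := hex s (hD.bd s (hA hs)) (g * vA 1 μ s (2 ^ z)) (by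
    rw [abs_mul, hga, one_mul, abs_of_nonneg hv0]
    linarith)
  have hrA : s + r ∈ A := hF s hs r (hr1.trans (min_le_right _ _))
  have hPP : EE μ (s + r) (2 ^ (z + k)) ≤ P * EE μ (s + r) (2 ^ z) := by
    have h1 := hhalf (s + r) hrA z k (by omega)
    have h2 := Real.rpow_le_rpow_of_exponent_le (x := 2) (by norm_num) h1
    rw [pow_gg] at h2
    have e1 : gg μ (s + r) z + (k : ℝ) / 2 + C = gg μ (s + r) z + ((k : ℝ) / 2 + C) := by ring
    rw [e1, Real.rpow_add (by norm_num), pow_gg, ← hP, mul_comm] at h2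
    exact h2
  obtain ⟨y, y0, y1, h1, h2, h3⟩ := two_one14 (d := min d1 d2) hD hJ hD1
    (fun s' hs' x hx => hS s' hs' x (hx.trans (min_le_left _ _))) hθ1 (hA hs)
    (fun x hx => hSup s hs x (hx.trans (min_le_right _ _))) hrA (hr1.trans (min_le_left _ _)) hm1
    (n := 2 ^ (z + k)) (k := k) (by rw [pow_add]; ring) hg hr
    (le_min (by linarith) (by linarith)) (by linarith) (le_min (by linarith) (by linarith)) hPP hP0 hkk
  have hE := EE_pos (μ := μ) (s := s) (2 ^ (z + k))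
  have hw0 : 0 ≤ ((2 ^ (z + k) : ℕ) : ℝ) * vA 1 μ s (2 ^ (z + k)) :=
    mul_nonneg (Nat.cast_nonneg _) (add_nonneg (hD.vr_nonneg (hA hs) zero_le_one _) (hD.vl_nonneg (hA hs) zero_le_one _))
  have hpos1 : 0 ≤ P * (1 + 2 * D ^ 3) + 3 / 2 * 2 ^ k * D ^ 3 := by positivity
  have hpos2 : (0 : ℝ) ≤ 3 / 2 * 2 ^ k := by positivity
  have e2 : ((2 ^ (z + k) : ℕ) : ℝ) = 2 ^ (z + k) := by push_cast; rfl
  refine ⟨y, y0, by exact_mod_cast y1, ?_, ?_, ?_⟩
  · rw [← e2]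
    exact h1
  · rw [← e2]
    refine h2.trans (mul_le_mul_of_nonneg_right ?_ hw0)
    rw [hCf]
    linarith
  · refine h3.trans (mul_le_mul_of_nonneg_right ?_ hE.le)
    rw [hCf]
    linarith

end Pool.Agent.W_7d29a1_H
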