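import Pool.Agent.W_7d29a1_H.PredH
import Pool.Agent.W_7d29a1_H.LamH
import Pool.Agent.W_7d29a1_L.LsA1
import Pool.Agent.W_7d29a1_LE.LE

/-!
MP_7d29a1_pr, TRACK H, THE FRAME: (L\*) implies the tilted free end weights (`TiltH`), the lucks of one start (`L0H`) and the lower
tails (`TailH`, `Tail0H`), at all tilts (ports of `G/Frame2`, `G/Frame4`).
-/

set_option autoImplicit false

namespace Pool.Agent.W_7d29a1_H

open MeasureTheory ProbabilityTheory Filter Topology Set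
open Pool.Agent.W_7d29a1_F Pool.Agent.W_7d29a1_h4g
open Pool.Agent.W_7d29a1_L (Mh T kap Bx Mh_le le_Mh Mh_nonneg Sub_Mh mem_Bx exp_T)

noncomputable section

variable {μ : Measure ℝ} {s a H δ : ℝ} {A : Set ℝ}

theorem T_tilt_zero4 (v : ℝ) (η : Env) (p : Pt) (n : ℕ) : T μ s v 0 η p n = V μ s η p n := by
  unfold T kap
  rw [add_zero, sub_self, zero_mul, sub_zero, mul_zero, add_zero]

theorem mem_Bx_zero4 {v w : ℝ} (hv0 : 0 ≤ v) (hv1 : v ≤ 1) (hw : 0 < w) {m n : ℕ} (h : m ≤ n) :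
    (((0, (0 : ℤ)), m) : (ℕ × ℤ) × ℕ) ∈ Bx v w (-(w / 2)) n := by
  rw [mem_Bx hv0 hv1]
  refine ⟨by simpa using h, ?_, ?_⟩
  · simp only [Int.cast_zero, Nat.cast_zero, mul_zero, sub_zero]
    linarith
  · simp only [Int.cast_zero, Nat.cast_zero, mul_zero, sub_zero]
    linarith

/-- The box luck dominates the free end luck of the origin at the tilt `h`. -/
theorem T_le_Mh4 {v w : ℝ} (hv0 : 0 ≤ v) (hv1 : v ≤ 1) (hw : 0 < w) {m n : ℕ} (hm : m ≤ n) (h : ℝ) (η : Env) :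
    T μ s v h η 0 m ≤ Mh μ s v h w (-(w / 2)) n η := by
  have h1 := le_Mh (μ := μ) (s := s) (h := h) η (mem_Bx_zero4 hv0 hv1 hw hm)
  have h2 : T μ s v h η (((0 : ℕ) : ℤ), (0 : ℤ)) m ≤ Mh μ s v h w (-(w / 2)) n η := h1
  have h3 : ((((0 : ℕ) : ℤ), (0 : ℤ)) : Pt) = 0 := rfl
  rw [h3] at h2
  exact h2

variable [IsProbabilityMeasure μ]

theorem int_exp_Mh4 (hμ : Pool.Agent.W_7d29a1_h47.EM μ) (θ v t w z : ℝ) (n : ℕ) :
    Integrable (fun η => Real.exp (θ * Mh μ s v t w z n η)) (law μ) := (Sub_Mh.const_mul θ).exp_int hμ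

omit [IsProbabilityMeasure μ] in
/-- The slopes of a family are in `[0, 1]`. -/
theorem Dirs.sl01_4 (hD : Dirs μ H δ A) (hs : s ∈ A) : 0 ≤ sl μ s ∧ sl μ s ≤ 1 :=
  ⟨by linarith [hD.lo s hs, hD.δ0], by linarith [hD.hi s hs, hD.δ0]⟩

/-- The width is at least `2 a` units. -/
theorem le_wH4 (hD : Dirs μ H δ A) (hs : s ∈ A) (ha : 0 < a) {n : ℕ} (hn : 1 ≤ n) :
    2 * a * EE μ s n ≤ wH a μ s n := by
  have hn0 : (0 : ℝ) < n := by exact_mod_cast hn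
  have hE := EE_pos (μ := μ) (s := s) n
  have hB : 0 ≤ a * EE μ s n / n := by positivity
  have hrf := hD.rf hs
  have hrf' := hrf.neg
  have h1 : a * EE μ s n / n ≤ vr a μ s n := by
    refine hrf.le_wR hB ((J_le_abs hD.em hD.nd s _).trans ?_)
    rw [abs_of_nonneg hB]
  have h2 : a * EE μ s n / n ≤ vl a μ s n := by
    refine hrf'.le_wR hB ((J_le_abs hD.em hD.nd s _).trans ?_)
    rw [abs_neg, abs_of_nonneg hB]
  unfold wH vA
  have h3 : (n : ℝ) * (a * EE μ s n / n) = a * EE μ s n := by field_simp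
  have h4 := mul_le_mul_of_nonneg_left (add_le_add h1 h2) hn0.le
  rw [mul_add, h3] at h4
  linarith

theorem wH_pos4 (hD : Dirs μ H δ A) (hs : s ∈ A) (ha : 0 < a) {n : ℕ} (hn : 1 ≤ n) : 0 < wH a μ s n := by
  have h1 := le_wH4 hD hs ha hn
  have hE := EE_pos (μ := μ) (s := s) n
  have h2 : 0 < 2 * a * EE μ s n := by positivity
  linarith

/-- (L0) from (L\*). -/
theorem l0H_of (hD : Dirs μ H δ A) (ha : 0 < a) (h : LStarH a μ A) : L0H μ A := by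
  intro N
  obtain ⟨c, C, n₀, hc, h⟩ := h N
  refine ⟨c, C, max n₀ 1, hc, fun s hs n hn k => ?_⟩
  have hn1 : 1 ≤ n := (le_max_right _ _).trans hn
  have hE := EE_pos (μ := μ) (s := s) n
  have hwA := wH_pos4 hD hs ha hn1
  obtain ⟨hv0, hv1⟩ := hD.sl01_4 hs
  have h1 := h s hs n ((le_max_left _ _).trans hn) 0 (-(wH a μ s n / 2)) (by rw [abs_zero, zero_mul]; positivity)
  have h2 := measure_ge_le_exp_mul_mgf (μ := law μ)
    (X := fun η => Mh μ s (sl μ s) 0 (wH a μ s n) (-(wH a μ s n / 2)) (N * n) η)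
    (k * EE μ s n) (t := c / EE μ s n) (by positivity) (int_exp_Mh4 hD.em _ _ _ _ _ _)
  have h3 : (law μ).real {η | ∃ t : ℕ, t ≤ N * n ∧ k * EE μ s n ≤ V μ s η 0 t} ≤
      (law μ).real {η | k * EE μ s n ≤ Mh μ s (sl μ s) 0 (wH a μ s n) (-(wH a μ s n / 2)) (N * n) η} := by
    refine measureReal_mono ?_
    rintro η ⟨t, ht, hV⟩
    refine hV.trans ?_
    have h4 := T_le_Mh4 (μ := μ) (s := s) hv0 hv1 hwA ht 0 η
    rw [T_tilt_zero4] at h4
    exact h4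
  refine h3.trans (h2.trans ?_)
  have e1 : -(c / EE μ s n) * (k * EE μ s n) = -(c * k) := by field_simp
  rw [e1, mul_comm]
  exact mul_le_mul_of_nonneg_right h1 (Real.exp_pos _).le

/-- (TILT) from (L\*). -/
theorem tiltH_of (hD : Dirs μ H δ A) (ha : 0 < a) (h : LStarH a μ A) : TiltH a μ A := by
  intro N
  obtain ⟨c, C, n₀, hc, h⟩ := h N
  obtain ⟨c', hc'⟩ : ∃ c' : ℝ, c' = min c 1 := ⟨_, rfl⟩
  have hc'0 : 0 < c' := by rw [hc']; exact lt_min hc one_pos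
  have hc'1 : c' ≤ c := by rw [hc']; exact min_le_left _ _
  have hc'2 : c' ≤ 1 := by rw [hc']; exact min_le_right _ _
  refine ⟨c', C + C, max n₀ 1, hc'0, fun s hs n hn m hm => ?_⟩
  have hn1 : 1 ≤ n := (le_max_right _ _).trans hn
  have hE := EE_pos (μ := μ) (s := s) n
  have hE1 := one_le_EE (μ := μ) (s := s) n
  obtain ⟨hv0, hv1⟩ := hD.sl01_4 hs
  obtain ⟨v, hv⟩ : ∃ v : ℝ, v = sl μ s := ⟨_, rfl⟩
  obtain ⟨w, hw⟩ : ∃ w : ℝ, w = wH a μ s n := ⟨_, rfl⟩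
  have hwA : 0 < w := by rw [hw]; exact wH_pos4 hD hs ha hn1
  rw [← hv] at hv0 hv1
  obtain ⟨τ, hτ⟩ : ∃ τ : ℝ, τ = c' * EE μ s n / w := ⟨_, rfl⟩
  have hτ0 : 0 ≤ τ := by rw [hτ]; positivity
  obtain ⟨θ, hθ⟩ : ∃ θ : ℝ, θ = c' / EE μ s n := ⟨_, rfl⟩
  have hθ0 : 0 < θ := by rw [hθ]; positivity
  have hθ1 : θ ≤ 1 := by
    rw [hθ, div_le_one hE]
    linarith
  have hτw : τ * w ≤ c * EE μ s n := by
    rw [hτ, div_mul_cancel₀ _ hwA.ne']
    exact mul_le_mul_of_nonneg_right hc'1 hE.le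
  have key : ∀ r : ℝ, |r| = τ →
      ∫ η, Real.exp (θ * Mh μ s v r w (-(w / 2)) (N * n) η) ∂(law μ) ≤ C := by
    intro r hr
    have h0 := h s hs n ((le_max_left _ _).trans hn) r (-(w / 2)) (by rw [hr, ← hw]; exact hτw)
    rw [← hw, ← hv] at h0
    refine le_trans (integral_mono (int_exp_Mh4 hD.em _ _ _ _ _ _) (int_exp_Mh4 hD.em (c / EE μ s n) _ _ _ _ _)
      fun η => ?_) h0
    refine Real.exp_le_exp.2 (mul_le_mul_of_nonneg_right ?_ (Mh_nonneg η))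
    rw [hθ]
    exact div_le_div_of_nonneg_right hc'1 hE.le
  have h1 := key τ (abs_of_nonneg hτ0)
  have h2 := key (-τ) (by rw [abs_neg, abs_of_nonneg hτ0])
  rw [← hw, ← hv, ← hτ, ← hθ]
  obtain ⟨M1, hM1⟩ : ∃ M1 : Env → ℝ, M1 = fun η => Mh μ s v τ w (-(w / 2)) (N * n) η := ⟨_, rfl⟩
  obtain ⟨M2, hM2⟩ : ∃ M2 : Env → ℝ, M2 = fun η => Mh μ s v (-τ) w (-(w / 2)) (N * n) η := ⟨_, rfl⟩
  have i1 : Integrable (fun η => Real.exp (θ * M1 η)) (law μ) := by rw [hM1]; exact int_exp_Mh4 hD.em _ _ _ _ _ _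
  have i2 : Integrable (fun η => Real.exp (θ * M2 η)) (law μ) := by rw [hM2]; exact int_exp_Mh4 hD.em _ _ _ _ _ _
  have hpt : ∀ η : Env, Real.exp (θ * Real.log (∑ y ∈ Finset.Icc (0 : ℤ) m,
      W μ s η 0 m y * Real.exp (τ * |(y : ℝ) - v * m|))) ≤ Real.exp (θ * M1 η) + Real.exp (θ * M2 η) := by
    intro η
    obtain ⟨S, hS⟩ : ∃ S : ℝ, S = ∑ y ∈ Finset.Icc (0 : ℤ) m,
      W μ s η 0 m y * Real.exp (τ * |(y : ℝ) - v * m|) := ⟨_, rfl⟩
    have hS0 : 0 < S := by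
      rw [hS]
      refine Finset.sum_pos (fun y hy => ?_) ⟨0, by simp⟩
      rw [Finset.mem_Icc] at hy
      exact mul_pos (W_pos _ _ hy.1 hy.2) (Real.exp_pos _)
    have hSle : S ≤ Real.exp (M1 η) + Real.exp (M2 η) := by
      have h3 := T_le_Mh4 (μ := μ) (s := s) hv0 hv1 hwA hm τ η
      have h4 := T_le_Mh4 (μ := μ) (s := s) hv0 hv1 hwA hm (-τ) η
      have h5 := add_le_add (Real.exp_le_exp.2 h3) (Real.exp_le_exp.2 h4)
      rw [exp_T, exp_T, ← Finset.sum_add_distrib] at h5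
      rw [hM1, hM2]
      refine le_trans ?_ h5
      rw [hS]
      refine Finset.sum_le_sum fun y _ => ?_
      rw [← mul_add]
      refine mul_le_mul_of_nonneg_left ?_ (W_nonneg _ _ _ _)
      rcases abs_cases ((y : ℝ) - v * m) with ⟨h6, _⟩ | ⟨h6, _⟩
      · rw [h6]
        linarith [Real.exp_pos (-τ * ((y : ℝ) - v * m))]
      · rw [h6, show τ * -((y : ℝ) - v * m) = -τ * ((y : ℝ) - v * m) by ring]
        linarith [Real.exp_pos (τ * ((y : ℝ) - v * m))]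
    rw [← hS, mul_comm, Real.exp_mul, Real.exp_log hS0]
    refine (Real.rpow_le_rpow hS0.le hSle hθ0.le).trans ?_
    refine (Real.rpow_add_le_add_rpow (Real.exp_pos _).le (Real.exp_pos _).le hθ0.le hθ1).trans (le_of_eq ?_)
    rw [← Real.exp_mul, ← Real.exp_mul, mul_comm _ θ, mul_comm _ θ]
  by_cases hint : Integrable (fun η => Real.exp (θ * Real.log (∑ y ∈ Finset.Icc (0 : ℤ) m,
      W μ s η 0 m y * Real.exp (τ * |(y : ℝ) - v * m|)))) (law μ)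
  · refine (integral_mono hint (i1.add i2) hpt).trans ?_
    have h3 : ∫ η, (Real.exp (θ * M1 η) + Real.exp (θ * M2 η)) ∂(law μ) ≤ C + C := by
      rw [integral_add i1 i2, hM1, hM2]
      exact add_le_add h1 h2
    exact h3
  · rw [integral_undef hint]
    have h3 : 0 ≤ ∫ η, Real.exp (θ * Mh μ s v τ w (-(w / 2)) (N * n) η) ∂(law μ) :=
      integral_nonneg fun η => (Real.exp_pos _).le
    linarith

/-! ### Lower tails -/

/-- `LE_tail_le` without the sign condition. -/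
theorem LE_any4 (hμ : Pool.Agent.W_7d29a1_h47.EM μ) (hnd : Pool.Agent.W_7d29a1_h47.Nondeg μ) :
    ∃ κ : ℝ, 0 < κ ∧ κ ≤ 1 ∧ ∀ (S : Set Pt) (G : Env → ℝ), Poly S G → (∀ η, 0 < G η) → ∀ t1 c1 : ℝ, 0 < t1 →
      t1 ≤ 1 → 0 ≤ c1 → ∫ η, Real.exp (t1 * Real.log (G η)) ∂(law μ) ≤ Real.exp c1 → ∀ t : ℝ, 0 < t → t ≤ κ * t1 →
      ∫ η, Real.exp (t * Real.log (G η)) ∂(law μ) ≤
        Real.exp c1 * Real.exp (-(t * (-∫ η, Real.log (G η) ∂(law μ)) / 2)) := by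
  obtain ⟨κ, hκ0, hκ1, h⟩ := Pool.Agent.W_7d29a1_LE.LE_tail_le hμ hnd
  refine ⟨κ, hκ0, hκ1, fun S G hP hG t1 c1 ht0 ht1 hc1 hmom t ht htt => ?_⟩
  rcases le_total 0 (-∫ η, Real.log (G η) ∂(law μ)) with he | he
  · exact h S G hP hG t1 c1 ht0 ht1 hc1 hmom he t ht htt
  · have htt1 : t ≤ t1 := htt.trans (by nlinarith)
    refine (Pool.Agent.W_7d29a1_LE.moment_mono hμ hP hG ht htt1 hmom).trans ?_
    rw [← Real.exp_add]
    refine Real.exp_le_exp.2 ?_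
    have h1 : t / t1 * c1 ≤ 1 * c1 := mul_le_mul_of_nonneg_right (by rwa [div_le_one ht0]) hc1
    have h2 : 0 ≤ -(t * (-∫ η, Real.log (G η) ∂(law μ)) / 2) := by nlinarith
    linarith

/-- The exponential moments of a sum of path weights below the luck of a box. -/
theorem exp_log_le_Mh4 (hμ : Pool.Agent.W_7d29a1_h47.EM μ) {S : Set Pt} {G : Env → ℝ} (hP : Poly S G)
    (hG : ∀ η, 0 < G η) {b v t w z θ : ℝ} {N : ℕ} (hθ : 0 ≤ θ)
    (h : ∀ η, Real.log (G η) ≤ b + Mh μ s v t w z N η) :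
    ∫ η, Real.exp (θ * Real.log (G η)) ∂(law μ) ≤
      Real.exp (θ * b) * ∫ η, Real.exp (θ * Mh μ s v t w z N η) ∂(law μ) := by
  rw [← integral_const_mul]
  refine integral_mono (Pool.Agent.W_7d29a1_LE.poly_exp_int hμ hP hG hθ)
    ((int_exp_Mh4 hμ _ _ _ _ _ _).const_mul _) fun η => ?_
  show Real.exp (θ * Real.log (G η)) ≤ Real.exp (θ * b) * Real.exp (θ * Mh μ s v t w z N η)
  rw [← Real.exp_add, ← mul_add]
  exact Real.exp_le_exp.2 (mul_le_mul_of_nonneg_left (h η) hθ)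

/-- (TAIL) from (L\*), without the sign condition. -/
theorem tailS_of4 (hD : Dirs μ H δ A) (hL : LStarH a μ A) (N : ℕ) :
    ∃ (c C : ℝ) (n0 : ℕ), 0 < c ∧ ∀ s ∈ A, ∀ n : ℕ, n0 ≤ n → ∀ (S : Set Pt) (G : Env → ℝ), Poly S G → (∀ η, 0 < G η) →
      (∃ t z : ℝ, |t| * wH a μ s n ≤ c * EE μ s n ∧
        ∀ η, Real.log (G η) ≤ EE μ s n + Mh μ s (sl μ s) t (wH a μ s n) z (N * n) η) →
      ∫ η, Real.exp (c / EE μ s n * Real.log (G η)) ∂(law μ) ≤
        C * Real.exp (-(c / EE μ s n * (-∫ η, Real.log (G η) ∂(law μ)) / 2)) := by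
  obtain ⟨κ, hκ0, hκ1, hLE⟩ := LE_any4 hD.em hD.nd
  obtain ⟨c, C, n₀, hc, h⟩ := hL N
  obtain ⟨c₁, hc₁⟩ : ∃ c₁ : ℝ, c₁ = min c 1 := ⟨_, rfl⟩
  have hc₁0 : 0 < c₁ := by rw [hc₁]; positivity
  have hc₁c : c₁ ≤ c := hc₁ ▸ min_le_left _ _
  have hc₁1 : c₁ ≤ 1 := hc₁ ▸ min_le_right _ _
  refine ⟨κ * c₁, Real.exp (1 + Real.log (max 1 C)), n₀, by positivity, fun s hs n hn S G hP hG hbd => ?_⟩
  obtain ⟨t, z, htz, hbd⟩ := hbd
  have hE := one_le_EE (μ := μ) (s := s) n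
  have hE0 : 0 < EE μ s n := by linarith
  have hmC : (1 : ℝ) ≤ max 1 C := le_max_left _ _
  have ht : |t| * wH a μ s n ≤ c * EE μ s n := htz.trans (mul_le_mul_of_nonneg_right (by nlinarith) hE0.le)
  have h1 := h s hs n hn t z ht
  have h2 : ∫ η, Real.exp (c₁ / EE μ s n * Mh μ s (sl μ s) t (wH a μ s n) z (N * n) η) ∂(law μ) ≤ max 1 C := by
    refine le_trans ?_ (h1.trans (le_max_right _ _))
    refine integral_mono (int_exp_Mh4 hD.em _ _ _ _ _ _) (int_exp_Mh4 hD.em _ _ _ _ _ _) fun η => ?_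
    exact Real.exp_le_exp.2 (mul_le_mul_of_nonneg_right (div_le_div_of_nonneg_right hc₁c hE0.le) (Mh_nonneg η))
  have h3 := exp_log_le_Mh4 hD.em hP hG (θ := c₁ / EE μ s n) (by positivity) hbd
  have h4 : ∫ η, Real.exp (c₁ / EE μ s n * Real.log (G η)) ∂(law μ) ≤
      Real.exp (1 + Real.log (max 1 C)) := by
    refine h3.trans ?_
    rw [Real.exp_add, Real.exp_log (by linarith)]
    refine mul_le_mul (Real.exp_le_exp.2 ?_) h2 (integral_nonneg fun η => (Real.exp_pos _).le) (Real.exp_pos _).le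
    rw [div_mul_cancel₀ _ hE0.ne']
    exact hc₁1
  exact hLE S G hP hG (c₁ / EE μ s n) (1 + Real.log (max 1 C)) (by positivity)
    (by rw [div_le_one hE0]; linarith) (by have := Real.log_nonneg hmC; linarith) h4
    (κ * c₁ / EE μ s n) (by positivity) (le_of_eq (by ring))

/-- (TAIL) from (L\*). -/
theorem tailH_of (hD : Dirs μ H δ A) (hL : LStarH a μ A) : TailH a μ A := by
  intro N
  obtain ⟨c, C, n₀, hc, h⟩ := tailS_of4 hD hL N
  exact ⟨c, C, n₀, hc, fun s hs n hn S G hP hG hb _ => h s hs n hn S G hP hG hb⟩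

/-- (TAIL) for the polymers which start at the origin. -/
theorem tail0H_of (hD : Dirs μ H δ A) (ha : 0 < a) (hL : LStarH a μ A) : Tail0H μ A := by
  intro N
  obtain ⟨c, C, n₀, hc, h⟩ := tailS_of4 hD hL N
  refine ⟨c, C, max n₀ 1, hc, fun s hs n hn t G ht hP hG hV => ?_⟩
  have hn1 : 1 ≤ n := (le_max_right _ _).trans hn
  have hE := one_le_EE (μ := μ) (s := s) n
  have hw := wH_pos4 hD hs ha hn1
  obtain ⟨hv0, hv1⟩ := hD.sl01_4 hs
  refine h s hs n ((le_max_left _ _).trans hn) _ G hP hG ⟨0, -(wH a μ s n / 2), ?_, fun η => ?_⟩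
  · rw [abs_zero, zero_mul]
    positivity
  · refine (hV η).trans ?_
    have h1 := T_le_Mh4 (μ := μ) (s := s) hv0 hv1 hw ht 0 η
    rw [T_tilt_zero4] at h1
    linarith

omit [IsProbabilityMeasure μ] in
/-- (TAIL) for the cost of a displacement: the straight form. -/
theorem ptTail4 (hT : Tail0H μ A) (N : ℕ) : ∃ (c C : ℝ) (n0 : ℕ), 0 < c ∧ ∀ s ∈ A, ∀ n : ℕ, n0 ≤ n → ∀ m : ℕ, m ≤ N * n →
    ∀ y : ℤ, 0 ≤ y → y ≤ m → ∫ η, Real.exp (-(c / EE μ s n * X μ s η 0 m y)) ∂(law μ) ≤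
      C * Real.exp (-(c / EE μ s n * e μ s m y / 2)) := by
  obtain ⟨c, C, n₀, hc, h⟩ := hT N
  refine ⟨c, C, n₀, hc, fun s hs n hn m hm y h0 h1 => ?_⟩
  have h2 := h s hs n hn m (fun η => W μ s η 0 m y) hm ((poly_W 0 m y).mono fun p hp => ⟨by simpa using hp.1,
    by simpa using hp.2.1⟩) (fun η => W_pos η 0 h0 h1) fun η => by
      refine Real.log_le_log (W_pos η 0 h0 h1) ?_
      unfold WS
      exact Finset.single_le_sum (f := fun y => W μ s η 0 m y) (fun y _ => W_nonneg _ _ _ _)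
        (Finset.mem_Icc.2 ⟨h0, h1⟩)
  have h3 : -∫ η, Real.log (W μ s η 0 m y) ∂(law μ) = e μ s m y := by
    unfold e X
    rw [integral_neg]
  rw [h3] at h2
  refine le_trans (le_of_eq ?_) h2
  refine integral_congr_ae (Filter.Eventually.of_forall fun η => ?_)
  show Real.exp _ = Real.exp _
  congr 1
  unfold X
  ring

end

end Pool.Agent.W_7d29a1_H
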