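import Pool.Agent.W_7d29a1_H.HOctDefs52
import Pool.Agent.W_7d29a1_H.LamH

/-!
MP_7d29a1_pr, TRACK H (all tilts): the mirror `(t, x) ↦ (t, t - x)`. It exchanges the tilts `s` and `- s`, the displacements `(n, y)` and
`(n, n - y)`, the slopes `v` and `1 - v` and the two sides. `ng A` is the set of tilts `- A`. A one-sided statement proved for all sets of
tilts `A` with `Dirs` gives the other side for `A` from the case `ng A`. (helper52)
-/

set_option autoImplicit false

namespace Pool.Agent.W_7d29a1_H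

open MeasureTheory ProbabilityTheory Filter Topology Set
open Pool.Agent.W_7d29a1_F Pool.Agent.W_7d29a1_h4g
open Pool.Agent.W_1b8d5d_p (wR wL wd)
open Pool.Agent.W_7d29a1_g (HasPath eR Tube)

noncomputable section

/-! ### The mirror of the sites, of the regions and of the environment -/

/-- The mirror of the sites. -/
def phiM (p : Pt) : Pt := (p.1, p.1 - p.2)

theorem phiM_phiM (p : Pt) : phiM (phiM p) = p := by
  unfold phiM
  simp

@[simp] theorem phiM_fst (p : Pt) : (phiM p).1 = p.1 := rfl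

@[simp] theorem phiM_snd (p : Pt) : (phiM p).2 = p.1 - p.2 := rfl

@[simp] theorem phiM_zero : phiM 0 = 0 := by
  unfold phiM
  simp

theorem phiM_inj : Function.Injective phiM := fun p q h => by
  have := congrArg phiM h
  rwa [phiM_phiM, phiM_phiM] at this

/-- The mirror of a region. -/
def mirS (R : Set Pt) : Set Pt := {p | phiM p ∈ R}

@[simp] theorem mem_mirS {R : Set Pt} {p : Pt} : p ∈ mirS R ↔ phiM p ∈ R := Iff.rfl

@[simp] theorem mirS_univ : mirS Set.univ = Set.univ := rfl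

@[simp] theorem mirS_mirS (R : Set Pt) : mirS (mirS R) = R := by
  ext p
  simp [phiM_phiM]

theorem mirS_rows (a b : ℤ) : mirS (rows a b) = rows a b := rfl

theorem mirS_Tube (a : Pt) (v w : ℝ) : mirS (Tube a v w) = Tube (phiM a) (1 - v) w := by
  ext p
  simp only [mem_mirS, Tube, Set.mem_setOf_eq, phiM_fst, phiM_snd]
  have h : (((p.1 - p.2 - a.2 : ℤ) : ℝ) - v * ((p.1 - a.1 : ℤ) : ℝ)) =
      -(((p.2 - (a.1 - a.2) : ℤ) : ℝ) - (1 - v) * ((p.1 - a.1 : ℤ) : ℝ)) := by
    push_cast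
    ring
  rw [h, abs_neg]

theorem mirS_tb (v : ℝ) (a : Pt) (b : ℝ) : mirS (tb v a b) = tb (1 - v) (phiM a) b := by
  ext p
  simp only [mem_mirS, tb, Set.mem_setOf_eq, phiM_fst, phiM_snd]
  have h : (((p.1 - p.2 - a.2 : ℤ) : ℝ) - v * ((p.1 - a.1 : ℤ) : ℝ)) =
      -(((p.2 - (a.1 - a.2) : ℤ) : ℝ) - (1 - v) * ((p.1 - a.1 : ℤ) : ℝ)) := by
    push_cast
    ring
  rw [h, abs_neg]

theorem HasPath.mir {R : Set Pt} {a : Pt} {n : ℕ} {y : ℤ} (h : HasPath R a n y) : HasPath (mirS R) (phiM a) n (n - y) := by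
  obtain ⟨p, h0, h1, h2, h3⟩ := h
  refine ⟨fun k => k - p k, by simp [h0], by simp [h1], fun k hk => ?_, fun k hk hk' => ?_⟩
  · rcases h2 k hk with h | h
    · right
      push_cast
      rw [h]
      ring
    · left
      push_cast
      rw [h]
      ring
  · have h4 := h3 k hk hk'
    rw [mem_mirS]
    have h5 : phiM ((phiM a).1 + k, (phiM a).2 + ((k : ℤ) - p k)) = (a.1 + k, a.2 + p k) := by
      unfold phiM
      simp only [Prod.mk.injEq, true_and]
      ring
    rw [h5]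
    exact h4

/-- The mirror of the environment. -/
def mir (η : Env) : Env := fun p => η (phiM p)

@[simp] theorem mir_apply (η : Env) (p : Pt) : mir η p = η (phiM p) := rfl

@[simp] theorem mir_mir (η : Env) : mir (mir η) = η := by
  funext p
  simp [phiM_phiM]

theorem measurable_mir : Measurable mir := measurable_pi_iff.2 fun p => measurable_pi_apply (phiM p)

/-- The mirror as an equivalence. -/
def mirE : Env ≃ᵐ Env where
  toFun := mir
  invFun := mir
  left_inv := mir_mir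
  right_inv := mir_mir
  measurable_toFun := measurable_mir
  measurable_invFun := measurable_mir

theorem mp_mir {μ : Measure ℝ} [IsProbabilityMeasure μ] : MeasurePreserving mir (law μ) (law μ) := mp_mirror

theorem integral_mir {μ : Measure ℝ} [IsProbabilityMeasure μ] (F : Env → ℝ) :
    ∫ η, F (mir η) ∂(law μ) = ∫ η, F η ∂(law μ) :=
  (mp_mir (μ := μ)).integral_comp mirE.measurableEmbedding F

theorem real_mir {μ : Measure ℝ} [IsProbabilityMeasure μ] (E : Set Env) :
    (law μ).real {η | mir η ∈ E} = (law μ).real E := by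
  unfold Measure.real
  congr 1
  exact (show MeasurePreserving mirE (law μ) (law μ) from mp_mir).measure_preimage_equiv E

theorem Poly.mir {S : Set Pt} {G : Env → ℝ} (h : Poly S G) : Poly (mirS S) fun η => G (mir η) := by
  classical
  obtain ⟨N, c, A, hc, hA, hG⟩ := h
  refine ⟨N, c, fun i => (A i).image phiM, hc, fun i => ?_, fun η => ?_⟩
  · intro p hp
    rw [Finset.mem_coe, Finset.mem_image] at hp
    obtain ⟨q, hq, rfl⟩ := hp
    rw [mem_mirS, phiM_phiM]
    exact hA i hq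
  · show G (fun p => η (phiM p)) = _
    rw [hG]
    refine Finset.sum_congr rfl fun i _ => ?_
    rw [Finset.sum_image fun p _ q _ hpq => phiM_inj hpq]

/-! ### Weights -/

theorem Zr_mir (R : Set Pt) (η : Env) (a : Pt) (n : ℕ) (y : ℤ) :
    Zr (mirS R) (mir η) (phiM a) n (n - y) = Zr R η a n y := by
  induction n generalizing y with
  | zero =>
    have h1 : (((0 : ℕ) : ℤ) - y = 0) ↔ y = 0 := by
      constructor <;> intro h <;> omega
    simp only [Zr]
    simp only [h1]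
  | succ n ih =>
    have h1 : (((n + 1 : ℕ) : ℤ) - y) = (n : ℤ) - (y - 1) := by
      push_cast
      ring
    have h2 : (((n + 1 : ℕ) : ℤ) - y) - 1 = (n : ℤ) - y := by
      push_cast
      ring
    have h3 := ih (y - 1)
    have h4 := ih y
    simp only [Zr]
    rw [h2, h4]
    rw [h1, h3]
    have h5 : phiM ((phiM a).1 + ((n : ℤ) + 1), (phiM a).2 + ((n : ℤ) - (y - 1))) = (a.1 + ((n : ℤ) + 1), a.2 + y) := by
      unfold phiM
      simp only [Prod.mk.injEq, true_and]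
      ring
    have h6 : (mirS R).indicator (fun p => Real.exp (mir η p))
        ((phiM a).1 + ((n : ℤ) + 1), (phiM a).2 + ((n : ℤ) - (y - 1))) =
        R.indicator (fun p => Real.exp (η p)) (phiM ((phiM a).1 + ((n : ℤ) + 1), (phiM a).2 + ((n : ℤ) - (y - 1)))) := rfl
    rw [h6, h5]
    ring

variable {μ : Measure ℝ} [IsProbabilityMeasure μ]

omit [IsProbabilityMeasure μ] in
theorem WR_mir_of {s : ℝ} (hl : lam μ (-s) = lam μ s - s) (R : Set Pt) (η : Env) (a : Pt) (n : ℕ) (y : ℤ) :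
    WR μ (-s) (mirS R) (mir η) (phiM a) n (n - y) = WR μ s R η a n y := by
  unfold WR
  rw [Zr_mir, hl]
  congr 2
  push_cast
  ring

section EMs

variable (hEM : Pool.Agent.W_7d29a1_h47.EM μ) (s : ℝ)

include hEM

theorem WR_mir (R : Set Pt) (η : Env) (a : Pt) (n : ℕ) (y : ℤ) :
    WR μ (-s) (mirS R) (mir η) (phiM a) n (n - y) = WR μ s R η a n y := WR_mir_of (lam_neg hEM s) R η a n y

theorem W_mir (η : Env) (a : Pt) (n : ℕ) (y : ℤ) : W μ (-s) (mir η) (phiM a) n (n - y) = W μ s η a n y := by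
  unfold W
  rw [← WR_mir hEM s Set.univ η a n y, mirS_univ]

theorem X_mir (η : Env) (a : Pt) (n : ℕ) (y : ℤ) : X μ (-s) (mir η) (phiM a) n (n - y) = X μ s η a n y := by
  unfold X
  rw [W_mir hEM]

theorem WS_mir (η : Env) (a : Pt) (n : ℕ) (A : Finset ℤ) :
    WS μ (-s) (mir η) (phiM a) n (A.image fun y => (n : ℤ) - y) = WS μ s η a n A := by
  unfold WS
  rw [Finset.sum_image fun p _ q _ hpq => by simpa using hpq]
  exact Finset.sum_congr rfl fun y _ => W_mir hEM s η a n y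

theorem V_mir (η : Env) (a : Pt) (n : ℕ) : V μ (-s) (mir η) (phiM a) n = V μ s η a n := by
  unfold V
  rw [← WS_mir hEM s η a n (Finset.Icc (0 : ℤ) n)]
  congr 2
  ext y
  simp only [Finset.mem_image, Finset.mem_Icc]
  constructor
  · intro h
    exact ⟨n - y, ⟨by omega, by omega⟩, by omega⟩
  · rintro ⟨z, h1, h2⟩
    omega

/-! ### Means and units -/

theorem eR_mir (R : Set Pt) (a : Pt) (n : ℕ) (y : ℤ) : eR μ (-s) (mirS R) (phiM a) n (n - y) = eR μ s R a n y := by
  unfold eR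
  rw [← integral_mir (μ := μ)]
  refine integral_congr_ae (Filter.Eventually.of_forall fun η => ?_)
  show -Real.log (WR μ (-s) (mirS R) (mir η) (phiM a) n (n - y)) = _
  rw [WR_mir hEM]

theorem e_mir (n : ℕ) (y : ℤ) : e μ (-s) n (n - y) = e μ s n y := e_mirror (lam_neg hEM s) n y

theorem ep_mir (n : ℕ) (y : ℤ) : ep μ (-s) n (n - y) = ep μ s n y := by
  unfold ep
  rw [← integral_mir (μ := μ)]
  refine integral_congr_ae (Filter.Eventually.of_forall fun η => ?_)
  show max (X μ (-s) (mir η) 0 n (n - y)) 0 = _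
  have h := X_mir hEM s η 0 n y
  rw [phiM_zero] at h
  rw [h]

private theorem es_mir_le (n : ℕ) : es μ (-s) n ≤ es μ s n := by
  have h0 := zs_mem (μ := μ) (s := s) n
  rw [← ep_zs (μ := μ) (s := s), ← ep_mir hEM]
  exact es_le (by omega) (by omega)

theorem es_mir (n : ℕ) : es μ (-s) n = es μ s n := by
  refine le_antisymm (es_mir_le hEM s n) ?_
  have h := es_mir_le hEM (-s) n
  rwa [neg_neg] at h

private theorem EE_mir_le (n : ℕ) : EE μ (-s) n ≤ EE μ s n :=
  EE_le fun m hm => by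
    rw [es_mir hEM]
    exact le_EE hm

theorem EE_mir (n : ℕ) : EE μ (-s) n = EE μ s n := by
  refine le_antisymm (EE_mir_le hEM s n) ?_
  have h := EE_mir_le hEM (-s) n
  rwa [neg_neg] at h

private theorem e_xs_mir_le (n : ℕ) : e μ (-s) n (xs μ (-s) n) ≤ e μ s n (xs μ s n) := by
  have h0 := xs_mem (μ := μ) (s := s) n
  rw [← e_mir hEM s n (xs μ s n)]
  exact xs_le (by omega) (by omega)

theorem e_xs_mir (n : ℕ) : e μ (-s) n (xs μ (-s) n) = e μ s n (xs μ s n) := by
  refine le_antisymm (e_xs_mir_le hEM s n) ?_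
  have h := e_xs_mir_le hEM (-s) n
  rwa [neg_neg] at h

theorem Em_mir (n : ℕ) : Em μ (-s) n = Em μ s n := by
  unfold Em
  simp only [e_xs_mir hEM]

theorem gg_mir (x : ℕ) : gg μ (-s) x = gg μ s x := by
  unfold gg
  rw [EE_mir hEM]

private theorem Sf_mir_of {x : ℕ} {α : ℝ} (h : Sf μ s x α) : Sf μ (-s) x α := by
  obtain ⟨l, G, h1, h2, h3, h4, h5, h6⟩ := h
  have hI : ∫ η, Real.log (G (mir η)) ∂(law μ) = ∫ η, Real.log (G η) ∂(law μ) :=
    integral_mir (μ := μ) fun η => Real.log (G η)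
  refine ⟨l, fun η => G (mir η), h1, Poly.mir h2, fun η => h3 _, fun η => ?_, ?_, ?_⟩
  · refine (h4 (mir η)).trans (le_of_eq ?_)
    have h := V_mir hEM s (mir η) 0 l
    rw [mir_mir, phiM_zero] at h
    exact h.symm
  · rw [EE_mir hEM, hI]
    exact h5
  · rw [EE_mir hEM, hI]
    rw [← real_mir (μ := μ)] at h6
    exact h6

theorem Sf_mir (x : ℕ) (α : ℝ) : Sf μ (-s) x α ↔ Sf μ s x α := by
  refine ⟨fun h => ?_, Sf_mir_of hEM s⟩
  have h' := Sf_mir_of hEM (-s) h
  rwa [neg_neg] at h'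

variable (hnd : Pool.Agent.W_7d29a1_h47.Nondeg μ)

include hnd

theorem sl_mir : sl μ (-s) = 1 - sl μ s := by
  have h1 : HasDerivAt (lam μ) (sl μ s) s := lam_hasDerivAt hEM hnd s
  have h2 : lam μ = fun r => lam μ (-r) + r := by
    funext r
    have := lam_neg hEM r
    linarith
  have h3 : HasDerivAt (fun r : ℝ => -r) (-1) (-s) := (hasDerivAt_id (-s)).neg
  have h4 : HasDerivAt (fun r : ℝ => lam μ (-r)) (sl μ s * -1) (-s) :=
    HasDerivAt.comp (-s) (h₂ := lam μ) (by simpa using h1) h3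
  have h5 : HasDerivAt (fun r : ℝ => lam μ (-r) + r) (sl μ s * -1 + 1) (-s) := h4.add (hasDerivAt_id (-s))
  rw [← h2] at h5
  have h6 : sl μ (-s) = sl μ s * -1 + 1 := h5.deriv
  rw [h6]
  ring

theorem ex_mir (r : ℝ) : ex μ (-s) r = ex μ s (-r) := by
  unfold ex
  have h1 := lam_neg hEM s
  have h2 := lam_neg hEM (s + -r)
  have h3 : -(s + -r) = -s + r := by ring
  rw [h3] at h2
  rw [sl_mir hEM s hnd, h1, h2]
  ring

theorem J_mir (x : ℝ) : J μ (-s) x = J μ s (-x) := by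
  unfold J
  congr 1
  ext q
  simp only [Set.mem_setOf_eq, ex_mir hEM s hnd]
  constructor
  · rintro ⟨r, hr, rfl⟩
    exact ⟨-r, by rwa [abs_neg], by ring⟩
  · rintro ⟨r, hr, rfl⟩
    refine ⟨-r, by rwa [abs_neg], ?_⟩
    rw [neg_neg]
    ring

theorem J_mir' : J μ (-s) = fun x => J μ s (-x) := funext fun x => J_mir hEM s hnd x

theorem vs_mir (a sg : ℝ) (n : ℕ) : vs a μ (-s) sg n = vs a μ s (-sg) n := by
  unfold vs
  rw [EE_mir hEM]
  congr 1
  funext x
  rw [J_mir hEM s hnd]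
  congr 1
  ring

theorem vr_mir (a : ℝ) (n : ℕ) : vr a μ (-s) n = vl a μ s n := by
  rw [← vs_one, vs_mir hEM s hnd, vs_neg]

theorem vl_mir (a : ℝ) (n : ℕ) : vl a μ (-s) n = vr a μ s n := by
  rw [← vs_neg, vs_mir hEM s hnd, neg_neg, vs_one]

theorem vA_mir (a : ℝ) (n : ℕ) : vA a μ (-s) n = vA a μ s n := by
  unfold vA
  rw [vr_mir hEM s hnd, vl_mir hEM s hnd, add_comm]

theorem wH_mir (a : ℝ) (n : ℕ) : wH a μ (-s) n = wH a μ s n := by
  unfold wH
  rw [vA_mir hEM s hnd]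

theorem ff_mir (a : ℝ) (x : ℕ) : ff a μ (-s) x = ff a μ s x := by
  unfold ff
  rw [vA_mir hEM s hnd]

theorem dl_mir (A0 : ℝ) (z0 z1 : ℕ) : dl A0 μ (-s) z0 z1 = dl A0 μ s z0 z1 := by
  unfold dl
  rw [vA_mir hEM s hnd, vA_mir hEM s hnd]

end EMs

/-! ### The sets of tilts -/

/-- The set of tilts `- A`. -/
def ng (A : Set ℝ) : Set ℝ := {s | -s ∈ A}

@[simp] theorem mem_ng {A : Set ℝ} {s : ℝ} : s ∈ ng A ↔ -s ∈ A := Iff.rfl

theorem neg_mem_ng {A : Set ℝ} {s : ℝ} (h : s ∈ A) : -s ∈ ng A := by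
  rw [mem_ng, neg_neg]
  exact h

@[simp] theorem ng_ng (A : Set ℝ) : ng (ng A) = A := by
  ext s
  simp

theorem ng_Icc (H : ℝ) : ng (Set.Icc (-H) H) = Set.Icc (-H) H := by
  ext s
  simp only [mem_ng, Set.mem_Icc]
  constructor <;> rintro ⟨h1, h2⟩ <;> constructor <;> linarith

theorem Dirs.mir {H δ : ℝ} {A : Set ℝ} (hD : Dirs μ H δ A) : Dirs μ H δ (ng A) where
  em := hD.em
  nd := hD.nd
  bd s hs := by
    have := hD.bd (-s) hs
    rwa [abs_neg] at this
  δ0 := hD.δ0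
  lo s hs := by
    have h := hD.hi (-s) hs
    rw [sl_mir hD.em s hD.nd] at h
    linarith
  hi s hs := by
    have h := hD.lo (-s) hs
    rw [sl_mir hD.em s hD.nd] at h
    linarith
  nc ε hε := by
    obtain ⟨δ', h0, h⟩ := hD.nc ε hε
    refine ⟨δ', h0, fun s hs x hx => ?_⟩
    have h1 := h (-s) hs (-x) (by rwa [abs_neg])
    rwa [J_mir hD.em s hD.nd, neg_neg, abs_neg] at h1
  strict r hr := by
    obtain ⟨j, h0, h⟩ := hD.strict r hr
    refine ⟨j, h0, fun s hs x hx => ?_⟩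
    have h1 := h (-s) hs (-x) (by rwa [abs_neg])
    rwa [J_mir hD.em s hD.nd, neg_neg, abs_neg] at h1

section sets

variable {A : Set ℝ} (hEM : Pool.Agent.W_7d29a1_h47.EM μ)

include hEM

theorem Grow.mir (h : Grow μ A) : Grow μ (ng A) := fun R => by
  obtain ⟨n0, h1⟩ := h R
  exact ⟨n0, fun s hs n hn => by
    have := h1 (-s) hs n hn
    rwa [EE_mir hEM] at this⟩

theorem Rate.mir (h : Rate μ A) : Rate μ (ng A) := fun ε hε => by
  obtain ⟨n0, h1⟩ := h ε hε
  exact ⟨n0, fun s hs n hn => by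
    have := h1 (-s) hs n hn
    rwa [EE_mir hEM] at this⟩

theorem LogG.mir (h : LogG μ A) : LogG μ (ng A) := fun K => by
  obtain ⟨n0, h1⟩ := h K
  exact ⟨n0, fun s hs n hn => by
    have := h1 (-s) hs n hn
    rwa [EE_mir hEM] at this⟩

theorem L0H.mir (h : L0H μ A) : L0H μ (ng A) := fun N => by
  obtain ⟨c, C, n0, hc, h1⟩ := h N
  refine ⟨c, C, n0, hc, fun s hs n hn k => ?_⟩
  have h2 := h1 (-s) hs n hn k
  rw [← real_mir (μ := μ)] at h2
  refine (le_of_eq ?_).trans h2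
  congr 1
  ext η
  simp only [Set.mem_setOf_eq]
  refine exists_congr fun t => ?_
  have h3 := V_mir hEM s η 0 t
  rw [phiM_zero] at h3
  rw [EE_mir hEM, h3]

variable (hnd : Pool.Agent.W_7d29a1_h47.Nondeg μ)

include hnd

theorem InWH.mir {a A0 A1 c0 : ℝ} (h : InWH μ A a A0 A1 c0) : InWH μ (ng A) a A0 A1 c0 := by
  obtain ⟨Ci, c1, n0, h1, h2, h3⟩ := h
  refine ⟨Ci, c1, n0, h1, h2, fun s hs N hN w S hw hS hSN h4 h5 h6 h7 y h8 h9 => ?_⟩
  have h10 := h3 (-s) hs N hN w S hw hS hSN (fun sg hsg => by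
    rw [vs_mir hEM s hnd, vs_mir hEM s hnd]
    refine h4 (-sg) ?_
    rcases hsg with rfl | rfl
    · right
      rfl
    · left
      norm_num) (by rwa [vA_mir hEM s hnd]) (by rwa [vA_mir hEM s hnd])
    (by rwa [vA_mir hEM s hnd, vA_mir hEM s hnd]) (N - y)
    (by
      rw [vl_mir hEM s hnd, sl_mir hEM s hnd]
      push_cast
      linarith)
    (by
      rw [vr_mir hEM s hnd, sl_mir hEM s hnd]
      push_cast
      linarith)
  rwa [e_mir hEM, EE_mir hEM] at h10

theorem FW.mir {s A0 A1 : ℝ} {k z0 z1 : ℕ} (h : FW μ s A0 A1 k z0 z1) : FW μ (-s) A0 A1 k z0 z1 where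
  slow z z' h1 h2 h3 := by
    rw [EE_mir hEM, EE_mir hEM]
    exact h.slow z z' h1 h2 h3
  lev := h.lev
  len := h.len
  len4 := h.len4

theorem InFH.mir {A0 A1 c0 : ℝ} (h : InFH μ A A0 A1 c0) : InFH μ (ng A) A0 A1 c0 := by
  obtain ⟨Ci, c1, c', n0, h1, h2, h3, h4⟩ := h
  refine ⟨Ci, c1, c', n0, h1, h2, h3, fun s hs k z0 z1 hF hk hd N hN hN1 hN2 y h8 h9 => ?_⟩
  have h10 := h4 (-s) hs k z0 z1 (FW.mir hEM hnd hF) hk
    (by rwa [dl_mir hEM s hnd, vA_mir hEM s hnd]) N hN hN1 hN2 (N - y)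
    (by
      rw [vl_mir hEM s hnd, sl_mir hEM s hnd, dl_mir hEM s hnd]
      push_cast
      linarith)
    (by
      rw [vr_mir hEM s hnd, sl_mir hEM s hnd, dl_mir hEM s hnd]
      push_cast
      linarith)
  rwa [e_mir hEM, EE_mir hEM] at h10

end sets

end

end Pool.Agent.W_7d29a1_H
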