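import Pool.Agent.W_7d29a1_H.DenseH

/-!
MP_7d29a1_pr, TRACK H: ALMOST EVERY TILT AND ALMOST EVERY VELOCITY. At almost every tilt the free energy is at most quadratic, so the
rate function is at least quadratic; at almost every velocity the rate function is at most quadratic. (helper14)
-/

set_option autoImplicit false

namespace Pool.Agent.W_7d29a1_H

open MeasureTheory ProbabilityTheory Filter Topology Set
open Pool.Agent.W_7d29a1_F Pool.Agent.W_7d29a1_h4g
open Pool.Agent.W_7d29a1_h47 (EM Nondeg)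

variable {μ : Measure ℝ} [IsProbabilityMeasure μ]

omit [IsProbabilityMeasure μ] in
/-- A function which is differentiable at a point has a linear bound there, on a set. -/
theorem lin_of_diff14 {f : ℝ → ℝ} {S : Set ℝ} {x : ℝ} (h : DifferentiableWithinAt ℝ f S x) :
    ∃ K ρ : ℝ, 0 < K ∧ 0 < ρ ∧ ∀ y ∈ S, |y - x| ≤ ρ → |f y - f x| ≤ K * |y - x| := by
  have h1 := h.isBigO_sub
  obtain ⟨K, hK, h2⟩ := h1.exists_pos
  have h3 := h2.bound
  rw [eventually_nhdsWithin_iff, Metric.eventually_nhds_iff] at h3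
  obtain ⟨ε, hε, h4⟩ := h3
  refine ⟨K, ε / 2, hK, by positivity, fun y hy hyx => ?_⟩
  have h5 := h4 (y := y) (by rw [Real.dist_eq]; linarith) hy
  rwa [Real.norm_eq_abs, Real.norm_eq_abs] at h5

/-- An upper bound of the free energy gives a lower bound of the rate function. -/
theorem J_ge_of_ex14 (hμ : EM μ) (hnd : Nondeg μ) {s K r₀ : ℝ} (hK : 0 < K) (hr : 0 < r₀)
    (h : ∀ r : ℝ, |r| ≤ r₀ → ex μ s r ≤ K * r ^ 2) :
    ∀ x : ℝ, |x| ≤ 2 * K * min r₀ 1 → 1 / (4 * K) * x ^ 2 ≤ J μ s x := by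
  intro x hx
  have hm : 0 < min r₀ 1 := lt_min hr one_pos
  have h1 : |x / (2 * K)| ≤ min r₀ 1 := by
    rw [abs_div, abs_of_pos (by positivity : (0 : ℝ) < 2 * K), div_le_iff₀ (by positivity)]
    linarith
  have h2 := le_J hμ hnd s x (h1.trans (min_le_right _ _))
  have h3 := h (x / (2 * K)) (h1.trans (min_le_left _ _))
  have h4 : x / (2 * K) * x - K * (x / (2 * K)) ^ 2 = 1 / (4 * K) * x ^ 2 := by
    field_simp
    ring
  linarith

/-- **ALMOST EVERY TILT**: the free energy is at most quadratic and the rate function is at least quadratic. -/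
theorem ae_tilt14 (hμ : EM μ) (hnd : Nondeg μ) : ∀ᵐ s : ℝ, ∃ k K ρ : ℝ, 0 < k ∧ 0 < ρ ∧
    (∀ x : ℝ, |x| ≤ ρ → k * x ^ 2 ≤ J μ s x) ∧ ∀ r : ℝ, |r| ≤ 1 → ex μ s r ≤ K * r ^ 2 := by
  filter_upwards [(sl_mono hμ hnd).ae_differentiableAt] with s hs
  obtain ⟨K, ρ, hK, hρ, h1⟩ := lin_of_diff14 (S := univ) hs.differentiableWithinAt
  have h2 : ∀ r : ℝ, |r| ≤ ρ → ex μ s r ≤ K * r ^ 2 := fun r hr => by
    have h3 := ex_le_sl hμ hnd s r
    have h4 := h1 (s + r) (mem_univ _) (by rwa [add_sub_cancel_left])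
    rw [add_sub_cancel_left] at h4
    have h5 : r * (sl μ (s + r) - sl μ s) ≤ |r| * |sl μ (s + r) - sl μ s| := by
      rw [← abs_mul]
      exact le_abs_self _
    have h6 : |r| * |sl μ (s + r) - sl μ s| ≤ |r| * (K * |r|) := mul_le_mul_of_nonneg_left h4 (abs_nonneg r)
    have h7 : |r| * (K * |r|) = K * r ^ 2 := by
      rw [← sq_abs r]
      ring
    linarith
  refine ⟨1 / (4 * K), max K (1 / ρ), 2 * K * min ρ 1, by positivity, by positivity, J_ge_of_ex14 hμ hnd hK hρ h2, fun r hr => ?_⟩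
  rcases le_total |r| ρ with h3 | h3
  · exact (h2 r h3).trans (mul_le_mul_of_nonneg_right (le_max_left _ _) (sq_nonneg r))
  · have h4 := ex_le hμ hnd s r
    have h5 : |r| ≤ 1 / ρ * r ^ 2 := by
      rw [← sq_abs r]
      have h6 : |r| * 1 ≤ |r| * (1 / ρ * |r|) := by
        refine mul_le_mul_of_nonneg_left ?_ (abs_nonneg r)
        rw [one_div, inv_mul_eq_div]
        exact (one_le_div hρ).2 h3
      calc |r| = |r| * 1 := by ring
        _ ≤ |r| * (1 / ρ * |r|) := h6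
        _ = 1 / ρ * |r| ^ 2 := by ring
    have h6 : 1 / ρ * r ^ 2 ≤ max K (1 / ρ) * r ^ 2 := mul_le_mul_of_nonneg_right (le_max_right _ _) (sq_nonneg r)
    linarith

/-- **ALMOST EVERY VELOCITY**: the rate function is at most quadratic. -/
theorem ae_slope14 (hμ : EM μ) (hnd : Nondeg μ) : ∀ᵐ v : ℝ, ∀ s : ℝ, sl μ s = v → ∃ K ρ : ℝ, 0 < K ∧ 0 < ρ ∧
    ∀ x : ℝ, |x| ≤ ρ → J μ s x ≤ K * x ^ 2 := by
  have hsm := sl_strictMono hμ hnd
  obtain ⟨g, hg⟩ : ∃ g : ℝ → ℝ, g = Function.invFun (sl μ) := ⟨_, rfl⟩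
  have hgs : ∀ s, g (sl μ s) = s := fun s => by
    rw [hg]
    exact Function.leftInverse_invFun hsm.injective s
  have hgm : MonotoneOn g (range (sl μ)) := by
    rintro _ ⟨s, rfl⟩ _ ⟨t, rfl⟩ hst
    rw [hgs, hgs]
    exact hsm.le_iff_le.1 hst
  filter_upwards [hgm.ae_differentiableWithinAt_of_mem] with v hv s hs
  subst hs
  obtain ⟨K, ρ, hK, hρ, h1⟩ := lin_of_diff14 (hv ⟨s, rfl⟩)
  obtain ⟨c, hc, h2⟩ := tilt_ex20 hμ hnd |s| (η := 1) one_pos le_rfl
  refine ⟨K, min ρ c, hK, lt_min hρ hc, fun x hx => ?_⟩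
  obtain ⟨T, hT1, hT2⟩ := h2 s le_rfl x (hx.trans (min_le_right _ _))
  have h3 := J_up20 hμ hnd hT1 hT2
  have h4 := h1 (sl μ T) ⟨T, rfl⟩ (by rw [hT2, add_sub_cancel_left]; exact hx.trans (min_le_left _ _))
  rw [hgs, hgs, hT2, add_sub_cancel_left] at h4
  have h5 : (T - s) * x ≤ |T - s| * |x| := by
    rw [← abs_mul]
    exact le_abs_self _
  have h6 : |T - s| * |x| ≤ K * |x| * |x| := mul_le_mul_of_nonneg_right h4 (abs_nonneg x)
  have h7 : K * |x| * |x| = K * x ^ 2 := by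
    rw [← sq_abs x]
    ring
  linarith

/-- A property of the tilts which holds at almost every velocity holds at a set of tilts whose image under the slope has full
measure. In particular this set is dense. -/
theorem ae_slope_dense14 (hμ : EM μ) (hnd : Nondeg μ) {p : ℝ → Prop} (h : ∀ᵐ v : ℝ, ∀ s : ℝ, sl μ s = v → p s) {a b : ℝ}
    (hab : a < b) : ∃ s, a < s ∧ s < b ∧ p s := by
  have hsm := sl_strictMono hμ hnd
  have h1 : sl μ a < sl μ b := hsm hab
  have h2 : ∃ v ∈ Ioo (sl μ a) (sl μ b), ∀ s : ℝ, sl μ s = v → p s := by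
    by_contra hcon
    push Not at hcon
    have h3 : Ioo (sl μ a) (sl μ b) ⊆ {v | ¬ ∀ s : ℝ, sl μ s = v → p s} := fun v hv => by
      obtain ⟨s, hs1, hs2⟩ := hcon v hv
      exact fun h4 => hs2 (h4 s hs1)
    have h4 := measure_mono_null h3 (ae_iff.1 h)
    rw [Real.volume_Ioo, ENNReal.ofReal_eq_zero] at h4
    linarith
  obtain ⟨v, ⟨h3, h4⟩, h5⟩ := h2
  obtain ⟨s, hs, hsv⟩ := intermediate_value_Ioo hab.le (sl_cont hμ hnd).continuousOn (show v ∈ Ioo (sl μ a) (sl μ b) from ⟨h3, h4⟩)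
  exact ⟨s, hs.1, hs.2, h5 s hsv⟩

end Pool.Agent.W_7d29a1_H
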