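import Pool.Agent.W_7d29a1_H.PredH
import Pool.Agent.W_7d29a1_h48.Ins

/-!
# Track H, section (B): the input from the confinement (helper48, helper71)
-/

set_option autoImplicit false

namespace Pool.Agent.W_7d29a1_H

open MeasureTheory ProbabilityTheory Finset Pool.Agent.W_7d29a1_F
open Pool.Agent.W_7d29a1_h48 (pin)

noncomputable section

/-- **CONFINEMENT.** The polymers from `0` to `(N, y)`, `n ≤ N ≤ H n`, of mean cost at most `C EE n` and with an end within `C w_n` of the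
line, are at every time `t` within `R w_n` of the line, except for the mean mass `δ'`. -/
def ConfPH (a : ℝ) (μ : Measure ℝ) (A : Set ℝ) : Prop :=
  ∀ (H C δ' : ℝ), 0 < δ' → ∃ (R : ℝ) (n0 : ℕ), ∀ s ∈ A, ∀ n N : ℕ, n0 ≤ n → n ≤ N → (N : ℝ) ≤ H * n →
    ∀ y : ℤ, 0 ≤ y → y ≤ N → e μ s N y ≤ C * EE μ s n → |(y : ℝ) - sl μ s * N| ≤ C * wH a μ s n →
    ∀ t : ℕ, t ≤ N → 1 - δ' ≤ ∫ η, ∑ p ∈ (Finset.Icc (0 : ℤ) t).filter (fun p : ℤ => |(p : ℝ) - sl μ s * t| ≤ R * wH a μ s n),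
      pin μ s η t (N - t) y p ∂(law μ)

end

end Pool.Agent.W_7d29a1_H
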