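import Pool.Agent.W_7d29a1_H.BOne32
import Pool.Agent.W_7d29a1_H.WidthH
import Pool.Agent.W_7d29a1_H.BDef48

/-!
# Track H, section (B): the assembly (HB) for all tilts (helper32)
-/

set_option autoImplicit false

namespace Pool.Agent.W_7d29a1_H

open MeasureTheory ProbabilityTheory Filter Topology
open Pool.Agent.W_7d29a1_F Pool.Agent.W_7d29a1_h4g
open Pool.Agent.W_7d29a1_h47 (EM Nondeg)
open Pool.Agent.W_7d29a1_h48 (pin)

noncomputable section

variable {μ : Measure ℝ} [IsProbabilityMeasure μ] {A : Set ℝ} {H0 δ0 a C3 : ℝ} {r : ℕ}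

/-- A soft scale makes the later scales soft, with the loss of the growth of the unit. -/
theorem sf_late32 {s : ℝ} {y x : ℕ} {a₁ : ℝ} (h : Sf μ s y a₁) (hyx : y ≤ x) : Sf μ s x (a₁ + (gg μ s x - gg μ s y)) := by
  obtain ⟨l, G, h1, h2, hpos, hle, h3, h4⟩ := h
  have hg := gg_mono (μ := μ) (s := s) hyx
  have hE := EE_pos (μ := μ) (s := s) (2 ^ y)
  have hE' := EE_pos (μ := μ) (s := s) (2 ^ x)
  have e1 : (2 : ℝ) ^ (-(a₁ + (gg μ s x - gg μ s y))) * EE μ s (2 ^ x) = 2 ^ (-a₁) * EE μ s (2 ^ y) := by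
    rw [← pow_gg s x, ← pow_gg s y, ← Real.rpow_add two_pos, ← Real.rpow_add two_pos]
    congr 1
    ring
  refine ⟨l, G, h1.trans (Real.rpow_le_rpow_of_exponent_le one_le_two ?_), h2, hpos, hle, le_trans (neg_le_neg ?_) h3, ?_⟩
  · have h5 : (y : ℝ) ≤ x := by exact_mod_cast hyx
    linarith
  · refine mul_le_mul (Real.rpow_le_rpow_of_exponent_le one_le_two (by linarith)) ?_ hE.le (by positivity)
    exact EE_mono (Nat.pow_le_pow_right (by norm_num) hyx)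
  · rw [e1]
    exact (Real.rpow_le_rpow_of_exponent_le one_le_two (by linarith)).trans h4

/-- The numbers. -/
theorem hb_num32 {p rr n' m v v' Y CZ q σ β t P J2 : ℝ} (hp : 0 < p) (hr : 0 ≤ rr) (hn' : 0 < n')
    (hm : 0 < m) (hv : 0 < v) (hv' : 0 < v') (hY : 0 < Y) (hCZ : 0 < CZ) (hq : 0 < q) (hs0 : 0 ≤ σ) (hβ0 : 0 ≤ β)
    (ht0 : 0 < t) (ht1 : t ≤ 1) (hP : 0 < P) (hJ2 : 0 < J2)
    (h : p * (n' / ((3 + rr) * m) / 2) * (Y / 8) ^ 2 / (2 * (CZ * (n' * v' / (m * v)))) ≤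
      q * (σ ^ 2 + (2 * (8 * (Y + σ))) ^ 2 * β))
    (hs : σ ^ 2 ≤ t ^ 2 * P * Y ^ 2) (hβ1 : β ≤ t * P) (hβ2 : β ≤ 1 / 8) (hvv : P ≤ J2 * (v / v'))
    (ht : 577 * q * t * J2 < p / (256 * (3 + rr) * CZ)) : False := by
  have e1 : p * (n' / ((3 + rr) * m) / 2) * (Y / 8) ^ 2 / (2 * (CZ * (n' * v' / (m * v)))) =
      p / (256 * (3 + rr) * CZ) * (v / v') * Y ^ 2 := by
    have h1 : 3 + rr ≠ 0 := by positivity
    field_simp
    ring
  rw [e1] at h
  have hY2 : 0 < Y ^ 2 := by positivity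
  have h1 : (2 * (8 * (Y + σ))) ^ 2 * β ≤ 512 * Y ^ 2 * β + 64 * σ ^ 2 := by
    have h2 : (2 * (8 * (Y + σ))) ^ 2 ≤ 512 * Y ^ 2 + 512 * σ ^ 2 := by nlinarith [sq_nonneg (Y - σ)]
    have h3 := mul_le_mul_of_nonneg_right h2 hβ0
    have h4 : 512 * σ ^ 2 * β ≤ 512 * σ ^ 2 * (1 / 8) := mul_le_mul_of_nonneg_left hβ2 (by positivity)
    linarith
  have h2 : 512 * Y ^ 2 * β ≤ 512 * Y ^ 2 * (t * P) := mul_le_mul_of_nonneg_left hβ1 (by positivity)
  have h3 : t ^ 2 * P * Y ^ 2 ≤ t * P * Y ^ 2 := by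
    refine mul_le_mul_of_nonneg_right (mul_le_mul_of_nonneg_right ?_ hP.le) hY2.le
    nlinarith
  have h4 : σ ^ 2 + (2 * (8 * (Y + σ))) ^ 2 * β ≤ 577 * (t * P * Y ^ 2) := by linarith
  have h5 := h.trans (mul_le_mul_of_nonneg_left h4 hq.le)
  have h6 : q * (577 * (t * P * Y ^ 2)) ≤ 577 * q * t * J2 * (v / v') * Y ^ 2 := by
    have h7 := mul_le_mul_of_nonneg_left hvv (show 0 ≤ 577 * q * t * Y ^ 2 by positivity)
    linarith
  have h8 : 577 * q * t * J2 * (v / v') * Y ^ 2 < p / (256 * (3 + rr) * CZ) * (v / v') * Y ^ 2 := by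
    refine mul_lt_mul_of_pos_right (mul_lt_mul_of_pos_right ht (div_pos hv hv')) hY2
  linarith

/-- **(HB) for all tilts: propagation of softness.** -/
theorem hbH_all48 (hD : Dirs μ H0 δ0 A) (ha : 0 < a) (hRt : Rate μ A) (hG : Grow μ A) (hch : CheapH a μ A)
    (hcore : CoreH a μ A r C3) (hconf : ConfPH a μ A) : HBH a μ A := by
  have hμ := hD.em
  obtain ⟨c0, C', hc0, hch⟩ := hch
  obtain ⟨C2, hC2⟩ : ∃ C2, C2 = max C' 1 := ⟨_, rfl⟩
  have hC21 : 1 ≤ C2 := by rw [hC2]; exact le_max_right _ _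
  have hC2C : C' ≤ C2 := by rw [hC2]; exact le_max_left _ _
  obtain ⟨D3, hD3⟩ : ∃ D3, D3 = max C3 0 := ⟨_, rfl⟩
  have hD30 : 0 ≤ D3 := by rw [hD3]; exact le_max_right _ _
  have hD3C : C3 ≤ D3 := by rw [hD3]; exact le_max_left _ _
  obtain ⟨K, hK⟩ : ∃ K, K = 16 + 16 * (C2 + 1) + (2 * (C2 + 1) + D3) := ⟨_, rfl⟩
  have hK1 : 1 ≤ K := by rw [hK]; linarith
  have hK0 : 0 < K := by linarith
  obtain ⟨θ, hθ⟩ : ∃ θ, θ = 8 * (C2 + 1) / K + 40 := ⟨_, rfl⟩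
  have hθ0 : 0 ≤ θ := by rw [hθ]; positivity
  obtain ⟨H, hH⟩ : ∃ H : ℝ, H = 1 + (3 + r) * θ := ⟨_, rfl⟩
  obtain ⟨Cz, hCz⟩ : ∃ Cz : ℝ, Cz = ((C2 + 1) + (2 * (C2 + 1) + D3) * θ) + (3 + (6 + D3) * θ) := ⟨_, rfl⟩
  have hH1 : 1 ≤ H := by
    rw [hH]
    have : 0 ≤ (3 + (r : ℝ)) * θ := by positivity
    linarith
  have hCza : (C2 + 1) + (2 * (C2 + 1) + D3) * θ ≤ Cz := by
    rw [hCz]
    have : 0 ≤ (6 + D3) * θ := by positivity
    linarith
  have hCzb : 3 + (6 + D3) * θ ≤ Cz := by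
    rw [hCz]
    have : 0 ≤ (2 * (C2 + 1) + D3) * θ := by positivity
    linarith
  have hCz3 : C2 ≤ Cz := by
    have : 0 ≤ (2 * (C2 + 1) + D3) * θ := by positivity
    linarith
  have hCz4 : 3 ≤ Cz := by
    have : 0 ≤ (6 + D3) * θ := by positivity
    linarith
  obtain ⟨R0, n0, hconf⟩ := hconf H Cz (1 / 8) (by norm_num)
  obtain ⟨R1, hR1⟩ : ∃ R1 : ℝ, R1 = max R0 0 := ⟨_, rfl⟩
  have hR10 : 0 ≤ R1 := by rw [hR1]; exact le_max_right _ _
  obtain ⟨CZ, hCZ⟩ : ∃ CZ, CZ = 4 * (R1 + 1) / c0 + 2 := ⟨_, rfl⟩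
  have hCZ0 : 0 < CZ := by rw [hCZ]; positivity
  obtain ⟨α₀, hα₀⟩ : ∃ α₀ : ℝ, α₀ = max 3 (Real.logb 2 (max H Cz)) := ⟨_, rfl⟩
  have hα3 : 3 ≤ α₀ := by rw [hα₀]; exact le_max_left _ _
  have hαH : max H Cz ≤ (2 : ℝ) ^ α₀ := by
    have h1 : 0 < max H Cz := lt_max_of_lt_left (by linarith)
    rw [← Real.rpow_logb two_pos (by norm_num) h1]
    refine Real.rpow_le_rpow_of_exponent_le one_le_two ?_
    rw [hα₀]
    exact le_max_right _ _
  refine ⟨α₀, fun a₁ => ?_⟩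
  obtain ⟨p, R, j, y0c, hp, hR0, hcore⟩ := hcore K a₁
  obtain ⟨q, hq⟩ : ∃ q : ℕ, q = ⌊8 * R / c0⌋₊ + 1 := ⟨_, rfl⟩
  have hq1 : 8 * R / c0 < q := by
    rw [hq]
    push_cast
    exact Nat.lt_floor_add_one _
  have hq0 : (0 : ℝ) < q := lt_of_le_of_lt (by positivity) hq1
  obtain ⟨j2, hj2⟩ := pow_unbounded_of_one_lt (3 + (r : ℝ)) (one_lt_two : (1 : ℝ) < 2)
  obtain ⟨t0, ht0⟩ : ∃ t0 : ℝ, t0 = p / (256 * (3 + (r : ℝ)) * CZ) / (578 * q * 2 ^ j) := ⟨_, rfl⟩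
  have ht00 : 0 < t0 := by rw [ht0]; positivity
  obtain ⟨C, hC⟩ : ∃ C : ℝ, C = max 0 (max (a₁ + (j + j2) / 2) (-Real.logb 2 t0)) := ⟨_, rfl⟩
  have hC00 : 0 ≤ C := by rw [hC]; exact le_max_left _ _
  have hCa : a₁ + (j + j2) / 2 ≤ C := by rw [hC]; exact (le_max_left _ _).trans (le_max_right _ _)
  have hCt : (2 : ℝ) ^ (-C) ≤ t0 := by
    rw [← Real.rpow_logb two_pos (by norm_num) ht00]
    refine Real.rpow_le_rpow_of_exponent_le one_le_two ?_
    have h1 : -Real.logb 2 t0 ≤ C := by rw [hC]; exact (le_max_right _ _).trans (le_max_right _ _)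
    linarith
  refine ⟨C, fun T => ?_⟩
  obtain ⟨nG, hnG⟩ := hG (Real.log (2 * (CZ * 2 ^ T)) + 1)
  obtain ⟨nW, -, hnW⟩ := Dirs.w_large hD hRt ha (max 1 (4 / c0))
  refine ⟨max (max y0c n0) (max nG nW), fun s hs y x hy hyx hxT hS => ?_⟩
  have hy1 : y0c ≤ y := ((le_max_left _ _).trans (le_max_left _ _)).trans hy
  have hy2 : n0 ≤ y := ((le_max_right _ _).trans (le_max_left _ _)).trans hy
  have hy3 : nG ≤ y := ((le_max_left _ _).trans (le_max_right _ _)).trans hy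
  have hy4 : nW ≤ y := ((le_max_right _ _).trans (le_max_right _ _)).trans hy
  have hfm := ff_mono hD ha hs hyx
  have hgm := gg_mono (μ := μ) (s := s) hyx
  rcases Nat.lt_or_ge x (y + j + j2) with hx | hx
  · -- the late scale is close
    refine (sf_late32 hS hyx).mono (le_max_of_le_left ?_)
    obtain ⟨k, rfl⟩ := Nat.exists_eq_add_of_le hyx
    have h1 := ff_add hD ha hs y k
    have h2 : (k : ℝ) ≤ j + j2 := by exact_mod_cast (by omega : k ≤ j + j2)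
    linarith
  by_contra hnot
  obtain ⟨al, hal⟩ : ∃ al : ℝ, al = max (gg μ s x - gg μ s y - (ff a μ s x - ff a μ s y) / 2 + C) α₀ := ⟨_, rfl⟩
  rw [← hal] at hnot
  have hal0 : α₀ ≤ al := by rw [hal]; exact le_max_right _ _
  have hal1 : gg μ s x - gg μ s y - (ff a μ s x - ff a μ s y) / 2 + C ≤ al := by rw [hal]; exact le_max_left _ _
  -- the scales
  obtain ⟨m, hm⟩ : ∃ m : ℕ, m = 2 ^ (y + j) := ⟨_, rfl⟩
  obtain ⟨n', hn'⟩ : ∃ n' : ℕ, n' = 2 ^ x := ⟨_, rfl⟩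
  obtain ⟨i, hi⟩ := Nat.exists_eq_add_of_le (show y + j ≤ x by omega)
  have hij : j2 ≤ i := by omega
  have hnm : n' = 2 ^ i * m := by
    rw [hn', hm, hi]
    ring
  have hm1 : 1 ≤ m := by rw [hm]; exact Nat.one_le_two_pow
  have hym : y ≤ m := by
    rw [hm]
    exact (Nat.lt_two_pow_self).le.trans (Nat.pow_le_pow_right (by norm_num) (by omega))
  have h2i : (2 : ℝ) ^ j2 ≤ 2 ^ i := pow_le_pow_right₀ one_le_two hij
  have hmn : m ≤ n' := by
    rw [hnm]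
    exact Nat.le_mul_of_pos_left m (by positivity)
  have hnmr : (n' : ℝ) = 2 ^ i * m := by
    rw [hnm]
    push_cast
    ring
  have hm0 : (0 : ℝ) < m := by exact_mod_cast hm1
  have hn'0 : (0 : ℝ) < n' := by exact_mod_cast hm1.trans hmn
  have hmn3 : (3 + r) * m ≤ n' := by
    have h1 : (3 + (r : ℝ)) * m ≤ 2 ^ i * m := mul_le_mul_of_nonneg_right (hj2.le.trans h2i) hm0.le
    rw [← hnmr] at h1
    have h2 : (((3 + r) * m : ℕ) : ℝ) ≤ n' := by
      push_cast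
      linarith
    exact_mod_cast h2
  obtain ⟨E0, hE0⟩ : ∃ E0, E0 = EE μ s m := ⟨_, rfl⟩
  obtain ⟨E', hE'⟩ : ∃ E', E' = EE μ s n' := ⟨_, rfl⟩
  obtain ⟨v, hv⟩ : ∃ v, v = vA a μ s m := ⟨_, rfl⟩
  obtain ⟨v', hv'⟩ : ∃ v', v' = vA a μ s n' := ⟨_, rfl⟩
  have hEm0 : 0 < E0 := by rw [hE0]; exact EE_pos _
  have hv0 : 0 < v := by rw [hv]; exact hD.vA_pos hs ha hm1
  have hv'0 : 0 < v' := by rw [hv']; exact hD.vA_pos hs ha (hm1.trans hmn)
  have hEE : E0 ≤ E' := by rw [hE0, hE']; exact EE_mono hmn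
  have hE'0 : 0 < E' := hEm0.trans_le hEE
  have hEmn : E' * m ≤ n' * E0 := by
    have h1 := EE_mul hμ s m (k := 2 ^ i) Nat.one_le_two_pow
    rw [← hnm, ← hE', ← hE0] at h1
    push_cast at h1
    rw [hnmr]
    calc E' * m ≤ 2 ^ i * E0 * m := mul_le_mul_of_nonneg_right h1 hm0.le
      _ = 2 ^ i * m * E0 := by ring
  have hEw : E' * (m * v) ≤ n' * v' * E0 := by
    have h1 := hD.EE_w hs ha.le (n := m) (k := 2 ^ i) hm1 Nat.one_le_two_pow
    rw [← hnm, ← hE', ← hE0, ← hv, ← hv'] at h1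
    exact h1
  have hww : (m : ℝ) * v ≤ n' * v' := by
    rw [hv, hv']
    exact hD.w_mono hs ha.le hm1 hmn
  have hwm : max 1 (4 / c0) ≤ m * v := by
    have h1 := hnW s hs m (hy4.trans hym)
    rw [← hv] at h1
    refine le_trans ?_ h1
    exact le_mul_of_one_le_right (le_max_of_le_left zero_le_one) (one_le_EE m)
  have hwm1 : 1 ≤ m * v := (le_max_left _ _).trans hwm
  have hwm4 : 4 ≤ c0 * (m * v) := by
    have h1 : 4 / c0 ≤ m * v := (le_max_right _ _).trans hwm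
    rw [div_le_iff₀ hc0] at h1
    linarith
  have hElog := hnG s hs m (hy3.trans hym)
  rw [← hE0] at hElog
  -- the ratio of the scales
  have hiT : i ≤ T := by omega
  have h2T : (2 : ℝ) ^ i ≤ 2 ^ T := pow_le_pow_right₀ one_le_two hiT
  have hvle : v' ≤ v := by
    have h1 := hD.vA_mul_le hs ha.le (n := m) (k := 2 ^ i) hm1 Nat.one_le_two_pow
    rw [← hnm, ← hv, ← hv'] at h1
    exact h1
  have hwT : n' * v' / (m * v) ≤ 2 ^ T := by
    rw [div_le_iff₀ (by positivity), hnmr]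
    have h1 : (2 : ℝ) ^ i * m * v' ≤ 2 ^ T * m * v := by
      refine mul_le_mul (mul_le_mul_of_nonneg_right h2T hm0.le) hvle hv'0.le (by positivity)
    linarith
  -- the cheap displacements
  have hep : ∀ (N : ℕ) (u : ℤ), 0 ≤ u → u ≤ N → e μ s N u ≤ C' * EE μ s N →
      e μ s N u ≤ C2 * EE μ s N ∧ ep μ s N u ≤ (C2 + 1) * EE μ s N := by
    intro N u hu0 hu1 hu
    have h1 := ep_le61 hμ s hu0 hu1
    have h2 := le_EE (μ := μ) (s := s) (le_refl N)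
    have h3 := mul_le_mul_of_nonneg_right hC2C (EE_pos (μ := μ) (s := s) N).le
    constructor <;> linarith
  obtain ⟨lo, hh, hlo0, hlo1, hlo2, hhm, hlen, hcheap⟩ := hch s hs m hm1
  obtain ⟨lo', hh', hlo0', hlo1', hlo2', hhm', -, hcheap'⟩ := hch s hs n' (hm1.trans hmn)
  have hxs := xs_mem (μ := μ) (s := s) n'
  have hx0 := hcheap' (xs μ s n') hlo1' hlo2'
  have hx0' := hep n' (xs μ s n') hxs.1 hxs.2 hx0.1
  obtain ⟨k, hk0, hkM, hpE, hk1, hk2⟩ := hcore s hs y hy1 hS m hm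
  unfold wH at hlen hcheap hx0 hpE hk2 hconf
  rw [← hv] at hpE hk2 hlen
  rw [← hv'] at hx0
  rw [← hE0] at hpE hk1
  rw [← hE'] at hx0'
  -- the window of the confinement
  have hxl : |(xs μ s n' : ℝ) - sl μ s * n'| ≤ Cz * (n' * v') := by
    refine hx0.2.trans ?_
    have h1 : 3 * (n' * v') ≤ Cz * (n' * v') := mul_le_mul_of_nonneg_right hCz4 (by positivity)
    linarith
  have hR00 : 0 ≤ R0 := by
    by_contra hR
    rw [not_le] at hR
    have h1 := hconf s hs n' n' (hy2.trans (hym.trans hmn)) le_rfl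
      (le_mul_of_one_le_left hn'0.le hH1) (xs μ s n') hxs.1 hxs.2
      (by
        rw [← hE']
        exact hx0'.1.trans (mul_le_mul_of_nonneg_right hCz3 hE'0.le))
      (by
        rw [← hv']
        exact hxl) 0 (Nat.zero_le _)
    have h2 : ((Finset.Icc (0 : ℤ) ((0 : ℕ) : ℤ)).filter
        (fun p : ℤ => |(p : ℝ) - sl μ s * ((0 : ℕ) : ℝ)| ≤ R0 * (n' * vA a μ s n'))) = ∅ := by
      refine Finset.filter_eq_empty_iff.2 fun u _ => ?_
      rw [not_le, ← hv']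
      have h3 : R0 * (n' * v') < 0 := mul_neg_of_neg_of_pos hR (by positivity)
      exact h3.trans_le (abs_nonneg _)
    rw [h2] at h1
    simp only [Finset.sum_empty, integral_zero] at h1
    norm_num at h1
  have hR01 : R1 = R0 := by rw [hR1]; exact max_eq_left hR00
  -- the fluctuation
  obtain ⟨β, hβ⟩ : ∃ β : ℝ, β = (2 : ℝ) ^ (-al) := ⟨_, rfl⟩
  have hβ0 : 0 < β := by rw [hβ]; positivity
  have hβ8 : β ≤ 1 / 8 := by
    have h1 : β ≤ (2 : ℝ) ^ (-3 : ℝ) := by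
      rw [hβ]
      exact Real.rpow_le_rpow_of_exponent_le one_le_two (by linarith)
    have h2 : (2 : ℝ) ^ (-3 : ℝ) = 1 / 8 := by
      rw [Real.rpow_neg two_pos.le]
      norm_num
    exact h1.trans_eq h2
  obtain ⟨σ, hσ⟩ : ∃ σ : ℝ, σ = β * E' := ⟨_, rfl⟩
  have hσ0 : 0 ≤ σ := by rw [hσ]; positivity
  have hσ8 : 8 * σ ≤ E' := by
    rw [hσ]
    have h1 := mul_le_mul_of_nonneg_right hβ8 hE'0.le
    linarith
  have h2al : max H Cz ≤ (2 : ℝ) ^ al := hαH.trans (Real.rpow_le_rpow_of_exponent_le one_le_two hal0)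
  -- the ratios
  obtain ⟨P, hP⟩ : ∃ P : ℝ, P = (2 : ℝ) ^ (ff a μ s x - ff a μ s y) := ⟨_, rfl⟩
  have hP0 : 0 < P := by rw [hP]; positivity
  obtain ⟨t, ht⟩ : ∃ t : ℝ, t = (2 : ℝ) ^ (-C) := ⟨_, rfl⟩
  have ht0' : 0 < t := by rw [ht]; positivity
  have ht1 : t ≤ 1 := by
    rw [ht]
    exact Real.rpow_le_one_of_one_le_of_nonpos one_le_two (by linarith)
  have hEn : EE μ s (2 ^ y) ≤ K * E0 := by
    have h1 : EE μ s (2 ^ y) ≤ E0 := by
      rw [hE0, hm]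
      exact EE_mono (Nat.pow_le_pow_right (by norm_num) (by omega))
    exact h1.trans (le_mul_of_one_le_left hEm0.le hK1)
  have hs2 : σ ^ 2 ≤ t ^ 2 * P * (K * E0) ^ 2 := by
    have h1 : σ ≤ t * 2 ^ ((ff a μ s x - ff a μ s y) / 2) * EE μ s (2 ^ y) := by
      rw [hσ, hβ, hE', hn', ← pow_gg s x, ← pow_gg s y, ht, ← Real.rpow_add two_pos, ← Real.rpow_add two_pos,
        ← Real.rpow_add two_pos]
      exact Real.rpow_le_rpow_of_exponent_le one_le_two (by linarith)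
    have h2 : σ ≤ t * 2 ^ ((ff a μ s x - ff a μ s y) / 2) * (K * E0) :=
      h1.trans (mul_le_mul_of_nonneg_left hEn (by positivity))
    have h3 : ((2 : ℝ) ^ ((ff a μ s x - ff a μ s y) / 2)) ^ 2 = P := by
      rw [hP, ← Real.rpow_natCast, ← Real.rpow_mul two_pos.le]
      congr 1
      push_cast
      ring
    calc σ ^ 2 ≤ (t * 2 ^ ((ff a μ s x - ff a μ s y) / 2) * (K * E0)) ^ 2 := pow_le_pow_left₀ hσ0 h2 2
      _ = t ^ 2 * ((2 : ℝ) ^ ((ff a μ s x - ff a μ s y) / 2)) ^ 2 * (K * E0) ^ 2 := by ring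
      _ = t ^ 2 * P * (K * E0) ^ 2 := by rw [h3]
  have hβ1 : β ≤ t * P := by
    rw [hβ, ht, hP, ← Real.rpow_add two_pos]
    exact Real.rpow_le_rpow_of_exponent_le one_le_two (by linarith)
  have hvv : P ≤ 2 ^ j * (v / v') := by
    have h1 := ff_add hD ha hs y j
    have h2 : v / v' = 2 ^ (ff a μ s x - ff a μ s (y + j)) := by
      rw [hv, hv', hm, hn', ← pow_ff hD ha hs (y + j), ← pow_ff hD ha hs x, ← Real.rpow_sub two_pos]
      congr 1
      ring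
    rw [h2, hP, ← Real.rpow_natCast, ← Real.rpow_add two_pos]
    exact Real.rpow_le_rpow_of_exponent_le one_le_two (by linarith)
  have hK8 : 2 + 2 * (C2 + 1) + (2 * (C2 + 1) + D3) / 8 ≤ K / 8 := by
    rw [hK]
    linarith
  have key := hb_one32 (μ := μ) (s := s) hμ (r := r) (m := m) (n' := n') (lo := lo) (hi := hh) (k := k)
    (x0 := xs μ s n') (E' := E') (Em := E0) (w' := n' * v') (wm := m * v)
    (C2 := C2) (C3 := D3) (K := K) (H := H) (Cz := Cz) (R := R) (R1 := R1) (c0 := c0)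
    (σ := σ) (β := β) (p := p) (by linarith) hD30 hK0 hK8 (by rw [hH, hθ]) (by rw [← hθ]; exact hCza)
    (by rw [← hθ]; exact hCzb) hm1 hmn3 hEm0 hEE hEmn hEw hww hwm1 hc0 hwm4 hlo0 hhm hlen
    (fun u hu1 hu2 => by
      have h1 := hcheap u hu1 hu2
      have h2 := (hep m u (hlo0.trans hu1) (hu2.trans hhm) h1.1).2
      rw [← hE0] at h2
      rw [← hv] at h1
      exact ⟨h2, h1.2⟩) hxs.1 hxs.2 hx0'.1 hx0'.2 hx0.2 hk0 hkM
    (hk1.trans (mul_le_mul_of_nonneg_right hD3C hEm0.le))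
    (hk2.trans (mul_le_mul_of_nonneg_right hD3C (by positivity))) hR0 hp hpE hσ0 hσ8 hβ8
    (fun N u hnN hNH hu0 hu1 he => by
      have h1 := conc_of_not_Sf hnot (l := N) (by
        rw [Real.rpow_add two_pos, Real.rpow_natCast]
        have h2 : H * n' ≤ 2 ^ al * n' := mul_le_mul_of_nonneg_right ((le_max_left _ _).trans h2al) hn'0.le
        have h3 : (n' : ℝ) = 2 ^ x := by
          rw [hn']
          push_cast
          rfl
        rw [← h3]
        linarith) (poly_W4 N u) (fun η => W_pos η 0 hu0 hu1) (log_W_le_V4 hu0 hu1) (by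
        rw [int_log_W4, ← hn', ← hE']
        have h2 := mul_le_mul_of_nonneg_right ((le_max_right _ _).trans h2al) hE'0.le
        linarith)
      rw [← hn', ← hE', ← hβ, ← hσ] at h1
      refine le_trans (le_of_eq ?_) h1.le
      unfold Fl48 X
      simp only [neg_neg])
    (fun N u hnN hNH hu0 hu1 he hlat t htN => by
      have h3 := hconf s hs n' N (hy2.trans (hym.trans hmn)) hnN hNH u hu0 hu1 (by rw [← hE']; exact he)
        (by rw [← hv']; exact hlat) t htN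
      rw [← hv', ← hR01] at h3
      exact h3) hR10
    (by
      rw [← hCZ]
      have h1 : Real.log (2 * (CZ * (n' * v' / (m * v)))) ≤ Real.log (2 * (CZ * 2 ^ T)) := by
        refine Real.log_le_log (by positivity) ?_
        have := mul_le_mul_of_nonneg_left hwT hCZ0.le
        linarith
      linarith) (q := q) hq1
  rw [← hCZ] at key
  refine hb_num32 (rr := (r : ℝ)) (t := t) (P := P) (J2 := 2 ^ j) hp (Nat.cast_nonneg _) hn'0 hm0 hv0 hv'0
    (show 0 < K * E0 by positivity) hCZ0 hq0 hσ0 hβ0.le ht0' ht1 hP0 (by positivity) key hs2 hβ1 hβ8 hvv ?_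
  have h1 : t ≤ t0 := by rw [ht]; exact hCt
  have h2 : 578 * q * t * 2 ^ j ≤ 578 * q * t0 * 2 ^ j :=
    mul_le_mul_of_nonneg_right (mul_le_mul_of_nonneg_left h1 (by positivity)) (by positivity)
  have h3 : 578 * q * t0 * 2 ^ j = p / (256 * (3 + (r : ℝ)) * CZ) := by
    rw [ht0]
    field_simp
  have h4 : 0 < q * t * 2 ^ j := by positivity
  linarith

end

end Pool.Agent.W_7d29a1_H
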