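import Pool.Agent.W_7d29a1_H.PredH
import Pool.Agent.W_7d29a1_h48.Ins

/-!
# Track H, section (B): the cores of the blocks, every tilt (helper48)
-/

set_option autoImplicit false

namespace Pool.Agent.W_7d29a1_H

open MeasureTheory ProbabilityTheory Finset Pool.Agent.W_7d29a1_f21 Pool.Agent.W_7d29a1_F
open Pool.Agent.W_7d29a1_h48 (WR_mono_env)

noncomputable section

variable {μ : Measure ℝ} {s : ℝ}

open Classical in
/-- The finite set of sites of the block. -/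
def Db48 (v b : ℝ) (M : ℕ) (a : Pt) : Finset Pt :=
  (Finset.Icc (a.1 + 1) (a.1 + M) ×ˢ Finset.Icc (a.2 - M) (a.2 + M)).filter fun p => p ∈ tb v a b

lemma mem_Db48 {v b : ℝ} {M : ℕ} {a p : Pt} : p ∈ Db48 v b M a ↔
    (a.1 < p.1 ∧ p.1 ≤ a.1 + M ∧ a.2 - M ≤ p.2 ∧ p.2 ≤ a.2 + M) ∧ p ∈ tb v a b := by
  classical
  unfold Db48
  rw [Finset.mem_filter, Finset.mem_product, Finset.mem_Icc, Finset.mem_Icc]
  constructor
  · rintro ⟨⟨⟨h1, h2⟩, h3, h4⟩, h5⟩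
    exact ⟨⟨by omega, h2, h3, h4⟩, h5⟩
  · rintro ⟨⟨h1, h2, h3, h4⟩, h5⟩
    exact ⟨⟨⟨by omega, h2⟩, h3, h4⟩, h5⟩

lemma Db_rows48 (v b : ℝ) (M : ℕ) (a : Pt) : (Db48 v b M a : Set Pt) ⊆ rows a.1 (a.1 + M) := by
  intro p hp
  have h := (mem_Db48.1 hp).1
  exact ⟨h.1, h.2.1⟩

lemma WR_dep48 (v b : ℝ) (M : ℕ) (k : ℤ) (a : Pt) :
    DependsOn (fun η : Env => WR μ s (tb v a b) η a M k) (Db48 v b M a : Set Pt) := by
  intro η η' h
  refine WR_dep (μ := μ) (s := s) (tb v a b) a M k fun p hp => h p ?_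
  obtain ⟨⟨h1, h2, h3, h4, h5, h6⟩, h7⟩ := hp
  refine mem_Db48.2 ⟨⟨h1, h2, by omega, by omega⟩, h7⟩

/-- The indicator of the core event. -/
def Gb48 (μ : Measure ℝ) (s b Y : ℝ) (M : ℕ) (k : ℤ) (a : Pt) (η : Env) : ℝ := io (EvH μ s b Y M k a η)

lemma measSet_Ev48 (s b Y : ℝ) (M : ℕ) (k : ℤ) (a : Pt) : MeasurableSet {η | EvH μ s b Y M k a η} :=
  measurableSet_le measurable_const (Real.measurable_log.comp (measurable_WR _ _ _ _))

lemma Gb_meas48 (s b Y : ℝ) (M : ℕ) (k : ℤ) (a : Pt) : Measurable (Gb48 μ s b Y M k a) :=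
  measurable_io (measSet_Ev48 s b Y M k a)

lemma Gb_nonneg48 (s b Y : ℝ) (M : ℕ) (k : ℤ) (a : Pt) (η : Env) : 0 ≤ Gb48 μ s b Y M k a η := io_nonneg _

lemma Gb_le_one48 (s b Y : ℝ) (M : ℕ) (k : ℤ) (a : Pt) (η : Env) : Gb48 μ s b Y M k a η ≤ 1 := io_le_one _

lemma Gb_dep48 (s b Y : ℝ) (M : ℕ) (k : ℤ) (a : Pt) :
    DependsOn (Gb48 μ s b Y M k a) (Db48 (sl μ s) b M a : Set Pt) := by
  intro η η' h
  have e := WR_dep48 (μ := μ) (s := s) (sl μ s) b M k a h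
  have e2 : WR μ s (tb (sl μ s) a b) η a M k = WR μ s (tb (sl μ s) a b) η' a M k := e
  show io (Y ≤ Real.log (WR μ s (tb (sl μ s) a b) η a M k)) =
    io (Y ≤ Real.log (WR μ s (tb (sl μ s) a b) η' a M k))
  rw [e2]

lemma Ev_pos48 {b Y : ℝ} (hY : 0 < Y) {M : ℕ} {k : ℤ} {a : Pt} {η : Env} (h : EvH μ s b Y M k a η) :
    0 < WR μ s (tb (sl μ s) a b) η a M k := by
  rcases (WR_nonneg (μ := μ) (s := s) (tb (sl μ s) a b) η a M k).eq_or_lt with h0 | h0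
  · unfold EvH at h
    rw [← h0, Real.log_zero] at h
    linarith
  · exact h0

lemma Gb_mono48 {b Y : ℝ} (hY : 0 < Y) (M : ℕ) (k : ℤ) (a : Pt) : Monotone (Gb48 μ s b Y M k a) := by
  intro η η' h
  by_cases h1 : EvH μ s b Y M k a η
  · have h2 : EvH μ s b Y M k a η' := by
      refine le_trans h1 (Real.log_le_log (Ev_pos48 hY h1) (WR_mono_env _ h _ _ _))
    show io _ ≤ io _
    rw [io_of h1, io_of h2]
  · show io _ ≤ io _
    rw [io_not h1]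
    exact io_nonneg _

/-- On the event the core displacement has luck at least `Y`. -/
lemma Gb_luck48 {b Y : ℝ} (hY : 0 < Y) {M : ℕ} {k : ℤ} {a : Pt} {η : Env} (h : Gb48 μ s b Y M k a η ≠ 0) :
    Y ≤ -X μ s η a M k := by
  have h1 : EvH μ s b Y M k a η := by
    by_contra hc
    exact h (io_not hc)
  unfold X
  rw [neg_neg]
  exact le_trans h1 (Real.log_le_log (Ev_pos48 hY h1) (WR_le_W _ _ _ _ _))

variable [IsProbabilityMeasure μ]

lemma tb_sh48 (v : ℝ) (a : Pt) (b : ℝ) : {p | p + a ∈ tb v a b} = tb v 0 b := by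
  ext p
  simp only [tb, Set.mem_ofPred_eq, Prod.fst_add, Prod.snd_add, Prod.fst_zero, Prod.snd_zero,
    add_sub_cancel_right, sub_zero]

/-- All the blocks have the same probability. -/
lemma Gb_int48 (s b Y : ℝ) (M : ℕ) (k : ℤ) (a : Pt) :
    ∫ η, Gb48 μ s b Y M k a η ∂(law μ) = (law μ).real {η | EvH μ s b Y M k 0 η} := by
  have h1 := mp_integral (mp_sh (μ := μ) a) (F := Gb48 μ s b Y M k 0)
    (Gb_meas48 s b Y M k 0).aestronglyMeasurable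
  have h2 : ∀ η, Gb48 μ s b Y M k 0 (sh a η) = Gb48 μ s b Y M k a η := by
    intro η
    have e := WR_sh (μ := μ) (s := s) (tb (sl μ s) a b) η 0 a M k
    rw [tb_sh48, zero_add] at e
    show io (Y ≤ Real.log (WR μ s (tb (sl μ s) 0 b) (sh a η) 0 M k)) =
      io (Y ≤ Real.log (WR μ s (tb (sl μ s) a b) η a M k))
    rw [e]
  simp only [h2] at h1
  rw [h1]
  have h3 : ∀ η, Gb48 μ s b Y M k 0 η = Set.indicator {η | EvH μ s b Y M k 0 η} (fun _ => (1 : ℝ)) η := by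
    intro η
    by_cases h : EvH μ s b Y M k 0 η
    · rw [Set.indicator_of_mem (show η ∈ {η | EvH μ s b Y M k 0 η} from h)]
      exact io_of h
    · rw [Set.indicator_of_notMem (show η ∉ {η | EvH μ s b Y M k 0 η} from h)]
      exact io_not h
  simp only [h3]
  rw [integral_indicator (measSet_Ev48 s b Y M k 0)]
  simp

/-- Blocks with disjoint sets of sites are independent. -/
lemma Gb_indep48 {b Y : ℝ} {M : ℕ} {k : ℤ} {a a' : Pt}
    (h : Disjoint (Db48 (sl μ s) b M a : Set Pt) (Db48 (sl μ s) b M a' : Set Pt)) :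
    ∫ η, Gb48 μ s b Y M k a η * Gb48 μ s b Y M k a' η ∂(law μ) =
      (∫ η, Gb48 μ s b Y M k a η ∂(law μ)) * ∫ η, Gb48 μ s b Y M k a' η ∂(law μ) :=
  integral_mul_indep (μ := μ) (Db48 (sl μ s) b M a : Set Pt) (Gb_meas48 s b Y M k a) (Gb_meas48 s b Y M k a')
    (Gb_dep48 s b Y M k a) fun η η' hh => Gb_dep48 s b Y M k a' fun p hp => hh p fun hp' =>
      Set.disjoint_left.1 h hp' hp

/-- Blocks in different slabs, or far from each other, are disjoint. -/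
lemma Db_disj_rows48 {v b : ℝ} {M : ℕ} {a a' : Pt} (h : a.1 + M ≤ a'.1) :
    Disjoint (Db48 v b M a : Set Pt) (Db48 v b M a' : Set Pt) :=
  (rows_disj h).mono (Db_rows48 v b M a) (Db_rows48 v b M a')

lemma Db_disj_cols48 {v b : ℝ} {M : ℕ} {a a' : Pt} (h1 : a.1 = a'.1)
    (h2 : 2 * b < |((a.2 - a'.2 : ℤ) : ℝ)|) :
    Disjoint (Db48 v b M a : Set Pt) (Db48 v b M a' : Set Pt) := by
  rw [Set.disjoint_left]
  intro p hp hp'
  have h3 : |((p.2 - a.2 : ℤ) : ℝ) - v * ((p.1 - a.1 : ℤ) : ℝ)| ≤ b := (mem_Db48.1 hp).2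
  have h4 : |((p.2 - a'.2 : ℤ) : ℝ) - v * ((p.1 - a'.1 : ℤ) : ℝ)| ≤ b := (mem_Db48.1 hp').2
  rw [h1] at h3
  have h5 : ((a.2 - a'.2 : ℤ) : ℝ) =
      (((p.2 - a'.2 : ℤ) : ℝ) - v * ((p.1 - a'.1 : ℤ) : ℝ)) -
        (((p.2 - a.2 : ℤ) : ℝ) - v * ((p.1 - a'.1 : ℤ) : ℝ)) := by
    push_cast
    ring
  rw [h5] at h2
  have h6 := abs_sub (((p.2 - a'.2 : ℤ) : ℝ) - v * ((p.1 - a'.1 : ℤ) : ℝ))
    (((p.2 - a.2 : ℤ) : ℝ) - v * ((p.1 - a'.1 : ℤ) : ℝ))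
  linarith

end

end Pool.Agent.W_7d29a1_H
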