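import Pool.Agent.W_7d29a1_H.BStep48
import Pool.Agent.W_1b8d5d_h48.EndP

/-!
# Track H, section (B), many steps (helper48)
-/

set_option autoImplicit false

namespace Pool.Agent.W_7d29a1_H

open MeasureTheory ProbabilityTheory Finset Pool.Agent.W_7d29a1_f21 Pool.Agent.W_7d29a1_F
open Pool.Agent.W_7d29a1_h48 (pin)
open Pool.Agent.W_1b8d5d_h48 (clip clip_lip clip_ge clip_le var_clip chain_abs)

noncomputable section

variable {μ : Measure ℝ} {s : ℝ} [IsProbabilityMeasure μ]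

/-- **Many steps.** The displacements `(N₀ + i l, y₀ + i kk)`, `l = m + M + m`, `kk = uo + k + uo`, `i ≤ Ms`. -/
theorem many48 (hμ : Pool.Agent.W_7d29a1_h47.EM μ) {m M N₀ J Z q Ms : ℕ} {wc uo k y₀ : ℤ} {cen : ℕ → ℕ → ℤ}
    {b Y p A x δ β σ E₀ : ℝ}
    (hwc : 0 < wc) (huo1 : wc ≤ uo) (huo2 : uo + wc ≤ m) (hk0 : 0 ≤ k) (hk1 : k ≤ M) (hy0 : 0 ≤ y₀) (hy1 : y₀ ≤ N₀)
    (hq1 : 0 < q) (hq : 2 * b < q * wc) (hZ : 1 ≤ Z) (hJ : J * (m + M + m) ≤ N₀) (hY : 0 < Y) (hp0 : 0 < p)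
    (hp : p ≤ (law μ).real {η | EvH μ s b Y M k 0 η})
    (hA : ∀ u : ℤ, |u - uo| ≤ wc → ∫ η, max (X μ s η 0 m u) 0 ∂(law μ) ≤ A)
    (hx : ∫ η, max (X μ s η 0 (m + M + m) (uo + k + uo)) 0 ∂(law μ) ≤ x)
    (hδ : ∀ i < Ms, ∀ t : ℕ, t ≤ N₀ + i * (m + M + m) → 1 - δ ≤
      ∫ η, ∑ u ∈ win48 (cen i t) t wc Z, pin μ s η t (N₀ + i * (m + M + m) - t) (y₀ + i * (uo + k + uo)) u ∂(law μ))
    (hδ1 : δ ≤ 1 / 8) (hβ1 : β ≤ 1 / 8) (hσ : 0 ≤ σ)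
    (hcon : ∀ i ≤ Ms, (law μ).real {η | σ ≤ |Fl48 μ s (N₀ + i * (m + M + m)) (y₀ + i * (uo + k + uo)) η -
      ∫ ξ, Fl48 μ s (N₀ + i * (m + M + m)) (y₀ + i * (uo + k + uo)) ξ ∂(law μ)|} ≤ β)
    (hsmall : Real.log (2 * Z) + 1 + 2 * A + x * δ ≤ Y / 8)
    (hE₀ : e μ s N₀ y₀ - e μ s (N₀ + Ms * (m + M + m)) (y₀ + Ms * (uo + k + uo)) ≤ E₀)
    (hbig : E₀ + 2 * σ + 2 * (8 * (Y + σ)) / 7 < Ms * Y / 4) :
    p * J * (Y / 8) ^ 2 / (2 * Z) ≤ q * (σ ^ 2 + (2 * (8 * (Y + σ))) ^ 2 * β) := by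
  by_contra hcontra
  rw [not_le] at hcontra
  obtain ⟨l, hl⟩ : ∃ l : ℕ, l = m + M + m := ⟨_, rfl⟩
  obtain ⟨kk, hkk⟩ : ∃ kk : ℤ, kk = uo + k + uo := ⟨_, rfl⟩
  obtain ⟨H, hH⟩ : ∃ H : ℝ, H = 8 * (Y + σ) := ⟨_, rfl⟩
  have hlz : (l : ℤ) = m + M + m := by rw [hl]; push_cast; ring
  have hkk0 : 0 ≤ kk := by omega
  have hkk1 : kk ≤ l := by omega
  rw [← hl, ← hkk] at hδ hcon hE₀
  rw [← hH] at hcontra hbig
  have hH0 : 0 < H := by rw [hH]; linarith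
  have hrg : ∀ i : ℕ, 0 ≤ y₀ + i * kk ∧ y₀ + i * kk ≤ ((N₀ + i * l : ℕ) : ℤ) := by
    intro i
    have h1 : 0 ≤ (i : ℤ) * kk := by positivity
    have h2 : (i : ℤ) * kk ≤ i * l := mul_le_mul_of_nonneg_left hkk1 (Int.natCast_nonneg _)
    push_cast
    constructor <;> linarith
  obtain ⟨f, hf⟩ : ∃ f : ℕ → Env → ℝ, ∀ i, f i = Fl48 μ s (N₀ + i * l) (y₀ + i * kk) := ⟨_, fun _ => rfl⟩
  have hfm : ∀ i, Measurable (f i) := fun i => by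
    rw [hf]
    exact (Fl_sub48 (hrg i).1 (hrg i).2).1
  have hfi : ∀ i, Integrable (f i) (law μ) := fun i => by
    rw [hf]
    exact (Fl_sub48 (hrg i).1 (hrg i).2).integrable hμ
  have hfint : ∀ i, ∫ ξ, f i ξ ∂(law μ) = -e μ s (N₀ + i * l) (y₀ + i * kk) := fun i => by
    rw [hf]
    unfold Fl48 e
    rw [integral_neg]
  refine chain_abs (P := law μ) (Ms := Ms) (Y := Y) (δ := δ) (β := β) (s := σ) (H := H)
    (E₀ := E₀) (F := f) hH hfm hfi hY hδ1 hβ1 hσ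
    (fun i hi => by
      rw [hf]
      exact hcon i hi)
    (fun i hi c g hg1 => ?_)
    (by
      rw [hfint, hfint]
      have e1 : N₀ + 0 * l = N₀ := by ring
      have e2 : y₀ + ((0 : ℕ) : ℤ) * kk = y₀ := by simp
      rw [e1, e2]
      linarith) hbig
  by_contra hc
  rw [not_le] at hc
  have e1 : N₀ + i * l + l = N₀ + (i + 1) * l := by ring
  have e2 : y₀ + (i : ℤ) * kk + kk = y₀ + ((i + 1 : ℕ) : ℤ) * kk := by
    push_cast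
    ring
  have h1 := step48 (μ := μ) (s := s) hμ (m := m) (M := M) (N := N₀ + i * l) (J := J) (Z := Z) (q := q)
    (wc := wc) (uo := uo) (k := k) (y := y₀ + i * kk) (cen := cen i) (b := b) (Y := Y) (p := p) (A := A) (x := x) (δ := δ)
    hwc huo1 huo2 hk0 hk1 (hrg i).1 (hrg i).2 hq1 hq hZ (hJ.trans (Nat.le_add_right _ _)) hY hp0 hp
    hA hx (hδ i hi) (clip_lip c H) (g := g) (K := Y / 8) (by rw [hf] at hg1; exact hg1) (by linarith)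
    (by
      rw [← hl, ← hkk, e1, e2]
      rw [hf, hf] at hc
      linarith)
  rw [← hl, ← hkk, e1, e2] at h1
  have h2 := var_clip (P := law μ) (hfm (i + 1)) (c := c) (H := H) (s := σ) (β := β)
    (m := ∫ ξ, f (i + 1) ξ ∂(law μ)) hH0.le (by
      rw [hf]
      exact hcon (i + 1) hi)
  have h3 := mul_le_mul_of_nonneg_left h2 (Nat.cast_nonneg (α := ℝ) q)
  rw [hf] at h3
  linarith

end

end Pool.Agent.W_7d29a1_H
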