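import Pool.Agent.W_7d29a1_H.BMany48
import Pool.Agent.W_7d29a1_H.UnitH

/-!
# Track H, section (B): the assembly at one scale (helper32; model `W_1b8d5d_p.HbOne32`)
-/

set_option autoImplicit false

namespace Pool.Agent.W_7d29a1_H

open MeasureTheory ProbabilityTheory Filter Topology
open Pool.Agent.W_7d29a1_F Pool.Agent.W_7d29a1_h4g
open Pool.Agent.W_7d29a1_h47 (EM Nondeg)
open Pool.Agent.W_7d29a1_h48 (pin)

noncomputable section

variable {μ : Measure ℝ} [IsProbabilityMeasure μ] {s : ℝ}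

private theorem o_intp (hμ : EM μ) (a : Pt) {n : ℕ} {y : ℤ} (h0 : 0 ≤ y) (h1 : y ≤ n) :
    Integrable (fun η => max (X μ s η a n y) 0) (law μ) := ((Sub_X a h0 h1).integrable hμ).pos_part

private theorem o_at (a : Pt) (n : ℕ) (y : ℤ) : ∫ η, max (X μ s η a n y) 0 ∂(law μ) = ep μ s n y := by
  have h1 : ∀ η : Env, max (X μ s η a n y) 0 = (fun ξ : Env => max (X μ s ξ 0 n y) 0) (sh a η) := by
    intro η
    simp only
    rw [X_sh, zero_add]
  have hm : Measurable fun ξ : Env => max (X μ s ξ 0 n y) 0 := by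
    unfold X
    exact (Real.measurable_log.comp (measurable_W 0 n y)).neg.max measurable_const
  calc ∫ η, max (X μ s η a n y) 0 ∂(law μ)
      = ∫ η, (fun ξ : Env => max (X μ s ξ 0 n y) 0) (sh a η) ∂(law μ) :=
        integral_congr_ae (Eventually.of_forall fun η => h1 η)
    _ = ep μ s n y := by
        unfold ep
        conv_rhs => rw [← (mp_sh (μ := μ) a).map_eq]
        rw [integral_map (mp_sh (μ := μ) a).measurable.aemeasurable hm.aestronglyMeasurable]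

theorem ep_sub32 (hμ : EM μ) {m n : ℕ} {k y : ℤ} (h0 : 0 ≤ k) (h1 : k ≤ m) (h2 : 0 ≤ y) (h3 : y ≤ n) :
    ep μ s (m + n) (k + y) ≤ ep μ s m k + ep μ s n y := by
  have hpt : ∀ η : Env, max (X μ s η 0 (m + n) (k + y)) 0 ≤
      max (X μ s η 0 m k) 0 + max (X μ s η ((0 : Pt) + ((m : ℤ), k)) n y) 0 := by
    intro η
    have h := X_add_le (μ := μ) (s := s) η 0 h0 h1 h2 h3
    have e1 : X μ s η ((0 : Pt) + ((m : ℤ), k)) n y = X μ s η ((0 : Pt).1 + m, (0 : Pt).2 + k) n y := rfl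
    rw [e1]
    refine max_le (h.trans (add_le_add (le_max_left _ _) (le_max_left _ _))) ?_
    exact add_nonneg (le_max_right _ _) (le_max_right _ _)
  have h5 := integral_mono (μ := law μ)
    (o_intp (s := s) hμ 0 (n := m + n) (y := k + y) (by omega) (by push_cast; omega))
    ((o_intp hμ 0 h0 h1).add (o_intp hμ ((0 : Pt) + ((m : ℤ), k)) h2 h3)) fun η => hpt η
  have h6 : ∫ η, (max (X μ s η 0 m k) 0 + max (X μ s η ((0 : Pt) + ((m : ℤ), k)) n y) 0) ∂(law μ) =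
      ep μ s m k + ep μ s n y := by
    rw [integral_add (o_intp hμ 0 h0 h1) (o_intp hμ ((0 : Pt) + ((m : ℤ), k)) h2 h3)]
    exact congrArg₂ (· + ·) rfl (o_at ((0 : Pt) + ((m : ℤ), k)) n y)
  exact h5.trans h6.le

theorem e_le_ep32 (hμ : EM μ) {n : ℕ} {y : ℤ} (h0 : 0 ≤ y) (h1 : y ≤ n) : e μ s n y ≤ ep μ s n y :=
  integral_mono ((Sub_X 0 h0 h1).integrable hμ) (o_intp hμ 0 h0 h1) fun _ => le_max_left _ _

/-- Repeated displacements. -/
theorem ep_mul32 (hμ : EM μ) {l : ℕ} {y : ℤ} (hy0 : 0 ≤ y) (hy1 : y ≤ l) {n : ℕ} {z : ℤ} (hz0 : 0 ≤ z) (hz1 : z ≤ n)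
    (i : ℕ) : ep μ s (n + i * l) (z + i * y) ≤ ep μ s n z + i * ep μ s l y := by
  induction i with
  | zero => simp
  | succ i ih =>
    have h1 := ep_sub32 (s := s) hμ (m := n + i * l) (n := l) (k := z + i * y) (y := y)
      (add_nonneg hz0 (mul_nonneg (Int.natCast_nonneg _) hy0))
      (by
        push_cast
        exact add_le_add hz1 (mul_le_mul_of_nonneg_left hy1 (Int.natCast_nonneg _))) hy0 hy1
    have e1 : n + (i + 1) * l = n + i * l + l := by ring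
    have e2 : z + ((i + 1 : ℕ) : ℤ) * y = z + i * y + y := by
      push_cast
      ring
    rw [e1, e2]
    push_cast
    linarith

/-- The number of steps. -/
theorem steps32 {C2 K E' Em X X' t : ℝ} (hC2 : 0 ≤ C2) (hK : 0 < K) (hEm : 0 < Em)
    (ht : t ≤ 8 * (C2 + 1) * E' / (K * Em) + 40) (hX : 0 ≤ X) (h1 : E' * X ≤ X' * Em) (h2 : X ≤ X') :
    t * X ≤ (8 * (C2 + 1) / K + 40) * X' := by
  have h3 : t * X ≤ (8 * (C2 + 1) * E' / (K * Em) + 40) * X := mul_le_mul_of_nonneg_right ht hX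
  have h4 : E' * X / Em ≤ X' := by
    rw [div_le_iff₀ hEm]
    exact h1
  have h5 : 8 * (C2 + 1) * E' / (K * Em) * X = 8 * (C2 + 1) / K * (E' * X / Em) := by
    field_simp
  have h6 : 8 * (C2 + 1) / K * (E' * X / Em) ≤ 8 * (C2 + 1) / K * X' :=
    mul_le_mul_of_nonneg_left h4 (by positivity)
  linarith

/-- **The assembly at one scale.** -/
theorem hb_one32 (hμ : EM μ) {r m n' : ℕ} {lo hi k x0 : ℤ}
    {E' Em w' wm C2 C3 K H Cz R R1 c0 σ β p : ℝ} (hC2 : 0 ≤ C2) (hC3 : 0 ≤ C3) (hK0 : 0 < K)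
    (hK : 2 + 2 * (C2 + 1) + (2 * (C2 + 1) + C3) / 8 ≤ K / 8)
    (hH : 1 + (3 + r) * (8 * (C2 + 1) / K + 40) ≤ H)
    (hCz1 : (C2 + 1) + (2 * (C2 + 1) + C3) * (8 * (C2 + 1) / K + 40) ≤ Cz)
    (hCz2 : 3 + (6 + C3) * (8 * (C2 + 1) / K + 40) ≤ Cz) (hm : 1 ≤ m) (hmn : (3 + r) * m ≤ n') (hEm0 : 0 < Em)
    (hE : Em ≤ E') (hEmn : E' * m ≤ n' * Em) (hEw : E' * wm ≤ w' * Em) (hww : wm ≤ w') (hwm1 : 1 ≤ wm)
    (hc0 : 0 < c0) (hwm : 4 ≤ c0 * wm) (hlo : 0 ≤ lo) (hhi : hi ≤ m) (hlen : c0 * wm - 1 ≤ (hi : ℝ) - lo)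
    (hch : ∀ u : ℤ, lo ≤ u → u ≤ hi → ep μ s m u ≤ (C2 + 1) * Em ∧ |(u : ℝ) - sl μ s * m| ≤ 2 * wm + 1)
    (hx00 : 0 ≤ x0) (hx01 : x0 ≤ n') (hx0 : e μ s n' x0 ≤ C2 * E') (hx1 : ep μ s n' x0 ≤ (C2 + 1) * E')
    (hx2 : |(x0 : ℝ) - sl μ s * n'| ≤ 2 * w' + 1)
    (hk0 : 0 ≤ k) (hkM : k ≤ ((1 + r) * m : ℕ))
    (hk1 : ep μ s ((1 + r) * m) k ≤ C3 * Em) (hk2 : |(k : ℝ) - sl μ s * (((1 + r) * m : ℕ) : ℝ)| ≤ C3 * wm)
    (hR : 0 ≤ R) (hp0 : 0 < p) (hp : p ≤ (law μ).real {η | EvH μ s (R * wm) (K * Em) ((1 + r) * m) k 0 η})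
    (hσ : 0 ≤ σ) (hσE : 8 * σ ≤ E') (hβ : β ≤ 1 / 8)
    (hcon : ∀ (N : ℕ) (y : ℤ), n' ≤ N → (N : ℝ) ≤ H * n' → 0 ≤ y → y ≤ N → e μ s N y ≤ Cz * E' →
      (law μ).real {η | σ ≤ |Fl48 μ s N y η - ∫ ξ, Fl48 μ s N y ξ ∂(law μ)|} ≤ β)
    (hconf : ∀ (N : ℕ) (y : ℤ), n' ≤ N → (N : ℝ) ≤ H * n' → 0 ≤ y → y ≤ N → e μ s N y ≤ Cz * E' →
      |(y : ℝ) - sl μ s * N| ≤ Cz * w' → ∀ t : ℕ, t ≤ N → 1 - 1 / 8 ≤
        ∫ η, ∑ q ∈ (Finset.Icc (0 : ℤ) t).filter (fun q : ℤ => |(q : ℝ) - sl μ s * t| ≤ R1 * w'),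
          pin μ s η t (N - t) y q ∂(law μ))
    (hR1 : 0 ≤ R1) (hlog : Real.log (2 * ((4 * (R1 + 1) / c0 + 2) * (w' / wm))) + 1 ≤ Em)
    {q : ℕ} (hq : 8 * R / c0 < q) :
    p * (n' / ((3 + r) * m) / 2) * (K * Em / 8) ^ 2 / (2 * ((4 * (R1 + 1) / c0 + 2) * (w' / wm))) ≤
      q * (σ ^ 2 + (2 * (8 * (K * Em + σ))) ^ 2 * β) := by
  have hwm0 : 0 < wm := by linarith
  have hw'0 : 0 < w' := by linarith
  have hE'0 : 0 < E' := by linarith
  have hm0 : (0 : ℝ) < m := by exact_mod_cast hm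
  have hmn1 : m ≤ n' := le_trans (Nat.le_mul_of_pos_left m (by omega)) hmn
  have hn'1 : 1 ≤ n' := hm.trans hmn1
  have hn'0 : (0 : ℝ) < n' := by exact_mod_cast hn'1
  have hmn' : (m : ℝ) ≤ n' := by exact_mod_cast hmn1
  have hY : 0 < K * Em := by positivity
  obtain ⟨C4, hC4⟩ : ∃ C4, C4 = 2 * (C2 + 1) + C3 := ⟨_, rfl⟩
  rw [← hC4] at hK hCz1
  obtain ⟨θ, hθ⟩ : ∃ θ, θ = 8 * (C2 + 1) / K + 40 := ⟨_, rfl⟩
  rw [← hθ] at hH hCz1 hCz2
  have hθ0 : 0 ≤ θ := by rw [hθ]; positivity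
  -- the cells
  obtain ⟨wc, hwc⟩ : ∃ wc : ℤ, wc = (hi - lo) / 2 := ⟨_, rfl⟩
  obtain ⟨uo, huo⟩ : ∃ uo : ℤ, uo = lo + wc := ⟨_, rfl⟩
  have hwc1 : 2 * wc ≤ hi - lo := by omega
  have hwc2 : hi - lo ≤ 2 * wc + 1 := by omega
  have hwc2' : (hi : ℝ) - lo ≤ 2 * wc + 1 := by exact_mod_cast hwc2
  have hwc3 : c0 * wm / 4 ≤ wc := by linarith
  have hwcr : (0 : ℝ) < wc := by linarith
  have hwc0 : 0 < wc := by exact_mod_cast hwcr
  have hcell : ∀ u : ℤ, |u - uo| ≤ wc → lo ≤ u ∧ u ≤ hi := by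
    intro u hu
    rw [abs_le] at hu
    omega
  have huo1 : lo ≤ uo ∧ uo ≤ hi := by omega
  have hA : ∀ u : ℤ, |u - uo| ≤ wc → ∫ η, max (X μ s η 0 m u) 0 ∂(law μ) ≤ (C2 + 1) * Em := fun u hu =>
    (hch u (hcell u hu).1 (hcell u hu).2).1
  obtain ⟨M, hM⟩ : ∃ M : ℕ, M = (1 + r) * m := ⟨_, rfl⟩
  rw [← hM] at hk1 hk2 hkM hp
  have hMr : (M : ℝ) = (1 + r) * m := by
    rw [hM]
    push_cast
    ring
  have hl3 : m + M + m = (3 + r) * m := by
    rw [hM]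
    ring
  have huo0 : 0 ≤ uo := hlo.trans huo1.1
  have huom : uo ≤ m := huo1.2.trans hhi
  have hx : ep μ s (m + M + m) (uo + k + uo) ≤ C4 * Em := by
    have h1 := ep_sub32 (s := s) hμ (m := m + M) (n := m) (k := uo + k) (y := uo) (by omega) (by push_cast; omega)
      huo0 huom
    have h2 := ep_sub32 (s := s) hμ (m := m) (n := M) (k := uo) (y := k) huo0 huom hk0 hkM
    have h3 := (hch uo huo1.1 huo1.2).1
    rw [hC4]
    linarith
  have hyl : |((uo + k + uo : ℤ) : ℝ) - sl μ s * ((m + M + m : ℕ) : ℝ)| ≤ (6 + C3) * wm := by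
    have h3 := abs_le.1 (hch uo huo1.1 huo1.2).2
    have h4 := abs_le.1 hk2
    push_cast
    rw [abs_le]
    constructor <;> linarith [h3.1, h3.2, h4.1, h4.2]
  -- the number of steps
  obtain ⟨Q, hQ⟩ : ∃ Q : ℝ, Q = 8 * (C2 + 1) * E' / (K * Em) := ⟨_, rfl⟩
  have hQ0 : 0 ≤ Q := by rw [hQ]; positivity
  obtain ⟨Ms, hMs⟩ : ∃ Ms : ℕ, Ms = ⌊Q⌋₊ + 40 := ⟨_, rfl⟩
  have hMs1 : (Ms : ℝ) ≤ Q + 40 := by
    rw [hMs]
    push_cast
    linarith [Nat.floor_le hQ0]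
  have hMs2 : Q + 39 ≤ Ms := by
    rw [hMs]
    push_cast
    linarith [Nat.lt_floor_add_one Q]
  have hsteps : ∀ i : ℕ, i ≤ Ms → ∀ X X' : ℝ, 0 ≤ X → E' * X ≤ X' * Em → X ≤ X' → i * X ≤ θ * X' := by
    intro i hi X X' hX h1 h2
    have h3 : (i : ℝ) ≤ Ms := by exact_mod_cast hi
    rw [hθ]
    refine steps32 hC2 hK0 hEm0 (E' := E') ?_ hX h1 h2
    rw [← hQ]
    linarith
  have hlr : ((m + M + m : ℕ) : ℝ) = (3 + r) * m := by
    push_cast
    rw [hMr]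
    ring
  have hN : ∀ i : ℕ, i ≤ Ms → ((n' + i * (m + M + m) : ℕ) : ℝ) ≤ H * n' := by
    intro i hi
    have h1 := hsteps i hi m n' hm0.le hEmn hmn'
    have h2 : ((n' + i * (m + M + m) : ℕ) : ℝ) = n' + (3 + r) * (i * m) := by
      rw [Nat.cast_add, Nat.cast_mul, hlr]
      ring
    rw [h2]
    have h3 : (3 + (r : ℝ)) * (i * m) ≤ (3 + r) * (θ * n') := mul_le_mul_of_nonneg_left h1 (by positivity)
    have h4 : (1 + (3 + r) * θ) * n' ≤ H * n' := mul_le_mul_of_nonneg_right hH (Nat.cast_nonneg _)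
    linarith
  have hkk0 : 0 ≤ uo + k + uo := by omega
  have hkk1 : uo + k + uo ≤ ((m + M + m : ℕ) : ℤ) := by
    push_cast
    omega
  have hrg : ∀ i : ℕ, 0 ≤ x0 + i * (uo + k + uo) ∧ x0 + i * (uo + k + uo) ≤ ((n' + i * (m + M + m) : ℕ) : ℤ) := by
    intro i
    have h1 : 0 ≤ (i : ℤ) * (uo + k + uo) := mul_nonneg (Int.natCast_nonneg _) hkk0
    have h2 : (i : ℤ) * (uo + k + uo) ≤ i * ((m + M + m : ℕ) : ℤ) := mul_le_mul_of_nonneg_left hkk1 (Int.natCast_nonneg _)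
    have e1 : ((n' + i * (m + M + m) : ℕ) : ℤ) = n' + i * ((m + M + m : ℕ) : ℤ) := by
      rw [Nat.cast_add, Nat.cast_mul]
    rw [e1]
    constructor <;> linarith
  have he : ∀ i : ℕ, i ≤ Ms → e μ s (n' + i * (m + M + m)) (x0 + i * (uo + k + uo)) ≤ Cz * E' := by
    intro i hi
    have h1 := e_le_ep32 (s := s) hμ (hrg i).1 (hrg i).2
    have h2 := ep_mul32 (s := s) hμ (l := m + M + m) hkk0 hkk1 hx00 hx01 i
    have h3 := hsteps i hi Em E' hEm0.le le_rfl hE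
    have h4 : (i : ℝ) * ep μ s (m + M + m) (uo + k + uo) ≤ i * (C4 * Em) := mul_le_mul_of_nonneg_left hx (Nat.cast_nonneg _)
    have h5 : C4 * (i * Em) ≤ C4 * (θ * E') := mul_le_mul_of_nonneg_left h3 (by rw [hC4]; positivity)
    have h6 : ((C2 + 1) + C4 * θ) * E' ≤ Cz * E' := mul_le_mul_of_nonneg_right hCz1 hE'0.le
    linarith
  have hlat : ∀ i : ℕ, i ≤ Ms → |((x0 + i * (uo + k + uo) : ℤ) : ℝ) - sl μ s * ((n' + i * (m + M + m) : ℕ) : ℝ)| ≤ Cz * w' := by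
    intro i hi
    have h1 := hsteps i hi wm w' hwm0.le hEw hww
    have e1 : ((x0 + i * (uo + k + uo) : ℤ) : ℝ) - sl μ s * ((n' + i * (m + M + m) : ℕ) : ℝ) =
        (x0 - sl μ s * n') + i * (((uo + k + uo : ℤ) : ℝ) - sl μ s * ((m + M + m : ℕ) : ℝ)) := by
      push_cast
      ring
    rw [e1]
    refine (abs_add_le _ _).trans ?_
    rw [abs_mul, Nat.abs_cast]
    have h2 : (i : ℝ) * |((uo + k + uo : ℤ) : ℝ) - sl μ s * ((m + M + m : ℕ) : ℝ)| ≤ i * ((6 + C3) * wm) :=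
      mul_le_mul_of_nonneg_left hyl (Nat.cast_nonneg _)
    have h3 : (6 + C3) * (i * wm) ≤ (6 + C3) * (θ * w') := mul_le_mul_of_nonneg_left h1 (by positivity)
    have h4 : (3 + (6 + C3) * θ) * w' ≤ Cz * w' := mul_le_mul_of_nonneg_right hCz2 hw'0.le
    linarith
  -- the window
  obtain ⟨Z, hZ⟩ : ∃ Z : ℕ, Z = ⌈(R1 * w' + 1 + wc) / (wc : ℝ)⌉₊ := ⟨_, rfl⟩
  have hZ1 : R1 * w' + 1 + wc ≤ Z * wc := by
    have h1 := Nat.le_ceil ((R1 * w' + 1 + wc) / (wc : ℝ))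
    rw [← hZ, div_le_iff₀ hwcr] at h1
    exact h1
  have hZ2 : (Z : ℝ) ≤ (4 * (R1 + 1) / c0 + 2) * (w' / wm) := by
    have h1 := Nat.ceil_lt_add_one (a := (R1 * w' + 1 + wc) / (wc : ℝ)) (by positivity)
    rw [← hZ] at h1
    have h2 : (R1 * w' + 1 + wc) / (wc : ℝ) = (R1 * w' + 1) / wc + 1 := by field_simp
    have h0 : R1 * w' + 1 ≤ (R1 + 1) * w' := by linarith
    have h3 : (R1 * w' + 1) / wc ≤ (R1 + 1) * w' / (c0 * wm / 4) :=
      div_le_div₀ (by positivity) h0 (by positivity) hwc3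
    have h4 : (R1 + 1) * w' / (c0 * wm / 4) = 4 * (R1 + 1) / c0 * (w' / wm) := by field_simp
    have h5 : 1 ≤ w' / wm := by
      rw [le_div_iff₀ hwm0]
      linarith
    rw [h2] at h1
    linarith
  have hZ0 : 1 ≤ Z := by
    rcases Nat.eq_zero_or_pos Z with h | h
    · rw [h] at hZ1
      push_cast at hZ1
      nlinarith [mul_nonneg hR1 hw'0.le]
    · exact h
  have hZr : (1 : ℝ) ≤ Z := by exact_mod_cast hZ0
  -- the number of insertions
  have h3r : (0 : ℝ) < (3 + r) * m := by positivity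
  obtain ⟨J, hJ⟩ : ∃ J : ℕ, J = n' / (m + M + m) := ⟨_, rfl⟩
  have hJ1 : J * (m + M + m) ≤ n' := by
    rw [hJ]
    exact Nat.div_mul_le_self _ _
  have hJ2 : n' / ((3 + r) * m) / 2 ≤ (J : ℝ) := by
    have h1 : n' < (J + 1) * (m + M + m) := by
      rw [hJ]
      have h2 := Nat.lt_div_mul_add (a := n') (b := m + M + m) (by omega)
      have h3 : (n' / (m + M + m) + 1) * (m + M + m) = n' / (m + M + m) * (m + M + m) + (m + M + m) := by ring
      rw [h3]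
      exact h2
    have h2 : 1 ≤ J := by
      rw [hJ, hl3]
      exact (Nat.one_le_div_iff (Nat.mul_pos (by omega) hm)).2 hmn
    have h3 : (n' : ℝ) < (J + 1) * ((3 + r) * m) := by
      have h4 : (n' : ℝ) < ((J + 1) * (m + M + m) : ℕ) := by exact_mod_cast h1
      rw [Nat.cast_mul, hlr] at h4
      push_cast at h4
      exact h4
    have h4 : (1 : ℝ) ≤ J := by exact_mod_cast h2
    rw [div_div, div_le_iff₀ (by positivity)]
    have h5 : (J + 1 : ℝ) * ((3 + r) * m) ≤ (2 * J) * ((3 + r) * m) := mul_le_mul_of_nonneg_right (by linarith) h3r.le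
    linarith
  have hq1 : 0 < q := by
    have h1 : (0 : ℝ) < q := lt_of_le_of_lt (by positivity) hq
    exact_mod_cast h1
  have key := many48 (μ := μ) (s := s) hμ (m := m) (M := M) (N₀ := n') (J := J) (Z := Z) (q := q) (Ms := Ms) (wc := wc)
    (uo := uo) (k := k) (y₀ := x0) (cen := fun _ t => ⌊sl μ s * t⌋) (b := R * wm) (Y := K * Em) (p := p)
    (A := (C2 + 1) * Em) (x := C4 * Em) (δ := 1 / 8) (β := β) (σ := σ) (E₀ := (C2 + 1) * E')
    hwc0 (by omega) (by omega) hk0 hkM hx00 hx01 hq1 (by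
      rw [div_lt_iff₀ hc0] at hq
      have h1 : (q : ℝ) * (c0 * wm / 4) ≤ q * wc := mul_le_mul_of_nonneg_left hwc3 (Nat.cast_nonneg _)
      nlinarith) hZ0 hJ1 hY hp0 hp hA hx
    (fun i hi t ht => by
      have h1 := hconf (n' + i * (m + M + m)) (x0 + i * (uo + k + uo)) (Nat.le_add_right _ _) (hN i hi.le)
        (hrg i).1 (hrg i).2 (he i hi.le) (hlat i hi.le) t ht
      refine h1.trans (integral_mono_of_nonneg (Eventually.of_forall fun η => Finset.sum_nonneg fun u _ =>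
        pin_nonneg48 _ _ _ _ _) ?_ (Eventually.of_forall fun η => ?_))
      · refine Integrable.of_bound (Finset.measurable_sum _ fun u _ => pin_meas48 _ _ _ _).aestronglyMeasurable 1
          (Eventually.of_forall fun η => ?_)
        rw [Real.norm_eq_abs, abs_of_nonneg (Finset.sum_nonneg fun u _ => pin_nonneg48 _ _ _ _ _)]
        exact pin_sum_le48 η _ _ (hrg i).1 (by
          rw [Nat.add_sub_cancel' ht]
          exact (hrg i).2) _ (Finset.filter_subset _ _)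
      · refine Finset.sum_le_sum_of_subset_of_nonneg ?_ fun u _ _ => pin_nonneg48 _ _ _ _ _
        intro u hu
        unfold win48
        rw [Finset.mem_filter] at hu ⊢
        refine ⟨hu.1, ?_⟩
        obtain ⟨h2, h3⟩ := abs_le.1 hu.2
        have h4 := Int.floor_le (sl μ s * (t : ℝ))
        have h5 := Int.lt_floor_add_one (sl μ s * (t : ℝ))
        have h6 : (((⌊sl μ s * (t : ℝ)⌋ : ℤ)) : ℝ) - Z * wc ≤ u := by linarith
        have h7 : (u : ℝ) < (⌊sl μ s * (t : ℝ)⌋ : ℤ) + Z * wc := by linarith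
        constructor
        · rw [Int.le_ediv_iff_mul_le hwc0]
          have h8 : ((-(Z : ℤ) * wc : ℤ) : ℝ) ≤ ((u - ⌊sl μ s * (t : ℝ)⌋ : ℤ) : ℝ) := by
            push_cast
            linarith
          exact_mod_cast h8
        · rw [Int.ediv_lt_iff_lt_mul hwc0]
          have h8 : ((u - ⌊sl μ s * (t : ℝ)⌋ : ℤ) : ℝ) < (((Z : ℤ) * wc : ℤ) : ℝ) := by
            push_cast
            linarith
          exact_mod_cast h8)
    le_rfl hβ hσ
    (fun i hi => hcon _ _ (Nat.le_add_right _ _) (hN i hi) (hrg i).1 (hrg i).2 (he i hi))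
    (by
      have h1 : Real.log (2 * Z) ≤ Real.log (2 * ((4 * (R1 + 1) / c0 + 2) * (w' / wm))) :=
        Real.log_le_log (by positivity) (by linarith)
      have h2 := mul_le_mul_of_nonneg_right hK hEm0.le
      linarith)
    (by
      have h1 := e_nonneg hμ s (hrg Ms).1 (hrg Ms).2
      linarith)
    (by
      have h1 : (8 * (C2 + 1) * E' / (K * Em) + 39) * (K * Em) ≤ Ms * (K * Em) :=
        mul_le_mul_of_nonneg_right (by rw [← hQ]; exact hMs2) hY.le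
      have h2 : (8 * (C2 + 1) * E' / (K * Em) + 39) * (K * Em) = 8 * (C2 + 1) * E' + 39 * (K * Em) := by
        field_simp
      have h3 : 0 ≤ C2 * E' := by positivity
      linarith)
  have h1 : p * (n' / ((3 + r) * m) / 2) * (K * Em / 8) ^ 2 / (2 * ((4 * (R1 + 1) / c0 + 2) * (w' / wm))) ≤
      p * J * (K * Em / 8) ^ 2 / (2 * Z) := by
    refine div_le_div₀ (by positivity) ?_ (by positivity) (by linarith)
    exact mul_le_mul_of_nonneg_right (mul_le_mul_of_nonneg_left hJ2 hp0.le) (by positivity)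
  exact h1.trans key

end

end Pool.Agent.W_7d29a1_H
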