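import Pool.Agent.W_7d29a1_H.BMany48
import Pool.Agent.W_7d29a1_H.UnitH

/-!
# Track H, section (B): the assembly at one scale (helper48, after helper32)
-/

set_option autoImplicit false

namespace Pool.Agent.W_7d29a1_H

open MeasureTheory ProbabilityTheory Finset Pool.Agent.W_7d29a1_f21 Pool.Agent.W_7d29a1_F
open Pool.Agent.W_7d29a1_h48 (pin)
open Pool.Agent.W_7d29a1_h47 (EM Nondeg)

noncomputable section

variable {μ : Measure ℝ} {s : ℝ} [IsProbabilityMeasure μ]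

/-! ### Means -/

theorem X_int48 (hμ : EM μ) (a : Pt) {n : ℕ} {y : ℤ} (h0 : 0 ≤ y) (h1 : y ≤ n) :
    Integrable (fun η => X μ s η a n y) (law μ) := (Sub_X a h0 h1).integrable hμ

theorem Xp_int48 (hμ : EM μ) (a : Pt) {n : ℕ} {y : ℤ} (h0 : 0 ≤ y) (h1 : y ≤ n) :
    Integrable (fun η => max (X μ s η a n y) 0) (law μ) := (X_int48 hμ a h0 h1).pos_part

theorem e_le_ep48 (hμ : EM μ) {n : ℕ} {y : ℤ} (h0 : 0 ≤ y) (h1 : y ≤ n) : e μ s n y ≤ ep μ s n y :=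
  integral_mono (X_int48 hμ 0 h0 h1) (Xp_int48 hμ 0 h0 h1) fun _ => le_max_left _ _

/-- Subadditivity. -/
theorem ep_sub48 (hμ : EM μ) {m n : ℕ} {k y : ℤ} (h0 : 0 ≤ k) (h1 : k ≤ m) (h2 : 0 ≤ y) (h3 : y ≤ n) :
    ep μ s (m + n) (k + y) ≤ ep μ s m k + ep μ s n y := by
  have hpt : ∀ η : Env, max (X μ s η 0 (m + n) (k + y)) 0 ≤
      max (X μ s η 0 m k) 0 + max (X μ s η ((0 : Pt) + ((m : ℤ), k)) n y) 0 := by
    intro η
    have h := X_add_le (μ := μ) (s := s) η 0 h0 h1 h2 h3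
    have e1 : X μ s η ((0 : Pt) + ((m : ℤ), k)) n y = X μ s η ((0 : Pt).1 + m, (0 : Pt).2 + k) n y := rfl
    rw [e1]
    refine max_le (h.trans (add_le_add (le_max_left _ _) (le_max_left _ _))) ?_
    exact add_nonneg (le_max_right _ _) (le_max_right _ _)
  have h5 := integral_mono (μ := law μ)
    (Xp_int48 (s := s) hμ 0 (n := m + n) (y := k + y) (by omega) (by push_cast; omega))
    ((Xp_int48 hμ 0 h0 h1).add (Xp_int48 hμ ((0 : Pt) + ((m : ℤ), k)) h2 h3)) fun η => hpt η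
  have h6 : ∫ η, (max (X μ s η 0 m k) 0 + max (X μ s η ((0 : Pt) + ((m : ℤ), k)) n y) 0) ∂(law μ) =
      ep μ s m k + ep μ s n y := by
    rw [integral_add (Xp_int48 hμ 0 h0 h1) (Xp_int48 hμ ((0 : Pt) + ((m : ℤ), k)) h2 h3)]
    exact congrArg₂ (· + ·) rfl (Pool.Agent.W_7d29a1_h48.integral_Xp (μ := μ) (s := s) ((0 : Pt) + ((m : ℤ), k)) n y)
  exact h5.trans h6.le

/-- The mean positive part is at most the mean plus the unit. -/
theorem ep_le48 (hμ : EM μ) (s : ℝ) {n : ℕ} {y : ℤ} (h0 : 0 ≤ y) (h1 : y ≤ n) :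
    ep μ s n y ≤ e μ s n y + es μ s n := by
  have hz := zs_mem (μ := μ) (s := s) n
  have hV : Integrable (fun η => V μ s η 0 n) (law μ) := (Sub_V 0 n).integrable hμ
  have hpt : ∀ η : Env, max (X μ s η 0 n y) 0 ≤ X μ s η 0 n y + V μ s η 0 n + max (X μ s η 0 n (zs μ s n)) 0 := by
    intro η
    have h2 := neg_X_le_V (μ := μ) (s := s) η 0 h0 h1
    have h3 := neg_X_le_V (μ := μ) (s := s) η 0 hz.1 hz.2
    have h4 := le_max_left (X μ s η 0 n (zs μ s n)) 0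
    have h5 := le_max_right (X μ s η 0 n (zs μ s n)) 0
    refine max_le ?_ ?_ <;> linarith
  have h5 := integral_mono (μ := law μ) (Xp_int48 (s := s) hμ 0 h0 h1)
    (((X_int48 hμ 0 h0 h1).add hV).add (Xp_int48 hμ 0 hz.1 hz.2)) fun η => hpt η
  have h6 : ∫ η, (X μ s η 0 n y + V μ s η 0 n + max (X μ s η 0 n (zs μ s n)) 0) ∂(law μ) =
      e μ s n y + (∫ η, V μ s η 0 n ∂(law μ)) + es μ s n := by
    have h7 : Integrable (fun η => X μ s η 0 n y + V μ s η 0 n) (law μ) := (X_int48 hμ 0 h0 h1).add hV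
    rw [integral_add h7 (Xp_int48 hμ 0 hz.1 hz.2), integral_add (X_int48 hμ 0 h0 h1) hV]
    exact congrArg₂ (· + ·) rfl (ep_zs n)
  have h7 := integral_V_nonpos hμ s n
  have h8 : ep μ s n y ≤ e μ s n y + (∫ η, V μ s η 0 n ∂(law μ)) + es μ s n := h5.trans h6.le
  linarith

/-- Repeated displacements. -/
theorem ep_mul48 (hμ : EM μ) {l n : ℕ} {y z : ℤ} (hy0 : 0 ≤ y) (hy1 : y ≤ l) (hz0 : 0 ≤ z) (hz1 : z ≤ n) (i : ℕ) :
    ep μ s (n + i * l) (z + i * y) ≤ ep μ s n z + i * ep μ s l y := by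
  induction i with
  | zero => simp
  | succ i ih =>
    have h2 : (i : ℤ) * y ≤ i * l := mul_le_mul_of_nonneg_left hy1 (Int.natCast_nonneg _)
    have h1 := ep_sub48 (s := s) hμ (m := n + i * l) (n := l) (k := z + i * y) (y := y) (by positivity)
      (by push_cast; linarith) hy0 hy1
    have e1 : n + (i + 1) * l = n + i * l + l := by ring
    have e2 : z + ((i + 1 : ℕ) : ℤ) * y = z + i * y + y := by
      push_cast
      ring
    rw [e1, e2]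
    push_cast
    linarith

/-- The number of steps. -/
theorem steps48 {C2 K E' Em X X' t : ℝ} (hC2 : 0 ≤ C2) (hK : 0 < K) (hEm : 0 < Em)
    (ht : t ≤ 8 * (C2 + 1) * E' / (K * Em) + 40) (hX : 0 ≤ X) (h1 : E' * X ≤ X' * Em) (h2 : X ≤ X') :
    t * X ≤ (8 * (C2 + 1) / K + 40) * X' := by
  have h3 : t * X ≤ (8 * (C2 + 1) * E' / (K * Em) + 40) * X := mul_le_mul_of_nonneg_right ht hX
  have h4 : E' * X / Em ≤ X' := by
    rw [div_le_iff₀ hEm]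
    exact h1
  have h5 : 8 * (C2 + 1) * E' / (K * Em) * X = 8 * (C2 + 1) / K * (E' * X / Em) := by
    field_simp
  have h6 : 8 * (C2 + 1) / K * (E' * X / Em) ≤ 8 * (C2 + 1) / K * X' :=
    mul_le_mul_of_nonneg_left h4 (by positivity)
  linarith

/-- The window of the confinement is covered by the cells. -/
theorem conf_win48 {t : ℕ} {v ρ : ℝ} {wc : ℤ} {Z : ℕ} (hwc : 2 ≤ wc) (hZ : ρ + wc ≤ Z * wc) {p : ℤ}
    (hp : p ∈ (Finset.Icc (0 : ℤ) t).filter (fun p : ℤ => |(p : ℝ) - v * t| ≤ ρ)) : p ∈ win48 ⌊v * t⌋ t wc Z := by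
  rw [Finset.mem_filter] at hp
  unfold win48
  rw [Finset.mem_filter]
  refine ⟨hp.1, ?_⟩
  have h1 := abs_le.1 hp.2
  have h2 := Int.floor_le (v * (t : ℝ))
  have h3 := Int.lt_floor_add_one (v * (t : ℝ))
  have hwc' : (2 : ℝ) ≤ wc := by exact_mod_cast hwc
  constructor
  · rw [Int.le_ediv_iff_mul_le (by omega)]
    have h4 : (-(Z : ℝ)) * wc ≤ (p : ℝ) - ⌊v * (t : ℝ)⌋ := by
      linarith [h1.1]
    exact_mod_cast h4
  · rw [Int.ediv_lt_iff_lt_mul (by omega)]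
    have h4 : (p : ℝ) - ⌊v * (t : ℝ)⌋ < Z * wc := by
      linarith [h1.2]
    exact_mod_cast h4

/-- **The assembly at one scale.** -/
theorem one48 (hμ : EM μ) {r m n' : ℕ} {lo hi k x0 : ℤ} {E' Em w' wm C2 C3 K H Cz R R1 c0 σ β p : ℝ}
    (hC2 : 0 ≤ C2) (hC3 : 0 ≤ C3) (hK0 : 0 < K)
    (hK : 2 + 2 * (C2 + 1) + (2 * (C2 + 1) + C3) / 8 ≤ K / 8)
    (hH : 1 + (3 + r) * (8 * (C2 + 1) / K + 40) ≤ H)
    (hCz1 : (C2 + 1) + (2 * (C2 + 1) + C3) * (8 * (C2 + 1) / K + 40) ≤ Cz)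
    (hCz2 : 3 + (6 + C3) * (8 * (C2 + 1) / K + 40) ≤ Cz) (hm : 1 ≤ m) (hmn : m ≤ n') (hEm0 : 0 < Em)
    (hE : Em ≤ E') (hEmn : E' * m ≤ n' * Em) (hEw : E' * wm ≤ w' * Em) (hww : wm ≤ w') (hwm1 : 1 ≤ wm)
    (hc0 : 0 < c0) (hwm : 12 ≤ c0 * wm) (hlo : 0 ≤ lo) (hhi : hi ≤ m) (hlen : c0 * wm - 1 ≤ (hi : ℝ) - lo)
    (hch : ∀ u : ℤ, lo ≤ u → u ≤ hi → ep μ s m u ≤ (C2 + 1) * Em ∧ |(u : ℝ) - sl μ s * m| ≤ 2 * wm + 1)
    (hx00 : 0 ≤ x0) (hx01 : x0 ≤ n') (hx0 : e μ s n' x0 ≤ C2 * E') (hx1 : ep μ s n' x0 ≤ (C2 + 1) * E')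
    (hx2 : |(x0 : ℝ) - sl μ s * n'| ≤ 2 * w' + 1)
    (hk0 : 0 ≤ k) (hkM : k ≤ ((1 + r) * m : ℕ))
    (hk1 : ep μ s ((1 + r) * m) k ≤ C3 * Em) (hk2 : |(k : ℝ) - sl μ s * (((1 + r) * m : ℕ) : ℝ)| ≤ C3 * wm)
    (hR : 0 ≤ R) (hp0 : 0 < p)
    (hp : p ≤ (law μ).real {η | EvH μ s (R * wm) (K * Em) ((1 + r) * m) k 0 η})
    (hσ : 0 ≤ σ) (hσE : 8 * σ ≤ E') (hβ : β ≤ 1 / 8)
    (hcon : ∀ (N : ℕ) (y : ℤ), 1 ≤ N → 0 ≤ y → y ≤ N → (N : ℝ) ≤ H * n' → e μ s N y ≤ Cz * E' →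
      (law μ).real {η | σ ≤ |Fl48 μ s N y η - ∫ ξ, Fl48 μ s N y ξ ∂(law μ)|} ≤ β)
    (hconf : ∀ (N : ℕ) (y : ℤ), n' ≤ N → (N : ℝ) ≤ H * n' → 0 ≤ y → y ≤ N → e μ s N y ≤ Cz * E' →
      |(y : ℝ) - sl μ s * N| ≤ Cz * w' → ∀ t : ℕ, t ≤ N → 1 - 1 / 8 ≤
        ∫ η, ∑ p ∈ (Finset.Icc (0 : ℤ) t).filter (fun p : ℤ => |(p : ℝ) - sl μ s * t| ≤ R1 * w'),
          pin μ s η t (N - t) y p ∂(law μ))
    (hR1 : 0 ≤ R1) (hlog : Real.log (2 * ((4 * R1 / c0 + 2) * (w' / wm))) + 1 ≤ 2 * Em)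
    (hnJ : 2 * (3 + (r : ℝ)) * m ≤ n') {q : ℕ} (hq : 8 * R / c0 < q) :
    p * (n' / ((3 + r) * m) / 2) * (K * Em / 8) ^ 2 / (2 * ((4 * R1 / c0 + 2) * (w' / wm))) ≤
      q * (σ ^ 2 + (2 * (8 * (K * Em + σ))) ^ 2 * β) := by
  have hwm0 : 0 < wm := by linarith
  have hw'0 : 0 < w' := by linarith
  have hE'0 : 0 < E' := by linarith
  have hm0 : (0 : ℝ) < m := by exact_mod_cast hm
  have hn'1 : 1 ≤ n' := hm.trans hmn
  have hmn' : (m : ℝ) ≤ n' := by exact_mod_cast hmn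
  have hn'0 : (0 : ℝ) < n' := by linarith
  have hY : 0 < K * Em := by positivity
  obtain ⟨C4, hC4⟩ : ∃ C4, C4 = 2 * (C2 + 1) + C3 := ⟨_, rfl⟩
  rw [← hC4] at hK hCz1
  obtain ⟨θ, hθ⟩ : ∃ θ, θ = 8 * (C2 + 1) / K + 40 := ⟨_, rfl⟩
  rw [← hθ] at hH hCz1 hCz2
  have hθ0 : 0 ≤ θ := by rw [hθ]; positivity
  -- the cells
  obtain ⟨wc, hwc⟩ : ∃ wc : ℤ, wc = (hi - lo) / 2 := ⟨_, rfl⟩
  obtain ⟨uo, huo⟩ : ∃ uo : ℤ, uo = lo + wc := ⟨_, rfl⟩
  have hwc1 : 2 * wc ≤ hi - lo := by omega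
  have hwc2 : hi - lo ≤ 2 * wc + 1 := by omega
  have hwc2' : (hi : ℝ) - lo ≤ 2 * wc + 1 := by exact_mod_cast hwc2
  have hwc3 : c0 * wm / 4 ≤ wc := by linarith
  have hwcr : (2 : ℝ) ≤ wc := by linarith
  have hwc20 : 2 ≤ wc := by exact_mod_cast hwcr
  have hwc0 : 0 < wc := by omega
  have hcell : ∀ u : ℤ, |u - uo| ≤ wc → lo ≤ u ∧ u ≤ hi := by
    intro u hu
    rw [abs_le] at hu
    omega
  have huo1 : lo ≤ uo ∧ uo ≤ hi := by omega
  have hA : ∀ u : ℤ, |u - uo| ≤ wc → ∫ η, max (X μ s η 0 m u) 0 ∂(law μ) ≤ (C2 + 1) * Em := fun u hu =>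
    (hch u (hcell u hu).1 (hcell u hu).2).1
  obtain ⟨M, hM⟩ : ∃ M : ℕ, M = (1 + r) * m := ⟨_, rfl⟩
  rw [← hM] at hk1 hk2 hp hkM
  have hM1 : 1 ≤ M := by
    rw [hM]
    exact Nat.one_le_iff_ne_zero.2 (by positivity)
  have hMr : (M : ℝ) = (1 + r) * m := by
    rw [hM]
    push_cast
    ring
  have hM0 : (0 : ℝ) < M := by exact_mod_cast hM1
  have huo0 : 0 ≤ uo := by omega
  have huom : uo ≤ m := by omega
  have hx : ep μ s (m + M + m) (uo + k + uo) ≤ C4 * Em := by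
    have h1 := ep_sub48 (s := s) hμ (m := m + M) (n := m) (k := uo + k) (y := uo) (by omega) (by push_cast; omega)
      huo0 huom
    have h2 := ep_sub48 (s := s) hμ (m := m) (n := M) (k := uo) (y := k) huo0 huom hk0 hkM
    have h3 := (hch uo huo1.1 huo1.2).1
    rw [hC4]
    linarith
  have hkk0 : 0 ≤ uo + k + uo := by omega
  have hkk1 : uo + k + uo ≤ ((m + M + m : ℕ) : ℤ) := by push_cast; omega
  have hyl : |((uo + k + uo : ℤ) : ℝ) - sl μ s * ((m + M + m : ℕ) : ℝ)| ≤ (6 + C3) * wm := by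
    have h3 := abs_le.1 (hch uo huo1.1 huo1.2).2
    have h4 := abs_le.1 hk2
    push_cast
    rw [abs_le]
    constructor <;> linarith [h3.1, h3.2, h4.1, h4.2]
  -- the number of steps
  obtain ⟨Q, hQ⟩ : ∃ Q : ℝ, Q = 8 * (C2 + 1) * E' / (K * Em) := ⟨_, rfl⟩
  have hQ0 : 0 ≤ Q := by rw [hQ]; positivity
  obtain ⟨Ms, hMs⟩ : ∃ Ms : ℕ, Ms = ⌊Q⌋₊ + 40 := ⟨_, rfl⟩
  have hMs1 : (Ms : ℝ) ≤ Q + 40 := by
    rw [hMs]
    push_cast
    linarith [Nat.floor_le hQ0]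
  have hMs2 : Q + 39 ≤ Ms := by
    rw [hMs]
    push_cast
    linarith [Nat.lt_floor_add_one Q]
  have hsteps : ∀ i : ℕ, i ≤ Ms → ∀ X X' : ℝ, 0 ≤ X → E' * X ≤ X' * Em → X ≤ X' → i * X ≤ θ * X' := by
    intro i hi X X' hX h1 h2
    have h3 : (i : ℝ) ≤ Ms := by exact_mod_cast hi
    rw [hθ]
    refine steps48 hC2 hK0 hEm0 (E' := E') ?_ hX h1 h2
    rw [← hQ]
    linarith
  have hlr : ((m + M + m : ℕ) : ℝ) = (3 + r) * m := by
    push_cast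
    rw [hMr]
    ring
  have hrg : ∀ i : ℕ, 0 ≤ x0 + i * (uo + k + uo) ∧ x0 + i * (uo + k + uo) ≤ ((n' + i * (m + M + m) : ℕ) : ℤ) := by
    intro i
    have h1 : 0 ≤ (i : ℤ) * (uo + k + uo) := by positivity
    have h2 : (i : ℤ) * (uo + k + uo) ≤ i * ((m + M + m : ℕ) : ℤ) :=
      mul_le_mul_of_nonneg_left hkk1 (Int.natCast_nonneg _)
    rw [Nat.cast_add, Nat.cast_mul]
    constructor <;> linarith
  have hN : ∀ i : ℕ, i ≤ Ms → ((n' + i * (m + M + m) : ℕ) : ℝ) ≤ H * n' := by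
    intro i hi
    have h1 := hsteps i hi m n' hm0.le hEmn hmn'
    have h2 : ((n' + i * (m + M + m) : ℕ) : ℝ) = n' + (3 + r) * (i * m) := by
      rw [Nat.cast_add, Nat.cast_mul, hlr]
      ring
    rw [h2]
    have h3 : (3 + (r : ℝ)) * (i * m) ≤ (3 + r) * (θ * n') := mul_le_mul_of_nonneg_left h1 (by positivity)
    have h4 : (1 + (3 + r) * θ) * n' ≤ H * n' := mul_le_mul_of_nonneg_right hH (Nat.cast_nonneg _)
    linarith
  have he : ∀ i : ℕ, i ≤ Ms → e μ s (n' + i * (m + M + m)) (x0 + i * (uo + k + uo)) ≤ Cz * E' := by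
    intro i hi
    have h1 := e_le_ep48 (s := s) hμ (hrg i).1 (hrg i).2
    have h2 := ep_mul48 (s := s) hμ hkk0 hkk1 hx00 hx01 i
    have h3 := hsteps i hi Em E' hEm0.le le_rfl hE
    have h4 : (i : ℝ) * ep μ s (m + M + m) (uo + k + uo) ≤ i * (C4 * Em) := mul_le_mul_of_nonneg_left hx (Nat.cast_nonneg _)
    have h5 : C4 * (i * Em) ≤ C4 * (θ * E') := mul_le_mul_of_nonneg_left h3 (by rw [hC4]; positivity)
    have h6 : ((C2 + 1) + C4 * θ) * E' ≤ Cz * E' := mul_le_mul_of_nonneg_right hCz1 hE'0.le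
    linarith
  have hlat : ∀ i : ℕ, i ≤ Ms →
      |((x0 + i * (uo + k + uo) : ℤ) : ℝ) - sl μ s * ((n' + i * (m + M + m) : ℕ) : ℝ)| ≤ Cz * w' := by
    intro i hi
    have h1 := hsteps i hi wm w' hwm0.le hEw hww
    have e1 : ((x0 + i * (uo + k + uo) : ℤ) : ℝ) - sl μ s * ((n' + i * (m + M + m) : ℕ) : ℝ) =
        (x0 - sl μ s * n') + i * (((uo + k + uo : ℤ) : ℝ) - sl μ s * ((m + M + m : ℕ) : ℝ)) := by
      push_cast
      ring
    rw [e1]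
    refine (abs_add_le _ _).trans ?_
    rw [abs_mul, Nat.abs_cast]
    have h2 : (i : ℝ) * |((uo + k + uo : ℤ) : ℝ) - sl μ s * ((m + M + m : ℕ) : ℝ)| ≤ i * ((6 + C3) * wm) :=
      mul_le_mul_of_nonneg_left hyl (Nat.cast_nonneg _)
    have h3 : (6 + C3) * (i * wm) ≤ (6 + C3) * (θ * w') := mul_le_mul_of_nonneg_left h1 (by positivity)
    have h4 : (3 + (6 + C3) * θ) * w' ≤ Cz * w' := mul_le_mul_of_nonneg_right hCz2 hw'0.le
    linarith
  -- the window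
  obtain ⟨Z, hZ⟩ : ∃ Z : ℕ, Z = ⌈(R1 * w' + wc) / (wc : ℝ)⌉₊ := ⟨_, rfl⟩
  have hZ1 : R1 * w' + wc ≤ Z * wc := by
    have h1 := Nat.le_ceil ((R1 * w' + wc) / (wc : ℝ))
    rw [← hZ, div_le_iff₀ (by linarith)] at h1
    exact h1
  have hZ2 : (Z : ℝ) ≤ (4 * R1 / c0 + 2) * (w' / wm) := by
    have hwc00 : (0 : ℝ) < wc := by linarith
    have h1 := Nat.ceil_lt_add_one (a := (R1 * w' + wc) / (wc : ℝ)) (by positivity)
    rw [← hZ] at h1
    have h2 : (R1 * w' + wc) / (wc : ℝ) = R1 * w' / wc + 1 := by field_simp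
    have h3 : R1 * w' / wc ≤ R1 * w' / (c0 * wm / 4) := div_le_div_of_nonneg_left (by positivity) (by positivity) hwc3
    have h4 : R1 * w' / (c0 * wm / 4) = 4 * R1 / c0 * (w' / wm) := by field_simp
    have h5 : 1 ≤ w' / wm := by
      rw [le_div_iff₀ hwm0]
      linarith
    rw [h2] at h1
    linarith
  have hZ0 : 1 ≤ Z := by
    rcases Nat.eq_zero_or_pos Z with h | h
    · rw [h] at hZ1
      push_cast at hZ1
      nlinarith [mul_nonneg hR1 hw'0.le]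
    · exact h
  have hZr : (1 : ℝ) ≤ Z := by exact_mod_cast hZ0
  -- the number of insertions
  obtain ⟨J, hJ⟩ : ∃ J : ℕ, J = ⌊(n' : ℝ) / ((3 + r) * m)⌋₊ := ⟨_, rfl⟩
  have hl0 : (0 : ℝ) < (3 + r) * m := by positivity
  have hJ1 : (J : ℝ) * ((3 + r) * m) ≤ n' := by
    have h1 : (J : ℝ) ≤ (n' : ℝ) / ((3 + r) * m) := by
      rw [hJ]
      exact Nat.floor_le (by positivity)
    rwa [le_div_iff₀ hl0] at h1
  have hJ3 : J * (m + M + m) ≤ n' := by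
    have h1 : ((J * (m + M + m) : ℕ) : ℝ) ≤ n' := by
      rw [Nat.cast_mul, hlr]
      exact hJ1
    exact_mod_cast h1
  have hJ2 : n' / ((3 + r) * m) / 2 ≤ (J : ℝ) := by
    have h1 := Nat.lt_floor_add_one ((n' : ℝ) / ((3 + r) * m))
    rw [← hJ] at h1
    have h2 : 2 ≤ (n' : ℝ) / ((3 + r) * m) := by
      rw [le_div_iff₀ hl0]
      linarith
    linarith
  have hq1 : 0 < q := by
    have h1 : (0 : ℝ) < q := lt_of_le_of_lt (by positivity) hq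
    exact_mod_cast h1
  have key := many48 (μ := μ) (s := s) hμ (m := m) (M := M) (N₀ := n') (J := J) (Z := Z) (q := q) (Ms := Ms) (wc := wc)
    (uo := uo) (k := k) (y₀ := x0) (cen := fun _ t => ⌊sl μ s * t⌋) (b := R * wm) (Y := K * Em) (p := p)
    (A := (C2 + 1) * Em) (x := C4 * Em) (δ := 1 / 8) (β := β) (σ := σ) (E₀ := (C2 + 1) * E')
    hwc0 (by omega) (by omega) hk0 hkM hx00 hx01 hq1 (by
      rw [div_lt_iff₀ hc0] at hq
      have h1 : (q : ℝ) * (c0 * wm / 4) ≤ q * wc := mul_le_mul_of_nonneg_left hwc3 (Nat.cast_nonneg _)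
      nlinarith) hZ0 hJ3 hY hp0 hp hA hx
    (fun i hi t ht => by
      have h1 := hconf (n' + i * (m + M + m)) (x0 + i * (uo + k + uo)) (by omega) (hN i hi.le) (hrg i).1 (hrg i).2
        (he i hi.le) (hlat i hi.le) t ht
      refine h1.trans ?_
      have hbnd : ∀ I : Finset ℤ, I ⊆ Finset.Icc (0 : ℤ) t → Integrable (fun η =>
          ∑ p ∈ I, pin μ s η t (n' + i * (m + M + m) - t) (x0 + i * (uo + k + uo)) p) (law μ) :=
        fun I hI => Pool.Agent.W_7d29a1_h48.bint (Finset.measurable_sum _ fun p _ => pin_meas48 _ _ _ _) (a := 1)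
          fun η => by
            rw [abs_of_nonneg (Finset.sum_nonneg fun p _ => pin_nonneg48 _ _ _ _ _)]
            exact pin_sum_le48 η t _ (hrg i).1 (by
              rw [show t + (n' + i * (m + M + m) - t) = n' + i * (m + M + m) by omega]
              exact (hrg i).2) I hI
      refine integral_mono (hbnd _ (Finset.filter_subset _ _)) (hbnd _ (Finset.filter_subset _ _)) fun η => ?_
      exact Finset.sum_le_sum_of_subset_of_nonneg (fun p hp => conf_win48 hwc20 hZ1 hp)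
        fun p _ _ => pin_nonneg48 _ _ _ _ _)
    le_rfl hβ hσ
    (fun i hi => hcon _ _ (by omega) (hrg i).1 (hrg i).2 (hN i hi) (he i hi))
    (by
      have h1 : Real.log (2 * Z) ≤ Real.log (2 * ((4 * R1 / c0 + 2) * (w' / wm))) :=
        Real.log_le_log (by positivity) (by linarith)
      have h2 := mul_le_mul_of_nonneg_right hK hEm0.le
      linarith)
    (by
      have h1 := e_nonneg hμ s (n := n' + Ms * (m + M + m)) (hrg Ms).1 (hrg Ms).2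
      linarith)
    (by
      have h1 : (8 * (C2 + 1) * E' / (K * Em) + 39) * (K * Em) ≤ Ms * (K * Em) :=
        mul_le_mul_of_nonneg_right (by rw [← hQ]; exact hMs2) hY.le
      have h2 : (8 * (C2 + 1) * E' / (K * Em) + 39) * (K * Em) = 8 * (C2 + 1) * E' + 39 * (K * Em) := by
        field_simp
      have h3 : 0 ≤ C2 * E' := by positivity
      linarith)
  have h1 : p * (n' / ((3 + r) * m) / 2) * (K * Em / 8) ^ 2 / (2 * ((4 * R1 / c0 + 2) * (w' / wm))) ≤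
      p * J * (K * Em / 8) ^ 2 / (2 * Z) := by
    refine div_le_div₀ (by positivity) ?_ (by positivity) (by linarith)
    exact mul_le_mul_of_nonneg_right (mul_le_mul_of_nonneg_left hJ2 hp0.le) (by positivity)
  exact h1.trans key

end

end Pool.Agent.W_7d29a1_H
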