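import Pool.Agent.W_7d29a1_H.BCore48
import Pool.Agent.W_7d29a1_h48.Phase

/-!
# Track H, section (B), one step: the truncated mean grows by the insertion of a slab, or the variance is large (helper48)
-/

set_option autoImplicit false

namespace Pool.Agent.W_7d29a1_H

open MeasureTheory ProbabilityTheory Finset Pool.Agent.W_7d29a1_f21 Pool.Agent.W_7d29a1_F
open Pool.Agent.W_7d29a1_h48 (pin ins Lip var_phase bint bdmul)

noncomputable section

variable {μ : Measure ℝ} {s : ℝ}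

/-- The luck of the displacement `(N, y)`. -/
def Fl48 (μ : Measure ℝ) (s : ℝ) (N : ℕ) (y : ℤ) (η : Env) : ℝ := -X μ s η 0 N y

lemma Fl_sub48 {N : ℕ} {y : ℤ} (h0 : 0 ≤ y) (h1 : y ≤ N) : Sub (Fl48 μ s N y) :=
  (Sub_X (μ := μ) (s := s) 0 h0 h1).neg

lemma pin_nonneg48 (η : Env) (t m : ℕ) (y p : ℤ) : 0 ≤ pin μ s η t m y p :=
  div_nonneg (mul_nonneg (W_nonneg _ _ _ _) (W_nonneg _ _ _ _)) (W_nonneg _ _ _ _)

lemma pin_sum48 (η : Env) (t m : ℕ) {y : ℤ} (h0 : 0 ≤ y) (h1 : y ≤ (t + m : ℕ)) :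
    ∑ p ∈ Finset.Icc (0 : ℤ) t, pin μ s η t m y p = 1 := by
  unfold pin
  rw [← Finset.sum_div]
  have h := W_add (μ := μ) (s := s) η 0 t m y
  have e : ∀ p : ℤ, ((0 : Pt).1 + (t : ℤ), (0 : Pt).2 + p) = ((t : ℤ), p) := by simp
  simp only [e] at h
  rw [← h]
  exact div_self (W_pos η 0 h0 h1).ne'

lemma pin_sum_le48 (η : Env) (t m : ℕ) {y : ℤ} (h0 : 0 ≤ y) (h1 : y ≤ (t + m : ℕ)) (I : Finset ℤ)
    (hI : I ⊆ Finset.Icc (0 : ℤ) t) : ∑ p ∈ I, pin μ s η t m y p ≤ 1 := by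
  rw [← pin_sum48 (μ := μ) (s := s) η t m h0 h1]
  exact Finset.sum_le_sum_of_subset_of_nonneg hI fun p _ _ => pin_nonneg48 η t m y p

lemma pin_meas48 (t m : ℕ) (y p : ℤ) : Measurable fun η => pin μ s η t m y p :=
  ((measurable_W 0 t p).mul (measurable_W _ m (y - p))).div (measurable_W 0 (t + m) y)

/-- The window of the cells `- Z ≤ z < Z` of width `wc` around `c`, at the time `t`. -/
def win48 (c : ℤ) (t : ℕ) (wc : ℤ) (Z : ℕ) : Finset ℤ :=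
  (Finset.Icc (0 : ℤ) t).filter fun p => -(Z : ℤ) ≤ (p - c) / wc ∧ (p - c) / wc < Z

/-- The cell `z`. -/
def cel48 (c : ℤ) (t : ℕ) (wc z : ℤ) : Finset ℤ :=
  (Finset.Icc (0 : ℤ) t).filter fun p => (p - c) / wc = z

lemma mem_cel48 {c : ℤ} {t : ℕ} {wc z p : ℤ} (hw : 0 < wc) : p ∈ cel48 c t wc z ↔
    (0 ≤ p ∧ p ≤ t) ∧ z * wc ≤ p - c ∧ p - c < (z + 1) * wc := by
  unfold cel48
  rw [Finset.mem_filter, Finset.mem_Icc]
  constructor
  · rintro ⟨h1, h2⟩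
    refine ⟨h1, ?_, ?_⟩
    · rw [← h2]
      exact Int.ediv_mul_le _ hw.ne'
    · rw [← h2]
      exact Int.lt_ediv_add_one_mul_self _ hw
  · rintro ⟨h1, h2, h3⟩
    refine ⟨h1, ?_⟩
    apply le_antisymm
    · exact Int.lt_add_one_iff.1 (Int.ediv_lt_of_lt_mul hw h3)
    · exact Int.le_ediv_of_mul_le hw h2

lemma sum_cel48 (c : ℤ) (t : ℕ) (wc : ℤ) (Z : ℕ) (f : ℤ → ℝ) :
    ∑ z ∈ Finset.Ico (-(Z : ℤ)) Z, ∑ p ∈ cel48 c t wc z, f p = ∑ p ∈ win48 c t wc Z, f p := by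
  have h := Finset.sum_fiberwise_of_maps_to (s := win48 c t wc Z) (t := Finset.Ico (-(Z : ℤ)) Z)
    (g := fun p => (p - c) / wc) (fun p hp => by
      unfold win48 at hp
      rw [Finset.mem_filter] at hp
      exact Finset.mem_Ico.2 hp.2) f
  rw [← h]
  refine Finset.sum_congr rfl fun z hz => ?_
  refine Finset.sum_congr ?_ fun _ _ => rfl
  ext p
  unfold cel48 win48
  rw [Finset.mem_Ico] at hz
  rw [Finset.mem_filter, Finset.mem_filter, Finset.mem_filter]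
  constructor
  · rintro ⟨h1, h2⟩
    exact ⟨⟨h1, by rw [h2]; exact hz⟩, h2⟩
  · rintro ⟨⟨h1, _⟩, h2⟩
    exact ⟨h1, h2⟩

variable [IsProbabilityMeasure μ]

/-- The gain of one slab. -/
theorem step_gain48 (hμ : Pool.Agent.W_7d29a1_h47.EM μ) {m M N t Z : ℕ} {wc uo k y c : ℤ} {b Y p A x δ : ℝ}
    (hwc : 0 < wc) (huo1 : wc ≤ uo) (huo2 : uo + wc ≤ m) (hk0 : 0 ≤ k) (hk1 : k ≤ M) (hy0 : 0 ≤ y) (hy1 : y ≤ N)
    (htN : t ≤ N) (hZ : 1 ≤ Z) (hY : 0 < Y) (hp0 : 0 < p) (hp : p ≤ (law μ).real {η | EvH μ s b Y M k 0 η})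
    (hA : ∀ u : ℤ, |u - uo| ≤ wc → ∫ η, max (X μ s η 0 m u) 0 ∂(law μ) ≤ A)
    (hx : ∫ η, max (X μ s η 0 (m + M + m) (uo + k + uo)) 0 ∂(law μ) ≤ x)
    (hδt : 1 - δ ≤ ∫ η, ∑ u ∈ win48 c t wc Z, pin μ s η t (N - t) y u ∂(law μ))
    {Φ : ℝ → ℝ} (hΦ : Lip Φ) {g K : ℝ}
    (hg : g ≤ max 0 (∫ η, (Φ (Fl48 μ s N y η + Y) - Φ (Fl48 μ s N y η)) ∂(law μ) - Y * δ))
    (hK : K ≤ g + ∫ η, Φ (Fl48 μ s N y η) ∂(law μ) -
      ∫ η, Φ (Fl48 μ s (N + (m + M + m)) (y + (uo + k + uo)) η) ∂(law μ) - Real.log (2 * Z) - 1 - 2 * A - x * δ) :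
    K ≤ ∑ z ∈ Finset.Ico (-(Z : ℤ)) Z,
      ((∫ η, Gb48 μ s b Y M k ((t : ℤ) + m, c + z * wc + uo) η *
          Φ (Fl48 μ s (N + (m + M + m)) (y + (uo + k + uo)) η) ∂(law μ)) /
        (∫ η, Gb48 μ s b Y M k ((t : ℤ) + m, c + z * wc + uo) η ∂(law μ)) -
          ∫ η, Φ (Fl48 μ s (N + (m + M + m)) (y + (uo + k + uo)) η) ∂(law μ)) := by
  obtain ⟨l, hl⟩ : ∃ l : ℕ, l = m + M + m := ⟨_, rfl⟩
  obtain ⟨kk, hkk⟩ : ∃ kk : ℤ, kk = uo + k + uo := ⟨_, rfl⟩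
  have hlz : (l : ℤ) = m + M + m := by rw [hl]; push_cast; ring
  have hkk0 : 0 ≤ kk := by omega
  have hkk1 : kk ≤ l := by omega
  have hZ0 : (0 : ℝ) < Z := by exact_mod_cast (lt_of_lt_of_le one_pos hZ)
  have hcard : ((Finset.Ico (-(Z : ℤ)) Z).card : ℝ) = 2 * Z := by
    rw [Int.card_Ico]
    have : ((Z : ℤ) - -(Z : ℤ)).toNat = 2 * Z := by omega
    rw [this]
    push_cast
    ring
  have hZs : (Finset.Ico (-(Z : ℤ)) Z).Nonempty := ⟨0, by rw [Finset.mem_Ico]; omega⟩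
  have hFm : Measurable (Fl48 μ s N y) := (Fl_sub48 hy0 hy1).1
  have hFi : Integrable (Fl48 μ s N y) (law μ) := (Fl_sub48 hy0 hy1).integrable hμ
  obtain ⟨m', hm'⟩ : ∃ m' : ℕ, N = t + m' := ⟨N - t, by omega⟩
  have hGi : ∀ a : Pt, ∫ η, Gb48 μ s b Y M k a η ∂(law μ) = (law μ).real {η | EvH μ s b Y M k 0 η} :=
    fun a => Gb_int48 s b Y M k a
  have key := ins (μ := μ) (s := s) hμ (κ := ℤ) (t := t) (l1 := m) (l2 := M) (l3 := m) (m := m')
    (k := kk) (y := y) hkk0 (by rw [← hl]; exact hkk1) hy0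
    (by rw [← hm']; exact hy1) (Finset.Ico (-(Z : ℤ)) Z) hZs (fun z => cel48 c t wc z)
    (fun z _ => Finset.filter_subset _ _)
    (fun z _ z' _ hzz => by
      rw [Finset.disjoint_left]
      intro p hp1 hp2
      unfold cel48 at hp1 hp2
      rw [Finset.mem_filter] at hp1 hp2
      exact hzz (hp1.2.symm.trans hp2.2))
    (z1 := fun z => c + z * wc + uo)
    (z2 := fun z => c + z * wc + uo + k)
    (fun z _ => by constructor <;> omega)
    (fun z _ p hp => by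
      rw [mem_cel48 hwc] at hp
      obtain ⟨⟨h1, h2⟩, h3, h4⟩ := hp
      have h5 : (z + 1) * wc = z * wc + wc := by ring
      rw [h5] at h4
      refine ⟨?_, ?_, ?_, ?_⟩ <;> omega)
    (fun z => Db48 (sl μ s) b M ((t : ℤ) + m, c + z * wc + uo))
    (fun z _ => Db_rows48 (sl μ s) b M ((t : ℤ) + m, c + z * wc + uo))
    (G := fun z => Gb48 μ s b Y M k ((t : ℤ) + m, c + z * wc + uo)) (fun z _ => Gb_meas48 _ _ _ _ _ _)
    (fun z _ => Gb_nonneg48 _ _ _ _ _ _)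
    (fun z _ => Gb_le_one48 _ _ _ _ _ _) (fun z _ => Gb_mono48 hY _ _ _) (fun z _ => Gb_dep48 _ _ _ _ _ _)
    (fun z _ => by
      rw [hGi]
      exact lt_of_lt_of_le hp0 hp)
    (Y := Y) (a := 2 * A) (x := x)
    (fun z _ η hη => by
      have h1 := Gb_luck48 hY hη
      have e : c + z * wc + uo + k - (c + z * wc + uo) = k := by ring
      simp only [e]
      exact h1)
    (fun z _ p hp => by
      rw [mem_cel48 hwc] at hp
      obtain ⟨⟨h1, h2⟩, h3, h4⟩ := hp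
      have h5 : (z + 1) * wc = z * wc + wc := by ring
      rw [h5] at h4
      have a1 := hA (c + z * wc + uo - p) (by rw [abs_le]; constructor <;> omega)
      have a2 := hA (p + kk - (c + z * wc + uo + k)) (by rw [abs_le]; constructor <;> omega)
      linarith)
    (by rw [← hl, ← hkk] at hx; rw [← hl]; exact hx) hΦ (N := N + l) (by rw [← hl, hm']; ring)
  rw [← hm'] at key
  simp only [sum_cel48] at key
  obtain ⟨ν, hν⟩ : ∃ ν : Env → ℝ, ∀ η, ν η =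
    ∑ p ∈ win48 c t wc Z, pin μ s η t m' y p := ⟨_, fun _ => rfl⟩
  simp only [← hν] at key
  have hνe : ν = fun η => ∑ p ∈ win48 c t wc Z, pin μ s η t m' y p := funext hν
  have hνm : Measurable ν := by
    rw [hνe]
    exact Finset.measurable_sum _ fun p _ => pin_meas48 _ _ _ _
  have hν0 : ∀ η, 0 ≤ ν η := fun η => by
    rw [hν]
    exact Finset.sum_nonneg fun p _ => pin_nonneg48 _ _ _ _ _
  have hν1 : ∀ η, ν η ≤ 1 := fun η => by
    rw [hν]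
    exact pin_sum_le48 η t m' hy0 (by rw [← hm']; exact hy1) _ (Finset.filter_subset _ _)
  have hνi : Integrable ν (law μ) := bint hνm (a := 1) fun η => by
    rw [abs_of_nonneg (hν0 η)]
    exact hν1 η
  have hδt : 1 - δ ≤ ∫ η, ν η ∂(law μ) := by
    have h1 := hδt
    rw [show N - t = m' by omega] at h1
    simp only [hν]
    exact h1
  have hν1i : ∫ η, ν η ∂(law μ) ≤ 1 := by
    have h1 := integral_mono hνi (integrable_const (1 : ℝ)) hν1
    simpa using h1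
  have hx0 : 0 ≤ x := le_trans (integral_nonneg fun η => le_max_right _ _) hx
  have hA0 : 0 ≤ A := le_trans (integral_nonneg fun η => le_max_right _ _)
    (hA uo (by rw [sub_self, abs_zero]; exact hwc.le))
  -- the gain
  have hD0 : ∀ η, 0 ≤ Φ (Fl48 μ s N y η + Y) - Φ (Fl48 μ s N y η) := fun η =>
    sub_nonneg.2 (hΦ.mono (by linarith))
  have hD1 : ∀ η, Φ (Fl48 μ s N y η + Y) - Φ (Fl48 μ s N y η) ≤ Y := fun η => by
    have := hΦ.lip (Fl48 μ s N y η) Y hY.le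
    linarith
  have hDm : Measurable fun η => Φ (Fl48 μ s N y η + Y) - Φ (Fl48 μ s N y η) :=
    (hΦ.mono.measurable.comp (hFm.add_const Y)).sub (hΦ.mono.measurable.comp hFm)
  have hDi : Integrable (fun η => Φ (Fl48 μ s N y η + Y) - Φ (Fl48 μ s N y η)) (law μ) :=
    bint hDm (a := Y) fun η => by
      rw [abs_of_nonneg (hD0 η)]
      exact hD1 η
  have hνDi : Integrable (fun η => ν η * (Φ (Fl48 μ s N y η + Y) - Φ (Fl48 μ s N y η))) (law μ) :=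
    bdmul hνm hν0 hν1 hDm hDi
  have hgain : g ≤ ∫ η, ν η * (Φ (Fl48 μ s N y η + Y) - Φ (Fl48 μ s N y η)) ∂(law μ) := by
    refine hg.trans (max_le (integral_nonneg fun η => mul_nonneg (hν0 η) (hD0 η)) ?_)
    have h1 : ∫ η, (Φ (Fl48 μ s N y η + Y) - Φ (Fl48 μ s N y η)) ∂(law μ) ≤
        ∫ η, (ν η * (Φ (Fl48 μ s N y η + Y) - Φ (Fl48 μ s N y η)) + (Y - Y * ν η)) ∂(law μ) := by
      refine integral_mono hDi (hνDi.add ((integrable_const Y).sub (hνi.const_mul Y)))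
        fun η => ?_
      have h2 := mul_le_mul_of_nonneg_left (hD1 η) (sub_nonneg.2 (hν1 η))
      show Φ (Fl48 μ s N y η + Y) - Φ (Fl48 μ s N y η) ≤
        ν η * (Φ (Fl48 μ s N y η + Y) - Φ (Fl48 μ s N y η)) + (Y - Y * ν η)
      nlinarith
    have h2 : ∫ η, (ν η * (Φ (Fl48 μ s N y η + Y) - Φ (Fl48 μ s N y η)) + (Y - Y * ν η)) ∂(law μ) =
        ∫ η, ν η * (Φ (Fl48 μ s N y η + Y) - Φ (Fl48 μ s N y η)) ∂(law μ) +
          (Y - Y * ∫ η, ν η ∂(law μ)) := by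
      have h3 : Integrable (fun η => Y - Y * ν η) (law μ) :=
        (integrable_const Y).sub (hνi.const_mul Y)
      rw [integral_add hνDi h3, integral_sub (integrable_const Y) (hνi.const_mul Y),
        integral_const_mul, integral_const, probReal_univ, one_smul]
    rw [h2] at h1
    have h3 := mul_le_mul_of_nonneg_left hδt hY.le
    linarith
  rw [← hl, ← hkk] at hK ⊢
  have hkey2 : ∫ η, ν η * (Φ (Fl48 μ s N y η + Y) - Φ (Fl48 μ s N y η)) ∂(law μ) +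
      ∫ η, Φ (Fl48 μ s N y η) ∂(law μ) - ∫ η, Φ (Fl48 μ s (N + l) (y + kk) η) ∂(law μ) -
      Real.log (Finset.Ico (-(Z : ℤ)) Z).card - 1 - 2 * A * ∫ η, ν η ∂(law μ) -
      x * (1 - ∫ η, ν η ∂(law μ)) ≤ ∑ z ∈ Finset.Ico (-(Z : ℤ)) Z,
    ((∫ η, Gb48 μ s b Y M k ((t : ℤ) + m, c + z * wc + uo) η * Φ (Fl48 μ s (N + l) (y + kk) η) ∂(law μ)) /
      (∫ η, Gb48 μ s b Y M k ((t : ℤ) + m, c + z * wc + uo) η ∂(law μ)) -
        ∫ η, Φ (Fl48 μ s (N + l) (y + kk) η) ∂(law μ)) := key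
  refine le_trans ?_ hkey2
  rw [hcard]
  have h1 : 2 * A * ∫ η, ν η ∂(law μ) ≤ 2 * A :=
    mul_le_of_le_one_right (by linarith) hν1i
  have h2 : x * (1 - ∫ η, ν η ∂(law μ)) ≤ x * δ := mul_le_mul_of_nonneg_left (by linarith) hx0
  linarith

/-- **One step.** -/
theorem step48 (hμ : Pool.Agent.W_7d29a1_h47.EM μ) {m M N J Z q : ℕ} {wc uo k y : ℤ} {cen : ℕ → ℤ} {b Y p A x δ : ℝ}
    (hwc : 0 < wc) (huo1 : wc ≤ uo) (huo2 : uo + wc ≤ m) (hk0 : 0 ≤ k) (hk1 : k ≤ M) (hy0 : 0 ≤ y) (hy1 : y ≤ N)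
    (hq1 : 0 < q) (hq : 2 * b < q * wc) (hZ : 1 ≤ Z) (hJ : J * (m + M + m) ≤ N) (hY : 0 < Y) (hp0 : 0 < p)
    (hp : p ≤ (law μ).real {η | EvH μ s b Y M k 0 η})
    (hA : ∀ u : ℤ, |u - uo| ≤ wc → ∫ η, max (X μ s η 0 m u) 0 ∂(law μ) ≤ A)
    (hx : ∫ η, max (X μ s η 0 (m + M + m) (uo + k + uo)) 0 ∂(law μ) ≤ x)
    (hδ : ∀ t : ℕ, t ≤ N → 1 - δ ≤ ∫ η, ∑ u ∈ win48 (cen t) t wc Z, pin μ s η t (N - t) y u ∂(law μ))
    {Φ : ℝ → ℝ} (hΦ : Lip Φ) {g K : ℝ}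
    (hg : g ≤ max 0 (∫ η, (Φ (Fl48 μ s N y η + Y) - Φ (Fl48 μ s N y η)) ∂(law μ) - Y * δ)) (hK0 : 0 ≤ K)
    (hK : K ≤ g + ∫ η, Φ (Fl48 μ s N y η) ∂(law μ) -
      ∫ η, Φ (Fl48 μ s (N + (m + M + m)) (y + (uo + k + uo)) η) ∂(law μ) - Real.log (2 * Z) - 1 - 2 * A - x * δ) :
    p * J * K ^ 2 / (2 * Z) ≤ q * (∫ η, Φ (Fl48 μ s (N + (m + M + m)) (y + (uo + k + uo)) η) ^ 2 ∂(law μ) -
      (∫ η, Φ (Fl48 μ s (N + (m + M + m)) (y + (uo + k + uo)) η) ∂(law μ)) ^ 2) := by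
  obtain ⟨l, hl⟩ : ∃ l : ℕ, l = m + M + m := ⟨_, rfl⟩
  obtain ⟨kk, hkk⟩ : ∃ kk : ℤ, kk = uo + k + uo := ⟨_, rfl⟩
  have hlz : (l : ℤ) = m + M + m := by rw [hl]; push_cast; ring
  have hZ0 : (0 : ℝ) < Z := by exact_mod_cast (lt_of_lt_of_le one_pos hZ)
  have hcard : ((Finset.Ico (-(Z : ℤ)) Z).card : ℝ) = 2 * Z := by
    rw [Int.card_Ico]
    have : ((Z : ℤ) - -(Z : ℤ)).toNat = 2 * Z := by omega
    rw [this]
    push_cast
    ring
  -- the start of the core of the block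
  obtain ⟨a, ha⟩ : ∃ a : ℕ → ℤ → Pt, ∀ j z, a j z =
    (((j * l : ℕ) : ℤ) + m, cen (j * l) + z * wc + uo) := ⟨_, fun _ _ => rfl⟩
  have hGi : ∀ j z, ∫ η, Gb48 μ s b Y M k (a j z) η ∂(law μ) = (law μ).real {η | EvH μ s b Y M k 0 η} :=
    fun j z => Gb_int48 s b Y M k _
  have hTs : Sub (Fl48 μ s (N + l) (y + kk)) := Fl_sub48 (by omega) (by push_cast; omega)
  have hT2 : Integrable (fun η => Φ (Fl48 μ s (N + l) (y + kk) η) ^ 2) (law μ) := by
    refine (((integrable_const (2 * Φ 0 ^ 2)).add ((hTs.sq_integrable hμ).const_mul 2))).mono'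
      ((hΦ.mono.measurable.comp hTs.1).pow_const 2).aestronglyMeasurable
      (Filter.Eventually.of_forall fun η => ?_)
    rw [Real.norm_eq_abs, abs_of_nonneg (sq_nonneg _), ← sq_abs (Φ (Fl48 μ s (N + l) (y + kk) η))]
    show |Φ (Fl48 μ s (N + l) (y + kk) η)| ^ 2 ≤ 2 * Φ 0 ^ 2 + 2 * Fl48 μ s (N + l) (y + kk) η ^ 2
    have h1 := hΦ.abs_le (Fl48 μ s (N + l) (y + kk) η)
    have h2 := pow_le_pow_left₀ (abs_nonneg _) h1 2
    refine h2.trans ?_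
    rw [← sq_abs (Φ 0), ← sq_abs (Fl48 μ s (N + l) (y + kk) η)]
    nlinarith [sq_nonneg (|Φ 0| - |Fl48 μ s (N + l) (y + kk) η|)]
  have hins : ∀ j ∈ Finset.range J, K ≤ ∑ z ∈ Finset.Ico (-(Z : ℤ)) Z,
      ((∫ η, Gb48 μ s b Y M k (a j z) η * Φ (Fl48 μ s (N + l) (y + kk) η) ∂(law μ)) /
        (∫ η, Gb48 μ s b Y M k (a j z) η ∂(law μ)) - ∫ η, Φ (Fl48 μ s (N + l) (y + kk) η) ∂(law μ)) := by
    intro j hj
    rw [Finset.mem_range] at hj
    have htN : j * l ≤ N := by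
      refine le_trans (Nat.mul_le_mul_right l hj.le) ?_
      rw [hl]
      exact hJ
    have h1 := step_gain48 (μ := μ) (s := s) hμ (t := j * l) (c := cen (j * l)) hwc huo1 huo2 hk0 hk1 hy0 hy1 htN hZ hY
      hp0 hp hA hx (hδ _ htN) hΦ hg hK
    rw [← hl, ← hkk] at h1
    simp only [ha]
    exact h1
  have hvar := var_phase (P := law μ) (Finset.range J) (Finset.Ico (-(Z : ℤ)) Z) (q := q)
    (fun z => (z + Z).toNat % q) (fun z _ => Nat.mod_lt _ hq1)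
    (G := fun j z => Gb48 μ s b Y M k (a j z)) (T := fun η => Φ (Fl48 μ s (N + l) (y + kk) η)) hp0
    (fun j _ z _ => Gb_meas48 _ _ _ _ _ _) (fun j _ z _ => Gb_nonneg48 _ _ _ _ _ _)
    (fun j _ z _ => Gb_le_one48 _ _ _ _ _ _) (fun j _ z _ => by rw [hGi]; exact hp)
    (fun j _ z hz j' _ z' hz' hc hne => by
      refine Gb_indep48 ?_
      rcases lt_trichotomy j j' with h | h | h
      · refine Db_disj_rows48 ?_
        rw [ha, ha]
        have h1 : (j + 1) * l ≤ j' * l := Nat.mul_le_mul_right l h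
        have h2 : (j + 1) * l = j * l + l := by ring
        show ((j * l : ℕ) : ℤ) + m + M ≤ ((j' * l : ℕ) : ℤ) + m
        omega
      · subst h
        have hzz : z ≠ z' := fun h => hne (by rw [h])
        refine Db_disj_cols48 (by rw [ha, ha]) ?_
        rw [ha, ha]
        have e : cen (j * l) + z * wc + uo - (cen (j * l) + z' * wc + uo) = (z - z') * wc := by ring
        simp only [e]
        rw [Finset.mem_Ico] at hz hz'
        have h1 : (q : ℤ) ≤ |z - z'| := by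
          have hc' : (z + Z).toNat % q = (z' + Z).toNat % q := hc
          have h2 : ((z + Z).toNat : ℤ) = z + Z := Int.toNat_of_nonneg (by omega)
          have h3 : ((z' + Z).toNat : ℤ) = z' + Z := Int.toNat_of_nonneg (by omega)
          have h4 : (q : ℤ) ∣ z - z' := by
            have h5 : ((z + Z).toNat : ℤ) % q = ((z' + Z).toNat : ℤ) % q := by
              exact_mod_cast hc'
            rw [h2, h3] at h5
            have h8 : (q : ℤ) ∣ (z + Z) - (z' + Z) := Int.ModEq.dvd h5.symm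
            have h9 : (z + (Z : ℤ)) - (z' + Z) = z - z' := by ring
            rwa [h9] at h8
          have h5 : z - z' ≠ 0 := sub_ne_zero.2 hzz
          exact Int.le_of_dvd (abs_pos.2 h5) ((dvd_abs _ _).2 h4)
        push_cast
        rw [abs_mul, abs_of_pos (show (0 : ℝ) < (wc : ℝ) by exact_mod_cast hwc)]
        refine lt_of_lt_of_le hq (mul_le_mul_of_nonneg_right ?_ (by exact_mod_cast hwc.le))
        have h2 : ((q : ℤ) : ℝ) ≤ ((|z - z'| : ℤ) : ℝ) := by exact_mod_cast h1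
        push_cast at h2
        exact h2
      · refine (Db_disj_rows48 ?_).symm
        rw [ha, ha]
        have h1 : (j' + 1) * l ≤ j * l := Nat.mul_le_mul_right l h
        have h2 : (j' + 1) * l = j' * l + l := by ring
        show ((j' * l : ℕ) : ℤ) + m + M ≤ ((j * l : ℕ) : ℤ) + m
        omega)
    (hΦ.mono.measurable.comp hTs.1) hT2 hK0 (w := 2 * Z) (by linarith) (le_of_eq hcard) hins
  rw [Finset.card_range] at hvar
  rw [hl, hkk] at hvar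
  exact hvar

end

end Pool.Agent.W_7d29a1_H
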