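import Pool.Agent.W_7d29a1_H.BalT35

/-!
MP_7d29a1_pr, TRACK H (all tilts), **(BALANCE)**: the left and the right width of the caps are comparable, at all scales, uniformly in
the tilt. (helper35, after W_1b8d5d_p/BalNum48)
-/

set_option autoImplicit false

namespace Pool.Agent.W_7d29a1_H

open MeasureTheory ProbabilityTheory Filter Topology Set
open Pool.Agent.W_7d29a1_F
open Pool.Agent.W_1b8d5d_p (wR wL wd Rf)
open Pool.Agent.W_7d29a1_h47 (EM Nondeg)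

noncomputable section

variable {μ : Measure ℝ} [IsProbabilityMeasure μ] {H δ a C3 Cm ρ : ℝ} {A A0 : Set ℝ}

theorem lev_nonneg35 (ha : 0 ≤ a) (s : ℝ) (n : ℕ) : 0 ≤ a * EE μ s n / n :=
  div_nonneg (mul_nonneg ha (EE_pos n).le) (Nat.cast_nonneg n)

/-- The widths grow at least as the units. -/
theorem vA_ge35 (hD : Dirs μ H δ A) (ha : 0 < a) {s : ℝ} (hs : s ∈ A) {n k : ℕ}
    (hn : 1 ≤ n) (hk : 1 ≤ k) : vA a μ s n * EE μ s (k * n) ≤ k * vA a μ s (k * n) * EE μ s n := by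
  have hn0 : (0 : ℝ) < n := by exact_mod_cast hn
  have hk0 : (0 : ℝ) < k := by exact_mod_cast hk
  have hE : 0 < EE μ s n := EE_pos n
  have hE' : 0 < EE μ s (k * n) := EE_pos (k * n)
  have h1 := EE_mul hD.em s n hk
  set t : ℝ := k * EE μ s n / EE μ s (k * n) with ht
  have ht1 : 1 ≤ t := (one_le_div hE').2 h1
  have hlev : a * EE μ s n / n = t * (a * EE μ s (k * n) / ((k * n : ℕ) : ℝ)) := by
    rw [ht]
    push_cast
    field_simp
  have h2 := (hD.rf hs).wR_mul (lev_nonneg35 (μ := μ) ha.le s (k * n)) ht1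
  have h3 := (hD.rf hs).wL_mul (lev_nonneg35 (μ := μ) ha.le s (k * n)) ht1
  rw [← hlev] at h2 h3
  have h4 : vA a μ s n ≤ t * vA a μ s (k * n) := by
    unfold vA vr vl
    rw [mul_add]
    exact add_le_add h2 h3
  have h5 := mul_le_mul_of_nonneg_right h4 hE'.le
  have h6 : t * vA a μ s (k * n) * EE μ s (k * n) = k * vA a μ s (k * n) * EE μ s n := by
    rw [ht]
    field_simp
  linarith

/-- The unit of the tilted law is not much smaller. -/
theorem bal_unit35 (hD : Dirs μ H δ A) (hJ : JTilt35 μ A ρ) (ha : 1 ≤ a) {s0 : ℝ} (h0 : s0 ∈ A) {σ : ℝ} (h1 : s0 + σ ∈ A)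
    (hσ : |σ| ≤ ρ) {g : ℝ} (hg : g = 1 ∨ g = -1) {n : ℕ} (hn : 1 ≤ n) {s τ : ℝ} (hs : 0 < s) (hsd : g * σ = s)
    (hτ : τ = a * EE μ s0 n / n) (hr : 0 < wR (mir35 g (J μ s0)) τ) (hsr : 2 * (s * wR (mir35 g (J μ s0)) τ) ≤ τ)
    (hrρ : wR (mir35 g (J μ s0)) τ ≤ ρ) (hle : EE μ (s0 + σ) n ≤ EE μ s0 n) :
    EE μ s0 n ≤ EE μ (s0 + σ) n + 4 * (n * (s * wR (mir35 g (J μ s0)) τ)) := by
  have hT := tilt_of35 hD hJ h0 h1 hσ hg
  rw [hsd] at hT
  have hg2 : g * g = 1 := by rcases hg with rfl | rfl <;> norm_num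
  have hn0 : (0 : ℝ) < n := by exact_mod_cast hn
  have hE : 0 < EE μ s0 n := EE_pos n
  have hτ0 : 0 < τ := by rw [hτ]; positivity
  have R0 := mir_rf35 hg (hD.rf h0)
  have R1 := mir_rf35 hg (hD.rf h1)
  set K0 := mir35 g (J μ s0) with hK0
  set K1 := mir35 g (J μ (s0 + σ)) with hK1
  set r := wR K0 τ with hrd
  set x := g * (sl μ (s0 + σ) - sl μ s0) with hx
  have hx0 := tilt_pos35 R0 hT hs
  have hxr := tilt_le35 R0 hT hτ0 hr hsr
  have hKx := hT.1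
  have hσs : σ = g * s := by
    rw [← hsd, ← mul_assoc, hg2, one_mul]
  refine EE_le fun m hm => ?_
  have hD0 : 0 ≤ 4 * (n * (s * r)) := by positivity
  rcases Nat.eq_zero_or_pos m with hm0 | hm0
  · rw [hm0, es_zero]
    linarith [one_le_EE (μ := μ) (s := s0 + σ) n]
  obtain ⟨hy0, hy1⟩ := zs_mem (μ := μ) (s := s0 + σ) m
  have hy := ep_zs (μ := μ) (s := s0 + σ) m
  set y := zs μ (s0 + σ) m with hyd
  have hm1 : (0 : ℝ) < m := by exact_mod_cast hm0
  have hmn : (m : ℝ) ≤ n := by exact_mod_cast hm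
  have h2 := e_ge35 hD.em (s0 + σ) hm0 hy0 hy1
  have h3 := e_le_ep35 hD.em (s0 + σ) hy0 hy1
  have h4 := le_EE (μ := μ) (s := s0 + σ) hm
  set u := g * ((y : ℝ) / m - sl μ (s0 + σ)) with hu
  have hKu : K1 u = J μ (s0 + σ) ((y : ℝ) / m - sl μ (s0 + σ)) := by
    rw [hK1, hu]
    unfold mir35
    rw [← mul_assoc, hg2, one_mul]
  have h6 : m * K1 u ≤ EE μ s0 n := by
    rw [hKu]
    linarith
  have h7 : m * (K1 u / τ) ≤ n := by
    rw [← mul_div_assoc, div_le_iff₀ hτ0, hτ]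
    have e1 : (n : ℝ) * (a * EE μ s0 n / n) = a * EE μ s0 n := by field_simp
    rw [e1]
    have h8 : 1 * EE μ s0 n ≤ a * EE μ s0 n := mul_le_mul_of_nonneg_right ha hE.le
    linarith
  have h8 := tilt_right35 R0 R1 hT hs hτ0 hr hsr hrρ u
  have h9 : m * (x + u) ≤ 3 * (n * r) := by
    have h10 := mul_le_mul_of_nonneg_left h8 hm1.le
    have h11 : m * (r + 2 * r * (K1 u / τ)) = m * r + 2 * r * (m * (K1 u / τ)) := by ring
    rw [← hrd] at h10
    rw [h11] at h10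
    have h12 : m * r ≤ n * r := mul_le_mul_of_nonneg_right hmn hr.le
    have h13 : 2 * r * (m * (K1 u / τ)) ≤ 2 * r * n := mul_le_mul_of_nonneg_left h7 (by positivity)
    linarith
  have hmu : (y : ℝ) - sl μ (s0 + σ) * m = m * (g * u) := by
    rw [hu, ← mul_assoc g g, hg2, one_mul]
    field_simp
  have hJx : J μ s0 (sl μ (s0 + σ) - sl μ s0) = K0 x := by
    rw [hK0, hx]
    unfold mir35
    rw [← mul_assoc, hg2, one_mul]
  have hmain : (s0 + σ - s0) * y - (lam μ (s0 + σ) - lam μ s0) * m ≤ 4 * (n * (s * r)) := by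
    rw [lam_sub35 hD.em hD.nd s0 (hσ.trans hJ.2.1), hJx, add_sub_cancel_left]
    have e1 : σ * y - (σ * sl μ (s0 + σ) - K0 x) * m = m * K0 x + σ * (y - sl μ (s0 + σ) * m) := by ring
    rw [e1, hmu, hσs]
    have e2 : g * s * (m * (g * u)) = s * (m * u) := by
      linear_combination (s * (m * u)) * hg2
    rw [e2]
    have h10 : m * K0 x ≤ n * (s * r) := by
      have h11 : K0 x ≤ s * r := hKx.trans (mul_le_mul_of_nonneg_left hxr hs.le)
      exact (mul_le_mul_of_nonneg_left h11 hm1.le).trans (mul_le_mul_of_nonneg_right hmn (by positivity))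
    have h11 : s * (m * u) ≤ s * (3 * (n * r)) := by
      refine mul_le_mul_of_nonneg_left ?_ hs.le
      have h12 : 0 ≤ m * x := mul_nonneg hm1.le hx0
      have h13 : m * (x + u) = m * x + m * u := by ring
      linarith
    nlinarith
  have h14 := ep_cmp35 hD.em s0 (s0 + σ) hy0 hy1 hD0 hmain
  have h15 := es_le (μ := μ) (s := s0) hy0 hy1
  linarith

/-- The width of the tilted law. -/
theorem bal_width35 (hD : Dirs μ H δ A) (hJ : JTilt35 μ A ρ) (ha : 1 ≤ a) {s0 : ℝ} (h0 : s0 ∈ A) {σ : ℝ} (h1 : s0 + σ ∈ A)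
    (hσ : |σ| ≤ ρ) {g : ℝ} (hg : g = 1 ∨ g = -1) {n : ℕ} (hn : 1 ≤ n) {s τ : ℝ} (hs : 0 < s) (hsd : g * σ = s)
    (hτ : τ = a * EE μ s0 n / n) (hr : 0 < wR (mir35 g (J μ s0)) τ) (hsr : 2 * (s * wR (mir35 g (J μ s0)) τ) ≤ τ)
    (hrρ : wR (mir35 g (J μ s0)) τ ≤ ρ) (hvρ : vr a μ (s0 + σ) n ≤ ρ ∧ vl a μ (s0 + σ) n ≤ ρ) :
    vA a μ (s0 + σ) n ≤ 2 * wR (mir35 g (J μ s0)) τ * (1 + EE μ (s0 + σ) n / EE μ s0 n) + a * EE μ (s0 + σ) n / n / s := by
  have hT := tilt_of35 hD hJ h0 h1 hσ hg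
  rw [hsd] at hT
  have hn0 : (0 : ℝ) < n := by exact_mod_cast hn
  have hE : 0 < EE μ s0 n := EE_pos n
  have hτ0 : 0 < τ := by rw [hτ]; positivity
  have R0 := mir_rf35 hg (hD.rf h0)
  have R1 := mir_rf35 hg (hD.rf h1)
  have hb : 0 ≤ a * EE μ (s0 + σ) n / n := lev_nonneg35 (by linarith) _ _
  have h2 := tilt_wR35 R0 R1 hT hs hτ0 hr hsr hrρ hb
  have hwl : wL (mir35 g (J μ (s0 + σ))) (a * EE μ (s0 + σ) n / n) ≤ ρ :=
    (mir_wL35 hg _ _).trans (max_le hvρ.1 hvρ.2)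
  have h3 := tilt_wL35 R0 R1 hT hs hτ0 hr hsr hb hwl
  have h4 := mir_w35 hg (J μ (s0 + σ)) (a * EE μ (s0 + σ) n / n)
  have e1 : a * EE μ (s0 + σ) n / n / τ = EE μ (s0 + σ) n / EE μ s0 n := by
    rw [hτ]
    field_simp
  rw [e1] at h2
  have e2 : vA a μ (s0 + σ) n = wR (J μ (s0 + σ)) (a * EE μ (s0 + σ) n / n) + wL (J μ (s0 + σ)) (a * EE μ (s0 + σ) n / n) := rfl
  rw [e2, ← h4]
  nlinarith

/-- The linear forms of the two tilts on the displacements of the lanes. -/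
theorem bal_form35 (hD : Dirs μ H δ A) (hJ : JTilt35 μ A ρ) {s0 : ℝ} (h0 : s0 ∈ A) {σ : ℝ} (h1 : s0 + σ ∈ A)
    (hσ : |σ| ≤ ρ) {g : ℝ} (hg : g = 1 ∨ g = -1) {s τ : ℝ} (hs : 0 < s) (hsd : g * σ = s)
    (hτ : 0 < τ) (hr : 0 < wR (mir35 g (J μ s0)) τ) (hsr : 2 * (s * wR (mir35 g (J μ s0)) τ) ≤ τ) {M k : ℝ} (hM : 0 ≤ M) :
    |(lam μ s0 - lam μ (s0 + σ)) * M - (s0 - (s0 + σ)) * k| ≤
      M * (s * wR (mir35 g (J μ s0)) τ) + s * |k - sl μ (s0 + σ) * M| := by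
  have hT := tilt_of35 hD hJ h0 h1 hσ hg
  rw [hsd] at hT
  have hg2 : g * g = 1 := by rcases hg with rfl | rfl <;> norm_num
  have R0 := mir_rf35 hg (hD.rf h0)
  have hxr := tilt_le35 R0 hT hτ hr hsr
  have hKx := hT.1
  have hKn := R0.nn (g * (sl μ (s0 + σ) - sl μ s0))
  have hσs : σ = g * s := by
    rw [← hsd, ← mul_assoc, hg2, one_mul]
  have hJx : J μ s0 (sl μ (s0 + σ) - sl μ s0) = mir35 g (J μ s0) (g * (sl μ (s0 + σ) - sl μ s0)) := by
    unfold mir35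
    rw [← mul_assoc, hg2, one_mul]
  have e1 : (lam μ s0 - lam μ (s0 + σ)) * M - (s0 - (s0 + σ)) * k =
      M * mir35 g (J μ s0) (g * (sl μ (s0 + σ) - sl μ s0)) + g * s * (k - sl μ (s0 + σ) * M) := by
    have h2 := lam_sub35 hD.em hD.nd s0 (hσ.trans hJ.2.1)
    rw [hJx] at h2
    have e2 : lam μ s0 - lam μ (s0 + σ) = -(σ * sl μ (s0 + σ) - mir35 g (J μ s0) (g * (sl μ (s0 + σ) - sl μ s0))) := by
      rw [← h2]
      ring
    rw [e2, ← hσs]
    ring
  rw [e1]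
  refine (abs_add_le _ _).trans (add_le_add ?_ ?_)
  · rw [abs_mul, abs_of_nonneg hM, abs_of_nonneg hKn]
    exact mul_le_mul_of_nonneg_left (hKx.trans (mul_le_mul_of_nonneg_left hxr hs.le)) hM
  · rw [abs_mul, abs_mul, abs_of_pos hs]
    have : |g| = 1 := by rcases hg with rfl | rfl <;> simp
    rw [this, one_mul]

omit [IsProbabilityMeasure μ] in
/-- The scale at which the unit of `s0` is about `E`. -/
theorem bal_scale35 [IsProbabilityMeasure μ] (hμ : EM μ) (hG : Grow μ A) {s0 : ℝ} (h0 : s0 ∈ A) {x : ℕ} {E : ℝ}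
    (hE : EE μ s0 (2 ^ x) ≤ 2 * E) :
    ∃ x' : ℕ, x ≤ x' ∧ EE μ s0 (2 ^ x') ≤ 2 * E ∧ E ≤ 2 * EE μ s0 (2 ^ x') := by
  rcases le_or_gt E (2 * EE μ s0 (2 ^ x)) with h | h
  · exact ⟨x, le_rfl, hE, h⟩
  have hex : ∃ j : ℕ, E < EE μ s0 (2 ^ (x + j)) := by
    obtain ⟨n0, hn0⟩ := hG (E + 1)
    refine ⟨n0, ?_⟩
    have h2 : n0 ≤ 2 ^ (x + n0) := (Nat.lt_two_pow_self.le).trans (Nat.pow_le_pow_right (by norm_num) (by omega))
    have := hn0 s0 h0 _ h2
    linarith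
  classical
  obtain ⟨hj, hmin⟩ : E < EE μ s0 (2 ^ (x + Nat.find hex)) ∧ ∀ i < Nat.find hex, EE μ s0 (2 ^ (x + i)) ≤ E :=
    ⟨Nat.find_spec hex, fun i hi => not_lt.1 (Nat.find_min hex hi)⟩
  set j := Nat.find hex with hjd
  have hEp : 0 < EE μ s0 (2 ^ x) := EE_pos _
  have hj0 : j ≠ 0 := by
    intro hj0
    rw [hj0, add_zero] at hj
    linarith
  obtain ⟨i, hi⟩ := Nat.exists_eq_succ_of_ne_zero hj0
  have h3 := hmin i (by omega)
  have h4 := EE_mul hμ s0 (2 ^ (x + i)) (k := 2) (by norm_num)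
  have e1 : 2 * 2 ^ (x + i) = 2 ^ (x + j) := by
    rw [hi, Nat.succ_eq_add_one]
    ring
  rw [e1] at h4
  push_cast at h4
  refine ⟨x + i, by omega, ?_, by linarith⟩
  have h5 : 0 < EE μ s0 (2 ^ (x + i)) := EE_pos _
  linarith

/-- **One side.** A tilt with one very flat side, tilted towards the other side, contradicts the comparison. -/
theorem bal_side35 (hD : Dirs μ H δ A) (hJ : JTilt35 μ A ρ) (ha : 1 ≤ a) (hG : Grow μ A) (hC : CmpH a μ A C3 Cm) :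
    ∃ (B : ℝ) (x1 : ℕ), 1 ≤ B ∧ ∀ s0 ∈ A, ∀ σ : ℝ, s0 + σ ∈ A → |σ| ≤ ρ → ∀ g : ℝ, (g = 1 ∨ g = -1) → ∀ x : ℕ, x1 ≤ x →
      (∀ s ∈ A, vr a μ s (2 ^ x) ≤ ρ ∧ vl a μ s (2 ^ x) ≤ ρ) → ∀ τ t : ℝ,
      t = EE μ s0 (2 ^ x) / 2 ^ x → τ = a * EE μ s0 (2 ^ x) / 2 ^ x →
      0 < wR (mir35 g (J μ s0)) τ → 0 < wL (mir35 g (J μ s0)) τ → wR (mir35 g (J μ s0)) τ ≤ ρ →
      g * σ = 4 * B * t / wL (mir35 g (J μ s0)) τ →
      wL (mir35 g (J μ s0)) τ < 64 * B * wR (mir35 g (J μ s0)) τ := by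
  obtain ⟨C2', x1, hC2⟩ := hC (2 + |Cm| + 2 * a * |C3|)
  set C2 := max C2' 1 with hC2d
  have hC21 : 1 ≤ C2 := le_max_right _ _
  have ha0 : 0 < a := by linarith
  have hB : 1 ≤ 2 * a * C2 := by nlinarith
  refine ⟨2 * a * C2, x1, hB, fun s0 h0 σ h1 hσ g hg x hx hvρ τ t ht hτ hr hl hrρ hsd => ?_⟩
  set B := 2 * a * C2 with hBd
  by_contra hcon
  push Not at hcon
  set r := wR (mir35 g (J μ s0)) τ with hrd
  set l := wL (mir35 g (J μ s0)) τ with hld
  set n : ℕ := 2 ^ x with hnd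
  have hn : 1 ≤ n := Nat.one_le_two_pow
  have hn0 : (0 : ℝ) < n := by exact_mod_cast hn
  have hcast : ((2 : ℝ) ^ x) = (n : ℝ) := by rw [hnd]; push_cast; rfl
  set E0 := EE μ s0 n with hE0d
  set E1 := EE μ (s0 + σ) n with hE1d
  have hE0 : 0 < E0 := EE_pos n
  have hE1 : 0 < E1 := EE_pos n
  have hB0 : 0 < B := by linarith
  rw [hcast] at ht hτ
  have ht0 : 0 < t := by rw [ht]; positivity
  have hτt : τ = a * t := by rw [hτ, ht]; ring
  have hτ0 : 0 < τ := by rw [hτt]; positivity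
  set s := 4 * B * t / l with hsdef
  have hs : 0 < s := by positivity
  have hsl : s * l = 4 * B * t := by rw [hsdef]; field_simp
  have hnt : n * t = E0 := by rw [ht]; field_simp
  -- `s r ≤ t / 16`
  have hsr1 : s * r ≤ t / 16 := by
    have h2 : s * (64 * B * r) ≤ s * l := mul_le_mul_of_nonneg_left hcon hs.le
    rw [hsl] at h2
    have h3 : B * (16 * (s * r)) ≤ B * t := by linarith
    have := le_of_mul_le_mul_left h3 hB0
    linarith
  have hta : t ≤ τ := by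
    rw [hτt]
    nlinarith
  have hsr : 2 * (s * r) ≤ τ := by linarith
  have hnsr : n * (s * r) ≤ E0 / 16 := by
    have := mul_le_mul_of_nonneg_left hsr1 hn0.le
    have e1 : (n : ℝ) * (t / 16) = n * t / 16 := by ring
    rw [e1, hnt] at this
    exact this
  -- the unit
  have hu : E0 ≤ 2 * E1 := by
    rcases le_or_gt E1 E0 with h | h
    · have := bal_unit35 hD hJ ha h0 h1 hσ hg hn hs hsd hτ hr hsr hrρ h
      rw [← hrd, ← hE0d, ← hE1d] at this
      linarith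
    · linarith
  -- the width
  have hW : vA a μ (s0 + σ) n * E0 ≤ E1 * l * (a / (2 * B)) := by
    have h2 := bal_width35 hD hJ ha h0 h1 hσ hg hn hs hsd hτ hr hsr hrρ (hvρ _ h1)
    rw [← hrd, ← hE0d, ← hE1d] at h2
    have h3 : (2 * r * (1 + E1 / E0) + a * E1 / n / s) * E0 = 2 * r * (E0 + E1) + E1 * l * (a / (4 * B)) := by
      have e1 : a * E1 / n / s * E0 = E1 * l * (a / (4 * B)) := by
        rw [hsdef, ht]
        field_simp
      rw [add_mul, e1]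
      field_simp
    have h4 := mul_le_mul_of_nonneg_right h2 hE0.le
    rw [h3] at h4
    have h5 : r ≤ l / (64 * B) := by
      rw [le_div_iff₀ (by positivity)]
      linarith
    have h6 : 2 * r * (E0 + E1) ≤ 2 * (l / (64 * B)) * (3 * E1) :=
      mul_le_mul (by linarith) (by linarith) (by positivity) (by positivity)
    have h7 : 2 * (l / (64 * B)) * (3 * E1) ≤ E1 * l * (a / (4 * B)) := by
      have e1 : 2 * (l / (64 * B)) * (3 * E1) = E1 * l * (6 / 16 * (1 / (4 * B))) := by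
        field_simp
        ring
      have e2 : E1 * l * (a / (4 * B)) = E1 * l * (a * (1 / (4 * B))) := by
        field_simp
      rw [e1, e2]
      refine mul_le_mul_of_nonneg_left ?_ (by positivity)
      exact mul_le_mul_of_nonneg_right (by linarith) (by positivity)
    have h8 : E1 * l * (a / (2 * B)) = E1 * l * (a / (4 * B)) + E1 * l * (a / (4 * B)) := by
      field_simp
      ring
    linarith
  have hvn : 0 ≤ vA a μ (s0 + σ) n :=
    add_nonneg ((hD.rf h1).wR_nonneg (lev_nonneg35 ha0.le _ _)) ((hD.rf h1).wL_nonneg (lev_nonneg35 ha0.le _ _))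
  -- `s n vA ≤ 2 a E1`
  have hsv : s * (n * vA a μ (s0 + σ) n) ≤ 2 * a * E1 := by
    have e1 : s * (n * vA a μ (s0 + σ) n) = 4 * B / l * (vA a μ (s0 + σ) n * E0) := by
      rw [hsdef, ← hnt]
      field_simp
    rw [e1]
    have h2 : 4 * B / l * (vA a μ (s0 + σ) n * E0) ≤ 4 * B / l * (E1 * l * (a / (2 * B))) :=
      mul_le_mul_of_nonneg_left hW (by positivity)
    refine h2.trans (le_of_eq ?_)
    field_simp
    ring
  -- the scale
  obtain ⟨x', hxx, hE'1, hE'2⟩ := bal_scale35 hD.em hG h0 (x := x) (E := E1) (by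
    rw [← hnd, ← hE0d]
    exact hu)
  have hcm := abs_nonneg Cm
  have hc3 := abs_nonneg C3
  have hK := hC2 (s0 + σ) h1 s0 h0 x x' hx hxx (by
    rw [← hnd, ← hE1d]
    refine hE'1.trans (mul_le_mul_of_nonneg_right ?_ hE1.le)
    have : 0 ≤ 2 * a * |C3| := by positivity
    linarith) (by
    intro M k hM0 hM hk
    rw [← hnd, ← hE1d]
    unfold wH at hk
    rw [hcast] at hM
    rw [← hnd] at hk
    refine (bal_form35 hD hJ h0 h1 hσ hg hs hsd hτ0 hr hsr hM0).trans ?_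
    rw [← hrd]
    have hsr0 : 0 ≤ s * r := by positivity
    have h2 : M * (s * r) ≤ |Cm| * (E0 / 16) := by
      have h3 : M ≤ |Cm| * n := hM.trans (mul_le_mul_of_nonneg_right (le_abs_self _) hn0.le)
      have h4 := mul_le_mul_of_nonneg_right h3 hsr0
      have h5 : |Cm| * n * (s * r) = |Cm| * (n * (s * r)) := by ring
      rw [h5] at h4
      exact h4.trans (mul_le_mul_of_nonneg_left hnsr hcm)
    have h3 : s * |k - sl μ (s0 + σ) * M| ≤ |C3| * (2 * a * E1) := by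
      have h4 : |k - sl μ (s0 + σ) * M| ≤ |C3| * (n * vA a μ (s0 + σ) n) :=
        hk.trans (mul_le_mul_of_nonneg_right (le_abs_self _) (mul_nonneg hn0.le hvn))
      have h5 := mul_le_mul_of_nonneg_left h4 hs.le
      have h6 : s * (|C3| * (n * vA a μ (s0 + σ) n)) = |C3| * (s * (n * vA a μ (s0 + σ) n)) := by ring
      rw [h6] at h5
      exact h5.trans (mul_le_mul_of_nonneg_left hsv hc3)
    have h4 : |Cm| * (E0 / 16) ≤ |Cm| * E1 := mul_le_mul_of_nonneg_left (by linarith) hcm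
    nlinarith)
  unfold wH at hK
  push_cast at hK
  -- the width of `s0` at the scale `x'`
  have hgg := vA_ge35 hD ha0 h0 (n := n) (k := 2 ^ (x' - x)) hn Nat.one_le_two_pow
  have e1 : 2 ^ (x' - x) * n = 2 ^ x' := by
    rw [hnd, ← pow_add]
    congr 1
    omega
  rw [e1] at hgg
  push_cast at hgg
  have hl2 : l ≤ vA a μ s0 n := by
    have h2 := mir_w35 hg (J μ s0) (a * EE μ s0 n / n)
    have e2 : vA a μ s0 n = wR (J μ s0) (a * EE μ s0 n / n) + wL (J μ s0) (a * EE μ s0 n / n) := rfl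
    rw [e2, ← h2, ← hE0d, ← hτ, ← hrd, ← hld]
    linarith
  set E' := EE μ s0 (2 ^ x') with hE'd
  set V' := vA a μ s0 (2 ^ x') with hV'd
  rw [hcast, ← hnd] at hK
  -- `n l E' ≤ 2 ^ x' V' E0`
  have h2 : n * (l * E') ≤ 2 ^ x' * V' * E0 := by
    have h3 : l * E' ≤ vA a μ s0 n * E' := mul_le_mul_of_nonneg_right hl2 (EE_pos (μ := μ) (s := s0) _).le
    have h4 := mul_le_mul_of_nonneg_left (h3.trans hgg) hn0.le
    refine h4.trans (le_of_eq ?_)
    have h5 : (n : ℝ) * 2 ^ (x' - x) = 2 ^ x' := by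
      rw [← hcast, ← pow_add]
      congr 1
      omega
    rw [← h5, hE0d]
    ring
  have hK' : 2 ^ x' * V' ≤ C2 * (n * vA a μ (s0 + σ) n) :=
    hK.trans (mul_le_mul_of_nonneg_right (le_max_left _ _) (mul_nonneg hn0.le hvn))
  have h3 : 2 ^ x' * V' * E0 ≤ C2 * (n * (E1 * l * (a / (2 * B)))) := by
    have h4 := mul_le_mul_of_nonneg_right hK' hE0.le
    have h5 : C2 * (n * vA a μ (s0 + σ) n) * E0 = C2 * (n * (vA a μ (s0 + σ) n * E0)) := by ring
    rw [h5] at h4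
    exact h4.trans (mul_le_mul_of_nonneg_left (mul_le_mul_of_nonneg_left hW hn0.le) (by linarith))
  have h4 : C2 * (n * (E1 * l * (a / (2 * B)))) = n * (l * (E1 / 4)) := by
    rw [hBd]
    field_simp
    ring
  have h5 : n * (l * (E1 / 4)) < n * (l * E') := by
    refine mul_lt_mul_of_pos_left (mul_lt_mul_of_pos_left ?_ hl) hn0
    linarith
  linarith

/-- The widths of the caps are small, and so are the chord slopes. -/
theorem bal_small35 (hD : Dirs μ H δ A) (ha : 1 ≤ a) (hR : Rate μ A) {ε r0 : ℝ} (hε : 0 < ε) (hr0 : 0 < r0) :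
    ∃ x1 : ℕ, ∀ s ∈ A, ∀ x : ℕ, x1 ≤ x → ∀ τ : ℝ, τ = a * EE μ s (2 ^ x) / 2 ^ x → 0 < τ ∧
      0 < wR (J μ s) τ ∧ 0 < wL (J μ s) τ ∧ wR (J μ s) τ ≤ r0 ∧ wL (J μ s) τ ≤ r0 ∧
      τ ≤ ε * wR (J μ s) τ ∧ τ ≤ ε * wL (J μ s) τ := by
  have ha0 : 0 < a := by linarith
  obtain ⟨δ'', hδ'', hnc'⟩ := hD.nc ε hε
  obtain ⟨δ', hδ', hδ1, hnc⟩ : ∃ δ' : ℝ, 0 < δ' ∧ δ' ≤ r0 ∧ ∀ s ∈ A, ∀ x : ℝ, |x| ≤ δ' → J μ s x ≤ ε * |x| :=
    ⟨min δ'' r0, lt_min hδ'' hr0, min_le_right _ _, fun d hd x hx => hnc' d hd x (hx.trans (min_le_left _ _))⟩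
  obtain ⟨j, hj, hst⟩ := hD.strict δ' hδ'
  obtain ⟨n0, hn0⟩ := hR (j * δ' / (2 * a)) (by positivity)
  refine ⟨n0, fun s hs x hx τ hτ => ?_⟩
  have R := hD.rf hs
  have hE : 0 < EE μ s (2 ^ x) := EE_pos _
  have hp : (0 : ℝ) < 2 ^ x := by positivity
  have hτ0 : 0 < τ := by rw [hτ]; positivity
  have h1 : n0 ≤ 2 ^ x := hx.trans Nat.lt_two_pow_self.le
  have h2 := hn0 s hs _ h1
  push_cast at h2
  have h3 : τ ≤ j * δ' / 2 := by
    rw [hτ, div_le_iff₀ hp]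
    have h4 := mul_le_mul_of_nonneg_left h2 ha0.le
    have h5 : a * (j * δ' / (2 * a) * 2 ^ x) = j * δ' / 2 * 2 ^ x := by field_simp
    linarith
  have h4 : τ < j * δ' := by
    have : 0 < j * δ' := by positivity
    linarith
  have key : ∀ w : ℝ, 0 ≤ w → (J μ s w = τ ∨ J μ s (-w) = τ) → 0 < w ∧ w ≤ δ' ∧ τ ≤ ε * w := by
    intro w hw hJ
    have hw0 : 0 < w := by
      rcases hw.eq_or_lt with h | h
      · rw [← h, neg_zero, R.zero] at hJ
        rcases hJ with h | h <;> linarith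
      · exact h
    have hwδ : w ≤ δ' := by
      by_contra hcon
      push Not at hcon
      have h5 := hst s hs w (by rw [abs_of_pos hw0]; exact hcon.le)
      have h6 := hst s hs (-w) (by rw [abs_neg, abs_of_pos hw0]; exact hcon.le)
      rw [abs_neg] at h6
      rw [abs_of_pos hw0] at h5 h6
      have h7 : j * δ' < j * w := mul_lt_mul_of_pos_left hcon hj
      rcases hJ with h | h <;> linarith
    refine ⟨hw0, hwδ, ?_⟩
    have h5 := hnc s hs w (by rw [abs_of_pos hw0]; exact hwδ)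
    have h6 := hnc s hs (-w) (by rw [abs_neg, abs_of_pos hw0]; exact hwδ)
    rw [abs_neg] at h6
    rw [abs_of_pos hw0] at h5 h6
    rcases hJ with h | h <;> linarith
  obtain ⟨a1, a2, a3⟩ := key _ (R.wR_nonneg hτ0.le) (Or.inl (R.J_wR hτ0.le))
  obtain ⟨b1, b2, b3⟩ := key _ (R.wL_nonneg hτ0.le) (Or.inr (R.J_wL hτ0.le))
  exact ⟨hτ0, a1, b1, a2.trans hδ1, b2.trans hδ1, a3, b3⟩

/-- **(BALANCE).** The two sides of the caps are comparable, at all scales and uniformly in the tilt. -/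
theorem bal_allH_of (hD : Dirs μ H δ A) (hJ : ∃ ρ, JTilt35 μ A ρ) (ha : 1 ≤ a) (hR : Rate μ A) (hG : Grow μ A) (hA : A0 ⊆ A) {t0 : ℝ}
    (hF : FamH A0 A t0) (hC : CmpH a μ A C3 Cm) : BalH a μ A0 := by
  obtain ⟨ρ, hJ⟩ := hJ
  obtain ⟨B, x1, hB, hside⟩ := bal_side35 hD hJ ha hG hC
  obtain ⟨ht0', hF⟩ := hF
  obtain ⟨hρ, hρ1, -⟩ := id hJ
  have hB0 : 0 < B := by linarith
  have ha0 : 0 < a := by linarith
  obtain ⟨q, hq⟩ : ∃ q : ℝ, q = min t0 ρ := ⟨_, rfl⟩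
  have hq0 : 0 < q := by rw [hq]; exact lt_min ht0' hρ
  obtain ⟨x2, hsm⟩ := bal_small35 hD ha hR (ε := q / (4 * B)) (r0 := ρ) (by positivity) hρ
  refine ⟨64 * B, max x1 x2, by positivity, fun s0 hs0 x hx => ?_⟩
  have h0 := hA hs0
  have hfam := hF s0 hs0
  set τ : ℝ := a * EE μ s0 (2 ^ x) / 2 ^ x with hτ
  set t : ℝ := EE μ s0 (2 ^ x) / 2 ^ x with ht
  obtain ⟨hτ0, hr, hl, hr1, hl1, hr2, hl2⟩ := hsm s0 h0 x ((le_max_right _ _).trans hx) τ hτ
  have R := hD.rf h0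
  have hx1 : x1 ≤ x := (le_max_left _ _).trans hx
  have hvρ : ∀ s ∈ A, vr a μ s (2 ^ x) ≤ ρ ∧ vl a μ s (2 ^ x) ≤ ρ := by
    intro s hs
    obtain ⟨-, -, -, c1, c2, -, -⟩ := hsm s hs x ((le_max_right _ _).trans hx) _ rfl
    unfold vr vl
    push_cast
    exact ⟨c1, c2⟩
  have hvr : vr a μ s0 (2 ^ x) = wR (J μ s0) τ := by
    unfold vr
    push_cast
    rfl
  have hvl : vl a μ s0 (2 ^ x) = wL (J μ s0) τ := by
    unfold vl
    push_cast
    rfl
  have hE : 0 < EE μ s0 (2 ^ x) := EE_pos _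
  have ht0 : 0 < t := by rw [ht]; positivity
  have hτt : τ = a * t := by rw [hτ, ht]; ring
  have hta : t ≤ τ := by
    rw [hτt]
    nlinarith
  -- the slope of the tilt
  have hslope : ∀ w : ℝ, 0 < w → τ ≤ q / (4 * B) * w → 0 < 4 * B * t / w ∧ 4 * B * t / w ≤ q := by
    intro w hw h
    refine ⟨by positivity, ?_⟩
    rw [div_le_iff₀ hw]
    have h3 : 4 * B * t ≤ 4 * B * (q / (4 * B) * w) := mul_le_mul_of_nonneg_left (hta.trans h) (by positivity)
    have h4 : 4 * B * (q / (4 * B) * w) = q * w := by field_simp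
    linarith
  have hqt : q ≤ t0 := by rw [hq]; exact min_le_left _ _
  have hqρ : q ≤ ρ := by rw [hq]; exact min_le_right _ _
  rw [hvr, hvl]
  set r := wR (J μ s0) τ with hrd
  set l := wL (J μ s0) τ with hld
  constructor
  · by_contra hcon
    push Not at hcon
    obtain ⟨hsp, hs⟩ := hslope l hl hl2
    have hsa : |4 * B * t / l| ≤ q := by rw [abs_of_pos hsp]; exact hs
    have h3 := hside s0 h0 (4 * B * t / l) (hfam _ (hsa.trans hqt)) (hsa.trans hqρ) 1 (Or.inl rfl) x hx1 hvρ τ t ht hτ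
      (by rw [mir_one35]; exact hr) (by rw [mir_one35]; exact hl) (by rw [mir_one35]; exact hr1)
      (by rw [mir_one35]; ring)
    rw [mir_one35] at h3
    linarith
  · by_contra hcon
    push Not at hcon
    obtain ⟨hsp, hs⟩ := hslope r hr hr2
    have hsa : |-(4 * B * t / r)| ≤ q := by rw [abs_neg, abs_of_pos hsp]; exact hs
    have e1 : wR (mir35 (-1) (J μ s0)) τ = l := by
      rw [mir_neg35]
      rfl
    have e2 : wL (mir35 (-1) (J μ s0)) τ = r := by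
      rw [mir_neg35, hrd]
      unfold wL
      simp only [neg_neg]
    have h3 := hside s0 h0 (-(4 * B * t / r)) (hfam _ (hsa.trans hqt)) (hsa.trans hqρ) (-1) (Or.inr rfl) x hx1 hvρ τ t ht hτ
      (by rw [e1]; exact hl) (by rw [e2]; exact hr) (by rw [e1]; exact hl1)
      (by rw [e2]; ring)
    rw [e1, e2] at h3
    linarith

end

end Pool.Agent.W_7d29a1_H
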