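import Pool.Agent.W_7d29a1_H.PredH2
import Pool.Agent.W_7d29a1_H.LamH
import Pool.Agent.W_7d29a1_H.UnitH

/-!
MP_7d29a1_pr, TRACK H (all tilts), (BALANCE), first half: the convex geometry of a tilt. (helper35, after W_1b8d5d_p/BalNum48)

At positive temperature the rate function of the tilted law is the recentred rate function only near `0`; the far part is bounded by
convexity.
-/

set_option autoImplicit false

namespace Pool.Agent.W_7d29a1_H

open MeasureTheory ProbabilityTheory Filter Topology Set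
open Pool.Agent.W_7d29a1_F
open Pool.Agent.W_1b8d5d_p (wR wL wd Rf)
open Pool.Agent.W_7d29a1_h47 (EM Nondeg)

noncomputable section

/-! ### Convex geometry of a tilt -/

/-- `K1` is `K0` recentred at `x` and tilted by the slope `s`, at the arguments at most `ρ`. -/
def Tilt35 (K0 K1 : ℝ → ℝ) (x s ρ : ℝ) : Prop := K0 x ≤ s * x ∧ ∀ u : ℝ, |u| ≤ ρ → K1 u = K0 (x + u) - K0 x - s * u

section Convex

variable {K0 K1 : ℝ → ℝ} {x s ρ τ : ℝ}

/-- The touching point is on the right. -/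
theorem tilt_pos35 (h0 : Rf K0) (hT : Tilt35 K0 K1 x s ρ) (hs : 0 < s) : 0 ≤ x := by
  have h2 := hT.1
  have h3 := h0.nn x
  by_contra hcon
  push Not at hcon
  nlinarith

theorem tilt_le35 (h0 : Rf K0) (hT : Tilt35 K0 K1 x s ρ) (hτ : 0 < τ) (hr : 0 < wR K0 τ)
    (hsr : 2 * (s * wR K0 τ) ≤ τ) : x ≤ wR K0 τ := by
  by_contra hcon
  push Not at hcon
  have h2 := h0.J_ge hτ.le hr hcon.le
  have h3 := hT.1
  have hx : 0 < x := hr.trans hcon
  have h4 : τ * (x / wR K0 τ) ≤ s * x := h2.trans h3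
  have h5 : τ * (x / wR K0 τ) * wR K0 τ = τ * x := by field_simp
  have h6 : τ * x ≤ s * x * wR K0 τ := by
    rw [← h5]
    exact mul_le_mul_of_nonneg_right h4 hr.le
  nlinarith [mul_pos hτ hx]

/-- To the right, the tilted function is at least half the chord slope of `K0`. -/
theorem tilt_right35 (h0 : Rf K0) (h1 : Rf K1) (hT : Tilt35 K0 K1 x s ρ) (hs : 0 < s) (hτ : 0 < τ) (hr : 0 < wR K0 τ)
    (hsr : 2 * (s * wR K0 τ) ≤ τ) (hρ : wR K0 τ ≤ ρ) (u : ℝ) : x + u ≤ wR K0 τ + 2 * wR K0 τ * (K1 u / τ) := by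
  have hx0 := tilt_pos35 h0 hT hs
  have hxr := tilt_le35 h0 hT hτ hr hsr
  set r := wR K0 τ with hrd
  have h2 : 0 ≤ 2 * r * (K1 u / τ) := mul_nonneg (by positivity) (div_nonneg (h1.nn u) hτ.le)
  rcases le_or_gt (x + u) r with h | h
  · linarith
  -- the bound near the origin
  have key : ∀ w : ℝ, |w| ≤ ρ → r ≤ x + w → τ * ((x + w) / r) / 2 ≤ K1 w := by
    intro w hw hxw
    have h3 := h0.J_ge hτ.le hr hxw
    rw [← hrd] at h3
    have h4 := hT.1
    have h5 : K1 w = K0 (x + w) - K0 x - s * w := hT.2 w hw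
    have h6 : 0 < x + w := hr.trans_le hxw
    have h7 : s * (x + w) ≤ τ * ((x + w) / r) / 2 := by
      have : s * (x + w) * r ≤ τ * ((x + w) / r) / 2 * r := by
        have e1 : τ * ((x + w) / r) / 2 * r = τ * (x + w) / 2 := by field_simp
        rw [e1]
        nlinarith
      exact le_of_mul_le_mul_right this hr
    rw [h5]
    nlinarith
  have h8 : τ * ((x + u) / r) / 2 ≤ K1 u := by
    have hu0 : 0 < u := by linarith
    rcases le_or_gt u ρ with hu | hu
    · exact key u (by rw [abs_of_pos hu0]; exact hu) h.le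
    · have hρ0 : 0 < ρ := hr.trans_le hρ
      have h9 := key ρ (by rw [abs_of_pos hρ0]) (by linarith)
      have h10 := h1.le_mul (t := u / ρ) ((one_le_div hρ0).2 hu.le) ρ
      rw [div_mul_cancel₀ _ hρ0.ne'] at h10
      have h11 : u / ρ * (τ * ((x + ρ) / r) / 2) ≤ u / ρ * K1 ρ := mul_le_mul_of_nonneg_left h9 (by positivity)
      have h12 : τ * ((x + u) / r) / 2 ≤ u / ρ * (τ * ((x + ρ) / r) / 2) := by
        have e1 : u / ρ * (τ * ((x + ρ) / r) / 2) = τ * ((u / ρ * x + u) / r) / 2 := by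
          field_simp
        rw [e1]
        have h13 : 1 * x ≤ u / ρ * x := mul_le_mul_of_nonneg_right ((one_le_div hρ0).2 hu.le) hx0
        have h14 : (x + u) / r ≤ (u / ρ * x + u) / r := div_le_div_of_nonneg_right (by linarith) hr.le
        have h15 := mul_le_mul_of_nonneg_left h14 hτ.le
        linarith
      linarith
  have h9 : x + u ≤ 2 * r * (K1 u / τ) := by
    have e1 : x + u = 2 * r * (τ * ((x + u) / r) / 2 / τ) := by field_simp
    calc x + u = 2 * r * (τ * ((x + u) / r) / 2 / τ) := e1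
      _ ≤ 2 * r * (K1 u / τ) := mul_le_mul_of_nonneg_left (div_le_div_of_nonneg_right h8 hτ.le) (by positivity)
  linarith

/-- The right width of the tilted function. -/
theorem tilt_wR35 (h0 : Rf K0) (h1 : Rf K1) (hT : Tilt35 K0 K1 x s ρ) (hs : 0 < s) (hτ : 0 < τ) (hr : 0 < wR K0 τ)
    (hsr : 2 * (s * wR K0 τ) ≤ τ) (hρ : wR K0 τ ≤ ρ) {b : ℝ} (hb : 0 ≤ b) :
    wR K1 b ≤ wR K0 τ + 2 * wR K0 τ * (b / τ) := by
  have h2 := tilt_right35 h0 h1 hT hs hτ hr hsr hρ (wR K1 b)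
  rw [h1.J_wR hb] at h2
  have h3 := tilt_pos35 h0 hT hs
  linarith

/-- The left width of the tilted function. -/
theorem tilt_wL35 (h0 : Rf K0) (h1 : Rf K1) (hT : Tilt35 K0 K1 x s ρ) (hs : 0 < s) (hτ : 0 < τ) (hr : 0 < wR K0 τ)
    (hsr : 2 * (s * wR K0 τ) ≤ τ) {b : ℝ} (hb : 0 ≤ b) (hl : wL K1 b ≤ ρ) : wL K1 b ≤ b / s + wR K0 τ := by
  have h2 := h1.J_wL hb
  rw [hT.2 _ (by rw [abs_neg, abs_of_nonneg (h1.wL_nonneg hb)]; exact hl)] at h2
  have h3 := h0.nn (x + -wL K1 b)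
  have h4 := hT.1
  have h5 := tilt_le35 h0 hT hτ hr hsr
  have h6 : s * wL K1 b ≤ b + s * x := by linarith
  have h7 : wL K1 b ≤ (b + s * x) / s := by
    rw [le_div_iff₀ hs]
    linarith
  have h8 : (b + s * x) / s = b / s + x := by field_simp
  linarith

end Convex

/-! ### The mirror -/

/-- The reflected function. -/
def mir35 (g : ℝ) (K : ℝ → ℝ) : ℝ → ℝ := fun x => K (g * x)

theorem mir_one35 (K : ℝ → ℝ) : mir35 1 K = K := by
  funext x
  simp [mir35]

theorem mir_neg35 (K : ℝ → ℝ) : mir35 (-1) K = fun x => K (-x) := by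
  funext x
  simp [mir35]

theorem mir_rf35 {g : ℝ} (hg : g = 1 ∨ g = -1) {K : ℝ → ℝ} (h : Rf K) : Rf (mir35 g K) := by
  rcases hg with rfl | rfl
  · rwa [mir_one35]
  · rw [mir_neg35]
    exact h.neg

/-- The total width does not see the mirror. -/
theorem mir_w35 {g : ℝ} (hg : g = 1 ∨ g = -1) (K : ℝ → ℝ) (b : ℝ) :
    wR (mir35 g K) b + wL (mir35 g K) b = wR K b + wL K b := by
  rcases hg with rfl | rfl
  · rw [mir_one35]
  · rw [mir_neg35]
    have e1 : wR (fun x => K (-x)) b = wL K b := rfl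
    have e2 : wL (fun x => K (-x)) b = wR K b := by
      unfold wL
      simp only [neg_neg]
    rw [e1, e2, add_comm]

theorem mir_wL35 {g : ℝ} (hg : g = 1 ∨ g = -1) (K : ℝ → ℝ) (b : ℝ) :
    wL (mir35 g K) b ≤ max (wR K b) (wL K b) := by
  rcases hg with rfl | rfl
  · rw [mir_one35]
    exact le_max_right _ _
  · rw [mir_neg35]
    have e2 : wL (fun x => K (-x)) b = wR K b := by
      unfold wL
      simp only [neg_neg]
    rw [e2]
    exact le_max_left _ _

/-! ### The two linear forms -/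

variable {μ : Measure ℝ} [IsProbabilityMeasure μ]

/-- The rate function at the slope of a tilt. -/
theorem J_at35 (hμ : EM μ) (hnd : Nondeg μ) (s : ℝ) {σ : ℝ} (hσ : |σ| ≤ 1) :
    J μ s (sl μ (s + σ) - sl μ s) = σ * (sl μ (s + σ) - sl μ s) - ex μ s σ := by
  refine le_antisymm (J_le fun r _ => ?_) (le_J hμ hnd s _ hσ)
  have h1 := lam_tangent hμ hnd (s + σ) (s + r)
  unfold ex
  nlinarith

/-- The difference of the free energies of two tilts. -/
theorem lam_sub35 (hμ : EM μ) (hnd : Nondeg μ) (s : ℝ) {σ : ℝ} (hσ : |σ| ≤ 1) :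
    lam μ (s + σ) - lam μ s = σ * sl μ (s + σ) - J μ s (sl μ (s + σ) - sl μ s) := by
  rw [J_at35 hμ hnd s hσ]
  unfold ex
  ring

omit [IsProbabilityMeasure μ] in
/-- The costs of two tilts. -/
theorem X_tilt35 (s s' : ℝ) (η : Env) (a : Pt) {n : ℕ} {y : ℤ} (h0 : 0 ≤ y) (h1 : y ≤ n) :
    X μ s' η a n y = X μ s η a n y + ((lam μ s' - lam μ s) * n - (s' - s) * y) := by
  have hW : 0 < W μ s η a n y := W_pos η a h0 h1
  have hW' : W μ s' η a n y = Real.exp ((s' - s) * y - (lam μ s' - lam μ s) * n) * W μ s η a n y := by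
    unfold W WR
    rw [← mul_assoc, ← Real.exp_add]
    congr 2
    ring
  unfold X
  rw [hW', Real.log_mul (Real.exp_pos _).ne' hW.ne', Real.log_exp]
  ring

theorem e_tilt35 (hμ : EM μ) (s s' : ℝ) {n : ℕ} {y : ℤ} (h0 : 0 ≤ y) (h1 : y ≤ n) :
    e μ s' n y = e μ s n y + ((lam μ s' - lam μ s) * n - (s' - s) * y) := by
  unfold e
  rw [integral_congr_ae (Filter.Eventually.of_forall fun η => X_tilt35 (μ := μ) s s' η 0 h0 h1),
    integral_add (Sub.integrable hμ (Sub_X 0 h0 h1)) (integrable_const _), integral_const, probReal_univ, one_smul]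

/-- The means are at least the rate function. -/
theorem e_ge35 (hμ : EM μ) (s : ℝ) {n : ℕ} (hn : 1 ≤ n) {y : ℤ} (h0 : 0 ≤ y) (h1 : y ≤ n) :
    n * J μ s ((y : ℝ) / n - sl μ s) ≤ e μ s n y := by
  have hn0 : (0 : ℝ) < n := by exact_mod_cast hn
  rw [← le_div_iff₀' hn0]
  refine J_le fun r _ => ?_
  rw [le_div_iff₀ hn0]
  have h2 := e_nonneg hμ (s + r) h0 h1
  rw [e_tilt35 hμ s (s + r) h0 h1] at h2
  have e1 : (r * ((y : ℝ) / n - sl μ s) - ex μ s r) * n = r * y - n * (lam μ (s + r) - lam μ s) := by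
    unfold ex
    field_simp
    ring
  rw [e1]
  linarith

theorem e_le_ep35 (hμ : EM μ) (s : ℝ) {n : ℕ} {y : ℤ} (h0 : 0 ≤ y) (h1 : y ≤ n) : e μ s n y ≤ ep μ s n y := by
  have hi : Integrable (fun η => X μ s η 0 n y) (law μ) := Sub.integrable hμ (Sub_X 0 h0 h1)
  exact integral_mono hi hi.pos_part fun η => le_max_left _ _

/-- The means of two tilts. -/
theorem ep_cmp35 (hμ : EM μ) (s s' : ℝ) {m : ℕ} {y : ℤ} (h0 : 0 ≤ y) (h1 : y ≤ m) {D : ℝ} (hD0 : 0 ≤ D)
    (hD : (s' - s) * y - (lam μ s' - lam μ s) * m ≤ D) : ep μ s m y ≤ ep μ s' m y + D := by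
  have hi0 : Integrable (fun η => X μ s η 0 m y) (law μ) := Sub.integrable hμ (Sub_X 0 h0 h1)
  have hi1 : Integrable (fun η => X μ s' η 0 m y) (law μ) := Sub.integrable hμ (Sub_X 0 h0 h1)
  have h2 : ep μ s m y ≤ ∫ η, (max (X μ s' η 0 m y) 0 + D) ∂(law μ) := by
    refine integral_mono hi0.pos_part (hi1.pos_part.add (integrable_const _)) fun η => ?_
    have e1 := X_tilt35 (μ := μ) s s' η 0 h0 h1
    refine max_le ?_ (add_nonneg (le_max_right _ _) hD0)
    simp only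
    linarith [le_max_left (X μ s' η 0 m y) 0]
  rw [integral_add hi1.pos_part (integrable_const _), integral_const, probReal_univ, one_smul] at h2
  exact h2

/-! ### The rate function of a tilt -/

/-- The local identity of the rate functions of two tilts (`Dirs.J_tilt` of `LamH2`). -/
def JTilt35 (μ : Measure ℝ) (A : Set ℝ) (ρ : ℝ) : Prop := 0 < ρ ∧ ρ ≤ 1 ∧ ∀ s ∈ A, ∀ σ : ℝ, s + σ ∈ A → |σ| ≤ ρ → ∀ u : ℝ, |u| ≤ ρ →
  J μ (s + σ) u = J μ s (sl μ (s + σ) - sl μ s + u) - J μ s (sl μ (s + σ) - sl μ s) - σ * u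

theorem tilt_of35 {H δ ρ : ℝ} {A : Set ℝ} (hD : Dirs μ H δ A) (hJ : JTilt35 μ A ρ) {s : ℝ} (hs : s ∈ A) {σ : ℝ} (hσA : s + σ ∈ A)
    (hσ : |σ| ≤ ρ) {g : ℝ} (hg : g = 1 ∨ g = -1) :
    Tilt35 (mir35 g (J μ s)) (mir35 g (J μ (s + σ))) (g * (sl μ (s + σ) - sl μ s)) (g * σ) ρ := by
  obtain ⟨hρ, hρ1, h⟩ := hJ
  have hg2 : g * g = 1 := by rcases hg with rfl | rfl <;> norm_num
  have hga : |g| = 1 := by rcases hg with rfl | rfl <;> simp
  unfold Tilt35 mir35
  have e1 : g * (g * (sl μ (s + σ) - sl μ s)) = sl μ (s + σ) - sl μ s := by rw [← mul_assoc, hg2, one_mul]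
  refine ⟨?_, fun u hu => ?_⟩
  · rw [e1, J_at35 hD.em hD.nd s (hσ.trans hρ1)]
    have h2 := ex_nonneg hD.em hD.nd s σ
    have e2 : g * σ * (g * (sl μ (s + σ) - sl μ s)) = (g * g) * (σ * (sl μ (s + σ) - sl μ s)) := by ring
    rw [e2, hg2]
    linarith
  · have h3 := h s hs σ hσA hσ (g * u) (by rw [abs_mul, hga, one_mul]; exact hu)
    rw [mul_add, e1, h3]
    ring

end

end Pool.Agent.W_7d29a1_H
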