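import Pool.Agent.W_7d29a1_H.LamH
import Pool.Agent.W_7d29a1_F.CoreD3
import Pool.Agent.W_7d29a1_F.Bridge2
import Pool.Agent.W_7d29a1_h47q.LdC

/-!
MP_7d29a1_pr, TRACK H (all tilts), (H2), second half: the upper bound of the means by the rate function (`Dirs.e_up`), the lateral
steps (`Dirs.e_step`, `Dirs.e_lip`), the linear bound (`e_lin`), cheap sets (`log_card`), ranges (`Dirs.rng`), the cheap displacements
are in the cone (`Dirs.near_of_e`, `Dirs.xs_near`, `Dirs.xs_slope`). (helper87)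
-/

set_option autoImplicit false

namespace Pool.Agent.W_7d29a1_H

open MeasureTheory ProbabilityTheory Filter Topology Set
open Pool.Agent.W_7d29a1_F Pool.Agent.W_7d29a1_h4g
open Pool.Agent.W_1b8d5d_p (wR wL wd Rf)
open Pool.Agent.W_7d29a1_h47 (EM Nondeg)

noncomputable section

variable {μ : Measure ℝ} [IsProbabilityMeasure μ]

/-! ### Change of the tilt, the lower bound (private) -/

private theorem mb_tilt (hμ : EM μ) (s r : ℝ) {n : ℕ} {y : ℤ} (h0 : 0 ≤ y) (h1 : y ≤ n) :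
    e μ r n y = e μ s n y + (n * (lam μ r - lam μ s) - (r - s) * y) := by
  rw [e_eq hμ s h0 h1, e_eq hμ r h0 h1]
  ring

private theorem mb_ge (hμ : EM μ) (s : ℝ) {n : ℕ} {y : ℤ} (hn : 1 ≤ n) (h0 : 0 ≤ y) (h1 : y ≤ n) :
    n * J μ s ((y : ℝ) / n - sl μ s) ≤ e μ s n y := by
  have hn0 : (0 : ℝ) < n := by exact_mod_cast hn
  rw [mul_comm, ← le_div_iff₀ hn0]
  refine J_le fun r _ => ?_
  rw [le_div_iff₀ hn0]
  have h2 := e_nonneg hμ (s + r) h0 h1
  rw [mb_tilt hμ s (s + r) h0 h1] at h2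
  have h3 : (r * ((y : ℝ) / n - sl μ s) - ex μ s r) * n = r * y - n * (lam μ (s + r) - lam μ s) := by
    unfold ex
    field_simp
    ring
  rw [h3]
  linarith

/-! ### The slopes near `sl μ s` are slopes of tilts `s + r`, `|r| ≤ 1` -/

theorem slope_hit87 (hμ : EM μ) (hnd : Nondeg μ) (H : ℝ) : ∃ ρ : ℝ, 0 < ρ ∧ ∀ s : ℝ, |s| ≤ H → ∀ x : ℝ, |x| ≤ ρ →
    ∃ r : ℝ, |r| ≤ 1 ∧ sl μ (s + r) = sl μ s + x := by
  have hc := sl_cont hμ hnd
  have hm := sl_strictMono hμ hnd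
  obtain ⟨f, hf⟩ : ∃ f : ℝ → ℝ, f = fun s => min (sl μ (s + 1) - sl μ s) (sl μ s - sl μ (s - 1)) := ⟨_, rfl⟩
  have hfc : Continuous f := by
    rw [hf]
    exact ((hc.comp (continuous_id.add continuous_const)).sub hc).min
      (hc.sub (hc.comp (continuous_id.sub continuous_const)))
  obtain ⟨s0, -, hmin⟩ := (isCompact_Icc (a := -|H|) (b := |H|)).exists_isMinOn
    ⟨0, by simp⟩ hfc.continuousOn
  refine ⟨f s0, ?_, fun s hs x hx => ?_⟩
  · rw [hf]
    exact lt_min (sub_pos.2 (hm (by linarith))) (sub_pos.2 (hm (by linarith)))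
  · have h1 : f s0 ≤ f s := hmin (mem_Icc.2 (abs_le.1 (hs.trans (le_abs_self H))))
    have h2 : f s ≤ sl μ (s + 1) - sl μ s := by rw [hf]; exact min_le_left _ _
    have h3 : f s ≤ sl μ s - sl μ (s - 1) := by rw [hf]; exact min_le_right _ _
    have h4 := abs_le.1 hx
    obtain ⟨t, ht, hts⟩ := intermediate_value_Icc (show s - 1 ≤ s + 1 by linarith) hc.continuousOn
      (show sl μ s + x ∈ Icc (sl μ (s - 1)) (sl μ (s + 1)) from ⟨by linarith, by linarith⟩)
    refine ⟨t - s, abs_le.2 ⟨by linarith [ht.1], by linarith [ht.2]⟩, ?_⟩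
    rw [add_sub_cancel]
    exact hts

/-! ### The limit of the means, uniformly in the slope -/

private theorem mb_fl (v : ℝ) : Tendsto (fun n : ℕ => ((2 * ⌊v * n⌋ - n : ℤ) : ℝ) / n) atTop (𝓝 (2 * v - 1)) := by
  have h1 : Tendsto (fun n : ℕ => 2 * v - 1 - 2 / (n : ℝ)) atTop (𝓝 (2 * v - 1)) := by
    have := (tendsto_const_div_atTop_nhds_zero_nat (2 : ℝ)).const_sub (2 * v - 1)
    rwa [sub_zero] at this
  refine tendsto_of_tendsto_of_tendsto_of_le_of_le' h1 (tendsto_const_nhds (x := 2 * v - 1)) ?_ ?_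
  · filter_upwards [eventually_ge_atTop 1] with n hn
    have hn0 : (0 : ℝ) < n := by exact_mod_cast hn
    have h3 := Int.lt_floor_add_one (v * (n : ℝ))
    rw [le_div_iff₀ hn0]
    push_cast
    have h4 : (2 * v - 1 - 2 / (n : ℝ)) * n = 2 * v * n - n - 2 := by field_simp
    rw [h4]
    linarith
  · filter_upwards [eventually_ge_atTop 1] with n hn
    have hn0 : (0 : ℝ) < n := by exact_mod_cast hn
    have h3 := Int.floor_le (v * (n : ℝ))
    rw [div_le_iff₀ hn0]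
    push_cast
    linarith

private theorem mb_pt (hμ : EM μ) (hnd : Nondeg μ) (t : ℝ) {ε : ℝ} (hε : 0 < ε) : ∀ᶠ n : ℕ in atTop,
    e μ 0 n ⌊sl μ t * n⌋ ≤ n * (t * sl μ t - lam μ t + lam μ 0 + ε) := by
  have hsl := sl_mem hμ hnd t
  have hv : |2 * sl μ t - 1| < 1 := by
    rw [abs_lt]
    constructor <;> linarith
  have hs : Pool.Agent.W_7d29a1_h47.SubG μ (t / 2) (2 * sl μ t - 1) := by
    intro h'
    have h1 := lam_tangent hμ hnd t (2 * h')
    unfold lam at h1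
    rw [show 2 * h' / 2 = h' by ring] at h1
    linarith
  have hlim := Pool.Agent.W_7d29a1_h47.tendsto_ap hμ hv hs (y := fun n => 2 * ⌊sl μ t * n⌋ - n)
    (fun n => by omega) (mb_fl (sl μ t))
  have hev := (tendsto_order.1 hlim).1
    (Pool.Agent.W_7d29a1_h47.Lam μ (t / 2) - t / 2 * (2 * sl μ t - 1) - ε) (by linarith)
  filter_upwards [hev, eventually_ge_atTop 1] with n hn1 hn2
  have hn0 : (0 : ℝ) < n := by exact_mod_cast hn2
  have h0 : 0 ≤ ⌊sl μ t * n⌋ := Int.floor_nonneg.2 (mul_nonneg hsl.1.le hn0.le)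
  have h1 : ⌊sl μ t * n⌋ ≤ (n : ℤ) := by
    have h2 := Int.floor_le (sl μ t * n)
    have h3 : sl μ t * n ≤ n := by nlinarith
    have h4 : ((⌊sl μ t * n⌋ : ℤ) : ℝ) ≤ ((n : ℤ) : ℝ) := by
      push_cast
      linarith
    exact_mod_cast h4
  rw [lt_div_iff₀ hn0] at hn1
  rw [e_eq hμ 0 h0 h1]
  have h5 : lam μ t = Pool.Agent.W_7d29a1_h47.Lam μ (t / 2) + t / 2 := rfl
  rw [h5]
  linarith

private theorem mb_unif (hμ : EM μ) (hnd : Nondeg μ) (H : ℝ) {ε : ℝ} (hε : 0 < ε) : ∃ N : ℕ, ∀ n : ℕ, N ≤ n →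
    ∀ t ∈ Icc (-H) H, ∀ y : ℤ, (y : ℝ) = sl μ t * n → e μ 0 n y ≤ n * (t * sl μ t - lam μ t + lam μ 0 + ε) := by
  have hlc : Continuous (lam μ) := by
    have hdl : Differentiable ℝ (lam μ) := differentiable_lam hμ hnd
    exact hdl.continuous
  have hG : Continuous fun t => t * sl μ t - lam μ t + lam μ 0 :=
    ((continuous_id.mul (sl_cont hμ hnd)).sub hlc).add continuous_const
  refine (isCompact_Icc (a := -H) (b := H)).induction_on (p := fun S => ∃ N : ℕ, ∀ n : ℕ, N ≤ n → ∀ t ∈ S, ∀ y : ℤ,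
    (y : ℝ) = sl μ t * n → e μ 0 n y ≤ n * (t * sl μ t - lam μ t + lam μ 0 + ε)) ⟨0, by simp⟩ ?_ ?_ ?_
  · rintro S T hST ⟨N, hN⟩
    exact ⟨N, fun n hn t ht => hN n hn t (hST ht)⟩
  · rintro S T ⟨N1, h1⟩ ⟨N2, h2⟩
    exact ⟨max N1 N2, fun n hn t ht => ht.elim (h1 n ((le_max_left _ _).trans hn) t)
      (h2 n ((le_max_right _ _).trans hn) t)⟩
  · intro t0 _
    obtain ⟨d, hd, hball⟩ := Metric.continuous_iff.1 hG t0 (ε / 4) (by positivity)
    have hq : ∀ u : ℝ, |u - t0| ≤ d / 2 → |(u * sl μ u - lam μ u + lam μ 0) - (t0 * sl μ t0 - lam μ t0 + lam μ 0)| < ε / 4 := by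
      intro u hu
      have := hball u (by rw [Real.dist_eq]; linarith)
      rwa [Real.dist_eq] at this
    have e1 := mb_pt hμ hnd (t0 - d / 2) (half_pos hε)
    have e2 := mb_pt hμ hnd (t0 + d / 2) (half_pos hε)
    obtain ⟨N, hN⟩ := eventually_atTop.1 (e1.and e2)
    refine ⟨Ioo (t0 - d / 2) (t0 + d / 2), mem_nhdsWithin_of_mem_nhds (Ioo_mem_nhds (by linarith) (by linarith)),
      N, fun n hn t ht y hy => ?_⟩
    obtain ⟨h1, h2⟩ := hN n hn
    have hn0 : (0 : ℝ) ≤ n := Nat.cast_nonneg n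
    have m1 := sl_mono hμ hnd ht.1.le
    have m2 := sl_mono hμ hnd ht.2.le
    have s1 := sl_mem hμ hnd (t0 - d / 2)
    have s2 := sl_mem hμ hnd (t0 + d / 2)
    have g1 : ⌊sl μ (t0 - d / 2) * n⌋ ≤ y := by
      have h3 := Int.floor_le (sl μ (t0 - d / 2) * n)
      have h4 := mul_le_mul_of_nonneg_right m1 hn0
      have h5 : ((⌊sl μ (t0 - d / 2) * n⌋ : ℤ) : ℝ) ≤ y := by linarith
      exact_mod_cast h5
    have g2 : y ≤ ⌊sl μ (t0 + d / 2) * n⌋ := by
      rw [Int.le_floor, hy]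
      exact mul_le_mul_of_nonneg_right m2 hn0
    have g0 : 0 ≤ ⌊sl μ (t0 - d / 2) * n⌋ := Int.floor_nonneg.2 (mul_nonneg s1.1.le hn0)
    have g3 : ⌊sl μ (t0 + d / 2) * n⌋ ≤ (n : ℤ) := by
      have h3 := Int.floor_le (sl μ (t0 + d / 2) * n)
      have h4 : sl μ (t0 + d / 2) * n ≤ 1 * n := mul_le_mul_of_nonneg_right s2.2.le hn0
      have h5 : ((⌊sl μ (t0 + d / 2) * n⌋ : ℤ) : ℝ) ≤ ((n : ℤ) : ℝ) := by
        push_cast
        linarith
      exact_mod_cast h5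
    refine (e_le_max hμ g0 g1 g2 g3).trans (max_le ?_ ?_)
    · refine h1.trans (mul_le_mul_of_nonneg_left ?_ hn0)
      have q1 := abs_lt.1 (hq (t0 - d / 2) (by rw [sub_sub_cancel_left, abs_neg, abs_of_pos (by positivity)]))
      have q2 := abs_lt.1 (hq t (abs_le.2 ⟨by linarith [ht.1], by linarith [ht.2]⟩))
      linarith [q1.2, q2.1]
    · refine h2.trans (mul_le_mul_of_nonneg_left ?_ hn0)
      have q1 := abs_lt.1 (hq (t0 + d / 2) (by rw [add_sub_cancel_left, abs_of_pos (by positivity)]))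
      have q2 := abs_lt.1 (hq t (abs_le.2 ⟨by linarith [ht.1], by linarith [ht.2]⟩))
      linarith [q1.2, q2.1]

variable {H δ : ℝ} {A : Set ℝ} {s : ℝ}

/-- **The upper bound of the means**: near the direction the means are at most `n (J + ε)`, uniformly in the tilt. -/
theorem Dirs.e_up' (hD : Dirs μ H δ A) : ∃ ρ : ℝ, 0 < ρ ∧ ρ ≤ δ ∧ ∀ ε : ℝ, 0 < ε → ∃ N : ℕ, 1 ≤ N ∧ ∀ s ∈ A, ∀ n : ℕ, N ≤ n →
    ∀ y : ℤ, |(y : ℝ) - sl μ s * n| ≤ ρ * n → e μ s n y ≤ n * (J μ s ((y : ℝ) / n - sl μ s) + ε) := by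
  obtain ⟨ρ, hρ, hhit⟩ := slope_hit87 hD.em hD.nd H
  refine ⟨min ρ δ, lt_min hρ hD.δ0, min_le_right _ _, fun ε hε => ?_⟩
  obtain ⟨N, hN⟩ := mb_unif hD.em hD.nd (H + 1) hε
  refine ⟨max N 1, le_max_right _ _, fun s hs n hn y hy => ?_⟩
  have hn1 : 1 ≤ n := (le_max_right _ _).trans hn
  have hn0 : (0 : ℝ) < n := by exact_mod_cast hn1
  have hyρ : |(y : ℝ) - sl μ s * n| ≤ ρ * n := hy.trans (mul_le_mul_of_nonneg_right (min_le_left _ _) hn0.le)
  have hyδ : |(y : ℝ) - sl μ s * n| ≤ δ * n := hy.trans (mul_le_mul_of_nonneg_right (min_le_right _ _) hn0.le)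
  have hr : 0 ≤ y ∧ y ≤ (n : ℤ) := by
    have h1 := abs_le.1 hyδ
    have h2 := mul_le_mul_of_nonneg_right (hD.lo s hs) hn0.le
    have h3 := mul_le_mul_of_nonneg_right (hD.hi s hs) hn0.le
    constructor
    · have : (0 : ℝ) ≤ y := by linarith [h1.1]
      exact_mod_cast this
    · have : (y : ℝ) ≤ ((n : ℤ) : ℝ) := by
        push_cast
        linarith [h1.2]
      exact_mod_cast this
  have hx : |(y : ℝ) / n - sl μ s| ≤ ρ := by
    have e1 : (y : ℝ) / n - sl μ s = ((y : ℝ) - sl μ s * n) / n := by field_simp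
    rw [e1, abs_div, abs_of_pos hn0, div_le_iff₀ hn0]
    exact hyρ
  obtain ⟨r, hr1, hr2⟩ := hhit s (hD.bd s hs) _ hx
  have hmem : s + r ∈ Icc (-(H + 1)) (H + 1) := by
    have h1 := abs_le.1 (hD.bd s hs)
    have h2 := abs_le.1 hr1
    constructor <;> linarith [h1.1, h1.2, h2.1, h2.2]
  have hyy : (y : ℝ) = sl μ (s + r) * n := by
    rw [hr2, add_sub_cancel, div_mul_cancel₀ _ hn0.ne']
  have h4 := hN n ((le_max_left _ _).trans hn) (s + r) hmem y hyy
  have h5 := le_J hD.em hD.nd s ((y : ℝ) / n - sl μ s) hr1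
  have h6 := mul_le_mul_of_nonneg_left h5 hn0.le
  rw [mb_tilt hD.em 0 s hr.1 hr.2]
  have h7 : n * (r * ((y : ℝ) / n - sl μ s) - ex μ s r) = r * y - n * (lam μ (s + r) - lam μ s) := by
    unfold ex
    field_simp
    ring
  rw [h7] at h6
  have h8 : (n : ℝ) * ((s + r) * sl μ (s + r) - lam μ (s + r) + lam μ 0 + ε) =
      (s + r) * y - n * lam μ (s + r) + n * lam μ 0 + n * ε := by
    rw [hyy]
    ring
  rw [h8] at h4
  linarith

theorem Dirs.e_up (hD : Dirs μ H δ A) : ∃ ρ : ℝ, 0 < ρ ∧ ∀ ε : ℝ, 0 < ε → ∃ N : ℕ, ∀ s ∈ A, ∀ n : ℕ, N ≤ n → ∀ y : ℤ,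
    |(y : ℝ) - sl μ s * n| ≤ ρ * n → e μ s n y ≤ n * (J μ s ((y : ℝ) / n - sl μ s) + ε) := by
  obtain ⟨ρ, h1, -, h2⟩ := hD.e_up'
  refine ⟨ρ, h1, fun ε hε => ?_⟩
  obtain ⟨N, -, hN⟩ := h2 ε hε
  exact ⟨N, hN⟩

/-! ### Ranges -/

omit [IsProbabilityMeasure μ] in
/-- **Displacements near the direction can be made.** -/
theorem Dirs.rng (hD : Dirs μ H δ A) (hs : s ∈ A) {n : ℕ} {y : ℤ} (h : |(y : ℝ) - sl μ s * n| ≤ δ * n) : 0 ≤ y ∧ y ≤ n := by
  have hn0 : (0 : ℝ) ≤ n := Nat.cast_nonneg n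
  have h1 := abs_le.1 h
  have h2 := mul_le_mul_of_nonneg_right (hD.lo s hs) hn0
  have h3 := mul_le_mul_of_nonneg_right (hD.hi s hs) hn0
  constructor
  · have : (0 : ℝ) ≤ y := by linarith [h1.1]
    exact_mod_cast this
  · have : (y : ℝ) ≤ ((n : ℤ) : ℝ) := by
      push_cast
      linarith [h1.2]
    exact_mod_cast this

omit [IsProbabilityMeasure μ] in
/-- Displacements near the direction are in the inner zone `[δ n / 2, (1 - δ / 2) n]`. -/
theorem Dirs.rng2 (hD : Dirs μ H δ A) (hs : s ∈ A) {n : ℕ} {y : ℤ} (h : |(y : ℝ) - sl μ s * n| ≤ δ / 2 * n) :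
    δ / 2 * n ≤ y ∧ (y : ℝ) ≤ (1 - δ / 2) * n := by
  have hn0 : (0 : ℝ) ≤ n := Nat.cast_nonneg n
  have h1 := abs_le.1 h
  have h2 := mul_le_mul_of_nonneg_right (hD.lo s hs) hn0
  have h3 := mul_le_mul_of_nonneg_right (hD.hi s hs) hn0
  constructor <;> linarith [h1.1, h1.2]

omit [IsProbabilityMeasure μ] in
theorem Dirs.δ_le (hD : Dirs μ H δ A) (hs : s ∈ A) : δ ≤ 1 / 2 := by
  have h1 := hD.lo s hs
  have h2 := hD.hi s hs
  linarith

/-! ### The linear bound -/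

/-- The means are at most linear, uniformly for the tilts `|s| ≤ H`. -/
theorem e_lin (hμ : EM μ) (hnd : Nondeg μ) (H : ℝ) : ∃ C : ℝ, 1 ≤ C ∧ ∀ s : ℝ, |s| ≤ H → ∀ (n : ℕ) (y : ℤ), 0 ≤ y → y ≤ n →
    e μ s n y ≤ C * n := by
  obtain ⟨C, hC⟩ : ∃ C : ℝ, C = max (e μ 0 1 0) (e μ 0 1 1) + 2 * |H| + 1 := ⟨_, rfl⟩
  have hCa : e μ 0 1 0 + 2 * |H| + 1 ≤ C := by rw [hC]; linarith [le_max_left (e μ 0 1 0) (e μ 0 1 1)]
  have hCb : e μ 0 1 1 + 2 * |H| + 1 ≤ C := by rw [hC]; linarith [le_max_right (e μ 0 1 0) (e μ 0 1 1)]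
  have hC1 : 1 ≤ C := by
    have h1 := e_nonneg hμ 0 (n := 1) (y := 0) (by norm_num) (by norm_num)
    have h2 := abs_nonneg H
    linarith
  refine ⟨C, hC1, fun s hs n y h0 h1 => ?_⟩
  have hsH : |s| ≤ |H| := hs.trans (le_abs_self H)
  have hs2 := abs_le.1 hsH
  have hlam : |lam μ s - lam μ 0| ≤ |H| := by
    have h1 := lam_tangent hμ hnd 0 s
    have h2 := lam_tangent hμ hnd s 0
    have h3 := sl_mem hμ hnd 0
    have h4 := sl_mem hμ hnd s
    have h8 := abs_nonneg H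
    rw [abs_le]
    constructor
    · nlinarith
    · nlinarith
  have hl2 := abs_le.1 hlam
  have a0 : e μ s 1 0 ≤ C := by
    rw [mb_tilt hμ 0 s (n := 1) (y := 0) (by norm_num) (by norm_num)]
    push_cast
    linarith [hl2.2, abs_nonneg H]
  have a1 : e μ s 1 1 ≤ C := by
    rw [mb_tilt hμ 0 s (n := 1) (y := 1) (by norm_num) (by norm_num)]
    push_cast
    linarith [hl2.2, hs2.1]
  have b0 : ∀ m : ℕ, e μ s m 0 ≤ C * m := by
    intro m
    induction m with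
    | zero => rw [e_zero]; simp
    | succ m ih =>
      have h2 := e_add_le (s := s) hμ (m := m) (n := 1) (k := 0) (y := 0) le_rfl (by positivity) le_rfl (by norm_num)
      rw [add_zero] at h2
      push_cast
      linarith
  have b1 : ∀ m : ℕ, e μ s m m ≤ C * m := by
    intro m
    induction m with
    | zero =>
      simp only [Nat.cast_zero, mul_zero]
      exact e_zero.le
    | succ m ih =>
      have h2 := e_add_le (s := s) hμ (m := m) (n := 1) (k := m) (y := 1) (by positivity) le_rfl (by norm_num) (by norm_num)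
      push_cast
      linarith
  exact (e_le_max hμ (y1 := 0) (y2 := (n : ℤ)) le_rfl h0 h1 le_rfl).trans (max_le (b0 n) (b1 n))

/-! ### Lateral steps -/

/-- The increments of a convex sequence increase. -/
theorem incr87 {f : ℤ → ℝ} {a b : ℤ} (hf : ∀ z, a < z → z < b → 2 * f z ≤ f (z - 1) + f (z + 1)) {y z : ℤ} (h0 : a ≤ y)
    (h1 : y ≤ z) (h2 : z + 1 ≤ b) : f (y + 1) - f y ≤ f (z + 1) - f z := by
  induction z, h1 using Int.leInduction with
  | base => exact le_rfl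
  | succ z hz ih =>
    have h3 := ih (by omega)
    have h4 := hf (z + 1) (by omega) (by omega)
    rw [add_sub_cancel_right] at h4
    linarith

theorem up87 {f : ℤ → ℝ} {a b : ℤ} (hf : ∀ z, a < z → z < b → 2 * f z ≤ f (z - 1) + f (z + 1)) {y z : ℤ} (h0 : a ≤ y)
    (h1 : y ≤ z) (h2 : z ≤ b) : ((z : ℝ) - y) * (f (y + 1) - f y) ≤ f z - f y := by
  induction z, h1 using Int.leInduction with
  | base => simp
  | succ z hz ih =>
    have h3 := ih (by omega)
    have h4 := incr87 hf h0 hz h2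
    push_cast
    have h5 : ((z : ℝ) + 1 - y) * (f (y + 1) - f y) = ((z : ℝ) - y) * (f (y + 1) - f y) + (f (y + 1) - f y) := by ring
    linarith

theorem dn87 {f : ℤ → ℝ} {a b : ℤ} (hf : ∀ z, a < z → z < b → 2 * f z ≤ f (z - 1) + f (z + 1)) {y z : ℤ} (h0 : a ≤ z)
    (h1 : z ≤ y) (h2 : y + 1 ≤ b) : f y - f z ≤ ((y : ℝ) - z) * (f (y + 1) - f y) := by
  obtain ⟨k, hk⟩ : ∃ k : ℕ, z = y - k := ⟨(y - z).toNat, by omega⟩
  subst hk
  clear h1
  induction k with
  | zero => simp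
  | succ k ih =>
    have h3 := ih (by push_cast at h0 ⊢; omega)
    have h4 := incr87 hf (y := y - ((k + 1 : ℕ) : ℤ)) (z := y) h0 (by push_cast; omega) h2
    have e1 : y - ((k + 1 : ℕ) : ℤ) + 1 = y - (k : ℤ) := by push_cast; ring
    rw [e1] at h4
    have h5 : ((y : ℝ) - ((y - ((k + 1 : ℕ) : ℤ) : ℤ) : ℝ)) * (f (y + 1) - f y) =
        ((y : ℝ) - ((y - (k : ℤ) : ℤ) : ℝ)) * (f (y + 1) - f y) + (f (y + 1) - f y) := by
      push_cast
      ring
    rw [h5]
    linarith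

/-- **One lateral step costs a constant**, in the inner zone. -/
theorem Dirs.e_step (hD : Dirs μ H δ A) : ∃ C : ℝ, 1 ≤ C ∧ ∀ s ∈ A, ∀ (n : ℕ) (y : ℤ), 1 ≤ n → δ / 2 * n ≤ y →
    (y : ℝ) + 1 ≤ (1 - δ / 2) * n → |e μ s n (y + 1) - e μ s n y| ≤ C := by
  obtain ⟨C, hC1, hC⟩ := e_lin hD.em hD.nd H
  have hδ := hD.δ0
  refine ⟨C * (2 / δ) + 1, by have : 0 < C * (2 / δ) := by positivity
                              linarith, fun s hs n y hn h0 h1 => ?_⟩
  have hn0 : (0 : ℝ) < n := by exact_mod_cast hn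
  have hy0 : 0 ≤ y := by
    have : (0 : ℝ) ≤ y := (by positivity : (0 : ℝ) ≤ δ / 2 * n).trans h0
    exact_mod_cast this
  have hy1 : y + 1 ≤ (n : ℤ) := by
    have : ((y + 1 : ℤ) : ℝ) ≤ ((n : ℤ) : ℝ) := by
      push_cast
      nlinarith
    exact_mod_cast this
  have hf : ∀ z : ℤ, 0 < z → z < (n : ℤ) → 2 * e μ s n z ≤ e μ s n (z - 1) + e μ s n (z + 1) := fun z hz1 hz2 =>
    e_convex hD.em (by omega) (by omega)
  have k1 := up87 (f := fun z => e μ s n z) hf (y := y) (z := n) hy0 (by omega) le_rfl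
  have k2 := dn87 (f := fun z => e μ s n z) hf (y := y) (z := 0) le_rfl hy0 (by omega)
  have b0 := hC s (hD.bd s hs) n 0 le_rfl (by positivity)
  have b1 := hC s (hD.bd s hs) n n (by positivity) le_rfl
  have e0 := e_nonneg hD.em s (n := n) (y := y) hy0 (by omega)
  push_cast at k1 k2
  have hb1 : δ / 2 * n ≤ (n : ℝ) - y := by nlinarith
  have hCn : C * (2 / δ) * (δ / 2 * n) = C * n := by field_simp
  rw [abs_le]
  constructor
  · by_contra hcon
    push Not at hcon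
    have h3 : (y : ℝ) * (e μ s n (y + 1) - e μ s n y) ≤ (y : ℝ) * (-(C * (2 / δ) + 1)) :=
      mul_le_mul_of_nonneg_left hcon.le (by exact_mod_cast hy0)
    have h4 : (y : ℝ) * (C * (2 / δ)) ≥ δ / 2 * n * (C * (2 / δ)) := mul_le_mul_of_nonneg_right h0 (by positivity)
    have h5 : 0 < δ / 2 * n := by positivity
    nlinarith
  · by_contra hcon
    push Not at hcon
    have h3 : ((n : ℝ) - y) * (C * (2 / δ) + 1) ≤ ((n : ℝ) - y) * (e μ s n (y + 1) - e μ s n y) :=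
      mul_le_mul_of_nonneg_left hcon.le (by linarith [show 0 < δ / 2 * n by positivity])
    have h4 : ((n : ℝ) - y) * (C * (2 / δ)) ≥ δ / 2 * n * (C * (2 / δ)) := mul_le_mul_of_nonneg_right hb1 (by positivity)
    have h5 : 0 < δ / 2 * n := by positivity
    nlinarith

/-- The means are Lipschitz in the inner zone. -/
theorem Dirs.e_lip (hD : Dirs μ H δ A) : ∃ C : ℝ, 1 ≤ C ∧ ∀ s ∈ A, ∀ (n : ℕ) (y y' : ℤ), δ / 2 * n ≤ y →
    (y : ℝ) ≤ (1 - δ / 2) * n → δ / 2 * n ≤ y' → (y' : ℝ) ≤ (1 - δ / 2) * n →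
    |e μ s n y' - e μ s n y| ≤ C * |(y' : ℝ) - y| := by
  obtain ⟨C, hC1, hC⟩ := hD.e_step
  refine ⟨C, hC1, fun s hs n => ?_⟩
  have key : ∀ (k : ℕ) (y : ℤ), δ / 2 * n ≤ y → ((y + k : ℤ) : ℝ) ≤ (1 - δ / 2) * n →
      |e μ s n (y + k) - e μ s n y| ≤ C * k := by
    intro k
    induction k with
    | zero => intro y _ _; simp
    | succ k ih =>
      intro y h0 h1
      push_cast at h1
      have h2 := ih y h0 (by push_cast; linarith)
      rcases Nat.eq_zero_or_pos n with rfl | hn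
      · exfalso
        simp only [Nat.cast_zero, mul_zero] at h0 h1
        have : (0 : ℝ) ≤ k := Nat.cast_nonneg k
        linarith
      have h3 := hC s hs n (y + k) hn (by push_cast; linarith [Nat.cast_nonneg (α := ℝ) k]) (by push_cast; linarith)
      have e1 : y + ((k + 1 : ℕ) : ℤ) = y + k + 1 := by push_cast; ring
      rw [e1]
      push_cast
      have h4 := abs_add_le (e μ s n (y + k + 1) - e μ s n (y + k)) (e μ s n (y + k) - e μ s n y)
      rw [sub_add_sub_cancel] at h4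
      linarith
  intro y y' h0 h1 h2 h3
  rcases le_total y y' with h | h
  · obtain ⟨k, hk⟩ : ∃ k : ℕ, y' = y + k := ⟨(y' - y).toNat, by omega⟩
    subst hk
    have h4 := key k y h0 h3
    push_cast
    rw [add_sub_cancel_left, Nat.abs_cast]
    exact h4
  · obtain ⟨k, hk⟩ : ∃ k : ℕ, y = y' + k := ⟨(y - y').toNat, by omega⟩
    subst hk
    have h4 := key k y' h2 h1
    push_cast
    rw [abs_sub_comm, show (y' : ℝ) - (y' + k) = -k by ring, abs_neg, Nat.abs_cast]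
    exact h4

/-! ### Cheap sets -/

private theorem mb_amgm {ι : Type*} (B : Finset ι) (hB : B.Nonempty) (w : ι → ℝ)
    (hw : ∀ i ∈ B, 0 < w i) :
    Real.log B.card + (∑ i ∈ B, Real.log (w i)) / B.card ≤ Real.log (∑ i ∈ B, w i) := by
  have hc : (0 : ℝ) < B.card := by exact_mod_cast hB.card_pos
  have h1 := strictConcaveOn_log_Ioi.concaveOn.le_map_sum (t := B) (w := fun _ => 1 / (B.card : ℝ))
    (p := w) (fun _ _ => by positivity) (by
      rw [Finset.sum_const, nsmul_eq_mul]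
      field_simp) (fun i hi => hw i hi)
  simp only [smul_eq_mul, ← Finset.mul_sum] at h1
  have h2 : 0 < ∑ i ∈ B, w i := Finset.sum_pos hw hB
  rw [Real.log_mul (by positivity) h2.ne', one_div, Real.log_inv] at h1
  rw [div_eq_inv_mul]
  linarith

/-- **A set of displacements of mean cost at most `c` has at most `exp c` elements.** -/
theorem log_card (hμ : EM μ) (s : ℝ) {n : ℕ} {B : Finset ℤ} (hne : B.Nonempty)
    (hB : ∀ y ∈ B, 0 ≤ y ∧ y ≤ n) {c : ℝ} (hc : ∀ y ∈ B, e μ s n y ≤ c) : Real.log B.card ≤ c := by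
  have hcard0 : (0 : ℝ) < B.card := by exact_mod_cast hne.card_pos
  have hpt : ∀ η : Env, Real.log B.card - (∑ y ∈ B, X μ s η 0 n y) / B.card ≤ V μ s η 0 n := by
    intro η
    have hw : ∀ y ∈ B, 0 < W μ s η 0 n y := fun y hy => W_pos η 0 (hB y hy).1 (hB y hy).2
    have h1 := mb_amgm B hne (fun y => W μ s η 0 n y) hw
    have h2 : ∑ y ∈ B, Real.log (W μ s η 0 n y) = -∑ y ∈ B, X μ s η 0 n y := by
      rw [← Finset.sum_neg_distrib]
      refine Finset.sum_congr rfl fun y _ => ?_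
      unfold X
      ring
    rw [h2, neg_div] at h1
    have h3 : Real.log (∑ y ∈ B, W μ s η 0 n y) ≤ V μ s η 0 n := by
      have h4 := WS_le_exp_V (μ := μ) (s := s) η 0 n B
      have h5 : 0 < ∑ y ∈ B, W μ s η 0 n y := Finset.sum_pos hw hne
      unfold WS at h4
      rw [← Real.log_exp (V μ s η 0 n)]
      exact Real.log_le_log h5 h4
    linarith
  have hiX : ∀ y ∈ B, Integrable (fun η => X μ s η 0 n y) (law μ) := fun y hy =>
    (Sub_X 0 (hB y hy).1 (hB y hy).2).integrable hμ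
  have hiS : Integrable (fun η => ∑ y ∈ B, X μ s η 0 n y) (law μ) :=
    integrable_finsetSum B hiX
  have hint : ∫ η, (Real.log B.card - (∑ y ∈ B, X μ s η 0 n y) / B.card) ∂(law μ) ≤
      ∫ η, V μ s η 0 n ∂(law μ) :=
    integral_mono ((integrable_const (Real.log B.card)).sub (hiS.div_const _))
      ((Sub_V 0 n).integrable hμ) hpt
  have h6 : ∫ η, (Real.log B.card - (∑ y ∈ B, X μ s η 0 n y) / B.card) ∂(law μ) =
      Real.log B.card - (∑ y ∈ B, e μ s n y) / B.card := by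
    rw [integral_sub (integrable_const _) (hiS.div_const _), integral_div,
      integral_finsetSum B hiX, integral_const]
    simp only [probReal_univ, one_smul]
    rfl
  rw [h6] at hint
  have h7 := integral_V_nonpos hμ s n
  have h8 : ∑ y ∈ B, e μ s n y ≤ B.card * c := by
    have := Finset.sum_le_card_nsmul B (fun y => e μ s n y) c hc
    rwa [nsmul_eq_mul] at this
  have h9 : (∑ y ∈ B, e μ s n y) / B.card ≤ c := by
    rw [div_le_iff₀ hcard0]
    linarith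
  linarith

/-- The same for an interval of displacements: `log (hi - lo + 1) ≤ c`. -/
theorem log_card_Icc (hμ : EM μ) (s : ℝ) {n : ℕ} {lo hi : ℤ} (h0 : 0 ≤ lo) (h1 : lo ≤ hi) (h2 : hi ≤ n) {c : ℝ}
    (hc : ∀ y : ℤ, lo ≤ y → y ≤ hi → e μ s n y ≤ c) : Real.log ((hi : ℝ) - lo + 1) ≤ c := by
  have h3 := log_card hμ s (n := n) (B := Finset.Icc lo hi) (Finset.nonempty_Icc.2 h1) (fun y hy => by
    rw [Finset.mem_Icc] at hy
    constructor <;> omega) (c := c) fun y hy => by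
    rw [Finset.mem_Icc] at hy
    exact hc y hy.1 hy.2
  rw [Int.card_Icc] at h3
  have h4 : (((hi + 1 - lo).toNat : ℕ) : ℝ) = (hi : ℝ) - lo + 1 := by
    have h5 : (((hi + 1 - lo).toNat : ℕ) : ℤ) = hi + 1 - lo := Int.toNat_of_nonneg (by omega)
    have h6 : (((hi + 1 - lo).toNat : ℕ) : ℝ) = ((((hi + 1 - lo).toNat : ℕ) : ℤ) : ℝ) := by push_cast; rfl
    rw [h6, h5]
    push_cast
    ring
  rwa [h4] at h3

/-! ### The cheap displacements are in the cone -/

omit [IsProbabilityMeasure μ] in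
/-- Small values of the rate function are near `0`, uniformly. -/
theorem Dirs.J_small87 (hD : Dirs μ H δ A) {ε : ℝ} (hε : 0 < ε) : ∃ j : ℝ, 0 < j ∧ ∀ s ∈ A, ∀ x : ℝ, J μ s x ≤ j → |x| ≤ ε := by
  obtain ⟨j, hj, h⟩ := hD.strict ε hε
  refine ⟨j * ε / 2, by positivity, fun s hs x hx => ?_⟩
  by_contra hcon
  push Not at hcon
  have h1 := h s hs x hcon.le
  have h2 : j * ε < j * |x| := mul_lt_mul_of_pos_left hcon hj
  have h3 : 0 < j * ε := by positivity
  linarith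

/-- The displacements of small mean cost are near the direction, uniformly. -/
private theorem mb_slope (hD : Dirs μ H δ A) {ε : ℝ} (hε : 0 < ε) : ∃ δ' : ℝ, 0 < δ' ∧ ∀ s ∈ A, ∀ (n : ℕ) (y : ℤ), 1 ≤ n →
    0 ≤ y → y ≤ n → e μ s n y ≤ δ' * n → |(y : ℝ) - sl μ s * n| ≤ ε * n := by
  obtain ⟨j, hj, h⟩ := hD.J_small87 hε
  refine ⟨j, hj, fun s hs n y hn h0 h1 he => ?_⟩
  have hn0 : (0 : ℝ) < n := by exact_mod_cast hn
  have h2 := (mb_ge hD.em s hn h0 h1).trans he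
  have h3 := h s hs _ (le_of_mul_le_mul_left (by linarith : (n : ℝ) * J μ s ((y : ℝ) / n - sl μ s) ≤ n * j) hn0)
  have e1 : (y : ℝ) / n - sl μ s = ((y : ℝ) - sl μ s * n) / n := by field_simp
  rwa [e1, abs_div, abs_of_pos hn0, div_le_iff₀ hn0] at h3

/-- **The displacements of mean cost at most `a EE n` are in the window of the width `n vA`.** -/
theorem Dirs.near_of_e (hD : Dirs μ H δ A) (hs : s ∈ A) {a : ℝ} (ha : 0 ≤ a) {n : ℕ} {y : ℤ} (hn : 1 ≤ n) (h0 : 0 ≤ y)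
    (h1 : y ≤ n) (he : e μ s n y ≤ a * EE μ s n) : |(y : ℝ) - sl μ s * n| ≤ n * vA a μ s n := by
  have hn0 : (0 : ℝ) < n := by exact_mod_cast hn
  have h2 := (mb_ge hD.em s hn h0 h1).trans he
  have hlev : 0 ≤ a * EE μ s n / n := div_nonneg (mul_nonneg ha (EE_pos n).le) hn0.le
  have h3 : J μ s ((y : ℝ) / n - sl μ s) ≤ a * EE μ s n / n := by
    rw [le_div_iff₀ hn0, mul_comm]
    exact h2
  have hrf := hD.rf hs
  have h4 := (hrf.level_iff hlev).1 h3
  have h5 : 0 ≤ vr a μ s n := hrf.wR_nonneg hlev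
  have h6 : 0 ≤ vl a μ s n := hrf.wL_nonneg hlev
  have h7 : |(y : ℝ) / n - sl μ s| ≤ vA a μ s n := by
    unfold vA
    have h8 : -vl a μ s n ≤ (y : ℝ) / n - sl μ s := h4.1
    have h9 : (y : ℝ) / n - sl μ s ≤ vr a μ s n := h4.2
    rw [abs_le]
    constructor <;> linarith
  have e1 : (y : ℝ) / n - sl μ s = ((y : ℝ) - sl μ s * n) / n := by field_simp
  rw [e1, abs_div, abs_of_pos hn0, div_le_iff₀ hn0] at h7
  linarith

/-- **The cheapest displacement is in the window** (levels `a ≥ 1`). -/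
theorem Dirs.xs_near (hD : Dirs μ H δ A) (hs : s ∈ A) {a : ℝ} (ha : 1 ≤ a) (n : ℕ) :
    |(xs μ s n : ℝ) - sl μ s * n| ≤ n * vA a μ s n := by
  rcases Nat.eq_zero_or_pos n with rfl | hn
  · have h := xs_mem (μ := μ) (s := s) 0
    have h0 : xs μ s 0 = 0 := by
      have h1 := h.1
      have h2 := h.2
      push_cast at h2
      omega
    simp [h0]
  have hx := xs_mem (μ := μ) (s := s) n
  refine hD.near_of_e hs (by linarith) hn hx.1 hx.2 ?_
  have hz := zs_mem (μ := μ) (s := s) n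
  have h1 := xs_le (μ := μ) (s := s) hz.1 hz.2
  have h2 : e μ s n (zs μ s n) ≤ ep μ s n (zs μ s n) :=
    integral_mono ((Sub_X 0 hz.1 hz.2).integrable hD.em) ((Sub_X 0 hz.1 hz.2).integrable hD.em).pos_part
      fun _ => le_max_left _ _
  rw [ep_zs] at h2
  have h3 := le_EE (μ := μ) (s := s) (le_refl n)
  have h4 := EE_pos (μ := μ) (s := s) n
  nlinarith

/-- The cheapest displacement is near the direction, uniformly. -/
theorem Dirs.xs_slope (hD : Dirs μ H δ A) (hR : Rate μ A) {ε : ℝ} (hε : 0 < ε) : ∃ n0 : ℕ, 1 ≤ n0 ∧ ∀ s ∈ A, ∀ n : ℕ, n0 ≤ n →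
    |(xs μ s n : ℝ) - sl μ s * n| ≤ ε * n := by
  obtain ⟨δ', hδ', h⟩ := mb_slope hD hε
  obtain ⟨n1, hn1⟩ := hR δ' hδ'
  refine ⟨max n1 1, le_max_right _ _, fun s hs n hn => ?_⟩
  have hx := xs_mem (μ := μ) (s := s) n
  refine h s hs n _ ((le_max_right _ _).trans hn) hx.1 hx.2 ?_
  have hz := zs_mem (μ := μ) (s := s) n
  have h1 := xs_le (μ := μ) (s := s) hz.1 hz.2
  have h2 : e μ s n (zs μ s n) ≤ ep μ s n (zs μ s n) :=
    integral_mono ((Sub_X 0 hz.1 hz.2).integrable hD.em) ((Sub_X 0 hz.1 hz.2).integrable hD.em).pos_part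
      fun _ => le_max_left _ _
  rw [ep_zs] at h2
  have h3 := le_EE (μ := μ) (s := s) (le_refl n)
  have h4 := hn1 s hs n ((le_max_left _ _).trans hn)
  linarith

end

end Pool.Agent.W_7d29a1_H
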