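import Pool.Agent.W_7d29a1_H.CTubeH83
import Pool.Agent.W_7d29a1_H.MeanA
import Pool.Agent.W_7d29a1_H.MeanB
import Pool.Agent.W_7d29a1_H.WidthH

/-!
MP_7d29a1_pr, TRACK H (all tilts), section CORE: cheap displacements of duration `l ≤ m` are near the line; the neighbours of a
cheap displacement are cheap; the exponential moment of the luck of a point; soft functionals have a positive duration. (helper83)
-/

set_option autoImplicit false

namespace Pool.Agent.W_7d29a1_H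

open MeasureTheory ProbabilityTheory Filter Topology Set
open Pool.Agent.W_7d29a1_F Pool.Agent.W_7d29a1_h4g
open Pool.Agent.W_7d29a1_L (Mh T kap Bx exp_T mem_Bx le_Mh Sub_Mh Mh_nonneg)

noncomputable section

variable {μ : Measure ℝ} [IsProbabilityMeasure μ] {H δ : ℝ} {A : Set ℝ} {s : ℝ}

/-- A displacement of duration `l ≤ m` of mean cost at most `b EE m` is at the distance `≤ max 1 (b / a) w_m` of the line. -/
theorem near83 (hD : Dirs μ H δ A) (hs : s ∈ A) {a b : ℝ} (ha : 0 < a) (hb : 0 ≤ b) {l m : ℕ} (hl : 1 ≤ l)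
    (hlm : l ≤ m) {q : ℤ} (h0 : 0 ≤ q) (h1 : q ≤ l) (hq : e μ s l q ≤ b * EE μ s m) :
    |(q : ℝ) - sl μ s * l| ≤ max 1 (b / a) * wH a μ s m := by
  have hl0 : (0 : ℝ) < l := by exact_mod_cast hl
  have hm0 : (0 : ℝ) < m := by exact_mod_cast hl.trans hlm
  have hlm' : (l : ℝ) ≤ m := by exact_mod_cast hlm
  obtain ⟨t, ht⟩ : ∃ t : ℝ, t = (q : ℝ) - sl μ s * l := ⟨_, rfl⟩
  rw [← ht]
  have h2 := e_ge hD.em hD.nd s hl h0 h1
  have e1 : (q : ℝ) / l - sl μ s = t / l := by rw [ht]; field_simp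
  rw [e1] at h2
  have h3 : m * J μ s (t / m) ≤ l * J μ s (t / l) := by
    have g1 : 0 ≤ 1 - (l : ℝ) / m := by rw [sub_nonneg, div_le_one hm0]; exact hlm'
    have g2 : 0 ≤ (l : ℝ) / m := by positivity
    have hc := (J_convex hD.em hD.nd s).2 (mem_univ (0 : ℝ)) (mem_univ (t / l)) g1 g2 (by ring)
    simp only [smul_eq_mul, mul_zero, zero_add, J_zero hD.em hD.nd s] at hc
    rw [show (l : ℝ) / m * (t / l) = t / m by field_simp] at hc
    have := mul_le_mul_of_nonneg_left hc hm0.le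
    rwa [show (m : ℝ) * ((l : ℝ) / m * J μ s (t / l)) = l * J μ s (t / l) by field_simp] at this
  have h4 := hD.lev_abs hs hb (hl.trans hlm) (h3.trans (h2.trans hq))
  have h5 : vA b μ s m ≤ vA (max 1 (b / a) * a) μ s m := by
    refine hD.vA_level_mono hs hb ?_ m
    have h6 := mul_le_mul_of_nonneg_right (le_max_right 1 (b / a)) ha.le
    rwa [div_mul_cancel₀ _ ha.ne'] at h6
  have h6 := hD.vA_level_mul hs (c := max 1 (b / a)) ha.le (le_max_left _ _) m
  rw [abs_div, abs_of_pos hm0, div_le_iff₀ hm0] at h4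
  unfold wH
  calc |t| ≤ vA b μ s m * m := h4
    _ ≤ (max 1 (b / a) * vA a μ s m) * m := mul_le_mul_of_nonneg_right (h5.trans h6) hm0.le
    _ = _ := by ring

/-- The neighbours of a cheap displacement are cheap. -/
theorem nbr83 (hD : Dirs μ H δ A) {B : ℝ} (hB : 0 ≤ B) : ∃ B' : ℝ, B ≤ B' ∧ ∀ s ∈ A, ∀ l m : ℕ, 1 ≤ l → ∀ q q' : ℤ, 0 ≤ q →
    q ≤ l → 0 ≤ q' → q' ≤ l → |q' - q| ≤ 1 → e μ s l q ≤ B * EE μ s m → e μ s l q' ≤ B' * EE μ s m := by
  obtain ⟨C1, hC1, hst⟩ := hD.e_step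
  obtain ⟨C2, hC2, hlin⟩ := e_lin hD.em hD.nd H
  have hδ := hD.δ0
  obtain ⟨j, hj, hstr⟩ := hD.strict (δ / 4) (by positivity)
  obtain ⟨B1, hB1⟩ : ∃ B1 : ℝ, B1 = C2 * (4 * B / (j * δ) + 4 / δ) := ⟨_, rfl⟩
  have hB10 : 0 ≤ B1 := by rw [hB1]; positivity
  refine ⟨B + C1 + B1, by linarith, fun s hs l m hl q q' h0 h1 h0' h1' hqq he => ?_⟩
  have hE1 := one_le_EE (μ := μ) (s := s) m
  have hl0 : (0 : ℝ) < l := by exact_mod_cast hl
  -- long durations
  by_cases hlong : (l : ℝ) ≤ (4 * B / (j * δ) + 4 / δ) * EE μ s m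
  · have h2 := hlin s (hD.bd s hs) l q' h0' h1'
    have h3 := mul_le_mul_of_nonneg_left hlong (zero_le_one.trans hC2)
    have h4 : C2 * ((4 * B / (j * δ) + 4 / δ) * EE μ s m) = B1 * EE μ s m := by rw [hB1]; ring
    have h5 : 0 ≤ (B + C1) * EE μ s m := by positivity
    have h6 : (B + C1 + B1) * EE μ s m = (B + C1) * EE μ s m + B1 * EE μ s m := by ring
    linarith
  · have hnear : |(q : ℝ) - sl μ s * l| < δ / 4 * l := by
      by_contra hcon
      rw [not_lt] at hcon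
      have e1 : (q : ℝ) / l - sl μ s = ((q : ℝ) - sl μ s * l) / l := by field_simp
      have h2 : δ / 4 ≤ |(q : ℝ) / l - sl μ s| := by
        rw [e1, abs_div, abs_of_pos hl0, le_div_iff₀ hl0]
        exact hcon
      have h3 := hstr s hs _ h2
      have h4 := (e_ge hD.em hD.nd s hl h0 h1).trans he
      have h5 : (l : ℝ) * (j * (δ / 4)) ≤ B * EE μ s m := by
        refine le_trans (mul_le_mul_of_nonneg_left ?_ hl0.le) h4
        exact (mul_le_mul_of_nonneg_left h2 hj.le).trans h3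
      apply hlong
      have h6 : (l : ℝ) ≤ 4 * B / (j * δ) * EE μ s m := by
        rw [div_mul_eq_mul_div, le_div_iff₀ (by positivity)]
        linarith
      have h7 : 0 ≤ 4 / δ * EE μ s m := by positivity
      rw [add_mul]
      linarith
    have hbig : 4 / δ < l := by
      rw [not_le] at hlong
      refine lt_of_le_of_lt ?_ hlong
      have h7 : 4 / δ * 1 ≤ 4 / δ * EE μ s m := mul_le_mul_of_nonneg_left hE1 (by positivity)
      have h8 : 0 ≤ 4 * B / (j * δ) * EE μ s m := by positivity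
      rw [add_mul]
      linarith
    rw [div_lt_iff₀ hδ] at hbig
    have hlo := hD.lo s hs
    have hhi := hD.hi s hs
    rw [abs_lt] at hnear
    have h8 : δ * l ≤ sl μ s * l := mul_le_mul_of_nonneg_right hlo hl0.le
    have h9 : sl μ s * l ≤ (1 - δ) * l := mul_le_mul_of_nonneg_right hhi hl0.le
    have h10 : (1 - δ) * (l : ℝ) = l - δ * l := by ring
    have h11 : (1 - δ / 2) * (l : ℝ) = l - δ / 2 * l := by ring
    have hfin : |e μ s l q' - e μ s l q| ≤ C1 := by
      rw [abs_le] at hqq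
      rcases (show q' = q ∨ q' = q + 1 ∨ q = q' + 1 by omega) with h | h | h
      · rw [h, sub_self, abs_zero]
        linarith
      · rw [h]
        exact hst s hs l q hl (by linarith) (by linarith)
      · rw [abs_sub_comm, h]
        have h12 : (q : ℝ) = q' + 1 := by rw [h]; push_cast; ring
        exact hst s hs l q' hl (by linarith) (by linarith)
    have h12 := (abs_le.1 hfin).2
    have h13 : C1 ≤ C1 * EE μ s m := by
      have := mul_le_mul_of_nonneg_left hE1 (zero_le_one.trans hC1)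
      linarith
    have h14 : 0 ≤ B1 * EE μ s m := by positivity
    have h15 : (B + C1 + B1) * EE μ s m = B * EE μ s m + C1 * EE μ s m + B1 * EE μ s m := by ring
    linarith

/-- The positive part of the luck of a point has an exponential moment. -/
theorem Vp_exp83 {a : ℝ} (hEM : Pool.Agent.W_7d29a1_h47.EM μ) (hv : ∀ s ∈ A, 0 ≤ sl μ s ∧ sl μ s ≤ 1)
    (hw : ∀ s ∈ A, ∀ n : ℕ, 1 ≤ n → 0 < wH a μ s n) (hLS : LStarH a μ A) :
    ∃ (c C : ℝ) (n0 : ℕ), 0 < c ∧ 0 < C ∧ ∀ s ∈ A, ∀ n : ℕ, n0 ≤ n → ∀ l : ℕ, l ≤ n →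
      ∫ η, Real.exp (c / EE μ s n * max (V μ s η 0 l) 0) ∂(law μ) ≤ C := by
  obtain ⟨c, C, n0, hc, h1⟩ := hLS 1
  refine ⟨c, max C 1, max n0 1, hc, lt_max_of_lt_right one_pos, fun s hs n hn l hl => ?_⟩
  have hE := EE_pos (μ := μ) (s := s) n
  have hw0 := hw s hs n (by omega)
  obtain ⟨hv0, hv1⟩ := hv s hs
  have h2 := h1 s hs n (by omega) 0 (-(wH a μ s n / 2)) (by
    rw [abs_zero, zero_mul]
    positivity)
  refine le_trans (integral_mono ((((Sub_V 0 l).max (Sub.const 0)).const_mul _).exp_int hEM)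
    ((Sub_Mh.const_mul _).exp_int hEM) fun η => ?_) (h2.trans (le_max_left _ _))
  refine Real.exp_le_exp.2 (mul_le_mul_of_nonneg_left (max_le ?_ (Mh_nonneg η)) (by positivity))
  have hq : (((0 : ℕ), (0 : ℤ)), l) ∈ Bx (sl μ s) (wH a μ s n) (-(wH a μ s n / 2)) (1 * n) := by
    rw [mem_Bx hv0 hv1]
    refine ⟨by simp only; omega, ?_, ?_⟩
    · simp only [Nat.cast_zero, mul_zero, sub_zero, Int.cast_zero]
      linarith
    · simp only [Nat.cast_zero, mul_zero, sub_zero, Int.cast_zero]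
      linarith
  have h3 := le_Mh (μ := μ) (s := s) (v := sl μ s) (h := 0) η hq
  have e0 : (((((((0 : ℕ), (0 : ℤ)), l) : (ℕ × ℤ) × ℕ).1.1 : ℕ) : ℤ), ((((0 : ℕ), (0 : ℤ)), l) : (ℕ × ℤ) × ℕ).1.2) =
      (0 : Pt) := by simp
  rw [e0] at h3
  have e1 : T μ s (sl μ s) 0 η 0 l = V μ s η 0 l := by
    unfold T kap
    rw [add_zero]
    ring
  have h4 : T μ s (sl μ s) 0 η 0 l ≤ Mh μ s (sl μ s) 0 (wH a μ s n) (-(wH a μ s n / 2)) (1 * n) η := h3
  rw [e1] at h4
  exact h4

/-- A functional of duration `0` does not fluctuate. -/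
theorem pos_dur83 {l : ℕ} {G : Env → ℝ} (hP : Poly (rows 0 l) G) {c E : ℝ} (hc : 0 < c) (hE : 0 < E)
    (h : c ≤ (law μ).real {η | c * E ≤ |Real.log (G η) - ∫ ξ, Real.log (G ξ) ∂(law μ)|}) : 1 ≤ l := by
  by_contra hl
  have hl0 : l = 0 := by omega
  subst hl0
  have hG : ∀ η, G η = G 0 := by
    intro η
    refine hP.dependsOn fun x hx => ?_
    exfalso
    have h1 : (0 : ℤ) < x.1 := hx.1
    have h2 : x.1 ≤ ((0 : ℕ) : ℤ) := hx.2
    simp only [Nat.cast_zero] at h2
    omega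
  have h1 : {η : Env | c * E ≤ |Real.log (G η) - ∫ ξ, Real.log (G ξ) ∂(law μ)|} = ∅ := by
    ext η
    simp only [mem_ofPred_eq, mem_empty_iff_false, iff_false, not_le]
    have h2 : ∫ ξ, Real.log (G ξ) ∂(law μ) = Real.log (G 0) := by
      simp only [hG, integral_const, probReal_univ, one_smul]
    rw [h2, hG η, sub_self, abs_zero]
    positivity
  rw [h1, measureReal_empty] at h
  linarith

end

end Pool.Agent.W_7d29a1_H
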