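import Pool.Agent.W_7d29a1_H.PredH
import Pool.Agent.W_7d29a1_L.LsA1
import Pool.Agent.W_7d29a1_F.CoreA4
import Pool.Agent.W_7d29a1_F.CoreC2

/-!
MP_7d29a1_pr, TRACK H (all tilts), section CORE: the tube. A path which leaves the tube of half width `R w` around the line of the
tilt has two expensive legs: the first one by the tilted luck of the box of the origin, the second one by the tilted luck
of the cell of its start. (helper83)
-/

set_option autoImplicit false

namespace Pool.Agent.W_7d29a1_H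

open MeasureTheory ProbabilityTheory Filter Topology Set
open Pool.Agent.W_7d29a1_F
open Pool.Agent.W_7d29a1_L (Mh T kap Bx exp_T mem_Bx le_Mh Sub_Mh Mh_nonneg)

noncomputable section

/-! ### Splitting at the sites outside of a region -/

/-- The paths which leave `R`, split at a site outside of `R`. -/
theorem Zr_split83 (R : Set Pt) [DecidablePred (· ∈ R)] (η : Env) (a : Pt) : ∀ (n : ℕ) (y : ℤ),
    Zr Set.univ η a n y ≤ Zr R η a n y +
    ∑ t ∈ Finset.range n, ∑ x ∈ Finset.Icc (0 : ℤ) (t + 1), if ((a.1 + (t + 1), a.2 + x) : Pt) ∈ R then 0 else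
      Zr Set.univ η a (t + 1) x * Zr Set.univ η (a.1 + (t + 1), a.2 + x) (n - (t + 1)) (y - x) := by
  intro n
  induction n with
  | zero =>
    intro y
    rw [Finset.range_zero, Finset.sum_empty, add_zero]
    exact le_of_eq rfl
  | succ n ih =>
    intro y
    have hterm : ∀ (t : ℕ) (x : ℤ), 0 ≤ (if ((a.1 + (t + 1), a.2 + x) : Pt) ∈ R then 0 else
        Zr Set.univ η a (t + 1) x * Zr Set.univ η (a.1 + (t + 1), a.2 + x) (n + 1 - (t + 1)) (y - x)) := by
      intro t x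
      split_ifs
      · exact le_rfl
      · exact mul_nonneg (Zr_nonneg _ _ _ _ _) (Zr_nonneg _ _ _ _ _)
    by_cases hp : ((a.1 + (n + 1), a.2 + y) : Pt) ∈ R
    · have e1 : Zr Set.univ η a (n + 1) y = Real.exp (η (a.1 + (n + 1), a.2 + y)) *
          (Zr Set.univ η a n y + Zr Set.univ η a n (y - 1)) := by
        show Set.univ.indicator (fun p => Real.exp (η p)) (a.1 + (n + 1), a.2 + y) * _ = _
        rw [Set.indicator_univ]
      have e2 : Zr R η a (n + 1) y = Real.exp (η (a.1 + (n + 1), a.2 + y)) * (Zr R η a n y + Zr R η a n (y - 1)) := by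
        show R.indicator (fun p => Real.exp (η p)) (a.1 + (n + 1), a.2 + y) * _ = _
        rw [Set.indicator_of_mem hp]
      rw [e1, e2]
      have h1 := mul_le_mul_of_nonneg_left (add_le_add (ih y) (ih (y - 1)))
        (Real.exp_pos (η (a.1 + (n + 1), a.2 + y))).le
      refine h1.trans ?_
      rw [Finset.sum_range_succ]
      have h2 : Real.exp (η (a.1 + (n + 1), a.2 + y)) *
          ((∑ t ∈ Finset.range n, ∑ x ∈ Finset.Icc (0 : ℤ) (t + 1), if ((a.1 + (t + 1), a.2 + x) : Pt) ∈ R then 0 else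
            Zr Set.univ η a (t + 1) x * Zr Set.univ η (a.1 + (t + 1), a.2 + x) (n - (t + 1)) (y - x)) +
          (∑ t ∈ Finset.range n, ∑ x ∈ Finset.Icc (0 : ℤ) (t + 1), if ((a.1 + (t + 1), a.2 + x) : Pt) ∈ R then 0 else
            Zr Set.univ η a (t + 1) x * Zr Set.univ η (a.1 + (t + 1), a.2 + x) (n - (t + 1)) (y - 1 - x))) =
          ∑ t ∈ Finset.range n, ∑ x ∈ Finset.Icc (0 : ℤ) (t + 1), if ((a.1 + (t + 1), a.2 + x) : Pt) ∈ R then 0 else
            Zr Set.univ η a (t + 1) x * Zr Set.univ η (a.1 + (t + 1), a.2 + x) (n + 1 - (t + 1)) (y - x) := by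
        rw [← Finset.sum_add_distrib, Finset.mul_sum]
        refine Finset.sum_congr rfl fun t ht => ?_
        rw [Finset.mem_range] at ht
        rw [← Finset.sum_add_distrib, Finset.mul_sum]
        refine Finset.sum_congr rfl fun x _ => ?_
        split_ifs
        · simp
        · obtain ⟨j, rfl⟩ : ∃ j, n = t + 1 + j := ⟨n - (t + 1), by omega⟩
          rw [show t + 1 + j - (t + 1) = j by omega, show t + 1 + j + 1 - (t + 1) = j + 1 by omega]
          have e3 : Zr Set.univ η (a.1 + (t + 1), a.2 + x) (j + 1) (y - x) =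
              Real.exp (η (a.1 + (t + 1) + (j + 1), a.2 + x + (y - x))) *
              (Zr Set.univ η (a.1 + (t + 1), a.2 + x) j (y - x) +
                Zr Set.univ η (a.1 + (t + 1), a.2 + x) j (y - x - 1)) := by
            show Set.univ.indicator (fun p => Real.exp (η p)) _ * _ = _
            rw [Set.indicator_univ]
          rw [e3, show y - 1 - x = y - x - 1 by ring, show a.1 + ((t : ℤ) + 1) + ((j : ℤ) + 1) = a.1 + (((t + 1 + j : ℕ) : ℤ) + 1) by push_cast; ring,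
            show a.2 + x + (y - x) = a.2 + y by ring]
          ring
      have h3 : 0 ≤ ∑ x ∈ Finset.Icc (0 : ℤ) (n + 1), (if ((a.1 + (n + 1), a.2 + x) : Pt) ∈ R then 0 else
        Zr Set.univ η a (n + 1) x * Zr Set.univ η (a.1 + (n + 1), a.2 + x) (n + 1 - (n + 1)) (y - x)) :=
        Finset.sum_nonneg fun x _ => hterm n x
      rw [mul_add (Real.exp _)] at h2
      nlinarith [h2, h3]
    · by_cases hy : 0 ≤ y ∧ y ≤ ((n + 1 : ℕ) : ℤ)
      · have h1 : (if ((a.1 + ((n : ℕ) + 1), a.2 + y) : Pt) ∈ R then 0 else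
            Zr Set.univ η a (n + 1) y * Zr Set.univ η (a.1 + (n + 1), a.2 + y) (n + 1 - (n + 1)) (y - y)) =
            Zr Set.univ η a (n + 1) y := by
          rw [if_neg hp, sub_self, Nat.sub_self]
          show _ * (if (0 : ℤ) = 0 then (1 : ℝ) else 0) = _
          rw [if_pos rfl, mul_one]
        have h2 : Zr Set.univ η a (n + 1) y ≤
            ∑ x ∈ Finset.Icc (0 : ℤ) (n + 1), (if ((a.1 + (n + 1), a.2 + x) : Pt) ∈ R then 0 else
              Zr Set.univ η a (n + 1) x * Zr Set.univ η (a.1 + (n + 1), a.2 + x) (n + 1 - (n + 1)) (y - x)) := by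
          rw [← h1]
          exact Finset.single_le_sum (f := fun x : ℤ => if ((a.1 + ((n : ℤ) + 1), a.2 + x) : Pt) ∈ R then 0 else
              Zr Set.univ η a (n + 1) x * Zr Set.univ η (a.1 + (n + 1), a.2 + x) (n + 1 - (n + 1)) (y - x))
            (fun x _ => hterm n x) (Finset.mem_Icc.2 ⟨hy.1, by have := hy.2; push_cast at this; exact this⟩)
        rw [Finset.sum_range_succ]
        have h3 : 0 ≤ ∑ t ∈ Finset.range n, ∑ x ∈ Finset.Icc (0 : ℤ) (t + 1), (if ((a.1 + (t + 1), a.2 + x) : Pt) ∈ R then 0 else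
            Zr Set.univ η a (t + 1) x * Zr Set.univ η (a.1 + (t + 1), a.2 + x) (n + 1 - (t + 1)) (y - x)) :=
          Finset.sum_nonneg fun t _ => Finset.sum_nonneg fun x _ => hterm t x
        have h4 := Zr_nonneg R η a (n + 1) y
        linarith
      · rw [Zr_eq_zero Set.univ η a hy]
        exact add_nonneg (Zr_nonneg _ _ _ _ _) (Finset.sum_nonneg fun t _ => Finset.sum_nonneg fun x _ => hterm t x)

variable {μ : Measure ℝ} {s : ℝ}

/-- The weights of the paths which leave `R`, split at a site outside of `R`. -/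
theorem W_split83 (R : Set Pt) [DecidablePred (· ∈ R)] (η : Env) (a : Pt) (n : ℕ) (y : ℤ) :
    W μ s η a n y ≤ WR μ s R η a n y +
    ∑ t ∈ Finset.range n, ∑ x ∈ Finset.Icc (0 : ℤ) (t + 1), if ((a.1 + (t + 1), a.2 + x) : Pt) ∈ R then 0 else
      W μ s η a (t + 1) x * W μ s η (a.1 + (t + 1), a.2 + x) (n - (t + 1)) (y - x) := by
  have h1 := mul_le_mul_of_nonneg_left (Zr_split83 R η a n y) (Real.exp_pos (s * y - n * lam μ s)).le
  unfold W WR
  refine h1.trans (le_of_eq ?_)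
  rw [mul_add, Finset.mul_sum]
  congr 1
  refine Finset.sum_congr rfl fun t ht => ?_
  rw [Finset.mem_range] at ht
  rw [Finset.mul_sum]
  refine Finset.sum_congr rfl fun x _ => ?_
  split_ifs
  · simp
  · have e1 : ((n - (t + 1) : ℕ) : ℝ) = n - (t + 1) := by
      rw [Nat.cast_sub (by omega)]
      push_cast
      ring
    have e2 : Real.exp (s * y - n * lam μ s) = Real.exp (s * x - ((t + 1 : ℕ) : ℝ) * lam μ s) *
        Real.exp (s * ((y - x : ℤ) : ℝ) - ((n - (t + 1) : ℕ) : ℝ) * lam μ s) := by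
      rw [← Real.exp_add, e1]
      congr 1
      push_cast
      ring
    rw [e2]
    ring

/-! ### The legs -/

/-- One end point of the tilted luck. -/
theorem W_le_T83 (v h : ℝ) (η : Env) (a : Pt) {n : ℕ} {y : ℤ} (h0 : 0 ≤ y) (h1 : y ≤ n) :
    W μ s η a n y ≤ Real.exp (T μ s v h η a n - h * ((y : ℝ) - v * n)) := by
  have h2 : W μ s η a n y * Real.exp (h * ((y : ℝ) - v * n)) ≤ Real.exp (T μ s v h η a n) := by
    rw [exp_T]
    exact Finset.single_le_sum (f := fun y : ℤ => W μ s η a n y * Real.exp (h * ((y : ℝ) - v * n)))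
      (fun y _ => mul_nonneg (W_nonneg _ _ _ _) (Real.exp_pos _).le) (Finset.mem_Icc.2 ⟨h0, h1⟩)
  rw [Real.exp_sub, le_div_iff₀ (Real.exp_pos _)]
  exact h2

/-- The two legs of a path through `(t, x)`: tilt `σ θ` before, tilt `- σ θ` after. -/
theorem legs83 {v w θ σ : ℝ} (hv0 : 0 ≤ v) (hv1 : v ≤ 1) (hw : 0 < w) (hθ : 0 ≤ θ) (hσ : |σ| = 1) {η : Env} {N M t : ℕ}
    {x k : ℤ} (htM : t ≤ M) (hMN : M ≤ N) (hx0 : 0 ≤ x) (hx1 : x ≤ t) (hk0 : 0 ≤ k - x) (hk1 : k - x ≤ ((M - t : ℕ) : ℤ))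
    {z B0 B D U : ℝ} (hz0 : z < (x : ℝ) - v * t) (hz1 : (x : ℝ) - v * t ≤ z + w)
    (h1 : Mh μ s v (σ * θ) w (-(w / 2)) N η ≤ B0) (h2 : Mh μ s v (-(σ * θ)) w z N η ≤ B)
    (hU : U ≤ σ * ((x : ℝ) - v * t)) (hD : |(k : ℝ) - v * M| ≤ D) :
    W μ s η 0 t x * W μ s η ((t : ℤ), x) (M - t) (k - x) ≤ Real.exp (B0 + B + θ * D - 2 * (θ * U)) := by
  have e1 := W_le_T83 (μ := μ) (s := s) v (σ * θ) η 0 (n := t) (y := x) hx0 hx1
  have e2 := W_le_T83 (μ := μ) (s := s) v (-(σ * θ)) η ((t : ℤ), x) (n := M - t) (y := k - x) hk0 hk1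
  have t1 : T μ s v (σ * θ) η 0 t ≤ B0 := by
    refine le_trans ?_ h1
    have hq : (((0 : ℕ), (0 : ℤ)), t) ∈ Bx v w (-(w / 2)) N := by
      rw [mem_Bx hv0 hv1]
      refine ⟨by simp only; omega, ?_, ?_⟩
      · simp only [Nat.cast_zero, mul_zero, sub_zero, Int.cast_zero]
        linarith
      · simp only [Nat.cast_zero, mul_zero, sub_zero, Int.cast_zero]
        linarith
    have h3 := le_Mh (μ := μ) (s := s) (v := v) (h := σ * θ) η hq
    have e0 : (((((((0 : ℕ), (0 : ℤ)), t) : (ℕ × ℤ) × ℕ).1.1 : ℕ) : ℤ), ((((0 : ℕ), (0 : ℤ)), t) : (ℕ × ℤ) × ℕ).1.2) =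
        (0 : Pt) := by simp
    rw [e0] at h3
    exact h3
  have t2 : T μ s v (-(σ * θ)) η ((t : ℤ), x) (M - t) ≤ B := by
    refine le_trans ?_ h2
    have hq : (((t : ℕ), (x : ℤ)), M - t) ∈ Bx v w z N := by
      rw [mem_Bx hv0 hv1]
      exact ⟨by simp only; omega, hz0, hz1⟩
    have h4 := le_Mh (μ := μ) (s := s) (v := v) (h := -(σ * θ)) η hq
    exact h4
  have hMt : ((M - t : ℕ) : ℝ) = M - t := by rw [Nat.cast_sub htM]
  refine (mul_le_mul e1 e2 (W_nonneg _ _ _ _) (Real.exp_pos _).le).trans ?_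
  rw [← Real.exp_add]
  refine Real.exp_le_exp.2 ?_
  have h3 : σ * θ * (((k - x : ℤ) : ℝ) - v * ((M - t : ℕ) : ℝ)) = θ * (σ * ((k : ℝ) - v * M)) -
      θ * (σ * ((x : ℝ) - v * t)) := by
    rw [hMt]
    push_cast
    ring
  have h4 : σ * ((k : ℝ) - v * M) ≤ D := by
    refine (le_abs_self _).trans ?_
    rw [abs_mul, hσ, one_mul]
    exact hD
  have h5 := mul_le_mul_of_nonneg_left h4 hθ
  have h6 := mul_le_mul_of_nonneg_left hU hθ
  have h7 : σ * θ * ((x : ℝ) - v * t) = θ * (σ * ((x : ℝ) - v * t)) := by ring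
  linarith

/-- The good event of the tube. -/
def Gt83 (μ : Measure ℝ) (s v θ w B0 : ℝ) (b : ℕ → ℝ) (R I N : ℕ) (η : Env) : Prop :=
  Mh μ s v θ w (-(w / 2)) N η ≤ B0 ∧ Mh μ s v (-θ) w (-(w / 2)) N η ≤ B0 ∧
    ∀ i : ℕ, R ≤ i → i < I → Mh μ s v (-θ) w (i * w) N η ≤ b i ∧ Mh μ s v θ w (-((i + 1) * w)) N η ≤ b i

/-- On the good event the paths which leave the tube have a total weight at most `1`. -/
theorem tube_det83 {v w θ : ℝ} (hv0 : 0 ≤ v) (hv1 : v ≤ 1) (hw : 0 < w) (hθ : 0 ≤ θ) {η : Env} {N M R I : ℕ} {k : ℤ}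
    (hMN : M ≤ N) {B0 D L : ℝ} {b : ℕ → ℝ} (hD : |(k : ℝ) - v * M| ≤ D) (hI : (M : ℝ) / w < I)
    (hG : Gt83 μ s v θ w B0 b R I N η)
    (hb : ∀ i : ℕ, R ≤ i → B0 + b i + θ * D - 2 * (θ * (i * w)) ≤ -L) (hL : 2 * Real.log (M + 1) ≤ L) :
    W μ s η 0 M k ≤ WR μ s (tb v 0 (R * w)) η 0 M k + 1 := by
  classical
  obtain ⟨g1, g2, g3⟩ := hG
  refine (W_split83 (μ := μ) (s := s) (tb v 0 (R * w)) η 0 M k).trans (add_le_add le_rfl ?_)
  have key : ∀ t ∈ Finset.range M, ∀ x ∈ Finset.Icc (0 : ℤ) (t + 1), (if (((0 : Pt).1 + (t + 1), (0 : Pt).2 + x) : Pt) ∈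
      tb v 0 (R * w) then 0 else W μ s η 0 (t + 1) x * W μ s η ((0 : Pt).1 + (t + 1), (0 : Pt).2 + x) (M - (t + 1)) (k - x)) ≤
      Real.exp (-L) := by
    intro t ht x hx
    rw [Finset.mem_range] at ht
    rw [Finset.mem_Icc] at hx
    split_ifs with hin
    · exact (Real.exp_pos _).le
    · by_cases hk : 0 ≤ k - x ∧ k - x ≤ ((M - (t + 1) : ℕ) : ℤ)
      · have hout : (R : ℝ) * w < |(x : ℝ) - v * ((t + 1 : ℕ) : ℝ)| := by
          rw [← not_le]
          intro hc
          apply hin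
          show |((((0 : Pt).2 + x - (0 : Pt).2 : ℤ)) : ℝ) - v * ((((0 : Pt).1 + (t + 1) - (0 : Pt).1 : ℤ)) : ℝ)| ≤ _
          simp only [Prod.fst_zero, Prod.snd_zero, zero_add, sub_zero]
          push_cast at hc ⊢
          exact hc
        have hpt : (((0 : Pt).1 + ((t : ℤ) + 1), (0 : Pt).2 + x) : Pt) = (((t + 1 : ℕ) : ℤ), x) := by
          simp
        rw [hpt]
        obtain ⟨p, hp⟩ : ∃ p : ℝ, p = (x : ℝ) - v * ((t + 1 : ℕ) : ℝ) := ⟨_, rfl⟩
        rw [← hp] at hout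
        have hx1 : x ≤ ((t + 1 : ℕ) : ℤ) := by push_cast; exact hx.2
        have htM : t + 1 ≤ M := by omega
        have hpM : |p| ≤ M := by
          have h1 : (0 : ℝ) ≤ x := by exact_mod_cast hx.1
          have h2 : (x : ℝ) ≤ ((t + 1 : ℕ) : ℝ) := by exact_mod_cast hx1
          have h3 : ((t + 1 : ℕ) : ℝ) ≤ M := by exact_mod_cast htM
          have h4 : 0 ≤ v * ((t + 1 : ℕ) : ℝ) := mul_nonneg hv0 (Nat.cast_nonneg _)
          have h5 : v * ((t + 1 : ℕ) : ℝ) ≤ 1 * ((t + 1 : ℕ) : ℝ) := mul_le_mul_of_nonneg_right hv1 (Nat.cast_nonneg _)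
          rw [hp, abs_le]
          constructor <;> linarith
        rcases le_total 0 p with h0 | h0
        · -- right
          rw [abs_of_nonneg h0] at hout hpM
          obtain ⟨i, hi⟩ : ∃ i : ℕ, i + 1 = ⌈p / w⌉₊ := by
            have h1 : 0 < ⌈p / w⌉₊ := Nat.ceil_pos.2 (div_pos (lt_of_le_of_lt (by positivity) hout) hw)
            exact ⟨⌈p / w⌉₊ - 1, by omega⟩
          have h1 : p / w ≤ i + 1 := by
            have := Nat.le_ceil (p / w)
            rw [← hi] at this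
            exact_mod_cast this
          have h2 : (i : ℝ) < p / w := by
            have := Nat.ceil_lt_add_one (show 0 ≤ p / w by positivity)
            rw [← hi] at this
            push_cast at this
            linarith
          rw [div_le_iff₀ hw] at h1
          have h2' := h2
          rw [lt_div_iff₀ hw] at h2
          have hRi : R ≤ i := by
            by_contra hc
            have h3 : (i : ℝ) + 1 ≤ R := by exact_mod_cast (by omega : i + 1 ≤ R)
            have h4 := mul_le_mul_of_nonneg_right h3 hw.le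
            linarith
          have hiI : i < I := by
            have h3 : (i : ℝ) < I := by
              refine h2'.trans_le (le_trans ?_ hI.le)
              exact div_le_div_of_nonneg_right hpM hw.le
            exact_mod_cast h3
          obtain ⟨g4, -⟩ := g3 i hRi hiI
          have h3 := legs83 (μ := μ) (s := s) (σ := 1) hv0 hv1 hw hθ (by simp) htM hMN hx.1 hx1 hk.1 hk.2
            (z := i * w) (B0 := B0) (B := b i) (U := i * w) (by rw [← hp]; exact h2) (by rw [← hp]; linarith)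
            (by rw [one_mul]; exact g1) (by rw [one_mul]; exact g4) (by rw [← hp]; linarith) hD
          exact h3.trans (Real.exp_le_exp.2 (hb i hRi))
        · -- left
          rw [abs_of_nonpos h0] at hout hpM
          obtain ⟨i, hi⟩ : ∃ i : ℕ, i = ⌊-p / w⌋₊ := ⟨_, rfl⟩
          have hq0 : 0 ≤ -p / w := div_nonneg (by linarith) hw.le
          have h1 : -p / w < i + 1 := by rw [hi]; exact Nat.lt_floor_add_one _
          have h2 : (i : ℝ) ≤ -p / w := by rw [hi]; exact Nat.floor_le hq0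
          rw [div_lt_iff₀ hw] at h1
          have h2' := h2
          rw [le_div_iff₀ hw] at h2
          have hRi : R ≤ i := by
            by_contra hc
            have h3 : (i : ℝ) + 1 ≤ R := by exact_mod_cast (by omega : i + 1 ≤ R)
            have h4 := mul_le_mul_of_nonneg_right h3 hw.le
            linarith
          have hiI : i < I := by
            have h3 : (i : ℝ) < I := by
              refine h2'.trans_lt (lt_of_le_of_lt ?_ hI)
              exact div_le_div_of_nonneg_right hpM hw.le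
            exact_mod_cast h3
          obtain ⟨-, g4⟩ := g3 i hRi hiI
          have h3 := legs83 (μ := μ) (s := s) (σ := -1) hv0 hv1 hw hθ (by simp) htM hMN hx.1 hx1 hk.1 hk.2
            (z := -((i + 1) * w)) (B0 := B0) (B := b i) (U := i * w) (by rw [← hp]; linarith) (by rw [← hp]; linarith)
            (by rw [neg_one_mul]; exact g2) (by rw [neg_one_mul, neg_neg]; exact g4) (by rw [← hp]; linarith) hD
          exact h3.trans (Real.exp_le_exp.2 (hb i hRi))
      · have h1 : W μ s η ((0 : Pt).1 + (t + 1), (0 : Pt).2 + x) (M - (t + 1)) (k - x) = 0 := by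
          unfold W WR
          rw [Zr_eq_zero _ _ _ hk, mul_zero]
        rw [h1, mul_zero]
        exact (Real.exp_pos _).le
  have h1 : ∀ t ∈ Finset.range M, (∑ x ∈ Finset.Icc (0 : ℤ) (t + 1), (if (((0 : Pt).1 + (t + 1), (0 : Pt).2 + x) : Pt) ∈
      tb v 0 (R * w) then 0 else W μ s η 0 (t + 1) x * W μ s η ((0 : Pt).1 + (t + 1), (0 : Pt).2 + x) (M - (t + 1)) (k - x))) ≤
      (M + 1) * Real.exp (-L) := by
    intro t ht
    refine (Finset.sum_le_card_nsmul _ _ _ (key t ht)).trans ?_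
    rw [nsmul_eq_mul]
    refine mul_le_mul_of_nonneg_right ?_ (Real.exp_pos _).le
    rw [Int.card_Icc]
    have h2 : ((t : ℤ) + 1 + 1 - 0).toNat = t + 2 := by omega
    rw [h2]
    rw [Finset.mem_range] at ht
    have h3 : ((t + 2 : ℕ) : ℝ) ≤ ((M + 1 : ℕ) : ℝ) := by exact_mod_cast (by omega : t + 2 ≤ M + 1)
    push_cast at h3 ⊢
    exact h3
  refine (Finset.sum_le_card_nsmul _ _ _ h1).trans ?_
  rw [Finset.card_range, nsmul_eq_mul]
  have hM0 : (0 : ℝ) < (M : ℝ) + 1 := by positivity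
  have h2 : ((M : ℝ) + 1) ^ 2 * Real.exp (-L) ≤ 1 := by
    have e1 : ((M : ℝ) + 1) ^ 2 = Real.exp (2 * Real.log (M + 1)) := by
      rw [two_mul, Real.exp_add, Real.exp_log hM0, sq]
    rw [e1, ← Real.exp_add]
    exact (Real.exp_le_exp.2 (by linarith)).trans Real.exp_zero.le
  have h3 : (M : ℝ) * ((M + 1) * Real.exp (-L)) ≤ ((M : ℝ) + 1) ^ 2 * Real.exp (-L) := by
    have h4 : 0 ≤ ((M : ℝ) + 1) * Real.exp (-L) := by positivity
    have e1 : ((M : ℝ) + 1) ^ 2 * Real.exp (-L) = (M : ℝ) * ((M + 1) * Real.exp (-L)) + (M + 1) * Real.exp (-L) := by ring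
    linarith
  linarith

/-! ### The probability -/

variable [IsProbabilityMeasure μ]

/-- Markov's inequality for an exponential moment. -/
theorem markov83 (hEM : Pool.Agent.W_7d29a1_h47.EM μ) {Z : Env → ℝ} (hZ : Sub Z) {c C E : ℝ} (hc : 0 < c) (hE : 0 < E)
    (h : ∫ η, Real.exp (c / E * Z η) ∂(law μ) ≤ C) (K : ℝ) :
    (law μ).real {η | ¬ Z η ≤ K * E} ≤ C * Real.exp (-(c * K)) := by
  have h1 := mul_meas_ge_le_integral_of_nonneg (μ := law μ) (f := fun η => Real.exp (c / E * Z η))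
    (Eventually.of_forall fun η => (Real.exp_pos _).le) ((hZ.const_mul _).exp_int hEM) (Real.exp (c * K))
  have h2 : (law μ).real {η | ¬ Z η ≤ K * E} ≤ (law μ).real {η | Real.exp (c * K) ≤ Real.exp (c / E * Z η)} := by
    refine measureReal_mono (fun η hη => ?_) (measure_ne_top _ _)
    rw [mem_ofPred_eq, not_le] at hη
    rw [mem_ofPred_eq]
    refine Real.exp_le_exp.2 ?_
    have h3 : c / E * (K * E) ≤ c / E * Z η := mul_le_mul_of_nonneg_left hη.le (by positivity)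
    have h4 : c / E * (K * E) = c * K := by field_simp
    linarith
  refine h2.trans ?_
  rw [Real.exp_neg, ← div_eq_mul_inv, le_div_iff₀ (Real.exp_pos _), mul_comm]
  exact h1.trans h

/-- The probability of the bad event. -/
theorem prob_Gt83 (hEM : Pool.Agent.W_7d29a1_h47.EM μ) {v w c C E K' : ℝ} (hc : 0 < c) (hE : 0 < E) {N : ℕ} {θ : ℝ}
    (h1 : ∀ z : ℝ, ∫ η, Real.exp (c / E * Mh μ s v θ w z N η) ∂(law μ) ≤ C)
    (h2 : ∀ z : ℝ, ∫ η, Real.exp (c / E * Mh μ s v (-θ) w z N η) ∂(law μ) ≤ C) (R I : ℕ) :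
    (law μ).real {η | ¬ Gt83 μ s v θ w (K' * E) (fun i => (c / 2 * i) * E) R I N η} ≤
      2 * C * Real.exp (-(c * K')) + 2 * C * (Real.exp (-(c ^ 2 / 2)) ^ R / (1 - Real.exp (-(c ^ 2 / 2)))) := by
  have hC : 0 ≤ C := (integral_nonneg fun η => (Real.exp_pos _).le).trans (h1 0)
  have hx0 := Real.exp_pos (-(c ^ 2 / 2))
  have hx1 : Real.exp (-(c ^ 2 / 2)) < 1 := by
    rw [Real.exp_lt_one_iff]
    have : 0 < c ^ 2 := by positivity
    linarith
  have hsub : {η | ¬ Gt83 μ s v θ w (K' * E) (fun i => (c / 2 * i) * E) R I N η} ⊆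
      ({η | ¬ Mh μ s v θ w (-(w / 2)) N η ≤ K' * E} ∪ {η | ¬ Mh μ s v (-θ) w (-(w / 2)) N η ≤ K' * E}) ∪
      ⋃ i ∈ Finset.Ico R I, ({η | ¬ Mh μ s v (-θ) w (i * w) N η ≤ (c / 2 * i) * E} ∪
        {η | ¬ Mh μ s v θ w (-((i + 1) * w)) N η ≤ (c / 2 * i) * E}) := by
    intro η hη
    rw [mem_ofPred_eq] at hη
    by_contra hcon
    apply hη
    simp only [mem_union, mem_iUnion, Finset.mem_Ico, not_or, not_exists, mem_ofPred_eq, not_not] at hcon
    obtain ⟨⟨c1, c2⟩, c3⟩ := hcon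
    exact ⟨c1, c2, fun i hi1 hi2 => c3 i ⟨hi1, hi2⟩⟩
  refine (measureReal_mono hsub (measure_ne_top _ _)).trans ((measureReal_union_le _ _).trans ?_)
  refine add_le_add ?_ ?_
  · refine (measureReal_union_le _ _).trans ?_
    have g1 := markov83 hEM (Sub_Mh (μ := μ) (s := s) (v := v) (h := θ) (w := w) (z := -(w / 2)) (n := N)) hc hE (h1 _) K'
    have g2 := markov83 hEM (Sub_Mh (μ := μ) (s := s) (v := v) (h := -θ) (w := w) (z := -(w / 2)) (n := N)) hc hE (h2 _) K'
    linarith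
  · refine (measureReal_biUnion_finset_le _ _).trans ?_
    have g1 : ∀ i ∈ Finset.Ico R I, (law μ).real ({η | ¬ Mh μ s v (-θ) w (i * w) N η ≤ (c / 2 * i) * E} ∪
        {η | ¬ Mh μ s v θ w (-((i + 1) * w)) N η ≤ (c / 2 * i) * E}) ≤ 2 * C * Real.exp (-(c ^ 2 / 2)) ^ i := by
      intro i _
      refine (measureReal_union_le _ _).trans ?_
      have g1 := markov83 hEM (Sub_Mh (μ := μ) (s := s) (v := v) (h := -θ) (w := w) (z := i * w) (n := N)) hc hE (h2 _)
        (c / 2 * i)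
      have g2 := markov83 hEM (Sub_Mh (μ := μ) (s := s) (v := v) (h := θ) (w := w) (z := -((i + 1) * w)) (n := N)) hc hE
        (h1 _) (c / 2 * i)
      have g3 : Real.exp (-(c * (c / 2 * i))) = Real.exp (-(c ^ 2 / 2)) ^ i := by
        rw [← Real.exp_nat_mul]
        congr 1
        ring
      rw [g3] at g1 g2
      linarith
    refine (Finset.sum_le_sum g1).trans ?_
    rw [← Finset.mul_sum]
    refine mul_le_mul_of_nonneg_left ?_ (by positivity)
    rcases le_total I R with h | h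
    · rw [Finset.Ico_eq_empty_of_le h, Finset.sum_empty]
      have : 0 < 1 - Real.exp (-(c ^ 2 / 2)) := by linarith
      positivity
    · rw [geom_sum_Ico' hx1.ne h]
      refine div_le_div_of_nonneg_right ?_ (by linarith)
      have : 0 ≤ Real.exp (-(c ^ 2 / 2)) ^ I := by positivity
      linarith

/-- **THE TUBE**: up to the probability `ε` the paths which leave the tube of half width `R w_n` have a total weight at most `1`. -/
theorem tube83 {a : ℝ} {A : Set ℝ} (hEM : Pool.Agent.W_7d29a1_h47.EM μ) (hv : ∀ s ∈ A, 0 ≤ sl μ s ∧ sl μ s ≤ 1)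
    (hw : ∀ s ∈ A, ∀ n : ℕ, 1 ≤ n → 0 < wH a μ s n) (hLS : LStarH a μ A) (hlog : LogG μ A) (r : ℕ) (C3 : ℝ) {ε : ℝ}
    (hε : 0 < ε) : ∃ R n0 : ℕ, ∀ s ∈ A, ∀ n : ℕ, n0 ≤ n → ∀ (M : ℕ) (k : ℤ), M ≤ (1 + r) * n →
      |(k : ℝ) - sl μ s * M| ≤ C3 * wH a μ s n →
      (law μ).real {η | ¬ W μ s η 0 M k ≤ WR μ s (tb (sl μ s) 0 (R * wH a μ s n)) η 0 M k + 1} ≤ ε := by
  obtain ⟨c, C, n1, hc, h1⟩ := hLS (1 + r)
  obtain ⟨n2, h2⟩ := hlog 2
  obtain ⟨C', hC'⟩ : ∃ C' : ℝ, C' = max C 1 := ⟨_, rfl⟩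
  have hC0 : 0 < C' := by rw [hC']; exact lt_max_of_lt_right one_pos
  have hCC : C ≤ C' := by rw [hC']; exact le_max_left _ _
  have hx0 := Real.exp_pos (-(c ^ 2 / 2))
  have hx1 : Real.exp (-(c ^ 2 / 2)) < 1 := by
    rw [Real.exp_lt_one_iff]
    have : 0 < c ^ 2 := by positivity
    linarith
  obtain ⟨K', hK'⟩ : ∃ K' : ℝ, 2 * C' * Real.exp (-(c * K')) ≤ ε / 2 := by
    refine ⟨Real.log (4 * C' / ε) / c, ?_⟩
    rw [mul_div_cancel₀ _ hc.ne', Real.exp_neg, Real.exp_log (by positivity)]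
    refine le_of_eq ?_
    field_simp
    ring
  obtain ⟨R1, hR1⟩ : ∃ R1 : ℕ, 2 * C' * (Real.exp (-(c ^ 2 / 2)) ^ R1 / (1 - Real.exp (-(c ^ 2 / 2)))) ≤ ε / 2 := by
    obtain ⟨R1, hR1⟩ := exists_pow_lt_of_lt_one (show 0 < ε / 2 * (1 - Real.exp (-(c ^ 2 / 2))) / (2 * C') by
      have : 0 < 1 - Real.exp (-(c ^ 2 / 2)) := by linarith
      positivity) hx1
    refine ⟨R1, ?_⟩
    have h3 : 0 < 1 - Real.exp (-(c ^ 2 / 2)) := by linarith
    rw [lt_div_iff₀ (by positivity)] at hR1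
    rw [← mul_div_assoc, div_le_iff₀ h3]
    linarith
  obtain ⟨R2, hR2⟩ := exists_nat_ge ((K' + c * C3 + 3) / (3 / 2 * c))
  obtain ⟨R, hR⟩ : ∃ R : ℕ, R = max R1 R2 := ⟨_, rfl⟩
  refine ⟨R, max (max n1 n2) (r + 2), fun s hs n hn M k hM hk => ?_⟩
  have hn1 : n1 ≤ n := by omega
  have hn2 : n2 ≤ n := by omega
  have hnr : r + 2 ≤ n := by omega
  have hn0 : 1 ≤ n := by omega
  obtain ⟨hv0, hv1⟩ := hv s hs
  have hw0 := hw s hs n hn0
  obtain ⟨w, hwd⟩ : ∃ w : ℝ, w = wH a μ s n := ⟨_, rfl⟩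
  obtain ⟨E, hEd⟩ : ∃ E : ℝ, E = EE μ s n := ⟨_, rfl⟩
  have hE0 : 0 < E := by rw [hEd]; exact EE_pos n
  rw [← hwd] at hw0 hk ⊢
  obtain ⟨θ, hθ⟩ : ∃ θ : ℝ, θ = c * E / w := ⟨_, rfl⟩
  have hθ0 : 0 ≤ θ := by rw [hθ]; positivity
  have hθw : θ * w = c * E := by rw [hθ]; field_simp
  have g1 : ∀ z : ℝ, ∫ η, Real.exp (c / E * Mh μ s (sl μ s) θ w z ((1 + r) * n) η) ∂(law μ) ≤ C' := fun z => by
    have h3 := h1 s hs n hn1 θ z (by rw [← hwd, ← hEd, abs_of_nonneg hθ0, hθw])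
    rw [← hwd, ← hEd] at h3
    exact h3.trans hCC
  have g2 : ∀ z : ℝ, ∫ η, Real.exp (c / E * Mh μ s (sl μ s) (-θ) w z ((1 + r) * n) η) ∂(law μ) ≤ C' := fun z => by
    have h3 := h1 s hs n hn1 (-θ) z (by rw [← hwd, ← hEd, abs_neg, abs_of_nonneg hθ0, hθw])
    rw [← hwd, ← hEd] at h3
    exact h3.trans hCC
  obtain ⟨I, hI⟩ := exists_nat_gt ((M : ℝ) / w)
  have hprob := prob_Gt83 (μ := μ) (s := s) hEM (v := sl μ s) (w := w) (K' := K') hc hE0 g1 g2 R I
  have hle : 2 * C' * (Real.exp (-(c ^ 2 / 2)) ^ R / (1 - Real.exp (-(c ^ 2 / 2)))) ≤ ε / 2 := by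
    refine le_trans ?_ hR1
    refine mul_le_mul_of_nonneg_left (div_le_div_of_nonneg_right ?_ (by linarith)) (by positivity)
    exact pow_le_pow_of_le_one hx0.le hx1.le (by rw [hR]; exact le_max_left _ _)
  refine (measureReal_mono (fun η hη => ?_) (measure_ne_top _ _)).trans (hprob.trans (by linarith))
  rw [mem_ofPred_eq] at hη ⊢
  intro hG
  apply hη
  refine tube_det83 (μ := μ) (s := s) hv0 hv1 hw0 hθ0 hM hk hI hG (L := 3 * E) (fun i hi => ?_) ?_
  · have h3 : (K' + c * C3 + 3) / (3 / 2 * c) ≤ i := by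
      refine hR2.trans ?_
      have : R2 ≤ i := le_trans (by rw [hR]; exact le_max_right _ _) hi
      exact_mod_cast this
    rw [div_le_iff₀ (by positivity)] at h3
    have h4 := mul_le_mul_of_nonneg_right h3 hE0.le
    have e1 : θ * (C3 * w) = c * C3 * E := by rw [← mul_assoc, mul_comm θ C3, mul_assoc, hθw]; ring
    have e2 : θ * (i * w) = i * (c * E) := by rw [← mul_assoc, mul_comm θ (i : ℝ), mul_assoc, hθw]
    rw [e1, e2]
    linarith
  · have h3 := h2 s hs n hn2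
    rw [← hEd] at h3
    have hn0' : (0 : ℝ) < n := by exact_mod_cast hn0
    have h4 : (M : ℝ) + 1 ≤ (n : ℝ) ^ 2 := by
      have h5 : (M : ℝ) ≤ (1 + r) * n := by exact_mod_cast hM
      have h6 : (r : ℝ) + 2 ≤ n := by exact_mod_cast hnr
      have h7 : ((r : ℝ) + 2) * n ≤ n * n := mul_le_mul_of_nonneg_right h6 hn0'.le
      have h8 : (1 : ℝ) ≤ n := by exact_mod_cast hn0
      nlinarith
    have h5 : Real.log ((M : ℝ) + 1) ≤ 2 * Real.log n := by
      have h6 : Real.log ((n : ℝ) ^ 2) = 2 * Real.log n := by rw [Real.log_pow]; norm_num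
      rw [← h6]
      exact Real.log_le_log (by positivity) h4
    have h6 : 0 ≤ Real.log (n : ℝ) := Real.log_nonneg (by exact_mod_cast hn0)
    linarith

end

end Pool.Agent.W_7d29a1_H
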