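import Pool.Agent.W_7d29a1_H.ConeH92
import Pool.Agent.W_7d29a1_H.WidthH
import Pool.Agent.W_7d29a1_H.Soft4

/-!
MP_7d29a1_pr, TRACK H (all tilts), H8: the chain for a family of tilts (`Dirs`), from the six sections (`LeavesH`), (SUB), and the
rate and the growth of the units.
-/

set_option autoImplicit false

namespace Pool.Agent.W_7d29a1_H

open MeasureTheory ProbabilityTheory Filter Topology Set
open Pool.Agent.W_7d29a1_F Pool.Agent.W_7d29a1_h4g
open Pool.Agent.W_7d29a1_h47 (EM Nondeg)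
open Pool.Agent.W_1b8d5d_p (Rf)

variable {μ : Measure ℝ} [IsProbabilityMeasure μ] {A : Set ℝ} {H δ a a' : ℝ}

/-- The elementary inputs of the chain. -/
theorem chIn_all92 (hD : Dirs μ H δ A) (hR : Rate μ A) (hG : Grow μ A) (ha : 0 < a) : ChIn a μ A where
  smono := fun _ _ _ _ h hs => Sf.mono hs h
  gmono := fun _ _ _ h => gg_mono h
  gsucc := fun s x => gg_succ hD.em s x
  gzero := gg_zero hD
  fmono := fun s hs => ff_mono hD ha hs
  fzero := ff_zero hD ha
  flarge := fun M => ff_large hD ha hR M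
  grow := fun a₁ => hG1 hD.em hD.nd hG a₁
  hV := fun a₁ => by
    obtain ⟨C, h⟩ := hV0 (μ := μ) hD.em a₁
    exact ⟨C, fun s _ x hx => h s x hx⟩

theorem hb0_change92 (hD : Dirs μ H δ A) (ha : 0 < a) (ha' : 0 < a') (h : HB0H a' μ A) : HB0H a μ A :=
  h.change (fun _ _ _ _ h hs => Sf.mono hs h) (ff_change hD ha ha')

theorem hb_change92 (hD : Dirs μ H δ A) (ha : 0 < a) (ha' : 0 < a') (h : HBH a' μ A) : HBH a μ A :=
  h.change (fun _ _ _ _ h hs => Sf.mono hs h) (ff_change hD ha ha')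

/-- (hS) at every level, from one octave at any level, (D7) and (I1). -/
theorem hsh_of92 (hD : Dirs μ H δ A) (ha : 0 < a) (ha' : 0 < a') (hO : OctH a' μ A) (h7 : D7H μ A) (h1 : I1H μ A) :
    HSH a μ A :=
  HSH.of (fun _ _ _ _ h hs => Sf.mono hs h) (fun s hs => ff_mono hD ha' hs) (fun s => Em_mono (s := s)) (fun s n => Em_pos n)
    (fun s _ n => Em_le_EE hD.em s n)
    (fun s n => by
      have h := EE_mul hD.em s n (k := 2) (by norm_num)
      push_cast at h
      exact h)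
    (ff_change hD ha' ha) hO h7 h1

/-- **The widths are at most a power of the time**, uniformly in the tilt. -/
theorem widthPow_of92 (hD : Dirs μ H δ A) (hR : Rate μ A) (hG : Grow μ A) (h : LeavesH μ A) : ∃ a : ℝ, 0 < a ∧ WidthPow a μ A := by
  obtain ⟨a1, ha1, hO⟩ := h.oct
  obtain ⟨a2, ha2, hB0⟩ := h.hB0
  obtain ⟨a3, ha3, hB⟩ := h.hB
  obtain ⟨a, ha, hF2⟩ := h.hF2
  exact ⟨a, ha, chainH (chIn_all92 hD hR hG ha) (hsh_of92 hD ha ha1 hO h.d7 h.i1) (hb0_change92 hD ha ha2 hB0)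
    (hb_change92 hD ha ha3 hB) hF2⟩

/-- **The lower bound of power type of the rate functions**, uniformly in the tilt. -/
theorem powJ_of92 (hD : Dirs μ H δ A) (hR : Rate μ A) (hG : Grow μ A) (h : LeavesH μ A) : PowJ μ A := by
  obtain ⟨a, ha, h⟩ := widthPow_of92 hD hR hG h
  exact powJ_of ha (fun s hs x => (hD.rf hs).nn x) (fun s hs n x hn hx => hD.lev_abs hs ha.le hn hx) h

/-- The change of the level in the closing of the cone: a closing by `δ` in `L` octaves at one level gives a closing at the other one. -/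
theorem cone_change92 (hD : Dirs μ H δ A) (ha : 0 < a) (ha' : 0 < a') (h : ConeH a' μ A) : ConeH a μ A := by
  obtain ⟨β, C, d, T, L, x₁, hd, hL, h1, h2, h3, h4⟩ := h
  obtain ⟨D, hD2⟩ := ff_change hD ha ha'
  obtain ⟨k, hk⟩ : ∃ k : ℕ, 2 * D + d ≤ d * k := by
    obtain ⟨k, hk⟩ := exists_nat_ge ((2 * D + d) / d)
    refine ⟨k, ?_⟩
    have h5 := (div_le_iff₀ hd).1 hk
    rw [mul_comm d]
    exact h5
  have hit : ∀ j : ℕ, ∀ s ∈ A, ∀ x, x₁ ≤ x → ff a' μ s x + d * j ≤ ff a' μ s (x + j * L) := by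
    intro j
    induction j with
    | zero => intro s _ x _; simp
    | succ j ih =>
      intro s hs x hx
      have h5 := ih s hs x hx
      have h6 := h4 s hs (x + j * L) (by omega)
      have h7 : x + j * L + L = x + (j + 1) * L := by ring
      rw [h7] at h6
      push_cast
      linarith
  refine ⟨β, C, d, T, (k + 1) * L, x₁, hd, ?_, h1, h2, h3, fun s hs x hx => ?_⟩
  · nlinarith
  have h5 := hit (k + 1) s hs x hx
  have h6 := abs_le.1 (hD2 s hs x)
  have h7 := abs_le.1 (hD2 s hs (x + (k + 1) * L))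
  push_cast at h5
  nlinarith

/-- **The cone closes at all scales**, uniformly in the tilt, at every level. -/
theorem cone_of92 (hD : Dirs μ H δ A) (hR : Rate μ A) (hG : Grow μ A) (h : LeavesH μ A) (hSub : SubH μ A) (ha : 0 < a) :
    ConeH a μ A := by
  obtain ⟨a1, ha1, hO⟩ := h.oct
  obtain ⟨a2, ha2, hB0⟩ := h.hB0
  obtain ⟨a3, ha3, hB⟩ := h.hB
  obtain ⟨a', ha', hF2⟩ := h.hF2
  exact cone_change92 hD ha ha' (coneH_of (chIn_all92 hD hR hG ha') (hsh_of92 hD ha' ha1 hO h.d7 h.i1)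
    (hb0_change92 hD ha' ha2 hB0) (hb_change92 hD ha' ha3 hB) hF2 hSub)

/-- **The halving of the caps**, uniformly in the tilt. -/
theorem halv_of92 (hD : Dirs μ H δ A) (hR : Rate μ A) (h : ConeH 1 μ A) : HalvH μ A :=
  halvH_of (fun _ hs => hD.rf hs) hR one_pos (fun _ hs _ hn => hD.vA_pos hs one_pos hn) h

end Pool.Agent.W_7d29a1_H
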