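import Pool.Agent.W_7d29a1_H.PredH
import Pool.Agent.W_1b8d5d_p.ChainU
import Pool.Agent.W_1b8d5d_p.Curv

/-!
MP_7d29a1_pr, TRACK H (all tilts), H8: the chain from the sections. The elementary facts about the unit, the width and the soft scales
enter as the structure `ChIn`; the sections imply (hS) at every level, the growth of `ff` and the lower bound of power type of the
rate functions, uniformly in the tilt.
-/

set_option autoImplicit false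

namespace Pool.Agent.W_7d29a1_H

open MeasureTheory ProbabilityTheory Filter Topology Set
open Pool.Agent.W_7d29a1_F Pool.Agent.W_7d29a1_h4g
open Pool.Agent.W_1b8d5d_p (OctU D7U I1U hsU chainU pow_of_cone)

/-- The elementary facts used by the chain, at the level `a` of the width. -/
structure ChIn (a : ℝ) (μ : Measure ℝ) (A : Set ℝ) : Prop where
  smono : ∀ (s : ℝ) (x : ℕ) (α β : ℝ), α ≤ β → Sf μ s x α → Sf μ s x β
  gmono : ∀ (s : ℝ) (y x : ℕ), y ≤ x → gg μ s y ≤ gg μ s x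
  gsucc : ∀ (s : ℝ) (x : ℕ), gg μ s (x + 1) ≤ gg μ s x + 1
  gzero : ∃ G₀ : ℝ, ∀ s ∈ A, |gg μ s 0| ≤ G₀
  fmono : ∀ s ∈ A, Monotone (ff a μ s)
  fzero : ∃ F₀ : ℝ, ∀ s ∈ A, -F₀ ≤ ff a μ s 0
  flarge : ∀ M : ℝ, ∃ x₁ : ℕ, ∀ s ∈ A, ∀ x, x₁ ≤ x → M ≤ ff a μ s x
  grow : ∀ a₁ : ℝ, ∃ T x₀ : ℕ, ∀ s ∈ A, ∀ x, x₀ ≤ x → Sf μ s x a₁ → gg μ s x + 1 ≤ gg μ s (x + T)
  hV : ∀ a₁ : ℝ, ∃ C : ℝ, ∀ s ∈ A, ∀ x : ℕ, Sf μ s x a₁ → gg μ s x ≤ (x : ℝ) / 2 + C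

/-- The change of the level of the width, between the levels `a` and `a'`. -/
def FfCh (a a' : ℝ) (μ : Measure ℝ) (A : Set ℝ) : Prop := ∃ C : ℝ, ∀ s ∈ A, ∀ x : ℕ, |ff a' μ s x - ff a μ s x| ≤ C

variable {μ : Measure ℝ} {A : Set ℝ} {a a' : ℝ}

/-- A change of the level of the width in (hB0). -/
theorem HB0H.change (hs : ∀ (s : ℝ) (x : ℕ) (α β : ℝ), α ≤ β → Sf μ s x α → Sf μ s x β) (hf : FfCh a a' μ A)
    (h : HB0H a' μ A) : HB0H a μ A := by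
  obtain ⟨C₀, α₀, h⟩ := h
  obtain ⟨C, hC⟩ := hf
  refine ⟨C₀ + C / 2, α₀, fun s hs' x => hs _ _ _ _ (max_le_max_right _ ?_) (h s hs' x)⟩
  have h1 := abs_le.1 (hC s hs' x)
  linarith

/-- A change of the level of the width in (hB). -/
theorem HBH.change (hs : ∀ (s : ℝ) (x : ℕ) (α β : ℝ), α ≤ β → Sf μ s x α → Sf μ s x β) (hf : FfCh a a' μ A)
    (h : HBH a' μ A) : HBH a μ A := by
  obtain ⟨α₀, h⟩ := h
  obtain ⟨CL, hCL⟩ := hf
  refine ⟨α₀, fun a₁ => ?_⟩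
  obtain ⟨C, h⟩ := h a₁
  refine ⟨C + CL, fun T => ?_⟩
  obtain ⟨y₀, h⟩ := h T
  refine ⟨y₀, fun s hs' y x h1 h2 h3 h4 => hs _ _ _ _ (max_le_max_right _ ?_) (h s hs' y x h1 h2 h3 h4)⟩
  have h5 := abs_le.1 (hCL s hs' x)
  have h6 := abs_le.1 (hCL s hs' y)
  linarith

/-- (hS) from one octave, (D7) and (I1). -/
theorem HSH.of (hs : ∀ (s : ℝ) (x : ℕ) (α β : ℝ), α ≤ β → Sf μ s x α → Sf μ s x β) (hf : ∀ s ∈ A, Monotone (ff a' μ s))
    (hEm : ∀ s, Monotone (Em μ s)) (hEm0 : ∀ (s : ℝ) (n : ℕ), 0 < Em μ s n) (hEmE : ∀ s ∈ A, ∀ n : ℕ, Em μ s n ≤ EE μ s n)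
    (hE2 : ∀ s (n : ℕ), EE μ s (2 * n) ≤ 2 * EE μ s n) (hch : FfCh a' a μ A) (hO : OctH a' μ A) (h7 : D7H μ A)
    (h1 : I1H μ A) : HSH a μ A := by
  obtain ⟨CL, hCL⟩ := hch
  exact hsU (E := EoH μ A) (Em := EmH μ A) (f := ffH a' μ A) (f₁ := ffH a μ A) (S := SfH μ A) (CL := CL)
    (fun s x α β h1 h2 => hs _ _ _ _ h1 h2) (fun s => hf s.1 s.2)
    (fun s x y hxy => hEm _ (Nat.pow_le_pow_right (by norm_num) hxy))
    (fun s x => hEm0 _ _) (fun s x => hEmE _ s.2 _)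
    (fun s x => by
      have h2 := hE2 s.1 (2 ^ x)
      rw [← pow_succ'] at h2
      exact h2)
    (fun s x => hCL s.1 s.2 x) hO h7 h1

/-- **The chain.** -/
theorem chainH (hI : ChIn a μ A) (hS : HSH a μ A) (hB0 : HB0H a μ A) (hB : HBH a μ A) (hF2 : HF2H a μ A) :
    WidthPow a μ A := by
  obtain ⟨C₀, α₀, hB0⟩ := hB0
  obtain ⟨α₁, hB⟩ := hB
  obtain ⟨G₀, hG₀⟩ := hI.gzero
  obtain ⟨F₀, hF₀⟩ := hI.fzero
  have key := chainU (ι := A) (g := fun s x => gg μ s.1 x) (f := fun s x => ff a μ s.1 x) (S := fun s x α => Sf μ s.1 x α)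
    (α₀ := max α₀ α₁) (C₀ := C₀) (D := 1) (Cg := 0) (G₀ := G₀) (F₀ := F₀)
    (fun s x α β hαβ hs => hI.smono _ _ _ _ hαβ hs) le_rfl
    (fun s y x hyx => by simpa using hI.gmono s.1 y x hyx) (fun s x => hI.gsucc s.1 x) (fun s => hI.fmono s.1 s.2)
    (fun s => hG₀ s.1 s.2) (fun s => hF₀ s.1 s.2)
    (fun M => by
      obtain ⟨x₁, h⟩ := hI.flarge M
      exact ⟨x₁, fun s x hx => h s.1 s.2 x hx⟩)
    hS
    (fun s x => hI.smono _ _ _ _ (max_le_max_left _ (le_max_left _ _)) (hB0 s.1 s.2 x))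
    (fun a₁ => by
      obtain ⟨C, h⟩ := hB a₁
      refine ⟨C, fun T => ?_⟩
      obtain ⟨y₀, h1⟩ := h T
      exact ⟨y₀, fun s y x h2 h3 h4 h5 =>
        hI.smono _ _ _ _ (max_le_max_left _ (le_max_right _ _)) (h1 s.1 s.2 y x h2 h3 h4 h5)⟩)
    (fun a₁ => by
      obtain ⟨T, x₀, h⟩ := hI.grow a₁
      exact ⟨T, x₀, fun s x hx hs => h s.1 s.2 x hx hs⟩)
    (fun a₁ => by
      obtain ⟨C, h⟩ := hI.hV a₁
      exact ⟨C, fun s x hs => h s.1 s.2 x hs⟩)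
    (fun T x₀ b h1 h2 h3 => by
      obtain ⟨L, x₁, δ, hδ, h⟩ := hF2 T x₀ b (fun s hs => h1 ⟨s, hs⟩) (fun s hs => h2 ⟨s, hs⟩) (fun s hs => h3 ⟨s, hs⟩)
      exact ⟨L, x₁, δ, hδ, fun s => h s.1 s.2⟩)
  obtain ⟨c, C, hc, h⟩ := key
  exact ⟨c, C, hc, fun s hs x => h ⟨s, hs⟩ x⟩

/-- The lower bound of power type of the rate functions, uniformly in the tilt. -/
def PowJ (μ : Measure ℝ) (A : Set ℝ) : Prop :=
  ∃ c K : ℝ, 0 < c ∧ 0 < K ∧ ∀ s ∈ A, ∀ x : ℝ, |x| ≤ 1 → c * |x| ^ K ≤ J μ s x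

/-- **From the chain to the rate functions.** -/
theorem powJ_of [IsProbabilityMeasure μ] (ha : 0 < a) (hJ0 : ∀ s ∈ A, ∀ x, 0 ≤ J μ s x)
    (hlev : ∀ s ∈ A, ∀ (n : ℕ) (x : ℝ), 1 ≤ n → n * J μ s x ≤ a * EE μ s n → |x| ≤ vA a μ s n)
    (h : WidthPow a μ A) : PowJ μ A := by
  obtain ⟨c, C, hc, h⟩ := h
  refine ⟨a * (2 : ℝ) ^ (-1 - max C 0 / c), 1 / c, by positivity, by positivity, fun s hs v hv => ?_⟩
  have hJ0' : 0 ≤ J μ s v := hJ0 s hs v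
  have key := pow_of_cone (J := fun v => J μ s v / a) (η := 1) hc (le_max_right C 0) le_rfl (by
    intro x v _ hx
    have h1 : ((2 ^ x : ℕ) : ℝ) * J μ s v ≤ a * EE μ s (2 ^ x) := by
      push_cast
      have h2 : (2 : ℝ) ^ x * J μ s v ≤ a * 1 := by
        have h3 : (2 : ℝ) ^ x * (J μ s v / a) = (2 : ℝ) ^ x * J μ s v / a := by ring
        rw [h3, div_le_one ha] at hx
        linarith
      exact h2.trans (mul_le_mul_of_nonneg_left (one_le_EE _) ha.le)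
    have h2 := hlev s hs (2 ^ x) v Nat.one_le_two_pow h1
    refine h2.trans ?_
    rcases le_or_gt (vA a μ s (2 ^ x)) 0 with h3 | h3
    · exact h3.trans (by positivity)
    · have h4 := h s hs x
      unfold ff at h4
      have h5 : Real.logb 2 (vA a μ s (2 ^ x)) ≤ max C 0 - c * x := by
        have := le_max_left C 0
        linarith
      calc vA a μ s (2 ^ x) = (2 : ℝ) ^ Real.logb 2 (vA a μ s (2 ^ x)) := (Real.rpow_logb two_pos (by norm_num) h3).symm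
        _ ≤ (2 : ℝ) ^ (max C 0 - c * x) := Real.rpow_le_rpow_of_exponent_le (by norm_num) h5) v hv (div_nonneg hJ0' ha.le)
  rw [le_div_iff₀ ha] at key
  calc a * (2 : ℝ) ^ (-1 - max C 0 / c) * |v| ^ (1 / c) =
      (2 : ℝ) ^ (-1 - max C 0 / c) * |v| ^ (1 / c) * a := by ring
    _ ≤ J μ s v := key

end Pool.Agent.W_7d29a1_H
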