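import Pool.Agent.W_7d29a1_H.LanesH51
import Pool.Agent.W_7d29a1_H.UnitH

/-!
MP_7d29a1_pr, TRACK H (all tilts), COMPARE: the comparison of the widths of two tilts (port of `BalCmp14`).

Lucky lanes of the tilt `s` at the scale `2 ^ x`, reached through the cheap displacements of the tilt `s'` at the later scale `2 ^ x'`:
the width of `s'` is at most a multiple of the width of `s`.
-/

set_option autoImplicit false

namespace Pool.Agent.W_7d29a1_H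

open MeasureTheory
open Pool.Agent.W_7d29a1_F Pool.Agent.W_7d29a1_h4g

noncomputable section

variable {μ : Measure ℝ} [IsProbabilityMeasure μ] {a C3 Cm : ℝ} {A : Set ℝ}

/-- **(COMPARE)**, from the cheap displacements, the lanes and the fact that the widths are at least `1`. -/
theorem cmpH_of51 (hμ : Pool.Agent.W_7d29a1_h47.EM μ) (hw1 : ∃ n1 : ℕ, ∀ s ∈ A, ∀ n : ℕ, n1 ≤ n → 1 ≤ wH a μ s n)
    (hCh : CheapH a μ A) (hLane : LaneH a μ A C3 Cm) : CmpH a μ A C3 Cm := by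
  intro C1
  obtain ⟨c0, C', hc0, hCh⟩ := hCh
  obtain ⟨Cn, hCn⟩ : ∃ Cn : ℕ, Cn = ⌈Cm⌉₊ + 1 := ⟨_, rfl⟩
  obtain ⟨Kt, hKt⟩ : ∃ Kt : ℝ, Kt = |C1| + 2 * (|C'| + 1 + Cn) * |C1| + 2 := ⟨_, rfl⟩
  obtain ⟨p, R, x1, hp, hR0, hLane⟩ := hLane Kt
  obtain ⟨J, hJ⟩ : ∃ J : ℕ, J = ⌈4 / p⌉₊ := ⟨_, rfl⟩
  have hJp : 4 ≤ J * p := by
    have h1 := Nat.le_ceil (4 / p)
    rw [← hJ, div_le_iff₀ hp] at h1
    exact h1
  obtain ⟨n1, hw1⟩ := hw1
  obtain ⟨C2, hC2⟩ : ∃ C2 : ℝ, C2 = (J * (2 * R + 1) + 1) / c0 := ⟨_, rfl⟩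
  refine ⟨C2, max x1 n1, fun s hs s' hs' x x' hx hxx' hi hii => ?_⟩
  by_contra hcon
  rw [not_le] at hcon
  obtain ⟨w, hw⟩ : ∃ w : ℝ, w = wH a μ s (2 ^ x) := ⟨_, rfl⟩
  obtain ⟨w', hw'⟩ : ∃ w' : ℝ, w' = wH a μ s' (2 ^ x') := ⟨_, rfl⟩
  obtain ⟨E, hE⟩ : ∃ E : ℝ, E = EE μ s (2 ^ x) := ⟨_, rfl⟩
  obtain ⟨E', hE'⟩ : ∃ E' : ℝ, E' = EE μ s' (2 ^ x') := ⟨_, rfl⟩
  have hE0 : 0 < E := by rw [hE]; exact EE_pos _
  have hE'0 : 0 < E' := by rw [hE']; exact EE_pos _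
  rw [← hE, ← hE'] at hi
  rw [← hw, ← hw'] at hcon
  have hC1 : 0 < C1 := by
    by_contra h
    rw [not_lt] at h
    have := mul_nonpos_of_nonpos_of_nonneg h hE0.le
    linarith
  have hwge : 1 ≤ w := by
    have hx2 : n1 ≤ 2 ^ x := (le_max_right x1 n1).trans (hx.trans (Nat.lt_two_pow_self).le)
    rw [hw]
    exact hw1 s hs (2 ^ x) hx2
  obtain ⟨M, k, hM1, hMC, hk0, hkM, hk, hpE⟩ := hLane s hs x ((le_max_left _ _).trans hx)
  rw [← hw, ← hE] at hpE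
  obtain ⟨lo, hi', hlo0, -, -, hhin, hlen, hch⟩ := hCh s' hs' (2 ^ x') Nat.one_le_two_pow
  rw [← hw'] at hlen
  obtain ⟨S, hS⟩ : ∃ S : ℕ, S = ⌊2 * R * w⌋₊ + 1 := ⟨_, rfl⟩
  have hRw : 0 ≤ 2 * R * w := by positivity
  have hS1 : 2 * R * w < S := by
    rw [hS]
    push_cast
    exact Nat.lt_floor_add_one _
  have hS2 : (S : ℝ) ≤ 2 * R * w + 1 := by
    rw [hS]
    push_cast
    linarith [Nat.floor_le hRw]
  -- the places
  obtain ⟨pos, hpos⟩ : ∃ pos : ℕ → ℤ, ∀ j, pos j = lo + j * S := ⟨_, fun _ => rfl⟩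
  have hJS : (J : ℝ) * S ≤ hi' - lo := by
    have h1 : (J : ℝ) * S ≤ J * (2 * R * w + 1) := mul_le_mul_of_nonneg_left hS2 (Nat.cast_nonneg _)
    have h2 : C2 * w * c0 = (J * (2 * R + 1) + 1) * w := by
      rw [hC2]
      field_simp
    have h3 : c0 * (C2 * w) ≤ c0 * w' := mul_le_mul_of_nonneg_left hcon.le hc0.le
    have h4 : (J : ℝ) * 1 ≤ J * w := mul_le_mul_of_nonneg_left hwge (Nat.cast_nonneg _)
    nlinarith
  have hposle : ∀ j < J, lo ≤ pos j ∧ pos j ≤ hi' := by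
    intro j hj
    rw [hpos]
    constructor
    · have : (0 : ℤ) ≤ (j : ℤ) * S := by positivity
      omega
    · have h1 : (j : ℝ) * S ≤ J * S := mul_le_mul_of_nonneg_right (by exact_mod_cast hj.le) (Nat.cast_nonneg _)
      have h2 : ((lo + (j : ℤ) * S : ℤ) : ℝ) ≤ ((hi' : ℤ) : ℝ) := by
        push_cast
        linarith
      exact_mod_cast h2
  have hposn : ∀ j ∈ Finset.range J, 0 ≤ pos j ∧ pos j ≤ ((2 ^ x' : ℕ) : ℤ) := by
    intro j hj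
    obtain ⟨h1, h2⟩ := hposle j (Finset.mem_range.1 hj)
    exact ⟨hlo0.trans h1, h2.trans hhin⟩
  have hA : ∀ j ∈ Finset.range J, ep μ s' (2 ^ x') (pos j) ≤ (|C'| + 1) * C1 * E := by
    intro j hj
    obtain ⟨h1, h2⟩ := hposle j (Finset.mem_range.1 hj)
    obtain ⟨h1', h2'⟩ := hposn j hj
    have h3 := (hch (pos j) h1 h2).1
    have h4 := ep_le61 hμ s' h1' h2'
    have h5 := le_EE (μ := μ) (s := s') (le_refl (2 ^ x'))
    rw [← hE'] at h3 h5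
    have h7 : C' * E' ≤ |C'| * E' := mul_le_mul_of_nonneg_right (le_abs_self _) hE'0.le
    have h8 : (|C'| + 1) * E' ≤ (|C'| + 1) * (C1 * E) := mul_le_mul_of_nonneg_left hi (by positivity)
    linarith
  have hMn : M ≤ Cn * 2 ^ x' := by
    have h1 : (M : ℝ) ≤ ((Cn * 2 ^ x' : ℕ) : ℝ) := by
      have h2 : Cm ≤ Cn := by
        rw [hCn]
        push_cast
        linarith [Nat.le_ceil Cm]
      have h3 : (2 : ℝ) ^ x ≤ 2 ^ x' := pow_le_pow_right₀ (by norm_num) hxx'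
      have h4 : Cm * 2 ^ x ≤ Cn * 2 ^ x := mul_le_mul_of_nonneg_right h2 (by positivity)
      have h5 : (Cn : ℝ) * 2 ^ x ≤ Cn * 2 ^ x' := mul_le_mul_of_nonneg_left h3 (Nat.cast_nonneg _)
      push_cast
      linarith
    exact_mod_cast h1
  have hzM := zs_mem (μ := μ) (s := s') M
  have hA' : ep μ s' M (zs μ s' M) ≤ Cn * (C1 * E) := by
    rw [ep_zs]
    have h1 := le_EE (μ := μ) (s := s') hMn
    have h2 := EE_mul hμ s' (2 ^ x') (k := Cn) (by omega)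
    rw [← hE'] at h2
    have h4 : (Cn : ℝ) * E' ≤ Cn * (C1 * E) := mul_le_mul_of_nonneg_left hi (Nat.cast_nonneg _)
    linarith
  have hdist : ∀ i ∈ Finset.range J, ∀ j ∈ Finset.range J, i ≠ j → 2 * (R * w) < |((pos i - pos j : ℤ) : ℝ)| := by
    intro i _ j _ hij
    have e1 : ((pos i - pos j : ℤ) : ℝ) = ((i : ℝ) - j) * S := by
      rw [hpos, hpos]
      push_cast
      ring
    rw [e1, abs_mul, Nat.abs_cast]
    have h1 : (1 : ℝ) ≤ |(i : ℝ) - j| := by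
      have h2 : (1 : ℤ) ≤ |(i : ℤ) - j| := Int.one_le_abs (by omega)
      have h3 : ((1 : ℤ) : ℝ) ≤ ((|(i : ℤ) - j| : ℤ) : ℝ) := by exact_mod_cast h2
      push_cast at h3
      exact h3
    have h2 : 1 * (S : ℝ) ≤ |(i : ℝ) - j| * S := mul_le_mul_of_nonneg_right h1 (Nat.cast_nonneg _)
    linarith
  have hL := hii (M : ℝ) (k : ℝ) (Nat.cast_nonneg _) hMC hk
  rw [← hE] at hL
  have hKC : |C1| = C1 := abs_of_pos hC1
  have hCn0 : (0 : ℝ) ≤ Cn := Nat.cast_nonneg _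
  have hKpos : 0 ≤ Kt - C1 := by
    rw [hKt, hKC]
    have : 0 ≤ 2 * (|C'| + 1 + Cn) * C1 := by positivity
    linarith
  have key := lanesH51 (μ := μ) hμ (s := s) (s' := s') (b := R * w) (Y := Kt * E) (n := 2 ^ x') (J := J) (pos := pos)
    (A := (|C'| + 1) * C1 * E) (A' := Cn * (C1 * E)) (Y' := (Kt - C1) * E) hk0 hkM hposn hdist hp hpE hJp
    hzM.1 hzM.2 hA hA' (mul_nonneg hKpos hE0.le) (by linarith)
  have h1 : (Kt - C1) * E * (3 / 4) ≤ ((|C'| + 1 + Cn) * C1) * E := by linarith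
  have h2 : (Kt - C1) * (3 / 4) ≤ (|C'| + 1 + Cn) * C1 := by
    have h3 : ((Kt - C1) * (3 / 4)) * E ≤ ((|C'| + 1 + Cn) * C1) * E := by linarith
    exact le_of_mul_le_mul_right h3 hE0
  rw [hKt, hKC] at h2
  have h3 : 0 ≤ (|C'| + 1 + Cn) * C1 := by positivity
  linarith

end

end Pool.Agent.W_7d29a1_H
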