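import Pool.Agent.W_7d29a1_H.UnitH
import Pool.Agent.W_7d29a1_F.Bridge7

/-!
MP_7d29a1_pr, TRACK H (all tilts). Cheap intervals: Minkowski sums, the cheapest displacements are almost additive, hence close to a
line; one fixed far point is cheap for all the points next to a line (TRAV*). Model: `W_1b8d5d_p.UnitC`.
-/

set_option autoImplicit false

namespace Pool.Agent.W_7d29a1_H

open MeasureTheory ProbabilityTheory Filter Topology Set
open Pool.Agent.W_7d29a1_F Pool.Agent.W_7d29a1_h4g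
open Pool.Agent.W_7d29a1_h47 (EM Nondeg)

noncomputable section

/-- HYERS - ULAM on an interval. -/
theorem hyers61 {x : ℕ → ℝ} {n : ℕ} (hn : 1 ≤ n) {l : ℝ} (hl : 0 ≤ l)
    (h : ∀ s t : ℕ, 1 ≤ s → 1 ≤ t → s + t ≤ n → |x (s + t) - x s - x t| ≤ l) :
    ∀ t : ℕ, 1 ≤ t → t ≤ n → |x t - x n / n * t| ≤ 3 * l := by
  have hn0 : (n : ℝ) ≠ 0 := by exact_mod_cast (show n ≠ 0 by omega)
  obtain ⟨t0, ht0, hmax⟩ := (Finset.Icc 1 n).exists_max_image (fun t : ℕ => |x t - x n / n * t|) ⟨1, by simp; omega⟩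
  rw [Finset.mem_Icc] at ht0
  have hM : ∀ t : ℕ, 1 ≤ t → t ≤ n → |x t - x n / n * t| ≤ |x t0 - x n / n * t0| := fun t h1 h2 =>
    hmax t (Finset.mem_Icc.2 ⟨h1, h2⟩)
  have key : |x t0 - x n / n * t0| ≤ 3 * l := by
    have hadd : ∀ s t : ℕ, 1 ≤ s → 1 ≤ t → s + t ≤ n →
        |(x (s + t) - x n / n * ((s + t : ℕ) : ℝ)) - (x s - x n / n * s) - (x t - x n / n * t)| ≤ l := by
      intro s t hs ht hst
      have := h s t hs ht hst
      have e1 : (x (s + t) - x n / n * ((s + t : ℕ) : ℝ)) - (x s - x n / n * s) - (x t - x n / n * t) =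
          x (s + t) - x s - x t := by
        push_cast
        ring
      rw [e1]
      exact this
    have hdbl : ∀ s : ℕ, 1 ≤ s → 2 * s ≤ n → 2 * |x s - x n / n * s| ≤ |x t0 - x n / n * t0| + l := by
      intro s hs hs2
      have h1 := hadd s s hs hs (by omega)
      have h2 := hM (s + s) (by omega) (by omega)
      rw [abs_le] at h1 h2
      have h3 : 2 * |x s - x n / n * s| = |2 * (x s - x n / n * s)| := by rw [abs_mul, abs_two]
      rw [h3, abs_le]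
      constructor <;> linarith [h1.1, h1.2, h2.1, h2.2]
    rcases Nat.lt_or_ge n (2 * t0) with h1 | h1
    · rcases Nat.lt_or_ge t0 n with h2 | h2
      · have h3 := hadd t0 (n - t0) ht0.1 (by omega) (by omega)
        have h4 := hdbl (n - t0) (by omega) (by omega)
        rw [show t0 + (n - t0) = n by omega] at h3
        rw [div_mul_cancel₀ _ hn0, sub_self, zero_sub] at h3
        have h5 : |x t0 - x n / n * t0| ≤ l + |x (n - t0) - x n / n * ((n - t0 : ℕ) : ℝ)| := by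
          rw [abs_le] at h3
          have h6 := neg_abs_le (x (n - t0) - x n / n * ((n - t0 : ℕ) : ℝ))
          have h7 := le_abs_self (x (n - t0) - x n / n * ((n - t0 : ℕ) : ℝ))
          rw [abs_le]
          constructor <;> linarith [h3.1, h3.2]
        linarith
      · have h3 : t0 = n := by omega
        rw [h3, div_mul_cancel₀ _ hn0, sub_self, abs_zero]
        positivity
    · have h2 := hdbl t0 ht0.1 h1
      linarith
  intro t h1 h2
  exact (hM t h1 h2).trans key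

/-! ### Convexity on an interval of integers -/

section dconv

variable {f : ℤ → ℝ} {N : ℤ} (hf : ∀ y, 1 ≤ y → y + 1 ≤ N → 2 * f y ≤ f (y - 1) + f (y + 1))

include hf

private theorem dc_mono (y : ℤ) (h0 : 0 ≤ y) (k : ℕ) (hk : y + k + 1 ≤ N) : f (y + 1) - f y ≤ f (y + k + 1) - f (y + k) := by
  induction k with
  | zero => simp
  | succ k ih =>
    push_cast at hk
    have h1 := ih (by omega)
    have h := hf (y + k + 1) (by omega) (by omega)
    rw [add_sub_cancel_right] at h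
    have e1 : y + ((k + 1 : ℕ) : ℤ) = y + k + 1 := by push_cast; ring
    rw [e1]
    linarith

private theorem dc_left (a : ℤ) (h0 : 0 ≤ a) (m : ℕ) (hm : a + m + 1 ≤ N) :
    f (a + m) ≤ f a + m * (f (a + m + 1) - f (a + m)) := by
  induction m with
  | zero => simp
  | succ m ih =>
    push_cast at hm
    have h1 := ih (by omega)
    have h := hf (a + m + 1) (by omega) (by omega)
    rw [add_sub_cancel_right] at h
    have e1 : a + ((m + 1 : ℕ) : ℤ) = a + m + 1 := by push_cast; ring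
    rw [e1]
    push_cast
    have h2 : (m : ℝ) * (f (a + m + 1) - f (a + m)) ≤ m * (f (a + m + 1 + 1) - f (a + m + 1)) :=
      mul_le_mul_of_nonneg_left (by linarith) (Nat.cast_nonneg _)
    nlinarith

private theorem dc_right (b : ℤ) (h0 : 0 ≤ b) (n : ℕ) (hn : b + n ≤ N) : f b + n * (f (b + 1) - f b) ≤ f (b + n) := by
  induction n with
  | zero => simp
  | succ n ih =>
    push_cast at hn
    have h1 := ih (by omega)
    have h := dc_mono hf b h0 n (by omega)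
    have e1 : b + ((n + 1 : ℕ) : ℤ) = b + n + 1 := by push_cast; ring
    rw [e1]
    push_cast
    nlinarith

/-- The chord inequality. -/
private theorem dconv {y0 y y1 : ℤ} (h00 : 0 ≤ y0) (h0 : y0 ≤ y) (h1 : y ≤ y1) (h11 : y1 ≤ N) :
    ((y1 : ℝ) - y0) * f y ≤ ((y1 : ℝ) - y) * f y0 + ((y : ℝ) - y0) * f y1 := by
  obtain ⟨m, rfl⟩ : ∃ m : ℕ, y = y0 + m := ⟨(y - y0).toNat, by omega⟩
  obtain ⟨n, rfl⟩ : ∃ n : ℕ, y1 = y0 + m + n := ⟨(y1 - (y0 + m)).toNat, by omega⟩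
  rcases Nat.eq_zero_or_pos n with hn | hn
  · subst hn
    push_cast
    simp
  have h2 := dc_left hf y0 h00 m (by omega)
  have h3 := dc_right hf (y0 + m) (by omega) n h11
  push_cast
  have h4 : (n : ℝ) * (f (y0 + m) - f y0) ≤ n * (m * (f (y0 + m + 1) - f (y0 + m))) :=
    mul_le_mul_of_nonneg_left (by linarith) (Nat.cast_nonneg _)
  have h5 : (m : ℝ) * (n * (f (y0 + m + 1) - f (y0 + m))) ≤ m * (f (y0 + m + n) - f (y0 + m)) :=
    mul_le_mul_of_nonneg_left (by linarith) (Nat.cast_nonneg _)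
  nlinarith

end dconv

variable {μ : Measure ℝ} [IsProbabilityMeasure μ] {s : ℝ}

/-- The chord inequality for the mean costs. -/
theorem e_chord61 (hμ : EM μ) {n : ℕ} {y0 y y1 : ℤ} (h00 : 0 ≤ y0) (h0 : y0 ≤ y) (h1 : y ≤ y1) (h11 : y1 ≤ n) :
    ((y1 : ℝ) - y0) * e μ s n y ≤ ((y1 : ℝ) - y) * e μ s n y0 + ((y : ℝ) - y0) * e μ s n y1 :=
  dconv (f := e μ s n) (N := n) (fun _ h2 h3 => e_convex hμ h2 h3) h00 h0 h1 h11

/-! ### Cheap sets -/

/-- The displacements of duration `n` and mean cost at most `B`. -/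
def CI (μ : Measure ℝ) (s : ℝ) (n : ℕ) (B : ℝ) : Set ℤ := {y | 0 ≤ y ∧ y ≤ n ∧ e μ s n y ≤ B}

omit [IsProbabilityMeasure μ] in
theorem CI_e {n : ℕ} {B : ℝ} {y : ℤ} (h : y ∈ CI μ s n B) : e μ s n y ≤ B := h.2.2

omit [IsProbabilityMeasure μ] in
theorem CI_0 {n : ℕ} {B : ℝ} {y : ℤ} (h : y ∈ CI μ s n B) : 0 ≤ y := h.1

omit [IsProbabilityMeasure μ] in
theorem CI_n {n : ℕ} {B : ℝ} {y : ℤ} (h : y ∈ CI μ s n B) : y ≤ n := h.2.1

omit [IsProbabilityMeasure μ] in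
theorem CI_mk {n : ℕ} {B : ℝ} {y : ℤ} (h0 : 0 ≤ y) (h1 : y ≤ n) (h : e μ s n y ≤ B) : y ∈ CI μ s n B := ⟨h0, h1, h⟩

omit [IsProbabilityMeasure μ] in
theorem CI_mono {n : ℕ} {B B' : ℝ} (h : B ≤ B') : CI μ s n B ⊆ CI μ s n B' := fun _ hy => ⟨hy.1, hy.2.1, hy.2.2.trans h⟩

omit [IsProbabilityMeasure μ] in
theorem CI_zero {B : ℝ} {y : ℤ} (h : y ∈ CI μ s 0 B) : y = 0 := by
  have h1 := h.1
  have h2 := h.2.1
  push_cast at h2
  omega

theorem CI_add (hμ : EM μ) {m n : ℕ} {A B : ℝ} {y z : ℤ} (hy : y ∈ CI μ s m A) (hz : z ∈ CI μ s n B) :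
    y + z ∈ CI μ s (m + n) (A + B) :=
  ⟨by have := hy.1; have := hz.1; omega, by have := hy.2.1; have := hz.2.1; push_cast; omega,
    (e_add_le hμ hy.1 hy.2.1 hz.1 hz.2.1).trans (add_le_add hy.2.2 hz.2.2)⟩

theorem CI_mul (hμ : EM μ) {m : ℕ} {B : ℝ} {y : ℤ} (hy : y ∈ CI μ s m B) (k : ℕ) : (k : ℤ) * y ∈ CI μ s (k * m) (k * B) := by
  induction k with
  | zero =>
    refine ⟨by simp, by simp, ?_⟩
    simp [e_zero]
  | succ k ih =>
    have := CI_add hμ ih hy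
    have e1 : ((k + 1 : ℕ) : ℤ) * y = (k : ℤ) * y + y := by push_cast; ring
    have e2 : (k + 1) * m = k * m + m := by ring
    have e3 : ((k + 1 : ℕ) : ℝ) * B = k * B + B := by push_cast; ring
    rw [e1, e2, e3]
    exact this

theorem CI_conv (hμ : EM μ) {n : ℕ} {B : ℝ} {y0 y y1 : ℤ} (h0 : y0 ∈ CI μ s n B) (h1 : y1 ∈ CI μ s n B) (ha : y0 ≤ y)
    (hb : y ≤ y1) : y ∈ CI μ s n B := by
  refine CI_mk (h0.1.trans ha) (hb.trans h1.2.1) ?_
  rcases eq_or_lt_of_le (ha.trans hb) with h | h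
  · have e3 : y = y0 := by omega
    rw [e3]
    exact h0.2.2
  have h2 := e_chord61 (s := s) hμ h0.1 ha hb h1.2.1
  have h3 : ((y1 : ℝ) - y) * e μ s n y0 ≤ (y1 - y) * B :=
    mul_le_mul_of_nonneg_left h0.2.2 (by have : (y : ℝ) ≤ y1 := by exact_mod_cast hb
                                         linarith)
  have h4 : ((y : ℝ) - y0) * e μ s n y1 ≤ (y - y0) * B :=
    mul_le_mul_of_nonneg_left h1.2.2 (by have : (y0 : ℝ) ≤ y := by exact_mod_cast ha
                                         linarith)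
  have h5 : (0 : ℝ) < y1 - y0 := by
    have : (y0 : ℝ) < y1 := by exact_mod_cast h
    linarith
  have h6 : ((y1 : ℝ) - y0) * e μ s n y ≤ (y1 - y0) * B := by linarith
  exact le_of_mul_le_mul_left h6 h5

theorem xs_CI (hμ : EM μ) {n N : ℕ} (h : n ≤ N) {E : ℝ} (hE : EE μ s N ≤ E) : xs μ s n ∈ CI μ s n (E - 1) :=
  ⟨(xs_mem n).1, (xs_mem n).2, by have := e_xs_le hμ s n; have := le_EE (μ := μ) (s := s) h; linarith⟩

theorem xs_CI' (hμ : EM μ) {n N : ℕ} (h : n ≤ N) {E : ℝ} (hE : EE μ s N ≤ E) : xs μ s n ∈ CI μ s n E :=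
  CI_mono (by linarith) (xs_CI hμ h hE)

/-- The length of the longest cheap interval of a duration `≤ n`. -/
def ln (μ : Measure ℝ) (s : ℝ) (n : ℕ) (B : ℝ) : ℕ :=
  sSup {k : ℕ | ∃ m, 1 ≤ m ∧ m ≤ n ∧ ∃ y : ℤ, y ∈ CI μ s m B ∧ y + k ∈ CI μ s m B}

omit [IsProbabilityMeasure μ] in
theorem ln_bdd (n : ℕ) (B : ℝ) :
    BddAbove {k : ℕ | ∃ m, 1 ≤ m ∧ m ≤ n ∧ ∃ y : ℤ, y ∈ CI μ s m B ∧ y + k ∈ CI μ s m B} := by
  refine ⟨n, ?_⟩
  rintro k ⟨m, hm, hmn, y, h1, h2⟩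
  have h3 := h1.1
  have h4 := h2.2.1
  omega

omit [IsProbabilityMeasure μ] in
theorem le_ln {n : ℕ} {B : ℝ} {m : ℕ} (hmn : m ≤ n) {y z : ℤ} (hy : y ∈ CI μ s m B)
    (hz : z ∈ CI μ s m B) : z - y ≤ ln μ s n B := by
  rcases Nat.eq_zero_or_pos m with hm | hm
  · subst hm
    rw [CI_zero hy, CI_zero hz, sub_zero]
    exact Int.natCast_nonneg _
  rcases le_total z y with h | h
  · exact (show z - y ≤ 0 by omega).trans (Int.natCast_nonneg _)
  · obtain ⟨k, rfl⟩ : ∃ k : ℕ, z = y + k := ⟨(z - y).toNat, by omega⟩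
    have := le_csSup (ln_bdd n B) ⟨m, hm, hmn, y, hy, hz⟩
    rw [add_sub_cancel_left]
    exact_mod_cast this

omit [IsProbabilityMeasure μ] in
theorem abs_le_ln {n : ℕ} {B : ℝ} {m : ℕ} (hmn : m ≤ n) {y z : ℤ} (hy : y ∈ CI μ s m B)
    (hz : z ∈ CI μ s m B) : |(z : ℝ) - y| ≤ ln μ s n B := by
  have h1 := le_ln hmn hy hz
  have h2 := le_ln hmn hz hy
  rw [abs_le]
  constructor
  · have : ((y - z : ℤ) : ℝ) ≤ ((ln μ s n B : ℤ) : ℝ) := by exact_mod_cast h2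
    push_cast at this
    linarith
  · have : ((z - y : ℤ) : ℝ) ≤ ((ln μ s n B : ℤ) : ℝ) := by exact_mod_cast h1
    push_cast at this
    linarith

theorem ln_mem (hμ : EM μ) {n : ℕ} (hn : 1 ≤ n) {B : ℝ} (hB : EE μ s n ≤ B) :
    ∃ m, 1 ≤ m ∧ m ≤ n ∧ ∃ y : ℤ, y ∈ CI μ s m B ∧ y + ln μ s n B ∈ CI μ s m B :=
  Nat.sSup_mem (s := {k : ℕ | ∃ m, 1 ≤ m ∧ m ≤ n ∧ ∃ y : ℤ, y ∈ CI μ s m B ∧ y + k ∈ CI μ s m B})
    ⟨0, n, hn, le_rfl, xs μ s n, xs_CI' hμ le_rfl hB, by simpa using xs_CI' hμ le_rfl hB⟩ (ln_bdd n B)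

theorem ln_mono (hμ : EM μ) {m n : ℕ} (hm : 1 ≤ m) (hmn : m ≤ n) {B B' : ℝ} (hB : EE μ s m ≤ B) (hB' : B ≤ B') :
    ln μ s m B ≤ ln μ s n B' := by
  obtain ⟨k, hk, hkm, y, h1, h2⟩ := ln_mem hμ hm hB
  have h3 := le_ln (n := n) (hkm.trans hmn) (CI_mono hB' h1) (CI_mono hB' h2)
  rw [add_sub_cancel_left] at h3
  exact_mod_cast h3

/-- The linear bound of the mean costs, uniform for `|s| ≤ H`. -/
theorem e_lin61 (hμ : EM μ) (hnd : Nondeg μ) (H : ℝ) : ∃ C : ℝ, 0 ≤ C ∧ ∀ s : ℝ, |s| ≤ H → ∀ (n : ℕ) (y : ℤ), 0 ≤ y → y ≤ n →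
    e μ s n y ≤ C * n := by
  obtain ⟨C, hC, h1⟩ := e_le_linear hμ (μ := μ) 0
  refine ⟨C + 2 * |H|, by positivity, fun s hs n y h0 hy => ?_⟩
  have h2 := h1 n y h0 hy
  have e1 : e μ s n y = e μ 0 n y + n * (lam μ s - lam μ 0) - s * y := by
    rw [e_eq hμ s h0 hy, e_eq hμ 0 h0 hy]
    ring
  have h3 : lam μ s - lam μ 0 ≤ |H| := by
    have h4 := lam_tangent hμ hnd s 0
    have h5 := sl_mem hμ hnd s
    have h6 := hs.trans (le_abs_self H)
    have h7 : sl μ s * s ≤ |H| := by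
      have h8 := abs_nonneg s
      calc sl μ s * s ≤ sl μ s * |s| := mul_le_mul_of_nonneg_left (le_abs_self s) h5.1.le
        _ ≤ 1 * |s| := mul_le_mul_of_nonneg_right h5.2.le h8
        _ ≤ |H| := by linarith
    linarith
  have hn0 : (0 : ℝ) ≤ n := Nat.cast_nonneg n
  have h4 : n * (lam μ s - lam μ 0) ≤ n * |H| := mul_le_mul_of_nonneg_left h3 hn0
  have h5 : -s * (y : ℝ) ≤ |H| * n := by
    have hy0 : (0 : ℝ) ≤ y := by exact_mod_cast h0
    have hy1 : (y : ℝ) ≤ n := by exact_mod_cast hy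
    have h6 : -s ≤ |H| := (neg_le_abs s).trans (hs.trans (le_abs_self H))
    calc -s * (y : ℝ) ≤ |H| * y := mul_le_mul_of_nonneg_right h6 hy0
      _ ≤ |H| * n := mul_le_mul_of_nonneg_left hy1 (abs_nonneg H)
  rw [e1]
  nlinarith

/-- A lateral step towards the centre costs at most a constant: the cheap interval of the level `EE + C` is longer than `1`. -/
theorem one_le_ln (hμ : EM μ) (hnd : Nondeg μ) (H : ℝ) : ∃ C : ℝ, 0 ≤ C ∧ ∀ s : ℝ, |s| ≤ H → ∀ n : ℕ, 1 ≤ n → ∀ B : ℝ,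
    EE μ s n + C ≤ B → 1 ≤ ln μ s n B := by
  obtain ⟨C, hC, hl⟩ := e_lin61 hμ hnd H
  refine ⟨2 * C, by positivity, fun s hs n hn B hB => ?_⟩
  have hn0 : (1 : ℝ) ≤ n := by exact_mod_cast hn
  have h1 := xs_CI (s := s) hμ (le_refl n) (le_refl (EE μ s n))
  have h2 := h1.2.2
  obtain ⟨x, hx⟩ : ∃ x, x = xs μ s n := ⟨_, rfl⟩
  rw [← hx] at h1 h2
  have hx0 := h1.1
  have hx1 := h1.2.1
  have hn1 : (1 : ℤ) ≤ n := by exact_mod_cast hn
  have hex := e_nonneg hμ s hx0 hx1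
  have hxB : x ∈ CI μ s n B := CI_mono (by linarith) h1
  rcases le_total (2 * x) n with h | h
  · have h3 := e_chord61 (s := s) hμ (y0 := x) (y := x + 1) (y1 := n) hx0 (by omega) (by omega) le_rfl
    have h4 := hl s hs n n (by omega) le_rfl
    have h' : 2 * (x : ℝ) ≤ n := by exact_mod_cast h
    push_cast at h3
    have h5 : e μ s n (x + 1) ≤ e μ s n x + 2 * C := by
      have h6 : (0 : ℝ) < (n : ℝ) - x := by linarith
      refine le_of_mul_le_mul_left ?_ h6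
      nlinarith
    have h6 : x + 1 ∈ CI μ s n B := CI_mk (by omega) (by omega) (by linarith)
    have := le_ln (le_refl n) hxB h6
    rw [add_sub_cancel_left] at this
    exact_mod_cast this
  · have h3 := e_chord61 (s := s) hμ (y0 := 0) (y := x - 1) (y1 := x) le_rfl (by omega) (by omega) hx1
    have h4 := hl s hs n 0 le_rfl (by omega)
    have h' : (n : ℝ) ≤ 2 * (x : ℝ) := by exact_mod_cast h
    push_cast at h3
    have h5 : e μ s n (x - 1) ≤ e μ s n x + 2 * C := by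
      have h6 : (0 : ℝ) < (x : ℝ) := by linarith
      refine le_of_mul_le_mul_left ?_ h6
      nlinarith
    have h6 : x - 1 ∈ CI μ s n B := CI_mk (by omega) (by omega) (by linarith)
    have := le_ln (le_refl n) h6 hxB
    rw [sub_sub_cancel] at this
    exact_mod_cast this

/-- The cheapest displacements are close to a line. -/
theorem xs_line (hμ : EM μ) {n : ℕ} (hn : 1 ≤ n) {E : ℝ} (hE : EE μ s n ≤ E) (t : ℕ) (ht : t ≤ n) :
    |(xs μ s t : ℝ) - (xs μ s n : ℝ) / n * t| ≤ 3 * ln μ s n (2 * E) := by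
  rcases Nat.eq_zero_or_pos t with h0 | h0
  · subst h0
    rw [xs_zero]
    simp
  have hE0 : 0 < E := (EE_pos n).trans_le hE
  refine hyers61 (x := fun t => (xs μ s t : ℝ)) hn (Nat.cast_nonneg _) ?_ t h0 ht
  intro k t hk ht hst
  have h1 := CI_add hμ (xs_CI' hμ (show k ≤ n by omega) hE) (xs_CI' hμ (show t ≤ n by omega) hE)
  rw [← two_mul] at h1
  have h2 : xs μ s (k + t) ∈ CI μ s (k + t) (2 * E) := CI_mono (by linarith) (xs_CI' hμ hst hE)
  have h3 := abs_le_ln hst h1 h2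
  have e1 : (xs μ s (k + t) : ℝ) - xs μ s k - xs μ s t = xs μ s (k + t) - ((xs μ s k + xs μ s t : ℤ) : ℝ) := by
    push_cast
    ring
  rw [e1]
  exact h3

/-- The far cheap interval is long. -/
theorem far_long (hμ : EM μ) {n : ℕ} (hn : 1 ≤ n) {E : ℝ} (hE : EE μ s (12 * n) ≤ E) :
    ∃ lo hi : ℤ, lo ∈ CI μ s (12 * n) (25 * E) ∧ hi ∈ CI μ s (12 * n) (25 * E) ∧ hi = lo + 12 * ln μ s n (2 * E) := by
  have hE1 : EE μ s n ≤ E := (EE_mono (by omega)).trans hE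
  have hE0 : 0 < E := (EE_pos n).trans_le hE1
  obtain ⟨m, hm, hmn, y, h1, h2⟩ := ln_mem hμ hn (B := 2 * E) (by linarith)
  have h3 := CI_mul hμ h1 12
  have h4 := CI_mul hμ h2 12
  have h5 := xs_CI' hμ (show 12 * n - 12 * m ≤ 12 * n by omega) hE
  have e1 : 12 * m + (12 * n - 12 * m) = 12 * n := by omega
  have h6 := CI_add hμ h3 h5
  have h7 := CI_add hμ h4 h5
  have e2 : ((12 : ℕ) : ℝ) * (2 * E) + E = 25 * E := by push_cast; ring
  rw [e1, e2] at h6 h7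
  refine ⟨_, _, h6, h7, ?_⟩
  push_cast
  ring

/-- **(TRAV*)** One fixed far point serves all the levels of the slab along a line. -/
theorem trav_star (hμ : EM μ) {n : ℕ} (hn : 1 ≤ n) {E : ℝ} (hE : EE μ s (12 * n) ≤ E) :
    ∃ r Y : ℝ, r = (xs μ s n : ℝ) / n ∧ (∀ t : ℕ, t ≤ n → |(xs μ s t : ℝ) - r * t| ≤ 3 * ln μ s n (2 * E)) ∧
      ∀ t : ℕ, t ≤ n → ∀ z : ℤ, |(z : ℝ) - (Y + r * t)| ≤ 3 * ln μ s n (2 * E) → z ∈ CI μ s (12 * n + t) (26 * E) := by
  have hE1 : EE μ s n ≤ E := (EE_mono (by omega)).trans hE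
  obtain ⟨lo, hi, h1, h2, h3⟩ := far_long hμ hn hE
  refine ⟨(xs μ s n : ℝ) / n, ((lo : ℝ) + hi) / 2, rfl, fun t ht => xs_line hμ hn hE1 t ht, fun t ht z hz => ?_⟩
  have h4 := xs_line hμ hn hE1 t ht
  have h5 := xs_CI' hμ ht hE1
  have h6 : z - xs μ s t ∈ CI μ s (12 * n) (25 * E) := by
    have h7 : (hi : ℝ) = lo + 12 * ln μ s n (2 * E) := by rw [h3]; push_cast; ring
    rw [abs_le] at h4 hz
    refine CI_conv hμ h1 h2 ?_ ?_
    · have : (lo : ℝ) ≤ ((z - xs μ s t : ℤ) : ℝ) := by push_cast; linarith [h4.1, h4.2, hz.1, hz.2]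
      exact_mod_cast this
    · have : ((z - xs μ s t : ℤ) : ℝ) ≤ hi := by push_cast; linarith [h4.1, h4.2, hz.1, hz.2]
      exact_mod_cast this
  have h8 := CI_add hμ h6 h5
  rw [sub_add_cancel] at h8
  have e1 : 25 * E + E = 26 * E := by ring
  rwa [e1] at h8

end

end Pool.Agent.W_7d29a1_H
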