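import Pool.Agent.W_7d29a1_H.PredH
import Pool.Agent.W_1b8d5d_p.Wd99

/-!
MP_7d29a1_pr, TRACK H, H8: the halving of the caps from the closing of the cone at all scales (port of helper66's `DubD66`).
-/

set_option autoImplicit false

namespace Pool.Agent.W_7d29a1_H

open MeasureTheory ProbabilityTheory Filter Topology Set
open Pool.Agent.W_7d29a1_F Pool.Agent.W_7d29a1_h4g
open Pool.Agent.W_1b8d5d_p (wR wL wd Rf)

variable {μ : Measure ℝ} {A : Set ℝ}

/-- The length of a level set. -/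
theorem wd_eq92 {J : ℝ → ℝ} (h : Rf J) {t : ℝ} (ht : 0 ≤ t) : wd J t = wR J t + wL J t := by
  have h1 : {x | J x ≤ t} = Icc (-wL J t) (wR J t) := by
    ext x
    rw [mem_Icc]
    exact h.level_iff ht
  have h2 := h.wR_nonneg ht
  have h3 := h.wL_nonneg ht
  unfold wd
  rw [h1, Real.volume_real_Icc_of_le (by linarith)]
  ring

theorem wd_mono92 {J : ℝ → ℝ} (h : Rf J) {s t : ℝ} (hs : 0 ≤ s) (hst : s ≤ t) : wd J s ≤ wd J t := by
  rw [wd_eq92 h hs, wd_eq92 h (hs.trans hst)]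
  exact add_le_add (h.wR_mono hs hst) (h.wL_mono hs hst)

/-- **THE HALVING OF THE CAPS.** -/
theorem halving92 [IsProbabilityMeasure μ] {a : ℝ} (hrf' : ∀ s ∈ A, Rf (J μ s)) (hR : Rate μ A) (ha : 0 < a)
    (hvA : ∀ s ∈ A, ∀ n : ℕ, 1 ≤ n → 0 < vA a μ s n) {δ : ℝ} {L x₁ : ℕ} (hδ : 0 < δ)
    (hff : ∀ q ∈ A, ∀ x, x₁ ≤ x → ff a μ q x + δ ≤ ff a μ q (x + L)) :
    HalvH μ A := by
  obtain ⟨k, hk⟩ : ∃ k : ℕ, 1 ≤ δ * k := by
    obtain ⟨k, hk⟩ := exists_nat_ge (1 / δ)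
    exact ⟨k, by rwa [div_le_iff₀ hδ, mul_comm] at hk⟩
  refine ⟨1 / 2 ^ (k * L + 1), a / 2 ^ x₁, by positivity, ?_, by positivity, fun q hd t ht htt => ?_⟩
  · rw [div_le_one (by positivity)]
    exact one_le_pow₀ one_le_two
  have hrf := hrf' q hd
  -- the levels
  obtain ⟨s, hs⟩ : ∃ s : ℕ → ℝ, s = fun x => a * EE μ q (2 ^ x) / ((2 ^ x : ℕ) : ℝ) := ⟨_, rfl⟩
  have hs' : ∀ x, s x = a * EE μ q (2 ^ x) / 2 ^ x := by
    intro x
    rw [hs]
    push_cast
    rfl
  have hs0 : ∀ x, 0 < s x := fun x => by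
    have := EE_pos (μ := μ) (s := q) (2 ^ x)
    rw [hs']
    positivity
  have hsv : ∀ x, vA a μ q (2 ^ x) = wd (J μ q) (s x) := fun x => by
    have h0 : 0 ≤ a * EE μ q (2 ^ x) / ((2 ^ x : ℕ) : ℝ) := by
      have := EE_pos (μ := μ) (s := q) (2 ^ x)
      positivity
    rw [hs]
    exact (wd_eq92 hrf h0).symm
  have hslow : ∀ x j, s x ≤ 2 ^ j * s (x + j) := by
    intro x j
    have h1 : EE μ q (2 ^ x) ≤ EE μ q (2 ^ (x + j)) := EE_mono (Nat.pow_le_pow_right (by norm_num) (by omega))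
    rw [hs', hs']
    have e : (2 : ℝ) ^ j * (a * EE μ q (2 ^ (x + j)) / 2 ^ (x + j)) = a * EE μ q (2 ^ (x + j)) / 2 ^ x := by
      have e2 : (2 : ℝ) ^ (x + j) = 2 ^ x * 2 ^ j := pow_add _ _ _
      rw [e2]
      field_simp
    rw [e]
    exact div_le_div_of_nonneg_right (mul_le_mul_of_nonneg_left h1 ha.le) (by positivity)
  -- iteration
  have hit : ∀ j x, x₁ ≤ x → ff a μ q x + δ * j ≤ ff a μ q (x + j * L) := by
    intro j
    induction j with
    | zero => intro x _; simp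
    | succ j ih =>
      intro x hx
      have h1 := ih x hx
      have h2 := hff q hd (x + j * L) (by omega)
      have h3 : x + j * L + L = x + (j + 1) * L := by ring
      rw [h3] at h2
      push_cast
      linarith
  -- the scale of the level `t`
  have hex : ∃ x, x₁ ≤ x ∧ s x < t := by
    obtain ⟨n0, hn0⟩ := hR (t / (2 * a)) (by positivity)
    refine ⟨max x₁ n0, le_max_left _ _, ?_⟩
    have h1 : n0 ≤ 2 ^ (max x₁ n0) := (Nat.lt_two_pow_self).le.trans (Nat.pow_le_pow_right (by norm_num) (le_max_right _ _))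
    have h2 := hn0 q hd _ h1
    push_cast at h2
    rw [hs', div_lt_iff₀ (by positivity)]
    calc a * EE μ q (2 ^ max x₁ n0) ≤ a * (t / (2 * a) * 2 ^ max x₁ n0) := mul_le_mul_of_nonneg_left h2 ha.le
      _ = t * 2 ^ max x₁ n0 / 2 := by
        field_simp
      _ < t * 2 ^ max x₁ n0 := by
        have : 0 < t * 2 ^ max x₁ n0 := by positivity
        linarith
  classical
  obtain ⟨x, hx, hmin⟩ : ∃ x, (x₁ ≤ x ∧ s x < t) ∧ ∀ y, y < x → ¬ (x₁ ≤ y ∧ s y < t) :=
    ⟨Nat.find hex, Nat.find_spec hex, fun y hy => Nat.find_min hex hy⟩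
  have hx1 : x₁ < x := by
    rcases hx.1.lt_or_eq with h | h
    · exact h
    · exfalso
      have h1 := hx.2
      rw [← h] at h1
      have h2 : a / 2 ^ x₁ ≤ s x₁ := by
        rw [hs']
        exact div_le_div_of_nonneg_right (le_mul_of_one_le_right ha.le (one_le_EE _)) (by positivity)
      linarith
  obtain ⟨y, rfl⟩ : ∃ y, x = y + 1 := ⟨x - 1, by omega⟩
  have hy : t ≤ s y := by
    have h1 := hmin y (by omega)
    rw [not_and, not_lt] at h1
    exact h1 (by omega)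
  -- the level `θ t`
  have h1 : 1 / 2 ^ (k * L + 1) * t ≤ s (y + 1 + k * L) := by
    have h2 := hslow y (k * L + 1)
    have e : y + (k * L + 1) = y + 1 + k * L := by ring
    rw [e] at h2
    rw [one_div, inv_mul_le_iff₀ (by positivity)]
    exact hy.trans h2
  have h2 : wd (J μ q) (1 / 2 ^ (k * L + 1) * t) ≤ vA a μ q (2 ^ (y + 1 + k * L)) := by
    rw [hsv]
    exact wd_mono92 hrf (by positivity) h1
  have h3 : vA a μ q (2 ^ (y + 1)) ≤ wd (J μ q) t := by
    rw [hsv]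
    exact wd_mono92 hrf (hs0 _).le hx.2.le
  have h4 := hit k (y + 1) hx1.le
  have hv1 := hvA q hd (2 ^ (y + 1)) Nat.one_le_two_pow
  have hv2 := hvA q hd (2 ^ (y + 1 + k * L)) Nat.one_le_two_pow
  have h5 : vA a μ q (2 ^ (y + 1 + k * L)) ≤ vA a μ q (2 ^ (y + 1)) / 2 := by
    unfold ff at h4
    have h6 : Real.logb 2 (vA a μ q (2 ^ (y + 1 + k * L))) + 1 ≤ Real.logb 2 (vA a μ q (2 ^ (y + 1))) := by linarith
    have h7 : Real.logb 2 (vA a μ q (2 ^ (y + 1 + k * L)) * 2) ≤ Real.logb 2 (vA a μ q (2 ^ (y + 1))) := by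
      rw [Real.logb_mul hv2.ne' two_ne_zero, Real.logb_self_eq_one one_lt_two]
      exact h6
    have h8 := (Real.logb_le_logb one_lt_two (by positivity) hv1).1 h7
    linarith
  linarith

end Pool.Agent.W_7d29a1_H
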