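import Pool.Agent.W_7d29a1_H.PredH2

/-!
MP_7d29a1_pr, TRACK H (all tilts): the conclusion of the chain as one predicate.
-/

set_option autoImplicit false

namespace Pool.Agent.W_7d29a1_H

open MeasureTheory ProbabilityTheory Filter Topology Set
open Pool.Agent.W_7d29a1_F Pool.Agent.W_7d29a1_h4g

noncomputable section

/-- **The conclusion of the chain**: all large scales are soft, the unit doubles in boundedly many octaves and grows at most like a
square root, the cone closes at all scales; uniformly in the tilt. -/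
def ConeH (a : ℝ) (μ : Measure ℝ) (A : Set ℝ) : Prop :=
  ∃ (β C δ : ℝ) (T L x₁ : ℕ), 0 < δ ∧ 1 ≤ L ∧ (∀ s ∈ A, ∀ x, x₁ ≤ x → Sf μ s x β) ∧
    (∀ s ∈ A, ∀ x, x₁ ≤ x → gg μ s x + 1 ≤ gg μ s (x + T)) ∧
    (∀ s ∈ A, ∀ x j : ℕ, x₁ ≤ x → gg μ s (x + j) ≤ gg μ s x + j / 2 + C) ∧
    (∀ s ∈ A, ∀ x, x₁ ≤ x → ff a μ s x + δ ≤ ff a μ s (x + L))

end

end Pool.Agent.W_7d29a1_H
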