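import Pool.Agent.W_7d29a1_H.ChainH
import Pool.Agent.W_7d29a1_H.PredH3
import Pool.Agent.W_7d29a1_H.ChainD92
import Pool.Agent.W_7d29a1_H.HalvH92

/-!
MP_7d29a1_pr, TRACK H (all tilts), H8: the chain with the conclusion at all scales, uniformly in the tilt: every scale is soft, the
unit grows, (SUB) with the exponent `1 / 2`, the cone closes; the halving of the caps.
-/

set_option autoImplicit false

namespace Pool.Agent.W_7d29a1_H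

open MeasureTheory ProbabilityTheory Filter Topology Set
open Pool.Agent.W_7d29a1_F Pool.Agent.W_7d29a1_h4g
open Pool.Agent.W_1b8d5d_p (Rf)

/-- (SUB) with the exponent `1 / 2`, from one soft scale on. -/
def SubH (μ : Measure ℝ) (A : Set ℝ) : Prop :=
  ∀ a₁ : ℝ, ∃ (C : ℝ) (x₀ : ℕ), ∀ s ∈ A, ∀ x j : ℕ, x₀ ≤ x → Sf μ s (x + j) a₁ → gg μ s (x + j) ≤ gg μ s x + (j : ℝ) / 2 + C

variable {μ : Measure ℝ} {A : Set ℝ} {a : ℝ}

/-- **The chain at all scales.** -/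
theorem coneH_of (hI : ChIn a μ A) (hS : HSH a μ A) (hB0 : HB0H a μ A) (hB : HBH a μ A) (hF2 : HF2H a μ A)
    (hSub : SubH μ A) : ConeH a μ A := by
  obtain ⟨C₀, α₀, hB0⟩ := hB0
  obtain ⟨α₁, hB⟩ := hB
  obtain ⟨G₀, hG₀⟩ := hI.gzero
  obtain ⟨F₀, hF₀⟩ := hI.fzero
  have key := chainD92 (ι := A) (g := fun s x => gg μ s.1 x) (f := fun s x => ff a μ s.1 x) (S := fun s x α => Sf μ s.1 x α)
    (α₀ := max α₀ α₁) (C₀ := C₀) (D := 1) (Cg := 0) (G₀ := G₀) (F₀ := F₀)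
    (fun s x α β hαβ hs => hI.smono _ _ _ _ hαβ hs) le_rfl
    (fun s y x hyx => by simpa using hI.gmono s.1 y x hyx) (fun s x => hI.gsucc s.1 x) (fun s => hI.fmono s.1 s.2)
    (fun s => hG₀ s.1 s.2) (fun s => hF₀ s.1 s.2)
    (fun M => by
      obtain ⟨x₁, h⟩ := hI.flarge M
      exact ⟨x₁, fun s x hx => h s.1 s.2 x hx⟩)
    hS
    (fun s x => hI.smono _ _ _ _ (max_le_max_left _ (le_max_left _ _)) (hB0 s.1 s.2 x))
    (fun a₁ => by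
      obtain ⟨C, h⟩ := hB a₁
      refine ⟨C, fun T => ?_⟩
      obtain ⟨y₀, h1⟩ := h T
      exact ⟨y₀, fun s y x h2 h3 h4 h5 =>
        hI.smono _ _ _ _ (max_le_max_left _ (le_max_right _ _)) (h1 s.1 s.2 y x h2 h3 h4 h5)⟩)
    (fun a₁ => by
      obtain ⟨T, x₀, h⟩ := hI.grow a₁
      exact ⟨T, x₀, fun s x hx hs => h s.1 s.2 x hx hs⟩)
    (fun a₁ => by
      obtain ⟨C, h⟩ := hI.hV a₁
      exact ⟨C, fun s x hs => h s.1 s.2 x hs⟩)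
    (fun a₁ => by
      obtain ⟨C, x₀, h⟩ := hSub a₁
      exact ⟨C, x₀, fun s x j hx hs => h s.1 s.2 x j hx hs⟩)
    (fun T x₀ b h1 h2 h3 => by
      obtain ⟨L, x₁, δ, hδ, h⟩ := hF2 T x₀ b (fun s hs => h1 ⟨s, hs⟩) (fun s hs => h2 ⟨s, hs⟩) (fun s hs => h3 ⟨s, hs⟩)
      exact ⟨L, x₁, δ, hδ, fun s => h s.1 s.2⟩)
  obtain ⟨β, C, δ, T, L, x₁, h0, h1, h2, h3, h4, h5⟩ := key
  exact ⟨β, C, δ, T, L, x₁, h0, h1, fun s hs => h2 ⟨s, hs⟩, fun s hs => h3 ⟨s, hs⟩, fun s hs => h4 ⟨s, hs⟩,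
    fun s hs => h5 ⟨s, hs⟩⟩

/-- **The halving of the caps** from the closing of the cone. -/
theorem halvH_of [IsProbabilityMeasure μ] (hrf : ∀ s ∈ A, Rf (J μ s)) (hR : Rate μ A) (ha : 0 < a)
    (hvA : ∀ s ∈ A, ∀ n : ℕ, 1 ≤ n → 0 < vA a μ s n) (h : ConeH a μ A) : HalvH μ A := by
  obtain ⟨β, C, δ, T, L, x₁, h0, -, -, -, -, h5⟩ := h
  exact halving92 hrf hR ha hvA h0 h5

end Pool.Agent.W_7d29a1_H
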