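import Pool.Agent.W_7d29a1_H.BDef48
import Pool.Agent.W_7d29a1_H.LamH
import Pool.Agent.W_7d29a1_H.UnitH
import Pool.Agent.W_7d29a1_g.Confine
import Pool.Agent.W_7d29a1_h68.Sites

/-!
MP_7d29a1_pr, TRACK H (all tilts): confinement of the point to point polymer at one time, uniformly in the tilt, from the exact
confinement inequalities (`g/Confine`), (MC) and the convexity of `J` only (models `h71g/Conf`, `h71g/ConfPin`). (helper71)
-/

set_option autoImplicit false

namespace Pool.Agent.W_7d29a1_H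

open MeasureTheory ProbabilityTheory Filter Topology Set
open Pool.Agent.W_7d29a1_F Pool.Agent.W_7d29a1_h4g
open Pool.Agent.W_7d29a1_g (Gt conf_prob conf_right conf_left Gt_pos_or poly_Gt wt wt_univ)
open Pool.Agent.W_7d29a1_h47 (EM Nondeg)
open Pool.Agent.W_7d29a1_h48 (pin)

noncomputable section

variable {μ : Measure ℝ} [IsProbabilityMeasure μ] {s : ℝ}

/-! ### The mean cost and the rate function -/

omit [IsProbabilityMeasure μ] in
/-- The change of the tilt. -/
theorem W_tilt71 (s h : ℝ) (η : Env) (a : Pt) (n : ℕ) (y : ℤ) :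
    W μ s η a n y = W μ (s + h) η a n y * Real.exp (n * (lam μ (s + h) - lam μ s) - h * y) := by
  unfold W WR
  rw [mul_right_comm, ← Real.exp_add]
  congr 2
  ring

theorem e_tilt71 (hμ : EM μ) (s h : ℝ) {n : ℕ} {y : ℤ} (h0 : 0 ≤ y) (h1 : y ≤ n) :
    e μ s n y = e μ (s + h) n y + (h * y - n * (lam μ (s + h) - lam μ s)) := by
  have hi := (Sub_X (μ := μ) (s := s + h) 0 h0 h1).integrable hμ
  have h2 : ∀ η : Env, X μ s η 0 n y = X μ (s + h) η 0 n y + (h * y - n * (lam μ (s + h) - lam μ s)) := by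
    intro η
    unfold X
    rw [W_tilt71 s h, Real.log_mul (W_pos (μ := μ) (s := s + h) η 0 h0 h1).ne' (Real.exp_pos _).ne', Real.log_exp]
    ring
  unfold e
  simp only [h2]
  rw [integral_add hi (integrable_const _), integral_const]
  simp

/-- The mean cost is at least the rate. -/
theorem e_ge71 (hμ : EM μ) (s : ℝ) {n : ℕ} (hn : 1 ≤ n) {y : ℤ} (h0 : 0 ≤ y) (h1 : y ≤ n) :
    n * J μ s ((y : ℝ) / n - sl μ s) ≤ e μ s n y := by
  have hn0 : (0 : ℝ) < n := by exact_mod_cast hn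
  have h2 : J μ s ((y : ℝ) / n - sl μ s) ≤ e μ s n y / n := by
    refine J_le fun r _ => ?_
    rw [le_div_iff₀ hn0]
    have h3 := e_tilt71 hμ s r h0 h1
    have h4 := e_nonneg hμ (s + r) h0 h1
    have h5 : (r * ((y : ℝ) / n - sl μ s) - ex μ s r) * n = r * y - n * (lam μ (s + r) - lam μ s) := by
      unfold ex
      field_simp
      ring
    linarith
  rw [le_div_iff₀ hn0] at h2
  linarith

/-- The mean positive part is at most the mean plus the unit. -/
theorem ep_le71 (hμ : EM μ) (s : ℝ) {n : ℕ} {y : ℤ} (h0 : 0 ≤ y) (h1 : y ≤ n) : ep μ s n y ≤ e μ s n y + es μ s n := by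
  have hz := zs_mem (μ := μ) (s := s) n
  have iX : ∀ {y : ℤ}, 0 ≤ y → y ≤ n → Integrable (fun η => X μ s η 0 n y) (law μ) := fun h0 h1 =>
    (Sub_X (μ := μ) (s := s) 0 h0 h1).integrable hμ
  have iXp : ∀ {y : ℤ}, 0 ≤ y → y ≤ n → Integrable (fun η => max (X μ s η 0 n y) 0) (law μ) := fun h0 h1 =>
    (iX h0 h1).pos_part
  have hV : Integrable (fun η => V μ s η 0 n) (law μ) := (Sub_V 0 n).integrable hμ
  have hpt : ∀ η : Env, max (X μ s η 0 n y) 0 ≤ X μ s η 0 n y + V μ s η 0 n + max (X μ s η 0 n (zs μ s n)) 0 := by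
    intro η
    have h2 := neg_X_le_V (μ := μ) (s := s) η 0 h0 h1
    have h3 := neg_X_le_V (μ := μ) (s := s) η 0 hz.1 hz.2
    have h4 := le_max_left (X μ s η 0 n (zs μ s n)) 0
    have h5 := le_max_right (X μ s η 0 n (zs μ s n)) 0
    refine max_le ?_ ?_ <;> linarith
  have h5 := integral_mono (μ := law μ) (iXp h0 h1) (((iX h0 h1).add hV).add (iXp hz.1 hz.2)) fun η => hpt η
  have h6 : ∫ η, (X μ s η 0 n y + V μ s η 0 n + max (X μ s η 0 n (zs μ s n)) 0) ∂(law μ) =
      e μ s n y + (∫ η, V μ s η 0 n ∂(law μ)) + es μ s n := by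
    have h7 : Integrable (fun η => X μ s η 0 n y + V μ s η 0 n) (law μ) := (iX h0 h1).add hV
    rw [integral_add h7 (iXp hz.1 hz.2), integral_add (iX h0 h1) hV]
    exact congrArg₂ (· + ·) rfl (ep_zs n)
  have h7 := integral_V_nonpos hμ s n
  have h8 : ep μ s n y ≤ e μ s n y + (∫ η, V μ s η 0 n ∂(law μ)) + es μ s n := h5.trans h6.le
  linarith

/-! ### The width -/

section width

variable {H δ a : ℝ} {A : Set ℝ}

private theorem lvl_pos (ha : 0 < a) {n : ℕ} (hn : 1 ≤ n) : 0 < a * EE μ s n / n := by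
  have h1 := EE_pos (μ := μ) (s := s) n
  have hn0 : (0 : ℝ) < n := by exact_mod_cast hn
  positivity

theorem vr_pos71 (hD : Dirs μ H δ A) (hs : s ∈ A) (ha : 0 < a) {n : ℕ} (hn : 1 ≤ n) : 0 < vr a μ s n := by
  have hR := hD.rf hs
  have hB := lvl_pos (μ := μ) (s := s) ha hn
  have h1 : J μ s (vr a μ s n) = a * EE μ s n / n := hR.J_wR hB.le
  refine lt_of_le_of_ne (hR.wR_nonneg hB.le) fun h => ?_
  rw [← h, hR.zero] at h1
  linarith

theorem vl_nonneg71 (hD : Dirs μ H δ A) (hs : s ∈ A) (ha : 0 < a) (n : ℕ) : 0 ≤ vl a μ s n := by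
  have hE := EE_pos (μ := μ) (s := s) n
  exact (hD.rf hs).neg.wR_nonneg (by positivity)

theorem vA_pos71 (hD : Dirs μ H δ A) (hs : s ∈ A) (ha : 0 < a) {n : ℕ} (hn : 1 ≤ n) : 0 < vA a μ s n := by
  have h1 := vr_pos71 hD hs ha hn
  have h2 := vl_nonneg71 (μ := μ) hD hs ha n
  unfold vA
  linarith

theorem wH_pos71 (hD : Dirs μ H δ A) (hs : s ∈ A) (ha : 0 < a) {n : ℕ} (hn : 1 ≤ n) : 0 < wH a μ s n := by
  have h1 := vA_pos71 hD hs ha hn
  have hn0 : (0 : ℝ) < n := by exact_mod_cast hn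
  unfold wH
  positivity

/-- The width is at least the unit. -/
theorem EE_le_wH71 (hD : Dirs μ H δ A) (hs : s ∈ A) (ha : 0 < a) {n : ℕ} (hn : 1 ≤ n) : a * EE μ s n ≤ wH a μ s n := by
  have hR := hD.rf hs
  have hB := lvl_pos (μ := μ) (s := s) ha hn
  have h1 : J μ s (vr a μ s n) = a * EE μ s n / n := hR.J_wR hB.le
  have h2 := vr_pos71 hD hs ha hn
  have h3 := vl_nonneg71 (μ := μ) hD hs ha n
  have h4 := J_le_abs hD.em hD.nd s (vr a μ s n)
  have hn0 : (0 : ℝ) < n := by exact_mod_cast hn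
  rw [h1, abs_of_pos h2, div_le_iff₀ hn0] at h4
  unfold wH vA
  nlinarith

/-- The rate beyond the width. -/
theorem J_far71 (hD : Dirs μ H δ A) (hs : s ∈ A) (ha : 0 < a) {n : ℕ} (hn : 1 ≤ n) {x : ℝ} (hx : vA a μ s n ≤ x) :
    a * EE μ s n / n * (x / vA a μ s n) ≤ J μ s x := by
  have hR := hD.rf hs
  have hB := lvl_pos (μ := μ) (s := s) ha hn
  have h1 : J μ s (vr a μ s n) = a * EE μ s n / n := hR.J_wR hB.le
  have h2 := vr_pos71 hD hs ha hn
  have h3 := vl_nonneg71 (μ := μ) hD hs ha n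
  have h4 := vA_pos71 hD hs ha hn
  have h5 : vr a μ s n ≤ vA a μ s n := by unfold vA; linarith
  have h6 : 1 ≤ x / vr a μ s n := by rw [one_le_div h2]; linarith
  have h7 := hR.le_mul h6 (vr a μ s n)
  rw [div_mul_cancel₀ _ h2.ne', h1] at h7
  have h8 : x / vA a μ s n ≤ x / vr a μ s n := div_le_div_of_nonneg_left (by linarith) h2 h5
  have h9 := mul_le_mul_of_nonneg_left h8 hB.le
  linarith

theorem vl_pos71 (hD : Dirs μ H δ A) (hs : s ∈ A) (ha : 0 < a) {n : ℕ} (hn : 1 ≤ n) : 0 < vl a μ s n := by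
  have hR := (hD.rf hs).neg
  have hB := lvl_pos (μ := μ) (s := s) ha hn
  have h1 : (fun x => J μ s (-x)) (vl a μ s n) = a * EE μ s n / n := hR.J_wR hB.le
  refine lt_of_le_of_ne (hR.wR_nonneg hB.le) fun h => ?_
  rw [← h] at h1
  have h2 := hR.zero
  simp only at h1 h2
  rw [h2] at h1
  linarith

/-- The rate beyond the width, on the left. -/
theorem J_far_left71 (hD : Dirs μ H δ A) (hs : s ∈ A) (ha : 0 < a) {n : ℕ} (hn : 1 ≤ n) {x : ℝ} (hx : vA a μ s n ≤ x) :
    a * EE μ s n / n * (x / vA a μ s n) ≤ J μ s (-x) := by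
  have hR := (hD.rf hs).neg
  have hB := lvl_pos (μ := μ) (s := s) ha hn
  have h1 : (fun x => J μ s (-x)) (vl a μ s n) = a * EE μ s n / n := hR.J_wR hB.le
  have h2 := vl_pos71 hD hs ha hn
  have h3 := vr_pos71 hD hs ha hn
  have h4 := vA_pos71 hD hs ha hn
  have h5 : vl a μ s n ≤ vA a μ s n := by unfold vA; linarith
  have h6 : 1 ≤ x / vl a μ s n := by rw [one_le_div h2]; linarith
  have h7 := hR.le_mul h6 (vl a μ s n)
  simp only at h1 h7
  rw [div_mul_cancel₀ _ h2.ne', h1] at h7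
  have h8 : x / vA a μ s n ≤ x / vl a μ s n := div_le_div_of_nonneg_left (by linarith) h2 h5
  have h9 := mul_le_mul_of_nonneg_left h8 hB.le
  linarith

/-- The mean cost of a displacement of the time `T ≤ K n` far from the line (both sides). -/
theorem far_cost_abs71 (hD : Dirs μ H δ A) (hs : s ∈ A) (ha : 0 < a) {n : ℕ} (hn : 1 ≤ n) {T K : ℕ} (hT : 1 ≤ T)
    (hTn : T ≤ K * n) {y : ℤ} (h0 : 0 ≤ y) (h1 : y ≤ T) {D : ℝ} (hDK : K * wH a μ s n ≤ D)
    (hy : D ≤ |(y : ℝ) - sl μ s * T|) : a * EE μ s n * (D / wH a μ s n) ≤ e μ s T y := by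
  have hT0 : (0 : ℝ) < T := by exact_mod_cast hT
  have hn0 : (0 : ℝ) < n := by exact_mod_cast hn
  have hTr : (T : ℝ) ≤ K * n := by exact_mod_cast hTn
  have hv := vA_pos71 hD hs ha hn
  have hE := EE_pos (μ := μ) (s := s) n
  obtain ⟨x, hx⟩ : ∃ x : ℝ, x = (y : ℝ) / T - sl μ s := ⟨_, rfl⟩
  have hxT : x * T = (y : ℝ) - sl μ s * T := by
    rw [hx]
    field_simp
  have hxa : |x| * T = |(y : ℝ) - sl μ s * T| := by rw [← hxT, abs_mul, abs_of_pos hT0]
  have hx1 : vA a μ s n ≤ |x| := by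
    rw [← mul_le_mul_iff_left₀ hT0, hxa]
    have h2 : (K : ℝ) * wH a μ s n = (K * n) * vA a μ s n := by unfold wH; ring
    nlinarith
  have h2 : a * EE μ s n / n * (|x| / vA a μ s n) ≤ J μ s x := by
    rcases le_total 0 x with h | h
    · rw [abs_of_nonneg h] at hx1 ⊢
      exact J_far71 hD hs ha hn hx1
    · rw [abs_of_nonpos h] at hx1 ⊢
      have := J_far_left71 hD hs ha hn hx1
      rwa [neg_neg] at this
  have h3 := e_ge71 hD.em s hT h0 h1
  rw [← hx] at h3
  have h4 := mul_le_mul_of_nonneg_left h2 hT0.le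
  have h5 : (T : ℝ) * (a * EE μ s n / n * (|x| / vA a μ s n)) = a * EE μ s n * ((|x| * T) / wH a μ s n) := by
    unfold wH
    field_simp
  have hw := wH_pos71 hD hs ha hn
  have h6 : D / wH a μ s n ≤ (|x| * T) / wH a μ s n := div_le_div_of_nonneg_right (by rw [hxa]; exact hy) hw.le
  have h7 := mul_le_mul_of_nonneg_left h6 (show 0 ≤ a * EE μ s n by positivity)
  linarith

/-- **A displacement of bounded cost is near the line.** -/
theorem near_of_cost71 (hD : Dirs μ H δ A) (hs : s ∈ A) (ha : 0 < a) {n : ℕ} (hn : 1 ≤ n) {T K : ℕ} (hTn : T ≤ K * n)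
    {y : ℤ} (h0 : 0 ≤ y) (h1 : y ≤ T) {C : ℝ} (hC : 0 ≤ C) (hy : e μ s T y ≤ C * EE μ s n) :
    |(y : ℝ) - sl μ s * T| ≤ (K + (C + 1) / a) * wH a μ s n := by
  have hw := wH_pos71 hD hs ha hn
  have hE := EE_pos (μ := μ) (s := s) n
  have hq : 0 < (C + 1) / a := by positivity
  rcases Nat.eq_zero_or_pos T with hT | hT
  · subst hT
    have h2 : y = 0 := by push_cast at h1; omega
    rw [h2]
    simp only [Int.cast_zero, Nat.cast_zero, mul_zero, sub_zero, abs_zero]
    positivity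
  · by_contra hcon
    rw [not_le] at hcon
    have h2 := far_cost_abs71 hD hs ha hn hT hTn h0 h1 (D := (K + (C + 1) / a) * wH a μ s n)
      (mul_le_mul_of_nonneg_right (by linarith) hw.le) hcon.le
    rw [mul_div_assoc, div_self hw.ne', mul_one] at h2
    have h3 : a * EE μ s n * (K + (C + 1) / a) = a * EE μ s n * K + EE μ s n * (C + 1) := by
      field_simp
    have h4 : 0 ≤ a * EE μ s n * K := by positivity
    nlinarith

/-- The widths are thin, uniformly in the tilt. -/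
theorem vA_thin71 (hD : Dirs μ H δ A) (hr : Rate μ A) (ha : 0 < a) {ε : ℝ} (hε : 0 < ε) :
    ∃ n1 : ℕ, ∀ s ∈ A, ∀ n : ℕ, n1 ≤ n → vA a μ s n ≤ ε := by
  obtain ⟨j, hj, hst⟩ := hD.strict (ε / 2) (by positivity)
  obtain ⟨n0, hn0⟩ := hr (j * (ε / 2) / (2 * a)) (by positivity)
  refine ⟨max n0 1, fun s hs n hn => ?_⟩
  have hn1 : 1 ≤ n := (le_max_right _ _).trans hn
  have hnr : (0 : ℝ) < n := by exact_mod_cast hn1
  have h1 := hn0 s hs n ((le_max_left _ _).trans hn)
  have hB : a * EE μ s n / n ≤ j * (ε / 2) / 2 := by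
    rw [div_le_iff₀ hnr]
    calc a * EE μ s n ≤ a * (j * (ε / 2) / (2 * a) * n) := mul_le_mul_of_nonneg_left h1 ha.le
      _ = j * (ε / 2) / 2 * n := by field_simp
  have hjp : 0 < j * (ε / 2) := by positivity
  have hlt : a * EE μ s n / n < j * (ε / 2) := by linarith
  have hR := hD.rf hs
  have h0 := (lvl_pos (μ := μ) (s := s) ha hn1).le
  have hvr : vr a μ s n ≤ ε / 2 := by
    by_contra hcon
    rw [not_le] at hcon
    have h2 : J μ s (vr a μ s n) = a * EE μ s n / n := hR.J_wR h0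
    have h3 := hst s hs (vr a μ s n) (by rw [abs_of_pos (lt_trans (by positivity) hcon)]; exact hcon.le)
    rw [h2, abs_of_pos (lt_trans (by positivity) hcon)] at h3
    nlinarith
  have hvl : vl a μ s n ≤ ε / 2 := by
    by_contra hcon
    rw [not_le] at hcon
    have h2 : (fun x => J μ s (-x)) (vl a μ s n) = a * EE μ s n / n := hR.neg.J_wR h0
    simp only at h2
    have h3 := hst s hs (-vl a μ s n) (by rw [abs_neg, abs_of_pos (lt_trans (by positivity) hcon)]; exact hcon.le)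
    rw [h2, abs_neg, abs_of_pos (lt_trans (by positivity) hcon)] at h3
    nlinarith
  unfold vA
  linarith

/-- The mean cost of a displacement of the time `T ≤ K n` far to the right. -/
theorem far_cost71 (hD : Dirs μ H δ A) (hs : s ∈ A) (ha : 0 < a) {n : ℕ} (hn : 1 ≤ n) {T K : ℕ} (hT : 1 ≤ T)
    (hTn : T ≤ K * n) {y : ℤ} (h0 : 0 ≤ y) (h1 : y ≤ T) {D : ℝ} (hDK : K * wH a μ s n ≤ D)
    (hy : D ≤ (y : ℝ) - sl μ s * T) : a * EE μ s n * (D / wH a μ s n) ≤ e μ s T y := by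
  have hT0 : (0 : ℝ) < T := by exact_mod_cast hT
  have hn0 : (0 : ℝ) < n := by exact_mod_cast hn
  have hTr : (T : ℝ) ≤ K * n := by exact_mod_cast hTn
  have hv := vA_pos71 hD hs ha hn
  have hE := EE_pos (μ := μ) (s := s) n
  set x : ℝ := (y : ℝ) / T - sl μ s with hx
  have hxT : x * T = (y : ℝ) - sl μ s * T := by
    rw [hx]
    field_simp
  have hx1 : vA a μ s n ≤ x := by
    rw [← mul_le_mul_iff_left₀ hT0, hxT]
    have h2 : (K : ℝ) * wH a μ s n = (K * n) * vA a μ s n := by unfold wH; ring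
    nlinarith
  have h2 := J_far71 hD hs ha hn hx1
  have h3 := e_ge71 hD.em s hT h0 h1
  rw [← hx] at h3
  have h4 := mul_le_mul_of_nonneg_left h2 hT0.le
  have h5 : (T : ℝ) * (a * EE μ s n / n * (x / vA a μ s n)) = a * EE μ s n * ((x * T) / wH a μ s n) := by
    unfold wH
    field_simp
  have hw := wH_pos71 hD hs ha hn
  have h6 : D / wH a μ s n ≤ (x * T) / wH a μ s n := div_le_div_of_nonneg_right (by rw [hxT]; exact hy) hw.le
  have h7 := mul_le_mul_of_nonneg_left h6 (show 0 ≤ a * EE μ s n by positivity)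
  linarith

end width

/-! ### Confinement in probability -/

section conf

variable {H δ a : ℝ} {A : Set ℝ}

/-- Confinement at one time in probability: for all `p`, `κ`, `C`, `K` there is `R` such that the paths from `0` to `(N, z)`,
`N ≤ K n`, `|z - sl N| ≤ C w_n`, which are at the time `T` at distance at least `R w_n` on one side of the line weigh at least
`exp (- κ EE n)` with probability less than `p`. -/
theorem far_prob71 (hD : Dirs μ H δ A) (ha : 0 < a) {p κ : ℝ} (hp : 0 < p) (hκ : 0 ≤ κ) {K : ℕ} (hK : 1 ≤ K) {C : ℝ}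
    (hC : 0 ≤ C) : ∃ R : ℝ, 1 ≤ R ∧ ∀ s ∈ A, ∀ n : ℕ, 1 ≤ n → ∀ (T N : ℕ) (z : ℤ) (S : Finset Pt), T ≤ N → N ≤ K * n →
      |(z : ℝ) - sl μ s * N| ≤ C * wH a μ s n → (∀ v ∈ S, v.1 = T) →
      ((∀ v ∈ S, sl μ s * T + R * wH a μ s n ≤ v.2) ∨ (∀ v ∈ S, (v.2 : ℝ) ≤ sl μ s * T - R * wH a μ s n)) →
      (law μ).real {η | Real.exp (-(κ * EE μ s n)) ≤ Gt μ s S (0, 0) ((N : ℤ), z) η} < p := by
  have hμ := hD.em
  have hnd := hD.nd
  obtain ⟨T₀, C₁, hC₁⟩ := conf_prob hμ hnd hp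
  have hK0 : (1 : ℝ) ≤ K := by exact_mod_cast hK
  -- the constants
  obtain ⟨Q, hQ⟩ : ∃ Q : ℝ, Q = 1 + K + 2 * κ + |C₁| + 6 * (2 ^ T₀ * K) + 1 := ⟨_, rfl⟩
  have hQ0 : 0 < Q := by rw [hQ]; positivity
  obtain ⟨R₁, hR₁⟩ : ∃ R₁ : ℝ, R₁ = K + (K + 1) / a := ⟨_, rfl⟩
  have hR₁0 : 0 < R₁ := by rw [hR₁]; positivity
  obtain ⟨R, hR⟩ : ∃ R : ℝ, R = Q / a + R₁ + C + 1 / a + K + 1 := ⟨_, rfl⟩
  have hQa : 0 < Q / a := by positivity
  have h1a : 0 < 1 / a := by positivity
  have hR1 : 1 ≤ R := by rw [hR]; linarith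
  refine ⟨R, hR1, fun s hs n hn T N z S hTN hN hz hS hcase => ?_⟩
  have hE := one_le_EE (μ := μ) (s := s) n
  obtain ⟨E, hEd⟩ : ∃ E, E = EE μ s n := ⟨_, rfl⟩
  obtain ⟨w, hwd⟩ : ∃ w, w = wH a μ s n := ⟨_, rfl⟩
  have hw0 := wH_pos71 hD hs ha hn
  have hwE := EE_le_wH71 hD hs ha hn
  rw [← hEd] at hE hwE
  rw [← hwd] at hw0 hwE
  rw [← hwd] at hz hcase
  rw [← hEd]
  have hE0 : 0 < E := by linarith
  have haw : a ≤ w := by nlinarith
  have h1w : 1 ≤ 1 / a * w := by
    rw [one_div_mul_eq_div, le_div_iff₀ ha]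
    linarith
  -- the reference displacement
  have href : ∀ m : ℕ, m ≤ K * n → e μ s m (zs μ s m) ≤ K * E := by
    intro m hm
    have h1 := e_zs_le hμ s m
    have h2 := le_EE (μ := μ) (s := s) (le_refl m)
    have h3 := EE_le_mul hμ s hK hm
    rw [← hEd] at h3
    linarith
  have hpos : ∀ m : ℕ, m ≤ K * n → (zs μ s m : ℝ) ≤ sl μ s * m + R₁ * w := by
    intro m hm
    by_contra hcon
    rw [not_le] at hcon
    have hz1 := zs_mem (μ := μ) (s := s) m
    have hm1 : 1 ≤ m := by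
      by_contra hm0
      have hm0' : m = 0 := by omega
      rw [hm0'] at hcon
      rw [zs_zero] at hcon
      simp only [Int.cast_zero, Nat.cast_zero, mul_zero, zero_add] at hcon
      have : 0 < R₁ * w := by positivity
      linarith
    have h1 := far_cost71 hD hs ha hn hm1 hm hz1.1 hz1.2 (D := R₁ * w) (by
      rw [← hwd]
      refine mul_le_mul_of_nonneg_right ?_ hw0.le
      rw [hR₁]
      have : 0 < ((K : ℝ) + 1) / a := by positivity
      linarith) (by linarith)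
    rw [← hwd, ← hEd, mul_div_assoc, div_self hw0.ne', mul_one] at h1
    have h2 := href m hm
    have h3 : a * E * R₁ = a * E * K + E * (K + 1) := by
      rw [hR₁]
      field_simp
    have h4 : 0 ≤ a * E * K := by positivity
    nlinarith
  -- the far cost
  have hfar : ∀ (m : ℕ) (y : ℤ), 1 ≤ m → m ≤ K * n → 0 ≤ y → y ≤ m → (R - C) * w - 1 ≤ (y : ℝ) - sl μ s * m →
      max (max (2 * (κ * E)) C₁) (6 * EU μ s (zs μ s) (2 ^ T₀ * N)) < e μ s m y - e μ s m (zs μ s m) := by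
    intro m y hm1 hm2 hy0 hy1 hy
    have h1 := far_cost71 hD hs ha hn hm1 hm2 hy0 hy1 (D := (R - C) * w - 1) (by
      rw [← hwd]
      have h2 : (R - C) * w = (Q / a) * w + R₁ * w + 1 / a * w + K * w + w := by rw [hR]; ring
      have h3 : 0 ≤ Q / a * w := by positivity
      have h4 : 0 ≤ R₁ * w := by positivity
      linarith) hy
    rw [← hwd, ← hEd] at h1
    have h2 := href m hm2
    have h3 : a * E * (((R - C) * w - 1) / w) = a * E * (R - C) - a * E / w := by
      field_simp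
    have h4 : a * E / w ≤ 1 := by
      rw [div_le_one hw0]
      exact hwE
    have h5 : a * E * (R - C) = E * Q + a * E * (R₁ + K + 1) + E := by
      rw [hR]
      field_simp
      ring
    have h6 : EU μ s (zs μ s) (2 ^ T₀ * N) ≤ (2 ^ T₀ * K) * E := by
      have k1 : 2 ^ T₀ * N ≤ (2 ^ T₀ * K) * n := by
        calc 2 ^ T₀ * N ≤ 2 ^ T₀ * (K * n) := Nat.mul_le_mul_left _ hN
          _ = (2 ^ T₀ * K) * n := by ring
      have k2 := EE_le_mul hμ s (k := 2 ^ T₀ * K) (Nat.one_le_iff_ne_zero.2 (by positivity)) k1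
      rw [← hEd] at k2
      push_cast at k2
      exact k2
    have h7 : E * Q = E + E * K + E * (2 * κ) + E * |C₁| + E * (6 * (2 ^ T₀ * K)) + E := by
      rw [hQ]
      ring
    have h8 : |C₁| ≤ E * |C₁| := by nlinarith [abs_nonneg C₁]
    have h9 : 0 ≤ E * (2 * κ) := by positivity
    have h10 : 0 ≤ E * (6 * (2 ^ T₀ * (K : ℝ))) := by positivity
    have h11 : 0 ≤ a * E * (R₁ + K + 1) := by positivity
    have h12 : 0 ≤ E * |C₁| := by positivity
    have key : E * (2 * κ) + E * |C₁| + E * (6 * (2 ^ T₀ * K)) + E ≤ e μ s m y - e μ s m (zs μ s m) := by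
      rw [h3, h5] at h1
      nlinarith
    refine max_lt (max_lt ?_ ?_) ?_
    · linarith
    · have := le_abs_self C₁
      linarith
    · have : 6 * EU μ s (zs μ s) (2 ^ T₀ * N) ≤ E * (6 * (2 ^ T₀ * K)) := by
        have := mul_le_mul_of_nonneg_left h6 (show (0 : ℝ) ≤ 6 by norm_num)
        linarith
      linarith
  rcases Gt_pos_or (μ := μ) (s := s) S (0, 0) ((N : ℤ), z) with hpos' | hzero
  swap
  · have hset : {η | Real.exp (-(κ * E)) ≤ Gt μ s S (0, 0) ((N : ℤ), z) η} = ∅ := by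
      ext η
      simp only [Set.mem_ofPred_eq, Set.mem_empty_iff_false, iff_false, not_le]
      rw [hzero η]
      exact Real.exp_pos _
    rw [hset]
    simpa using hp
  have hzs := fun m : ℕ => zs_mem (μ := μ) (s := s) m
  have hsl := sl_mem hμ hnd s
  rcases hcase with hr | hl
  · -- right
    have hc := hpos T (hTN.trans hN)
    obtain ⟨Y, hY⟩ : ∃ Y : ℤ, Y = ⌊sl μ s * T + R * w⌋ - zs μ s T := ⟨_, rfl⟩
    have hYz : Y + zs μ s T = ⌊sl μ s * T + R * w⌋ := by rw [hY]; ring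
    have hf1 : (⌊sl μ s * T + R * w⌋ : ℝ) ≤ sl μ s * T + R * w := Int.floor_le _
    have hf2 : sl μ s * T + R * w - 1 < (⌊sl μ s * T + R * w⌋ : ℝ) := Int.sub_one_lt_floor _
    have hRw : R * w = Q / a * w + R₁ * w + C * w + 1 / a * w + K * w + w := by rw [hR]; ring
    have hQw : 0 ≤ Q / a * w := by positivity
    have hCw : 0 ≤ C * w := by positivity
    have hKw : 0 ≤ K * w := by positivity
    have hY0 : 0 ≤ Y := by
      have h1 : (0 : ℝ) ≤ (Y : ℝ) := by
        rw [hY]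
        push_cast
        linarith
      exact_mod_cast h1
    have hYc : ∀ v ∈ S, Y + zs μ s T ≤ v.2 := by
      intro v hv
      rw [hYz]
      have h1 := hr v hv
      have h2 : (⌊sl μ s * T + R * w⌋ : ℝ) ≤ (v.2 : ℝ) := hf1.trans h1
      exact_mod_cast h2
    have hcr := conf_right (s := s) hμ hTN (z := z) (hzs T).1 (hzs T).2 hY0 S
      (fun v hv => ⟨hS v hv, hYc v hv⟩) hpos'
    have hyc : (R - C) * w - 1 ≤ ((Y + zs μ s T : ℤ) : ℝ) - sl μ s * T := by
      rw [hYz]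
      linarith
    have hT1 : 1 ≤ T := by
      by_contra hcon
      have hT0 : T = 0 := by omega
      have h1 := hcr.1
      rw [hT0] at h1 hyc
      have h2 : ((Y + zs μ s 0 : ℤ) : ℝ) ≤ ((0 : ℕ) : ℤ) := by exact_mod_cast h1
      simp only [Nat.cast_zero, mul_zero, sub_zero] at hyc
      push_cast at h2 hyc
      have h3 : 0 < R₁ * w := by positivity
      linarith
    refine hC₁ s (zs μ s) hzs T N z Y (zs μ s T) S (κ * E)
      (e μ s T (Y + zs μ s T) - e μ s T (zs μ s T)) hTN (hzs T).1 hS (Or.inl ⟨(hzs T).2, hY0, hYc, rfl⟩)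
      (hfar T (Y + zs μ s T) hT1 (hTN.trans hN) (add_nonneg hY0 (hzs T).1) hcr.1 hyc)
  · -- left
    have hNT : ((N - T : ℕ) : ℝ) = (N : ℝ) - T := by rw [Nat.cast_sub hTN]
    have hc := hpos (N - T) ((Nat.sub_le _ _).trans hN)
    rw [hNT] at hc
    obtain ⟨Y, hY⟩ : ∃ Y : ℤ, Y = ⌈sl μ s * T - R * w⌉ := ⟨_, rfl⟩
    have hY1 : sl μ s * T - R * w ≤ Y := by rw [hY]; exact Int.le_ceil _
    have hY2 : (Y : ℝ) < sl μ s * T - R * w + 1 := by rw [hY]; exact Int.ceil_lt_add_one _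
    have hRw : R * w = Q / a * w + R₁ * w + C * w + 1 / a * w + K * w + w := by rw [hR]; ring
    have hQw : 0 ≤ Q / a * w := by positivity
    have hKw : 0 ≤ K * w := by positivity
    have hR₁w : 0 < R₁ * w := by positivity
    have hz1 := (abs_le.1 hz).1
    have hYc : ∀ v ∈ S, v.2 ≤ Y := by
      intro v hv
      have h2 : (v.2 : ℝ) ≤ (Y : ℝ) := (hl v hv).trans hY1
      exact_mod_cast h2
    have hYz : Y + zs μ s (N - T) ≤ z := by
      have h2 : ((Y + zs μ s (N - T) : ℤ) : ℝ) ≤ (z : ℝ) := by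
        push_cast
        nlinarith
      exact_mod_cast h2
    have hcl := conf_left (s := s) hμ hTN (z := z) (hzs (N - T)).1 (hzs (N - T)).2 hYz S
      (fun v hv => ⟨hS v hv, hYc v hv⟩) hpos'
    have hzY : (R - C) * w - 1 ≤ ((z - Y : ℤ) : ℝ) - sl μ s * ((N - T : ℕ) : ℝ) := by
      push_cast
      rw [hNT]
      nlinarith
    have hzYpos : 0 < (R - C) * w - 1 := by nlinarith
    have hzY0 : 0 ≤ z - Y := by
      have h1 : (0 : ℝ) ≤ ((z - Y : ℤ) : ℝ) := by
        have h2 : (0 : ℝ) ≤ sl μ s * ((N - T : ℕ) : ℝ) := mul_nonneg hsl.1.le (Nat.cast_nonneg _)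
        linarith
      exact_mod_cast h1
    have hT1 : 1 ≤ N - T := by
      by_contra hcon
      have hT0 : N - T = 0 := by omega
      have h1 := hcl.1
      rw [hT0] at h1 hzY
      have h3 : ((z - Y : ℤ) : ℝ) ≤ ((0 : ℕ) : ℤ) := by exact_mod_cast h1
      simp only [Nat.cast_zero, mul_zero, sub_zero] at hzY
      push_cast at h3 hzY
      linarith
    refine hC₁ s (zs μ s) hzs T N z Y (zs μ s (N - T)) S (κ * E)
      (e μ s (N - T) (z - Y) - e μ s (N - T) (zs μ s (N - T))) hTN (hzs _).1 hS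
      (Or.inr ⟨(hzs _).2, hYz, hYc, rfl⟩)
      (hfar (N - T) (z - Y) hT1 ((Nat.sub_le _ _).trans hN) hzY0 hcl.1 hzY)

omit [IsProbabilityMeasure μ] in
/-- The Gibbs probability of a set of sites of the time `t`. -/
theorem sum_pin71 (η : Env) {t N : ℕ} (htN : t ≤ N) (z : ℤ) (O : Finset ℤ) :
    ∑ p ∈ O, pin μ s η t (N - t) z p =
      Gt μ s (O.image fun p => (((t : ℤ), p) : Pt)) (0, 0) ((N : ℤ), z) η / W μ s η 0 N z := by
  unfold Gt
  rw [Finset.sum_image (fun a _ b _ h => (Prod.mk.inj h).2), Finset.sum_div]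
  refine Finset.sum_congr rfl fun p _ => ?_
  unfold Pool.Agent.W_7d29a1_h48.pin
  have h1 : wt μ s Set.univ η ((0, 0) : Pt) (((t : ℤ), p) : Pt) = W μ s η 0 t p := by
    rw [wt_univ (by simp)]
    simp
    rfl
  have h2 : wt μ s Set.univ η (((t : ℤ), p) : Pt) (((N : ℤ), z) : Pt) = W μ s η ((t : ℤ), p) (N - t) (z - p) := by
    rw [wt_univ (by simpa using htN)]
    congr 1
    simp only
    omega
  rw [h1, h2, Nat.add_sub_cancel' htN]

/-- **CONFINEMENT AT ONE TIME**, at all scales `n ≥ 1`. -/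
theorem conf_pin71 (hD : Dirs μ H δ A) (ha : 0 < a) {δ' : ℝ} (hδ : 0 < δ') {K : ℕ} (hK : 1 ≤ K) {C : ℝ} (hC : 0 ≤ C) :
    ∃ R : ℝ, 1 ≤ R ∧ ∀ s ∈ A, ∀ n : ℕ, 1 ≤ n → ∀ (N : ℕ) (y : ℤ), N ≤ K * n → 0 ≤ y → y ≤ N → e μ s N y ≤ C * EE μ s n →
      |(y : ℝ) - sl μ s * N| ≤ C * wH a μ s n → ∀ t : ℕ, t ≤ N →
      ∀ I : Finset ℤ, (∀ p : ℤ, 0 ≤ p → p ≤ t → |(p : ℝ) - sl μ s * t| ≤ R * wH a μ s n → p ∈ I) →
        1 - δ' ≤ ∫ η, ∑ p ∈ I, pin μ s η t (N - t) y p ∂(law μ) := by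
  classical
  have hμ := hD.em
  have hnd := hD.nd
  have hK0 : (1 : ℝ) ≤ K := by exact_mod_cast hK
  obtain ⟨κ, hκ⟩ : ∃ κ : ℝ, κ = (16 * (C + K) + 32) / δ' := ⟨_, rfl⟩
  have hκ0 : 0 < κ := by rw [hκ]; positivity
  obtain ⟨R, hR1, hfar⟩ := far_prob71 hD ha (p := δ' / 8) (κ := κ) (by positivity) hκ0.le hK hC
  refine ⟨R, hR1, fun s hs n hn N y hN hy0 hy1 hey hyw t ht I hI => ?_⟩
  have hE := one_le_EE (μ := μ) (s := s) n
  obtain ⟨E, hEdef⟩ : ∃ E, E = EE μ s n := ⟨_, rfl⟩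
  obtain ⟨w, hw⟩ : ∃ w, w = wH a μ s n := ⟨_, rfl⟩
  have hfar := hfar s hs n hn
  rw [← hw] at hyw hI
  rw [← hw, ← hEdef] at hfar
  rw [← hEdef] at hE hey
  obtain ⟨Op, hOp⟩ : ∃ Op, Op = (Finset.Icc (0 : ℤ) t).filter (fun p : ℤ => sl μ s * t + R * w ≤ p) := ⟨_, rfl⟩
  obtain ⟨Om, hOm⟩ : ∃ Om, Om = (Finset.Icc (0 : ℤ) t).filter (fun p : ℤ => (p : ℝ) ≤ sl μ s * t - R * w) := ⟨_, rfl⟩
  have hOps : Op ⊆ Finset.Icc (0 : ℤ) t := by rw [hOp]; exact Finset.filter_subset _ _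
  have hOms : Om ⊆ Finset.Icc (0 : ℤ) t := by rw [hOm]; exact Finset.filter_subset _ _
  have hz1 : y ≤ ((t + (N - t) : ℕ) : ℤ) := by
    rw [Nat.add_sub_cancel' ht]
    exact hy1
  -- the mass outside
  have hout : ∀ η : Env, 1 ≤ ∑ p ∈ I, pin μ s η t (N - t) y p +
      (∑ p ∈ Op, pin μ s η t (N - t) y p + ∑ p ∈ Om, pin μ s η t (N - t) y p) := by
    intro η
    have h1 := Pool.Agent.W_7d29a1_h68.pin_sum (μ := μ) (s := s) η (t := t) (m := N - t) hy0 hz1
    rw [← h1]
    have hsub : Finset.Icc (0 : ℤ) t ⊆ I ∪ (Op ∪ Om) := by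
      intro p hp
      rw [Finset.mem_union, Finset.mem_union]
      by_cases h : p ∈ I
      · exact Or.inl h
      · right
        have hp' := Finset.mem_Icc.1 hp
        have h2 : ¬ |(p : ℝ) - sl μ s * t| ≤ R * w := fun h3 => h (hI p hp'.1 hp'.2 h3)
        rw [not_le, lt_abs] at h2
        rcases h2 with h2 | h2
        · left
          rw [hOp, Finset.mem_filter]
          exact ⟨hp, by linarith⟩
        · right
          rw [hOm, Finset.mem_filter]
          exact ⟨hp, by linarith⟩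
    have h2 : ∑ p ∈ Finset.Icc (0 : ℤ) t, pin μ s η t (N - t) y p ≤ ∑ p ∈ I ∪ (Op ∪ Om), pin μ s η t (N - t) y p :=
      Finset.sum_le_sum_of_subset_of_nonneg hsub fun p _ _ => Pool.Agent.W_7d29a1_h68.pin_nonneg η _ _ _ _
    have h3 : ∀ P Q : Finset ℤ, ∑ p ∈ P ∪ Q, pin μ s η t (N - t) y p ≤
        ∑ p ∈ P, pin μ s η t (N - t) y p + ∑ p ∈ Q, pin μ s η t (N - t) y p := by
      intro P Q
      rw [← Finset.sum_union_inter]
      exact le_add_of_nonneg_right (Finset.sum_nonneg fun p _ => Pool.Agent.W_7d29a1_h68.pin_nonneg η _ _ _ _)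
    linarith [h3 I (Op ∪ Om), h3 Op Om]
  have hone : ∀ (O : Finset ℤ), O ⊆ Finset.Icc (0 : ℤ) t → ∀ η : Env, ∑ p ∈ O, pin μ s η t (N - t) y p ≤ 1 := by
    intro O hO η
    rw [← Pool.Agent.W_7d29a1_h68.pin_sum (μ := μ) (s := s) η (t := t) (m := N - t) hy0 hz1]
    exact Finset.sum_le_sum_of_subset_of_nonneg hO fun p _ _ => Pool.Agent.W_7d29a1_h68.pin_nonneg η _ _ _ _
  -- the events
  obtain ⟨Bad, hBad⟩ : ∃ Bad : Set Env, Bad = {η | κ * E / 2 ≤ max (X μ s η 0 N y) 0} := ⟨_, rfl⟩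
  obtain ⟨Ap, hAp⟩ : ∃ Ap : Set Env, Ap = {η | Real.exp (-(κ * E)) ≤
    Gt μ s (Op.image fun p => (((t : ℤ), p) : Pt)) (0, 0) ((N : ℤ), y) η} := ⟨_, rfl⟩
  obtain ⟨Am, hAm⟩ : ∃ Am : Set Env, Am = {η | Real.exp (-(κ * E)) ≤
    Gt μ s (Om.image fun p => (((t : ℤ), p) : Pt)) (0, 0) ((N : ℤ), y) η} := ⟨_, rfl⟩
  have hSt : ∀ O : Finset ℤ, ∀ v ∈ O.image fun p => (((t : ℤ), p) : Pt), v.1 = t := by
    intro O v hv
    obtain ⟨p, _, rfl⟩ := Finset.mem_image.1 hv
    rfl
  have hmG : ∀ O : Finset ℤ, Measurable fun η : Env =>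
      Gt μ s (O.image fun p => (((t : ℤ), p) : Pt)) (0, 0) ((N : ℤ), y) η := fun O =>
    (poly_Gt (μ := μ) (s := s) _ (0, 0) ((N : ℤ), y) (τ := t) (hSt O) (by simp) (by simpa using ht)).measurable
  have hmX : Measurable fun η : Env => max (X μ s η 0 N y) 0 := (measurable_X 0 N y).max measurable_const
  have hmB : MeasurableSet Bad := by rw [hBad]; exact measurableSet_le measurable_const hmX
  have hmAp : MeasurableSet Ap := by rw [hAp]; exact measurableSet_le measurable_const (hmG Op)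
  have hmAm : MeasurableSet Am := by rw [hAm]; exact measurableSet_le measurable_const (hmG Om)
  have hpAp : (law μ).real Ap < δ' / 8 := by
    rw [hAp]
    refine hfar t N y _ ht hN hyw (hSt Op) (Or.inl fun v hv => ?_)
    obtain ⟨p, hp, rfl⟩ := Finset.mem_image.1 hv
    rw [hOp] at hp
    exact (Finset.mem_filter.1 hp).2
  have hpAm : (law μ).real Am < δ' / 8 := by
    rw [hAm]
    refine hfar t N y _ ht hN hyw (hSt Om) (Or.inr fun v hv => ?_)
    obtain ⟨p, hp, rfl⟩ := Finset.mem_image.1 hv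
    rw [hOm] at hp
    exact (Finset.mem_filter.1 hp).2
  have hpB : (law μ).real Bad ≤ δ' / 8 := by
    have h1 := mul_meas_ge_le_integral_of_nonneg (μ := law μ) (f := fun η => max (X μ s η 0 N y) 0)
      (Filter.Eventually.of_forall fun η => le_max_right _ _)
      ((Sub_X (μ := μ) (s := s) 0 hy0 hy1).integrable hμ).pos_part (κ * E / 2)
    have h2 : ∫ η, max (X μ s η 0 N y) 0 ∂(law μ) ≤ (C + K) * E := by
      have h3 := ep_le71 hμ s hy0 hy1
      have h4 := le_EE (μ := μ) (s := s) (le_refl N)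
      have h5 := EE_le_mul hμ s hK hN
      rw [← hEdef] at h5
      have h6 : ep μ s N y = ∫ η, max (X μ s η 0 N y) 0 ∂(law μ) := rfl
      rw [← h6]
      linarith
    rw [← hBad] at h1
    have h3 : κ * E / 2 * (law μ).real Bad ≤ (C + K) * E := h1.trans h2
    have h4 : κ * (law μ).real Bad ≤ 2 * (C + K) := by
      have h5 : E * (κ * (law μ).real Bad) ≤ E * (2 * (C + K)) := by linarith
      exact le_of_mul_le_mul_left h5 (by linarith)
    rw [hκ, div_mul_eq_mul_div, div_le_iff₀ hδ] at h4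
    have h5 : 0 ≤ (law μ).real Bad := measureReal_nonneg
    have h6 : 0 < C + K := by linarith
    have h7 : 16 * (C + K) * (law μ).real Bad ≤ 2 * (C + K) * δ' := by nlinarith
    have h8 : (C + K) * (8 * (law μ).real Bad) ≤ (C + K) * δ' := by linarith
    have h9 := le_of_mul_le_mul_left h8 h6
    linarith
  -- the bound outside
  have hpt : ∀ η : Env, ∑ p ∈ Op, pin μ s η t (N - t) y p + ∑ p ∈ Om, pin μ s η t (N - t) y p ≤
      2 * Bad.indicator 1 η + Ap.indicator 1 η + Am.indicator 1 η + 2 * Real.exp (-(κ * E / 2)) := by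
    intro η
    have e0 : 0 ≤ Real.exp (-(κ * E / 2)) := (Real.exp_pos _).le
    have i1 : 0 ≤ Bad.indicator (1 : Env → ℝ) η := Set.indicator_nonneg (fun _ _ => zero_le_one) η
    have i2 : 0 ≤ Ap.indicator (1 : Env → ℝ) η := Set.indicator_nonneg (fun _ _ => zero_le_one) η
    have i3 : 0 ≤ Am.indicator (1 : Env → ℝ) η := Set.indicator_nonneg (fun _ _ => zero_le_one) η
    have hop := hone Op hOps η
    have hom := hone Om hOms η
    by_cases hb : η ∈ Bad
    · rw [Set.indicator_of_mem hb]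
      simp only [Pi.one_apply]
      linarith
    have hWpos := W_pos (μ := μ) (s := s) η 0 hy0 hy1
    have hX : -Real.log (W μ s η 0 N y) < κ * E / 2 := by
      have : ¬ κ * E / 2 ≤ max (X μ s η 0 N y) 0 := by rw [hBad] at hb; exact hb
      rw [not_le] at this
      exact lt_of_le_of_lt (le_max_left _ _) this
    have hW : Real.exp (-(κ * E / 2)) ≤ W μ s η 0 N y := by
      rw [← Real.le_log_iff_exp_le hWpos]
      linarith
    have hbd : ∀ G : ℝ, G < Real.exp (-(κ * E)) → G / W μ s η 0 N y ≤ Real.exp (-(κ * E / 2)) := by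
      intro G hG
      rw [div_le_iff₀ hWpos]
      have h1 : Real.exp (-(κ * E)) = Real.exp (-(κ * E / 2)) * Real.exp (-(κ * E / 2)) := by
        rw [← Real.exp_add]
        congr 1
        ring
      have h2 := mul_le_mul_of_nonneg_left hW e0
      linarith
    have hp1 : ∑ p ∈ Op, pin μ s η t (N - t) y p ≤ Ap.indicator 1 η + Real.exp (-(κ * E / 2)) := by
      by_cases ha : η ∈ Ap
      · rw [Set.indicator_of_mem ha]
        simp only [Pi.one_apply]
        linarith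
      · rw [sum_pin71 η ht]
        have h1 : Gt μ s (Op.image fun p => (((t : ℤ), p) : Pt)) (0, 0) ((N : ℤ), y) η < Real.exp (-(κ * E)) := by
          rw [hAp] at ha
          have : ¬ Real.exp (-(κ * E)) ≤ _ := ha
          exact not_le.1 this
        have := hbd _ h1
        linarith
    have hm1 : ∑ p ∈ Om, pin μ s η t (N - t) y p ≤ Am.indicator 1 η + Real.exp (-(κ * E / 2)) := by
      by_cases ha : η ∈ Am
      · rw [Set.indicator_of_mem ha]
        simp only [Pi.one_apply]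
        linarith
      · rw [sum_pin71 η ht]
        have h1 : Gt μ s (Om.image fun p => (((t : ℤ), p) : Pt)) (0, 0) ((N : ℤ), y) η < Real.exp (-(κ * E)) := by
          rw [hAm] at ha
          have : ¬ Real.exp (-(κ * E)) ≤ _ := ha
          exact not_le.1 this
        have := hbd _ h1
        linarith
    linarith
  have hint : ∀ O : Finset ℤ, O ⊆ Finset.Icc (0 : ℤ) t → Integrable (fun η => ∑ p ∈ O, pin μ s η t (N - t) y p) (law μ) := by
    intro O hO
    refine Integrable.of_bound (C := 1) (Finset.measurable_sum _ fun p _ =>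
      Pool.Agent.W_7d29a1_h68.measurable_pin t (N - t) y p).aestronglyMeasurable (Filter.Eventually.of_forall fun η => ?_)
    rw [Real.norm_of_nonneg (Finset.sum_nonneg fun p _ => Pool.Agent.W_7d29a1_h68.pin_nonneg η _ _ _ _)]
    exact hone O hO η
  have hbound : ∀ (S : Set Env), MeasurableSet S → Integrable (S.indicator (1 : Env → ℝ)) (law μ) := fun S hS =>
    (integrable_const (1 : ℝ)).indicator hS
  have hI1 : ∫ η, (∑ p ∈ Op, pin μ s η t (N - t) y p + ∑ p ∈ Om, pin μ s η t (N - t) y p) ∂(law μ) ≤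
      2 * (law μ).real Bad + (law μ).real Ap + (law μ).real Am + 2 * Real.exp (-(κ * E / 2)) := by
    have h1 := integral_mono ((hint Op hOps).add (hint Om hOms))
      (((((hbound Bad hmB).const_mul 2).add (hbound Ap hmAp)).add (hbound Am hmAm)).add
        (integrable_const (2 * Real.exp (-(κ * E / 2))))) hpt
    refine h1.trans (le_of_eq ?_)
    simp only [Pi.add_apply]
    rw [integral_add, integral_add, integral_add, integral_const_mul, integral_indicator_one hmB,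
      integral_indicator_one hmAp, integral_indicator_one hmAm, integral_const]
    · simp
    · exact (hbound Bad hmB).const_mul 2
    · exact hbound Ap hmAp
    · exact ((hbound Bad hmB).const_mul 2).add (hbound Ap hmAp)
    · exact hbound Am hmAm
    · exact (((hbound Bad hmB).const_mul 2).add (hbound Ap hmAp)).add (hbound Am hmAm)
    · exact integrable_const _
  have hexp : Real.exp (-(κ * E / 2)) ≤ δ' / 16 := by
    have h1 : 16 / δ' ≤ κ * E / 2 := by
      have h0 : 32 / δ' ≤ κ := by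
        rw [hκ]
        refine div_le_div_of_nonneg_right ?_ hδ.le
        linarith
      have h2 : 16 / δ' = 32 / δ' / 2 := by ring
      have h3 : 0 < 32 / δ' := by positivity
      rw [h2]
      nlinarith
    have h2 : Real.exp (-(κ * E / 2)) ≤ Real.exp (-(16 / δ')) := Real.exp_le_exp.2 (by linarith)
    have h3 : 16 / δ' ≤ Real.exp (16 / δ') := by linarith [Real.add_one_le_exp (16 / δ')]
    have h4 : 0 < 16 / δ' := by positivity
    have h5 : Real.exp (-(16 / δ')) ≤ δ' / 16 := by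
      rw [Real.exp_neg, inv_le_comm₀ (Real.exp_pos _) (by positivity)]
      have : (δ' / 16)⁻¹ = 16 / δ' := by rw [inv_div]
      rw [this]
      exact h3
    linarith
  have hintI : Integrable (fun η => ∑ p ∈ I, pin μ s η t (N - t) y p) (law μ) := by
    refine integrable_finsetSum _ fun p _ => ?_
    refine Integrable.of_bound (C := 1) (Pool.Agent.W_7d29a1_h68.measurable_pin t (N - t) y p).aestronglyMeasurable
      (Filter.Eventually.of_forall fun η => ?_)
    rw [Real.norm_of_nonneg (Pool.Agent.W_7d29a1_h68.pin_nonneg η _ _ _ _)]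
    by_cases hp : p ∈ Finset.Icc (0 : ℤ) t
    · have := hone {p} (Finset.singleton_subset_iff.2 hp) η
      rwa [Finset.sum_singleton] at this
    · have : pin μ s η t (N - t) y p = 0 := by
        unfold Pool.Agent.W_7d29a1_h48.pin
        rw [W_eq_zero η 0 (fun h => hp (Finset.mem_Icc.2 h)), zero_mul, zero_div]
      rw [this]
      exact zero_le_one
  have hI2 := integral_mono (integrable_const (1 : ℝ)) (hintI.add ((hint Op hOps).add (hint Om hOms))) (μ := law μ) hout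
  have e1 : ∫ η, ((fun η => ∑ p ∈ I, pin μ s η t (N - t) y p) + ((fun η => ∑ p ∈ Op, pin μ s η t (N - t) y p) +
      fun η => ∑ p ∈ Om, pin μ s η t (N - t) y p)) η ∂(law μ) =
      ∫ η, ∑ p ∈ I, pin μ s η t (N - t) y p ∂(law μ) +
      ∫ η, (∑ p ∈ Op, pin μ s η t (N - t) y p + ∑ p ∈ Om, pin μ s η t (N - t) y p) ∂(law μ) :=
    integral_add hintI ((hint Op hOps).add (hint Om hOms))
  rw [e1, integral_const] at hI2
  have e2 : (law μ).real Set.univ • (1 : ℝ) = 1 := by simp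
  rw [e2] at hI2
  linarith

/-- **`ConfPH`**, all families of tilts, all levels. -/
theorem confPH_all (hD : Dirs μ H δ A) (ha : 0 < a) : ConfPH a μ A := by
  intro H' C δ' hδ'
  obtain ⟨K, hK1, hK2⟩ : ∃ K : ℕ, 1 ≤ K ∧ H' ≤ K := by
    refine ⟨⌈H'⌉₊ + 1, by omega, ?_⟩
    have := Nat.le_ceil H'
    push_cast
    linarith
  obtain ⟨R, _, h⟩ := conf_pin71 hD ha hδ' hK1 (C := |C|) (abs_nonneg C)
  refine ⟨R, 1, fun s hs n N hn hnN hN y hy0 hy1 hey hyw t ht => ?_⟩
  have hE := EE_pos (μ := μ) (s := s) n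
  have hw := wH_pos71 hD hs ha hn
  have hCabs := le_abs_self C
  refine h s hs n hn N y ?_ hy0 hy1 (hey.trans (mul_le_mul_of_nonneg_right hCabs hE.le))
    (hyw.trans (mul_le_mul_of_nonneg_right hCabs hw.le)) t ht _ fun p h0 h1 h2 => ?_
  · have h1 : (N : ℝ) ≤ (K : ℝ) * n := hN.trans (mul_le_mul_of_nonneg_right hK2 (Nat.cast_nonneg n))
    exact_mod_cast h1
  · rw [Finset.mem_filter, Finset.mem_Icc]
    exact ⟨⟨h0, h1⟩, h2⟩

end conf

end

end Pool.Agent.W_7d29a1_H
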