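import Pool.Agent.W_7d29a1_H.PredH3

/-!
MP_7d29a1_pr, TRACK H (all tilts), part 2: lanes at every scale, from the core and the closed cone. (helper83)
-/

set_option autoImplicit false

namespace Pool.Agent.W_7d29a1_H

open MeasureTheory ProbabilityTheory Filter Topology Set
open Pool.Agent.W_7d29a1_F Pool.Agent.W_7d29a1_h4g

variable {μ : Measure ℝ} {A : Set ℝ} {a : ℝ}

/-- **Lanes at every scale**, uniformly in the tilt. -/
theorem laneH_of83 {r : ℕ} {C3 : ℝ} (hcore : CoreH a μ A r C3) (hcone : ConeH a μ A) : LaneH a μ A C3 (1 + r) := by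
  obtain ⟨β, C, δ, T, L, x₁, -, -, hsoft, -, -, -⟩ := hcone
  intro K
  obtain ⟨p, R, j, y0, hp, hR, h⟩ := hcore K β
  refine ⟨p, R, max y0 x₁ + j, hp, hR, fun s hs x hx => ?_⟩
  obtain ⟨y, rfl⟩ : ∃ y, x = y + j := ⟨x - j, by omega⟩
  obtain ⟨k, hk0, hk1, hpE, -, hk⟩ := h s hs y (by omega) (hsoft s hs y (by omega)) (2 ^ (y + j)) rfl
  refine ⟨(1 + r) * 2 ^ (y + j), k, Nat.succ_le_of_lt (Nat.mul_pos (by omega) (by positivity)), ?_, hk0, hk1, hk, hpE⟩
  push_cast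
  exact le_rfl

end Pool.Agent.W_7d29a1_H
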