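import Pool.Agent.W_7d29a1_H.PlaceH83
import Pool.Agent.W_7d29a1_H.LaneH83
import Pool.Agent.W_7d29a1_H.RateH

/-!
MP_7d29a1_pr, TRACK H (all tilts), section CORE: the core from the frame, the lanes from the frame and the closed cone. (helper83)
-/

set_option autoImplicit false

namespace Pool.Agent.W_7d29a1_H

open MeasureTheory ProbabilityTheory Filter Topology Set
open Pool.Agent.W_7d29a1_F Pool.Agent.W_7d29a1_h4g

variable {μ : Measure ℝ} [IsProbabilityMeasure μ] {H δ a : ℝ} {A : Set ℝ}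

/-- **THE CORE**, from the cheap displacements, (L*) and the growth of the unit. -/
theorem coreH_in83 (hD : Dirs μ H δ A) (ha : 0 < a) (hG : Grow μ A) (hlog : LogG μ A) (hLS : LStarH a μ A)
    (hCh : CheapH a μ A) : ∃ (r : ℕ) (C3 : ℝ), 1 ≤ r ∧ 0 < C3 ∧ CoreH a μ A r C3 :=
  coreH_of83 hD ha hD.rate hG hlog hLS hCh (midH21 hD.em hD.nd) (plH83 hD.em)

/-- **THE CORE**, from the frame. -/
theorem coreH_fr83 (hD : Dirs μ H δ A) (ha : 0 < a) (hG : Grow μ A) (hlog : LogG μ A) (hF : FrameH a μ A) :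
    ∃ (r : ℕ) (C3 : ℝ), 1 ≤ r ∧ 0 < C3 ∧ CoreH a μ A r C3 :=
  coreH_in83 hD ha hG hlog hF.luck hF.cheap

/-- **Lanes at every scale**, from the frame and the closed cone. -/
theorem laneH_fr83 (hD : Dirs μ H δ A) (ha : 0 < a) (hG : Grow μ A) (hlog : LogG μ A) (hF : FrameH a μ A)
    (hcone : ConeH a μ A) : ∃ C3 Cm : ℝ, LaneH a μ A C3 Cm := by
  obtain ⟨r, C3, -, -, h⟩ := coreH_fr83 hD ha hG hlog hF
  exact ⟨C3, 1 + r, laneH_of83 h hcone⟩

end Pool.Agent.W_7d29a1_H
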