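import Pool.Agent.W_7d29a1_H.HDefs
import Pool.Agent.W_7d29a1_h21g.LuckP

/-!
MP_7d29a1_pr, TRACK H, section (CO). THE LUCKY WINDOW at a general tilt: a functional of duration `l` which fluctuates by the unit
gives, with positive probability, a large luck with an end point in a window of displacements of small mean cost.
(helper21; models `W_1b8d5d_p.CoreA71`, `CoreB71`, `Mid27`)
-/

set_option autoImplicit false

namespace Pool.Agent.W_7d29a1_H

open MeasureTheory ProbabilityTheory Filter Topology Set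
open Pool.Agent.W_7d29a1_F Pool.Agent.W_7d29a1_h4g
open Pool.Agent.W_7d29a1_h21g (prob_of_density)
open Pool.Agent.W_7d29a1_h60 Pool.Agent.W_7d29a1_L78

noncomputable section

variable {μ : Measure ℝ} {s : ℝ} [IsProbabilityMeasure μ]

/-- (B1) A functional below `Z` which fluctuates on the scale `E` and whose mean is at least `-A1 E`: then `Z ≥ K E` has a positive
probability, for every `K`. -/
theorem amp21 (hEM : Pool.Agent.W_7d29a1_h47.EM μ) (hnd : Pool.Agent.W_7d29a1_h47.Nondeg μ) {c1 : ℝ} (hc1 : 0 < c1)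
    {A1 K M : ℝ} (hA1 : 0 ≤ A1) (hK : 0 < K) (hM : 0 < M) : ∃ p U₀ : ℝ, 0 < p ∧ 0 < U₀ ∧ ∀ E : ℝ, U₀ ≤ E →
    ∀ Z : Env → ℝ, Sub Z → ∫ η, (max (Z η) 0) ^ 2 ∂(law μ) ≤ (M * E) ^ 2 →
    ∀ (S : Set Pt) (G : Env → ℝ), Poly S G → (∀ η, 0 < G η) → (∀ η, Real.log (G η) ≤ Z η) →
    -(A1 * E) ≤ ∫ η, Real.log (G η) ∂(law μ) →
    c1 ≤ (law μ).real {η | c1 * E ≤ |Real.log (G η) - ∫ ξ, Real.log (G ξ) ∂(law μ)|} →
    p ≤ (law μ).real {η | K * E ≤ Z η} := by
  obtain ⟨U₀, D, hLA⟩ := la_law (μ := μ) (LAfor_all hEM hnd) (c := c1) (K := 2 * K + A1) hc1 (by positivity)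
  refine ⟨(K / (max D 1 * M)) ^ 2, max U₀ 1, by positivity, lt_max_of_lt_right one_pos,
    fun E hE Z hZ hZ2 S G hP hG hGZ hmean hfl => ?_⟩
  have hE0 : 0 < E := one_pos.trans_le ((le_max_right _ _).trans hE)
  obtain ⟨f, hfm, hf0, hfD, hf1, -, hfG⟩ := hLA S G hP hG E ((le_max_left _ _).trans hE) hfl
  have hfD' : ∀ η, f η ≤ max D 1 := fun η => (hfD η).trans (le_max_left _ _)
  have hD : (0 : ℝ) < max D 1 := lt_max_of_lt_right one_pos
  have hfS : Sub f := Sub.of_le hfm (Sub.const 0) (Sub.const (max D 1)) hf0 hfD'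
  have hGS : Sub fun η => Real.log (G η) := hP.sub_log hG
  have h1 : ∫ η, f η * Real.log (G η) ∂(law μ) ≤ ∫ η, f η * Z η ∂(law μ) :=
    integral_mono (Sub.mul_integrable hEM hfS hGS) (Sub.mul_integrable hEM hfS hZ)
      fun η => mul_le_mul_of_nonneg_left (hGZ η) (hf0 η)
  have h2 : 2 * (K * E) ≤ ∫ η, f η * Z η ∂(law μ) := by
    have : (2 * K + A1) * E = 2 * (K * E) + A1 * E := by ring
    linarith
  have h3 := prob_of_density hEM hfm hf0 hD hfD' hf1 hZ (Y := K * E) (M := M * E) (by positivity) (by positivity)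
    hZ2 h2
  refine le_trans (le_of_eq ?_) h3
  congr 1
  rw [show max D 1 * (M * E) = (max D 1 * M) * E by ring, mul_div_mul_right _ _ hE0.ne']

/-- An exponential moment bounds the second moment. -/
theorem sq_of_exp21 (hEM : Pool.Agent.W_7d29a1_h47.EM μ) {Z : Env → ℝ} (hZ : Sub Z) {c C E : ℝ} (hc : 0 < c)
    (hE : 0 < E) (h : ∫ η, Real.exp (c / E * max (Z η) 0) ∂(law μ) ≤ C) :
    ∫ η, (max (Z η) 0) ^ 2 ∂(law μ) ≤ 2 * C / c ^ 2 * E ^ 2 := by
  have hZp : Sub fun η => max (Z η) 0 := hZ.max (Sub.const 0)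
  have hpt : ∀ η, (max (Z η) 0) ^ 2 ≤ 2 / c ^ 2 * E ^ 2 * Real.exp (c / E * max (Z η) 0) := by
    intro η
    have h0 : 0 ≤ c / E * max (Z η) 0 := mul_nonneg (by positivity) (le_max_right _ _)
    have h1 := Real.quadratic_le_exp_of_nonneg h0
    have h2 : (c / E * max (Z η) 0) ^ 2 / 2 ≤ Real.exp (c / E * max (Z η) 0) := by linarith
    have h3 : (max (Z η) 0) ^ 2 = 2 / c ^ 2 * E ^ 2 * ((c / E * max (Z η) 0) ^ 2 / 2) := by
      field_simp
    rw [h3]
    exact mul_le_mul_of_nonneg_left h2 (by positivity)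
  have h1 := integral_mono (μ := law μ) (hZp.sq_integrable hEM) (((hZp.const_mul (c / E)).exp_int hEM).const_mul _) hpt
  rw [integral_const_mul] at h1
  refine h1.trans ?_
  have h2 := mul_le_mul_of_nonneg_left h (show 0 ≤ 2 / c ^ 2 * E ^ 2 by positivity)
  refine h2.trans (le_of_eq ?_)
  ring

/-- Markov's inequality for an exponential moment. -/
theorem markov_exp21 (hEM : Pool.Agent.W_7d29a1_h47.EM μ) {Z : Env → ℝ} (hZ : Sub Z) {c C E : ℝ} (hc : 0 < c)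
    (hE : 0 < E) (h : ∫ η, Real.exp (c / E * max (Z η) 0) ∂(law μ) ≤ C) (K : ℝ) :
    (law μ).real {η | K * E ≤ Z η} ≤ C * Real.exp (-(c * K)) := by
  have hZp : Sub fun η => max (Z η) 0 := hZ.max (Sub.const 0)
  have hm : MeasurableSet {η | K * E ≤ Z η} := measurableSet_le measurable_const hZ.1
  have hpt : ∀ η, io (K * E ≤ Z η) ≤ Real.exp (-(c * K)) * Real.exp (c / E * max (Z η) 0) := by
    intro η
    by_cases h1 : K * E ≤ Z η
    · rw [io_of h1, ← Real.exp_add]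
      refine Real.one_le_exp ?_
      have h2 : c / E * (K * E) ≤ c / E * max (Z η) 0 :=
        mul_le_mul_of_nonneg_left (h1.trans (le_max_left _ _)) (by positivity)
      have h3 : c / E * (K * E) = c * K := by field_simp
      linarith
    · rw [io_not h1]
      positivity
  have h1 := integral_mono (μ := law μ) ((Sub_io hm).integrable hEM)
    (((hZp.const_mul (c / E)).exp_int hEM).const_mul _) hpt
  rw [integral_const_mul, integral_io_real hm] at h1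
  refine h1.trans ?_
  rw [mul_comm C]
  exact mul_le_mul_of_nonneg_left h (Real.exp_pos _).le

omit [IsProbabilityMeasure μ] in
/-- A luck has a good end point. -/
theorem exists_end21 (η : Env) (l : ℕ) {Y : ℝ} (h : Y ≤ V μ s η 0 l) :
    ∃ b : ℤ, 0 ≤ b ∧ b ≤ l ∧ Y - Real.log (l + 1) ≤ -X μ s η 0 l b := by
  by_contra hcon
  push Not at hcon
  have h1 : ∀ b ∈ Finset.Icc (0 : ℤ) l, W μ s η 0 l b < Real.exp (Y - Real.log (l + 1)) := by
    intro b hb
    rw [Finset.mem_Icc] at hb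
    have h2 := hcon b hb.1 hb.2
    have h3 : 0 < W μ s η 0 l b := W_pos η 0 hb.1 hb.2
    unfold X at h2
    rw [neg_neg] at h2
    exact (Real.log_lt_iff_lt_exp h3).1 h2
  have h2 : Real.exp (V μ s η 0 l) < Real.exp Y := by
    rw [exp_V]
    unfold WS
    calc ∑ b ∈ Finset.Icc (0 : ℤ) l, W μ s η 0 l b < ∑ _b ∈ Finset.Icc (0 : ℤ) l, Real.exp (Y - Real.log (l + 1)) :=
          Finset.sum_lt_sum_of_nonempty ⟨0, by simp⟩ h1
      _ = Real.exp Y := by
        rw [Finset.sum_const, Int.card_Icc, nsmul_eq_mul, Real.exp_sub, Real.exp_log (by positivity)]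
        have h3 : (((l : ℤ) + 1 - 0).toNat : ℝ) = (l : ℝ) + 1 := by
          have : ((l : ℤ) + 1 - 0).toNat = l + 1 := by omega
          rw [this]
          push_cast
          ring
        rw [h3]
        field_simp
  exact absurd (Real.exp_lt_exp.1 h2) (not_lt.2 h)

/-! ### The crossing -/

omit [IsProbabilityMeasure μ] in
/-- The crossing inequality for the costs. -/
theorem X_cross21 (η : Env) {x x' : ℤ} {l : ℕ} {y y' : ℤ} (hx : x ≤ x') (hy : y ≤ y') (h0 : x' ≤ y) (h1 : y' ≤ x + l) :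
    X μ s η (0, x) l (y - x) + X μ s η (0, x') l (y' - x') ≤ X μ s η (0, x) l (y' - x) + X μ s η (0, x') l (y - x') := by
  have h := W_tp2 (μ := μ) (s := s) η 0 x x' l y y' hx hy
  have p1 : 0 < W μ s η (0, x) l (y' - x) := W_pos η _ (by omega) (by omega)
  have p2 : 0 < W μ s η (0, x') l (y - x') := W_pos η _ (by omega) (by omega)
  have p3 : 0 < W μ s η (0, x) l (y - x) := W_pos η _ (by omega) (by omega)
  have p4 : 0 < W μ s η (0, x') l (y' - x') := W_pos η _ (by omega) (by omega)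
  have h2 := Real.log_le_log (mul_pos p1 p2) h
  rw [Real.log_mul p1.ne' p2.ne', Real.log_mul p3.ne' p4.ne'] at h2
  unfold X
  linarith

omit [IsProbabilityMeasure μ] in
/-- The crossing, right of the window: the ends `c + Dp ≤ q` and the starts `0 < Dp`. -/
theorem mid_right21 (η : Env) {l : ℕ} {E B K : ℝ} {c Dp q : ℤ} (hc0 : 0 ≤ c) (hDp : 0 ≤ Dp)
    (hq : c + Dp ≤ q) (hql : q ≤ l) (h0 : e μ s l c ≤ E) (h1 : (B + 4) * E ≤ e μ s l (c + Dp))
    (g1 : |X μ s η 0 l (c + Dp) - e μ s l (c + Dp)| < E) (g0 : |X μ s η (0, Dp) l c - e μ s l c| < E)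
    (hK : K * E ≤ -X μ s η 0 l q) : (K + B + 1) * E ≤ V μ s η (0, Dp) l := by
  have hc := X_cross21 (μ := μ) (s := s) η (x := 0) (x' := Dp) (l := l) (y := c + Dp) (y' := q) hDp hq (by omega)
    (by omega)
  rw [show c + Dp - Dp = c by ring, sub_zero, sub_zero] at hc
  have h2 := neg_X_le_V (μ := μ) (s := s) η ((0, Dp) : Pt) (n := l) (y := q - Dp) (by omega) (by omega)
  rw [abs_lt] at g0 g1
  have e0 : ((0, 0) : Pt) = 0 := rfl
  rw [e0] at hc
  nlinarith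

omit [IsProbabilityMeasure μ] in
/-- The crossing, left of the window: the ends `q ≤ c - Dm` and the starts `-Dm ≤ 0`. -/
theorem mid_left21 (η : Env) {l : ℕ} {E B K : ℝ} {c Dm q : ℤ} (hcl : c ≤ l) (hDm : 0 ≤ Dm)
    (hq : q ≤ c - Dm) (hq0 : 0 ≤ q) (h0 : e μ s l c ≤ E) (h1 : (B + 4) * E ≤ e μ s l (c - Dm))
    (g1 : |X μ s η 0 l (c - Dm) - e μ s l (c - Dm)| < E) (g0 : |X μ s η (0, -Dm) l c - e μ s l c| < E)
    (hK : K * E ≤ -X μ s η 0 l q) : (K + B + 1) * E ≤ V μ s η (0, -Dm) l := by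
  have hc := X_cross21 (μ := μ) (s := s) η (x := -Dm) (x' := 0) (l := l) (y := q) (y' := c - Dm) (by omega) hq (by omega)
    (by omega)
  rw [show c - Dm - -Dm = c by ring, sub_zero, sub_zero] at hc
  have h2 := neg_X_le_V (μ := μ) (s := s) η ((0, -Dm) : Pt) (n := l) (y := q - -Dm) (by omega) (by omega)
  rw [abs_lt] at g0 g1
  have e0 : ((0, 0) : Pt) = 0 := rfl
  rw [e0] at hc
  nlinarith

theorem real_X_abs21 (a : Pt) (n : ℕ) (y : ℤ) (E m : ℝ) :
    (law μ).real {η | E ≤ |X μ s η a n y - m|} = (law μ).real {η | E ≤ |X μ s η 0 n y - m|} := by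
  have hm : ∀ a : Pt, MeasurableSet {η : Env | E ≤ |X μ s η a n y - m|} := fun a =>
    measurableSet_le measurable_const ((measurable_X a n y).sub_const _).abs
  rw [← integral_io_real (hm a), ← integral_io_real (hm 0)]
  exact integral_X_fun (μ := μ) (s := s) (f := fun x => io (E ≤ |x - m|))
    (Pool.Agent.W_7d29a1_h21g.meas_ioR (measurableSet_le measurable_const (measurable_id.sub_const _).abs)) a n y

theorem real_V_place21 (a : Pt) (n : ℕ) (Y : ℝ) :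
    (law μ).real {η | Y ≤ V μ s η a n} = (law μ).real {η | Y ≤ V μ s η 0 n} := by
  have hm : ∀ a : Pt, MeasurableSet {η : Env | Y ≤ V μ s η a n} := fun a =>
    measurableSet_le measurable_const (Sub_V a n).1
  rw [← integral_io_real (hm a), ← integral_io_real (hm 0)]
  exact integral_V_fun (μ := μ) (s := s) (f := fun x => io (Y ≤ x))
    (Pool.Agent.W_7d29a1_h21g.meas_ioR (measurableSet_le measurable_const measurable_id)) a n

/-- (B2), one step. Either the luck is attained in the window `[qa, qb]`, or another starting point has a luck which is larger by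
`B E`, or one of the four reference costs is far from its mean. -/
theorem mid_step21 {l : ℕ} {E B del : ℝ} (hlog : Real.log (l + 1) ≤ E) {c qa qb : ℤ} (hqa0 : 0 ≤ qa) (hqac : qa ≤ c)
    (hcqb : c ≤ qb) (hqbl : qb ≤ l) (h0 : e μ s l c ≤ E) (hdel : 0 ≤ del)
    (hp : qb = l ∨ ((B + 4) * E ≤ e μ s l qb ∧ (law μ).real {η | E ≤ |X μ s η 0 l qb - e μ s l qb|} ≤ del))
    (hn : qa = 0 ∨ ((B + 4) * E ≤ e μ s l qa ∧ (law μ).real {η | E ≤ |X μ s η 0 l qa - e μ s l qa|} ≤ del))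
    (b0 : (law μ).real {η | E ≤ |X μ s η 0 l c - e μ s l c|} ≤ del) (K : ℝ) :
    (law μ).real {η | (K + 1) * E ≤ V μ s η 0 l} ≤
      (law μ).real {η | ∃ q : ℤ, qa ≤ q ∧ q ≤ qb ∧ K * E ≤ -X μ s η 0 l q} +
        2 * (law μ).real {η | (K + B + 1) * E ≤ V μ s η 0 l} + 4 * del := by
  have hr0 : ∀ S : Set Env, 0 ≤ (law μ).real S := fun _ => measureReal_nonneg
  obtain ⟨A, hA⟩ : ∃ A : Set Env, A = {η | ∃ q : ℤ, qa ≤ q ∧ q ≤ qb ∧ K * E ≤ -X μ s η 0 l q} := ⟨_, rfl⟩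
  -- the right part
  obtain ⟨R, hR, hRin⟩ : ∃ R : Set Env, (law μ).real R ≤ (law μ).real {η | (K + B + 1) * E ≤ V μ s η 0 l} + 2 * del ∧
      ∀ η, (∃ q : ℤ, qb < q ∧ q ≤ l ∧ K * E ≤ -X μ s η 0 l q) → η ∈ R := by
    rcases hp with h1 | ⟨h1, h2⟩
    · refine ⟨∅, ?_, fun η ⟨q, hq1, hq2, _⟩ => absurd hq2 (by omega)⟩
      rw [measureReal_empty]
      have := hr0 {η | (K + B + 1) * E ≤ V μ s η 0 l}
      linarith
    · refine ⟨{η | (K + B + 1) * E ≤ V μ s η (0, qb - c) l} ∪ ({η | E ≤ |X μ s η 0 l qb - e μ s l qb|} ∪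
        {η | E ≤ |X μ s η (0, qb - c) l c - e μ s l c|}), ?_, ?_⟩
      · refine (measureReal_union_le _ _).trans ?_
        have h3 := measureReal_union_le (μ := law μ) {η | E ≤ |X μ s η 0 l qb - e μ s l qb|}
          {η | E ≤ |X μ s η (0, qb - c) l c - e μ s l c|}
        rw [real_V_place21]
        rw [real_X_abs21 (0, qb - c)] at h3
        linarith
      · rintro η ⟨q, hq1, hq2, hq3⟩
        by_contra hcon
        simp only [Set.mem_union, not_or, Set.mem_ofPred_eq, not_le] at hcon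
        obtain ⟨k1, k2, k3⟩ := hcon
        have h4 := mid_right21 (μ := μ) (s := s) η (l := l) (E := E) (B := B) (K := K) (c := c) (Dp := qb - c) (q := q)
          (by omega) (by omega) (by omega) hq2 h0 (by rw [show c + (qb - c) = qb by ring]; exact h1)
          (by rw [show c + (qb - c) = qb by ring]; exact k2) k3 hq3
        linarith
  -- the left part
  obtain ⟨L, hL, hLin⟩ : ∃ L : Set Env, (law μ).real L ≤ (law μ).real {η | (K + B + 1) * E ≤ V μ s η 0 l} + 2 * del ∧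
      ∀ η, (∃ q : ℤ, 0 ≤ q ∧ q < qa ∧ K * E ≤ -X μ s η 0 l q) → η ∈ L := by
    rcases hn with h1 | ⟨h1, h2⟩
    · refine ⟨∅, ?_, fun η ⟨q, hq1, hq2, _⟩ => absurd hq2 (by omega)⟩
      rw [measureReal_empty]
      have := hr0 {η | (K + B + 1) * E ≤ V μ s η 0 l}
      linarith
    · refine ⟨{η | (K + B + 1) * E ≤ V μ s η (0, -(c - qa)) l} ∪ ({η | E ≤ |X μ s η 0 l qa - e μ s l qa|} ∪
        {η | E ≤ |X μ s η (0, -(c - qa)) l c - e μ s l c|}), ?_, ?_⟩
      · refine (measureReal_union_le _ _).trans ?_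
        have h3 := measureReal_union_le (μ := law μ) {η | E ≤ |X μ s η 0 l qa - e μ s l qa|}
          {η | E ≤ |X μ s η (0, -(c - qa)) l c - e μ s l c|}
        rw [real_V_place21]
        rw [real_X_abs21 (0, -(c - qa))] at h3
        linarith
      · rintro η ⟨q, hq1, hq2, hq3⟩
        by_contra hcon
        simp only [Set.mem_union, not_or, Set.mem_ofPred_eq, not_le] at hcon
        obtain ⟨k1, k2, k3⟩ := hcon
        have h4 := mid_left21 (μ := μ) (s := s) η (l := l) (E := E) (B := B) (K := K) (c := c) (Dm := c - qa) (q := q)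
          (by omega) (by omega) (by omega) hq1 h0 (by rw [show c - (c - qa) = qa by ring]; exact h1)
          (by rw [show c - (c - qa) = qa by ring]; exact k2) k3 hq3
        linarith
  have hsub : {η | (K + 1) * E ≤ V μ s η 0 l} ⊆ A ∪ (R ∪ L) := by
    intro η hη
    rw [Set.mem_ofPred_eq] at hη
    obtain ⟨b, hb0, hb1, hb2⟩ := exists_end21 η l hη
    have hb3 : K * E ≤ -X μ s η 0 l b := by linarith
    rcases lt_or_ge qb b with h1 | h1
    · exact Or.inr (Or.inl (hRin η ⟨b, h1, hb1, hb3⟩))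
    · rcases lt_or_ge b qa with h2 | h2
      · exact Or.inr (Or.inr (hLin η ⟨b, hb0, h2, hb3⟩))
      · left
        rw [hA, Set.mem_ofPred_eq]
        exact ⟨b, h2, h1, hb3⟩
  have h1 := measureReal_mono (μ := law μ) hsub (measure_ne_top _ _)
  have h2 : (law μ).real (A ∪ (R ∪ L)) ≤ (law μ).real A + ((law μ).real R + (law μ).real L) :=
    (measureReal_union_le _ _).trans (add_le_add le_rfl (measureReal_union_le _ _))
  rw [← hA]
  linarith

omit [IsProbabilityMeasure μ] in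
/-- (B2), the first index. The constant depends only on `p` and `Cs`. (Copy of `W_1b8d5d_p.first_index`.) -/
theorem first_index21 {p Cs : ℝ} (hp : 0 < p) (_ : 0 < Cs) : ∃ p' : ℝ, 0 < p' ∧ ∀ (pi mu : ℝ → ℝ),
    Antitone pi → Antitone mu → ∀ K B del : ℝ, 0 ≤ B → p ≤ pi K →
    (∀ j : ℕ, pi (K + j * B) ≤ Cs * (1 / 100) ^ j) →
    (∀ t, K ≤ t → pi t ≤ mu t + 2 * pi (t + B) + 4 * del) → del ≤ p' / 16 → p' / 2 ≤ mu K := by
  obtain ⟨J, hJ⟩ : ∃ J : ℕ, Cs / p < 25 ^ J := by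
    obtain ⟨J, hJ⟩ := pow_unbounded_of_one_lt (Cs / p) (show (1 : ℝ) < 25 by norm_num)
    exact ⟨J, hJ⟩
  refine ⟨p * (1 / 4) ^ J / 2, by positivity, ?_⟩
  intro pi mu _ hmu K B del hB hpK htail hstep hdel
  have hex : ∃ j : ℕ, pi (K + ((j + 1 : ℕ) : ℝ) * B) ≤ pi (K + j * B) / 4 := by
    by_contra hcon
    push Not at hcon
    have h1 : ∀ j : ℕ, p * (1 / 4) ^ j ≤ pi (K + j * B) := by
      intro j
      induction j with
      | zero => simpa using hpK
      | succ j ih =>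
        have h2 := hcon j
        rw [pow_succ]
        linarith
    have h2 := (h1 J).trans (htail J)
    have h3 : (1 / 4 : ℝ) ^ J = 25 ^ J * (1 / 100) ^ J := by
      rw [← mul_pow]
      norm_num
    rw [h3, ← mul_assoc] at h2
    have h4 : p * 25 ^ J ≤ Cs := le_of_mul_le_mul_right h2 (by positivity)
    rw [div_lt_iff₀ hp] at hJ
    linarith
  classical
  obtain ⟨j, hj⟩ : ∃ j : ℕ, j = Nat.find hex := ⟨_, rfl⟩
  have hj1 : pi (K + ((j + 1 : ℕ) : ℝ) * B) ≤ pi (K + j * B) / 4 := by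
    rw [hj]
    exact Nat.find_spec hex
  have hjmin : ∀ i < j, pi (K + i * B) / 4 < pi (K + ((i + 1 : ℕ) : ℝ) * B) := fun i hi => by
    rw [hj] at hi
    exact not_le.1 (Nat.find_min hex hi)
  have hlow : ∀ i ≤ j, p * (1 / 4) ^ i ≤ pi (K + i * B) := by
    intro i
    induction i with
    | zero => intro _; simpa using hpK
    | succ i ih =>
      intro hi
      have h2 := hjmin i (by omega)
      have h3 := ih (by omega)
      rw [pow_succ]
      linarith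
  have hjJ : j ≤ J := by
    by_contra hcon
    have h2 := (hlow J (by omega)).trans (htail J)
    have h3 : (1 / 4 : ℝ) ^ J = 25 ^ J * (1 / 100) ^ J := by
      rw [← mul_pow]
      norm_num
    rw [h3, ← mul_assoc] at h2
    have h4 : p * 25 ^ J ≤ Cs := le_of_mul_le_mul_right h2 (by positivity)
    rw [div_lt_iff₀ hp] at hJ
    linarith
  have h1 := hlow j le_rfl
  have h2 : p * (1 / 4) ^ J ≤ p * (1 / 4 : ℝ) ^ j :=
    mul_le_mul_of_nonneg_left (pow_le_pow_of_le_one (by norm_num) (by norm_num) hjJ) hp.le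
  have hjB : 0 ≤ (j : ℝ) * B := mul_nonneg (Nat.cast_nonneg _) hB
  have h3 := hstep (K + j * B) (by linarith)
  have e1 : K + (j : ℝ) * B + B = K + ((j + 1 : ℕ) : ℝ) * B := by
    push_cast
    ring
  rw [e1] at h3
  have h4 : mu (K + j * B) ≤ mu K := hmu (by linarith)
  have h5 : 0 < p * (1 / 4) ^ J := by positivity
  linarith

omit [IsProbabilityMeasure μ] in
/-- The end of the window on the side `+`: the first displacement of mean at least `L`, or the last displacement. -/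
theorem end_right21 {l : ℕ} {L L' : ℝ} {c : ℤ} (hc0 : 0 ≤ c) (hcl : c ≤ l) (h0 : e μ s l c < L) (hLL : L ≤ L')
    (hst : ∀ y : ℤ, 0 ≤ y → y + 1 ≤ l → e μ s l y < L → e μ s l (y + 1) ≤ L') :
    ∃ q : ℤ, c ≤ q ∧ q ≤ l ∧ (q = l ∨ L ≤ e μ s l q) ∧ ∀ y : ℤ, c ≤ y → y ≤ q → e μ s l y ≤ L' := by
  classical
  by_cases hex : ∃ D : ℕ, c + D ≤ l ∧ L ≤ e μ s l (c + D)
  · obtain ⟨D, ⟨hD1, hD2⟩, hmin⟩ := Nat.find_spec hex |> fun h => (⟨Nat.find hex, h, fun j hj => Nat.find_min hex hj⟩ :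
      ∃ D : ℕ, (c + D ≤ l ∧ L ≤ e μ s l (c + D)) ∧ ∀ j, j < D → ¬ (c + j ≤ l ∧ L ≤ e μ s l (c + j)))
    refine ⟨c + D, by omega, hD1, Or.inr hD2, fun y hy1 hy2 => ?_⟩
    have hlt : ∀ y : ℤ, c ≤ y → y < c + D → e μ s l y < L := by
      intro y h1 h2
      have h3 := hmin (y - c).toNat (by omega)
      have h4 : c + ((y - c).toNat : ℤ) = y := by omega
      rw [h4] at h3
      by_contra hcon
      exact h3 ⟨by omega, not_lt.1 hcon⟩
    rcases hy2.lt_or_eq with h1 | h1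
    · exact (hlt y hy1 h1).le.trans hLL
    · rcases hy1.lt_or_eq with h2 | h2
      · have h3 := hst (y - 1) (by omega) (by omega) (hlt (y - 1) (by omega) (by omega))
        rwa [sub_add_cancel] at h3
      · rw [← h2]
        exact h0.le.trans hLL
  · refine ⟨l, hcl, le_rfl, Or.inl rfl, fun y hy1 hy2 => ?_⟩
    by_contra hcon
    refine hex ⟨(y - c).toNat, by omega, ?_⟩
    have h4 : c + ((y - c).toNat : ℤ) = y := by omega
    rw [h4]
    linarith

omit [IsProbabilityMeasure μ] in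
/-- The end of the window on the side `-`. -/
theorem end_left21 {l : ℕ} {L L' : ℝ} {c : ℤ} (hc0 : 0 ≤ c) (hcl : c ≤ l) (h0 : e μ s l c < L) (hLL : L ≤ L')
    (hst : ∀ y : ℤ, 0 ≤ y → y + 1 ≤ l → e μ s l (y + 1) < L → e μ s l y ≤ L') :
    ∃ q : ℤ, 0 ≤ q ∧ q ≤ c ∧ (q = 0 ∨ L ≤ e μ s l q) ∧ ∀ y : ℤ, q ≤ y → y ≤ c → e μ s l y ≤ L' := by
  classical
  by_cases hex : ∃ D : ℕ, 0 ≤ c - D ∧ L ≤ e μ s l (c - D)
  · obtain ⟨D, ⟨hD1, hD2⟩, hmin⟩ := Nat.find_spec hex |> fun h => (⟨Nat.find hex, h, fun j hj => Nat.find_min hex hj⟩ :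
      ∃ D : ℕ, (0 ≤ c - D ∧ L ≤ e μ s l (c - D)) ∧ ∀ j, j < D → ¬ (0 ≤ c - j ∧ L ≤ e μ s l (c - j)))
    refine ⟨c - D, hD1, by omega, Or.inr hD2, fun y hy1 hy2 => ?_⟩
    have hlt : ∀ y : ℤ, c - D < y → y ≤ c → e μ s l y < L := by
      intro y h1 h2
      have h3 := hmin (c - y).toNat (by omega)
      have h4 : c - ((c - y).toNat : ℤ) = y := by omega
      rw [h4] at h3
      by_contra hcon
      exact h3 ⟨by omega, not_lt.1 hcon⟩
    rcases hy1.lt_or_eq with h1 | h1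
    · exact (hlt y h1 hy2).le.trans hLL
    · rcases hy2.lt_or_eq with h2 | h2
      · exact hst y (by omega) (by omega) (hlt (y + 1) (by omega) (by omega))
      · rw [h2]
        exact h0.le.trans hLL
  · refine ⟨0, le_rfl, hc0, Or.inl rfl, fun y hy1 hy2 => ?_⟩
    by_contra hcon
    refine hex ⟨(c - y).toNat, by omega, ?_⟩
    have h4 : c - ((c - y).toNat : ℤ) = y := by omega
    rw [h4]
    linarith

/-- **(B2)** From a soft functional of length `l` to a large luck which ends in a window of cheap displacements around `xs`. The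
lateral steps from the displacements of mean cost at most `(B + 4) E` lead to a mean cost at most `B' E` (`hst`, `hst'`). -/
theorem mid21 (hEM : Pool.Agent.W_7d29a1_h47.EM μ) (hnd : Pool.Agent.W_7d29a1_h47.Nondeg μ) {c1 : ℝ} (hc1 : 0 < c1)
    {A1 c C B B' K : ℝ} (hA1 : 0 ≤ A1) (hc : 0 < c) (hC : 0 < C) (hB : 0 ≤ B) (hBB : B + 6 ≤ B')
    (hcB : Real.exp (-(c * B)) ≤ 1 / 100) (hK : 0 < K) :
    ∃ p' U₀ : ℝ, 0 < p' ∧ 0 < U₀ ∧ ∀ s E : ℝ, U₀ ≤ E → ∀ l : ℕ, Real.log (l + 1) ≤ E →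
    e μ s l (xs μ s l) ≤ E → ∫ η, Real.exp (c / E * max (V μ s η 0 l) 0) ∂(law μ) ≤ C →
    (∀ y : ℤ, 0 ≤ y → y + 1 ≤ l → e μ s l y < (B + 4) * E → e μ s l (y + 1) ≤ B' * E) →
    (∀ y : ℤ, 0 ≤ y → y + 1 ≤ l → e μ s l (y + 1) < (B + 4) * E → e μ s l y ≤ B' * E) →
    ∀ (S : Set Pt) (G : Env → ℝ), Poly S G → (∀ η, 0 < G η) → (∀ η, Real.log (G η) ≤ V μ s η 0 l) →
    -(A1 * E) ≤ ∫ η, Real.log (G η) ∂(law μ) →
    c1 ≤ (law μ).real {η | c1 * E ≤ |Real.log (G η) - ∫ ξ, Real.log (G ξ) ∂(law μ)|} →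
    ∃ qa qb : ℤ, 0 ≤ qa ∧ qa ≤ xs μ s l ∧ xs μ s l ≤ qb ∧ qb ≤ l ∧
      (∀ q, qa ≤ q → q ≤ qb → e μ s l q ≤ B' * E) ∧
      p' ≤ (law μ).real {η | ∃ q, qa ≤ q ∧ q ≤ qb ∧ K * E ≤ -X μ s η 0 l q} := by
  obtain ⟨M, hM⟩ : ∃ M : ℝ, M = Real.sqrt (2 * C / c ^ 2) := ⟨_, rfl⟩
  have hM0 : 0 < M := by rw [hM]; positivity
  have hM2 : M ^ 2 = 2 * C / c ^ 2 := by rw [hM]; exact Real.sq_sqrt (by positivity)
  obtain ⟨p, U1, hp, hU1, h1⟩ := amp21 hEM hnd hc1 (A1 := A1) (K := K + 1) hA1 (by linarith) hM0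
  obtain ⟨p2, hp2, hfi⟩ := first_index21 hp hC
  obtain ⟨δ, hδ⟩ : ∃ δ : ℝ, δ = min (p2 / 16) 1 := ⟨_, rfl⟩
  have hδ0 : 0 < δ := by rw [hδ]; exact lt_min (by positivity) one_pos
  have hδ1 : δ ≤ 1 := by rw [hδ]; exact min_le_right _ _
  have hδ2 : δ ≤ p2 / 16 := by rw [hδ]; exact min_le_left _ _
  obtain ⟨p3, U3, hp3, hU3, h3⟩ := amp21 hEM hnd hδ0 (A1 := B') (K := K) (by linarith) hK hM0
  refine ⟨min (p2 / 2) p3, max U1 U3, lt_min (by positivity) hp3, lt_max_of_lt_left hU1,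
    fun s E hE l hlog hxs hexp hst hst' S G hG hG0 hGV hmean hfl => ?_⟩
  have hE1 : U1 ≤ E := (le_max_left _ _).trans hE
  have hE3 : U3 ≤ E := (le_max_right _ _).trans hE
  have hE0 : 0 < E := hU1.trans_le hE1
  have hVS : Sub fun η => V μ s η 0 l := Sub_V _ _
  have hV2 : ∫ η, (max (V μ s η 0 l) 0) ^ 2 ∂(law μ) ≤ (M * E) ^ 2 := by
    rw [mul_pow, hM2]
    exact sq_of_exp21 hEM hVS hc hE0 hexp
  have hlt : e μ s l (xs μ s l) < (B + 4) * E := by nlinarith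
  have hup : (B + 4) * E ≤ B' * E := mul_le_mul_of_nonneg_right (by linarith) hE0.le
  have hxm := xs_mem (μ := μ) (s := s) l
  obtain ⟨qb, hqb1, hqb2, hqb3, hqb4⟩ := end_right21 hxm.1 hxm.2 hlt hup hst
  obtain ⟨qa, hqa1, hqa2, hqa3, hqa4⟩ := end_left21 hxm.1 hxm.2 hlt hup hst'
  have hmid : ∀ q, qa ≤ q → q ≤ qb → e μ s l q ≤ B' * E := by
    intro q h4 h5
    rcases le_total (xs μ s l) q with h6 | h6
    · exact hqb4 q h6 h5
    · exact hqa4 q h4 h6
  refine ⟨qa, qb, hqa1, hqa2, hqb1, hqb2, hmid, ?_⟩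
  -- Case A: one of three costs fluctuates
  have caseA : ∀ y, qa ≤ y → y ≤ qb →
      δ ≤ (law μ).real {η | E ≤ |X μ s η 0 l y - e μ s l y|} →
      p3 ≤ (law μ).real {η | ∃ q, qa ≤ q ∧ q ≤ qb ∧ K * E ≤ -X μ s η 0 l q} := by
    intro y hy1 hy2 hy
    have hy0 : 0 ≤ y := hqa1.trans hy1
    have hyl : y ≤ l := hy2.trans hqb2
    have hlogW : ∀ η, Real.log (W μ s η 0 l y) = -X μ s η 0 l y := fun η => by unfold X; rw [neg_neg]
    have hXS : Sub fun η => -X μ s η 0 l y := (Sub_X 0 hy0 hyl).neg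
    have hX2 : ∫ η, (max (-X μ s η 0 l y) 0) ^ 2 ∂(law μ) ≤ (M * E) ^ 2 := by
      refine le_trans (integral_mono ((hXS.max (Sub.const 0)).sq_integrable hEM)
        ((hVS.max (Sub.const 0)).sq_integrable hEM) fun η => ?_) hV2
      exact pow_le_pow_left₀ (le_max_right _ _) (max_le_max_right _ (neg_X_le_V η 0 hy0 hyl)) 2
    have hmean' : ∫ η, Real.log (W μ s η 0 l y) ∂(law μ) = -e μ s l y := by
      simp_rw [hlogW]
      rw [integral_neg]
      rfl
    have h4 := h3 E hE3 (fun η => -X μ s η 0 l y) hXS hX2 _ (fun η => W μ s η 0 l y) (poly_W 0 l y)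
      (fun η => W_pos η 0 hy0 hyl) (fun η => (hlogW η).le) (by
        rw [hmean']
        linarith [hmid y hy1 hy2]) (by
        rw [hmean']
        refine hy.trans (measureReal_mono (fun η hη => ?_) (measure_ne_top _ _))
        rw [Set.mem_ofPred_eq] at hη ⊢
        rw [hlogW, show -X μ s η 0 l y - -e μ s l y = -(X μ s η 0 l y - e μ s l y) by ring, abs_neg]
        refine le_trans ?_ hη
        nlinarith)
    refine h4.trans (measureReal_mono (fun η hη => ?_) (measure_ne_top _ _))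
    rw [Set.mem_ofPred_eq] at hη ⊢
    exact ⟨y, hy1, hy2, hη⟩
  by_cases hA : δ ≤ (law μ).real {η | E ≤ |X μ s η 0 l (xs μ s l) - e μ s l (xs μ s l)|}
  · exact (min_le_right _ _).trans (caseA _ hqa2 hqb1 hA)
  by_cases hA1' : δ ≤ (law μ).real {η | E ≤ |X μ s η 0 l qb - e μ s l qb|}
  · exact (min_le_right _ _).trans (caseA _ (by omega) le_rfl hA1')
  by_cases hA2 : δ ≤ (law μ).real {η | E ≤ |X μ s η 0 l qa - e μ s l qa|}
  · exact (min_le_right _ _).trans (caseA _ le_rfl (by omega) hA2)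
  refine (min_le_left _ _).trans ?_
  have hpK : p ≤ (law μ).real {η | (K + 1) * E ≤ V μ s η 0 l} :=
    h1 E hE1 (fun η => V μ s η 0 l) hVS hV2 S G hG hG0 hGV hmean hfl
  have hfin := hfi (fun t => (law μ).real {η | t * E ≤ V μ s η 0 l})
    (fun t => (law μ).real {η | ∃ q, qa ≤ q ∧ q ≤ qb ∧ (t - 1) * E ≤ -X μ s η 0 l q}) ?_ ?_
    (K + 1) B δ hB hpK ?_ ?_ hδ2
  · simpa using hfin
  · intro t t' htt
    refine measureReal_mono (fun η hη => ?_) (measure_ne_top _ _)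
    rw [Set.mem_ofPred_eq] at hη ⊢
    exact (mul_le_mul_of_nonneg_right htt hE0.le).trans hη
  · intro t t' htt
    refine measureReal_mono (fun η hη => ?_) (measure_ne_top _ _)
    rw [Set.mem_ofPred_eq] at hη ⊢
    obtain ⟨q, h4, h5, h6⟩ := hη
    exact ⟨q, h4, h5, (mul_le_mul_of_nonneg_right (by linarith) hE0.le).trans h6⟩
  · intro j
    refine (markov_exp21 hEM hVS hc hE0 hexp (K + 1 + j * B)).trans ?_
    refine mul_le_mul_of_nonneg_left ?_ hC.le
    have h5 : Real.exp (-(c * (K + 1 + j * B))) ≤ Real.exp (-(c * B)) ^ j := by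
      rw [← Real.exp_nat_mul]
      refine Real.exp_le_exp.2 ?_
      have : 0 < c * K := by positivity
      nlinarith
    exact h5.trans (pow_le_pow_left₀ (Real.exp_pos _).le hcB j)
  · intro t _
    have h4 := mid_step21 (μ := μ) (s := s) (l := l) (E := E) (B := B) (del := δ) hlog hqa1 hqa2 hqb1 hqb2 hxs hδ0.le
      (hqb3.imp id fun h => ⟨h, (not_le.1 hA1').le⟩) (hqa3.imp id fun h => ⟨h, (not_le.1 hA2).le⟩) (not_le.1 hA).le
      (t - 1)
    rw [sub_add_cancel, show t - 1 + B + 1 = t + B by ring] at h4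
    exact h4

/-- The statement of the lucky window (helper83). -/
def MidH (μ : Measure ℝ) : Prop := ∀ c1 A1 c C B B' K : ℝ, 0 < c1 → c1 ≤ 1 → 0 ≤ A1 → 0 < c → 0 < C → 0 ≤ B → B + 6 ≤ B' →
    Real.exp (-(c * B)) ≤ 1 / 100 → 0 < K →
    ∃ p' U0 : ℝ, 0 < p' ∧ 0 < U0 ∧ ∀ s E : ℝ, U0 ≤ E → ∀ l : ℕ, 1 ≤ l → e μ s l (xs μ s l) ≤ E →
      Real.log (l + 1) ≤ E →
      (∀ q q' : ℤ, 0 ≤ q → q ≤ l → 0 ≤ q' → q' ≤ l → |q' - q| ≤ 1 → e μ s l q ≤ (B + 6) * E → e μ s l q' ≤ B' * E) →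
      ∫ η, Real.exp (c / E * max (V μ s η 0 l) 0) ∂(law μ) ≤ C →
      ∀ (S : Set Pt) (G : Env → ℝ), Poly S G → (∀ η, 0 < G η) → (∀ η, Real.log (G η) ≤ V μ s η 0 l) →
      -(A1 * E) ≤ ∫ η, Real.log (G η) ∂(law μ) →
      c1 ≤ (law μ).real {η | c1 * E ≤ |Real.log (G η) - ∫ ξ, Real.log (G ξ) ∂(law μ)|} →
      ∃ qa qb : ℤ, 0 ≤ qa ∧ qa ≤ xs μ s l ∧ xs μ s l ≤ qb ∧ qb ≤ l ∧ (∀ q, qa ≤ q → q ≤ qb → e μ s l q ≤ B' * E) ∧
        p' ≤ (law μ).real {η | ∃ q, qa ≤ q ∧ q ≤ qb ∧ K * E ≤ -X μ s η 0 l q}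

/-- **The lucky window**, for every tilt. -/
theorem midH21 (hEM : Pool.Agent.W_7d29a1_h47.EM μ) (hnd : Pool.Agent.W_7d29a1_h47.Nondeg μ) : MidH μ := by
  intro c1 A1 c C B B' K hc1 _ hA1 hc hC hB hBB hcB hK
  obtain ⟨p', U0, hp', hU0, h⟩ := mid21 hEM hnd hc1 hA1 hc hC hB hBB hcB hK
  refine ⟨p', U0, hp', hU0, fun s E hE l _ hxs hlog hnb hexp S G hG hG0 hGV hmean hfl => ?_⟩
  have hE0 : 0 < E := hU0.trans_le hE
  have hup : (B + 4) * E ≤ (B + 6) * E := mul_le_mul_of_nonneg_right (by linarith) hE0.le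
  refine h s E hE l hlog hxs hexp (fun y h0 h1 h2 => ?_) (fun y h0 h1 h2 => ?_) S G hG hG0 hGV hmean hfl
  · exact hnb y (y + 1) h0 (by omega) (by omega) h1 (by rw [show y + 1 - y = 1 by ring]; simp) (h2.le.trans hup)
  · exact hnb (y + 1) y (by omega) h1 h0 (by omega) (by rw [show y - (y + 1) = -1 by ring]; simp) (h2.le.trans hup)

/-- The short functionals: the window is the whole interval `[0, l]`. -/
theorem mid_short21 (hEM : Pool.Agent.W_7d29a1_h47.EM μ) (hnd : Pool.Agent.W_7d29a1_h47.Nondeg μ) {c1 : ℝ}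
    (hc1 : 0 < c1) {A1 c C K : ℝ} (hA1 : 0 ≤ A1) (hc : 0 < c) (hC : 0 < C) (hK : 0 < K) :
    ∃ p' U₀ : ℝ, 0 < p' ∧ 0 < U₀ ∧ ∀ s E : ℝ, U₀ ≤ E → ∀ l : ℕ, Real.log (l + 1) ≤ E →
    ∫ η, Real.exp (c / E * max (V μ s η 0 l) 0) ∂(law μ) ≤ C →
    ∀ (S : Set Pt) (G : Env → ℝ), Poly S G → (∀ η, 0 < G η) → (∀ η, Real.log (G η) ≤ V μ s η 0 l) →
    -(A1 * E) ≤ ∫ η, Real.log (G η) ∂(law μ) →
    c1 ≤ (law μ).real {η | c1 * E ≤ |Real.log (G η) - ∫ ξ, Real.log (G ξ) ∂(law μ)|} →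
      p' ≤ (law μ).real {η | ∃ q : ℤ, 0 ≤ q ∧ q ≤ l ∧ K * E ≤ -X μ s η 0 l q} := by
  obtain ⟨M, hM⟩ : ∃ M : ℝ, M = Real.sqrt (2 * C / c ^ 2) := ⟨_, rfl⟩
  have hM0 : 0 < M := by rw [hM]; positivity
  have hM2 : M ^ 2 = 2 * C / c ^ 2 := by rw [hM]; exact Real.sq_sqrt (by positivity)
  obtain ⟨p, U1, hp, hU1, h1⟩ := amp21 hEM hnd hc1 (A1 := A1) (K := K + 1) hA1 (by linarith) hM0
  refine ⟨p, U1, hp, hU1, fun s E hE l hlog hexp S G hG hG0 hGV hmean hfl => ?_⟩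
  have hE0 : 0 < E := hU1.trans_le hE
  have hVS : Sub fun η => V μ s η 0 l := Sub_V _ _
  have hV2 : ∫ η, (max (V μ s η 0 l) 0) ^ 2 ∂(law μ) ≤ (M * E) ^ 2 := by
    rw [mul_pow, hM2]
    exact sq_of_exp21 hEM hVS hc hE0 hexp
  refine (h1 E hE (fun η => V μ s η 0 l) hVS hV2 S G hG hG0 hGV hmean hfl).trans
    (measureReal_mono (fun η hη => ?_) (measure_ne_top _ _))
  rw [Set.mem_ofPred_eq] at hη ⊢
  obtain ⟨b, hb0, hb1, hb2⟩ := exists_end21 η l hη
  exact ⟨b, hb0, hb1, by linarith⟩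

end

end Pool.Agent.W_7d29a1_H
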