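import Pool.Agent.W_7d29a1_H.CNumH83
import Pool.Agent.W_7d29a1_H.MidH21
import Pool.Agent.W_7d29a1_H.Soft4
import Pool.Agent.W_7d29a1_H.UnitH

/-!
MP_7d29a1_pr, TRACK H (all tilts), section CORE: the core at the soft scales, for a bounded set of tilts. (helper83)
-/

set_option autoImplicit false

namespace Pool.Agent.W_7d29a1_H

open MeasureTheory ProbabilityTheory Filter Topology Set
open Pool.Agent.W_7d29a1_F Pool.Agent.W_7d29a1_h4g

noncomputable section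

/-- The statement of the place lemma. -/
def PlH83 (μ : Measure ℝ) : Prop := ∀ (s : ℝ) (m r l j : ℕ) (lo hi x f qa qb : ℤ) (w E C c0 c1 : ℝ), 1 ≤ l → l + j = m →
  0 < E → 0 < c0 → 0 < C → 0 ≤ c1 → 2 / c0 ≤ w → c0 * w - 1 ≤ (hi : ℝ) - lo → lo ≤ hi → 0 ≤ lo → hi ≤ m →
  (∀ y, lo ≤ y → y ≤ hi → ep μ s m y ≤ C * E) → (∀ y, lo ≤ y → y ≤ hi → |(y : ℝ) - sl μ s * m| ≤ C * w) →
  0 ≤ f → f ≤ j → ep μ s j f ≤ C * E → |(f : ℝ) - sl μ s * j| ≤ C * w →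
  0 ≤ x → x ≤ l → ep μ s l x ≤ C * E → |(x : ℝ) - sl μ s * l| ≤ C * w →
  0 ≤ qa → qa ≤ x → x ≤ qb → qb ≤ l → (qb : ℝ) - qa ≤ c1 * w → 1 ≤ r → 2 * c1 / c0 ≤ r →
  (0 ≤ qb + (f + r * lo) ∧ qb + (f + r * lo) ≤ (((1 + r) * m : ℕ) : ℤ)) ∧
  ep μ s ((1 + r) * m) (qb + (f + r * lo)) ≤ (c1 + (3 + 2 * r) * C) * E ∧
  |((qb + (f + r * lo) : ℤ) : ℝ) - sl μ s * (((1 + r) * m : ℕ) : ℝ)| ≤ (c1 + (3 + 2 * r) * C) * w ∧
  ∀ k : ℝ, (1 / 2) * (law μ).real {η | ∃ q, qa ≤ q ∧ q ≤ qb ∧ (k + (c1 + (3 + 2 * r) * C)) * E ≤ -X μ s η 0 l q} ≤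
    (law μ).real {η | k * E ≤ -X μ s η 0 ((1 + r) * m) (qb + (f + r * lo))}

variable {μ : Measure ℝ} [IsProbabilityMeasure μ] {H δ : ℝ} {A : Set ℝ} {s : ℝ}

/-- **THE CORE AT SOFT SCALES**, from the lucky window and the place lemma. -/
theorem coreH_of83 {a : ℝ} (hD : Dirs μ H δ A) (ha : 0 < a) (hR : Rate μ A) (hG : Grow μ A) (hlog : LogG μ A)
    (hLS : LStarH a μ A) (hCh : CheapH a μ A) (hMid : MidH μ) (hPl : PlH83 μ) :
    ∃ (r : ℕ) (C3 : ℝ), 1 ≤ r ∧ 0 < C3 ∧ CoreH a μ A r C3 := by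
  classical
  have hEM := hD.em
  have hδ := hD.δ0
  have hv : ∀ s ∈ A, 0 ≤ sl μ s ∧ sl μ s ≤ 1 := fun s hs =>
    ⟨hδ.le.trans (hD.lo s hs), (hD.hi s hs).trans (by linarith)⟩
  have hwp : ∀ s ∈ A, ∀ n : ℕ, 1 ≤ n → 0 < wH a μ s n := fun s hs n hn => by
    have h1 := hD.vA_pos hs ha hn
    have h2 : (0 : ℝ) < n := by exact_mod_cast hn
    exact mul_pos h2 h1
  obtain ⟨c, C, n1, hc, hC, hV⟩ := Vp_exp83 hEM hv hwp hLS
  obtain ⟨cw, Cw, hcw, hch⟩ := hCh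
  obtain ⟨B, hB⟩ : ∃ B : ℝ, B = Real.log 100 / c := ⟨_, rfl⟩
  have hB0 : 0 ≤ B := by rw [hB]; exact div_nonneg (Real.log_nonneg (by norm_num)) hc.le
  have hcB : Real.exp (-(c * B)) ≤ 1 / 100 := by
    rw [hB, mul_div_cancel₀ _ hc.ne', Real.exp_neg, Real.exp_log (by norm_num)]
    norm_num
  obtain ⟨B', hBB', hnb⟩ := nbr83 hD (B := B + 6) (by linarith)
  obtain ⟨c1, hc1⟩ : ∃ c1 : ℝ, c1 = 2 * max 1 (B' / a) := ⟨_, rfl⟩
  have hc10 : 0 ≤ c1 := by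
    rw [hc1]
    have := le_max_left 1 (B' / a)
    linarith
  obtain ⟨r, hr⟩ : ∃ r : ℕ, r = ⌈2 * c1 / cw⌉₊ + 1 := ⟨_, rfl⟩
  have hr1 : 1 ≤ r := by omega
  have hr2 : 2 * c1 / cw ≤ r := by
    have := Nat.le_ceil (2 * c1 / cw)
    rw [hr]
    push_cast
    linarith
  obtain ⟨Cc, hCc⟩ : ∃ Cc : ℝ, Cc = |Cw| + 3 := ⟨_, rfl⟩
  have hCc0 : 3 ≤ Cc := by
    rw [hCc]
    have := abs_nonneg Cw
    linarith
  obtain ⟨C3, hC3⟩ : ∃ C3 : ℝ, C3 = c1 + (3 + 2 * r) * Cc := ⟨_, rfl⟩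
  have hC30 : 0 < C3 := by
    rw [hC3]
    positivity
  refine ⟨r, C3, hr1, hC30, fun Kr a1 => ?_⟩
  obtain ⟨Kc, hKc'⟩ : ∃ Kc : ℝ, Kc = max Kr 1 := ⟨_, rfl⟩
  have hKc : 0 < Kc := by rw [hKc']; exact lt_max_of_lt_right one_pos
  have hKr : Kr ≤ Kc := by rw [hKc']; exact le_max_left _ _
  obtain ⟨a1', ha1'⟩ : ∃ a1' : ℝ, a1' = max a1 0 := ⟨_, rfl⟩
  have ha10 : 0 ≤ a1' := by rw [ha1']; exact le_max_right _ _
  have haa : a1 ≤ a1' := by rw [ha1']; exact le_max_left _ _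
  obtain ⟨k1, hk1⟩ : ∃ k1 : ℕ, k1 = ⌈a1⌉₊ + 1 := ⟨_, rfl⟩
  have hk1' : a1' ≤ (k1 : ℝ) - 1 := by
    rw [hk1, ha1']
    push_cast
    rw [add_sub_cancel_right]
    exact max_le (Nat.le_ceil _) (Nat.cast_nonneg _)
  obtain ⟨cs, hcs⟩ : ∃ cs : ℝ, cs = (2 : ℝ) ^ (-a1') / 2 ^ k1 := ⟨_, rfl⟩
  have h2a : (0 : ℝ) < 2 ^ (-a1') := Real.rpow_pos_of_pos two_pos _
  have h2a1 : (2 : ℝ) ^ (-a1') ≤ 1 := by
    rw [Real.rpow_neg two_pos.le]
    exact inv_le_one_of_one_le₀ (Real.one_le_rpow one_le_two ha10)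
  have hpk : (1 : ℝ) ≤ 2 ^ k1 := one_le_pow₀ one_le_two
  have hcs0 : 0 < cs := by rw [hcs]; positivity
  have hcs2 : cs ≤ 2 ^ (-a1') := by
    rw [hcs]
    exact div_le_self h2a.le hpk
  have hcs1 : cs ≤ 1 := hcs2.trans h2a1
  obtain ⟨p', U0, hp', hU0, hmid⟩ := hMid cs (2 ^ a1') c C B B' (Kc + 1 + C3) hcs0 hcs1 (by positivity) hc hC hB0 hBB' hcB
    (by linarith)
  obtain ⟨R, n2, htube⟩ := tube83 hEM hv hwp hLS hlog r C3 (ε := p' / 4) (by positivity)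
  obtain ⟨n3, hn3⟩ := hG U0
  obtain ⟨n4, hn41, hn4⟩ := hD.w_large hR ha (max (2 / cw) 1)
  obtain ⟨n5, hn5⟩ := hlog 2
  refine ⟨p' / 4, R, k1, max (max (max n1 n2) (max n3 n4)) (max n5 2), by positivity, Nat.cast_nonneg _, ?_⟩
  intro s hs y hy hS m hm
  have hym : y ≤ m := by
    rw [hm]
    exact (Nat.le_add_right y _).trans Nat.lt_two_pow_self.le
  have hmn1 : n1 ≤ m := by omega
  have hmn2 : n2 ≤ m := by omega
  have hmn3 : n3 ≤ m := by omega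
  have hmn4 : n4 ≤ m := by omega
  have hmn5 : n5 ≤ m := by omega
  have hm2 : 2 ≤ m := by omega
  have hm1 : 1 ≤ m := by omega
  obtain ⟨E, hE⟩ : ∃ E : ℝ, E = EE μ s m := ⟨_, rfl⟩
  obtain ⟨w, hw⟩ : ∃ w : ℝ, w = wH a μ s m := ⟨_, rfl⟩
  have hE1 : 1 ≤ E := by rw [hE]; exact one_le_EE m
  have hE0 : 0 < E := one_pos.trans_le hE1
  have hEU := hn3 s hs m hmn3
  have hwE : max (2 / cw) 1 * EE μ s m ≤ wH a μ s m := hn4 s hs m hmn4
  rw [← hE] at hEU hwE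
  rw [← hw] at hwE
  have hw4 : max (2 / cw) 1 ≤ w := by
    refine le_trans ?_ hwE
    exact le_mul_of_one_le_right (le_max_of_le_right zero_le_one) hE1
  have hw5 : 2 / cw ≤ w := (le_max_left _ _).trans hw4
  have hw6 : 1 ≤ w := (le_max_right _ _).trans hw4
  have hw0 : 0 < w := by linarith
  have hlogm : Real.log ((m : ℝ) + 1) ≤ E := by
    have h1 := hn5 s hs m hmn5
    rw [← hE] at h1
    refine le_trans ?_ h1
    have hm2' : (2 : ℝ) ≤ m := by exact_mod_cast hm2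
    have e1 : Real.log ((m : ℝ) ^ 2) = 2 * Real.log m := by rw [Real.log_pow]; norm_num
    rw [← e1]
    refine Real.log_le_log (by positivity) ?_
    nlinarith
  rw [← hE, ← hw]
  -- the soft functional
  obtain ⟨l, G, hl, hP, hGp, hGV, hmean, hfl⟩ := hS.mono haa
  have hl1 : 1 ≤ l := pos_dur83 (μ := μ) (c := 2 ^ (-a1')) (E := EE μ s (2 ^ y)) hP h2a (EE_pos _) hfl
  have hlm : l ≤ m := by
    have h4 : (2 : ℝ) ^ ((y : ℝ) + a1') ≤ 2 ^ ((y : ℝ) + k1) :=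
      Real.rpow_le_rpow_of_exponent_le one_le_two (by linarith)
    have h5 : (2 : ℝ) ^ ((y : ℝ) + (k1 : ℝ)) = ((m : ℕ) : ℝ) := by
      rw [hm, ← Nat.cast_add, Real.rpow_natCast]
      push_cast
      rfl
    have h6 : (l : ℝ) ≤ m := (hl.trans h4).trans_eq h5
    exact_mod_cast h6
  have hEy : EE μ s (2 ^ y) ≤ E := by
    rw [hE, hm]
    exact EE_mono (Nat.pow_le_pow_right (by norm_num) (Nat.le_add_right _ _))
  have hEy2 : E ≤ 2 ^ k1 * EE μ s (2 ^ y) := by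
    have h4 := EE_mul hEM s (2 ^ y) (k := 2 ^ k1) Nat.one_le_two_pow
    rw [← pow_add, add_comm k1 y, ← hm, ← hE] at h4
    exact_mod_cast h4
  have hes : ∀ j : ℕ, j ≤ m → es μ s j + 1 ≤ E := fun j hj => by rw [hE]; exact le_EE hj
  have hexl : e μ s l (xs μ s l) ≤ E := by
    have h4 := e_xs_le hEM s l
    have h5 := hes l hlm
    linarith
  have hlogl : Real.log ((l : ℝ) + 1) ≤ E := by
    refine le_trans (Real.log_le_log (by positivity) ?_) hlogm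
    have : (l : ℝ) ≤ m := by exact_mod_cast hlm
    linarith
  have hexp : ∫ η, Real.exp (c / E * max (V μ s η 0 l) 0) ∂(law μ) ≤ C := by
    rw [hE]
    exact hV s hs m hmn1 l hlm
  obtain ⟨qa, qb, hqa0, hqa, hqb, hqbl, hq, hprob⟩ := hmid s E hEU l hl1 hexl hlogl
    (fun q q' g1 g2 g3 g4 g5 g6 => by
      rw [hE] at g6 ⊢
      exact hnb s hs l m hl1 q q' g1 g2 g3 g4 g5 g6) hexp _ G hP hGp hGV
    (by
      have := mul_le_mul_of_nonneg_left hEy (show (0 : ℝ) ≤ 2 ^ a1' by positivity)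
      linarith)
    (by
      refine hcs2.trans (hfl.trans (measureReal_mono (fun η hη => ?_) (measure_ne_top _ _)))
      have h4 : cs * E ≤ 2 ^ (-a1') * EE μ s (2 ^ y) := by
        rw [hcs, div_mul_eq_mul_div, div_le_iff₀ (by positivity)]
        have h5 := mul_le_mul_of_nonneg_left hEy2 h2a.le
        linarith only [h5]
      exact h4.trans hη)
  -- the place
  obtain ⟨lo, hi, hlo0, hlo, hhi, him, hlen, hint⟩ := hch s hs m hm1
  rw [← hE, ← hw] at hint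
  rw [← hw] at hlen
  have hlohi : lo ≤ hi := hlo.trans hhi
  have hepxs : ∀ j : ℕ, j ≤ m → ep μ s j (xs μ s j) ≤ Cc * E := by
    intro j hj
    have h4 := ep_xs_le hEM s j
    have h5 := hes j hj
    have h6 : 3 * E ≤ Cc * E := mul_le_mul_of_nonneg_right hCc0 hE0.le
    linarith only [h4, h5, h6, hE0]
  have hxsl : ∀ j : ℕ, j ≤ m → |(xs μ s j : ℝ) - sl μ s * j| ≤ Cc * w := by
    intro j hj
    rcases Nat.eq_zero_or_pos j with hj0 | hj0
    · rw [hj0, xs_zero]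
      simp only [Int.cast_zero, Nat.cast_zero, mul_zero, sub_zero, abs_zero]
      positivity
    · obtain ⟨lo', hi', -, hlo', hhi', -, -, hint'⟩ := hch s hs j hj0
      have h4 := (hint' (xs μ s j) hlo' hhi').2
      have h5 : wH a μ s j ≤ wH a μ s m := hD.w_mono hs ha.le hj0 hj
      rw [← hw] at h5
      have h6 : 3 * w ≤ Cc * w := mul_le_mul_of_nonneg_right hCc0 hw0.le
      linarith only [h4, h5, h6, hw6]
  have hB'0 : 0 ≤ B' := by linarith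
  have hwin : (qb : ℝ) - qa ≤ c1 * w := by
    have h4 := near83 hD hs ha hB'0 hl1 hlm (q := qa) hqa0 (hqa.trans (hqb.trans hqbl)) (by
      rw [← hE]
      exact hq qa le_rfl (hqa.trans hqb))
    have h5 := near83 hD hs ha hB'0 hl1 hlm (q := qb) (hqa0.trans (hqa.trans hqb)) hqbl (by
      rw [← hE]
      exact hq qb (hqa.trans hqb) le_rfl)
    rw [← hw] at h4 h5
    have h6 := abs_le.1 h4
    have h7 := abs_le.1 h5
    rw [hc1]
    linarith [h6.1, h7.2]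
  obtain ⟨hp0, hp1, hp2, hp3⟩ := hPl s m r l (m - l) lo hi (xs μ s l) (xs μ s (m - l)) qa qb w E Cc cw c1 hl1 (by omega) hE0
    hcw (by linarith) hc10 hw5 hlen hlohi hlo0 him
    (fun y h4 h5 => by
      have h6 := (hint y h4 h5).1
      have h7 := ep_le_es hEM s (n := m) (y := y) (hlo0.trans h4) (h5.trans him)
      have h9 := hes m le_rfl
      have h10 : Cw * E ≤ |Cw| * E := mul_le_mul_of_nonneg_right (le_abs_self _) hE0.le
      rw [hCc, add_mul]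
      linarith only [h6, h7, h9, h10, hE0])
    (fun y h4 h5 => by
      have h6 := (hint y h4 h5).2
      have h7 : 3 * w ≤ Cc * w := mul_le_mul_of_nonneg_right hCc0 hw0.le
      linarith only [h6, h7, hw6])
    (xs_mem _).1 (xs_mem _).2 (hepxs _ (by omega)) (hxsl _ (by omega)) (xs_mem _).1 (xs_mem _).2 (hepxs _ hlm)
    (hxsl _ hlm) hqa0 hqa hqb hqbl hwin hr1 hr2
  rw [← hC3] at hp1 hp2 hp3
  refine ⟨qb + (xs μ s (m - l) + r * lo), hp0.1, hp0.2, ?_, hp1, hp2⟩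
  -- the tube
  obtain ⟨M, hM⟩ : ∃ M : ℕ, M = (1 + r) * m := ⟨_, rfl⟩
  obtain ⟨k, hk⟩ : ∃ k : ℤ, k = qb + (xs μ s (m - l) + r * lo) := ⟨_, rfl⟩
  have ht := htube s hs m hmn2 ((1 + r) * m) (qb + (xs μ s (m - l) + r * lo)) le_rfl (by rw [← hw]; exact hp2)
  have hprob2 := hp3 (Kc + 1)
  rw [← hw] at ht
  rw [← hM, ← hk] at ht hprob2 hp0 ⊢
  have hsub : {η | (Kc + 1) * E ≤ -X μ s η 0 M k} ⊆ {η | EvH μ s (R * w) (Kr * E) M k 0 η} ∪
      {η | ¬ W μ s η 0 M k ≤ WR μ s (tb (sl μ s) 0 (R * w)) η 0 M k + 1} := by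
    intro η hη
    by_cases hcase : W μ s η 0 M k ≤ WR μ s (tb (sl μ s) 0 (R * w)) η 0 M k + 1
    · left
      rw [mem_ofPred_eq] at hη ⊢
      have hWp : 0 < W μ s η 0 M k := W_pos (μ := μ) (s := s) η 0 hp0.1 hp0.2
      unfold X at hη
      rw [neg_neg, Real.le_log_iff_exp_le hWp] at hη
      have h4 : Real.exp (Kc * E) ≤ WR μ s (tb (sl μ s) 0 (R * w)) η 0 M k := by
        have h5 : (Kc + 1) * E = Kc * E + E := by ring
        rw [h5, Real.exp_add] at hη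
        have h6 : 1 ≤ Real.exp (Kc * E) := Real.one_le_exp (by positivity)
        have h7 : (2 : ℝ) ≤ Real.exp E := by
          have := Real.add_one_le_exp E
          linarith
        have h8 : Real.exp (Kc * E) * 2 ≤ Real.exp (Kc * E) * Real.exp E :=
          mul_le_mul_of_nonneg_left h7 (by positivity)
        linarith
      show Kr * E ≤ Real.log (WR μ s (tb (sl μ s) 0 (R * w)) η 0 M k)
      rw [Real.le_log_iff_exp_le (lt_of_lt_of_le (Real.exp_pos _) h4)]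
      refine le_trans (Real.exp_le_exp.2 ?_) h4
      exact mul_le_mul_of_nonneg_right hKr hE0.le
    · right
      exact hcase
  have h4 := (measureReal_mono (μ := law μ) hsub (measure_ne_top _ _)).trans (measureReal_union_le _ _)
  linarith

end

end Pool.Agent.W_7d29a1_H
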