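import Pool.Agent.W_7d29a1_H.ElDefH66
import Pool.Agent.W_7d29a1_h66.Rec3

/-!
MP_7d29a1_pr, TRACK H (all tilts), (D7): the data of a scale at which nothing fluctuates and the cost of the cheapest displacement
grows (`Scale` of `W_7d29a1_h66.D7b` with a general tilt `s` and general drifts `cm`, `cr` of the slab and of the reference).
-/

set_option autoImplicit false

namespace Pool.Agent.W_7d29a1_H

open MeasureTheory ProbabilityTheory Filter Topology Set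
open Pool.Agent.W_7d29a1_F Pool.Agent.W_7d29a1_h4g

noncomputable section

/-- **THE DATA OF A SCALE**: `m` slab with the drift `cm`, `r` reference with the displacements `cr`, `cr + h`, `m + r` piece, `h` mesh,
`Q h` coarse cell, unit `E`, growth `s₀`, level `ε`. -/
structure ScH (μ : Measure ℝ) (s : ℝ) (m r h Q : ℕ) (cm cr : ℤ) (E e₁ e₂ s₀ ε A B K : ℝ) : Prop where
  em : Pool.Agent.W_7d29a1_h47.EM μ
  rm : r ≤ m
  one_h : 1 ≤ h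
  cm0 : 0 ≤ cm
  cm1 : cm ≤ m
  cr0 : 0 ≤ cr
  cr1 : cr + h ≤ r
  e10 : 0 ≤ e₁
  unit : e₁ ≤ E
  grow : e₁ + s₀ * E ≤ e₂
  ref1 : (law μ).real {η | e₁ + ε * E < X μ s η 0 r cr} ≤ ε
  ref2 : (law μ).real {η | e₁ + ε * E < X μ s η 0 r (cr + h)} ≤ ε
  piece : ∀ y : ℤ, 0 ≤ y → y ≤ ((m + r : ℕ) : ℤ) → (law μ).real {η | X μ s η 0 (m + r) y < e₂ - ε * E} ≤ ε
  driftm : |(cm : ℝ) - sl μ s * m| ≤ 1
  driftr : |(cr : ℝ) - sl μ s * r| ≤ K * (Q * h : ℕ)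
  el1 : ∀ y0 : ℤ, ∫ η, GB66 μ s m (Q * h) y0 η ^ (4 * (A / E)) ∂(law μ) ≤
    Real.exp (4 * (B - |(y0 : ℝ) - sl μ s * m| / (Q * h : ℕ)))
  el2 : ∀ y0 : ℤ, ∫ η, GB66 μ s (m + r) (Q * h) y0 η ^ (4 * (A / E)) ∂(law μ) ≤
    Real.exp (4 * (B - |(y0 : ℝ) - sl μ s * (m + r : ℕ)| / (Q * h : ℕ)))

/-- The factors of one slab (`W_7d29a1_h66.ff`) have small second moments: seam between the factors and the theorem. -/
def FacH (μ : Measure ℝ) (s : ℝ) (m r h Q : ℕ) (cm cr : ℤ) (E e₁ ε A x : ℝ) (Tb Tg lam Tgg : ℝ) : Prop :=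
  ∀ δ : ℤ, (∀ b : Bool, ∫ η, Pool.Agent.W_7d29a1_h66.ff μ s m r h cm cr (e₁ + ε * E) (A / E) b false δ η ^ 2 ∂(law μ) ≤
      (x * Real.exp (Tb - |(δ : ℝ)| / Q)) ^ 2) ∧
    (∀ b : Bool, ∫ η, Pool.Agent.W_7d29a1_h66.ff μ s m r h cm cr (e₁ + ε * E) (A / E) b true δ η ^ 2 ∂(law μ) ≤
      (2 * Real.exp (Tg - |(δ : ℝ)| / Q)) ^ 2) ∧
    ∫ η, Pool.Agent.W_7d29a1_h66.ff μ s m r h cm cr (e₁ + ε * E) (A / E) true true δ η ^ 2 ∂(law μ) ≤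
      (4 * Real.exp (Tgg - lam * (|(δ : ℝ)| / Q))) ^ 2

end

end Pool.Agent.W_7d29a1_H
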