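import Pool.Agent.W_7d29a1_H.ElDefH66
import Pool.Agent.W_7d29a1_h66.D7

/-!
MP_7d29a1_pr, TRACK H (all tilts), (D7): the data of a scale and the bounds of the factors of one slab, any tilt and any reference.
(helper66)
-/

set_option autoImplicit false

namespace Pool.Agent.W_7d29a1_H

open MeasureTheory ProbabilityTheory
open Pool.Agent.W_7d29a1_F Pool.Agent.W_7d29a1_h4g
open Pool.Agent.W_7d29a1_h66 (mx le_mx mx_le mx_nonneg mx_meas mx_rpow_le mx_rpow_int sum_W_int St St_mem St_sub PP RR PP_nonneg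
  RR_nonneg Good Good_meas cs_event cs_plain sq_rpow sq_rpow' exp_sq pref_le real_shift real_shift_lt)
open Pool.Agent.W_7d29a1_h66 renaming ff → ff66

variable {μ : Measure ℝ} {s : ℝ}

theorem GB66_nonneg (t w : ℕ) (y0 : ℤ) (η : Env) : 0 ≤ GB66 μ s t w y0 η :=
  mx_nonneg fun _ _ => Finset.sum_nonneg fun _ _ => W_nonneg _ _ _ _

theorem GB66_meas (t w : ℕ) (y0 : ℤ) : Measurable (GB66 μ s t w y0) :=
  mx_meas fun _ _ => Finset.measurable_sum _ fun _ _ => measurable_W _ _ _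

theorem GB66_int [IsProbabilityMeasure μ] (hEM : Pool.Agent.W_7d29a1_h47.EM μ) (t w : ℕ) (y0 : ℤ) {p : ℝ} (hp : 0 < p) :
    Integrable (fun η => GB66 μ s t w y0 η ^ p) (law μ) := by
  refine mx_rpow_int (F := fun a η => ∑ b ∈ Finset.Ico 0 (w : ℤ),
    W μ s η (0, a) t (y0 + b - a)) (fun _ _ _ => Finset.sum_nonneg fun _ _ => W_nonneg _ _ _ _)
    (fun _ _ => Finset.measurable_sum _ fun _ _ => measurable_W _ _ _) hp fun a _ => ?_
  have h := sum_W_int (μ := μ) (s := s) hEM (0, a) t (Finset.Ico 0 (w : ℤ)) (y0 - a) hp.le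
  refine h.congr (Filter.Eventually.of_forall fun η => ?_)
  show (∑ b ∈ Finset.Ico 0 (w : ℤ), W μ s η (0, a) t (y0 - a + b)) ^ p = _
  congr 1
  refine Finset.sum_congr rfl fun b _ => ?_
  congr 1
  ring

theorem PP_le_GB66 {m r h Q : ℕ} {cm cr : ℤ} (hh : 1 ≤ h) (hQ : 2 ≤ Q) (b : Bool) (δ : ℤ) (η : Env) :
    PP μ s m r h cm cr b δ η ≤ GB66 μ s (m + r) (Q * h) (cm + cr + (δ + 1) * h) η := by
  refine mx_le (GB66_nonneg _ _ _ _) fun u hu => ?_
  have hu' := St_sub hh hQ b hu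
  refine le_trans ?_ (le_mx (F := fun a => ∑ b ∈ Finset.Ico 0 ((Q * h : ℕ) : ℤ),
    W μ s η (0, a) (m + r) (cm + cr + (δ + 1) * h + b - a)) hu')
  have h0 : (0 : ℤ) ∈ Finset.Ico 0 ((Q * h : ℕ) : ℤ) := by
    rw [Finset.mem_Ico]
    refine ⟨le_rfl, ?_⟩
    have : 0 < Q * h := Nat.mul_pos (by omega) (by omega)
    exact_mod_cast this
  refine le_trans (le_of_eq ?_) (Finset.single_le_sum (f := fun b : ℤ =>
    W μ s η (0, u) (m + r) (cm + cr + (δ + 1) * h + b - u)) (fun _ _ => W_nonneg _ _ _ _) h0)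
  congr 1
  ring

theorem RR_le_GB66 {m h Q : ℕ} {cm : ℤ} (hh : 1 ≤ h) (hQ : 2 ≤ Q) (b : Bool) (δ : ℤ) (η : Env) :
    RR μ s m h cm b δ η ≤ GB66 μ s m (Q * h) (cm + δ * h) η := by
  refine mx_le (GB66_nonneg _ _ _ _) fun u hu => ?_
  have hu' := St_sub hh hQ b hu
  refine le_trans ?_ (le_mx (F := fun a => ∑ b ∈ Finset.Ico 0 ((Q * h : ℕ) : ℤ),
    W μ s η (0, a) m (cm + δ * h + b - a)) hu')
  refine Finset.sum_le_sum_of_subset_of_nonneg (fun b hb => ?_) fun _ _ _ => W_nonneg _ _ _ _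
  have h1 := Finset.mem_Ico.1 hb
  rw [Finset.mem_Ico]
  refine ⟨h1.1, h1.2.trans_le ?_⟩
  have : h ≤ Q * h := Nat.le_mul_of_pos_left h (by omega)
  exact_mod_cast this

/-- **THE DATA OF A SCALE**: `m` slab, `r` reference, `m + r` piece, `h` mesh, `Q h` coarse cell, unit `E`, displacements `cm`, `cr` of
the slab and of the reference, `e₁` mean of the references, `e₂` lower bound of the means of the pieces, growth `s₀`, level `ε`. -/
structure Sc66 (μ : Measure ℝ) (s : ℝ) (m r h Q : ℕ) (cm cr : ℤ) (E e₁ e₂ s₀ ε A C₁ : ℝ) : Prop where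
  em : Pool.Agent.W_7d29a1_h47.EM μ
  rm : r ≤ m
  one_h : 1 ≤ h
  cm0 : 0 ≤ cm
  cm1 : cm ≤ m
  cr0 : 0 ≤ cr
  cr1 : cr + h ≤ r
  nn : 0 ≤ e₁
  unit : e₁ ≤ E
  grow : e₁ + s₀ * E ≤ e₂
  ref1 : (law μ).real {η | e₁ + ε * E < X μ s η 0 r cr} ≤ ε
  ref2 : (law μ).real {η | e₁ + ε * E < X μ s η 0 r (cr + h)} ≤ ε
  piece : ∀ y : ℤ, 0 ≤ y → y ≤ ((m + r : ℕ) : ℤ) → (law μ).real {η | X μ s η 0 (m + r) y < e₂ - ε * E} ≤ ε
  el1 : ∀ δ : ℤ, ∫ η, GB66 μ s m (Q * h) (cm + δ * h) η ^ (4 * (A / E)) ∂(law μ) ≤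
    Real.exp (4 * (C₁ * A + 2 - |(δ : ℝ)| / Q))
  el2 : ∀ δ : ℤ, ∫ η, GB66 μ s (m + r) (Q * h) (cm + cr + (δ + 1) * h) η ^ (4 * (A / E)) ∂(law μ) ≤
    Real.exp (4 * (C₁ * A + 2 - |(δ : ℝ)| / Q))

section

variable [IsProbabilityMeasure μ] {m r h Q : ℕ} {cm cr : ℤ} {E e₁ e₂ s₀ ε A C₁ : ℝ}

theorem bad_le66 (S : Sc66 μ s m r h Q cm cr E e₁ e₂ s₀ ε A C₁) (a : Pt) :
    (law μ).real {η | ¬ Good μ s r h cr (e₁ + ε * E) (sh a η)} ≤ 2 * ε := by
  have h1 : (law μ).real {η | ¬ Good μ s r h cr (e₁ + ε * E) (sh a η)} =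
      (law μ).real {η | ¬ Good μ s r h cr (e₁ + ε * E) η} :=
    real_sh (μ := μ) a (Good_meas (μ := μ) (s := s) r h cr (e₁ + ε * E))
  rw [h1]
  have hlog : ∀ (η : Env) (b : Pt) (y : ℤ), 0 ≤ y → y ≤ r →
      ¬ Real.exp (-(e₁ + ε * E)) ≤ W μ s η b r y → e₁ + ε * E < X μ s η b r y := by
    intro η b y hy0 hy1 hnot
    have hW := W_pos (μ := μ) (s := s) η b hy0 hy1
    rw [not_le] at hnot
    have h2 := (Real.log_lt_iff_lt_exp hW).2 hnot
    unfold X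
    linarith
  have hh0 : (0 : ℤ) ≤ h := Int.natCast_nonneg _
  have hsub : {η | ¬ Good μ s r h cr (e₁ + ε * E) η} ⊆
      {η | e₁ + ε * E < X μ s η 0 r (cr + (h : ℤ))} ∪ {η | e₁ + ε * E < X μ s η (0, (h : ℤ)) r cr} := by
    intro η hη
    rw [Set.mem_ofPred_eq] at hη
    unfold Good at hη
    rcases not_and_or.1 hη with h2 | h2
    · exact Or.inl (hlog η 0 _ (add_nonneg S.cr0 hh0) S.cr1 h2)
    · exact Or.inr (hlog η _ _ S.cr0 (by linarith [S.cr1]) h2)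
  have p2 : (law μ).real {η | e₁ + ε * E < X μ s η (0, (h : ℤ)) r cr} ≤ ε := by
    rw [real_shift_lt]
    exact S.ref1
  have h2 := (measureReal_mono hsub (measure_ne_top (law μ) _)).trans (measureReal_union_le _ _)
  linarith [S.ref2]

/-- A slab which ends in a bad cell. -/
theorem bound_bad66 (S : Sc66 μ s m r h Q cm cr E e₁ e₂ s₀ ε A C₁) (hQ : 2 ≤ Q) (hE : 0 < E) (hA : 0 < A)
    {x : ℝ} (hx : 0 < x) (hx4 : 2 * ε ≤ x ^ 4) (b : Bool) (δ : ℤ) :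
    ∫ η, ff66 μ s m r h cm cr (e₁ + ε * E) (A / E) b false δ η ^ 2 ∂(law μ) ≤
      (x * Real.exp (C₁ * A + 2 - |(δ : ℝ)| / Q)) ^ 2 := by
  obtain ⟨θ, hθ⟩ : ∃ θ : ℝ, θ = A / E := ⟨_, rfl⟩
  have hθ0 : 0 < θ := by rw [hθ]; exact div_pos hA hE
  rw [← hθ]
  obtain ⟨k, hk⟩ : ∃ k : ℤ, k = cm + δ * h := ⟨_, rfl⟩
  obtain ⟨a, ha⟩ : ∃ a : Pt, a = ((m : ℤ), cm + δ * h) := ⟨_, rfl⟩
  have e1 : ∀ η : Env, ff66 μ s m r h cm cr (e₁ + ε * E) θ b false δ η ^ 2 =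
      io (¬ Good μ s r h cr (e₁ + ε * E) (sh a η)) * RR μ s m h cm b δ η ^ (2 * θ) := by
    intro η
    unfold Pool.Agent.W_7d29a1_h66.ff
    rw [if_neg (by simp), mul_pow, sq_rpow (RR_nonneg _ _ _ _ _ _), ← ha]
    congr 1
    by_cases hg : ¬ Good μ s r h cr (e₁ + ε * E) (sh a η)
    · rw [io_of hg, one_pow]
    · rw [io_not hg]; norm_num
  simp only [e1]
  have hGi : Integrable (fun η => GB66 μ s m (Q * h) k η ^ (2 * θ)) (law μ) := GB66_int S.em _ _ _ (by linarith)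
  have hGi2 : Integrable (fun η => (GB66 μ s m (Q * h) k η ^ (2 * θ)) ^ 2) (law μ) := by
    simp only [sq_rpow' (GB66_nonneg _ _ _ _)]
    exact GB66_int S.em _ _ _ (by linarith)
  have hB : MeasurableSet {η | ¬ Good μ s r h cr (e₁ + ε * E) (sh a η)} :=
    (mp_sh (μ := μ) a).measurable (Good_meas (μ := μ) (s := s) r h cr (e₁ + ε * E))
  have h1 : ∫ η, io (¬ Good μ s r h cr (e₁ + ε * E) (sh a η)) * RR μ s m h cm b δ η ^ (2 * θ)
      ∂(law μ) ≤ ∫ η, io (¬ Good μ s r h cr (e₁ + ε * E) (sh a η)) * GB66 μ s m (Q * h) k η ^ (2 * θ)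
        ∂(law μ) := by
    refine integral_mono_of_nonneg (Filter.Eventually.of_forall fun η => mul_nonneg (io_nonneg _)
      (Real.rpow_nonneg (RR_nonneg _ _ _ _ _ _) _)) ?_ (Filter.Eventually.of_forall fun η => ?_)
    · refine hGi.mono' ((measurable_io hB).mul ((GB66_meas _ _ _).pow_const _)).aestronglyMeasurable
        (Filter.Eventually.of_forall fun η => ?_)
      rw [Real.norm_eq_abs, abs_of_nonneg (mul_nonneg (io_nonneg _) (Real.rpow_nonneg (GB66_nonneg _ _ _ _) _))]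
      exact mul_le_of_le_one_left (Real.rpow_nonneg (GB66_nonneg _ _ _ _) _) (io_le_one _)
    · refine mul_le_mul_of_nonneg_left ?_ (io_nonneg _)
      refine Real.rpow_le_rpow (RR_nonneg _ _ _ _ _ _) ?_ (by linarith)
      rw [hk]
      exact RR_le_GB66 S.one_h hQ b δ η
  have h2 := cs_event (μ := μ) (f := fun η => GB66 μ s m (Q * h) k η ^ (2 * θ))
    (fun η => Real.rpow_nonneg (GB66_nonneg _ _ _ _) _) hGi2 hB (K := Real.exp (2 * (C₁ * A + 2 - |(δ : ℝ)| / Q)))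
    (p := x ^ 2) (Real.exp_pos _) (by positivity) (by
      simp only [sq_rpow' (GB66_nonneg _ _ _ _)]
      rw [exp_sq, hθ, hk]
      refine (S.el1 δ).trans (Real.exp_le_exp.2 (le_of_eq ?_))
      ring) (by
      refine (bad_le66 S a).trans (hx4.trans_eq ?_)
      ring)
  refine (h1.trans h2).trans ?_
  rw [mul_pow, exp_sq]

/-- A slab which starts in a bad cell and ends in a good cell. -/
theorem bound_bg66 (S : Sc66 μ s m r h Q cm cr E e₁ e₂ s₀ ε A C₁) (hQ : 2 ≤ Q) (hE : 0 < E) (hA : 0 < A) (hAE : A ≤ E)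
    (b : Bool) (hρ : e₁ + ε * E ≤ 2 * E) (δ : ℤ) :
    ∫ η, ff66 μ s m r h cm cr (e₁ + ε * E) (A / E) b true δ η ^ 2 ∂(law μ) ≤
      (2 * Real.exp ((C₁ + 2) * A + 2 - |(δ : ℝ)| / Q)) ^ 2 := by
  obtain ⟨θ, hθ⟩ : ∃ θ : ℝ, θ = A / E := ⟨_, rfl⟩
  have hθ0 : 0 < θ := by rw [hθ]; exact div_pos hA hE
  have hθ1 : θ ≤ 1 := by rw [hθ, div_le_one hE]; exact hAE
  have hθE : θ * E = A := by rw [hθ]; field_simp
  rw [← hθ]
  obtain ⟨k, hk⟩ : ∃ k : ℤ, k = cm + cr + (δ + 1) * h := ⟨_, rfl⟩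
  have e1 : ∀ η : Env, ff66 μ s m r h cm cr (e₁ + ε * E) θ b true δ η ^ 2 =
      ((2 * Real.exp (e₁ + ε * E)) ^ θ) ^ 2 * PP μ s m r h cm cr b δ η ^ (2 * θ) := by
    intro η
    unfold Pool.Agent.W_7d29a1_h66.ff
    rw [if_pos rfl, mul_pow, sq_rpow (PP_nonneg _ _ _ _ _ _ _ _)]
  simp only [e1]
  rw [integral_const_mul]
  have hGi : Integrable (fun η => GB66 μ s (m + r) (Q * h) k η ^ (2 * θ)) (law μ) := GB66_int S.em _ _ _ (by linarith)
  have hGi2 : Integrable (fun η => (GB66 μ s (m + r) (Q * h) k η ^ (2 * θ)) ^ 2) (law μ) := by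
    simp only [sq_rpow' (GB66_nonneg _ _ _ _)]
    exact GB66_int S.em _ _ _ (by linarith)
  have h1 : ∫ η, PP μ s m r h cm cr b δ η ^ (2 * θ) ∂(law μ) ≤
      ∫ η, GB66 μ s (m + r) (Q * h) k η ^ (2 * θ) ∂(law μ) := by
    refine integral_mono_of_nonneg (Filter.Eventually.of_forall fun η =>
      Real.rpow_nonneg (PP_nonneg _ _ _ _ _ _ _ _) _) hGi (Filter.Eventually.of_forall fun η => ?_)
    refine Real.rpow_le_rpow (PP_nonneg _ _ _ _ _ _ _ _) ?_ (by linarith)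
    rw [hk]
    exact PP_le_GB66 S.one_h hQ b δ η
  have h2 := cs_plain (μ := μ) (f := fun η => GB66 μ s (m + r) (Q * h) k η ^ (2 * θ))
    (fun η => Real.rpow_nonneg (GB66_nonneg _ _ _ _) _) hGi2 (K := Real.exp (2 * (C₁ * A + 2 - |(δ : ℝ)| / Q)))
    (Real.exp_pos _) (by
      simp only [sq_rpow' (GB66_nonneg _ _ _ _)]
      rw [exp_sq, hθ, hk]
      refine (S.el2 δ).trans (Real.exp_le_exp.2 (le_of_eq ?_))
      ring)
  have h3 := pref_le (ρ := e₁ + ε * E) hθ1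
  have h4 : Real.exp (2 * (θ * (e₁ + ε * E))) ≤ Real.exp (4 * A) := by
    refine Real.exp_le_exp.2 ?_
    have : θ * (e₁ + ε * E) ≤ θ * (2 * E) := mul_le_mul_of_nonneg_left hρ hθ0.le
    linarith
  have h5 : ((2 * Real.exp (e₁ + ε * E)) ^ θ) ^ 2 * ∫ η, PP μ s m r h cm cr b δ η ^ (2 * θ) ∂(law μ) ≤
      4 * Real.exp (4 * A) * Real.exp (2 * (C₁ * A + 2 - |(δ : ℝ)| / Q)) :=
    mul_le_mul (h3.trans (by linarith)) (h1.trans h2) (integral_nonneg fun η => Real.rpow_nonneg (PP_nonneg _ _ _ _ _ _ _ _) _)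
      (by positivity)
  refine h5.trans ?_
  rw [mul_pow, exp_sq, mul_assoc, ← Real.exp_add]
  norm_num
  linarith

/-- One point to point slab in the good state, second moment (with the power `2 θ`). -/
theorem W_two66 (S : Sc66 μ s m r h Q cm cr E e₁ e₂ s₀ ε A C₁) (hE : 0 < E) (hA : 0 < A)
    {x : ℝ} (hx : 0 < x) (hx4 : ε ≤ x ^ 4) (u D δ : ℤ)
    (hW : ∀ η, W μ s η (0, u) (m + r) D ≤ GB66 μ s (m + r) (Q * h) (cm + cr + (δ + 1) * h) η) :
    ∫ η, W μ s η (0, u) (m + r) D ^ (2 * (A / E)) ∂(law μ) ≤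
        Real.exp (-(2 * (A / E) * (e₂ - ε * E))) +
          x ^ 2 * Real.exp (2 * (C₁ * A + 2 - |(δ : ℝ)| / Q)) ∧
      ∫ η, W μ s η (0, u) (m + r) D ^ (2 * (A / E)) ∂(law μ) ≤ Real.exp (2 * (C₁ * A + 2 - |(δ : ℝ)| / Q)) := by
  obtain ⟨θ, hθ⟩ : ∃ θ : ℝ, θ = A / E := ⟨_, rfl⟩
  have hθ0 : 0 < θ := by rw [hθ]; exact div_pos hA hE
  obtain ⟨e', he'⟩ : ∃ e' : ℝ, e' = e₂ - ε * E := ⟨_, rfl⟩
  rw [← hθ, ← he']
  have hWi : Integrable (fun η => W μ s η (0, u) (m + r) D ^ (2 * θ)) (law μ) :=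
    W_rpow_integrable S.em _ _ _ (by linarith)
  have hWi2 : Integrable (fun η => (W μ s η (0, u) (m + r) D ^ (2 * θ)) ^ 2) (law μ) := by
    simp only [sq_rpow' (W_nonneg _ _ _ _)]
    exact W_rpow_integrable S.em _ _ _ (by linarith)
  have hW4 : ∫ η, (W μ s η (0, u) (m + r) D ^ (2 * θ)) ^ 2 ∂(law μ) ≤ Real.exp (2 * (C₁ * A + 2 - |(δ : ℝ)| / Q)) ^ 2 := by
    simp only [sq_rpow' (W_nonneg _ _ _ _)]
    rw [exp_sq]
    have h1 : ∫ η, W μ s η (0, u) (m + r) D ^ (4 * θ) ∂(law μ) ≤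
        ∫ η, GB66 μ s (m + r) (Q * h) (cm + cr + (δ + 1) * h) η ^ (4 * θ) ∂(law μ) :=
      integral_mono (W_rpow_integrable S.em _ _ _ (by linarith)) (GB66_int S.em _ _ _ (by linarith)) fun η =>
        Real.rpow_le_rpow (W_nonneg _ _ _ _) (hW η) (by linarith)
    have h2 := S.el2 δ
    rw [← hθ] at h2
    refine (h1.trans h2).trans (Real.exp_le_exp.2 (le_of_eq ?_))
    ring
  refine ⟨?_, cs_plain (μ := μ) (f := fun η => W μ s η (0, u) (m + r) D ^ (2 * θ))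
    (fun η => Real.rpow_nonneg (W_nonneg _ _ _ _) _) hWi2 (Real.exp_pos _) hW4⟩
  by_cases hD : 0 ≤ D ∧ D ≤ ((m + r : ℕ) : ℤ)
  · have hlow := S.piece D hD.1 hD.2
    rw [← he'] at hlow
    have hB : MeasurableSet {η | X μ s η (0, u) (m + r) D < e'} :=
      measurableSet_lt (measurable_X _ _ _) measurable_const
    have hP : (law μ).real {η | X μ s η (0, u) (m + r) D < e'} ≤ (x ^ 2) ^ 2 := by
      have hm0 : MeasurableSet {η : Env | X μ s η 0 (m + r) D < e'} :=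
        measurableSet_lt (measurable_X 0 _ _) measurable_const
      have h0 := real_sh (μ := μ) (0, u) hm0
      have h1 : {η : Env | X μ s η (0, u) (m + r) D < e'} = {η | sh (0, u) η ∈ {η : Env | X μ s η 0 (m + r) D < e'}} := by
        ext η
        show X μ s η (0, u) (m + r) D < e' ↔ X μ s (sh (0, u) η) 0 (m + r) D < e'
        rw [X_sh, zero_add]
      rw [h1, h0]
      refine hlow.trans (hx4.trans_eq ?_)
      ring
    have h1 := cs_event (μ := μ) (f := fun η => W μ s η (0, u) (m + r) D ^ (2 * θ))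
      (fun η => Real.rpow_nonneg (W_nonneg _ _ _ _) _) hWi2 hB (Real.exp_pos _) (by positivity) hW4 hP
    have hI1 : Integrable (fun η => io (X μ s η (0, u) (m + r) D < e') *
        W μ s η (0, u) (m + r) D ^ (2 * θ)) (law μ) := by
      refine hWi.mono' ((measurable_io hB).mul ((measurable_W _ _ _).pow_const _)).aestronglyMeasurable
        (Filter.Eventually.of_forall fun η => ?_)
      rw [Real.norm_eq_abs, abs_of_nonneg (mul_nonneg (io_nonneg _) (Real.rpow_nonneg (W_nonneg _ _ _ _) _))]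
      exact mul_le_of_le_one_left (Real.rpow_nonneg (W_nonneg _ _ _ _) _) (io_le_one _)
    have h2 : ∫ η, W μ s η (0, u) (m + r) D ^ (2 * θ) ∂(law μ) ≤ ∫ η, (Real.exp (-(2 * θ * e')) +
        io (X μ s η (0, u) (m + r) D < e') * W μ s η (0, u) (m + r) D ^ (2 * θ)) ∂(law μ) := by
      refine integral_mono hWi ((integrable_const _).add hI1) fun η => ?_
      show W μ s η (0, u) (m + r) D ^ (2 * θ) ≤ Real.exp (-(2 * θ * e')) +
        io (X μ s η (0, u) (m + r) D < e') * W μ s η (0, u) (m + r) D ^ (2 * θ)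
      by_cases hc : X μ s η (0, u) (m + r) D < e'
      · rw [io_of hc, one_mul]
        exact le_add_of_nonneg_left (Real.exp_pos _).le
      · rw [io_not hc, zero_mul, add_zero]
        have hWp := W_pos (μ := μ) (s := s) η (0, u) hD.1 hD.2
        rw [Real.rpow_def_of_pos hWp]
        refine Real.exp_le_exp.2 ?_
        have h3 : Real.log (W μ s η (0, u) (m + r) D) = -X μ s η (0, u) (m + r) D := by unfold X; ring
        rw [h3]
        rw [not_lt] at hc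
        nlinarith
    refine h2.trans ?_
    rw [integral_add (integrable_const _) hI1, integral_const, probReal_univ, one_smul]
    exact add_le_add le_rfl h1
  · have h0 : ∀ η : Env, W μ s η (0, u) (m + r) D ^ (2 * θ) = 0 := fun η => by
      rw [W_eq_zero η _ hD, Real.zero_rpow (by linarith)]
    simp only [h0, integral_zero]
    positivity

/-- A slab which starts and ends in good cells. -/
theorem bound_gg66 (S : Sc66 μ s m r h Q cm cr E e₁ e₂ s₀ ε A C₁) (hQ : 2 ≤ Q) (hE : 0 < E) (hA : 0 < A) (hAE : A ≤ E)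
    (hε : 0 < ε) (hε8 : 4 * ε ≤ s₀) (hs : 0 < s₀) (hs1 : s₀ ≤ 1) (hC : 0 ≤ C₁)
    {x : ℝ} (hx : 0 < x) (hx4 : ε ≤ x ^ 4)
    (hxA : x ^ 2 * Real.exp (2 * ((C₁ + 2) * A + 2)) ≤ Real.exp (-(A * s₀))) (δ : ℤ) :
    ∫ η, ff66 μ s m r h cm cr (e₁ + ε * E) (A / E) true true δ η ^ 2 ∂(law μ) ≤
      (4 * Real.exp (2 - A * s₀ / 4 - s₀ / (4 * (C₁ + 3)) * (|(δ : ℝ)| / Q))) ^ 2 := by
  obtain ⟨θ, hθ⟩ : ∃ θ : ℝ, θ = A / E := ⟨_, rfl⟩
  have hθ0 : 0 < θ := by rw [hθ]; exact div_pos hA hE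
  have hθ1 : θ ≤ 1 := by rw [hθ, div_le_one hE]; exact hAE
  have hθE : θ * E = A := by rw [hθ]; field_simp
  obtain ⟨k, hk⟩ : ∃ k : ℤ, k = cm + cr + (δ + 1) * h := ⟨_, rfl⟩
  obtain ⟨q, hq⟩ : ∃ q : ℝ, q = |(δ : ℝ)| / Q := ⟨_, rfl⟩
  have hq0 : 0 ≤ q := by rw [hq]; positivity
  obtain ⟨ρ, hρd⟩ : ∃ ρ : ℝ, ρ = e₁ + ε * E := ⟨_, rfl⟩
  have hsE : 0 < s₀ * E := mul_pos hs hE
  have hεE' : 4 * (ε * E) ≤ s₀ * E := by nlinarith
  have hρe : ρ ≤ e₂ - s₀ * E + ε * E := by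
    rw [hρd]
    linarith [S.grow]
  have hsE1 : s₀ * E ≤ 1 * E := mul_le_mul_of_nonneg_right hs1 hE.le
  have hρ : ρ ≤ 2 * E := by
    rw [hρd]
    have := S.unit
    linarith
  rw [← hθ, ← hρd, ← hq]
  have e1 : ∀ η : Env, ff66 μ s m r h cm cr ρ θ true true δ η ^ 2 =
      ((2 * Real.exp ρ) ^ θ) ^ 2 * PP μ s m r h cm cr true δ η ^ (2 * θ) := by
    intro η
    unfold Pool.Agent.W_7d29a1_h66.ff
    rw [if_pos rfl, mul_pow, sq_rpow (PP_nonneg _ _ _ _ _ _ _ _)]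
  simp only [e1]
  rw [integral_const_mul]
  -- the two starts
  have hGG : ∀ u ∈ St h true, ∀ η : Env, W μ s η (0, u) (m + r) (cm + cr + (δ + 1) * h - u) ≤
      GB66 μ s (m + r) (Q * h) (cm + cr + (δ + 1) * h) η := fun u hu η =>
    (le_mx (F := fun u => W μ s η (0, u) (m + r) (cm + cr + (δ + 1) * h - u)) hu).trans
      (PP_le_GB66 S.one_h hQ true δ η)
  have b1 := fun (u : ℤ) (hu : u ∈ St h true) => W_two66 S hE hA hx hx4 u
    (cm + cr + (δ + 1) * h - u) δ (hGG u hu)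
  rw [← hθ, ← hq] at b1
  have hh0 : (0 : ℤ) ≠ (h : ℤ) := by
    have := S.one_h
    omega
  have hPP : ∫ η, PP μ s m r h cm cr true δ η ^ (2 * θ) ∂(law μ) ≤
      ∑ u ∈ St h true, ∫ η, W μ s η (0, u) (m + r) (cm + cr + (δ + 1) * h - u) ^ (2 * θ) ∂(law μ) := by
    rw [← integral_finsetSum _ fun u _ => W_rpow_integrable S.em _ _ _ (by linarith)]
    refine integral_mono_of_nonneg (Filter.Eventually.of_forall fun η =>
      Real.rpow_nonneg (PP_nonneg _ _ _ _ _ _ _ _) _)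
      (integrable_finsetSum _ fun u _ => W_rpow_integrable S.em _ _ _ (by linarith))
      (Filter.Eventually.of_forall fun η => ?_)
    exact mx_rpow_le (fun u _ => W_nonneg _ _ _ _) (by linarith)
  have hSt : ∀ c : ℝ, ∑ u ∈ St h true, c = 2 * c := by
    intro c
    rw [Finset.sum_const, St, Finset.card_pair hh0]
    simp
  have hP1 : ∫ η, PP μ s m r h cm cr true δ η ^ (2 * θ) ∂(law μ) ≤
      2 * (Real.exp (-(2 * θ * (e₂ - ε * E))) + x ^ 2 * Real.exp (2 * (C₁ * A + 2 - q))) :=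
    hPP.trans ((Finset.sum_le_sum fun u hu => (b1 u hu).1).trans_eq (hSt _))
  have hP2 : ∫ η, PP μ s m r h cm cr true δ η ^ (2 * θ) ∂(law μ) ≤
      2 * Real.exp (2 * (C₁ * A + 2 - q)) :=
    hPP.trans ((Finset.sum_le_sum fun u hu => (b1 u hu).2).trans_eq (hSt _))
  have h3 := pref_le (ρ := ρ) hθ1
  have hPn : 0 ≤ ∫ η, PP μ s m r h cm cr true δ η ^ (2 * θ) ∂(law μ) :=
    integral_nonneg fun η => Real.rpow_nonneg (PP_nonneg _ _ _ _ _ _ _ _) _
  obtain ⟨I, hI⟩ : ∃ I : ℝ, I = ((2 * Real.exp ρ) ^ θ) ^ 2 *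
    ∫ η, PP μ s m r h cm cr true δ η ^ (2 * θ) ∂(law μ) := ⟨_, rfl⟩
  rw [← hI]
  have h4 : Real.exp (2 * (θ * ρ)) ≤ Real.exp (4 * A) := by
    refine Real.exp_le_exp.2 ?_
    have : θ * ρ ≤ θ * (2 * E) := mul_le_mul_of_nonneg_left hρ hθ0.le
    linarith
  -- first bound
  have i1 : I ≤ 16 * Real.exp (-(A * s₀)) := by
    have h5 : I ≤ 4 * Real.exp (2 * (θ * ρ)) *
        (2 * (Real.exp (-(2 * θ * (e₂ - ε * E))) + x ^ 2 * Real.exp (2 * (C₁ * A + 2 - q)))) := by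
      rw [hI]
      exact mul_le_mul h3 hP1 hPn (by positivity)
    have h6 : Real.exp (2 * (θ * ρ)) * Real.exp (-(2 * θ * (e₂ - ε * E))) ≤
        Real.exp (-(A * s₀)) := by
      rw [← Real.exp_add]
      refine Real.exp_le_exp.2 ?_
      have h7 : θ * (ρ - e₂ + ε * E) ≤ θ * (-(s₀ / 2) * E) :=
        mul_le_mul_of_nonneg_left (by linarith) hθ0.le
      have h8 : θ * (-(s₀ / 2) * E) = -(A * s₀ / 2) := by
        rw [← hθE]; ring
      nlinarith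
    have h9 : Real.exp (2 * (θ * ρ)) * (x ^ 2 * Real.exp (2 * (C₁ * A + 2 - q))) ≤
        Real.exp (-(A * s₀)) := by
      refine le_trans ?_ hxA
      have h10 : Real.exp (2 * (C₁ * A + 2 - q)) ≤ Real.exp (2 * (C₁ * A + 2)) :=
        Real.exp_le_exp.2 (by linarith)
      have h11 : Real.exp (2 * ((C₁ + 2) * A + 2)) = Real.exp (4 * A) * Real.exp (2 * (C₁ * A + 2)) := by
        rw [← Real.exp_add]
        congr 1
        ring
      rw [h11]
      have h12 : Real.exp (2 * (θ * ρ)) * Real.exp (2 * (C₁ * A + 2 - q)) ≤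
          Real.exp (4 * A) * Real.exp (2 * (C₁ * A + 2)) :=
        mul_le_mul h4 h10 (Real.exp_pos _).le (Real.exp_pos _).le
      calc Real.exp (2 * (θ * ρ)) * (x ^ 2 * Real.exp (2 * (C₁ * A + 2 - q)))
          = x ^ 2 * (Real.exp (2 * (θ * ρ)) * Real.exp (2 * (C₁ * A + 2 - q))) := by ring
        _ ≤ _ := mul_le_mul_of_nonneg_left h12 (sq_nonneg _)
    linarith
  -- second bound
  have i2 : I ≤ 16 * Real.exp (2 * ((C₁ + 2) * A + 2 - q)) := by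
    have h5 : I ≤ 4 * Real.exp (4 * A) * (2 * Real.exp (2 * (C₁ * A + 2 - q))) := by
      rw [hI]
      exact mul_le_mul (h3.trans (by linarith)) hP2 hPn (by positivity)
    have h6 : Real.exp (4 * A) * Real.exp (2 * (C₁ * A + 2 - q)) = Real.exp (2 * ((C₁ + 2) * A + 2 - q)) := by
      rw [← Real.exp_add]
      congr 1
      ring
    have h7 := Real.exp_pos (2 * ((C₁ + 2) * A + 2 - q))
    linarith
  -- interpolation
  obtain ⟨lam, hlam⟩ : ∃ lam : ℝ, lam = s₀ / (4 * (C₁ + 3)) := ⟨_, rfl⟩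
  have hlam0 : 0 < lam := by rw [hlam]; positivity
  have hlamC : lam * (4 * (C₁ + 3)) = s₀ := by rw [hlam]; field_simp
  have hlam1 : lam ≤ 1 := by nlinarith
  rw [← hlam]
  obtain ⟨Z, hZ⟩ : ∃ Z : ℝ, Z = (1 - lam) * (-(A * s₀)) + lam * (2 * ((C₁ + 2) * A + 2 - q)) := ⟨_, rfl⟩
  have i3 : I ≤ 16 * Real.exp Z := by
    rcases le_total (-(A * s₀)) (2 * ((C₁ + 2) * A + 2 - q)) with hle | hle
    · refine i1.trans (mul_le_mul_of_nonneg_left (Real.exp_le_exp.2 ?_) (by norm_num))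
      rw [hZ]
      nlinarith
    · refine i2.trans (mul_le_mul_of_nonneg_left (Real.exp_le_exp.2 ?_) (by norm_num))
      rw [hZ]
      nlinarith
  have hZ2 : Z ≤ -(A * s₀ / 2) + 4 - 2 * lam * q := by
    have h5 : lam * (2 * C₁ + 5) ≤ s₀ / 2 := by nlinarith
    have h6 : A * (lam * (2 * C₁ + 5)) ≤ A * (s₀ / 2) := mul_le_mul_of_nonneg_left h5 hA.le
    have h7 : lam * (A * s₀) ≤ lam * (A * 1) :=
      mul_le_mul_of_nonneg_left (mul_le_mul_of_nonneg_left hs1 hA.le) hlam0.le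
    rw [hZ]
    nlinarith
  refine i3.trans ?_
  rw [mul_pow, exp_sq]
  norm_num
  linarith

end

end Pool.Agent.W_7d29a1_H
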