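import Pool.Agent.W_7d29a1_H.D7Ha66

/-!
MP_7d29a1_pr, TRACK H (all tilts), (D7): a scale at which nothing fluctuates and which grows makes the cost linear for ever; any tilt
and any reference. (helper66)
-/

set_option autoImplicit false

namespace Pool.Agent.W_7d29a1_H

open MeasureTheory ProbabilityTheory
open Pool.Agent.W_7d29a1_F Pool.Agent.W_7d29a1_h4g
open Pool.Agent.W_7d29a1_h66 (St DD PP_nonneg RR_nonneg sq_rpow exp_sq ff_meas chain_moment geo_int)
open Pool.Agent.W_7d29a1_h66 renaming ff → ff66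

/-- **THEOREM D7**, any tilt: growth `s₀ E` at a scale at which nothing fluctuates makes the cost linear for ever. -/
theorem d7_66 {s₀ C₁ : ℝ} (hs : 0 < s₀) (hs1 : s₀ ≤ 1) (hC : 0 ≤ C₁) {Q : ℕ} (hQ : 2 ≤ Q) :
    ∃ A₀ : ℝ, 1 ≤ A₀ ∧ ∀ A : ℝ, A₀ ≤ A → ∃ ε : ℝ, 0 < ε ∧ ε ≤ 1 / 7 ∧
      ∀ (μ : Measure ℝ) [IsProbabilityMeasure μ] (s : ℝ) (m r h : ℕ) (cm cr : ℤ) (E e₁ e₂ : ℝ), A ≤ E →
      Sc66 μ s m r h Q cm cr E e₁ e₂ s₀ ε A C₁ → ∀ i : ℕ, 1 ≤ i →
        (i : ℝ) * (Real.log 2 * E / A) ≤ e μ s (i * m + r) ((i : ℤ) * cm + cr) := by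
  obtain ⟨lam, hlam⟩ : ∃ lam : ℝ, lam = s₀ / (4 * (C₁ + 3)) := ⟨_, rfl⟩
  have hlam0 : 0 < lam := by rw [hlam]; positivity
  have hQr : (0 : ℝ) < Q := by exact_mod_cast (by omega : 0 < Q)
  obtain ⟨S1, hS1⟩ : ∃ S1 : ℝ, S1 = 2 + 2 / (lam / Q) := ⟨_, rfl⟩
  have hS1p : 0 < S1 := by rw [hS1]; positivity
  obtain ⟨S2, hS2⟩ : ∃ S2 : ℝ, S2 = 2 + 2 / (1 / (Q : ℝ)) := ⟨_, rfl⟩
  have hS2p : 2 ≤ S2 := by
    rw [hS2]
    have : 0 < 2 / (1 / (Q : ℝ)) := by positivity
    linarith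
  refine ⟨max 1 (4 / s₀ * Real.log (16 * Real.exp 2 * S1)), le_max_left _ _, fun A hA => ?_⟩
  have hA1 : 1 ≤ A := (le_max_left _ _).trans hA
  have hA0 : 0 < A := by linarith
  have hAS : Real.log (16 * Real.exp 2 * S1) ≤ A * s₀ / 4 := by
    have h1 : 4 / s₀ * Real.log (16 * Real.exp 2 * S1) ≤ A := (le_max_right _ _).trans hA
    have h2 : s₀ / 4 * (4 / s₀ * Real.log (16 * Real.exp 2 * S1)) ≤ s₀ / 4 * A :=
      mul_le_mul_of_nonneg_left h1 (by positivity)
    have h3 : s₀ / 4 * (4 / s₀ * Real.log (16 * Real.exp 2 * S1)) = Real.log (16 * Real.exp 2 * S1) := by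
      field_simp
    linarith
  obtain ⟨L, hL⟩ : ∃ L : ℝ, L = 2 * Real.exp ((C₁ + 2) * A + 2) * S2 := ⟨_, rfl⟩
  have hL1 : Real.exp ((C₁ + 2) * A + 2) ≤ L := by
    have h2 := Real.exp_pos ((C₁ + 2) * A + 2)
    rw [hL]
    nlinarith
  have hLone : 1 ≤ L := (Real.one_le_exp (by positivity)).trans hL1
  obtain ⟨x, hx⟩ : ∃ x : ℝ, x = Real.exp (-A) * s₀ / (48 * L ^ 2) := ⟨_, rfl⟩
  have hx0 : 0 < x := by rw [hx]; positivity
  have hxL : x * (48 * L ^ 2) = Real.exp (-A) * s₀ := by rw [hx]; field_simp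
  have hexpA : Real.exp (-A) ≤ 1 := Real.exp_le_one_iff.2 (by linarith)
  have hexpAp := Real.exp_pos (-A)
  have hL2 : 1 ≤ L ^ 2 := one_le_pow₀ hLone
  have hx1 : x * (48 * L ^ 2) ≤ s₀ := by
    rw [hxL]
    nlinarith
  have hx48 : 48 * x ≤ s₀ := by nlinarith
  have hxle : x ≤ 1 / 48 := by linarith
  have hx4x : x ^ 4 ≤ x := by
    have : x ^ 4 = x ^ 3 * x := by ring
    have h2 : x ^ 3 ≤ 1 := pow_le_one₀ hx0.le (by linarith)
    nlinarith
  obtain ⟨ε, hε⟩ : ∃ ε : ℝ, ε = x ^ 4 / 2 := ⟨_, rfl⟩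
  have hε0 : 0 < ε := by rw [hε]; positivity
  have hεx : ε ≤ x / 2 := by rw [hε]; linarith
  refine ⟨ε, hε0, by linarith, fun μ _ s m r h cm cr E e₁ e₂ hAE S i hi => ?_⟩
  have hE0 : 0 < E := by linarith
  have hε8 : 4 * ε ≤ s₀ := by linarith
  obtain ⟨θ, hθ⟩ : ∃ θ : ℝ, θ = A / E := ⟨_, rfl⟩
  have hθ0 : 0 < θ := by rw [hθ]; exact div_pos hA0 hE0
  have hθ1 : θ ≤ 1 := by rw [hθ, div_le_one hE0]; exact hAE
  obtain ⟨ρ, hρd⟩ : ∃ ρ : ℝ, ρ = e₁ + ε * E := ⟨_, rfl⟩
  have hεE : ε * E ≤ 1 * E := mul_le_mul_of_nonneg_right (by linarith) hE0.le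
  have hρ0 : 0 ≤ ρ := by
    rw [hρd]
    have h1 := S.nn
    positivity
  have hρE : e₁ + ε * E ≤ 2 * E := by
    have h1 := S.unit
    linarith
  -- the bounds of the factors
  obtain ⟨T, hT⟩ : ∃ T : Bool → Bool → ℤ → ℝ, T = fun (b b' : Bool) (δ : ℤ) =>
    if b' = true then (if b = true then 4 * Real.exp (2 - A * s₀ / 4 - lam * (|(δ : ℝ)| / Q)) else
      2 * Real.exp ((C₁ + 2) * A + 2 - |(δ : ℝ)| / Q)) else x * Real.exp (C₁ * A + 2 - |(δ : ℝ)| / Q) := ⟨_, rfl⟩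
  obtain ⟨H, hH⟩ : ∃ H : Bool → ℝ, H = fun b => if b = true then 1 else 4 * L := ⟨_, rfl⟩
  have hT0 : ∀ b b' δ, 0 < T b b' δ := by
    intro b b' δ
    rw [hT]
    show 0 < if b' = true then (if b = true then 4 * Real.exp (2 - A * s₀ / 4 - lam * (|(δ : ℝ)| / Q)) else
      2 * Real.exp ((C₁ + 2) * A + 2 - |(δ : ℝ)| / Q)) else x * Real.exp (C₁ * A + 2 - |(δ : ℝ)| / Q)
    split_ifs <;> positivity
  have hH0 : ∀ b, 0 ≤ H b := by
    intro b
    rw [hH]
    show 0 ≤ if b = true then (1 : ℝ) else 4 * L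
    split_ifs
    · exact zero_le_one
    · linarith
  have hg1 : ∀ D : Finset ℤ, ∑ δ ∈ D, Real.exp (-(lam * (|(δ : ℝ)| / Q))) ≤ S1 := by
    intro D
    have h1 := geo_int (κ := lam / Q) (by positivity) D
    rw [hS1]
    refine le_trans (le_of_eq (Finset.sum_congr rfl fun δ _ => ?_)) h1
    congr 2
    ring
  have hg2 : ∀ D : Finset ℤ, ∑ δ ∈ D, Real.exp (-(|(δ : ℝ)| / Q)) ≤ S2 := by
    intro D
    have h1 := geo_int (κ := 1 / (Q : ℝ)) (by positivity) D
    rw [hS2]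
    refine le_trans (le_of_eq (Finset.sum_congr rfl fun δ _ => ?_)) h1
    congr 2
    ring
  have hTH : ∀ b, ∑ q ∈ (Finset.univ : Finset Bool) ×ˢ DD m r h cm cr, T b q.1 q.2 * H q.1 ≤ H b / 2 := by
    intro b
    rw [Finset.sum_product, Fintype.sum_bool]
    have hHt : H true = 1 := by rw [hH]; simp
    have hHf : H false = 4 * L := by rw [hH]; simp
    have hsumF : ∑ δ ∈ DD m r h cm cr, T b false δ * H false ≤ x * L * (4 * L) := by
      rw [← Finset.sum_mul, hHf]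
      refine mul_le_mul_of_nonneg_right ?_ (by linarith)
      have e1 : ∀ δ : ℤ, T b false δ = x * Real.exp (C₁ * A + 2) * Real.exp (-(|(δ : ℝ)| / Q)) := by
        intro δ
        rw [hT]
        show (if false = true then (if b = true then 4 * Real.exp (2 - A * s₀ / 4 - lam * (|(δ : ℝ)| / Q)) else
          2 * Real.exp ((C₁ + 2) * A + 2 - |(δ : ℝ)| / Q)) else x * Real.exp (C₁ * A + 2 - |(δ : ℝ)| / Q)) = _
        rw [if_neg (by simp), mul_assoc, ← Real.exp_add]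
        congr 2
      simp only [e1]
      rw [← Finset.mul_sum]
      have h1 : x * Real.exp (C₁ * A + 2) * ∑ δ ∈ DD m r h cm cr, Real.exp (-(|(δ : ℝ)| / Q)) ≤
          x * Real.exp (C₁ * A + 2) * S2 := mul_le_mul_of_nonneg_left (hg2 _) (by positivity)
      refine h1.trans ?_
      have h2 : Real.exp (C₁ * A + 2) * S2 ≤ L := by
        rw [hL]
        have h3 : Real.exp (C₁ * A + 2) ≤ Real.exp ((C₁ + 2) * A + 2) := Real.exp_le_exp.2 (by linarith)
        have h4 := Real.exp_pos ((C₁ + 2) * A + 2)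
        nlinarith
      rw [mul_assoc]
      exact mul_le_mul_of_nonneg_left h2 hx0.le
    have hxL4 : x * L * (4 * L) ≤ 1 / 4 := by nlinarith
    cases b with
    | true =>
      have hsumT : ∑ δ ∈ DD m r h cm cr, T true true δ * H true ≤ 1 / 4 := by
        rw [hHt]
        simp only [mul_one]
        have e1 : ∀ δ : ℤ, T true true δ = 4 * Real.exp (2 - A * s₀ / 4) * Real.exp (-(lam * (|(δ : ℝ)| / Q))) := by
          intro δ
          rw [hT]
          show (if true = true then (if true = true then 4 * Real.exp (2 - A * s₀ / 4 - lam * (|(δ : ℝ)| / Q)) else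
            2 * Real.exp ((C₁ + 2) * A + 2 - |(δ : ℝ)| / Q)) else x * Real.exp (C₁ * A + 2 - |(δ : ℝ)| / Q)) = _
          rw [if_pos rfl, if_pos rfl, mul_assoc, ← Real.exp_add]
          congr 2
        simp only [e1]
        rw [← Finset.mul_sum]
        have h1 : 4 * Real.exp (2 - A * s₀ / 4) * ∑ δ ∈ DD m r h cm cr, Real.exp (-(lam * (|(δ : ℝ)| / Q))) ≤
            4 * Real.exp (2 - A * s₀ / 4) * S1 := mul_le_mul_of_nonneg_left (hg1 _) (by positivity)
        refine h1.trans ?_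
        have h2 : 16 * Real.exp 2 * S1 ≤ Real.exp (A * s₀ / 4) := by
          rw [← Real.log_le_iff_le_exp (by positivity)]
          exact hAS
        have h3 : Real.exp (2 - A * s₀ / 4) = Real.exp 2 * Real.exp (-(A * s₀ / 4)) := by
          rw [← Real.exp_add]
          congr 1
        have h4 : Real.exp (A * s₀ / 4) * Real.exp (-(A * s₀ / 4)) = 1 := by
          rw [← Real.exp_add]
          simp
        have h5 := Real.exp_pos (-(A * s₀ / 4))
        have h6 : 16 * Real.exp 2 * S1 * Real.exp (-(A * s₀ / 4)) ≤ 1 := by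
          rw [← h4]
          exact mul_le_mul_of_nonneg_right h2 h5.le
        rw [h3]
        linarith
      rw [hHt]
      linarith
    | false =>
      have hsumT : ∑ δ ∈ DD m r h cm cr, T false true δ * H true ≤ L := by
        rw [hHt]
        simp only [mul_one]
        have e1 : ∀ δ : ℤ, T false true δ = 2 * Real.exp ((C₁ + 2) * A + 2) * Real.exp (-(|(δ : ℝ)| / Q)) := by
          intro δ
          rw [hT]
          show (if true = true then (if false = true then 4 * Real.exp (2 - A * s₀ / 4 - lam * (|(δ : ℝ)| / Q)) else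
            2 * Real.exp ((C₁ + 2) * A + 2 - |(δ : ℝ)| / Q)) else x * Real.exp (C₁ * A + 2 - |(δ : ℝ)| / Q)) = _
          rw [if_pos rfl, if_neg (by simp), mul_assoc, ← Real.exp_add]
          congr 2
        simp only [e1]
        rw [← Finset.mul_sum, hL]
        exact mul_le_mul_of_nonneg_left (hg2 _) (by positivity)
      rw [hHf]
      linarith
  have hf2 : ∀ b b' δ, ∫ η, ff66 μ s m r h cm cr ρ θ b b' δ η ^ 2 ∂(law μ) ≤ T b b' δ ^ 2 := by
    intro b b' δ
    rw [hT, hθ, hρd]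
    cases b' with
    | false =>
      show _ ≤ (x * Real.exp (C₁ * A + 2 - |(δ : ℝ)| / Q)) ^ 2
      exact bound_bad66 S hQ hE0 hA0 hx0 (by rw [hε]; linarith) b δ
    | true =>
      cases b with
      | false => exact bound_bg66 S hQ hE0 hA0 hAE false hρE δ
      | true =>
        have hxA : x ^ 2 * Real.exp (2 * ((C₁ + 2) * A + 2)) ≤ Real.exp (-(A * s₀)) := by
          have h1 : Real.exp (2 * ((C₁ + 2) * A + 2)) ≤ L ^ 2 := by
            rw [← exp_sq]
            exact pow_le_pow_left₀ (Real.exp_pos _).le hL1 2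
          have h2 : x ^ 2 * Real.exp (2 * ((C₁ + 2) * A + 2)) ≤ x ^ 2 * L ^ 2 :=
            mul_le_mul_of_nonneg_left h1 (sq_nonneg _)
          have h3 : x * L ^ 2 ≤ Real.exp (-A) := by nlinarith
          have h4 : x ^ 2 * L ^ 2 ≤ Real.exp (-A) := by nlinarith
          refine (h2.trans h4).trans (Real.exp_le_exp.2 ?_)
          nlinarith
        have h1 := bound_gg66 S hQ hE0 hA0 hAE hε0 hε8 hs hs1 hC hx0 (by rw [hε]; linarith [pow_pos hx0 4]) hxA δ
        rw [← hlam] at h1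
        exact h1
  have hfi : ∀ b b' δ, Integrable (fun η => ff66 μ s m r h cm cr ρ θ b b' δ η ^ 2) (law μ) := by
    intro b b' δ
    have hmeas := (ff_meas (μ := μ) (s := s) m r h cm cr ρ θ b b' δ).pow_const 2
    cases b' with
    | true =>
      refine ((GB66_int (μ := μ) (s := s) S.em (m + r) (Q * h) (cm + cr + (δ + 1) * h) (p := 2 * θ)
        (by linarith)).const_mul (((2 * Real.exp ρ) ^ θ) ^ 2)).mono' hmeas.aestronglyMeasurable
        (Filter.Eventually.of_forall fun η => ?_)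
      rw [Real.norm_eq_abs, abs_of_nonneg (sq_nonneg _)]
      unfold Pool.Agent.W_7d29a1_h66.ff
      rw [if_pos rfl, mul_pow, sq_rpow (PP_nonneg _ _ _ _ _ _ _ _)]
      exact mul_le_mul_of_nonneg_left (Real.rpow_le_rpow (PP_nonneg _ _ _ _ _ _ _ _)
        (PP_le_GB66 S.one_h hQ b δ η) (by linarith)) (sq_nonneg _)
    | false =>
      refine (GB66_int (μ := μ) (s := s) S.em m (Q * h) (cm + δ * h) (p := 2 * θ) (by linarith)).mono'
        hmeas.aestronglyMeasurable (Filter.Eventually.of_forall fun η => ?_)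
      rw [Real.norm_eq_abs, abs_of_nonneg (sq_nonneg _)]
      unfold Pool.Agent.W_7d29a1_h66.ff
      rw [if_neg (by simp), mul_pow, sq_rpow (RR_nonneg _ _ _ _ _ _)]
      refine le_trans (mul_le_of_le_one_left (Real.rpow_nonneg (RR_nonneg _ _ _ _ _ _) _)
        (pow_le_one₀ (io_nonneg _) (io_le_one _))) ?_
      exact Real.rpow_le_rpow (RR_nonneg _ _ _ _ _ _) (RR_le_GB66 S.one_h hQ b δ η) (by linarith)
  have hmom := chain_moment (μ := μ) (s := s) S.one_h S.rm hρ0 hθ0 hθ1 hT0 hH0 (by rw [hH]; simp) hfi hf2 hTH hi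
  have hHt : H true = 1 := by rw [hH]; simp
  rw [hHt] at hmom
  have hcrr : cr ≤ r := by linarith [S.cr1, (Int.natCast_nonneg h : (0 : ℤ) ≤ h)]
  have hpos0 : (0 : ℤ) ≤ (i : ℤ) * cm + cr := add_nonneg (mul_nonneg (Int.natCast_nonneg i) S.cm0) S.cr0
  have hpos1 : (i : ℤ) * cm + cr ≤ ((i * m + r : ℕ) : ℤ) := by
    push_cast
    have h3 : (i : ℤ) * cm ≤ i * m := mul_le_mul_of_nonneg_left S.cm1 (Int.natCast_nonneg i)
    linarith
  have hJ := exp_neg_e_le (μ := μ) (s := s) S.em 0 hpos0 hpos1 θ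
  have h1 := hJ.trans hmom
  have h2 : Real.exp (-(θ * e μ s (i * m + r) ((i : ℤ) * cm + cr))) ≤ Real.exp (-((i : ℝ) * Real.log 2)) := by
    refine h1.trans (le_of_eq ?_)
    rw [Real.exp_neg, ← Real.log_pow, Real.exp_log (by positivity), one_div]
  have h3 := Real.exp_le_exp.1 h2
  have h4 : (i : ℝ) * Real.log 2 ≤ θ * e μ s (i * m + r) ((i : ℤ) * cm + cr) := by linarith
  have h5 : (i : ℝ) * (Real.log 2 * E / A) = ((i : ℝ) * Real.log 2) / θ := by
    rw [hθ]
    field_simp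
  rw [h5, div_le_iff₀ hθ0]
  linarith

end Pool.Agent.W_7d29a1_H
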