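import Pool.Agent.W_7d29a1_H.LamH
import Pool.Agent.W_7d29a1_H.UnitH
import Pool.Agent.W_7d29a1_H.Soft4
import Pool.Agent.W_7d29a1_H.BalT35
import Pool.Agent.W_7d29a1_H.RateH

/-!
MP_7d29a1_pr, TRACK H (all tilts), (D7): concentration of the costs at a scale which is not soft; the costs along the direction are
sublinear. (helper66)
-/

set_option autoImplicit false

namespace Pool.Agent.W_7d29a1_H

open MeasureTheory ProbabilityTheory
open Pool.Agent.W_7d29a1_F Pool.Agent.W_7d29a1_h4g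

noncomputable section

variable {μ : Measure ℝ} [IsProbabilityMeasure μ] {A : Set ℝ} {H δ : ℝ}

/-- Concentration of a cost whose mean is at most `K` units. -/
theorem con_X66 {ε : ℝ} (hε : 0 < ε) (K : ℝ) : ∃ α₀ : ℝ, 1 ≤ α₀ ∧ ∀ α : ℝ, α₀ ≤ α → ∀ (s : ℝ) (x l : ℕ) (y : ℤ),
    ¬ Sf μ s x α → l ≤ 2 ^ (x + 1) → 0 ≤ y → y ≤ l → e μ s l y ≤ K * EE μ s (2 ^ x) →
    (law μ).real {η | ε * EE μ s (2 ^ x) ≤ |X μ s η 0 l y - e μ s l y|} ≤ ε := by
  refine ⟨max 1 (max (-Real.logb 2 ε) (Real.logb 2 (max K 1))), le_max_left _ _, ?_⟩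
  intro α hα s x l y hS hlx hy0 hy1 hK
  have h1 : 1 ≤ α := (le_max_left _ _).trans hα
  have h2 : -Real.logb 2 ε ≤ α := (le_max_left _ _).trans ((le_max_right _ _).trans hα)
  have h3 : Real.logb 2 (max K 1) ≤ α := (le_max_right _ _).trans ((le_max_right _ _).trans hα)
  have hE := EE_pos (μ := μ) (s := s) (2 ^ x)
  have k1 : (2 : ℝ) ^ (-α) ≤ ε := by
    calc (2 : ℝ) ^ (-α) ≤ 2 ^ (Real.logb 2 ε) := Real.rpow_le_rpow_of_exponent_le one_le_two (by linarith)
      _ = ε := Real.rpow_logb two_pos (by norm_num) hε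
  have k2 : K ≤ (2 : ℝ) ^ α := by
    calc K ≤ max K 1 := le_max_left _ _
      _ = 2 ^ (Real.logb 2 (max K 1)) := (Real.rpow_logb two_pos (by norm_num) (by positivity)).symm
      _ ≤ 2 ^ α := Real.rpow_le_rpow_of_exponent_le one_le_two h3
  have hl' : (l : ℝ) ≤ (2 : ℝ) ^ ((x : ℝ) + α) := by
    calc (l : ℝ) ≤ ((2 ^ (x + 1) : ℕ) : ℝ) := by exact_mod_cast hlx
      _ = (2 : ℝ) ^ ((x : ℝ) + 1) := by
          push_cast
          rw [← Real.rpow_natCast]
          push_cast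
          rfl
      _ ≤ _ := Real.rpow_le_rpow_of_exponent_le one_le_two (by linarith)
  have hm : -((2 : ℝ) ^ α * EE μ s (2 ^ x)) ≤ ∫ η, Real.log (W μ s η 0 l y) ∂(law μ) := by
    rw [int_log_W4]
    have := mul_le_mul_of_nonneg_right k2 hE.le
    linarith
  have hc := conc_of_not_Sf hS hl' (poly_W4 l y) (fun η => W_pos η 0 hy0 hy1) (log_W_le_V4 hy0 hy1) hm
  rw [int_log_W4] at hc
  refine le_trans (measureReal_mono (fun η hη => ?_) (measure_ne_top _ _)) (hc.le.trans k1)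
  rw [Set.mem_ofPred_eq] at hη ⊢
  have h4 : Real.log (W μ s η 0 l y) - -e μ s l y = -(X μ s η 0 l y - e μ s l y) := by
    unfold X
    ring
  rw [h4, abs_neg]
  exact (mul_le_mul_of_nonneg_right k1 hE.le).trans hη

/-- The lower tail of a cost, any mean. -/
theorem pc_X66 (hEM : Pool.Agent.W_7d29a1_h47.EM μ) (hnd : Pool.Agent.W_7d29a1_h47.Nondeg μ) {ε K : ℝ} (hε : 0 < ε)
    (hK : 0 < K) : ∃ α₀ : ℝ, 1 ≤ α₀ ∧ ∀ α : ℝ, α₀ ≤ α → ∀ (s : ℝ) (x l : ℕ) (y : ℤ) (r : ℝ),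
    ¬ Sf μ s x α → l ≤ 2 ^ (x + 1) → 0 ≤ y → y ≤ l → r ≤ e μ s l y → r ≤ K * EE μ s (2 ^ x) →
    (law μ).real {η | X μ s η 0 l y < r - ε * EE μ s (2 ^ x)} ≤ ε := by
  obtain ⟨T, C, hT, hC, hmc⟩ := mc_X hEM hnd hε
  obtain ⟨α₀, hα₀, hcon⟩ := con_X66 (μ := μ) hε (max (2 * K) (C * (2 * T)))
  refine ⟨α₀, hα₀, fun α hα s x l y r hS hlx hy0 hy1 hr hrK => ?_⟩
  have hE := EE_pos (μ := μ) (s := s) (2 ^ x)
  by_cases hbig : e μ s l y ≤ max (2 * K) (C * (2 * T)) * EE μ s (2 ^ x)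
  · refine le_trans (measureReal_mono (fun η hη => ?_) (measure_ne_top _ _))
      (hcon α hα s x l y hS hlx hy0 hy1 hbig)
    rw [Set.mem_ofPred_eq] at hη ⊢
    have h1 := neg_abs_le (X μ s η 0 l y - e μ s l y)
    linarith
  · by_contra hcon'
    push Not at hcon'
    refine hbig ?_
    have h1 : T * l ≤ 2 * T * 2 ^ x := by
      have : T * l ≤ T * 2 ^ (x + 1) := Nat.mul_le_mul_left _ hlx
      rw [pow_succ] at this
      linarith
    have h2 := hmc s l (2 * T * 2 ^ x) h1 y hy0 hy1 (K * EE μ s (2 ^ x)) (by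
      refine hcon'.le.trans (measureReal_mono (fun η hη => ?_) (measure_ne_top _ _))
      rw [Set.mem_ofPred_eq] at hη ⊢
      have : 0 < ε * EE μ s (2 ^ x) := by positivity
      linarith)
    have h3 := EE_mul hEM s (2 ^ x) (k := 2 * T) (by omega)
    refine h2.trans (max_le ?_ ?_)
    · have := mul_le_mul_of_nonneg_right (le_max_left (2 * K) (C * (2 * T))) hE.le
      linarith
    · have h4 : C * EE μ s (2 * T * 2 ^ x) ≤ C * ((2 * T : ℕ) * EE μ s (2 ^ x)) :=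
        mul_le_mul_of_nonneg_left h3 (by linarith)
      have h5 := mul_le_mul_of_nonneg_right (le_max_right (2 * K) (C * (2 * T))) hE.le
      push_cast at h4
      linarith

/-- The linear bound of the mean costs, uniform for the tilts `|s| ≤ H`. -/
theorem e_up66 (hμ : Pool.Agent.W_7d29a1_h47.EM μ) (hnd : Pool.Agent.W_7d29a1_h47.Nondeg μ) (H : ℝ) : ∃ K1 : ℝ, 0 ≤ K1 ∧
    ∀ s : ℝ, |s| ≤ H → ∀ (n : ℕ) (y : ℤ), 0 ≤ y → y ≤ n → e μ s n y ≤ K1 * n := by
  obtain ⟨K0, hK0⟩ : ∃ K0 : ℝ, K0 = max (e μ 0 1 0) (e μ 0 1 1) := ⟨_, rfl⟩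
  have hK00 : 0 ≤ K0 := by
    rw [hK0]
    exact (e_nonneg hμ 0 (n := 1) (y := 0) le_rfl (by norm_num)).trans (le_max_left _ _)
  have h0 : ∀ (n : ℕ) (y : ℤ), 0 ≤ y → y ≤ n → e μ 0 n y ≤ K0 * n := by
    intro n
    induction n with
    | zero =>
      intro y hy0 hy1
      have : y = 0 := by push_cast at hy1; omega
      subst this
      rw [e_zero]
      simp
    | succ n ih =>
      intro y hy0 hy1
      push_cast at hy1
      by_cases hyn : y ≤ n
      · have h1 := e_add_le (μ := μ) (s := 0) hμ (m := n) (n := 1) (k := y) (y := 0) hy0 hyn le_rfl (by norm_num)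
        rw [add_zero] at h1
        have h2 := ih y hy0 hyn
        have h3 : e μ 0 1 0 ≤ K0 := by rw [hK0]; exact le_max_left _ _
        push_cast
        linarith
      · have hy2 : y - 1 ≤ n := by omega
        have hy3 : 0 ≤ y - 1 := by omega
        have h1 := e_add_le (μ := μ) (s := 0) hμ (m := n) (n := 1) (k := y - 1) (y := 1) hy3 hy2 (by norm_num) (by norm_num)
        rw [sub_add_cancel] at h1
        have h2 := ih (y - 1) hy3 hy2
        have h3 : e μ 0 1 1 ≤ K0 := by rw [hK0]; exact le_max_right _ _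
        push_cast
        linarith
  refine ⟨K0 + 2 * |H|, by positivity, fun s hs n y hy0 hy1 => ?_⟩
  have hH := hs.trans (le_abs_self H)
  have hl : lam μ s - lam μ 0 ≤ |s| := by
    have h1 := lam_tangent hμ hnd s 0
    have h2 := sl_mem hμ hnd s
    have h3 : sl μ s * s ≤ |s| := by
      have h4 : |sl μ s * s| ≤ 1 * |s| := by
        rw [abs_mul, abs_of_pos h2.1]
        exact mul_le_mul_of_nonneg_right h2.2.le (abs_nonneg s)
      have := le_abs_self (sl μ s * s)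
      linarith
    linarith
  rw [e_tilt85 hμ s hy0 hy1]
  have h2 := h0 n y hy0 hy1
  have hn0 : (0 : ℝ) ≤ n := Nat.cast_nonneg n
  have h3 : (n : ℝ) * (lam μ s - lam μ 0) ≤ n * |H| := mul_le_mul_of_nonneg_left (hl.trans hH) hn0
  have hyr0 : (0 : ℝ) ≤ y := by exact_mod_cast hy0
  have hyr1 : (y : ℝ) ≤ n := by exact_mod_cast hy1
  have h4 : -(s * y) ≤ n * |H| := by
    have h5 : -(s * y) ≤ |s * y| := neg_le_abs _
    rw [abs_mul, abs_of_nonneg hyr0] at h5
    have h6 : |s| * y ≤ |H| * n := mul_le_mul hH hyr1 hyr0 (abs_nonneg _)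
    linarith
  linarith

/-- The costs along the direction are not linear with a large slope. -/
theorem no_lin66 (hD : Dirs μ H δ A) (hr : Rate μ A) : ∃ G : ℝ, 0 < G ∧ ∀ s ∈ A, ∀ (m r : ℕ) (cm cr : ℤ) (g : ℝ),
    1 ≤ m → 8 / δ ≤ m → G ≤ g → 0 ≤ cr → cr ≤ r → |(cm : ℝ) - sl μ s * m| ≤ 1 →
    (∀ i : ℕ, 1 ≤ i → (i : ℝ) * g ≤ e μ s (i * m + r) ((i : ℤ) * cm + cr)) → False := by
  obtain ⟨K1, hK1, hup⟩ := e_up66 hD.em hD.nd H
  have hδ := hD.δ0
  refine ⟨3 + 2 * K1 / δ, by positivity, fun s hs m r cm cr g hm1 hm8 hg hcr0 hcr1 hcm hlin => ?_⟩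
  have hmr : (1 : ℝ) ≤ m := by exact_mod_cast hm1
  have hm0 : (0 : ℝ) < m := by linarith
  have hlo := hD.lo s hs
  have hhi := hD.hi s hs
  obtain ⟨j, hj, hst⟩ := hD.strict (1 / m) (by positivity)
  obtain ⟨n0, hn0⟩ := hr (min (j / (2 * m)) (1 / m)) (lt_min (by positivity) (by positivity))
  -- the number of slabs
  obtain ⟨i, hi⟩ := exists_nat_gt (max ((n0 : ℝ) + 1) (max (8 * r / δ + 8) (r + 2 * K1 * r / δ + K1)))
  have hi1 : (n0 : ℝ) + 1 < i := (le_max_left _ _).trans_lt hi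
  have hi2 : 8 * r / δ + 8 < i := ((le_max_left _ _).trans (le_max_right _ _)).trans_lt hi
  have hi3 : r + 2 * K1 * r / δ + K1 < i := ((le_max_right _ _).trans (le_max_right _ _)).trans_lt hi
  have hn00 : (0 : ℝ) ≤ n0 := Nat.cast_nonneg n0
  have hir1 : (1 : ℝ) ≤ i := by linarith
  have hi1' : 1 ≤ i := by exact_mod_cast hir1
  have hrr : (0 : ℝ) ≤ r := Nat.cast_nonneg r
  obtain ⟨k, hk⟩ : ∃ k : ℕ, k = ⌈(2 * i + 2 * r) / δ⌉₊ := ⟨_, rfl⟩
  have hk1 : (2 * i + 2 * r) / δ ≤ k := by rw [hk]; exact Nat.le_ceil _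
  have hk2 : (k : ℝ) < (2 * i + 2 * r) / δ + 1 := by rw [hk]; exact Nat.ceil_lt_add_one (by positivity)
  have hkδ : 2 * i + 2 * r ≤ δ * k := by
    rw [div_le_iff₀ hδ] at hk1
    linarith
  obtain ⟨N, hN⟩ : ∃ N : ℕ, N = i * m + r := ⟨_, rfl⟩
  have hNr : (N : ℝ) = i * m + r := by rw [hN]; push_cast; ring
  have him : 8 * (i : ℝ) / δ ≤ i * m := by
    have := mul_le_mul_of_nonneg_left hm8 (show (0 : ℝ) ≤ i by linarith)
    calc 8 * (i : ℝ) / δ = i * (8 / δ) := by ring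
      _ ≤ i * m := this
  have him2 : (i : ℝ) ≤ i * m := by
    have := mul_le_mul_of_nonneg_left hmr (show (0 : ℝ) ≤ i by linarith)
    linarith
  have hkN : (k : ℝ) + i / 2 ≤ N := by
    have h1 : (2 * (i : ℝ) + 2 * r) / δ = 8 * i / δ / 4 + 8 * r / δ / 4 := by ring
    rw [h1] at hk2
    rw [hNr]
    linarith
  have hkN' : k ≤ N := by
    have : (k : ℝ) ≤ N := by linarith
    exact_mod_cast this
  obtain ⟨N', hN'⟩ : ∃ N' : ℕ, N' = N - k := ⟨_, rfl⟩
  have hNN : N = N' + k := by omega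
  have hNNr : (N : ℝ) = N' + k := by rw [hNN]; push_cast; ring
  have hn0N : n0 ≤ N' := by
    have h1 : (n0 : ℝ) / 2 ≤ N' := by linarith
    -- the bound `i / 2` is enough: `n0 + 1 < i` and `i ≤ 2 N'`
    by_contra hc
    push Not at hc
    have h2 : (N' : ℝ) + 1 ≤ n0 := by exact_mod_cast hc
    have h3 : (i : ℝ) * m / 2 ≤ N' := by
      have h1 : (2 * (i : ℝ) + 2 * r) / δ = 8 * i / δ / 4 + 8 * r / δ / 4 := by ring
      rw [h1] at hk2
      have h4 : (N' : ℝ) = i * m + r - k := by linarith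
      rw [h4]
      nlinarith
    have h5 : (8 : ℝ) ≤ m := by
      have h6 : δ ≤ 1 := by linarith
      have h7 : 8 ≤ 8 / δ := by
        rw [le_div_iff₀ hδ]
        linarith
      linarith
    nlinarith
  have hN'0 : 1 ≤ N' := by
    have h1 : (1 : ℝ) / 2 ≤ N' := by linarith
    have h2 : 0 < N' := by
      by_contra hc
      have : N' = 0 := by omega
      rw [this] at h1
      norm_num at h1
    exact h2
  have hN'r : (0 : ℝ) < N' := by exact_mod_cast hN'0
  have hEE := hn0 s hs N' hn0N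
  have hE1 : EE μ s N' ≤ j / (2 * m) * N' := hEE.trans (mul_le_mul_of_nonneg_right (min_le_left _ _) hN'r.le)
  have hE2 : EE μ s N' ≤ 1 / m * N' := hEE.trans (mul_le_mul_of_nonneg_right (min_le_right _ _) hN'r.le)
  have hxs := xs_mem (μ := μ) (s := s) N'
  have hexs : e μ s N' (xs μ s N') ≤ EE μ s N' := by
    have h1 := e_xs_le hD.em s N'
    have h2 := le_EE (μ := μ) (s := s) (le_refl N')
    linarith
  -- the cheapest displacement is near the line
  have hnear : |(xs μ s N' : ℝ) - sl μ s * N'| ≤ N' / m := by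
    by_contra hc
    push Not at hc
    have h1 : (xs μ s N' : ℝ) / N' - sl μ s = ((xs μ s N' : ℝ) - sl μ s * N') / N' := by field_simp
    have h2 : 1 / m ≤ |(xs μ s N' : ℝ) / N' - sl μ s| := by
      rw [h1, abs_div, abs_of_pos hN'r, le_div_iff₀ hN'r]
      calc 1 / (m : ℝ) * N' = N' / m := by ring
        _ ≤ _ := hc.le
    have h3 := hst s hs _ h2
    have h4 := e_ge35 hD.em s hN'0 hxs.1 hxs.2
    have h5 : j * (1 / m) ≤ J μ s ((xs μ s N' : ℝ) / N' - sl μ s) := (mul_le_mul_of_nonneg_left h2 hj.le).trans h3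
    have h6 : (N' : ℝ) * (j * (1 / m)) ≤ j / (2 * m) * N' :=
      (mul_le_mul_of_nonneg_left h5 hN'r.le).trans (h4.trans (hexs.trans hE1))
    have h7 : j / (2 * m) * N' = (N' : ℝ) * (j * (1 / m)) / 2 := by
      field_simp
    have h8 : 0 < (N' : ℝ) * (j * (1 / m)) := by positivity
    linarith
  have hNm : (N' : ℝ) / m ≤ i + r := by
    rw [div_le_iff₀ hm0]
    have h1 : (N' : ℝ) ≤ N := by linarith [(Nat.cast_nonneg k : (0 : ℝ) ≤ k)]
    have h2 : (r : ℝ) ≤ r * m := by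
      have := mul_le_mul_of_nonneg_left hmr hrr
      linarith
    rw [hNr] at h1
    linarith
  obtain ⟨y, hy⟩ : ∃ y : ℤ, y = (i : ℤ) * cm + cr := ⟨_, rfl⟩
  have hyr : |(y : ℝ) - sl μ s * N| ≤ i + r := by
    have e1 : (y : ℝ) - sl μ s * N = i * ((cm : ℝ) - sl μ s * m) + ((cr : ℝ) - sl μ s * r) := by
      rw [hy, hNr]
      push_cast
      ring
    rw [e1]
    refine (abs_add_le _ _).trans (add_le_add ?_ ?_)
    · rw [abs_mul, abs_of_nonneg (show (0 : ℝ) ≤ i by linarith)]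
      have := mul_le_mul_of_nonneg_left hcm (show (0 : ℝ) ≤ i by linarith)
      linarith
    · have h1 : (0 : ℝ) ≤ cr := by exact_mod_cast hcr0
      have h2 : (cr : ℝ) ≤ r := by exact_mod_cast hcr1
      have h3 : 0 ≤ sl μ s * r := by
        have : 0 < sl μ s := by linarith
        positivity
      have h4 : sl μ s * r ≤ r := by
        have : sl μ s * r ≤ 1 * r := mul_le_mul_of_nonneg_right (by linarith) hrr
        linarith
      rw [abs_le]
      constructor <;> linarith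
  rw [abs_le] at hyr hnear
  have hq0 : (0 : ℝ) ≤ (y : ℝ) - xs μ s N' := by
    have h1 : sl μ s * N = sl μ s * N' + sl μ s * k := by rw [hNNr]; ring
    have h2 : δ * k ≤ sl μ s * k := mul_le_mul_of_nonneg_right hlo (Nat.cast_nonneg k)
    linarith [hyr.1, hnear.2]
  have hq1 : (y : ℝ) - xs μ s N' ≤ k := by
    have h1 : sl μ s * N = sl μ s * N' + sl μ s * k := by rw [hNNr]; ring
    have h2 : sl μ s * k ≤ (1 - δ) * k := mul_le_mul_of_nonneg_right hhi (Nat.cast_nonneg k)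
    linarith [hyr.2, hnear.1]
  have hq0' : 0 ≤ y - xs μ s N' := by exact_mod_cast hq0
  have hq1' : y - xs μ s N' ≤ k := by exact_mod_cast hq1
  have hadd := e_add_le (μ := μ) (s := s) hD.em hxs.1 hxs.2 hq0' hq1'
  rw [add_sub_cancel, ← hNN] at hadd
  have h1 := hlin i hi1'
  rw [← hN, ← hy] at h1
  have h2 := hup s (hD.bd s hs) k (y - xs μ s N') hq0' hq1'
  have h3 : K1 * k ≤ K1 * ((2 * i + 2 * r) / δ + 1) := mul_le_mul_of_nonneg_left hk2.le hK1
  have h4 : 1 / m * (N' : ℝ) ≤ i + r := by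
    calc 1 / m * (N' : ℝ) = N' / m := by ring
      _ ≤ _ := hNm
  have h5 : (i : ℝ) * (3 + 2 * K1 / δ) ≤ i * g := mul_le_mul_of_nonneg_left hg (by linarith)
  have h6 : K1 * ((2 * i + 2 * r) / δ + 1) = i * (2 * K1 / δ) + 2 * K1 * r / δ + K1 := by
    field_simp
  rw [h6] at h3
  nlinarith

end

end Pool.Agent.W_7d29a1_H
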