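import Pool.Agent.W_7d29a1_H.D7Hb66
import Pool.Agent.W_7d29a1_H.D7Hc66
import Pool.Agent.W_7d29a1_H.ConH
import Pool.Agent.W_7d29a1_H.WidthH

/-!
MP_7d29a1_pr, TRACK H (all tilts), (D7): at a scale which is not soft the bulk does not grow, from (CHEAP), (EL), (I1), uniformly in the
tilt. (helper66)
-/

set_option autoImplicit false

namespace Pool.Agent.W_7d29a1_H

open MeasureTheory ProbabilityTheory
open Pool.Agent.W_7d29a1_F Pool.Agent.W_7d29a1_h4g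

noncomputable section

/-! ### Arithmetic -/

theorem ar_slope66 {h Q C c₀ s₀ w U D : ℝ} (hh0 : 0 ≤ h) (hQC : 8 * C ≤ Q * (c₀ * s₀)) (hQh1 : Q * h ≤ w)
    (hc : 0 < c₀) (hs : 0 < s₀) (hs1 : s₀ ≤ 1) (hC : 1 ≤ C) (hU : 0 < U) (hw0 : 0 < w) (hD : c₀ * w / 2 ≤ D) :
    h ≤ D ∧ h * (C * U) ≤ s₀ / 4 * U * D := by
  have hc₀ : 0 < c₀ * w / 2 := by positivity
  have h1 : h * (C * U) ≤ s₀ / 4 * U * D := by
    have h2 : h * (8 * C) ≤ h * (Q * (c₀ * s₀)) := mul_le_mul_of_nonneg_left hQC hh0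
    have h3 : h * (Q * (c₀ * s₀)) ≤ w * (c₀ * s₀) := by
      have := mul_le_mul_of_nonneg_right hQh1 (show 0 ≤ c₀ * s₀ by positivity)
      linarith
    have h4 : h * C ≤ s₀ / 4 * (c₀ * w / 2) := by linarith
    have h5 : s₀ / 4 * (c₀ * w / 2) ≤ s₀ / 4 * D := mul_le_mul_of_nonneg_left hD (by positivity)
    have h6 := mul_le_mul_of_nonneg_right (h4.trans h5) hU.le
    linarith
  refine ⟨?_, h1⟩
  have h7 : h * U ≤ h * (C * U) := by
    refine mul_le_mul_of_nonneg_left ?_ hh0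
    have := mul_le_mul_of_nonneg_right hC hU.le
    linarith
  have h8 : s₀ / 4 * U * D ≤ 1 * U * D := by
    refine mul_le_mul_of_nonneg_right (mul_le_mul_of_nonneg_right (by linarith) hU.le) (by linarith)
  have h9 : h * U ≤ D * U := by linarith
  exact le_of_mul_le_mul_right h9 hU

theorem ar_chord66 {D X e₁ e₂ h V q : ℝ} (hD : 0 < D) (hh0 : 0 ≤ h) (he₁ : 0 ≤ e₁)
    (hX : D * X ≤ (D - h) * e₁ + h * e₂) (he₂ : e₂ ≤ V) (h2 : h * V ≤ q * D) : X ≤ e₁ + q := by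
  have h3 : h * e₂ ≤ h * V := mul_le_mul_of_nonneg_left he₂ hh0
  have h4 : 0 ≤ h * e₁ := mul_nonneg hh0 he₁
  have h5 : D * X ≤ D * (e₁ + q) := by linarith
  exact le_of_mul_le_mul_left h5 hD

theorem div_dist66 {h Q : ℕ} (hh : 1 ≤ h) (hQ : 2 ≤ Q) {x : ℝ} {k δ : ℤ} {r c : ℝ} (hk : |(k : ℝ)| ≥ |(δ : ℝ)| - 1)
    (hx : x = k * h + r) (hr : |r| ≤ 1 + c * (Q * h : ℕ)) : |(δ : ℝ)| / Q - 2 - c ≤ |x| / (Q * h : ℕ) := by
  have hh' : (1 : ℝ) ≤ h := by exact_mod_cast hh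
  have hQ' : (2 : ℝ) ≤ Q := by exact_mod_cast hQ
  have hw : (0 : ℝ) < ((Q * h : ℕ) : ℝ) := by push_cast; positivity
  rw [le_div_iff₀ hw]
  have h1 : |(k : ℝ) * h| - |r| ≤ |x| := by
    rw [hx]
    have := abs_sub_abs_le_abs_sub ((k : ℝ) * h) (-r)
    rw [abs_neg, sub_neg_eq_add] at this
    exact this
  rw [abs_mul, abs_of_nonneg (show (0 : ℝ) ≤ h by linarith)] at h1
  have h2 : (|(δ : ℝ)| - 1) * h ≤ |(k : ℝ)| * h := mul_le_mul_of_nonneg_right hk (by linarith)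
  have h3 : |(δ : ℝ)| / Q * ((Q * h : ℕ) : ℝ) = |(δ : ℝ)| * h := by
    push_cast
    field_simp
  have h4 : (1 : ℝ) + h ≤ 2 * ((Q * h : ℕ) : ℝ) := by
    push_cast
    nlinarith
  have h5 : (|(δ : ℝ)| / Q - 2 - c) * ((Q * h : ℕ) : ℝ) = |(δ : ℝ)| / Q * ((Q * h : ℕ) : ℝ) - 2 * ((Q * h : ℕ) : ℝ) -
      c * ((Q * h : ℕ) : ℝ) := by ring
  rw [h5, h3]
  linarith

/-- **GROWTH at a scale at which nothing fluctuates makes the cost linear for ever.** `x₁` is the cheapest displacement of the duration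
`R`, `[lo, hi]` an interval of cheap displacements around it, `w` the natural width, `U` the unit. -/
theorem growth66 {s₀ C c₀ C₁ Kd : ℝ} (hs : 0 < s₀) (hs1 : s₀ ≤ 1) (hC : 1 ≤ C) (hc : 0 < c₀) (hC₁ : 0 ≤ C₁)
    (hKd : 0 ≤ Kd) : ∃ A₁ W₁ : ℝ, 1 ≤ A₁ ∧ 0 < W₁ ∧ ∀ A : ℝ, A₁ ≤ A → ∃ ε : ℝ, 0 < ε ∧ ε ≤ 1 ∧
      ∀ (μ : Measure ℝ) [IsProbabilityMeasure μ] (s : ℝ) (m R : ℕ) (x₁ lo hi : ℤ) (U w : ℝ),
      Pool.Agent.W_7d29a1_h47.EM μ → 0 ≤ sl μ s → sl μ s ≤ 1 → R ≤ m → 0 < U → A ≤ 2 * U → W₁ ≤ w →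
      0 ≤ lo → hi ≤ R → lo ≤ x₁ → x₁ ≤ hi → c₀ * w ≤ (hi : ℝ) - lo →
      (∀ y : ℤ, lo ≤ y → y ≤ hi → e μ s R y ≤ C * U) → |(x₁ : ℝ) - sl μ s * R| ≤ Kd * w → e μ s R x₁ ≤ U →
      (∀ y : ℤ, 0 ≤ y → y ≤ ((m + R : ℕ) : ℤ) → e μ s R x₁ + s₀ * U ≤ e μ s (m + R) y) →
      (∀ y : ℤ, 0 ≤ y → y ≤ R → e μ s R y ≤ 2 * U → (law μ).real {η | e μ s R y + ε * U < X μ s η 0 R y} ≤ ε) →
      (∀ (y : ℤ) (r : ℝ), 0 ≤ y → y ≤ ((m + R : ℕ) : ℤ) → r ≤ e μ s (m + R) y → r ≤ 2 * U →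
        (law μ).real {η | X μ s η 0 (m + R) y < r - ε * U} ≤ ε) →
      (∀ t : ℕ, t = m ∨ t = m + R → ∀ wc : ℕ, w / 2 ≤ wc → (wc : ℝ) ≤ w → ∀ y0 : ℤ,
        ∫ η, GB66 μ s t wc y0 η ^ (4 * (A / (2 * U))) ∂(law μ) ≤
          Real.exp (4 * (C₁ * A - |(y0 : ℝ) - sl μ s * t| / wc))) →
      ∃ cm cr : ℤ, 0 ≤ cr ∧ cr ≤ R ∧ |(cm : ℝ) - sl μ s * m| ≤ 1 ∧ ∀ i : ℕ, 1 ≤ i →
        (i : ℝ) * (Real.log 2 * (2 * U) / A) ≤ e μ s (i * m + R) ((i : ℤ) * cm + cr) := by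
  -- the fineness of the cells
  obtain ⟨Q, hQ⟩ := exists_nat_ge (max 2 (8 * C / (c₀ * s₀)))
  have hQ2r : (2 : ℝ) ≤ Q := (le_max_left _ _).trans hQ
  have hQ2 : 2 ≤ Q := by exact_mod_cast hQ2r
  have hQC : 8 * C ≤ Q * (c₀ * s₀) := by
    have := (le_max_right _ _).trans hQ
    rwa [div_le_iff₀ (by positivity)] at this
  have hQr : (0 : ℝ) < Q := by linarith
  obtain ⟨K, hK⟩ : ∃ K : ℝ, K = 2 * (Kd + 1) := ⟨_, rfl⟩
  have hK0 : 0 ≤ K := by rw [hK]; positivity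
  obtain ⟨A₁, hA₁, hd7⟩ := d7_66 (s₀ := s₀ / 4) (C₁ := C₁ + K) (by positivity) (by linarith) (by positivity) hQ2
  refine ⟨A₁, 2 * Q, hA₁, by positivity, fun A₀ hA₀₁ => ?_⟩
  have hA₀ : 1 ≤ A₀ := hA₁.trans hA₀₁
  obtain ⟨ε, hε, hε7, hmain⟩ := hd7 A₀ hA₀₁
  have hA0 : 0 < A₀ := by linarith
  refine ⟨ε / 2, by positivity, by linarith, ?_⟩
  intro μ _ s m R x₁ lo hi U w hEM hsl0 hsl1 hRm hU hAU hwQ hlo0 hhiR hlo hhi hwid hch hdrift hx₁ hgrow hcon hpc hel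
  have hw0 : 0 < w := by linarith
  -- the width of the cells
  obtain ⟨h, hh⟩ : ∃ h : ℕ, h = ⌊w / Q⌋₊ := ⟨_, rfl⟩
  have hh1 : (h : ℝ) ≤ w / Q := by
    rw [hh]
    exact Nat.floor_le (by positivity)
  have hh2 : w / Q < h + 1 := by
    rw [hh]
    exact Nat.lt_floor_add_one _
  have hQh1 : (Q : ℝ) * h ≤ w := by
    rw [le_div_iff₀ hQr] at hh1
    linarith
  have hQh2 : w / 2 ≤ (Q : ℝ) * h := by
    rw [div_lt_iff₀ hQr] at hh2
    linarith
  have hh1' : 1 ≤ h := by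
    by_contra hc'
    have : h = 0 := by omega
    rw [this] at hQh2
    simp at hQh2
    linarith
  have hh1r : (1 : ℝ) ≤ h := by exact_mod_cast hh1'
  have he0 : ∀ y : ℤ, 0 ≤ y → y ≤ R → 0 ≤ e μ s R y := fun y h0 h1 => e_nonneg hEM s h0 h1
  -- the slope towards the wide side
  have hslope : ∀ D : ℝ, c₀ * w / 2 ≤ D → (h : ℝ) ≤ D ∧ (h : ℝ) * (C * U) ≤ s₀ / 4 * U * D := by
    intro D hD
    exact ar_slope66 (by linarith) hQC hQh1 hc hs hs1 hC hU hw0 hD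
  have hs4U : 0 < s₀ / 4 * U := by positivity
  have hlor : (lo : ℝ) ≤ x₁ := by exact_mod_cast hlo
  have hhir : (x₁ : ℝ) ≤ hi := by exact_mod_cast hhi
  -- the reference
  have hdR : ∃ cr : ℤ, 0 ≤ cr ∧ cr + h ≤ R ∧ |(cr : ℝ) - x₁| ≤ h ∧ e μ s R cr ≤ e μ s R x₁ + s₀ / 4 * U ∧
      e μ s R (cr + h) ≤ e μ s R x₁ + s₀ / 4 * U := by
    rcases le_total (c₀ * w / 2) ((hi : ℝ) - x₁) with hside | hside
    · obtain ⟨g1, g2⟩ := hslope _ hside
      have hle : x₁ + h ≤ hi := by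
        have : (x₁ : ℝ) + h ≤ hi := by linarith
        exact_mod_cast this
      refine ⟨x₁, by omega, by omega, by rw [sub_self, abs_zero]; linarith, by linarith [hs4U], ?_⟩
      have hch1 := e_chord61 (s := s) hEM (n := R) (y0 := x₁) (y := x₁ + h) (y1 := hi) (by omega) (by omega) hle hhiR
      have hD0 : 0 < (hi : ℝ) - x₁ := lt_of_lt_of_le (by positivity) hside
      have h1 := hch hi (hlo.trans hhi) le_rfl
      push_cast at hch1
      exact ar_chord66 (h := h) hD0 (by linarith) (he0 _ (by omega) (by omega)) (by linarith) h1 g2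
    · have hside' : c₀ * w / 2 ≤ (x₁ : ℝ) - lo := by linarith
      obtain ⟨g1, g2⟩ := hslope _ hside'
      have hle : lo ≤ x₁ - h := by
        have : (lo : ℝ) ≤ x₁ - h := by linarith
        exact_mod_cast this
      refine ⟨x₁ - h, by omega, by omega, ?_, ?_, ?_⟩
      · push_cast
        rw [show (x₁ : ℝ) - h - x₁ = -h by ring, abs_neg, abs_of_nonneg (by linarith)]
      · have hch1 := e_chord61 (s := s) hEM (n := R) (y0 := lo) (y := x₁ - h) (y1 := x₁) hlo0 hle (by omega) (by omega)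
        have hD0 : 0 < (x₁ : ℝ) - lo := lt_of_lt_of_le (by positivity) hside'
        have h1 := hch lo le_rfl (hlo.trans hhi)
        push_cast at hch1
        exact ar_chord66 (h := h) hD0 (by linarith) (he0 _ (by omega) (by omega)) (by linarith) h1 g2
      · rw [sub_add_cancel]
        linarith [hs4U]
  obtain ⟨cr, hcr0, hcr1, hd1, hd3, hd4⟩ := hdR
  have hh0 : (0 : ℤ) ≤ h := Int.natCast_nonneg h
  obtain ⟨e₁, he₁⟩ : ∃ e₁ : ℝ, e₁ = e μ s R x₁ + s₀ / 4 * U := ⟨_, rfl⟩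
  rw [← he₁] at hd3 hd4
  have hUs : s₀ * U ≤ U := by
    have := mul_le_mul_of_nonneg_right hs1 hU.le
    linarith
  have hex0 := he0 x₁ (by omega) (by omega)
  have he₁0 : 0 ≤ e₁ := by rw [he₁]; linarith
  have he₁2 : e₁ ≤ 2 * U := by rw [he₁]; linarith
  have hεU : 0 < ε * U := by positivity
  have href : ∀ y : ℤ, 0 ≤ y → y ≤ R → e μ s R y ≤ e₁ → (law μ).real {η | e₁ + ε * (2 * U) < X μ s η 0 R y} ≤ ε := by
    intro y hy0 hy1 hy
    have h1 := hcon y hy0 hy1 (hy.trans he₁2)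
    refine le_trans (measureReal_mono ?_ (measure_ne_top _ _)) (h1.trans (by linarith))
    intro η hη
    simp only [Set.mem_ofPred_eq] at hη ⊢
    linarith
  have hQh : (((Q * h : ℕ) : ℕ) : ℝ) = Q * h := by push_cast; ring
  obtain ⟨cm, hcmd⟩ : ∃ cm : ℤ, cm = ⌊sl μ s * m⌋ := ⟨_, rfl⟩
  have hcmf := Int.floor_le (sl μ s * m)
  have hcmf2 := Int.lt_floor_add_one (sl μ s * m)
  rw [← hcmd] at hcmf hcmf2
  have hcm : |(cm : ℝ) - sl μ s * m| ≤ 1 := by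
    rw [abs_le]
    constructor <;> linarith
  have hcm0 : 0 ≤ cm := by
    rw [hcmd]
    exact Int.floor_nonneg.2 (by positivity)
  have hcm1 : cm ≤ m := by
    have h1 : sl μ s * m ≤ 1 * m := mul_le_mul_of_nonneg_right hsl1 (Nat.cast_nonneg m)
    have h2 : (cm : ℝ) ≤ m := by linarith
    exact_mod_cast h2
  have hdrift2 : |(cr : ℝ) - sl μ s * R| ≤ K * (Q * h : ℕ) := by
    rw [hQh, hK]
    have h1 : |(cr : ℝ) - sl μ s * R| ≤ |(cr : ℝ) - x₁| + |(x₁ : ℝ) - sl μ s * R| := by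
      have : (cr : ℝ) - sl μ s * R = ((cr : ℝ) - x₁) + ((x₁ : ℝ) - sl μ s * R) := by ring
      rw [this]
      exact abs_add_le _ _
    have h2 : (Kd + 1) * w ≤ (Kd + 1) * (2 * (Q * h)) := mul_le_mul_of_nonneg_left (by linarith) (by linarith)
    have h3 : (h : ℝ) ≤ w := by
      have h4 : 1 * (h : ℝ) ≤ Q * h := mul_le_mul_of_nonneg_right (by linarith) (by linarith)
      linarith
    linarith
  have hKA : K ≤ K * A₀ := by
    have := mul_le_mul_of_nonneg_left hA₀ hK0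
    linarith
  have hCK : (C₁ + K) * A₀ = C₁ * A₀ + K * A₀ := by ring
  have S : Sc66 μ s m R h Q cm cr (2 * U) e₁ (e μ s R x₁ + s₀ * U) (s₀ / 4) ε A₀ (C₁ + K) := by
    refine ⟨hEM, hRm, hh1', hcm0, hcm1, hcr0, hcr1, he₁0, he₁2, ?_, href cr hcr0 (by omega) hd3,
      href (cr + h) (by omega) hcr1 hd4, ?_, ?_, ?_⟩
    · rw [he₁]
      linarith
    · intro y hy0 hy1
      have h1 := hpc y (e μ s R x₁ + s₀ * U) hy0 hy1 (hgrow y hy0 hy1) (by linarith)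
      refine le_trans (measureReal_mono ?_ (measure_ne_top _ _)) (h1.trans (by linarith))
      intro η hη
      simp only [Set.mem_ofPred_eq] at hη ⊢
      linarith
    · intro δ
      refine (hel m (Or.inl rfl) (Q * h) (by rw [hQh]; exact hQh2) (by rw [hQh]; exact hQh1) (cm + δ * h)).trans
        (Real.exp_le_exp.2 ?_)
      have h1 := div_dist66 (h := h) (Q := Q) hh1' hQ2 (x := ((cm + δ * h : ℤ) : ℝ) - sl μ s * m) (k := δ) (δ := δ)
        (r := (cm : ℝ) - sl μ s * m) (c := 0) (by linarith) (by push_cast; ring) (by rw [zero_mul, add_zero]; exact hcm)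
      rw [hCK]
      linarith
    · intro δ
      refine (hel (m + R) (Or.inr rfl) (Q * h) (by rw [hQh]; exact hQh2) (by rw [hQh]; exact hQh1)
        (cm + cr + (δ + 1) * h)).trans (Real.exp_le_exp.2 ?_)
      have h1 := div_dist66 (h := h) (Q := Q) hh1' hQ2 (x := ((cm + cr + (δ + 1) * h : ℤ) : ℝ) - sl μ s * (m + R : ℕ))
        (k := δ + 1) (δ := δ) (r := ((cm : ℝ) - sl μ s * m) + ((cr : ℝ) - sl μ s * R)) (c := K) (by
          have e1 : (δ : ℝ) = ((δ + 1 : ℤ) : ℝ) - 1 := by push_cast; ring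
          have e2 : |(δ : ℝ)| ≤ |((δ + 1 : ℤ) : ℝ)| + 1 := by
            rw [e1]
            refine (abs_sub _ _).trans ?_
            rw [abs_one]
          linarith) (by push_cast; ring) ((abs_add_le _ _).trans (add_le_add hcm hdrift2))
      rw [hCK]
      linarith
  exact ⟨cm, cr, hcr0, by omega, hcm, hmain μ s m R h cm cr (2 * U) e₁ _ hAU S⟩

variable {μ : Measure ℝ} [IsProbabilityMeasure μ] {A : Set ℝ} {H δ a : ℝ}

/-- **THEOREM (D7), all tilts**, from (CHEAP), (EL), (I1). -/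
theorem d7H_of66 (hD : Dirs μ H δ A) (hr : Rate μ A) (hg : Grow μ A) (ha : 0 < a) (hCh : CheapH a μ A)
    (hEL : ELH a μ A) (hI : I1H μ A) : D7H μ A := by
  intro s₁ hs₁
  obtain ⟨s₀, hs⟩ : ∃ s₀ : ℝ, s₀ = min s₁ 1 := ⟨_, rfl⟩
  have hs0 : 0 < s₀ := by rw [hs]; exact lt_min hs₁ one_pos
  have hs1 : s₀ ≤ 1 := by rw [hs]; exact min_le_right _ _
  have hss : s₀ ≤ s₁ := by rw [hs]; exact min_le_left _ _
  obtain ⟨R₀, C, C₁, hC, hC₁, hel⟩ := hEL
  obtain ⟨cc, Cc', hcc, hch⟩ := hCh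
  obtain ⟨Cc, hCc'⟩ : ∃ Cc : ℝ, Cc = max Cc' 1 := ⟨_, rfl⟩
  have hCc : 1 ≤ Cc := by rw [hCc']; exact le_max_right _ _
  have hCcC : Cc' ≤ Cc := by rw [hCc']; exact le_max_left _ _
  have hC0 : 0 < C := by linarith
  obtain ⟨A₁, W₁, hA₁, hW₁, hno⟩ := growth66 (s₀ := s₀ / (3 * C)) (C := Cc) (c₀ := cc / (8 * C)) (C₁ := C₁)
    (Kd := 2 * C + 1) (by positivity) (by rw [div_le_one (by positivity)]; linarith) hCc (by positivity) hC₁
    (by positivity)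
  obtain ⟨B, hB⟩ : ∃ B : ℝ, B = max A₁ (2 * R₀) := ⟨_, rfl⟩
  have hB1 : A₁ ≤ B := by rw [hB]; exact le_max_left _ _
  have hB2 : R₀ ≤ B / 2 := by
    have : 2 * R₀ ≤ B := by rw [hB]; exact le_max_right _ _
    linarith
  have hB0 : 0 < B := by linarith
  obtain ⟨ε, hε, hε1, hfalse⟩ := hno B hB1
  obtain ⟨W₀, hW₀⟩ : ∃ W₀ : ℝ, W₀ = max (max 1 (8 * C / cc)) W₁ := ⟨_, rfl⟩
  have hWa : 8 * C / cc ≤ W₀ := by rw [hW₀]; exact (le_max_right _ _).trans (le_max_left _ _)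
  have hWb : 1 ≤ W₀ := by rw [hW₀]; exact (le_max_left _ _).trans (le_max_left _ _)
  have hWc : W₁ ≤ W₀ := by rw [hW₀]; exact le_max_right _ _
  obtain ⟨α₁, x₁, hel'⟩ := hel (B / 2) hB2 W₀
  obtain ⟨α₂, hα₂, hcon⟩ := con_X66 (μ := μ) hε (2 * C)
  obtain ⟨α₃, hα₃, hpc⟩ := pc_X66 hD.em hD.nd hε (K := 2 * C) (by positivity)
  obtain ⟨α₄, z₄, hi1⟩ := hI
  obtain ⟨G, hG0, hlin⟩ := no_lin66 hD hr
  have hlog : 0 < Real.log 2 := Real.log_pos (by norm_num)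
  obtain ⟨n5, h5⟩ := hg (max B (G * B / Real.log 2))
  obtain ⟨n6, h6⟩ := exists_nat_ge (16 / δ)
  obtain ⟨α, hα⟩ : ∃ α : ℝ, α = max (max α₁ α₂) (max α₃ α₄) := ⟨_, rfl⟩
  have e1 : α₁ ≤ α := by rw [hα]; exact (le_max_left _ _).trans (le_max_left _ _)
  have e2 : α₂ ≤ α := by rw [hα]; exact (le_max_right _ _).trans (le_max_left _ _)
  have e3 : α₃ ≤ α := by rw [hα]; exact (le_max_left _ _).trans (le_max_right _ _)
  have e4 : α₄ ≤ α := by rw [hα]; exact (le_max_right _ _).trans (le_max_right _ _)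
  refine ⟨α, 0, x₁ + z₄ + n5 + n6 + 1, ?_⟩
  rintro ⟨s, hsA⟩ z hz hS0
  have hS : ¬ Sf μ s z α := hS0 z (by omega) (by omega)
  show Em μ s (2 ^ (z + 1)) ≤ (1 + s₁) * Em μ s (2 ^ z)
  by_contra hcontra
  push Not at hcontra
  have hEm0 := Em_pos (μ := μ) (s := s) (2 ^ z)
  have hE0 := EE_pos (μ := μ) (s := s) (2 ^ z)
  -- the record
  obtain ⟨t, ht1, ht2⟩ : ∃ t : ℕ, t ≤ 2 ^ (z + 1) ∧ (1 + s₀) * Em μ s (2 ^ z) < e μ s t (xs μ s t) + 1 := by
    by_contra hc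
    push Not at hc
    have h1 := Em_le (μ := μ) (s := s) (n := 2 ^ (z + 1)) hc
    have h2 : (1 + s₀) * Em μ s (2 ^ z) ≤ (1 + s₁) * Em μ s (2 ^ z) := mul_le_mul_of_nonneg_right (by linarith) hEm0.le
    linarith
  have ht3 : 2 ^ z < t := by
    by_contra hc
    have h1 := le_Em (μ := μ) (s := s) (show t ≤ 2 ^ z by omega)
    have : 0 < s₀ * Em μ s (2 ^ z) := by positivity
    linarith
  have hzbig : z < 2 ^ z := Nat.lt_two_pow_self
  have h2z : 2 ^ (z + 1) = 2 * 2 ^ z := by ring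
  obtain ⟨R, hR⟩ : ∃ R : ℕ, R = t / 2 := ⟨_, rfl⟩
  obtain ⟨m, hm⟩ : ∃ m : ℕ, m = t - t / 2 := ⟨_, rfl⟩
  have hmR : m + R = t := by omega
  have hR1 : 1 ≤ R := by omega
  have hRm : R ≤ m := by omega
  have hRz : R ≤ 2 ^ z := by omega
  have hR2 : 2 ^ z ≤ 2 * R := by
    rcases Nat.eq_zero_or_pos z with h | h
    · subst h
      omega
    · have : 2 ^ z = 2 * 2 ^ (z - 1) := by
        conv_lhs => rw [show z = (z - 1) + 1 by omega]
        rw [pow_succ]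
        ring
      omega
  -- the unit
  obtain ⟨U, hU⟩ : ∃ U : ℝ, U = C * EE μ s (2 ^ z) := ⟨_, rfl⟩
  have hU0 : 0 < U := by rw [hU]; positivity
  have hEU : EE μ s (2 ^ z) ≤ U := by
    rw [hU]
    have := mul_le_mul_of_nonneg_right hC hE0.le
    linarith
  have hEbig := h5 s hsA (2 ^ z) (by omega)
  have hBU : B ≤ 2 * U := by
    have := (le_max_left _ _).trans hEbig
    linarith
  have hGU : G ≤ Real.log 2 * (2 * U) / B := by
    have h1 := (le_max_right _ _).trans hEbig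
    rw [div_le_iff₀ hlog] at h1
    rw [le_div_iff₀ hB0]
    have h2 := mul_le_mul_of_nonneg_left hEU hlog.le
    have h3 : 0 < Real.log 2 * U := by positivity
    linarith
  have hS1 : ¬ Sf μ s z α₁ := fun h => hS (h.mono e1)
  obtain ⟨w, hw0, hwC, hCw, helw⟩ := hel' s hsA z (by omega) hS1
  obtain ⟨lo, hi, hlo0, hlo, hhi, hhiR, hwid, hcheap⟩ := hch s hsA R hR1
  have hvA := Dirs.vA_le_two hD hsA ha.le hR1 hRz
  have hvw := Dirs.w_mono hD hsA ha.le hR1 hRz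
  have hvp : 0 < vA a μ s R := Dirs.vA_pos hD hsA ha hR1
  have hvp' : 0 < vA a μ s (2 ^ z) := Dirs.vA_pos hD hsA ha (by omega)
  have hR2r : (2 : ℝ) ^ z ≤ 2 * R := by exact_mod_cast hR2
  have hRpos : (0 : ℝ) < R := by exact_mod_cast hR1
  have hwR : (w : ℝ) ≤ 4 * C * wH a μ s R := by
    have h1 : wH a μ s (2 ^ z) ≤ 4 * wH a μ s R := by
      unfold wH
      push_cast
      have h2 : (2 : ℝ) ^ z * vA a μ s (2 ^ z) ≤ (2 * R) * (2 * vA a μ s R) :=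
        mul_le_mul hR2r hvA hvp'.le (by positivity)
      linarith
    have h2 := mul_le_mul_of_nonneg_left h1 hC0.le
    linarith
  have hw1 : (1 : ℝ) ≤ w := hWb.trans hw0
  obtain ⟨cm, cr, hcr0, hcr1, hcm, hbad⟩ := hfalse μ s m R (xs μ s R) lo hi U w hD.em
    (hD.δ0.le.trans (hD.lo s hsA)) (by linarith [hD.hi s hsA, hD.δ0]) hRm hU0 hBU (hWc.trans hw0) hlo0 hhiR hlo hhi
    (by
      -- the cheap interval
      have h1 : 8 * C ≤ cc * w := by
        have := hWa.trans hw0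
        rw [div_le_iff₀ hcc] at this
        linarith
      have h2 : cc / (8 * C) * w ≤ cc * wH a μ s R - 1 := by
        have h3 : cc / (8 * C) * w * (8 * C) = cc * w := by field_simp
        have h4 : cc * w ≤ cc * (4 * C * wH a μ s R) := mul_le_mul_of_nonneg_left hwR hcc.le
        have h5 : cc / (8 * C) * w * (8 * C) ≤ (cc * wH a μ s R - 1) * (8 * C) := by
          rw [h3]
          linarith
        exact le_of_mul_le_mul_right h5 (by positivity)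
      linarith)
    (by
      -- cheap displacements
      intro y hy1 hy2
      have h1 := (hcheap y hy1 hy2).1
      have h2 : EE μ s R ≤ U := (EE_mono hRz).trans hEU
      have h3 : Cc' * EE μ s R ≤ Cc * EE μ s R := mul_le_mul_of_nonneg_right hCcC (EE_pos R).le
      exact (h1.trans h3).trans (mul_le_mul_of_nonneg_left h2 (by linarith)))
    (by
      -- the drift
      have h1 := (hcheap _ hlo hhi).2
      have h2 : wH a μ s R ≤ C * w := hvw.trans hCw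
      linarith)
    (by
      -- the mean cost
      have h1 := e_xs_le hD.em s R
      have h2 := le_EE (μ := μ) (s := s) hRz
      linarith)
    (by
      -- growth
      intro y hy0 hy1
      have h1 := xs_le (μ := μ) (s := s) (n := m + R) hy0 hy1
      rw [hmR] at h1 ⊢
      have h2 := le_Em (μ := μ) (s := s) hRz
      have h3 : s₀ / (3 * C) * U ≤ s₀ * Em μ s (2 ^ z) := by
        have h4 := hi1 ⟨s, hsA⟩ z (by omega) (fun h => hS (Sf.mono h e4))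
        have h4' : EE μ s (2 ^ z) ≤ 3 * Em μ s (2 ^ z) := h4
        have h5 : s₀ / (3 * C) * U = s₀ * (EE μ s (2 ^ z) / 3) := by rw [hU]; field_simp
        rw [h5]
        exact mul_le_mul_of_nonneg_left (by linarith) hs0.le
      linarith)
    (by
      -- concentration
      intro y hy0 hy1 hy
      have h1 := hcon α e2 s z R y hS (by omega) hy0 hy1 (by rw [hU] at hy; linarith)
      refine le_trans (measureReal_mono (fun η hη => ?_) (measure_ne_top _ _)) h1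
      rw [Set.mem_ofPred_eq] at hη ⊢
      have h2 := le_abs_self (X μ s η 0 R y - e μ s R y)
      have h3 := mul_le_mul_of_nonneg_left hEU hε.le
      linarith)
    (by
      intro y r hy0 hy1 hr1 hr2
      have h1 := hpc α e3 s z (m + R) y r hS (by omega) hy0 hy1 hr1 (by rw [hU] at hr2; linarith)
      refine le_trans (measureReal_mono (fun η hη => ?_) (measure_ne_top _ _)) h1
      rw [Set.mem_ofPred_eq] at hη ⊢
      have h3 := mul_le_mul_of_nonneg_left hEU hε.le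
      linarith)
    (by
      -- (EL)
      intro t' ht' wc hwc1 hwc2 y0
      have h1 := helw t' wc (by omega) (by omega) (by
        have : (w : ℝ) ≤ 2 * wc := by linarith
        exact_mod_cast this) (by exact_mod_cast hwc2) y0
      have h2 : B / (2 * U) = B / 2 / (C * EE μ s (2 ^ z)) := by rw [hU]; field_simp
      rw [h2]
      refine h1.trans (Real.exp_le_exp.2 ?_)
      have h3 : C₁ * (B / 2) ≤ C₁ * B := mul_le_mul_of_nonneg_left (by linarith) hC₁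
      linarith)
  refine hlin s hsA m R cm cr _ (by omega) ?_ hGU hcr0 hcr1 hcm hbad
  have h7 : (n6 : ℝ) ≤ 2 ^ z := by
    have : n6 ≤ 2 ^ z := by omega
    exact_mod_cast this
  have h8 : (2 : ℝ) ^ z ≤ 2 * m := by
    have : 2 ^ z ≤ 2 * m := by omega
    exact_mod_cast this
  have h9 : 16 / δ = 2 * (8 / δ) := by ring
  linarith

end

end Pool.Agent.W_7d29a1_H
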