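import Pool.Agent.W_7d29a1_H.LamH
import Pool.Agent.W_7d29a1_H.HalvH92

/-!
MP_7d29a1_pr, TRACK H (all tilts), **(DOUBLING)**: balanced caps and the halving of the caps imply the doubling of the rate function, on
both sides, uniformly in the tilt. (helper35, after helper66's W_1b8d5d_p/BalDbl)
-/

set_option autoImplicit false

namespace Pool.Agent.W_7d29a1_H

open MeasureTheory ProbabilityTheory Filter Topology Set
open Pool.Agent.W_7d29a1_F
open Pool.Agent.W_1b8d5d_p (wR wL wd Rf)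
open Pool.Agent.W_7d29a1_h47 (EM Nondeg)

noncomputable section

variable {μ : Measure ℝ} [IsProbabilityMeasure μ] {H δ a : ℝ} {A A' : Set ℝ}

/-- (BALANCE) at all small heights. -/
def BalT35H (μ : Measure ℝ) (A : Set ℝ) : Prop :=
  ∃ M t₀ : ℝ, 0 < M ∧ 0 < t₀ ∧ ∀ s ∈ A, ∀ t : ℝ, 0 < t → t ≤ t₀ →
    wL (J μ s) t ≤ M * wR (J μ s) t ∧ wR (J μ s) t ≤ M * wL (J μ s) t

omit [IsProbabilityMeasure μ] in
theorem HalvH.mono_set (h : HalvH μ A) (hA : A' ⊆ A) : HalvH μ A' := by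
  obtain ⟨θ, t₀, h1, h2, h3, h4⟩ := h
  exact ⟨θ, t₀, h1, h2, h3, fun d hd => h4 d (hA hd)⟩

omit [IsProbabilityMeasure μ] in
theorem BalH.mono_set (h : BalH a μ A) (hA : A' ⊆ A) : BalH a μ A' := by
  obtain ⟨M0, x1, h1, h2⟩ := h
  exact ⟨M0, x1, h1, fun d hd => h2 d (hA hd)⟩

omit [IsProbabilityMeasure μ] in
theorem DblH.mono_set (h : DblH μ A) (hA : A' ⊆ A) : DblH μ A' := by
  obtain ⟨D, δ, h1, h2⟩ := h
  exact ⟨D, δ, h1, fun d hd => h2 d (hA hd)⟩

/-- From the scales to all heights. -/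
theorem BalH.heights (h : BalH a μ A) (hD : Dirs μ H δ A) (hR : Rate μ A) (ha : 0 < a) : BalT35H μ A := by
  obtain ⟨M0, x₁, -, hB⟩ := h
  refine ⟨2 * max M0 1, a / 2 ^ x₁, by positivity, by positivity, fun q hd t ht htt => ?_⟩
  have hrf := hD.rf hd
  obtain ⟨s, hs⟩ : ∃ s : ℕ → ℝ, s = fun x => a * EE μ q (2 ^ x) / ((2 ^ x : ℕ) : ℝ) := ⟨_, rfl⟩
  have hs' : ∀ x, s x = a * EE μ q (2 ^ x) / 2 ^ x := by
    intro x
    rw [hs]
    push_cast
    rfl
  have hs0 : ∀ x, 0 < s x := fun x => by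
    have := EE_pos (μ := μ) (s := q) (2 ^ x)
    rw [hs']
    positivity
  have hslow : ∀ x, s x ≤ 2 * s (x + 1) := by
    intro x
    have h1 : EE μ q (2 ^ x) ≤ EE μ q (2 ^ (x + 1)) := EE_mono (Nat.pow_le_pow_right (by norm_num) (by omega))
    rw [hs', hs']
    have e : 2 * (a * EE μ q (2 ^ (x + 1)) / 2 ^ (x + 1)) = a * EE μ q (2 ^ (x + 1)) / 2 ^ x := by
      have e2 : (2 : ℝ) ^ (x + 1) = 2 ^ x * 2 := pow_succ _ _
      rw [e2]
      field_simp
    rw [e]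
    exact div_le_div_of_nonneg_right (mul_le_mul_of_nonneg_left h1 ha.le) (by positivity)
  have hex : ∃ x, x₁ ≤ x ∧ s x < t := by
    obtain ⟨n0, hn0⟩ := hR (t / (2 * a)) (by positivity)
    refine ⟨max x₁ n0, le_max_left _ _, ?_⟩
    have h1 : n0 ≤ 2 ^ (max x₁ n0) := (Nat.lt_two_pow_self).le.trans (Nat.pow_le_pow_right (by norm_num) (le_max_right _ _))
    have h2 := hn0 q hd _ h1
    push_cast at h2
    rw [hs', div_lt_iff₀ (by positivity)]
    calc a * EE μ q (2 ^ max x₁ n0) ≤ a * (t / (2 * a) * 2 ^ max x₁ n0) := mul_le_mul_of_nonneg_left h2 ha.le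
      _ = t * 2 ^ max x₁ n0 / 2 := by
        field_simp
      _ < t * 2 ^ max x₁ n0 := by
        have : 0 < t * 2 ^ max x₁ n0 := by positivity
        linarith
  classical
  obtain ⟨x, hx, hmin⟩ : ∃ x, (x₁ ≤ x ∧ s x < t) ∧ ∀ y, y < x → ¬ (x₁ ≤ y ∧ s y < t) :=
    ⟨Nat.find hex, Nat.find_spec hex, fun y hy => Nat.find_min hex hy⟩
  have hx1 : x₁ < x := by
    rcases hx.1.lt_or_eq with h | h
    · exact h
    · exfalso
      have h1 := hx.2
      rw [← h] at h1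
      have h2 : a / 2 ^ x₁ ≤ s x₁ := by
        rw [hs']
        exact div_le_div_of_nonneg_right (le_mul_of_one_le_right ha.le (one_le_EE _)) (by positivity)
      linarith
  obtain ⟨y, rfl⟩ : ∃ y, x = y + 1 := ⟨x - 1, by omega⟩
  have hy : t ≤ s y := by
    have h1 := hmin y (by omega)
    rw [not_and, not_lt] at h1
    exact h1 (by omega)
  have hyt : s y ≤ 2 * t := (hslow y).trans (by linarith [hx.2])
  have hb := hB q hd y (by omega)
  have e1 : vl a μ q (2 ^ y) = wL (J μ q) (s y) := by rw [hs]; rfl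
  have e2 : vr a μ q (2 ^ y) = wR (J μ q) (s y) := by rw [hs]; rfl
  rw [e1, e2] at hb
  have hL0 := hrf.wL_nonneg (hs0 y).le
  have hR0 := hrf.wR_nonneg (hs0 y).le
  have l1 : wL (J μ q) t ≤ wL (J μ q) (s y) := hrf.wL_mono ht.le hy
  have r1 : wR (J μ q) t ≤ wR (J μ q) (s y) := hrf.wR_mono ht.le hy
  have l2 : wL (J μ q) (s y) ≤ 2 * wL (J μ q) t :=
    (hrf.wL_mono (hs0 y).le hyt).trans (hrf.wL_mul ht.le one_le_two)
  have r2 : wR (J μ q) (s y) ≤ 2 * wR (J μ q) t :=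
    (hrf.wR_mono (hs0 y).le hyt).trans (hrf.wR_mul ht.le one_le_two)
  have m1 : M0 ≤ max M0 1 := le_max_left _ _
  have m0 : 0 < max M0 1 := lt_max_of_lt_right one_pos
  constructor
  · calc wL (J μ q) t ≤ M0 * wR (J μ q) (s y) := l1.trans hb.1
      _ ≤ max M0 1 * wR (J μ q) (s y) := mul_le_mul_of_nonneg_right m1 hR0
      _ ≤ max M0 1 * (2 * wR (J μ q) t) := mul_le_mul_of_nonneg_left r2 m0.le
      _ = 2 * max M0 1 * wR (J μ q) t := by ring
  · calc wR (J μ q) t ≤ M0 * wL (J μ q) (s y) := r1.trans hb.2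
      _ ≤ max M0 1 * wL (J μ q) (s y) := mul_le_mul_of_nonneg_right m1 hL0
      _ ≤ max M0 1 * (2 * wL (J μ q) t) := mul_le_mul_of_nonneg_left l2 m0.le
      _ = 2 * max M0 1 * wL (J μ q) t := by ring

/-- Doubling, on both sides, for one rate function. -/
theorem dbl_aux35 {K : ℝ → ℝ} (h : Rf K) {θ t₀ M : ℝ} (hθ : 0 < θ) (hθ1 : θ ≤ 1)
    (hH : ∀ t, 0 < t → t ≤ t₀ → wd K (θ * t) ≤ wd K t / 2)
    (hM0 : 0 < M) (hM : ∀ t, 0 < t → t ≤ t₀ → wL K t ≤ M * wR K t ∧ wR K t ≤ M * wL K t) {k : ℕ}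
    (hk : 2 * (1 + M) ≤ 2 ^ k) {x : ℝ} (hx : 0 < K x) (hxt : K x ≤ θ ^ k * t₀) :
    K (2 * x) ≤ (1 / θ) ^ k * K x ∧ K (-(2 * x)) ≤ (1 / θ) ^ k * K x := by
  obtain ⟨t, rfl⟩ : ∃ t, t = K x := ⟨_, rfl⟩
  have hit : ∀ j ≤ k, wd K (K x) * 2 ^ j ≤ wd K ((1 / θ) ^ j * K x) := by
    intro j
    induction j with
    | zero => intro _; simp
    | succ j ih =>
      intro hj
      have h1 := ih (by omega)
      have hp : 0 < (1 / θ) ^ (j + 1) * K x := by positivity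
      have h2 : (1 / θ) ^ (j + 1) * K x ≤ t₀ := by
        have h3 : (1 / θ) ^ (j + 1) ≤ (1 / θ) ^ k := pow_le_pow_right₀ ((one_le_div hθ).2 hθ1) hj
        calc (1 / θ) ^ (j + 1) * K x ≤ (1 / θ) ^ k * (θ ^ k * t₀) := mul_le_mul h3 hxt hx.le (by positivity)
          _ = t₀ := by
            rw [← mul_assoc, ← mul_pow, one_div, inv_mul_cancel₀ hθ.ne', one_pow, one_mul]
      have h4 := hH _ hp h2
      have e1 : θ * ((1 / θ) ^ (j + 1) * K x) = (1 / θ) ^ j * K x := by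
        rw [pow_succ]
        field_simp
      rw [e1] at h4
      rw [pow_succ]
      linarith
  have h1 := hit k le_rfl
  set T := (1 / θ) ^ k * K x with hT
  have hT0 : 0 < T := by positivity
  have hTt : T ≤ t₀ := by
    rw [hT]
    calc (1 / θ) ^ k * K x ≤ (1 / θ) ^ k * (θ ^ k * t₀) := mul_le_mul_of_nonneg_left hxt (by positivity)
      _ = t₀ := by
        rw [← mul_assoc, ← mul_pow, one_div, inv_mul_cancel₀ hθ.ne', one_pow, one_mul]
  have hb := hM T hT0 hTt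
  rw [wd_eq92 h hT0.le, wd_eq92 h hx.le] at h1
  have hR0 := h.wR_nonneg hx.le
  have hL0 := h.wL_nonneg hx.le
  have key : ∀ u : ℝ, 0 ≤ u → u ≤ wR K (K x) + wL K (K x) → 2 * u ≤ wR K T ∧ 2 * u ≤ wL K T := by
    intro u hu hu1
    have h2 : u * (2 * (1 + M)) ≤ (wR K (K x) + wL K (K x)) * 2 ^ k :=
      mul_le_mul hu1 hk (by positivity) (by linarith)
    have h3 : 2 * u * (1 + M) ≤ wR K T + wL K T := by linarith
    have h4 : 2 * u * (1 + M) ≤ wR K T * (1 + M) := by linarith [hb.1]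
    have h5 : 2 * u * (1 + M) ≤ wL K T * (1 + M) := by linarith [hb.2]
    exact ⟨le_of_mul_le_mul_right h4 (by positivity), le_of_mul_le_mul_right h5 (by positivity)⟩
  have habs : 2 * |x| ≤ wR K T ∧ 2 * |x| ≤ wL K T := by
    refine key |x| (abs_nonneg x) ?_
    rcases le_total 0 x with h0 | h0
    · have h2 : x ≤ wR K (K x) := h.le_wR h0 le_rfl
      rw [abs_of_nonneg h0]
      linarith
    · have h2 := (h.level_iff hx.le).1 (le_refl (K x))
      rw [abs_of_nonpos h0]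
      linarith [h2.1]
  have ha1 := le_abs_self x
  have ha2 := neg_abs_le x
  exact ⟨(h.level_iff hT0.le).2 ⟨by linarith [habs.1, habs.2], by linarith [habs.1, habs.2]⟩,
    (h.level_iff hT0.le).2 ⟨by linarith [habs.1, habs.2], by linarith [habs.1, habs.2]⟩⟩

/-- **Doubling on both sides**: `J (2 x)`, `J (- 2 x)`, `J (- x)` are at most a multiple of `J x`, uniformly in the tilt. -/
theorem dbl_two35 (hD : Dirs μ H δ A) (hH : HalvH μ A) (hB : BalT35H μ A) :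
    ∃ D δ' : ℝ, 1 ≤ D ∧ 0 < δ' ∧ ∀ s ∈ A, ∀ x : ℝ, |x| ≤ δ' →
      J μ s (2 * x) ≤ D * J μ s x ∧ J μ s (-(2 * x)) ≤ D * J μ s x ∧ J μ s (-x) ≤ D * J μ s x := by
  obtain ⟨θ, t₀, hθ, hθ1, ht₀, hH⟩ := hH
  obtain ⟨M, t₁, hM, ht₁, hB⟩ := hB
  obtain ⟨k, hk⟩ : ∃ k : ℕ, 2 * (1 + M) < 2 ^ k := pow_unbounded_of_one_lt _ one_lt_two
  obtain ⟨δ', hδ, hnc⟩ := hD.nc 1 one_pos
  have hm : 0 < min t₀ t₁ := lt_min ht₀ ht₁
  refine ⟨(1 / θ) ^ k, min δ' (θ ^ k * min t₀ t₁), one_le_pow₀ ((one_le_div hθ).2 hθ1), lt_min hδ (by positivity), fun s hd x hx => ?_⟩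
  have hrf := hD.rf hd
  have hn1 := hrf.nn (-(2 * x))
  have hn2 := hrf.mul_le (t := 1 / 2) (by norm_num) (by norm_num) (-(2 * x))
  have e0 : (1 / 2 : ℝ) * (-(2 * x)) = -x := by ring
  rw [e0] at hn2
  rcases eq_or_ne x 0 with rfl | hx0
  · simp [hrf.zero]
  · obtain ⟨j, hj, hj1⟩ := hD.strict |x| (abs_pos.2 hx0)
    have h1 : 0 < J μ s x := (mul_pos hj (abs_pos.2 hx0)).trans_le (hj1 s hd x le_rfl)
    have h2 : J μ s x ≤ θ ^ k * min t₀ t₁ := by
      have := hnc s hd x (hx.trans (min_le_left _ _))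
      have := hx.trans (min_le_right _ _)
      linarith
    obtain ⟨c1, c2⟩ := dbl_aux35 hrf hθ hθ1 (fun t ht ht1 => hH s hd t ht (ht1.trans (min_le_left _ _))) hM
      (fun t ht ht1 => hB s hd t ht (ht1.trans (min_le_right _ _))) hk.le h1 h2
    exact ⟨c1, c2, by linarith⟩

/-- **(BALANCE) and the halving of the caps imply the doubling.** -/
theorem dblH_of35 (hD : Dirs μ H δ A) (hH : HalvH μ A) (hB : BalT35H μ A) : DblH μ A := by
  obtain ⟨D, δ', -, h1, h2⟩ := dbl_two35 hD hH hB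
  exact ⟨D, δ', h1, fun s hs x hx => (h2 s hs x hx).1⟩

/-- From (BALANCE) at the scales. -/
theorem dblH_of_bal (hD : Dirs μ H δ A) (hR : Rate μ A) (ha : 0 < a) (hH : HalvH μ A) (hB : BalH a μ A) : DblH μ A :=
  dblH_of35 hD hH (hB.heights hD hR ha)

end

end Pool.Agent.W_7d29a1_H
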