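import Pool.Agent.W_7d29a1_H.PredH
import Pool.Agent.W_7d29a1_H.LamH
import Pool.Agent.W_7d29a1_X20.Quad

/-!
MP_7d29a1_pr, TRACK H (all tilts), row 659, section 5 (helper20). Consequences of the uniform doubling of the rate functions
(`DblH` on every bounded interval of tilts): the rate functions are balanced and reverse doubling, the free energy is
doubling and balanced, and in every interval of tilts there is one with exactly quadratic rate function and free energy.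
Everything is convexity.
-/

set_option autoImplicit false

namespace Pool.Agent.W_7d29a1_H

open MeasureTheory ProbabilityTheory Filter Topology Set
open Pool.Agent.W_7d29a1_F
open Pool.Agent.W_7d29a1_h47 (EM Nondeg)

variable {μ : Measure ℝ} [IsProbabilityMeasure μ]

/-! ### Elementary inequalities -/

/-- The rate function of the tilt `s` at the slope of a tilt `T`. -/
theorem J_at20 (hμ : EM μ) (hnd : Nondeg μ) {s T : ℝ} (h : |T - s| ≤ 1) :
    J μ s (sl μ T - sl μ s) = (T - s) * (sl μ T - sl μ s) - ex μ s (T - s) := by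
  refine le_antisymm (J_le fun r _ => ?_) (le_J hμ hnd s _ h)
  have h1 := lam_tangent hμ hnd T (s + r)
  unfold ex
  rw [show s + (T - s) = T by ring]
  linarith

/-- The rate function is at most the linear one at the tilt of the slope. -/
theorem J_up20 (hμ : EM μ) (hnd : Nondeg μ) {s T x : ℝ} (h : |T - s| ≤ 1) (hT : sl μ T = sl μ s + x) :
    J μ s x ≤ (T - s) * x := by
  have h1 := J_at20 hμ hnd h
  have h2 := ex_nonneg hμ hnd s (T - s)
  rw [show sl μ T - sl μ s = x by linarith] at h1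
  linarith

/-- The rate function is at least the linear one with the force `T - s`, corrected. -/
theorem J_low20 (hμ : EM μ) (hnd : Nondeg μ) {s T y : ℝ} (h : |T - s| ≤ 1) (hT : sl μ T = sl μ s + y) (x : ℝ) :
    (T - s) * (x - y) ≤ J μ s x := by
  have h1 := le_J hμ hnd s x h
  have h2 := ex_le_sl hμ hnd s (T - s)
  rw [show s + (T - s) = T by ring, show sl μ T - sl μ s = y by linarith] at h2
  linarith

/-- The direction of the tilt. -/
theorem tilt_sign20 (hμ : EM μ) (hnd : Nondeg μ) {s T y : ℝ} (hT : sl μ T = sl μ s + y) : 0 ≤ (T - s) * y := by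
  have h1 := ex_nonneg hμ hnd s (T - s)
  have h2 := ex_le_sl hμ hnd s (T - s)
  rw [show s + (T - s) = T by ring, show sl μ T - sl μ s = y by linarith] at h2
  linarith

/-- The excess is at least the product of the increments. -/
theorem ex_low20 (hμ : EM μ) (hnd : Nondeg μ) (s ρ τ : ℝ) : (ρ - τ) * (sl μ (s + τ) - sl μ s) ≤ ex μ s ρ := by
  have h1 := lam_tangent hμ hnd (s + τ) (s + ρ)
  have h2 := lam_tangent hμ hnd s (s + τ)
  unfold ex
  linarith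

/-- All slopes near `sl s` are slopes of tilts near `s`, uniformly. -/
theorem tilt_ex20 (hμ : EM μ) (hnd : Nondeg μ) (H : ℝ) {η : ℝ} (hη : 0 < η) (hη1 : η ≤ 1) : ∃ c : ℝ, 0 < c ∧ ∀ s, |s| ≤ H →
    ∀ y : ℝ, |y| ≤ c → ∃ T, |T - s| ≤ η ∧ sl μ T = sl μ s + y := by
  obtain ⟨c, hc, h⟩ := ex_power hμ hnd H
  refine ⟨c * η ^ 100, by positivity, fun s hs y hy => ?_⟩
  have h1 := h s hs η (by rw [abs_of_pos hη]; exact hη1)
  have h2 := h s hs (-η) (by rw [abs_neg, abs_of_pos hη]; exact hη1)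
  rw [abs_neg] at h2
  rw [abs_of_pos hη] at h1 h2
  have h3 := ex_le_sl hμ hnd s η
  have h4 := ex_le_sl hμ hnd s (-η)
  have m1 := sl_mono hμ hnd (show s ≤ s + η by linarith)
  have m2 := sl_mono hμ hnd (show s + -η ≤ s by linarith)
  have h5 : η * (sl μ (s + η) - sl μ s) ≤ 1 * (sl μ (s + η) - sl μ s) :=
    mul_le_mul_of_nonneg_right hη1 (by linarith)
  have h6 : η * (sl μ s - sl μ (s + -η)) ≤ 1 * (sl μ s - sl μ (s + -η)) :=
    mul_le_mul_of_nonneg_right hη1 (by linarith)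
  have hy' := abs_le.1 hy
  obtain ⟨T, hT, hTe⟩ := intermediate_value_Icc (show s + -η ≤ s + η by linarith) (sl_cont hμ hnd).continuousOn
    (show sl μ s + y ∈ Icc (sl μ (s + -η)) (sl μ (s + η)) from ⟨by linarith, by linarith⟩)
  exact ⟨T, abs_le.2 ⟨by linarith [hT.1], by linarith [hT.2]⟩, hTe⟩

/-- The doubling constant is at least `1`. -/
theorem dbl_one20 (hμ : EM μ) (hnd : Nondeg μ) {A : Set ℝ} (h : DblH μ A) : ∃ D δ : ℝ, 1 ≤ D ∧ 0 < δ ∧ ∀ s ∈ A, ∀ x : ℝ,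
    |x| ≤ δ → J μ s (2 * x) ≤ D * J μ s x := by
  obtain ⟨D, δ, hδ, h⟩ := h
  exact ⟨max D 1, δ, le_max_right _ _, hδ, fun s hs x hx => (h s hs x hx).trans
    (mul_le_mul_of_nonneg_right (le_max_left _ _) (J_nonneg hμ hnd s x))⟩

/-! ### The rate functions -/

/-- **The rate functions are balanced.** -/
theorem two_sidedH (hμ : EM μ) (hnd : Nondeg μ) {H : ℝ} (h : DblH μ (Icc (-(H + 1)) (H + 1))) : ∃ D δ : ℝ, 1 ≤ D ∧ 0 < δ ∧
    ∀ s ∈ Icc (-H) H, ∀ x : ℝ, |x| ≤ δ → J μ s (-x) ≤ D * J μ s x := by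
  obtain ⟨D, δ, hD, hδ, hd⟩ := dbl_one20 hμ hnd h
  obtain ⟨c, hc, ht⟩ := tilt_ex20 hμ hnd H (show (0 : ℝ) < 1 / 2 by norm_num) (by norm_num)
  refine ⟨2 * D ^ 2, min δ c, by nlinarith, lt_min hδ hc, fun s hs x hx => ?_⟩
  have hx1 : |x| ≤ δ := hx.trans (min_le_left _ _)
  have hx2 : |x| ≤ c := hx.trans (min_le_right _ _)
  have hx0 := abs_nonneg x
  have hx3 : |x / 2| = |x| / 2 := by rw [abs_div, abs_of_pos (two_pos : (0 : ℝ) < 2)]
  have hs' : |s| ≤ H := abs_le.2 hs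
  obtain ⟨s₁, h1, h1e⟩ := ht s hs' (x / 2) (by rw [hx3]; linarith)
  obtain ⟨s₂, h2, h2e⟩ := ht s hs' (-x) (by rw [abs_neg]; exact hx2)
  have a1 := abs_le.1 h1
  have a2 := abs_le.1 h2
  have hs1 : s₁ ∈ Icc (-(H + 1)) (H + 1) := ⟨by linarith [hs.1], by linarith [hs.2]⟩
  have h21 : |s₂ - s₁| ≤ 1 := abs_le.2 ⟨by linarith, by linarith⟩
  -- the tilt `s₁`
  have e1 : sl μ s₂ = sl μ s₁ + -(3 * x / 2) := by rw [h1e, h2e]; ring
  have e2 : sl μ s = sl μ s₁ + -(x / 2) := by rw [h1e]; ring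
  have b1 := J_low20 hμ hnd h21 e1 (-(2 * x))
  have b2 := J_up20 hμ hnd (show |s - s₁| ≤ 1 from abs_le.2 ⟨by linarith, by linarith⟩) e2
  have b3 := hd s₁ hs1 (-x) (by rw [abs_neg]; exact hx1)
  have b4 := hd s₁ hs1 (-(x / 2)) (by rw [abs_neg, hx3]; linarith)
  rw [show 2 * -x = -(2 * x) by ring] at b3
  rw [show 2 * -(x / 2) = -x by ring] at b4
  have b5 := mul_le_mul_of_nonneg_left b4 (show 0 ≤ D by linarith)
  have b6 := mul_le_mul_of_nonneg_left b2 (show 0 ≤ D ^ 2 by positivity)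
  have b7 : D * (D * J μ s₁ (-(x / 2))) = D ^ 2 * J μ s₁ (-(x / 2)) := by ring
  -- the tilt `s`
  have c1 := J_up20 hμ hnd (show |s₂ - s| ≤ 1 from abs_le.2 ⟨by linarith, by linarith⟩) h2e
  have c2 := J_low20 hμ hnd (show |s₁ - s| ≤ 1 from abs_le.2 ⟨by linarith, by linarith⟩) h1e x
  have c3 := tilt_sign20 hμ hnd h1e
  have c4 := mul_le_mul_of_nonneg_left c2 (show 0 ≤ D ^ 2 by positivity)
  linarith

/-- **The rate functions are reverse doubling**: `J (2 x) ≥ (2 + 1 / D) J x`. -/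
theorem revH (hμ : EM μ) (hnd : Nondeg μ) {H : ℝ} (h : DblH μ (Icc (-(H + 1)) (H + 1))) : ∃ κ δ : ℝ, 0 < κ ∧ κ ≤ 1 ∧ 0 < δ ∧
    ∀ s ∈ Icc (-H) H, ∀ x : ℝ, |x| ≤ δ → (2 + κ) * J μ s x ≤ J μ s (2 * x) := by
  obtain ⟨D, δ, hD, hδ, hd⟩ := dbl_one20 hμ hnd h
  obtain ⟨c, hc, ht⟩ := tilt_ex20 hμ hnd H (show (0 : ℝ) < 1 / 2 by norm_num) (by norm_num)
  have hD0 : 0 < D := by linarith
  refine ⟨1 / D, min δ (c / 2), by positivity, by rw [div_le_one hD0]; exact hD, lt_min hδ (by positivity),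
    fun s hs x hx => ?_⟩
  have hx1 : |x| ≤ δ := hx.trans (min_le_left _ _)
  have hx2 : |x| ≤ c / 2 := hx.trans (min_le_right _ _)
  have hx0 := abs_nonneg x
  have hs' : |s| ≤ H := abs_le.2 hs
  obtain ⟨T, h1, h1e⟩ := ht s hs' x (by linarith)
  obtain ⟨T₂, h2, h2e⟩ := ht s hs' (2 * x) (by rw [abs_mul, abs_of_pos (two_pos : (0 : ℝ) < 2)]; linarith)
  have a1 := abs_le.1 h1
  have a2 := abs_le.1 h2
  have hT : T ∈ Icc (-(H + 1)) (H + 1) := ⟨by linarith [hs.1], by linarith [hs.2]⟩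
  -- the identities
  have j1 := J_at20 hμ hnd (show |T - s| ≤ 1 from abs_le.2 ⟨by linarith, by linarith⟩)
  have j2 := J_at20 hμ hnd (show |T₂ - s| ≤ 1 from abs_le.2 ⟨by linarith, by linarith⟩)
  have j3 := J_at20 hμ hnd (show |s - T| ≤ 1 from abs_le.2 ⟨by linarith, by linarith⟩)
  have j4 := J_at20 hμ hnd (show |T₂ - T| ≤ 1 from abs_le.2 ⟨by linarith, by linarith⟩)
  have j5 := J_nonneg hμ hnd T x
  have e1 : sl μ T - sl μ s = x := by linarith
  have e2 : sl μ T₂ - sl μ s = 2 * x := by linarith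
  have e3 : sl μ s - sl μ T = -x := by linarith
  have e4 : sl μ T₂ - sl μ T = x := by linarith
  rw [e1] at j1
  rw [e2] at j2
  rw [e3] at j3
  rw [e4] at j4
  unfold ex at j1 j2 j3 j4
  rw [show s + (T - s) = T by ring] at j1
  rw [show s + (T₂ - s) = T₂ by ring] at j2
  rw [show T + (s - T) = s by ring] at j3
  rw [show T + (T₂ - T) = T₂ by ring] at j4
  have j6 : J μ s (2 * x) = 2 * J μ s x + J μ T (-x) + J μ T x := by
    rw [j2, j1, j3, j4, h1e]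
    ring
  -- the doubling at `T`
  have b1 := J_low20 hμ hnd (show |s - T| ≤ 1 from abs_le.2 ⟨by linarith, by linarith⟩)
    (show sl μ s = sl μ T + -x by linarith) (-(2 * x))
  have b2 := hd T hT (-x) (by rw [abs_neg]; exact hx1)
  rw [show 2 * -x = -(2 * x) by ring] at b2
  have b3 := J_up20 hμ hnd (show |T - s| ≤ 1 from abs_le.2 ⟨by linarith, by linarith⟩) h1e
  have b4 : J μ s x ≤ D * J μ T (-x) := by linarith
  have b5 : 1 / D * J μ s x ≤ J μ T (-x) := by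
    rw [one_div, inv_mul_le_iff₀ hD0]
    exact b4
  linarith

/-! ### Powers -/

/-- Iteration of reverse doubling. -/
theorem iter_rev20 {f : ℝ → ℝ} {κ δ : ℝ} (hκ : 0 < κ) (h : ∀ x : ℝ, |x| ≤ δ → (2 + κ) * f x ≤ f (2 * x)) (k : ℕ) :
    ∀ x : ℝ, 2 ^ k * |x| ≤ 2 * δ → (2 + κ) ^ k * f x ≤ f (2 ^ k * x) := by
  induction k with
  | zero =>
    intro x _
    simp
  | succ k ih =>
    intro x hx
    rw [pow_succ] at hx
    have h0 := abs_nonneg x
    have h1 : 2 ^ k * |x| ≤ δ := by linarith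
    have h1' : 2 ^ k * |x| ≤ 2 * δ := by
      have : (0 : ℝ) ≤ 2 ^ k * |x| := by positivity
      linarith
    have h2 := ih x h1'
    have h3 := h (2 ^ k * x) (by rw [abs_mul, abs_of_pos (by positivity : (0 : ℝ) < 2 ^ k)]; exact h1)
    have h4 := mul_le_mul_of_nonneg_left h2 (show 0 ≤ 2 + κ by linarith)
    calc (2 + κ) ^ (k + 1) * f x = (2 + κ) * ((2 + κ) ^ k * f x) := by ring
      _ ≤ (2 + κ) * f (2 ^ k * x) := h4
      _ ≤ f (2 * (2 ^ k * x)) := h3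
      _ = f (2 ^ (k + 1) * x) := by rw [pow_succ]; ring_nf

/-- Iteration of doubling. -/
theorem iter_dbl20 {f : ℝ → ℝ} {D δ : ℝ} (hD : 1 ≤ D) (h : ∀ x : ℝ, |x| ≤ δ → f (2 * x) ≤ D * f x) (k : ℕ) :
    ∀ x : ℝ, 2 ^ k * |x| ≤ 2 * δ → f (2 ^ k * x) ≤ D ^ k * f x := by
  induction k with
  | zero =>
    intro x _
    simp
  | succ k ih =>
    intro x hx
    rw [pow_succ] at hx
    have h0 := abs_nonneg x
    have h1 : 2 ^ k * |x| ≤ δ := by linarith
    have h1' : 2 ^ k * |x| ≤ 2 * δ := by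
      have : (0 : ℝ) ≤ 2 ^ k * |x| := by positivity
      linarith
    have h2 := ih x h1'
    have h3 := h (2 ^ k * x) (by rw [abs_mul, abs_of_pos (by positivity : (0 : ℝ) < 2 ^ k)]; exact h1)
    have h4 := mul_le_mul_of_nonneg_left h2 (show 0 ≤ D by linarith)
    calc f (2 ^ (k + 1) * x) = f (2 * (2 ^ k * x)) := by rw [pow_succ]; ring_nf
      _ ≤ D * f (2 ^ k * x) := h3
      _ ≤ D * (D ^ k * f x) := h4
      _ = D ^ (k + 1) * f x := by rw [pow_succ]; ring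

/-- Reverse doubling gives a power larger than `1`. -/
theorem pow_up20 {κ δ : ℝ} (hκ : 0 < κ) (hδ : 0 < δ) : ∃ C p : ℝ, 0 < C ∧ 1 < p ∧ ∀ f : ℝ → ℝ, f 0 ≤ 0 →
    (∀ x : ℝ, f x ≤ |x|) → (∀ x : ℝ, |x| ≤ δ → (2 + κ) * f x ≤ f (2 * x)) → ∀ x : ℝ, |x| ≤ δ → f x ≤ C * |x| ^ p := by
  have h2κ : (0 : ℝ) < 2 + κ := by linarith
  obtain ⟨p, hp⟩ : ∃ p : ℝ, p = Real.logb 2 (2 + κ) := ⟨_, rfl⟩
  have hp1 : 1 < p := by
    rw [hp]
    have := Real.logb_lt_logb (b := 2) (by norm_num) (by norm_num) (show (2 : ℝ) < 2 + κ by linarith)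
    rwa [Real.logb_self_eq_one (by norm_num)] at this
  have hp2 : (2 : ℝ) ^ p = 2 + κ := by
    rw [hp]
    exact Real.rpow_logb (by norm_num) (by norm_num) h2κ
  refine ⟨2 * δ * (2 + κ) / (2 * δ) ^ p, p, by positivity, hp1, fun f hf0 hf1 h x hx => ?_⟩
  rcases eq_or_ne x 0 with rfl | hx0
  · rw [abs_zero, Real.zero_rpow (by linarith), mul_zero]
    exact hf0
  have hx1 : 0 < |x| := abs_pos.2 hx0
  obtain ⟨k, hk1, hk2⟩ := exists_nat_pow_near (show (1 : ℝ) ≤ 2 * δ / |x| by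
    rw [le_div_iff₀ hx1]
    linarith) (show (1 : ℝ) < 2 by norm_num)
  have hk3 : 2 ^ k * |x| ≤ 2 * δ := by rwa [le_div_iff₀ hx1] at hk1
  have h1 := iter_rev20 hκ h k x hk3
  have h2 := hf1 (2 ^ k * x)
  rw [abs_mul, abs_of_pos (by positivity : (0 : ℝ) < 2 ^ k)] at h2
  have h3 : (2 + κ) ^ k * f x ≤ 2 * δ := h1.trans (h2.trans hk3)
  have h4 : (2 * δ / |x|) ^ p ≤ (2 + κ) ^ (k + 1) := by
    rw [← hp2, Real.rpow_pow_comm (by norm_num)]
    exact Real.rpow_le_rpow (by positivity) hk2.le (by linarith)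
  have h5 : (2 * δ / |x|) ^ p * f x ≤ 2 * δ * (2 + κ) := by
    rcases le_total 0 (f x) with hf | hf
    · calc (2 * δ / |x|) ^ p * f x ≤ (2 + κ) ^ (k + 1) * f x := mul_le_mul_of_nonneg_right h4 hf
        _ = (2 + κ) * ((2 + κ) ^ k * f x) := by ring
        _ ≤ (2 + κ) * (2 * δ) := mul_le_mul_of_nonneg_left h3 h2κ.le
        _ = 2 * δ * (2 + κ) := by ring
    · have : (2 * δ / |x|) ^ p * f x ≤ 0 := mul_nonpos_of_nonneg_of_nonpos (by positivity) hf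
      have : (0 : ℝ) ≤ 2 * δ * (2 + κ) := by positivity
      linarith
  rw [Real.div_rpow (by positivity) hx1.le, div_mul_eq_mul_div, div_le_iff₀ (by positivity)] at h5
  rw [div_mul_eq_mul_div, le_div_iff₀ (by positivity)]
  linarith

/-- Doubling gives a power. -/
theorem pow_low20 {D δ j : ℝ} (hD : 1 ≤ D) (hδ : 0 < δ) (hj : 0 < j) : ∃ c q : ℝ, 0 < c ∧ 0 ≤ q ∧ ∀ f : ℝ → ℝ,
    (∀ x : ℝ, 0 ≤ f x) → (∀ x : ℝ, δ ≤ |x| → j * |x| ≤ f x) → (∀ x : ℝ, |x| ≤ δ → f (2 * x) ≤ D * f x) →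
    ∀ x : ℝ, x ≠ 0 → |x| ≤ δ → c * |x| ^ q ≤ f x := by
  have hD0 : (0 : ℝ) < D := by linarith
  obtain ⟨q, hq⟩ : ∃ q : ℝ, q = Real.logb 2 D := ⟨_, rfl⟩
  have hq0 : 0 ≤ q := by
    rw [hq]
    exact Real.logb_nonneg (by norm_num) hD
  have hq2 : (2 : ℝ) ^ q = D := by
    rw [hq]
    exact Real.rpow_logb (by norm_num) (by norm_num) hD0
  refine ⟨j * δ / (2 * δ) ^ q, q, by positivity, hq0, fun f hf0 hfj h x hx0 hx => ?_⟩
  have hx1 : 0 < |x| := abs_pos.2 hx0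
  obtain ⟨k, hk1, hk2⟩ := exists_nat_pow_near (show (1 : ℝ) ≤ 2 * δ / |x| by
    rw [le_div_iff₀ hx1]
    linarith) (show (1 : ℝ) < 2 by norm_num)
  have hk3 : 2 ^ k * |x| ≤ 2 * δ := by rwa [le_div_iff₀ hx1] at hk1
  have hk4 : δ ≤ 2 ^ k * |x| := by
    rw [div_lt_iff₀ hx1, pow_succ] at hk2
    linarith
  have h1 := iter_dbl20 hD h k x hk3
  have h2 := hfj (2 ^ k * x) (by rw [abs_mul, abs_of_pos (by positivity : (0 : ℝ) < 2 ^ k)]; exact hk4)
  rw [abs_mul, abs_of_pos (by positivity : (0 : ℝ) < 2 ^ k)] at h2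
  have h3 : j * δ ≤ D ^ k * f x := (mul_le_mul_of_nonneg_left hk4 hj.le).trans (h2.trans h1)
  have h4 : D ^ k ≤ (2 * δ / |x|) ^ q := by
    rw [← hq2, Real.rpow_pow_comm (by norm_num)]
    exact Real.rpow_le_rpow (by positivity) hk1 hq0
  have h5 : j * δ ≤ (2 * δ / |x|) ^ q * f x := h3.trans (mul_le_mul_of_nonneg_right h4 (hf0 x))
  rw [Real.div_rpow (by positivity) hx1.le, div_mul_eq_mul_div, le_div_iff₀ (by positivity)] at h5
  rw [div_mul_eq_mul_div, div_le_iff₀ (by positivity)]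
  linarith

/-- **The rate functions are between powers**, the smaller one larger than `1`; uniformly for bounded tilts. -/
theorem powH (hμ : EM μ) (hnd : Nondeg μ) {H : ℝ} (h : DblH μ (Icc (-(H + 1)) (H + 1))) (hstr : ∀ r : ℝ, 0 < r → ∃ j : ℝ,
    0 < j ∧ ∀ s ∈ Icc (-H) H, ∀ x : ℝ, r ≤ |x| → j * |x| ≤ J μ s x) : ∃ c C p q δ : ℝ, 0 < c ∧ 0 < C ∧ 1 < p ∧ 1 < q ∧ 0 < δ ∧
    ∀ s ∈ Icc (-H) H, ∀ x : ℝ, |x| ≤ δ → c * |x| ^ q ≤ J μ s x ∧ J μ s x ≤ C * |x| ^ p := by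
  obtain ⟨κ, δ₁, hκ, -, hδ₁, hr⟩ := revH hμ hnd h
  obtain ⟨D, δ₂, hD, hδ₂, hd⟩ := dbl_one20 hμ hnd h
  obtain ⟨C, p, hC, hp, hup⟩ := pow_up20 hκ hδ₁
  obtain ⟨j, hj, hjs⟩ := hstr δ₂ hδ₂
  obtain ⟨c, q, hc, hq, hlow⟩ := pow_low20 hD hδ₂ hj
  refine ⟨c, C, p, max q 2, min (min δ₁ δ₂) 1, hc, hC, hp, lt_of_lt_of_le (by norm_num) (le_max_right q 2),
    lt_min (lt_min hδ₁ hδ₂) one_pos, fun s hs x hx => ?_⟩
  have hx1 : |x| ≤ δ₁ := hx.trans ((min_le_left _ _).trans (min_le_left _ _))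
  have hx2 : |x| ≤ δ₂ := hx.trans ((min_le_left _ _).trans (min_le_right _ _))
  have hx3 : |x| ≤ 1 := hx.trans (min_le_right _ _)
  refine ⟨?_, hup (J μ s) (by rw [J_zero hμ hnd]) (J_le_abs hμ hnd s) (hr s hs) x hx1⟩
  rcases eq_or_ne x 0 with rfl | hx0
  · rw [abs_zero, Real.zero_rpow (by
      have := le_max_right q 2
      linarith), mul_zero]
    exact J_nonneg hμ hnd s 0
  refine le_trans ?_ (hlow (J μ s) (J_nonneg hμ hnd s) (hjs s hs)
    (fun y hy => hd s ⟨by linarith [hs.1], by linarith [hs.2]⟩ y hy) x hx0 hx2)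
  exact mul_le_mul_of_nonneg_left (Real.rpow_le_rpow_of_exponent_ge (abs_pos.2 hx0) hx3 (le_max_left _ _)) hc.le

end Pool.Agent.W_7d29a1_H
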