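import Pool.Agent.W_7d29a1_H.DenseH

/-!
MP_7d29a1_pr, TRACK H (all tilts), row 659, section 5 (helper20). A dense set of tilts with exactly quadratic rate function and
exactly quadratic free energy, from the uniform doubling `DblH`.
-/

set_option autoImplicit false

namespace Pool.Agent.W_7d29a1_H

open MeasureTheory ProbabilityTheory Filter Topology Set
open Pool.Agent.W_7d29a1_F
open Pool.Agent.W_7d29a1_h47 (EM Nondeg)

noncomputable section

variable {μ : Measure ℝ} [IsProbabilityMeasure μ]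

open Classical in
/-- The tilt (in `[a - 1, b + 1]`) of a slope. -/
def gg20 (μ : Measure ℝ) (a b v : ℝ) : ℝ := if h : ∃ t ∈ Icc (a - 1) (b + 1), sl μ t = v then h.choose else 0

/-- The rate function on the slopes of these tilts. -/
def FF20 (μ : Measure ℝ) (a b v : ℝ) : ℝ := gg20 μ a b v * v - lam μ (gg20 μ a b v)

theorem gg20_sl (hμ : EM μ) (hnd : Nondeg μ) {a b t : ℝ} (ht : t ∈ Icc (a - 1) (b + 1)) : gg20 μ a b (sl μ t) = t := by
  have h : ∃ t' ∈ Icc (a - 1) (b + 1), sl μ t' = sl μ t := ⟨t, ht, rfl⟩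
  unfold gg20
  rw [dif_pos h]
  exact (sl_strictMono hμ hnd).injective h.choose_spec.2

theorem FF20_sl (hμ : EM μ) (hnd : Nondeg μ) {a b t : ℝ} (ht : t ∈ Icc (a - 1) (b + 1)) :
    FF20 μ a b (sl μ t) = t * sl μ t - lam μ t := by
  unfold FF20
  rw [gg20_sl hμ hnd ht]

/-- The increments of the global function are the rate functions of the tilts. -/
theorem FF20_J (hμ : EM μ) (hnd : Nondeg μ) {a b t t' : ℝ} (ht : t ∈ Icc (a - 1) (b + 1)) (ht' : t' ∈ Icc (a - 1) (b + 1))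
    (h1 : |t' - t| ≤ 1) : FF20 μ a b (sl μ t') - FF20 μ a b (sl μ t) - gg20 μ a b (sl μ t) * (sl μ t' - sl μ t) =
      J μ t (sl μ t' - sl μ t) := by
  rw [FF20_sl hμ hnd ht, FF20_sl hμ hnd ht', gg20_sl hμ hnd ht, J_at20 hμ hnd h1]
  unfold ex
  rw [show t + (t' - t) = t' by ring]
  ring

/-- The derivative of the global function. -/
theorem FF20_deriv (hμ : EM μ) (hnd : Nondeg μ) {a b t : ℝ} (ht : t ∈ Icc a b) :
    HasDerivAt (FF20 μ a b) (gg20 μ a b (sl μ t)) (sl μ t) := by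
  have hta : t ∈ Icc (a - 1) (b + 1) := ⟨by linarith [ht.1], by linarith [ht.2]⟩
  rw [hasDerivAt_iff_isLittleO, Asymptotics.isLittleO_iff]
  intro ε hε
  obtain ⟨η, hη⟩ : ∃ η, η = min ε 1 := ⟨_, rfl⟩
  have hη0 : 0 < η := by rw [hη]; exact lt_min hε one_pos
  have hη1 : η ≤ 1 := by rw [hη]; exact min_le_right _ _
  have hηε : η ≤ ε := by rw [hη]; exact min_le_left _ _
  obtain ⟨c, hc, h⟩ := tilt_ex20 hμ hnd |t| hη0 hη1
  rw [Metric.eventually_nhds_iff]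
  refine ⟨c, hc, fun {v} hv => ?_⟩
  rw [Real.dist_eq] at hv
  obtain ⟨T, hT, hTe⟩ := h t le_rfl (v - sl μ t) hv.le
  have hTv : v = sl μ T := by rw [hTe]; ring
  have hT' := abs_le.1 hT
  have hTa : T ∈ Icc (a - 1) (b + 1) := ⟨by linarith [ht.1], by linarith [ht.2]⟩
  have h1 := FF20_J hμ hnd hta hTa (hT.trans hη1)
  have h2 := J_nonneg hμ hnd t (sl μ T - sl μ t)
  have h3 := J_up20 hμ hnd (hT.trans hη1) (show sl μ T = sl μ t + (sl μ T - sl μ t) by ring)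
  rw [hTv, smul_eq_mul, mul_comm (sl μ T - sl μ t), h1, Real.norm_eq_abs, abs_of_nonneg h2, Real.norm_eq_abs]
  refine h3.trans ((le_abs_self _).trans ?_)
  rw [abs_mul]
  exact mul_le_mul_of_nonneg_right (hT.trans hηε) (abs_nonneg _)

/-- The rate function is above the chord beyond a point. -/
theorem J_far20 (hμ : EM μ) (hnd : Nondeg μ) {s k ρ : ℝ} (hρ : 0 < ρ) (hq : ∀ x : ℝ, |x| ≤ ρ → k * x ^ 2 ≤ J μ s x) (x : ℝ)
    (hx : ρ ≤ |x|) : k * ρ * |x| ≤ J μ s x := by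
  have hx0 : 0 < |x| := hρ.trans_le hx
  obtain ⟨t, ht⟩ : ∃ t, t = ρ / |x| := ⟨_, rfl⟩
  have ht0 : 0 < t := by rw [ht]; positivity
  have ht1 : t ≤ 1 := by rw [ht, div_le_one hx0]; exact hx
  have h1 := (J_convex hμ hnd s).2 (mem_univ x) (mem_univ 0) ht0.le (sub_nonneg.2 ht1) (by ring)
  simp only [smul_eq_mul, mul_zero, add_zero, J_zero hμ hnd] at h1
  have htx : |t * x| = ρ := by
    rw [abs_mul, abs_of_pos ht0, ht, div_mul_cancel₀ _ hx0.ne']
  have h2 := hq (t * x) htx.le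
  have h3 : (t * x) ^ 2 = ρ ^ 2 := by rw [← sq_abs, htx]
  rw [h3] at h2
  have h4 : t * (k * ρ * |x|) = k * ρ ^ 2 := by
    rw [ht]
    field_simp
  exact le_of_mul_le_mul_left (by rw [h4]; exact h2.trans h1) ht0

/-- **A quadratic point of the rate function is a quadratic point of the free energy.** -/
theorem ex_quad20 (hμ : EM μ) (hnd : Nondeg μ) {s k K ρ : ℝ} (hk : 0 < k) (hK : 0 < K) (hρ : 0 < ρ)
    (hq : ∀ x : ℝ, |x| ≤ ρ → k * x ^ 2 ≤ J μ s x ∧ J μ s x ≤ K * x ^ 2) : ∃ c C : ℝ, 0 < c ∧ 0 < C ∧ ∀ r : ℝ, |r| ≤ 1 →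
      c * r ^ 2 ≤ ex μ s r ∧ ex μ s r ≤ C * r ^ 2 := by
  obtain ⟨θ, hθ⟩ : ∃ θ, θ = min ρ (1 / (2 * K)) := ⟨_, rfl⟩
  have hθ0 : 0 < θ := by rw [hθ]; exact lt_min hρ (by positivity)
  have hθρ : θ ≤ ρ := by rw [hθ]; exact min_le_left _ _
  have hθK : K * θ ≤ 1 / 2 := by
    have h1 : θ ≤ 1 / (2 * K) := by rw [hθ]; exact min_le_right _ _
    calc K * θ ≤ K * (1 / (2 * K)) := mul_le_mul_of_nonneg_left h1 hK.le
      _ = 1 / 2 := by field_simp
  refine ⟨θ / 2, max (1 / (4 * k)) (1 / (k * ρ)), by positivity, lt_max_of_lt_left (by positivity), fun r hr => ⟨?_, ?_⟩⟩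
  · have h1 := le_J hμ hnd s (θ * r) hr
    have h2 := (hq (θ * r) (by
      rw [abs_mul, abs_of_pos hθ0]
      calc θ * |r| ≤ ρ * 1 := mul_le_mul hθρ hr (abs_nonneg r) hρ.le
        _ = ρ := mul_one _)).2
    have h3 : K * (θ * r) ^ 2 = K * θ * (θ * r ^ 2) := by ring
    have h4 : K * θ * (θ * r ^ 2) ≤ 1 / 2 * (θ * r ^ 2) := mul_le_mul_of_nonneg_right hθK (by positivity)
    have h5 : r * (θ * r) = θ * r ^ 2 := by ring
    linarith
  · obtain ⟨x, hx⟩ : ∃ x, x = sl μ (s + r) - sl μ s := ⟨_, rfl⟩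
    have h1 := J_at20 hμ hnd (s := s) (T := s + r) (by rw [show s + r - s = r by ring]; exact hr)
    rw [show s + r - s = r by ring, ← hx] at h1
    have hsq : 0 ≤ r ^ 2 := sq_nonneg r
    rcases le_total |x| ρ with h | h
    · have h2 := (hq x h).1
      have h3 : r * x - k * x ^ 2 ≤ 1 / (4 * k) * r ^ 2 := by
        rw [div_mul_eq_mul_div, one_mul, le_div_iff₀ (by positivity)]
        nlinarith [sq_nonneg (r - 2 * k * x)]
      have h4 : 1 / (4 * k) * r ^ 2 ≤ max (1 / (4 * k)) (1 / (k * ρ)) * r ^ 2 :=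
        mul_le_mul_of_nonneg_right (le_max_left _ _) hsq
      linarith
    · have h2 := J_far20 hμ hnd hρ (fun y hy => (hq y hy).1) x h
      have h3 := ex_nonneg hμ hnd s r
      have hx0 : 0 < |x| := hρ.trans_le h
      have h4 : k * ρ * |x| ≤ |r| * |x| := by
        calc k * ρ * |x| ≤ r * x := by linarith
          _ ≤ |r * x| := le_abs_self _
          _ = |r| * |x| := abs_mul _ _
      have h5 : k * ρ ≤ |r| := le_of_mul_le_mul_right h4 hx0
      have h6 := ex_le hμ hnd s r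
      have h7 : |r| ≤ 1 / (k * ρ) * r ^ 2 := by
        rw [div_mul_eq_mul_div, one_mul, le_div_iff₀ (by positivity), ← sq_abs]
        have := mul_le_mul_of_nonneg_left h5 (abs_nonneg r)
        linarith
      have h8 : 1 / (k * ρ) * r ^ 2 ≤ max (1 / (4 * k)) (1 / (k * ρ)) * r ^ 2 :=
        mul_le_mul_of_nonneg_right (le_max_right _ _) hsq
      linarith

/-- **DENSE TILTS.** In every interval of tilts there is one whose rate function and whose free energy are exactly quadratic. -/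
theorem quadH (hμ : EM μ) (hnd : Nondeg μ) (h : ∀ H : ℝ, DblH μ (Icc (-H) H)) {a b : ℝ} (hab : a < b) : ∃ s, a < s ∧ s < b ∧
    ∃ c C ρ : ℝ, 0 < c ∧ 0 < C ∧ 0 < ρ ∧ (∀ x : ℝ, |x| ≤ ρ → c * x ^ 2 ≤ J μ s x ∧ J μ s x ≤ C * x ^ 2) ∧
      ∀ r : ℝ, |r| ≤ 1 → c * r ^ 2 ≤ ex μ s r ∧ ex μ s r ≤ C * r ^ 2 := by
  -- an interval of length at most `1`
  obtain ⟨b', hb'⟩ : ∃ b', b' = min b (a + 1) := ⟨_, rfl⟩
  have hab' : a < b' := by rw [hb']; exact lt_min hab (by linarith)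
  have hb1 : b' ≤ b := by rw [hb']; exact min_le_left _ _
  have hb2 : b' ≤ a + 1 := by rw [hb']; exact min_le_right _ _
  obtain ⟨D, δ, hD, hδ, hd⟩ := dbl_one20 hμ hnd (h (max |a| |b'|))
  have hA : ∀ t ∈ Icc a b', t ∈ Icc (-(max |a| |b'|)) (max |a| |b'|) := fun t ht =>
    ⟨by linarith [ht.1, neg_abs_le a, le_max_left |a| |b'|], by linarith [ht.2, le_abs_self b', le_max_right |a| |b'|]⟩
  have hmono := sl_strictMono hμ hnd
  have htilt : ∀ v : ℝ, sl μ a ≤ v → v ≤ sl μ b' → ∃ t ∈ Icc a b', sl μ t = v := fun v h1 h2 => by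
    obtain ⟨t, ht, hte⟩ := intermediate_value_Icc hab'.le (sl_cont hμ hnd).continuousOn ⟨h1, h2⟩
    exact ⟨t, ht, hte⟩
  have hbig : ∀ t ∈ Icc a b', t ∈ Icc (a - 1) (b' + 1) := fun t ht => ⟨by linarith [ht.1], by linarith [ht.2]⟩
  have hdist : ∀ t ∈ Icc a b', ∀ t' ∈ Icc a b', |t' - t| ≤ 1 := fun t ht t' ht' =>
    abs_le.2 ⟨by linarith [ht.1, ht.2, ht'.1, ht'.2], by linarith [ht.1, ht.2, ht'.1, ht'.2]⟩
  have hgm : MonotoneOn (gg20 μ a b') (Icc (sl μ a) (sl μ b')) := by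
    intro v hv w hw hvw
    obtain ⟨t, ht, rfl⟩ := htilt v hv.1 hv.2
    obtain ⟨t', ht', rfl⟩ := htilt w hw.1 hw.2
    rw [gg20_sl hμ hnd (hbig t ht), gg20_sl hμ hnd (hbig t' ht')]
    exact hmono.le_iff_le.1 hvw
  obtain ⟨v, hv1, hv2, k, K, r, hk, hK, hr, hq⟩ := Pool.Agent.W_7d29a1_X20.quad_point_J (J := FF20 μ a b') (g := gg20 μ a b')
    (C := D) (u₀ := δ) (hmono hab')
    (fun v h1 h2 => by
      obtain ⟨t, ht, rfl⟩ := htilt v h1 h2
      exact FF20_deriv hμ hnd ht) hgm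
    (by rw [gg20_sl hμ hnd (hbig a ⟨le_rfl, hab'.le⟩), gg20_sl hμ hnd (hbig b' ⟨hab'.le, le_rfl⟩)]; exact hab')
    (by linarith) hδ
    (fun v u h1 h2 hu h3 h4 => by
      obtain ⟨t, ht, hte⟩ := htilt v h1 h2
      obtain ⟨t₂, ht₂, ht₂e⟩ := htilt (v + 2 * u) h3 h4
      have h5 : sl μ a ≤ v + u ∧ v + u ≤ sl μ b' := by
        constructor <;> linarith
      obtain ⟨t₁, ht₁, ht₁e⟩ := htilt (v + u) h5.1 h5.2
      have i1 := FF20_J hμ hnd (hbig t ht) (hbig t₁ ht₁) (hdist t ht t₁ ht₁)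
      have i2 := FF20_J hμ hnd (hbig t ht) (hbig t₂ ht₂) (hdist t ht t₂ ht₂)
      rw [hte, ht₁e, show v + u - v = u by ring] at i1
      rw [hte, ht₂e, show v + 2 * u - v = 2 * u by ring] at i2
      rw [i1, i2]
      exact hd t (hA t ht) u hu)
  obtain ⟨s, hs, hse⟩ := htilt v hv1.le hv2.le
  have hsa : a < s := by
    rw [← hse] at hv1
    exact hmono.lt_iff_lt.1 hv1
  have hsb : s < b' := by
    rw [← hse] at hv2
    exact hmono.lt_iff_lt.1 hv2
  have hJq : ∀ x : ℝ, |x| ≤ r → k * x ^ 2 ≤ J μ s x ∧ J μ s x ≤ K * x ^ 2 := by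
    intro x hx
    obtain ⟨q1, q2, q3, q4⟩ := hq x hx
    obtain ⟨t, ht, hte⟩ := htilt (v + x) q1 q2
    have i1 := FF20_J hμ hnd (hbig s hs) (hbig t ht) (hdist s hs t ht)
    rw [hse, hte, show v + x - v = x by ring] at i1
    rw [← i1]
    exact ⟨q3, q4⟩
  obtain ⟨c, C, hc, hC, hex⟩ := ex_quad20 hμ hnd hk hK hr hJq
  refine ⟨s, hsa, hsb.trans_le hb1, min k c, max K C, r, lt_min hk hc, lt_max_of_lt_left hK, hr, fun x hx => ?_, fun u hu => ?_⟩
  · have h1 := hJq x hx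
    exact ⟨(mul_le_mul_of_nonneg_right (min_le_left _ _) (sq_nonneg x)).trans h1.1,
      h1.2.trans (mul_le_mul_of_nonneg_right (le_max_left _ _) (sq_nonneg x))⟩
  · have h1 := hex u hu
    exact ⟨(mul_le_mul_of_nonneg_right (min_le_right _ _) (sq_nonneg u)).trans h1.1,
      h1.2.trans (mul_le_mul_of_nonneg_right (le_max_right _ _) (sq_nonneg u))⟩

end

end Pool.Agent.W_7d29a1_H
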