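import Pool.Agent.W_7d29a1_H.LamH

/-!
MP_7d29a1_pr, TRACK H (all tilts). Every bounded set of tilts satisfies `Dirs` (`dirs_Icc`).
-/

set_option autoImplicit false

namespace Pool.Agent.W_7d29a1_H

open MeasureTheory ProbabilityTheory Filter Topology Set
open Pool.Agent.W_7d29a1_F Pool.Agent.W_7d29a1_h4g
open Pool.Agent.W_7d29a1_h47 (EM Nondeg)

noncomputable section

variable {μ : Measure ℝ} [IsProbabilityMeasure μ]

/-- No corner at `0`, uniformly. -/
theorem J_nc (hμ : EM μ) (hnd : Nondeg μ) (H : ℝ) {ε : ℝ} (hε : 0 < ε) : ∃ δ' : ℝ, 0 < δ' ∧ ∀ s : ℝ, |s| ≤ H → ∀ x : ℝ,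
    |x| ≤ δ' → J μ s x ≤ ε * |x| := by
  obtain ⟨c, hc, hp⟩ := ex_power hμ hnd H
  have hε1 : 0 < min ε 1 := lt_min hε one_pos
  refine ⟨c * (min ε 1) ^ 100, by positivity, fun s hs x hx => J_le fun r hr => ?_⟩
  have h0 := abs_nonneg x
  have h1 : r * x ≤ |r| * |x| := (le_abs_self _).trans (abs_mul r x).le
  rcases le_total |r| ε with h | h
  · have h2 := ex_nonneg hμ hnd s r
    have h3 := mul_le_mul_of_nonneg_right h h0
    linarith
  · have h2 := hp s hs r hr
    have h3 : (min ε 1) ^ 100 ≤ |r| ^ 100 := pow_le_pow_left₀ hε1.le ((min_le_left _ _).trans h) 100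
    have h4 := mul_le_mul_of_nonneg_left h3 hc.le
    have h5 := mul_le_mul_of_nonneg_right hr h0
    have h6 : 0 ≤ ε * |x| := by positivity
    linarith

/-- The rate functions are positive away from `0`, uniformly. -/
theorem J_strict (hμ : EM μ) (hnd : Nondeg μ) (H : ℝ) {r : ℝ} (hr : 0 < r) : ∃ j : ℝ, 0 < j ∧ ∀ s : ℝ, |s| ≤ H → ∀ x : ℝ,
    r ≤ |x| → j * |x| ≤ J μ s x := by
  have hU := (isCompact_Icc (a := -(H + 1)) (b := H + 1)).uniformContinuousOn_of_continuous (sl_cont hμ hnd).continuousOn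
  rw [Metric.uniformContinuousOn_iff] at hU
  obtain ⟨d, hd, h1⟩ := hU (r / 2) (by positivity)
  set r0 : ℝ := min (d / 2) 1 with hr0
  have hr0p : 0 < r0 := lt_min (by positivity) one_pos
  have hr01 : r0 ≤ 1 := min_le_right _ _
  have hr0d : r0 ≤ d / 2 := min_le_left _ _
  refine ⟨r0 / 2, by positivity, fun s hs x hx => ?_⟩
  have hs1 := abs_le.1 hs
  have key : ∀ u : ℝ, |u| = r0 → ex μ s u ≤ r0 * (r / 2) := by
    intro u hu
    have hu1 := abs_le.1 hu.le
    have h2 : |sl μ (s + u) - sl μ s| < r / 2 := by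
      have h3 := h1 (s + u) ⟨by linarith, by linarith⟩ s ⟨by linarith, by linarith⟩
        (by rw [Real.dist_eq, show s + u - s = u by ring, hu]; linarith)
      rwa [Real.dist_eq] at h3
    have h4 := ex_le_sl hμ hnd s u
    have h5 : u * (sl μ (s + u) - sl μ s) ≤ |u| * |sl μ (s + u) - sl μ s| :=
      (le_abs_self _).trans (abs_mul _ _).le
    rw [hu] at h5
    have h6 := mul_le_mul_of_nonneg_left h2.le hr0p.le
    linarith
  rcases le_total 0 x with h | h
  · have h2 := le_J hμ hnd s x (r := r0) (by rw [abs_of_pos hr0p]; exact hr01)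
    have h3 := key r0 (abs_of_pos hr0p)
    rw [abs_of_nonneg h] at hx ⊢
    nlinarith
  · have h2 := le_J hμ hnd s x (r := -r0) (by rw [abs_neg, abs_of_pos hr0p]; exact hr01)
    have h3 := key (-r0) (by rw [abs_neg, abs_of_pos hr0p])
    rw [abs_of_nonpos h] at hx ⊢
    nlinarith

/-- **Every bounded set of tilts has uniform constants.** -/
theorem dirs_Icc (hμ : EM μ) (hnd : Nondeg μ) (H : ℝ) : ∃ δ : ℝ, Dirs μ H δ (Icc (-H) H) := by
  have h1 := sl_mem hμ hnd (-H)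
  have h2 := sl_mem hμ hnd H
  refine ⟨min (sl μ (-H)) (1 - sl μ H), ⟨hμ, hnd, fun s hs => abs_le.2 hs, lt_min h1.1 (by linarith [h2.2]),
    fun s hs => (min_le_left _ _).trans (sl_mono hμ hnd hs.1), fun s hs => ?_, fun ε hε => ?_, fun r hr => ?_⟩⟩
  · have h3 := sl_mono hμ hnd hs.2
    have h4 := min_le_right (sl μ (-H)) (1 - sl μ H)
    linarith
  · obtain ⟨δ', h3, h4⟩ := J_nc hμ hnd H hε
    exact ⟨δ', h3, fun s hs => h4 s (abs_le.2 hs)⟩
  · obtain ⟨j, h3, h4⟩ := J_strict hμ hnd H hr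
    exact ⟨j, h3, fun s hs => h4 s (abs_le.2 hs)⟩

end

end Pool.Agent.W_7d29a1_H
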