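import Pool.Agent.W_7d29a1_H.DenseH
import Pool.Agent.W_7d29a1_H.LamH3

/-!
MP_7d29a1_pr, TRACK H (all tilts), row 659, section 5 (helper20). The free energy from the uniform doubling `DblH` of the rate
functions: its second order increments are doubling, balanced and between two powers larger than one; the slope is Hoelder
continuous. Everything is uniform for bounded tilts.
-/

set_option autoImplicit false

namespace Pool.Agent.W_7d29a1_H

open MeasureTheory ProbabilityTheory Filter Topology Set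
open Pool.Agent.W_7d29a1_F
open Pool.Agent.W_7d29a1_h47 (EM Nondeg)

variable {μ : Measure ℝ} [IsProbabilityMeasure μ]

/-- The slope is uniformly continuous on bounded sets. -/
theorem sl_small20 (hμ : EM μ) (hnd : Nondeg μ) (H : ℝ) {ε : ℝ} (hε : 0 < ε) : ∃ r₀ : ℝ, 0 < r₀ ∧ r₀ ≤ 1 ∧
    ∀ s : ℝ, |s| ≤ H → ∀ r : ℝ, |r| ≤ r₀ → |sl μ (s + r) - sl μ s| ≤ ε := by
  have hU := (isCompact_Icc (a := -(H + 1)) (b := H + 1)).uniformContinuousOn_of_continuous (sl_cont hμ hnd).continuousOn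
  rw [Metric.uniformContinuousOn_iff] at hU
  obtain ⟨d, hd, h1⟩ := hU ε hε
  refine ⟨min (d / 2) 1, lt_min (by positivity) one_pos, min_le_right _ _, fun s hs r hr => ?_⟩
  have h2 := abs_le.1 hs
  have h3 := abs_le.1 (hr.trans (min_le_right _ _))
  have h4 : |r| ≤ d / 2 := hr.trans (min_le_left _ _)
  have h5 := h1 (s + r) ⟨by linarith, by linarith⟩ s ⟨by linarith, by linarith⟩
    (by rw [Real.dist_eq, show s + r - s = r by ring]; linarith)
  rw [Real.dist_eq] at h5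
  exact h5.le

/-- Doubling of the slope, local form. -/
theorem sl_dbl20 (hμ : EM μ) (hnd : Nondeg μ) {H : ℝ} (h : DblH μ (Icc (-(H + 1)) (H + 1))) : ∃ K r₀ : ℝ, 1 ≤ K ∧ 0 < r₀ ∧
    r₀ ≤ 1 ∧ ∀ s ∈ Icc (-H) H, ∀ r : ℝ, |r| ≤ r₀ →
      r * (sl μ (s + 2 * r) - sl μ s) ≤ K * (r * (sl μ (s + r / 2) - sl μ s)) := by
  obtain ⟨κ, δ, hκ, -, hδ, hrev⟩ := revH hμ hnd h
  obtain ⟨c, hc, ht⟩ := tilt_ex20 hμ hnd H one_pos le_rfl
  obtain ⟨j, hj⟩ := pow_unbounded_of_one_lt (8 : ℝ) (show (1 : ℝ) < 1 + κ / 2 by linarith)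
  have h2j : (0 : ℝ) < 2 ^ (j + 1) := by positivity
  obtain ⟨r₀, hr₀, hr₀1, hsm⟩ := sl_small20 hμ hnd H (show 0 < min c (2 * δ) / 2 ^ (j + 1) by
    have := lt_min hc (show 0 < 2 * δ by linarith)
    positivity)
  refine ⟨2 ^ (j + 1), r₀, one_le_pow₀ (by norm_num), hr₀, hr₀1, fun s hs r hr => ?_⟩
  have hs' : |s| ≤ H := abs_le.2 hs
  have hr2 : |r / 2| = |r| / 2 := by rw [abs_div, abs_of_pos (two_pos : (0 : ℝ) < 2)]
  have hra := abs_nonneg r
  obtain ⟨u, hu⟩ : ∃ u, u = sl μ (s + r / 2) - sl μ s := ⟨_, rfl⟩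
  have hu1 := hsm s hs' (r / 2) (by rw [hr2]; linarith)
  rw [← hu] at hu1 ⊢
  have hu2 : 2 ^ (j + 1) * |u| ≤ min c (2 * δ) := by
    rw [le_div_iff₀ h2j] at hu1
    linarith
  have hu3 : 2 ^ (j + 1) * |u| ≤ c := hu2.trans (min_le_left _ _)
  have hu4 : 2 ^ (j + 1) * |u| ≤ 2 * δ := hu2.trans (min_le_right _ _)
  obtain ⟨T, hT, hTe⟩ := ht s hs' (2 ^ (j + 1) * u) (by rw [abs_mul, abs_of_pos h2j]; exact hu3)
  -- the rate function at `2 u`
  have a1 := J_low20 hμ hnd (s := s) (T := s + r / 2) (y := u)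
    (by rw [show s + r / 2 - s = r / 2 by ring, hr2]; linarith) (by rw [hu]; ring) (2 * u)
  have a2 := iter_rev20 hκ (hrev s hs) j (2 * u) (by
    rw [abs_mul, abs_of_pos (two_pos : (0 : ℝ) < 2)]
    rw [pow_succ] at hu4
    linarith)
  have a3 := J_up20 hμ hnd hT hTe
  have e1 : (2 : ℝ) ^ j * (2 * u) = 2 ^ (j + 1) * u := by rw [pow_succ]; ring
  rw [e1] at a2
  have a4 : (2 + κ) ^ j * (r / 2 * u) ≤ (T - s) * (2 ^ (j + 1) * u) := by
    have h1 : r / 2 * u ≤ J μ s (2 * u) := by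
      have : (s + r / 2 - s) * (2 * u - u) = r / 2 * u := by ring
      linarith
    exact (mul_le_mul_of_nonneg_left h1 (by positivity)).trans (a2.trans a3)
  have a5 : (2 + κ) ^ j = 2 ^ j * (1 + κ / 2) ^ j := by
    rw [← mul_pow]
    congr 1
    ring
  have hru : 0 ≤ r * u := by
    have := tilt_sign20 hμ hnd (s := s) (T := s + r / 2) (y := u) (by rw [hu]; ring)
    have e : (s + r / 2 - s) * u = r * u / 2 := by ring
    linarith
  -- `2 r u ≤ (T - s) u`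
  have a6 : 2 * (r * u) ≤ (T - s) * u := by
    have h1 : 2 ^ (j + 1) * (2 * (r * u)) ≤ 2 ^ (j + 1) * ((T - s) * u) := by
      calc (2 : ℝ) ^ (j + 1) * (2 * (r * u)) = 2 ^ j * 8 * (r / 2 * u) := by rw [pow_succ]; ring
        _ ≤ 2 ^ j * (1 + κ / 2) ^ j * (r / 2 * u) := by
          refine mul_le_mul_of_nonneg_right (mul_le_mul_of_nonneg_left hj.le (by positivity)) ?_
          have : r / 2 * u = r * u / 2 := by ring
          linarith
        _ ≤ (T - s) * (2 ^ (j + 1) * u) := by rw [← a5]; exact a4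
        _ = 2 ^ (j + 1) * ((T - s) * u) := by ring
    exact le_of_mul_le_mul_left h1 h2j
  have hm := sl_mono hμ hnd
  rcases lt_trichotomy r 0 with hr0 | rfl | hr0
  · have hus : u < 0 := by
      have := sl_strictMono hμ hnd (show s + r / 2 < s by linarith)
      rw [hu]
      linarith
    have h1 : T ≤ s + 2 * r := by
      have h2 : (T - s - 2 * r) * u ≥ 0 := by linarith
      by_contra hcon
      push Not at hcon
      have : (T - s - 2 * r) * u < 0 := mul_neg_of_pos_of_neg (by linarith) hus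
      linarith
    have h3 := hm h1
    rw [hTe] at h3
    have h4 : -r * (sl μ s + 2 ^ (j + 1) * u) ≤ -r * sl μ (s + 2 * r) := mul_le_mul_of_nonneg_left h3 (by linarith)
    linarith
  · simp
  · have hus : 0 < u := by
      have := sl_strictMono hμ hnd (show s < s + r / 2 by linarith)
      rw [hu]
      linarith
    have h1 : s + 2 * r ≤ T := by
      have h2 : 0 ≤ (T - s - 2 * r) * u := by linarith
      by_contra hcon
      push Not at hcon
      have : (T - s - 2 * r) * u < 0 := mul_neg_of_neg_of_pos (by linarith) hus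
      linarith
    have h3 := hm h1
    rw [hTe] at h3
    have h4 : r * sl μ (s + 2 * r) ≤ r * (sl μ s + 2 ^ (j + 1) * u) := mul_le_mul_of_nonneg_left h3 hr0.le
    linarith

/-- **The free energy is doubling**, uniformly for bounded tilts. -/
theorem ex_dblH (hμ : EM μ) (hnd : Nondeg μ) {H : ℝ} (h : DblH μ (Icc (-(H + 1)) (H + 1))) : ∃ D : ℝ, 1 ≤ D ∧
    ∀ s ∈ Icc (-H) H, ∀ r : ℝ, |r| ≤ 1 → ex μ s (2 * r) ≤ D * ex μ s r := by
  obtain ⟨K, r₀, hK, hr₀, hr₀1, hd⟩ := sl_dbl20 hμ hnd h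
  obtain ⟨c, hc, hp⟩ := ex_power hμ hnd H
  refine ⟨max (4 * K) (2 / (c * r₀ ^ 100)), le_max_of_le_left (by linarith), fun s hs r hr => ?_⟩
  have h0 := ex_nonneg hμ hnd s r
  rcases le_total |r| r₀ with h1 | h1
  · refine le_trans ?_ (mul_le_mul_of_nonneg_right (le_max_left _ _) h0)
    have a1 := ex_le_sl hμ hnd s (2 * r)
    have a2 := hd s hs r h1
    have a3 := ex_low20 hμ hnd s r (r / 2)
    have a4 : (r - r / 2) * (sl μ (s + r / 2) - sl μ s) = r * (sl μ (s + r / 2) - sl μ s) / 2 := by ring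
    rw [a4] at a3
    have a5 := mul_le_mul_of_nonneg_left a3 (show 0 ≤ 4 * K by linarith)
    linarith
  · refine le_trans ?_ (mul_le_mul_of_nonneg_right (le_max_right _ _) h0)
    have a1 := ex_le hμ hnd s (2 * r)
    rw [abs_mul, abs_of_pos (two_pos : (0 : ℝ) < 2)] at a1
    have a2 := hp s (abs_le.2 hs) r hr
    have a3 : c * r₀ ^ 100 ≤ ex μ s r := (mul_le_mul_of_nonneg_left (pow_le_pow_left₀ hr₀.le h1 100) hc.le).trans a2
    rw [div_mul_eq_mul_div, le_div_iff₀ (by positivity)]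
    nlinarith [show (0 : ℝ) < c * r₀ ^ 100 by positivity]

/-- **The free energy is balanced**, uniformly for bounded tilts. -/
theorem ex_balH (hμ : EM μ) (hnd : Nondeg μ) {H : ℝ} (h : DblH μ (Icc (-(H + 2)) (H + 2))) : ∃ D : ℝ, 1 ≤ D ∧
    ∀ s ∈ Icc (-H) H, ∀ r : ℝ, |r| ≤ 1 → ex μ s (-r) ≤ D * ex μ s r := by
  obtain ⟨D, hD, hd⟩ := ex_dblH hμ hnd (H := H + 1) (by
    rw [show H + 1 + 1 = H + 2 by ring]
    exact h)
  refine ⟨2 * D ^ 2, by nlinarith, fun s hs r hr => ?_⟩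
  have hr' := abs_le.1 hr
  have hr2 : |r / 2| = |r| / 2 := by rw [abs_div, abs_of_pos (two_pos : (0 : ℝ) < 2)]
  have hra := abs_nonneg r
  obtain ⟨s₁, hs₁⟩ : ∃ s₁, s₁ = s + r / 2 := ⟨_, rfl⟩
  have hs₁m : s₁ ∈ Icc (-(H + 1)) (H + 1) := ⟨by rw [hs₁]; linarith [hs.1], by rw [hs₁]; linarith [hs.2]⟩
  have a1 := hd s₁ hs₁m (-r) (by rw [abs_neg]; exact hr)
  have a2 := hd s₁ hs₁m (-(r / 2)) (by rw [abs_neg, hr2]; linarith)
  rw [show 2 * -(r / 2) = -r by ring] at a2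
  have a3 := ex_low20 hμ hnd s₁ (2 * -r) (-(3 * r / 2))
  rw [show s₁ + -(3 * r / 2) = s - r by rw [hs₁]; ring] at a3
  have a4 := ex_le_sl hμ hnd s₁ (-(r / 2))
  rw [show s₁ + -(r / 2) = s by rw [hs₁]; ring] at a4
  have a5 := ex_le_sl hμ hnd s (-r)
  rw [show s + -r = s - r by ring] at a5
  have a6 := ex_low20 hμ hnd s r (r / 2)
  rw [← hs₁] at a6
  have a7 := tilt_sign20 hμ hnd (s := s) (T := s₁) (y := sl μ s₁ - sl μ s) (by ring)
  rw [show s₁ - s = r / 2 by rw [hs₁]; ring] at a7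
  have b1 : D * (D * ex μ s₁ (-(r / 2))) = D ^ 2 * ex μ s₁ (-(r / 2)) := by ring
  have b2 := mul_le_mul_of_nonneg_left a2 (show 0 ≤ D by linarith)
  have b3 := mul_le_mul_of_nonneg_left a4 (show 0 ≤ D ^ 2 by positivity)
  have b4 := mul_le_mul_of_nonneg_left a6 (show 0 ≤ D ^ 2 by positivity)
  have b5 : D ^ 2 * ((r - r / 2) * (sl μ s₁ - sl μ s)) = D ^ 2 * (-(r / 2) * (sl μ s - sl μ s₁)) := by ring
  have c1 : (2 * -r - -(3 * r / 2)) * (sl μ (s - r) - sl μ s₁) = 1 / 2 * (r * (sl μ s₁ - sl μ (s - r))) := by ring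
  have c2 : -r * (sl μ (s - r) - sl μ s) = r * (sl μ s₁ - sl μ (s - r)) - 2 * (r / 2 * (sl μ s₁ - sl μ s)) := by ring
  linarith

/-- **The slope is Hoelder continuous**, uniformly for bounded tilts. -/
theorem sl_holderH (hμ : EM μ) (hnd : Nondeg μ) {H : ℝ} (h : DblH μ (Icc (-(H + 1)) (H + 1))) : ∃ C p : ℝ, 0 < C ∧ 0 < p ∧
    p ≤ 1 ∧ ∀ s ∈ Icc (-H) H, ∀ r : ℝ, |r| ≤ 1 → |sl μ (s + r) - sl μ s| ≤ C * |r| ^ p := by
  have hstr : ∀ r : ℝ, 0 < r → ∃ j : ℝ, 0 < j ∧ ∀ s ∈ Icc (-H) H, ∀ x : ℝ, r ≤ |x| → j * |x| ≤ J μ s x := by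
    intro r hr
    obtain ⟨j, hj, hjs⟩ := J_strict hμ hnd H hr
    exact ⟨j, hj, fun s hs => hjs s (abs_le.2 hs)⟩
  obtain ⟨c, C₁, p₁, q, δ, hc, -, -, hq, hδ, hpw⟩ := powH hμ hnd h hstr
  obtain ⟨j, hj, hjs⟩ := hstr δ hδ
  -- the exponent
  obtain ⟨p, hp⟩ : ∃ p : ℝ, p = min (1 / (q - 1)) 1 := ⟨_, rfl⟩
  have hq1 : 0 < q - 1 := by linarith
  have hp0 : 0 < p := by rw [hp]; exact lt_min (by positivity) one_pos
  have hp1 : p ≤ 1 := by rw [hp]; exact min_le_right _ _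
  have hp2 : p ≤ 1 / (q - 1) := by rw [hp]; exact min_le_left _ _
  obtain ⟨C, hC⟩ : ∃ C : ℝ, C = max ((1 / c) ^ (1 / (q - 1))) (1 / j) := ⟨_, rfl⟩
  have hC0 : 0 < C := by rw [hC]; exact lt_max_of_lt_right (by positivity)
  refine ⟨C, p, hC0, hp0, hp1, fun s hs r hr => ?_⟩
  rcases eq_or_ne r 0 with rfl | hr0
  · simp only [add_zero, sub_self, abs_zero]
    positivity
  have hra : 0 < |r| := abs_pos.2 hr0
  obtain ⟨x, hx⟩ : ∃ x, x = sl μ (s + r) - sl μ s := ⟨_, rfl⟩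
  have h1 := J_up20 hμ hnd (s := s) (T := s + r) (x := x) (by rw [show s + r - s = r by ring]; exact hr) (by rw [hx]; ring)
  rw [show s + r - s = r by ring] at h1
  have h2 : r * x ≤ |r| * |x| := by
    rw [← abs_mul]
    exact le_abs_self _
  rw [← hx]
  rcases eq_or_ne x 0 with rfl | hx0
  · rw [abs_zero]
    positivity
  have hxa : 0 < |x| := abs_pos.2 hx0
  rcases le_total |x| δ with h3 | h3
  · have h4 := (hpw s hs x h3).1
    have h5 : |x| ^ q = |x| ^ (q - 1) * |x| := by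
      rw [Real.rpow_sub_one hxa.ne', div_mul_cancel₀ _ hxa.ne']
    rw [h5] at h4
    have h6 : c * |x| ^ (q - 1) ≤ |r| := by
      have : c * |x| ^ (q - 1) * |x| ≤ |r| * |x| := by linarith
      exact le_of_mul_le_mul_right this hxa
    have h7 : |x| ^ (q - 1) ≤ 1 / c * |r| := by
      rw [div_mul_eq_mul_div, one_mul, le_div_iff₀ hc]
      linarith
    have h8 : |x| ≤ (1 / c * |r|) ^ (1 / (q - 1)) := by
      have := Real.rpow_le_rpow (by positivity) h7 (show 0 ≤ 1 / (q - 1) by positivity)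
      rwa [← Real.rpow_mul hxa.le, mul_one_div_cancel hq1.ne', Real.rpow_one] at this
    rw [Real.mul_rpow (by positivity) hra.le] at h8
    refine h8.trans (mul_le_mul (by rw [hC]; exact le_max_left _ _)
      (Real.rpow_le_rpow_of_exponent_ge hra hr hp2) (by positivity) hC0.le)
  · have h4 := hjs s hs x h3
    have h5 : j ≤ |r| := by
      have : j * |x| ≤ |r| * |x| := by linarith
      exact le_of_mul_le_mul_right this hxa
    have h6 : |x| ≤ 1 := by
      have m1 := sl_mem hμ hnd (s + r)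
      have m2 := sl_mem hμ hnd s
      rw [abs_le, hx]
      constructor <;> linarith
    calc |x| ≤ 1 := h6
      _ ≤ 1 / j * |r| := by
        rw [div_mul_eq_mul_div, one_mul, le_div_iff₀ hj]
        linarith
      _ ≤ C * |r| ^ p := by
        refine mul_le_mul (by rw [hC]; exact le_max_right _ _) ?_ hra.le hC0.le
        calc |r| = |r| ^ (1 : ℝ) := (Real.rpow_one _).symm
          _ ≤ |r| ^ p := Real.rpow_le_rpow_of_exponent_ge hra hr hp1

/-- **The free energy is between two powers larger than one**, uniformly for bounded tilts. -/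
theorem ex_powH (hμ : EM μ) (hnd : Nondeg μ) {H : ℝ} (h : DblH μ (Icc (-(H + 1)) (H + 1))) : ∃ c C p : ℝ, 0 < c ∧ 0 < C ∧
    1 < p ∧ ∀ s ∈ Icc (-H) H, ∀ r : ℝ, |r| ≤ 1 → c * |r| ^ 100 ≤ ex μ s r ∧ ex μ s r ≤ C * |r| ^ p := by
  obtain ⟨c, hc, hp⟩ := ex_power hμ hnd H
  obtain ⟨C, p, hC, hp0, -, hh⟩ := sl_holderH hμ hnd h
  refine ⟨c, C, 1 + p, hc, hC, by linarith, fun s hs r hr => ⟨hp s (abs_le.2 hs) r hr, ?_⟩⟩
  have h1 := ex_le_sl hμ hnd s r
  have h2 := hh s hs r hr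
  have h3 : r * (sl μ (s + r) - sl μ s) ≤ |r| * |sl μ (s + r) - sl μ s| := by
    rw [← abs_mul]
    exact le_abs_self _
  have h4 := mul_le_mul_of_nonneg_left h2 (abs_nonneg r)
  rcases eq_or_ne r 0 with rfl | hr0
  · rw [ex_zero]
    positivity
  have hra : 0 < |r| := abs_pos.2 hr0
  have h5 : |r| ^ (1 + p) = |r| * |r| ^ p := by rw [Real.rpow_add hra, Real.rpow_one]
  rw [h5]
  calc ex μ s r ≤ |r| * (C * |r| ^ p) := by linarith
    _ = C * (|r| * |r| ^ p) := by ring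

end Pool.Agent.W_7d29a1_H
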