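import Pool.Agent.W_7d29a1_g.EL67H

/-!
MP_7d29a1_pr, TRACK H (all tilts), (EL): the strip of half width `S` around the line `L + x`, exits through its sides. (port of `EL67C` to a line `L`
with steps `0`, `1`.)
-/

set_option autoImplicit false

namespace Pool.Agent.W_7d29a1_H.EL

open Pool.Agent.W_7d29a1_F MeasureTheory ProbabilityTheory
open Pool.Agent.W_7d29a1_g.K67

/-- A line: an integer function with steps `0`, `1`. -/
class Ln (L : ℤ → ℤ) : Prop where
  lo : ∀ r : ℤ, L r ≤ L (r + 1)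
  hi : ∀ r : ℤ, L (r + 1) ≤ L r + 1

theorem Ln.mono {L : ℤ → ℤ} [h : Ln L] {a b : ℤ} (hab : a ≤ b) : L a ≤ L b := by
  obtain ⟨n, rfl⟩ : ∃ n : ℕ, b = a + n := ⟨(b - a).toNat, by omega⟩
  clear hab
  induction n with
  | zero => simp
  | succ n ih =>
    have h1 := h.lo (a + n)
    push_cast
    rw [← add_assoc]
    exact ih.trans h1

theorem Ln.lip {L : ℤ → ℤ} [h : Ln L] {a b : ℤ} (hab : a ≤ b) : L b ≤ L a + (b - a) := by
  obtain ⟨n, rfl⟩ : ∃ n : ℕ, b = a + n := ⟨(b - a).toNat, by omega⟩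
  clear hab
  induction n with
  | zero => simp
  | succ n ih =>
    have h1 := h.hi (a + n)
    push_cast
    rw [← add_assoc]
    omega

set_option linter.unusedSectionVars false

variable {μ : Measure ℝ} {s : ℝ} {L : ℤ → ℤ} [hL : Ln L]

/-- The strip `|p.2 - ⌊L p.1⌋ - x| < S`. -/
def stp (L : ℤ → ℤ) (S x : ℤ) : Set Pt := {p | L p.1 + x - S < p.2 ∧ p.2 < L p.1 + x + S}

theorem mem_stp {S x : ℤ} {p : Pt} : p ∈ stp L S x ↔ L p.1 + x - S < p.2 ∧ p.2 < L p.1 + x + S := Iff.rfl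

variable {S x : ℤ}

theorem ex_sites (η : Env) {a : Pt} (ha : a ∈ stp L S x) {n : ℕ} {z : ℤ}
    (h : ex μ s (stp L S x) η a n z ≠ 0) :
    ((a.1 + (n + 1), z) : Pt) ∈ stp L S x ∨ z = L (a.1 + (n + 1)) + x - S ∨
      z = L (a.1 + (n + 1)) + x + S := by
  have f1 := hL.lo (a.1 + n)
  have f2 := hL.hi (a.1 + n)
  rw [add_assoc] at f1 f2
  have h1 : fw μ s (stp L S x) η a n z ≠ 0 ∨ fw μ s (stp L S x) η a n (z - 1) ≠ 0 := by
    by_contra hcon
    push Not at hcon
    apply h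
    unfold ex
    rw [hcon.1, hcon.2]
    simp
  rcases h1 with h1 | h1
  · have h2 := mem_stp.1 (fw_mem η a ha n z h1)
    simp only at h2
    rw [mem_stp]
    simp only
    omega
  · have h2 := mem_stp.1 (fw_mem η a ha n (z - 1) h1)
    simp only at h2
    rw [mem_stp]
    simp only
    omega

/-- The sites behind one step from the strip are in the closed strip. -/
theorem ex_closed (η : Env) {a : Pt} (ha : a ∈ stp L S x) {n : ℕ} {z : ℤ}
    (h : ex μ s (stp L S x) η a n z ≠ 0) :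
    L (a.1 + (n + 1)) + x - S ≤ z ∧ z ≤ L (a.1 + (n + 1)) + x + S := by
  rcases ex_sites η ha h with h1 | h1 | h1
  · have h2 := mem_stp.1 h1
    simp only at h2
    omega
  · have h2 := mem_stp.1 ha
    omega
  · have h2 := mem_stp.1 ha
    omega

/-- One step: stay in the strip, or exit at one of the two sides. -/
theorem exit_step (η : Env) {a : Pt} (ha : a ∈ stp L S x) (n : ℕ) {Ψ : Pt → ℝ} (hΨ : ∀ p, 0 ≤ Ψ p) :
    ∑ z ∈ Finset.Icc a.2 (a.2 + (n + 1)), ex μ s (stp L S x) η a n z * Ψ (a.1 + n + 1, z) ≤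
      An μ s (stp L S x) Ψ η a (n + 1) +
        (ex μ s (stp L S x) η a n (L (a.1 + (n + 1)) + x - S) *
          Ψ (a.1 + n + 1, L (a.1 + (n + 1)) + x - S) +
        ex μ s (stp L S x) η a n (L (a.1 + (n + 1)) + x + S) *
          Ψ (a.1 + n + 1, L (a.1 + (n + 1)) + x + S)) := by
  classical
  set l1 : ℤ := L (a.1 + (n + 1)) + x - S with hl1
  set l2 : ℤ := L (a.1 + (n + 1)) + x + S with hl2
  have h1 : ∀ z ∈ Finset.Icc a.2 (a.2 + (n + 1)), ex μ s (stp L S x) η a n z * Ψ (a.1 + n + 1, z) ≤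
      fw μ s (stp L S x) η a (n + 1) z * Ψ (a.1 + n + 1, z) +
        ((if z = l1 then ex μ s (stp L S x) η a n l1 * Ψ (a.1 + n + 1, l1) else 0) +
         (if z = l2 then ex μ s (stp L S x) η a n l2 * Ψ (a.1 + n + 1, l2) else 0)) := by
    intro z _
    have n1 : 0 ≤ fw μ s (stp L S x) η a (n + 1) z * Ψ (a.1 + n + 1, z) :=
      mul_nonneg (fw_nonneg _ _ _ _) (hΨ _)
    have n2 : (0 : ℝ) ≤ if z = l1 then ex μ s (stp L S x) η a n l1 * Ψ (a.1 + n + 1, l1) else 0 := by
      split_ifs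
      · exact mul_nonneg (ex_nonneg _ _ _ _) (hΨ _)
      · exact le_rfl
    have n3 : (0 : ℝ) ≤ if z = l2 then ex μ s (stp L S x) η a n l2 * Ψ (a.1 + n + 1, l2) else 0 := by
      split_ifs
      · exact mul_nonneg (ex_nonneg _ _ _ _) (hΨ _)
      · exact le_rfl
    by_cases h : ex μ s (stp L S x) η a n z = 0
    · rw [h, zero_mul]
      linarith
    · rcases ex_sites η ha h with h2 | h2 | h2
      · rw [fw_succ_mem η a n z h2] at n1 ⊢
        linarith
      · rw [← hl1] at h2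
        rw [if_pos h2, ← h2]
        linarith
      · rw [← hl2] at h2
        rw [if_pos h2, ← h2]
        linarith
  refine (Finset.sum_le_sum h1).trans ?_
  rw [Finset.sum_add_distrib, Finset.sum_add_distrib]
  refine add_le_add (le_of_eq ?_) (add_le_add ?_ ?_)
  · unfold An
    push_cast
    rw [show a.1 + ((n : ℤ) + 1) = a.1 + n + 1 by ring]
  · rw [Finset.sum_ite_eq']
    split_ifs
    · exact le_rfl
    · exact mul_nonneg (ex_nonneg _ _ _ _) (hΨ _)
  · rw [Finset.sum_ite_eq']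
    split_ifs
    · exact le_rfl
    · exact mul_nonneg (ex_nonneg _ _ _ _) (hΨ _)

variable {t : ℤ} {Tg : Finset ℤ}

/-- The exit decomposition up to `m` steps. -/
theorem exit_sum (η : Env) {a : Pt} (ha : a ∈ stp L S x) : ∀ m : ℕ, a.1 + m ≤ t →
    ph μ s t Tg η a ≤ An μ s (stp L S x) (ph μ s t Tg η) η a m +
      ∑ n ∈ Finset.range m, (ex μ s (stp L S x) η a n (L (a.1 + (n + 1)) + x - S) *
          ph μ s t Tg η (a.1 + n + 1, L (a.1 + (n + 1)) + x - S) +
        ex μ s (stp L S x) η a n (L (a.1 + (n + 1)) + x + S) *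
          ph μ s t Tg η (a.1 + n + 1, L (a.1 + (n + 1)) + x + S)) := by
  intro m
  induction m with
  | zero =>
    intro _
    rw [An_zero]
    simp
  | succ m ih =>
    intro hm
    push_cast at hm
    refine (ih (by omega)).trans ?_
    rw [Finset.sum_range_succ]
    have h1 := An_step (μ := μ) (s := s) (R := stp L S x) (Ψ := ph μ s t Tg η) η a m (fun z => by
      exact ph_step η (p := (a.1 + m, z)) (show a.1 + (m : ℤ) < t by omega))
    rw [h1]
    have h2 := exit_step (μ := μ) (s := s) η ha m (Ψ := ph μ s t Tg η) (fun p => ph_nonneg η p)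
    linarith

/-! ### Passing a line -/

/-- The exit weight at the right side, from an inner start. -/
theorem ex_right (η : Env) {r0 : ℤ} (hr : r0 < S) {a : Pt} (ha : a.2 ≤ L a.1 + x + r0) {n : ℕ}
    {b c : ℝ} (hb : 0 < b) (hc : 0 < c) (h1 : ∀ k ≤ n, sb μ s (stp L S x) η a k < b)
    (h2 : ∀ k ≤ n, wt μ s η (a.1 + k, L (a.1 + k) + (x + r0)) (a.1 + n + 1, L (a.1 + n + 1) + (x + S)) < c) :
    ex μ s (stp L S x) η a n (L (a.1 + (n + 1)) + x + S) < (n + 1) * (b * c) := by
  have e0 : L (a.1 + n + 1) = L (a.1 + (n + 1)) := by rw [add_assoc]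
  have h := (pass (μ := μ) (s := s) η (stp L S x) a (fun r => L r + (x + r0))
    (fun r z => L r + (x + r0) ≤ z) (fun r z h3 h4 => by
      have f1 := hL.lo r
      have f2 := hL.hi r
      omega)
    (fun h3 => by omega) n (L (a.1 + (n + 1)) + x + S)).2
    (by omega) (by omega)
  refine lt_of_le_of_lt h ?_
  have h3 : ∀ k ∈ Finset.range (n + 1), fw μ s (stp L S x) η a k (L (a.1 + k) + (x + r0)) *
      wt μ s η (a.1 + k, L (a.1 + k) + (x + r0)) (a.1 + n + 1, L (a.1 + (n + 1)) + x + S) < b * c := by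
    intro k hk
    have hk' : k ≤ n := by
      have := Finset.mem_range.1 hk
      omega
    have h4 := h2 k hk'
    rw [show L (a.1 + n + 1) + (x + S) = L (a.1 + ((n : ℤ) + 1)) + x + S by
      rw [show a.1 + (n : ℤ) + 1 = a.1 + ((n : ℤ) + 1) by ring]; ring] at h4
    have h5 := lt_of_le_of_lt (fw_le_sb (μ := μ) (s := s) (R := stp L S x) η a k
      (L (a.1 + k) + (x + r0))) (h1 k hk')
    rcases (wt_nonneg (μ := μ) (s := s) η (a.1 + k, L (a.1 + k) + (x + r0))
      (a.1 + n + 1, L (a.1 + (n + 1)) + x + S)).eq_or_lt with h6 | h6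
    · rw [← h6, mul_zero]
      positivity
    · exact mul_lt_mul'' h5 h4 (fw_nonneg _ _ _ _) h6.le
  refine lt_of_lt_of_le (Finset.sum_lt_sum_of_nonempty ⟨0, by simp⟩ h3) ?_
  rw [Finset.sum_const, Finset.card_range, nsmul_eq_mul]
  push_cast
  exact le_rfl

/-- The exit weight at the left side, from an inner start. -/
theorem ex_left (η : Env) {r0 : ℤ} (hr : r0 < S) {a : Pt} (ha : L a.1 + x - r0 ≤ a.2) {n : ℕ}
    {b c : ℝ} (hb : 0 < b) (hc : 0 < c) (h1 : ∀ k ≤ n, sb μ s (stp L S x) η a k < b)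
    (h2 : ∀ k ≤ n, wt μ s η (a.1 + k, L (a.1 + k) + (x - r0)) (a.1 + n + 1, L (a.1 + n + 1) + (x - S)) < c) :
    ex μ s (stp L S x) η a n (L (a.1 + (n + 1)) + x - S) < (n + 1) * (b * c) := by
  have e0 : L (a.1 + n + 1) = L (a.1 + (n + 1)) := by rw [add_assoc]
  have h := (pass (μ := μ) (s := s) η (stp L S x) a (fun r => L r + (x - r0))
    (fun r z => z ≤ L r + (x - r0)) (fun r z h3 h4 => by
      have f1 := hL.lo r
      have f2 := hL.hi r
      omega)
    (fun h3 => by omega) n (L (a.1 + (n + 1)) + x - S)).2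
    (by omega) (by omega)
  refine lt_of_le_of_lt h ?_
  have h3 : ∀ k ∈ Finset.range (n + 1), fw μ s (stp L S x) η a k (L (a.1 + k) + (x - r0)) *
      wt μ s η (a.1 + k, L (a.1 + k) + (x - r0)) (a.1 + n + 1, L (a.1 + (n + 1)) + x - S) < b * c := by
    intro k hk
    have hk' : k ≤ n := by
      have := Finset.mem_range.1 hk
      omega
    have h4 := h2 k hk'
    rw [show L (a.1 + n + 1) + (x - S) = L (a.1 + ((n : ℤ) + 1)) + x - S by
      rw [show a.1 + (n : ℤ) + 1 = a.1 + ((n : ℤ) + 1) by ring]; ring] at h4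
    have h5 := lt_of_le_of_lt (fw_le_sb (μ := μ) (s := s) (R := stp L S x) η a k
      (L (a.1 + k) + (x - r0))) (h1 k hk')
    rcases (wt_nonneg (μ := μ) (s := s) η (a.1 + k, L (a.1 + k) + (x - r0))
      (a.1 + n + 1, L (a.1 + (n + 1)) + x - S)).eq_or_lt with h6 | h6
    · rw [← h6, mul_zero]
      positivity
    · exact mul_lt_mul'' h5 h4 (fw_nonneg _ _ _ _) h6.le
  refine lt_of_lt_of_le (Finset.sum_lt_sum_of_nonempty ⟨0, by simp⟩ h3) ?_
  rw [Finset.sum_const, Finset.card_range, nsmul_eq_mul]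
  push_cast
  exact le_rfl

end Pool.Agent.W_7d29a1_H.EL

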