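import Pool.Agent.W_7d29a1_H.EL51C

/-!
MP_7d29a1_pr, TRACK H (all tilts), (EL): the largest weight inside the strip, restart. (port of `EL67D` to a line `L`
with steps `0`, `1`.)
-/

set_option autoImplicit false

namespace Pool.Agent.W_7d29a1_H.EL

open Pool.Agent.W_7d29a1_F MeasureTheory ProbabilityTheory
open Pool.Agent.W_7d29a1_g.K67

set_option linter.unusedSectionVars false

variable {μ : Measure ℝ} {s : ℝ} {L : ℤ → ℤ} [hL : Ln L]



/-! ### The largest weight inside the strip -/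

open Classical in
/-- The sites of the strip in the rows `T0, …, T1`. -/
noncomputable def bx (L : ℤ → ℤ) (S x : ℤ) (T0 T1 : ℕ) : Finset Pt :=
  ((Finset.Icc (T0 : ℤ) T1) ×ˢ Finset.Icc (L (T0 : ℤ) + x - S) (L (T1 : ℤ) + x + S)).filter
    fun p => p ∈ stp L S x

theorem mem_bx {S x : ℤ} {T0 T1 : ℕ} {p : Pt} :
    p ∈ bx L S x T0 T1 ↔ (T0 : ℤ) ≤ p.1 ∧ p.1 ≤ T1 ∧ p ∈ stp L S x := by
  classical
  unfold bx
  rw [Finset.mem_filter, Finset.mem_product, Finset.mem_Icc, Finset.mem_Icc]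
  constructor
  · rintro ⟨⟨⟨h1, h2⟩, _⟩, h3⟩
    exact ⟨h1, h2, h3⟩
  · rintro ⟨h1, h2, h3⟩
    have h4 := mem_stp.1 h3
    have f1 := Ln.mono (L := L) h1
    have f2 := Ln.mono (L := L) h2
    exact ⟨⟨⟨h1, h2⟩, by omega, by omega⟩, h3⟩

/-- The largest weight inside the strip, starts and ends in the rows `T0, …, T1`; at least `1`. -/
noncomputable def mB (μ : Measure ℝ) (s : ℝ) (L : ℤ → ℤ) (S x : ℤ) (T0 T1 : ℕ) (η : Env) : ℝ :=
  mx 1 (bx L S x T0 T1 ×ˢ Finset.range (T1 + 1)) fun q =>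
    if q.1.1 + q.2 ≤ T1 then sb μ s (stp L S x) η q.1 q.2 else 0

variable {S x : ℤ} {T0 T1 : ℕ}

theorem sb_le_mB (η : Env) {u : Pt} {l : ℕ} (hu : u ∈ bx L S x T0 T1) (hl : u.1 + l ≤ T1) :
    sb μ s (stp L S x) η u l ≤ mB μ s L S x T0 T1 η := by
  have hu' := mem_bx.1 hu
  have h1 : ((u, l) : Pt × ℕ) ∈ bx L S x T0 T1 ×ˢ Finset.range (T1 + 1) := by
    rw [Finset.mem_product, Finset.mem_range]
    exact ⟨hu, by omega⟩
  have h2 := le_mx (b := 1) (f := fun q : Pt × ℕ =>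
    if q.1.1 + q.2 ≤ T1 then sb μ s (stp L S x) η q.1 q.2 else 0) h1
  simp only [if_pos hl] at h2
  exact h2

theorem one_le_mB (η : Env) : 1 ≤ mB μ s L S x T0 T1 η := floor_le_mx

theorem mB_mono (η : Env) {T0' T1' : ℕ} (h0 : T0' ≤ T0) (h1 : T1 ≤ T1') :
    mB μ s L S x T0 T1 η ≤ mB μ s L S x T0' T1' η := by
  refine mx_le.2 ⟨one_le_mB η, fun q hq => ?_⟩
  rw [Finset.mem_product, Finset.mem_range] at hq
  split_ifs with h2
  · have h3 := mem_bx.1 hq.1
    exact sb_le_mB η (mem_bx.2 ⟨by omega, by omega, h3.2.2⟩) (by omega)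
  · exact zero_le_one.trans (one_le_mB η)

theorem Adm.mB : Adm fun η => mB μ s L S x T0 T1 η := by
  refine Adm.mx zero_le_one fun q _ => ?_
  by_cases h : q.1.1 + q.2 ≤ T1
  · simp only [if_pos h]
    exact Adm.sb _ _
  · simp only [if_neg h]
    exact Adm.const le_rfl

theorem mB_dep : DependsOn (fun η : Env => mB μ s L S x T0 T1 η) (rows T0 T1) := by
  refine mx_dep fun q hq => ?_
  rw [Finset.mem_product] at hq
  have h3 := mem_bx.1 hq.1
  intro η η' h
  show (if q.1.1 + (q.2 : ℤ) ≤ T1 then sb μ s (stp L S x) η q.1 q.2 else 0) =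
    if q.1.1 + (q.2 : ℤ) ≤ T1 then sb μ s (stp L S x) η' q.1 q.2 else 0
  split_ifs with h1
  · exact sb_dep q.1 q.2 fun p hp => h p (rows_mono h3.1 h1 hp)
  · rfl

/-- One step weights in the row `τ` of the closed strip; at least `1`. -/
noncomputable def oR (μ : Measure ℝ) (s : ℝ) (L : ℤ → ℤ) (S x : ℤ) (τ : ℕ) (η : Env) : ℝ :=
  if τ = 0 then 1 else mx 1 (Finset.Icc (L (τ : ℤ) + x - S) (L (τ : ℤ) + x + S)) fun z =>
    (k0 μ s + k1 μ s) * Real.exp (η ((τ : ℤ), z))

/-- The largest one step weight. -/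
noncomputable def oM (μ : Measure ℝ) (s : ℝ) (L : ℤ → ℤ) (S x : ℤ) (t : ℕ) (η : Env) : ℝ :=
  mx 1 (Finset.range (t + 1)) fun τ => oR μ s L S x τ η

theorem one_le_oR (η : Env) (τ : ℕ) : 1 ≤ oR μ s L S x τ η := by
  unfold oR
  split_ifs
  · exact le_rfl
  · exact floor_le_mx

theorem oR_le_oM (η : Env) {τ t : ℕ} (h : τ ≤ t) : oR μ s L S x τ η ≤ oM μ s L S x t η :=
  le_mx (f := fun τ => oR μ s L S x τ η) (Finset.mem_range.2 (Nat.lt_succ_of_le h))

theorem Adm.oR (τ : ℕ) : Adm fun η => oR μ s L S x τ η := by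
  unfold Pool.Agent.W_7d29a1_H.EL.oR
  by_cases h : τ = 0
  · simp only [if_pos h]
    exact Adm.const zero_le_one
  · simp only [if_neg h]
    exact Adm.mx zero_le_one fun z _ => (Adm.const (add_nonneg k0_pos.le k1_pos.le)).mul
      (Adm.exp_coord _)

theorem Adm.oM (t : ℕ) : Adm fun η => oM μ s L S x t η := Adm.mx zero_le_one fun τ _ => Adm.oR τ

theorem oR_dep (τ : ℕ) : DependsOn (fun η : Env => oR μ s L S x τ η) (rows 0 τ) := by
  intro η η' h
  show oR μ s L S x τ η = oR μ s L S x τ η'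
  unfold oR
  split_ifs with h1
  · rfl
  · refine mx_congr fun z _ => ?_
    rw [h ((τ : ℤ), z) ⟨by show (0 : ℤ) < τ; omega, le_rfl⟩]

/-- The total weight of one more step. -/
theorem ex_sum_oR (η : Env) {a : Pt} (ha : a ∈ stp L S x) (n : ℕ) {τ : ℕ} (hτ : (τ : ℤ) = a.1 + n + 1)
    (hτ0 : τ ≠ 0) : ∑ z ∈ Finset.Icc a.2 (a.2 + (n + 1)), ex μ s (stp L S x) η a n z ≤
      oR μ s L S x τ η * sb μ s (stp L S x) η a n := by
  refine ex_sum_le η a n fun z hz => ?_
  have h1 := mem_stp.1 (fw_mem η a ha n z hz)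
  simp only at h1
  have f1 := hL.lo (a.1 + n)
  have f2 := hL.hi (a.1 + n)
  rw [← hτ] at f1 f2
  unfold oR
  rw [if_neg hτ0, ← hτ]
  have h2 := le_mx (b := 1) (S := Finset.Icc (L (τ : ℤ) + x - S) (L (τ : ℤ) + x + S))
    (f := fun z => (k0 μ s + k1 μ s) * Real.exp (η ((τ : ℤ), z))) (x := z)
    (Finset.mem_Icc.2 ⟨by omega, by omega⟩)
  have h3 := le_mx (b := 1) (S := Finset.Icc (L (τ : ℤ) + x - S) (L (τ : ℤ) + x + S))
    (f := fun z => (k0 μ s + k1 μ s) * Real.exp (η ((τ : ℤ), z))) (x := z + 1)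
    (Finset.mem_Icc.2 ⟨by omega, by omega⟩)
  set m := mx 1 (Finset.Icc (L (τ : ℤ) + x - S) (L (τ : ℤ) + x + S))
    (fun z => (k0 μ s + k1 μ s) * Real.exp (η ((τ : ℤ), z)))
  have hk : 0 < k0 μ s + k1 μ s := add_pos k0_pos k1_pos
  have h4 : Real.exp (η ((τ : ℤ), z)) ≤ m / (k0 μ s + k1 μ s) := by
    rw [le_div_iff₀ hk]
    linarith
  have h5 : Real.exp (η ((τ : ℤ), z + 1)) ≤ m / (k0 μ s + k1 μ s) := by
    rw [le_div_iff₀ hk]
    linarith
  calc k0 μ s * Real.exp (η ((τ : ℤ), z)) + k1 μ s * Real.exp (η ((τ : ℤ), z + 1))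
      ≤ k0 μ s * (m / (k0 μ s + k1 μ s)) + k1 μ s * (m / (k0 μ s + k1 μ s)) :=
        add_le_add (mul_le_mul_of_nonneg_left h4 k0_pos.le) (mul_le_mul_of_nonneg_left h5 k1_pos.le)
    _ = m := by
        rw [← add_mul]
        field_simp

/-- The total weight inside the strip of one more step. -/
theorem sb_succ_le (η : Env) {a : Pt} (ha : a ∈ stp L S x) (n : ℕ) {τ : ℕ} (hτ : (τ : ℤ) = a.1 + n + 1)
    (hτ0 : τ ≠ 0) : sb μ s (stp L S x) η a (n + 1) ≤ oR μ s L S x τ η * sb μ s (stp L S x) η a n := by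
  refine le_trans ?_ (ex_sum_oR η ha n hτ hτ0)
  unfold sb
  push_cast
  exact Finset.sum_le_sum fun z _ => fw_succ_le η a n z

/-! ### Restart -/

/-- Some weight inside the strip is at least `b` in the row `τ`. -/
def HB (μ : Measure ℝ) (s : ℝ) (L : ℤ → ℤ) (S x : ℤ) (b : ℝ) (τ : ℕ) (η : Env) : Prop :=
  ∃ u ∈ bx L S x 0 τ, b ≤ sb μ s (stp L S x) η u (τ - u.1).toNat

theorem HB_meas (b : ℝ) (τ : ℕ) : MeasurableSet {η | HB μ s L S x b τ η} := by
  have e : {η | HB μ s L S x b τ η} = ⋃ u ∈ bx L S x 0 τ, {η | b ≤ sb μ s (stp L S x) η u (τ - u.1).toNat} := by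
    ext η
    simp [HB]
  rw [e]
  exact Finset.measurableSet_biUnion _ fun u _ => measurableSet_le measurable_const (Adm.sb u _).1

theorem HB_dep (b : ℝ) (τ : ℕ) (η η' : Env) (h : ∀ p ∈ rows 0 τ, η p = η' p) :
    HB μ s L S x b τ η ↔ HB μ s L S x b τ η' := by
  have h1 : ∀ u ∈ bx L S x 0 τ, sb μ s (stp L S x) η u (τ - u.1).toNat =
      sb μ s (stp L S x) η' u (τ - u.1).toNat := by
    intro u hu
    have h2 := mem_bx.1 hu
    refine sb_dep (μ := μ) (s := s) (R := stp L S x) u _ fun p hp => h p (rows_mono ?_ ?_ hp)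
    · have := h2.1
      push_cast at this
      exact this
    · have := h2.2.1
      omega
  unfold HB
  constructor
  · rintro ⟨u, hu, hb⟩
    exact ⟨u, hu, by rw [← h1 u hu]; exact hb⟩
  · rintro ⟨u, hu, hb⟩
    exact ⟨u, hu, by rw [h1 u hu]; exact hb⟩

/-- Either no weight reaches `b`, or restart at the first row at which it happens. -/
theorem mB_restart (η : Env) {b : ℝ} (hb : 1 < b) (t : ℕ) :
    mB μ s L S x 0 t η ≤ b ∨ ∃ τ ≤ t, Fr (HB μ s L S x b) τ η ∧
      mB μ s L S x 0 t η ≤ b * oR μ s L S x τ η * mB μ s L S x τ t η := by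
  classical
  by_cases hE : ∃ τ ≤ t, HB μ s L S x b τ η
  · right
    obtain ⟨τ, hτ, hF⟩ := exists_Fr hE
    refine ⟨τ, hτ, hF, ?_⟩
    have hO := one_le_oR (μ := μ) (s := s) (L := L) (S := S) (x := x) η τ
    have hM := one_le_mB (μ := μ) (s := s) (L := L) (S := S) (x := x) (T0 := τ) (T1 := t) η
    have hbO : b ≤ b * oR μ s L S x τ η := le_mul_of_one_le_right (by linarith) hO
    have hbOM : b * oR μ s L S x τ η ≤ b * oR μ s L S x τ η * mB μ s L S x τ t η :=
      le_mul_of_one_le_right (by linarith) hM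
    have hMM : mB μ s L S x τ t η ≤ b * oR μ s L S x τ η * mB μ s L S x τ t η :=
      le_mul_of_one_le_left (by linarith) (by linarith)
    refine mx_le.2 ⟨by linarith, fun q hq => ?_⟩
    obtain ⟨u, l⟩ := q
    rw [Finset.mem_product, Finset.mem_range] at hq
    simp only at hq ⊢
    split_ifs with hl
    swap
    · linarith
    have hu := mem_bx.1 hq.1
    have hu0 : (0 : ℤ) ≤ u.1 := by
      have := hu.1
      push_cast at this
      exact this
    rcases lt_or_ge (u.1 + (l : ℤ)) τ with h1 | h1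
    · -- before the first row
      have h2 : ¬ HB μ s L S x b (u.1 + l).toNat η := hF.2 _ (by omega)
      have h3 : sb μ s (stp L S x) η u l < b := by
        by_contra hcon
        push Not at hcon
        refine h2 ⟨u, mem_bx.2 ⟨by push_cast; omega, by omega, hu.2.2⟩, ?_⟩
        rw [show (((u.1 + l).toNat : ℤ) - u.1).toNat = l by omega]
        exact hcon
      linarith
    · rcases lt_or_ge u.1 (τ : ℤ) with h2 | h2
      · -- across the first row
        obtain ⟨n, hn⟩ : ∃ n : ℕ, (τ : ℤ) = u.1 + n + 1 := ⟨(τ - u.1 - 1).toNat, by omega⟩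
        obtain ⟨k, hk⟩ : ∃ k : ℕ, l = n + 1 + k := ⟨l - (n + 1), by omega⟩
        have hτ0 : τ ≠ 0 := by omega
        have h3 : ¬ HB μ s L S x b (τ - 1) η := hF.2 _ (by omega)
        have h4 : sb μ s (stp L S x) η u n < b := by
          by_contra hcon
          push Not at hcon
          refine h3 ⟨u, mem_bx.2 ⟨by push_cast; omega, by omega, hu.2.2⟩, ?_⟩
          rw [show (((τ - 1 : ℕ) : ℤ) - u.1).toNat = n by omega]
          exact hcon
        have h5 := sb_succ_le (μ := μ) (s := s) η hu.2.2 n hn hτ0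
        rw [hk]
        have h6 := sb_add_le (μ := μ) (s := s) (R := stp L S x) η u (n + 1) k
          (c := mB μ s L S x τ t η) (by linarith) (fun z hz => by
            have h7 := fw_mem η u hu.2.2 (n + 1) z hz
            refine sb_le_mB η (mem_bx.2 ⟨?_, ?_, h7⟩) ?_
            · show (τ : ℤ) ≤ u.1 + ((n + 1 : ℕ) : ℤ)
              push_cast
              omega
            · show u.1 + ((n + 1 : ℕ) : ℤ) ≤ t
              push_cast
              omega
            · show u.1 + ((n + 1 : ℕ) : ℤ) + (k : ℤ) ≤ t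
              push_cast
              omega)
        refine h6.trans (mul_le_mul_of_nonneg_right (h5.trans ?_) (by linarith))
        rw [mul_comm b]
        exact mul_le_mul_of_nonneg_left h4.le (by linarith)
      · exact (sb_le_mB η (mem_bx.2 ⟨h2, hu.2.1, hu.2.2⟩) hl).trans hMM
  · left
    refine mx_le.2 ⟨hb.le, fun q hq => ?_⟩
    obtain ⟨u, l⟩ := q
    rw [Finset.mem_product, Finset.mem_range] at hq
    simp only at hq ⊢
    split_ifs with hl
    swap
    · linarith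
    have hu := mem_bx.1 hq.1
    have hu0 : (0 : ℤ) ≤ u.1 := by
      have := hu.1
      push_cast at this
      exact this
    by_contra hcon
    push Not at hcon
    refine hE ⟨(u.1 + l).toNat, by omega, u, mem_bx.2 ⟨by push_cast; omega, by omega, hu.2.2⟩, ?_⟩
    rw [show (((u.1 + l).toNat : ℤ) - u.1).toNat = l by omega]
    exact hcon.le

end Pool.Agent.W_7d29a1_H.EL

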