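import Pool.Agent.W_7d29a1_H.EL51D

/-!
MP_7d29a1_pr, TRACK H (all tilts), (EL): moments of the largest weight inside the strip. (port of `EL67E` to a line `L`
with steps `0`, `1`.)
-/

set_option autoImplicit false

namespace Pool.Agent.W_7d29a1_H.EL

open Pool.Agent.W_7d29a1_F MeasureTheory ProbabilityTheory
open Pool.Agent.W_7d29a1_g.K67

set_option linter.unusedSectionVars false

variable {μ : Measure ℝ} {s : ℝ} {L : ℤ → ℤ} [hL : Ln L] [IsProbabilityMeasure μ]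

variable {S x : ℤ}

theorem HB_mB (η : Env) {b : ℝ} {t : ℕ} (h : ∃ τ ≤ t, HB μ s L S x b τ η) : b ≤ mB μ s L S x 0 t η := by
  obtain ⟨τ, hτ, u, hu, hb⟩ := h
  have hu' := mem_bx.1 hu
  refine hb.trans ((sb_le_mB (T0 := 0) (T1 := τ) η hu ?_).trans (mB_mono η le_rfl hτ))
  omega

theorem exHB_meas (b : ℝ) (t : ℕ) : MeasurableSet {η | ∃ τ ≤ t, HB μ s L S x b τ η} := by
  have e : {η | ∃ τ ≤ t, HB μ s L S x b τ η} = ⋃ τ ∈ Finset.range (t + 1), {η | HB μ s L S x b τ η} := by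
    ext η
    simp [Nat.lt_succ_iff]
  rw [e]
  exact Finset.measurableSet_biUnion _ fun τ _ => HB_meas b τ

/-- RESTART: the moment of the largest weight inside the strip. -/
theorem mB_int_le (hμ : Pool.Agent.W_7d29a1_h47.EM μ) {b q : ℝ} (hb : 1 < b) (hq : 0 ≤ q) (t : ℕ) :
    ∫ η, mB μ s L S x 0 t η ^ q ∂(law μ) ≤ b ^ q + (∫ η, mB μ s L S x 0 t η ^ q ∂(law μ)) *
      ∫ η, io (∃ τ ≤ t, HB μ s L S x b τ η) * (b * oM μ s L S x t η) ^ q ∂(law μ) := by
  have hb0 : 0 < b := by linarith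
  have hUA : ∀ τ, Adm fun η => (b * oR μ s L S x τ η) ^ q := fun τ =>
    ((Adm.const hb0.le).mul (Adm.oR τ)).rpow hq
  have hGA : ∀ τ, Adm fun η => mB μ s L S x τ t η ^ q := fun τ => Adm.mB.rpow hq
  have hFA : ∀ τ, Adm fun η => io (Fr (HB μ s L S x b) τ η) := fun τ => Adm.io (meas_Fr (HB_meas b) τ)
  have h1 : ∀ η, mB μ s L S x 0 t η ^ q ≤ b ^ q + ∑ τ ∈ Finset.range (t + 1),
      io (Fr (HB μ s L S x b) τ η) * (b * oR μ s L S x τ η) ^ q * mB μ s L S x τ t η ^ q := by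
    intro η
    have hS0 : 0 ≤ ∑ τ ∈ Finset.range (t + 1),
      io (Fr (HB μ s L S x b) τ η) * (b * oR μ s L S x τ η) ^ q * mB μ s L S x τ t η ^ q :=
      Finset.sum_nonneg fun τ _ => mul_nonneg (mul_nonneg (io_nonneg _) ((hUA τ).2.1 η)) ((hGA τ).2.1 η)
    rcases mB_restart (μ := μ) (s := s) (L := L) (S := S) (x := x) η hb t with h | ⟨τ, hτ, hF, h⟩
    · have := Real.rpow_le_rpow (zero_le_one.trans (one_le_mB η)) h hq
      linarith
    · have h2 := Real.rpow_le_rpow (zero_le_one.trans (one_le_mB η)) h hq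
      rw [Real.mul_rpow (mul_nonneg hb0.le (zero_le_one.trans (one_le_oR η τ)))
        (zero_le_one.trans (one_le_mB η))] at h2
      have h3 := Finset.single_le_sum (f := fun τ => io (Fr (HB μ s L S x b) τ η) *
        (b * oR μ s L S x τ η) ^ q * mB μ s L S x τ t η ^ q)
        (fun τ _ => mul_nonneg (mul_nonneg (io_nonneg _) ((hUA τ).2.1 η)) ((hGA τ).2.1 η))
        (Finset.mem_range.2 (Nat.lt_succ_of_le hτ))
      simp only [io_of hF, one_mul] at h3
      have h4 : 0 ≤ b ^ q := Real.rpow_nonneg hb0.le q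
      linarith
  have h2 := stop_le (μ := μ) hμ (N := t) (H := HB μ s L S x b) (U := fun τ η => (b * oR μ s L S x τ η) ^ q)
    (G := fun τ η => mB μ s L S x τ t η ^ q) (Um := fun η => (b * oM μ s L S x t η) ^ q)
    (g := ∫ η, mB μ s L S x 0 t η ^ q ∂(law μ)) (HB_meas b) (fun τ η η' h => HB_dep b τ η η' h) hUA
    (fun τ η η' h => by
      show (b * oR μ s L S x τ η) ^ q = (b * oR μ s L S x τ η') ^ q
      rw [show oR μ s L S x τ η = oR μ s L S x τ η' from oR_dep τ h]) hGA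
    (fun τ _ η η' h => by
      show mB μ s L S x τ t η ^ q = mB μ s L S x τ t η' ^ q
      rw [show mB μ s L S x τ t η = mB μ s L S x τ t η' from mB_dep h])
    (((Adm.const hb0.le).mul (Adm.oM t)).rpow hq)
    (fun τ hτ η => Real.rpow_le_rpow (mul_nonneg hb0.le (zero_le_one.trans (one_le_oR η τ)))
      (mul_le_mul_of_nonneg_left (oR_le_oM η hτ) hb0.le) hq)
    (fun τ hτ => integral_mono ((hGA τ).integrable hμ) ((hGA 0).integrable hμ) fun η =>
      Real.rpow_le_rpow (zero_le_one.trans (one_le_mB η)) (mB_mono η (Nat.zero_le τ) le_rfl) hq)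
    (integral_nonneg fun η => (hGA 0).2.1 η)
  have h3 : ∫ η, mB μ s L S x 0 t η ^ q ∂(law μ) ≤ ∫ η, (b ^ q + ∑ τ ∈ Finset.range (t + 1),
      io (Fr (HB μ s L S x b) τ η) * (b * oR μ s L S x τ η) ^ q * mB μ s L S x τ t η ^ q) ∂(law μ) :=
    integral_mono ((hGA 0).integrable hμ) (((Adm.const (Real.rpow_nonneg hb0.le q)).add
      (Adm.sum _ fun τ _ => ((hFA τ).mul (hUA τ)).mul (hGA τ))).integrable hμ) h1
  rw [integral_add (integrable_const _) ((Adm.sum _ fun τ _ =>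
    ((hFA τ).mul (hUA τ)).mul (hGA τ)).integrable hμ), integral_const, probReal_univ, one_smul] at h3
  linarith

/-- The moment of the largest weight inside the strip is at most `2 b ^ q` if the level `b` is rarely
reached. -/
theorem mB_mom (hμ : Pool.Agent.W_7d29a1_h47.EM μ) {b q p : ℝ} (hb : 1 < b) (hq : 0 ≤ q) (t : ℕ)
    (hp : (law μ).real {η | b ≤ mB μ s L S x 0 t η} ≤ p)
    (h : b ^ q * (p ^ (1 / 2 : ℝ) * (∫ η, oM μ s L S x t η ^ (2 * q) ∂(law μ)) ^ (1 / 2 : ℝ)) ≤ 1 / 2) :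
    ∫ η, mB μ s L S x 0 t η ^ q ∂(law μ) ≤ 2 * b ^ q := by
  have hb0 : 0 < b := by linarith
  have h1 := mB_int_le (μ := μ) (s := s) (L := L) (S := S) (x := x) hμ hb hq t
  have hmono : (law μ).real {η | ∃ τ ≤ t, HB μ s L S x b τ η} ≤ p :=
    (measureReal_mono fun η hη => HB_mB η hη).trans hp
  have h2 : ∫ η, io (∃ τ ≤ t, HB μ s L S x b τ η) * (b * oM μ s L S x t η) ^ q ∂(law μ) ≤ 1 / 2 := by
    have h3 : ∀ η, io (∃ τ ≤ t, HB μ s L S x b τ η) * (b * oM μ s L S x t η) ^ q =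
        b ^ q * (io (∃ τ ≤ t, HB μ s L S x b τ η) * oM μ s L S x t η ^ q) := by
      intro η
      rw [Real.mul_rpow hb0.le ((Adm.oM t).2.1 η)]
      ring
    simp only [h3]
    rw [integral_const_mul]
    have h4 := io_cs hμ (exHB_meas (μ := μ) (s := s) (L := L) (S := S) (x := x) b t)
      ((Adm.oM (μ := μ) (s := s) (L := L) (S := S) (x := x) t).rpow hq) hmono
    have h5 : ∀ η, (oM μ s L S x t η ^ q) ^ (2 : ℝ) = oM μ s L S x t η ^ (2 * q) := by
      intro η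
      rw [← Real.rpow_mul ((Adm.oM t).2.1 η), mul_comm]
    simp only [h5] at h4
    exact (mul_le_mul_of_nonneg_left h4 (Real.rpow_nonneg hb0.le q)).trans h
  have h3 : 0 ≤ ∫ η, mB μ s L S x 0 t η ^ q ∂(law μ) :=
    integral_nonneg fun η => Real.rpow_nonneg (zero_le_one.trans (one_le_mB η)) q
  nlinarith

end Pool.Agent.W_7d29a1_H.EL

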