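import Pool.Agent.W_7d29a1_H.EL51F

/-!
MP_7d29a1_pr, TRACK H (all tilts), (EL): the recursion over the strips. (port of `EL67G` to a line `L`
with steps `0`, `1`.)
-/

set_option autoImplicit false

namespace Pool.Agent.W_7d29a1_H.EL

open Pool.Agent.W_7d29a1_F MeasureTheory ProbabilityTheory
open Pool.Agent.W_7d29a1_g.K67

set_option linter.unusedSectionVars false

variable {μ : Measure ℝ} {s : ℝ} {L : ℤ → ℤ} [hL : Ln L]

/-- Some point to point weight from the line `x + r0` to the line `x + S` is at least `c`. -/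
def CrR (μ : Measure ℝ) (s : ℝ) (L : ℤ → ℤ) (r0 S : ℤ) (t : ℕ) (c : ℝ) (x : ℤ) (η : Env) : Prop :=
  ∃ k1 ∈ Finset.range (t + 1), ∃ k2 ∈ Finset.range (t + 1), k1 ≤ k2 ∧
    c ≤ wt μ s η ((k1 : ℤ), L (k1 : ℤ) + (x + r0)) ((k2 : ℤ), L (k2 : ℤ) + (x + S))

/-- Some point to point weight from the line `x - r0` to the line `x - S` is at least `c`. -/
def CrL (μ : Measure ℝ) (s : ℝ) (L : ℤ → ℤ) (r0 S : ℤ) (t : ℕ) (c : ℝ) (x : ℤ) (η : Env) : Prop :=
  ∃ k1 ∈ Finset.range (t + 1), ∃ k2 ∈ Finset.range (t + 1), k1 ≤ k2 ∧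
    c ≤ wt μ s η ((k1 : ℤ), L (k1 : ℤ) + (x - r0)) ((k2 : ℤ), L (k2 : ℤ) + (x - S))

variable {r0 S x : ℤ} {t : ℕ} {Tg : Finset ℤ}

/-- A large exit weight needs a large weight inside the strip or a large crossing weight. -/
theorem exHE_sub (η : Env) (hrS : r0 < S) {b c : ℝ} (hb : 0 < b) (hc : 0 < c)
    (h : ∃ τ ≤ t, HE μ s L S r0 t (t * (b * c)) x τ η) :
    b ≤ mB μ s L S x 0 t η ∨ CrR μ s L r0 S t c x η ∨ CrL μ s L r0 S t c x η := by
  by_contra hcon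
  push Not at hcon
  obtain ⟨h1, h2, h3⟩ := hcon
  obtain ⟨τ, hτ, u, hu, hu1, h4⟩ := h
  have hu' := mem_iN.1 hu
  have hu0 : (0 : ℤ) ≤ u.1 := by
    have := hu'.1
    push_cast at this
    exact this
  have hr0 : 0 ≤ r0 := by omega
  have hus : u ∈ stp L S x := mem_stp.2 ⟨by omega, by omega⟩
  obtain ⟨n, hn⟩ : ∃ n : ℕ, (τ : ℤ) = u.1 + n + 1 := ⟨(τ - u.1 - 1).toNat, by omega⟩
  have hsb : ∀ k ≤ n, sb μ s (stp L S x) η u k < b := fun k hk =>
    lt_of_le_of_lt (sb_le_mB (T0 := 0) η (mem_bx.2 ⟨by push_cast; omega, by omega, hus⟩) (by omega)) h1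
  have hnt : ((n : ℝ) + 1) * (b * c) ≤ t * (b * c) := by
    refine mul_le_mul_of_nonneg_right ?_ (mul_pos hb hc).le
    have : (n : ℤ) + 1 ≤ t := by omega
    exact_mod_cast this
  rw [show ((τ : ℤ) - 1 - u.1).toNat = n by omega] at h4
  rcases h4 with h4 | h4
  · have h5 := ex_left (μ := μ) (s := s) (x := x) η hrS (a := u) hu'.2.2.1 (n := n) hb hc hsb (fun k hk => by
      by_contra hge
      push Not at hge
      refine h3 ⟨(u.1 + k).toNat, Finset.mem_range.2 (by omega), τ, Finset.mem_range.2 (by omega),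
        by omega, ?_⟩
      rw [show (((u.1 + k).toNat : ℤ)) = u.1 + k by omega, hn]
      exact hge)
    rw [hn, show u.1 + (n : ℤ) + 1 = u.1 + ((n : ℤ) + 1) by ring] at h4
    linarith
  · have h5 := ex_right (μ := μ) (s := s) (x := x) η hrS (a := u) hu'.2.2.2 (n := n) hb hc hsb (fun k hk => by
      by_contra hge
      push Not at hge
      refine h2 ⟨(u.1 + k).toNat, Finset.mem_range.2 (by omega), τ, Finset.mem_range.2 (by omega),
        by omega, ?_⟩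
      rw [show (((u.1 + k).toNat : ℤ)) = u.1 + k by omega, hn]
      exact hge)
    rw [hn, show u.1 + (n : ℤ) + 1 = u.1 + ((n : ℤ) + 1) by ring] at h4
    linarith

variable [IsProbabilityMeasure μ]

/-- The moment of the weight from the inner strip with centre `x` to the target. -/
noncomputable def gam (μ : Measure ℝ) (s : ℝ) (L : ℤ → ℤ) (r0 : ℤ) (t : ℕ) (Tg : Finset ℤ) (q : ℝ) (x : ℤ) : ℝ :=
  ∫ η, gM μ s L r0 t Tg x 0 η ^ q ∂(law μ)

theorem gam_nonneg (q : ℝ) (x : ℤ) : 0 ≤ gam μ s L r0 t Tg q x :=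
  integral_nonneg fun η => Real.rpow_nonneg (gM_nonneg η 0) q

/-- ONE STEP of the recursion. -/
theorem gam_step (hμ : Pool.Agent.W_7d29a1_h47.EM μ) (hr0 : 0 ≤ r0) (hrS : r0 < S) (Ξ : Finset ℤ)
    (hΞ : ∀ d : ℤ, -S ≤ d → d ≤ S → ∃ ξ ∈ Ξ, ξ - r0 ≤ d ∧ d ≤ ξ + r0) {b0 q p X1 X2 : ℝ} (hb0 : 0 < b0)
    (hq : 0 < q) (hq1 : q ≤ 1) (hp : (law μ).real {η | ∃ τ ≤ t, HE μ s L S r0 t b0 x τ η} ≤ p)
    (hX1 : ∫ η, mB μ s L S x 0 t η ^ q ∂(law μ) ≤ X1)
    (hX2 : ∫ η, (oM μ s L S x t η * mB μ s L S x 0 t η) ^ (2 * q) ∂(law μ) ≤ X2) (x' : ℤ) (hx' : x' = x)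
    {G : ℝ} (hG : ∀ ξ ∈ Ξ, gam μ s L r0 t Tg q (x + ξ) ≤ G) (hG1 : gam μ s L r0 t Tg q (x - S) ≤ G)
    (hG2 : gam μ s L r0 t Tg q (x + S) ≤ G) :
    gam μ s L r0 t Tg q x ≤ io (∃ y ∈ Tg, ((t : ℤ), y) ∈ stp L S x) * X1 +
      (2 * (b0 * t) ^ q + Ξ.card * (p ^ (1 / 2 : ℝ) * X2 ^ (1 / 2 : ℝ))) * G := by
  classical
  have hG0 : 0 ≤ G := (gam_nonneg q _).trans hG1
  have hb0t : 0 ≤ b0 * t := mul_nonneg hb0.le (Nat.cast_nonneg t)
  set U : ℕ → Env → ℝ := fun τ η => (oR μ s L S x τ η * mB μ s L S x 0 τ η) ^ q with hU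
  set Gf : ℕ → Env → ℝ := fun τ η => ∑ ξ ∈ Ξ, gM μ s L r0 t Tg (x + ξ) τ η ^ q with hGf
  set Um : Env → ℝ := fun η => (oM μ s L S x t η * mB μ s L S x 0 t η) ^ q with hUm
  have hUA : ∀ τ, Adm (U τ) := fun τ => ((Adm.oR τ).mul Adm.mB).rpow hq.le
  have hGA : ∀ τ, Adm (Gf τ) := fun τ => Adm.sum _ fun ξ _ => (Adm.gM τ).rpow hq.le
  have hUmA : Adm Um := ((Adm.oM t).mul Adm.mB).rpow hq.le
  have hFA : ∀ τ, Adm fun η => io (Fr (HE μ s L S r0 t b0 x) τ η) := fun τ => Adm.io (meas_Fr (HE_meas b0) τ)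
  have hEA : ∀ x, Adm fun η => gM μ s L r0 t Tg x 0 η ^ q := fun x => (Adm.gM 0).rpow hq.le
  have hMA : Adm fun η => mB μ s L S x 0 t η ^ q := Adm.mB.rpow hq.le
  obtain ⟨i0, hi0⟩ : ∃ i0 : ℝ, i0 = io (∃ y ∈ Tg, ((t : ℤ), y) ∈ stp L S x) := ⟨_, rfl⟩
  have hi00 : 0 ≤ i0 := hi0 ▸ io_nonneg _
  have hi0q : i0 ^ q = i0 := by
    rw [hi0]
    by_cases h : ∃ y ∈ Tg, ((t : ℤ), y) ∈ stp L S x
    · rw [io_of h, Real.one_rpow]
    · rw [io_not h, Real.zero_rpow hq.ne']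
  -- pointwise
  have h1 : ∀ η, gM μ s L r0 t Tg x 0 η ^ q ≤
      (b0 * t) ^ q * (gM μ s L r0 t Tg (x - S) 0 η ^ q + gM μ s L r0 t Tg (x + S) 0 η ^ q) +
        i0 * mB μ s L S x 0 t η ^ q +
        ∑ τ ∈ Finset.range (t + 1), io (Fr (HE μ s L S r0 t b0 x) τ η) * U τ η * Gf τ η := by
    intro η
    have n1 := gM_nonneg (μ := μ) (s := s) (L := L) (r0 := r0) (t := t) (Tg := Tg) (x := x - S) η 0
    have n2 := gM_nonneg (μ := μ) (s := s) (L := L) (r0 := r0) (t := t) (Tg := Tg) (x := x + S) η 0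
    have n3 := gM_nonneg (μ := μ) (s := s) (L := L) (r0 := r0) (t := t) (Tg := Tg) (x := x) η 0
    have n4 : 0 ≤ mB μ s L S x 0 t η := zero_le_one.trans (one_le_mB η)
    have hsum0 : 0 ≤ ∑ τ ∈ Finset.range (t + 1), io (Fr (HE μ s L S r0 t b0 x) τ η) * U τ η * Gf τ η :=
      Finset.sum_nonneg fun τ _ => mul_nonneg (mul_nonneg (io_nonneg _) ((hUA τ).2.1 η)) ((hGA τ).2.1 η)
    have hA : (b0 * t * (gM μ s L r0 t Tg (x - S) 0 η + gM μ s L r0 t Tg (x + S) 0 η)) ^ q ≤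
        (b0 * t) ^ q * (gM μ s L r0 t Tg (x - S) 0 η ^ q + gM μ s L r0 t Tg (x + S) 0 η ^ q) := by
      rw [Real.mul_rpow hb0t (add_nonneg n1 n2)]
      exact mul_le_mul_of_nonneg_left (Real.rpow_add_le_add_rpow n1 n2 hq.le hq1)
        (Real.rpow_nonneg hb0t q)
    have hA0 : 0 ≤ b0 * t * (gM μ s L r0 t Tg (x - S) 0 η + gM μ s L r0 t Tg (x + S) 0 η) :=
      mul_nonneg hb0t (add_nonneg n1 n2)
    rcases gM_step (μ := μ) (s := s) (L := L) (x := x) (t := t) (Tg := Tg) η hr0 hrS Ξ hΞ hb0 with h | ⟨τ, hτ, hF, h⟩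
    · rw [← hi0] at h
      have h2 := Real.rpow_le_rpow n3 h hq.le
      have h3 := Real.rpow_add_le_add_rpow hA0 (mul_nonneg hi00 n4) hq.le hq1
      rw [Real.mul_rpow hi00 n4, hi0q] at h3
      linarith
    · have hs0 : 0 ≤ ∑ ξ ∈ Ξ, gM μ s L r0 t Tg (x + ξ) τ η := Finset.sum_nonneg fun ξ _ => gM_nonneg _ _
      have n5 : 0 ≤ oR μ s L S x τ η * mB μ s L S x 0 τ η :=
        mul_nonneg (zero_le_one.trans (one_le_oR η τ)) (zero_le_one.trans (one_le_mB η))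
      have h2 := Real.rpow_le_rpow n3 h hq.le
      have h3 := Real.rpow_add_le_add_rpow hA0 (mul_nonneg n5 hs0) hq.le hq1
      rw [Real.mul_rpow n5 hs0] at h3
      have h4 : (∑ ξ ∈ Ξ, gM μ s L r0 t Tg (x + ξ) τ η) ^ q ≤ Gf τ η :=
        rpow_sum_le Ξ _ (fun ξ _ => gM_nonneg _ _) hq hq1
      have h5 : (oR μ s L S x τ η * mB μ s L S x 0 τ η) ^ q * (∑ ξ ∈ Ξ, gM μ s L r0 t Tg (x + ξ) τ η) ^ q ≤
          ∑ τ ∈ Finset.range (t + 1), io (Fr (HE μ s L S r0 t b0 x) τ η) * U τ η * Gf τ η := by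
        have h6 := Finset.single_le_sum (f := fun τ => io (Fr (HE μ s L S r0 t b0 x) τ η) * U τ η * Gf τ η)
          (fun τ _ => mul_nonneg (mul_nonneg (io_nonneg _) ((hUA τ).2.1 η)) ((hGA τ).2.1 η))
          (Finset.mem_range.2 (Nat.lt_succ_of_le hτ))
        simp only [io_of hF, one_mul] at h6
        exact (mul_le_mul_of_nonneg_left h4 (Real.rpow_nonneg n5 q)).trans h6
      have n6 : 0 ≤ i0 * mB μ s L S x 0 t η ^ q := mul_nonneg hi00 (Real.rpow_nonneg n4 q)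
      linarith
  -- the stopped sum
  have h2 := stop_le (μ := μ) hμ (N := t) (H := HE μ s L S r0 t b0 x) (U := U) (G := Gf) (Um := Um)
    (g := Ξ.card * G) (HE_meas b0) (fun τ η η' h => HE_dep b0 τ η η' h) hUA
    (fun τ η η' h => by
      show (oR μ s L S x τ η * mB μ s L S x 0 τ η) ^ q = (oR μ s L S x τ η' * mB μ s L S x 0 τ η') ^ q
      rw [show oR μ s L S x τ η = oR μ s L S x τ η' from oR_dep τ h,
        show mB μ s L S x 0 τ η = mB μ s L S x 0 τ η' from mB_dep (by exact_mod_cast h)]) hGA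
    (fun τ _ η η' h => by
      show ∑ ξ ∈ Ξ, gM μ s L r0 t Tg (x + ξ) τ η ^ q = ∑ ξ ∈ Ξ, gM μ s L r0 t Tg (x + ξ) τ η' ^ q
      refine Finset.sum_congr rfl fun ξ _ => ?_
      rw [show gM μ s L r0 t Tg (x + ξ) τ η = gM μ s L r0 t Tg (x + ξ) τ η' from gM_dep τ h])
    hUmA
    (fun τ hτ η => by
      have n1 := one_le_oR (μ := μ) (s := s) (L := L) (S := S) (x := x) η τ
      have n2 := one_le_mB (μ := μ) (s := s) (L := L) (S := S) (x := x) (T0 := 0) (T1 := τ) η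
      refine Real.rpow_le_rpow (by positivity) ?_ hq.le
      exact mul_le_mul (oR_le_oM η hτ) (mB_mono η le_rfl hτ) (by linarith)
        (le_trans (by linarith) (oR_le_oM η hτ)))
    (fun τ hτ => by
      show ∫ η, ∑ ξ ∈ Ξ, gM μ s L r0 t Tg (x + ξ) τ η ^ q ∂(law μ) ≤ Ξ.card * G
      rw [integral_finset_sum _ fun ξ _ => ((Adm.gM τ).rpow hq.le).integrable hμ]
      refine (Finset.sum_le_card_nsmul _ _ G fun ξ hξ => ?_).trans (le_of_eq (nsmul_eq_mul _ _))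
      refine le_trans ?_ (hG ξ hξ)
      exact integral_mono (((Adm.gM τ).rpow hq.le).integrable hμ) ((hEA _).integrable hμ) fun η =>
        Real.rpow_le_rpow (gM_nonneg η τ) (gM_mono η (Nat.zero_le τ)) hq.le)
    (mul_nonneg (Nat.cast_nonneg _) hG0)
  have h3 := io_cs hμ (exHE_meas (μ := μ) (s := s) (L := L) (S := S) (x := x) (r0 := r0) (t := t) b0) hUmA hp
  have hp0 : 0 ≤ p := measureReal_nonneg.trans hp
  have h4 : ∫ η, io (∃ τ ≤ t, HE μ s L S r0 t b0 x τ η) * Um η ∂(law μ) ≤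
      p ^ (1 / 2 : ℝ) * X2 ^ (1 / 2 : ℝ) := by
    refine h3.trans (mul_le_mul_of_nonneg_left ?_ (Real.rpow_nonneg hp0 _))
    refine Real.rpow_le_rpow (integral_nonneg fun η => Real.rpow_nonneg (hUmA.2.1 η) _) ?_ (by norm_num)
    refine le_trans (le_of_eq ?_) hX2
    refine integral_congr_ae (Filter.Eventually.of_forall fun η => ?_)
    show ((oM μ s L S x t η * mB μ s L S x 0 t η) ^ q) ^ (2 : ℝ) = _
    rw [← Real.rpow_mul (mul_nonneg ((Adm.oM t).2.1 η) (zero_le_one.trans (one_le_mB η))), mul_comm q 2]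
  have h5 : gam μ s L r0 t Tg q x ≤ (b0 * t) ^ q * (gam μ s L r0 t Tg q (x - S) + gam μ s L r0 t Tg q (x + S)) +
      i0 * ∫ η, mB μ s L S x 0 t η ^ q ∂(law μ) +
      ∫ η, ∑ τ ∈ Finset.range (t + 1), io (Fr (HE μ s L S r0 t b0 x) τ η) * U τ η * Gf τ η ∂(law μ) := by
    have a1 : Adm fun η => (b0 * t) ^ q * (gM μ s L r0 t Tg (x - S) 0 η ^ q + gM μ s L r0 t Tg (x + S) 0 η ^ q) :=
      (Adm.const (Real.rpow_nonneg hb0t q)).mul ((hEA _).add (hEA _))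
    have a2 : Adm fun η => i0 * mB μ s L S x 0 t η ^ q := (Adm.const hi00).mul hMA
    have a3 : Adm fun η => ∑ τ ∈ Finset.range (t + 1), io (Fr (HE μ s L S r0 t b0 x) τ η) * U τ η * Gf τ η :=
      Adm.sum _ fun τ _ => ((hFA τ).mul (hUA τ)).mul (hGA τ)
    have h6 := integral_mono ((hEA x).integrable hμ) (((a1.add a2).add a3).integrable hμ) h1
    rw [integral_add ((a1.add a2).integrable hμ) (a3.integrable hμ),
      integral_add (a1.integrable hμ) (a2.integrable hμ), integral_const_mul, integral_const_mul,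
      integral_add ((hEA _).integrable hμ) ((hEA _).integrable hμ)] at h6
    exact h6
  have h7 : (b0 * t) ^ q * (gam μ s L r0 t Tg q (x - S) + gam μ s L r0 t Tg q (x + S)) ≤
      (b0 * t) ^ q * (2 * G) := mul_le_mul_of_nonneg_left (by linarith) (Real.rpow_nonneg hb0t q)
  have h8 : i0 * ∫ η, mB μ s L S x 0 t η ^ q ∂(law μ) ≤ i0 * X1 := mul_le_mul_of_nonneg_left hX1 hi00
  have h9 := mul_le_mul_of_nonneg_left h4 (mul_nonneg (Nat.cast_nonneg Ξ.card) hG0 : (0:ℝ) ≤ Ξ.card * G)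
  rw [← hi0]
  nlinarith

/-- No weight from far away. -/
theorem gam_far (q : ℝ) (hq : 0 < q) (hr0 : 0 ≤ r0)
    (h : r0 + 2 * t + |L 0| + ∑ y ∈ Tg, |y| < |x|) : gam μ s L r0 t Tg q x = 0 := by
  have h0 : ∀ η, gM μ s L r0 t Tg x 0 η = 0 := by
    intro η
    refine le_antisymm (mx_le.2 ⟨le_rfl, fun u hu => ?_⟩) (gM_nonneg η 0)
    have hu' := mem_iN.1 hu
    have hu0 : (0 : ℤ) ≤ u.1 := by
      have := hu'.1
      push_cast at this
      exact this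
    refine (Finset.sum_eq_zero fun y hy => ?_).le
    refine wt_eq_zero η fun h1 => ?_
    simp only at h1
    have h2 : |y| ≤ ∑ y ∈ Tg, |y| := Finset.single_le_sum (f := fun y => |y|) (fun _ _ => abs_nonneg _) hy
    have h3 := neg_abs_le y
    have h4 := le_abs_self y
    have h6 := neg_abs_le (L 0)
    have h7 := le_abs_self (L 0)
    have f1 := Ln.mono (L := L) hu0
    have f2 := Ln.lip (L := L) hu0
    rcases abs_cases x with h5 | h5
    · omega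
    · omega
  unfold gam
  simp only [h0, Real.zero_rpow hq.ne']
  simp

theorem gam_bdd (q : ℝ) (hq : 0 < q) (hr0 : 0 ≤ r0) : ∃ B : ℝ, 0 ≤ B ∧ ∀ x, gam μ s L r0 t Tg q x ≤ B := by
  refine ⟨∑ x ∈ Finset.Icc (-(r0 + 2 * t + |L 0| + ∑ y ∈ Tg, |y|)) (r0 + 2 * t + |L 0| + ∑ y ∈ Tg, |y|),
    gam μ s L r0 t Tg q x, Finset.sum_nonneg fun x _ => gam_nonneg q x, fun x => ?_⟩
  by_cases h : |x| ≤ r0 + 2 * t + |L 0| + ∑ y ∈ Tg, |y|
  · rw [abs_le] at h
    exact Finset.single_le_sum (f := fun x => gam μ s L r0 t Tg q x) (fun x _ => gam_nonneg q x)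
      (Finset.mem_Icc.2 h)
  · rw [gam_far q hq hr0 (not_le.1 h)]
    exact Finset.sum_nonneg fun x _ => gam_nonneg q x

/-- (EL), hypotheses for all centres. -/
theorem gam_main (hμ : Pool.Agent.W_7d29a1_h47.EM μ) (hr0 : 0 ≤ r0) (hrS : r0 < S) (Ξ : Finset ℤ)
    (hΞ : ∀ d : ℤ, -S ≤ d → d ≤ S → ∃ ξ ∈ Ξ, ξ - r0 ≤ d ∧ d ≤ ξ + r0) (hΞS : ∀ ξ ∈ Ξ, -S ≤ ξ ∧ ξ ≤ S)
    {b0 q p X1 X2 κ : ℝ} (hb0 : 0 < b0)
    (hq : 0 < q) (hq1 : q ≤ 1) (hp : ∀ x, (law μ).real {η | ∃ τ ≤ t, HE μ s L S r0 t b0 x τ η} ≤ p)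
    (hX1 : ∀ x, ∫ η, mB μ s L S x 0 t η ^ q ∂(law μ) ≤ X1)
    (hX2 : ∀ x, ∫ η, (oM μ s L S x t η * mB μ s L S x 0 t η) ^ (2 * q) ∂(law μ) ≤ X2)
    (hκ : 2 * (b0 * t) ^ q + Ξ.card * (p ^ (1 / 2 : ℝ) * X2 ^ (1 / 2 : ℝ)) ≤ κ) (hκ2 : κ ≤ 1 / 2) :
    ∀ (D : ℕ) (x : ℤ), (∀ y ∈ Tg, D * S ≤ |y - L t - x|) → gam μ s L r0 t Tg q x ≤ 2 * X1 * κ ^ D := by
  have hX10 : 0 ≤ X1 := (integral_nonneg fun η => Real.rpow_nonneg
    (zero_le_one.trans (one_le_mB η)) q).trans (hX1 0)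
  have hp0 : 0 ≤ p := measureReal_nonneg.trans (hp 0)
  have hX20 : 0 ≤ X2 := (integral_nonneg fun η => Real.rpow_nonneg
    (mul_nonneg ((Adm.oM t).2.1 η) (zero_le_one.trans (one_le_mB η))) _).trans (hX2 0)
  have hκ0 : 0 ≤ κ := le_trans (add_nonneg (mul_nonneg (by norm_num) (Real.rpow_nonneg
    (mul_nonneg hb0.le (Nat.cast_nonneg t)) q)) (mul_nonneg (Nat.cast_nonneg _)
      (mul_nonneg (Real.rpow_nonneg hp0 _) (Real.rpow_nonneg hX20 _)))) hκ
  have step : ∀ (x : ℤ) (G : ℝ), 0 ≤ G → (∀ x', |x' - x| ≤ S → gam μ s L r0 t Tg q x' ≤ G) →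
      gam μ s L r0 t Tg q x ≤ io (∃ y ∈ Tg, ((t : ℤ), y) ∈ stp L S x) * X1 + κ * G := by
    intro x G hG0 hG
    have h := gam_step (μ := μ) (s := s) (L := L) (x := x) (t := t) (Tg := Tg) hμ hr0 hrS Ξ hΞ hb0 hq hq1 (hp x)
      (hX1 x) (hX2 x) x rfl (G := G) (fun ξ hξ => hG _ (by
        rw [abs_le]
        have := hΞS ξ hξ
        constructor <;> omega)) (hG _ (by rw [abs_le]; constructor <;> omega))
      (hG _ (by rw [abs_le]; constructor <;> omega))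
    exact h.trans (add_le_add le_rfl (mul_le_mul_of_nonneg_right hκ hG0))
  obtain ⟨B, hB0, hB⟩ := gam_bdd (μ := μ) (s := s) (L := L) (r0 := r0) (t := t) (Tg := Tg) q hq hr0
  have h1 : ∀ n : ℕ, ∀ x, gam μ s L r0 t Tg q x ≤ 2 * X1 + B / 2 ^ n := by
    intro n
    induction n with
    | zero =>
      intro x
      have := hB x
      simp only [pow_zero, div_one]
      linarith
    | succ n ih =>
      intro x
      have h2 := step x (2 * X1 + B / 2 ^ n) (by positivity) fun x' _ => ih x'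
      have h3 : io (∃ y ∈ Tg, ((t : ℤ), y) ∈ stp L S x) * X1 ≤ 1 * X1 :=
        mul_le_mul_of_nonneg_right (io_le_one _) hX10
      have h4 : κ * (2 * X1 + B / 2 ^ n) ≤ 1 / 2 * (2 * X1 + B / 2 ^ n) :=
        mul_le_mul_of_nonneg_right hκ2 (by positivity)
      have h5 : B / 2 ^ (n + 1) = 1 / 2 * (B / 2 ^ n) := by
        rw [pow_succ]
        field_simp
      rw [h5]
      linarith
  have h2 : ∀ x, gam μ s L r0 t Tg q x ≤ 2 * X1 := by
    intro x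
    refine le_of_forall_pos_le_add fun ε hε => ?_
    obtain ⟨n, hn⟩ := pow_unbounded_of_one_lt (B / ε) (by norm_num : (1 : ℝ) < 2)
    refine (h1 n x).trans ?_
    have h3 : B / 2 ^ n ≤ ε := by
      rw [div_le_iff₀ (by positivity)]
      rw [div_lt_iff₀ hε] at hn
      linarith
    linarith
  intro D
  induction D with
  | zero =>
    intro x _
    simpa using h2 x
  | succ D ih =>
    intro x hx
    have h3 : ¬ ∃ y ∈ Tg, ((t : ℤ), y) ∈ stp L S x := by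
      rintro ⟨y, hy, hys⟩
      have h4 := hx y hy
      have h5 := mem_stp.1 hys
      simp only at h5
      have h6 : ((D : ℤ) + 1) * S ≤ |y - L t - x| := by exact_mod_cast h4
      have h7 : |y - L (t : ℤ) - x| < S := by
        rw [abs_lt]
        constructor <;> omega
      have hD : 0 ≤ (D : ℤ) * S := mul_nonneg (Int.natCast_nonneg D) (by omega)
      nlinarith
    have h4 := step x (2 * X1 * κ ^ D) (by positivity) fun x' hx' => ih x' fun y hy => by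
      have h5 := hx y hy
      have h6 : ((D : ℤ) + 1) * S ≤ |y - L t - x| := by exact_mod_cast h5
      have h7 : |y - L t - x| ≤ |y - L t - x'| + |x' - x| := by
        have := abs_add_le (y - L (t : ℤ) - x') (x' - x)
        have e : y - L (t : ℤ) - x' + (x' - x) = y - L t - x := by ring
        rw [e] at this
        exact this
      nlinarith
    rw [io_not h3, zero_mul, zero_add] at h4
    refine h4.trans (le_of_eq ?_)
    ring

end Pool.Agent.W_7d29a1_H.EL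

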