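import Pool.Agent.W_7d29a1_g.EL67I
import Pool.Agent.W_7d29a1_H.EL51H
import Pool.Agent.W_7d29a1_H.D7Ha66

/-!
MP_7d29a1_pr, TRACK H (all tilts), (EL): one scale, the probabilities as hypotheses, in the form which (D7) consumes (`GB66`).
(port of `EL67I` to a line `L` with steps `0`, `1`; helper66)
-/

set_option autoImplicit false

namespace Pool.Agent.W_7d29a1_H.EL

open Pool.Agent.W_7d29a1_F MeasureTheory ProbabilityTheory
open Pool.Agent.W_7d29a1_g.K67
open Pool.Agent.W_7d29a1_H (GB66 GB66_nonneg GB66_int)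

variable {μ : Measure ℝ} {s : ℝ} {L : ℤ → ℤ} [hLn : Ln L]

theorem GB_le66 (η : Env) {t w wq : ℕ} (hL0 : L 0 = 0) (hw : wq ≤ w) (y0 : ℤ) :
    GB66 μ s t wq y0 η ≤ mx 0 (iN L (w : ℤ) 0 0 t) fun u => ph μ s t (Finset.Ico y0 (y0 + wq)) η u := by
  unfold GB66
  refine Pool.Agent.W_7d29a1_h66.mx_le floor_le_mx fun a ha => ?_
  rw [Finset.mem_Ico] at ha
  have hw' : (wq : ℤ) ≤ w := by exact_mod_cast hw
  have h1 : ((0, a) : Pt) ∈ iN L (w : ℤ) 0 0 t := by
    rw [mem_iN]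
    refine ⟨by simp, by show (0 : ℤ) ≤ t; omega, ?_, ?_⟩
    · show L 0 + 0 - w ≤ a
      rw [hL0]
      omega
    · show a ≤ L 0 + 0 + w
      rw [hL0]
      omega
  refine le_trans (le_of_eq ?_) (le_mx (f := fun u => ph μ s t (Finset.Ico y0 (y0 + wq)) η u) h1)
  unfold ph
  have e : Finset.Ico y0 (y0 + wq) = (Finset.Ico (0 : ℤ) wq).map (addLeftEmbedding y0) := by
    rw [Finset.map_add_left_Ico, add_zero]
  rw [e, Finset.sum_map]
  refine Finset.sum_congr rfl fun b _ => ?_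
  unfold wt
  have h2 : ((0, a) : Pt).1 ≤ (((t : ℤ), addLeftEmbedding y0 b) : Pt).1 := by
    show (0 : ℤ) ≤ t
    omega
  rw [if_pos h2]
  have h3 : ((((t : ℤ), addLeftEmbedding y0 b) : Pt).1 - ((0, a) : Pt).1).toNat = t := by
    show ((t : ℤ) - 0).toNat = t
    omega
  have h4 : (((t : ℤ), addLeftEmbedding y0 b) : Pt).2 - ((0, a) : Pt).2 = y0 + b - a := by
    show y0 + b - a = _
    rfl
  rw [h3, h4]

omit hLn in
theorem GB_dist66 {t w wq : ℕ} (y0 : ℤ) (D : ℕ) (hD : D * (2 * w) ≤ (y0 - L t).natAbs - wq) :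
    ∀ y ∈ Finset.Ico y0 (y0 + wq), (D : ℤ) * (2 * w : ℤ) ≤ |y - L t| := by
  intro y hy
  rw [Finset.mem_Ico] at hy
  have hD' : (D : ℤ) * (2 * w : ℤ) ≤ (((y0 - L t).natAbs - wq : ℕ) : ℤ) := by exact_mod_cast hD
  refine hD'.trans ?_
  have h1 := le_abs_self (y - L t)
  have h2 := neg_le_abs (y - L t)
  have h3 : (0 : ℤ) ≤ |y - L t| := abs_nonneg _
  omega

variable [IsProbabilityMeasure μ]

/-- **(EL) in the form of D7, one scale.** -/
theorem el_GB (hμ : Pool.Agent.W_7d29a1_h47.EM μ) {t w wq : ℕ} {E K0 A p : ℝ} (hA : 1 ≤ A) (hE : 32 * A ≤ E)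
    (hK0 : 1 ≤ K0) (hL0 : L 0 = 0) (ht : 1 ≤ t) (hw : 1 ≤ w) (hw1 : w ≤ 2 * wq) (hw2 : wq ≤ w)
    (hhit : (law μ).real {η | Real.exp (K0 * E) ≤ mB μ s L (2 * w : ℤ) 0 0 t η} ≤ p)
    (hR : (law μ).real {η | CrR μ s L w (2 * w : ℤ) t (Real.exp (-((K0 + 7) * E))) 0 η} ≤ p)
    (hL : (law μ).real {η | CrL μ s L w (2 * w : ℤ) t (Real.exp (-((K0 + 7) * E))) 0 η} ≤ p)
    (hp : p ≤ Real.exp (-(64 * A * (K0 + 2)))) (htE : (t : ℝ) ≤ Real.exp E)
    (hoM : ∫ η, oM μ s L (2 * w : ℤ) 0 t η ∂(law μ) ≤ Real.exp E) (y0 : ℤ) :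
    ∫ η, GB66 μ s t wq y0 η ^ (4 * (A / E)) ∂(law μ) ≤ Real.exp (4 * ((K0 + 8) * A - |(y0 : ℝ) - L t| / wq)) := by
  classical
  have hE0 : 0 < E := by linarith
  obtain ⟨q, hq⟩ : ∃ q, q = 4 * (A / E) := ⟨_, rfl⟩
  have hq0 : 0 < q := by rw [hq]; positivity
  have hqE : q * E = 4 * A := by
    rw [hq]
    field_simp
  have h8q : 8 * q ≤ 1 := by
    have : 8 * q * E ≤ 1 * E := by
      rw [mul_assoc, hqE]
      linarith
    exact le_of_mul_le_mul_right this hE0
  rw [← hq]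
  have hp0 : 0 ≤ p := measureReal_nonneg.trans hhit
  have he1 : (2 : ℝ) ≤ Real.exp A := by
    have := Real.add_one_le_exp A
    linarith
  have he2 : (3 : ℝ) ≤ Real.exp (2 * A) := by
    have := Real.add_one_le_exp (2 * A)
    linarith
  have hoMA : Adm fun η => oM μ s L (2 * w : ℤ) 0 t η := Adm.oM t
  have hmBA : Adm fun η => mB μ s L (2 * w : ℤ) 0 0 t η := Adm.mB
  -- moments of the one step weights
  have hoMr : ∀ r : ℝ, 0 ≤ r → r ≤ 1 → ∫ η, oM μ s L (2 * w : ℤ) 0 t η ^ r ∂(law μ) ≤ Real.exp (E * r) := by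
    intro r hr hr1
    have := rpow_mom hμ hoMA (Real.exp_pos E) hr hr1 hoM
    rwa [exp_rpow'] at this
  -- moments of the largest weight inside the strip
  have hb1 : 1 < Real.exp (K0 * E) := Real.one_lt_exp_iff.2 (by positivity)
  have hmBr : ∀ r : ℝ, 0 ≤ r → r ≤ 4 * q →
      ∫ η, mB μ s L (2 * w : ℤ) 0 0 t η ^ r ∂(law μ) ≤ Real.exp (A + K0 * E * r) := by
    intro r hr hr1
    have h1 := mB_mom (μ := μ) (s := s) (S := (2 * w : ℤ)) (x := 0) hμ hb1 hr t hhit ?_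
    · refine h1.trans ?_
      rw [exp_rpow', Real.exp_add]
      exact mul_le_mul_of_nonneg_right he1 (Real.exp_pos _).le
    · rw [exp_rpow']
      have h2 : p ^ (1 / 2 : ℝ) ≤ Real.exp (-(32 * A * (K0 + 2))) := by
        refine (Real.rpow_le_rpow hp0 hp (by norm_num)).trans (le_of_eq ?_)
        rw [exp_rpow']
        congr 1
        ring
      have h3 : (∫ η, oM μ s L (2 * w : ℤ) 0 t η ^ (2 * r) ∂(law μ)) ^ (1 / 2 : ℝ) ≤ Real.exp (E * r) := by
        refine (Real.rpow_le_rpow (integral_nonneg fun η => Real.rpow_nonneg (hoMA.2.1 η) _)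
          (hoMr (2 * r) (by linarith) (by linarith)) (by norm_num)).trans (le_of_eq ?_)
        rw [exp_rpow']
        congr 1
        ring
      have h4 : E * r ≤ 16 * A := by
        have := mul_le_mul_of_nonneg_left hr1 hE0.le
        nlinarith
      have h5 : K0 * E * r ≤ 16 * A * K0 := by nlinarith
      calc Real.exp (K0 * E * r) * (p ^ (1 / 2 : ℝ) *
            (∫ η, oM μ s L (2 * w : ℤ) 0 t η ^ (2 * r) ∂(law μ)) ^ (1 / 2 : ℝ))
          ≤ Real.exp (K0 * E * r) * (Real.exp (-(32 * A * (K0 + 2))) * Real.exp (E * r)) := by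
            refine mul_le_mul_of_nonneg_left (mul_le_mul h2 h3 ?_ (Real.exp_pos _).le) (Real.exp_pos _).le
            exact Real.rpow_nonneg (integral_nonneg fun η => Real.rpow_nonneg (hoMA.2.1 η) _) _
        _ = Real.exp (K0 * E * r + (-(32 * A * (K0 + 2)) + E * r)) := by rw [← Real.exp_add, ← Real.exp_add]
        _ ≤ Real.exp (-A) := Real.exp_le_exp.2 (by nlinarith)
        _ ≤ 1 / 2 := by
            rw [Real.exp_neg, inv_le_comm₀ (Real.exp_pos _) (by norm_num)]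
            linarith
  have hX1 := hmBr q hq0.le (by linarith)
  have hX2 : ∫ η, (oM μ s L (2 * w : ℤ) 0 t η * mB μ s L (2 * w : ℤ) 0 0 t η) ^ (2 * q) ∂(law μ) ≤
      Real.exp (9 * A + 8 * A * K0) := by
    have h1 : ∀ η, (oM μ s L (2 * w : ℤ) 0 t η * mB μ s L (2 * w : ℤ) 0 0 t η) ^ (2 * q) =
        oM μ s L (2 * w : ℤ) 0 t η ^ (2 * q) * mB μ s L (2 * w : ℤ) 0 0 t η ^ (2 * q) := fun η =>
      Real.mul_rpow (hoMA.2.1 η) (hmBA.2.1 η)
    simp only [h1]
    have h2 := cs_le hμ (hoMA.rpow (q := 2 * q) (by linarith)) (hmBA.rpow (q := 2 * q) (by linarith))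
    have e1 : ∀ η, (oM μ s L (2 * w : ℤ) 0 t η ^ (2 * q)) ^ (2 : ℝ) = oM μ s L (2 * w : ℤ) 0 t η ^ (4 * q) := fun η => by
      rw [← Real.rpow_mul (hoMA.2.1 η)]
      congr 1
      ring
    have e2 : ∀ η, (mB μ s L (2 * w : ℤ) 0 0 t η ^ (2 * q)) ^ (2 : ℝ) = mB μ s L (2 * w : ℤ) 0 0 t η ^ (4 * q) :=
      fun η => by
        rw [← Real.rpow_mul (hmBA.2.1 η)]
        congr 1
        ring
    simp only [e1, e2] at h2
    refine h2.trans ?_
    have h3 : (∫ η, oM μ s L (2 * w : ℤ) 0 t η ^ (4 * q) ∂(law μ)) ^ (1 / 2 : ℝ) ≤ Real.exp (8 * A) := by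
      refine (Real.rpow_le_rpow (integral_nonneg fun η => Real.rpow_nonneg (hoMA.2.1 η) _)
        (hoMr (4 * q) (by linarith) (by linarith)) (by norm_num)).trans (le_of_eq ?_)
      rw [exp_rpow']
      congr 1
      linear_combination 2 * hqE
    have h4 : (∫ η, mB μ s L (2 * w : ℤ) 0 0 t η ^ (4 * q) ∂(law μ)) ^ (1 / 2 : ℝ) ≤
        Real.exp (A / 2 + 8 * A * K0) := by
      refine (Real.rpow_le_rpow (integral_nonneg fun η => Real.rpow_nonneg (hmBA.2.1 η) _)
        (hmBr (4 * q) (by linarith) le_rfl) (by norm_num)).trans (le_of_eq ?_)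
      rw [exp_rpow']
      congr 1
      linear_combination 2 * K0 * hqE
    calc _ ≤ Real.exp (8 * A) * Real.exp (A / 2 + 8 * A * K0) := by
          refine mul_le_mul h3 h4 ?_ (Real.exp_pos _).le
          exact Real.rpow_nonneg (integral_nonneg fun η => Real.rpow_nonneg (hmBA.2.1 η) _) _
      _ = Real.exp (8 * A + (A / 2 + 8 * A * K0)) := (Real.exp_add _ _).symm
      _ ≤ _ := Real.exp_le_exp.2 (by linarith)
  -- the number of steps
  obtain ⟨D, hDdef⟩ : ∃ D, D = ((y0 - L t).natAbs - wq) / (2 * w) := ⟨_, rfl⟩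
  have hD1 : D * (2 * w) ≤ (y0 - L t).natAbs - wq := by
    rw [hDdef]
    exact Nat.div_mul_le_self _ _
  have hD2 : (y0 - L t).natAbs ≤ (4 * D + 5) * wq := by
    have h1 : (y0 - L t).natAbs - wq < (D + 1) * (2 * w) := by
      rw [hDdef]
      have := Nat.lt_div_mul_add (a := (y0 - L t).natAbs - wq) (b := 2 * w) (by omega)
      linarith
    have h2 : (D + 1) * (2 * w) ≤ (D + 1) * (2 * (2 * wq)) := Nat.mul_le_mul_left _ (Nat.mul_le_mul_left _ hw1)
    have h3 : (4 * D + 5) * wq = (D + 1) * (2 * (2 * wq)) + wq := by ring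
    omega
  have hκ : 2 * (t * (Real.exp (K0 * E) * Real.exp (-((K0 + 7) * E))) * t) ^ q +
      (({-(2 * w : ℤ), 0, (2 * w : ℤ)} : Finset ℤ).card : ℝ) *
        ((3 * p) ^ (1 / 2 : ℝ) * (Real.exp (9 * A + 8 * A * K0)) ^ (1 / 2 : ℝ)) ≤ Real.exp (-(16 * A)) := by
    have h1 : (t * (Real.exp (K0 * E) * Real.exp (-((K0 + 7) * E))) * t) ^ q ≤ Real.exp (-(20 * A)) := by
      have h2 : (t : ℝ) * (Real.exp (K0 * E) * Real.exp (-((K0 + 7) * E))) * t ≤ Real.exp (-(5 * E)) := by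
        calc (t : ℝ) * (Real.exp (K0 * E) * Real.exp (-((K0 + 7) * E))) * t
            ≤ Real.exp E * (Real.exp (K0 * E) * Real.exp (-((K0 + 7) * E))) * Real.exp E := by
              gcongr
          _ = Real.exp (-(5 * E)) := by
              rw [← Real.exp_add, ← Real.exp_add, ← Real.exp_add]
              congr 1
              ring
      refine (Real.rpow_le_rpow (by positivity) h2 hq0.le).trans (le_of_eq ?_)
      rw [exp_rpow']
      congr 1
      linear_combination -5 * hqE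
    have h3 : (3 * p) ^ (1 / 2 : ℝ) ≤ Real.exp (A - 32 * A * (K0 + 2)) := by
      have h4 : 3 * p ≤ Real.exp (2 * A + -(64 * A * (K0 + 2))) := by
        rw [Real.exp_add]
        exact mul_le_mul he2 hp hp0 (Real.exp_pos _).le
      refine (Real.rpow_le_rpow (by positivity) h4 (by norm_num)).trans (le_of_eq ?_)
      rw [exp_rpow']
      congr 1
      ring
    have h5 : (Real.exp (9 * A + 8 * A * K0)) ^ (1 / 2 : ℝ) = Real.exp (9 * A / 2 + 4 * A * K0) := by
      rw [exp_rpow']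
      congr 1
      ring
    have h6 : (({-(2 * w : ℤ), 0, (2 * w : ℤ)} : Finset ℤ).card : ℝ) ≤ Real.exp (2 * A) := by
      have : (({-(2 * w : ℤ), 0, (2 * w : ℤ)} : Finset ℤ).card : ℝ) ≤ 3 := by
        exact_mod_cast Finset.card_le_three
      linarith
    rw [h5]
    have h7 : (({-(2 * w : ℤ), 0, (2 * w : ℤ)} : Finset ℤ).card : ℝ) *
        ((3 * p) ^ (1 / 2 : ℝ) * Real.exp (9 * A / 2 + 4 * A * K0)) ≤ Real.exp (-(20 * A)) := by
      calc _ ≤ Real.exp (2 * A) * (Real.exp (A - 32 * A * (K0 + 2)) * Real.exp (9 * A / 2 + 4 * A * K0)) := by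
            refine mul_le_mul h6 (mul_le_mul_of_nonneg_right h3 (Real.exp_pos _).le) ?_ (Real.exp_pos _).le
            exact mul_nonneg (Real.rpow_nonneg (by positivity) _) (Real.exp_pos _).le
        _ = Real.exp (2 * A + (A - 32 * A * (K0 + 2) + (9 * A / 2 + 4 * A * K0))) := by
            rw [← Real.exp_add, ← Real.exp_add]
        _ ≤ _ := Real.exp_le_exp.2 (by nlinarith)
    have h8 : Real.exp (-(20 * A)) = Real.exp (-(16 * A)) * Real.exp (-(4 * A)) := by
      rw [← Real.exp_add]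
      congr 1
      ring
    have h9 : Real.exp (-(4 * A)) ≤ 1 / 3 := by
      rw [Real.exp_neg, inv_le_comm₀ (Real.exp_pos _) (by norm_num)]
      have := Real.add_one_le_exp (4 * A)
      linarith
    have h10 := Real.exp_pos (-(16 * A))
    nlinarith
  have h := el (μ := μ) (s := s) (L := L) hμ (r0 := (w : ℤ)) (S := (2 * w : ℤ)) (t := t) (by omega) (by omega)
    {-(2 * w : ℤ), 0, (2 * w : ℤ)} (by
      intro d h1 h2
      rcases le_or_gt d (-(w : ℤ)) with h3 | h3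
      · exact ⟨-(2 * w : ℤ), by simp, by omega, by omega⟩
      · rcases le_or_gt d (w : ℤ) with h4 | h4
        · exact ⟨0, by simp, by omega, by omega⟩
        · exact ⟨(2 * w : ℤ), by simp, by omega, by omega⟩) (by
      intro ξ hξ
      rw [Finset.mem_insert, Finset.mem_insert, Finset.mem_singleton] at hξ
      omega) (b := Real.exp (K0 * E)) (c := Real.exp (-((K0 + 7) * E))) (q := q) (p := p)
    (X1 := Real.exp (A + K0 * E * q)) (X2 := Real.exp (9 * A + 8 * A * K0)) (κ := Real.exp (-(16 * A)))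
    (Real.exp_pos _) (Real.exp_pos _) hq0 (by linarith) hhit hR hL hX1 hX2 hκ (by
      rw [Real.exp_neg, inv_le_comm₀ (Real.exp_pos _) (by norm_num)]
      have := Real.add_one_le_exp (16 * A)
      linarith) ht (Finset.Ico y0 (y0 + wq)) D (GB_dist66 y0 D hD1)
  have hG : ∫ η, GB66 μ s t wq y0 η ^ q ∂(law μ) ≤
      ∫ η, (mx 0 (iN L (w : ℤ) 0 0 t) fun u => ph μ s t (Finset.Ico y0 (y0 + wq)) η u) ^ q ∂(law μ) := by
    have hA' : Adm fun η => mx 0 (iN L (w : ℤ) 0 0 t) fun u => ph μ s t (Finset.Ico y0 (y0 + wq)) η u :=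
      Adm.mx le_rfl fun u _ => Adm.ph _ _ _
    refine integral_mono (GB66_int hμ t wq y0 hq0) ((hA'.rpow hq0.le).integrable hμ) fun η => ?_
    exact Real.rpow_le_rpow (GB66_nonneg _ _ _ _) (GB_le66 η hL0 hw2 y0) hq0.le
  refine (hG.trans h).trans ?_
  have hwq : (0 : ℝ) < wq := by
    have : 0 < wq := by omega
    exact_mod_cast this
  have hkD : |(y0 : ℝ) - L t| / wq ≤ 4 * D + 5 := by
    have h1 : |(y0 : ℝ) - L t| = ((y0 - L t).natAbs : ℝ) := by
      rw [Nat.cast_natAbs, Int.cast_abs]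
      push_cast
      rfl
    rw [h1, div_le_iff₀ hwq]
    exact_mod_cast hD2
  have hpow : Real.exp (-(16 * A)) ^ D = Real.exp (-(16 * A) * D) := by
    rw [← Real.exp_nat_mul]
    congr 1
    ring
  rw [hpow]
  have hK : K0 * E * q = 4 * A * K0 := by linear_combination K0 * hqE
  rw [hK]
  calc 2 * Real.exp (A + 4 * A * K0) * Real.exp (-(16 * A) * D)
      ≤ Real.exp A * Real.exp (A + 4 * A * K0) * Real.exp (-(16 * A) * D) := by gcongr
    _ = Real.exp (A + (A + 4 * A * K0) + -(16 * A) * D) := by rw [← Real.exp_add, ← Real.exp_add]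
    _ ≤ _ := by
        refine Real.exp_le_exp.2 ?_
        have h1 : (0 : ℝ) ≤ D := Nat.cast_nonneg D
        have h2 : (D : ℝ) ≤ A * D := le_mul_of_one_le_left h1 hA
        nlinarith

end Pool.Agent.W_7d29a1_H.EL
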