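import Pool.Agent.W_7d29a1_H.EdDefs7
import Pool.Agent.W_7d29a1_H.MirH52

/-!
MP_7d29a1_pr, TRACK H (all tilts), section EDGES: the mirror of the inputs. `ChI` names the cheapest displacement and is not invariant
under the mirror; the edges need only the weaker `ChJ`, which is. (helper11)
-/

set_option autoImplicit false

namespace Pool.Agent.W_7d29a1_H

open MeasureTheory ProbabilityTheory Set
open Pool.Agent.W_7d29a1_F Pool.Agent.W_7d29a1_h4g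

noncomputable section

/-- (CHEAP) without the cheapest displacement: for every duration `m` an interval of cheap displacements whose length is comparable with
the width. -/
def ChJ (a : ℝ) (μ : Measure ℝ) (A : Set ℝ) (c0 C' : ℝ) : Prop :=
  ∀ s ∈ A, ∀ m : ℕ, 1 ≤ m → ∃ lo hi : ℤ, 0 ≤ lo ∧ lo ≤ hi ∧ hi ≤ m ∧ c0 * wH a μ s m - 1 ≤ (hi : ℝ) - lo ∧
    ∀ y : ℤ, lo ≤ y → y ≤ hi → e μ s m y ≤ C' * EE μ s m ∧ |(y : ℝ) - sl μ s * m| ≤ 2 * wH a μ s m + 1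

theorem ChI.chJ {a : ℝ} {μ : Measure ℝ} {A : Set ℝ} {c0 C' : ℝ} (h : ChI a μ A c0 C') : ChJ a μ A c0 C' := by
  intro s hs m hm
  obtain ⟨lo, hi, h0, h1, h2, h3, h4, h5⟩ := h s hs m hm
  exact ⟨lo, hi, h0, h1.trans h2, h3, h4, h5⟩

theorem CheapH.chJ {a : ℝ} {μ : Measure ℝ} {A : Set ℝ} (h : CheapH a μ A) : ∃ c0 C' : ℝ, 0 < c0 ∧ ChJ a μ A c0 C' := by
  obtain ⟨c0, C', h0, h1⟩ := h.chI
  exact ⟨c0, C', h0, h1.chJ⟩

variable {μ : Measure ℝ} [IsProbabilityMeasure μ] {A : Set ℝ}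

theorem ChJ.mir (hEM : Pool.Agent.W_7d29a1_h47.EM μ) (hnd : Pool.Agent.W_7d29a1_h47.Nondeg μ) {a c0 C' : ℝ}
    (h : ChJ a μ A c0 C') : ChJ a μ (ng A) c0 C' := by
  intro s hs m hm
  obtain ⟨lo, hi, h0, h1, h2, h3, h4⟩ := h (-s) hs m hm
  rw [wH_mir hEM s hnd] at h3
  refine ⟨m - hi, m - lo, by omega, by omega, by omega, ?_, fun y hy1 hy2 => ?_⟩
  · push_cast
    linarith
  · obtain ⟨h5, h6⟩ := h4 (m - y) (by omega) (by omega)
    rw [e_mir hEM, EE_mir hEM] at h5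
    rw [wH_mir hEM s hnd, sl_mir hEM s hnd] at h6
    refine ⟨h5, le_trans (le_of_eq ?_) h6⟩
    rw [← abs_neg]
    congr 1
    push_cast
    ring

theorem TlH.mir (hEM : Pool.Agent.W_7d29a1_h47.EM μ) {H : ℕ} {t0 C1 : ℝ} {n0 : ℕ} (h : TlH μ A H t0 C1 n0) :
    TlH μ (ng A) H t0 C1 n0 := by
  intro s hs n hn N hN th hth hth2 z hz0 hz1
  have h1 := h (-s) hs n hn N hN th hth (by rwa [EE_mir hEM]) (N - z) (by omega) (by omega)
  rw [e_mir hEM] at h1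
  refine (le_of_eq ?_).trans h1
  rw [← integral_mir (μ := μ)]
  refine integral_congr_ae (Filter.Eventually.of_forall fun η => ?_)
  show W μ s (Pool.Agent.W_7d29a1_H.mir η) 0 N z ^ th = W μ (-s) η 0 N (N - z) ^ th
  have h2 := W_mir hEM s (Pool.Agent.W_7d29a1_H.mir η) 0 N z
  rw [mir_mir, phiM_zero] at h2
  rw [h2]

end

end Pool.Agent.W_7d29a1_H
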