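import Pool.Agent.W_7d29a1_H.EdChJ11
import Pool.Agent.W_7d29a1_H.WidthH
import Pool.Agent.W_7d29a1_h75g.WallIn

/-!
MP_7d29a1_pr, TRACK H (all tilts), section EDGES: THE RIGHT EDGE OF THE SCALE `n`. From the right widths, the cheap intervals of the
connections, and the tails of the costs, to the hypotheses `EdgeHyp` of the edge at one scale; the right edge is not decaying (`not_DecH`).
(helper7)
-/

set_option autoImplicit false

namespace Pool.Agent.W_7d29a1_H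

open MeasureTheory ProbabilityTheory Set
open Pool.Agent.W_7d29a1_F Pool.Agent.W_7d29a1_h4g
open Pool.Agent.W_7d29a1_h47 (EM Nondeg)
open Pool.Agent.W_7d29a1_h75g (EdgeHyp)
open Pool.Agent.W_1b8d5d_p (wR wL wd Rf)

noncomputable section

variable {μ : Measure ℝ} [IsProbabilityMeasure μ] {H δ : ℝ} {A : Set ℝ} {s : ℝ}

/-! ### The means -/

theorem e_tilt7 (hμ : EM μ) (s r : ℝ) {n : ℕ} {y : ℤ} (h0 : 0 ≤ y) (h1 : y ≤ n) :
    e μ (s + r) n y = e μ s n y + n * (lam μ (s + r) - lam μ s) - r * y := by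
  have e1 : ∀ η : Env, X μ (s + r) η 0 n y = X μ s η 0 n y + (n * (lam μ (s + r) - lam μ s) - r * y) := by
    intro η
    have h2 := W_pos (μ := μ) (s := s) η 0 h0 h1
    have h3 : W μ (s + r) η 0 n y = Real.exp (r * y - n * (lam μ (s + r) - lam μ s)) * W μ s η 0 n y := by
      unfold W WR
      rw [← mul_assoc, ← Real.exp_add]
      congr 2
      ring
    unfold X
    rw [h3, Real.log_mul (Real.exp_pos _).ne' h2.ne', Real.log_exp]
    ring
  rw [← integral_X (μ := μ) (s := s + r) 0 n y, ← integral_X (μ := μ) (s := s) 0 n y]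
  simp only [e1]
  rw [integral_add ((Sub_X (μ := μ) (s := s) 0 h0 h1).integrable hμ) (integrable_const _)]
  simp only [integral_const, probReal_univ, smul_eq_mul, one_mul]
  ring

/-- The means lie above the rate function. -/
theorem e_ge7 (hμ : EM μ) {n : ℕ} (hn : 1 ≤ n) {y : ℤ} (h0 : 0 ≤ y) (h1 : y ≤ n) :
    n * J μ s (y / n - sl μ s) ≤ e μ s n y := by
  have hn0 : (0 : ℝ) < n := by exact_mod_cast hn
  have h2 : J μ s (y / n - sl μ s) ≤ e μ s n y / n := by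
    refine J_le fun r _ => ?_
    rw [le_div_iff₀ hn0]
    have h3 := e_tilt7 hμ s r h0 h1
    have h4 := e_nonneg hμ (s + r) h0 h1
    have h5 : (r * ((y : ℝ) / n - sl μ s) - ex μ s r) * n = r * y - n * (lam μ (s + r) - lam μ s) := by
      unfold ex
      field_simp
      ring
    rw [h5]
    linarith
  rw [le_div_iff₀ hn0] at h2
  linarith

/-! ### The edge -/

/-- The thickness of the edge is positive. -/
theorem ed_pos7 (hD : Dirs μ H δ A) (hs : s ∈ A) {A0 A1 : ℝ} (h0 : 0 ≤ A0) (h01 : A0 < A1) {n : ℕ} (hn : 1 ≤ n) :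
    0 < vr A1 μ s n - vr A0 μ s n := by
  have h1 := hD.J_vr hs h0 hn
  have h2 := hD.J_vr hs (h0.trans h01.le) hn
  have h3 := J_lip hD.em hD.nd s (vr A1 μ s n) (vr A0 μ s n)
  have hn0 : (0 : ℝ) < n := by exact_mod_cast hn
  have hE : 0 < EE μ s n := EE_pos n
  have h4 : vr A0 μ s n ≤ vr A1 μ s n := by
    refine (hD.rf hs).wR_mono (lev_nonneg h0) ?_
    exact div_le_div_of_nonneg_right (mul_le_mul_of_nonneg_right h01.le hE.le) hn0.le
  rw [abs_of_nonneg (sub_nonneg.2 h4)] at h3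
  have h5 : (A1 - A0) * EE μ s n ≤ n * (vr A1 μ s n - vr A0 μ s n) := by
    have h6 := mul_le_mul_of_nonneg_left h3 hn0.le
    nlinarith
  have h6 : 0 < (A1 - A0) * EE μ s n := mul_pos (sub_pos.2 h01) hE
  by_contra hcon
  rw [not_lt] at hcon
  have := mul_nonpos_of_nonneg_of_nonpos hn0.le hcon
  linarith

/-- The means outside of the right edge. -/
theorem ed_out7 (hD : Dirs μ H δ A) (hs : s ∈ A) {A0 A1 : ℝ} (h0 : 0 ≤ A0) (h01 : A0 < A1) {n N0 : ℕ} (hn : 1 ≤ n)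
    (hN : n ≤ N0) {ρ w : ℝ} (hρ : 0 ≤ ρ) (hw : 0 ≤ w) {z : ℤ} (hz0 : 0 ≤ z) (hzN : z ≤ N0)
    (hz : ρ * w ≤ z - (sl μ s + vr A1 μ s n) * N0) :
    (A1 + ρ * (w / (n * (vr A1 μ s n - vr A0 μ s n))) * (A1 - A0)) * EE μ s n ≤ e μ s N0 z := by
  have hgap := ed_pos7 hD hs h0 h01 hn
  have hJ1 := hD.J_vr hs (h0.trans h01.le) hn
  have hJ0 := hD.J_vr hs h0 hn
  obtain ⟨v1, hv1⟩ : ∃ v1, v1 = vr A1 μ s n := ⟨_, rfl⟩
  obtain ⟨v0, hv0⟩ : ∃ v0, v0 = vr A0 μ s n := ⟨_, rfl⟩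
  have hn0 : (0 : ℝ) < n := by exact_mod_cast hn
  have hN1 : 1 ≤ N0 := hn.trans hN
  have hN0 : (0 : ℝ) < N0 := by exact_mod_cast hN1
  have hnN : (n : ℝ) ≤ N0 := by exact_mod_cast hN
  rw [← hv1, ← hv0] at hgap ⊢
  rw [← hv1] at hz hJ1
  rw [← hv0] at hJ0
  have hE : 0 < EE μ s n := EE_pos n
  have hom : 0 < n * (v1 - v0) := mul_pos hn0 hgap
  -- the excess slope
  obtain ⟨x, hx⟩ : ∃ x, x = ((z : ℝ) / N0 - sl μ s) - v1 := ⟨_, rfl⟩
  have hx1 : ρ * w / N0 ≤ x := by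
    rw [div_le_iff₀ hN0, hx]
    have e1 : ((z : ℝ) / N0 - sl μ s - v1) * N0 = z - (sl μ s + v1) * N0 := by
      field_simp
      ring
    rw [e1]
    exact hz
  have hx0 : 0 ≤ x := le_trans (div_nonneg (mul_nonneg hρ hw) hN0.le) hx1
  have hJx : A1 * EE μ s n + x / (v1 - v0) * ((A1 - A0) * EE μ s n) ≤ n * J μ s (v1 + x) := by
    have hden : 0 < (v1 - v0) + x := by linarith
    have ha1 : 0 ≤ x / ((v1 - v0) + x) := div_nonneg hx0 hden.le
    have ha2 : 0 ≤ (v1 - v0) / ((v1 - v0) + x) := div_nonneg hgap.le hden.le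
    have ha3 : x / ((v1 - v0) + x) + (v1 - v0) / ((v1 - v0) + x) = 1 := by
      field_simp
      ring
    have hc := (J_convex hD.em hD.nd s).2 (mem_univ v0) (mem_univ (v1 + x)) ha1 ha2 ha3
    simp only [smul_eq_mul] at hc
    have e3 : x / ((v1 - v0) + x) * v0 + (v1 - v0) / ((v1 - v0) + x) * (v1 + x) = v1 := by
      field_simp
      ring
    rw [e3] at hc
    have h5 := mul_le_mul_of_nonneg_left (mul_le_mul_of_nonneg_right hc hden.le) hn0.le
    have e4 : n * ((x / ((v1 - v0) + x) * J μ s v0 + (v1 - v0) / ((v1 - v0) + x) * J μ s (v1 + x)) *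
        ((v1 - v0) + x)) = x * (n * J μ s v0) + (v1 - v0) * (n * J μ s (v1 + x)) := by
      field_simp
    have e5 : n * (J μ s v1 * ((v1 - v0) + x)) = (n * J μ s v1) * ((v1 - v0) + x) := by ring
    rw [e4, e5, hJ1, hJ0] at h5
    have h6 : (v1 - v0) * (A1 * EE μ s n + x / (v1 - v0) * ((A1 - A0) * EE μ s n)) ≤
        (v1 - v0) * (n * J μ s (v1 + x)) := by
      have e6 : (v1 - v0) * (A1 * EE μ s n + x / (v1 - v0) * ((A1 - A0) * EE μ s n)) =
          (v1 - v0) * (A1 * EE μ s n) + x * ((A1 - A0) * EE μ s n) := by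
        field_simp
      rw [e6]
      linarith
    exact le_of_mul_le_mul_left h6 hgap
  have he := e_ge7 (s := s) hD.em hN1 hz0 hzN
  have e7 : (z : ℝ) / N0 - sl μ s = v1 + x := by
    rw [hx]
    ring
  rw [e7] at he
  refine le_trans ?_ he
  have h7 : (n : ℝ) * J μ s (v1 + x) + (N0 - n) * J μ s (v1 + x) = N0 * J μ s (v1 + x) := by ring
  rw [← h7]
  -- the part of the time beyond `n`
  have h8 : ρ * (w / (n * (v1 - v0))) * (A1 - A0) * EE μ s n ≤ N0 / n * (x / (v1 - v0) * ((A1 - A0) * EE μ s n)) := by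
    have e9 : ρ * (w / (n * (v1 - v0))) * (A1 - A0) * EE μ s n =
        (ρ * w) * ((A1 - A0) * EE μ s n / (n * (v1 - v0))) := by
      field_simp
    have e10 : (N0 : ℝ) / n * (x / (v1 - v0) * ((A1 - A0) * EE μ s n)) =
        (N0 * x) * ((A1 - A0) * EE μ s n / (n * (v1 - v0))) := by
      field_simp
    rw [e9, e10]
    refine mul_le_mul_of_nonneg_right ?_ ?_
    · rw [div_le_iff₀ hN0] at hx1
      linarith
    · exact div_nonneg (mul_nonneg (sub_nonneg.2 h01.le) hE.le) hom.le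
  have h9 : N0 / n * (A1 * EE μ s n + x / (v1 - v0) * ((A1 - A0) * EE μ s n)) ≤
      n * J μ s (v1 + x) + (N0 - n) * J μ s (v1 + x) := by
    rw [h7]
    have h10 := mul_le_mul_of_nonneg_left hJx (show 0 ≤ (N0 : ℝ) / n by positivity)
    have e11 : (N0 : ℝ) / n * (n * J μ s (v1 + x)) = N0 * J μ s (v1 + x) := by
      field_simp
    rw [e11] at h10
    exact h10
  refine le_trans ?_ h9
  have h10 : A1 * EE μ s n ≤ N0 / n * (A1 * EE μ s n) := by
    have h11 : (1 : ℝ) ≤ N0 / n := by rw [one_le_div hn0]; exact hnN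
    have h12 : 0 ≤ A1 * EE μ s n := mul_nonneg (h0.trans h01.le) hE.le
    nlinarith
  rw [add_mul, mul_add]
  exact add_le_add h10 h8

/-- The means outside of the right edge, in the form of the field `out` of `EdgeHyp`. -/
theorem ed_out7' (hD : Dirs μ H δ A) (hs : s ∈ A) {A0 A1 : ℝ} (h0 : 0 ≤ A0) (h01 : A0 < A1) {n N0 : ℕ} (hn : 1 ≤ n)
    (hN : n ≤ N0) {ρ w : ℝ} (hρ : 0 ≤ ρ) {c c2 : ℝ} (hc : 0 ≤ c) (hc2 : 0 ≤ c2)
    (hw : c2 * (n * (vr A1 μ s n - vr A0 μ s n)) ≤ w) {z : ℤ} (hz0 : 0 ≤ z) (hzN : z ≤ N0)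
    (hz : ρ * w ≤ z - (sl μ s + vr A1 μ s n) * N0) :
    c * (A1 - A0) * c2 * ρ ≤ c / EE μ s n * e μ s N0 z := by
  have hn0 : (0 : ℝ) < n := by exact_mod_cast hn
  have hom : 0 < n * (vr A1 μ s n - vr A0 μ s n) := mul_pos hn0 (ed_pos7 hD hs h0 h01 hn)
  have hw0 : 0 ≤ w := (mul_nonneg hc2 hom.le).trans hw
  have h1 := ed_out7 hD hs h0 h01 hn hN hρ hw0 hz0 hzN hz
  have hE : 0 < EE μ s n := EE_pos n
  have h2 : c2 ≤ w / (n * (vr A1 μ s n - vr A0 μ s n)) := (le_div_iff₀ hom).2 hw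
  have h3 : (A1 - A0) * c2 * ρ ≤ A1 + ρ * (w / (n * (vr A1 μ s n - vr A0 μ s n))) * (A1 - A0) := by
    have h4 : ρ * c2 ≤ ρ * (w / (n * (vr A1 μ s n - vr A0 μ s n))) := mul_le_mul_of_nonneg_left h2 hρ
    have h5 := mul_le_mul_of_nonneg_right h4 (sub_nonneg.2 h01.le)
    have h6 : 0 ≤ A1 := h0.trans h01.le
    linarith
  calc c * (A1 - A0) * c2 * ρ = c * ((A1 - A0) * c2 * ρ) := by ring
    _ ≤ c * (e μ s N0 z / EE μ s n) := by
        refine mul_le_mul_of_nonneg_left ?_ hc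
        rw [le_div_iff₀ hE]
        exact (mul_le_mul_of_nonneg_right h3 hE.le).trans h1
    _ = _ := by ring

/-- **The right edge of the scale `n`.** -/
theorem edge_dataH (hD : Dirs μ H δ A) {a A0 A1 : ℝ} (ha : 0 < a) (haA : a ≤ A0) (hAA : A0 < A1) (K : ℕ)
    {c2 Cf CS : ℝ} (hc2 : 0 < c2) (hCf : 0 ≤ Cf) (hCS : 0 ≤ CS) {c0 C' : ℝ}
    (hc0 : 0 < c0) (hch : ChJ a μ A c0 C') {t0 C1 : ℝ} (ht0 : 0 < t0) {n0 : ℕ} (htl : TlH μ A K t0 C1 n0) :
    ∃ De ks cth : ℝ, 0 < De ∧ 0 ≤ ks ∧ 0 < cth ∧ cth ≤ 1 ∧ ∀ s ∈ A, ∀ n : ℕ, n0 ≤ n → 1 ≤ n →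
      ∀ w S L' : ℕ, EdG μ s a A0 A1 c0 c2 Cf CS K n w S L' →
      ∃ y0 : ℤ, EdgeHyp μ s (cth / EE μ s n) (sl μ s + vr A1 μ s n) ks De C1 w S L' y0 := by
  have hA1' : 0 < A1 := by linarith
  obtain ⟨cth, hcth⟩ : ∃ cth : ℝ, cth = min t0 (min (1 / max C' 1) 1) := ⟨_, rfl⟩
  have hmx : (0 : ℝ) < max C' 1 := lt_max_of_lt_right one_pos
  have hcth0 : 0 < cth := by
    rw [hcth]
    exact lt_min ht0 (lt_min (by positivity) one_pos)
  have hcth1 : cth ≤ t0 := by rw [hcth]; exact min_le_left _ _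
  have hcth2 : cth * C' ≤ 1 := by
    have h1 : cth ≤ 1 / max C' 1 := by rw [hcth]; exact (min_le_right _ _).trans (min_le_left _ _)
    rw [le_div_iff₀ hmx] at h1
    exact (mul_le_mul_of_nonneg_left (le_max_left _ _) hcth0.le).trans h1
  have hcth3 : cth ≤ 1 := by rw [hcth]; exact (min_le_right _ _).trans (min_le_right _ _)
  obtain ⟨ks, hks⟩ : ∃ ks : ℝ, ks = 4 * Cf * CS + 4 + 2 * (A1 / a) * CS := ⟨_, rfl⟩
  refine ⟨cth * (A1 - A0) * c2, ks, cth, mul_pos (mul_pos hcth0 (sub_pos.2 hAA)) hc2, by rw [hks]; positivity, hcth0, hcth3,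
    ?_⟩
  intro s hs n hn0 hn w S L' G
  have hE : 0 < EE μ s n := EE_pos n
  have hE1 : 1 ≤ EE μ s n := one_le_EE n
  have hn' : (0 : ℝ) < n := by exact_mod_cast hn
  have hw' : (1 : ℝ) ≤ w := by exact_mod_cast G.w1
  have hS' : (1 : ℝ) ≤ S := by exact_mod_cast G.S1
  have hth : 0 < cth / EE μ s n := by positivity
  obtain ⟨lo, hi, hlo0, hlh, hhiS, hlen, hin⟩ := hch s hs S G.S1
  have hvn := hD.vA_le_two hs ha.le G.S1 G.Sn
  have hwh : (w : ℝ) + 1 ≤ (hi : ℝ) - lo := by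
    have h1 : c0 * (S * vA a μ s n) ≤ c0 * (S * (2 * vA a μ s S)) :=
      mul_le_mul_of_nonneg_left (mul_le_mul_of_nonneg_left hvn (by positivity)) hc0.le
    have h2 := G.room
    unfold wH at hlen
    linarith
  refine ⟨lo, hth, ?_, G.w1, G.L1, ?_, ?_, ?_, ?_⟩
  · rw [div_le_one hE]
    linarith
  · -- con
    intro r hr0 hrw
    have hy3 : lo + r ≤ hi := by
      have h1 : (r : ℝ) < w := by exact_mod_cast hrw
      have h2 : ((lo + r : ℤ) : ℝ) ≤ hi := by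
        push_cast
        linarith
      exact_mod_cast h2
    refine ⟨by omega, hy3.trans hhiS, ?_⟩
    have h1 := (hin (lo + r) (by omega) hy3).1
    have h2 : EE μ s S ≤ EE μ s n := EE_mono G.Sn
    have h3 : 0 < EE μ s S := EE_pos S
    rw [div_mul_eq_mul_div, div_le_one hE]
    calc cth * e μ s S (lo + r) ≤ cth * (C' * EE μ s S) := mul_le_mul_of_nonneg_left h1 hcth0.le
      _ = cth * C' * EE μ s S := by ring
      _ ≤ 1 * EE μ s S := mul_le_mul_of_nonneg_right hcth2 h3.le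
      _ ≤ EE μ s n := by rw [one_mul]; exact h2
  · -- shift
    have h1 := (hin lo le_rfl hlh).2
    have h2 : 0 ≤ vr A1 μ s n := hD.vr_nonneg hs hA1'.le n
    have h2' : vr A1 μ s n ≤ vA A1 μ s n := by
      have := hD.vl_nonneg hs hA1'.le n
      unfold vA
      linarith
    have h3 : vA A1 μ s n ≤ A1 / a * vA a μ s n := by
      have h4 := hD.vA_level_mul hs ha.le (c := A1 / a) (by rw [one_le_div ha]; linarith) n
      rwa [div_mul_cancel₀ _ ha.ne'] at h4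
    have h6 : 2 * (lo : ℝ) + w - 1 - 2 * (sl μ s + vr A1 μ s n) * S =
        2 * (lo - sl μ s * S) + (w - 1) - 2 * vr A1 μ s n * S := by ring
    rw [h6]
    have h7 : |2 * ((lo : ℝ) - sl μ s * S) + (w - 1) - 2 * vr A1 μ s n * S| ≤
        2 * |(lo : ℝ) - sl μ s * S| + w + 2 * vr A1 μ s n * S := by
      have a1 := neg_abs_le ((lo : ℝ) - sl μ s * S)
      have a2 := le_abs_self ((lo : ℝ) - sl μ s * S)
      have a3 : 0 ≤ vr A1 μ s n * S := by positivity
      rw [abs_le]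
      constructor <;> linarith
    have h8 : (S : ℝ) * vA a μ s S ≤ Cf * (CS * w) := by
      calc (S : ℝ) * vA a μ s S ≤ S * (Cf * vA a μ s n) := mul_le_mul_of_nonneg_left G.flat (by positivity)
        _ = Cf * (S * vA a μ s n) := by ring
        _ ≤ Cf * (CS * w) := mul_le_mul_of_nonneg_left G.room' hCf
    have h9 : vr A1 μ s n * S ≤ A1 / a * (CS * w) := by
      calc vr A1 μ s n * S ≤ (A1 / a * vA a μ s n) * S :=
            mul_le_mul_of_nonneg_right (h2'.trans h3) (by positivity)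
        _ = A1 / a * (S * vA a μ s n) := by ring
        _ ≤ A1 / a * (CS * w) := mul_le_mul_of_nonneg_left G.room' (by positivity)
    unfold wH at h1
    rw [hks]
    nlinarith [h7, h8, h9, h1]
  · -- tail
    intro z hz0 hzN
    exact htl s hs n hn0 (S + L' + S) G.NH _ hth (div_le_div_of_nonneg_right hcth1 hE.le) z hz0 hzN
  · -- out
    intro z ρ hρ hz hzN
    have hz0 : 0 ≤ z := by
      have h1 := hD.δ0
      have h2 := hD.lo s hs
      have h3 : 0 ≤ vr A1 μ s n := hD.vr_nonneg hs hA1'.le n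
      have h4 : (0 : ℝ) ≤ z := by
        refine le_trans ?_ hz
        exact add_nonneg (mul_nonneg (by linarith) (Nat.cast_nonneg _)) (mul_nonneg (by linarith) (Nat.cast_nonneg _))
      exact_mod_cast h4
    exact ed_out7' hD hs (ha.le.trans haA) hAA hn G.nN (by linarith) hcth0.le hc2.le G.thick hz0 hzN (by linarith)

/-! ### The edge is not decaying -/

/-- The upper bound of the means near the direction (the conclusion of `Dirs.e_up`). -/
def EUp7 (μ : Measure ℝ) (A : Set ℝ) (ρ : ℝ) : Prop :=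
  ∀ ε : ℝ, 0 < ε → ∃ N : ℕ, ∀ s ∈ A, ∀ n : ℕ, N ≤ n → ∀ y : ℤ, |(y : ℝ) - sl μ s * n| ≤ ρ * n →
    e μ s n y ≤ n * (J μ s (y / n - sl μ s) + ε)

/-- The direction of slope `sl + x` is not decaying faster than `2 θ J x`. -/
theorem not_DecH (hD : Dirs μ H δ A) {ρ : ℝ} (hρ : 0 < ρ) (hup : EUp7 μ A ρ) (hs : s ∈ A) {x θ : ℝ} (hx : 0 < x)
    (hxρ : x ≤ ρ / 2) (hxδ : x ≤ δ / 2) (hθ : 0 < θ) : ¬ Dec μ s θ (sl μ s + x) (θ * (2 * J μ s x)) := by
  have hδ := hD.δ0
  have hlo := hD.lo s hs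
  have hhi := hD.hi s hs
  have hJ : 0 < J μ s x := by
    obtain ⟨j, hj, h⟩ := hD.strict x hx
    have h1 := h s hs x (le_abs_self x)
    rw [abs_of_pos hx] at h1
    have h2 : 0 < j * x := by positivity
    linarith
  obtain ⟨N1, hN1⟩ := hup (J μ s x / 4) (by positivity)
  obtain ⟨N2, hN2⟩ := exists_nat_ge (max (4 / J μ s x) (max (2 / ρ) (2 / δ)))
  obtain ⟨N, hN⟩ : ∃ N : ℕ, N = max N1 (max N2 1) := ⟨_, rfl⟩
  have hNN1 : N1 ≤ N := by rw [hN]; exact le_max_left _ _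
  have hNN2 : N2 ≤ N := by rw [hN]; exact (le_max_left _ _).trans (le_max_right _ _)
  have hN1' : 1 ≤ N := by rw [hN]; exact (le_max_right _ _).trans (le_max_right _ _)
  have hN0 : (0 : ℝ) < N := by exact_mod_cast hN1'
  have hN2' : max (4 / J μ s x) (max (2 / ρ) (2 / δ)) ≤ N := hN2.trans (by exact_mod_cast hNN2)
  have b1 : 4 ≤ N * J μ s x := by
    have := (le_max_left _ _).trans hN2'
    rwa [div_le_iff₀ hJ] at this
  have b2 : 2 ≤ N * ρ := by
    have := ((le_max_left _ _).trans (le_max_right _ _)).trans hN2'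
    rwa [div_le_iff₀ hρ] at this
  have b3 : 2 ≤ N * δ := by
    have := ((le_max_right _ _).trans (le_max_right _ _)).trans hN2'
    rwa [div_le_iff₀ hδ] at this
  intro hDec
  obtain ⟨z, hz⟩ : ∃ z : ℤ, z = ⌈(sl μ s + x) * (N : ℝ)⌉ := ⟨_, rfl⟩
  have hz1 : (sl μ s + x) * (N : ℝ) ≤ z := hz ▸ Int.le_ceil _
  have hz2 : (z : ℝ) < (sl μ s + x) * (N : ℝ) + 1 := hz ▸ Int.ceil_lt_add_one _
  have hz0 : 0 ≤ z := by
    have : (0 : ℝ) ≤ z := le_trans (mul_nonneg (by linarith) hN0.le) hz1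
    exact_mod_cast this
  have hzN : z ≤ N := by
    have h1 : (z : ℝ) ≤ ((N : ℤ) : ℝ) := by
      rw [Int.cast_natCast]
      nlinarith
    exact_mod_cast h1
  have he := hN1 s hs N hNN1 z (by
    rw [abs_le]
    constructor
    · nlinarith
    · nlinarith)
  have hJz : J μ s (z / N - sl μ s) ≤ J μ s x + 1 / N := by
    have h1 := J_lip hD.em hD.nd s (z / N - sl μ s) x
    have h2 : |(z : ℝ) / N - sl μ s - x| ≤ 1 / N := by
      have h3 : (z : ℝ) / N - sl μ s - x = (z - (sl μ s + x) * N) / N := by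
        field_simp
        ring
      rw [h3, abs_div, abs_of_pos hN0]
      refine div_le_div_of_nonneg_right ?_ hN0.le
      rw [abs_le]
      constructor <;> linarith
    linarith
  have he2 : e μ s N z ≤ N * (3 / 2 * J μ s x) := by
    refine he.trans (mul_le_mul_of_nonneg_left ?_ hN0.le)
    have h1 : 1 / (N : ℝ) ≤ J μ s x / 4 := by
      rw [div_le_iff₀ hN0]
      linarith
    linarith
  have h2 : Real.exp (-(θ * e μ s N z)) ≤ ∫ η, W μ s η 0 N z ^ θ ∂(law μ) := by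
    have hS : Sub fun η => (-θ) * X μ s η 0 N z := (Sub_X (μ := μ) (s := s) 0 hz0 hzN).const_mul (-θ)
    have h2 := hS.exp_integral_le hD.em
    rw [integral_const_mul, integral_X] at h2
    have h3 : ∀ η : Env, Real.exp (-θ * X μ s η 0 N z) = W μ s η 0 N z ^ θ := by
      intro η
      rw [Real.rpow_def_of_pos (W_pos η 0 hz0 hzN)]
      congr 1
      unfold X
      ring
    simp only [h3] at h2
    refine le_trans (Real.exp_le_exp.2 ?_) h2
    linarith
  have h3 : ∫ η, W μ s η 0 N z ^ θ ∂(law μ) ≤ ∫ η, Fv μ s η 0 N (sl μ s + x) ^ θ ∂(law μ) := by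
    refine integral_mono ?_ (Fv_rpow_integrable hD.em _ _ _ hθ.le) fun η => ?_
    · have h1 := WS_rpow_integrable (μ := μ) (s := s) hD.em 0 N {z} hθ.le
      simpa [WS] using h1
    · refine Real.rpow_le_rpow (W_nonneg _ _ _ _) ?_ hθ.le
      unfold Fv WS
      refine Finset.single_le_sum (f := fun y => W μ s η 0 N y) (fun y _ => W_nonneg _ _ _ _) ?_
      rw [Finset.mem_filter, Finset.mem_Icc]
      exact ⟨⟨hz0, hzN⟩, hz1⟩
  have h4 := hDec N hN1'
  have h5 := Real.exp_le_exp.1 (h2.trans (h3.trans h4))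
  have h6 : N * (θ * (2 * J μ s x)) ≤ θ * (N * (3 / 2 * J μ s x)) := by
    have := mul_le_mul_of_nonneg_left he2 hθ.le
    linarith
  have h7 : 0 < N * (θ * J μ s x) := by positivity
  nlinarith

end

end Pool.Agent.W_7d29a1_H
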