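import Pool.Agent.W_7d29a1_H.HOctDefs52

/-!
MP_7d29a1_pr, TRACK H (all tilts), section EDGES: definitions. Everything is stated for the RIGHT edge; the left edge follows by the
mirror (`MirH52.lean`: the set of tilts `- A`). (helper7)
-/

set_option autoImplicit false

namespace Pool.Agent.W_7d29a1_H

open MeasureTheory ProbabilityTheory Set
open Pool.Agent.W_7d29a1_F Pool.Agent.W_7d29a1_h4g

noncomputable section

/-- (CHEAP) with its constants: for every duration `m` the displacements of an interval around the cheapest one are cheap, and the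
length of the interval is comparable with the width (the inside of `CheapH`). -/
def ChI (a : ℝ) (μ : Measure ℝ) (A : Set ℝ) (c0 C' : ℝ) : Prop :=
  ∀ s ∈ A, ∀ m : ℕ, 1 ≤ m → ∃ lo hi : ℤ, 0 ≤ lo ∧ lo ≤ xs μ s m ∧ xs μ s m ≤ hi ∧ hi ≤ m ∧
    c0 * wH a μ s m - 1 ≤ (hi : ℝ) - lo ∧
    ∀ y : ℤ, lo ≤ y → y ≤ hi → e μ s m y ≤ C' * EE μ s m ∧ |(y : ℝ) - sl μ s * m| ≤ 2 * wH a μ s m + 1

theorem CheapH.chI {a : ℝ} {μ : Measure ℝ} {A : Set ℝ} (h : CheapH a μ A) : ∃ c0 C' : ℝ, 0 < c0 ∧ ChI a μ A c0 C' := h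

/-- (TAIL): the exponential moments of the costs of the durations up to `H n`, at the rates up to `t0 / EE n`. -/
def TlH (μ : Measure ℝ) (A : Set ℝ) (H : ℕ) (t0 C1 : ℝ) (n0 : ℕ) : Prop :=
  ∀ s ∈ A, ∀ n : ℕ, n0 ≤ n → ∀ N : ℕ, N ≤ H * n → ∀ th : ℝ, 0 < th → th ≤ t0 / EE μ s n → ∀ z : ℤ, 0 ≤ z → z ≤ N →
    ∫ η, W μ s η 0 N z ^ th ∂(law μ) ≤ C1 * Real.exp (-(th * e μ s N z / 2))

/-- Cell width `w`, connection duration `S` and slab length `L'` of the right edge of the scale `n` (levels `a ≤ A0 < A1`): cells not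
thinner than `c2` times the edge, connections with room, and a width that is flat from `S` to `n`. -/
structure EdG (μ : Measure ℝ) (s a A0 A1 c0 c2 Cf CS : ℝ) (H n w S L' : ℕ) : Prop where
  w1 : 1 ≤ w
  S1 : 1 ≤ S
  L1 : 1 ≤ L'
  thick : c2 * (n * (vr A1 μ s n - vr A0 μ s n)) ≤ w
  room : 2 * ((w : ℝ) + 2) ≤ c0 * (S * vA a μ s n)
  room' : S * vA a μ s n ≤ CS * w
  Sn : S ≤ n
  nN : n ≤ S + L' + S
  NH : S + L' + S ≤ H * n
  flat : vA a μ s S ≤ Cf * vA a μ s n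

end

end Pool.Agent.W_7d29a1_H
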