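import Pool.Agent.W_7d29a1_H.EdDefs7
import Pool.Agent.W_7d29a1_H.Soft4
import Pool.Agent.W_7d29a1_F.CoreD4

/-!
MP_7d29a1_pr, TRACK H (all tilts), section EDGES: the tails `TlH` of the costs from the tail (`Tail0H`) of the frame. (helper7)
-/

set_option autoImplicit false

namespace Pool.Agent.W_7d29a1_H

open MeasureTheory ProbabilityTheory Set
open Pool.Agent.W_7d29a1_F Pool.Agent.W_7d29a1_h4g

noncomputable section

variable {μ : Measure ℝ} [IsProbabilityMeasure μ]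

theorem W_rpow_int7 (hμ : Pool.Agent.W_7d29a1_h47.EM μ) (s : ℝ) (N : ℕ) (z : ℤ) {t : ℝ} (ht : 0 ≤ t) :
    Integrable (fun η => W μ s η 0 N z ^ t) (law μ) := by
  have h1 := WS_rpow_integrable (μ := μ) (s := s) hμ 0 N {z} ht
  simpa [WS] using h1

/-- Jensen for a smaller exponent. -/
theorem rpow_jensen7 (hμ : Pool.Agent.W_7d29a1_h47.EM μ) (s : ℝ) {θ p : ℝ} (hθ : 0 ≤ θ) (hp0 : 0 ≤ p) (hp1 : p ≤ 1)
    (N : ℕ) (z : ℤ) :
    ∫ η, W μ s η 0 N z ^ (θ * p) ∂(law μ) ≤ (∫ η, W μ s η 0 N z ^ θ ∂(law μ)) ^ p := by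
  have hW : ∀ η : Env, 0 ≤ W μ s η 0 N z := fun η => W_nonneg _ _ _ _
  have h2 := (Real.concaveOn_rpow hp0 hp1).le_map_integral (μ := law μ)
    (f := fun η => W μ s η 0 N z ^ θ) ((Real.continuous_rpow_const hp0).continuousOn) isClosed_Ici
    (Filter.Eventually.of_forall fun η => Real.rpow_nonneg (hW η) _) (W_rpow_int7 hμ s N z hθ)
    ((W_rpow_int7 hμ s N z (mul_nonneg hθ hp0)).congr (Filter.Eventually.of_forall fun η => Real.rpow_mul (hW η) _ _))
  refine le_trans (le_of_eq (integral_congr_ae (Filter.Eventually.of_forall fun η => ?_))) h2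
  exact Real.rpow_mul (hW η) _ _

/-- **(TAIL)** for the edges. -/
theorem tlH_of (hμ : Pool.Agent.W_7d29a1_h47.EM μ) {A : Set ℝ} (hT : Tail0H μ A) (H : ℕ) :
    ∃ (t0 C1 : ℝ) (n0 : ℕ), 0 < t0 ∧ 1 ≤ C1 ∧ 1 ≤ n0 ∧ TlH μ A H t0 C1 n0 := by
  obtain ⟨c, C, n0, hc, h⟩ := hT H
  refine ⟨c, max 1 C, max n0 1, hc, le_max_left _ _, le_max_right _ _, ?_⟩
  intro s hs n hn N hN th hth hthc z hz0 hzN
  have hE : 0 < EE μ s n := EE_pos n
  have hc' : 0 < c / EE μ s n := by positivity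
  have hWp : ∀ η : Env, 0 < W μ s η 0 N z := fun η => W_pos η 0 hz0 hzN
  have h1 := h s hs n ((le_max_left _ _).trans hn) N (fun η => W μ s η 0 N z) hN (poly_W4 N z) hWp fun η => by
    have h2 := neg_X_le_V (μ := μ) (s := s) η 0 hz0 hzN
    have h3 : Real.log (W μ s η 0 N z) = -X μ s η 0 N z := by
      unfold X
      ring
    rw [h3]
    exact h2
  have h4 : -∫ η, Real.log (W μ s η 0 N z) ∂(law μ) = e μ s N z := by
    rw [← integral_neg]
    have h5 := integral_X (μ := μ) (s := s) 0 N z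
    rw [← h5]
    rfl
  rw [h4] at h1
  have h6 : ∫ η, Real.exp (c / EE μ s n * Real.log (W μ s η 0 N z)) ∂(law μ) =
      ∫ η, W μ s η 0 N z ^ (c / EE μ s n) ∂(law μ) := by
    refine integral_congr_ae (Filter.Eventually.of_forall fun η => ?_)
    show Real.exp (c / EE μ s n * Real.log (W μ s η 0 N z)) = W μ s η 0 N z ^ (c / EE μ s n)
    rw [Real.rpow_def_of_pos (hWp η)]
    congr 1
    ring
  rw [h6] at h1
  obtain ⟨p, hp⟩ : ∃ p : ℝ, p = th / (c / EE μ s n) := ⟨_, rfl⟩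
  have hp0 : 0 < p := by rw [hp]; positivity
  have hp1 : p ≤ 1 := by rw [hp, div_le_one hc']; exact hthc
  have hpe : c / EE μ s n * p = th := by rw [hp]; field_simp
  have h7 := rpow_jensen7 hμ s hc'.le hp0.le hp1 N z
  rw [hpe] at h7
  refine h7.trans ?_
  have h8 : 0 ≤ ∫ η, W μ s η 0 N z ^ (c / EE μ s n) ∂(law μ) :=
    integral_nonneg fun η => Real.rpow_nonneg (hWp η).le _
  have h9 : 0 ≤ C := nonneg_of_mul_nonneg_left (h8.trans h1) (Real.exp_pos _)
  refine (Real.rpow_le_rpow h8 h1 hp0.le).trans ?_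
  rw [Real.mul_rpow h9 (Real.exp_pos _).le, ← Real.exp_mul]
  have h10 : -(c / EE μ s n * e μ s N z / 2) * p = -(th * e μ s N z / 2) := by
    rw [← hpe]
    ring
  rw [h10]
  refine mul_le_mul_of_nonneg_right ?_ (Real.exp_pos _).le
  calc C ^ p ≤ (max 1 C) ^ p := Real.rpow_le_rpow h9 (le_max_right _ _) hp0.le
    _ ≤ (max 1 C) ^ (1 : ℝ) := Real.rpow_le_rpow_of_exponent_le (le_max_left _ _) hp1
    _ = max 1 C := Real.rpow_one _

end

end Pool.Agent.W_7d29a1_H
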