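import Pool.Agent.W_7d29a1_H.EdChJ11
import Pool.Agent.W_7d29a1_H.EdTlH7
import Pool.Agent.W_7d29a1_H.MeanA
import Pool.Agent.W_7d29a1_H.MeanB
import Pool.Agent.W_7d29a1_H.EdDataH7

/-!
MP_7d29a1_pr, TRACK H (all tilts), section EDGES: **(IN)**. The displacements between the two inner edges are cheap. (helper11)
-/

set_option autoImplicit false

namespace Pool.Agent.W_7d29a1_H

open MeasureTheory ProbabilityTheory Filter Topology Set
open Pool.Agent.W_7d29a1_F Pool.Agent.W_7d29a1_h4g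
open Pool.Agent.W_7d29a1_h75g (EdgeHyp inner)

noncomputable section

variable {μ : Measure ℝ} [IsProbabilityMeasure μ] {H δ : ℝ} {A : Set ℝ}

/-- All displacements between a cheapest one and a cheap one. -/
theorem in_between11 (hμ : Pool.Agent.W_7d29a1_h47.EM μ) {s : ℝ} {N : ℕ} {x z' z : ℤ} (hx0 : 0 ≤ x) (hxz : x ≤ z') (hz' : z' ≤ z)
    (hzN : z ≤ N) (hmin : e μ s N x ≤ e μ s N z) : e μ s N z' ≤ e μ s N z := by
  rcases eq_or_lt_of_le (hxz.trans hz') with h0 | h0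
  · have h1 : z' = z := by omega
    rw [h1]
  · have hch := e_chord hμ s hx0 hxz hz' hzN
    have h1 : (x : ℝ) < z := by exact_mod_cast h0
    have h2 : (z' : ℝ) ≤ z := by exact_mod_cast hz'
    have h3 : ((z : ℝ) - z') * e μ s N x ≤ ((z : ℝ) - z') * e μ s N z := mul_le_mul_of_nonneg_left hmin (by linarith)
    have h4 : ((z : ℝ) - x) * e μ s N z' ≤ ((z : ℝ) - x) * e μ s N z := by
      have h5 : ((z : ℝ) - x) * e μ s N z = ((z : ℝ) - z') * e μ s N z + ((z' : ℝ) - x) * e μ s N z := by ring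
      linarith
    exact le_of_mul_le_mul_left h4 (by linarith)

/-- The right width is small and positive, uniformly. -/
theorem vr_small11 (hD : Dirs μ H δ A) (hR : Rate μ A) {b ρ : ℝ} (hb : 0 < b) (hρ : 0 < ρ) :
    ∃ n1 : ℕ, ∀ s ∈ A, ∀ n : ℕ, n1 ≤ n → 0 < vr b μ s n ∧ vr b μ s n ≤ ρ := by
  obtain ⟨j, hj, hj1⟩ := hD.strict ρ hρ
  obtain ⟨n1, hn1⟩ := hR (j * ρ / (2 * b)) (by positivity)
  refine ⟨max n1 1, fun s hs n hn => ?_⟩
  have hn1' : 1 ≤ n := (le_max_right _ _).trans hn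
  have hn0 : (0 : ℝ) < n := by exact_mod_cast hn1'
  have h1 := hn1 s hs n ((le_max_left _ _).trans hn)
  have h2 := hD.J_vr hs hb.le hn1'
  have h3 := hD.vr_nonneg hs hb.le n
  have hE := EE_pos (μ := μ) (s := s) n
  constructor
  · rcases h3.eq_or_lt with h4 | h4
    · exfalso
      rw [← h4, J_zero hD.em hD.nd s, mul_zero] at h2
      have : 0 < b * EE μ s n := by positivity
      linarith
    · exact h4
  · by_contra hcon
    push Not at hcon
    have h4 := hj1 s hs (vr b μ s n) (by rw [abs_of_nonneg h3]; exact hcon.le)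
    rw [abs_of_nonneg h3] at h4
    have h5 : n * (j * ρ) ≤ n * J μ s (vr b μ s n) := by
      refine mul_le_mul_of_nonneg_left ?_ hn0.le
      exact (mul_le_mul_of_nonneg_left hcon.le hj.le).trans h4
    have h6 : b * EE μ s n ≤ b * (j * ρ / (2 * b) * n) := mul_le_mul_of_nonneg_left h1 hb.le
    have h7 : b * (j * ρ / (2 * b) * n) = n * (j * ρ) / 2 := by
      field_simp
    have h8 : 0 < n * (j * ρ) := by positivity
    linarith

/-- **(IN), right side.** -/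
theorem in_right11 (hD : Dirs μ H δ A) (hR : Rate μ A) {a A0 A1 : ℝ} (ha : 0 < a) (hA0 : a ≤ A0) (hA1 : A0 < A1) (Hn : ℕ)
    {c2 Cf CS : ℝ} (hc2 : 0 < c2) (hCf : 0 ≤ Cf) (hCS : 0 ≤ CS) {c0 C' : ℝ} (hc0 : 0 < c0) (hch : ChJ a μ A c0 C')
    {t0 C1 : ℝ} (ht0 : 0 < t0) (hC1 : 0 ≤ C1) {n0 : ℕ} (htl : TlH μ A Hn t0 C1 n0) :
    ∃ (Ci c1 : ℝ) (n1 : ℕ), 0 ≤ Ci ∧ 0 ≤ c1 ∧ ∀ s ∈ A, ∀ n : ℕ, n1 ≤ n → ∀ w S L' : ℕ,
      EdG μ s a A0 A1 c0 c2 Cf CS Hn n w S L' → ∀ x z : ℤ, 0 ≤ x → x ≤ z →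
      (∀ y : ℤ, 0 ≤ y → y ≤ ((S + L' + S : ℕ) : ℤ) → e μ s (S + L' + S) x ≤ e μ s (S + L' + S) y) →
      z - (sl μ s + vr A1 μ s n) * ((S + L' + S : ℕ) : ℝ) ≤ -(Ci * w) → e μ s (S + L' + S) z ≤ c1 * EE μ s n := by
  obtain ⟨De, ks, cth, hDe, hks, hcth, -, hed⟩ := edge_dataH hD ha hA0 hA1 Hn hc2 hCf hCS hc0 hch ht0 htl
  obtain ⟨ρ, hρ, hup⟩ := hD.e_up
  have hδ := hD.δ0
  have hA1' : 0 < A1 := by linarith
  obtain ⟨n2, hn2⟩ := vr_small11 hD hR hA1' (show 0 < min (ρ / 2) (δ / 2) by positivity)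
  obtain ⟨C, K1, hC, hK1, hin⟩ := inner (A := 2 * (Hn * (cth * A1))) (by positivity) hC1 hDe hks
  refine ⟨C, K1 / cth, max (max n0 1) n2, hC, by positivity, ?_⟩
  intro s hs n hn w S L' G x z hx0 hxz hmin hz
  have hn0 : n0 ≤ n := (le_max_left _ _).trans ((le_max_left _ _).trans hn)
  have hn1 : 1 ≤ n := (le_max_right _ _).trans ((le_max_left _ _).trans hn)
  obtain ⟨hv0, hvρ⟩ := hn2 s hs n ((le_max_right _ _).trans hn)
  have hE := EE_pos (μ := μ) (s := s) n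
  obtain ⟨y0, hH⟩ := hed s hs n hn0 hn1 w S L' G
  have hth : 0 < cth / EE μ s n := by positivity
  have hJ := hD.J_vr hs hA1'.le hn1
  have hJ0 := J_nonneg hD.em hD.nd s (vr A1 μ s n)
  have hγ : cth / EE μ s n * (2 * J μ s (vr A1 μ s n)) * L' ≤ 2 * (Hn * (cth * A1)) := by
    have h2 : (L' : ℝ) ≤ Hn * n := by
      have h3 : L' ≤ Hn * n := by
        have := G.NH
        omega
      exact_mod_cast h3
    have h5 : 0 ≤ cth / EE μ s n * (2 * J μ s (vr A1 μ s n)) := by positivity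
    calc cth / EE μ s n * (2 * J μ s (vr A1 μ s n)) * L' ≤ cth / EE μ s n * (2 * J μ s (vr A1 μ s n)) * (Hn * n) :=
          mul_le_mul_of_nonneg_left h2 h5
      _ = cth / EE μ s n * 2 * Hn * (n * J μ s (vr A1 μ s n)) := by ring
      _ = 2 * (Hn * (cth * A1)) := by
          rw [hJ]
          field_simp
  obtain ⟨z1, hz0, hz1, hz2, hz3⟩ := hin μ s hD.em (cth / EE μ s n) (sl μ s + vr A1 μ s n) _ w S L' y0 hH hγ
    (not_DecH hD hρ hup hs hv0 (hvρ.trans (min_le_left _ _)) (hvρ.trans (min_le_right _ _)) hth)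
  have h1 : z ≤ z1 := by
    have h2 : (z : ℝ) ≤ z1 := by linarith
    exact_mod_cast h2
  have h2 := in_between11 hD.em hx0 hxz h1 hz1 (hmin z1 hz0 hz1)
  refine h2.trans ?_
  rw [div_mul_eq_mul_div, le_div_iff₀ hcth]
  rw [div_mul_eq_mul_div, div_le_iff₀ hE] at hz3
  linarith

/-- **(IN)**, both sides, in the form of the octave and of the tubes. -/
theorem inWH_all (hD : Dirs μ H δ A) (hR : Rate μ A) (hT : Tail0H μ A) {a A0 A1 : ℝ} (ha : 0 < a) (hA0 : a ≤ A0) (hA1 : A0 < A1)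
    {c0 C' : ℝ} (hc0 : 0 < c0) (hch : ChJ a μ A c0 C') : InWH μ A a A0 A1 c0 := by
  obtain ⟨t0, C1, n0, ht0, hC1, hn0, htl⟩ := tlH_of hD.em hT 1
  have hC1' : 0 ≤ C1 := zero_le_one.trans hC1
  have hCS : 0 ≤ 6 / c0 + 1 := by positivity
  obtain ⟨CR, cR, nR, hCR, hcR, hRi⟩ := in_right11 hD hR ha hA0 hA1 1 (c2 := 1) one_pos (Cf := 8) (by norm_num)
    (CS := 6 / c0 + 1) hCS hc0 hch ht0 hC1' htl
  obtain ⟨CL, cL, nL, hCL, hcL, hLe⟩ := in_right11 hD.mir (hR.mir hD.em) ha hA0 hA1 1 (c2 := 1) one_pos (Cf := 8) (by norm_num)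
    (CS := 6 / c0 + 1) hCS hc0 (hch.mir hD.em hD.nd) ht0 hC1' (htl.mir hD.em)
  refine ⟨max CR CL, max (max cR cL) 1, max nR nL, le_max_of_le_left hCR, le_max_right _ _, ?_⟩
  intro s hs N hN w S hw hS hSN hthick hroom hroom' hflat y hy1 hy2
  have hE := EE_pos (μ := μ) (s := s) N
  have hw0 : (0 : ℝ) ≤ w := Nat.cast_nonneg _
  have hN1 : S + (N - 2 * S) + S = N := by omega
  have hx := xs_mem (μ := μ) (s := s) N
  rcases le_total (xs μ s N) y with hxy | hxy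
  · have h1 := hRi s hs N ((le_max_left _ _).trans hN) w S (N - 2 * S)
      ⟨hw, hS, by omega, by
        have := hthick 1 (Or.inl rfl)
        rw [vs_one, vs_one] at this
        linarith, hroom, hroom', by omega, by omega, by omega, hflat⟩ (xs μ s N) y hx.1 hxy
    rw [hN1] at h1
    refine (h1 (fun y' h2 h3 => xs_le h2 h3) ?_).trans ?_
    · have h2 := mul_le_mul_of_nonneg_right (le_max_left CR CL) hw0
      linarith
    · exact mul_le_mul_of_nonneg_right ((le_max_left _ _).trans (le_max_left _ _)) hE.le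
  · have h1 := hLe (-s) (neg_mem_ng hs) N ((le_max_right _ _).trans hN) w S (N - 2 * S)
      ⟨hw, hS, by omega, by
        have := hthick (-1) (Or.inr rfl)
        rw [vs_neg, vs_neg] at this
        rw [vr_mir hD.em s hD.nd, vr_mir hD.em s hD.nd]
        linarith, by rwa [vA_mir hD.em s hD.nd], by rwa [vA_mir hD.em s hD.nd], by omega, by omega, by omega,
        by rwa [vA_mir hD.em s hD.nd, vA_mir hD.em s hD.nd]⟩ (N - xs μ s N) (N - y) (by omega) (by omega)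
    rw [hN1, e_mir hD.em s N y, e_mir hD.em s N (xs μ s N), EE_mir hD.em] at h1
    refine (h1 (fun y' h2 h3 => ?_) ?_).trans ?_
    · have h4 := e_mir hD.em s N (N - y')
      rw [sub_sub_cancel] at h4
      rw [h4]
      exact xs_le (by omega) (by omega)
    · rw [sl_mir hD.em s hD.nd, vr_mir hD.em s hD.nd]
      have h2 := mul_le_mul_of_nonneg_right (le_max_right CR CL) hw0
      push_cast
      linarith
    · exact mul_le_mul_of_nonneg_right ((le_max_right _ _).trans (le_max_left _ _)) hE.le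

/-- The same with the inside of `CheapH`. -/
theorem inWH_chI (hD : Dirs μ H δ A) (hR : Rate μ A) (hT : Tail0H μ A) {a A0 A1 : ℝ} (ha : 0 < a) (hA0 : a ≤ A0) (hA1 : A0 < A1)
    {c0 C' : ℝ} (hc0 : 0 < c0) (hch : ChI a μ A c0 C') : InWH μ A a A0 A1 c0 := inWH_all hD hR hT ha hA0 hA1 hc0 hch.chJ

/-- The constant `c0` of (CHEAP) serves for all levels. -/
theorem inWH_cheap (hD : Dirs μ H δ A) (hR : Rate μ A) (hT : Tail0H μ A) {a : ℝ} (ha : 0 < a) (hch : CheapH a μ A) :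
    ∃ c0 C' : ℝ, 0 < c0 ∧ ChI a μ A c0 C' ∧ ∀ A0 A1 : ℝ, a ≤ A0 → A0 < A1 → InWH μ A a A0 A1 c0 := by
  obtain ⟨c0, C', h0, h1⟩ := hch.chI
  exact ⟨c0, C', h0, h1, fun A0 A1 h2 h3 => inWH_chI hD hR hT ha h2 h3 h0 h1⟩

end

end Pool.Agent.W_7d29a1_H
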