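import Pool.Agent.W_7d29a1_H.EdDefs7
import Pool.Agent.W_7d29a1_H.WidthH

/-!
MP_7d29a1_pr, TRACK H (all tilts), section EDGES: the duration of the connections of a cell of width `w`, and the flatness of the width
from this duration to the scale `n`. Models: `W_1b8d5d_p.EdB7` (`exists_S7`), `W_1b8d5d_p.EdCon61` (`ed_S`, `ed_flat`). (helper16)
-/

set_option autoImplicit false

namespace Pool.Agent.W_7d29a1_H

open MeasureTheory ProbabilityTheory Set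
open Pool.Agent.W_7d29a1_F Pool.Agent.W_7d29a1_h4g

noncomputable section

variable {μ : Measure ℝ} [IsProbabilityMeasure μ] {H δ a : ℝ} {A : Set ℝ} {s : ℝ}

/-- The connection duration of a cell width. -/
theorem exists_S16 (hD : Dirs μ H δ A) (ha : 0 < a) (hs : s ∈ A) {c0 : ℝ} (hc0 : 0 < c0) {n w : ℕ}
    (hn : 1 ≤ n) (hw : 1 ≤ w) (hv : vA a μ s n ≤ 1) (hwn : 2 * ((w : ℝ) + 2) + c0 * vA a μ s n ≤ c0 * wH a μ s n) :
    ∃ S : ℕ, 1 ≤ S ∧ S ≤ n ∧ 2 * ((w : ℝ) + 2) ≤ c0 * (S * vA a μ s n) ∧ S * vA a μ s n ≤ (6 / c0 + 1) * w := by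
  have hvn0 : 0 < vA a μ s n := hD.vA_pos hs ha hn
  have hw' : (1 : ℝ) ≤ w := by exact_mod_cast hw
  obtain ⟨q, hq⟩ : ∃ q : ℝ, q = 2 * ((w : ℝ) + 2) / (c0 * vA a μ s n) := ⟨_, rfl⟩
  have hq0 : 0 < q := by rw [hq]; positivity
  have hqe : q * (c0 * vA a μ s n) = 2 * ((w : ℝ) + 2) := by
    rw [hq, div_mul_cancel₀]
    positivity
  have h1 := Nat.le_ceil q
  have h2 := Nat.ceil_lt_add_one hq0.le
  refine ⟨⌈q⌉₊, Nat.ceil_pos.2 hq0, ?_, ?_, ?_⟩
  · have h3 : q + 1 ≤ n := by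
      have h4 : (q + 1) * (c0 * vA a μ s n) ≤ n * (c0 * vA a μ s n) := by
        rw [add_mul, hqe, one_mul]
        unfold wH at hwn
        linarith
      exact le_of_mul_le_mul_right h4 (by positivity)
    have h4 : (⌈q⌉₊ : ℝ) < n := by linarith
    exact_mod_cast h4.le
  · calc 2 * ((w : ℝ) + 2) = q * (c0 * vA a μ s n) := hqe.symm
      _ ≤ ⌈q⌉₊ * (c0 * vA a μ s n) := mul_le_mul_of_nonneg_right h1 (by positivity)
      _ = c0 * (⌈q⌉₊ * vA a μ s n) := by ring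
  · calc (⌈q⌉₊ : ℝ) * vA a μ s n ≤ (q + 1) * vA a μ s n := mul_le_mul_of_nonneg_right h2.le hvn0.le
      _ = 2 * ((w : ℝ) + 2) / c0 + vA a μ s n := by rw [hq]; field_simp
      _ ≤ 6 * w / c0 + w := by
        refine add_le_add ?_ (hv.trans hw')
        exact div_le_div_of_nonneg_right (by linarith) hc0.le
      _ = (6 / c0 + 1) * w := by ring

/-- The duration of the connections, second form: `S ≤ n` needs only `4 (w + 2) ≤ c0 w_n`. -/
theorem ed_S16 (hD : Dirs μ H δ A) (ha : 0 < a) (hs : s ∈ A) {c0 : ℝ} (hc0 : 0 < c0) {n w : ℕ} (hn : 1 ≤ n)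
    (hv : vA a μ s n ≤ 1) (hw : 4 * ((w : ℝ) + 2) ≤ c0 * wH a μ s n) :
    ∃ S : ℕ, 1 ≤ S ∧ S ≤ n ∧ 2 * ((w : ℝ) + 2) ≤ c0 * (S * vA a μ s n) ∧ S * vA a μ s n ≤ 4 * ((w : ℝ) + 2) / c0 + 1 := by
  have hv0 := hD.vA_pos hs ha hn
  have hn0 : (0 : ℝ) < n := by exact_mod_cast hn
  unfold wH at hw
  obtain ⟨q, hq⟩ : ∃ q : ℝ, q = 2 * ((w : ℝ) + 2) / (c0 * vA a μ s n) := ⟨_, rfl⟩
  have hq0 : 0 < q := by rw [hq]; positivity
  have e1 : q * (c0 * vA a μ s n) = 2 * ((w : ℝ) + 2) := by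
    rw [hq]
    field_simp
  have hqn : q ≤ n / 2 := by
    have h1 : q * (c0 * vA a μ s n) ≤ n / 2 * (c0 * vA a μ s n) := by
      rw [e1]
      linarith
    exact le_of_mul_le_mul_right h1 (by positivity)
  have h1 := Nat.le_ceil q
  have h2 := Nat.ceil_lt_add_one hq0.le
  refine ⟨⌈q⌉₊, Nat.one_le_ceil_iff.2 hq0, ?_, ?_, ?_⟩
  · have h3 : (⌈q⌉₊ : ℝ) < n / 2 + 1 := by linarith
    rcases Nat.eq_or_lt_of_le hn with h4 | h4
    · rw [← h4] at h3 ⊢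
      have h5 : ((⌈q⌉₊ : ℕ) : ℝ) < ((2 : ℕ) : ℝ) := by
        push_cast
        norm_num at h3
        linarith
      have h6 : ⌈q⌉₊ < 2 := by exact_mod_cast h5
      omega
    · have h5 : (2 : ℝ) ≤ n := by exact_mod_cast h4
      have h6 : (⌈q⌉₊ : ℝ) < n := by linarith
      have h7 : ⌈q⌉₊ < n := by exact_mod_cast h6
      exact h7.le
  · have h3 : q * (c0 * vA a μ s n) ≤ ⌈q⌉₊ * (c0 * vA a μ s n) := mul_le_mul_of_nonneg_right h1 (by positivity)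
    rw [e1] at h3
    linarith
  · have h3 : ⌈q⌉₊ * vA a μ s n ≤ (q + 1) * vA a μ s n := mul_le_mul_of_nonneg_right h2.le hv0.le
    have h4 : q * vA a μ s n = 2 * ((w : ℝ) + 2) / c0 := by
      rw [hq]
      field_simp
    have h5 : 2 * ((w : ℝ) + 2) / c0 ≤ 4 * ((w : ℝ) + 2) / c0 := by
      refine div_le_div_of_nonneg_right ?_ hc0.le
      have : (0 : ℝ) ≤ w := Nat.cast_nonneg w
      linarith
    linarith

/-- **(flat)** is free for cells of width `w ≥ c w_n`. -/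
theorem ed_flat16 (hD : Dirs μ H δ A) (ha : 0 < a) (hs : s ∈ A) {c0 c : ℝ} (hc : 0 < c) {n S w : ℕ} (hS : 1 ≤ S)
    (hSn : S ≤ n) (hS1 : 2 * ((w : ℝ) + 2) ≤ c0 * (S * vA a μ s n)) (hw : c * wH a μ s n ≤ w) :
    vA a μ s S ≤ c0 / (2 * c) * vA a μ s n := by
  have hv0 := hD.vA_pos hs ha (hS.trans hSn)
  have hS0 : (0 : ℝ) < S := by exact_mod_cast hS
  have h1 := hD.w_mono hs ha.le hS hSn
  unfold wH at hw
  have h2 : n * vA a μ s n ≤ c0 / (2 * c) * (S * vA a μ s n) := by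
    have h3 : 2 * (c * (n * vA a μ s n)) ≤ c0 * (S * vA a μ s n) := by linarith
    rw [div_mul_eq_mul_div, le_div_iff₀ (by positivity)]
    linarith
  have h3 : S * vA a μ s S ≤ S * (c0 / (2 * c) * vA a μ s n) := by linarith
  exact le_of_mul_le_mul_left h3 hS0

end

end Pool.Agent.W_7d29a1_H
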