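import Pool.Agent.W_7d29a1_H.VsH52
import Pool.Agent.W_7d29a1_H.MeanA

/-!
MP_7d29a1_pr, TRACK H (all tilts), sections EDGES and TUBES: the means outside of the edge, both sides (`ed_out` of
`W_1b8d5d_p/EdOut30` at positive temperature). (helper28)
-/

set_option autoImplicit false

namespace Pool.Agent.W_7d29a1_H

open MeasureTheory ProbabilityTheory Filter Topology Set
open Pool.Agent.W_7d29a1_F Pool.Agent.W_7d29a1_h4g
open Pool.Agent.W_1b8d5d_p (wR wL Rf)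
open Pool.Agent.W_7d29a1_h47 (EM Nondeg)

noncomputable section

variable {μ : Measure ℝ} [IsProbabilityMeasure μ] {H δ A0 A1 sg ρ w : ℝ} {A : Set ℝ} {s : ℝ} {n N0 : ℕ}

/-- **(B2)** The means outside of the edge. -/
theorem ed_out28 (h : Dirs μ H δ A) (hd : s ∈ A) (hsg : sg = 1 ∨ sg = -1) (h0 : 0 ≤ A0) (h01 : A0 < A1) (hn : 1 ≤ n)
    (hN : n ≤ N0) (hρ : 0 ≤ ρ) (hw : 0 ≤ w) (z : ℤ) (hz0 : 0 ≤ z) (hz1 : z ≤ N0)
    (hz : ρ * w ≤ sg * (z - (sl μ s + sg * vs A1 μ s sg n) * N0)) :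
    (A1 + ρ * (w / (n * (vs A1 μ s sg n - vs A0 μ s sg n))) * (A1 - A0)) * EE μ s n ≤ e μ s N0 z := by
  obtain ⟨v1, hv1⟩ : ∃ v1, v1 = vs A1 μ s sg n := ⟨_, rfl⟩
  obtain ⟨v0, hv0⟩ : ∃ v0, v0 = vs A0 μ s sg n := ⟨_, rfl⟩
  have hn0 : (0 : ℝ) < n := by exact_mod_cast hn
  have hN1 : 1 ≤ N0 := hn.trans hN
  have hN0 : (0 : ℝ) < N0 := by exact_mod_cast hN1
  have hnN : (n : ℝ) ≤ N0 := by exact_mod_cast hN
  have hom := ed_om_pos (n := n) h hd hsg h0 h01 hn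
  rw [← hv1, ← hv0] at hom ⊢
  rw [← hv1] at hz
  have hgap : 0 < v1 - v0 := by
    by_contra hcon
    rw [not_lt] at hcon
    nlinarith
  have hv0n : 0 ≤ v0 := by
    rw [hv0]
    exact vs_nonneg h hd hsg h0
  have hrf := ed_rf h hd hsg
  have hJ1 : J μ s (sg * v1) = A1 * EE μ s n / n := by
    rw [hv1]
    exact ed_J' h hd hsg (h0.trans h01.le)
  have hJ0 : J μ s (sg * v0) = A0 * EE μ s n / n := by
    rw [hv0]
    exact ed_J' h hd hsg h0
  have hE := EE_pos (μ := μ) (s := s) n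
  have hsg2 : sg * sg = 1 := by rcases hsg with rfl | rfl <;> norm_num
  -- the excess slope
  obtain ⟨x, hx⟩ : ∃ x, x = sg * ((z : ℝ) / N0 - sl μ s) - v1 := ⟨_, rfl⟩
  have hx1 : ρ * w / N0 ≤ x := by
    rw [div_le_iff₀ hN0, hx]
    have e1 : (sg * ((z : ℝ) / N0 - sl μ s) - v1) * N0 = sg * (z - (sl μ s + sg * v1) * N0) := by
      have e2 : sg * (z - (sl μ s + sg * v1) * N0) = sg * z - sg * sl μ s * N0 - (sg * sg) * v1 * N0 := by ring
      rw [e2, hsg2]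
      field_simp
    rw [e1]
    exact hz
  have hx0 : 0 ≤ x := le_trans (div_nonneg (mul_nonneg hρ hw) hN0.le) hx1
  have hJx : A1 * EE μ s n / n + x / (v1 - v0) * ((A1 - A0) * EE μ s n / n) ≤ J μ s (sg * (v1 + x)) := by
    -- convexity on v0 < v1 <= v1 + x
    have hden : 0 < (v1 - v0) + x := by linarith
    have ha1 : 0 ≤ x / ((v1 - v0) + x) := div_nonneg hx0 hden.le
    have ha2 : 0 ≤ (v1 - v0) / ((v1 - v0) + x) := div_nonneg hgap.le hden.le
    have ha3 : x / ((v1 - v0) + x) + (v1 - v0) / ((v1 - v0) + x) = 1 := by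
      field_simp
      ring
    have hc := hrf.conv.2 (mem_univ v0) (mem_univ (v1 + x)) ha1 ha2 ha3
    simp only [smul_eq_mul] at hc
    have e3 : x / ((v1 - v0) + x) * v0 + (v1 - v0) / ((v1 - v0) + x) * (v1 + x) = v1 := by
      field_simp
      ring
    rw [e3, hJ1, hJ0] at hc
    have h5 := mul_le_mul_of_nonneg_right hc hden.le
    have e4 : (x / ((v1 - v0) + x) * (A0 * EE μ s n / n) + (v1 - v0) / ((v1 - v0) + x) * J μ s (sg * (v1 + x))) *
        ((v1 - v0) + x) = x * (A0 * EE μ s n / n) + (v1 - v0) * J μ s (sg * (v1 + x)) := by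
      field_simp
    rw [e4] at h5
    have h6 : (v1 - v0) * (A1 * EE μ s n / n + x / (v1 - v0) * ((A1 - A0) * EE μ s n / n)) ≤
        (v1 - v0) * J μ s (sg * (v1 + x)) := by
      have e5 : (v1 - v0) * (A1 * EE μ s n / n + x / (v1 - v0) * ((A1 - A0) * EE μ s n / n)) =
          (v1 - v0) * (A1 * EE μ s n / n) + x * ((A1 - A0) * EE μ s n / n) := by
        field_simp
      rw [e5]
      have e6 : x * ((A1 - A0) * EE μ s n / n) = x * (A1 * EE μ s n / n) - x * (A0 * EE μ s n / n) := by ring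
      rw [e6]
      nlinarith
    exact le_of_mul_le_mul_left h6 hgap
  have he := e_ge h.em h.nd s hN1 hz0 hz1
  have e7 : (z : ℝ) / N0 - sl μ s = sg * (v1 + x) := by
    rw [hx]
    have e8 : sg * (v1 + (sg * ((z : ℝ) / N0 - sl μ s) - v1)) = (sg * sg) * ((z : ℝ) / N0 - sl μ s) := by ring
    rw [e8, hsg2, one_mul]
  rw [e7] at he
  refine le_trans ?_ he
  refine le_trans ?_ (mul_le_mul_of_nonneg_left hJx hN0.le)
  have h7 : A1 * EE μ s n ≤ N0 * (A1 * EE μ s n / n) := by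
    rw [mul_div_assoc', le_div_iff₀ hn0]
    have : 0 ≤ A1 * EE μ s n := mul_nonneg (h0.trans h01.le) hE.le
    nlinarith
  have h8 : ρ * (w / (n * (v1 - v0))) * (A1 - A0) * EE μ s n ≤ N0 * (x / (v1 - v0) * ((A1 - A0) * EE μ s n / n)) := by
    have e9 : ρ * (w / (n * (v1 - v0))) * (A1 - A0) * EE μ s n =
        (ρ * w) * ((A1 - A0) * EE μ s n / (n * (v1 - v0))) := by
      field_simp
    have e10 : (N0 : ℝ) * (x / (v1 - v0) * ((A1 - A0) * EE μ s n / n)) =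
        (N0 * x) * ((A1 - A0) * EE μ s n / (n * (v1 - v0))) := by
      field_simp
    rw [e9, e10]
    refine mul_le_mul_of_nonneg_right ?_ ?_
    · rw [div_le_iff₀ hN0] at hx1
      linarith
    · exact div_nonneg (mul_nonneg (sub_nonneg.2 h01.le) hE.le) hom.le
  rw [add_mul, mul_add]
  exact add_le_add h7 h8

/-- **(B2)** in the form of the field `out` of `EdH`. -/
theorem ed_out28' (h : Dirs μ H δ A) (hd : s ∈ A) (hsg : sg = 1 ∨ sg = -1) (h0 : 0 ≤ A0) (h01 : A0 < A1) (hn : 1 ≤ n)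
    (hN : n ≤ N0) (hρ : 0 ≤ ρ) {c c2 : ℝ} (hc : 0 ≤ c) (hc2 : 0 ≤ c2)
    (hw : c2 * (n * (vs A1 μ s sg n - vs A0 μ s sg n)) ≤ w) (z : ℤ) (hz0 : 0 ≤ z) (hz1 : z ≤ N0)
    (hz : ρ * w ≤ sg * (z - (sl μ s + sg * vs A1 μ s sg n) * N0)) :
    c * (A1 - A0) * c2 * ρ ≤ c / EE μ s n * e μ s N0 z := by
  have hom := ed_om_pos (n := n) h hd hsg h0 h01 hn
  have hw0 : 0 ≤ w := (mul_nonneg hc2 hom.le).trans hw
  have h1 := ed_out28 h hd hsg h0 h01 hn hN hρ hw0 z hz0 hz1 hz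
  have hE := EE_pos (μ := μ) (s := s) n
  have h2 : c2 ≤ w / (n * (vs A1 μ s sg n - vs A0 μ s sg n)) := (le_div_iff₀ hom).2 hw
  have h3 : (A1 - A0) * c2 * ρ ≤ A1 + ρ * (w / (n * (vs A1 μ s sg n - vs A0 μ s sg n))) * (A1 - A0) := by
    have h4 : ρ * c2 ≤ ρ * (w / (n * (vs A1 μ s sg n - vs A0 μ s sg n))) := mul_le_mul_of_nonneg_left h2 hρ
    have h5 := mul_le_mul_of_nonneg_right h4 (sub_nonneg.2 h01.le)
    have h6 : 0 ≤ A1 := h0.trans h01.le
    linarith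
  calc c * (A1 - A0) * c2 * ρ = c * ((A1 - A0) * c2 * ρ) := by ring
    _ ≤ c * (e μ s N0 z / EE μ s n) := by
        refine mul_le_mul_of_nonneg_left ?_ hc
        rw [le_div_iff₀ hE]
        exact (mul_le_mul_of_nonneg_right h3 hE.le).trans h1
    _ = _ := by ring

end

end Pool.Agent.W_7d29a1_H
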