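import Pool.Agent.W_7d29a1_H.PredH
import Pool.Agent.W_7d29a1_h66.D7a

/-!
MP_7d29a1_pr, TRACK H (all tilts): the form of (EL) which (D7) consumes. (helper66)
-/

set_option autoImplicit false

namespace Pool.Agent.W_7d29a1_H

open MeasureTheory ProbabilityTheory Filter Topology Set
open Pool.Agent.W_7d29a1_F Pool.Agent.W_7d29a1_h4g
open Pool.Agent.W_7d29a1_h66 (mx)

noncomputable section

/-- The slab of duration `t` from the cell `[0, w)` to the cell `[y0, y0 + w)`: the largest total weight of the ends. -/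
def GB66 (μ : Measure ℝ) (s : ℝ) (t w : ℕ) (y0 : ℤ) (η : Env) : ℝ :=
  mx (Finset.Ico 0 (w : ℤ)) fun a => ∑ b ∈ Finset.Ico 0 (w : ℤ), W μ s η (0, a) t (y0 + b - a)

/-- **(EL)** for a set of tilts: at a scale which is not soft there is a width `w`, comparable to the natural width, such that the box to
box weights have exponential tails in the distance, measured in cells, from the line of the slope `sl μ s`; `R`, `C`, `C₁` do not depend
on `A'`, `W₀`, the tilt, the scale. -/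
def ELH (a : ℝ) (μ : Measure ℝ) (A : Set ℝ) : Prop :=
  ∃ R C C₁ : ℝ, 1 ≤ C ∧ 0 ≤ C₁ ∧ ∀ A' : ℝ, R ≤ A' → ∀ W₀ : ℝ, ∃ (α : ℝ) (x₀ : ℕ), ∀ s ∈ A, ∀ x : ℕ, x₀ ≤ x →
    ¬ Sf μ s x α → ∃ w : ℕ, W₀ ≤ w ∧ (w : ℝ) ≤ C * wH a μ s (2 ^ x) ∧ wH a μ s (2 ^ x) ≤ C * w ∧
      ∀ t wq : ℕ, 1 ≤ t → t ≤ 2 ^ (x + 1) → w ≤ 2 * wq → wq ≤ w → ∀ y0 : ℤ,
        ∫ η, GB66 μ s t wq y0 η ^ (4 * (A' / (C * EE μ s (2 ^ x)))) ∂(law μ) ≤
          Real.exp (4 * (C₁ * A' - |(y0 : ℝ) - sl μ s * t| / wq))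

end

end Pool.Agent.W_7d29a1_H
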