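import Pool.Agent.W_7d29a1_H.SepH6
import Pool.Agent.W_7d29a1_H.WidthH
import Pool.Agent.W_7d29a1_H.Soft4
import Pool.Agent.W_1b8d5d_p.SlowP99

/-!
MP_7d29a1_pr, TRACK H, step (hF2) at all tilts: the numbers and the assembly; port of `W_1b8d5d_h6p/FinPD`. (helper6)
-/

set_option autoImplicit false

namespace Pool.Agent.W_7d29a1_H

open MeasureTheory ProbabilityTheory Filter Topology Set
open Pool.Agent.W_7d29a1_F Pool.Agent.W_7d29a1_h4g
open Pool.Agent.W_7d29a1_L (Mh T kap Bx)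
open Pool.Agent.W_7d29a1_h47 (EM Nondeg)

noncomputable section

/-- **The window**: in a slow window with flat widths (flat also on `j0` octaves before the window, `j0 ∈ Js`) there are, at every
duration `q`, `2 ^ x ≤ q ≤ 2 ^ (x + S)`, intervals of cheap displacements of the width `c8 v q`. -/
def WinH (Js : Set ℕ) (θ a : ℝ) (μ : Measure ℝ) (A : Set ℝ) : Prop :=
  ∃ c8 : ℝ, 0 < c8 ∧ ∀ T x2 : ℕ, (∀ s ∈ A, ∀ y : ℕ, x2 ≤ y → gg μ s y + 1 ≤ gg μ s (y + T)) →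
    ∀ (S : ℕ) (ε : ℝ), 0 < ε → ∃ j0 ∈ Js, ∃ (L x1 : ℕ) (δ : ℝ), 0 < δ ∧ ∀ s ∈ A, ∀ x : ℕ, x1 ≤ x → j0 ≤ x →
      (∀ j : ℕ, j ≤ L → gg μ s (x + j) ≤ gg μ s x + θ * j) → ff a μ s (x + L) < ff a μ s (x - j0) + δ →
      ∀ q : ℕ, 2 ^ x ≤ q → q ≤ 2 ^ (x + S) → ∃ lo hi : ℤ, 0 ≤ lo ∧ hi ≤ q ∧
        c8 * (vA a μ s (2 ^ x) * q) ≤ (hi : ℝ) - lo ∧ ∀ y : ℤ, lo ≤ y → y ≤ hi → e μ s q y ≤ ε * EE μ s (2 ^ x)

variable {μ : Measure ℝ} [IsProbabilityMeasure μ] {s a H δ : ℝ} {A : Set ℝ}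

/-- The mean positive part is the mean plus the mean negative part. -/
theorem ep_eq6 (hμ : EM μ) {m : ℕ} {k : ℤ} (hk : 0 ≤ k ∧ k ≤ m) :
    ep μ s m k = e μ s m k + ∫ η, max (-X μ s η 0 m k) 0 ∂(law μ) := by
  have hX := X_int hμ s 0 hk.1 hk.2
  have hN := Xn_int hμ s 0 hk.1 hk.2
  unfold ep e
  rw [← integral_add hX hN]
  refine integral_congr_ae (Filter.Eventually.of_forall fun η => ?_)
  show max (X μ s η 0 m k) 0 = X μ s η 0 m k + max (-X μ s η 0 m k) 0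
  rcases le_total 0 (X μ s η 0 m k) with h | h
  · rw [max_eq_left h, max_eq_right (by linarith)]
    ring
  · rw [max_eq_right h, max_eq_left (by linarith)]
    ring

/-- **(iv), (v)**: if the cost of a displacement is concentrated around some constant, then its mean positive part is at most a
multiple of its mean plus small quantities. -/
theorem ep_conc6 (hμ : EM μ) {m M : ℕ} {k : ℤ} (hk : 0 ≤ k ∧ k ≤ m) {c1 b ε α A δ : ℝ} (hb : 0 ≤ b)
    (hconc : (law μ).real {η | b < |X μ s η 0 m k - c1|} ≤ ε) {N : ℕ} (hN1 : 1 ≤ N) (hN : N * ε ≤ 1 / 2)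
    (hα : e μ s m k ≤ α) (hA : es μ s (N * m) ≤ A) (hδ : 0 < δ) (hδ1 : δ ≤ 1) (hmM : m ≤ M) (hM : 2 / δ * m ≤ M) :
    ep μ s m k ≤ α + (2 * b + (2 * α + 2 * A / N) + 7 * EE μ s M * (ε + δ)) := by
  have hN0 : (0 : ℝ) < N := by exact_mod_cast hN1
  have hk1 : 0 ≤ (N : ℤ) * k := mul_nonneg (Nat.cast_nonneg _) hk.1
  have hk2 : (N : ℤ) * k ≤ ((N * m : ℕ) : ℤ) := by
    push_cast
    exact mul_le_mul_of_nonneg_left hk.2 (Nat.cast_nonneg _)
  have hA' : ∫ η, max (X μ s η 0 (N * m) (N * k)) 0 ∂(law μ) ≤ N * α + A := by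
    have h1 := ep_le_es hμ s hk1 hk2
    have h2 := e_mul hμ s hk.1 hk.2 N
    have h3 := mul_le_mul_of_nonneg_left hα hN0.le
    have h4 : ∫ η, max (X μ s η 0 (N * m) (N * k)) 0 ∂(law μ) = ep μ s (N * m) (N * k) := rfl
    rw [h4]
    linarith
  have h1 := Pool.Agent.W_7d29a1_G.minus_small (s := s) hμ (m := m) (M := M) (k := k) hk hb hconc hN1 hN hA' (zs μ s)
    (fun j _ => zs_mem j) (A' := EE μ s M) (fun j hj => by
      have h2 : ∫ η, max (X μ s η 0 j (zs μ s j)) 0 ∂(law μ) = es μ s j := ep_zs j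
      rw [h2]
      have h3 := le_EE (μ := μ) (s := s) hj
      linarith) hδ hδ1 hmM hM
  rw [ep_eq6 hμ hk]
  have e1 : 2 * (N * α + A) / N = 2 * α + 2 * A / N := by
    field_simp
  rw [e1] at h1
  linarith

theorem EE_slow6 {x j : ℕ} {r : ℝ} (h : gg μ s (x + j) ≤ gg μ s x + r) :
    EE μ s (2 ^ (x + j)) ≤ (2 : ℝ) ^ r * EE μ s (2 ^ x) := by
  rw [← pow_gg, ← pow_gg, ← Real.rpow_add two_pos, add_comm r]
  exact Real.rpow_le_rpow_of_exponent_le one_le_two h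

omit [IsProbabilityMeasure μ] in
theorem rpow_786 (T : ℕ) (k l : ℕ) (h : 7 * k = 8 * l) : (2 : ℝ) ^ (7 / 8 * ((8 * T + k : ℕ) : ℝ)) = 2 ^ (7 * T + l) := by
  rw [← Real.rpow_natCast]
  congr 1
  push_cast
  have h1 : (7 : ℝ) * k = 8 * l := by exact_mod_cast h
  linarith

/-- **The core**: at one scale the intervals of cheap displacements, the exponential moments of the tilted lucks and slow growth
imply that the unit does not grow at all. -/
theorem scale_core6 (hμ : EM μ) {v0 : ℝ} (hv0 : 0 ≤ v0) (hv1 : v0 ≤ 1) {x T S : ℕ} (hTS : T ≤ S)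
    {c8 c C Cw E v w Y0 Z0 α ε : ℝ} (hE : E = EE μ s (2 ^ x)) (hc8 : 0 < c8) (hc : 0 < c) (hCw : 0 < Cw)
    (hv : 0 < v) (hw : 1 ≤ w) (hwv : w ≤ Cw * ((2 : ℝ) ^ x * v)) (hα : 0 ≤ α) (hY0 : 0 ≤ Y0) (hZ0 : 0 < Z0)
    (hint : ∀ q : ℕ, 2 ^ x ≤ q → q ≤ 2 ^ (x + S) → ∃ lo hi : ℤ, 0 ≤ lo ∧ hi ≤ q ∧ c8 * (v * q) ≤ (hi : ℝ) - lo ∧
      ∀ y : ℤ, lo ≤ y → y ≤ hi → e μ s q y ≤ α * E)
    (hL : ∀ h : ℝ, |h| ≤ c * E / w → ∀ z : ℝ, ∫ η, Real.exp (c / E * Mh μ s v0 h w z (2 ^ T * 2 ^ x) η) ∂(law μ) ≤ C)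
    (hlog : Real.log (2 * 2 ^ (x + T)) ≤ E) (hE3 : 48 * Real.log 2 ≤ E) (hE8 : 8 ≤ E)
    (hg : ∀ j : ℕ, j ≤ 8 * T + 80 → gg μ s (x + j) ≤ gg μ s x + 7 / 8 * j)
    (hε : ε = (1 / 2) ^ (7 * T + 79)) (h1 : 160 * α ≤ ε / 4) (h2 : 3 * (2 * (C * Real.exp (-(c * Y0)))) ≤ ε / 4)
    (h3 : 3 * ((α + 2 ^ T) / Z0) ≤ ε / 4) (h4 : 2 * (1 + 2 * Y0 + Z0 + c) ≤ c * c8 * 2 ^ S / Cw) :
    EE μ s (2 ^ (x + T)) ≤ E := by
  have hE0 : 0 < E := by linarith
  have hw0 : 0 < w := by linarith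
  have hε0 : 0 < ε := by rw [hε]; positivity
  have hε1 : ε ≤ 1 := by
    rw [hε]
    exact pow_le_one₀ (by norm_num) (by norm_num)
  have hslow : ∀ j : ℕ, j ≤ 8 * T + 80 → EE μ s (2 ^ (x + j)) ≤ (2 : ℝ) ^ (7 / 8 * (j : ℝ)) * E := by
    intro j hj
    have := EE_slow6 (hg j hj)
    rwa [← hE] at this
  refine EE_le fun m hm => ?_
  rcases le_total m (2 ^ x) with h | h
  · rw [hE]
    exact le_EE h
  have hm1 : 1 ≤ m := Nat.one_le_two_pow.trans h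
  have hpow : 2 ^ (x + T) ≤ 2 ^ (x + S) := Nat.pow_le_pow_right (by norm_num) (by omega)
  obtain ⟨y, hi', hy0, hy3, hy1, hy2⟩ := hint m h (hm.trans hpow)
  have hyi : y ≤ hi' := by
    have k1 : 0 ≤ c8 * (v * m) := by positivity
    have k2 : (y : ℝ) ≤ hi' := by linarith
    exact_mod_cast k2
  have hem := hy2 y le_rfl hyi
  have hym : 0 ≤ y ∧ y ≤ m := ⟨hy0, hyi.trans hy3⟩
  obtain ⟨lo, hi, hlo0, hhiq, hlh, hq⟩ := hint (2 ^ (x + S)) (Nat.pow_le_pow_right (by norm_num) (by omega)) le_rfl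
  have hlhi : lo ≤ hi := by
    have k1 : 0 ≤ c8 * (v * (2 ^ (x + S) : ℕ)) := by positivity
    have k2 : (lo : ℝ) ≤ hi := by linarith
    exact_mod_cast k2
  have ht0 : 0 < c * E / w := by positivity
  have htE : c * E / w ≤ c * E := div_le_self (by positivity) hw
  have hlogm : Real.log (2 * m) ≤ E := by
    refine le_trans (Real.log_le_log (by positivity) ?_) hlog
    have : (m : ℝ) ≤ 2 ^ (x + T) := by exact_mod_cast hm
    linarith
  have hsep : Real.log (2 * m) + 2 * (Y0 * E) + Z0 * E + c * E / w ≤ c * E / w * (((hi : ℝ) - lo) / 2) := by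
    have k1 : c * E / w * (c8 * (v * (2 ^ (x + S) : ℕ)) / 2) ≤ c * E / w * (((hi : ℝ) - lo) / 2) :=
      mul_le_mul_of_nonneg_left (by linarith) ht0.le
    have k2 : E * (c * c8 * 2 ^ S / Cw) ≤ 2 * (c * E / w * (c8 * (v * (2 ^ (x + S) : ℕ)) / 2)) := by
      have e1 : E * (c * c8 * 2 ^ S / Cw) = E * c * c8 * 2 ^ S / Cw := by ring
      have e2 : 2 * (c * E / w * (c8 * (v * (2 ^ (x + S) : ℕ)) / 2)) = E * c * c8 * 2 ^ S * (2 ^ x * v) / w := by
        push_cast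
        rw [pow_add]
        field_simp
      rw [e1, e2, div_le_div_iff₀ hCw hw0]
      have k3 := mul_le_mul_of_nonneg_left hwv (show 0 ≤ E * c * c8 * 2 ^ S by positivity)
      calc E * c * c8 * 2 ^ S * w ≤ E * c * c8 * 2 ^ S * (Cw * (2 ^ x * v)) := k3
        _ = E * c * c8 * 2 ^ S * (2 ^ x * v) * Cw := by ring
    have k4 := mul_le_mul_of_nonneg_left h4 hE0.le
    have k5 : Real.log (2 * m) + 2 * (Y0 * E) + Z0 * E + c * E / w ≤ E * (1 + 2 * Y0 + Z0 + c) := by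
      have : E * (1 + 2 * Y0 + Z0 + c) = E + 2 * (Y0 * E) + Z0 * E + c * E := by ring
      linarith
    linarith
  have hlh2 : 2 ≤ hi - lo := by
    have k1 : 0 ≤ Real.log (2 * m) := Real.log_nonneg (by
      have : (1 : ℝ) ≤ m := by exact_mod_cast hm1
      linarith)
    have k2 : c * E / w * 1 ≤ c * E / w * (((hi : ℝ) - lo) / 2) := by
      have : 0 ≤ Y0 * E := by positivity
      have : 0 ≤ Z0 * E := by positivity
      linarith
    have k3 := le_of_mul_le_mul_left k2 ht0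
    have k4 : (2 : ℝ) ≤ ((hi - lo : ℤ) : ℝ) := by
      push_cast
      linarith
    exact_mod_cast k4
  have hmT : m ≤ 2 ^ T * 2 ^ x := by
    rw [← pow_add, add_comm T x]
    exact hm
  have hb : 0 < E / 16 := by positivity
  obtain ⟨c1, hc1⟩ := conc6 (μ := μ) (s := s) hμ hv0 hv1 hw ht0.le (show 0 ≤ c / E by positivity) hmT hL
    (q := 2 ^ (x + S)) hlo0 hlh2 hhiq hym (α := α * E) (b := E / 16) (Y := Y0 * E) (Z := Z0 * E) (hq lo le_rfl hlhi)
    (hq hi hlhi le_rfl) hem hb (by positivity) hsep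
  have hesm : es μ s m ≤ 2 ^ T * E := by
    have k1 := le_EE (μ := μ) (s := s) hmT
    have k2 := EE_mul hμ s (2 ^ x) (show 1 ≤ 2 ^ T from Nat.one_le_two_pow)
    rw [← hE] at k2
    push_cast at k2
    linarith
  have hconc : (law μ).real {η | E / 8 < |X μ s η 0 m y - c1|} ≤ ε := by
    refine le_trans (measureReal_mono (s₂ := {η | E / 16 + 3 * Real.log 2 < |X μ s η 0 m y - c1|}) fun η hη => ?_)
      (hc1.trans ?_)
    · have hη' : E / 8 < |X μ s η 0 m y - c1| := hη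
      show E / 16 + 3 * Real.log 2 < |X μ s η 0 m y - c1|
      linarith
    have k1 : 10 * (α * E) / (E / 16) = 160 * α := by
      field_simp
      ring
    have k2 : c / E * (Y0 * E) = c * Y0 := by
      field_simp
    have k3 : (α * E + es μ s m) / (Z0 * E) ≤ (α + 2 ^ T) / Z0 := by
      rw [div_le_div_iff₀ (by positivity) hZ0]
      have k4 : α * E + es μ s m ≤ (α + 2 ^ T) * E := by linarith
      have k5 := mul_le_mul_of_nonneg_right k4 hZ0.le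
      linarith
    rw [k1, k2]
    linarith
  -- the mean positive part
  have hN1 : 1 ≤ 2 ^ (7 * T + 32) := Nat.one_le_two_pow
  have hNε : ((2 ^ (7 * T + 32) : ℕ) : ℝ) * ε ≤ 1 / 2 := by
    rw [hε]
    push_cast
    rw [show 7 * T + 79 = 7 * T + 32 + 47 by ring, pow_add (1 / 2 : ℝ) (7 * T + 32) 47, ← mul_assoc, ← mul_pow]
    norm_num
  have hesA : es μ s (2 ^ (7 * T + 32) * m) ≤ 2 ^ (7 * T + 28) * E := by
    have k1 : 2 ^ (7 * T + 32) * m ≤ 2 ^ (x + (8 * T + 32)) := by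
      calc 2 ^ (7 * T + 32) * m ≤ 2 ^ (7 * T + 32) * 2 ^ (x + T) := Nat.mul_le_mul_left _ hm
        _ = 2 ^ (x + (8 * T + 32)) := by rw [← pow_add]; congr 1; ring
    have k2 := le_EE (μ := μ) (s := s) k1
    have k3 := hslow (8 * T + 32) (by omega)
    rw [rpow_786 T 32 28 (by norm_num)] at k3
    linarith
  have hM : 2 / ε * m ≤ ((2 ^ (x + (8 * T + 80)) : ℕ) : ℝ) := by
    have k1 : (m : ℝ) ≤ 2 ^ (x + T) := by exact_mod_cast hm
    have k2 : 2 / ε = 2 ^ (7 * T + 80) := by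
      rw [hε, one_div, inv_pow, div_inv_eq_mul]
      rw [show 7 * T + 80 = 7 * T + 79 + 1 by ring, pow_succ]
      ring
    rw [k2]
    push_cast
    calc (2 : ℝ) ^ (7 * T + 80) * m ≤ 2 ^ (7 * T + 80) * 2 ^ (x + T) := mul_le_mul_of_nonneg_left k1 (by positivity)
      _ = 2 ^ (x + (8 * T + 80)) := by rw [← pow_add]; congr 1; ring
  have hmM : m ≤ 2 ^ (x + (8 * T + 80)) := hm.trans (Nat.pow_le_pow_right (by norm_num) (by omega))
  have hep := ep_conc6 (μ := μ) (s := s) hμ hym (by positivity : 0 ≤ E / 8) hconc hN1 hNε hem hesA hε0 hε1 hmM hM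
  have hA1 : 2 * ((2 : ℝ) ^ (7 * T + 28) * E) / ((2 ^ (7 * T + 32) : ℕ) : ℝ) = E / 8 := by
    have e1 : ((2 ^ (7 * T + 32) : ℕ) : ℝ) = 2 ^ (7 * T + 28) * 16 := by
      push_cast
      rw [show 7 * T + 32 = 7 * T + 28 + 4 by ring, pow_add (2 : ℝ) (7 * T + 28) 4]
      norm_num
    rw [e1]
    obtain ⟨P, hP, hP0⟩ : ∃ P : ℝ, P = 2 ^ (7 * T + 28) ∧ 0 < P := ⟨_, rfl, by positivity⟩
    rw [← hP]
    field_simp
    norm_num
  have hA2 : 7 * EE μ s (2 ^ (x + (8 * T + 80))) * (ε + ε) ≤ 14 / 512 * E := by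
    have k3 := hslow (8 * T + 80) le_rfl
    rw [rpow_786 T 80 70 (by norm_num)] at k3
    have k4 : (2 : ℝ) ^ (7 * T + 70) * ε = 1 / 512 := by
      rw [hε, show 7 * T + 79 = 7 * T + 70 + 9 by ring, pow_add (1 / 2 : ℝ) (7 * T + 70) 9, ← mul_assoc, ← mul_pow]
      norm_num
    have k5 := mul_le_mul_of_nonneg_right k3 (show 0 ≤ 14 * ε by positivity)
    calc 7 * EE μ s (2 ^ (x + (8 * T + 80))) * (ε + ε) = EE μ s (2 ^ (x + (8 * T + 80))) * (14 * ε) := by ring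
      _ ≤ 2 ^ (7 * T + 70) * E * (14 * ε) := k5
      _ = 14 * (2 ^ (7 * T + 70) * ε) * E := by ring
      _ = 14 / 512 * E := by rw [k4]; ring
  rw [hA1] at hep
  have hes := es_le (μ := μ) (s := s) hym.1 hym.2
  have hαE : α * E ≤ E / 64 := by
    have : α ≤ 1 / 64 := by linarith
    have := mul_le_mul_of_nonneg_right this hE0.le
    linarith
  linarith

/-! ### Uniformly in the tilt -/

omit [IsProbabilityMeasure μ] in
/-- If the unit doubles in `T` octaves, it is larger than any multiple of the number of octaves. -/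
theorem log_of_dbl6 [IsProbabilityMeasure μ] {T x0 : ℕ}
    (hdbl : ∀ s ∈ A, ∀ y : ℕ, x0 ≤ y → gg μ s y + 1 ≤ gg μ s (y + T)) (K : ℝ) :
    ∃ x1 : ℕ, ∀ s ∈ A, ∀ x : ℕ, x1 ≤ x → K * (x + 1) ≤ EE μ s (2 ^ x) := by
  rcases Nat.eq_zero_or_pos T with hT | hT
  · refine ⟨0, fun s hs x _ => ?_⟩
    have h1 := hdbl s hs x0 le_rfl
    rw [hT, add_zero] at h1
    linarith
  obtain ⟨K', hK'⟩ : ∃ K' : ℝ, K' = max K 1 := ⟨_, rfl⟩
  have hKK : K ≤ K' := by rw [hK']; exact le_max_left _ _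
  have hK1 : 1 ≤ K' := by rw [hK']; exact le_max_right _ _
  obtain ⟨R, hR⟩ : ∃ R : ℝ, R = K' * (x0 + 2 * T) := ⟨_, rfl⟩
  have hR0 : 0 < R := by
    rw [hR]
    have : (1 : ℝ) ≤ T := by exact_mod_cast hT
    positivity
  have hlim := tendsto_pow_const_mul_const_pow_of_abs_lt_one 1 (show |(1 / 2 : ℝ)| < 1 by
    rw [abs_of_pos (by norm_num)]
    norm_num)
  have hev := hlim.eventually (gt_mem_nhds (show (0 : ℝ) < 1 / R by positivity))
  rw [Filter.eventually_atTop] at hev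
  obtain ⟨k1, hk1⟩ := hev
  refine ⟨x0 + (max k1 1) * T, fun s hs x hx => ?_⟩
  obtain ⟨k, hk⟩ : ∃ k, k = (x - x0) / T := ⟨_, rfl⟩
  have hkk : max k1 1 ≤ k := by
    rw [hk, Nat.le_div_iff_mul_le hT]
    omega
  have hk1' : k1 ≤ k := (le_max_left _ _).trans hkk
  have hk0 : 1 ≤ k := (le_max_right _ _).trans hkk
  have hkx : x0 + k * T ≤ x := by
    have := Nat.div_mul_le_self (x - x0) T
    rw [← hk] at this
    omega
  have hxk : x < x0 + (k + 1) * T := by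
    have := Nat.lt_div_mul_add (a := x - x0) (b := T) hT
    rw [← hk] at this
    have e1 : (k + 1) * T = k * T + T := by ring
    omega
  -- the unit at `x0 + k T`
  have h1 : ∀ i : ℕ, (i : ℝ) ≤ gg μ s (x0 + i * T) := by
    intro i
    induction i with
    | zero =>
      rw [Nat.cast_zero, zero_mul, add_zero]
      unfold gg
      exact Real.logb_nonneg one_lt_two (one_le_EE _)
    | succ i ih =>
      have h2 := hdbl s hs (x0 + i * T) (by omega)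
      have e1 : x0 + i * T + T = x0 + (i + 1) * T := by ring
      rw [e1] at h2
      push_cast
      linarith
  have h2 : (2 : ℝ) ^ k ≤ EE μ s (2 ^ x) := by
    have h3 : (2 : ℝ) ^ k ≤ EE μ s (2 ^ (x0 + k * T)) := by
      rw [← pow_gg, ← Real.rpow_natCast]
      exact Real.rpow_le_rpow_of_exponent_le one_le_two (h1 k)
    exact h3.trans (EE_mono (Nat.pow_le_pow_right (by norm_num) hkx))
  have h3 := hk1 k hk1'
  rw [pow_one, one_div, inv_pow] at h3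
  have h4 : (k : ℝ) * R ≤ 2 ^ k := by
    have h5 : (0 : ℝ) < 2 ^ k := by positivity
    have h6 : (k : ℝ) * ((2 : ℝ) ^ k)⁻¹ < 1 / R := by
      simpa using h3
    rw [← div_eq_mul_inv, div_lt_div_iff₀ h5 hR0] at h6
    linarith
  have h5 : K * (x + 1) ≤ K' * ((x : ℝ) + 1) := mul_le_mul_of_nonneg_right hKK (by positivity)
  have h6 : (x : ℝ) + 1 ≤ k * (x0 + 2 * T) := by
    have h7 : x + 1 ≤ x0 + (k + 1) * T := hxk
    have h8 : x0 + (k + 1) * T ≤ k * (x0 + 2 * T) := by nlinarith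
    exact_mod_cast h7.trans h8
  have h7 : K' * ((x : ℝ) + 1) ≤ K' * (k * (x0 + 2 * T)) := mul_le_mul_of_nonneg_left h6 (by linarith)
  have h8 : K' * (k * ((x0 : ℝ) + 2 * T)) = k * R := by rw [hR]; ring
  linarith

/-- **(hF2)**, uniformly, with `j0` octaves before the window. -/
theorem hF2s6 {Js : Set ℕ} {θ a' : ℝ} (hD : Dirs μ H δ A) (hA : 0 < a) (hG : Grow μ A) (ha : 0 < a')
    (hLS : LStarH a' μ A) (hθ : θ ≤ 7 / 8) (hT : WinH Js θ a μ A) {T x0 : ℕ}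
    (hdbl : ∀ s ∈ A, ∀ y : ℕ, x0 ≤ y → gg μ s y + 1 ≤ gg μ s (y + T)) :
    ∃ j0 ∈ Js, ∃ (L x1 : ℕ) (δ : ℝ), 0 < δ ∧ ∀ s ∈ A, ∀ x : ℕ, x1 ≤ x → j0 ≤ x →
      (∀ j : ℕ, j ≤ L → gg μ s (x + j) ≤ gg μ s x + θ * j) → ff a μ s (x - j0) + δ ≤ ff a μ s (x + L) := by
  obtain ⟨c8, hc8, hM⟩ := hT
  obtain ⟨c, C0, n0, hc, hLS⟩ := hLS (2 ^ T)
  obtain ⟨C, hC⟩ : ∃ C, C = max C0 1 := ⟨_, rfl⟩
  have hCC : C0 ≤ C := by rw [hC]; exact le_max_left _ _
  have hC1 : 1 ≤ C := by rw [hC]; exact le_max_right _ _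
  have hC0 : 0 < C := by linarith
  obtain ⟨Cw, hCw⟩ : ∃ Cw, Cw = max (a' / a) (a / a') := ⟨_, rfl⟩
  have hCw0 : 0 < Cw := by
    rw [hCw]
    exact lt_max_of_lt_left (by positivity)
  obtain ⟨ε, hε⟩ : ∃ ε : ℝ, ε = (1 / 2) ^ (7 * T + 79) := ⟨_, rfl⟩
  have hε0 : 0 < ε := by rw [hε]; positivity
  have hε1 : ε ≤ 1 := by
    rw [hε]
    exact pow_le_one₀ (by norm_num) (by norm_num)
  obtain ⟨α, hα⟩ : ∃ α : ℝ, α = ε / 640 := ⟨_, rfl⟩
  have hα0 : 0 < α := by rw [hα]; positivity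
  obtain ⟨Y0, hY0⟩ : ∃ Y0 : ℝ, Y0 = Real.log (24 * C / ε) / c := ⟨_, rfl⟩
  have hY00 : 0 ≤ Y0 := by
    rw [hY0]
    refine div_nonneg (Real.log_nonneg ?_) hc.le
    rw [le_div_iff₀ hε0]
    linarith
  obtain ⟨Z0, hZ0⟩ : ∃ Z0 : ℝ, Z0 = 12 * (α + 2 ^ T) / ε := ⟨_, rfl⟩
  have hZ00 : 0 < Z0 := by rw [hZ0]; positivity
  obtain ⟨S1, hS1⟩ := pow_unbounded_of_one_lt (2 * (1 + 2 * Y0 + Z0 + c) * Cw / (c * c8)) (one_lt_two (α := ℝ))
  obtain ⟨S, hS⟩ : ∃ S, S = max T S1 := ⟨_, rfl⟩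
  obtain ⟨j0, hj0, L, x1, δ', hδ', hmain⟩ := hM T x0 hdbl S α hα0
  obtain ⟨nG, hnG⟩ := hG (max (1 / (2 * a')) (max (48 * Real.log 2) 8))
  obtain ⟨xl, hxl⟩ := log_of_dbl6 (μ := μ) (A := A) hdbl (T + 1)
  refine ⟨j0, hj0, max L (8 * T + 80), max x1 (max n0 (max nG (max x0 xl))), δ', hδ',
    fun s hd x hx hxj hslow => ?_⟩
  by_contra hcon
  push Not at hcon
  have hx1 : x1 ≤ x := (le_max_left _ _).trans hx
  have hx' := (le_max_right _ _).trans hx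
  have hxn0 : n0 ≤ 2 ^ x := ((le_max_left _ _).trans hx').trans Nat.lt_two_pow_self.le
  have hx'' := (le_max_right _ _).trans hx'
  have hxnG : nG ≤ 2 ^ x := ((le_max_left _ _).trans hx'').trans Nat.lt_two_pow_self.le
  have hx3 := (le_max_right _ _).trans hx''
  have hxx0 : x0 ≤ x := (le_max_left _ _).trans hx3
  have hxxl : xl ≤ x := (le_max_right _ _).trans hx3
  have hint := hmain s hd x hx1 hxj (fun j hj => hslow j (hj.trans (le_max_left _ _)))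
    (lt_of_le_of_lt (ff_mono hD hA hd (Nat.add_le_add_left (le_max_left _ _) x)) hcon)
  obtain ⟨hv0, hv1⟩ := hD.sl01_4 hd
  have hE := EE_pos (μ := μ) (s := s) (2 ^ x)
  have hEbig := hnG s hd (2 ^ x) hxnG
  have hE1 := (le_max_left _ _).trans hEbig
  have hE2 := (le_max_left _ _).trans ((le_max_right _ _).trans hEbig)
  have hE3 := (le_max_right _ _).trans ((le_max_right _ _).trans hEbig)
  have hv : 0 < vA a μ s (2 ^ x) := hD.vA_pos hd hA Nat.one_le_two_pow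
  have hw1 : 1 ≤ wH a' μ s (2 ^ x) := by
    have h1 := le_wH4 hD hd ha (n := 2 ^ x) Nat.one_le_two_pow
    have h2 : 1 ≤ 2 * a' * EE μ s (2 ^ x) := by
      rw [div_le_iff₀ (by positivity)] at hE1
      linarith
    linarith
  have hw0 : 0 < wH a' μ s (2 ^ x) := by linarith
  have hcore := scale_core6 (s := s) (S := S) hD.em hv0 hv1 (x := x) (T := T) (by rw [hS]; exact le_max_left _ _)
    (c8 := c8) (c := c) (C := C) (Cw := Cw) (E := EE μ s (2 ^ x)) (v := vA a μ s (2 ^ x)) (w := wH a' μ s (2 ^ x))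
    (Y0 := Y0) (Z0 := Z0) (α := α) (ε := ε) rfl hc8 hc hCw0 hv hw1 ?_ hα0.le hY00 hZ00 hint
    (fun h hh z => ?_) ?_ hE2 hE3 (fun j hj => ?_) hε ?_ ?_ ?_ ?_
  · have h1 := hdbl s hd x hxx0
    have h2 : 2 * EE μ s (2 ^ x) ≤ EE μ s (2 ^ (x + T)) := by
      rw [← pow_gg, ← pow_gg]
      calc (2 : ℝ) * 2 ^ gg μ s x = 2 ^ (gg μ s x + 1) := by rw [Real.rpow_add two_pos, Real.rpow_one, mul_comm]
        _ ≤ 2 ^ gg μ s (x + T) := Real.rpow_le_rpow_of_exponent_le one_le_two h1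
    linarith
  · have h1 := vA_change hD hd hA ha (2 ^ x)
    rw [← hCw] at h1
    have h2 := mul_le_mul_of_nonneg_left h1 (show (0 : ℝ) ≤ 2 ^ x by positivity)
    unfold wH
    push_cast
    calc (2 : ℝ) ^ x * vA a' μ s (2 ^ x) ≤ 2 ^ x * (Cw * vA a μ s (2 ^ x)) := h2
      _ = Cw * (2 ^ x * vA a μ s (2 ^ x)) := by ring
  · refine (hLS s hd (2 ^ x) hxn0 h z ?_).trans hCC
    rw [le_div_iff₀ hw0] at hh
    exact hh
  · have h1 := hxl s hd x hxxl
    have h2 : Real.log (2 * 2 ^ (x + T)) ≤ (x : ℝ) + T + 1 := by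
      have e1 : (2 : ℝ) * 2 ^ (x + T) = 2 ^ (x + T + 1) := by ring
      rw [e1, Real.log_pow]
      have h3 : Real.log 2 ≤ 1 := by
        have := Real.log_two_lt_d9
        linarith
      have h4 := mul_le_mul_of_nonneg_left h3 (show (0 : ℝ) ≤ ((x + T + 1 : ℕ) : ℝ) from Nat.cast_nonneg _)
      push_cast at h4 ⊢
      linarith
    have h3 : (x : ℝ) + T + 1 ≤ ((T : ℝ) + 1) * (x + 1) := by
      have : 0 ≤ (T : ℝ) * x := by positivity
      nlinarith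
    linarith
  · have h1 := hslow j (hj.trans (le_max_right _ _))
    have h2 := mul_le_mul_of_nonneg_right hθ (Nat.cast_nonneg (α := ℝ) j)
    linarith
  · rw [hα]
    linarith
  · rw [hY0, mul_div_cancel₀ _ hc.ne', ← Real.log_inv, Real.exp_log (by positivity)]
    refine le_of_eq ?_
    field_simp
    norm_num
  · rw [hZ0]
    refine le_of_eq ?_
    field_simp
    norm_num
  · rw [le_div_iff₀ hCw0]
    rw [div_lt_iff₀ (by positivity)] at hS1
    have h1 : (2 : ℝ) ^ S1 ≤ 2 ^ S := pow_le_pow_right₀ one_le_two (by rw [hS]; exact le_max_right _ _)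
    have h2 := mul_le_mul_of_nonneg_right h1 (show 0 ≤ c * c8 by positivity)
    linarith

/-- **(hF2)** from the window without octaves before it (exponent `3 / 4`). -/
theorem hF2H6 {a' : ℝ} (hD : Dirs μ H δ A) (hA : 0 < a) (hG : Grow μ A) (ha : 0 < a') (hLS : LStarH a' μ A)
    (hT : WinH {0} (3 / 4) a μ A) : HF2H a μ A := by
  intro T x0 b hdbl _ _
  obtain ⟨j0, hj0, L, x1, δ', hδ', h⟩ := hF2s6 hD hA hG ha hLS (by norm_num) hT hdbl
  obtain rfl : j0 = 0 := hj0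
  exact ⟨L, x1, δ', hδ', fun s hd x hx hs => h s hd x hx (Nat.zero_le x) hs⟩

/-- **(hF2)**, the version with octaves before the window (exponent `7 / 8`). -/
theorem hF2H6' {a' : ℝ} {Js : Set ℕ} (hD : Dirs μ H δ A) (hA : 0 < a) (hG : Grow μ A) (ha : 0 < a')
    (hLS : LStarH a' μ A) (hT : WinH Js (7 / 8) a μ A) : HF2H a μ A := by
  intro T x0 b hdbl _ _
  obtain ⟨j0, hj0, L, x1, δ', hδ', h⟩ := hF2s6 hD hA hG ha hLS le_rfl hT hdbl
  obtain ⟨L0, -, h0⟩ := Pool.Agent.W_1b8d5d_p.slow_start (ι := A) (g := fun s x => gg μ s.1 x) (f := fun s x => ff a μ s.1 x)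
    (fun s => gg_mono (μ := μ) (s := s.1)) (fun s => ff_mono hD hA s.2) (θ := 3 / 4) (θ' := 7 / 8) (by norm_num) (by norm_num)
    (j0 := j0) (L := L) (x1 := x1) (δ := δ') (fun s x hx hxj hs => h s.1 s.2 x hx hxj hs)
  exact ⟨L0, x1, δ', hδ', fun s hd x hx hs => h0 ⟨s, hd⟩ x hx hs⟩

end

end Pool.Agent.W_7d29a1_H
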