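import Pool.Agent.W_7d29a1_H.LamH
import Pool.Agent.W_7d29a1_L.LsA1
import Pool.Agent.W_7d29a1_L.LsA4
import Pool.Agent.W_7d29a1_h82g.CellSum
import Pool.Agent.W_7d29a1_G.Unit2a

/-!
MP_7d29a1_pr, TRACK H, FRAME: ONE CONE, at every tilt `s` and in every frame `v`. Exponential moments of the tilted lucks of the boxes
of one scale bound the drifts `kap μ s v h`, and so the rate function is above a cone. (helper78)
-/

set_option autoImplicit false

namespace Pool.Agent.W_7d29a1_H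

open MeasureTheory ProbabilityTheory Filter Topology Set
open Pool.Agent.W_7d29a1_F
open Pool.Agent.W_7d29a1_L (Mh T kap Bx mem_Bx le_Mh Mh_nonneg Sub_Mh exp_T)
open Pool.Agent.W_7d29a1_h82g
open Pool.Agent.W_7d29a1_h47 (EM Nondeg)

noncomputable section

variable {μ : Measure ℝ} {s v : ℝ}

/-- The number of cells between, minus one. -/
def fr78 (x : ℝ) : ℝ := max (|x| - 1) 0

theorem fr78_nonneg (x : ℝ) : 0 ≤ fr78 x := le_max_right _ _

theorem le_fr78 (x : ℝ) : |x| - 1 ≤ fr78 x := le_max_left _ _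

/-- The sum over the cells, for a drift of `K` cells. -/
theorem sum_fr78 {a : ℝ} (ha : 0 < a) {K : ℝ} (hK : 0 ≤ K) (R : ℕ) :
    ∑ D ∈ Finset.Icc (-(R : ℤ)) R, Real.exp (-(a * fr78 (K + D))) * Real.exp (a / 2 * D) ≤
      Real.exp (2 * a) * (5 + 4 / a) * Real.exp (-(a / 2 * K)) := by
  classical
  obtain ⟨k0, hk0⟩ : ∃ k0 : ℤ, k0 = ⌊K⌋ := ⟨_, rfl⟩
  have h1 : (k0 : ℝ) ≤ K := by rw [hk0]; exact Int.floor_le K
  have h2 : K < k0 + 1 := by rw [hk0]; exact Int.lt_floor_add_one K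
  have hk00 : 0 ≤ k0 := by rw [hk0]; exact Int.floor_nonneg.2 hK
  obtain ⟨f, hf⟩ : ∃ f : ℤ → ℝ, f = fun j : ℤ => Real.exp (-(a / 2 * max (|(j : ℝ)| - 1) 0)) := ⟨_, rfl⟩
  have h3 : ∀ D ∈ Finset.Icc (-(R : ℤ)) R, Real.exp (-(a * fr78 (K + D))) * Real.exp (a / 2 * D) ≤
      Real.exp (2 * a) * Real.exp (-(a / 2 * K)) * f (k0 + D) := by
    intro D _
    rw [hf]
    show _ ≤ Real.exp (2 * a) * Real.exp (-(a / 2 * K)) * Real.exp (-(a / 2 * max (|((k0 + D : ℤ) : ℝ)| - 1) 0))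
    rw [← Real.exp_add, ← Real.exp_add, ← Real.exp_add, Real.exp_le_exp]
    have g1 := le_fr78 (K + D)
    have g2 : |((k0 + D : ℤ) : ℝ)| ≤ |K + D| + 1 := by
      push_cast
      have g3 : (k0 : ℝ) + D = (K + D) + (k0 - K) := by ring
      rw [g3]
      refine (abs_add_le _ _).trans ?_
      have : |(k0 : ℝ) - K| ≤ 1 := by
        rw [abs_le]
        constructor <;> linarith
      linarith
    have g4 : max (|((k0 + D : ℤ) : ℝ)| - 1) 0 ≤ fr78 (K + D) + 1 := by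
      refine max_le (by linarith) ?_
      linarith [fr78_nonneg (K + D)]
    have g5 := le_abs_self (K + (D : ℝ))
    have g6 : a / 2 * max (|((k0 + D : ℤ) : ℝ)| - 1) 0 ≤ a / 2 * (fr78 (K + D) + 1) :=
      mul_le_mul_of_nonneg_left g4 (by positivity)
    have g7 : a / 2 * (K + D - 1) ≤ a / 2 * fr78 (K + D) := mul_le_mul_of_nonneg_left (by linarith) (by positivity)
    linarith
  refine (Finset.sum_le_sum h3).trans ?_
  rw [← Finset.mul_sum]
  have h4 : ∑ D ∈ Finset.Icc (-(R : ℤ)) R, f (k0 + D) ≤ 5 + 4 / a := by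
    have e1 : ∑ D ∈ Finset.Icc (-(R : ℤ)) R, f (k0 + D) =
        ∑ j ∈ (Finset.Icc (-(R : ℤ)) R).image (fun D : ℤ => k0 + D), f j := by
      rw [Finset.sum_image]
      intro x _ y _ hxy
      simpa using hxy
    rw [e1]
    obtain ⟨k1, hk1⟩ : ∃ k1 : ℕ, (k1 : ℤ) = k0 := ⟨k0.toNat, Int.toNat_of_nonneg hk00⟩
    refine (Finset.sum_le_sum_of_subset_of_nonneg
      (t := Finset.Icc (-((k1 + R : ℕ) : ℤ)) ((k1 + R : ℕ) : ℤ)) ?_ ?_).trans ?_
    · intro j hj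
      rw [Finset.mem_image] at hj
      obtain ⟨D, hD, rfl⟩ := hj
      rw [Finset.mem_Icc] at hD ⊢
      push_cast
      constructor <;> linarith [hD.1, hD.2]
    · intro j _ _
      rw [hf]
      exact (Real.exp_pos _).le
    · have h5 := Pool.Agent.W_7d29a1_L.sum_far (x := a / 2) (by positivity) (k1 + R)
      rw [hf]
      refine h5.trans (le_of_eq ?_)
      field_simp
      ring
  have h5 := mul_le_mul_of_nonneg_left h4 (show 0 ≤ Real.exp (2 * a) * Real.exp (-(a / 2 * K)) by positivity)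
  linarith

/-- The same for a drift of either sign. -/
theorem sum_fr78' {a : ℝ} (ha : 0 < a) {K ε : ℝ} (hε : ε = 1 ∨ ε = -1) (hK : 0 ≤ ε * K) (R : ℕ) :
    ∑ D ∈ Finset.Icc (-(R : ℤ)) R, Real.exp (-(a * fr78 (K + D))) * Real.exp (ε * (a / 2) * D) ≤
      Real.exp (2 * a) * (5 + 4 / a) * Real.exp (-(a / 2 * |K|)) := by
  classical
  rcases hε with rfl | rfl
  · rw [one_mul] at hK
    rw [abs_of_nonneg hK]
    simpa using sum_fr78 ha hK R
  · have hK' : 0 ≤ -K := by linarith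
    rw [abs_of_nonpos (by linarith : K ≤ 0)]
    have h1 := sum_fr78 ha hK' R
    refine le_trans (le_of_eq ?_) h1
    refine Finset.sum_nbij' (fun D => -D) (fun D => -D) ?_ ?_ ?_ ?_ ?_
    · intro D hD
      rw [Finset.mem_Icc] at hD ⊢
      constructor <;> linarith [hD.1, hD.2]
    · intro D hD
      rw [Finset.mem_Icc] at hD ⊢
      constructor <;> linarith [hD.1, hD.2]
    · intro D _
      exact neg_neg D
    · intro D _
      exact neg_neg D
    · intro D _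
      have e1 : fr78 (-K + ((-D : ℤ) : ℝ)) = fr78 (K + D) := by
        unfold fr78
        push_cast
        rw [show -K + -(D : ℝ) = -(K + D) by ring, abs_neg]
      rw [e1]
      congr 2
      push_cast
      ring

/-- A sum over distinct displacements is at most the sum over all displacements. -/
theorem sum_inj78 (f : ℤ → ℝ) {n : ℕ} (h0 : ∀ y, 0 ≤ f y) (hz : ∀ y, ¬ (0 ≤ y ∧ y ≤ (n : ℤ)) → f y = 0) (m : ℕ)
    (a : ℤ) : ∑ l ∈ Finset.range m, f (a + l) ≤ ∑ y ∈ Finset.Icc (0 : ℤ) n, f y := by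
  classical
  have h1 : ∑ l ∈ Finset.range m, f (a + l) = ∑ y ∈ (Finset.range m).image (fun l : ℕ => a + (l : ℤ)), f y := by
    rw [Finset.sum_image]
    intro x _ y _ hxy
    simpa using hxy
  rw [h1, ← Finset.sum_filter_add_sum_filter_not _ (fun y => 0 ≤ y ∧ y ≤ (n : ℤ))]
  have h2 : ∑ y ∈ ((Finset.range m).image (fun l : ℕ => a + (l : ℤ))).filter (fun y => ¬ (0 ≤ y ∧ y ≤ (n : ℤ))), f y = 0 :=
    Finset.sum_eq_zero fun y hy => hz y (Finset.mem_filter.1 hy).2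
  rw [h2, add_zero]
  refine Finset.sum_le_sum_of_subset_of_nonneg (fun y hy => ?_) fun y _ _ => h0 y
  rw [Finset.mem_Icc]
  exact (Finset.mem_filter.1 hy).2

/-- The largest weight from the first cell to the cell `D`, in the frame of the displacement `d`. -/
theorem Gc_le78 (hv0 : 0 ≤ v) (hv1 : v ≤ 1) {r W0 : ℝ} (hr : 0 ≤ r) {w' n : ℕ} (hw : ((w' + 1 : ℕ) : ℝ) ≤ W0) {d : ℤ} {K : ℝ}
    (hK : K * (w' + 1) = d - v * n) (D : ℤ) (η : Env) :
    Gc μ s w' n d D η ≤ Real.exp (-(r * (w' + 1) * fr78 (K + D))) *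
      (Real.exp (Mh μ s v r W0 (-1) n η) + Real.exp (Mh μ s v (-r) W0 (-1) n η)) := by
  refine Finset.sup'_le _ _ fun i hi => ?_
  rw [Finset.mem_range] at hi
  have hi' : (i : ℝ) ≤ w' := by exact_mod_cast Nat.lt_succ_iff.1 hi
  push_cast at hw
  have hbx : (((0, (i : ℤ)), n) : (ℕ × ℤ) × ℕ) ∈ Bx v W0 (-1) n := by
    rw [mem_Bx hv0 hv1]
    refine ⟨by simp, ?_, ?_⟩
    · push_cast
      have : (0 : ℝ) ≤ i := Nat.cast_nonneg i
      linarith
    · push_cast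
      linarith
  have h1 := le_Mh (μ := μ) (s := s) (h := r) η hbx
  have h2 := le_Mh (μ := μ) (s := s) (h := -r) η hbx
  simp only [Nat.cast_zero] at h1 h2
  obtain ⟨f, hf⟩ : ∃ f : ℤ → ℝ, f = fun y => W μ s η ((0 : ℤ), (i : ℤ)) n y *
      (Real.exp (r * ((y : ℝ) - v * n)) + Real.exp (-r * ((y : ℝ) - v * n))) := ⟨_, rfl⟩
  have hf0 : ∀ y, 0 ≤ f y := fun y => by
    rw [hf]
    exact mul_nonneg (W_nonneg _ _ _ _) (by positivity)
  have hfz : ∀ y, ¬ (0 ≤ y ∧ y ≤ (n : ℤ)) → f y = 0 := fun y hy => by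
    rw [hf]
    show W μ s η ((0 : ℤ), (i : ℤ)) n y * _ = 0
    rw [W_eq_zero η _ hy, zero_mul]
  have h3 : ∑ y ∈ Finset.Icc (0 : ℤ) n, f y =
      Real.exp (T μ s v r η ((0 : ℤ), (i : ℤ)) n) + Real.exp (T μ s v (-r) η ((0 : ℤ), (i : ℤ)) n) := by
    rw [exp_T, exp_T, ← Finset.sum_add_distrib, hf]
    exact Finset.sum_congr rfl fun y _ => by ring
  have h4 : ∀ l ∈ Finset.range (w' + 1), W μ s η ((0 : ℤ), (i : ℤ)) n (d + D * (w' + 1) + l - i) ≤
      Real.exp (-(r * (w' + 1) * fr78 (K + D))) * f ((d + D * (w' + 1) - i) + l) := by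
    intro l hl
    rw [Finset.mem_range] at hl
    have e1 : d + D * (w' + 1) + (l : ℤ) - i = (d + D * (w' + 1) - i) + l := by ring
    rw [e1]
    obtain ⟨y, hy⟩ : ∃ y : ℤ, y = (d + D * (w' + 1) - i) + l := ⟨_, rfl⟩
    rw [← hy]
    have hW := W_nonneg (μ := μ) (s := s) η ((0 : ℤ), (i : ℤ)) n y
    have hl' : (l : ℝ) ≤ w' := by exact_mod_cast Nat.lt_succ_iff.1 hl
    -- the relative displacement
    have hr1 : (w' + 1 : ℝ) * fr78 (K + D) ≤ |(y : ℝ) - v * n| := by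
      have hy' : (y : ℝ) - v * n = (K + D) * (w' + 1) + ((l : ℝ) - i) := by
        rw [hy]
        push_cast
        linarith
      have hli : |((l : ℝ) - i)| ≤ w' + 1 := by
        have h7 : (0 : ℝ) ≤ l := Nat.cast_nonneg l
        have h8 : (0 : ℝ) ≤ i := Nat.cast_nonneg i
        rw [abs_le]
        constructor <;> linarith
      rw [hy']
      have hw0 : (0 : ℝ) ≤ (w' : ℝ) + 1 := by positivity
      have h9 : |(K + D) * ((w' : ℝ) + 1)| = |K + D| * (w' + 1) := by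
        rw [abs_mul, abs_of_nonneg hw0]
      have h10 : |K + D| * (w' + 1) - (w' + 1) ≤ |(K + D) * ((w' : ℝ) + 1) + ((l : ℝ) - i)| := by
        have := abs_sub_abs_le_abs_add ((K + D) * ((w' : ℝ) + 1)) ((l : ℝ) - i)
        rw [h9] at this
        linarith
      unfold fr78
      rcases le_total (|K + D| - 1) 0 with h | h
      · rw [max_eq_right h, mul_zero]
        exact abs_nonneg _
      · rw [max_eq_left h]
        linarith
    have h5 : Real.exp (r * (w' + 1) * fr78 (K + D)) ≤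
        Real.exp (r * ((y : ℝ) - v * n)) + Real.exp (-r * ((y : ℝ) - v * n)) := by
      have h6 : r * (w' + 1) * fr78 (K + D) ≤ r * |(y : ℝ) - v * n| := by
        rw [mul_assoc]
        exact mul_le_mul_of_nonneg_left hr1 hr
      refine (Real.exp_le_exp.2 h6).trans ?_
      rcases abs_cases ((y : ℝ) - v * n) with ⟨h7, _⟩ | ⟨h7, _⟩
      · rw [h7]
        linarith [Real.exp_pos (-r * ((y : ℝ) - v * n))]
      · rw [h7]
        have e2 : r * -((y : ℝ) - v * n) = -r * ((y : ℝ) - v * n) := by ring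
        rw [e2]
        linarith [Real.exp_pos (r * ((y : ℝ) - v * n))]
    rw [hf]
    show W μ s η ((0 : ℤ), (i : ℤ)) n y ≤ Real.exp (-(r * (w' + 1) * fr78 (K + D))) *
      (W μ s η ((0 : ℤ), (i : ℤ)) n y * (Real.exp (r * ((y : ℝ) - v * n)) + Real.exp (-r * ((y : ℝ) - v * n))))
    have h6 := mul_le_mul_of_nonneg_left h5 (mul_nonneg (Real.exp_pos (-(r * (w' + 1) * fr78 (K + D)))).le hW)
    have e3 : Real.exp (-(r * (w' + 1) * fr78 (K + D))) * W μ s η ((0 : ℤ), (i : ℤ)) n y *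
        Real.exp (r * (w' + 1) * fr78 (K + D)) = W μ s η ((0 : ℤ), (i : ℤ)) n y := by
      rw [mul_comm (Real.exp _) (W _ _ _ _ _ _), mul_assoc, ← Real.exp_add, neg_add_cancel, Real.exp_zero, mul_one]
    rw [e3] at h6
    linarith
  refine (Finset.sum_le_sum h4).trans ?_
  rw [← Finset.mul_sum]
  refine mul_le_mul_of_nonneg_left ?_ (Real.exp_pos _).le
  refine (sum_inj78 f hf0 hfz _ _).trans ?_
  rw [h3]
  exact add_le_add (Real.exp_le_exp.2 h1) (Real.exp_le_exp.2 h2)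

variable [IsProbabilityMeasure μ]

/-- The moment of the cell weights. -/
theorem int_Gc78 (hμ : EM μ) (hv0 : 0 ≤ v) (hv1 : v ≤ 1) {r W0 θ D0 : ℝ} (hr : 0 ≤ r) (hθ0 : 0 < θ) (hθ1 : θ ≤ 1) {w' n : ℕ}
    (hw : ((w' + 1 : ℕ) : ℝ) ≤ W0) {d : ℤ} {K : ℝ} (hK : K * (w' + 1) = d - v * n)
    (hM1 : ∫ η, Real.exp (θ * Mh μ s v r W0 (-1) n η) ∂(law μ) ≤ D0)
    (hM2 : ∫ η, Real.exp (θ * Mh μ s v (-r) W0 (-1) n η) ∂(law μ) ≤ D0) (D : ℤ) :
    ∫ η, Gc μ s w' n d D η ^ θ ∂(law μ) ≤ 2 * D0 * Real.exp (-(θ * (r * (w' + 1)) * fr78 (K + D))) := by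
  have hi : ∀ r : ℝ, Integrable (fun η => Real.exp (θ * Mh μ s v r W0 (-1) n η)) (law μ) := fun r =>
    (Sub_Mh.const_mul θ).exp_int hμ
  have hpt : ∀ η : Env, Gc μ s w' n d D η ^ θ ≤ Real.exp (-(θ * (r * (w' + 1)) * fr78 (K + D))) *
      (Real.exp (θ * Mh μ s v r W0 (-1) n η) + Real.exp (θ * Mh μ s v (-r) W0 (-1) n η)) := by
    intro η
    have h1 := Real.rpow_le_rpow (Gc_nonneg _ _ _ _ _) (Gc_le78 (μ := μ) (s := s) hv0 hv1 hr hw hK D η) hθ0.le
    refine h1.trans ?_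
    rw [Real.mul_rpow (Real.exp_pos _).le (by positivity)]
    have h2 := Real.rpow_add_le_add_rpow (Real.exp_pos (Mh μ s v r W0 (-1) n η)).le
      (Real.exp_pos (Mh μ s v (-r) W0 (-1) n η)).le hθ0.le hθ1
    rw [← Real.exp_mul, ← Real.exp_mul, mul_comm _ θ, mul_comm _ θ] at h2
    refine mul_le_mul ?_ h2 (by positivity) (Real.exp_pos _).le
    rw [← Real.exp_mul, Real.exp_le_exp]
    linarith
  refine (integral_mono (integrable_Gc hμ w' n _ D hθ0.le) (((hi r).add (hi (-r))).const_mul _) hpt).trans ?_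
  rw [integral_const_mul]
  have h3 : ∫ a, ((fun η : Env => Real.exp (θ * Mh μ s v r W0 (-1) n η)) +
      fun η : Env => Real.exp (θ * Mh μ s v (-r) W0 (-1) n η)) a ∂(law μ) =
      ∫ η, Real.exp (θ * Mh μ s v r W0 (-1) n η) ∂(law μ) + ∫ η, Real.exp (θ * Mh μ s v (-r) W0 (-1) n η) ∂(law μ) :=
    integral_add' (hi r) (hi (-r))
  rw [h3]
  have h4 := mul_le_mul_of_nonneg_left (add_le_add hM1 hM2) (Real.exp_pos (-(θ * (r * (w' + 1)) * fr78 (K + D)))).le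
  refine h4.trans (le_of_eq (by ring))

/-- **The drifts.** -/
theorem kap_cone78 (hμ : EM μ) (hv0 : 0 ≤ v) (hv1 : v ≤ 1) {r W0 θ D0 a : ℝ} (hr : 0 < r) (hθ0 : 0 < θ)
    (hθ1 : θ ≤ 1) (hD0 : 1 ≤ D0) {w' n : ℕ} (hn : 1 ≤ n) (hw : ((w' + 1 : ℕ) : ℝ) ≤ W0) (ha : a = θ * (r * (w' + 1)))
    (hM1 : ∫ η, Real.exp (θ * Mh μ s v r W0 (-1) n η) ∂(law μ) ≤ D0)
    (hM2 : ∫ η, Real.exp (θ * Mh μ s v (-r) W0 (-1) n η) ∂(law μ) ≤ D0) {h : ℝ} (hh : |h| ≤ r / 2) :
    n * kap μ s v h ≤ |h| + (Real.log (2 * D0 * (Real.exp (2 * a) * (5 + 4 / a))) + a / 2) / θ := by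
  have ha0 : 0 < a := by rw [ha]; positivity
  obtain ⟨C1, hC1⟩ : ∃ C1 : ℝ, C1 = 2 * D0 * (Real.exp (2 * a) * (5 + 4 / a)) := ⟨_, rfl⟩
  have hC10 : 0 < C1 := by rw [hC1]; positivity
  rw [← hC1]
  have hn0 : (0 : ℝ) < n := by exact_mod_cast hn
  refine le_of_forall_pos_le_add fun δ hδ => ?_
  obtain ⟨C, hC⟩ := Pool.Agent.W_7d29a1_G.exists_cheap hμ (s + h)
  -- a large number of slabs
  obtain ⟨M, hMa, hMb, hMc⟩ : ∃ M : ℕ, 1 ≤ M ∧ |C| * ((M : ℝ) * n) ^ (4 / 5 : ℝ) ≤ δ / 2 * M ∧ a / (2 * θ) ≤ δ / 2 * M := by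
    have h1 : Tendsto (fun M : ℕ => (M : ℝ) ^ (-(1 / 5) : ℝ)) atTop (𝓝 0) :=
      (tendsto_rpow_neg_atTop (by norm_num : (0 : ℝ) < 1 / 5)).comp tendsto_natCast_atTop_atTop
    have h2 := (h1.const_mul (|C| * (n : ℝ) ^ (4 / 5 : ℝ))).eventually (gt_mem_nhds (show |C| * (n : ℝ) ^ (4 / 5 : ℝ) * 0 < δ / 2 by
      rw [mul_zero]
      positivity))
    obtain ⟨M, h3, h4, h5⟩ := (h2.and ((eventually_ge_atTop 1).and (eventually_ge_atTop ⌈a / (2 * θ) / (δ / 2)⌉₊))).exists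
    have hM0 : (0 : ℝ) < M := by exact_mod_cast h4
    refine ⟨M, h4, ?_, ?_⟩
    · rw [Real.mul_rpow hM0.le hn0.le]
      have e1 : (M : ℝ) ^ (4 / 5 : ℝ) = (M : ℝ) ^ (-(1 / 5) : ℝ) * M := by
        have : (M : ℝ) ^ (4 / 5 : ℝ) = (M : ℝ) ^ (-(1 / 5) + 1 : ℝ) := by norm_num
        rw [this, Real.rpow_add hM0, Real.rpow_one]
      rw [e1]
      have e2 : |C| * ((M : ℝ) ^ (-(1 / 5) : ℝ) * M * (n : ℝ) ^ (4 / 5 : ℝ)) =
          |C| * (n : ℝ) ^ (4 / 5 : ℝ) * (M : ℝ) ^ (-(1 / 5) : ℝ) * M := by ring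
      rw [e2]
      exact mul_le_mul_of_nonneg_right h3.le hM0.le
    · have h6 : a / (2 * θ) / (δ / 2) ≤ M := (Nat.le_ceil _).trans (by exact_mod_cast h5)
      rw [div_le_iff₀ (by positivity)] at h6
      linarith
  have hM0 : (0 : ℝ) < M := by exact_mod_cast hMa
  obtain ⟨y, hy0, hy1, hy2⟩ := hC (M * n) (Nat.mul_pos hMa hn)
  have hyC : e μ (s + h) (M * n) y ≤ δ / 2 * M := by
    refine hy2.trans (le_trans ?_ hMb)
    have e1 : ((M * n : ℕ) : ℝ) = (M : ℝ) * n := by push_cast; ring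
    rw [e1]
    exact mul_le_mul_of_nonneg_right (le_abs_self C) (by positivity)
  -- the displacement per slab
  have hMz : (0 : ℤ) < M := by exact_mod_cast hMa
  obtain ⟨d, hd⟩ : ∃ d : ℤ, d = y / M := ⟨_, rfl⟩
  obtain ⟨ρ, hρ⟩ : ∃ ρ : ℤ, ρ = y % M := ⟨_, rfl⟩
  have hyd : y = M * d + ρ := by rw [hd, hρ]; exact (Int.mul_ediv_add_emod y M).symm
  have hρ0 : 0 ≤ ρ := by rw [hρ]; exact Int.emod_nonneg _ hMz.ne'
  have hρ1 : ρ < M := by rw [hρ]; exact Int.emod_lt_of_pos _ hMz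
  have hw0 : (0 : ℝ) < (w' : ℝ) + 1 := by positivity
  obtain ⟨K, hK⟩ : ∃ K : ℝ, K = (d - v * n) / (w' + 1) := ⟨_, rfl⟩
  have hKd : K * (w' + 1) = d - v * n := by
    rw [hK]
    field_simp
  obtain ⟨ε, hε, hεK⟩ : ∃ ε : ℝ, (ε = 1 ∨ ε = -1) ∧ 0 ≤ ε * K := by
    rcases le_total 0 K with h1 | h1
    · exact ⟨1, Or.inl rfl, by linarith⟩
    · exact ⟨-1, Or.inr rfl, by linarith⟩
  have hκ0 : 0 < C1 * Real.exp (-(a / 2 * |K|)) := by positivity
  have key := cell_sum (s := s) hμ w' n d hθ0 hθ1 (g := fun D => 2 * D0 * Real.exp (-(a * fr78 (K + D)))) (fun D => by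
      have h1 := int_Gc78 (s := s) hμ hv0 hv1 hr.le hθ0 hθ1 hw hKd hM1 hM2 D
      rw [← ha] at h1
      exact h1) (σ := ε * (a / 2)) (κ := C1 * Real.exp (-(a / 2 * |K|))) (fun R => by
      have h1 := mul_le_mul_of_nonneg_left (sum_fr78' ha0 hε hεK R) (show 0 ≤ 2 * D0 by linarith)
      rw [Finset.mul_sum] at h1
      refine le_trans (le_of_eq (Finset.sum_congr rfl fun D _ => by ring)) (h1.trans (le_of_eq ?_))
      rw [hC1]
      ring)
  -- the cell of the start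
  have hwz : (0 : ℤ) < (w' : ℤ) + 1 := by positivity
  obtain ⟨k, hk⟩ : ∃ k : ℤ, k = (-ρ) / ((w' : ℤ) + 1) := ⟨_, rfl⟩
  obtain ⟨i, hi⟩ : ∃ i : ℤ, i = (-ρ) % ((w' : ℤ) + 1) := ⟨_, rfl⟩
  have hki : ((w' : ℤ) + 1) * k + i = -ρ := by rw [hk, hi]; exact Int.mul_ediv_add_emod _ _
  have hi0 : 0 ≤ i := by rw [hi]; exact Int.emod_nonneg _ hwz.ne'
  have hi1 : i < w' + 1 := by rw [hi]; exact Int.emod_lt_of_pos _ hwz
  obtain ⟨i', hi'⟩ : ∃ i' : ℕ, (i' : ℤ) = i := ⟨i.toNat, Int.toNat_of_nonneg hi0⟩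
  have hkabs : |(k : ℝ)| ≤ M + 1 := by
    have hk0 : k ≤ 0 := by
      by_contra hc
      push Not at hc
      have : 0 < ((w' : ℤ) + 1) * k := mul_pos hwz hc
      linarith
    have hk1 : -((M : ℤ) + 1) ≤ k := by
      by_contra hc
      push Not at hc
      have h1 : ((w' : ℤ) + 1) * k ≤ ((w' : ℤ) + 1) * (-((M : ℤ) + 1) - 1) := mul_le_mul_of_nonneg_left (by omega) hwz.le
      nlinarith
    have hk0' : (k : ℝ) ≤ 0 := by exact_mod_cast hk0
    have hk1' : -((M : ℝ) + 1) ≤ k := by exact_mod_cast hk1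
    rw [abs_of_nonpos hk0']
    linarith
  have hW : ∀ η : Env, W μ s η ((0 : ℤ), (i' : ℤ)) (M * n) y ≤ Zc μ s w' n d M k η := by
    intro η
    have h2 := le_Zc (μ := μ) (s := s) w' n d M k η (i := i') (by omega)
    have h3 : (M * d - k * ((w' : ℤ) + 1) - (i' : ℤ)) = y := by
      rw [hyd, hi']
      linarith [mul_comm k ((w' : ℤ) + 1)]
    rw [h3] at h2
    exact h2
  have h2 : Real.exp (-(θ * e μ s (M * n) y)) ≤ (C1 * Real.exp (-(a / 2 * |K|))) ^ M * Real.exp (a / 2 * (M + 1)) := by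
    have hS : Sub fun η : Env => -(θ * X μ s η ((0 : ℤ), (i' : ℤ)) (M * n) y) :=
      ((Sub_X ((0 : ℤ), (i' : ℤ)) hy0 hy1).const_mul θ).neg
    have h3 := hS.exp_integral_le hμ
    have h4 : ∫ η, -(θ * X μ s η ((0 : ℤ), (i' : ℤ)) (M * n) y) ∂(law μ) = -(θ * e μ s (M * n) y) := by
      rw [integral_neg, integral_const_mul, integral_X]
    rw [h4] at h3
    refine h3.trans ?_
    have h5 := key M k
    refine le_trans (integral_mono (hS.exp_int hμ) (integrable_Zc hμ w' n d M k hθ0.le) fun η => ?_) (h5.trans ?_)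
    · have h6 : Real.exp (-(θ * X μ s η ((0 : ℤ), (i' : ℤ)) (M * n) y)) = W μ s η ((0 : ℤ), (i' : ℤ)) (M * n) y ^ θ := by
        unfold X
        rw [Real.rpow_def_of_pos (W_pos η _ hy0 hy1)]
        congr 1
        ring
      show Real.exp (-(θ * X μ s η ((0 : ℤ), (i' : ℤ)) (M * n) y)) ≤ _
      rw [h6]
      exact Real.rpow_le_rpow (W_nonneg _ _ _ _) (hW η) hθ0.le
    · refine mul_le_mul_of_nonneg_left (Real.exp_le_exp.2 ?_) (pow_nonneg hκ0.le M)
      have h6 : ε * (a / 2) * k ≤ |ε * (a / 2)| * |(k : ℝ)| := by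
        rw [← abs_mul]
        exact le_abs_self _
      have h7 : |ε * (a / 2)| = a / 2 := by
        rw [abs_mul, abs_of_pos (by positivity : 0 < a / 2)]
        rcases hε with rfl | rfl
        · simp
        · simp
      rw [h7] at h6
      exact h6.trans (mul_le_mul_of_nonneg_left hkabs (by positivity))
  have h3 := Real.log_le_log (Real.exp_pos _) h2
  rw [Real.log_exp, Real.log_mul (pow_pos hκ0 M).ne' (Real.exp_pos _).ne', Real.log_pow, Real.log_exp,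
    Real.log_mul hC10.ne' (Real.exp_pos _).ne', Real.log_exp] at h3
  -- the change of the tilt
  have h4 : e μ s (M * n) y = e μ (s + h) (M * n) y - M * (n * kap μ s v h) + h * (y - v * (M * n)) := by
    rw [Pool.Agent.W_7d29a1_F.e_eq hμ s hy0 hy1, Pool.Agent.W_7d29a1_F.e_eq hμ (s + h) hy0 hy1]
    unfold kap
    push_cast
    ring
  have h5 : h * ((y : ℝ) - v * (M * n)) ≤ M * (|K| * (a / (2 * θ))) + |h| * M := by
    have e1 : (y : ℝ) - v * (M * n) = M * (K * (w' + 1)) + ρ := by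
      rw [hKd, hyd]
      push_cast
      ring
    have e2 : h * ((y : ℝ) - v * (M * n)) ≤ |h| * (M * (|K| * (w' + 1)) + ρ) := by
      refine (le_abs_self _).trans ?_
      rw [abs_mul, e1]
      refine mul_le_mul_of_nonneg_left ((abs_add_le _ _).trans ?_) (abs_nonneg _)
      rw [abs_mul, abs_mul, abs_of_pos hM0, abs_of_pos hw0, abs_of_nonneg (by exact_mod_cast hρ0 : (0 : ℝ) ≤ ρ)]
    have e3 : |h| * (w' + 1) ≤ a / (2 * θ) := by
      rw [ha]
      have : θ * (r * ((w' : ℝ) + 1)) / (2 * θ) = r / 2 * (w' + 1) := by field_simp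
      rw [this]
      exact mul_le_mul_of_nonneg_right hh hw0.le
    have e4 : |h| * ρ ≤ |h| * M := mul_le_mul_of_nonneg_left (by exact_mod_cast hρ1.le) (abs_nonneg _)
    have e5 : M * (|K| * (|h| * (w' + 1))) ≤ M * (|K| * (a / (2 * θ))) :=
      mul_le_mul_of_nonneg_left (mul_le_mul_of_nonneg_left e3 (abs_nonneg _)) hM0.le
    have e6 : |h| * (M * (|K| * (w' + 1)) + ρ) = M * (|K| * (|h| * (w' + 1))) + |h| * ρ := by ring
    linarith
  -- the conclusion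
  have h6 : -(θ * (e μ s (M * n) y)) ≤ M * (Real.log C1 - a / 2 * |K|) + a / 2 * (M + 1) := by linarith
  have h7 : M * (n * kap μ s v h) ≤ e μ (s + h) (M * n) y + (M * (|K| * (a / (2 * θ))) + |h| * M) +
      (M * (Real.log C1 - a / 2 * |K|) + a / 2 * (M + 1)) / θ := by
    have h8 : -(e μ s (M * n) y) ≤ (M * (Real.log C1 - a / 2 * |K|) + a / 2 * (M + 1)) / θ := by
      rw [le_div_iff₀ hθ0]
      linarith
    linarith
  have h8 : (M * (Real.log C1 - a / 2 * |K|) + a / 2 * (M + 1)) / θ =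
      M * ((Real.log C1 + a / 2) / θ) - M * (|K| * (a / (2 * θ))) + a / (2 * θ) := by
    field_simp
    ring
  have h9 : M * (n * kap μ s v h) ≤ M * (|h| + (Real.log C1 + a / 2) / θ + δ) := by
    rw [h8] at h7
    have e1 : (M : ℝ) * (|h| + (Real.log C1 + a / 2) / θ + δ) = |h| * M + M * ((Real.log C1 + a / 2) / θ) + δ * M := by ring
    rw [e1]
    linarith
  exact le_of_mul_le_mul_left h9 hM0

/-- **ONE CONE**, in terms of the rate function. -/
theorem cone_J78 (hμ : EM μ) (hnd : Nondeg μ) (hv0 : 0 ≤ v) (hv1 : v ≤ 1) {r W0 θ D0 a : ℝ} (hr : 0 < r) (hr1 : r ≤ 1)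
    (hθ0 : 0 < θ) (hθ1 : θ ≤ 1) (hD0 : 1 ≤ D0) {w' n : ℕ} (hn : 1 ≤ n) (hw : ((w' + 1 : ℕ) : ℝ) ≤ W0)
    (ha : a = θ * (r * (w' + 1)))
    (hM1 : ∫ η, Real.exp (θ * Mh μ s v r W0 (-1) n η) ∂(law μ) ≤ D0)
    (hM2 : ∫ η, Real.exp (θ * Mh μ s v (-r) W0 (-1) n η) ∂(law μ) ≤ D0) (x : ℝ) :
    r / 2 * (n * |x - (v - sl μ s)|) ≤ n * J μ s x + (1 + (Real.log (2 * D0 * (Real.exp (2 * a) * (5 + 4 / a))) + a / 2) / θ) := by
  obtain ⟨B, hB⟩ : ∃ B : ℝ, B = (Real.log (2 * D0 * (Real.exp (2 * a) * (5 + 4 / a))) + a / 2) / θ := ⟨_, rfl⟩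
  have hn0 : (0 : ℝ) < n := by exact_mod_cast hn
  have key : ∀ h : ℝ, |h| ≤ r / 2 → n * (h * (x - (v - sl μ s))) ≤ n * J μ s x + (1 + B) := by
    intro h hh
    have h1 := kap_cone78 (s := s) hμ hv0 hv1 hr hθ0 hθ1 hD0 hn hw ha hM1 hM2 hh
    rw [← hB] at h1
    have hh1 : |h| ≤ 1 := by linarith
    have h2 := le_J hμ hnd s x hh1
    have h3 : kap μ s v h = ex μ s h + h * (sl μ s - v) := by
      unfold kap ex
      ring
    rw [h3] at h1
    have h4 := mul_le_mul_of_nonneg_left h2 hn0.le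
    nlinarith
  rw [← hB]
  rcases le_total 0 (x - (v - sl μ s)) with h0 | h0
  · have h1 := key (r / 2) (by rw [abs_of_pos (by positivity)])
    rw [abs_of_nonneg h0]
    linarith
  · have h1 := key (-(r / 2)) (by rw [abs_neg, abs_of_pos (by positivity)])
    rw [abs_of_nonpos h0]
    linarith

end

end Pool.Agent.W_7d29a1_H
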