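import Pool.Agent.W_7d29a1_H.FrDefH30
import Pool.Agent.W_7d29a1_H.FrKap78

/-!
MP_7d29a1_pr, TRACK H (all tilts). THE FRAME: the cone of one scale, from the luck of the boxes (`LsAtH`). The rate function is above
a cone whose half width, at the level of the unit, is the length of the interval of the cheap displacements. (helper78)
-/

set_option autoImplicit false

namespace Pool.Agent.W_7d29a1_H

open MeasureTheory ProbabilityTheory
open Pool.Agent.W_7d29a1_F Pool.Agent.W_7d29a1_h4g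
open Pool.Agent.W_7d29a1_L (Mh)
open Pool.Agent.W_7d29a1_h47 (EM Nondeg)

noncomputable section

/-- The constant of the cone. -/
theorem log_cone78 {a : ℝ} (h1 : 1 / 1296 ≤ a) (h2 : a ≤ 1 / 432) :
    Real.log (2 * (4 * Real.exp 1) * (Real.exp (2 * a) * (5 + 4 / a))) + a / 2 ≤ 107 / 9 + 1 / 72 := by
  have ha : 0 < a := by linarith
  have h3 : 4 / a ≤ 5184 := by
    rw [div_le_iff₀ ha]
    linarith
  have h4 : 0 < 5 + 4 / a := by positivity
  have h5 : (41512 : ℝ) ≤ Real.exp (98 / 9) := by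
    have e1 : (2.7182818283 : ℝ) ^ 10 ≤ Real.exp 1 ^ 10 := pow_le_pow_left₀ (by norm_num) Real.exp_one_gt_d9.le 10
    rw [← Real.exp_nat_mul] at e1
    have e2 : Real.exp (98 / 9) = Real.exp (((10 : ℕ) : ℝ) * 1) * Real.exp (8 / 9) := by
      rw [← Real.exp_add]
      norm_num
    have e3 : (17 / 9 : ℝ) ≤ Real.exp (8 / 9) := by
      have := Real.add_one_le_exp (8 / 9 : ℝ)
      linarith
    rw [e2]
    have e4 : (22000 : ℝ) ≤ Real.exp (((10 : ℕ) : ℝ) * 1) := le_trans (by norm_num) e1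
    calc (41512 : ℝ) ≤ 22000 * (17 / 9) := by norm_num
      _ ≤ _ := mul_le_mul e4 e3 (by norm_num) (Real.exp_pos _).le
  have h6 : 2 * (4 * Real.exp 1) * (Real.exp (2 * a) * (5 + 4 / a)) ≤ Real.exp (98 / 9 + 1 + 2 * a) := by
    rw [Real.exp_add, Real.exp_add]
    have e1 : 8 * (5 + 4 / a) ≤ 41512 := by linarith
    have e2 : 2 * (4 * Real.exp 1) * (Real.exp (2 * a) * (5 + 4 / a)) = (8 * (5 + 4 / a)) * Real.exp 1 * Real.exp (2 * a) := by ring
    rw [e2]
    exact mul_le_mul_of_nonneg_right (mul_le_mul_of_nonneg_right (e1.trans h5) (Real.exp_pos _).le) (Real.exp_pos _).le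
  have h7 := Real.log_le_log (by positivity) h6
  rw [Real.log_exp] at h7
  linarith

variable {μ : Measure ℝ} [IsProbabilityMeasure μ] {s : ℝ} {n N w : ℕ} {A E r : ℝ} {α β : ℤ}

/-- **THE CONE OF ONE SCALE.** -/
theorem LsAtH.cone78 (hμ : EM μ) (hnd : Nondeg μ) (hn : 1 ≤ n) (hE : 1 ≤ A * E) (h : LsAtH μ s n N w A E r α β) (x : ℝ) :
    A * E / (96 * w) * (n * |x - (r - sl μ s)|) ≤ n * J μ s x + 109 * (A * E) := by
  have hw3 : (3 : ℝ) ≤ w := by exact_mod_cast h.w3
  have hw0 : (0 : ℝ) < w := by linarith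
  have hAE : 0 < A * E := by linarith
  obtain ⟨w', hw'⟩ : ∃ w' : ℕ, w' + 3 = w := ⟨w - 3, by have := h.w3; omega⟩
  obtain ⟨r0, hr0⟩ : ∃ r0 : ℝ, r0 = A * E / (48 * w) := ⟨_, rfl⟩
  obtain ⟨θ, hθ⟩ : ∃ θ : ℝ, θ = 1 / (9 * (A * E)) := ⟨_, rfl⟩
  obtain ⟨a, ha⟩ : ∃ a : ℝ, a = θ * (r0 * (w' + 1)) := ⟨_, rfl⟩
  have hr0p : 0 < r0 := by rw [hr0]; positivity
  have hr01 : r0 ≤ 1 := by
    rw [hr0, div_le_one (by positivity)]
    have := h.wE
    linarith
  have hθ0 : 0 < θ := by rw [hθ]; positivity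
  have hθ1 : θ ≤ 1 := by
    rw [hθ, div_le_one (by positivity)]
    linarith
  have hwr : (w' : ℝ) + 3 = w := by exact_mod_cast hw'
  have hA0 : A ≠ 0 := fun h0 => by
    rw [h0, zero_mul] at hAE
    exact hAE.false
  have hE0 : E ≠ 0 := fun h0 => by
    rw [h0, mul_zero] at hAE
    exact hAE.false
  have ha1 : a = (w' + 1) / (432 * w) := by
    rw [ha, hθ, hr0]
    field_simp
    norm_num
  have ha2 : 1 / 1296 ≤ a := by
    rw [ha1, div_le_div_iff₀ (by norm_num) (by positivity)]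
    linarith
  have ha3 : a ≤ 1 / 432 := by
    rw [ha1, div_le_div_iff₀ (by positivity) (by norm_num)]
    linarith
  have hM : ∀ q : ℝ, |q| ≤ A * E / (48 * w) →
      ∫ η, Real.exp (θ * Mh μ s r q ((w : ℝ) - 2) (-1) n η) ∂(law μ) ≤ 4 * Real.exp 1 := by
    intro q hq
    have h1 := h.ls n le_rfl q (-1) hq
    have h2 : (fun η : Env => Real.exp (θ * Mh μ s r q ((w : ℝ) - 2) (-1) n η)) =
        fun η => Real.exp (Mh μ s r q ((w : ℝ) - 2) (-1) n η / (9 * (A * E))) := by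
      funext η
      rw [hθ]
      congr 1
      ring
    rw [h2]
    exact h1
  have hD : 1 ≤ 4 * Real.exp 1 := by
    have := Real.add_one_le_exp (1 : ℝ)
    linarith
  have hc := cone_J78 (s := s) (r := r0) (W0 := (w : ℝ) - 2) (θ := θ) (D0 := 4 * Real.exp 1) (a := a) (w' := w') (n := n)
    hμ hnd h.r0.le h.r1.le hr0p hr01 hθ0 hθ1 hD hn (by push_cast; linarith) ha
    (hM r0 (by rw [abs_of_pos hr0p, hr0])) (hM (-r0) (by rw [abs_neg, abs_of_pos hr0p, hr0])) x
  have hl := log_cone78 ha2 ha3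
  have h3 : (Real.log (2 * (4 * Real.exp 1) * (Real.exp (2 * a) * (5 + 4 / a))) + a / 2) / θ ≤ 108 * (A * E) := by
    rw [div_le_iff₀ hθ0]
    refine hl.trans ?_
    rw [hθ]
    have : 108 * (A * E) * (1 / (9 * (A * E))) = 12 := by
      rw [mul_one_div, show 108 * (A * E) = 12 * (9 * (A * E)) by ring, mul_div_assoc, div_self (by positivity), mul_one]
    rw [this]
    norm_num
  have h4 : r0 / 2 = A * E / (96 * w) := by
    rw [hr0, div_div]
    congr 1
    ring
  rw [h4] at hc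
  linarith

/-- The moving frame is close to the straight one. -/
theorem LsAtH.slope78 (hμ : EM μ) (hnd : Nondeg μ) (hJ0 : J μ s 0 = 0) (hn : 1 ≤ n) (hE : 1 ≤ A * E)
    (h : LsAtH μ s n N w A E r α β) : n * |r - sl μ s| ≤ 10464 * w := by
  have h1 := h.cone78 hμ hnd hn hE 0
  have hw3 : (3 : ℝ) ≤ w := by exact_mod_cast h.w3
  have hw0 : (0 : ℝ) < w := by linarith
  have hAE : 0 < A * E := by linarith
  rw [hJ0, zero_sub, abs_neg, mul_zero, zero_add, div_mul_eq_mul_div, div_le_iff₀ (by positivity)] at h1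
  have h2 : A * E * (n * |r - sl μ s|) ≤ A * E * (10464 * w) := by linarith
  exact le_of_mul_le_mul_left h2 hAE

end

end Pool.Agent.W_7d29a1_H
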