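import Pool.Agent.W_7d29a1_H.FrDefH30
import Pool.Agent.W_7d29a1_H.FrCone78
import Pool.Agent.W_7d29a1_H.FrTH4
import Pool.Agent.W_7d29a1_H.WidthH
import Pool.Agent.W_7d29a1_H.MeanA

/-!
MP_7d29a1_pr, TRACK H, THE FRAME: from the moving frame (`LsAtH`: slope `r`, width `w`) to (L\*) in the frame of the slope `sl μ s` and the
width `wH a μ s n`.
-/

set_option autoImplicit false

namespace Pool.Agent.W_7d29a1_H

open MeasureTheory ProbabilityTheory Filter Topology Set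
open Pool.Agent.W_7d29a1_F Pool.Agent.W_7d29a1_h4g
open Pool.Agent.W_7d29a1_L (Mh T kap Bx Mh_le le_Mh Mh_nonneg Sub_Mh mem_Bx exp_T)

noncomputable section

variable {μ : Measure ℝ} {s : ℝ}

theorem T_chg4 (v r h : ℝ) (η : Env) (p : Pt) (j : ℕ) :
    T μ s v h η p j = T μ s r h η p j + j * (h * (r - v)) := by
  unfold T kap
  ring

/-- A box of the slope `v` is covered by `k` boxes of the slope `r`. -/
theorem exp_cover4 {v r h w₀ W z θ D : ℝ} {m n k : ℕ} (hv0 : 0 ≤ v) (hv1 : v ≤ 1) (hr0 : 0 ≤ r) (hr1 : r ≤ 1)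
    (hw : 0 < w₀) (hk : 1 ≤ k) (hD : (m : ℝ) * |r - v| ≤ D) (hwk : W + 2 * D ≤ k * w₀) (hmn : m ≤ n) (hθ : 0 < θ) (η : Env) :
    Real.exp (θ * Mh μ s v h W z m η) ≤
      Real.exp (θ * (|h| * D)) * ∑ i ∈ Finset.range k, Real.exp (θ * Mh μ s r h w₀ (z - D + i * w₀) n η) := by
  have hD0 : 0 ≤ D := le_trans (by positivity) hD
  obtain ⟨S, hS⟩ : ∃ S : ℝ, S = ∑ i ∈ Finset.range k, Real.exp (θ * Mh μ s r h w₀ (z - D + i * w₀) n η) := ⟨_, rfl⟩
  have hle : ∀ i : ℕ, i < k → Real.exp (θ * Mh μ s r h w₀ (z - D + i * w₀) n η) ≤ S := by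
    intro i hi
    rw [hS]
    exact Finset.single_le_sum (f := fun i : ℕ => Real.exp (θ * Mh μ s r h w₀ (z - D + i * w₀) n η))
      (fun i _ => (Real.exp_pos _).le) (Finset.mem_range.2 hi)
  have hS1 : 1 ≤ S := by
    refine le_trans ?_ (hle 0 (by omega))
    exact Real.one_le_exp (mul_nonneg hθ.le (Mh_nonneg η))
  have hS0 : 0 < S := by linarith
  rw [← hS]
  have h2 : Mh μ s v h W z m η ≤ |h| * D + Real.log S / θ := by
    refine Mh_le η (by have := div_nonneg (Real.log_nonneg hS1) hθ.le; positivity) fun q hq => ?_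
    rw [mem_Bx hv0 hv1] at hq
    obtain ⟨hq1, hq2, hq3⟩ := hq
    obtain ⟨t, ht⟩ : ∃ t : ℝ, t = (q.1.1 : ℝ) := ⟨_, rfl⟩
    obtain ⟨x, hx⟩ : ∃ x : ℝ, x = (q.1.2 : ℝ) := ⟨_, rfl⟩
    rw [← ht, ← hx] at hq2 hq3
    have ht0 : 0 ≤ t := by rw [ht]; positivity
    have htm : t ≤ m := by
      rw [ht]
      have : q.1.1 ≤ m := by omega
      exact_mod_cast this
    have hjm : (q.2 : ℝ) ≤ m := by
      have : q.2 ≤ m := by omega
      exact_mod_cast this
    have hsh : |(v - r) * t| ≤ D := by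
      rw [abs_mul, abs_of_nonneg ht0, abs_sub_comm]
      refine le_trans ?_ hD
      rw [mul_comm]
      exact mul_le_mul_of_nonneg_right htm (abs_nonneg _)
    obtain ⟨hsh1, hsh2⟩ := abs_le.1 hsh
    obtain ⟨u, hu⟩ : ∃ u : ℝ, u = (x - r * t - (z - D)) / w₀ := ⟨_, rfl⟩
    have e1 : x - r * t - (z - D) = (x - v * t - z) + ((v - r) * t + D) := by ring
    have hu0 : 0 < u := by
      rw [hu, e1]
      exact div_pos (by linarith) hw
    have huk : u ≤ k := by
      rw [hu, div_le_iff₀ hw, e1]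
      linarith
    have huw : u * w₀ = x - r * t - (z - D) := by rw [hu]; field_simp
    obtain ⟨i, hi⟩ : ∃ i : ℕ, i = ⌈u⌉₊ - 1 := ⟨_, rfl⟩
    have hc1 : 1 ≤ ⌈u⌉₊ := Nat.one_le_ceil_iff.2 hu0
    have hc2 : ⌈u⌉₊ ≤ k := Nat.ceil_le.2 huk
    have hi1 : i + 1 = ⌈u⌉₊ := by omega
    have hi2 : (i : ℝ) < u := by
      have := Nat.ceil_lt_add_one hu0.le
      rw [← hi1] at this
      push_cast at this
      linarith
    have hi3 : u ≤ (i : ℝ) + 1 := by
      have := Nat.le_ceil u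
      rw [← hi1] at this
      push_cast at this
      exact this
    have hbx : q ∈ Bx r w₀ (z - D + i * w₀) n := by
      rw [mem_Bx hr0 hr1, ← ht, ← hx]
      have h5 := mul_lt_mul_of_pos_right hi2 hw
      have h6 := mul_le_mul_of_nonneg_right hi3 hw.le
      rw [huw] at h5 h6
      refine ⟨hq1.trans hmn, by linarith, by linarith⟩
    have h7 := le_Mh (μ := μ) (s := s) (h := h) η hbx
    have h8 : T μ s v h η ((q.1.1 : ℤ), q.1.2) q.2 ≤ T μ s r h η ((q.1.1 : ℤ), q.1.2) q.2 + |h| * D := by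
      rw [T_chg4 v r h]
      have h9 : (q.2 : ℝ) * (h * (r - v)) ≤ |h| * D := by
        calc (q.2 : ℝ) * (h * (r - v)) ≤ |(q.2 : ℝ) * (h * (r - v))| := le_abs_self _
          _ = |h| * ((q.2 : ℝ) * |r - v|) := by
            rw [abs_mul, abs_mul, abs_of_nonneg (by positivity : (0 : ℝ) ≤ (q.2 : ℝ))]
            ring
          _ ≤ |h| * D := mul_le_mul_of_nonneg_left
            ((mul_le_mul_of_nonneg_right hjm (abs_nonneg _)).trans hD) (abs_nonneg _)
      linarith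
    have h10 : Mh μ s r h w₀ (z - D + i * w₀) n η ≤ Real.log S / θ := by
      rw [le_div_iff₀ hθ, mul_comm, Real.le_log_iff_exp_le hS0]
      exact hle i (by omega)
    linarith
  have h3 : θ * Mh μ s v h W z m η ≤ θ * (|h| * D) + Real.log S := by
    have := mul_le_mul_of_nonneg_left h2 hθ.le
    rw [mul_add, mul_div_cancel₀ _ hθ.ne'] at this
    exact this
  calc Real.exp (θ * Mh μ s v h W z m η) ≤ Real.exp (θ * (|h| * D) + Real.log S) := Real.exp_le_exp.2 h3
    _ = Real.exp (θ * (|h| * D)) * S := by rw [Real.exp_add, Real.exp_log hS0]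

variable [IsProbabilityMeasure μ]

/-- The exponential moments in the frame of the slope `v` from those of the slope `r`. -/
theorem int_cover4 (hμ : Pool.Agent.W_7d29a1_h47.EM μ) {v r h w₀ W z θ θ' D B : ℝ} {m n k : ℕ} (hv0 : 0 ≤ v) (hv1 : v ≤ 1)
    (hr0 : 0 ≤ r) (hr1 : r ≤ 1) (hw : 0 < w₀) (hk : 1 ≤ k) (hD : (m : ℝ) * |r - v| ≤ D) (hwk : W + 2 * D ≤ k * w₀)
    (hmn : m ≤ n) (hθ : 0 < θ) (hθθ : θ ≤ θ')
    (hB : ∀ z : ℝ, ∫ η, Real.exp (θ' * Mh μ s r h w₀ z n η) ∂(law μ) ≤ B) :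
    ∫ η, Real.exp (θ * Mh μ s v h W z m η) ∂(law μ) ≤ Real.exp (θ * (|h| * D)) * (k * B) := by
  have hint : ∀ i ∈ Finset.range k, Integrable (fun η => Real.exp (θ * Mh μ s r h w₀ (z - D + i * w₀) n η)) (law μ) :=
    fun i _ => int_exp_Mh4 hμ _ _ _ _ _ _
  refine (integral_mono (int_exp_Mh4 hμ _ _ _ _ _ _) ((integrable_finsetSum _ hint).const_mul _)
    fun η => exp_cover4 hv0 hv1 hr0 hr1 hw hk hD hwk hmn hθ η).trans ?_
  rw [integral_const_mul, integral_finsetSum _ hint]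
  refine mul_le_mul_of_nonneg_left ?_ (Real.exp_pos _).le
  refine (Finset.sum_le_sum (g := fun _ => B) fun i _ => ?_).trans (le_of_eq ?_)
  · refine (integral_mono (int_exp_Mh4 hμ _ _ _ _ _ _) (int_exp_Mh4 hμ _ _ _ _ _ _) fun η => ?_).trans (hB (z - D + i * w₀))
    exact Real.exp_le_exp.2 (mul_le_mul_of_nonneg_right hθθ (Mh_nonneg η))
  · rw [Finset.sum_const, Finset.card_range, nsmul_eq_mul]

/-- **The three comparisons of the frame with the widths.** -/
theorem Dirs.frame_cmp4 {H0 δ a A r : ℝ} {A0 : Set ℝ} {H L n N w : ℕ} {α β : ℤ} (hD : Dirs μ H0 δ A0) (hs : s ∈ A0)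
    (ha : 0 < a) (hA : 48 ≤ A) (hH : 1 ≤ H) (hL : 1 ≤ L) (hn : 1 ≤ n) (hN : L * n ≤ N) (hNH : N ≤ H * (L * n))
    (hl : LsAtH μ s (L * n) N w A (EE μ s (H * (L * n))) r α β)
    (hc : ∀ x : ℝ, A * EE μ s (H * (L * n)) / (96 * w) * (((L * n : ℕ) : ℝ) * |x - (r - sl μ s)|) ≤
      ((L * n : ℕ) : ℝ) * J μ s x + 109 * (A * EE μ s (H * (L * n)))) :
    ((L * n : ℕ) : ℝ) * |r - sl μ s| ≤ 10464 * w ∧ wH a μ s n ≤ 192 * (a + 109) * w ∧
      w ≤ 3 * H * L * max (A * H / a) (a / (A * H)) * wH a μ s n := by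
  have hA0 : 0 < A := by linarith
  have hH0 : (1 : ℝ) ≤ H := by exact_mod_cast hH
  have hL0 : (1 : ℝ) ≤ L := by exact_mod_cast hL
  have hn0 : (1 : ℝ) ≤ n := by exact_mod_cast hn
  have hwr : (3 : ℝ) ≤ w := by exact_mod_cast hl.w3
  have hw0 : (0 : ℝ) < w := by linarith
  have hm1 : 1 ≤ L * n := Nat.mul_pos hL hn
  have hN1 : 1 ≤ N := hm1.trans hN
  have hN0 : (1 : ℝ) ≤ N := by exact_mod_cast hN1
  obtain ⟨E, hE⟩ : ∃ E, E = EE μ s (H * (L * n)) := ⟨_, rfl⟩
  rw [← hE] at hc hl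
  have hE0 : 0 < E := by rw [hE]; exact EE_pos _
  have hmr : ((L * n : ℕ) : ℝ) = L * n := by push_cast; ring
  rw [hmr] at hc ⊢
  have hAE : 0 < A * E := by positivity
  -- divide the cone inequality
  have hc' : ∀ x : ℝ, (L : ℝ) * n * |x - (r - sl μ s)| * (A * E) ≤ 96 * w * (L * n * J μ s x + 109 * (A * E)) := by
    intro x
    have h1 := mul_le_mul_of_nonneg_left (hc x) (show (0 : ℝ) ≤ 96 * w by positivity)
    have e1 : 96 * (w : ℝ) * (A * E / (96 * w) * (L * n * |x - (r - sl μ s)|)) =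
        (L : ℝ) * n * |x - (r - sl μ s)| * (A * E) := by field_simp
    rw [e1] at h1
    exact h1
  refine ⟨?_, ?_, ?_⟩
  · have h1 := hc' 0
    rw [J_zero hD.em hD.nd, zero_sub, abs_neg, mul_zero, zero_add] at h1
    have h2 : (L : ℝ) * n * |r - sl μ s| * (A * E) ≤ 10464 * w * (A * E) := by linarith
    exact le_of_mul_le_mul_right h2 hAE
  · have hEn : EE μ s n ≤ E := by
      rw [hE]
      exact EE_mono ((Nat.le_mul_of_pos_left n (by omega)).trans (Nat.le_mul_of_pos_left _ (by omega)))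
    have key : ∀ x : ℝ, n * J μ s x = a * EE μ s n → n * |x - (r - sl μ s)| ≤ 96 * (a + 109) * w := by
      intro x hx
      have h1 := hc' x
      have h2 : (L : ℝ) * n * J μ s x ≤ L * (a * E) := by
        rw [mul_assoc, hx]
        exact mul_le_mul_of_nonneg_left (mul_le_mul_of_nonneg_left hEn ha.le) (by linarith)
      have h3 : (L : ℝ) * (a * E) ≤ L * (A * E) * a := by
        have : (L : ℝ) * (a * E) * 1 ≤ L * (a * E) * A := mul_le_mul_of_nonneg_left (by linarith) (by positivity)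
        linarith
      have h4 : 109 * (A * E) ≤ L * (A * E) * 109 := by
        have : 1 * (A * E) ≤ L * (A * E) := mul_le_mul_of_nonneg_right hL0 hAE.le
        linarith
      have h5 : 96 * w * (L * n * J μ s x + 109 * (A * E)) ≤ 96 * w * (L * (A * E) * (a + 109)) :=
        mul_le_mul_of_nonneg_left (by linarith) (by positivity)
      have h6 : n * |x - (r - sl μ s)| * (L * (A * E)) ≤ 96 * (a + 109) * w * (L * (A * E)) := by
        linarith
      exact le_of_mul_le_mul_right h6 (by positivity)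
    have k1 := key _ (hD.J_vr hs ha.le hn)
    have k2 := key _ (hD.J_vl hs ha.le hn)
    have k3 : vA a μ s n ≤ |vr a μ s n - (r - sl μ s)| + |-vl a μ s n - (r - sl μ s)| := by
      have g1 := le_abs_self (vr a μ s n - (r - sl μ s))
      have g2 := neg_abs_le (-vl a μ s n - (r - sl μ s))
      unfold vA
      linarith
    have k4 := mul_le_mul_of_nonneg_left k3 (show (0 : ℝ) ≤ n by linarith)
    unfold wH
    linarith
  · have hab := hl.hw
    have h3w := hl.w3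
    have hαβ : α + 1 ≤ β := by omega
    have hab' : (w : ℝ) = β - α + 2 := by
      have := congrArg (fun z : ℤ => (z : ℝ)) hab
      push_cast at this
      exact this
    have hEN : E ≤ H * EE μ s N := by
      rw [hE]
      exact (EE_mono (Nat.mul_le_mul_left H hN)).trans (EE_mul hD.em s N hH)
    have hAH : 0 ≤ A * H := by positivity
    have key : ∀ y : ℤ, α ≤ y → y ≤ β →
        -vl (A * H) μ s N ≤ (y : ℝ) / N - sl μ s ∧ (y : ℝ) / N - sl μ s ≤ vr (A * H) μ s N := by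
      intro y y1 y2
      have hy0 : 0 ≤ y := hl.lo.trans y1
      have hyN : y ≤ N := y2.trans hl.hi
      have h1 := (hl.int y hy0 hyN).2 ⟨y1, y2⟩
      refine (hD.lev hs hAH hN1 _).1 ((e_ge hD.em hD.nd s hN1 hy0 hyN).trans (h1.trans ?_))
      rw [mul_assoc]
      exact mul_le_mul_of_nonneg_left hEN hA0.le
    have k1 := (key α le_rfl (by omega)).1
    have k2 := (key β (by omega) le_rfl).2
    have k3 : ((β : ℝ) - α) / N ≤ vA (A * H) μ s N := by
      have e1 : ((β : ℝ) - α) / N = ((β : ℝ) / N - sl μ s) - ((α : ℝ) / N - sl μ s) := by ring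
      rw [e1]
      unfold vA
      linarith
    rw [div_le_iff₀ (by linarith)] at k3
    have k4 := hD.w_mono hs hAH hN1 hNH
    have k5 : vA (A * H) μ s (H * (L * n)) ≤ vA (A * H) μ s n := by
      rw [← mul_assoc]
      exact hD.vA_mul_le hs hAH hn (Nat.mul_pos hH hL)
    have k6 := vA_change hD hs ha (show 0 < A * H by positivity) n
    obtain ⟨M, hM⟩ : ∃ M : ℝ, M = max (A * H / a) (a / (A * H)) := ⟨_, rfl⟩
    rw [← hM] at k6 ⊢
    have k7 : ((H * (L * n) : ℕ) : ℝ) * vA (A * H) μ s (H * (L * n)) ≤ H * (L * n) * (M * vA a μ s n) := by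
      push_cast
      exact mul_le_mul_of_nonneg_left (k5.trans k6) (by positivity)
    have k8 : (β : ℝ) - α ≤ H * (L * n) * (M * vA a μ s n) := by linarith
    have k9 : (w : ℝ) ≤ 3 * ((β : ℝ) - α) := by linarith
    unfold wH
    calc (w : ℝ) ≤ 3 * (H * (L * n) * (M * vA a μ s n)) := by linarith
      _ = 3 * H * L * M * (n * vA a μ s n) := by ring

/-- **(L\*)** from the moving frame and its cone. -/
theorem lstarH_of_cone4 {H0 δ a : ℝ} {A0 : Set ℝ} (hD : Dirs μ H0 δ A0) (ha : 0 < a) (hF : FrameAtH μ A0)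
    (hcone : ∀ s : ℝ, ∀ (n N w : ℕ) (A E r : ℝ) (α β : ℤ), 1 ≤ n → 1 ≤ A * E → LsAtH μ s n N w A E r α β → ∀ x : ℝ,
      A * E / (96 * w) * (n * |x - (r - sl μ s)|) ≤ n * J μ s x + 109 * (A * E)) : LStarH a μ A0 := by
  intro N'
  obtain ⟨A, H, n0, hA, hH, hn0, hF⟩ := hF 1 one_pos
  obtain ⟨L, hL⟩ : ∃ L : ℕ, L = N' + 1 := ⟨_, rfl⟩
  have hL1 : 1 ≤ L := by omega
  have hA0 : 0 < A := by linarith
  have hH0 : (1 : ℝ) ≤ H := by exact_mod_cast hH
  have hL0 : (1 : ℝ) ≤ L := by exact_mod_cast hL1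
  obtain ⟨C2, hC2⟩ : ∃ C2 : ℝ, C2 = 3 * H * L * max (A * H / a) (a / (A * H)) := ⟨_, rfl⟩
  have hC20 : 0 < C2 := by
    rw [hC2]
    have : 0 < max (A * H / a) (a / (A * H)) := lt_max_of_lt_left (by positivity)
    positivity
  obtain ⟨C3, hC3⟩ : ∃ C3 : ℝ, C3 = 192 * (a + 109) := ⟨_, rfl⟩
  have hC30 : 0 < C3 := by rw [hC3]; positivity
  obtain ⟨k, hk⟩ : ∃ k : ℕ, 3 * (C3 + 20928) ≤ (k : ℝ) := exists_nat_ge _
  have hk1 : 1 ≤ k := by
    have : (1 : ℝ) ≤ k := by linarith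
    exact_mod_cast this
  obtain ⟨c, hc0, hc1, hc2⟩ : ∃ c : ℝ, 0 < c ∧ c ≤ 1 / (9 * A * H * L) ∧ c ≤ 1 / C2 :=
    ⟨min (1 / (9 * A * H * L)) (1 / C2), by positivity, min_le_left _ _, min_le_right _ _⟩
  refine ⟨c, Real.exp 25 * (k * (4 * Real.exp 1)), n0, hc0, fun s hs n hn h z hh => ?_⟩
  have hn1 : 1 ≤ n := hn0.trans hn
  have hn1r : (1 : ℝ) ≤ n := by exact_mod_cast hn1
  have hnm : n ≤ L * n := Nat.le_mul_of_pos_left n (by omega)
  have hm1 : 1 ≤ L * n := hn1.trans hnm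
  obtain ⟨r, N, w, α, β, -, q1, q2, q3⟩ := hF s hs (L * n) (hn.trans hnm)
  have hEp := EE_pos (μ := μ) (s := s) (H * (L * n))
  have hE1 := one_le_EE (μ := μ) (s := s) (H * (L * n))
  have hcn := hcone s (L * n) N w A _ r α β hm1 (by nlinarith) q3
  obtain ⟨r1, r2, r3⟩ := hD.frame_cmp4 hs ha hA hH hL1 hn1 q1 q2 q3 hcn
  rw [← hC3] at r2
  rw [← hC2] at r3
  obtain ⟨E, hE⟩ : ∃ E, E = EE μ s (H * (L * n)) := ⟨_, rfl⟩
  rw [← hE] at q3 hEp hE1
  obtain ⟨En, hEn⟩ : ∃ En, En = EE μ s n := ⟨_, rfl⟩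
  have hEn0 : 0 < En := by rw [hEn]; exact EE_pos _
  have hEE1 : En ≤ E := by
    rw [hE, hEn]
    exact EE_mono (hnm.trans (Nat.le_mul_of_pos_left _ (by omega)))
  have hEE2 : E ≤ H * L * En := by
    rw [hE, hEn, ← mul_assoc]
    have := EE_mul hD.em s n (Nat.mul_pos hH hL1)
    push_cast at this
    exact this
  rw [← hEn] at hh ⊢
  obtain ⟨hv0, hv1⟩ := hD.sl01_4 hs
  have hwr : (3 : ℝ) ≤ w := by exact_mod_cast q3.w3
  have hw0 : (0 : ℝ) < w := by linarith
  have hWp := wH_pos4 hD hs ha hn1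
  -- the tilt
  have hht : |h| * w ≤ A * E / 48 := by
    have g1 : |h| * w ≤ |h| * (C2 * wH a μ s n) := mul_le_mul_of_nonneg_left r3 (abs_nonneg _)
    have g2 : |h| * (C2 * wH a μ s n) ≤ C2 * (c * En) := by
      have := mul_le_mul_of_nonneg_left hh hC20.le
      linarith
    have g3 : C2 * (c * En) ≤ 1 * En := by
      have : C2 * c ≤ 1 := by
        have := mul_le_mul_of_nonneg_left hc2 hC20.le
        rwa [mul_one_div_cancel hC20.ne'] at this
      rw [← mul_assoc]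
      exact mul_le_mul_of_nonneg_right this hEn0.le
    have g4 : E ≤ A * E / 48 := by
      rw [le_div_iff₀ (by norm_num)]
      nlinarith
    linarith
  have hhw : |h| ≤ A * E / (48 * w) := by
    rw [le_div_iff₀ (by positivity)]
    linarith
  have hθ0 : 0 < c / En := by positivity
  have hθ : c / En ≤ 1 / (9 * (A * E)) := by
    rw [div_le_div_iff₀ hEn0 (by positivity), one_mul]
    have g1 : c * (9 * (A * E)) ≤ c * (9 * (A * (H * L * En))) := by
      refine mul_le_mul_of_nonneg_left ?_ hc0.le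
      exact mul_le_mul_of_nonneg_left (mul_le_mul_of_nonneg_left hEE2 hA0.le) (by norm_num)
    rw [le_div_iff₀ (by positivity)] at hc1
    have g2 : c * (9 * (A * (H * L * En))) = c * (9 * A * H * L) * En := by ring
    have g3 : c * (9 * A * H * L) * En ≤ 1 * En := mul_le_mul_of_nonneg_right hc1 hEn0.le
    linarith
  have hNn : N' * n ≤ L * n := Nat.mul_le_mul_right n (by omega)
  have main := int_cover4 (μ := μ) (s := s) hD.em (v := sl μ s) (r := r) (h := h) (w₀ := (w : ℝ) - 2) (W := wH a μ s n) (z := z)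
    (θ := c / En) (θ' := 1 / (9 * (A * E))) (D := 10464 * w) (B := 4 * Real.exp 1) (m := N' * n) (n := L * n) (k := k)
    hv0 hv1 q3.r0.le q3.r1.le (by linarith) hk1 ?_ ?_ hNn hθ0 hθ ?_
  · refine main.trans ?_
    refine mul_le_mul_of_nonneg_right (Real.exp_le_exp.2 ?_) (by positivity)
    have g1 : c / En * (|h| * (10464 * w)) ≤ 1 / (9 * (A * E)) * (|h| * (10464 * w)) :=
      mul_le_mul_of_nonneg_right hθ (by positivity)
    have g2 : 1 / (9 * (A * E)) * (|h| * (10464 * w)) ≤ 1 / (9 * (A * E)) * (10464 * (A * E / 48)) :=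
      mul_le_mul_of_nonneg_left (by linarith) (by positivity)
    have g3 : 1 / (9 * (A * E)) * (10464 * (A * E / 48)) = 10464 / 432 := by
      field_simp
      norm_num
    have g4 : (10464 : ℝ) / 432 ≤ 25 := by norm_num
    linarith
  · refine le_trans (mul_le_mul_of_nonneg_right ?_ (abs_nonneg _)) r1
    exact_mod_cast hNn
  · have g1 : wH a μ s n + 2 * (10464 * w) ≤ (C3 + 20928) * w := by linarith
    have g2 : (C3 + 20928) * w ≤ 3 * (C3 + 20928) * ((w : ℝ) - 2) := by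
      have : (w : ℝ) ≤ 3 * ((w : ℝ) - 2) := by linarith
      have := mul_le_mul_of_nonneg_left this (show 0 ≤ C3 + 20928 by linarith)
      linarith
    have g3 : 3 * (C3 + 20928) * ((w : ℝ) - 2) ≤ k * ((w : ℝ) - 2) := mul_le_mul_of_nonneg_right hk (by linarith)
    linarith
  · intro z
    refine le_trans (le_of_eq (integral_congr_ae (Filter.Eventually.of_forall fun η => ?_))) (q3.ls (L * n) le_rfl h z hhw)
    show Real.exp _ = Real.exp _
    congr 1
    ring

/-- **(L\*)** at every tilt, from the frame of every scale. -/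
theorem lstarH_of4 {H0 δ a : ℝ} {A0 : Set ℝ} (hD : Dirs μ H0 δ A0) (ha : 0 < a) (hF : FrameAtH μ A0) : LStarH a μ A0 :=
  lstarH_of_cone4 hD ha hF fun _ _ _ _ _ _ _ _ _ hn hE h x => h.cone78 hD.em hD.nd hn hE x

end

end Pool.Agent.W_7d29a1_H
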