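import Pool.Agent.W_7d29a1_H.FrCheap78
import Pool.Agent.W_7d29a1_H.FrCmp4
import Pool.Agent.W_7d29a1_H.FrTH4

/-!
MP_7d29a1_pr, TRACK H (all tilts). THE FRAME: assembly. All statements of the frame from the frame at every scale. (helper78)
-/

set_option autoImplicit false

namespace Pool.Agent.W_7d29a1_H

open MeasureTheory

variable {μ : Measure ℝ} [IsProbabilityMeasure μ] {H0 δ a : ℝ} {A0 : Set ℝ}

/-- **THE FRAME**, from the frame at every scale. -/
theorem frameH_of78 (hD : Dirs μ H0 δ A0) (ha : 1 ≤ a) (hF : FrameAtH μ A0) : FrameH a μ A0 := by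
  have ha0 : 0 < a := by linarith
  have hL : LStarH a μ A0 := lstarH_of4 hD ha0 hF
  exact ⟨cheapH_of78 hD ha hF, hL, tiltH_of hD ha0 hL, l0H_of hD ha0 hL, tailH_of hD hL, tail0H_of hD ha0 hL⟩

end Pool.Agent.W_7d29a1_H
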