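import Pool.Agent.W_7d29a1_L.LsA3
import Pool.Agent.W_7d29a1_L.LsA4
import Pool.Agent.W_7d29a1_F.Bridge2

/-!
MP_7d29a1_pr, TRACK H (all tilts). The frame: the restart (`W_7d29a1_L.core`), with constants which are uniform for bounded tilts.
(helper30)
-/

set_option autoImplicit false

namespace Pool.Agent.W_7d29a1_H

open MeasureTheory ProbabilityTheory Filter Topology
open Pool.Agent.W_7d29a1_F
open Pool.Agent.W_7d29a1_L (Nm Mh Ht Fh Ov T Bx restart sum_far)

noncomputable section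

variable {μ : Measure ℝ} {s : ℝ}

private theorem Sub_fold30 {ι : Type*} (I : Finset ι) {f : ι → Env → ℝ} (hf : ∀ i ∈ I, Sub (f i)) :
    Sub fun η => I.fold max 0 fun i => f i η := by
  classical
  induction I using Finset.induction_on with
  | empty => simpa using Sub.const 0
  | insert a s ha ih =>
    have h1 := (hf a (Finset.mem_insert_self _ _)).max
      (ih fun i hi => hf i (Finset.mem_insert_of_mem hi))
    have e : (fun η => (insert a s).fold max 0 fun i => f i η) =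
        fun η => max (f a η) (s.fold max 0 fun i => f i η) := by
      funext η
      rw [Finset.fold_insert ha]
    rw [e]
    exact h1

private theorem exp_fold30 {ι : Type*} (I : Finset ι) (f : ι → ℝ) :
    Real.exp (I.fold max 0 f) ≤ 1 + ∑ i ∈ I, Real.exp (f i) := by
  classical
  induction I using Finset.induction_on with
  | empty => simp
  | insert a s ha ih =>
    rw [Finset.fold_insert ha, Finset.sum_insert ha]
    rcases max_cases (f a) (s.fold max 0 f) with ⟨e, -⟩ | ⟨e, -⟩ <;> rw [e]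
    · have h1 : 0 ≤ ∑ i ∈ s, Real.exp (f i) := Finset.sum_nonneg fun i _ => (Real.exp_pos _).le
      linarith
    · have h1 := (Real.exp_pos (f a)).le
      linarith

private theorem le_fold30 {ι : Type*} {I : Finset ι} (f : ι → ℝ) {i : ι} (hi : i ∈ I) :
    f i ≤ I.fold max 0 f := (Finset.le_fold_max _).2 (Or.inr ⟨i, hi, le_rfl⟩)

private theorem rpow_le_aux30 {y p : ℝ} (hy : 0 ≤ y) (h0 : 0 ≤ p) (h1 : p ≤ 1) : y ^ p ≤ 1 + y := by
  rcases le_total y 1 with h | h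
  · have := Real.rpow_le_one hy h h0
    linarith
  · have := Real.rpow_le_rpow_of_exponent_le h h1
    rw [Real.rpow_one] at this
    linarith

variable [IsProbabilityMeasure μ]

/-- The overshoot (`over_err`), with a bound `a1` of the one step luck which may be uniform in the tilt. -/
theorem over_err30 (em : Pool.Agent.W_7d29a1_h47.EM μ) {s a1 : ℝ} (ha1' : ∫ η, Real.exp (V μ s η 0 1) ∂(law μ) ≤ a1) :
    ∀ (n m q : ℕ) (v w h0 h1 Y z θ : ℝ), 1 ≤ n → m ≤ n → 1 ≤ q → 1 ≤ w → w ≤ n → 0 ≤ θ → q * θ ≤ 1 →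
    ∫ η, ∑ l ∈ Finset.range (m + 1), io (Fh μ s v w h0 h1 Y z m l η) *
      Real.exp (θ * (Ov μ s w z m ((l : ℤ) - 1) η + 1)) ∂(law μ) ≤
      Real.exp θ * ((3 + 10 * a1) * (n : ℝ) ^ 2) ^ θ *
        (2 * (law μ).real {η | ∃ l ∈ Finset.range (m + 1), Ht μ s v w h0 h1 Y z m l η} + 4 / 2 ^ q) := by
  obtain ⟨a0, ha1⟩ : ∃ a0 : ℝ, a0 = ∫ η, Real.exp (V μ s η 0 1) ∂(law μ) := ⟨_, rfl⟩
  have ha00 : 0 ≤ a0 := by rw [ha1]; exact integral_nonneg fun η => (Real.exp_pos _).le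
  rw [← ha1] at ha1'
  have ha10 : 0 ≤ a1 := ha00.trans ha1'
  intro n m q v w h0 h1 Y z θ hn hmn hq hw hwn hθ hqθ
  have hnr : (1 : ℝ) ≤ n := by exact_mod_cast hn
  have hmr : (m : ℝ) ≤ n := by exact_mod_cast hmn
  -- the overshoot
  obtain ⟨O, hO⟩ : ∃ O : Env → ℝ, O = fun η => (Finset.range (m + 1)).fold max 0
      fun l : ℕ => Ov μ s w z m ((l : ℤ) - 1) η := ⟨_, rfl⟩
  have hOvS : ∀ t : ℤ, Sub fun η => Ov μ s w z m t η := fun t => by
    unfold Ov
    exact Sub_fold30 _ fun x _ => Sub_V _ _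
  have hOS : Sub O := by
    rw [hO]
    exact Sub_fold30 _ fun l _ => hOvS _
  obtain ⟨A, hA⟩ : ∃ A : ℝ, A = (3 + 10 * a1) * (n : ℝ) ^ 2 := ⟨_, rfl⟩
  have hn2 : (1 : ℝ) ≤ (n : ℝ) ^ 2 := by nlinarith
  have hA1 : 1 ≤ A := by rw [hA]; nlinarith
  have hA0 : 0 < A := by linarith
  have hVi : ∀ (a : Pt), Integrable (fun η => Real.exp (V μ s η a 1)) (law μ) := fun a => (Sub_V a 1).exp_int em
  have hexpO : ∀ η, Real.exp (O η) ≤ 1 + ∑ l ∈ Finset.range (m + 1), (1 + ∑ x ∈ Finset.Icc ⌊z⌋ (⌈z + w⌉ + m),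
      Real.exp (V μ s η ((l : ℤ) - 1, x) 1)) := by
    intro η
    rw [hO]
    refine (exp_fold30 _ _).trans ?_
    have h2 : ∀ l ∈ Finset.range (m + 1), Real.exp (Ov μ s w z m ((l : ℤ) - 1) η) ≤
        1 + ∑ x ∈ Finset.Icc ⌊z⌋ (⌈z + w⌉ + m), Real.exp (V μ s η ((l : ℤ) - 1, x) 1) := fun l _ => by
      unfold Ov
      exact exp_fold30 _ _
    have h3 := Finset.sum_le_sum h2
    linarith
  have hintO : ∫ η, Real.exp (O η) ∂(law μ) ≤ A := by
    have i0 : ∀ l : ℕ, Integrable (fun η => ∑ x ∈ Finset.Icc ⌊z⌋ (⌈z + w⌉ + m),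
        Real.exp (V μ s η ((l : ℤ) - 1, x) 1)) (law μ) := fun l => integrable_finsetSum _ fun x _ => hVi _
    have i1 : ∀ l : ℕ, Integrable (fun η => 1 + ∑ x ∈ Finset.Icc ⌊z⌋ (⌈z + w⌉ + m),
        Real.exp (V μ s η ((l : ℤ) - 1, x) 1)) (law μ) := fun l => (integrable_const _).add (i0 l)
    have i2 : Integrable (fun η => ∑ l ∈ Finset.range (m + 1), (1 + ∑ x ∈ Finset.Icc ⌊z⌋ (⌈z + w⌉ + m),
        Real.exp (V μ s η ((l : ℤ) - 1, x) 1))) (law μ) := integrable_finsetSum _ fun l _ => i1 l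
    have i3 : Integrable (fun η => 1 + ∑ l ∈ Finset.range (m + 1), (1 + ∑ x ∈ Finset.Icc ⌊z⌋ (⌈z + w⌉ + m),
        Real.exp (V μ s η ((l : ℤ) - 1, x) 1))) (law μ) := (integrable_const (1 : ℝ)).add i2
    have g1 := integral_mono (hOS.exp_int em) i3 hexpO
    have g2 : ∫ η, (1 + ∑ l ∈ Finset.range (m + 1), (1 + ∑ x ∈ Finset.Icc ⌊z⌋ (⌈z + w⌉ + m),
        Real.exp (V μ s η ((l : ℤ) - 1, x) 1))) ∂(law μ) =
        1 + ∑ l ∈ Finset.range (m + 1), (1 + ((Finset.Icc ⌊z⌋ (⌈z + w⌉ + m)).card : ℝ) * a0) := by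
      rw [integral_add (integrable_const _) i2, integral_finsetSum _ fun l _ => i1 l]
      congr 1
      · simp
      · refine Finset.sum_congr rfl fun l _ => ?_
        rw [integral_add (integrable_const _) (i0 l), integral_finsetSum _ fun x _ => hVi _]
        congr 1
        · simp
        · rw [Finset.sum_congr rfl (g := fun _ => a0) fun x _ => ?_, Finset.sum_const, nsmul_eq_mul]
          rw [ha1]
          exact integral_V_fun Real.measurable_exp _ _
    have g3 : ((Finset.Icc ⌊z⌋ (⌈z + w⌉ + m)).card : ℝ) ≤ 5 * n := by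
      rw [Int.card_Icc]
      have k1 : (⌈z + w⌉ : ℝ) < z + w + 1 := Int.ceil_lt_add_one _
      have k2 : z - 1 < (⌊z⌋ : ℝ) := Int.sub_one_lt_floor z
      have k3 : (((⌈z + w⌉ + m + 1 - ⌊z⌋).toNat : ℕ) : ℝ) = ((max (⌈z + w⌉ + m + 1 - ⌊z⌋) 0 : ℤ) : ℝ) := by
        have k4 : (((⌈z + w⌉ + m + 1 - ⌊z⌋).toNat : ℕ) : ℤ) = max (⌈z + w⌉ + m + 1 - ⌊z⌋) 0 := by omega
        rw [← k4]
        exact (Int.cast_natCast _).symm
      rw [k3, Int.cast_max]
      push_cast
      refine max_le ?_ (by positivity)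
      linarith
    have g4 : (((m + 1 : ℕ)) : ℝ) ≤ 2 * n := by
      push_cast
      linarith
    rw [g2] at g1
    rw [Finset.sum_const, Finset.card_range, nsmul_eq_mul] at g1
    refine g1.trans ?_
    have g5 : ((Finset.Icc ⌊z⌋ (⌈z + w⌉ + m)).card : ℝ) * a0 ≤ 5 * n * a1 := mul_le_mul g3 ha1' ha00 (by positivity)
    have g6 : ((m + 1 : ℕ) : ℝ) * (1 + ((Finset.Icc ⌊z⌋ (⌈z + w⌉ + m)).card : ℝ) * a0) ≤
        2 * n * (1 + 5 * n * a1) := by
      refine mul_le_mul g4 (by linarith) ?_ (by positivity)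
      have : 0 ≤ ((Finset.Icc ⌊z⌋ (⌈z + w⌉ + m)).card : ℝ) * a0 := by positivity
      linarith
    rw [hA]
    nlinarith
  -- measurability
  have hT : ∀ (h : ℝ) (a : Pt) (k : ℕ), Measurable fun η => T μ s v h η a k := fun h a k => by
    unfold T
    exact (measurable_V a k).add_const _
  have hHm : ∀ l : ℕ, MeasurableSet {η | Ht μ s v w h0 h1 Y z m l η} := by
    intro l
    have e : {η | Ht μ s v w h0 h1 Y z m l η} = ⋃ q' ∈ Bx v w z m, {η | q'.1.1 + q'.2 = l ∧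
        (Y ≤ T μ s v h0 η ((q'.1.1 : ℤ), q'.1.2) q'.2 ∨ Y ≤ T μ s v h1 η ((q'.1.1 : ℤ), q'.1.2) q'.2)} := by
      ext η
      simp only [Ht, Set.mem_ofPred_eq, Set.mem_iUnion, exists_prop]
    rw [e]
    refine Finset.measurableSet_biUnion _ fun q' _ => ?_
    by_cases hl : q'.1.1 + q'.2 = l
    · have e2 : {η : Env | q'.1.1 + q'.2 = l ∧
          (Y ≤ T μ s v h0 η ((q'.1.1 : ℤ), q'.1.2) q'.2 ∨ Y ≤ T μ s v h1 η ((q'.1.1 : ℤ), q'.1.2) q'.2)} =
          {η | Y ≤ T μ s v h0 η ((q'.1.1 : ℤ), q'.1.2) q'.2} ∪ {η | Y ≤ T μ s v h1 η ((q'.1.1 : ℤ), q'.1.2) q'.2} := by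
        ext η
        simp only [Set.mem_ofPred_eq, Set.mem_union, hl, true_and]
      rw [e2]
      exact (measurableSet_le measurable_const (hT _ _ _)).union (measurableSet_le measurable_const (hT _ _ _))
    · have e2 : {η : Env | q'.1.1 + q'.2 = l ∧
          (Y ≤ T μ s v h0 η ((q'.1.1 : ℤ), q'.1.2) q'.2 ∨ Y ≤ T μ s v h1 η ((q'.1.1 : ℤ), q'.1.2) q'.2)} = ∅ := by
        ext η
        simp only [Set.mem_ofPred_eq, hl, false_and, Set.mem_empty_iff_false]
      rw [e2]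
      exact MeasurableSet.empty
  obtain ⟨p, hp⟩ : ∃ p : Env → Prop, p = fun η => ∃ l ∈ Finset.range (m + 1), Ht μ s v w h0 h1 Y z m l η := ⟨_, rfl⟩
  have hpm : MeasurableSet {η | p η} := by
    have e : {η | p η} = ⋃ l ∈ Finset.range (m + 1), {η | Ht μ s v w h0 h1 Y z m l η} := by
      ext η
      simp only [hp, Set.mem_ofPred_eq, Set.mem_iUnion, exists_prop]
    rw [e]
    exact Finset.measurableSet_biUnion _ fun l _ => hHm l
  have hJint : ∫ η, io (p η) ∂(law μ) = (law μ).real {η | p η} := by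
    have e : (fun η => io (p η)) = {η | p η}.indicator fun _ => (1 : ℝ) := by
      funext η
      by_cases h : p η
      · rw [io_of h, Set.indicator_of_mem (show η ∈ {η | p η} from h)]
      · rw [io_not h, Set.indicator_of_notMem (show η ∉ {η | p η} from h)]
    rw [e, integral_indicator hpm]
    simp
  have hJi : Integrable (fun η => io (p η)) (law μ) := by
    refine (integrable_const (1 : ℝ)).mono' (measurable_io hpm).aestronglyMeasurable
      (Eventually.of_forall fun η => ?_)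
    rw [Real.norm_eq_abs, abs_of_nonneg (io_nonneg _)]
    exact io_le_one _
  -- the pointwise bound
  obtain ⟨Λ, hΛ⟩ : ∃ Λ : ℝ, Λ = A ^ θ := ⟨_, rfl⟩
  have hΛ0 : 0 < Λ := by rw [hΛ]; exact Real.rpow_pos_of_pos hA0 _
  have hpt : ∀ η, ∑ l ∈ Finset.range (m + 1), io (Fh μ s v w h0 h1 Y z m l η) *
      Real.exp (θ * (Ov μ s w z m ((l : ℤ) - 1) η + 1)) ≤
      Real.exp θ * Λ * (2 * io (p η) + (1 + Real.exp (O η) / A) * (2 / 2 ^ q)) := by
    intro η
    have k1 : ∑ l ∈ Finset.range (m + 1), io (Fh μ s v w h0 h1 Y z m l η) *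
        Real.exp (θ * (Ov μ s w z m ((l : ℤ) - 1) η + 1)) ≤ io (p η) * Real.exp (θ * (O η + 1)) := by
      have k2 : ∀ l ∈ Finset.range (m + 1), io (Fh μ s v w h0 h1 Y z m l η) *
          Real.exp (θ * (Ov μ s w z m ((l : ℤ) - 1) η + 1)) ≤
          io (Fh μ s v w h0 h1 Y z m l η) * Real.exp (θ * (O η + 1)) := by
        intro l hl
        refine mul_le_mul_of_nonneg_left (Real.exp_le_exp.2 (mul_le_mul_of_nonneg_left ?_ hθ)) (io_nonneg _)
        have k3 : Ov μ s w z m ((l : ℤ) - 1) η ≤ O η := by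
          rw [hO]
          exact le_fold30 (fun l : ℕ => Ov μ s w z m ((l : ℤ) - 1) η) hl
        linarith
      refine (Finset.sum_le_sum k2).trans (le_of_eq ?_)
      rw [← Finset.sum_mul]
      congr 1
      rw [hp]
      exact sum_Fi (Finset.range (m + 1)) (r := (id : ℕ → ℕ)) Function.injective_id
        fun l : ℕ => Ht μ s v w h0 h1 Y z m l η
    refine k1.trans ?_
    obtain ⟨ζ, hζ⟩ : ∃ ζ, ζ = Real.exp (θ * O η) / Λ := ⟨_, rfl⟩
    have hζ0 : 0 < ζ := by rw [hζ]; positivity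
    have k4 : Real.exp (θ * (O η + 1)) = Real.exp θ * Λ * ζ := by
      rw [hζ, mul_add, mul_one, Real.exp_add]
      field_simp
    have k5 : io (p η) * ζ ≤ 2 * io (p η) + ζ ^ q * (2 / 2 ^ q) := by
      have hJ0 := io_nonneg (p η)
      have hJ1 := io_le_one (p η)
      rcases le_or_gt ζ 2 with h | h
      · have k6 : 0 ≤ ζ ^ q * (2 / 2 ^ q) := by positivity
        nlinarith
      · have k6 : ζ ≤ ζ ^ q * (2 / 2 ^ q) := by
          have k7 : 1 ≤ (ζ / 2) ^ (q - 1) := one_le_pow₀ (by linarith)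
          have k8 : ζ ^ q * (2 / 2 ^ q) = ζ * (ζ / 2) ^ (q - 1) := by
            obtain ⟨r, rfl⟩ : ∃ r, q = r + 1 := ⟨q - 1, by omega⟩
            rw [Nat.add_sub_cancel, div_pow, pow_succ, pow_succ]
            field_simp
          rw [k8]
          nlinarith
        nlinarith
    have k9 : ζ ^ q ≤ 1 + Real.exp (O η) / A := by
      have e1 : ζ ^ q = (Real.exp (O η) / A) ^ (q * θ) := by
        rw [hζ, hΛ, div_pow, Real.div_rpow (Real.exp_pos _).le hA0.le, ← Real.exp_nat_mul, ← Real.exp_mul,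
          ← Real.rpow_natCast, ← Real.rpow_mul hA0.le]
        congr 2
        · ring
        · ring
      rw [e1]
      exact rpow_le_aux30 (by positivity) (by positivity) hqθ
    rw [k4]
    have k10 : io (p η) * (Real.exp θ * Λ * ζ) = Real.exp θ * Λ * (io (p η) * ζ) := by ring
    rw [k10]
    refine mul_le_mul_of_nonneg_left (k5.trans ?_) (by positivity)
    have k11 : ζ ^ q * (2 / 2 ^ q) ≤ (1 + Real.exp (O η) / A) * (2 / 2 ^ q) :=
      mul_le_mul_of_nonneg_right k9 (by positivity)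
    linarith
  have j1 : Integrable (fun η => 2 * io (p η)) (law μ) := hJi.const_mul 2
  have j2 : Integrable (fun η => 1 + Real.exp (O η) / A) (law μ) :=
    (integrable_const (1 : ℝ)).add ((hOS.exp_int em).div_const A)
  have j3 : Integrable (fun η => (1 + Real.exp (O η) / A) * (2 / 2 ^ q)) (law μ) := j2.mul_const _
  have j4 : Integrable (fun η => 2 * io (p η) + (1 + Real.exp (O η) / A) * (2 / 2 ^ q)) (law μ) := j1.add j3
  refine (integral_mono_of_nonneg (Eventually.of_forall fun η => ?_) (j4.const_mul (Real.exp θ * Λ))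
    (Eventually.of_forall hpt)).trans ?_
  · exact Finset.sum_nonneg fun l _ => mul_nonneg (io_nonneg _) (Real.exp_pos _).le
  rw [integral_const_mul, integral_add j1 j3, integral_const_mul, integral_mul_const,
    integral_add (integrable_const _) ((hOS.exp_int em).div_const A), integral_const, probReal_univ, one_smul,
    integral_div, hJint, ← hA, ← hΛ, hp]
  refine mul_le_mul_of_nonneg_left ?_ (by positivity)
  have l1 : (∫ η, Real.exp (O η) ∂(law μ)) / A ≤ 1 := by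
    rw [div_le_one hA0]
    exact hintO
  have l2 : (1 + (∫ η, Real.exp (O η) ∂(law μ)) / A) * (2 / 2 ^ q) ≤ 2 * (2 / 2 ^ q) :=
    mul_le_mul_of_nonneg_right (by linarith) (by positivity)
  have l3 : 2 * (2 / 2 ^ q) = (4 : ℝ) / 2 ^ q := by ring
  linarith

private theorem exp_sixth30 : Real.exp (1 / 6) ≤ 6 / 5 := by
  have e2 := Real.exp_bound_div_one_sub_of_interval (x := 1 / 6) (by norm_num) (by norm_num)
  calc Real.exp (1 / 6) ≤ 1 / (1 - 1 / 6) := e2
    _ = 6 / 5 := by norm_num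

/-- The sum over the cells with `θ Y = 1`. -/
private theorem sum_cells30 {θ Y κ : ℝ} (hθ : 0 < θ) (hθY : θ * Y = 1) (hκ : 0 < κ) (m : ℕ) :
    ∑ j ∈ Finset.Icc (-((m : ℤ) + 2)) ((m : ℤ) + 2), Real.exp (-(θ * Pool.Agent.W_7d29a1_L.far κ j)) ≤ 5 + 2 * (Y / κ) := by
  have hx : 0 < θ * κ := by positivity
  have h1 := sum_far hx (m + 2)
  have e1 : (((m + 2 : ℕ) : ℤ)) = (m : ℤ) + 2 := by push_cast; ring
  rw [e1] at h1
  have e2 : ∑ j ∈ Finset.Icc (-((m : ℤ) + 2)) ((m : ℤ) + 2), Real.exp (-(θ * Pool.Agent.W_7d29a1_L.far κ j)) =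
      ∑ j ∈ Finset.Icc (-((m : ℤ) + 2)) ((m : ℤ) + 2), Real.exp (-(θ * κ * max (|(j : ℝ)| - 1) 0)) := by
    refine Finset.sum_congr rfl fun j _ => ?_
    unfold Pool.Agent.W_7d29a1_L.far
    rw [mul_assoc]
  rw [e2]
  refine h1.trans (le_of_eq ?_)
  have e3 : 2 / (θ * κ) = 2 * (Y / κ) := by
    rw [div_eq_iff hx.ne']
    have h2 : 2 * (Y / κ) * (θ * κ) = 2 * (θ * Y) * (κ / κ) := by ring
    rw [h2, hθY, div_self hκ.ne']
    ring
  rw [e3]

/-- The restart with the probability of a hit as input (`core`), uniformly in the tilt. -/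
theorem core30 (em : Pool.Agent.W_7d29a1_h47.EM μ) (a1 : ℝ) (ha1 : 0 ≤ a1) {c0 : ℝ} (hc0 : 0 < c0) :
    ∃ p0 : ℝ, 0 < p0 ∧ ∀ R : ℝ, ∃ K : ℝ, 6 ≤ K ∧ ∀ s : ℝ, ∫ η, Real.exp (V μ s η 0 1) ∂(law μ) ≤ a1 →
      ∀ (n : ℕ) (v w h0 h h1 κ Y : ℝ), 1 ≤ n → w ≤ n →
      Nm v w h0 h h1 κ → 0 < κ → K ≤ Y → c0 * (1 + Real.log n) ≤ Y → 5 + 2 * (Y / κ) ≤ R →
      (∀ (m : ℕ) (z : ℝ), m ≤ n → (5 + 2 * (Y / κ)) *
        (law μ).real {η | ∃ l ∈ Finset.range (m + 1), Ht μ s v w h0 h1 Y z m l η} ≤ p0) →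
      ∀ z : ℝ, ∫ η, Real.exp (Mh μ s v h w z n η / Y) ∂(law μ) ≤ 4 * Real.exp 1 := by
  obtain ⟨A0, hA0', hA0⟩ : ∃ A0 : ℝ, A0 = 3 + 10 * a1 ∧ 1 ≤ A0 := ⟨_, rfl, by linarith⟩
  have hlA : 0 ≤ Real.log A0 := Real.log_nonneg hA0
  -- the bound of `(A0 n ^ 2) ^ θ`
  obtain ⟨Λ, hΛ⟩ : ∃ Λ : ℝ, Λ = Real.exp ((Real.log A0 + 2) / c0) := ⟨_, rfl⟩
  have hΛ0 : 0 < Λ := by
    rw [hΛ]
    exact Real.exp_pos _
  refine ⟨1 / (56 * Λ), by positivity, ?_⟩
  intro R
  obtain ⟨q, hq⟩ : ∃ q : ℕ, max (112 * (R * Λ)) 1 < 2 ^ q := pow_unbounded_of_one_lt _ one_lt_two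
  have hqR : 112 * (R * Λ) < 2 ^ q := lt_of_le_of_lt (le_max_left _ _) hq
  have hq1 : 1 ≤ q := by
    rcases Nat.eq_zero_or_pos q with h0 | h0
    · rw [h0, pow_zero] at hq
      exact absurd (le_max_right (112 * (R * Λ)) 1) (not_le.2 hq)
    · exact h0
  refine ⟨max 6 q, le_max_left _ _, ?_⟩
  intro s hs n v w a h b κ Y hn hwn N hκ hKY hYn hR hP z
  have herr := over_err30 em hs
  rw [← hA0'] at herr
  have hY6 : 6 ≤ Y := (le_max_left _ _).trans hKY
  have hYq : (q : ℝ) ≤ Y := (le_max_right _ _).trans hKY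
  have hY0 : 0 < Y := by linarith
  have hnr : (1 : ℝ) ≤ n := by exact_mod_cast hn
  have hln : 0 ≤ Real.log n := Real.log_nonneg hnr
  obtain ⟨θ, hθ⟩ : ∃ θ : ℝ, θ = 1 / Y := ⟨_, rfl⟩
  have hθ0 : 0 < θ := by rw [hθ]; positivity
  have hθY : θ * Y = 1 := by
    rw [hθ]
    exact one_div_mul_cancel hY0.ne'
  have hθ6 : θ ≤ 1 / 6 := by
    rw [hθ]
    exact one_div_le_one_div_of_le (by norm_num) hY6
  have hqθ : (q : ℝ) * θ ≤ 1 := by
    have h1 : (q : ℝ) * θ ≤ Y * θ := mul_le_mul_of_nonneg_right hYq hθ0.le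
    linarith
  have hX : (A0 * (n : ℝ) ^ 2) ^ θ ≤ Λ := by
    have hpos : 0 < A0 * (n : ℝ) ^ 2 := by positivity
    rw [Real.rpow_def_of_pos hpos, hΛ]
    refine Real.exp_le_exp.2 ?_
    have e1 : Real.log (A0 * (n : ℝ) ^ 2) = Real.log A0 + 2 * Real.log n := by
      rw [Real.log_mul (by linarith) (by positivity), Real.log_pow]
      push_cast
      ring
    rw [e1, le_div_iff₀ hc0]
    have e3 : θ * (c0 * (1 + Real.log n)) ≤ 1 := by
      have h1 := mul_le_mul_of_nonneg_left hYn hθ0.le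
      linarith
    have e4 : Real.log A0 + 2 * Real.log n ≤ (Real.log A0 + 2) * (1 + Real.log n) := by
      have := mul_nonneg hlA hln
      nlinarith
    have e5 : (Real.log A0 + 2 * Real.log n) * (θ * c0) ≤ (Real.log A0 + 2) * (1 + Real.log n) * (θ * c0) :=
      mul_le_mul_of_nonneg_right e4 (by positivity)
    have e6 : (Real.log A0 + 2) * (θ * (c0 * (1 + Real.log n))) ≤ (Real.log A0 + 2) * 1 :=
      mul_le_mul_of_nonneg_left e3 (by linarith)
    calc (Real.log A0 + 2 * Real.log n) * θ * c0 = (Real.log A0 + 2 * Real.log n) * (θ * c0) := by ring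
      _ ≤ (Real.log A0 + 2) * (1 + Real.log n) * (θ * c0) := e5
      _ = (Real.log A0 + 2) * (θ * (c0 * (1 + Real.log n))) := by ring
      _ ≤ (Real.log A0 + 2) * 1 := e6
      _ = Real.log A0 + 2 := mul_one _
  have hX0 : 0 ≤ (A0 * (n : ℝ) ^ 2) ^ θ := Real.rpow_nonneg (by positivity) _
  have he1 : Real.exp 1 < 2.7182818286 := Real.exp_one_lt_d9
  have he0 : 0 < Real.exp 1 := Real.exp_pos 1
  have hexpθ : Real.exp θ ≤ 6 / 5 := (Real.exp_le_exp.2 hθ6).trans exp_sixth30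
  have hexpY : Real.exp (θ * (Y + Real.log 2)) ≤ Real.exp 1 * (6 / 5) := by
    have e1 : θ * (Y + Real.log 2) = 1 + θ * Real.log 2 := by
      rw [mul_add, hθY]
    rw [e1, Real.exp_add]
    refine mul_le_mul_of_nonneg_left ?_ he0.le
    refine (Real.exp_le_exp.2 ?_).trans exp_sixth30
    have h1 : Real.log 2 ≤ 1 := by
      have := Real.log_two_lt_d9
      linarith
    have h2 : 0 ≤ Real.log 2 := Real.log_nonneg (by norm_num)
    nlinarith
  obtain ⟨u, hu⟩ : ∃ u : ℝ, u = 5 + 2 * (Y / κ) := ⟨_, rfl⟩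
  have hu0 : 0 < u := by
    rw [hu]
    positivity
  rw [← hu] at hR
  have h2q : (0 : ℝ) < 2 ^ q := by positivity
  have key : ∀ m : ℕ, m ≤ n → ∀ z : ℝ, ∫ η, Real.exp (θ * Mh μ s v h w z m η) ∂(law μ) ≤ 4 * Real.exp 1 := by
    intro m
    induction m using Nat.strong_induction_on with
    | _ m ih =>
      intro hm z
      have r1 := restart (n := m) (z := z) em N hY0 hθ0.le (B := 4 * Real.exp 1) (by positivity)
        (fun n' hn' z' => ih n' hn' (hn'.le.trans hm) z')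
      have r2 := herr n m q v w a b Y z θ hn hm hq1 N.w1 hwn hθ0.le hqθ
      have r3 := hP m z hm
      have r4 := sum_cells30 hθ0 hθY hκ m
      obtain ⟨P, hPdef⟩ : ∃ P : ℝ, P = (law μ).real {η | ∃ l ∈ Finset.range (m + 1), Ht μ s v w a b Y z m l η} := ⟨_, rfl⟩
      have hP0 : 0 ≤ P := by rw [hPdef]; exact measureReal_nonneg
      obtain ⟨OE, hOE⟩ : ∃ OE : ℝ, OE = ∫ η, ∑ l ∈ Finset.range (m + 1), io (Fh μ s v w a b Y z m l η) *
        Real.exp (θ * (Ov μ s w z m ((l : ℤ) - 1) η + 1)) ∂(law μ) := ⟨_, rfl⟩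
      have hOE0 : 0 ≤ OE := by
        rw [hOE]
        exact integral_nonneg fun η => Finset.sum_nonneg fun l _ => mul_nonneg (io_nonneg _) (Real.exp_pos _).le
      obtain ⟨S, hS⟩ : ∃ S : ℝ, S = ∑ j ∈ Finset.Icc (-((m : ℤ) + 2)) ((m : ℤ) + 2),
        Real.exp (-(θ * Pool.Agent.W_7d29a1_L.far κ j)) := ⟨_, rfl⟩
      have hS0 : 0 ≤ S := by
        rw [hS]
        exact Finset.sum_nonneg fun j _ => (Real.exp_pos _).le
      rw [← hPdef, ← hu] at r3
      rw [← hPdef, ← hOE] at r2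
      rw [← hOE, ← hS] at r1
      rw [← hS, ← hu] at r4
      -- `OE ≤ (6 / 5) Λ (2 P + 4 / 2 ^ q)`
      have s1 : OE ≤ 6 / 5 * Λ * (2 * P + 4 / 2 ^ q) := by
        have t2 : 0 ≤ 2 * P + 4 / 2 ^ q := by positivity
        have t3 : Real.exp θ * (A0 * (n : ℝ) ^ 2) ^ θ ≤ 6 / 5 * Λ :=
          mul_le_mul hexpθ hX hX0 (by norm_num)
        exact r2.trans (mul_le_mul_of_nonneg_right t3 t2)
      -- `Λ u P ≤ 1 / 56`
      have s2 : Λ * (u * P) ≤ 1 / 56 := by
        have t1 := mul_le_mul_of_nonneg_left r3 hΛ0.le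
        have t2 : Λ * (1 / (56 * Λ)) = 1 / 56 := by
          field_simp
        linarith
      -- `Λ u 4 / 2 ^ q ≤ 1 / 28`
      have s3 : Λ * (u * (4 / 2 ^ q)) ≤ 1 / 28 := by
        have t1 : Λ * u ≤ R * Λ := by
          have := mul_le_mul_of_nonneg_left hR hΛ0.le
          linarith
        have t2 : Λ * (u * (4 / 2 ^ q)) = 4 * (Λ * u) / 2 ^ q := by ring
        rw [t2, div_le_iff₀ h2q]
        linarith
      have s4 : OE * S * (4 * Real.exp 1) ≤ 1 := by
        have t1 : OE * S ≤ 6 / 5 * Λ * (2 * P + 4 / 2 ^ q) * u :=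
          mul_le_mul s1 r4 hS0 (by positivity)
        have t2 : 6 / 5 * Λ * (2 * P + 4 / 2 ^ q) * u =
            6 / 5 * (2 * (Λ * (u * P)) + Λ * (u * (4 / 2 ^ q))) := by ring
        have t3 : OE * S ≤ 6 / 5 * (2 * (1 / 56) + 1 / 28) := by
          rw [t2] at t1
          linarith
        have t4 := mul_le_mul_of_nonneg_right t3 (by positivity : (0 : ℝ) ≤ 4 * Real.exp 1)
        refine t4.trans ?_
        nlinarith
      have s5 : 0 ≤ OE * S * (4 * Real.exp 1) := by positivity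
      refine r1.trans ?_
      calc Real.exp (θ * (Y + Real.log 2)) * (1 + OE * S * (4 * Real.exp 1))
          ≤ Real.exp 1 * (6 / 5) * (1 + OE * S * (4 * Real.exp 1)) :=
            mul_le_mul_of_nonneg_right hexpY (by linarith)
        _ ≤ Real.exp 1 * (6 / 5) * 2 := mul_le_mul_of_nonneg_left (by linarith) (by positivity)
        _ ≤ 4 * Real.exp 1 := by linarith
  have hfin := key n le_rfl z
  refine le_of_eq_of_le ?_ hfin
  refine integral_congr_ae (Filter.Eventually.of_forall fun η => ?_)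
  show Real.exp (Mh μ s v h w z n η / Y) = Real.exp (θ * Mh μ s v h w z n η)
  congr 1
  rw [hθ]
  ring


end

end Pool.Agent.W_7d29a1_H
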