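import Pool.Agent.W_7d29a1_H.FrHit30
import Pool.Agent.W_7d29a1_H.FrCore30
import Pool.Agent.W_7d29a1_H.LamH

/-!
MP_7d29a1_pr, TRACK H (all tilts). The frame, 3a: (L*) at one scale, in the moving frame. (helper30)
-/

set_option autoImplicit false

namespace Pool.Agent.W_7d29a1_H

open MeasureTheory ProbabilityTheory Filter Topology
open Pool.Agent.W_7d29a1_F Pool.Agent.W_7d29a1_h95g
open Pool.Agent.W_7d29a1_h47 (EM Nondeg)
open Pool.Agent.W_7d29a1_L (Bx mem_Bx T Ht Mh Nm Mh_le le_Mh Mh_nonneg Sub_Mh)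

noncomputable section

variable {μ : Measure ℝ} [IsProbabilityMeasure μ] {s r : ℝ} {w n T0 : ℕ} {ys α β : ℤ} {E C1 A Cl p : ℝ}

omit [IsProbabilityMeasure μ] in
private theorem at30_WR (s : ℝ) (R : Set Pt) (η : Env) (a : Pt) (n : ℕ) (y : ℤ) :
    WR μ s R η a n y = Real.exp (s * y - n * lam μ s) * Zr R η a n y := rfl

/-- The one step luck, uniformly for bounded tilts. -/
theorem step_luck30 (hμ : EM μ) (hnd : Nondeg μ) (H : ℝ) : ∃ a1 : ℝ, 0 ≤ a1 ∧ ∀ s : ℝ, |s| ≤ H →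
    ∫ η, Real.exp (V μ s η 0 1) ∂(law μ) ≤ a1 := by
  refine ⟨Real.exp (2 * H) * ∫ η, Real.exp (V μ 0 η 0 1) ∂(law μ),
    mul_nonneg (Real.exp_pos _).le (integral_nonneg fun η => (Real.exp_pos _).le), fun s hs => ?_⟩
  have h1 : ∀ η : Env, Real.exp (V μ s η 0 1) ≤ Real.exp (2 * H) * Real.exp (V μ 0 η 0 1) := by
    intro η
    rw [exp_V, exp_V]
    unfold WS
    rw [Finset.mul_sum]
    refine Finset.sum_le_sum fun y hy => ?_
    rw [Finset.mem_Icc] at hy
    obtain ⟨y0, y1⟩ := hy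
    unfold W
    rw [at30_WR, at30_WR, ← mul_assoc, ← Real.exp_add]
    refine mul_le_mul_of_nonneg_right (Real.exp_le_exp.2 ?_) (Zr_pos _ _ y0 y1).le
    have h2 := lam_tangent hμ hnd 0 s
    have h3 := sl_mem hμ hnd 0
    have y0' : (0 : ℝ) ≤ y := by exact_mod_cast y0
    have y1' : (y : ℝ) ≤ 1 := by exact_mod_cast y1
    obtain ⟨s1, s2⟩ := abs_le.1 hs
    have h4 : s * (y : ℝ) ≤ H := by
      rcases le_total 0 s with h | h
      · nlinarith
      · nlinarith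
    have h5 : -(sl μ 0 * (s - 0)) ≤ H := by
      rcases le_total 0 s with h | h
      · nlinarith
      · nlinarith
    push_cast
    linarith
  have h2 := integral_mono ((Sub_V (μ := μ) (s := s) 0 1).exp_int hμ)
    (((Sub_V (μ := μ) (s := 0) 0 1).exp_int hμ).const_mul (Real.exp (2 * H))) h1
  rwa [integral_const_mul] at h2

omit [IsProbabilityMeasure μ] in
theorem Mh_mono_n30 {s v h w z : ℝ} {m n : ℕ} (hv0 : 0 ≤ v) (hv1 : v ≤ 1) (hmn : m ≤ n) (η : Env) :
    Mh μ s v h w z m η ≤ Mh μ s v h w z n η := by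
  refine Mh_le η (Mh_nonneg η) fun q hq => le_Mh η ?_
  obtain ⟨q1, q2, q3⟩ := (mem_Bx hv0 hv1).1 hq
  exact (mem_Bx hv0 hv1).2 ⟨q1.trans hmn, q2, q3⟩

/-- **(L\*) AT ONE SCALE.** -/
theorem ls30 (hμ : EM μ) {a1 : ℝ} (ha1 : 0 ≤ a1) : ∃ p0 K : ℝ, 0 < p0 ∧
    ∀ (s r : ℝ) (w n T0 : ℕ) (ys α β : ℤ) (E C1 A Cl p : ℝ), ∫ η, Real.exp (V μ s η 0 1) ∂(law μ) ≤ a1 →
      FrHyp30 μ s r w n T0 ys α β E C1 A Cl p → K ≤ A → 1600 * C1 / A ≤ p0 → 64 * p ≤ p0 → Real.log n ≤ E → (w : ℝ) ≤ n + 2 →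
      ∀ m : ℕ, m ≤ n → ∀ h z : ℝ, |h| ≤ A * E / (48 * w) →
        ∫ η, Real.exp (Mh μ s r h ((w : ℝ) - 2) z m η / (9 * (A * E))) ∂(law μ) ≤ 4 * Real.exp 1 := by
  obtain ⟨q0, hq0, hcore⟩ := core30 hμ a1 ha1 (c0 := 1) one_pos
  obtain ⟨K, hK6, hcore⟩ := hcore 2597
  refine ⟨q0 / (2 * 2597), K, by positivity, ?_⟩
  intro s r w n T0 ys α β E C1 A Cl p hst H hKA hA1 hp hlogn hwn m hm h' z hh'
  have hE1 := H.E1
  have hC1 := H.C11
  have hA48 : 48 ≤ A := by linarith [H.A1]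
  have hA0 : 0 < A := by linarith
  have hAE : 0 < A * E := by positivity
  have hAE48 : 48 ≤ A * E := by nlinarith
  have hAE' : A ≤ A * E := by nlinarith
  have hwr : (3 : ℝ) ≤ w := by exact_mod_cast H.w3
  have hw0 : (0 : ℝ) < w := by linarith
  have hr0 := H.r0
  have hr1 := H.r1
  have hn1 := H.n1
  obtain ⟨h, hh⟩ : ∃ h : ℝ, h = th30 A E w := ⟨_, rfl⟩
  have hhw : h * w = A * E / 24 := by
    rw [hh]
    unfold th30
    field_simp
  have hh0 : 0 < h := by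
    rw [hh]
    unfold th30
    positivity
  have hh1 : h ≤ 1 := by
    rw [hh]
    unfold th30
    rw [div_le_one (by positivity)]
    exact H.hw
  have hh2 : A * E / (48 * w) = h / 2 := by
    rw [hh]
    unfold th30
    field_simp
    ring
  rw [hh2] at hh'
  obtain ⟨g1, g2⟩ := abs_le.1 hh'
  have hY0 : 0 < 9 * (A * E) := by linarith
  have hw2 : (w : ℝ) / 3 ≤ w - 2 := by linarith
  have hκw : A * E / 144 ≤ h / 2 * ((w : ℝ) - 2) := by
    have h1 : h / 2 * ((w : ℝ) / 3) ≤ h / 2 * ((w : ℝ) - 2) := mul_le_mul_of_nonneg_left hw2 (by linarith)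
    have h2 : h / 2 * ((w : ℝ) / 3) = A * E / 144 := by
      have : h / 2 * ((w : ℝ) / 3) = (h * w) / 6 := by ring
      rw [this, hhw]
      ring
    linarith
  have N : Nm r ((w : ℝ) - 2) (-h) h' h (A * E / 144) := by
    have hw20 : 0 ≤ (w : ℝ) - 2 := by linarith
    refine ⟨hr0, hr1, by linarith, ?_, ?_, by linarith, by linarith, by positivity, ?_, ?_⟩
    · rw [abs_neg, abs_of_pos hh0]
      exact hh1
    · rw [abs_of_pos hh0]
      exact hh1
    · exact hκw.trans (mul_le_mul_of_nonneg_right (by linarith) hw20)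
    · exact hκw.trans (mul_le_mul_of_nonneg_right (by linarith) hw20)
  have hYκ : 9 * (A * E) / (A * E / 144) = 1296 := by
    field_simp
    norm_num
  have hnr : (1 : ℝ) ≤ n := by exact_mod_cast hn1
  have hmain := hcore s hst n r ((w : ℝ) - 2) (-h) h' h (A * E / 144) (9 * (A * E)) hn1 (by linarith) N
    (by positivity) (by linarith) (by nlinarith) (by rw [hYκ]; norm_num) (fun m' z' hm' => by
      rw [hYκ]
      have h1 := hit_le30 hμ H hm' z'
      rw [← hh] at h1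
      have h4 : (5 + 2 * (1296 : ℝ)) * (q0 / (2 * 2597) + q0 / (2 * 2597)) = q0 := by ring
      calc (5 + 2 * (1296 : ℝ)) * _ ≤ (5 + 2 * (1296 : ℝ)) * (q0 / (2 * 2597) + q0 / (2 * 2597)) :=
            mul_le_mul_of_nonneg_left (by linarith) (by norm_num)
        _ = q0 := h4) z
  refine le_trans (integral_mono ?_ ?_ fun η => ?_) hmain
  · have h1 := ((Sub_Mh (μ := μ) (s := s) (v := r) (h := h') (w := (w : ℝ) - 2) (z := z)
      (n := m)).const_mul (1 / (9 * (A * E)))).exp_int hμ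
    refine h1.congr (Filter.Eventually.of_forall fun η => ?_)
    show Real.exp _ = Real.exp _
    congr 1
    ring
  · have h1 := ((Sub_Mh (μ := μ) (s := s) (v := r) (h := h') (w := (w : ℝ) - 2) (z := z)
      (n := n)).const_mul (1 / (9 * (A * E)))).exp_int hμ
    refine h1.congr (Filter.Eventually.of_forall fun η => ?_)
    show Real.exp _ = Real.exp _
    congr 1
    ring
  · refine Real.exp_le_exp.2 (div_le_div_of_nonneg_right ?_ hY0.le)
    exact Mh_mono_n30 hr0 hr1 hm η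

end

end Pool.Agent.W_7d29a1_H
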