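import Pool.Agent.W_7d29a1_H.FrCone78
import Pool.Agent.W_7d29a1_H.PredH
import Pool.Agent.W_7d29a1_H.WidthH
import Pool.Agent.W_7d29a1_H.ConH
import Pool.Agent.W_7d29a1_H.MeanB

/-!
MP_7d29a1_pr, TRACK H (all tilts). THE FRAME: (CHEAP). For every duration `m` the cheap displacements contain an interval around the
cheapest one, whose length is comparable with `m vA m`. From the cone of every scale. (helper78)
-/

set_option autoImplicit false

namespace Pool.Agent.W_7d29a1_H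

open MeasureTheory ProbabilityTheory
open Pool.Agent.W_7d29a1_F Pool.Agent.W_7d29a1_h4g
open Pool.Agent.W_7d29a1_L (Mh)
open Pool.Agent.W_7d29a1_h47 (EM Nondeg)

noncomputable section

variable {μ : Measure ℝ} [IsProbabilityMeasure μ] {H0 δ a : ℝ} {A0 : Set ℝ}

/-- The widths of the small durations. -/
theorem Dirs.wH_small78 (hD : Dirs μ H0 δ A0) (ha : 0 < a) (N1 : ℕ) :
    ∃ B : ℝ, 0 ≤ B ∧ ∀ s ∈ A0, ∀ m : ℕ, 1 ≤ m → m ≤ N1 → wH a μ s m ≤ B := by
  obtain ⟨F0, hF0⟩ := ff_zero (a := a) hD ha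
  refine ⟨N1 * (2 * 2 ^ F0), by positivity, fun s hs m hm hmN => ?_⟩
  have h1 : vA a μ s 1 ≤ (2 : ℝ) ^ F0 := by
    have h2 := pow_ff (a := a) hD ha hs 0
    rw [pow_zero] at h2
    rw [← h2]
    exact Real.rpow_le_rpow_of_exponent_le one_le_two (by linarith [hF0 s hs])
  have h3 := hD.vA_le_two hs ha.le (n := 1) (n' := m) le_rfl hm
  have h4 : (m : ℝ) ≤ N1 := by exact_mod_cast hmN
  unfold wH
  refine mul_le_mul h4 (by linarith) (hD.vA_pos hs ha hm).le (Nat.cast_nonneg _)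

/-- **The width of a duration**, from the cone of a scale. -/
theorem Dirs.wH_cone78 (hD : Dirs μ H0 δ A0) (ha : 0 < a) {s : ℝ} (hs : s ∈ A0) {n N w H m : ℕ} {A r : ℝ} {α β : ℤ} (hA : 1 ≤ A)
    (hH : 1 ≤ H) (hn : 1 ≤ n) (hnm : n ≤ m) (hm : m ≤ 2 * (H * n)) (h : LsAtH μ s n N w A (EE μ s (H * n)) r α β) :
    wH a μ s m ≤ 384 * H * (2 * a + 109) * w := by
  obtain ⟨E, hE⟩ : ∃ E, E = EE μ s (H * n) := ⟨_, rfl⟩
  rw [← hE] at h
  have hE1 : 1 ≤ E := by rw [hE]; exact one_le_EE _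
  have hAE : 1 ≤ A * E := by nlinarith
  have hn0 : (0 : ℝ) < n := by exact_mod_cast hn
  have hm1 : 1 ≤ m := hn.trans hnm
  have hm0 : (0 : ℝ) < m := by exact_mod_cast hm1
  have hw3 : (3 : ℝ) ≤ w := by exact_mod_cast h.w3
  have hw0 : (0 : ℝ) < w := by linarith
  have hH0 : (1 : ℝ) ≤ H := by exact_mod_cast hH
  have hEm : EE μ s m ≤ 2 * E := by
    have h1 := EE_le_mul hD.em s (k := 2) (by norm_num) hm
    rw [hE]
    exact_mod_cast h1
  have key : ∀ x : ℝ, m * J μ s x = a * EE μ s m → n * |x - (r - sl μ s)| ≤ 96 * (2 * a + 109) * w := by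
    intro x hx
    have h1 := h.cone78 hD.em hD.nd hn hAE x
    have hJ : 0 ≤ J μ s x := by
      have : 0 ≤ m * J μ s x := by
        rw [hx]
        exact mul_nonneg ha.le (EE_pos _).le
      exact nonneg_of_mul_nonneg_right this hm0
    have h2 : n * J μ s x ≤ 2 * a * E := by
      have h3 : (n : ℝ) ≤ m := by exact_mod_cast hnm
      calc n * J μ s x ≤ m * J μ s x := mul_le_mul_of_nonneg_right h3 hJ
        _ = a * EE μ s m := hx
        _ ≤ a * (2 * E) := mul_le_mul_of_nonneg_left hEm ha.le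
        _ = 2 * a * E := by ring
    have h4 : A * E / (96 * w) * (n * |x - (r - sl μ s)|) ≤ A * E * (2 * a + 109) := by
      have h5 : 2 * a * E ≤ A * E * (2 * a) := by
        have : 0 ≤ 2 * a * E := by positivity
        nlinarith
      linarith
    rw [div_mul_eq_mul_div, div_le_iff₀ (by positivity)] at h4
    have h6 : A * E * (n * |x - (r - sl μ s)|) ≤ A * E * (96 * (2 * a + 109) * w) := by linarith
    exact le_of_mul_le_mul_left h6 (by linarith)
  have k1 := key _ (hD.J_vr hs ha.le hm1)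
  have k2 := key _ (hD.J_vl hs ha.le hm1)
  have h7 : n * vA a μ s m ≤ 2 * (96 * (2 * a + 109) * w) := by
    have h8 : n * vA a μ s m = n * (vr a μ s m - (r - sl μ s)) + n * ((r - sl μ s) - -vl a μ s m) := by
      unfold vA
      ring
    have h9 : n * (vr a μ s m - (r - sl μ s)) ≤ n * |vr a μ s m - (r - sl μ s)| :=
      mul_le_mul_of_nonneg_left (le_abs_self _) hn0.le
    have h10 : n * ((r - sl μ s) - -vl a μ s m) ≤ n * |-vl a μ s m - (r - sl μ s)| := by
      refine mul_le_mul_of_nonneg_left ?_ hn0.le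
      rw [abs_sub_comm]
      exact le_abs_self _
    linarith
  have hv : 0 ≤ vA a μ s m := (hD.vA_pos hs ha hm1).le
  have h11 : (m : ℝ) ≤ 2 * (H * n) := by exact_mod_cast hm
  calc wH a μ s m = m * vA a μ s m := rfl
    _ ≤ 2 * (H * n) * vA a μ s m := mul_le_mul_of_nonneg_right h11 hv
    _ = 2 * H * (n * vA a μ s m) := by ring
    _ ≤ 2 * H * (2 * (96 * (2 * a + 109) * w)) := mul_le_mul_of_nonneg_left h7 (by positivity)
    _ = 384 * H * (2 * a + 109) * w := by ring

/-- **(CHEAP)** from the cones of all scales. -/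
theorem cheapH_of78 (hD : Dirs μ H0 δ A0) (ha : 1 ≤ a) (hF : FrameAtH μ A0) : CheapH a μ A0 := by
  have hμ := hD.em
  have ha0 : 0 < a := by linarith
  obtain ⟨A, H, n0, hA48, hH, hn0, hall⟩ := hF 1 one_pos
  obtain ⟨N1, hN1⟩ : ∃ N1, N1 = H * n0 := ⟨_, rfl⟩
  obtain ⟨B, hB0, hB⟩ := hD.wH_small78 ha0 N1
  obtain ⟨Γ, hΓ⟩ : ∃ Γ : ℝ, Γ = 1152 * H * (2 * a + 109) := ⟨_, rfl⟩
  have hH0 : (0 : ℝ) < H := by exact_mod_cast hH
  have hΓ0 : 0 < Γ := by rw [hΓ]; positivity
  refine ⟨min 1 (min (1 / (B + 1)) (1 / (2 * Γ))), A + 1, by positivity, fun s hs m hm => ?_⟩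
  obtain ⟨c0, hc0⟩ : ∃ c0, c0 = min 1 (min (1 / (B + 1)) (1 / (2 * Γ))) := ⟨_, rfl⟩
  rw [← hc0]
  have c0a : c0 ≤ 1 := by rw [hc0]; exact min_le_left _ _
  have c0b : c0 ≤ 1 / (B + 1) := by rw [hc0]; exact (min_le_right _ _).trans (min_le_left _ _)
  have c0c : c0 ≤ 1 / (2 * Γ) := by rw [hc0]; exact (min_le_right _ _).trans (min_le_right _ _)
  have c0p : 0 < c0 := by rw [hc0]; positivity
  have hm0 : (0 : ℝ) < m := by exact_mod_cast hm
  have hx : |(xs μ s m : ℝ) - sl μ s * m| ≤ wH a μ s m := hD.xs_near hs ha m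
  have hwc : m ≤ N1 → wH a μ s m ≤ B := hB s hs m hm
  have hwf : ∀ {n N w : ℕ} {r : ℝ} {α β : ℤ}, 1 ≤ n → n ≤ m → m ≤ 2 * (H * n) →
      LsAtH μ s n N w A (EE μ s (H * n)) r α β → wH a μ s m ≤ 384 * H * (2 * a + 109) * w := fun h1 h2 h3 h4 =>
    hD.wH_cone78 ha0 hs (by linarith) hH h1 h2 h3 h4
  have hw0 : 0 ≤ wH a μ s m := mul_nonneg hm0.le (hD.vA_pos hs ha0 hm).le
  generalize wH a μ s m = w at hx hwc hwf hw0 ⊢
  have hEm : 0 < EE μ s m := EE_pos m
  have hxe : e μ s m (xs μ s m) ≤ EE μ s m := by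
    have := e_xs_le hμ s m
    have := le_EE (μ := μ) (s := s) (le_refl m)
    linarith
  have hxm := xs_mem (μ := μ) (s := s) m
  rcases lt_or_ge m N1 with hlt | hge
  · -- small durations
    refine ⟨xs μ s m, xs μ s m, hxm.1, le_rfl, le_rfl, hxm.2, ?_, fun y h1 h2 => ?_⟩
    · have h3 : c0 * w ≤ 1 := by
        have h4 : c0 * w ≤ 1 / (B + 1) * (B + 1) := mul_le_mul c0b (by linarith [hwc hlt.le]) hw0 (by positivity)
        rwa [one_div, inv_mul_cancel₀ (by positivity)] at h4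
      linarith
    · have h3 : y = xs μ s m := le_antisymm h2 h1
      subst h3
      refine ⟨?_, by linarith⟩
      nlinarith
  · -- large durations
    obtain ⟨n, hn⟩ : ∃ n, n = m / H := ⟨_, rfl⟩
    obtain ⟨t, ht⟩ : ∃ t, t = m % H := ⟨_, rfl⟩
    have hmn : H * n + t = m := by rw [hn, ht]; exact Nat.div_add_mod m H
    have htH : t < H := by rw [ht]; exact Nat.mod_lt _ (by omega)
    have hnn : n0 ≤ n := by
      rw [hn, Nat.le_div_iff_mul_le (by omega)]
      rw [hN1] at hge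
      linarith
    have hn1' : 1 ≤ n := hn0.trans hnn
    have hHn : H ≤ H * n := Nat.le_mul_of_pos_right H (by omega)
    have hnm : n ≤ m := by
      have : n ≤ H * n := Nat.le_mul_of_pos_left n (by omega)
      omega
    obtain ⟨r, N2, w2, α, β, -, -, hN2, hl⟩ := hall s hs n hnn
    have hwW := hwf hn1' hnm (by omega) hl
    obtain ⟨E, hE⟩ : ∃ E, E = EE μ s (H * n) := ⟨_, rfl⟩
    rw [← hE] at hl
    have hEE : E ≤ EE μ s m := by rw [hE]; exact EE_mono (by omega)
    have hE1 : 1 ≤ E := by rw [hE]; exact one_le_EE _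
    obtain ⟨s', hs'⟩ : ∃ s', N2 + s' = m := ⟨m - N2, by omega⟩
    obtain ⟨W, hW⟩ : ∃ W : ℝ, W = (β : ℝ) - α := ⟨_, rfl⟩
    have hwz : (w2 : ℤ) = β - α + 2 := hl.hw
    have hw3 := hl.w3
    have hαβ : α ≤ β := by omega
    have hW1 : 1 ≤ W := by
      rw [hW]
      have : (1 : ℤ) ≤ β - α := by omega
      exact_mod_cast this
    have hw2 : (w2 : ℝ) = W + 2 := by
      rw [hW]
      exact_mod_cast hwz
    -- comparison of the widths
    have hwΓ : w ≤ Γ * W := by
      rw [hΓ]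
      refine hwW.trans ?_
      have h1 : (w2 : ℝ) ≤ 3 * W := by linarith
      have h2 : 384 * H * (2 * a + 109) * w2 ≤ 384 * H * (2 * a + 109) * (3 * W) :=
        mul_le_mul_of_nonneg_left h1 (by positivity)
      linarith
    -- the cheap displacements of the duration `m`
    have hEtm : EE μ s s' ≤ EE μ s m := EE_mono (by omega)
    have hxt : xs μ s s' ∈ CI μ s s' (EE μ s s') := xs_CI' hμ le_rfl le_rfl
    have hCI : ∀ y : ℤ, α ≤ y → y ≤ β → y + xs μ s s' ∈ CI μ s m ((A + 1) * EE μ s m) := by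
      intro y hy1 hy2
      have hy0 : 0 ≤ y := hl.lo.trans hy1
      have hyN : y ≤ N2 := hy2.trans hl.hi
      have h0 := (hl.int y hy0 hyN).2 ⟨hy1, hy2⟩
      have h1 := CI_add hμ (CI_mk hy0 hyN h0) hxt
      rw [hs'] at h1
      refine CI_mono ?_ h1
      nlinarith
    have h1 := hCI α le_rfl hαβ
    have h2 := hCI β hαβ le_rfl
    have h0 : xs μ s m ∈ CI μ s m ((A + 1) * EE μ s m) := CI_mk hxm.1 hxm.2 (by nlinarith)
    obtain ⟨k, hk⟩ : ∃ k : ℤ, k = ⌊w⌋ := ⟨_, rfl⟩
    have hk0 : 0 ≤ k := by rw [hk]; exact Int.floor_nonneg.2 hw0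
    have hk1 : (k : ℝ) ≤ w := by rw [hk]; exact Int.floor_le w
    have hk2 : w - 1 < k := by rw [hk]; exact Int.sub_one_lt_floor w
    have hW2 : c0 * w ≤ W / 2 := by
      have h3 : c0 * w ≤ 1 / (2 * Γ) * (Γ * W) := mul_le_mul c0c hwΓ hw0 (by positivity)
      have h4 : 1 / (2 * Γ) * (Γ * W) = W / 2 := by field_simp
      rwa [h4] at h3
    have hcw : c0 * w ≤ w := by nlinarith
    rcases le_total (xs μ s m - (α + xs μ s s')) (β + xs μ s s' - xs μ s m) with hs2 | hs2
    · have hc1 : 0 ≤ min (β + xs μ s s' - xs μ s m) k := le_min (by omega) hk0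
      have hc2 : min (β + xs μ s s' - xs μ s m) k ≤ β + xs μ s s' - xs μ s m := min_le_left _ _
      have hc3 := CI_n h2
      refine ⟨xs μ s m, xs μ s m + min (β + xs μ s s' - xs μ s m) k, hxm.1, le_rfl, by omega, by omega, ?_, fun y hy1 hy2 => ?_⟩
      · have e1 : ((xs μ s m + min (β + xs μ s s' - xs μ s m) k : ℤ) : ℝ) - (xs μ s m : ℝ) =
            min ((β : ℝ) + xs μ s s' - xs μ s m) k := by
          push_cast
          ring
        rw [e1]
        refine le_min ?_ (by linarith)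
        have hs' : (xs μ s m : ℝ) - (α + xs μ s s') ≤ β + xs μ s s' - xs μ s m := by exact_mod_cast hs2
        linarith
      · have hy3 : y ≤ β + xs μ s s' := by omega
        have hy4 : y - xs μ s m ≤ k := by
          have := min_le_right (β + xs μ s s' - xs μ s m) k
          omega
        refine ⟨CI_e (CI_conv hμ h0 h2 hy1 hy3), ?_⟩
        have hy5 : (y : ℝ) - xs μ s m ≤ k := by exact_mod_cast hy4
        have hy6 : (xs μ s m : ℝ) ≤ y := by exact_mod_cast hy1
        rw [abs_le] at hx ⊢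
        constructor <;> linarith [hx.1, hx.2]
    · have hc1 : 0 ≤ min (xs μ s m - (α + xs μ s s')) k := le_min (by omega) hk0
      have hc2 : min (xs μ s m - (α + xs μ s s')) k ≤ xs μ s m - (α + xs μ s s') := min_le_left _ _
      have hc3 := CI_0 h1
      refine ⟨xs μ s m - min (xs μ s m - (α + xs μ s s')) k, xs μ s m, by omega, by omega, le_rfl, hxm.2, ?_, fun y hy1 hy2 => ?_⟩
      · have e1 : (xs μ s m : ℝ) - ((xs μ s m - min (xs μ s m - (α + xs μ s s')) k : ℤ) : ℝ) =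
            min ((xs μ s m : ℝ) - (α + xs μ s s')) k := by
          push_cast
          ring
        rw [e1]
        refine le_min ?_ (by linarith)
        have hs' : (β : ℝ) + xs μ s s' - xs μ s m ≤ xs μ s m - (α + xs μ s s') := by exact_mod_cast hs2
        linarith
      · have hy3 : α + xs μ s s' ≤ y := by omega
        have hy4 : xs μ s m - y ≤ k := by
          have := min_le_right (xs μ s m - (α + xs μ s s')) k
          omega
        refine ⟨CI_e (CI_conv hμ h1 h0 hy3 hy2), ?_⟩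
        have hy5 : (xs μ s m : ℝ) - y ≤ k := by exact_mod_cast hy4
        have hy6 : (y : ℝ) ≤ xs μ s m := by exact_mod_cast hy2
        rw [abs_le] at hx ⊢
        constructor <;> linarith [hx.1, hx.2]

end

end Pool.Agent.W_7d29a1_H
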