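import Pool.Agent.W_7d29a1_H.FrTr30
import Pool.Agent.W_7d29a1_h30g.Fr4
import Pool.Agent.W_7d29a1_h30g.StripT
import Pool.Agent.W_7d29a1_L.LsA1

/-!
MP_7d29a1_pr, TRACK H (all tilts). The frame, 2: the probability of a hit, in a frame which moves with any slope. (helper30)
-/

set_option autoImplicit false

namespace Pool.Agent.W_7d29a1_H

open MeasureTheory ProbabilityTheory Pool.Agent.W_7d29a1_F Pool.Agent.W_7d29a1_h95g Pool.Agent.W_7d29a1_h60
open Pool.Agent.W_7d29a1_L (Bx mem_Bx T exp_T Ht)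
open Pool.Agent.W_7d29a1_h30g (Stp ln Lk Us Wh rl Gd Wh_of_Gd Gd_prob T_strip)

noncomputable section

/-- The line of slope `r`. -/
def gr30 (r : ℝ) (t : ℤ) : ℤ := ⌊r * t⌋

section line

variable {r : ℝ}

theorem gr30_le (r : ℝ) (t : ℤ) : (gr30 r t : ℝ) ≤ r * t := Int.floor_le _

theorem gr30_lt (r : ℝ) (t : ℤ) : r * t < gr30 r t + 1 := Int.lt_floor_add_one _

theorem gr30_zero (r : ℝ) : gr30 r 0 = 0 := by
  unfold gr30
  simp

theorem gr30_mono (h0 : 0 ≤ r) (t : ℤ) : gr30 r t ≤ gr30 r (t + 1) := by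
  unfold gr30
  refine Int.floor_le_floor ?_
  push_cast
  nlinarith

theorem gr30_step (h1 : r ≤ 1) (t : ℤ) : gr30 r (t + 1) ≤ gr30 r t + 1 := by
  unfold gr30
  rw [← Int.floor_add_one]
  refine Int.floor_le_floor ?_
  push_cast
  nlinarith

theorem stp_gr30 (h0 : 0 ≤ r) (h1 : r ≤ 1) : Stp (gr30 r) := ⟨gr30_mono h0, gr30_step h1⟩

theorem isLine_gr30 (h0 : 0 ≤ r) (h1 : r ≤ 1) (c : ℤ) : IsLine fun t => gr30 r t + c :=
  ⟨fun t => by
    have := gr30_mono h0 t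
    show gr30 r t + c ≤ gr30 r (t + 1) + c
    omega, fun t => by
    have := gr30_step h1 t
    show gr30 r (t + 1) + c ≤ gr30 r t + c + 1
    omega⟩

theorem rl_gr30 (r : ℝ) (t : ℤ) (m : ℕ) (y : ℤ) : |((rl (gr30 r) t m y : ℤ) : ℝ) - ((y : ℝ) - r * m)| ≤ 1 := by
  have h1 := gr30_le r (t + m)
  have h2 := gr30_lt r (t + m)
  have h3 := gr30_le r t
  have h4 := gr30_lt r t
  unfold rl
  push_cast at h1 h2 ⊢
  rw [abs_le]
  constructor <;> linarith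

end line

variable {μ : Measure ℝ} [IsProbabilityMeasure μ] {s r : ℝ} {w n T0 : ℕ} {ys α β : ℤ} {E C1 A Cl p : ℝ}

/-- The start `a` is in the cell between the lines `gr30 r t + c` and `gr30 r t + c + w`. -/
theorem T_cell30 (h0 : 0 ≤ r) (h1 : r ≤ 1) {c w : ℤ} (hw : 0 ≤ w) {h M₀ B : ℝ} (η : Env) (a : Pt) (m : ℕ)
    (ha0 : gr30 r a.1 + c ≤ a.2) (ha1 : a.2 ≤ gr30 r a.1 + c + w) (hM : ∀ k ≤ m, V μ s η a k ≤ M₀) (hB0 : 0 ≤ B)
    (hB : ∀ k ≤ m, T μ s r h η (a.1 + k, gr30 r (a.1 + k) + c) (m - k) ≤ B)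
    (hB' : ∀ k ≤ m, T μ s r h η (a.1 + k, gr30 r (a.1 + k) + c + w) (m - k) ≤ B) :
    T μ s r h η a m ≤ M₀ + |h| * (w + 1) + B + Real.log (1 + 2 * m) := by
  have hBp : ∀ k ≤ m, T μ s r h η (a.1 + k, (fun t : ℤ => gr30 r t + (c + w)) (a.1 + k)) (m - k) ≤ B := by
    intro k hk
    have h2 := hB' k hk
    have e1 : (fun t : ℤ => gr30 r t + (c + w)) (a.1 + (k : ℤ)) = gr30 r (a.1 + (k : ℤ)) + c + w := by
      show gr30 r (a.1 + (k : ℤ)) + (c + w) = gr30 r (a.1 + (k : ℤ)) + c + w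
      ring
    rw [e1]
    exact h2
  refine T_strip (lm := fun t => gr30 r t + c) (lp := fun t => gr30 r t + (c + w)) (isLine_gr30 h0 h1 c)
    (isLine_gr30 h0 h1 (c + w)) (fun t => ?_) η a m ha0 (by
      show a.2 ≤ gr30 r a.1 + (c + w)
      omega) (fun k x hk hx hx' => ?_) hM hB0 hB hBp
  · show gr30 r t + c ≤ gr30 r t + (c + w)
    omega
  · have hx : gr30 r (a.1 + (k : ℤ)) + c ≤ x := hx
    have hx' : x ≤ gr30 r (a.1 + (k : ℤ)) + (c + w) := hx'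
    have h2 : |((x - a.2 : ℤ) : ℝ) - r * (k : ℝ)| ≤ (w : ℝ) + 1 := by
      have i1 := gr30_le r (a.1 + k)
      have i2 := gr30_lt r (a.1 + k)
      have i3 := gr30_le r a.1
      have i4 := gr30_lt r a.1
      have j1 : ((gr30 r (a.1 + (k : ℤ)) + c : ℤ) : ℝ) ≤ x := by exact_mod_cast hx
      have j2 : (x : ℝ) ≤ ((gr30 r (a.1 + (k : ℤ)) + (c + w) : ℤ) : ℝ) := by exact_mod_cast hx'
      have j3 : ((gr30 r a.1 + c : ℤ) : ℝ) ≤ a.2 := by exact_mod_cast ha0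
      have j4 : (a.2 : ℝ) ≤ ((gr30 r a.1 + c + w : ℤ) : ℝ) := by exact_mod_cast ha1
      push_cast at i1 i2 i3 i4 j1 j2 j3 j4 ⊢
      rw [abs_le]
      constructor <;> linarith
    calc h * (((x - a.2 : ℤ) : ℝ) - r * (k : ℝ)) ≤ |h * (((x - a.2 : ℤ) : ℝ) - r * (k : ℝ))| := le_abs_self _
      _ = |h| * |((x - a.2 : ℤ) : ℝ) - r * (k : ℝ)| := abs_mul _ _
      _ ≤ |h| * (w + 1) := mul_le_mul_of_nonneg_left h2 (abs_nonneg _)

omit [IsProbabilityMeasure μ] in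
/-- A luck with the tilt `± h` is at most the one sided tilted luck plus `h`. -/
theorem T_le_Wh30 (r h : ℝ) (hh : 0 ≤ h) (η : Env) (t x : ℤ) (m : ℕ) :
    Real.exp (T μ s r h η (t, x) m) ≤ Real.exp h * Wh μ s (gr30 r) 1 h η t x m ∧
    Real.exp (T μ s r (-h) η (t, x) m) ≤ Real.exp h * Wh μ s (gr30 r) (-1) h η t x m := by
  have hW : ∀ y : ℤ, 0 ≤ W μ s η (t, x) m y := fun y => Pool.Agent.W_7d29a1_h30g.WR_nonneg _ _ _ _ _
  constructor
  · rw [exp_T, Wh, Finset.mul_sum]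
    refine Finset.sum_le_sum fun y _ => ?_
    have h1 : Real.exp (h * ((y : ℝ) - r * m)) ≤
        Real.exp h * Real.exp (h * max 0 ((1 * rl (gr30 r) t m y : ℤ) : ℝ)) := by
      rw [← Real.exp_add]
      refine Real.exp_le_exp.2 ?_
      have h2 := (abs_le.1 (rl_gr30 r t m y)).1
      have h3 := le_max_right 0 ((1 * rl (gr30 r) t m y : ℤ) : ℝ)
      rw [one_mul] at h3 ⊢
      nlinarith
    calc W μ s η (t, x) m y * Real.exp (h * ((y : ℝ) - r * m)) ≤ W μ s η (t, x) m y *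
        (Real.exp h * Real.exp (h * max 0 ((1 * rl (gr30 r) t m y : ℤ) : ℝ))) :=
          mul_le_mul_of_nonneg_left h1 (hW y)
      _ = _ := by ring
  · rw [exp_T, Wh, Finset.mul_sum]
    refine Finset.sum_le_sum fun y _ => ?_
    have h1 : Real.exp (-h * ((y : ℝ) - r * m)) ≤
        Real.exp h * Real.exp (h * max 0 ((-1 * rl (gr30 r) t m y : ℤ) : ℝ)) := by
      rw [← Real.exp_add]
      refine Real.exp_le_exp.2 ?_
      have h2 := (abs_le.1 (rl_gr30 r t m y)).2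
      have h3 := le_max_right 0 ((-1 * rl (gr30 r) t m y : ℤ) : ℝ)
      push_cast at h3 ⊢
      nlinarith
    calc W μ s η (t, x) m y * Real.exp (-h * ((y : ℝ) - r * m)) ≤ W μ s η (t, x) m y *
        (Real.exp h * Real.exp (h * max 0 ((-1 * rl (gr30 r) t m y : ℤ) : ℝ))) :=
          mul_le_mul_of_nonneg_left h1 (hW y)
      _ = _ := by ring

omit [IsProbabilityMeasure μ] in
/-- The starts of the box, relative to the line `⌊z⌋`. -/
theorem bx_pos30 {w n : ℕ} {z : ℝ} {q : (ℕ × ℤ) × ℕ} (hq : q ∈ Bx r ((w : ℝ) - 2) z n) :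
    q.1.1 + q.2 ≤ n ∧ 1 ≤ q.1.2 - gr30 r q.1.1 - ⌊z⌋ ∧ q.1.2 - gr30 r q.1.1 - ⌊z⌋ ≤ (w : ℤ) - 1 := by
  unfold Bx at hq
  rw [Finset.mem_filter] at hq
  obtain ⟨h1, h2, h3⟩ := hq.2
  have i1 := gr30_le r q.1.1
  have i2 := gr30_lt r q.1.1
  have h6 := Int.floor_le z
  have h7 := Int.lt_floor_add_one z
  push_cast at i1 i2
  refine ⟨h1, ?_, ?_⟩
  · have h8 : (0 : ℝ) < ((q.1.2 - gr30 r q.1.1 - ⌊z⌋ : ℤ) : ℝ) := by
      push_cast
      linarith
    have h9 : (0 : ℤ) < q.1.2 - gr30 r q.1.1 - ⌊z⌋ := by exact_mod_cast h8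
    omega
  · have h8 : ((q.1.2 - gr30 r q.1.1 - ⌊z⌋ : ℤ) : ℝ) < (w : ℝ) := by
      push_cast
      linarith
    have h9 : q.1.2 - gr30 r q.1.1 - ⌊z⌋ < (w : ℤ) := by exact_mod_cast h8
    omega

/-- The tilt. -/
def th30 (A E : ℝ) (w : ℕ) : ℝ := A * E / (24 * w)

/-- The hypotheses at the scale `n`: travellers, the cheap interval `[α, β]` of the duration `T0 + (n + T0)` (level `A E`), hard
passages beyond it, the logarithm. -/
structure FrHyp30 (μ : Measure ℝ) (s r : ℝ) (w n T0 : ℕ) (ys α β : ℤ) (E C1 A Cl p : ℝ) : Prop where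
  n1 : 1 ≤ n
  r0 : 0 ≤ r
  r1 : r ≤ 1
  w3 : 3 ≤ w
  wab : (w : ℤ) = β - α + 2
  E1 : 1 ≤ E
  C11 : 1 ≤ C1
  Cl0 : 0 ≤ Cl
  A1 : 48 * C1 ≤ A
  A2 : 12 * Cl ≤ A
  tr : TrvH μ s (gr30 r) n T0 ys (C1 * E)
  rf : RefH μ s (T0 + (n + T0) + T0 + 2 * n) E
  al0 : 0 ≤ α
  be1 : β ≤ ((T0 + (n + T0) : ℕ) : ℤ)
  ins : ∀ y : ℤ, α ≤ y → y ≤ β → e μ s (T0 + (n + T0)) y ≤ A * E
  lg : Real.log (1 + 2 * n) ≤ Cl * E
  hard : ∀ ε : ℤ, (ε = 1 ∨ ε = -1) →
    (law μ).real {η | Real.exp (-(A * E / 3 + Real.log n + 8 * (C1 * E))) ≤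
      W μ s η 0 (T0 + (n + T0)) (2 * ys + (gr30 r n - gr30 r 0) + ε * w)} ≤ p
  hw : A * E ≤ 24 * w

/-- The box luck. -/
theorem box_bd30 (hEM : Pool.Agent.W_7d29a1_h47.EM μ) (H : FrHyp30 μ s r w n T0 ys α β E C1 A Cl p) (z : ℝ) :
    (law μ).real {η | ∃ q ∈ Bx r ((w : ℝ) - 2) z n, 7 * (A * E) ≤ V μ s η ((q.1.1 : ℤ), q.1.2) q.2} ≤ 1 / A := by
  classical
  have hE1 := H.E1
  have hC1 := H.C11
  have hA1 := H.A1
  have hwab := H.wab
  have hal := H.al0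
  have hbe := H.be1
  have hE : 0 < E := by linarith
  have hCE : E ≤ C1 * E := by nlinarith
  have hAE : 48 * (C1 * E) ≤ A * E := by nlinarith
  obtain ⟨b0, hb0⟩ : ∃ b0 : ℤ, b0 = ⌊z⌋ + 1 - α - ys := ⟨_, rfl⟩
  obtain ⟨T1, hT1⟩ : ∃ T1 : ℕ, T1 = T0 + (n + T0) + T0 := ⟨_, rfl⟩
  obtain ⟨S, hS⟩ : ∃ S : Finset (ℕ × ℤ), S = (Bx r ((w : ℝ) - 2) z n).image Prod.fst := ⟨_, rfl⟩
  have hSm : ∀ q ∈ S, q.1 ≤ n ∧ 1 ≤ q.2 - gr30 r q.1 - ⌊z⌋ ∧ q.2 - gr30 r q.1 - ⌊z⌋ ≤ (w : ℤ) - 1 := by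
    intro q hq
    rw [hS, Finset.mem_image] at hq
    obtain ⟨κ, hκ, rfl⟩ := hq
    obtain ⟨h1, h2, h3⟩ := bx_pos30 hκ
    exact ⟨by omega, h2, h3⟩
  have hXS : ∀ q ∈ S, 0 ≤ q.2 - b0 ∧ q.2 - b0 ≤ ((T1 + q.1 : ℕ) : ℤ) ∧ ep μ s (T1 + q.1) (q.2 - b0) ≤ A * E + 2 * (C1 * E) := by
    intro q hq
    obtain ⟨h1, h2, h3⟩ := hSm q hq
    have h4 := H.tr.st q.1 h1
    rw [gr30_zero, sub_zero] at h4
    obtain ⟨k, hk⟩ : ∃ k : ℤ, k = α + (q.2 - gr30 r q.1 - ⌊z⌋) - 1 := ⟨_, rfl⟩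
    have hk0 : α ≤ k := by omega
    have hk1 : k ≤ β := by omega
    have e1 : k + (ys + gr30 r q.1) = q.2 - b0 := by
      rw [hk, hb0]
      ring
    have h5 := e_add_le (μ := μ) (s := s) hEM (m := T0 + (n + T0)) (n := T0 + q.1) (k := k)
      (y := ys + gr30 r q.1) (by omega) (by omega) h4.1 h4.2.1
    have e2 : T0 + (n + T0) + (T0 + q.1) = T1 + q.1 := by omega
    rw [e1, e2] at h5
    have h6 := H.ins k hk0 hk1
    have h7 : e μ s (T0 + q.1) (ys + gr30 r q.1) ≤ ep μ s (T0 + q.1) (ys + gr30 r q.1) :=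
      integral_mono ((Sub_X (μ := μ) (s := s) 0 h4.1 h4.2.1).integrable hEM)
        ((Pool.Agent.W_7d29a1_L78.Sub_Xp (μ := μ) (s := s) 0 h4.1 h4.2.1).integrable hEM) fun η => le_max_left _ _
    have h8 := h4.2.2
    have g0 : 0 ≤ q.2 - b0 := by
      have := h4.1
      omega
    have g1 : q.2 - b0 ≤ ((T1 + q.1 : ℕ) : ℤ) := by
      have := h4.2.1
      push_cast at hbe this ⊢
      omega
    refine ⟨g0, g1, ?_⟩
    have h9 := Xp_le30 hEM (H.rf (T1 + q.1) (by omega)) g0 g1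
    linarith
  have h1 := box_luck30 hEM (μ := μ) (s := s) (n := n) (T := T1) hE (fun m hm => H.rf m (by omega)) S b0
    (A := A * E + 2 * (C1 * E)) (by linarith) (fun q hq => ⟨(hSm q hq).1, (hXS q hq).1, (hXS q hq).2.1⟩)
    (fun q hq => (hXS q hq).2.2) (Y := 7 * (A * E)) (by linarith)
  have h2 : (law μ).real {η | ∃ q ∈ Bx r ((w : ℝ) - 2) z n, 7 * (A * E) ≤ V μ s η ((q.1.1 : ℤ), q.1.2) q.2} ≤
      (law μ).real {η | ∃ q ∈ S, ∃ j, q.1 + j ≤ n ∧ 7 * (A * E) ≤ V μ s η ((q.1 : ℤ), q.2) j} := by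
    refine measureReal_mono ?_ (measure_ne_top _ _)
    rintro η ⟨q, hq, h3⟩
    refine ⟨q.1, ?_, q.2, (bx_pos30 hq).1, h3⟩
    rw [hS]
    exact Finset.mem_image_of_mem _ hq
  have hA0 : 0 < A := by linarith
  refine (h2.trans h1).trans ?_
  rw [div_le_div_iff₀ (by linarith) hA0]
  nlinarith

/-- **THE HIT PROBABILITY.** -/
theorem hit_le30 (hEM : Pool.Agent.W_7d29a1_h47.EM μ) (H : FrHyp30 μ s r w n T0 ys α β E C1 A Cl p) {n' : ℕ} (hn' : n' ≤ n)
    (z : ℝ) :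
    (law μ).real {η | ∃ l ∈ Finset.range (n' + 1),
      Ht μ s r ((w : ℝ) - 2) (-th30 A E w) (th30 A E w) (9 * (A * E)) z n' l η} ≤ 1600 * C1 / A + 64 * p := by
  classical
  have hE := H.E1
  have hA := H.A1
  have hw3 : (3 : ℝ) ≤ w := by exact_mod_cast H.w3
  have hC1 := H.C11
  have hA48 : 48 ≤ A := by linarith
  have hAE : 48 ≤ A * E := by nlinarith
  obtain ⟨C, hC⟩ : ∃ C : ℝ, C = A * E / 3 := ⟨_, rfl⟩
  have hC16 : 16 ≤ C := by rw [hC]; linarith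
  obtain ⟨h, hh⟩ : ∃ h : ℝ, h = th30 A E w := ⟨_, rfl⟩
  have hhC : h = C / (8 * w) := by
    rw [hh, hC]
    unfold th30
    field_simp
    ring
  have hh0 : 0 ≤ h := by rw [hhC]; positivity
  have hh1 : h ≤ 1 := by
    rw [hh]
    unfold th30
    rw [div_le_one (by linarith)]
    exact H.hw
  have hhw : h * w = A * E / 24 := by
    rw [hh]
    unfold th30
    field_simp
  rw [← hh]
  obtain ⟨c, hc⟩ : ∃ c : ℤ, c = ⌊z⌋ := ⟨_, rfl⟩
  obtain ⟨g, hg⟩ : ∃ g : ℤ → ℤ, g = gr30 r := ⟨_, rfl⟩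
  have hstp : Stp g := by rw [hg]; exact stp_gr30 H.r0 H.r1
  have hr0 := H.r0
  have hr1 := H.r1
  -- the good events imply that there is no hit
  have key : ∀ η : Env, Gd μ s g 1 w n C c η → Gd μ s g (-1) w n C c η → Gd μ s g 1 w n C (c + w) η →
      Gd μ s g (-1) w n C (c + w) η →
      (¬ ∃ q ∈ Bx r ((w : ℝ) - 2) z n, 7 * (A * E) ≤ V μ s η ((q.1.1 : ℤ), q.1.2) q.2) →
      ¬ ∃ l ∈ Finset.range (n' + 1), Ht μ s r ((w : ℝ) - 2) (-h) h (9 * (A * E)) z n' l η := by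
    intro η G1 G2 G3 G4 G5
    rintro ⟨l, -, q, hq, -, hq2⟩
    obtain ⟨⟨t, x⟩, m⟩ := q
    have hqp := bx_pos30 hq
    have hq' := (mem_Bx hr0 hr1).1 hq
    simp only at hq' hq2
    obtain ⟨htm, hz1, hz2⟩ := hq'
    simp only at hqp
    rw [← hc, ← hg] at hqp
    have hx1 : g (t : ℤ) + c ≤ x := by
      have := hqp.2.1
      omega
    have hx2 : x ≤ g (t : ℤ) + c + w := by
      have := hqp.2.2
      omega
    have hV : ∀ k ≤ m, V μ s η ((t : ℤ), x) k ≤ 7 * (A * E) := by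
      intro k hk
      by_contra hcon
      rw [not_le] at hcon
      refine G5 ⟨((t, x), k), (mem_Bx hr0 hr1).2 ⟨?_, hz1, hz2⟩, hcon.le⟩
      show t + k ≤ n
      omega
    have hline : ∀ (σ : ℝ) (d : ℤ), (σ = h ∨ σ = -h) → (d = c ∨ d = c + w) → ∀ k ≤ m,
        T μ s r σ η ((t : ℤ) + k, g ((t : ℤ) + k) + d) (m - k) ≤ C / 2 + h := by
      intro σ d hσ hd k hk
      have hle : (t + k) + (m - k) ≤ n := by omega
      have ec : (((t + k : ℕ)) : ℤ) = (t : ℤ) + k := by push_cast; ring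
      have hG : ∀ ε : ℤ, (ε = 1 ∨ ε = -1) → Gd μ s g ε w n C d η := by
        intro ε hε
        rcases hε with rfl | rfl <;> rcases hd with rfl | rfl <;> assumption
      have hWh : ∀ ε : ℤ, (ε = 1 ∨ ε = -1) →
          Wh μ s g ε h η ((t : ℤ) + k) (g ((t : ℤ) + k) + d) (m - k) ≤ Real.exp (C / 2) := by
        intro ε hε
        have h1 := Wh_of_Gd hstp hε (by have := H.w3; omega) hC16 hhC (hG ε hε) (t + k) (m - k) hle
        rw [ec] at h1
        exact h1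
      have hT := T_le_Wh30 (μ := μ) (s := s) r h hh0 η ((t : ℤ) + k) (g ((t : ℤ) + k) + d) (m - k)
      rw [← hg] at hT
      have hfin : ∀ r : ℝ, Real.exp r ≤ Real.exp h * Real.exp (C / 2) → r ≤ C / 2 + h := by
        intro r hr
        rw [← Real.exp_add, Real.exp_le_exp] at hr
        linarith
      rcases hσ with rfl | rfl
      · exact hfin _ (hT.1.trans (mul_le_mul_of_nonneg_left (hWh 1 (Or.inl rfl)) (Real.exp_pos _).le))
      · exact hfin _ (hT.2.trans (mul_le_mul_of_nonneg_left (hWh (-1) (Or.inr rfl)) (Real.exp_pos _).le))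
    have hbig : ∀ σ : ℝ, (σ = h ∨ σ = -h) → T μ s r σ η ((t : ℤ), x) m < 9 * (A * E) := by
      intro σ hσ
      have h1 := T_cell30 (μ := μ) (s := s) hr0 hr1 (c := c) (w := (w : ℤ)) (Nat.cast_nonneg w) (h := σ) (M₀ := 7 * (A * E))
        (B := C / 2 + h) η ((t : ℤ), x) m (by rw [← hg]; exact hx1) (by rw [← hg]; exact hx2) hV (by linarith)
        (fun k hk => by rw [← hg]; exact hline σ c hσ (Or.inl rfl) k hk)
        (fun k hk => by
          have h2 := hline σ (c + w) hσ (Or.inr rfl) k hk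
          rw [← add_assoc] at h2
          rw [← hg]
          exact h2)
      have h2 : |σ| = h := by
        rcases hσ with rfl | rfl
        · exact abs_of_nonneg hh0
        · rw [abs_neg, abs_of_nonneg hh0]
      rw [h2] at h1
      have h3 : h * (((w : ℤ) : ℝ) + 1) ≤ A * E / 24 + 1 := by
        have e1 : (((w : ℤ)) : ℝ) = w := by norm_num
        rw [e1, mul_add, hhw, mul_one]
        linarith
      have h4 : Real.log (1 + 2 * (m : ℝ)) ≤ A * E / 12 := by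
        have h5 : Real.log (1 + 2 * (m : ℝ)) ≤ Real.log (1 + 2 * (n : ℝ)) := by
          refine Real.log_le_log (by positivity) ?_
          have : (m : ℝ) ≤ n := by
            have : m ≤ n := by omega
            exact_mod_cast this
          linarith
        have h6 : Cl * E ≤ A / 12 * E := mul_le_mul_of_nonneg_right (by linarith [H.A2]) (by linarith)
        have h7 := H.lg
        linarith
      rw [hC] at h1
      linarith
    rcases hq2 with h1 | h1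
    · exact absurd h1 (not_le.2 (hbig (-h) (Or.inr rfl)))
    · exact absurd h1 (not_le.2 (hbig h (Or.inl rfl)))
  -- the probabilities
  have hE0 : 0 < E := by linarith
  have hCE : E ≤ C1 * E := by nlinarith
  have htr : TrvH μ s g n T0 ys (C1 * E) := by rw [hg]; exact H.tr
  have hL : ∀ c : ℤ, ∫ η, Lk μ s g n c η ∂(law μ) ≤ 8 * (C1 * E) := by
    intro c
    have h1 := line_mean30 hEM hE0 (fun m hm => H.rf m (by omega)) htr c
    linarith
  have hp0 : 0 ≤ p := measureReal_nonneg.trans (H.hard 1 (Or.inl rfl))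
  have hUs : ∀ ε : ℤ, (ε = 1 ∨ ε = -1) → ∀ c : ℤ,
      (law μ).real {η | Real.exp (-C) ≤ Us μ s g ε w n c η} ≤ 2 * p := by
    intro ε hε c
    refine (Us_prob30 hEM H.n1 htr C).trans ?_
    have h1 := H.hard ε hε
    rw [hC, hg]
    linarith
  have hGd : ∀ ε : ℤ, (ε = 1 ∨ ε = -1) → ∀ c : ℤ,
      (law μ).real {η | ¬ Gd μ s g ε w n C c η} ≤ 384 * C1 / A + 16 * p := by
    intro ε hε c
    refine (Gd_prob hEM H.n1 (by linarith) hL (hUs ε hε) c).trans ?_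
    have hA0 : 0 < A := by linarith
    have hC0 : 0 < C := by linarith
    have e1 : 16 * (8 * (C1 * E)) / C = 384 * C1 / A := by
      rw [hC]
      field_simp
      ring
    have h1 : Real.log n ≤ C := by
      have h2 : Real.log n ≤ Real.log (1 + 2 * (n : ℝ)) := by
        have : (1 : ℝ) ≤ n := by exact_mod_cast H.n1
        exact Real.log_le_log (by linarith) (by linarith)
      have h6 : Cl * E ≤ A / 12 * E := mul_le_mul_of_nonneg_right (by linarith [H.A2]) (by linarith)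
      have h7 := H.lg
      rw [hC]
      linarith
    have h2 : 4 * (2 * p) * (C + Real.log n) / C ≤ 16 * p := by
      rw [div_le_iff₀ hC0]
      nlinarith
    rw [e1]
    linarith
  have hbx := box_bd30 hEM H z
  obtain ⟨B, hB⟩ : ∃ B : Set Env, B = {η | ∃ q ∈ Bx r ((w : ℝ) - 2) z n,
    7 * (A * E) ≤ V μ s η ((q.1.1 : ℤ), q.1.2) q.2} := ⟨_, rfl⟩
  rw [← hB] at hbx
  have hsub : {η | ∃ l ∈ Finset.range (n' + 1), Ht μ s r ((w : ℝ) - 2) (-h) h (9 * (A * E)) z n' l η} ⊆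
      (({η | ¬ Gd μ s g 1 w n C c η} ∪ {η | ¬ Gd μ s g (-1) w n C c η}) ∪
        ({η | ¬ Gd μ s g 1 w n C (c + w) η} ∪ {η | ¬ Gd μ s g (-1) w n C (c + w) η})) ∪ B := by
    intro η hη
    by_contra hcon
    simp only [hB, Set.mem_union, Set.mem_ofPred_eq, not_or, not_not] at hcon
    obtain ⟨⟨⟨h1, h2⟩, ⟨h3, h4⟩⟩, h5⟩ := hcon
    exact key η h1 h2 h3 h4 h5 hη
  have hA0 : 0 < A := by linarith
  have s1 := hGd 1 (Or.inl rfl) c
  have s2 := hGd (-1) (Or.inr rfl) c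
  have s3 := hGd 1 (Or.inl rfl) (c + w)
  have s4 := hGd (-1) (Or.inr rfl) (c + w)
  calc _ ≤ (law μ).real ((({η | ¬ Gd μ s g 1 w n C c η} ∪ {η | ¬ Gd μ s g (-1) w n C c η}) ∪
        ({η | ¬ Gd μ s g 1 w n C (c + w) η} ∪ {η | ¬ Gd μ s g (-1) w n C (c + w) η})) ∪ B) :=
        measureReal_mono hsub (measure_ne_top _ _)
    _ ≤ (((law μ).real {η | ¬ Gd μ s g 1 w n C c η} + (law μ).real {η | ¬ Gd μ s g (-1) w n C c η}) +
        ((law μ).real {η | ¬ Gd μ s g 1 w n C (c + w) η} +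
          (law μ).real {η | ¬ Gd μ s g (-1) w n C (c + w) η})) + (law μ).real B := by
        refine (measureReal_union_le _ _).trans (add_le_add ?_ le_rfl)
        refine (measureReal_union_le _ _).trans (add_le_add ?_ ?_)
        · exact measureReal_union_le _ _
        · exact measureReal_union_le _ _
    _ ≤ (((384 * C1 / A + 16 * p) + (384 * C1 / A + 16 * p)) + ((384 * C1 / A + 16 * p) + (384 * C1 / A + 16 * p))) + 1 / A := by
        linarith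
    _ = (1536 * C1 + 1) / A + 64 * p := by ring
    _ ≤ 1600 * C1 / A + 64 * p := by
        have : (1536 * C1 + 1) / A ≤ 1600 * C1 / A := div_le_div_of_nonneg_right (by linarith) hA0.le
        linarith

end

end Pool.Agent.W_7d29a1_H
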