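import Pool.Agent.W_7d29a1_H.FluctH68
import Pool.Agent.W_7d29a1_H.BDef48
import Pool.Agent.W_7d29a1_H.UnitH

/-!
MP_7d29a1_pr, TRACK H (all tilts), section CO: (hB0), from the confinement. (helper68)

If the octave `x` is not soft at the level `α = max (g - f / 2 + C₀) α₀` then the point to point cost of time `n = 2 ^ x` and
displacement `xs` is within `r = 2 ^ (- α) E` of its mean off an event of probability `1 / 8`; the one site inequality (`fluctH68`) and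
the confinement to the width `n v`, `v = 2 ^ (- f)`, give `c ≤ v (2 r² + K²)`, while `v r² ≤ 2 ^ (- 2 C₀)` and `v → 0`.
-/

set_option autoImplicit false

namespace Pool.Agent.W_7d29a1_H

open MeasureTheory ProbabilityTheory Filter Topology Pool.Agent.W_7d29a1_F Pool.Agent.W_7d29a1_h4g
open Pool.Agent.W_7d29a1_h47 (EM Nondeg)
open Pool.Agent.W_7d29a1_h48 (pin)

variable {μ : Measure ℝ} [IsProbabilityMeasure μ] {A : Set ℝ} {a : ℝ}

theorem Sf.mono68 {s : ℝ} {x : ℕ} {α β : ℝ} (h : Sf μ s x α) (hab : α ≤ β) : Sf μ s x β := by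
  obtain ⟨l, G, h1, h2, h3, h4, h5, h6⟩ := h
  have hE := one_le_EE (μ := μ) (s := s) (2 ^ x)
  have e1 : (2 : ℝ) ^ (-β) ≤ (2 : ℝ) ^ (-α) := Real.rpow_le_rpow_of_exponent_le one_le_two (by linarith)
  have e2 : (2 : ℝ) ^ α ≤ (2 : ℝ) ^ β := Real.rpow_le_rpow_of_exponent_le one_le_two hab
  refine ⟨l, G, h1.trans (Real.rpow_le_rpow_of_exponent_le one_le_two (by linarith)), h2, h3, h4, ?_, ?_⟩
  · refine le_trans (neg_le_neg ?_) h5
    exact mul_le_mul_of_nonneg_right e2 (by linarith)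
  · refine e1.trans (h6.trans (measureReal_mono (fun η hη => ?_) (measure_ne_top _ _)))
    refine le_trans ?_ (show (2 : ℝ) ^ (-α) * EE μ s (2 ^ x) ≤ _ from hη)
    exact mul_le_mul_of_nonneg_right e1 (by linarith)

theorem rpow_gg68 (s : ℝ) (x : ℕ) : (2 : ℝ) ^ (gg μ s x) = EE μ s (2 ^ x) := by
  unfold gg
  exact Real.rpow_logb two_pos (by norm_num) (EE_pos _)

theorem rpow_ff68 {s : ℝ} {x : ℕ} (hv : 0 < vA a μ s (2 ^ x)) : (2 : ℝ) ^ (-ff a μ s x) = vA a μ s (2 ^ x) := by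
  unfold ff
  rw [neg_neg]
  exact Real.rpow_logb two_pos (by norm_num) hv

/-- The point to point cost of `xs` at a scale which is not soft. -/
theorem not_soft68 (hμ : EM μ) {s : ℝ} {x : ℕ} {α : ℝ} (hα : 3 ≤ α) (hS : ¬ Sf μ s x α) :
    (law μ).real {η | (2 : ℝ) ^ (-α) * EE μ s (2 ^ x) ≤ |Real.log (W μ s η 0 (2 ^ x) (xs μ s (2 ^ x))) -
      ∫ ξ, Real.log (W μ s ξ 0 (2 ^ x) (xs μ s (2 ^ x))) ∂(law μ)|} ≤ 1 / 8 := by
  obtain ⟨n, hn⟩ : ∃ n : ℕ, n = 2 ^ x := ⟨_, rfl⟩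
  obtain ⟨y, hy⟩ : ∃ y : ℤ, y = xs μ s n := ⟨_, rfl⟩
  have hy0 : 0 ≤ y := by rw [hy]; exact (xs_mem n).1
  have hy1 : y ≤ n := by rw [hy]; exact (xs_mem n).2
  have hE := one_le_EE (μ := μ) (s := s) n
  rw [← hn, ← hy]
  by_contra hP
  rw [not_le] at hP
  refine hS ⟨n, fun η => W μ s η 0 n y, ?_, ?_, fun η => W_pos η 0 hy0 hy1, fun η => ?_, ?_, ?_⟩
  · rw [Real.rpow_add two_pos, Real.rpow_natCast, hn]
    push_cast
    have h1 : (1 : ℝ) ≤ (2 : ℝ) ^ α := Real.one_le_rpow one_le_two (by linarith)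
    have h2 : (0 : ℝ) < 2 ^ x := by positivity
    nlinarith
  · refine (poly_W 0 _ _).mono fun q hq => ?_
    exact ⟨hq.1, by simpa using hq.2.1⟩
  · have := neg_X_le_V (μ := μ) (s := s) η 0 hy0 hy1
    unfold X at this
    rwa [neg_neg] at this
  · have h4 : ∫ η, Real.log (W μ s η 0 n y) ∂(law μ) = -e μ s n y := by
      unfold e X
      rw [integral_neg, neg_neg]
    have h5 : (1 : ℝ) ≤ (2 : ℝ) ^ α := Real.one_le_rpow one_le_two (by linarith)
    have h6 : e μ s n y ≤ es μ s n := by rw [hy]; exact e_xs_le hμ s n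
    have h7 := le_EE (μ := μ) (s := s) (le_refl n)
    show -((2 : ℝ) ^ α * EE μ s (2 ^ x)) ≤ ∫ η, Real.log (W μ s η 0 n y) ∂(law μ)
    rw [h4, ← hn]
    have h8 : 1 * EE μ s n ≤ (2 : ℝ) ^ α * EE μ s n := mul_le_mul_of_nonneg_right h5 (by linarith)
    linarith
  · have h1 : (2 : ℝ) ^ (-α) ≤ 1 / 8 := by
      have h2 : (2 : ℝ) ^ (-α) ≤ (2 : ℝ) ^ (-3 : ℝ) :=
        Real.rpow_le_rpow_of_exponent_le one_le_two (by linarith)
      have h3 : (2 : ℝ) ^ (-3 : ℝ) = 1 / 8 := by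
        rw [Real.rpow_neg two_pos.le]
        norm_num
      rwa [h3] at h2
    refine h1.trans ?_
    rw [← hn]
    exact hP.le

/-- **(hB0) from the confinement**: `hcone`: the displacement `xs` is near the line; `hwide`, `hpos`, `hthin`: the width; `hsmall`: the
small octaves. -/
theorem hb0H_of68 (hμ : EM μ) (hnd : Nondeg μ) (hconf : ConfPH a μ A)
    (hcone : ∃ C : ℝ, ∀ s ∈ A, ∀ n : ℕ, |((xs μ s n : ℤ) : ℝ) - sl μ s * n| ≤ C * wH a μ s n)
    (hpos : ∀ s ∈ A, ∀ n : ℕ, 1 ≤ n → 0 < vA a μ s n)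
    (hwide : ∃ (C : ℝ) (n1 : ℕ), ∀ s ∈ A, ∀ n : ℕ, n1 ≤ n → 1 ≤ C * wH a μ s n)
    (hthin : ∀ ε : ℝ, 0 < ε → ∃ n1 : ℕ, ∀ s ∈ A, ∀ n : ℕ, n1 ≤ n → vA a μ s n ≤ ε)
    (hsmall : ∀ x : ℕ, ∃ α : ℝ, ∀ s ∈ A, Sf μ s x α) : HB0H a μ A := by
  obtain ⟨c, K, hc, hK, H⟩ := fluctH68 hμ hnd
  obtain ⟨Cc, hCc⟩ := hcone
  obtain ⟨C₁, nw, hCw⟩ := hwide
  obtain ⟨Cm, hCm⟩ : ∃ Cm : ℝ, Cm = max 1 Cc := ⟨_, rfl⟩
  obtain ⟨R, n₀, hR⟩ := hconf 1 Cm (1 / 8) (by norm_num)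
  obtain ⟨C₂, hC₂⟩ : ∃ C₂ : ℝ, C₂ = max 1 C₁ := ⟨_, rfl⟩
  have hC₂1 : 1 ≤ C₂ := by rw [hC₂]; exact le_max_left _ _
  obtain ⟨c₂, hc₂⟩ : ∃ c₂ : ℝ, c₂ = c / (2 * (2 * |R| + C₂)) := ⟨_, rfl⟩
  have hR0 := abs_nonneg R
  have hc₂0 : 0 < c₂ := by
    rw [hc₂]
    positivity
  obtain ⟨nt, hnt⟩ := hthin (c₂ / (4 * (K ^ 2 + 1))) (by positivity)
  obtain ⟨x₀, hx₀⟩ : ∃ x₀ : ℕ, x₀ = max (max nt nw) n₀ := ⟨_, rfl⟩
  choose α hα using hsmall
  obtain ⟨C', hC'⟩ := ((Finset.range x₀).image fun x => α x).exists_le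
  obtain ⟨Ca, hCa⟩ : ∃ Ca : ℝ, Ca = max 0 (Real.logb 2 (8 / c₂)) := ⟨_, rfl⟩
  have hCa1 : (2 : ℝ) ^ (-(2 * Ca)) ≤ c₂ / 8 := by
    have hCa0 : 0 ≤ Ca := by
      rw [hCa]
      exact le_max_left _ _
    have h1 : (2 : ℝ) ^ (-(2 * Ca)) ≤ (2 : ℝ) ^ (-Real.logb 2 (8 / c₂)) := by
      refine Real.rpow_le_rpow_of_exponent_le one_le_two ?_
      have : Real.logb 2 (8 / c₂) ≤ Ca := by
        rw [hCa]
        exact le_max_right _ _
      linarith
    have h2 : (2 : ℝ) ^ (-Real.logb 2 (8 / c₂)) = c₂ / 8 := by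
      rw [Real.rpow_neg two_pos.le, Real.rpow_logb two_pos (by norm_num) (by positivity), inv_div]
    rwa [h2] at h1
  refine ⟨Ca, max 3 C', fun s hs x => ?_⟩
  rcases lt_or_ge x x₀ with hx | hx
  · -- small octaves
    refine (hα x s hs).mono68 ?_
    have h1 := hC' _ (Finset.mem_image_of_mem _ (Finset.mem_range.2 hx))
    exact h1.trans ((le_max_right _ _).trans (le_max_right _ _))
  · by_contra hcon
    obtain ⟨b', hb'⟩ : ∃ b' : ℝ, b' = max (gg μ s x - ff a μ s x / 2 + Ca) (max 3 C') := ⟨_, rfl⟩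
    rw [← hb'] at hcon
    have ha3 : 3 ≤ b' := by
      rw [hb']
      exact (le_max_left _ _).trans (le_max_right _ _)
    have haC : gg μ s x - ff a μ s x / 2 + Ca ≤ b' := by
      rw [hb']
      exact le_max_left _ _
    obtain ⟨n, hn⟩ : ∃ n : ℕ, n = 2 ^ x := ⟨_, rfl⟩
    have hxn : x ≤ n := by rw [hn]; exact Nat.lt_two_pow_self.le
    have hx1 : nt ≤ n := ((le_max_left _ _).trans ((le_max_left _ _).trans (hx₀ ▸ hx))).trans hxn
    have hx3 : nw ≤ n := ((le_max_right _ _).trans ((le_max_left _ _).trans (hx₀ ▸ hx))).trans hxn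
    have hx2 : n₀ ≤ n := ((le_max_right _ _).trans (hx₀ ▸ hx)).trans hxn
    have hn1 : 1 ≤ n := by
      rw [hn]
      exact Nat.one_le_two_pow
    have hnr : (1 : ℝ) ≤ n := by exact_mod_cast hn1
    obtain ⟨v, hvd⟩ : ∃ v : ℝ, v = vA a μ s n := ⟨_, rfl⟩
    have hv0 : 0 < v := by
      rw [hvd]
      exact hpos s hs n hn1
    have hw : wH a μ s n = n * v := by rw [hvd]; rfl
    have hvn : 0 < n * v := by positivity
    have hE1 := one_le_EE (μ := μ) (s := s) n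
    obtain ⟨r, hr⟩ : ∃ r : ℝ, r = (2 : ℝ) ^ (-b') * EE μ s n := ⟨_, rfl⟩
    have hr0 : 0 ≤ r := by
      rw [hr]
      positivity
    obtain ⟨y, hy⟩ : ∃ y : ℤ, y = xs μ s n := ⟨_, rfl⟩
    have hy0 : 0 ≤ y := by rw [hy]; exact (xs_mem n).1
    have hy1 : y ≤ n := by rw [hy]; exact (xs_mem n).2
    have hP := not_soft68 hμ ha3 hcon
    rw [← hn, ← hy, ← hr] at hP
    -- the lower bound
    obtain ⟨b, hb⟩ : ∃ b : ℝ, b = R * wH a μ s n := ⟨_, rfl⟩
    have hcf : ∀ t : ℕ, 1 ≤ t → t ≤ n → 7 / 8 ≤ ∫ η, ∑ z ∈ cellv (sl μ s) b t,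
        pin μ s η t (n - t) y z ∂(law μ) := by
      intro t _ ht
      have h1 := hR s hs n n hx2 le_rfl (by rw [one_mul]) y hy0 hy1 (by
        have h1 : e μ s n y ≤ es μ s n := by rw [hy]; exact e_xs_le hμ s n
        have h2 := le_EE (μ := μ) (s := s) (le_refl n)
        have h3 : 1 * EE μ s n ≤ Cm * EE μ s n :=
          mul_le_mul_of_nonneg_right (by rw [hCm]; exact le_max_left _ _) (by linarith)
        linarith) (by
        rw [hy]
        refine (hCc s hs n).trans (mul_le_mul_of_nonneg_right (by rw [hCm]; exact le_max_right _ _) ?_)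
        rw [hw]
        exact hvn.le) t ht
      have e1 : cellv (sl μ s) b t =
          (Finset.Icc (0 : ℤ) t).filter (fun p : ℤ => |(p : ℝ) - sl μ s * t| ≤ R * wH a μ s n) := by
        ext z
        rw [mem_cellv, Finset.mem_filter, hb]
      rw [e1]
      linarith
    have h1 := H s (sl μ s) n y b hy0 hy1 hcf _ r hr0 hP
    have hb1 : 2 * |b| + 1 ≤ (2 * |R| + C₂) * (n * v) := by
      have h2 : 1 ≤ C₂ * (n * v) := by
        have h3 := hCw s hs n hx3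
        rw [hw] at h3
        exact h3.trans (mul_le_mul_of_nonneg_right (by rw [hC₂]; exact le_max_right _ _) hvn.le)
      rw [hb, hw, abs_mul, abs_of_pos hvn]
      linarith
    have hq : 0 ≤ r ^ 2 + (r + K) ^ 2 / 8 := by positivity
    have h2 : c * n ≤ (2 * |R| + C₂) * (n * v) * (r ^ 2 + (r + K) ^ 2 / 8) :=
      h1.trans (mul_le_mul_of_nonneg_right hb1 hq)
    have hn0 : (0 : ℝ) < n := by linarith
    have h3 : c ≤ 2 * (2 * |R| + C₂) * (v * (2 * r ^ 2 + K ^ 2)) := by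
      have h4 : r ^ 2 + (r + K) ^ 2 / 8 ≤ 2 * (2 * r ^ 2 + K ^ 2) := by nlinarith [sq_nonneg (r - K)]
      have h5 := mul_le_mul_of_nonneg_left h4 (show 0 ≤ (2 * |R| + C₂) * (n * v) by positivity)
      have h6 : n * c ≤ n * (2 * (2 * |R| + C₂) * (v * (2 * r ^ 2 + K ^ 2))) := by
        calc n * c = c * n := by ring
          _ ≤ _ := h2
          _ ≤ _ := h5
          _ = _ := by ring
      exact le_of_mul_le_mul_left h6 hn0
    have h4 : c₂ ≤ v * (2 * r ^ 2 + K ^ 2) := by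
      rw [hc₂, div_le_iff₀ (by positivity)]
      linarith
    -- `v r² ≤ 2 ^ (- 2 C₀)`
    have hvf : v = (2 : ℝ) ^ (-ff a μ s x) := by
      rw [rpow_ff68 (by rw [← hn]; exact hpos s hs n hn1), hvd, hn]
    have hEg : EE μ s n = (2 : ℝ) ^ (gg μ s x) := by
      rw [rpow_gg68, hn]
    have hr1 : r ≤ (2 : ℝ) ^ (ff a μ s x / 2 - Ca) := by
      rw [hr, hEg, ← Real.rpow_add two_pos]
      exact Real.rpow_le_rpow_of_exponent_le one_le_two (by linarith)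
    have hr2 : v * r ^ 2 ≤ (2 : ℝ) ^ (-(2 * Ca)) := by
      have h5 := pow_le_pow_left₀ hr0 hr1 2
      have h6 : ((2 : ℝ) ^ (ff a μ s x / 2 - Ca)) ^ 2 = (2 : ℝ) ^ (ff a μ s x - 2 * Ca) := by
        rw [← Real.rpow_natCast, ← Real.rpow_mul two_pos.le]
        congr 1
        push_cast
        ring
      rw [h6] at h5
      refine (mul_le_mul_of_nonneg_left h5 hv0.le).trans (le_of_eq ?_)
      rw [hvf, ← Real.rpow_add two_pos]
      congr 1
      ring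
    have h5 : v * K ^ 2 ≤ c₂ / 4 := by
      have h6 := hnt s hs n hx1
      rw [← hvd, le_div_iff₀ (by positivity)] at h6
      nlinarith [sq_nonneg K]
    have h6 : v * (2 * r ^ 2 + K ^ 2) = 2 * (v * r ^ 2) + v * K ^ 2 := by ring
    rw [h6] at h4
    linarith

end Pool.Agent.W_7d29a1_H
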