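import Pool.Agent.W_7d29a1_H.UnitH
import Pool.Agent.W_7d29a1_H.Soft4
import Pool.Agent.W_7d29a1_h68.Sites

/-!
MP_7d29a1_pr, TRACK H (all tilts), section B (hB0): every octave is soft at some level, uniformly in the tilt (one site). (helper93)
-/

set_option autoImplicit false

namespace Pool.Agent.W_7d29a1_H

open MeasureTheory ProbabilityTheory Filter Topology
open Pool.Agent.W_7d29a1_F Pool.Agent.W_7d29a1_h4g
open Pool.Agent.W_7d29a1_h47 (EM Nondeg)

noncomputable section

variable {μ : Measure ℝ} [IsProbabilityMeasure μ] {A : Set ℝ} {H δ : ℝ}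

private theorem logW93 (s : ℝ) (η : Env) : Real.log (W μ s η 0 1 0) = η ((1, 0) : Pt) - lam μ s := by
  unfold W WR
  simp only [Nat.cast_one, one_mul, Int.cast_zero, mul_zero]
  rw [show Zr Set.univ η 0 1 0 = Real.exp (η ((1, 0) : Pt)) by simp [Zr], ← Real.exp_add, Real.log_exp]
  ring

/-- **Every octave is soft at some level, uniformly in the tilt.** -/
theorem sf_small93 (hD : Dirs μ H δ A) (x : ℕ) : ∃ α : ℝ, ∀ s ∈ A, Sf μ s x α := by
  have hμ := hD.em
  have hnd := hD.nd
  obtain ⟨Ku, hKu1, hKu⟩ := EE_lin hμ hnd H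
  obtain ⟨p, q, hpq, hp, hq⟩ := Pool.Agent.W_7d29a1_h47.exists_gap hnd
  have hi0 : Integrable (fun η : Env => η ((1, 0) : Pt)) (law μ) := by
    have h := (Sub_X (μ := μ) (s := 0) (0 : Pt) (n := 1) (y := 0) le_rfl (by norm_num)).integrable hμ
    have h2 := (integrable_const (μ := law μ) (lam μ 0)).sub h
    refine h2.congr (Eventually.of_forall fun η => ?_)
    have h3 := logW93 (μ := μ) 0 η
    simp only [Pi.sub_apply]
    unfold X
    rw [h3]
    ring
  obtain ⟨c, hc⟩ : ∃ c, c = ∫ η : Env, η ((1, 0) : Pt) ∂(law μ) := ⟨_, rfl⟩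
  have hcs : ∀ s : ℝ, ∫ η, Real.log (W μ s η 0 1 0) ∂(law μ) = c - lam μ s := by
    intro s
    simp only [logW93]
    rw [integral_sub hi0 (integrable_const _), ← hc]
    simp
  have hlam : ∀ s : ℝ, |s| ≤ H → |lam μ s| ≤ |lam μ 0| + |H| := by
    intro s hs
    have h1 := lam_tangent hμ hnd 0 s
    have h2 := lam_tangent hμ hnd s 0
    have h3 := sl_mem hμ hnd 0
    have h4 := sl_mem hμ hnd s
    have h5 := abs_le.1 (hs.trans (le_abs_self H))
    have h6 := neg_abs_le (lam μ 0)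
    have h7 := le_abs_self (lam μ 0)
    have h8 := abs_nonneg H
    rw [abs_le]
    constructor
    · nlinarith
    · nlinarith
  -- the fluctuation of one site
  have hfl : min (μ.real (Set.Iic p)) (μ.real (Set.Ici q)) ≤
      (law μ).real {η : Env | (q - p) / 2 ≤ |η ((1, 0) : Pt) - c|} := by
    have hmp : MeasurePreserving (fun g : Env => g (1, 0)) (law μ) μ :=
      measurePreserving_eval_infinitePi (fun _ : Pt => μ) (1, 0)
    rcases le_total ((p + q) / 2) c with h | h
    · refine (min_le_left _ _).trans ?_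
      rw [← hmp.measureReal_preimage measurableSet_Iic.nullMeasurableSet]
      refine measureReal_mono (fun η hη => ?_) (measure_ne_top _ _)
      have h1 : η (1, 0) ≤ p := hη
      show (q - p) / 2 ≤ |η ((1, 0) : Pt) - c|
      refine le_trans ?_ (neg_le_abs _)
      linarith
    · refine (min_le_right _ _).trans ?_
      rw [← hmp.measureReal_preimage measurableSet_Ici.nullMeasurableSet]
      refine measureReal_mono (fun η hη => ?_) (measure_ne_top _ _)
      have h1 : q ≤ η (1, 0) := hη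
      show (q - p) / 2 ≤ |η ((1, 0) : Pt) - c|
      refine le_trans ?_ (le_abs_self _)
      linarith
  obtain ⟨e₀, he⟩ : ∃ e₀, e₀ = min (μ.real (Set.Iic p)) (μ.real (Set.Ici q)) := ⟨_, rfl⟩
  have he0 : 0 < e₀ := by
    rw [he]
    exact lt_min hp hq
  have hqp : 0 < q - p := by linarith
  have hKp : (0 : ℝ) < Ku * (2 : ℝ) ^ x := by positivity
  obtain ⟨B, hB⟩ : ∃ B, B = 1 + 2 * (Ku * (2 : ℝ) ^ x) / (q - p) + e₀⁻¹ + (|c| + (|lam μ 0| + |H|)) := ⟨_, rfl⟩
  have hB1 : 0 ≤ 2 * (Ku * (2 : ℝ) ^ x) / (q - p) := by positivity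
  have hB2 : 0 < e₀⁻¹ := inv_pos.2 he0
  have hB3 : 0 ≤ |c| + (|lam μ 0| + |H|) := by positivity
  have hB0 : 0 < B := by
    rw [hB]
    linarith
  have hα : (2 : ℝ) ^ (Real.logb 2 B) = B := Real.rpow_logb two_pos (by norm_num) hB0
  have hα0 : 0 ≤ Real.logb 2 B := Real.logb_nonneg one_lt_two (by rw [hB]; linarith)
  refine ⟨Real.logb 2 B, fun s hs => ?_⟩
  have hsH := hD.bd s hs
  have hE := one_le_EE (μ := μ) (s := s) (2 ^ x)
  have hEK : EE μ s (2 ^ x) ≤ Ku * (2 : ℝ) ^ x := by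
    have h1 := hKu s hsH (2 ^ x) Nat.one_le_two_pow
    push_cast at h1
    exact h1
  refine ⟨1, fun η => W μ s η 0 1 0, ?_, poly_W4 1 0, fun η => W_pos η 0 le_rfl (by norm_num),
    fun η => log_W_le_V4 le_rfl (by norm_num) η, ?_, ?_⟩
  · push_cast
    exact Real.one_le_rpow one_le_two (by positivity)
  · rw [hα, hcs]
    have h1 : |c - lam μ s| ≤ B := by
      have h2 := abs_sub c (lam μ s)
      have h3 := hlam s hsH
      rw [hB]
      linarith
    have h2 : -|c - lam μ s| ≤ c - lam μ s := neg_abs_le _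
    have h3 : B ≤ B * EE μ s (2 ^ x) := le_mul_of_one_le_right hB0.le hE
    linarith
  · rw [Real.rpow_neg two_pos.le, hα, hcs]
    have h1 : B⁻¹ ≤ e₀ := by
      rw [inv_le_comm₀ hB0 he0, hB]
      linarith
    refine h1.trans (le_trans (by rw [he]) (hfl.trans (measureReal_mono (fun η hη => ?_)
      (measure_ne_top _ _))))
    have h2 : (q - p) / 2 ≤ |η ((1, 0) : Pt) - c| := hη
    show B⁻¹ * EE μ s (2 ^ x) ≤ |Real.log (W μ s η 0 1 0) - (c - lam μ s)|
    rw [logW93, show η ((1, 0) : Pt) - lam μ s - (c - lam μ s) = η ((1, 0) : Pt) - c by ring]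
    refine le_trans ?_ h2
    rw [inv_mul_le_iff₀ hB0]
    have h3 : 2 * (Ku * (2 : ℝ) ^ x) / (q - p) ≤ B := by rw [hB]; linarith
    rw [div_le_iff₀ hqp] at h3
    linarith

end

end Pool.Agent.W_7d29a1_H
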