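import Pool.Agent.W_7d29a1_H.ConfH71
import Pool.Agent.W_7d29a1_H.HB0H68
import Pool.Agent.W_7d29a1_H.SmallH93
import Pool.Agent.W_7d29a1_H.RateH

/-!
MP_7d29a1_pr, TRACK H (all tilts): (hB0), assembled, without hypotheses. (helper71, with helper68 and helper93)
-/

set_option autoImplicit false

namespace Pool.Agent.W_7d29a1_H

open MeasureTheory ProbabilityTheory Filter Topology Set
open Pool.Agent.W_7d29a1_F Pool.Agent.W_7d29a1_h4g

noncomputable section

variable {μ : Measure ℝ} [IsProbabilityMeasure μ] {s H δ a : ℝ} {A : Set ℝ}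

/-- The displacement of the smallest mean cost is near the line. -/
theorem xs_near71 (hD : Dirs μ H δ A) (hs : s ∈ A) (ha : 0 < a) {T n K : ℕ} (hn : 1 ≤ n) (hT : T ≤ K * n) :
    |(xs μ s T : ℝ) - sl μ s * T| ≤ (K + (K + 1) / a) * wH a μ s n := by
  refine near_of_cost71 hD hs ha hn hT (xs_mem T).1 (xs_mem T).2 (Nat.cast_nonneg K) ?_
  rcases Nat.eq_zero_or_pos K with hK | hK
  · subst hK
    have : T = 0 := by omega
    subst this
    rw [e_zero_zero]
    simp
  · have h1 := e_xs_le hD.em s T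
    have h2 := le_EE (μ := μ) (s := s) (le_refl T)
    have h3 := EE_le_mul hD.em s hK hT
    linarith

/-- **(hB0)**, all families of tilts, all levels. -/
theorem hb0H_all (hD : Dirs μ H δ A) (ha : 0 < a) : HB0H a μ A := by
  refine hb0H_of68 hD.em hD.nd (confPH_all hD ha) ⟨1 + 2 / a, fun s hs n => ?_⟩ (fun s hs n hn => vA_pos71 hD hs ha hn)
    ⟨1 / a, 1, fun s hs n hn => ?_⟩ (fun ε hε => vA_thin71 hD hD.rate ha hε) (sf_small93 hD)
  · rcases Nat.eq_zero_or_pos n with hn | hn
    · subst hn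
      rw [xs_zero]
      simp [wH]
    · have h := xs_near71 hD hs ha (T := n) (n := n) (K := 1) hn (by omega)
      have h2 : ((1 : ℕ) : ℝ) + (((1 : ℕ) : ℝ) + 1) / a = 1 + 2 / a := by push_cast; ring
      rwa [h2] at h
  · have h1 := EE_le_wH71 hD hs ha hn
    have h2 := one_le_EE (μ := μ) (s := s) n
    rw [one_div_mul_eq_div, le_div_iff₀ ha]
    nlinarith

end

end Pool.Agent.W_7d29a1_H
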