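import Pool.Agent.W_7d29a1_h4g.Grow
import Pool.Agent.W_1b8d5d_p.LevJ
import Pool.Agent.W_1b8d5d_p.Wd99

/-!
MP_7d29a1_pr, TRACK H (all tilts). Definitions.

Coordinates, costs and the tilt `s` are those of `W_7d29a1_F` (`X μ s`, `V μ s`, `lam μ`): steps `(1, 0)`, `(1, 1)`, displacements
`(n, y)` with `0 ≤ y ≤ n`. The direction of the tilt `s` is the slope `sl μ s = lam' (s)`; `J μ s x` is the rate function of the tilt
`s` at the slope `sl μ s + x` (the supremum over the forces `|r| ≤ 1`: a convex Lipschitz function on the whole line which is the true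
rate function near `0`). The unit is `EE μ s n = 1 + max_{m ≤ n} min_y E X⁺(m, y)`; `xs μ s n` is the displacement with the smallest
mean cost; `[- vl, vr]` is the level set `{n J ≤ a EE n}`, `vA = vl + vr` its length. There is no symmetry `x ↦ - x`.
Everything is uniform for the tilts of a bounded set `A` (`Dirs μ H δ A`).
-/

set_option autoImplicit false

namespace Pool.Agent.W_7d29a1_H

open MeasureTheory ProbabilityTheory Filter Topology Set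
open Pool.Agent.W_7d29a1_F Pool.Agent.W_7d29a1_h4g
open Pool.Agent.W_1b8d5d_p (wR wL wd Rf)

noncomputable section

/-! ### Slope and rate function -/

/-- The slope of the tilt `s`. -/
def sl (μ : Measure ℝ) (s : ℝ) : ℝ := deriv (lam μ) s

/-- The excess of the free energy over its tangent at `s`, at the force `r`. -/
def ex (μ : Measure ℝ) (s r : ℝ) : ℝ := lam μ (s + r) - lam μ s - r * sl μ s

/-- The rate function of the tilt `s` at the slope `sl μ s + x` (forces `|r| ≤ 1`). -/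
def J (μ : Measure ℝ) (s x : ℝ) : ℝ := sSup {q | ∃ r : ℝ, |r| ≤ 1 ∧ q = r * x - ex μ s r}

/-! ### Means -/

/-- The mean of the positive part of the cost of the displacement `(n, y)`. -/
def ep (μ : Measure ℝ) (s : ℝ) (n : ℕ) (y : ℤ) : ℝ := ∫ η, max (X μ s η 0 n y) 0 ∂(law μ)

/-- The displacements of duration `n`. -/
def Dn (n : ℕ) : Finset ℤ := Finset.Icc (0 : ℤ) n

theorem Dn_ne (n : ℕ) : (Dn n).Nonempty := ⟨0, by simp [Dn]⟩

theorem mem_Dn {n : ℕ} {y : ℤ} : y ∈ Dn n ↔ 0 ≤ y ∧ y ≤ n := by simp [Dn]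

/-- The smallest mean of the positive part of the cost. -/
def es (μ : Measure ℝ) (s : ℝ) (n : ℕ) : ℝ := (Dn n).inf' (Dn_ne n) (ep μ s n)

/-- A displacement where `es` is attained. -/
def zs (μ : Measure ℝ) (s : ℝ) (n : ℕ) : ℤ := ((Dn n).exists_mem_eq_inf' (Dn_ne n) (ep μ s n)).choose

/-- A displacement with the smallest mean cost. -/
def xs (μ : Measure ℝ) (s : ℝ) (n : ℕ) : ℤ := ((Dn n).exists_mem_eq_inf' (Dn_ne n) (e μ s n)).choose

/-- **The unit** `EE μ s n = 1 + max_{m ≤ n} es μ s m` (the unit `EU` of `W_7d29a1_h4g` for the references `zs`). -/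
def EE (μ : Measure ℝ) (s : ℝ) (n : ℕ) : ℝ := EU μ s (zs μ s) n

/-- The bulk `Em μ s n = 1 + max_{m ≤ n} min_y e μ s m y`. -/
def Em (μ : Measure ℝ) (s : ℝ) (n : ℕ) : ℝ :=
  1 + (Finset.range (n + 1)).sup' ⟨0, by simp⟩ fun m => e μ s m (xs μ s m)

/-! ### Widths -/

/-- The right width of the level set `{n J ≤ a EE n}` (a slope). -/
def vr (a : ℝ) (μ : Measure ℝ) (s : ℝ) (n : ℕ) : ℝ := wR (J μ s) (a * EE μ s n / n)

/-- The left width. -/
def vl (a : ℝ) (μ : Measure ℝ) (s : ℝ) (n : ℕ) : ℝ := wL (J μ s) (a * EE μ s n / n)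

/-- **The width** (a slope): the length of the level set. -/
def vA (a : ℝ) (μ : Measure ℝ) (s : ℝ) (n : ℕ) : ℝ := vr a μ s n + vl a μ s n

/-- `gg x = log₂ EE (2 ^ x)`. -/
def gg (μ : Measure ℝ) (s : ℝ) (x : ℕ) : ℝ := Real.logb 2 (EE μ s (2 ^ x))

/-- `ff x = - log₂ vA (2 ^ x)`. -/
def ff (a : ℝ) (μ : Measure ℝ) (s : ℝ) (x : ℕ) : ℝ := -Real.logb 2 (vA a μ s (2 ^ x))

/-! ### Soft scales -/

/-- The octave `x` is soft at the level `α`: some functional of duration at most `2 ^ (x + α)` and mean at least `- 2 ^ α` units fluctuates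
by `2 ^ (- α)` units with probability at least `2 ^ (- α)`. -/
def Sf (μ : Measure ℝ) (s : ℝ) (x : ℕ) (α : ℝ) : Prop :=
  ∃ (l : ℕ) (G : Env → ℝ), (l : ℝ) ≤ (2 : ℝ) ^ ((x : ℝ) + α) ∧ Poly (rows 0 l) G ∧ (∀ η, 0 < G η) ∧
    (∀ η, Real.log (G η) ≤ V μ s η 0 l) ∧
    -((2 : ℝ) ^ α * EE μ s (2 ^ x)) ≤ ∫ η, Real.log (G η) ∂(law μ) ∧
    (2 : ℝ) ^ (-α) ≤ (law μ).real {η | (2 : ℝ) ^ (-α) * EE μ s (2 ^ x) ≤
      |Real.log (G η) - ∫ ξ, Real.log (G ξ) ∂(law μ)|}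

/-! ### Families of tilts -/

/-- A bounded set of tilts, with uniform constants: the slopes are in `[δ, 1 - δ]`, the rate functions are uniformly flat at `0`
(`nc`, no corner) and uniformly positive away from `0` (`strict`). Every bounded set of tilts has these properties (`dirs_Icc`). -/
structure Dirs (μ : Measure ℝ) (H δ : ℝ) (A : Set ℝ) : Prop where
  em : Pool.Agent.W_7d29a1_h47.EM μ
  nd : Pool.Agent.W_7d29a1_h47.Nondeg μ
  bd : ∀ s ∈ A, |s| ≤ H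
  δ0 : 0 < δ
  lo : ∀ s ∈ A, δ ≤ sl μ s
  hi : ∀ s ∈ A, sl μ s ≤ 1 - δ
  nc : ∀ ε : ℝ, 0 < ε → ∃ δ' : ℝ, 0 < δ' ∧ ∀ s ∈ A, ∀ x : ℝ, |x| ≤ δ' → J μ s x ≤ ε * |x|
  strict : ∀ r : ℝ, 0 < r → ∃ j : ℝ, 0 < j ∧ ∀ s ∈ A, ∀ x : ℝ, r ≤ |x| → j * |x| ≤ J μ s x

/-- The units tend to infinity, uniformly in the tilt. -/
def Grow (μ : Measure ℝ) (A : Set ℝ) : Prop := ∀ R : ℝ, ∃ n0 : ℕ, ∀ s ∈ A, ∀ n : ℕ, n0 ≤ n → R ≤ EE μ s n

/-- The units are `o(n)`, uniformly in the tilt. -/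
def Rate (μ : Measure ℝ) (A : Set ℝ) : Prop := ∀ ε : ℝ, 0 < ε → ∃ n0 : ℕ, ∀ s ∈ A, ∀ n : ℕ, n0 ≤ n → EE μ s n ≤ ε * n

/-- The units are larger than any multiple of the logarithm, uniformly in the tilt. -/
def LogG (μ : Measure ℝ) (A : Set ℝ) : Prop :=
  ∀ K : ℝ, ∃ n0 : ℕ, ∀ s ∈ A, ∀ n : ℕ, n0 ≤ n → K * Real.log n ≤ EE μ s n

/-! ### First facts -/

variable {μ : Measure ℝ} {s : ℝ}

theorem es_le {n : ℕ} {y : ℤ} (h0 : 0 ≤ y) (h1 : y ≤ n) : es μ s n ≤ ep μ s n y :=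
  Finset.inf'_le _ (mem_Dn.2 ⟨h0, h1⟩)

theorem zs_mem (n : ℕ) : 0 ≤ zs μ s n ∧ zs μ s n ≤ n :=
  mem_Dn.1 ((Dn n).exists_mem_eq_inf' (Dn_ne n) (ep μ s n)).choose_spec.1

theorem ep_zs (n : ℕ) : ep μ s n (zs μ s n) = es μ s n :=
  (((Dn n).exists_mem_eq_inf' (Dn_ne n) (ep μ s n)).choose_spec.2).symm

theorem xs_mem (n : ℕ) : 0 ≤ xs μ s n ∧ xs μ s n ≤ n :=
  mem_Dn.1 ((Dn n).exists_mem_eq_inf' (Dn_ne n) (e μ s n)).choose_spec.1

theorem xs_le {n : ℕ} {y : ℤ} (h0 : 0 ≤ y) (h1 : y ≤ n) : e μ s n (xs μ s n) ≤ e μ s n y := by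
  have h : e μ s n (xs μ s n) = (Dn n).inf' (Dn_ne n) (e μ s n) :=
    (((Dn n).exists_mem_eq_inf' (Dn_ne n) (e μ s n)).choose_spec.2).symm
  rw [h]
  exact Finset.inf'_le _ (mem_Dn.2 ⟨h0, h1⟩)

theorem ep_nonneg (n : ℕ) (y : ℤ) : 0 ≤ ep μ s n y := integral_nonneg fun _ => le_max_right _ _

theorem es_nonneg (n : ℕ) : 0 ≤ es μ s n := by
  rw [← ep_zs]
  exact ep_nonneg _ _

theorem le_EE {m n : ℕ} (h : m ≤ n) [IsProbabilityMeasure μ] : es μ s m + 1 ≤ EE μ s n := by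
  have h1 := ref_le_EU (μ := μ) (s := s) (z := zs μ s) h
  have h2 : ∫ η, max (X μ s η 0 m (zs μ s m)) 0 ∂(law μ) = es μ s m := ep_zs m
  unfold EE
  linarith

theorem one_le_EE (n : ℕ) [IsProbabilityMeasure μ] : 1 ≤ EE μ s n := one_le_EU n

theorem EE_pos (n : ℕ) [IsProbabilityMeasure μ] : 0 < EE μ s n := lt_of_lt_of_le one_pos (one_le_EE n)

theorem EE_mono [IsProbabilityMeasure μ] : Monotone (EE μ s) := EU_mono

theorem EE_le {n : ℕ} {R : ℝ} (h : ∀ m, m ≤ n → es μ s m + 1 ≤ R) : EE μ s n ≤ R := by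
  unfold EE EU
  have h1 : ((Finset.range (n + 1)).sup' ⟨0, by simp⟩ fun m => ∫ η, max (X μ s η 0 m (zs μ s m)) 0 ∂(law μ)) ≤ R - 1 := by
    refine Finset.sup'_le _ _ fun m hm => ?_
    have h2 : ∫ η, max (X μ s η 0 m (zs μ s m)) 0 ∂(law μ) = es μ s m := ep_zs m
    have h3 := h m (Nat.lt_succ_iff.1 (Finset.mem_range.1 hm))
    linarith
  linarith

end

end Pool.Agent.W_7d29a1_H
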