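import Pool.Agent.W_7d29a1_H.PredH
import Pool.Agent.W_7d29a1_g.CrossRec

/-!
MP_7d29a1_pr, TRACK H (all tilts), section (D4), one octave: definitions and the statements which pass between the files of the section.
Everything is stated for the RIGHT side only (`vr`, displacements to the right); the left side follows by the mirror (`MirH52.lean`:
the set of tilts `- A`). (helper52)
-/

set_option autoImplicit false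

namespace Pool.Agent.W_7d29a1_H

open MeasureTheory ProbabilityTheory Filter Topology Set
open Pool.Agent.W_7d29a1_F Pool.Agent.W_7d29a1_h4g
open Pool.Agent.W_1b8d5d_p (wR wL SlowU)
open Pool.Agent.W_7d29a1_g (HasPath eR Tube)

noncomputable section

/-! ### One-sided widths, the flat window -/

/-- The width on the side `sg` (`sg = 1`: right, `sg = -1`: left) at the level `a`. -/
def vs (a : ℝ) (μ : Measure ℝ) (s : ℝ) (sg : ℝ) (n : ℕ) : ℝ := wR (fun x => J μ s (sg * x)) (a * EE μ s n / n)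

theorem vs_one (a : ℝ) (μ : Measure ℝ) (s : ℝ) (n : ℕ) : vs a μ s 1 n = vr a μ s n := by
  unfold vs vr
  simp only [one_mul]

theorem vs_neg (a : ℝ) (μ : Measure ℝ) (s : ℝ) (n : ℕ) : vs a μ s (-1) n = vl a μ s n := by
  unfold vs vl wL
  simp only [neg_mul, one_mul]

/-- The loss of width over the window. -/
def dl (A0 : ℝ) (μ : Measure ℝ) (s : ℝ) (z0 z1 : ℕ) : ℝ := vA A0 μ s (2 ^ z0) - vA A0 μ s (2 ^ z1)

/-- The window of the octaves `[z₀, z₁]`: slow growth of the unit; the levels `A₀ < A₁` are separated by `k` octaves. -/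
structure FW (μ : Measure ℝ) (s : ℝ) (A0 A1 : ℝ) (k z0 z1 : ℕ) : Prop where
  slow : ∀ z z' : ℕ, z0 ≤ z → z ≤ z' → z' ≤ z1 → EE μ s (2 ^ z') ≤ 3 * (5 / 4 : ℝ) ^ (z' - z) * EE μ s (2 ^ z)
  lev : 15 / 4 * A1 * (5 / 8 : ℝ) ^ k ≤ A0
  len : z0 + k + 3 ≤ z1
  len4 : z0 + 4 ≤ z1

/-! ### (IN) -/

/-- (IN), one scale: the displacements inside both inner edges, in cells of width `w`, connections of duration `S`. -/
def InWH (μ : Measure ℝ) (A : Set ℝ) (a A0 A1 c0 : ℝ) : Prop :=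
  ∃ (Ci c1 : ℝ) (n0 : ℕ), 0 ≤ Ci ∧ 1 ≤ c1 ∧ ∀ s ∈ A, ∀ N : ℕ, n0 ≤ N → ∀ w S : ℕ, 1 ≤ w → 1 ≤ S → 2 * S + 1 ≤ N →
    (∀ sg : ℝ, sg = 1 ∨ sg = -1 → N * (vs A1 μ s sg N - vs A0 μ s sg N) ≤ w) →
    2 * ((w : ℝ) + 2) ≤ c0 * (S * vA a μ s N) → S * vA a μ s N ≤ (6 / c0 + 1) * w → vA a μ s S ≤ 8 * vA a μ s N →
    ∀ y : ℤ, -(N * vl A1 μ s N) + Ci * w ≤ y - sl μ s * N → y - sl μ s * N ≤ N * vr A1 μ s N - Ci * w →
      e μ s N y ≤ c1 * EE μ s N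

/-- (IN) in the flat window. -/
def InFH (μ : Measure ℝ) (A : Set ℝ) (A0 A1 c0 : ℝ) : Prop :=
  ∃ (Ci c1 c' : ℝ) (n0 : ℕ), 0 ≤ Ci ∧ 1 ≤ c1 ∧ 0 < c' ∧ ∀ s ∈ A, ∀ k z0 z1 : ℕ, FW μ s A0 A1 k z0 z1 → c0 ≤ 2 ^ k →
    dl A0 μ s z0 z1 ≤ c' * vA A0 μ s (2 ^ z1) → ∀ N : ℕ, n0 ≤ N → 2 ^ (z0 + k) ≤ N → N ≤ 2 ^ (z1 - 3) → ∀ y : ℤ,
    -(vl A0 μ s (2 ^ z1) - Ci * dl A0 μ s z0 z1) * N ≤ y - sl μ s * N →
    y - sl μ s * N ≤ (vr A0 μ s (2 ^ z1) - Ci * dl A0 μ s z0 z1) * N → e μ s N y ≤ c1 * EE μ s N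

/-! ### The record trick -/

/-- The record trick at the record `m` (in the range `(ρ, 2 ρ]`), right side: windows of duration `t₀ = (m - 1) / 2` at the distance
`m - t₀`, a tube of half width `D` around the line of slope `r` which is right of the cheapest displacement `ξ`. -/
def RecH (μ : Measure ℝ) (s : ℝ) : Prop :=
  ∀ ρ m : ℕ, 2 ≤ ρ → ρ < m → m ≤ 2 * ρ → Em μ s (2 * ρ) ≤ 1 + e μ s m (xs μ s m) → ∀ ξ : ℤ, 0 ≤ ξ → ξ ≤ ((m - 1) / 2 : ℕ) →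
    (∀ y : ℤ, 0 ≤ y → y ≤ ((m - 1) / 2 : ℕ) → e μ s ((m - 1) / 2) ξ ≤ e μ s ((m - 1) / 2) y) → ∀ r D : ℝ, 1 ≤ D →
    2 * D + 1 ≤ r * ((m - 1) / 2 : ℕ) - ξ → ∀ (K : ℕ) (Z : ℤ), 1 ≤ K →
    HasPath (Tube 0 r D) 0 (K * (m - (m - 1) / 2) + (m - 1) / 2) Z →
    K * (Em μ s (2 * ρ) - Em μ s ρ) + Em μ s ρ ≤ eR μ s (Tube 0 r D) 0 (K * (m - (m - 1) / 2) + (m - 1) / 2) Z + 1

/-! ### The inner edge -/

/-- THE RIGHT INNER EDGE: on a stretch without soft scale some displacement right of the inner edge of the flat window has almost the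
cost of the cheapest displacement. -/
def InnerRH (μ : Measure ℝ) (A : Set ℝ) (A0 : ℝ) : Prop :=
  ∃ (Ce Km : ℝ) (k0 k1 : ℕ), 0 ≤ Ce ∧ ∀ (ε : ℝ) (m : ℕ), 0 < ε → ε ≤ 1 → Km ≤ ε * 2 ^ m →
    ∃ (α : ℝ) (x0 : ℕ), ∀ s ∈ A, ∀ a b : ℕ, x0 ≤ a → (∀ z, a ≤ z → z < b → ¬ Sf μ s z α) →
    SlowU (fun x => EE μ s (2 ^ x)) a b → ∀ y : ℕ, a + k0 + 2 ≤ y → y + m + k1 < b →
    2 * (Ce * dl A0 μ s (y - 2 - k0) (y + m + k1)) ≤ vA A0 μ s (2 ^ (y + m + k1)) →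
    ∀ L : ℕ, 2 ^ (y - 2) ≤ L → L ≤ 2 ^ y → ∃ i : ℤ, 0 ≤ i ∧ i ≤ L ∧
      (sl μ s + (vr A0 μ s (2 ^ (y + m + k1)) - Ce * dl A0 μ s (y - 2 - k0) (y + m + k1))) * L ≤ i ∧
      e μ s L i ≤ Em μ s L + ε * EE μ s (2 ^ (y + m))

/-- The numbers of the right inner edge, in the form of `W_7d29a1_g.Geo.inner4`: `M` windows of duration `n'` at the times `k (L - n')`,
cells `[lo k + j w, lo k + (j + 1) w]`, `j < J`, references `h`, `h - w`, end point `z` of the duration `N = (M + 1) (L - n') + n'`,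
mean displacement `(z + M (h - w)) / (M + 1)` of the pieces of duration `L`; `E` is the unit. -/
structure NumR (μ : Measure ℝ) (s A0 : ℝ) (z0 z1 : ℕ) (E : ℝ) (L n' N M J w : ℕ) (z h : ℤ) (lo : ℕ → ℤ)
    (Ce c1 Bw rm : ℝ) : Prop where
  n1 : 1 ≤ n'
  n2 : 2 * n' ≤ L
  nN : N = (M + 1) * (L - n') + n'
  w1 : 1 ≤ w
  J1 : 1 ≤ J
  hw : 0 ≤ h - w
  hn : h ≤ n'
  z0' : 0 ≤ z
  zN : z ≤ N
  path : e μ s N z ≤ c1 * E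
  refh : e μ s n' h ≤ Em μ s L + rm * E
  refh' : e μ s n' (h - w) ≤ Em μ s L + rm * E
  wallR : ∀ k, 1 ≤ k → k ≤ M → ∃ c : ℤ, 0 ≤ c ∧ c ≤ (k * (L - n') : ℕ) ∧ c ≤ lo k + J * w + 1 ∧
    Bw * E < e μ s (k * (L - n')) (lo k + J * w + 1) - e μ s (k * (L - n')) c
  wallL : ∀ k, 1 ≤ k → k ≤ M → ∃ c : ℤ, 0 ≤ c ∧ c ≤ (N - k * (L - n') : ℕ) ∧ lo k - 1 + c ≤ z ∧
    Bw * E < e μ s (N - k * (L - n')) (z - (lo k - 1)) - e μ s (N - k * (L - n')) c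
  loc : (sl μ s + (vr A0 μ s (2 ^ z1) - Ce * dl A0 μ s z0 z1)) * L ≤ (((z + M * (h - w)) / ((M : ℤ) + 1) : ℤ) : ℝ)
  mid0 : 0 ≤ (z + M * (h - w)) / ((M : ℤ) + 1)
  mid1 : (z + M * (h - w)) / ((M : ℤ) + 1) + 1 ≤ L
  midm : xs μ s L ≤ (z + M * (h - w)) / ((M : ℤ) + 1) →
    e μ s L ((z + M * (h - w)) / ((M : ℤ) + 1)) ≤ e μ s L ((z + M * (h - w)) / ((M : ℤ) + 1) + 1)

/-- The numbers: `c1` (cost of the path), then the gap `k` of the levels and `Ce`, then the number of windows `M + 1 = 2 ^ m` and the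
heights `Bw`, `rm`, then the number of cells `J`. -/
def NumRH (μ : Measure ℝ) (A : Set ℝ) (A0 A1 : ℝ) : Prop :=
  ∃ (c1 : ℝ) (kk : ℕ), 1 ≤ c1 ∧ ∀ k : ℕ, kk ≤ k → ∃ Ce : ℝ, 0 ≤ Ce ∧ ∀ m M : ℕ, 1 ≤ M → M + 1 = 2 ^ m → ∀ Bw rm : ℝ,
    0 < Bw → 0 < rm → ∃ J x0 : ℕ, ∀ s ∈ A, ∀ y : ℕ, x0 ≤ y → ∀ k1 : ℕ, 3 ≤ k1 →
    FW μ s A0 A1 k (y - 2 - k) (y + m + k1) → 2 * (Ce * dl A0 μ s (y - 2 - k) (y + m + k1)) ≤ vA A0 μ s (2 ^ (y + m + k1)) →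
    ∀ L : ℕ, 2 ^ (y - 2) ≤ L → L ≤ 2 ^ y → ∃ (n' N w : ℕ) (z h : ℤ) (lo : ℕ → ℤ),
      NumR μ s A0 (y - 2 - k) (y + m + k1) (EE μ s (2 ^ (y + m))) L n' N M J w z h lo Ce c1 Bw rm

end

end Pool.Agent.W_7d29a1_H
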