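import Pool.Agent.W_7d29a1_H.RtDefH99
import Pool.Agent.W_7d29a1_H.WidthH
import Pool.Agent.W_7d29a1_H.MeanA
import Pool.Agent.W_7d29a1_H.MeanB

/-!
MP_7d29a1_pr, TRACK H (all tilts), (hF2), part (i): the means. From two cheap tubes of different slopes and the record trick
(predicate `RTFsH`) to intervals of cheap displacements of width `c8 v q` for all durations `n ≤ q ≤ 2 ^ S n`.
Model: `W_1b8d5d_p.HfE99`. (helper65)
-/

set_option autoImplicit false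

namespace Pool.Agent.W_7d29a1_H

open MeasureTheory ProbabilityTheory Filter Topology Set
open Pool.Agent.W_7d29a1_F Pool.Agent.W_7d29a1_h4g
open Pool.Agent.W_7d29a1_h47 (EM Nondeg)
open Pool.Agent.W_1b8d5d_p (wd wd_nonneg wd_le)

noncomputable section

variable {μ : Measure ℝ} [IsProbabilityMeasure μ] {H δ a c7 C7 Cc θ Ku : ℝ} {A : Set ℝ} {s : ℝ} {n N : ℕ} {t0 sp sm : ℝ}

/-! ### One scale -/

omit [IsProbabilityMeasure μ] in
/-- One of the two sides is far. -/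
theorem TwoLH.side (h : TwoLH a c7 C7 Cc μ s n N t0 sp sm) (hv : 0 ≤ vA a μ s n) (hc : 0 ≤ c7) (t : ℕ) (x : ℝ) :
    ∃ r, (r = sp ∨ r = sm) ∧ c7 / 4 * (vA a μ s n * t) ≤ |r * t - x| := by
  have ht : (0 : ℝ) ≤ t := Nat.cast_nonneg t
  have h1 := mul_le_mul_of_nonneg_right h.gap ht
  have h2 : 0 ≤ c7 * vA a μ s n * t := by positivity
  rcases le_total (c7 / 4 * (vA a μ s n * t)) |sp * t - x| with h3 | h3
  · exact ⟨sp, Or.inl rfl, h3⟩
  · refine ⟨sm, Or.inr rfl, ?_⟩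
    have h4 := le_abs_self (sp * t - x)
    have h5 := neg_abs_le (sm * t - x)
    linarith

theorem e_xs_le_EE65 (hμ : EM μ) (s : ℝ) {m M : ℕ} (h : m ≤ M) : e μ s m (xs μ s m) ≤ EE μ s M := by
  have h1 := e_xs_le hμ s m
  have h2 := le_EE (μ := μ) (s := s) h
  linarith

/-- One block step more. -/
theorem e_xs_step65 (hμ : EM μ) (s : ℝ) (hK : EE μ s 1 ≤ Ku) {m : ℕ} {y : ℤ} (h0 : 0 ≤ y) (h1 : y ≤ m) :
    e μ s (m + 1) (y + xs μ s 1) ≤ e μ s m y + Ku := by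
  have h3 := xs_mem (μ := μ) (s := s) 1
  have h4 := e_sub hμ s h0 h1 h3.1 h3.2
  have h5 := e_xs_le_EE65 hμ s (le_refl 1)
  linarith

omit [IsProbabilityMeasure μ] in
/-- The record trick for the cheapest displacements. -/
theorem TwoLH.record (h : TwoLH a c7 C7 Cc μ s n N t0 sp sm) (hv : 0 ≤ vA a μ s n) (hc : 0 ≤ c7) {t : ℕ}
    (ht : t0 ≤ t) (htN : 8 * t ≤ N) :
    e μ s (2 * t + 1) (xs μ s (2 * t + 1)) ≤ e μ s t (xs μ s t) + C7 * (t / N) * EE μ s N + Cc := by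
  obtain ⟨r, hr, h1⟩ := h.side hv hc t (xs μ s t)
  obtain ⟨y, hy0, hy1, -, h2⟩ := h.rt t ht htN r hr h1
  exact (xs_le hy0 hy1).trans h2

/-- The chain of the record trick. -/
theorem TwoLH.chain (h : TwoLH a c7 C7 Cc μ s n N t0 sp sm) (hμ : EM μ) (hK : EE μ s 1 ≤ Ku) (hv : 0 ≤ vA a μ s n)
    (hc : 0 ≤ c7) (hC7 : 0 ≤ C7) (hCc : 0 ≤ Cc) {ρ : ℕ} (hρ : 2 ≤ ρ) (ht0 : 4 * t0 ≤ ρ) (k : ℕ) :
    ∀ m : ℕ, 1 ≤ m → m ≤ 2 ^ k * ρ → 4 * m ≤ N →
      e μ s m (xs μ s m) ≤ EE μ s ρ + C7 * (m / N) * EE μ s N + k * (Cc + Ku) := by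
  have hKu : 0 < Ku := (EE_pos (μ := μ) (s := s) 1).trans_le hK
  have hEN := EE_pos (μ := μ) (s := s) N
  induction k with
  | zero =>
    intro m hm hm2 hm3
    rw [pow_zero, one_mul] at hm2
    have h1 := e_xs_le_EE65 hμ s hm2
    have h2 : 0 ≤ C7 * (m / N : ℝ) * EE μ s N := by positivity
    push_cast
    linarith
  | succ k ih =>
    intro m hm hm2 hm3
    have hk : (0 : ℝ) ≤ (k : ℝ) * (Cc + Ku) := by positivity
    rcases le_total m ρ with h0 | h0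
    · have h1 := e_xs_le_EE65 hμ s h0
      have h2 : 0 ≤ C7 * (m / N : ℝ) * EE μ s N := by positivity
      push_cast
      linarith
    rcases Nat.eq_or_lt_of_le h0 with h0' | h0'
    · have h1 := e_xs_le_EE65 hμ s (le_of_eq h0'.symm)
      have h2 : 0 ≤ C7 * (m / N : ℝ) * EE μ s N := by positivity
      push_cast
      linarith
    obtain ⟨t, ht⟩ : ∃ t, t = (m - 1) / 2 := ⟨_, rfl⟩
    have ht1 : 1 ≤ t := by omega
    have ht2 : ρ ≤ 2 * t + 1 := by omega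
    have ht3 : t0 ≤ t := by
      have h1 : (ρ : ℝ) ≤ 2 * t + 1 := by exact_mod_cast ht2
      have h2 : (1 : ℝ) ≤ t := by exact_mod_cast ht1
      linarith
    have ht4 : t ≤ 2 ^ k * ρ := by
      have h1 : 2 ^ (k + 1) * ρ = 2 * (2 ^ k * ρ) := by ring
      omega
    have h5 := ih t ht1 ht4 (by omega)
    have h6 := h.record hv hc ht3 (by omega)
    have h7 : e μ s m (xs μ s m) ≤ e μ s (2 * t + 1) (xs μ s (2 * t + 1)) + Ku := by
      rcases Nat.even_or_odd m with hp | hp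
      · have e1 : m = 2 * t + 1 + 1 := by
          obtain ⟨r, hr⟩ := hp
          omega
        have hx := xs_mem (μ := μ) (s := s) (2 * t + 1)
        have hx1 := xs_mem (μ := μ) (s := s) 1
        rw [e1]
        refine (xs_le (y := xs μ s (2 * t + 1) + xs μ s 1) (by omega) (by push_cast at hx hx1 ⊢; omega)).trans
          (e_xs_step65 hμ s hK hx.1 hx.2)
      · have e1 : m = 2 * t + 1 := by
          obtain ⟨r, hr⟩ := hp
          omega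
        rw [e1]
        linarith
    have h8 : C7 * (t / N : ℝ) * EE μ s N + C7 * (t / N : ℝ) * EE μ s N ≤ C7 * (m / N : ℝ) * EE μ s N := by
      have h9 : (2 : ℝ) * t ≤ m := by exact_mod_cast (by omega : 2 * t ≤ m)
      have h10 : C7 * (t / N : ℝ) * EE μ s N + C7 * (t / N : ℝ) * EE μ s N = C7 * (2 * t / N : ℝ) * EE μ s N := by ring
      rw [h10]
      exact mul_le_mul_of_nonneg_right (mul_le_mul_of_nonneg_left (div_le_div_of_nonneg_right h9 (Nat.cast_nonneg _)) hC7) hEN.le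
    push_cast
    linarith

/-- Between two cheap displacements every displacement is cheap. -/
theorem e_between65 (hμ : EM μ) (s : ℝ) {m : ℕ} {y0 y1 y : ℤ} (h00 : 0 ≤ y0) (h0 : y0 ≤ y) (h1 : y ≤ y1) (h11 : y1 ≤ m)
    {B : ℝ} (hB0 : e μ s m y0 ≤ B) (hB1 : e μ s m y1 ≤ B) : e μ s m y ≤ B :=
  (e_max hμ s h00 h0 h1 h11).trans (max_le hB0 hB1)

/-- The widths of at most half the duration. -/
theorem Dirs.w_half65 (hD : Dirs μ H δ A) (hd : s ∈ A) (ha : 0 ≤ a) (hn : 1 ≤ n) {t q : ℕ} (ht : 1 ≤ t) (hq : n ≤ q)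
    (htq : 2 * t ≤ q) : t * vA a μ s t ≤ vA a μ s n * q := by
  have hv : 0 ≤ vA a μ s n := by
    rw [hD.vA_wd hd ha]
    exact wd_nonneg _
  have ht0 : (0 : ℝ) ≤ t := Nat.cast_nonneg t
  have hq' : (n : ℝ) ≤ q := by exact_mod_cast hq
  have hq2 : (2 : ℝ) * t ≤ q := by exact_mod_cast htq
  rcases le_total t n with h | h
  · have h1 := Dirs.w_mono hD hd ha ht h
    have h2 := mul_le_mul_of_nonneg_right hq' hv
    linarith
  · have h1 := Dirs.vA_le_two hD hd ha hn h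
    have h2 := mul_le_mul_of_nonneg_left h1 ht0
    have h3 := mul_le_mul_of_nonneg_right hq2 hv
    linarith

omit [IsProbabilityMeasure μ] in
theorem Dirs.sl_abs65 (hD : Dirs μ H δ A) (hd : s ∈ A) : |sl μ s| ≤ 1 := by
  have h1 := hD.lo s hd
  have h2 := hD.hi s hd
  have h3 := hD.δ0
  rw [abs_le]
  constructor <;> linarith

/-- The interval of an odd duration. -/
theorem TwoLH.odd (h : TwoLH a c7 C7 Cc μ s n N t0 sp sm) (hD : Dirs μ H δ A) (hd : s ∈ A) (ha : 1 ≤ a)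
    (hK : EE μ s 1 ≤ Ku) (hc : 0 ≤ c7) (hC7 : 0 ≤ C7) {W1 : ℝ} (hW1 : vA a μ s 1 ≤ W1) {t : ℕ} {Q : ℝ}
    (hwt : t * vA a μ s t ≤ Q) (hQ : vA a μ s n * t ≤ Q) (ht : t0 ≤ t) (htN : 8 * t ≤ N) :
    ∃ lo hi : ℤ, 0 ≤ lo ∧ hi ≤ (2 * t + 1 : ℕ) ∧ c7 / 4 * (vA a μ s n * t) - (Cc + W1 + 1) ≤ (hi : ℝ) - lo ∧
      ∀ y : ℤ, lo ≤ y → y ≤ hi →
      e μ s (2 * t + 1) y ≤ max (2 * e μ s t (xs μ s t) + Ku) (e μ s t (xs μ s t) + C7 * (t / N) * EE μ s N + Cc) ∧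
      |(y : ℝ) - sl μ s * (2 * t + 1 : ℕ)| ≤ (2 + C7) * Q + (Cc + W1 + 1) := by
  have hμ : EM μ := hD.em
  have ha0 : 0 ≤ a := zero_le_one.trans ha
  have hv : 0 ≤ vA a μ s n := by
    rw [hD.vA_wd hd ha0]
    exact wd_nonneg _
  have ht0 : (0 : ℝ) ≤ t := Nat.cast_nonneg t
  obtain ⟨r, hr, h1⟩ := h.side hv hc t (xs μ s t)
  obtain ⟨z, hz00, hz01, hz1, hz2⟩ := h.rt t ht htN r hr h1
  have h2 := hD.xs_near hd ha t
  have h3 := hD.xs_near hd ha 1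
  have hK1 := hD.sl_abs65 hd
  have hsv : |r - sl μ s| ≤ C7 * vA a μ s n := by
    rcases hr with hr | hr
    · rw [hr]
      exact h.absp
    · rw [hr]
      exact h.absm
  have hQ0 : 0 ≤ Q := (mul_nonneg hv ht0).trans hQ
  have hCc0 : 0 ≤ Cc := (abs_nonneg _).trans hz1
  have hW0 : 0 ≤ W1 := by
    refine le_trans ?_ hW1
    rw [hD.vA_wd hd ha0]
    exact wd_nonneg _
  rw [Nat.cast_one, one_mul, mul_one] at h3
  have h3' := h3.trans hW1
  have hst : |r - sl μ s| * t ≤ C7 * Q := by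
    have k1 := mul_le_mul_of_nonneg_right hsv ht0
    have k2 := mul_le_mul_of_nonneg_left hQ hC7
    linarith
  have hC7Q : 0 ≤ C7 * Q := mul_nonneg hC7 hQ0
  have e2 : ((2 * t + 1 : ℕ) : ℝ) = 2 * t + 1 := by push_cast; ring
  have hxt := xs_mem (μ := μ) (s := s) t
  have hx1 := xs_mem (μ := μ) (s := s) 1
  -- the two ends
  obtain ⟨y0, hy0⟩ : ∃ y0, y0 = xs μ s t + xs μ s t + xs μ s 1 := ⟨_, rfl⟩
  have hy00 : 0 ≤ y0 := by omega
  have hy01 : y0 ≤ (2 * t + 1 : ℕ) := by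
    push_cast at hx1 ⊢
    omega
  have he0 : e μ s (2 * t + 1) y0 ≤ 2 * e μ s t (xs μ s t) + Ku := by
    have k1 := e_sub hμ s hxt.1 hxt.2 hxt.1 hxt.2
    have k2 := e_xs_step65 hμ s hK (m := t + t) (y := xs μ s t + xs μ s t) (by omega) (by push_cast; omega)
    rw [hy0, two_mul t]
    linarith
  have hb0 : |(y0 : ℝ) - sl μ s * (2 * t + 1 : ℕ)| ≤ (2 + C7) * Q + (Cc + W1 + 1) := by
    have e1 : (y0 : ℝ) - sl μ s * (2 * t + 1 : ℕ) =
        ((xs μ s t - sl μ s * t) + (xs μ s t - sl μ s * t)) + (xs μ s 1 - sl μ s) := by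
      rw [hy0, e2]
      push_cast
      ring
    have k1 := abs_add_le (((xs μ s t : ℝ) - sl μ s * t) + (xs μ s t - sl μ s * t)) ((xs μ s 1 : ℝ) - sl μ s)
    have k2 := abs_add_le ((xs μ s t : ℝ) - sl μ s * t) (xs μ s t - sl μ s * t)
    rw [e1]
    linarith
  have hb1 : |(z : ℝ) - sl μ s * (2 * t + 1 : ℕ)| ≤ (2 + C7) * Q + (Cc + W1 + 1) := by
    have e1 : (z : ℝ) - sl μ s * (2 * t + 1 : ℕ) =
        (((z - (r * t + xs μ s t)) + (r - sl μ s) * t) + (xs μ s t - sl μ s * t)) + -sl μ s := by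
      rw [e2]
      ring
    have k1 := abs_add_le ((((z : ℝ) - (r * t + xs μ s t)) + (r - sl μ s) * t) + (xs μ s t - sl μ s * t)) (-sl μ s)
    have k2 := abs_add_le (((z : ℝ) - (r * t + xs μ s t)) + (r - sl μ s) * t) ((xs μ s t : ℝ) - sl μ s * t)
    have k3 := abs_add_le ((z : ℝ) - (r * t + xs μ s t)) ((r - sl μ s) * t)
    rw [abs_mul, Nat.abs_cast] at k3
    rw [abs_neg] at k1
    rw [e1]
    linarith
  have hdist : c7 / 4 * (vA a μ s n * t) - (Cc + W1 + 1) ≤ |(z : ℝ) - y0| := by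
    have e1 : r * t - xs μ s t = (z - y0) + (-(z - (r * t + xs μ s t)) + xs μ s 1) := by
      rw [hy0]
      push_cast
      ring
    have k1 := abs_add_le ((z : ℝ) - y0) (-(z - (r * t + xs μ s t)) + xs μ s 1)
    have k2 := abs_add_le (-((z : ℝ) - (r * t + xs μ s t))) (xs μ s 1 : ℝ)
    rw [abs_neg] at k2
    have k3 : |(xs μ s 1 : ℝ)| ≤ W1 + 1 := by
      have k4 := abs_add_le ((xs μ s 1 : ℝ) - sl μ s) (sl μ s)
      rw [sub_add_cancel] at k4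
      linarith
    rw [← e1] at k1
    linarith
  have hb := fun y : ℤ => fun (B : ℝ) (k1 : |(y0 : ℝ) - sl μ s * (2 * t + 1 : ℕ)| ≤ B)
    (k2 : |(z : ℝ) - sl μ s * (2 * t + 1 : ℕ)| ≤ B)
    (k3 : (min y0 z : ℤ) ≤ y) (k4 : y ≤ (max y0 z : ℤ)) => show |(y : ℝ) - sl μ s * (2 * t + 1 : ℕ)| ≤ B by
      rw [abs_le] at k1 k2 ⊢
      constructor
      · rcases min_le_iff.1 k3 with k | k
        · have : (y0 : ℝ) ≤ y := by exact_mod_cast k
          linarith [k1.1]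
        · have : (z : ℝ) ≤ y := by exact_mod_cast k
          linarith [k2.1]
      · rcases le_max_iff.1 k4 with k | k
        · have : (y : ℝ) ≤ y0 := by exact_mod_cast k
          linarith [k1.2]
        · have : (y : ℝ) ≤ z := by exact_mod_cast k
          linarith [k2.2]
  refine ⟨min y0 z, max y0 z, le_min hy00 hz00, max_le hy01 hz01, ?_, fun y k1 k2 => ⟨?_, hb y _ hb0 hb1 k1 k2⟩⟩
  · refine hdist.trans (le_of_eq ?_)
    push_cast
    rw [max_sub_min_eq_abs, abs_sub_comm]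
  · refine e_between65 hμ s (le_min hy00 hz00) k1 k2 (max_le hy01 hz01) ?_ ?_
    · rcases min_choice y0 z with k | k
      · rw [k]
        exact he0.trans (le_max_left _ _)
      · rw [k]
        exact hz2.trans (le_max_right _ _)
    · rcases max_choice y0 z with k | k
      · rw [k]
        exact he0.trans (le_max_left _ _)
      · rw [k]
        exact hz2.trans (le_max_right _ _)

/-- **The interval of cheap displacements**, all durations. -/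
theorem TwoLH.interval (h : TwoLH a c7 C7 Cc μ s n N t0 sp sm) (hD : Dirs μ H δ A) (hd : s ∈ A) (ha : 1 ≤ a)
    (hK : EE μ s 1 ≤ Ku) (hn : 8 ≤ n)
    (hc : 0 < c7) (hC7 : 0 ≤ C7) {W1 : ℝ} (hW1 : vA a μ s 1 ≤ W1)
    (hw : 32 * (Cc + W1 + 1) ≤ c7 * (n * vA a μ s n)) (hw1 : 1 ≤ n * vA a μ s n) (ht0 : 4 * t0 ≤ n) {q : ℕ} (hnq : n ≤ q)
    (hqN : 4 * q ≤ N) {R : ℝ} (hR : ∀ t : ℕ, 1 ≤ t → 2 * t ≤ q → e μ s t (xs μ s t) ≤ R)
    (hR' : C7 * (q / N) * EE μ s N ≤ R) :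
    ∃ lo hi : ℤ, 0 ≤ lo ∧ hi ≤ q ∧ c7 / 16 * (vA a μ s n * q) ≤ (hi : ℝ) - lo ∧ ∀ y : ℤ, lo ≤ y → y ≤ hi →
      e μ s q y ≤ 2 * R + Cc + 2 * Ku ∧ |(y : ℝ) - sl μ s * q| ≤ (2 + C7 + 2 * (Cc + W1 + 1)) * (vA a μ s n * q) := by
  have hμ : EM μ := hD.em
  have ha0 : 0 ≤ a := zero_le_one.trans ha
  have hv : 0 ≤ vA a μ s n := by
    rw [hD.vA_wd hd ha0]
    exact wd_nonneg _
  have hKu : 0 < Ku := (EE_pos (μ := μ) (s := s) 1).trans_le hK
  obtain ⟨t, ht⟩ : ∃ t, t = (q - 1) / 2 := ⟨_, rfl⟩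
  have ht1 : 1 ≤ t := by omega
  have hW0 : 0 ≤ W1 := by
    refine le_trans ?_ hW1
    rw [hD.vA_wd hd ha0]
    exact wd_nonneg _
  have htt : t0 ≤ t := by
    have h1 : (n : ℝ) ≤ 4 * t := by exact_mod_cast (by omega : n ≤ 4 * t)
    linarith
  have hRt := hR t ht1 (by omega)
  -- side constants
  have hCc : 0 ≤ Cc := by
    obtain ⟨r, hr, h1⟩ := h.side hv hc.le t (xs μ s t)
    obtain ⟨z, -, -, hz1, -⟩ := h.rt t htt (by omega) r hr h1
    exact (abs_nonneg _).trans hz1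
  have hn0 : (0 : ℝ) < n := by exact_mod_cast (by omega : 0 < n)
  have hqn : (n : ℝ) ≤ q := by exact_mod_cast hnq
  have hvq : 1 ≤ vA a μ s n * q := by
    have := mul_le_mul_of_nonneg_left hqn hv
    linarith
  have htq : (t : ℝ) ≤ q := by exact_mod_cast (by omega : t ≤ q)
  have herr : C7 * (t / N : ℝ) * EE μ s N ≤ R := by
    refine le_trans ?_ hR'
    exact mul_le_mul_of_nonneg_right (mul_le_mul_of_nonneg_left (div_le_div_of_nonneg_right htq (Nat.cast_nonneg _)) hC7)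
      (EE_pos (μ := μ) (s := s) N).le
  have hR0 : 0 ≤ R := (e_xs_nonneg hμ s t).trans hRt
  have hmax : max (2 * e μ s t (xs μ s t) + Ku) (e μ s t (xs μ s t) + C7 * (t / N) * EE μ s N + Cc) ≤ 2 * R + Cc + Ku :=
    max_le (by linarith) (by linarith)
  have hlen : c7 / 16 * (vA a μ s n * q) ≤ c7 / 4 * (vA a μ s n * t) - (Cc + W1 + 1) := by
    have h1 : (q : ℝ) ≤ 2 * t + 2 := by exact_mod_cast (by omega : q ≤ 2 * t + 2)
    have h2 : (8 : ℝ) ≤ n := by exact_mod_cast hn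
    have h3 : c7 * vA a μ s n * q ≤ c7 * vA a μ s n * (2 * t + 2) := mul_le_mul_of_nonneg_left h1 (by positivity)
    have h4 : c7 * vA a μ s n * 8 ≤ c7 * vA a μ s n * q := mul_le_mul_of_nonneg_left (h2.trans hqn) (by positivity)
    have h5 : c7 * vA a μ s n * n ≤ c7 * vA a μ s n * q := mul_le_mul_of_nonneg_left hqn (by positivity)
    linarith
  have hwt : t * vA a μ s t ≤ vA a μ s n * q := hD.w_half65 hd ha0 (by omega) ht1 hnq (by omega)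
  obtain ⟨lo, hi, k01, k02, k1, k2⟩ := h.odd hD hd ha hK hc.le hC7 hW1 hwt (mul_le_mul_of_nonneg_left htq hv) htt (by omega)
  have hkey : (2 + C7) * (vA a μ s n * q) + 2 * (Cc + W1 + 1) ≤ (2 + C7 + 2 * (Cc + W1 + 1)) * (vA a μ s n * q) := by
    have h2 : 2 * (Cc + W1 + 1) * 1 ≤ 2 * (Cc + W1 + 1) * (vA a μ s n * q) := mul_le_mul_of_nonneg_left hvq (by linarith)
    linarith
  rcases Nat.even_or_odd q with hp | hp
  · have e1 : q = 2 * t + 1 + 1 := by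
      obtain ⟨r, hr⟩ := hp
      omega
    have h3 := hD.xs_near hd ha 1
    have hx1 := xs_mem (μ := μ) (s := s) 1
    rw [Nat.cast_one, one_mul, mul_one] at h3
    refine ⟨lo + xs μ s 1, hi + xs μ s 1, by omega, ?_, ?_, fun y h1 h2 => ?_⟩
    · rw [e1]
      push_cast at k02 hx1 ⊢
      omega
    · push_cast
      linarith
    · obtain ⟨m1, m2⟩ := k2 (y - xs μ s 1) (by omega) (by omega)
      constructor
      · have m3 := e_xs_step65 hμ s hK (m := 2 * t + 1) (y := y - xs μ s 1) (by omega) (by omega)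
        rw [sub_add_cancel, ← e1] at m3
        linarith [m1.trans hmax]
      · have e3 : (y : ℝ) - sl μ s * q = (((y - xs μ s 1 : ℤ) : ℝ) - sl μ s * (2 * t + 1 : ℕ)) + (xs μ s 1 - sl μ s) := by
          have e4 : (q : ℝ) = (2 * t + 1 : ℕ) + 1 := by exact_mod_cast e1
          rw [e4]
          push_cast
          ring
        have m4 := abs_add_le (((y - xs μ s 1 : ℤ) : ℝ) - sl μ s * (2 * t + 1 : ℕ)) ((xs μ s 1 : ℝ) - sl μ s)
        rw [e3]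
        linarith
  · have e1 : q = 2 * t + 1 := by
      obtain ⟨r, hr⟩ := hp
      omega
    refine ⟨lo, hi, k01, by rw [e1]; exact k02, by linarith, fun y h1 h2 => ?_⟩
    obtain ⟨m1, m2⟩ := k2 y h1 h2
    rw [← e1] at m1 m2
    exact ⟨by linarith [m1.trans hmax], by linarith⟩

/-! ### Uniformly in the tilt -/

/-- A bound of the first width. -/
theorem Dirs.vA_one65 (hD : Dirs μ H δ A) (ha : 0 ≤ a) : ∃ W1 : ℝ, 0 ≤ W1 ∧ ∀ s ∈ A, vA a μ s 1 ≤ W1 := by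
  obtain ⟨Ku, hKu, hK⟩ := EE_one_Ku hD
  obtain ⟨j, hj, h⟩ := hD.strict 1 one_pos
  refine ⟨2 * max 1 (a * Ku / j), by positivity, fun s hd => ?_⟩
  rw [hD.vA_wd hd ha]
  refine (wd_le zero_le_one hj fun x hx => h s hd x hx).trans ?_
  have h1 := hK s hd 1 le_rfl
  rw [Nat.cast_one, mul_one] at h1
  have h4 : a * EE μ s 1 / (1 : ℕ) / j ≤ a * Ku / j := by
    rw [Nat.cast_one, div_one]
    exact div_le_div_of_nonneg_right (mul_le_mul_of_nonneg_left h1 ha) hj.le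
  have h5 := max_le_max (le_refl (1 : ℝ)) h4
  linarith

omit [IsProbabilityMeasure μ] in
/-- Doubling in the past. -/
theorem gg_past65 {T x2 : ℕ} (h : ∀ y : ℕ, x2 ≤ y → gg μ s y + 1 ≤ gg μ s (y + T)) (k : ℕ) :
    ∀ x : ℕ, x2 + k * T ≤ x → gg μ s (x - k * T) + k ≤ gg μ s x := by
  induction k with
  | zero =>
    intro x _
    simp
  | succ k ih =>
    intro x hx
    have e1 : (k + 1) * T = k * T + T := by ring
    rw [e1] at hx ⊢
    have h1 := ih x (by omega)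
    have h2 := h (x - (k * T + T)) (by omega)
    have e2 : x - (k * T + T) + T = x - k * T := by omega
    rw [e2] at h2
    push_cast
    linarith

theorem EE_past65 {T x2 : ℕ} (h : ∀ y : ℕ, x2 ≤ y → gg μ s y + 1 ≤ gg μ s (y + T)) (k x : ℕ) (hx : x2 + k * T ≤ x) :
    (2 : ℝ) ^ k * EE μ s (2 ^ (x - k * T)) ≤ EE μ s (2 ^ x) := by
  have h1 := gg_past65 h k x hx
  rw [← pow_gg, ← pow_gg, ← Real.rpow_natCast, ← Real.rpow_add two_pos]
  refine Real.rpow_le_rpow_of_exponent_le one_le_two ?_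
  linarith

/-- The growth in a slow window. -/
theorem EE_slow65 {x j : ℕ} (h : gg μ s (x + j) ≤ gg μ s x + θ * j) :
    EE μ s (2 ^ (x + j)) ≤ (2 : ℝ) ^ (θ * j) * EE μ s (2 ^ x) := by
  rw [← pow_gg, ← pow_gg, ← Real.rpow_add two_pos]
  refine Real.rpow_le_rpow_of_exponent_le one_le_two ?_
  linarith

/-- **(hF2), the means**: in a slow window with flat widths, for all durations `q` between `n = 2 ^ x` and `2 ^ S n` there is an
interval of displacements of length at least `c8 vA(n) q` with mean costs at most `ε EE(n)`, inside the cone of slope `C8 vA(n)`;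
`c8`, `C8` do not depend on `T`, `S`, `ε`. -/
theorem hfEsH {Js : Set ℕ} (hD : Dirs μ H δ A) (ha : 1 ≤ a) (hR : Rate μ A) (hG : Grow μ A) (hθ : θ < 1)
    (hT : RTFsH Js θ a μ A) :
    ∃ c8 C8 : ℝ, 0 < c8 ∧ 0 < C8 ∧ ∀ T x2 : ℕ, (∀ s ∈ A, ∀ y : ℕ, x2 ≤ y → gg μ s y + 1 ≤ gg μ s (y + T)) →
      ∀ (S : ℕ) (ε : ℝ), 0 < ε → ∃ j0 ∈ Js, ∃ (L x1 : ℕ) (δ' : ℝ), 0 < δ' ∧ ∀ s ∈ A, ∀ x : ℕ, x1 ≤ x → j0 ≤ x →
        (∀ j : ℕ, j ≤ L → gg μ s (x + j) ≤ gg μ s x + θ * j) → ff a μ s (x + L) < ff a μ s (x - j0) + δ' →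
        ∀ q : ℕ, 2 ^ x ≤ q → q ≤ 2 ^ (x + S) → ∃ lo hi : ℤ, 0 ≤ lo ∧ hi ≤ q ∧
          c8 * (vA a μ s (2 ^ x) * q) ≤ (hi : ℝ) - lo ∧
          ∀ y : ℤ, lo ≤ y → y ≤ hi → e μ s q y ≤ ε * EE μ s (2 ^ x) ∧
            |(y : ℝ) - sl μ s * q| ≤ C8 * (vA a μ s (2 ^ x) * q) := by
  have ha0 : 0 < a := one_pos.trans_le ha
  obtain ⟨c7, C7, Cc, h0, hc7, hC7, hCc, hT⟩ := hT
  obtain ⟨W1, hW1, hW⟩ := hD.vA_one65 ha0.le
  obtain ⟨Ku, hKu1, hKul⟩ := EE_one_Ku hD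
  have hKu : 0 < Ku := one_pos.trans_le hKu1
  have hKK : ∀ s ∈ A, EE μ s 1 ≤ Ku := fun s hs => by
    have h1 := hKul s hs 1 le_rfl
    rwa [Nat.cast_one, mul_one] at h1
  refine ⟨c7 / 16, 2 + C7 + 2 * (Cc + W1 + 1), by positivity, by positivity, fun T x2 hdbl S ε hε => ?_⟩
  obtain ⟨k0, hk0⟩ := pow_unbounded_of_one_lt (16 / ε) (one_lt_two (α := ℝ))
  obtain ⟨i, hi⟩ : ∃ i, i = k0 * T := ⟨_, rfl⟩
  obtain ⟨j0, hJs, hj0⟩ := hT (1 / 2 ^ (i + 2)) (by positivity)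
  -- the height
  have hr1 : (2 : ℝ) ^ (θ - 1) < 1 := Real.rpow_lt_one_of_one_lt_of_neg one_lt_two (by linarith)
  have hr0 : (0 : ℝ) < (2 : ℝ) ^ (θ - 1) := by positivity
  obtain ⟨h1, hh1⟩ := exists_pow_lt_of_lt_one (show 0 < ε / (16 * C7 * 2 ^ S) by positivity) hr1
  obtain ⟨h, hh⟩ : ∃ h, h = max h0 (max (S + 2) h1) := ⟨_, rfl⟩
  have hh0 : h0 ≤ h := by rw [hh]; exact le_max_left _ _
  have hhS : S + 2 ≤ h := by rw [hh]; exact (le_max_left _ _).trans (le_max_right _ _)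
  have hhh : h1 ≤ h := by rw [hh]; exact (le_max_right _ _).trans (le_max_right _ _)
  obtain ⟨L', x1, δ', hδ', hmain⟩ := hj0 h hh0
  -- large scales
  obtain ⟨n1, hn1⟩ := hG (16 * ((i + S : ℕ) * (Cc + Ku)) / ε + 2 * (Cc + 2 * Ku) / ε)
  obtain ⟨n2, -, hn2⟩ := hD.w_large hR ha0 (1 + 32 * (Cc + W1 + 1) / c7)
  refine ⟨j0, hJs, max L' h, max x1 (max (x2 + i + 3) (max n1 n2)), δ', hδ', fun s hd x hx hxj hslow hflat q hq1 hq2 => ?_⟩
  have hx1 : x1 ≤ x := (le_max_left _ _).trans hx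
  have hx2 : x2 + i + 3 ≤ x := (le_max_left _ _).trans ((le_max_right _ _).trans hx)
  have hxn1 : n1 ≤ 2 ^ x := ((le_max_left _ _).trans ((le_max_right _ _).trans ((le_max_right _ _).trans hx))).trans
    Nat.lt_two_pow_self.le
  have hxn2 : n2 ≤ 2 ^ x := ((le_max_right _ _).trans ((le_max_right _ _).trans ((le_max_right _ _).trans hx))).trans
    Nat.lt_two_pow_self.le
  obtain ⟨sp, sm, hTL⟩ := hmain s hd x hx1 hxj (fun j hj => hslow j (hj.trans (le_max_left _ _)))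
    (lt_of_le_of_lt (ff_mono hD ha0 hd (Nat.add_le_add_left (le_max_left _ _) x)) hflat)
  have hμ : EM μ := hD.em
  have hE := EE_pos (μ := μ) (s := s) (2 ^ x)
  have hEN := EE_pos (μ := μ) (s := s) (2 ^ (x + h))
  have hE1 := one_le_EE (μ := μ) (s := s) (2 ^ x)
  obtain ⟨E, hEd⟩ : ∃ E, E = EE μ s (2 ^ x) := ⟨_, rfl⟩
  rw [← hEd] at hE hE1 ⊢
  -- the past
  have hpast : EE μ s (2 ^ (x - i)) ≤ ε / 16 * E := by
    have h1 := EE_past65 (hdbl s hd) k0 x (by omega)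
    rw [← hi, ← hEd] at h1
    have h2 : 16 / ε * EE μ s (2 ^ (x - i)) ≤ E :=
      (mul_le_mul_of_nonneg_right hk0.le (EE_pos (μ := μ) (s := s) _).le).trans h1
    have h3 := mul_le_mul_of_nonneg_left h2 (show 0 ≤ ε / 16 by positivity)
    have e1 : ε / 16 * (16 / ε * EE μ s (2 ^ (x - i))) = EE μ s (2 ^ (x - i)) := by field_simp
    rwa [e1] at h3
  -- the share of the tube
  have hshare : ∀ m : ℕ, m ≤ 2 ^ (x + S) → C7 * ((m : ℝ) / (2 ^ (x + h) : ℕ)) * EE μ s (2 ^ (x + h)) ≤ ε / 16 * E := by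
    intro m hm
    have h2 := EE_slow65 (hslow h (le_max_right _ _))
    rw [← hEd] at h2
    have h3 : (m : ℝ) / (2 ^ (x + h) : ℕ) ≤ 2 ^ S / 2 ^ h := by
      have h4 : (m : ℝ) ≤ 2 ^ (x + S) := by exact_mod_cast hm
      push_cast
      rw [div_le_div_iff₀ (by positivity) (by positivity)]
      calc (m : ℝ) * 2 ^ h ≤ 2 ^ (x + S) * 2 ^ h := mul_le_mul_of_nonneg_right h4 (by positivity)
        _ = 2 ^ S * 2 ^ (x + h) := by ring
    have h4 : (2 : ℝ) ^ (θ * h) / 2 ^ h = ((2 : ℝ) ^ (θ - 1)) ^ h := by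
      rw [← Real.rpow_natCast ((2 : ℝ) ^ (θ - 1)) h, ← Real.rpow_mul two_pos.le, sub_mul, one_mul, Real.rpow_sub two_pos,
        Real.rpow_natCast]
    have h5 : ((2 : ℝ) ^ (θ - 1)) ^ h ≤ ε / (16 * C7 * 2 ^ S) :=
      (pow_le_pow_of_le_one hr0.le hr1.le hhh).trans hh1.le
    calc C7 * ((m : ℝ) / (2 ^ (x + h) : ℕ)) * EE μ s (2 ^ (x + h))
        ≤ C7 * (2 ^ S / 2 ^ h) * ((2 : ℝ) ^ (θ * h) * E) :=
          mul_le_mul (mul_le_mul_of_nonneg_left h3 hC7.le) h2 hEN.le (by positivity)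
      _ = C7 * 2 ^ S * ((2 : ℝ) ^ (θ * h) / 2 ^ h) * E := by ring
      _ ≤ C7 * 2 ^ S * (ε / (16 * C7 * 2 ^ S)) * E := by
          rw [h4]
          exact mul_le_mul_of_nonneg_right (mul_le_mul_of_nonneg_left h5 (by positivity)) hE.le
      _ = ε / 16 * E := by field_simp
  -- the constants
  have hEbig := hn1 s hd (2 ^ x) hxn1
  rw [← hEd] at hEbig
  have hc1 : ((i + S : ℕ) : ℝ) * (Cc + Ku) ≤ ε / 16 * E := by
    have h2 : 0 ≤ 2 * (Cc + 2 * Ku) / ε := by positivity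
    have h3 : 16 * ((i + S : ℕ) * (Cc + Ku)) / ε ≤ E := by linarith
    rw [div_le_iff₀ hε] at h3
    linarith
  have hc2 : Cc + 2 * Ku ≤ ε / 2 * E := by
    have h2 : 0 ≤ 16 * ((i + S : ℕ) * (Cc + Ku)) / ε := by positivity
    have h3 : 2 * (Cc + 2 * Ku) / ε ≤ E := by linarith
    rw [div_le_iff₀ hε] at h3
    linarith
  have hwbig : 1 + 32 * (Cc + W1 + 1) / c7 ≤ (2 ^ x : ℕ) * vA a μ s (2 ^ x) := by
    have h2 := hn2 s hd (2 ^ x) hxn2
    refine le_trans ?_ h2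
    rw [← hEd]
    exact le_mul_of_one_le_right (by positivity) hE1
  have hw : 32 * (Cc + W1 + 1) ≤ c7 * ((2 ^ x : ℕ) * vA a μ s (2 ^ x)) := by
    have h2 : 32 * (Cc + W1 + 1) / c7 ≤ (2 ^ x : ℕ) * vA a μ s (2 ^ x) := by linarith
    rw [div_le_iff₀ hc7] at h2
    linarith
  have hw1 : 1 ≤ ((2 ^ x : ℕ) : ℝ) * vA a μ s (2 ^ x) := by
    have h2 : 0 ≤ 32 * (Cc + W1 + 1) / c7 := by positivity
    linarith
  have hv : 0 ≤ vA a μ s (2 ^ x) := (Dirs.vA_pos hD hd ha0 Nat.one_le_two_pow).le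
  -- the thresholds of the record trick
  have ht0 : 4 * (1 / 2 ^ (i + 2) * 2 ^ x : ℝ) ≤ (2 ^ (x - i) : ℕ) := by
    have e1 : x = (x - i) + i := by omega
    have e2 : (2 : ℝ) ^ x = 2 ^ (x - i) * 2 ^ i := by rw [← pow_add, ← e1]
    push_cast
    rw [e2]
    refine le_of_eq ?_
    field_simp
    ring
  have hρ2 : 2 ≤ 2 ^ (x - i) := by
    calc 2 = 2 ^ 1 := by norm_num
      _ ≤ 2 ^ (x - i) := Nat.pow_le_pow_right (by norm_num) (by omega)
  have hρn : ((2 ^ (x - i) : ℕ) : ℝ) ≤ (2 ^ x : ℕ) := by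
    exact_mod_cast Nat.pow_le_pow_right (n := 2) (by norm_num) (by omega : x - i ≤ x)
  have hchain := hTL.chain hμ (hKK s hd) hv hc7.le hC7.le hCc.le hρ2 ht0 (i + S)
  have hN : ∀ m : ℕ, m ≤ 2 ^ (x + S) → 4 * m ≤ 2 ^ (x + h) := by
    intro m hm
    calc 4 * m ≤ 2 ^ 2 * 2 ^ (x + S) := by omega
      _ = 2 ^ (x + (S + 2)) := by ring
      _ ≤ 2 ^ (x + h) := Nat.pow_le_pow_right (by norm_num) (by omega)
  have hGt : ∀ t : ℕ, 1 ≤ t → 2 * t ≤ q → e μ s t (xs μ s t) ≤ ε / 4 * E := by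
    intro t ht1 ht2
    have ht3 : t ≤ 2 ^ (x + S) := by omega
    have e1 : 2 ^ (i + S) * 2 ^ (x - i) = 2 ^ (x + S) := by
      rw [← pow_add]
      congr 1
      omega
    have h2 := hchain t ht1 (by rw [e1]; exact ht3) (hN t ht3)
    have h3 := hshare t ht3
    have h4 : 0 ≤ ε / 16 * E := by positivity
    linarith
  have hn8 : 8 ≤ 2 ^ x := by
    calc 8 = 2 ^ 3 := by norm_num
      _ ≤ 2 ^ x := Nat.pow_le_pow_right (by norm_num) (by omega)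
  have hshq := hshare q hq2
  have h4 : 0 ≤ ε / 16 * E := by positivity
  obtain ⟨lo, hi', k01, k02, k1, k2⟩ := hTL.interval hD hd ha (hKK s hd) hn8 hc7 hC7.le (hW s hd) hw hw1 (ht0.trans hρn) hq1
    (hN q hq2) hGt (by linarith)
  refine ⟨lo, hi', k01, k02, k1, fun y m1 m2 => ⟨?_, (k2 y m1 m2).2⟩⟩
  have k3 := (k2 y m1 m2).1
  linarith

/-- **(hF2), the means**, without octaves before the window. -/
theorem hfEH (hD : Dirs μ H δ A) (ha : 1 ≤ a) (hR : Rate μ A) (hG : Grow μ A) (hθ : θ < 1) (hT : RTFH θ a μ A) :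
    ∃ c8 C8 : ℝ, 0 < c8 ∧ 0 < C8 ∧ ∀ T x2 : ℕ, (∀ s ∈ A, ∀ y : ℕ, x2 ≤ y → gg μ s y + 1 ≤ gg μ s (y + T)) →
      ∀ (S : ℕ) (ε : ℝ), 0 < ε → ∃ (L x1 : ℕ) (δ' : ℝ), 0 < δ' ∧ ∀ s ∈ A, ∀ x : ℕ, x1 ≤ x →
        (∀ j : ℕ, j ≤ L → gg μ s (x + j) ≤ gg μ s x + θ * j) → ff a μ s (x + L) < ff a μ s x + δ' →
        ∀ q : ℕ, 2 ^ x ≤ q → q ≤ 2 ^ (x + S) → ∃ lo hi : ℤ, 0 ≤ lo ∧ hi ≤ q ∧
          c8 * (vA a μ s (2 ^ x) * q) ≤ (hi : ℝ) - lo ∧
          ∀ y : ℤ, lo ≤ y → y ≤ hi → e μ s q y ≤ ε * EE μ s (2 ^ x) ∧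
            |(y : ℝ) - sl μ s * q| ≤ C8 * (vA a μ s (2 ^ x) * q) := by
  obtain ⟨c8, C8, h1, h2, h3⟩ := hfEsH hD ha hR hG hθ hT.to
  refine ⟨c8, C8, h1, h2, fun T x2 h4 S ε hε => ?_⟩
  obtain ⟨j0, hj0, L, x1, δ', hδ', h5⟩ := h3 T x2 h4 S ε hε
  obtain rfl : j0 = 0 := hj0
  exact ⟨L, x1, δ', hδ', fun s hd x hx => h5 s hd x hx (Nat.zero_le x)⟩

end

end Pool.Agent.W_7d29a1_H
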