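import Pool.Agent.W_7d29a1_H.Soft4
import Pool.Agent.W_7d29a1_H.LamH
import Pool.Agent.W_7d29a1_H.PredH
import Pool.Agent.W_7d29a1_G.Unit2b

/-!
MP_7d29a1_pr, TRACK H (all tilts), (H7): (I1) on the frame, `TiltH a μ A → I1H μ A`: at a scale which is not soft the unit is at most
twice the bulk. (helper4)
-/

set_option autoImplicit false

namespace Pool.Agent.W_7d29a1_H

open MeasureTheory ProbabilityTheory Filter Topology
open Pool.Agent.W_7d29a1_F Pool.Agent.W_7d29a1_h4g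
open Pool.Agent.W_7d29a1_G (int_X int_Xp)

noncomputable section

variable {μ : Measure ℝ} [IsProbabilityMeasure μ] {s : ℝ} {A : Set ℝ} {H δ : ℝ}

theorem e_le_ep4 (hμ : Pool.Agent.W_7d29a1_h47.EM μ) {n : ℕ} {y : ℤ} (h0 : 0 ≤ y) (h1 : y ≤ n) :
    e μ s n y ≤ ep μ s n y := by
  unfold e ep
  exact integral_mono (int_X hμ s h0 h1) (int_Xp hμ s h0 h1) fun η => le_max_left _ _

theorem e_xs_le_EE4 (hμ : Pool.Agent.W_7d29a1_h47.EM μ) {m n : ℕ} (h : m ≤ n) : e μ s m (xs μ s m) ≤ EE μ s n := by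
  have h1 := xs_le (μ := μ) (s := s) (zs_mem (μ := μ) (s := s) m).1 (zs_mem (μ := μ) (s := s) m).2
  have h2 := e_le_ep4 (μ := μ) (s := s) hμ (zs_mem (μ := μ) (s := s) m).1 (zs_mem (μ := μ) (s := s) m).2
  have h3 := le_EE (μ := μ) (s := s) h
  rw [ep_zs] at h2
  linarith

/-- At a scale which is not soft the negative part of the cost of a displacement of mean cost at most one unit is small. -/
theorem ep_le_of_not_Sf (hμ : Pool.Agent.W_7d29a1_h47.EM μ) {x : ℕ} {α c C K : ℝ} (hα : 0 ≤ α) (hc : 0 < c)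
    (hK : 0 ≤ K) (hS : ¬ Sf μ s x α) {m : ℕ} (hm : m ≤ 2 ^ x) {y : ℤ} (h0 : 0 ≤ y) (h1 : y ≤ m)
    (hee : e μ s m y ≤ EE μ s (2 ^ x)) (hV : ∫ η, Real.exp (c / EE μ s (2 ^ x) * V μ s η 0 m) ∂(law μ) ≤ C) :
    ep μ s m y ≤ e μ s m y + ((2 : ℝ) ^ (-α) * (1 + K / c) + Real.exp (-K) * C / c) * EE μ s (2 ^ x) := by
  have hE := one_le_EE (μ := μ) (s := s) (2 ^ x)
  obtain ⟨E, hEE⟩ : ∃ E, E = EE μ s (2 ^ x) := ⟨_, rfl⟩
  rw [← hEE] at hE hV hee ⊢
  have hE0 : 0 < E := by linarith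
  have iX : Integrable (fun η => X μ s η 0 m y) (law μ) := int_X hμ s h0 h1
  have hlog : ∫ η, Real.log (W μ s η 0 m y) ∂(law μ) = -e μ s m y := int_log_W4 m y
  have h2α : (1 : ℝ) ≤ 2 ^ α := Real.one_le_rpow (by norm_num) hα
  have hna : (0 : ℝ) < 2 ^ (-α) := by positivity
  have hconc := conc_of_not_Sf hS (l := m) (by
      have h2 : (m : ℝ) ≤ (2 : ℝ) ^ (x : ℝ) := by
        rw [Real.rpow_natCast]
        exact_mod_cast hm
      exact h2.trans (Real.rpow_le_rpow_of_exponent_le (by norm_num) (by linarith)))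
    (poly_W4 m y) (fun η => W_pos (μ := μ) (s := s) η 0 h0 h1) (log_W_le_V4 h0 h1) (by
      rw [hlog, ← hEE]
      nlinarith)
  rw [hlog, ← hEE] at hconc
  obtain ⟨S, hSd⟩ : ∃ S : Set Env, S = {η | (2 : ℝ) ^ (-α) * E ≤ |Real.log (W μ s η 0 m y) - -e μ s m y|} := ⟨_, rfl⟩
  rw [← hSd] at hconc
  have hSm : MeasurableSet S := by
    rw [hSd]
    exact measurableSet_le measurable_const
      (((Real.measurable_log.comp (measurable_W (μ := μ) (s := s) 0 m y)).sub_const _).abs)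
  have iV : Integrable (fun η => Real.exp (c / E * V μ s η 0 m)) (law μ) :=
    ((Sub_V (μ := μ) (s := s) 0 m).const_mul (c / E)).exp_int hμ
  have iS : Integrable (S.indicator fun _ => (1 : ℝ)) (law μ) :=
    (integrable_const (1 : ℝ)).indicator hSm
  have hpt : ∀ η, max (X μ s η 0 m y) 0 ≤ X μ s η 0 m y + (2 : ℝ) ^ (-α) * E +
      E / c * K * S.indicator (fun _ => (1 : ℝ)) η + E / c * Real.exp (-K) * Real.exp (c / E * V μ s η 0 m) := by
    intro η
    have hexp0 := Real.exp_pos (c / E * V μ s η 0 m)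
    have hEc : 0 < E / c := by positivity
    by_cases hη : η ∈ S
    · rw [Set.indicator_of_mem hη, mul_one]
      have h3 := neg_X_le_V (μ := μ) (s := s) η 0 h0 h1
      have h4 := Real.add_one_le_exp (c / E * V μ s η 0 m - K)
      have h5 : Real.exp (-K) * Real.exp (c / E * V μ s η 0 m) = Real.exp (c / E * V μ s η 0 m - K) := by
        rw [← Real.exp_add]
        congr 1
        ring
      have h6 : V μ s η 0 m ≤ E / c * (K + Real.exp (c / E * V μ s η 0 m - K)) := by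
        have h7 : V μ s η 0 m = E / c * (c / E * V μ s η 0 m) := by
          field_simp
        calc V μ s η 0 m = E / c * (c / E * V μ s η 0 m) := h7
          _ ≤ _ := mul_le_mul_of_nonneg_left (by linarith) hEc.le
      have h8 : 0 ≤ E / c * (K + Real.exp (c / E * V μ s η 0 m - K)) :=
        mul_nonneg hEc.le (by positivity)
      have h9 : E / c * (K + Real.exp (c / E * V μ s η 0 m - K)) =
          E / c * K + E / c * Real.exp (-K) * Real.exp (c / E * V μ s η 0 m) := by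
        rw [mul_assoc (E / c) (Real.exp (-K)), h5]
        ring
      have h10 : 0 ≤ (2 : ℝ) ^ (-α) * E := by positivity
      refine max_le ?_ ?_ <;> linarith
    · rw [Set.indicator_of_notMem hη, mul_zero]
      have h3 : |Real.log (W μ s η 0 m y) - -e μ s m y| < (2 : ℝ) ^ (-α) * E := by
        rw [hSd] at hη
        exact not_le.1 hη
      have h4 := (abs_lt.1 h3).2
      have h5 : -X μ s η 0 m y ≤ (2 : ℝ) ^ (-α) * E - e μ s m y := by
        unfold X
        rw [neg_neg]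
        linarith
      have h11 := e_nonneg hμ (μ := μ) s h0 h1
      have h6 : 0 ≤ E / c * Real.exp (-K) * Real.exp (c / E * V μ s η 0 m) := by positivity
      have h10 : 0 ≤ (2 : ℝ) ^ (-α) * E := by positivity
      refine max_le ?_ ?_ <;> linarith
  have hint : ep μ s m y ≤ e μ s m y + (2 : ℝ) ^ (-α) * E + E / c * K * (law μ).real S +
      E / c * Real.exp (-K) * ∫ η, Real.exp (c / E * V μ s η 0 m) ∂(law μ) := by
    unfold ep
    refine (integral_mono (int_Xp hμ s h0 h1) (((iX.add (integrable_const _)).add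
      (iS.const_mul (E / c * K))).add (iV.const_mul (E / c * Real.exp (-K)))) hpt).trans (le_of_eq ?_)
    have e1 := integral_add ((iX.add (integrable_const ((2 : ℝ) ^ (-α) * E))).add (iS.const_mul (E / c * K)))
      (iV.const_mul (E / c * Real.exp (-K)))
    have e2 := integral_add (iX.add (integrable_const ((2 : ℝ) ^ (-α) * E))) (iS.const_mul (E / c * K))
    have e3 := integral_add iX (integrable_const (μ := law μ) ((2 : ℝ) ^ (-α) * E))
    have e4 : ∫ η, S.indicator (fun _ => (1 : ℝ)) η ∂(law μ) = (law μ).real S := by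
      rw [integral_indicator_const (1 : ℝ) hSm, smul_eq_mul, mul_one]
    simp only [Pi.add_apply] at e1 e2 e3 ⊢
    have e5 : ∫ η, E / c * K * S.indicator (fun _ => (1 : ℝ)) η ∂(law μ) = E / c * K * (law μ).real S := by
      rw [integral_const_mul, e4]
    have e6 : ∫ η, E / c * Real.exp (-K) * Real.exp (c / E * V μ s η 0 m) ∂(law μ) =
        E / c * Real.exp (-K) * ∫ η, Real.exp (c / E * V μ s η 0 m) ∂(law μ) := integral_const_mul _ _
    have e7 : ∫ _ : Env, (2 : ℝ) ^ (-α) * E ∂(law μ) = (2 : ℝ) ^ (-α) * E := by simp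
    rw [e1, e2, e3, e5, e6, e7]
    rfl
  have hEc : 0 < E / c := by positivity
  have h3 : E / c * K * (law μ).real S ≤ E / c * K * (2 : ℝ) ^ (-α) :=
    mul_le_mul_of_nonneg_left hconc.le (by positivity)
  have h4 : E / c * Real.exp (-K) * ∫ η, Real.exp (c / E * V μ s η 0 m) ∂(law μ) ≤ E / c * Real.exp (-K) * C :=
    mul_le_mul_of_nonneg_left hV (by positivity)
  refine hint.trans ?_
  have e5 : e μ s m y + ((2 : ℝ) ^ (-α) * (1 + K / c) + Real.exp (-K) * C / c) * E =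
      e μ s m y + (2 : ℝ) ^ (-α) * E + E / c * K * (2 : ℝ) ^ (-α) + E / c * Real.exp (-K) * C := by
    field_simp
    ring
  rw [e5]
  linarith

/-- The exponential moment of the luck of one start, in the unit, at every scale, uniformly in the tilt. -/
def FV4 (μ : Measure ℝ) (A : Set ℝ) : Prop :=
  ∃ (c C : ℝ) (n0 : ℕ), 0 < c ∧ ∀ s ∈ A, ∀ n : ℕ, n0 ≤ n → ∀ m : ℕ, m ≤ n →
    ∫ η, Real.exp (c / EE μ s n * V μ s η 0 m) ∂(law μ) ≤ C

/-- (I1) from the exponential moment of the luck. -/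
theorem EE_le_Em4 (hμ : Pool.Agent.W_7d29a1_h47.EM μ) (hF : FV4 μ A) : ∃ (α : ℝ) (x0 : ℕ), 0 ≤ α ∧
    ∀ s ∈ A, ∀ x : ℕ, x0 ≤ x → ¬ Sf μ s x α → EE μ s (2 ^ x) ≤ 2 * Em μ s (2 ^ x) := by
  obtain ⟨c, C, n0, hc, hF⟩ := hF
  obtain ⟨K, hK0, hK⟩ : ∃ K : ℝ, 0 ≤ K ∧ Real.exp (-K) * C / c ≤ 1 / 4 := by
    refine ⟨max 0 (4 * C / c), le_max_left _ _, ?_⟩
    rcases le_or_gt C 0 with hC | hC
    · have h1 : Real.exp (-(max 0 (4 * C / c))) * C / c ≤ 0 :=
        div_nonpos_of_nonpos_of_nonneg (mul_nonpos_of_nonneg_of_nonpos (Real.exp_pos _).le hC) hc.le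
      linarith
    · have h2 : 4 * C / c ≤ Real.exp (max 0 (4 * C / c)) :=
        (le_max_right 0 _).trans ((by linarith [Real.add_one_le_exp (max 0 (4 * C / c))]))
      rw [Real.exp_neg, div_le_iff₀ hc, inv_mul_le_iff₀ (Real.exp_pos _)]
      rw [div_le_iff₀ hc] at h2
      linarith
  obtain ⟨a, ha⟩ := pow_unbounded_of_one_lt (4 * (1 + K / c)) (show (1 : ℝ) < 2 by norm_num)
  refine ⟨a, n0, Nat.cast_nonneg a, fun s hs x hx hS => ?_⟩
  have hE := one_le_EE (μ := μ) (s := s) (2 ^ x)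
  have h1 : (2 : ℝ) ^ (-(a : ℝ)) * (1 + K / c) ≤ 1 / 4 := by
    rw [Real.rpow_neg (by norm_num), Real.rpow_natCast, inv_mul_le_iff₀ (by positivity)]
    linarith
  have h2 : EE μ s (2 ^ x) ≤ Em μ s (2 ^ x) + 1 / 2 * EE μ s (2 ^ x) := by
    refine EE_le fun m hm => ?_
    have hx0 := xs_mem (μ := μ) (s := s) m
    have h3 := ep_le_of_not_Sf hμ (Nat.cast_nonneg a) hc hK0 hS hm hx0.1 hx0.2 (e_xs_le_EE4 hμ hm)
      (hF s hs (2 ^ x) (hx.trans Nat.lt_two_pow_self.le) m hm)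
    have h4 : 1 + e μ s m (xs μ s m) ≤ Em μ s (2 ^ x) := by
      unfold Em
      exact add_le_add le_rfl (Finset.le_sup' (fun m => e μ s m (xs μ s m)) (Finset.mem_range.2 (Nat.lt_succ_of_le hm)))
    have h5 : ((2 : ℝ) ^ (-(a : ℝ)) * (1 + K / c) + Real.exp (-K) * C / c) * EE μ s (2 ^ x) ≤
        1 / 2 * EE μ s (2 ^ x) := mul_le_mul_of_nonneg_right (by linarith) (by linarith)
    have h6 := es_le (μ := μ) (s := s) hx0.1 hx0.2
    linarith
  linarith

theorem vA_nonneg4 (hD : Dirs μ H δ A) {s : ℝ} (hs : s ∈ A) {a : ℝ} (ha : 0 ≤ a) (n : ℕ) : 0 ≤ vA a μ s n := by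
  have hB : 0 ≤ a * EE μ s n / n := div_nonneg (mul_nonneg ha (EE_pos n).le) (Nat.cast_nonneg n)
  have hrf := hD.rf hs
  unfold vA vr vl
  exact add_nonneg (hrf.wR_nonneg hB) (hrf.wL_nonneg hB)

omit [IsProbabilityMeasure μ] in
theorem sum_W_pos4 (η : Env) (m : ℕ) : 0 < ∑ y ∈ Finset.Icc (0 : ℤ) m, W μ s η 0 m y :=
  Finset.sum_pos (fun y hy => W_pos (μ := μ) (s := s) η 0 (Finset.mem_Icc.1 hy).1 (Finset.mem_Icc.1 hy).2)
    ⟨0, Finset.mem_Icc.2 ⟨le_rfl, by positivity⟩⟩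

omit [IsProbabilityMeasure μ] in
theorem exp_V4 (η : Env) (m : ℕ) : Real.exp (V μ s η 0 m) = ∑ y ∈ Finset.Icc (0 : ℤ) m, W μ s η 0 m y := by
  unfold V WS
  rw [Real.exp_log (sum_W_pos4 η m)]

/-- The exponential moment of the luck of one start, from `TiltH`. -/
theorem fV4_of (hD : Dirs μ H δ A) {a : ℝ} (ha : 0 ≤ a) (h : TiltH a μ A) : FV4 μ A := by
  have hμ := hD.em
  obtain ⟨c, C, n0, hc, h⟩ := h 1
  refine ⟨c, C, n0, hc, fun s hs n hn m hm => ?_⟩
  refine le_trans ?_ (h s hs n hn m (by omega))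
  have hE := EE_pos (μ := μ) (s := s) n
  have hw : 0 ≤ wH a μ s n := mul_nonneg (Nat.cast_nonneg n) (vA_nonneg4 hD hs ha n)
  obtain ⟨b, hb⟩ : ∃ b : ℝ, b = c * EE μ s n / wH a μ s n := ⟨_, rfl⟩
  have hb0 : 0 ≤ b := by rw [hb]; positivity
  rw [← hb]
  obtain ⟨θ, hθ⟩ : ∃ θ : ℝ, θ = c / EE μ s n := ⟨_, rfl⟩
  have hθ0 : 0 < θ := by rw [hθ]; positivity
  rw [← hθ]
  have hlow : ∀ η, Real.exp (V μ s η 0 m) ≤
      ∑ y ∈ Finset.Icc (0 : ℤ) m, W μ s η 0 m y * Real.exp (b * |(y : ℝ) - sl μ s * m|) := fun η => by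
    rw [exp_V4]
    refine Finset.sum_le_sum fun y _ => ?_
    have h1 : 1 ≤ Real.exp (b * |(y : ℝ) - sl μ s * m|) := Real.one_le_exp (by positivity)
    have h2 := W_nonneg (μ := μ) (s := s) η 0 m y
    nlinarith
  obtain ⟨L, hL⟩ : ∃ L : ℝ, L = (1 + |sl μ s|) * m := ⟨_, rfl⟩
  have hup : ∀ η, ∑ y ∈ Finset.Icc (0 : ℤ) m, W μ s η 0 m y * Real.exp (b * |(y : ℝ) - sl μ s * m|) ≤
      Real.exp (b * L) * Real.exp (V μ s η 0 m) := fun η => by
    rw [exp_V4, Finset.mul_sum]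
    refine Finset.sum_le_sum fun y hy => ?_
    rw [Finset.mem_Icc] at hy
    have h0 : (0 : ℝ) ≤ y := by exact_mod_cast hy.1
    have h1 : (y : ℝ) ≤ m := by exact_mod_cast hy.2
    have h2 : |(y : ℝ) - sl μ s * m| ≤ L := by
      have k1 := abs_sub (y : ℝ) (sl μ s * m)
      rw [abs_of_nonneg h0, abs_mul, Nat.abs_cast] at k1
      rw [hL]
      linarith
    rw [mul_comm]
    exact mul_le_mul_of_nonneg_right (Real.exp_le_exp.2 (mul_le_mul_of_nonneg_left h2 hb0))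
      (W_nonneg _ _ _ _)
  have hmeas : Measurable fun η : Env => Real.log (∑ y ∈ Finset.Icc (0 : ℤ) m,
      W μ s η 0 m y * Real.exp (b * |(y : ℝ) - sl μ s * m|)) :=
    Real.measurable_log.comp (Finset.measurable_sum _ fun y _ => (measurable_W 0 m y).mul_const _)
  have hint : Integrable (fun η : Env => Real.exp (θ * Real.log (∑ y ∈ Finset.Icc (0 : ℤ) m,
      W μ s η 0 m y * Real.exp (b * |(y : ℝ) - sl μ s * m|)))) (law μ) := by
    refine ((((Sub_V (μ := μ) (s := s) 0 m).const_mul θ).exp_int hμ).const_mul (Real.exp (θ * (b * L)))).mono'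
      (Real.measurable_exp.comp (hmeas.const_mul θ)).aestronglyMeasurable
      (Eventually.of_forall fun η => ?_)
    rw [Real.norm_of_nonneg (Real.exp_pos _).le, ← Real.exp_add]
    refine Real.exp_le_exp.2 ?_
    have h1 := Real.log_le_log (lt_of_lt_of_le (Real.exp_pos _) (hlow η)) (hup η)
    rw [Real.log_mul (Real.exp_pos _).ne' (Real.exp_pos _).ne', Real.log_exp, Real.log_exp] at h1
    nlinarith
  refine integral_mono (((Sub_V (μ := μ) (s := s) 0 m).const_mul θ).exp_int hμ) hint fun η => ?_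
  refine Real.exp_le_exp.2 (mul_le_mul_of_nonneg_left ?_ hθ0.le)
  have h1 := Real.log_le_log (Real.exp_pos _) (hlow η)
  rwa [Real.log_exp] at h1

/-- **(I1)** from the frame. -/
theorem i1H_of (hD : Dirs μ H δ A) {a : ℝ} (ha : 0 ≤ a) (h : TiltH a μ A) : I1H μ A := by
  obtain ⟨α, x0, -, h1⟩ := EE_le_Em4 hD.em (fV4_of hD ha h)
  refine ⟨α, x0, fun d z hz hS => ?_⟩
  have h2 := h1 d.1 d.2 z hz hS
  have h3 : 1 ≤ Em μ d.1 (2 ^ z) := by
    have h4 := one_le_EE (μ := μ) (s := d.1) (2 ^ z)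
    by_contra hcon
    have h5 : 0 ≤ e μ d.1 0 (xs μ d.1 0) := e_nonneg hD.em d.1 (xs_mem 0).1 (xs_mem 0).2
    have h6 : 1 + e μ d.1 0 (xs μ d.1 0) ≤ Em μ d.1 (2 ^ z) := by
      unfold Em
      exact add_le_add le_rfl (Finset.le_sup' (fun m => e μ d.1 m (xs μ d.1 m)) (Finset.mem_range.2 (Nat.succ_pos _)))
    linarith
  show EE μ d.1 (2 ^ z) ≤ 3 * Em μ d.1 (2 ^ z)
  linarith

end

end Pool.Agent.W_7d29a1_H
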