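import Pool.Agent.W_7d29a1_H.TwoH14

/-!
MP_7d29a1_pr, TRACK H (all tilts), part 3, (ST3): **the displacements around the straight one are cheap**. (helper14)

Greedy: pieces of one duration `τ`, each to the side which decreases the distance to the target, until a duration `m'` of the
order of `a τ` is left; the unit of `m'` is at most half the unit of `m`.
-/

set_option autoImplicit false

namespace Pool.Agent.W_7d29a1_H

open MeasureTheory ProbabilityTheory Filter Topology Set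
open Pool.Agent.W_7d29a1_F Pool.Agent.W_7d29a1_h4g

variable {μ : Measure ℝ} [IsProbabilityMeasure μ] {H δ : ℝ} {A A0 : Set ℝ}

/-- Greedy steering with `N` pieces of duration `τ`. -/
theorem greedy14 (hμ : Pool.Agent.W_7d29a1_h47.EM μ) {s : ℝ} {τ : ℕ} {w c2 C2 E : ℝ} (hc2w : 0 ≤ c2 * w)
    (hp : ∀ g : ℝ, g = 1 ∨ g = -1 → ∃ y : ℤ, 0 ≤ y ∧ y ≤ τ ∧ c2 * w ≤ g * (y - sl μ s * τ) ∧ g * (y - sl μ s * τ) ≤ C2 * w ∧
      e μ s τ y ≤ E) (N : ℕ) (U : ℝ) :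
    ∃ Y : ℤ, 0 ≤ Y ∧ Y ≤ ((N * τ : ℕ) : ℤ) ∧ e μ s (N * τ) Y ≤ N * E ∧
      |U - (Y - sl μ s * ((N * τ : ℕ) : ℝ))| ≤ max (|U| - N * (c2 * w)) (C2 * w) := by
  induction N with
  | zero =>
    refine ⟨0, le_rfl, by simp, ?_, ?_⟩
    · rw [Nat.zero_mul, Pool.Agent.W_7d29a1_F.e_zero, Nat.cast_zero, zero_mul]
    · simp
  | succ N ih =>
    obtain ⟨Y, Y0, Y1, hY, hU⟩ := ih
    obtain ⟨V, hV⟩ : ∃ V, V = U - (Y - sl μ s * ((N * τ : ℕ) : ℝ)) := ⟨_, rfl⟩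
    rw [← hV] at hU
    obtain ⟨g, hg, hgV⟩ : ∃ g : ℝ, (g = 1 ∨ g = -1) ∧ g * V = |V| := by
      rcases le_total 0 V with h | h
      · exact ⟨1, Or.inl rfl, by rw [one_mul, abs_of_nonneg h]⟩
      · exact ⟨-1, Or.inr rfl, by rw [abs_of_nonpos h]; ring⟩
    obtain ⟨y, y0, y1, h1, h2, h3⟩ := hp g hg
    have hgg : g * g = 1 := by rcases hg with rfl | rfl <;> norm_num
    have hga : |g| = 1 := by rcases hg with rfl | rfl <;> norm_num
    have e0 : (N + 1) * τ = N * τ + τ := by ring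
    refine ⟨Y + y, by omega, by rw [e0]; push_cast at Y1 ⊢; omega, ?_, ?_⟩
    · rw [e0]
      have h4 := e_add_le (μ := μ) (s := s) hμ Y0 Y1 y0 y1
      push_cast
      linarith
    · obtain ⟨v, hv⟩ : ∃ v, v = (y : ℝ) - sl μ s * τ := ⟨_, rfl⟩
      rw [← hv] at h1 h2
      have e1 : U - (((Y + y : ℤ) : ℝ) - sl μ s * (((N + 1) * τ : ℕ) : ℝ)) = V - v := by
        rw [hV, hv]
        push_cast
        ring
      rw [e1]
      have e2 : |V - v| = |g * V - g * v| := by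
        rw [← mul_sub, abs_mul, hga, one_mul]
      rw [e2, hgV, abs_le]
      have h5 : |V| ≤ max (|U| - (N : ℝ) * (c2 * w)) (C2 * w) := hU
      push_cast
      constructor
      · have := le_max_right (|U| - ((N : ℝ) + 1) * (c2 * w)) (C2 * w)
        have := abs_nonneg V
        linarith
      · rcases le_max_iff.1 h5 with h6 | h6
        · refine le_trans ?_ (le_max_left _ _)
          linarith
        · refine le_trans ?_ (le_max_right _ _)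
          linarith

/-- **The cone of every time is cheap** (in terms of the width of the time itself). -/
theorem cone_cheap14 (hD : Dirs μ H δ A) (hR : Rate μ A) (hG : Grow μ A)
    (hdbl : ∃ T x1 : ℕ, ∀ s ∈ A, ∀ x, x1 ≤ x → gg μ s x + 1 ≤ gg μ s (x + T)) (hT : TwoH μ A) :
    ∃ c1 K : ℝ, 0 < c1 ∧ 0 ≤ K ∧ ∀ s ∈ A, ∀ (m : ℕ) (y : ℤ), 0 ≤ y → y ≤ m →
      |(y : ℝ) - sl μ s * m| ≤ c1 * (m * vA 1 μ s m) + 1 → e μ s m y ≤ K * EE μ s m := by
  obtain ⟨T, x1, hdbl⟩ := hdbl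
  obtain ⟨c2, C2', x2, hc2, hT⟩ := hT
  obtain ⟨C2, hC2⟩ : ∃ C2 : ℝ, C2 = max C2' 1 := ⟨_, rfl⟩
  have hC21 : 1 ≤ C2 := hC2 ▸ le_max_right _ _
  have hC2' : C2' ≤ C2 := hC2 ▸ le_max_left _ _
  obtain ⟨c1, hc1⟩ : ∃ c1 : ℝ, c1 = c2 / 8 := ⟨_, rfl⟩
  have hc10 : 0 < c1 := by rw [hc1]; positivity
  -- the doubling, iterated
  have hit : ∀ b : ℕ, ∀ s ∈ A, ∀ x, x1 ≤ x → (2 : ℝ) ^ b * EE μ s (2 ^ x) ≤ EE μ s (2 ^ (x + b * T)) := by
    intro b s hs x hx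
    have h1 : gg μ s x + b ≤ gg μ s (x + b * T) := by
      induction b with
      | zero => simp
      | succ b ih =>
        have h2 := hdbl s hs (x + b * T) (by omega)
        have h3 : x + b * T + T = x + (b + 1) * T := by ring
        rw [h3] at h2
        push_cast
        linarith
    have h2 := Real.rpow_le_rpow_of_exponent_le (x := 2) (by norm_num) h1
    rw [Real.rpow_add (by norm_num), pow_gg, pow_gg, Real.rpow_natCast] at h2
    linarith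
  obtain ⟨b, hb⟩ := pow_unbounded_of_one_lt (C2 / c1) (one_lt_two (α := ℝ))
  obtain ⟨p, hp⟩ : ∃ p : ℕ, p = b * T := ⟨_, rfl⟩
  obtain ⟨k0, hk0⟩ : ∃ k0 : ℕ, k0 = T + p + 2 := ⟨_, rfl⟩
  -- the thresholds
  obtain ⟨Ce, hCe1, hCe⟩ := e_lin hD.em hD.nd H
  obtain ⟨n1, hn1, hv1⟩ := hD.vA_small (a := 1) hR one_pos (ε := δ / (4 * c1 + 4)) (by
    have := hD.δ0
    positivity)
  obtain ⟨x3, hx3⟩ : ∃ x3 : ℕ, x3 = x1 + x2 + n1 + ⌈4 / δ⌉₊ + 1 := ⟨_, rfl⟩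
  obtain ⟨m0, hm0⟩ : ∃ m0 : ℕ, m0 = 2 ^ (x3 + k0 + 1) := ⟨_, rfl⟩
  obtain ⟨K, hK⟩ : ∃ K : ℝ, K = 2 ^ (k0 + 2) * C2 + Ce * m0 := ⟨_, rfl⟩
  have hCe0 : 0 ≤ Ce := by linarith
  have hK0 : 0 ≤ K := by rw [hK]; positivity
  refine ⟨c1, K, hc10, hK0, fun s hs => ?_⟩
  intro m
  induction m using Nat.strong_induction_on with
  | _ m ih =>
  intro y y0 y1 hy
  rcases lt_or_ge m m0 with hmm | hmm
  · have h1 := hCe s (hD.bd s hs) m y y0 y1
    have h2 : Ce * m ≤ Ce * m0 := mul_le_mul_of_nonneg_left (by exact_mod_cast hmm.le) hCe0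
    have h3 : K * 1 ≤ K * EE μ s m := mul_le_mul_of_nonneg_left (one_le_EE m) hK0
    have h4 : Ce * m0 ≤ K := by
      rw [hK]
      have : (0 : ℝ) ≤ 2 ^ (k0 + 2) * C2 := by positivity
      linarith
    linarith
  -- the durations
  have hmpos : m ≠ 0 := by
    have : 0 < m0 := by rw [hm0]; positivity
    omega
  obtain ⟨X, hX⟩ : ∃ X : ℕ, X = Nat.log 2 m := ⟨_, rfl⟩
  have hX1 : 2 ^ X ≤ m := by rw [hX]; exact Nat.pow_log_le_self 2 hmpos
  have hX2 : m < 2 ^ (X + 1) := by rw [hX]; exact Nat.lt_pow_succ_log_self (by norm_num) m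
  have hX3 : x3 + k0 + 1 ≤ X := by
    rw [hX]
    exact Nat.le_log_of_pow_le (by norm_num) (by rw [← hm0]; exact hmm)
  obtain ⟨z, hz⟩ : ∃ z : ℕ, X = z + k0 := ⟨X - k0, by omega⟩
  have hz3 : x3 + 1 ≤ z := by omega
  obtain ⟨τ, hτ⟩ : ∃ τ : ℕ, τ = 2 ^ z := ⟨_, rfl⟩
  have hτ0 : 0 < τ := by rw [hτ]; positivity
  have hτn : x3 ≤ τ := by
    rw [hτ]
    exact (show x3 ≤ z by omega).trans (Nat.lt_two_pow_self).le
  obtain ⟨a, ha⟩ : ∃ a : ℕ, a = 2 ^ p := ⟨_, rfl⟩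
  have ha1 : 1 ≤ a := by rw [ha]; exact Nat.one_le_two_pow
  have hmt : 2 ^ k0 * τ ≤ m := by
    have : 2 ^ k0 * τ = 2 ^ X := by rw [hτ, hz, pow_add]; ring
    omega
  have hmt2 : m < 2 ^ (k0 + 1) * τ := by
    have : 2 ^ (k0 + 1) * τ = 2 ^ (X + 1) := by rw [hτ, hz, ← pow_add]; congr 1; ring
    omega
  have ha2 : 4 * a * 2 ^ T = 2 ^ k0 := by
    rw [ha, hk0]
    have : (4 : ℕ) = 2 ^ 2 := by norm_num
    rw [this, ← pow_add, ← pow_add]
    congr 1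
    ring
  have ha3 : 4 * a ≤ 2 ^ k0 := by
    rw [← ha2]
    exact Nat.le_mul_of_pos_right _ (by positivity)
  obtain ⟨Q, hQ⟩ : ∃ Q : ℕ, Q = m / τ := ⟨_, rfl⟩
  obtain ⟨R, hRr⟩ : ∃ R : ℕ, R = m % τ := ⟨_, rfl⟩
  have hQR : Q * τ + R = m := by
    rw [hQ, hRr, mul_comm]
    exact Nat.div_add_mod m τ
  have hRlt : R < τ := by rw [hRr]; exact Nat.mod_lt _ hτ0
  have hQ1 : 2 ^ k0 ≤ Q := by rw [hQ]; exact (Nat.le_div_iff_mul_le hτ0).2 hmt
  have hQ2 : Q < 2 ^ (k0 + 1) := by rw [hQ]; exact (Nat.div_lt_iff_lt_mul hτ0).2 hmt2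
  obtain ⟨N, hN⟩ : ∃ N : ℕ, Q = N + a := ⟨Q - a, by omega⟩
  obtain ⟨m', hm'⟩ : ∃ m' : ℕ, m' = a * τ + R := ⟨_, rfl⟩
  have hmm' : m = N * τ + m' := by rw [hm', ← hQR, hN]; ring
  have hN1 : 2 ^ k0 ≤ 2 * N := by omega
  have hN2 : N ≤ 2 ^ (k0 + 1) := by omega
  have hm'1 : a * τ ≤ m' := by omega
  have hm'2 : m' ≤ 2 * a * τ := by
    have : 1 * τ ≤ a * τ := Nat.mul_le_mul_right _ ha1
    have h2 : 2 * a * τ = a * τ + a * τ := by ring
    omega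
  have hτm' : τ ≤ m' := le_trans (by nlinarith) hm'1
  have hm'lt : m' < m := by
    have h1 : 1 * τ ≤ N * τ := Nat.mul_le_mul_right _ (by
      have : 0 < 2 ^ k0 := by positivity
      omega)
    omega
  -- the widths
  obtain ⟨w, hw⟩ : ∃ w : ℝ, w = τ * vA 1 μ s τ := ⟨_, rfl⟩
  have hτr : (0 : ℝ) < τ := by exact_mod_cast hτ0
  have hw2 : 2 ≤ w := by
    have h1 := hD.vA_lower hs (a := 1) zero_le_one (n := τ) hτ0
    have h2 := mul_le_mul_of_nonneg_left h1 hτr.le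
    have h3 : (τ : ℝ) * (2 * (1 * EE μ s τ / τ)) = 2 * EE μ s τ := by
      field_simp
    rw [h3, ← hw] at h2
    have := one_le_EE (μ := μ) (s := s) τ
    linarith
  have hw0 : 0 < w := by linarith
  -- the pieces
  have hpc : ∀ g : ℝ, g = 1 ∨ g = -1 → ∃ y : ℤ, 0 ≤ y ∧ y ≤ τ ∧ c2 * w ≤ g * (y - sl μ s * τ) ∧
      g * (y - sl μ s * τ) ≤ C2 * w ∧ e μ s τ y ≤ C2 * EE μ s τ := by
    intro g hg
    obtain ⟨y, a0, a1, a2, a3, a4⟩ := hT s hs z (by omega) g hg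
    have e1 : wH 1 μ s (2 ^ z) = w := by rw [hw, hτ]; rfl
    have e2 : ((2 : ℝ) ^ z) = (τ : ℝ) := by rw [hτ]; push_cast; rfl
    rw [e1, e2] at a2 a3
    rw [← hτ] at a4
    refine ⟨y, a0, by rw [hτ]; exact_mod_cast a1, a2, a3.trans (mul_le_mul_of_nonneg_right hC2' hw0.le),
      a4.trans (mul_le_mul_of_nonneg_right hC2' (EE_pos _).le)⟩
  obtain ⟨Y, Y0, Y1, hY, hU⟩ := greedy14 hD.em (s := s) (τ := τ) (w := w) (c2 := c2) (C2 := C2) (E := C2 * EE μ s τ)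
    (mul_nonneg hc2.le hw0.le) hpc N ((y : ℝ) - sl μ s * m)
  -- the distance which is left
  have hmw : (m : ℝ) * vA 1 μ s m ≤ 2 ^ (k0 + 2) * w := by
    have h1 := hD.vA_le_two hs (a := 1) zero_le_one hτ0 (show τ ≤ m by omega)
    have h2 : (m : ℝ) ≤ 2 ^ (k0 + 1) * τ := by exact_mod_cast hmt2.le
    have hvt : 0 ≤ vA 1 μ s τ := (hD.vA_pos hs one_pos hτ0).le
    calc (m : ℝ) * vA 1 μ s m ≤ m * (2 * vA 1 μ s τ) := mul_le_mul_of_nonneg_left h1 (Nat.cast_nonneg _)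
      _ ≤ (2 ^ (k0 + 1) * τ) * (2 * vA 1 μ s τ) := mul_le_mul_of_nonneg_right h2 (by positivity)
      _ = _ := by rw [hw]; ring
  have hUle : |(y : ℝ) - sl μ s * m| - N * (c2 * w) ≤ C2 * w := by
    have h1 : c1 * (m * vA 1 μ s m) ≤ c1 * (2 ^ (k0 + 2) * w) := mul_le_mul_of_nonneg_left hmw hc10.le
    have h2 : (2 : ℝ) ^ k0 ≤ 2 * N := by exact_mod_cast hN1
    have h3 : c1 * ((2 : ℝ) ^ (k0 + 2) * w) = c2 * w * (2 ^ k0 / 2) := by
      rw [hc1, pow_add]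
      ring
    have h4 : c2 * w * ((2 : ℝ) ^ k0 / 2) ≤ c2 * w * N := mul_le_mul_of_nonneg_left (by linarith) (mul_nonneg hc2.le hw0.le)
    have h5 : 1 ≤ C2 * w := by nlinarith
    have h6 : c2 * w * (N : ℝ) = N * (c2 * w) := by ring
    linarith
  have hU2 : |(y : ℝ) - sl μ s * m - (Y - sl μ s * ((N * τ : ℕ) : ℝ))| ≤ C2 * w := hU.trans (max_le hUle le_rfl)
  -- the width of what is left
  have hEa : (2 : ℝ) ^ b * EE μ s τ ≤ EE μ s (a * τ) := by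
    have h1 := hit b s hs z (by omega)
    have e1 : 2 ^ (z + b * T) = a * τ := by rw [pow_add, ← hp, ha, hτ]; ring
    rw [e1, ← hτ] at h1
    exact h1
  have hwa : C2 * w ≤ c1 * (m' * vA 1 μ s m') := by
    have h1 := hD.EE_w hs (a := 1) zero_le_one (n := τ) (k := a) hτ0 ha1
    rw [← hw] at h1
    have h2 : (2 : ℝ) ^ b * EE μ s τ * w ≤ ((a * τ : ℕ) : ℝ) * vA 1 μ s (a * τ) * EE μ s τ :=
      (mul_le_mul_of_nonneg_right hEa hw0.le).trans h1
    have hEt := EE_pos (μ := μ) (s := s) τ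
    have h3 : (2 : ℝ) ^ b * w ≤ ((a * τ : ℕ) : ℝ) * vA 1 μ s (a * τ) := by
      have : ((2 : ℝ) ^ b * w) * EE μ s τ ≤ (((a * τ : ℕ) : ℝ) * vA 1 μ s (a * τ)) * EE μ s τ := by linarith
      exact le_of_mul_le_mul_right this hEt
    have h4 := hD.w_mono hs (a := 1) zero_le_one (n := a * τ) (n' := m') (Nat.mul_pos ha1 hτ0) hm'1
    rw [div_lt_iff₀ hc10] at hb
    calc C2 * w ≤ (2 ^ b * c1) * w := mul_le_mul_of_nonneg_right hb.le hw0.le
      _ = c1 * (2 ^ b * w) := by ring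
      _ ≤ c1 * (((a * τ : ℕ) : ℝ) * vA 1 μ s (a * τ)) := mul_le_mul_of_nonneg_left h3 hc10.le
      _ ≤ _ := mul_le_mul_of_nonneg_left h4 hc10.le
  -- the rest
  obtain ⟨y', hy'⟩ : ∃ y' : ℤ, y' = y - Y := ⟨_, rfl⟩
  have hm'pos : 0 < m' := by omega
  have hm'r : (0 : ℝ) < m' := by exact_mod_cast hm'pos
  have hdist : |(y' : ℝ) - sl μ s * m'| ≤ c1 * (m' * vA 1 μ s m') := by
    have e1 : (y' : ℝ) - sl μ s * m' = (y : ℝ) - sl μ s * m - (Y - sl μ s * ((N * τ : ℕ) : ℝ)) := by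
      rw [hy', hmm']
      push_cast
      ring
    rw [e1]
    exact hU2.trans hwa
  have hrng : 0 ≤ y' ∧ y' ≤ m' := by
    refine hD.rng hs (hdist.trans ?_)
    have h1 := hv1 s hs m' (by omega)
    have hδ := hD.δ0
    have h2 : c1 * vA 1 μ s m' ≤ δ := by
      calc c1 * vA 1 μ s m' ≤ c1 * (δ / (4 * c1 + 4)) := mul_le_mul_of_nonneg_left h1 hc10.le
        _ ≤ δ := by
          rw [mul_div_assoc', div_le_iff₀ (by positivity)]
          nlinarith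
    calc c1 * (m' * vA 1 μ s m') = (c1 * vA 1 μ s m') * m' := by ring
      _ ≤ δ * m' := mul_le_mul_of_nonneg_right h2 hm'r.le
  have hrec := ih m' hm'lt y' hrng.1 hrng.2 (by linarith)
  have hsum := e_add_le (μ := μ) (s := s) hD.em Y0 Y1 hrng.1 hrng.2
  have e3 : N * τ + m' = m := hmm'.symm
  have e4 : Y + y' = y := by rw [hy']; ring
  rw [e3, e4] at hsum
  -- the units
  have hEm' : 2 * EE μ s m' ≤ EE μ s m := by
    have h1 : EE μ s m' ≤ EE μ s (2 * a * τ) := EE_mono hm'2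
    have e5 : 2 * a * τ = 2 ^ (z + p + 1) := by rw [ha, hτ]; ring
    have h2 := hit 1 s hs (z + p + 1) (by omega)
    rw [pow_one, one_mul, ← e5] at h2
    have h3 : EE μ s (2 ^ (z + p + 1 + T)) ≤ EE μ s m := by
      refine EE_mono (le_trans ?_ hX1)
      refine Nat.pow_le_pow_right (by norm_num) ?_
      omega
    linarith
  have hEτ : EE μ s τ ≤ EE μ s m := EE_mono (by omega)
  have hEm := EE_pos (μ := μ) (s := s) m
  have h7 : (N : ℝ) * (C2 * EE μ s τ) ≤ 2 ^ (k0 + 1) * C2 * EE μ s m := by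
    have h8 : (N : ℝ) ≤ 2 ^ (k0 + 1) := by exact_mod_cast hN2
    have h9 : (N : ℝ) * (C2 * EE μ s τ) ≤ 2 ^ (k0 + 1) * (C2 * EE μ s m) :=
      mul_le_mul h8 (mul_le_mul_of_nonneg_left hEτ (by linarith)) (by have := EE_pos (μ := μ) (s := s) τ; positivity)
        (by positivity)
    linarith
  have h10 : K * EE μ s m' ≤ K / 2 * EE μ s m := by
    have := mul_le_mul_of_nonneg_left hEm' hK0
    linarith
  have h11 : 2 ^ (k0 + 1) * C2 * EE μ s m ≤ K / 2 * EE μ s m := by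
    refine mul_le_mul_of_nonneg_right ?_ hEm.le
    rw [hK]
    have h12 : (2 : ℝ) ^ (k0 + 2) = 2 * 2 ^ (k0 + 1) := by ring
    rw [h12]
    have : 0 ≤ Ce * (m0 : ℝ) := by positivity
    linarith
  have h13 : K * EE μ s m = K / 2 * EE μ s m + K / 2 * EE μ s m := by ring
  rw [h13]
  linarith

/-- **(ST3). The displacements around the straight one are cheap.** -/
theorem innH_of14 (hD : Dirs μ H δ A) (hR : Rate μ A) (hG : Grow μ A)
    (hdbl : ∃ T x1 : ℕ, ∀ s ∈ A, ∀ x, x1 ≤ x → gg μ s x + 1 ≤ gg μ s (x + T)) (hT : TwoH μ A) : InnH μ A := by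
  obtain ⟨c1, K, hc1, hK0, h⟩ := cone_cheap14 hD hR hG hdbl hT
  refine ⟨c1 / 8, 4 * K + 4, 1, by positivity, fun s hs n hn m y hm y0 y1 hy => ?_⟩
  have hE := EE_pos (μ := μ) (s := s) n
  have hE4 : EE μ s m ≤ 4 * EE μ s n := by
    have := EE_le_mul hD.em s (n := n) (m := m) (k := 4) (by norm_num) hm
    exact_mod_cast this
  have hes : es μ s m ≤ 4 * EE μ s n := by
    have h1 : es μ s m + 1 ≤ EE μ s m := le_EE le_rfl
    linarith
  have hep := ep_le61 hD.em s y0 y1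
  have hfin : e μ s m y ≤ K * EE μ s m := by
    refine h s hs m y y0 y1 (hy.trans ?_)
    rcases Nat.eq_zero_or_pos m with hm0 | hm0
    · subst hm0
      simp
    have hmr : (0 : ℝ) < m := by exact_mod_cast hm0
    have hvm := (hD.vA_pos hs one_pos hm0).le
    have hvn := (hD.vA_pos hs one_pos (show 1 ≤ n from hn)).le
    rcases le_total m n with hmn | hmn
    · have h1 := hD.vA_le_two hs (a := 1) zero_le_one hm0 hmn
      have h2 : c1 / 8 * vA 1 μ s n * m ≤ c1 / 8 * (2 * vA 1 μ s m) * m :=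
        mul_le_mul_of_nonneg_right (mul_le_mul_of_nonneg_left h1 (by positivity)) hmr.le
      have h3 : 0 ≤ c1 * (m * vA 1 μ s m) := by positivity
      linarith
    · have h1 := hD.w_mono hs (a := 1) zero_le_one hn hmn
      have h2 : (m : ℝ) ≤ 4 * n := by exact_mod_cast hm
      have h3 : c1 / 8 * vA 1 μ s n * m ≤ c1 / 8 * vA 1 μ s n * (4 * n) := mul_le_mul_of_nonneg_left h2 (by positivity)
      have h4 : c1 / 8 * vA 1 μ s n * (4 * n) = c1 / 2 * (n * vA 1 μ s n) := by ring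
      have h5 : c1 / 2 * (n * vA 1 μ s n) ≤ c1 / 2 * (m * vA 1 μ s m) := mul_le_mul_of_nonneg_left h1 (by positivity)
      have h6 : 0 ≤ c1 * (m * vA 1 μ s m) := by positivity
      linarith
  have h7 : K * EE μ s m ≤ K * (4 * EE μ s n) := mul_le_mul_of_nonneg_left hE4 hK0
  linarith

end Pool.Agent.W_7d29a1_H
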