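import Pool.Agent.W_7d29a1_H.PbH93
import Pool.Agent.W_7d29a1_g.Inner4

/-!
MP_7d29a1_pr, TRACK H (all tilts), section (D4): THE RIGHT INNER EDGE on a stretch without soft scale, from `Geo.inner4` and the numbers
`NumRH` (model: second half of `W_7d29a1_G.InnerFin52`, `W_1b8d5d_h52p.InnP`). (helper93)
-/

set_option autoImplicit false

namespace Pool.Agent.W_7d29a1_H

open MeasureTheory ProbabilityTheory Filter Topology Pool.Agent.W_7d29a1_F Pool.Agent.W_7d29a1_h4g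
open Pool.Agent.W_7d29a1_g (Geo)
open Pool.Agent.W_1b8d5d_p (SlowU)

noncomputable section

variable {μ : Measure ℝ} [IsProbabilityMeasure μ] {A : Set ℝ} {H δ A0 A1 : ℝ}

private theorem lev93 (c : ℝ) : ∃ α₀ : ℝ, ∀ α : ℝ, α₀ ≤ α → c ≤ (2 : ℝ) ^ α := by
  refine ⟨Real.logb 2 (max c 1), fun α hα => ?_⟩
  have h1 : (0 : ℝ) < max c 1 := lt_of_lt_of_le one_pos (le_max_right _ _)
  exact (le_max_left _ _).trans ((Real.logb_le_iff_le_rpow one_lt_two h1).1 hα)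

private theorem lev93' {κ : ℝ} (hκ : 0 < κ) : ∃ α₀ : ℝ, ∀ α : ℝ, α₀ ≤ α → (2 : ℝ) ^ (-α) ≤ κ := by
  obtain ⟨α₀, h⟩ := lev93 (1 / κ)
  refine ⟨α₀, fun α hα => ?_⟩
  rw [Real.rpow_neg two_pos.le]
  have h3 := inv_anti₀ (by positivity) (h α hα)
  rwa [one_div, inv_inv] at h3

private theorem gap93 (hA0 : 0 < A0) (hA1 : 0 < A1) : ∃ k : ℕ, ∀ k' : ℕ, k ≤ k' →
    15 / 4 * A1 * (5 / 8 : ℝ) ^ k' ≤ A0 := by
  obtain ⟨k, hk⟩ := exists_pow_lt_of_lt_one (show (0 : ℝ) < A0 / (15 / 4 * A1) by positivity)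
    (show (5 / 8 : ℝ) < 1 by norm_num)
  refine ⟨k, fun k' hk' => ?_⟩
  have h1 : (5 / 8 : ℝ) ^ k' ≤ (5 / 8 : ℝ) ^ k := pow_le_pow_of_le_one (by norm_num) (by norm_num) hk'
  have h2 := (h1.trans hk.le)
  rw [le_div_iff₀ (by positivity)] at h2
  linarith

/-- **THE RIGHT INNER EDGE.** -/
theorem innerR (hD : Dirs μ H δ A) (hG : Grow μ A) (hA0 : 0 < A0) (h01 : A0 < A1) (hNum : NumRH μ A A0 A1) :
    InnerRH μ A A0 := by
  have hEM := hD.em
  have hnd := hD.nd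
  have hA1 : 0 < A1 := hA0.trans h01
  obtain ⟨c1, kk, hc1, hnum⟩ := hNum
  obtain ⟨kj, hkj⟩ := gap93 hA0 hA1
  obtain ⟨k, hk⟩ : ∃ k, k = max kk kj := ⟨_, rfl⟩
  obtain ⟨Ce, hCe, hnum⟩ := hnum k (by rw [hk]; exact le_max_left _ _)
  refine ⟨Ce, 2 * c1, k, 3, hCe, fun ε m hε hε1 hm => ?_⟩
  have hm1 : 1 ≤ m := by
    rcases Nat.eq_zero_or_pos m with h1 | h1
    · exfalso
      rw [h1, pow_zero, mul_one] at hm
      linarith
    · exact h1
  obtain ⟨M, hM2⟩ : ∃ M, M + 1 = 2 ^ m := ⟨2 ^ m - 1, Nat.sub_add_cancel Nat.one_le_two_pow⟩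
  have hM : 1 ≤ M := by
    have h1 : 2 ^ 1 ≤ 2 ^ m := Nat.pow_le_pow_right (by norm_num) hm1
    omega
  have hMr : (1 : ℝ) ≤ M := by exact_mod_cast hM
  have hM2r : (M : ℝ) + 1 = 2 ^ m := by exact_mod_cast hM2
  have hM1 : (0 : ℝ) < (M : ℝ) + 1 := by linarith
  obtain ⟨T₀, Cw, hin⟩ := Pool.Agent.W_7d29a1_g.Geo.inner4 hEM hnd (pw := 1 / (8 * M)) (by positivity)
  have hCw := abs_nonneg Cw
  have h2T : (0 : ℝ) < 2 ^ T₀ := by positivity
  obtain ⟨κ, hκe⟩ : ∃ κ : ℝ, κ = ε / 12 := ⟨_, rfl⟩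
  have hκ : 0 < κ := by rw [hκe]; positivity
  have hκ1 : κ ≤ 1 := by rw [hκe]; linarith
  obtain ⟨Bw, hBw⟩ : ∃ Bw : ℝ, Bw = 2 * c1 + 2 + 8 * M + |Cw| + 6 * 2 ^ T₀ := ⟨_, rfl⟩
  have hBw0 : 0 < Bw := by rw [hBw]; positivity
  obtain ⟨J, x1, hnum⟩ := hnum m M hM hM2 Bw κ hBw0 hκ
  obtain ⟨JM, hJM⟩ : ∃ JM : ℝ, JM = (J : ℝ) + 1 := ⟨_, rfl⟩
  have hJM1 : 1 ≤ JM := by
    rw [hJM]
    have : (0 : ℝ) ≤ J := Nat.cast_nonneg J
    linarith
  obtain ⟨p, hp⟩ : ∃ p : ℝ, p = 1 / (16 * (M + 1) * JM ^ 2) := ⟨_, rfl⟩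
  have hp0 : 0 < p := by rw [hp]; positivity
  obtain ⟨B, hB⟩ : ∃ B : ℝ, B = c1 + 4 + 5 * (M + 1) := ⟨_, rfl⟩
  have hB0 : 0 ≤ B := by rw [hB]; positivity
  obtain ⟨α1, hα10, hpc⟩ := i52_piece hEM hnd (p := p) (κ := κ) (B := B) hp0 hκ hB0
  obtain ⟨α2, hα2⟩ := lev93 (c1 + 2)
  obtain ⟨α3, hα3⟩ := lev93' hκ
  obtain ⟨α4, hα4⟩ := lev93' hp0
  obtain ⟨α5, hα5⟩ := lev93' (show (0 : ℝ) < 1 / 4 by norm_num)
  obtain ⟨α, hα⟩ : ∃ α : ℝ, α = max α1 (max α2 (max α3 (max α4 α5))) := ⟨_, rfl⟩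
  have hαa : α1 ≤ α := by rw [hα]; exact le_max_left _ _
  have hαb := hα2 α (by rw [hα]; exact (le_max_left _ _).trans (le_max_right _ _))
  have hαc := hα3 α (by rw [hα]; exact (le_max_left _ _).trans ((le_max_right _ _).trans (le_max_right _ _)))
  have hαd := hα4 α (by
    rw [hα]
    exact (le_max_left _ _).trans ((le_max_right _ _).trans ((le_max_right _ _).trans (le_max_right _ _))))
  have hαe := hα5 α (by
    rw [hα]
    exact (le_max_right _ _).trans ((le_max_right _ _).trans ((le_max_right _ _).trans (le_max_right _ _))))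
  have hα0 : 0 ≤ α := hα10.trans hαa
  obtain ⟨n2, hn2⟩ := hG ((Real.log 2 + Real.log (2 * JM)) / κ)
  refine ⟨α, max x1 n2, fun s hs a b ha hNS hslow y hy hb' hdl L hL1 hL2 => ?_⟩
  have ha1 : x1 ≤ a := (le_max_left _ _).trans ha
  have ha2 : n2 ≤ a := (le_max_right _ _).trans ha
  have W : FW μ s A0 A1 k (y - 2 - k) (y + m + 3) :=
    { slow := fun z z' hz hzz hz' => hslow z z' (by omega) hzz (by omega)
      lev := hkj k (by rw [hk]; exact le_max_right _ _)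
      len := by omega
      len4 := by omega }
  obtain ⟨n', N, w, z, h, lo, Nm⟩ := hnum s hs y (by omega) 3 le_rfl W hdl L hL1 hL2
  obtain ⟨x, hx⟩ : ∃ x, x = y + m := ⟨_, rfl⟩
  rw [← hx] at Nm ⊢
  have hS : ¬ Sf μ s x α := hNS x (by omega) (by omega)
  obtain ⟨E, hE⟩ : ∃ E : ℝ, E = EE μ s (2 ^ x) := ⟨_, rfl⟩
  rw [← hE] at Nm ⊢
  have hE1 : 1 ≤ E := by rw [hE]; exact one_le_EE _
  have hEbig : (Real.log 2 + Real.log (2 * JM)) / κ ≤ E := by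
    rw [hE]
    refine hn2 s hs _ ?_
    have h1 : x < 2 ^ x := Nat.lt_two_pow_self
    omega
  have hlog2 : 0 ≤ Real.log 2 := Real.log_nonneg (by norm_num)
  have hlogJM : 0 ≤ Real.log (2 * JM) := Real.log_nonneg (by linarith)
  have hκE2 : Real.log 2 + Real.log (2 * JM) ≤ κ * E := by
    rw [div_le_iff₀ hκ] at hEbig
    linarith
  obtain ⟨L', hL'⟩ : ∃ L' : ℕ, L' = L - n' := ⟨_, rfl⟩
  have hn1 := Nm.n1
  have hn2' := Nm.n2
  have hLL : L' + n' = L := by omega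
  have hN : N = (M + 1) * L' + n' := by rw [hL']; exact Nm.nN
  have hw1 := Nm.w1
  have hJ1 := Nm.J1
  have hL'1 : 1 ≤ L' := by omega
  have hnL' : n' ≤ L' := by omega
  have hNx : N ≤ 2 ^ x := by
    have h1 : N ≤ (M + 1) * L := by
      rw [hN, ← hLL, Nat.mul_add]
      have : n' ≤ (M + 1) * n' := Nat.le_mul_of_pos_left n' (by omega)
      omega
    refine h1.trans ?_
    rw [hM2, hx, pow_add, mul_comm]
    exact Nat.mul_le_mul_right _ hL2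
  have hLx : L ≤ 2 ^ x := hL2.trans (by rw [hx]; exact Nat.pow_le_pow_right (by norm_num) (by omega))
  have hn'x : n' ≤ 2 ^ x := by omega
  obtain ⟨xx, hxx⟩ : ∃ xx : ℤ, xx = (z + M * (h - w)) / ((M : ℤ) + 1) := ⟨_, rfl⟩
  have hmid0 := Nm.mid0
  have hmid1 := Nm.mid1
  have hmidm := Nm.midm
  have hloc := Nm.loc
  rw [← hxx] at hmid0 hmid1 hmidm hloc
  rcases lt_or_ge xx (xs μ s L) with hlt | hge
  · have hx0 := xs_mem (μ := μ) (s := s) L
    refine ⟨xs μ s L, hx0.1, hx0.2, hloc.trans (by exact_mod_cast hlt.le), ?_⟩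
    have h1 := le_Em (μ := μ) (s := s) (le_refl L)
    have h2 : 0 ≤ ε * E := by positivity
    linarith
  replace hmidm := hmidm hge
  have hM1z : (0 : ℤ) < (M : ℤ) + 1 := by positivity
  have hxx1 : ((M : ℤ) + 1) * xx ≤ z + M * (h - w) := by
    rw [hxx]
    exact Int.mul_ediv_self_le hM1z.ne'
  have hM0 : (0 : ℝ) ≤ M := by linarith
  obtain ⟨C₃, hC₃⟩ : ∃ C₃ : ℝ, C₃ = c1 * E + κ * E := ⟨_, rfl⟩
  obtain ⟨yy, hyy⟩ : ∃ yy : ℝ, yy = C₃ + Real.log (4 * M) := ⟨_, rfl⟩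
  have hκE : κ * E ≤ 1 * E := mul_le_mul_of_nonneg_right hκ1 (by linarith)
  have hκE0 : 0 ≤ κ * E := by positivity
  have hc1E0 : 0 ≤ c1 * E := by positivity
  have hprice : max (max (2 * yy) Cw) (6 * EU μ s (zs μ s) (2 ^ T₀ * N)) ≤ Bw * E := by
    have hlog4 : Real.log (4 * M) ≤ 4 * M := by
      have := Real.log_le_sub_one_of_pos (show (0 : ℝ) < 4 * M by positivity)
      linarith
    have hME : 4 * (M : ℝ) * 1 ≤ 4 * M * E := mul_le_mul_of_nonneg_left hE1 (by positivity)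
    have hCwE : |Cw| * 1 ≤ |Cw| * E := mul_le_mul_of_nonneg_left hE1 hCw
    have hCw2 := le_abs_self Cw
    have hpow : EU μ s (zs μ s) (2 ^ T₀ * N) ≤ 2 ^ T₀ * E := by
      have h1 := EE_mul hEM s N (k := 2 ^ T₀) Nat.one_le_two_pow
      push_cast at h1
      have h2 : EE μ s N ≤ E := by rw [hE]; exact EE_mono hNx
      have h3 : (2 : ℝ) ^ T₀ * EE μ s N ≤ 2 ^ T₀ * E := mul_le_mul_of_nonneg_left h2 h2T.le
      exact h1.trans h3
    have hBE : Bw * E = 2 * (c1 * E) + 2 * E + 8 * M * E + |Cw| * E + 6 * (2 ^ T₀ * E) := by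
      rw [hBw]
      ring
    have g1 : 0 ≤ 8 * (M : ℝ) * E := by positivity
    have g2 : 0 ≤ |Cw| * E := by positivity
    have g3 : 0 ≤ 6 * (2 ^ T₀ * E) := by positivity
    rw [hBE]
    refine max_le (max_le ?_ ?_) ?_
    · rw [hyy, hC₃]
      linarith
    · linarith
    · linarith
  have hwallR : ∀ k : ℕ, 1 ≤ k → k ≤ M → ∃ c : ℤ, 0 ≤ c ∧ c ≤ (k * L' : ℕ) ∧ c ≤ lo k + J * w + 1 ∧
      max (max (2 * yy) Cw) (6 * EU μ s (zs μ s) (2 ^ T₀ * N)) <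
        e μ s (k * L') (lo k + J * w + 1) - e μ s (k * L') c := by
    intro k hk1 hk2
    obtain ⟨c, g1, g2, g3, g4⟩ := Nm.wallR k hk1 hk2
    rw [← hL'] at g2 g4
    exact ⟨c, g1, g2, g3, lt_of_le_of_lt hprice g4⟩
  have hwallL : ∀ k : ℕ, 1 ≤ k → k ≤ M → ∃ c : ℤ, 0 ≤ c ∧ c ≤ (N - k * L' : ℕ) ∧ lo k - 1 + c ≤ z ∧
      max (max (2 * yy) Cw) (6 * EU μ s (zs μ s) (2 ^ T₀ * N)) <
        e μ s (N - k * L') (z - (lo k - 1)) - e μ s (N - k * L') c := by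
    intro k hk1 hk2
    obtain ⟨c, g1, g2, g3, g4⟩ := Nm.wallL k hk1 hk2
    rw [← hL'] at g2 g4
    exact ⟨c, g1, g2, g3, lt_of_le_of_lt hprice g4⟩
  -- the probabilities
  have hEmE : Em μ s L ≤ E := by
    rw [hE]
    exact (Em_le_EE hEM s L).trans (EE_mono hLx)
  have hEm0 : 0 ≤ Em μ s L := zero_le_one.trans (one_le_Em L)
  have hαE : (c1 + 2) * E ≤ (2 : ℝ) ^ α * EE μ s (2 ^ x) := by
    rw [hE]
    exact mul_le_mul_of_nonneg_right hαb (by rw [← hE]; linarith)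
  have hpiece : ∀ d : ℤ, 0 ≤ d → d ≤ (L' + n' : ℕ) →
      (law μ).real {η | X μ s η 0 (L' + n') d < min (e μ s (L' + n') d) (B * E) - κ * E} ≤ p := by
    rw [hLL, hE]
    intro d h0 h1
    exact hpc s x α hαa hS L hLx d h0 h1
  have hrA : (law μ).real {η | Em μ s L + κ * E + κ * E < X μ s η 0 n' h} ≤ p := by
    have h1 := Nm.refh
    exact i52_up hS hα0 hn'x (by have := Nm.hw; omega) Nm.hn (by linarith) hαc hαd (by rw [← hE]; linarith)
  have hrB : (law μ).real {η | Em μ s L + κ * E + κ * E < X μ s η 0 n' (h - w)} ≤ p := by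
    have h1 := Nm.refh'
    exact i52_up hS hα0 hn'x Nm.hw (by have := Nm.hn; omega) (by linarith) hαc hαd (by rw [← hE]; linarith)
  have hpath : (law μ).real {η | C₃ < X μ s η 0 N z} ≤ 1 / 4 := by
    have h1 := Nm.path
    exact i52_up hS hα0 hNx Nm.z0' Nm.zN (by linarith) hαc hαe (by rw [hC₃, ← hE]; linarith)
  have hexp : 4 * (M : ℝ) * Real.exp (-yy) ≤ Real.exp (-C₃) := by
    have h4M : (0 : ℝ) < 4 * M := by positivity
    have h1 : Real.exp (-yy) = Real.exp (-C₃) / (4 * M) := by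
      rw [hyy, neg_add, Real.exp_add, Real.exp_neg (Real.log (4 * M)), Real.exp_log h4M, div_eq_mul_inv]
    rw [h1]
    exact le_of_eq (mul_div_cancel₀ _ h4M.ne')
  have hJJM : (J : ℝ) ≤ JM := by rw [hJM]; linarith
  have hcount : 6 * ((M : ℝ) + 1) * (J : ℝ) ^ 2 * p + (2 * M * (1 / (8 * M)) + 1 / 4) < 1 := by
    have h1 : 6 * ((M : ℝ) + 1) * (J : ℝ) ^ 2 * p ≤ 6 * ((M : ℝ) + 1) * JM ^ 2 * p := by
      have : (J : ℝ) ^ 2 ≤ JM ^ 2 := pow_le_pow_left₀ (by positivity) hJJM 2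
      gcongr
    have h2 : 6 * ((M : ℝ) + 1) * JM ^ 2 * p = 6 / 16 := by
      rw [hp]
      field_simp
    have h3 : 2 * (M : ℝ) * (1 / (8 * M)) = 1 / 4 := by
      field_simp
      norm_num
    rw [h3]
    linarith
  have hfin : min (((M : ℝ) + 1) * e μ s (L' + n') xx) (B * E) ≤
      C₃ + Real.log 2 + (M + 1) * (κ * E) + M * (Em μ s L + κ * E + κ * E) + M * Real.log (2 * J) :=
    hin s (zs μ s) (fun m => zs_mem m) ⟨L', n', w, J, h, lo⟩ M N z xx (Em μ s L + κ * E) (κ * E) (B * E) p (1 / 4)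
      C₃ yy hN hM hL'1 hnL' hJ1 hw1 Nm.hw Nm.hn hp0.le
      hwallR hwallL hpiece hrA hrB Nm.z0' Nm.zN hpath hexp hmid0 (by show xx + 1 ≤ ((L' + n' : ℕ) : ℤ); rw [hLL]; exact hmid1)
      (by show e μ s (L' + n') xx ≤ e μ s (L' + n') (xx + 1); rw [hLL]; exact hmidm)
      hxx1 (by positivity) hcount
  rw [hLL] at hfin
  have hJlog : Real.log (2 * J) ≤ Real.log (2 * JM) := by
    refine Real.log_le_log ?_ (by linarith)
    have : (1 : ℝ) ≤ J := by exact_mod_cast hJ1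
    linarith
  have hMJ : (M : ℝ) * Real.log (2 * J) ≤ M * (κ * E) := mul_le_mul_of_nonneg_left (by linarith) hM0
  have hMk : (M : ℝ) * (κ * E) ≤ M * (1 * E) := mul_le_mul_of_nonneg_left hκE hM0
  have hMEm : (M : ℝ) * Em μ s L ≤ M * E := mul_le_mul_of_nonneg_left hEmE hM0
  have hMain : ((M : ℝ) + 1) * e μ s L xx ≤
      C₃ + Real.log 2 + (M + 1) * (κ * E) + M * (Em μ s L + κ * E + κ * E) + M * Real.log (2 * J) := by
    rcases min_le_iff.1 hfin with h | h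
    · exact h
    · exfalso
      have hBE : B * E = c1 * E + 4 * E + 5 * (M + 1) * E := by rw [hB]; ring
      rw [hBE, hC₃] at h
      linarith
  refine ⟨xx, hmid0, by omega, hloc, ?_⟩
  have hc1ε : c1 * E ≤ (M + 1) * (ε / 2 * E) := by
    have h1 : c1 ≤ (M + 1) * (ε / 2) := by rw [hM2r]; linarith
    have h2 := mul_le_mul_of_nonneg_right h1 (show 0 ≤ E by linarith)
    linarith
  have hκε : 6 * (κ * E) = ε / 2 * E := by rw [hκe]; ring
  have hres : ((M : ℝ) + 1) * e μ s L xx ≤ (M + 1) * (Em μ s L + ε * E) := by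
    have h1 : ((M : ℝ) + 1) * (Em μ s L + ε * E) =
        M * Em μ s L + Em μ s L + (M + 1) * (ε / 2 * E) + (M + 1) * (ε / 2 * E) := by ring
    have h3 : ((M : ℝ) + 1) * (ε / 2 * E) = 6 * (M * (κ * E)) + 6 * (κ * E) := by
      rw [← hκε]
      ring
    have h2 : 0 ≤ (M : ℝ) * (κ * E) := by positivity
    rw [h1]
    rw [hC₃] at hMain
    linarith
  exact le_of_mul_le_mul_left hres hM1

end

end Pool.Agent.W_7d29a1_H
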