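import Pool.Agent.W_7d29a1_H.PredH2
import Pool.Agent.W_7d29a1_H.LamH
import Pool.Agent.W_7d29a1_h48.Core

/-!
MP_7d29a1_pr, TRACK H (all tilts), COMPARE, first half: lucky lanes of one tilt, seen from another tilt (port of `Lanes14`).

If `J ≥ 4 / p` disjoint tubes of the slope `sl μ s` start at the row `n` at places which are cheap for the tilt `s'`, each lucky by `Y`
with probability `≥ p`, then `3 / 4 Y'` is at most the cost of the access, `Y'` the luck for the tilt `s'`.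
-/

set_option autoImplicit false

namespace Pool.Agent.W_7d29a1_H

open MeasureTheory ProbabilityTheory Filter Topology Set Finset
open Pool.Agent.W_7d29a1_F Pool.Agent.W_7d29a1_h4g Pool.Agent.W_7d29a1_f21
open Pool.Agent.W_7d29a1_h48 (integral_Xp Xp_int)

noncomputable section

variable {μ : Measure ℝ}

/-! ### The change of the tilt -/

/-- The weights of two tilts differ by the linear form. -/
theorem W_tilt51 (s s' : ℝ) (η : Env) (a : Pt) (n : ℕ) (y : ℤ) :
    W μ s' η a n y = Real.exp ((s' - s) * y - n * (lam μ s' - lam μ s)) * W μ s η a n y := by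
  unfold W WR
  rw [← mul_assoc, ← Real.exp_add]
  congr 2
  ring

/-- The costs of two tilts differ by the linear form. -/
theorem X_tilt51 (s s' : ℝ) (η : Env) (a : Pt) {n : ℕ} {y : ℤ} (h0 : 0 ≤ y) (h1 : y ≤ n) :
    X μ s' η a n y = X μ s η a n y + ((lam μ s' - lam μ s) * n - (s' - s) * y) := by
  unfold X
  rw [W_tilt51 s s', Real.log_mul (Real.exp_pos _).ne' (W_pos η a h0 h1).ne', Real.log_exp]
  ring

/-! ### The event of a lane -/

open Classical in
/-- The finite set of sites of the lane. -/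
def Db51 (v b : ℝ) (M : ℕ) (a : Pt) : Finset Pt :=
  (Finset.Icc (a.1 + 1) (a.1 + M) ×ˢ Finset.Icc (a.2 - M) (a.2 + M)).filter fun p => p ∈ tb v a b

lemma mem_Db51 {v b : ℝ} {M : ℕ} {a p : Pt} : p ∈ Db51 v b M a ↔
    (a.1 < p.1 ∧ p.1 ≤ a.1 + M ∧ a.2 - M ≤ p.2 ∧ p.2 ≤ a.2 + M) ∧ p ∈ tb v a b := by
  classical
  unfold Db51
  rw [Finset.mem_filter, Finset.mem_product, Finset.mem_Icc, Finset.mem_Icc]
  constructor
  · rintro ⟨⟨⟨h1, h2⟩, h3, h4⟩, h5⟩
    exact ⟨⟨by omega, h2, h3, h4⟩, h5⟩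
  · rintro ⟨⟨h1, h2, h3, h4⟩, h5⟩
    exact ⟨⟨⟨by omega, h2⟩, h3, h4⟩, h5⟩

lemma Db51_rows (v b : ℝ) (M : ℕ) (a : Pt) : (Db51 v b M a : Set Pt) ⊆ rows a.1 (a.1 + M) := by
  intro p hp
  have h := (mem_Db51.1 hp).1
  exact ⟨h.1, h.2.1⟩

lemma WR_dep51 (s v b : ℝ) (M : ℕ) (k : ℤ) (a : Pt) :
    DependsOn (fun η : Env => WR μ s (tb v a b) η a M k) (Db51 v b M a : Set Pt) := by
  by_cases hk : 0 ≤ k ∧ k ≤ M
  · intro η η' h
    refine WR_dep (μ := μ) (s := s) (tb v a b) a M k fun p hp => h p ?_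
    obtain ⟨⟨h1, h2, h3, h4, h5, h6⟩, h7⟩ := hp
    refine mem_Db51.2 ⟨⟨h1, h2, by omega, by omega⟩, h7⟩
  · intro η η' _
    show WR μ s (tb v a b) η a M k = WR μ s (tb v a b) η' a M k
    unfold WR
    rw [Zr_eq_zero _ _ _ hk, Zr_eq_zero _ _ _ hk]

/-- The indicator of the event of the lane which starts at `a`. -/
def Gb51 (μ : Measure ℝ) (s b Y : ℝ) (M : ℕ) (k : ℤ) (a : Pt) (η : Env) : ℝ := io (EvH μ s b Y M k a η)

lemma measSet_EvH51 (s b Y : ℝ) (M : ℕ) (k : ℤ) (a : Pt) : MeasurableSet {η | EvH μ s b Y M k a η} :=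
  measurableSet_le measurable_const (Real.measurable_log.comp (measurable_WR _ _ _ _))

lemma Gb51_meas (s b Y : ℝ) (M : ℕ) (k : ℤ) (a : Pt) : Measurable (Gb51 μ s b Y M k a) :=
  measurable_io (measSet_EvH51 s b Y M k a)

lemma Gb51_nonneg (s b Y : ℝ) (M : ℕ) (k : ℤ) (a : Pt) (η : Env) : 0 ≤ Gb51 μ s b Y M k a η := io_nonneg _

lemma Gb51_le_one (s b Y : ℝ) (M : ℕ) (k : ℤ) (a : Pt) (η : Env) : Gb51 μ s b Y M k a η ≤ 1 := io_le_one _

lemma Gb51_01 (s b Y : ℝ) (M : ℕ) (k : ℤ) (a : Pt) (η : Env) :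
    Gb51 μ s b Y M k a η = 0 ∨ Gb51 μ s b Y M k a η = 1 := by
  by_cases h : EvH μ s b Y M k a η
  · exact Or.inr (io_of h)
  · exact Or.inl (io_not h)

lemma Gb51_dep (s b Y : ℝ) (M : ℕ) (k : ℤ) (a : Pt) :
    DependsOn (Gb51 μ s b Y M k a) (Db51 (sl μ s) b M a : Set Pt) := by
  intro η η' h
  have e := WR_dep51 (μ := μ) s (sl μ s) b M k a h
  have e2 : WR μ s (tb (sl μ s) a b) η a M k = WR μ s (tb (sl μ s) a b) η' a M k := e
  show io (Y ≤ Real.log (WR μ s (tb (sl μ s) a b) η a M k)) =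
    io (Y ≤ Real.log (WR μ s (tb (sl μ s) a b) η' a M k))
  rw [e2]

lemma EvH_pos51 {s b Y : ℝ} (hY : 0 < Y) {M : ℕ} {k : ℤ} {a : Pt} {η : Env} (h : EvH μ s b Y M k a η) :
    0 < WR μ s (tb (sl μ s) a b) η a M k := by
  rcases (WR_nonneg (μ := μ) (s := s) (tb (sl μ s) a b) η a M k).eq_or_lt with h0 | h0
  · unfold EvH at h
    rw [← h0, Real.log_zero] at h
    linarith
  · exact h0

/-- On the event the displacement of the lane has luck at least `Y`. -/
lemma Gb51_luck {s b Y : ℝ} (hY : 0 < Y) {M : ℕ} {k : ℤ} {a : Pt} {η : Env} (h : Gb51 μ s b Y M k a η ≠ 0) :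
    Y ≤ -X μ s η a M k := by
  have h1 : EvH μ s b Y M k a η := by
    by_contra hc
    exact h (io_not hc)
  unfold X
  rw [neg_neg]
  exact le_trans h1 (Real.log_le_log (EvH_pos51 hY h1) (WR_le_W _ _ _ _ _))

lemma tb_sh51 (v : ℝ) (a : Pt) (b : ℝ) : {p | p + a ∈ tb v a b} = tb v 0 b := by
  ext p
  simp only [tb, Set.mem_ofPred_eq, Prod.fst_add, Prod.snd_add, Prod.fst_zero, Prod.snd_zero,
    add_sub_cancel_right, sub_zero]

/-- Lanes which start in the same row far from each other are disjoint. -/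
lemma Db51_disj {v b : ℝ} {M : ℕ} {a a' : Pt} (h1 : a.1 = a'.1) (h2 : 2 * b < |((a.2 - a'.2 : ℤ) : ℝ)|) :
    Disjoint (Db51 v b M a : Set Pt) (Db51 v b M a' : Set Pt) := by
  rw [Set.disjoint_left]
  intro p hp hp'
  have h3 : |((p.2 - a.2 : ℤ) : ℝ) - v * ((p.1 - a.1 : ℤ) : ℝ)| ≤ b := (mem_Db51.1 hp).2
  have h4 : |((p.2 - a'.2 : ℤ) : ℝ) - v * ((p.1 - a'.1 : ℤ) : ℝ)| ≤ b := (mem_Db51.1 hp').2
  rw [h1] at h3
  have h5 : ((a.2 - a'.2 : ℤ) : ℝ) =
      (((p.2 - a'.2 : ℤ) : ℝ) - v * ((p.1 - a'.1 : ℤ) : ℝ)) -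
        (((p.2 - a.2 : ℤ) : ℝ) - v * ((p.1 - a'.1 : ℤ) : ℝ)) := by
    push_cast
    ring
  rw [h5] at h2
  have h6 := abs_sub (((p.2 - a'.2 : ℤ) : ℝ) - v * ((p.1 - a'.1 : ℤ) : ℝ))
    (((p.2 - a.2 : ℤ) : ℝ) - v * ((p.1 - a'.1 : ℤ) : ℝ))
  linarith

variable [IsProbabilityMeasure μ]

/-- All the lanes have the same probability. -/
lemma Gb51_int (s b Y : ℝ) (M : ℕ) (k : ℤ) (a : Pt) :
    ∫ η, Gb51 μ s b Y M k a η ∂(law μ) = (law μ).real {η | EvH μ s b Y M k 0 η} := by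
  have h1 := mp_integral (mp_sh (μ := μ) a) (F := Gb51 μ s b Y M k 0)
    (Gb51_meas s b Y M k 0).aestronglyMeasurable
  have h2 : ∀ η, Gb51 μ s b Y M k 0 (sh a η) = Gb51 μ s b Y M k a η := by
    intro η
    have e := WR_sh (μ := μ) (s := s) (tb (sl μ s) a b) η 0 a M k
    rw [tb_sh51, zero_add] at e
    show io (Y ≤ Real.log (WR μ s (tb (sl μ s) 0 b) (sh a η) 0 M k)) =
      io (Y ≤ Real.log (WR μ s (tb (sl μ s) a b) η a M k))
    rw [e]
  simp only [h2] at h1
  rw [h1]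
  have h3 : ∀ η, Gb51 μ s b Y M k 0 η = Set.indicator {η | EvH μ s b Y M k 0 η} (fun _ => (1 : ℝ)) η := by
    intro η
    by_cases h : EvH μ s b Y M k 0 η
    · rw [Set.indicator_of_mem (show η ∈ {η | EvH μ s b Y M k 0 η} from h)]
      exact io_of h
    · rw [Set.indicator_of_notMem (show η ∉ {η | EvH μ s b Y M k 0 η} from h)]
      exact io_not h
  simp only [h3]
  rw [integral_indicator (measSet_EvH51 s b Y M k 0)]
  simp

/-- Bounded measurable functions are integrable. -/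
theorem bint51 {f : Env → ℝ} (hm : Measurable f) {B : ℝ} (hB : ∀ η, |f η| ≤ B) : Integrable f (law μ) :=
  Integrable.of_bound hm.aestronglyMeasurable B (Filter.Eventually.of_forall fun η => by
    rw [Real.norm_eq_abs]
    exact hB η)

/-- The second moment of a sum of pairwise independent indicators. -/
theorem sum_sq51 {J : ℕ} {G : ℕ → Env → ℝ} {q : ℝ} (hm : ∀ j, Measurable (G j)) (h0 : ∀ j η, 0 ≤ G j η)
    (h1 : ∀ j η, G j η ≤ 1) (hq : ∀ j, ∫ η, G j η ∂(law μ) = q)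
    (hij : ∀ i ∈ Finset.range J, ∀ j ∈ Finset.range J, i ≠ j → ∫ η, G i η * G j η ∂(law μ) = q * q) :
    ∫ η, (∑ j ∈ Finset.range J, G j η) ^ 2 ∂(law μ) ≤ J * q + (J * q) ^ 2 := by
  have hb : ∀ j η, |G j η| ≤ 1 := fun j η => by rw [abs_of_nonneg (h0 j η)]; exact h1 j η
  have hG : ∀ j, Integrable (G j) (law μ) := fun j => bint51 (hm j) (hb j)
  have hGG : ∀ i j, Integrable (fun η => G i η * G j η) (law μ) := fun i j =>
    bint51 ((hm i).mul (hm j)) (B := 1) fun η => by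
      rw [abs_mul]
      exact mul_le_one₀ (hb i η) (abs_nonneg _) (hb j η)
  have e1 : ∀ η, (∑ j ∈ Finset.range J, G j η) ^ 2 =
      ∑ i ∈ Finset.range J, ∑ j ∈ Finset.range J, G i η * G j η := fun η => by
    rw [sq, Finset.sum_mul_sum]
  simp_rw [e1]
  rw [integral_finsetSum _ fun i _ => integrable_finsetSum _ fun j _ => hGG i j]
  have hq0 : 0 ≤ q := by rw [← hq 0]; exact integral_nonneg fun η => h0 0 η
  have h2 : ∀ i ∈ Finset.range J, ∫ η, ∑ j ∈ Finset.range J, G i η * G j η ∂(law μ) ≤ q + J * (q * q) := by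
    intro i hi
    rw [integral_finsetSum _ fun j _ => hGG i j]
    have h3 : ∀ j ∈ Finset.range J, ∫ η, G i η * G j η ∂(law μ) ≤ (if i = j then q else 0) + q * q := by
      intro j hj
      by_cases h : i = j
      · subst h
        rw [if_pos rfl]
        have h4 : ∫ η, G i η * G i η ∂(law μ) ≤ ∫ η, G i η ∂(law μ) :=
          integral_mono (hGG i i) (hG i) fun η => mul_le_of_le_one_left (h0 i η) (h1 i η)
        rw [hq] at h4
        have := mul_nonneg hq0 hq0
        linarith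
      · rw [if_neg h, zero_add, hij i hi j hj h]
    refine (Finset.sum_le_sum h3).trans (le_of_eq ?_)
    rw [Finset.sum_add_distrib, Finset.sum_ite_eq, if_pos hi, Finset.sum_const, card_range, nsmul_eq_mul]
  refine (Finset.sum_le_sum h2).trans (le_of_eq ?_)
  rw [Finset.sum_const, card_range, nsmul_eq_mul]
  ring

/-- **Lucky lanes.** -/
theorem lanesH51 (hμ : Pool.Agent.W_7d29a1_h47.EM μ) {s s' b Y p : ℝ} {M n J : ℕ} {k : ℤ} (hk0 : 0 ≤ k) (hkM : k ≤ M)
    {pos : ℕ → ℤ} (hpos0 : ∀ j ∈ Finset.range J, 0 ≤ pos j ∧ pos j ≤ n)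
    (hpos : ∀ i ∈ Finset.range J, ∀ j ∈ Finset.range J, i ≠ j → 2 * b < |((pos i - pos j : ℤ) : ℝ)|)
    (hp : 0 < p) (hpE : p ≤ (law μ).real {η | EvH μ s b Y M k 0 η}) (hJ : 4 ≤ J * p) {A A' Y' : ℝ} {y0 : ℤ}
    (hy00 : 0 ≤ y0) (hy0M : y0 ≤ M)
    (hA : ∀ j ∈ Finset.range J, ep μ s' n (pos j) ≤ A) (hA' : ep μ s' M y0 ≤ A') (hY0 : 0 ≤ Y')
    (hY' : Y' ≤ Y - |(lam μ s' - lam μ s) * M - (s' - s) * k|) :
    Y' * (3 / 4) ≤ A + A' := by
  classical
  have hJ0 : 0 < J := by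
    rcases Nat.eq_zero_or_pos J with h | h
    · rw [h] at hJ
      norm_num at hJ
    · exact h
  have h0J : (0 : ℕ) ∈ Finset.range J := Finset.mem_range.2 hJ0
  have hA0 : 0 ≤ A := le_trans (ep_nonneg _ _) (hA 0 h0J)
  have hA'0 : 0 ≤ A' := le_trans (ep_nonneg _ _) hA'
  by_cases hYp : Y ≤ 0
  · have h1 := abs_nonneg ((lam μ s' - lam μ s) * M - (s' - s) * k)
    have h2 : Y' = 0 := le_antisymm (by linarith) hY0
    rw [h2]
    linarith
  rw [not_le] at hYp
  obtain ⟨a, ha⟩ : ∃ a : ℕ → Pt, ∀ j, a j = ((n : ℤ), pos j) := ⟨_, fun _ => rfl⟩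
  obtain ⟨G, hG⟩ : ∃ G : ℕ → Env → ℝ, ∀ j, G j = Gb51 μ s b Y M k (a j) := ⟨_, fun _ => rfl⟩
  obtain ⟨q, hq⟩ : ∃ q, q = (law μ).real {η | EvH μ s b Y M k 0 η} := ⟨_, rfl⟩
  have hq0 : 0 < q := by rw [hq]; exact hp.trans_le hpE
  have hGm : ∀ j, Measurable (G j) := fun j => by rw [hG]; exact Gb51_meas _ _ _ _ _ _
  have hG0 : ∀ j η, 0 ≤ G j η := fun j η => by rw [hG]; exact Gb51_nonneg _ _ _ _ _ _ _
  have hG1 : ∀ j η, G j η ≤ 1 := fun j η => by rw [hG]; exact Gb51_le_one _ _ _ _ _ _ _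
  have hGq : ∀ j, ∫ η, G j η ∂(law μ) = q := fun j => by rw [hG, hq]; exact Gb51_int _ _ _ _ _ _
  have hGb : ∀ j η, |G j η| ≤ 1 := fun j η => by rw [abs_of_nonneg (hG0 j η)]; exact hG1 j η
  have hGd : ∀ j, DependsOn (G j) (Db51 (sl μ s) b M (a j) : Set Pt) := fun j => by rw [hG]; exact Gb51_dep _ _ _ _ _ _
  have hij : ∀ i ∈ Finset.range J, ∀ j ∈ Finset.range J, i ≠ j → ∫ η, G i η * G j η ∂(law μ) = q * q := by
    intro i hi j hj h
    rw [integral_indep (hGm i) (hGm j) (hGd i) (hGd j) (Db51_disj (by rw [ha, ha]) (by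
      rw [ha, ha]
      exact hpos i hi j hj h)), hGq, hGq]
  obtain ⟨S, hS⟩ : ∃ S : Env → ℝ, ∀ η, S η = ∑ j ∈ Finset.range J, G j η := ⟨_, fun _ => rfl⟩
  have hSe : S = fun η => ∑ j ∈ Finset.range J, G j η := funext hS
  have hSm : Measurable S := by rw [hSe]; exact Finset.measurable_sum _ fun j _ => hGm j
  have hS0 : ∀ η, 0 ≤ S η := fun η => by rw [hS]; exact Finset.sum_nonneg fun j _ => hG0 j η
  have hSJ : ∀ η, S η ≤ J := fun η => by
    rw [hS]
    refine (Finset.sum_le_sum fun j _ => hG1 j η).trans (le_of_eq ?_)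
    rw [Finset.sum_const, card_range, nsmul_eq_mul, mul_one]
  -- the values of the indicators
  have hG01 : ∀ j η, G j η = 0 ∨ G j η = 1 := by
    intro j η
    rw [hG]
    exact Gb51_01 _ _ _ _ _ _ _
  have hS01 : ∀ η, S η = 0 ∨ 1 ≤ S η := by
    intro η
    by_cases h : ∃ j ∈ Finset.range J, G j η = 1
    · obtain ⟨j, hj, hj1⟩ := h
      right
      rw [hS, ← hj1]
      exact Finset.single_le_sum (f := fun j => G j η) (fun i _ => hG0 i η) hj
    · left
      push Not at h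
      rw [hS]
      exact Finset.sum_eq_zero fun j hj => (hG01 j η).resolve_right (h j hj)
  -- the weights
  obtain ⟨w, hw⟩ : ∃ w : ℕ → Env → ℝ, ∀ j η, w j η = G j η / max 1 (S η) := ⟨_, fun _ _ => rfl⟩
  have hmax : ∀ η, 0 < max 1 (S η) := fun η => lt_max_of_lt_left one_pos
  have hwm : ∀ j, Measurable (w j) := fun j => by
    rw [show w j = fun η => G j η / max 1 (S η) from funext (hw j)]
    exact (hGm j).div (measurable_const.max hSm)
  have hw0 : ∀ j η, 0 ≤ w j η := fun j η => by rw [hw]; exact div_nonneg (hG0 j η) (hmax η).le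
  obtain ⟨W', hW⟩ : ∃ W' : Env → ℝ, ∀ η, W' η = ∑ j ∈ Finset.range J, w j η := ⟨_, fun _ => rfl⟩
  have hWe : W' = fun η => ∑ j ∈ Finset.range J, w j η := funext hW
  have hWS : ∀ η, W' η = S η / max 1 (S η) := fun η => by
    rw [hW, hS, Finset.sum_div]
    exact Finset.sum_congr rfl fun j _ => by rw [hw, hS]
  have hW0 : ∀ η, 0 ≤ W' η := fun η => by rw [hW]; exact Finset.sum_nonneg fun j _ => hw0 j η
  have hW1 : ∀ η, W' η ≤ 1 := fun η => by
    rw [hWS, div_le_one (hmax η)]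
    exact le_max_right _ _
  have hw1 : ∀ j ∈ Finset.range J, ∀ η, w j η ≤ 1 := fun j hj η => by
    refine le_trans ?_ (hW1 η)
    rw [hW]
    exact Finset.single_le_sum (f := fun j => w j η) (fun i _ => hw0 i η) hj
  have hWm : Measurable W' := by rw [hWe]; exact Finset.measurable_sum _ fun j _ => hwm j
  have hWi : Integrable W' (law μ) := bint51 hWm (B := 1) fun η => by rw [abs_of_nonneg (hW0 η)]; exact hW1 η
  have hwi : ∀ j ∈ Finset.range J, Integrable (w j) (law μ) := fun j hj =>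
    bint51 (hwm j) (B := 1) fun η => by rw [abs_of_nonneg (hw0 j η)]; exact hw1 j hj η
  -- the probability of a lucky lane
  have hWlow : 3 / 4 ≤ ∫ η, W' η ∂(law μ) := by
    obtain ⟨m, hm⟩ : ∃ m : ℝ, m = J * q := ⟨_, rfl⟩
    have hJR : (0 : ℝ) < J := by exact_mod_cast hJ0
    have hm4 : 4 ≤ m := by
      rw [hm]
      refine hJ.trans (mul_le_mul_of_nonneg_left ?_ hJR.le)
      rw [hq]
      exact hpE
    have hm0 : 0 < m := by linarith
    have hSi : Integrable S (law μ) := bint51 hSm (B := J) fun η => by rw [abs_of_nonneg (hS0 η)]; exact hSJ η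
    have hS2i : Integrable (fun η => S η ^ 2) (law μ) := bint51 (hSm.pow_const 2) (B := (J : ℝ) ^ 2) fun η => by
      rw [abs_of_nonneg (sq_nonneg _)]
      exact pow_le_pow_left₀ (hS0 η) (hSJ η) 2
    have hpt : ∀ η, 1 - (S η ^ 2 - 2 * m * S η + m ^ 2) / m ^ 2 ≤ W' η := by
      intro η
      rcases hS01 η with h | h
      · rw [h]
        have : (0 : ℝ) ^ 2 - 2 * m * 0 + m ^ 2 = m ^ 2 := by ring
        rw [this, div_self (by positivity), sub_self]
        exact hW0 η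
      · rw [hWS, max_eq_right h, div_self (by linarith)]
        have : 0 ≤ (S η ^ 2 - 2 * m * S η + m ^ 2) / m ^ 2 := by
          refine div_nonneg ?_ (by positivity)
          nlinarith [sq_nonneg (S η - m)]
        linarith
    have i1 : Integrable (fun η => 1 - (S η ^ 2 - 2 * m * S η + m ^ 2) / m ^ 2) (law μ) :=
      (integrable_const 1).sub (((hS2i.sub (hSi.const_mul (2 * m))).add (integrable_const (m ^ 2))).div_const _)
    have h1 := integral_mono i1 hWi hpt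
    have i2 : Integrable (fun η => S η ^ 2 - 2 * m * S η) (law μ) := hS2i.sub (hSi.const_mul (2 * m))
    have i3 : Integrable (fun η => S η ^ 2 - 2 * m * S η + m ^ 2) (law μ) := i2.add (integrable_const _)
    have e1 : ∫ η, (1 - (S η ^ 2 - 2 * m * S η + m ^ 2) / m ^ 2) ∂(law μ) =
        1 - (∫ η, S η ^ 2 ∂(law μ) - 2 * m * ∫ η, S η ∂(law μ) + m ^ 2) / m ^ 2 := by
      rw [integral_sub (integrable_const 1) (i3.div_const _), integral_div, integral_add i2 (integrable_const _),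
        integral_sub hS2i (hSi.const_mul _), integral_const_mul, integral_const, integral_const, probReal_univ,
        one_smul, one_smul]
    have e2 : ∫ η, S η ∂(law μ) = m := by
      rw [hSe, integral_finsetSum _ fun j _ => bint51 (hGm j) (hGb j), Finset.sum_congr rfl fun j _ => hGq j,
        Finset.sum_const, card_range, nsmul_eq_mul, hm]
    have e3 : ∫ η, S η ^ 2 ∂(law μ) ≤ m + m ^ 2 := by
      have := sum_sq51 (μ := μ) (J := J) hGm hG0 hG1 hGq hij
      rw [hm, hSe]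
      exact this
    rw [e1, e2] at h1
    have h2 : (∫ η, S η ^ 2 ∂(law μ) - 2 * m * m + m ^ 2) / m ^ 2 ≤ 1 / 4 := by
      rw [div_le_iff₀ (by positivity)]
      nlinarith
    linarith
  -- the rows
  have hdj : Disjoint (rows (n : ℤ) ((n : ℤ) + M)) (rows (0 : Pt).1 ((0 : Pt).1 + n)) := by
    refine (rows_disj ?_).symm
    simp
  have hGdep : ∀ j, DependsOn (G j) (rows (n : ℤ) ((n : ℤ) + M)) := by
    intro j η η' h
    refine hGd j fun p hp => h p ?_
    have := Db51_rows _ _ _ _ hp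
    rwa [ha] at this
  have hSdep : DependsOn S (rows (n : ℤ) ((n : ℤ) + M)) := by
    intro η η' h
    rw [hS, hS]
    exact Finset.sum_congr rfl fun j _ => hGdep j h
  have hwdep : ∀ j, DependsOn (w j) (rows (n : ℤ) ((n : ℤ) + M)) := by
    intro j η η' h
    rw [hw, hw, hGdep j h, hSdep h]
  have hWdep : DependsOn (fun η => 1 - W' η) (rows (n : ℤ) ((n : ℤ) + M)) := by
    intro η η' h
    show 1 - W' η = 1 - W' η'
    rw [hWS, hWS, hSdep h]
  obtain ⟨P, hP⟩ : ∃ P : ℕ → Env → ℝ, ∀ j η, P j η = max (X μ s' η 0 n (pos j)) 0 := ⟨_, fun _ _ => rfl⟩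
  have hPe : ∀ j, P j = fun η => max (X μ s' η 0 n (pos j)) 0 := fun j => funext (hP j)
  have hPm : ∀ j, Measurable (P j) := fun j => by rw [hPe]; exact (measurable_X 0 n _).max measurable_const
  have hP0 : ∀ j η, 0 ≤ P j η := fun j η => by rw [hP]; exact le_max_right _ _
  have hPi : ∀ j ∈ Finset.range J, Integrable (P j) (law μ) := fun j hj => by
    rw [hPe]
    exact Xp_int hμ 0 (hpos0 j hj).1 (hpos0 j hj).2
  have hPA : ∀ j ∈ Finset.range J, ∫ η, P j η ∂(law μ) ≤ A := fun j hj => by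
    rw [hPe]
    exact hA j hj
  have hPdep : ∀ j, DependsOn (P j) (rows (0 : Pt).1 ((0 : Pt).1 + n)) := by
    intro j η η' h
    rw [hP, hP]
    rw [show X μ s' η 0 n (pos j) = X μ s' η' 0 n (pos j) from X_dep_rows (0 : Pt) n (pos j) h]
  obtain ⟨Z, hZ⟩ : ∃ Z : Env → ℝ, ∀ η, Z η = max (X μ s' η (a 0) M y0) 0 := ⟨_, fun _ => rfl⟩
  have hZe : Z = fun η => max (X μ s' η (a 0) M y0) 0 := funext hZ
  have hZi : Integrable Z (law μ) := by rw [hZe]; exact Xp_int hμ _ hy00 hy0M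
  have hZ0 : ∀ η, 0 ≤ Z η := fun η => by rw [hZ]; exact le_max_right _ _
  have hZA : ∫ η, Z η ∂(law μ) ≤ A' := by
    rw [hZe, integral_Xp (a 0) M y0]
    exact hA'
  -- pointwise
  have hXl : ∀ j η, G j η ≠ 0 → Y' ≤ -X μ s' η (a j) M k := by
    intro j η h
    rw [hG] at h
    have h1 := Gb51_luck hYp h
    rw [X_tilt51 s s' η (a j) hk0 hkM]
    have h2 := le_abs_self ((lam μ s' - lam μ s) * M - (s' - s) * k)
    linarith
  have hV : ∀ j ∈ Finset.range J, ∀ η, -P j η - X μ s' η (a j) M k ≤ V μ s' η 0 (n + M) := by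
    intro j hj η
    obtain ⟨q0, q1⟩ := hpos0 j hj
    have h1 := X_add_le (μ := μ) (s := s') η 0 q0 q1 hk0 hkM
    have h2 := neg_X_le_V (μ := μ) (s := s') η 0 (n := n + M) (y := pos j + k) (by omega) (by push_cast; omega)
    have h3 : (((0 : Pt).1 + (n : ℤ), (0 : Pt).2 + pos j) : Pt) = a j := by rw [ha]; simp
    rw [h3] at h1
    have h4 : X μ s' η 0 n (pos j) ≤ P j η := by rw [hP]; exact le_max_left _ _
    linarith
  have hV0 : ∀ η, -P 0 η - Z η ≤ V μ s' η 0 (n + M) := by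
    intro η
    obtain ⟨q0, q1⟩ := hpos0 0 h0J
    have h1 := X_add_le (μ := μ) (s := s') η 0 q0 q1 hy00 hy0M
    have h2 := neg_X_le_V (μ := μ) (s := s') η 0 (n := n + M) (y := pos 0 + y0) (by omega) (by push_cast; omega)
    have h3 : (((0 : Pt).1 + (n : ℤ), (0 : Pt).2 + pos 0) : Pt) = a 0 := by rw [ha]; simp
    rw [h3] at h1
    have h4 : X μ s' η 0 n (pos 0) ≤ P 0 η := by rw [hP]; exact le_max_left _ _
    have h5 : X μ s' η (a 0) M y0 ≤ Z η := by rw [hZ]; exact le_max_left _ _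
    linarith
  have hpt : ∀ η, Y' * W' η - ∑ j ∈ Finset.range J, w j η * P j η - (1 - W' η) * P 0 η - Z η ≤ V μ s' η 0 (n + M) := by
    intro η
    have h1 : ∑ j ∈ Finset.range J, w j η * (Y' - P j η) ≤ ∑ j ∈ Finset.range J, w j η * V μ s' η 0 (n + M) := by
      refine Finset.sum_le_sum fun j hj => ?_
      by_cases h : G j η = 0
      · have : w j η = 0 := by rw [hw, h, zero_div]
        rw [this, zero_mul, zero_mul]
      · refine mul_le_mul_of_nonneg_left ?_ (hw0 j η)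
        have h2 := hXl j η h
        have h3 := hV j hj η
        linarith
    rw [← Finset.sum_mul, ← hW] at h1
    have h2 : ∑ j ∈ Finset.range J, w j η * (Y' - P j η) = Y' * W' η - ∑ j ∈ Finset.range J, w j η * P j η := by
      rw [hW, Finset.mul_sum, ← Finset.sum_sub_distrib]
      exact Finset.sum_congr rfl fun j _ => by ring
    rw [h2] at h1
    have h3 : (1 - W' η) * (-P 0 η - Z η) ≤ (1 - W' η) * V μ s' η 0 (n + M) :=
      mul_le_mul_of_nonneg_left (hV0 η) (by linarith [hW1 η])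
    have h4 : 0 ≤ W' η * Z η := mul_nonneg (hW0 η) (hZ0 η)
    nlinarith
  -- integrals
  have iwP : ∀ j ∈ Finset.range J, Integrable (fun η => w j η * P j η) (law μ) := fun j hj =>
    (hPi j hj).bdd_mul (c := 1) (hwm j).aestronglyMeasurable (Filter.Eventually.of_forall fun η => by
      rw [Real.norm_eq_abs, abs_of_nonneg (hw0 j η)]
      exact hw1 j hj η)
  have iWP : Integrable (fun η => (1 - W' η) * P 0 η) (law μ) :=
    (hPi 0 h0J).bdd_mul (c := 1) (measurable_const.sub hWm).aestronglyMeasurable (Filter.Eventually.of_forall fun η => by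
      rw [Real.norm_eq_abs, abs_of_nonneg (by linarith [hW1 η])]
      linarith [hW0 η])
  have i1 : Integrable (fun η => Y' * W' η - ∑ j ∈ Finset.range J, w j η * P j η) (law μ) :=
    (hWi.const_mul Y').sub (integrable_finsetSum _ iwP)
  have i2 : Integrable (fun η => Y' * W' η - ∑ j ∈ Finset.range J, w j η * P j η - (1 - W' η) * P 0 η) (law μ) :=
    i1.sub iWP
  have h1 := integral_mono (i2.sub hZi) (Sub.integrable hμ (Sub_V 0 (n + M))) hpt
  have e0 : ∫ η, ((fun η => Y' * W' η - ∑ j ∈ Finset.range J, w j η * P j η - (1 - W' η) * P 0 η) - Z) η ∂(law μ) =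
      Y' * ∫ η, W' η ∂(law μ) - ∑ j ∈ Finset.range J, ∫ η, w j η * P j η ∂(law μ) - ∫ η, (1 - W' η) * P 0 η ∂(law μ) -
        ∫ η, Z η ∂(law μ) := by
    have e1 := integral_sub i2 hZi
    simp only [Pi.sub_apply] at e1 ⊢
    rw [e1, integral_sub i1 iWP, integral_sub (hWi.const_mul Y') (integrable_finsetSum _ iwP), integral_const_mul,
      integral_finsetSum _ iwP]
  rw [e0] at h1
  have h2 : ∀ j ∈ Finset.range J, ∫ η, w j η * P j η ∂(law μ) ≤ A * ∫ η, w j η ∂(law μ) := by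
    intro j hj
    rw [integral_indep (hwm j) (hPm j) (hwdep j) (hPdep j) hdj, mul_comm]
    exact mul_le_mul_of_nonneg_right (hPA j hj) (integral_nonneg (hw0 j))
  have h3 : ∑ j ∈ Finset.range J, ∫ η, w j η * P j η ∂(law μ) ≤ A * ∫ η, W' η ∂(law μ) := by
    refine (Finset.sum_le_sum h2).trans (le_of_eq ?_)
    rw [← Finset.mul_sum, hWe, integral_finsetSum _ hwi]
  have h4 : ∫ η, (1 - W' η) * P 0 η ∂(law μ) ≤ A * (1 - ∫ η, W' η ∂(law μ)) := by
    have hWm1 : Measurable fun η => 1 - W' η := measurable_const.sub hWm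
    rw [integral_indep hWm1 (hPm 0) hWdep (hPdep 0) hdj,
      integral_sub (integrable_const 1) hWi, integral_const, probReal_univ, one_smul, mul_comm]
    refine mul_le_mul_of_nonneg_right (hPA 0 h0J) ?_
    have : ∫ η, W' η ∂(law μ) ≤ ∫ _, (1 : ℝ) ∂(law μ) := integral_mono hWi (integrable_const 1) hW1
    rw [integral_const, probReal_univ, one_smul] at this
    linarith
  have h5 := integral_V_nonpos (μ := μ) hμ s' (n + M)
  have h6 : Y' * (3 / 4) ≤ Y' * ∫ η, W' η ∂(law μ) := mul_le_mul_of_nonneg_left hWlow hY0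
  linarith

end

end Pool.Agent.W_7d29a1_H
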