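import Pool.Agent.W_7d29a1_H.LogH18B

/-!
MP_7d29a1_pr, TRACK H (all tilts), (H6): the units tend to infinity and are larger than any multiple of the logarithm of the time,
uniformly for the tilts of a bounded set. (helper18)
-/

set_option autoImplicit false

namespace Pool.Agent.W_7d29a1_H

open MeasureTheory ProbabilityTheory Filter Topology Set
open Pool.Agent.W_7d29a1_F Pool.Agent.W_7d29a1_h4g

variable {μ : Measure ℝ} [IsProbabilityMeasure μ] {H δ : ℝ} {A : Set ℝ}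

/-- The unit for arbitrary reference displacements, uniformly for bounded tilts. -/
theorem EU_logH18 (hμ : Pool.Agent.W_7d29a1_h47.EM μ) (hnd : Pool.Agent.W_7d29a1_h47.Nondeg μ) (H K : ℝ) :
    ∃ n0 : ℕ, ∀ s : ℝ, |s| ≤ H → ∀ z : ℕ → ℤ, (∀ m, 0 ≤ z m ∧ z m ≤ m) → ∀ n : ℕ, n0 ≤ n →
      K * Real.log n ≤ EU μ s z n - 1 := by
  obtain ⟨n0, h0⟩ := Pool.Agent.W_7d29a1_h18.cost_logU hμ hnd H K
  exact ⟨n0, fun s hs z hz n hn => h0 s hs n hn z _ (fun m _ => hz m) fun m hm => ref_le_EU hm⟩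

/-- **(LogG)** for every bounded set of tilts (`s`, `|s| ≤ H`). -/
theorem EE_logH18 (hμ : Pool.Agent.W_7d29a1_h47.EM μ) (hnd : Pool.Agent.W_7d29a1_h47.Nondeg μ) (H K : ℝ) :
    ∃ n0 : ℕ, ∀ s : ℝ, |s| ≤ H → ∀ n : ℕ, n0 ≤ n → K * Real.log n ≤ EE μ s n := by
  obtain ⟨n0, h0⟩ := EU_logH18 hμ hnd H K
  refine ⟨n0, fun s hs n hn => ?_⟩
  have h1 := h0 s hs (zs μ s) (fun m => zs_mem m) n hn
  unfold EE
  linarith

/-- The units are larger than any multiple of the logarithm, uniformly in the tilt. -/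
theorem Dirs.logg (hD : Dirs μ H δ A) : LogG μ A := by
  intro K
  obtain ⟨n0, h0⟩ := EE_logH18 hD.em hD.nd H K
  exact ⟨n0, fun s hs n hn => h0 s (hD.bd s hs) n hn⟩

/-- The units tend to infinity, uniformly in the tilt. -/
theorem Dirs.grow (hD : Dirs μ H δ A) : Grow μ A := by
  intro R
  obtain ⟨n0, h0⟩ := hD.logg 1
  have hlim : Tendsto (fun n : ℕ => Real.log (n : ℝ)) atTop atTop :=
    Real.tendsto_log_atTop.comp tendsto_natCast_atTop_atTop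
  obtain ⟨n1, hn1⟩ := eventually_atTop.1 (hlim.eventually_ge_atTop R)
  refine ⟨max n0 n1, fun s hs n hn => ?_⟩
  have h1 := h0 s hs n ((le_max_left _ _).trans hn)
  have h2 := hn1 n ((le_max_right _ _).trans hn)
  linarith

/-- (LogG) along the octaves. -/
theorem Dirs.logg_oct (hD : Dirs μ H δ A) (K : ℝ) : ∃ x0 : ℕ, ∀ s ∈ A, ∀ x : ℕ, x0 ≤ x → K * x ≤ EE μ s (2 ^ x) := by
  obtain ⟨n0, h0⟩ := hD.logg (K / Real.log 2)
  refine ⟨n0, fun s hs x hx => ?_⟩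
  have h1 := h0 s hs (2 ^ x) (hx.trans (Nat.lt_two_pow_self).le)
  have h2 : Real.log ((2 ^ x : ℕ) : ℝ) = x * Real.log 2 := by
    push_cast
    rw [Real.log_pow]
  have h3 := Real.log_pos one_lt_two
  have h4 : K / Real.log 2 * (x * Real.log 2) = K * x := by
    field_simp
  rw [h2, h4] at h1
  exact h1

/-- (LogG) for `gg`. -/
theorem Dirs.logg_gg (hD : Dirs μ H δ A) (K : ℝ) : ∃ x0 : ℕ, ∀ s ∈ A, ∀ x : ℕ, x0 ≤ x → K * x ≤ (2 : ℝ) ^ gg μ s x := by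
  obtain ⟨x0, h0⟩ := hD.logg_oct K
  refine ⟨x0, fun s hs x hx => ?_⟩
  have h1 := h0 s hs x hx
  unfold gg
  rw [Real.rpow_logb (by norm_num) (by norm_num) (EE_pos (2 ^ x))]
  exact h1

/-- `gg` tends to infinity, uniformly in the tilt. -/
theorem Dirs.grow_gg (hD : Dirs μ H δ A) (R : ℝ) : ∃ x0 : ℕ, ∀ s ∈ A, ∀ x : ℕ, x0 ≤ x → R ≤ gg μ s x := by
  obtain ⟨n0, h0⟩ := hD.grow ((2 : ℝ) ^ R)
  refine ⟨n0, fun s hs x hx => ?_⟩
  have h1 := h0 s hs (2 ^ x) (hx.trans (Nat.lt_two_pow_self).le)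
  unfold gg
  rw [Real.le_logb_iff_rpow_le one_lt_two (EE_pos (2 ^ x))]
  exact h1

end Pool.Agent.W_7d29a1_H
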