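import Pool.Agent.W_7d29a1_h18.PlE
import Pool.Agent.W_7d29a1_F.Final

/-!
MP_7d29a1_pr, TRACK H (all tilts), (H6): the lower bound by planting for the exponential moments of the luck, uniformly for bounded
tilts. The localisation around a fixed slope is stable in the tilt. (helper18)
-/

set_option autoImplicit false

namespace Pool.Agent.W_7d29a1_h18

open MeasureTheory ProbabilityTheory Finset Filter Topology
open Pool.Agent.W_7d29a1_h47 Pool.Agent.W_7d29a1_F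

noncomputable section

variable {μ : Measure ℝ} [IsProbabilityMeasure μ]

/-- Localisation at the times `i` with `n ^ (3 / 2) ≤ i ^ 2` around the slope of the tilt `k`, for all tilts near `k`. -/
theorem loc34U (hμ : EM μ) {k v : ℝ} (hv : |v| < 1) (hd : HasDerivAt (Lam μ) v k)
    (hs : SubG μ k v) {ε : ℝ} (hε : 0 < ε) :
    ∃ (r0 : ℝ) (n0 : ℕ), 0 < r0 ∧ ∀ h : ℝ, |h - k| ≤ r0 → ∀ n i : ℕ, n0 ≤ n → i ≤ n →
      (n : ℝ) * Real.sqrt n ≤ (i : ℝ) ^ 2 →
      ∫ g, Av g h 0 0 n (VlFar v ε i) ∂(Pool.Agent.W_7d29a1_h47.law μ) ≤ 1 / 2 := by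
  have h1 : ∀ᶠ x in 𝓝 k, |Lam μ x - Lam μ k - (x - k) * v| ≤ ε / 32 * |x - k| := by
    have h2 := hasDerivAt_iff_isLittleO.1 hd
    have h3 := h2.bound (show (0 : ℝ) < ε / 32 by linarith)
    simpa [smul_eq_mul] using h3
  obtain ⟨ρ, hρ, hρ1⟩ := Metric.eventually_nhds_iff.1 h1
  obtain ⟨u, hu⟩ : ∃ u : ℝ, u = ρ / 2 := ⟨_, rfl⟩
  have hu0 : 0 < u := by rw [hu]; linarith
  have huρ : u < ρ := by rw [hu]; linarith
  have hp : Lam μ (k + u) ≤ Lam μ k + u * v + ε / 32 * u := by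
    have h2 := hρ1 (y := k + u) (by
      rw [Real.dist_eq, add_sub_cancel_left, abs_of_pos hu0]; exact huρ)
    rw [add_sub_cancel_left, abs_of_pos hu0] at h2
    linarith [(abs_le.1 h2).2]
  have hm : Lam μ (k - u) ≤ Lam μ k - u * v + ε / 32 * u := by
    have h2 := hρ1 (y := k - u) (by
      rw [Real.dist_eq, sub_sub_cancel_left, abs_neg, abs_of_pos hu0]; exact huρ)
    rw [sub_sub_cancel_left, abs_neg, abs_of_pos hu0] at h2
    linarith [(abs_le.1 h2).2]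
  obtain ⟨δ, hδ⟩ : ∃ δ : ℝ, δ = u * ε / 8 := ⟨_, rfl⟩
  have hδ0 : 0 < δ := by rw [hδ]; positivity
  have hC := Cc_nonneg μ
  obtain ⟨τ, hτ⟩ : ∃ τ : ℝ, τ = min 1 (δ / (4 * (Cc μ + 1))) := ⟨_, rfl⟩
  have hτ0 : 0 < τ := by rw [hτ]; exact lt_min one_pos (by positivity)
  have hτ1 : τ ≤ 1 := by rw [hτ]; exact min_le_left _ _
  have hτ2 : Cc μ * τ ≤ δ / 4 := by
    have h1 : τ ≤ δ / (4 * (Cc μ + 1)) := by rw [hτ]; exact min_le_right _ _
    have h2 : τ * (4 * (Cc μ + 1)) ≤ δ := by rwa [le_div_iff₀ (by positivity)] at h1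
    nlinarith
  obtain ⟨κ, hκ⟩ : ∃ κ : ℝ, κ = τ * δ / 4 := ⟨_, rfl⟩
  have hκ0 : 0 < κ := by rw [hκ]; positivity
  -- the admissible end points
  have hpar := VlY_parity v
  have hvy := VlY_tendsto (v := v) (abs_lt.1 hv).2.le
  have q1 := ap_lower hμ hv hs hpar hvy (show (0 : ℝ) < δ / 8 by linarith)
  have q2 := ev_reach hv hpar hvy
  have q3 : ∀ᶠ i : ℕ in atTop, k * v - δ / 8 < k * ((VlY v i : ℝ) / i) :=
    (hvy.const_mul k).eventually_const_lt (by linarith)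
  have q4 : ∀ᶠ i : ℕ in atTop, (0 * (i : ℝ) + 2) * Real.exp (-(u * ε / 2 * i)) < 1 / 12 :=
    (VlC_small (by positivity) 0 2).eventually_lt_const (by norm_num)
  obtain ⟨i0, hi0⟩ := eventually_atTop.1 (q1.and (q2.and (q3.and (q4.and (eventually_gt_atTop 0)))))
  -- the size of `n`
  obtain ⟨n0, hn0⟩ := exists_nat_ge (max ((i0 : ℝ) ^ 2) (max 1 (480 * 8 / κ ^ 4)))
  refine ⟨δ / 8, n0, by positivity, fun h hk n i hn hin hi => ?_⟩
  have hnr : max ((i0 : ℝ) ^ 2) (max 1 (480 * 8 / κ ^ 4)) ≤ n := hn0.trans (by exact_mod_cast hn)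
  have hn1 : (1 : ℝ) ≤ n := ((le_max_left _ _).trans (le_max_right _ _)).trans hnr
  have hn2 : (i0 : ℝ) ^ 2 ≤ n := (le_max_left _ _).trans hnr
  have hn3 : 480 * 8 / κ ^ 4 ≤ (n : ℝ) := ((le_max_right _ _).trans (le_max_right _ _)).trans hnr
  have hsq1 : 1 ≤ Real.sqrt n := Real.one_le_sqrt.2 hn1
  have hsq2 : Real.sqrt n ^ 2 = n := Real.sq_sqrt (by linarith)
  have hni : (n : ℝ) ≤ (i : ℝ) ^ 2 := by
    have := mul_le_mul_of_nonneg_left hsq1 (show (0 : ℝ) ≤ n by linarith)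
    linarith
  have hi0i : i0 ≤ i := by
    have h2 : (i0 : ℝ) ^ 2 ≤ (i : ℝ) ^ 2 := hn2.trans hni
    have h3 : (i0 : ℝ) ≤ i := (pow_le_pow_iff_left₀ (Nat.cast_nonneg _) (Nat.cast_nonneg _) two_ne_zero).1 h2
    exact_mod_cast h3
  obtain ⟨r1, r2, r3, r4, r7⟩ := hi0 i hi0i
  have hi' : (0 : ℝ) < i := by exact_mod_cast r7
  have hi1 : (1 : ℝ) ≤ i := by exact_mod_cast r7
  have hin' : (i : ℝ) ≤ n := by exact_mod_cast hin
  have r3' : (k * v - δ / 8) * i ≤ k * VlY v i := by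
    have := mul_lt_mul_of_pos_right r3 hi'
    have e : k * ((VlY v i : ℝ) / i) * i = k * VlY v i := by
      field_simp
    rw [e] at this
    exact this.le
  have hYi : |(VlY v i : ℝ)| ≤ i := by
    have h2 := (Reach_iff.1 r2).1
    exact_mod_cast h2
  have hhk : k * (VlY v i : ℝ) - δ / 8 * i ≤ h * VlY v i := by
    have h2 : |(h - k) * (VlY v i : ℝ)| ≤ δ / 8 * i := by
      rw [abs_mul]
      exact mul_le_mul hk hYi (abs_nonneg _) (by positivity)
    have h3 := (abs_le.1 h2).1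
    have h4 : (h - k) * (VlY v i : ℝ) = h * VlY v i - k * VlY v i := by ring
    rw [h4] at h3
    linarith
  have l1 : Lam μ (h + u) ≤ Lam μ (k + u) + δ / 8 := by
    have h2 := Lam_lip hμ (h + u) (k + u)
    rw [show h + u - (k + u) = h - k by ring] at h2
    linarith [(abs_le.1 h2).2]
  have l2 : Lam μ (h - u) ≤ Lam μ (k - u) + δ / 8 := by
    have h2 := Lam_lip hμ (h - u) (k - u)
    rw [show h - u - (k - u) = h - k by ring] at h2
    linarith [(abs_le.1 h2).2]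
  have a1 := a_le_Lam hμ (h + u) i
  have a2 := a_le_Lam hμ (h - u) i
  have p1 := mul_le_mul_of_nonneg_left (l1.trans (add_le_add_left hp (δ / 8))) hi'.le
  have p2 := mul_le_mul_of_nonneg_left (l2.trans (add_le_add_left hm (δ / 8))) hi'.le
  have k1 : (Lam μ k - δ) * i ≤ ap μ i (VlY v i) - δ / 2 * i + h * VlY v i := by
    have z1 : (i : ℝ) * (Lam μ k - k * v - δ / 8) + (k * v - δ / 8) * i - δ / 8 * i - δ / 2 * i =
        (Lam μ k - δ) * i + δ / 8 * i := by ring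
    have z2 : 0 ≤ δ / 8 * i := by positivity
    linarith
  have z2 : ε / 32 * u = δ / 4 := by rw [hδ]; ring
  rw [z2] at p1 p2
  have z3 : 0 ≤ δ / 8 * i := by positivity
  have k2 : a μ (h + u) i + δ / 2 * i ≤ (Lam μ k + u * v + δ) * i := by
    linarith
  have k3 : a μ (h - u) i + δ / 2 * i ≤ (Lam μ k - u * v + δ) * i := by
    linarith
  obtain ⟨θ, hθ⟩ : ∃ θ : ℝ, θ = τ * (i / n) := ⟨_, rfl⟩
  have hn0' : (0 : ℝ) < n := by linarith
  have hin1 : (i : ℝ) / n ≤ 1 := by rw [div_le_one hn0']; exact hin'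
  have hθ0 : 0 < θ := by rw [hθ]; positivity
  have hθ1 : θ ≤ 1 := by
    rw [hθ]
    have h0 : (0 : ℝ) ≤ i / n := by positivity
    have := mul_le_mul hτ1 hin1 h0 zero_le_one
    linarith
  obtain ⟨S, hS1, hS2⟩ := VlE_bad (μ := μ) (h := h) (v := v) (ε := ε) (u := u) (δ := δ)
    (L := Lam μ k) (θ := θ) (r := n - i) hμ hu0 hθ0 hθ1 r7 r2 k1 k2 k3
  have hni' : i + (n - i) = n := by omega
  rw [hni'] at hS1 hS2
  -- the exponents
  obtain ⟨w, hw⟩ : ∃ w : ℝ, w = (i : ℝ) ^ 2 / n := ⟨_, rfl⟩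
  have hw0 : Real.sqrt n ≤ w := by
    rw [hw, le_div_iff₀ hn0']
    linarith
  have hw1 : 0 ≤ w := (Real.sqrt_nonneg _).trans hw0
  have x1 : Cc μ * θ ^ 2 * n ≤ κ * w := by
    have e : Cc μ * θ ^ 2 * n = (Cc μ * τ) * (τ * w) := by
      rw [hθ, hw]
      field_simp
    rw [e, hκ]
    have h0 : 0 ≤ τ * w := mul_nonneg hτ0.le hw1
    have := mul_le_mul_of_nonneg_right hτ2 h0
    linarith
  have x2 : θ * δ * i = 4 * κ * w := by
    rw [hθ, hw, hκ]
    field_simp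
  have x3 : Cc μ * θ ^ 2 * i ≤ κ * w := by
    have h0 : 0 ≤ Cc μ * θ ^ 2 := mul_nonneg hC (sq_nonneg _)
    exact (mul_le_mul_of_nonneg_left hin' h0).trans x1
  have x4 : κ * Real.sqrt n ≤ κ * w := mul_le_mul_of_nonneg_left hw0 hκ0.le
  have x5 : 0 ≤ κ * w := mul_nonneg hκ0.le hw1
  have e1 : Real.exp (Cc μ * θ ^ 2 * n - θ * δ * i) ≤ Real.exp (-(κ * Real.sqrt n)) := by
    refine Real.exp_le_exp.2 ?_
    rw [x2]
    linarith
  have e2 : Real.exp (Cc μ * θ ^ 2 * i - θ * (δ / 2) * i) ≤ Real.exp (-(κ * Real.sqrt n)) := by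
    refine Real.exp_le_exp.2 ?_
    have : θ * (δ / 2) * i = 2 * κ * w := by linarith
    rw [this]
    linarith
  have e3 := mul_le_mul_of_nonneg_left e1 (show (0 : ℝ) ≤ (4 * i + 1) * 2 by positivity)
  have e4 := mul_le_mul_of_nonneg_left e2 (show (0 : ℝ) ≤ (2 * i + 1) * 2 + 4 by positivity)
  have e5 : ((4 * (i : ℝ) + 1) * 2 + ((2 * i + 1) * 2 + 4)) * Real.exp (-(κ * Real.sqrt n)) ≤
      (20 * n) * Real.exp (-(κ * Real.sqrt n)) := by
    refine mul_le_mul_of_nonneg_right ?_ (Real.exp_pos _).le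
    linarith
  have e6 : (20 * (n : ℝ)) * Real.exp (-(κ * Real.sqrt n)) ≤ 1 / 8 := by
    have f1 : (κ * Real.sqrt n) ^ 4 / 24 ≤ Real.exp (κ * Real.sqrt n) := by
      have := Real.pow_div_factorial_le_exp (κ * Real.sqrt n) (by positivity) 4
      norm_num [Nat.factorial] at this ⊢
      exact this
    have f2 : (κ * Real.sqrt n) ^ 4 = κ ^ 4 * (n : ℝ) ^ 2 := by
      have : (κ * Real.sqrt n) ^ 4 = κ ^ 4 * (Real.sqrt n ^ 2) ^ 2 := by ring
      rw [this, hsq2]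
    rw [f2] at f1
    rw [Real.exp_neg, ← div_eq_mul_inv, div_le_iff₀ (Real.exp_pos _)]
    have f3 : 480 * 8 ≤ κ ^ 4 * n := by
      rw [div_le_iff₀ (by positivity)] at hn3
      linarith
    have f4 : 20 * (n : ℝ) ≤ 1 / 8 * (κ ^ 4 * (n : ℝ) ^ 2 / 24) := by
      have := mul_le_mul_of_nonneg_right f3 hn0'.le
      linarith
    linarith
  have pS : (Pool.Agent.W_7d29a1_h47.law μ).real S ≤ 1 / 8 := by
    refine hS1.trans ?_
    linarith
  have hb : ∀ g ∉ S, Av g h 0 0 n (VlFar v ε i) ≤ 1 / 12 := by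
    intro g hg
    refine (hS2 g hg).trans ?_
    have : (u * ε - 4 * δ) * i = u * ε / 2 * i := by rw [hδ]; ring
    rw [this]
    linarith
  -- the mean
  obtain ⟨S', hS'⟩ : ∃ S' : Set Pool.Agent.W_7d29a1_h47.Env, S' = toMeasurable (Pool.Agent.W_7d29a1_h47.law μ) S := ⟨_, rfl⟩
  have hS'm : MeasurableSet S' := by rw [hS']; exact measurableSet_toMeasurable _ _
  have hSS' : S ⊆ S' := by rw [hS']; exact subset_toMeasurable _ _
  have pS' : (Pool.Agent.W_7d29a1_h47.law μ).real S' ≤ 1 / 8 := by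
    rw [hS', measureReal_def, measure_toMeasurable, ← measureReal_def]
    exact pS
  have hAI : Integrable (fun g => Av g h 0 0 n (VlFar v ε i)) (Pool.Agent.W_7d29a1_h47.law μ) := by
    refine Integrable.of_bound (C := 1) (VlB_Av_meas h v ε n i).aestronglyMeasurable ?_
    refine Filter.Eventually.of_forall fun g => ?_
    rw [Real.norm_eq_abs]
    exact Av_abs_le fun s _ => by
      rw [abs_of_nonneg (VlFar_nonneg v ε i s)]
      exact VlFar_le_one v ε i s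
  have hpt : ∀ g, Av g h 0 0 n (VlFar v ε i) ≤ S'.indicator (fun _ => (1 : ℝ)) g + 1 / 12 := by
    intro g
    by_cases hg : g ∈ S'
    · rw [Set.indicator_of_mem hg]
      have : Av g h 0 0 n (VlFar v ε i) ≤ 1 := Av_le fun s _ => VlFar_le_one v ε i s
      linarith
    · rw [Set.indicator_of_notMem hg, zero_add]
      exact hb g fun h' => hg (hSS' h')
  have hI : Integrable (fun g : Pool.Agent.W_7d29a1_h47.Env => S'.indicator (fun _ => (1 : ℝ)) g)
      (Pool.Agent.W_7d29a1_h47.law μ) := (integrable_const (1 : ℝ)).indicator hS'm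
  have h5 : ∫ g, Av g h 0 0 n (VlFar v ε i) ∂(Pool.Agent.W_7d29a1_h47.law μ) ≤
      ∫ g, (S'.indicator (fun _ => (1 : ℝ)) g + 1 / 12) ∂(Pool.Agent.W_7d29a1_h47.law μ) :=
    integral_mono hAI (hI.add (integrable_const (1 / 12 : ℝ))) hpt
  rw [integral_add hI (integrable_const _), integral_indicator hS'm, setIntegral_const, integral_const,
    probReal_univ, one_smul, smul_eq_mul, mul_one] at h5
  linarith

/-- The sum of the squares of the occupations, for all tilts near `k`. -/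
theorem occ_logU (hμ : EM μ) {k v : ℝ} (hv : |v| < 1) (hd : HasDerivAt (Lam μ) v k)
    (hs : SubG μ k v) (K : ℝ) : ∃ (r0 : ℝ) (n0 : ℕ), 0 < r0 ∧ ∀ h : ℝ, |h - k| ≤ r0 → ∀ n : ℕ, n0 ≤ n →
      K * Real.log n ≤ ∑ z ∈ ST n, VlOcc μ h n z ^ 2 := by
  obtain ⟨K', hK'⟩ : ∃ K' : ℝ, K' = max K 1 := ⟨_, rfl⟩
  have hK1 : 1 ≤ K' := by rw [hK']; exact le_max_right _ _
  have hKK : K ≤ K' := by rw [hK']; exact le_max_left _ _
  have hK0 : 0 < K' := by linarith
  obtain ⟨ε, hε⟩ : ∃ ε : ℝ, ε = 1 / (96 * K') := ⟨_, rfl⟩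
  have hε0 : 0 < ε := by rw [hε]; positivity
  have hε1 : ε ≤ 1 := by
    rw [hε, div_le_one (by positivity)]
    linarith
  have hεK : 1 / (12 * ε) = 8 * K' := by
    rw [hε]
    field_simp
    ring
  obtain ⟨r0, n0, hr0, hloc⟩ := loc34U hμ hv hd hs hε0
  have t1 : ∀ᶠ n : ℕ in atTop, 8 * Real.log 2 ≤ Real.log n :=
    (Real.tendsto_log_atTop.comp tendsto_natCast_atTop_atTop).eventually_ge_atTop _
  have t2 : ∀ᶠ n : ℕ in atTop, 1 / ε ≤ (n : ℝ) ^ (3 / 4 : ℝ) :=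
    ((tendsto_rpow_atTop (show (0 : ℝ) < 3 / 4 by norm_num)).comp
      tendsto_natCast_atTop_atTop).eventually_ge_atTop _
  obtain ⟨n1, hn1⟩ := eventually_atTop.1 (t1.and (t2.and (eventually_ge_atTop 2)))
  refine ⟨r0, max n0 n1, hr0, fun h hh n hn => ?_⟩
  obtain ⟨s1, s2, s3⟩ := hn1 n ((le_max_right _ _).trans hn)
  have hn2 : (2 : ℝ) ≤ n := by exact_mod_cast s3
  have hlog2 := Real.log_pos one_lt_two
  have hlog : 0 < Real.log n := Real.log_pos (by linarith)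
  obtain ⟨x, hx⟩ : ∃ x : ℝ, x = (n : ℝ) ^ (3 / 4 : ℝ) := ⟨_, rfl⟩
  have hx1 : 1 ≤ x := by
    rw [hx]
    exact Real.one_le_rpow (by linarith) (by norm_num)
  have hxn : x ≤ n := by
    rw [hx]
    calc (n : ℝ) ^ (3 / 4 : ℝ) ≤ (n : ℝ) ^ (1 : ℝ) := Real.rpow_le_rpow_of_exponent_le (by linarith) (by norm_num)
      _ = n := Real.rpow_one _
  have hxx : x ^ 2 = n * Real.sqrt n := by
    rw [hx, ← Real.rpow_natCast, ← Real.rpow_mul (by linarith), Real.sqrt_eq_rpow]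
    have : (n : ℝ) * (n : ℝ) ^ (1 / 2 : ℝ) = (n : ℝ) ^ (1 + 1 / 2 : ℝ) := by
      rw [Real.rpow_add (by linarith), Real.rpow_one]
    rw [this]
    norm_num
  rw [← hx] at s2
  obtain ⟨M, hM⟩ : ∃ M : ℕ, M = ⌈x⌉₊ := ⟨_, rfl⟩
  have hM1 : x ≤ M := by rw [hM]; exact Nat.le_ceil x
  have hM2 : (M : ℝ) ≤ 2 * x := by
    have := Nat.ceil_lt_add_one (show 0 ≤ x by linarith)
    rw [hM]
    linarith
  have hM3 : 1 ≤ M := by
    have : (1 : ℝ) ≤ M := hx1.trans hM1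
    exact_mod_cast this
  have hM4 : M - 1 ≤ n := by
    have h2 : M ≤ n := by
      rw [hM]
      exact Nat.ceil_le.2 hxn
    omega
  have hM0 : (0 : ℝ) < M := by exact_mod_cast hM3
  have hlogM : Real.log M ≤ Real.log 2 + 3 / 4 * Real.log n := by
    have e1 := Real.log_le_log hM0 hM2
    rw [Real.log_mul (by norm_num) (by positivity), hx, Real.log_rpow (by linarith)] at e1
    exact e1
  have hrows : ∑ j ∈ Ico (M - 1) n, 1 / (12 * ε) * (1 / ((j : ℝ) + 1)) ≤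
      ∑ j ∈ range n, ∑ y ∈ Icc (-(2 * n : ℤ)) (2 * n), VlOcc μ h n (j, y) ^ 2 := by
    have e0 : Ico (M - 1) n ⊆ range n := by
      intro j hj
      rw [Finset.mem_Ico] at hj
      rw [Finset.mem_range]
      exact hj.2
    refine le_trans (Finset.sum_le_sum fun j hj => ?_)
      (Finset.sum_le_sum_of_subset_of_nonneg e0 fun _ _ _ =>
        Finset.sum_nonneg fun _ _ => sq_nonneg _)
    rw [Finset.mem_Ico] at hj
    have hjM : M ≤ j + 1 := by omega
    have hjM' : (M : ℝ) ≤ (j : ℝ) + 1 := by exact_mod_cast hjM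
    have hj1 : x ≤ (j : ℝ) + 1 := hM1.trans hjM'
    have hj2 : (n : ℝ) * Real.sqrt n ≤ ((j + 1 : ℕ) : ℝ) ^ 2 := by
      rw [← hxx]
      push_cast
      exact pow_le_pow_left₀ (by linarith) hj1 2
    have hl := hloc h hh n (j + 1) ((le_max_left _ _).trans hn) (by omega) hj2
    refine VlC_row hv hε0 hε1 hj.2 ?_ hl
    have h2 : 1 / ε ≤ (j : ℝ) + 1 := s2.trans hj1
    rw [div_le_iff₀ hε0] at h2
    linarith
  have hharm := VlC_harm hM3 n hM4
  have hsum : ∑ z ∈ ST n, VlOcc μ h n z ^ 2 =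
      ∑ j ∈ range n, ∑ y ∈ Icc (-(2 * n : ℤ)) (2 * n), VlOcc μ h n (j, y) ^ 2 := by
    unfold ST
    rw [Finset.sum_product]
  rw [hsum]
  refine le_trans ?_ hrows
  rw [← Finset.mul_sum, hεK]
  have h6 : Real.log n ≤ Real.log (n + 1) := Real.log_le_log (by linarith) (by linarith)
  have h7 : 1 / 8 * Real.log n ≤ ∑ j ∈ Ico (M - 1) n, 1 / ((j : ℝ) + 1) := by linarith
  have h8 : K * Real.log n ≤ K' * Real.log n := mul_le_mul_of_nonneg_right hKK hlog.le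
  have h9 := mul_le_mul_of_nonneg_left h7 (show 0 ≤ 8 * K' by positivity)
  linarith

/-- **The lower bound for the exponential moments, uniformly for bounded tilts.** -/
theorem expmom_logU (hμ : EM μ) (hnd : Nondeg μ) (H K : ℝ) :
    ∃ n0 : ℕ, ∀ h : ℝ, |h| ≤ H → ∀ n : ℕ, n0 ≤ n → ∀ θ : ℝ, 0 ≤ θ → θ ≤ 1 → θ * a μ h n + θ ^ 2 * (K * Real.log n) ≤
      Real.log (∫ g, Real.exp (θ * Real.log (Z g h 0 0 n)) ∂(Pool.Agent.W_7d29a1_h47.law μ)) := by
  obtain ⟨c, hc, hZ⟩ := expmom_Z hμ hnd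
  have hcomp : IsCompact (Set.Icc (-H) H) := isCompact_Icc
  have key : ∃ n0 : ℕ, ∀ h ∈ Set.Icc (-H) H, ∀ n : ℕ, n0 ≤ n → K / c * Real.log n ≤ ∑ z ∈ ST n, VlOcc μ h n z ^ 2 := by
    refine hcomp.induction_on (p := fun S => ∃ n0 : ℕ, ∀ h ∈ S, ∀ n : ℕ, n0 ≤ n →
      K / c * Real.log n ≤ ∑ z ∈ ST n, VlOcc μ h n z ^ 2) ⟨0, fun h hh => absurd hh (Set.notMem_empty h)⟩ ?_ ?_ ?_
    · rintro S T hST ⟨n0, h0⟩
      exact ⟨n0, fun h hh => h0 h (hST hh)⟩
    · rintro S T ⟨n0, h0⟩ ⟨n1, h1⟩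
      refine ⟨max n0 n1, fun h hh n hn => ?_⟩
      rcases hh with hh | hh
      · exact h0 h hh n ((le_max_left _ _).trans hn)
      · exact h1 h hh n ((le_max_right _ _).trans hn)
    · intro k _
      have hd := differentiable_Lam hμ hnd k
      have hs := SubG_of_deriv hμ hd.hasDerivAt
      obtain ⟨r0, n0, hr0, h0⟩ := occ_logU hμ (abs_deriv_lt_one hμ hs) hd.hasDerivAt hs (K / c)
      refine ⟨Metric.closedBall k r0, mem_nhdsWithin_of_mem_nhds (Metric.closedBall_mem_nhds k hr0), n0,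
        fun h hh n hn => h0 h ?_ n hn⟩
      rw [Metric.mem_closedBall, Real.dist_eq] at hh
      exact hh
  obtain ⟨n0, hn0⟩ := key
  refine ⟨n0, fun h hh n hn θ hθ0 hθ1 => le_trans ?_ (hZ h n θ hθ0 hθ1)⟩
  have h1 := hn0 h (abs_le.1 hh) n hn
  have h2 := mul_le_mul_of_nonneg_left h1 (show 0 ≤ c * θ ^ 2 by positivity)
  have h3 : c * θ ^ 2 * (K / c * Real.log n) = θ ^ 2 * (K * Real.log n) := by
    field_simp
  linarith

end

end Pool.Agent.W_7d29a1_h18
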