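import Pool.Agent.W_7d29a1_H.LogH18A
import Pool.Agent.W_7d29a1_h18.HE
import Pool.Agent.W_7d29a1_H.HDefs

/-!
MP_7d29a1_pr, TRACK H (all tilts), (H6): the units are larger than any multiple of the logarithm of the time, uniformly for bounded
tilts and for all reference displacements. One bad time `n` is enough: the exponential moment of the time `n ^ (1 / 64)` is a power
of `n`. (helper18)
-/

set_option autoImplicit false

namespace Pool.Agent.W_7d29a1_h18

open MeasureTheory ProbabilityTheory Filter Topology Pool.Agent.W_7d29a1_F Pool.Agent.W_7d29a1_h60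

noncomputable section

variable {μ : Measure ℝ} [IsProbabilityMeasure μ]

/-- The lower bound by planting, uniformly for bounded tilts. -/
theorem MM_geU (hμ : Pool.Agent.W_7d29a1_h47.EM μ) (hnd : Pool.Agent.W_7d29a1_h47.Nondeg μ) (H K : ℝ) :
    ∃ n0 : ℕ, ∀ s : ℝ, |s| ≤ H → ∀ n : ℕ, n0 ≤ n → ∀ θ : ℝ, 0 ≤ θ → θ ≤ 1 →
      θ * ∫ η, V μ s η 0 n ∂(law μ) + θ ^ 2 * (K * Real.log n) ≤ Real.log (MM μ s θ n) := by
  obtain ⟨n0, h0⟩ := expmom_logU hμ hnd H K
  refine ⟨n0, fun s hs n hn θ hθ0 hθ1 => ?_⟩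
  have hs2 : |s / 2| ≤ H := by
    rw [abs_div, abs_of_pos (two_pos : (0 : ℝ) < 2)]
    have := abs_nonneg s
    linarith
  have h1 := h0 (s / 2) hs2 n hn θ hθ0 hθ1
  rw [integral_V_eq hμ]
  have h2 : MM μ s θ n = Real.exp (-(θ * (n * Pool.Agent.W_7d29a1_h47.Lam μ (s / 2)))) *
      ∫ g, Real.exp (θ * Real.log (Pool.Agent.W_7d29a1_h47.Z g (s / 2) 0 0 n)) ∂(Pool.Agent.W_7d29a1_h47.law μ) := by
    have hI : ∫ η, Real.exp (θ * Real.log (Pool.Agent.W_7d29a1_h47.Z (toH η) (s / 2) 0 0 n)) ∂(law μ) =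
        ∫ g, Real.exp (θ * Real.log (Pool.Agent.W_7d29a1_h47.Z g (s / 2) 0 0 n)) ∂(Pool.Agent.W_7d29a1_h47.law μ) := by
      have h := mp_toH (μ := μ)
      rw [← h.map_eq]
      have hF : Measurable fun g : Pool.Agent.W_7d29a1_h47.Env =>
          Real.exp (θ * Real.log (Pool.Agent.W_7d29a1_h47.Z g (s / 2) 0 0 n)) := by fun_prop
      exact (integral_map h.measurable.aemeasurable hF.aestronglyMeasurable).symm
    rw [← hI, ← integral_const_mul]
    unfold MM
    refine integral_congr_ae (Eventually.of_forall fun η => ?_)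
    show Real.exp (θ * V μ s η 0 n) = Real.exp (-(θ * (n * Pool.Agent.W_7d29a1_h47.Lam μ (s / 2)))) *
      Real.exp (θ * Real.log (Pool.Agent.W_7d29a1_h47.Z (toH η) (s / 2) 0 0 n))
    rw [V_eq_logZ, ← Real.exp_add]
    congr 1
    ring
  have h3 : 0 < ∫ g, Real.exp (θ * Real.log (Pool.Agent.W_7d29a1_h47.Z g (s / 2) 0 0 n))
      ∂(Pool.Agent.W_7d29a1_h47.law μ) :=
    integral_exp_pos ((Pool.Agent.W_7d29a1_h47.EMom_logZ hμ (s / 2) 0 0 n).integrable_exp θ)
  rw [h2, Real.log_mul (Real.exp_pos _).ne' h3.ne', Real.log_exp]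
  linarith

/-- The exponential moments of one step, uniformly for bounded tilts. -/
theorem MM_one_le (hμ : Pool.Agent.W_7d29a1_h47.EM μ) (H : ℝ) :
    ∃ C : ℝ, 0 < C ∧ ∀ s : ℝ, |s| ≤ H → ∀ θ : ℝ, 0 ≤ θ → θ ≤ 2 → MM μ s θ 1 ≤ C := by
  obtain ⟨I2, hI2⟩ : ∃ I2 : ℝ, I2 = ∫ u, Real.exp (2 * u) ∂μ := ⟨_, rfl⟩
  have hI0 : 0 ≤ I2 := by rw [hI2]; exact integral_nonneg fun u => (Real.exp_pos _).le
  obtain ⟨L, hL⟩ : ∃ L : ℝ, L = Real.exp (2 * (2 * |H| - Pool.Agent.W_7d29a1_h47.Lam μ 0)) := ⟨_, rfl⟩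
  have hL0 : 0 < L := by rw [hL]; exact Real.exp_pos _
  refine ⟨1 + 4 * L * I2, by positivity, fun s hs θ hθ0 hθ2 => ?_⟩
  have hHs : |s| ≤ |H| := hs.trans (le_abs_self H)
  have hlam : Pool.Agent.W_7d29a1_h47.Lam μ 0 - |H| ≤ lam μ s := by
    have h1 := Pool.Agent.W_7d29a1_h47.Lam_lip hμ (s / 2) 0
    rw [sub_zero, abs_div, abs_of_pos (two_pos : (0 : ℝ) < 2)] at h1
    have h2 := (abs_le.1 h1).1
    have h3 := (abs_le.1 (le_refl |s|)).1
    unfold lam
    linarith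
  -- one coordinate
  have hco : ∀ p : Pt, Integrable (fun η : Env => Real.exp (2 * η p)) (law μ) ∧
      ∫ η : Env, Real.exp (2 * η p) ∂(law μ) = I2 := by
    intro p
    have hmp : MeasurePreserving (fun ξ : Env => ξ p) (law μ) μ := by
      unfold law
      exact measurePreserving_eval_infinitePi (fun _ => μ) p
    have hm : Measurable fun u : ℝ => Real.exp (2 * u) := by fun_prop
    have hint : Integrable (fun u : ℝ => Real.exp (2 * u)) μ := by
      refine (hμ 2).mono' (by fun_prop) (Filter.Eventually.of_forall fun u => ?_)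
      rw [Real.norm_eq_abs, abs_of_pos (Real.exp_pos _)]
      refine Real.exp_le_exp.2 ?_
      have := le_abs_self u
      linarith
    refine ⟨hmp.integrable_comp_of_integrable hint, ?_⟩
    rw [hI2]
    conv_rhs => rw [← hmp.map_eq]
    exact (integral_map hmp.measurable.aemeasurable hm.aestronglyMeasurable).symm
  obtain ⟨c0, e0⟩ := hco (1, 0)
  obtain ⟨c1, e1⟩ := hco (1, 1)
  have hpt : ∀ η : Env, Real.exp (θ * V μ s η 0 1) ≤
      1 + (2 * L * Real.exp (2 * η (1, 0)) + 2 * L * Real.exp (2 * η (1, 1))) := by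
    intro η
    have w0 : W μ s η 0 1 0 = Real.exp (-lam μ s) * Real.exp (η (1, 0)) := by
      unfold W WR
      have : Zr Set.univ η 0 1 0 = Real.exp (η (1, 0)) := by
        simp [Zr]
      rw [this]
      simp
    have w1 : W μ s η 0 1 1 = Real.exp (s - lam μ s) * Real.exp (η (1, 1)) := by
      unfold W WR
      have : Zr Set.univ η 0 1 1 = Real.exp (η (1, 1)) := by
        simp [Zr]
      rw [this]
      simp
    have w2 : Real.exp (V μ s η 0 1) = Real.exp (-lam μ s) * Real.exp (η (1, 0)) +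
        Real.exp (s - lam μ s) * Real.exp (η (1, 1)) := by
      rw [exp_V]
      unfold WS
      have : (Finset.Icc (0 : ℤ) (1 : ℕ)) = {0, 1} := by decide
      rw [this, Finset.sum_pair (by norm_num), w0, w1]
    have h1 : Real.exp (θ * V μ s η 0 1) ≤ 1 + Real.exp (V μ s η 0 1) ^ 2 := by
      rw [← Real.exp_nat_mul]
      rcases le_total (V μ s η 0 1) 0 with h | h
      · have h2 : Real.exp (θ * V μ s η 0 1) ≤ 1 := by
          rw [← Real.exp_zero]
          exact Real.exp_le_exp.2 (mul_nonpos_of_nonneg_of_nonpos hθ0 h)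
        have h3 := (Real.exp_pos (((2 : ℕ) : ℝ) * V μ s η 0 1)).le
        linarith
      · have h2 : Real.exp (θ * V μ s η 0 1) ≤ Real.exp (((2 : ℕ) : ℝ) * V μ s η 0 1) := by
          refine Real.exp_le_exp.2 ?_
          push_cast
          exact mul_le_mul_of_nonneg_right hθ2 h
        linarith
    have h2 : ∀ a b : ℝ, (a + b) ^ 2 ≤ 2 * a ^ 2 + 2 * b ^ 2 := fun a b => by nlinarith [sq_nonneg (a - b)]
    have h3 := h2 (Real.exp (-lam μ s) * Real.exp (η (1, 0))) (Real.exp (s - lam μ s) * Real.exp (η (1, 1)))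
    rw [← w2] at h3
    have h4 : ∀ t u : ℝ, t ≤ 2 * |H| - Pool.Agent.W_7d29a1_h47.Lam μ 0 →
        (Real.exp t * Real.exp u) ^ 2 ≤ L * Real.exp (2 * u) := by
      intro t u ht
      rw [mul_pow, ← Real.exp_nat_mul, ← Real.exp_nat_mul, hL]
      refine mul_le_mul (Real.exp_le_exp.2 ?_) (le_of_eq ?_) (Real.exp_pos _).le (Real.exp_pos _).le
      · push_cast
        linarith
      · push_cast
        rfl
    have hH0 := abs_nonneg H
    have h5 := h4 (-lam μ s) (η (1, 0)) (by linarith)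
    have h6 := h4 (s - lam μ s) (η (1, 1)) (by
      have := le_abs_self s
      linarith)
    linarith
  have hI : Integrable (fun η : Env => 1 + (2 * L * Real.exp (2 * η (1, 0)) + 2 * L * Real.exp (2 * η (1, 1)))) (law μ) :=
    (integrable_const (1 : ℝ)).add ((c0.const_mul (2 * L)).add (c1.const_mul (2 * L)))
  have h1 := integral_mono (int_exp_V (s := s) hμ θ 0 1) hI hpt
  have h2 : ∫ η : Env, (1 + (2 * L * Real.exp (2 * η (1, 0)) + 2 * L * Real.exp (2 * η (1, 1)))) ∂(law μ) =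
      1 + (2 * L * I2 + 2 * L * I2) := by
    have j2 : Integrable (fun η : Env => 2 * L * Real.exp (2 * η (1, 0)) + 2 * L * Real.exp (2 * η (1, 1))) (law μ) :=
      (c0.const_mul (2 * L)).add (c1.const_mul (2 * L))
    rw [integral_add (integrable_const _) j2,
      integral_add (c0.const_mul (2 * L)) (c1.const_mul (2 * L)), integral_const_mul, integral_const_mul, e0, e1,
      integral_const, probReal_univ, one_smul]
  rw [h2] at h1
  have h3 : MM μ s θ 1 ≤ 1 + (2 * L * I2 + 2 * L * I2) := h1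
  linarith

/-- **hE, uniformly for bounded tilts**: the mean positive cost of reference displacements up to the time `n` is larger than any
multiple of `log n`. -/
theorem cost_logU (hμ : Pool.Agent.W_7d29a1_h47.EM μ) (hnd : Pool.Agent.W_7d29a1_h47.Nondeg μ) (H K : ℝ) :
    ∃ n0 : ℕ, ∀ s : ℝ, |s| ≤ H → ∀ n : ℕ, n0 ≤ n → ∀ (z : ℕ → ℤ) (A : ℝ), (∀ m ≤ n, 0 ≤ z m ∧ z m ≤ m) →
      (∀ m ≤ n, ∫ η, max (X μ s η 0 m (z m)) 0 ∂(law μ) ≤ A) → K * Real.log n ≤ A := by
  obtain ⟨K', hK'⟩ : ∃ K' : ℝ, K' = max K 1 := ⟨_, rfl⟩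
  have hK1 : 1 ≤ K' := by rw [hK']; exact le_max_right _ _
  have hKK : K ≤ K' := by rw [hK']; exact le_max_left _ _
  have hK0 : 0 < K' := by linarith
  obtain ⟨θ, hθ⟩ : ∃ θ : ℝ, θ = 1 / (56 * K') := ⟨_, rfl⟩
  have hθ0 : 0 < θ := by rw [hθ]; positivity
  have hθ1 : θ ≤ 1 := by
    rw [hθ, div_le_one (by positivity)]
    linarith
  have hθK : θ * K' = 1 / 56 := by
    rw [hθ]
    field_simp
  obtain ⟨n1, hn1⟩ := MM_geU hμ hnd H (256 * K' / θ)
  obtain ⟨C, hC0, hC⟩ := MM_one_le hμ H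
  have hlim : Tendsto (fun n : ℕ => Real.log (n : ℝ)) atTop atTop :=
    Real.tendsto_log_atTop.comp tendsto_natCast_atTop_atTop
  obtain ⟨n0, hn0⟩ := eventually_atTop.1 ((hlim.eventually_ge_atTop (64 * Real.log (max 9 ((n1 : ℝ) + 1)))).and
    ((hlim.eventually_ge_atTop (128 * Real.log 2)).and ((hlim.eventually_ge_atTop (4 * Real.log (1 + C))).and
      (eventually_ge_atTop 2))))
  refine ⟨n0, fun s hs n hn z A hz hX => ?_⟩
  obtain ⟨l1, l2, l3, l4⟩ := hn0 n hn
  have hlog2 := Real.log_pos one_lt_two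
  have hn0' : (0 : ℝ) < n := by exact_mod_cast (by omega : 0 < n)
  have hlog : 0 < Real.log n := Real.log_pos (by exact_mod_cast (by omega : 1 < n))
  by_contra hcon
  rw [not_le] at hcon
  have hA : A < K' * Real.log n := lt_of_lt_of_le hcon (mul_le_mul_of_nonneg_right hKK hlog.le)
  obtain ⟨x, hx⟩ : ∃ x, x = Real.exp (Real.log n / 64) := ⟨_, rfl⟩
  have hx9 : max 9 ((n1 : ℝ) + 1) ≤ x := by
    have h1 : (0 : ℝ) < max 9 ((n1 : ℝ) + 1) := lt_max_of_lt_left (by norm_num)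
    rw [hx, ← Real.exp_log h1]
    exact Real.exp_le_exp.2 (by linarith)
  have hx9' : 9 ≤ x := (le_max_left _ _).trans hx9
  obtain ⟨m', hm'⟩ : ∃ m' : ℕ, m' = ⌊x⌋₊ := ⟨_, rfl⟩
  have hm1 : (m' : ℝ) ≤ x := by rw [hm']; exact Nat.floor_le (by linarith)
  have hm2 : x < m' + 1 := by rw [hm']; exact Nat.lt_floor_add_one x
  have hmn1 : n1 ≤ m' := by
    have h1 : (n1 : ℝ) + 1 < m' + 1 := lt_of_le_of_lt ((le_max_right _ _).trans hx9) hm2
    have h2 : (n1 : ℝ) < m' := by linarith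
    have h3 : n1 < m' := by exact_mod_cast h2
    omega
  have hxn : x ≤ n := by
    rw [hx]
    calc Real.exp (Real.log n / 64) ≤ Real.exp (Real.log n) := Real.exp_le_exp.2 (by linarith)
      _ = n := Real.exp_log hn0'
  have hmn : m' ≤ n := by exact_mod_cast hm1.trans hxn
  have hm0 : (0 : ℝ) < m' := by linarith
  have hlm : Real.log n / 128 ≤ Real.log m' := by
    have h1 : x / 2 ≤ m' := by linarith
    have h2 : Real.log (x / 2) ≤ Real.log m' := Real.log_le_log (by linarith) h1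
    rw [Real.log_div (by linarith) (by norm_num), hx, Real.log_exp] at h2
    linarith
  -- the exponential moment of the time `m'`
  obtain ⟨g, hg⟩ : ∃ g, g = MM μ s θ m' := ⟨_, rfl⟩
  have hg0 : 0 < g := by rw [hg]; exact MM_pos hμ θ m'
  have hlg : Real.log n / 56 ≤ Real.log g := by
    have h1 := hn1 s hs m' hmn1 θ hθ0.le hθ1
    have h2 := mean_V_ge (s := s) hμ (hz m' hmn).1 (hz m' hmn).2 (hX m' hmn)
    have h3 : θ ^ 2 * (256 * K' / θ * Real.log m') = 256 * (θ * K') * Real.log m' := by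
      field_simp
    rw [h3, ← hg, hθK] at h1
    have h4 : -(θ * (K' * Real.log n)) ≤ θ * ∫ η, V μ s η 0 m' ∂(law μ) := by
      have h5 := mul_le_mul_of_nonneg_left (hA.le) hθ0.le
      have h6 := mul_le_mul_of_nonneg_left h2 hθ0.le
      linarith
    have h5 : θ * (K' * Real.log n) = 1 / 56 * Real.log n := by rw [← mul_assoc, hθK]
    rw [h5] at h4
    linarith
  obtain ⟨w, hw⟩ : ∃ w, w = Real.exp (Real.log n / 8) := ⟨_, rfl⟩
  have hw0 : 0 < w := by rw [hw]; exact Real.exp_pos _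
  have hw8 : w ^ 8 = n := by
    rw [hw, ← Real.exp_nat_mul]
    have : ((8 : ℕ) : ℝ) * (Real.log n / 8) = Real.log n := by
      push_cast
      ring
    rw [this, Real.exp_log hn0']
  have hwx : w = x ^ 8 := by
    rw [hw, hx, ← Real.exp_nat_mul]
    congr 1
    push_cast
    ring
  obtain ⟨m, hm⟩ : ∃ m, m = 8 * m' := ⟨_, rfl⟩
  have hmw : ((m : ℝ) + 1) ^ 4 ≤ w := by
    have h1 : (m : ℝ) + 1 ≤ 9 * x := by
      rw [hm]
      push_cast
      linarith
    have h2 : (9 : ℝ) * x ≤ x ^ 2 := by nlinarith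
    have h3 : ((m : ℝ) + 1) ^ 4 ≤ (x ^ 2) ^ 4 := pow_le_pow_left₀ (by positivity) (h1.trans h2) 4
    rw [hwx]
    calc ((m : ℝ) + 1) ^ 4 ≤ (x ^ 2) ^ 4 := h3
      _ = x ^ 8 := by ring
  obtain ⟨Y, hY⟩ : ∃ Y, Y = 7 * K' * Real.log n := ⟨_, rfl⟩
  have hKl : 0 < K' * Real.log n := by positivity
  have hY0 : 0 < Y := by rw [hY]; positivity
  have hθY : Real.exp (θ * Y) = w := by
    rw [hY, hw]
    congr 1
    calc θ * (7 * K' * Real.log n) = 7 * (θ * K') * Real.log n := by ring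
      _ = Real.log n / 8 := by rw [hθK]; ring
  obtain ⟨δ, hδ⟩ : ∃ δ, δ = 1 / w ^ 4 := ⟨_, rfl⟩
  have hδ0 : 0 < δ := by rw [hδ]; positivity
  have hδ2 : δ ^ 2 = 1 / n := by
    rw [hδ, div_pow, one_pow, ← pow_mul, hw8]
  have h6A : 6 * A < Y := by
    rw [hY]
    linarith
  have hmn' : m ≤ n := by
    have h1 : (m : ℝ) + 1 ≤ ((m : ℝ) + 1) ^ 4 := le_self_pow₀ (by
      have : (0 : ℝ) ≤ m := Nat.cast_nonneg m
      linarith) (by norm_num)
    have h2 : w ≤ n := by
      rw [hw]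
      calc Real.exp (Real.log n / 8) ≤ Real.exp (Real.log n) := Real.exp_le_exp.2 (by linarith)
        _ = n := Real.exp_log hn0'
    have h3 : (m : ℝ) ≤ n := by linarith
    exact_mod_cast h3
  have hp : ∀ j, 1 ≤ j → j ≤ m → ∫ η, io (Y ≤ V μ s η 0 j) ∂(law μ) ≤ j * δ ^ 2 := by
    intro j _ _
    rw [hδ2]
    rcases luck_rare hμ s j n z hz hX h6A with h1 | h1
    · rw [mul_one_div, le_div_iff₀ hn0']
      linarith
    · rw [h1]
      positivity
  obtain ⟨M2, hM2⟩ : ∃ M2, M2 = MM μ s (2 * θ) 1 := ⟨_, rfl⟩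
  have hM20 : 0 < M2 := by rw [hM2]; exact MM_pos hμ _ _
  have hM2C : M2 ≤ C := by rw [hM2]; exact hC s hs (2 * θ) (by positivity) (by linarith)
  have hnC : (1 + M2) ^ 4 ≤ (n : ℝ) := by
    have h1 : (1 + C) ^ 4 ≤ (n : ℝ) := by
      have h2 : Real.log ((1 + C) ^ 4) ≤ Real.log n := by
        rw [Real.log_pow]
        push_cast
        exact l3
      exact (Real.log_le_log_iff (by positivity) hn0').1 h2
    exact (pow_le_pow_left₀ (by positivity) (by linarith) 4).trans h1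
  have hsmall : Real.exp (θ * Y) * ((m + 1) ^ 3 * (δ / 2 * (m + MM μ s (2 * θ) 1))) ≤ 1 / 2 := by
    rw [hθY, ← hM2]
    have hm0 : (0 : ℝ) ≤ m := Nat.cast_nonneg m
    have h1 : (m : ℝ) + M2 ≤ (m + 1) * (1 + M2) := by
      have := mul_nonneg hm0 hM20.le
      linarith
    have h2 : w * (((m : ℝ) + 1) ^ 3 * (δ / 2 * (m + M2))) ≤ w * (((m : ℝ) + 1) ^ 3 * (δ / 2 * ((m + 1) * (1 + M2)))) := by
      gcongr
    have h3 : w * (((m : ℝ) + 1) ^ 3 * (δ / 2 * ((m + 1) * (1 + M2)))) = w * (δ / 2 * (1 + M2)) * ((m : ℝ) + 1) ^ 4 := by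
      ring
    have h4 : w * (δ / 2 * (1 + M2)) * ((m : ℝ) + 1) ^ 4 ≤ w * (δ / 2 * (1 + M2)) * w :=
      mul_le_mul_of_nonneg_left hmw (by positivity)
    have h5 : w * (δ / 2 * (1 + M2)) * w = (1 + M2) / (2 * w ^ 2) := by
      rw [hδ]
      field_simp
    have h6 : 1 + M2 ≤ w ^ 2 := by
      have h7 : (1 + M2) ^ 4 ≤ (w ^ 2) ^ 4 := by
        rw [← pow_mul]
        rw [hw8]
        exact hnC
      exact (pow_le_pow_iff_left₀ (by positivity) (by positivity) (by norm_num)).1 h7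
    have h7 : (1 + M2) / (2 * w ^ 2) ≤ 1 / 2 := by
      rw [div_le_div_iff₀ (by positivity) (by norm_num)]
      linarith
    linarith
  have hfin := restart_log (μ := μ) (s := s) hμ hθ0.le hY0 hδ0 hp hsmall (i := m) le_rfl
  rw [hθY] at hfin
  have h1 := MM_mul (s := s) hμ hθ0.le hθ1 m' 8
  rw [← hg, ← hm] at h1
  have h2 : g ^ 8 ≤ 2 * w := h1.trans hfin
  have h3 := Real.log_le_log (by positivity) h2
  rw [Real.log_pow, Real.log_mul (by norm_num) hw0.ne', hw, Real.log_exp] at h3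
  push_cast at h3
  linarith

end

end Pool.Agent.W_7d29a1_h18
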