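import Pool.Agent.W_7d29a1_H.SubA35
import Pool.Agent.W_7d29a1_H.ConeH92
import Pool.Agent.W_7d29a1_SL.T1b
import Pool.Agent.W_7d29a1_h4g.LawLA

/-!
MP_7d29a1_pr, TRACK H (all tilts), **(SUB)** with the exponent `1 / 2`: from a soft scale down to all smaller scales, uniformly in the
tilt. (helper35, after helper66's W_1b8d5d_p/DubB66; luck from variance: W_7d29a1_SL/T1b, helper62)
-/

set_option autoImplicit false

namespace Pool.Agent.W_7d29a1_H

open MeasureTheory ProbabilityTheory Filter Topology Set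
open Pool.Agent.W_7d29a1_F
open Pool.Agent.W_7d29a1_h4g (Poly)
open Pool.Agent.W_7d29a1_h42 (PFs)
open Pool.Agent.W_7d29a1_h47 (EM Nondeg)

variable {μ : Measure ℝ} {H δ a : ℝ} {A : Set ℝ}

/-- Functionals without the vanishing coefficients. -/
theorem poly_PFs35 {S : Set Pt} {G : Env → ℝ} (h : Poly S G) : PFs S G := by
  obtain ⟨N, c, B, hc, hB, hG⟩ := h
  classical
  refine ⟨{i : Fin N // c i ≠ 0}, inferInstance, fun i => c i.1, fun i => B i.1,
    fun i => lt_of_le_of_ne (hc i.1) (Ne.symm i.2), fun i p hp => hB i.1 hp, fun η => ?_⟩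
  rw [hG η]
  have h1 : ∑ i, c i * Real.exp (∑ x ∈ B i, η x) =
      ∑ i ∈ Finset.univ.filter (fun i => c i ≠ 0), c i * Real.exp (∑ x ∈ B i, η x) := by
    rw [Finset.sum_filter_of_ne]
    intro i _ hi hcon
    exact hi (by rw [hcon, zero_mul])
  rw [h1]
  exact (Finset.sum_subtype (p := fun i => c i ≠ 0) (Finset.univ.filter fun i => c i ≠ 0) (by simp)
    (fun i => c i * Real.exp (∑ x ∈ B i, η x)))

variable [IsProbabilityMeasure μ]

/-- The second moment about the mean from a fluctuation. -/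
theorem sq_of_fluct35 (hμ : EM μ) {f : Env → ℝ} (hf : Sub f) {m u p : ℝ} (hu : 0 ≤ u)
    (hp : p ≤ (law μ).real {η | u ≤ |f η - m|}) : p * u ^ 2 ≤ ∫ η, (f η - m) ^ 2 ∂(law μ) := by
  have hS : MeasurableSet {η | u ≤ |f η - m|} :=
    measurableSet_le measurable_const ((hf.1.sub_const m).norm)
  have hint : Integrable (fun η => (f η - m) ^ 2) (law μ) := by
    have h := Sub.sq_integrable hμ (hf.add (Sub.const (-m)))
    refine h.congr (Filter.Eventually.of_forall fun η => ?_)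
    simp only
    ring
  have h1 : ∫ η, ({η | u ≤ |f η - m|}.indicator (fun _ => u ^ 2)) η ∂(law μ) ≤ ∫ η, (f η - m) ^ 2 ∂(law μ) := by
    refine integral_mono ((integrable_const _).indicator hS) hint fun η => ?_
    by_cases hη : η ∈ {η | u ≤ |f η - m|}
    · rw [Set.indicator_of_mem hη]
      rw [← sq_abs (f η - m)]
      exact pow_le_pow_left₀ hu hη 2
    · rw [Set.indicator_of_notMem hη]
      exact sq_nonneg _
  rw [integral_indicator_const _ hS, smul_eq_mul] at h1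
  exact (mul_le_mul_of_nonneg_right hp (sq_nonneg u)).trans h1

/-- **(SUB) with the exponent `1 / 2`**, for the units. -/
theorem sub_half35 (hD : Dirs μ H δ A) (ha : 0 < a) (hG : Grow μ A) (hL : LStarH a μ A) (α : ℝ) :
    ∃ Q : ℝ, 0 < Q ∧ ∃ x₀ : ℕ, ∀ s ∈ A, ∀ x j : ℕ, x₀ ≤ x → Sf μ s (x + j) α →
      EE μ s (2 ^ (x + j)) ^ 2 ≤ Q * 2 ^ j * EE μ s (2 ^ x) ^ 2 := by
  obtain ⟨c, B, hc, hc1, hB, n₁, hn₁, hblock⟩ := block_exp35 hD ha hG hL
  obtain ⟨k, hk, hT⟩ := Pool.Agent.W_7d29a1_SL.t1_env hD.em hD.nd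
  have h2a : (0 : ℝ) < 2 ^ α := Real.rpow_pos_of_pos two_pos _
  have h2b : (0 : ℝ) < 2 ^ (-α) := Real.rpow_pos_of_pos two_pos _
  have h2ab : (2 : ℝ) ^ (-α) * 2 ^ α = 1 := by rw [← Real.rpow_add two_pos]; simp
  have hlB : 0 ≤ Real.log B := Real.log_nonneg hB
  obtain ⟨R, hR⟩ : ∃ R : ℝ, R = (2 ^ α + 2) * Real.log B + c * 2 ^ α := ⟨_, rfl⟩
  have hR0 : 0 < R := by rw [hR]; positivity
  refine ⟨(2 ^ α) ^ 3 * (R / (k * c ^ 2)), by positivity, n₁, fun s hs x j hx hS => ?_⟩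
  obtain ⟨n, hn⟩ : ∃ n : ℕ, n = 2 ^ x := ⟨_, rfl⟩
  have hn1 : n₁ ≤ n := by
    rw [hn]
    exact hx.trans Nat.lt_two_pow_self.le
  have hnR : (n : ℝ) = 2 ^ x := by rw [hn]; push_cast; rfl
  have hn0 : (0 : ℝ) < n := by rw [hnR]; positivity
  obtain ⟨l, G, hl, hP, hG0, hGV, hmean, hfl⟩ := hS
  obtain ⟨E, hE⟩ : ∃ E, E = EE μ s (2 ^ (x + j)) := ⟨_, rfl⟩
  obtain ⟨e, he⟩ : ∃ e, e = EE μ s n := ⟨_, rfl⟩
  have hE0 : 0 < E := by rw [hE]; exact EE_pos _
  have he0 : 0 < e := by rw [he]; exact EE_pos _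
  have he1 : 1 ≤ e := by rw [he]; exact one_le_EE _
  rw [← hE] at hmean hfl ⊢
  rw [← hn, ← he]
  obtain ⟨ρ, hρ⟩ : ∃ ρ : ℝ, ρ = (2 : ℝ) ^ j := ⟨_, rfl⟩
  have hρ1 : 1 ≤ ρ := by rw [hρ]; exact one_le_pow₀ one_le_two
  rw [← hρ]
  -- the number of blocks
  obtain ⟨M, hM⟩ : ∃ M : ℕ, M = l / n + 1 := ⟨_, rfl⟩
  have hnpos : 0 < n := by exact_mod_cast hn0
  have hlM : l ≤ M * n := by
    have h1 := Nat.lt_mul_div_succ l hnpos
    rw [hM, mul_comm]
    exact h1.le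
  have hMR : ((M + 1 : ℕ) : ℝ) ≤ (2 ^ α + 2) * ρ := by
    have h1 : ((l / n : ℕ) : ℝ) ≤ (l : ℝ) / n := Nat.cast_div_le
    have h2 : (l : ℝ) / n ≤ 2 ^ α * ρ := by
      rw [div_le_iff₀ hn0]
      refine hl.trans (le_of_eq ?_)
      rw [Real.rpow_add two_pos, Real.rpow_natCast, hnR, hρ, pow_add]
      ring
    rw [hM]
    push_cast
    linarith
  -- the unit of the large scale
  have hEe : E ≤ ρ * e := by
    have h1 := EE_mul hD.em s n (k := 2 ^ j) Nat.one_le_two_pow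
    have h2 : 2 ^ j * n = 2 ^ (x + j) := by rw [hn, pow_add, mul_comm]
    rw [h2, ← hE, ← he] at h1
    push_cast at h1
    rw [← hρ] at h1
    exact h1
  -- luck from variance
  obtain ⟨t, ht⟩ : ∃ t : ℝ, t = c / e := ⟨_, rfl⟩
  have htp : 0 < t := by rw [ht]; positivity
  have htt : t ≤ 1 := by
    rw [ht, div_le_one he0]
    linarith
  have hsub : Sub fun η => Real.log (G η) := hP.sub_log hG0
  have h1 := hT (rows 0 l) G 0 (poly_PFs35 hP) ⟨0, (hG0 0).ne'⟩ (fun η => Real.log (G η)) (fun η => by rw [zero_add]) t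
    htp.le htt
  have h2 := sq_of_fluct35 hD.em hsub (by positivity) hfl
  obtain ⟨m, hm⟩ : ∃ m, m = ∫ η, Real.log (G η) ∂(law μ) := ⟨_, rfl⟩
  rw [← hm] at hmean h1 h2
  have hint : Integrable (fun η => Real.exp (t * Real.log (G η))) (law μ) := (hsub.const_mul t).exp_int hD.em
  have h3 : ∫ η, Real.exp (t * Real.log (G η)) ∂(law μ) ≤ B ^ (M + 1) := by
    refine (integral_mono hint (((Sub_V (μ := μ) (s := s) 0 l).const_mul t).exp_int hD.em) fun η => ?_).trans ?_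
    · exact Real.exp_le_exp.2 (mul_le_mul_of_nonneg_left (hGV η) htp.le)
    · have h4 := hblock s hs n hn1 M l hlM
      rwa [← he, ← ht] at h4
  have h4 : Real.log (∫ η, Real.exp (t * Real.log (G η)) ∂(law μ)) ≤ ((M + 1 : ℕ) : ℝ) * Real.log B := by
    have h5 := Real.log_le_log (integral_exp_pos hint) h3
    rwa [Real.log_pow] at h5
  -- collect
  have h5 : k * t ^ 2 * (2 ^ (-α) * (2 ^ (-α) * E) ^ 2) ≤ ((M + 1 : ℕ) : ℝ) * Real.log B + t * (2 ^ α * E) := by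
    have h6 := mul_le_mul_of_nonneg_left h2 (show 0 ≤ k * t ^ 2 by positivity)
    have h7 := mul_le_mul_of_nonneg_left hmean htp.le
    linarith
  have h6 : ((M + 1 : ℕ) : ℝ) * Real.log B + t * (2 ^ α * E) ≤ R * ρ := by
    have h7 : ((M + 1 : ℕ) : ℝ) * Real.log B ≤ (2 ^ α + 2) * ρ * Real.log B := mul_le_mul_of_nonneg_right hMR hlB
    have h8 : t * (2 ^ α * E) ≤ c * 2 ^ α * ρ := by
      have h9 : t * (2 ^ α * E) ≤ t * (2 ^ α * (ρ * e)) :=
        mul_le_mul_of_nonneg_left (mul_le_mul_of_nonneg_left hEe h2a.le) htp.le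
      have h10 : t * (2 ^ α * (ρ * e)) = c * 2 ^ α * ρ := by
        rw [ht]
        field_simp
      linarith
    rw [hR]
    nlinarith
  have h7 := h5.trans h6
  have h8 : t ^ 2 * e ^ 2 = c ^ 2 := by
    rw [ht]
    field_simp
  -- the factor
  have h9 : k * c ^ 2 * E ^ 2 ≤ (2 ^ α) ^ 3 * (R * ρ * e ^ 2) := by
    have e1 : k * t ^ 2 * (2 ^ (-α) * (2 ^ (-α) * E) ^ 2) * ((2 ^ α) ^ 3 * e ^ 2) = k * c ^ 2 * E ^ 2 := by
      calc k * t ^ 2 * (2 ^ (-α) * (2 ^ (-α) * E) ^ 2) * ((2 ^ α) ^ 3 * e ^ 2) =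
            k * (t ^ 2 * e ^ 2) * E ^ 2 * ((2 : ℝ) ^ (-α) * 2 ^ α) ^ 3 := by ring
        _ = k * c ^ 2 * E ^ 2 := by rw [h8, h2ab]; ring
    have h10 := mul_le_mul_of_nonneg_right h7 (show 0 ≤ ((2 : ℝ) ^ α) ^ 3 * e ^ 2 by positivity)
    rw [e1] at h10
    refine h10.trans (le_of_eq ?_)
    ring
  have hkc : 0 < k * c ^ 2 := by positivity
  have h10 : E ^ 2 ≤ (2 ^ α) ^ 3 * (R * ρ * e ^ 2) / (k * c ^ 2) := by
    rw [le_div_iff₀ hkc]
    linarith
  refine h10.trans (le_of_eq ?_)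
  field_simp

/-- **(SUB) with the exponent `1 / 2`**, uniformly in the tilt. -/
theorem subH_all35 (hD : Dirs μ H δ A) (ha : 0 < a) (hG : Grow μ A) (hL : LStarH a μ A) : SubH μ A := by
  intro α
  obtain ⟨Q, hQ, x₀, h⟩ := sub_half35 hD ha hG hL α
  refine ⟨Real.logb 2 Q / 2, x₀, fun s hs x j hx hS => ?_⟩
  have h1 := h s hs x j hx hS
  have hE : 0 < EE μ s (2 ^ (x + j)) := EE_pos _
  have he : 0 < EE μ s (2 ^ x) := EE_pos _
  have h2 := Real.logb_le_logb_of_le one_lt_two (by positivity) h1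
  rw [Real.logb_mul (by positivity) (by positivity), Real.logb_mul hQ.ne' (by positivity), Real.logb_pow, Real.logb_pow,
    Real.logb_pow, Real.logb_self_eq_one one_lt_two] at h2
  unfold gg
  push_cast at h2
  linarith

end Pool.Agent.W_7d29a1_H
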