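import Pool.Agent.W_7d29a1_H.PredST
import Pool.Agent.W_7d29a1_H.MeanB
import Pool.Agent.W_7d29a1_H.BalT35

/-!
MP_7d29a1_pr, TRACK H (all tilts), part 3, (ST1): doubling at all tilts makes the rate functions superlinear near `0`, uniformly
in the tilt. (helper14)
-/

set_option autoImplicit false

namespace Pool.Agent.W_7d29a1_H

open MeasureTheory ProbabilityTheory Filter Topology Set
open Pool.Agent.W_7d29a1_F Pool.Agent.W_7d29a1_h4g

variable {μ : Measure ℝ} [IsProbabilityMeasure μ] {H δ : ℝ} {A A0 : Set ℝ}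

/-- Every slope near `sl μ s` is the slope of a tilt near `s`, uniformly. -/
theorem exists_tilt14 (hμ : Pool.Agent.W_7d29a1_h47.EM μ) (hnd : Pool.Agent.W_7d29a1_h47.Nondeg μ) (H : ℝ) {ρ : ℝ} (hρ : 0 < ρ) :
    ∃ δ' : ℝ, 0 < δ' ∧ ∀ s : ℝ, |s| ≤ H → ∀ x : ℝ, |x| ≤ δ' → ∃ r : ℝ, |r| ≤ ρ ∧ |r| ≤ 1 ∧ sl μ (s + r) = sl μ s + x := by
  obtain ⟨ρ1, hρ1, h1⟩ := slope_hit87 hμ hnd H
  obtain ⟨c, hc, h2⟩ := ex_power hμ hnd H
  refine ⟨min ρ1 (c * ρ ^ 100), lt_min hρ1 (by positivity), fun s hs x hx => ?_⟩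
  obtain ⟨r, hr1, hr⟩ := h1 s hs x (hx.trans (min_le_left _ _))
  refine ⟨r, ?_, hr1, hr⟩
  have h3 := h2 s hs r hr1
  have h4 := ex_le_sl hμ hnd s r
  have h5 : r * (sl μ (s + r) - sl μ s) ≤ |x| := by
    rw [hr]
    have e1 : sl μ s + x - sl μ s = x := by ring
    rw [e1]
    calc r * x ≤ |r * x| := le_abs_self _
      _ = |r| * |x| := abs_mul _ _
      _ ≤ 1 * |x| := mul_le_mul_of_nonneg_right hr1 (abs_nonneg _)
      _ = |x| := one_mul _
  have h6 : c * |r| ^ 100 ≤ c * ρ ^ 100 := by linarith [hx.trans (min_le_right _ _)]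
  have h7 : |r| ^ 100 ≤ ρ ^ 100 := le_of_mul_le_mul_left h6 hc
  exact le_of_pow_le_pow_left₀ (by norm_num) hρ.le h7

/-- The identity of the rate functions of two tilts, in the form which is used. -/
theorem JTilt35.at {ρ : ℝ} (hJ : JTilt35 μ A ρ) {s r x : ℝ} (hs : s ∈ A) (hr : s + r ∈ A) (hrρ : |r| ≤ ρ)
    (hx : sl μ (s + r) = sl μ s + x) {u : ℝ} (hu : |u| ≤ ρ) :
    J μ (s + r) u = J μ s (x + u) - J μ s x - r * u := by
  have h := hJ.2.2 s hs r hr hrρ u hu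
  rw [hx] at h
  have e1 : sl μ s + x - sl μ s = x := by ring
  rwa [e1] at h

/-- **(ST1).** Doubling at all tilts of `A` implies superlinearity at the tilts of `A0`. -/
theorem supH_of14 (hD : Dirs μ H δ A) {ρ : ℝ} (hJ : JTilt35 μ A ρ) (hA : A0 ⊆ A) {t0 : ℝ} (hF : FamH A0 A t0)
    (hS : SymH μ A) : SupH μ A0 := by
  obtain ⟨D, δ1, hD1, hδ1, hS⟩ := hS
  obtain ⟨ht0, hF⟩ := hF
  obtain ⟨hρ0, hρ1, -⟩ := id hJ
  obtain ⟨δ2, hδ2, hex⟩ := exists_tilt14 hD.em hD.nd H (ρ := min ρ t0) (lt_min hρ0 ht0)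
  have hD0 : (0 : ℝ) < 2 * D := by linarith
  have hDi : 1 / (2 * D) ≤ 1 / 2 := by
    rw [div_le_div_iff₀ hD0 (by norm_num)]
    linarith
  have hDp : 0 < 1 / (2 * D) := by positivity
  refine ⟨1 - 1 / (2 * D), min (min δ1 δ2) ρ, by linarith, by linarith, lt_min (lt_min hδ1 hδ2) hρ0, fun s hs x hx => ?_⟩
  have hx1 : |x| ≤ δ1 := hx.trans ((min_le_left _ _).trans (min_le_left _ _))
  have hx2 : |x| ≤ δ2 := hx.trans ((min_le_left _ _).trans (min_le_right _ _))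
  have hx3 : |x| ≤ ρ := hx.trans (min_le_right _ _)
  have hh : |x / 2| ≤ |x| := by
    rw [abs_div, abs_of_pos (by norm_num : (0 : ℝ) < 2)]
    linarith [abs_nonneg x]
  obtain ⟨r, hr1, -, hr⟩ := hex s (hD.bd s (hA hs)) (x / 2) (hh.trans hx2)
  have hrA : s + r ∈ A := hF s hs r (hr1.trans (min_le_right _ _))
  have hrρ : |r| ≤ ρ := hr1.trans (min_le_left _ _)
  have hnn : ∀ u, 0 ≤ J μ (s + r) u := fun u => J_nonneg hD.em hD.nd _ _
  have e1 := hJ.at (hA hs) hrA hrρ hr (u := -x) (by rw [abs_neg]; exact hx3)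
  have e2 := hJ.at (hA hs) hrA hrρ hr (u := -(x / 2)) (by rw [abs_neg]; exact hh.trans hx3)
  have e3 := hJ.at (hA hs) hrA hrρ hr (u := x / 2) (hh.trans hx3)
  have z2 : x / 2 + -(x / 2) = 0 := by ring
  have z3 : x / 2 + x / 2 = x := by ring
  rw [z2, J_zero hD.em hD.nd] at e2
  rw [z3] at e3
  have h1 := (hS (s + r) hrA (-(x / 2)) (by rw [abs_neg]; exact hh.trans hx1)).1
  have z4 : 2 * -(x / 2) = -x := by ring
  rw [z4] at h1
  have g1 := hnn (-(x / 2))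
  have g2 := hnn (x / 2)
  have g3 := J_nonneg hD.em hD.nd s (x / 2 + -x)
  obtain ⟨a, ha⟩ : ∃ a, a = J μ s (x / 2) := ⟨_, rfl⟩
  obtain ⟨b, hb⟩ : ∃ b, b = J μ s x := ⟨_, rfl⟩
  obtain ⟨q, hq⟩ : ∃ q, q = r * x := ⟨_, rfl⟩
  rw [← ha] at e1 e2 e3 ⊢
  rw [← hb] at e3 ⊢
  have q1 : r * -x = -q := by rw [hq]; ring
  have q2 : r * -(x / 2) = -(q / 2) := by rw [hq]; ring
  have q3 : r * (x / 2) = q / 2 := by rw [hq]; ring
  rw [q1] at e1
  rw [q2] at e2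
  rw [q3] at e3
  -- `q / (2 D) ≤ q / 2 - a`
  have k1 : q / 2 ≤ D * (q / 2 - a) := by
    have k0 : D * J μ (s + r) (-(x / 2)) = D * (q / 2 - a) := by rw [e2]; ring
    rw [k0] at h1
    linarith
  have k2 : q * (1 / (2 * D)) ≤ q / 2 - a := by
    have k3 : q * (1 / (2 * D)) * D = q / 2 := by
      field_simp
    have k4 : q * (1 / (2 * D)) * D ≤ (q / 2 - a) * D := by
      rw [k3]
      linarith
    exact le_of_mul_le_mul_right k4 (by linarith)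
  obtain ⟨θ, hθ⟩ : ∃ θ, θ = 1 / (2 * D) := ⟨_, rfl⟩
  rw [← hθ] at hDi hDp k2 ⊢
  -- `b ≤ (b - a - q / 2) + q`
  have k5 : 0 ≤ b - a - q / 2 := by linarith
  have k6 : θ * (b - a - q / 2) ≤ 1 * (b - a - q / 2) := mul_le_mul_of_nonneg_right (by linarith) k5
  have k7 : θ * b ≤ θ * (b - a - q / 2) + θ * q := by
    rw [← mul_add]
    exact mul_le_mul_of_nonneg_left (by linarith) hDp.le
  have k8 : θ * q = q * θ := mul_comm _ _
  have k9 : (1 - θ) * b = b - θ * b := by ring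
  rw [k9]
  linarith

end Pool.Agent.W_7d29a1_H
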