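import Pool.Agent.W_7d29a1_H.PredH3

/-!
MP_7d29a1_pr, TRACK H (all tilts), part 3, section ST: the straight displacement is cheap. The predicates.
-/

set_option autoImplicit false

namespace Pool.Agent.W_7d29a1_H

open MeasureTheory ProbabilityTheory Filter Topology Set
open Pool.Agent.W_7d29a1_F Pool.Agent.W_7d29a1_h4g

noncomputable section

/-- The rate functions double and are comparable with their reflections near `0`, uniformly in the tilt. -/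
def SymH (μ : Measure ℝ) (A : Set ℝ) : Prop :=
  ∃ D δ : ℝ, 1 ≤ D ∧ 0 < δ ∧ ∀ s ∈ A, ∀ x, |x| ≤ δ → J μ s (2 * x) ≤ D * J μ s x ∧ J μ s (-x) ≤ D * J μ s x

/-- The rate functions are superlinear near `0`, uniformly in the tilt and in the scale. -/
def SupH (μ : Measure ℝ) (A : Set ℝ) : Prop :=
  ∃ ρ δ : ℝ, 0 < ρ ∧ ρ < 1 ∧ 0 < δ ∧ ∀ s ∈ A, ∀ x, |x| ≤ δ → 2 * J μ s (x / 2) ≤ ρ * J μ s x

/-- Cheap displacements on both sides of the straight one, at every scale `2 ^ x`. -/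
def TwoH (μ : Measure ℝ) (A : Set ℝ) : Prop :=
  ∃ (c C : ℝ) (x₀ : ℕ), 0 < c ∧ ∀ s ∈ A, ∀ x : ℕ, x₀ ≤ x → ∀ ε : ℝ, ε = 1 ∨ ε = -1 → ∃ y : ℤ, 0 ≤ y ∧ y ≤ 2 ^ x ∧
    c * wH 1 μ s (2 ^ x) ≤ ε * (y - sl μ s * 2 ^ x) ∧ ε * (y - sl μ s * 2 ^ x) ≤ C * wH 1 μ s (2 ^ x) ∧
    e μ s (2 ^ x) y ≤ C * EE μ s (2 ^ x)

/-- **The displacements around the straight one are cheap.** -/
def InnH (μ : Measure ℝ) (A : Set ℝ) : Prop :=
  ∃ (c C : ℝ) (n₀ : ℕ), 0 < c ∧ ∀ s ∈ A, ∀ n : ℕ, n₀ ≤ n → ∀ (m : ℕ) (y : ℤ), m ≤ 4 * n → 0 ≤ y → y ≤ m →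
    |(y : ℝ) - sl μ s * m| ≤ c * vA 1 μ s n * m + 1 → ep μ s m y ≤ C * EE μ s n

end

end Pool.Agent.W_7d29a1_H
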