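import Pool.Agent.W_7d29a1_H.DblH
import Pool.Agent.W_7d29a1_H.BalH
import Pool.Agent.W_7d29a1_H.LamH2
import Pool.Agent.W_7d29a1_H.PredST

/-!
MP_7d29a1_pr, TRACK H (all tilts): (BALANCE), (DOUBLING) and the comparison of the two sides, assembled. (helper35)
-/

set_option autoImplicit false

namespace Pool.Agent.W_7d29a1_H

open MeasureTheory ProbabilityTheory Filter Topology Set
open Pool.Agent.W_7d29a1_F

variable {μ : Measure ℝ} [IsProbabilityMeasure μ] {H δ a C3 Cm t0 : ℝ} {A A0 : Set ℝ}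

/-- **(BALANCE).** -/
theorem bal_allH (hD : Dirs μ H δ A) (ha : 1 ≤ a) (hR : Rate μ A) (hG : Grow μ A) (hA : A0 ⊆ A) (hF : FamH A0 A t0)
    (hC : CmpH a μ A C3 Cm) : BalH a μ A0 :=
  bal_allH_of hD hD.J_tilt ha hR hG hA hF hC

/-- **The rate functions double and are comparable with their reflections.** -/
theorem symH_of35 (hD : Dirs μ H δ A) (hR : Rate μ A) (ha : 0 < a) (hH : HalvH μ A) (hB : BalH a μ A) : SymH μ A := by
  obtain ⟨D, δ', h1, h2, h3⟩ := dbl_two35 hD hH (hB.heights hD hR ha)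
  exact ⟨D, δ', h1, h2, fun s hs x hx => ⟨(h3 s hs x hx).1, (h3 s hs x hx).2.2⟩⟩

/-- (DOUBLING) from the comparison of the tilts. -/
theorem dblH_cmp35 (hD : Dirs μ H δ A) (ha : 1 ≤ a) (hR : Rate μ A) (hG : Grow μ A) (hH : HalvH μ A) (hA : A0 ⊆ A)
    (hF : FamH A0 A t0) (hC : CmpH a μ A C3 Cm) : BalH a μ A0 ∧ DblH μ A0 ∧ SymH μ A0 := by
  have hB := bal_allH hD ha hR hG hA hF hC
  have hD0 := hD.mono_set hA
  have hR0 : Rate μ A0 := fun ε hε => by
    obtain ⟨n0, h⟩ := hR ε hε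
    exact ⟨n0, fun s hs => h s (hA hs)⟩
  have ha0 : 0 < a := by linarith
  exact ⟨hB, dblH_of_bal hD0 hR0 ha0 (hH.mono_set hA) hB, symH_of35 hD0 hR0 ha0 (hH.mono_set hA) hB⟩

end Pool.Agent.W_7d29a1_H
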