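import Pool.Agent.W_7d29a1_H.ChIn92
import Pool.Agent.W_7d29a1_H.LaneH92
import Pool.Agent.W_7d29a1_H.CmpH14
import Pool.Agent.W_7d29a1_H.SymH35
import Pool.Agent.W_7d29a1_H.SupH14
import Pool.Agent.W_7d29a1_H.TwoH14
import Pool.Agent.W_7d29a1_H.InnH14
import Pool.Agent.W_7d29a1_H.LogH
import Pool.Agent.W_7d29a1_H.RateH
import Pool.Agent.W_7d29a1_H.SubH35
import Pool.Agent.W_7d29a1_H.I1H4
import Pool.Agent.W_7d29a1_H.LamH3

/-!
MP_7d29a1_pr, TRACK H (all tilts): from the sections (`SecH`) to the conclusions: the lower bound of power type, the closing of the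
cone at all scales, the halving, (BALANCE), (DOUBLING), superlinearity and the cheap straight displacement, uniformly for the tilts
of a bounded interval.
-/

set_option autoImplicit false

namespace Pool.Agent.W_7d29a1_H

open MeasureTheory ProbabilityTheory Filter Topology Set
open Pool.Agent.W_7d29a1_F Pool.Agent.W_7d29a1_h4g
open Pool.Agent.W_7d29a1_h47 (EM Nondeg)

/-- What the sections prove, for every family of tilts (level `1` of the width). -/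
structure SecH (μ : Measure ℝ) : Prop where
  frame : ∀ (H δ : ℝ) (A : Set ℝ), Dirs μ H δ A → FrameH 1 μ A
  oct : ∀ (H δ : ℝ) (A : Set ℝ), Dirs μ H δ A → OctH 1 μ A
  d7 : ∀ (H δ : ℝ) (A : Set ℝ), Dirs μ H δ A → D7H μ A
  hB0 : ∀ (H δ : ℝ) (A : Set ℝ), Dirs μ H δ A → HB0H 1 μ A
  core : ∀ (H δ : ℝ) (A : Set ℝ), Dirs μ H δ A → ∃ (r : ℕ) (C3 : ℝ), CoreH 1 μ A r C3
  hB : ∀ (H δ : ℝ) (A : Set ℝ), Dirs μ H δ A → HBH 1 μ A
  hF2 : ∀ (H δ : ℝ) (A : Set ℝ), Dirs μ H δ A → HF2H 1 μ A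

variable {μ : Measure ℝ} [IsProbabilityMeasure μ] {A : Set ℝ} {H δ : ℝ}

theorem SecH.leaves (hS : SecH μ) (hD : Dirs μ H δ A) : LeavesH μ A where
  oct := ⟨1, one_pos, hS.oct H δ A hD⟩
  d7 := hS.d7 H δ A hD
  i1 := i1H_of hD zero_le_one (hS.frame H δ A hD).tilt
  hB0 := ⟨1, one_pos, hS.hB0 H δ A hD⟩
  hB := ⟨1, one_pos, hS.hB H δ A hD⟩
  hF2 := ⟨1, one_pos, hS.hF2 H δ A hD⟩

/-- The closing of the cone at all scales. -/
theorem SecH.cone (hS : SecH μ) (hD : Dirs μ H δ A) {a : ℝ} (ha : 0 < a) : ConeH a μ A :=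
  cone_of92 hD hD.rate hD.grow (hS.leaves hD) (subH_all35 hD one_pos hD.grow (hS.frame H δ A hD).luck) ha

/-- The halving of the caps. -/
theorem SecH.halv (hS : SecH μ) (hD : Dirs μ H δ A) : HalvH μ A := halv_of92 hD hD.rate (hS.cone hD one_pos)

/-- The lower bound of power type of the rate functions. -/
theorem SecH.powJ (hS : SecH μ) (hD : Dirs μ H δ A) : PowJ μ A := powJ_of92 hD hD.rate hD.grow (hS.leaves hD)

/-- The lanes at every scale. -/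
theorem SecH.lane (hS : SecH μ) (hD : Dirs μ H δ A) : ∃ C3 Cm : ℝ, LaneH 1 μ A C3 Cm := by
  obtain ⟨r, C3, hcore⟩ := hS.core H δ A hD
  exact ⟨C3, 1 + r, laneH_of92 (hS.cone hD one_pos) hcore⟩

/-- The comparison of the widths of two tilts. -/
theorem SecH.cmp (hS : SecH μ) (hD : Dirs μ H δ A) : ∃ C3 Cm : ℝ, CmpH 1 μ A C3 Cm := by
  obtain ⟨C3, Cm, hL⟩ := hS.lane hD
  exact ⟨C3, Cm, cmpH_all hD hD.grow one_pos (hS.frame H δ A hD).cheap hL⟩

/-- **(BALANCE), (DOUBLING)** and the comparison of the two sides, for a smaller family of tilts. -/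
theorem SecH.dbl (hS : SecH μ) (hD : Dirs μ H δ A) {A0 : Set ℝ} (hA : A0 ⊆ A) {t0 : ℝ} (hF : FamH A0 A t0) :
    BalH 1 μ A0 ∧ DblH μ A0 ∧ SymH μ A0 := by
  obtain ⟨C3, Cm, hC⟩ := hS.cmp hD
  exact dblH_cmp35 hD le_rfl hD.rate hD.grow (hS.halv hD) hA hF hC

/-- The family of the tilts of a bounded interval is contained in the one of a larger interval. -/
theorem famIcc92 {H H' : ℝ} (h : H + 1 ≤ H') : FamH (Icc (-H) H) (Icc (-H') H') 1 :=
  ⟨one_pos, fun s hs σ hσ => ⟨by linarith [hs.1, (abs_le.1 hσ).1], by linarith [hs.2, (abs_le.1 hσ).2]⟩⟩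

/-- **The conclusions on a bounded interval of tilts.** -/
structure OutH (μ : Measure ℝ) (H : ℝ) : Prop where
  dirs : ∃ δ : ℝ, Dirs μ H δ (Icc (-H) H)
  frame : FrameH 1 μ (Icc (-H) H)
  cone : ∀ a : ℝ, 0 < a → ConeH a μ (Icc (-H) H)
  halv : HalvH μ (Icc (-H) H)
  pow : PowJ μ (Icc (-H) H)
  bal : BalH 1 μ (Icc (-H) H)
  dbl : DblH μ (Icc (-H) H)
  sym : SymH μ (Icc (-H) H)
  sup : SupH μ (Icc (-H) H)
  two : TwoH μ (Icc (-H) H)
  inn : InnH μ (Icc (-H) H)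

/-- **TRACK H**, parts 1 and 2: everything from the sections. -/
theorem SecH.out (hS : SecH μ) (hμ : EM μ) (hnd : Nondeg μ) (H : ℝ) : OutH μ H := by
  have hI : Icc (-H) H ⊆ Icc (-(H + 1)) (H + 1) := Icc_subset_Icc (by linarith) (by linarith)
  have hI1 : Icc (-(H + 1)) (H + 1) ⊆ Icc (-(H + 2)) (H + 2) := Icc_subset_Icc (by linarith) (by linarith)
  obtain ⟨d0, h0⟩ := dirs_Icc hμ hnd H
  obtain ⟨d1, h1⟩ := dirs_Icc hμ hnd (H + 1)
  obtain ⟨d2, h2⟩ := dirs_Icc hμ hnd (H + 2)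
  obtain ⟨hb1, hdb1, hs1⟩ := hS.dbl h2 hI1 (famIcc92 (by linarith))
  obtain ⟨hb0, hdb0, hs0⟩ := hS.dbl h1 hI (famIcc92 le_rfl)
  obtain ⟨ρ, hJ⟩ := h1.J_tilt
  have hF : FamH (Icc (-H) H) (Icc (-(H + 1)) (H + 1)) 1 := famIcc92 le_rfl
  have hT : TwoH μ (Icc (-H) H) := twoH_of14 h1 hJ hI hF h1.rate (hS.cone h1 one_pos) hs1
  obtain ⟨β, C, δ, T, L, x₁, -, -, -, hgr, -, -⟩ := hS.cone h0 one_pos
  exact ⟨⟨d0, h0⟩, hS.frame H d0 _ h0, fun a ha => hS.cone h0 ha, hS.halv h0, hS.powJ h0, hb0, hdb0, hs0,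
    supH_of14 h1 hJ hI hF hs1, hT, innH_of14 h0 h0.rate h0.grow ⟨T, x₁, hgr⟩ hT⟩

end Pool.Agent.W_7d29a1_H
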