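import Pool.Agent.W_7d29a1_H.OctHa52

/-!
MP_7d29a1_pr, TRACK H (all tilts), section (D4): the wall in the mean (1.5), and the inner edge (IN) in the flat window: the
cells have the width `dl * N`, the connections are flat by (1.3). Port of `W_1b8d5d_h52p/OctPb`. (helper52)
-/

set_option autoImplicit false

namespace Pool.Agent.W_7d29a1_H

open MeasureTheory ProbabilityTheory Filter Topology Set
open Pool.Agent.W_7d29a1_F Pool.Agent.W_7d29a1_h4g
open Pool.Agent.W_1b8d5d_p (wR wL Rf SlowU)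

variable {μ : Measure ℝ} [IsProbabilityMeasure μ] {H δ : ℝ} {A : Set ℝ} {s sg A0 A1 : ℝ} {k z0 z1 n : ℕ}

/-- The duration of the connections. -/
private theorem exists_S52 {v c0 : ℝ} (hvn0 : 0 < v) (hc0 : 0 < c0) {n w : ℕ} (hw : 1 ≤ w) (hv : v ≤ 1)
    (hwn : 2 * ((w : ℝ) + 2) + c0 * v ≤ c0 * (n * v)) :
    ∃ S : ℕ, 1 ≤ S ∧ S ≤ n ∧ 2 * ((w : ℝ) + 2) ≤ c0 * (S * v) ∧ S * v ≤ (6 / c0 + 1) * w := by
  have hw' : (1 : ℝ) ≤ w := by exact_mod_cast hw
  obtain ⟨q, hq⟩ : ∃ q : ℝ, q = 2 * ((w : ℝ) + 2) / (c0 * v) := ⟨_, rfl⟩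
  have hq0 : 0 < q := by rw [hq]; positivity
  have hqe : q * (c0 * v) = 2 * ((w : ℝ) + 2) := by
    rw [hq, div_mul_cancel₀]
    positivity
  have h1 := Nat.le_ceil q
  have h2 := Nat.ceil_lt_add_one hq0.le
  refine ⟨⌈q⌉₊, Nat.ceil_pos.2 hq0, ?_, ?_, ?_⟩
  · have h3 : q + 1 ≤ n := by
      have h4 : (q + 1) * (c0 * v) ≤ n * (c0 * v) := by
        rw [add_mul, hqe, one_mul]
        linarith
      exact le_of_mul_le_mul_right h4 (by positivity)
    have h4 : (⌈q⌉₊ : ℝ) < n := by linarith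
    exact_mod_cast h4.le
  · calc 2 * ((w : ℝ) + 2) = q * (c0 * v) := hqe.symm
      _ ≤ ⌈q⌉₊ * (c0 * v) := mul_le_mul_of_nonneg_right h1 (by positivity)
      _ = c0 * (⌈q⌉₊ * v) := by ring
  · calc (⌈q⌉₊ : ℝ) * v ≤ (q + 1) * v := mul_le_mul_of_nonneg_right h2.le hvn0.le
      _ = 2 * ((w : ℝ) + 2) / c0 + v := by rw [hq]; field_simp
      _ ≤ 6 * w / c0 + w := by
        refine add_le_add ?_ (hv.trans hw')
        exact div_le_div_of_nonneg_right (by linarith) hc0.le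
      _ = (6 / c0 + 1) * w := by ring


/-- **(1.5)** THE WALL IN THE MEAN. `T * J` outside of the edge, in the unit of the scale `2 ^ w`. -/
theorem FW.wall (W : FW μ s A0 A1 k z0 z1) (h : Dirs μ H δ A) (hs : s ∈ A) (hsg : sg = 1 ∨ sg = -1) (hA0 : 0 < A0)
    {w N T : ℕ} (hw0 : z0 ≤ w) (hw1 : w ≤ z1) (hN : 2 ^ w ≤ 8 * N) (hT : 1 ≤ T) (hTN : T ≤ N) {C x : ℝ} (hC : 1 ≤ C)
    (hx : vs A0 μ s sg (2 ^ z1) + C * dl A0 μ s z0 z1 * (N / T) ≤ x) :
    (C - 1) * (A0 / 50) * EE μ s (2 ^ w) ≤ T * J μ s (sg * x) := by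
  have hl := W.len4
  obtain ⟨D, hD⟩ : ∃ D, D = dl A0 μ s z0 z1 := ⟨_, rfl⟩
  have hDp : 0 < D := by rw [hD]; exact W.dl_pos h hs hA0
  rw [← hD] at hx
  have hgap := op_gap h hs hsg hA0.le (show z0 ≤ z1 by omega)
  rw [← hD] at hgap
  have hT0 : (0 : ℝ) < T := by exact_mod_cast hT
  have hN0 : (0 : ℝ) < N := by exact_mod_cast (hT.trans hTN)
  have hTN' : (1 : ℝ) ≤ N / T := by
    rw [le_div_iff₀ hT0, one_mul]
    exact_mod_cast hTN
  obtain ⟨r, hr⟩ : ∃ r, r = x - vs A0 μ s sg (2 ^ z0) := ⟨_, rfl⟩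
  have hr1 : (C - 1) * D * (N / T) ≤ r := by
    rw [hr]
    have : D * 1 ≤ D * (N / T) := mul_le_mul_of_nonneg_left hTN' hDp.le
    nlinarith
  have hr0 : 0 ≤ r := le_trans (by have : 0 ≤ C - 1 := by linarith
                                   positivity) hr1
  have h4 := W.far h hs hsg hA0 hr0
  rw [← hD, show vs A0 μ s sg (2 ^ z0) + r = x by rw [hr]; ring] at h4
  have hE0 := EE_pos (μ := μ) (s := s) (2 ^ z0)
  have e3 : (((2 ^ z0 : ℕ)) : ℝ) = 2 ^ z0 := by push_cast; ring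
  rw [e3] at h4
  have hz : (0 : ℝ) < 2 ^ z0 := by positivity
  obtain ⟨j0, hj0⟩ : ∃ j0, j0 = A0 * EE μ s (2 ^ z0) / 2 ^ z0 := ⟨_, rfl⟩
  have hj0p : 0 < j0 := by rw [hj0]; positivity
  rw [← hj0] at h4
  -- T J ≥ (C - 1) / 2 * N * j0
  have h5 : (C - 1) / 2 * (N * j0) ≤ T * J μ s (sg * x) := by
    have h6 : j0 * (r / (2 * D)) ≤ J μ s (sg * x) := by linarith
    have h7 : (C - 1) * (N / T) / 2 ≤ r / (2 * D) := by
      rw [le_div_iff₀ (by positivity)]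
      have e : (C - 1) * (N / T) / 2 * (2 * D) = (C - 1) * D * (N / T) := by ring
      rw [e]
      exact hr1
    have h8 := mul_le_mul_of_nonneg_left h7 hj0p.le
    have h9 := mul_le_mul_of_nonneg_left (h8.trans h6) hT0.le
    have e2 : (T : ℝ) * (j0 * ((C - 1) * (N / T) / 2)) = (C - 1) / 2 * (N * j0) := by
      field_simp
    rw [e2] at h9
    exact h9
  -- N * j0 ≥ A0 / 24 * EE (2 ^ w)
  have h10 := W.slow z0 w le_rfl hw0 hw1
  have h11 : ((2 : ℝ) ^ w) ≤ 8 * N := by exact_mod_cast hN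
  have e4 : (2 : ℝ) ^ w = 2 ^ z0 * 2 ^ (w - z0) := by
    rw [← pow_add]
    congr 1
    omega
  have h12 : A0 / 24 * EE μ s (2 ^ w) ≤ N * j0 := by
    have hp : (5 / 4 : ℝ) ^ (w - z0) ≤ 2 ^ (w - z0) := pow_le_pow_left₀ (by norm_num) (by norm_num) _
    have h13 : EE μ s (2 ^ w) ≤ 3 * 2 ^ (w - z0) * EE μ s (2 ^ z0) :=
      h10.trans (mul_le_mul_of_nonneg_right (mul_le_mul_of_nonneg_left hp (by norm_num)) hE0.le)
    have h14 : A0 / 24 * EE μ s (2 ^ w) ≤ A0 / 24 * (3 * 2 ^ (w - z0) * EE μ s (2 ^ z0)) :=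
      mul_le_mul_of_nonneg_left h13 (by positivity)
    have h15 : (2 : ℝ) ^ (w - z0) ≤ 8 * N / 2 ^ z0 := by
      rw [le_div_iff₀ hz]
      rw [e4] at h11
      linarith
    have h16 : A0 / 24 * (3 * 2 ^ (w - z0) * EE μ s (2 ^ z0)) ≤ A0 / 24 * (3 * (8 * N / 2 ^ z0) * EE μ s (2 ^ z0)) := by
      refine mul_le_mul_of_nonneg_left ?_ (by positivity)
      refine mul_le_mul_of_nonneg_right ?_ hE0.le
      exact mul_le_mul_of_nonneg_left h15 (by norm_num)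
    have e5 : A0 / 24 * (3 * (8 * N / 2 ^ z0) * EE μ s (2 ^ z0)) = N * j0 := by
      rw [hj0]
      field_simp
      ring
    linarith
  have hEw := EE_pos (μ := μ) (s := s) (2 ^ w)
  have h17 : 0 ≤ (C - 1) * (A0 * EE μ s (2 ^ w)) := by
    have : 0 ≤ C - 1 := by linarith
    positivity
  have h18 := mul_le_mul_of_nonneg_left h12 (show 0 ≤ (C - 1) / 2 by linarith)
  nlinarith

/-- **(IN) IN THE FLAT WINDOW.** -/
theorem in_flat (h : Dirs μ H δ A) (hR : Rate μ A) (hA0 : 0 < A0) (h01 : A0 < A1) {c0 : ℝ} (hc0 : 0 < c0)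
    (hIN : InWH μ A A0 A0 A1 c0) : InFH μ A A0 A1 c0 := by
  obtain ⟨Ci, c1, n1, hCi, hc1, hin⟩ := hIN
  obtain ⟨n2, hn2, hv1⟩ := h.vA_small hR hA0 one_pos
  obtain ⟨c3, hc3⟩ : ∃ c3, c3 = A1 - A0 := ⟨_, rfl⟩
  have hc3p : 0 < c3 := by
    rw [hc3]
    linarith
  obtain ⟨C3, hC3⟩ : ∃ C3 : ℝ, C3 = 1 + 1 / c3 := ⟨_, rfl⟩
  have hC3p : 0 < C3 := by rw [hC3]; positivity
  obtain ⟨c', hc', hc'1, hc'2, hc'3⟩ : ∃ c' : ℝ, 0 < c' ∧ c' ≤ 1 ∧ 2 * (C3 + 2 / c3) * c' ≤ c0 / 2 ∧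
      (6 / c0 + 1) * C3 * c' ≤ 1 / 4 := by
    refine ⟨min 1 (min (c0 / 2 / (2 * (C3 + 2 / c3))) (1 / 4 / ((6 / c0 + 1) * C3))), ?_, min_le_left _ _, ?_, ?_⟩
    · refine lt_min one_pos (lt_min ?_ ?_) <;> positivity
    · have h1 : min 1 (min (c0 / 2 / (2 * (C3 + 2 / c3))) (1 / 4 / ((6 / c0 + 1) * C3))) ≤ c0 / 2 / (2 * (C3 + 2 / c3)) :=
        (min_le_right _ _).trans (min_le_left _ _)
      rw [le_div_iff₀ (by positivity)] at h1
      linarith
    · have h1 : min 1 (min (c0 / 2 / (2 * (C3 + 2 / c3))) (1 / 4 / ((6 / c0 + 1) * C3))) ≤ 1 / 4 / ((6 / c0 + 1) * C3) :=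
        (min_le_right _ _).trans (min_le_right _ _)
      rw [le_div_iff₀ (by positivity)] at h1
      linarith
  refine ⟨Ci * C3, c1, c', max n1 (max n2 2), by positivity, hc1, hc', ?_⟩
  intro s hs k z0 z1 W hk hdl N hN hNlo hNhi y hy1 hy2
  have hNn1 : n1 ≤ N := (le_max_left _ _).trans hN
  have hNn2 : n2 ≤ N := ((le_max_left _ _).trans (le_max_right _ _)).trans hN
  have hN2 : 2 ≤ N := ((le_max_right _ _).trans (le_max_right _ _)).trans hN
  have hN2r : (2 : ℝ) ≤ N := by exact_mod_cast hN2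
  have hl := W.len4
  have hz0N : 2 ^ z0 ≤ N := (Nat.pow_le_pow_right (by norm_num) (by omega)).trans hNlo
  obtain ⟨D, hD⟩ : ∃ D, D = dl A0 μ s z0 z1 := ⟨_, rfl⟩
  have hDp : 0 < D := by rw [hD]; exact W.dl_pos h hs hA0
  have hthick := W.thick h hs hA0 h01 hNlo hNhi
  have hloR := W.lo (sg := 1) h hs (Or.inl rfl) hA0 hz0N hNhi
  have hloL := W.lo (sg := -1) h hs (Or.inr rfl) hA0 hz0N hNhi
  have hthin : ∀ sg : ℝ, sg = 1 ∨ sg = -1 → vs A1 μ s sg N - vs A0 μ s sg N ≤ D := by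
    intro sg hsg
    rw [hD]
    exact W.thin h hs hsg hA0 h01 hNlo hNhi
  rw [← hD] at hthick hdl hy1 hy2
  rw [vs_one, vs_one] at hloR
  rw [vs_neg, vs_neg] at hloL
  have hA1 : 0 < A1 := hA0.trans h01
  have hmR := vs_mono (n := N) (sg := 1) h hs (Or.inl rfl) hA0.le h01.le
  have hmL := vs_mono (n := N) (sg := -1) h hs (Or.inr rfl) hA0.le h01.le
  rw [vs_one, vs_one] at hmR
  rw [vs_neg, vs_neg] at hmL
  obtain ⟨V1, hV1⟩ : ∃ V1, V1 = vA A0 μ s (2 ^ z1) := ⟨_, rfl⟩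
  obtain ⟨v, hv⟩ : ∃ v, v = vA A0 μ s N := ⟨_, rfl⟩
  rw [← hV1] at hdl
  have hV1p : 0 < V1 := by rw [hV1]; exact h.vA_pos hs hA0 Nat.one_le_two_pow
  have hV1v : V1 ≤ v := by
    rw [hV1, hv]
    unfold vA
    linarith
  have hvp : 0 < v := hV1p.trans_le hV1v
  have hNr : (0 : ℝ) < N := by linarith
  have hDN : c3 ≤ D * N := by
    rw [← hc3] at hthick
    exact (le_mul_of_one_le_right hc3p.le (one_le_EE N)).trans hthick
  -- the cells
  obtain ⟨w, hw⟩ : ∃ w : ℕ, w = ⌈D * N⌉₊ := ⟨_, rfl⟩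
  have hw1 : D * N ≤ w := by rw [hw]; exact Nat.le_ceil _
  have hw2 : (w : ℝ) ≤ C3 * (D * N) := by
    have h1 : (w : ℝ) < D * N + 1 := by rw [hw]; exact Nat.ceil_lt_add_one (by positivity)
    have h2 : 1 ≤ 1 / c3 * (D * N) := by
      rw [one_div, inv_mul_eq_div, le_div_iff₀ hc3p, one_mul]
      exact hDN
    rw [hC3]
    linarith
  have hwpos : 1 ≤ w := by
    have h1 : (0 : ℝ) < w := lt_of_lt_of_le (by positivity) hw1
    exact_mod_cast h1
  have hw3 : (w : ℝ) + 2 ≤ (C3 + 2 / c3) * (D * N) := by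
    have h2 : 2 ≤ 2 / c3 * (D * N) := by
      rw [div_mul_eq_mul_div, le_div_iff₀ hc3p]
      linarith
    linarith
  -- D * N ≤ c' * (N * v)
  have hDNv : D * N ≤ c' * (N * v) := by
    have h1 : D ≤ c' * v := hdl.trans (mul_le_mul_of_nonneg_left hV1v hc'.le)
    have h2 := mul_le_mul_of_nonneg_right h1 hNr.le
    linarith
  have hroom : 2 * ((w : ℝ) + 2) ≤ c0 / 2 * (N * v) := by
    have h1 : (C3 + 2 / c3) * (D * N) ≤ (C3 + 2 / c3) * (c' * (N * v)) :=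
      mul_le_mul_of_nonneg_left hDNv (by positivity)
    have h2 : 2 * (C3 + 2 / c3) * c' * (N * v) ≤ c0 / 2 * (N * v) :=
      mul_le_mul_of_nonneg_right hc'2 (by positivity)
    linarith
  obtain ⟨S, hS1, hSN, hS2, hS3⟩ := exists_S52 (h.vA_pos hs hA0 (n := N) (by omega)) hc0 (n := N) (w := w) hwpos
    (hv1 s hs N hNn2) (by
    rw [← hv]
    have h1 : c0 * v ≤ c0 / 2 * (N * v) := by
      have h2 : c0 * v * 2 ≤ c0 * v * N := mul_le_mul_of_nonneg_left hN2r (by positivity)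
      linarith
    linarith)
  rw [← hv] at hS2 hS3
  have hSr : (0 : ℝ) < S := by exact_mod_cast hS1
  -- the connection is short
  have hSsmall : (S : ℝ) ≤ N / 4 := by
    have h1 : S * v ≤ (6 / c0 + 1) * (C3 * (c' * (N * v))) := by
      refine hS3.trans (mul_le_mul_of_nonneg_left ?_ (by positivity))
      exact hw2.trans (mul_le_mul_of_nonneg_left hDNv hC3p.le)
    have h2 : (6 / c0 + 1) * (C3 * (c' * (N * v))) = (6 / c0 + 1) * C3 * c' * (N * v) := by ring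
    have h3 : (6 / c0 + 1) * C3 * c' * (N * v) ≤ 1 / 4 * (N * v) := mul_le_mul_of_nonneg_right hc'3 (by positivity)
    have h4 : v * S ≤ v * (N / 4) := by linarith
    exact le_of_mul_le_mul_left h4 hvp
  have hS2N : 2 * S + 1 ≤ N := by
    have h1 : (2 * S + 1 : ℝ) ≤ N := by linarith
    exact_mod_cast h1
  -- the connection is flat
  have hV0 : vA A0 μ s (2 ^ z0) ≤ 2 * V1 := by
    have h1 : D = vA A0 μ s (2 ^ z0) - V1 := by rw [hD, hV1]; rfl
    have h2 : c' * V1 ≤ 1 * V1 := mul_le_mul_of_nonneg_right hc'1 hV1p.le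
    linarith
  have hflat : vA A0 μ s S ≤ 8 * v := by
    rcases le_total (2 ^ z0) S with h1 | h1
    · have h2 := h.vA_le_two hs hA0.le (n := 2 ^ z0) (n' := S) Nat.one_le_two_pow h1
      linarith
    · have h2 := W.small_vA h hs hA0 hA0.le hS1 h1
      rw [← hD, div_self hA0.ne', mul_one] at h2
      have h3 : D * N ≤ c0 / 2 * (S * v) := by linarith
      have h4 : (2 : ℝ) ^ z0 * c0 ≤ N := by
        have h5 : (2 : ℝ) ^ (z0 + k) ≤ N := by exact_mod_cast hNlo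
        have h6 : (2 : ℝ) ^ z0 * c0 ≤ 2 ^ z0 * 2 ^ k := mul_le_mul_of_nonneg_left hk (by positivity)
        rw [pow_add] at h5
        linarith
      have h7 : D * (2 ^ z0 / S) ≤ v / 2 := by
        rw [mul_div_assoc', div_le_iff₀ hSr]
        have h8 : N * (D * 2 ^ z0) ≤ N * (v / 2 * S) := by
          have h9 : D * N * 2 ^ z0 ≤ c0 / 2 * (S * v) * 2 ^ z0 := mul_le_mul_of_nonneg_right h3 (by positivity)
          have h10 : (S * v / 2) * (2 ^ z0 * c0) ≤ (S * v / 2) * N := mul_le_mul_of_nonneg_left h4 (by positivity)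
          linarith
        exact le_of_mul_le_mul_left h8 hNr
      have h11 : 4 * D * (2 ^ z0 / S) = 4 * (D * (2 ^ z0 / S)) := by ring
      rw [h11] at h2
      linarith
  refine hin s hs N hNn1 w S hwpos hS1 hS2N ?_ (by rw [← hv]; exact hS2) (by rw [← hv]; exact hS3)
    (by rw [← hv]; exact hflat) y ?_ ?_
  · intro sg hsg
    have h1 := mul_le_mul_of_nonneg_left (hthin sg hsg) hNr.le
    linarith
  · have h1 : Ci * w ≤ Ci * (C3 * (D * N)) := mul_le_mul_of_nonneg_left hw2 hCi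
    have h2 : vl A0 μ s (2 ^ z1) * N ≤ vl A1 μ s N * N := mul_le_mul_of_nonneg_right (hloL.trans hmL) hNr.le
    linarith
  · have h1 : Ci * w ≤ Ci * (C3 * (D * N)) := mul_le_mul_of_nonneg_left hw2 hCi
    have h2 : vr A0 μ s (2 ^ z1) * N ≤ vr A1 μ s N * N := mul_le_mul_of_nonneg_right (hloR.trans hmR) hNr.le
    linarith

end Pool.Agent.W_7d29a1_H
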