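import Pool.Agent.W_7d29a1_H.OctHa52
import Pool.Agent.W_7d29a1_H.OctHd52
import Pool.Agent.W_7d29a1_H.LnH
import Pool.Agent.W_7d29a1_H.MeanA
import Pool.Agent.W_7d29a1_H.MeanB

/-!
MP_7d29a1_pr, TRACK H (all tilts), section (D4): THE NUMBERS OF THE RIGHT INNER EDGE (`NumRH`). Model: `W_1b8d5d_p.NumX33`
(helper33), at `sg = 1`.
-/

set_option autoImplicit false
set_option maxHeartbeats 1600000

namespace Pool.Agent.W_7d29a1_H

open MeasureTheory ProbabilityTheory Filter Topology Set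
open Pool.Agent.W_7d29a1_F Pool.Agent.W_7d29a1_h4g
open Pool.Agent.W_7d29a1_h47 (EM Nondeg)

noncomputable section

variable {μ : Measure ℝ} [IsProbabilityMeasure μ] {H δ : ℝ} {A : Set ℝ} {s : ℝ} {A0 A1 : ℝ} {k z0 z1 n : ℕ}

/-! ### Small lemmas -/

/-- THE REFERENCES: two displacements at the distance `mu` in the cheap interval, one of them the cheapest. -/
theorem refs61 (hμ : EM μ) (s : ℝ) {n' : ℕ} {lo hi : ℤ} (hlo0 : 0 ≤ lo) (hhin : hi ≤ n') (hlo : lo ≤ xs μ s n')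
    (hhi : xs μ s n' ≤ hi) {b w : ℝ} (hb : ∀ y : ℤ, lo ≤ y → y ≤ hi → e μ s n' y ≤ b) {mu : ℤ} (hmu : 0 ≤ mu) (hw : 0 < w)
    (hw1 : w ≤ (hi : ℝ) - lo) (hmw : 2 * (mu : ℝ) ≤ w) :
    ∃ hh : ℤ, lo ≤ hh - mu ∧ hh ≤ hi ∧ e μ s n' hh ≤ e μ s n' (xs μ s n') + 2 * mu / w * b ∧
      e μ s n' (hh - mu) ≤ e μ s n' (xs μ s n') + 2 * mu / w * b := by
  obtain ⟨x, hx⟩ : ∃ x, x = xs μ s n' := ⟨_, rfl⟩
  rw [← hx] at hlo hhi ⊢
  have hx0 : 0 ≤ e μ s n' x := e_nonneg hμ s (hlo0.trans hlo) (hhi.trans hhin)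
  have hb0 : 0 ≤ b := hx0.trans (hb x hlo hhi)
  have hmu' : (0 : ℝ) ≤ mu := by exact_mod_cast hmu
  have hr : 0 ≤ 2 * mu / w * b := by positivity
  by_cases hc : w ≤ 2 * ((hi : ℝ) - x)
  · have h1 : x + mu ≤ hi := by
      have h2 : (x : ℝ) + mu ≤ hi := by linarith
      exact_mod_cast h2
    refine ⟨x + mu, by omega, h1, ?_, ?_⟩
    · have h2 := e_chord hμ s (n := n') (y0 := x) (y := x + mu) (y1 := hi) (by omega) (by omega) h1 hhin
      push_cast at h2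
      have h3 := hb hi (by omega) le_rfl
      have h4 : (0 : ℝ) < hi - x := by linarith
      have h5 : ((hi : ℝ) - x) * e μ s n' (x + mu) ≤ ((hi : ℝ) - x) * (e μ s n' x + 2 * mu / w * b) := by
        have h6 : ((hi : ℝ) - (x + mu)) * e μ s n' x ≤ ((hi : ℝ) - x) * e μ s n' x :=
          mul_le_mul_of_nonneg_right (by linarith) hx0
        have h7 : ((x : ℝ) + mu - x) * e μ s n' hi ≤ mu * b := by
          rw [add_sub_cancel_left]
          exact mul_le_mul_of_nonneg_left h3 hmu'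
        have h8 : mu * b ≤ ((hi : ℝ) - x) * (2 * mu / w * b) := by
          have h9 : w * (mu * b) ≤ (2 * ((hi : ℝ) - x)) * (mu * b) := mul_le_mul_of_nonneg_right hc (by positivity)
          have e1 : ((hi : ℝ) - x) * (2 * mu / w * b) = (2 * ((hi : ℝ) - x)) * (mu * b) / w := by
            field_simp
          rw [e1, le_div_iff₀ hw]
          linarith
        linarith
      exact le_of_mul_le_mul_left h5 h4
    · rw [add_sub_cancel_right]
      linarith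
  · rw [not_le] at hc
    have hc' : w ≤ 2 * ((x : ℝ) - lo) := by linarith
    have h1 : lo ≤ x - mu := by
      have h2 : (lo : ℝ) ≤ x - mu := by linarith
      exact_mod_cast h2
    refine ⟨x, h1, hhi, by linarith, ?_⟩
    have h2 := e_chord hμ s (n := n') (y0 := lo) (y := x - mu) (y1 := x) hlo0 h1 (by omega) (by omega)
    push_cast at h2
    have h3 := hb lo le_rfl (by omega)
    have h4 : (0 : ℝ) < x - lo := by linarith
    have h5 : ((x : ℝ) - lo) * e μ s n' (x - mu) ≤ ((x : ℝ) - lo) * (e μ s n' x + 2 * mu / w * b) := by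
      have h6 : ((x : ℝ) - mu - lo) * e μ s n' x ≤ ((x : ℝ) - lo) * e μ s n' x :=
        mul_le_mul_of_nonneg_right (by linarith) hx0
      have h7 : ((x : ℝ) - (x - mu)) * e μ s n' lo ≤ mu * b := by
        rw [sub_sub_cancel]
        exact mul_le_mul_of_nonneg_left h3 hmu'
      have h8 : mu * b ≤ ((x : ℝ) - lo) * (2 * mu / w * b) := by
        have h9 : w * (mu * b) ≤ (2 * ((x : ℝ) - lo)) * (mu * b) := mul_le_mul_of_nonneg_right hc' (by positivity)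
        have e1 : ((x : ℝ) - lo) * (2 * mu / w * b) = (2 * ((x : ℝ) - lo)) * (mu * b) / w := by
          field_simp
        rw [e1, le_div_iff₀ hw]
        linarith
      linarith
    exact le_of_mul_le_mul_left h5 h4

/-- Integer division from below. -/
theorem div_lo61 {a : ℤ} {N : ℤ} (hN : 1 ≤ N) {x : ℝ} (h : x * N ≤ a) : x - 1 ≤ ((a / N : ℤ) : ℝ) := by
  have hN0 : (0 : ℝ) < N := by exact_mod_cast hN
  have h1 : a < (a / N + 1) * N := Int.lt_ediv_add_one_mul_self a (by omega)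
  have h2 : (a : ℝ) < (((a / N : ℤ) : ℝ) + 1) * N := by exact_mod_cast h1
  have h3 : x * N < (((a / N : ℤ) : ℝ) + 1) * N := lt_of_le_of_lt h h2
  have h4 := lt_of_mul_lt_mul_right h3 hN0.le
  linarith

/-- Integer division from above. -/
theorem div_up61 {a : ℤ} {N : ℤ} (hN : 1 ≤ N) {x : ℝ} (h : (a : ℝ) ≤ x * N) : ((a / N : ℤ) : ℝ) ≤ x := by
  have hN0 : (0 : ℝ) < N := by exact_mod_cast hN
  have h1 : a / N * N ≤ a := Int.ediv_mul_le a (by omega)
  have h2 : ((a / N : ℤ) : ℝ) * N ≤ a := by exact_mod_cast h1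
  exact le_of_mul_le_mul_right (h2.trans h) hN0

/-- Right of the cheapest displacement the mean costs increase. -/
theorem e_incr61 (hμ : EM μ) (s : ℝ) {n : ℕ} {y : ℤ} (hy : xs μ s n ≤ y) (hyn : y + 1 ≤ n) : e μ s n y ≤ e μ s n (y + 1) := by
  have hx := xs_mem (μ := μ) (s := s) n
  rcases eq_or_lt_of_le hy with h | h
  · rw [← h]
    exact xs_le (by omega) (by omega)
  have h1 := e_chord hμ s hx.1 hy (show y ≤ y + 1 by omega) hyn
  have h2 := xs_le (μ := μ) (s := s) (hx.1.trans hy) (show y ≤ n by omega)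
  have h3 : (0 : ℝ) < y - xs μ s n := by
    have : (xs μ s n : ℝ) < y := by exact_mod_cast h
    linarith
  push_cast at h1
  refine le_of_mul_le_mul_left ?_ h3
  nlinarith

/-- THE WALL: a displacement of the duration `T` far right of the line. -/
theorem wall61 (h : Dirs μ H δ A) (hs : s ∈ A) (hA0 : 0 < A0) (W : FW μ s A0 A1 k z0 z1)
    {w N T : ℕ} (hw0 : z0 ≤ w) (hw1 : w ≤ z1) (hN : 2 ^ w ≤ 8 * N) (hNw : N ≤ 2 ^ w) (hT : 1 ≤ T) (hTN : T ≤ N)
    {CW Bw : ℝ} (hCW : 1 ≤ CW) (hBw : 0 < Bw) (hCWB : Bw + 1 ≤ (CW - 1) * (A0 / 50)) {Y : ℤ} (hY0 : 0 ≤ Y) (hYT : Y ≤ T)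
    (hY : vr A0 μ s (2 ^ z1) * T + CW * (dl A0 μ s z0 z1 * N) ≤ (Y : ℝ) - sl μ s * T) :
    ∃ c : ℤ, 0 ≤ c ∧ c ≤ T ∧ c ≤ Y ∧ Bw * EE μ s (2 ^ w) < e μ s T Y - e μ s T c := by
  have hT0 : (0 : ℝ) < T := by exact_mod_cast hT
  have hl := W.len4
  have hD : 0 ≤ dl A0 μ s z0 z1 := op_dl_nonneg h hs hA0.le (by omega)
  have hvs : 0 ≤ vr A0 μ s (2 ^ z1) := h.vr_nonneg hs hA0.le _
  obtain ⟨x, hx⟩ : ∃ x : ℝ, x = (Y : ℝ) / T - sl μ s := ⟨_, rfl⟩
  have hx1 : vr A0 μ s (2 ^ z1) + CW * dl A0 μ s z0 z1 * (N / T) ≤ x := by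
    have e1 : x = ((Y : ℝ) - sl μ s * T) / T := by
      rw [hx]
      field_simp
    rw [e1, le_div_iff₀ hT0]
    have e2 : (vr A0 μ s (2 ^ z1) + CW * dl A0 μ s z0 z1 * (N / T)) * T =
        vr A0 μ s (2 ^ z1) * T + CW * (dl A0 μ s z0 z1 * N) := by
      field_simp
    rw [e2]
    exact hY
  have hx0 : 0 ≤ x := by
    have : 0 ≤ CW * dl A0 μ s z0 z1 * (N / T) := by positivity
    linarith
  have h1 := W.wall (sg := 1) (x := x) h hs (Or.inl rfl) hA0 hw0 hw1 hN hT hTN hCW (by rw [vs_one]; exact hx1)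
  rw [one_mul] at h1
  have hE := EE_pos (μ := μ) (s := s) (2 ^ w)
  have h2 := mul_le_mul_of_nonneg_right hCWB hE.le
  have h3 := e_ge h.em h.nd s hT hY0 hYT
  rw [← hx] at h3
  have hxm := xs_mem (μ := μ) (s := s) T
  have hxe : e μ s T (xs μ s T) + 1 ≤ EE μ s (2 ^ w) := by
    have h4 := e_xs_le h.em s T
    have h5 := le_EE (μ := μ) (s := s) (hTN.trans hNw)
    linarith
  refine ⟨xs μ s T, hxm.1, hxm.2, ?_, by linarith⟩
  by_contra hcon
  rw [not_le] at hcon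
  have h4 : x ≤ (xs μ s T : ℝ) / T - sl μ s := by
    rw [hx]
    have : (Y : ℝ) / T ≤ (xs μ s T : ℝ) / T := div_le_div_of_nonneg_right (by exact_mod_cast hcon.le) hT0.le
    linarith
  have h5 := (h.rf hs).mono hx0 h4
  have h6 := e_ge h.em h.nd s hT hxm.1 hxm.2
  have h7 := mul_le_mul_of_nonneg_left h5 hT0.le
  have h8 : 0 < Bw * EE μ s (2 ^ w) := by positivity
  linarith

/-- Location of the end point (pure). -/
theorem loc61 {q D G L N M n' Rs V1 Ci Ce zz hv : ℝ} (hG : G = D * L) (hG1 : 1 ≤ G) (hN : N + M * n' = (M + 1) * L)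
    (hM : 1 ≤ M) (hn : 0 ≤ n') (hRV : Rs ≤ V1) (hnV : n' * V1 ≤ G) (hDN : D * N ≤ (M + 1) * G) (hCi : 0 ≤ Ci)
    (hCe : Ci + 16 ≤ Ce) (hz : q * N + (Rs - Ci * D) * N < zz + 1) (hh : q * n' - (12 * G + 2) ≤ hv) :
    ((q + (Rs - Ce * D)) * L + 1) * (M + 1) ≤ zz + M * hv := by
  have g2 : M * (q * n' - (12 * G + 2)) ≤ M * hv := mul_le_mul_of_nonneg_left hh (by positivity)
  have g3 : Rs * (M * n') ≤ M * G := by
    have g4 : n' * Rs ≤ n' * V1 := mul_le_mul_of_nonneg_left hRV hn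
    have := mul_le_mul_of_nonneg_left (g4.trans hnV) (show (0 : ℝ) ≤ M by positivity)
    linarith
  have g5 : Ci * (D * N) ≤ Ci * ((M + 1) * G) := mul_le_mul_of_nonneg_left hDN hCi
  have g6 : (Ci + 16) * ((M + 1) * G) ≤ Ce * ((M + 1) * G) := mul_le_mul_of_nonneg_right hCe (by positivity)
  have g7 : (M + 1 : ℝ) * 1 ≤ (M + 1) * G := mul_le_mul_of_nonneg_left hG1 (by positivity)
  have e1 : N = (M + 1) * L - M * n' := by linarith
  have e3 : ((q + (Rs - Ce * D)) * L + 1) * (M + 1) =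
      (M + 1) * (q * L) + Rs * ((M + 1) * L) - Ce * ((M + 1) * (D * L)) + (M + 1) := by ring
  rw [e3, ← hG]
  have e4 : q * N + M * (q * n') = (M + 1) * (q * L) := by rw [e1]; ring
  have e5 : Rs * N = Rs * ((M + 1) * L) - Rs * (M * n') := by rw [e1]; ring
  have g8 : M * 1 ≤ M * G := mul_le_mul_of_nonneg_left hG1 (by linarith)
  nlinarith

/-- The right wall of a window (pure). -/
theorem wr61 {q Rs V1 Ci CW DN T Jw δ lo : ℝ} (hq : 0 ≤ q * T) (hR : 0 ≤ Rs * T) (hCD : 0 ≤ CW * DN)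
    (hC : 0 ≤ (Ci + CW) * DN) (a1 : lo ≤ q * T + Rs * T - (Ci + CW) * DN)
    (a2 : q * T + Rs * T - (Ci + CW) * DN < lo + 1) (hJ : (Ci + 2 * CW) * DN ≤ Jw) (hRV : Rs * T ≤ V1 * T)
    (hV : V1 * T + Jw ≤ δ / 4 * T) (hhi : q * T ≤ (1 - δ) * T) (hδ : 16 ≤ δ * T) :
    Rs * T + CW * DN ≤ lo + Jw + 1 - q * T ∧ lo + Jw + 1 ≤ T ∧ 0 ≤ lo + Jw + 1 :=
  ⟨by linarith, by linarith, by linarith⟩

/-- The left wall of a window (pure). -/
theorem wl61 {q Rs V1 Ci CW DN T N u δ lo z : ℝ} (hu : u = N - T) (hq : 0 ≤ q * T) (hR : 0 ≤ Rs * T) (hCD : 0 ≤ CW * DN)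
    (a1 : lo ≤ q * u + Rs * u - (Ci + CW) * DN)
    (a2 : q * u + Rs * u - (Ci + CW) * DN < lo + 1) (z1 : z ≤ q * N + (Rs * N - Ci * DN))
    (z2 : q * N + (Rs * N - Ci * DN) < z + 1) (hRV : Rs * T ≤ V1 * T)
    (hV : V1 * T + CW * DN ≤ δ / 4 * T) (hhi : q * T ≤ (1 - δ) * T) (hδ : 16 ≤ δ * T) :
    Rs * T + CW * DN ≤ z - (lo - 1) - q * T ∧ z - (lo - 1) ≤ T ∧ 0 ≤ z - (lo - 1) := by
  subst hu
  exact ⟨by linarith, by linarith, by linarith⟩

/-- THE NUMBERS at one scale, all smallness conditions explicit. -/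
theorem num_scale61 (h : Dirs μ H δ A) (hs : s ∈ A) (hA0 : 0 < A0) (h01 : A0 < A1)
    (W : FW μ s A0 A1 k z0 z1) {y m M L : ℕ} (hy0 : z0 + k + 2 = y) (hz1 : y + m + 3 ≤ z1) (hM : 1 ≤ M)
    (hK : M + 1 = 2 ^ m) (hL1 : 2 ^ (y - 2) ≤ L) (hL2 : L ≤ 2 ^ y) {c0 C' : ℝ} (hc0 : 0 < c0) (hC' : 0 ≤ C')
    (hch : CheapI A0 μ A c0 C') {Ci c1 : ℝ} (hCi : 0 ≤ Ci) (hc1 : 1 ≤ c1)
    (hin : ∀ N : ℕ, 2 ^ (z0 + k) ≤ N → N ≤ 2 ^ (z1 - 3) → ∀ y : ℤ,
      -(vl A0 μ s (2 ^ z1) - Ci * dl A0 μ s z0 z1) * N ≤ y - sl μ s * N →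
      y - sl μ s * N ≤ (vr A0 μ s (2 ^ z1) - Ci * dl A0 μ s z0 z1) * N → e μ s N y ≤ c1 * EE μ s N)
    {Ce : ℝ} (hCe : Ci + 16 ≤ Ce) (hCek : (2 : ℝ) ^ (k + 1) ≤ Ce)
    (hdl : 2 * (Ce * dl A0 μ s z0 z1) ≤ vA A0 μ s (2 ^ z1)) {CW Bw : ℝ} (hCW : 1 ≤ CW) (hBw : 0 < Bw)
    (hCWB : Bw + 1 ≤ (CW - 1) * (A0 / 50)) {δ' rm : ℝ} (hδ : 0 < δ') (hδ1 : 16 * δ' ≤ c0)
    (hrm : 16 * δ' / c0 * C' ≤ rm) {J : ℕ} (hJ1 : 1 ≤ J)
    (hJ : 2 * ((Ci + 2 * CW) * (M + 1)) ≤ δ' * J)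
    (hV16 : 16 * vA A0 μ s (2 ^ z1) ≤ dl A0 μ s z0 z1 * L)
    (hDL1 : 1 ≤ dl A0 μ s z0 z1 * L) (hDL2 : 2 ≤ δ' * (dl A0 μ s z0 z1 * L)) (hDL3 : 8 ≤ c0 * (dl A0 μ s z0 z1 * L))
    (hVδ : vA A0 μ s (2 ^ z1) * (2 + J * δ' + (Ci + CW) * (M + 1)) ≤ δ / 4) (hLδ : 32 ≤ δ * L) :
    ∃ (n' N w : ℕ) (z h : ℤ) (lo : ℕ → ℤ),
      NumR μ s A0 z0 z1 (EE μ s (2 ^ (y + m))) L n' N M J w z h lo Ce c1 Bw rm := by
  have hl4 := W.len4
  have hDp0 := W.dl_pos h hs hA0
  have hV1p0 : 0 < vA A0 μ s (2 ^ z1) := h.vA_pos hs hA0 Nat.one_le_two_pow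
  obtain ⟨D, hD⟩ : ∃ D, D = dl A0 μ s z0 z1 := ⟨_, rfl⟩
  obtain ⟨V1, hV1⟩ : ∃ V, V = vA A0 μ s (2 ^ z1) := ⟨_, rfl⟩
  obtain ⟨E, hE⟩ : ∃ E, E = EE μ s (2 ^ (y + m)) := ⟨_, rfl⟩
  obtain ⟨Rs, hRs⟩ : ∃ R, R = vr A0 μ s (2 ^ z1) := ⟨_, rfl⟩
  obtain ⟨Ls, hLs⟩ : ∃ R, R = vl A0 μ s (2 ^ z1) := ⟨_, rfl⟩
  have hE0 : 0 < E := by rw [hE]; exact EE_pos _
  have hRs0 : 0 ≤ Rs := by rw [hRs]; exact h.vr_nonneg hs hA0.le _
  have hLs0 : 0 ≤ Ls := by rw [hLs]; exact h.vl_nonneg hs hA0.le _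
  have hV1R : V1 = Rs + Ls := by rw [hV1, hRs, hLs]; rfl
  have hRsV : Rs ≤ V1 := by linarith
  have hlo := h.lo s hs
  have hhi := h.hi s hs
  have hδ0 := h.δ0
  obtain ⟨q, hq⟩ : ∃ q, q = sl μ s := ⟨_, rfl⟩
  have hy2 : 2 ≤ y := by omega
  have p1 : (2 : ℝ) ^ y = 4 * 2 ^ (y - 2) := by
    obtain ⟨u, rfl⟩ : ∃ u, y = u + 2 := ⟨y - 2, by omega⟩
    rw [Nat.add_sub_cancel, pow_add]
    ring
  have hL1r : (2 : ℝ) ^ (y - 2) ≤ L := by exact_mod_cast hL1
  have hL2r : (L : ℝ) ≤ 2 ^ y := by exact_mod_cast hL2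
  have hL0 : (0 : ℝ) < L := lt_of_lt_of_le (by positivity) hL1r
  have hKr : (M : ℝ) + 1 = 2 ^ m := by exact_mod_cast hK
  have hMr : (1 : ℝ) ≤ M := by exact_mod_cast hM
  rw [← hD, ← hV1] at hdl
  rw [← hV1, ← hD] at hV16
  rw [← hV1] at hVδ
  rw [← hD] at hDL1 hDL2 hDL3 hDp0
  rw [← hV1] at hV1p0
  rw [← hRs, ← hLs, ← hD, ← hq] at hin
  rw [← hq] at hlo hhi
  obtain ⟨G, hG⟩ : ∃ G, G = D * L := ⟨_, rfl⟩
  rw [← hG] at hDL1 hDL2 hDL3 hV16
  have hG0 : 0 < G := by linarith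
  have hCe16 : 16 ≤ Ce := by linarith
  have hDV : 32 * D ≤ V1 := by
    have : 16 * D ≤ Ce * D := mul_le_mul_of_nonneg_right hCe16 hDp0.le
    linarith only [this, hdl]
  have hGV : 32 * G ≤ V1 * L := by
    rw [hG]
    have := mul_le_mul_of_nonneg_right hDV hL0.le
    linarith only [this]
  -- the window length
  obtain ⟨n', hn'⟩ : ∃ n' : ℕ, n' = ⌊G / V1⌋₊ := ⟨_, rfl⟩
  have f1 : (n' : ℝ) * V1 ≤ G := by
    rw [← le_div_iff₀ hV1p0, hn']
    exact Nat.floor_le (by positivity)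
  have f2 : G < (n' + 1) * V1 := by
    rw [← div_lt_iff₀ hV1p0, hn']
    exact Nat.lt_floor_add_one _
  have hn16 : (15 : ℝ) < n' := by
    have : 16 * V1 < (n' + 1) * V1 := lt_of_le_of_lt hV16 f2
    have := lt_of_mul_lt_mul_right this hV1p0.le
    linarith only [this]
  have hn8 : 15 < n' := by exact_mod_cast hn16
  have hn1 : 1 ≤ n' := by omega
  have hn0 : (0 : ℝ) < n' := by linarith
  have f3 : 15 / 16 * G ≤ n' * V1 := by linarith only [f2, hV16]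
  have f4 : 2 * Ce * n' ≤ L := by
    have g1 : 2 * Ce * n' * V1 ≤ L * V1 := by
      have g2 := mul_le_mul_of_nonneg_left f1 (show 0 ≤ 2 * Ce by linarith only [hCe16])
      have g3 := mul_le_mul_of_nonneg_right hdl hL0.le
      rw [hG] at g2
      linarith only [g2, g3]
    exact le_of_mul_le_mul_right g1 hV1p0
  have hn2 : 16 * n' ≤ L := by
    have g1 : (16 : ℝ) * n' ≤ L := by
      have g2 : (32 : ℝ) * n' ≤ 2 * Ce * n' := mul_le_mul_of_nonneg_right (by linarith only [hCe16]) hn0.le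
      linarith only [g2, f4, hn0]
    exact_mod_cast g1
  have hnz0 : n' ≤ 2 ^ z0 := by
    have g1 : (2 : ℝ) ^ (k + 2) * n' ≤ 2 ^ (k + 2) * 2 ^ z0 := by
      have g2 : (2 : ℝ) ^ (k + 2) * n' ≤ 2 * Ce * n' := by
        refine mul_le_mul_of_nonneg_right ?_ hn0.le
        rw [show k + 2 = k + 1 + 1 by omega, pow_succ]
        linarith only [hCek]
      have g3 : (2 : ℝ) ^ y = 2 ^ (k + 2) * 2 ^ z0 := by
        rw [← pow_add]
        congr 1
        omega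
      linarith only [g2, f4, hL2r, g3]
    have g2 := le_of_mul_le_mul_left g1 (by positivity)
    exact_mod_cast g2
  have hnL : n' ≤ L := by omega
  -- the cells
  obtain ⟨w, hw⟩ : ∃ w : ℕ, w = ⌊δ' * G⌋₊ := ⟨_, rfl⟩
  have m1 : (w : ℝ) ≤ δ' * G := by rw [hw]; exact Nat.floor_le (by positivity)
  have m2 : δ' * G < w + 1 := by rw [hw]; exact Nat.lt_floor_add_one _
  have m3 : δ' * G / 2 ≤ w := by linarith only [m2, hDL2]
  have hw1 : 1 ≤ w := by
    have g1 : (0 : ℝ) < w := by linarith only [m2, hDL2]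
    have g2 : 0 < w := by exact_mod_cast g1
    omega
  -- the widths of the windows
  have hww1 : G / 4 ≤ n' * vA A0 μ s n' := by
    have g1 := h.vA_le_two hs hA0.le hn1 (hnz0.trans (Nat.pow_le_pow_right (by norm_num) (show z0 ≤ z1 by omega)))
    rw [← hV1] at g1
    have g2 := mul_le_mul_of_nonneg_left g1 hn0.le
    linarith only [g2, f3, hG0]
  have hww2 : n' * vA A0 μ s n' ≤ 6 * G := by
    have g1 := W.small_vA h hs hA0 hA0.le hn1 hnz0
    rw [← hD, div_self hA0.ne', mul_one] at g1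
    have e1 : vA A0 μ s (2 ^ z0) = V1 + D := by
      rw [hD, hV1]
      unfold dl
      ring
    rw [e1] at g1
    have g2 := mul_le_mul_of_nonneg_left g1 hn0.le
    have e2 : (n' : ℝ) * (V1 + D + 4 * D * (2 ^ z0 / n')) = n' * V1 + n' * D + 4 * D * 2 ^ z0 := by
      field_simp
    rw [e2] at g2
    have g3 : (n' : ℝ) * D ≤ G := by
      have g4 : (n' : ℝ) ≤ L := by exact_mod_cast hnL
      rw [hG]
      have := mul_le_mul_of_nonneg_right g4 hDp0.le
      linarith only [this]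
    have g5 : (2 : ℝ) ^ z0 ≤ L := by
      have g6 : (2 : ℝ) ^ z0 ≤ 2 ^ (y - 2) := pow_le_pow_right₀ (by norm_num) (by omega)
      linarith only [g6, hL1r]
    have g7 : 4 * D * 2 ^ z0 ≤ 4 * G := by
      have := mul_le_mul_of_nonneg_left g5 (show 0 ≤ 4 * D by positivity)
      rw [hG]
      linarith only [this]
    linarith only [g2, f1, g3, g7]
  -- the references
  obtain ⟨lo, hi, r01, r1, r2, r02, r3, r4⟩ := hch s hs n' hn1
  unfold wH at r3 r4
  have hEn : EE μ s n' ≤ E := by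
    rw [hE]
    exact EE_mono (hnz0.trans (Nat.pow_le_pow_right (by norm_num) (by omega)))
  have r5 : c0 * G / 8 ≤ (hi : ℝ) - lo := by
    have g1 := mul_le_mul_of_nonneg_left hww1 hc0.le
    linarith only [g1, r3, hDL3]
  obtain ⟨hh, k1, k2, k3, k4⟩ := refs61 (b := C' * E) (w := c0 * G / 8) h.em s r01 r02 r1 r2
    (fun yy q1 q2 => ((r4 yy q1 q2).1).trans (mul_le_mul_of_nonneg_left hEn hC')) (mu := w) (Int.natCast_nonneg w) (by positivity) r5 (by
      have g1 := mul_le_mul_of_nonneg_right hδ1 hG0.le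
      rw [Int.cast_natCast]
      linarith only [g1, m1])
  rw [Int.cast_natCast] at k3 k4
  have hrm' : 2 * (w : ℝ) / (c0 * G / 8) * (C' * E) ≤ rm * E := by
    have e1 : 2 * (w : ℝ) / (c0 * G / 8) * (C' * E) = 16 * w / (c0 * G) * C' * E := by
      field_simp
      ring
    rw [e1]
    refine mul_le_mul_of_nonneg_right (le_trans (mul_le_mul_of_nonneg_right ?_ hC') hrm) hE0.le
    rw [div_le_div_iff₀ (by positivity) hc0]
    have := mul_le_mul_of_nonneg_right m1 (show 0 ≤ 16 * c0 by positivity)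
    linarith only [this]
  have hEm := le_Em (μ := μ) (s := s) hnL
  have hrefh : e μ s n' hh ≤ Em μ s L + rm * E := by linarith only [k3, hrm', hEm]
  have hrefh' : e μ s n' (hh - w) ≤ Em μ s L + rm * E := by linarith only [k4, hrm', hEm]
  have hw0' : 0 ≤ (w : ℤ) := Int.natCast_nonneg w
  have hloc1 := (r4 (hh - w) k1 (by linarith only [k2, hw0'])).2
  rw [← hq] at hloc1
  -- the total duration
  obtain ⟨t, ht⟩ : ∃ t : ℕ, L = t + n' := ⟨L - n', by omega⟩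
  have htL : L - n' = t := by omega
  have htr : (t : ℝ) + n' = L := by rw [ht]; push_cast; ring
  have ht15 : 15 * n' ≤ t := by omega
  have ht1 : 1 ≤ t := by omega
  have ht2 : (L : ℝ) ≤ 2 * t := by
    have : (15 : ℝ) * n' ≤ t := by exact_mod_cast ht15
    linarith only [this, htr, hn0]
  have ht16 : 15 * (L : ℝ) ≤ 16 * t := by
    have : (15 : ℝ) * n' ≤ t := by exact_mod_cast ht15
    linarith only [this, htr, hn0]
  obtain ⟨N, hN⟩ : ∃ N, N = (M + 1) * t + n' := ⟨_, rfl⟩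
  have hNr : (N : ℝ) = (M + 1) * t + n' := by rw [hN]; push_cast; ring
  have hNeq : (N : ℝ) + M * n' = (M + 1) * L := by rw [hNr, ← htr]; ring
  have hN15 : ((M : ℝ) + 1) * (15 * L) ≤ 16 * N := by
    have := mul_le_mul_of_nonneg_left ht16 (show (0 : ℝ) ≤ M + 1 by positivity)
    rw [hNr]
    linarith only [this, hn0]
  have hNle : (N : ℝ) ≤ (M + 1) * L := by
    have : (0 : ℝ) ≤ M * n' := by positivity
    linarith only [this, hNeq]
  have hNw : N ≤ 2 ^ (y + m) := by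
    have g1 : (N : ℝ) ≤ 2 ^ (y + m) := by
      have g2 : ((M : ℝ) + 1) * L ≤ 2 ^ m * 2 ^ y := by
        rw [hKr]
        exact mul_le_mul_of_nonneg_left hL2r (by positivity)
      rw [pow_add]
      linarith only [g2, hNle]
    exact_mod_cast g1
  have hNw8 : 2 ^ (y + m) ≤ 8 * N := by
    have g1 : (2 : ℝ) ^ (y + m) ≤ 8 * N := by
      have g2 : (2 : ℝ) ^ m * (15 * 2 ^ (y - 2)) ≤ (M + 1) * (15 * L) := by
        rw [hKr]
        exact mul_le_mul_of_nonneg_left (by linarith only [hL1r]) (by positivity)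
      have g3 : (2 : ℝ) ^ (y + m) = 4 * (2 ^ m * 2 ^ (y - 2)) := by
        rw [pow_add, p1]
        ring
      have g4 : (0 : ℝ) < 2 ^ m * 2 ^ (y - 2) := by positivity
      linarith only [g2, g3, g4, hN15]
    exact_mod_cast g1
  have hMt : (M + 1) * t = M * t + t := by ring
  have hNL' : L ≤ N := by omega
  have hNL : (L : ℝ) ≤ N := by exact_mod_cast hNL'
  have hNlo : 2 ^ (z0 + k) ≤ N := by
    have g1 : 2 ^ (z0 + k) ≤ 2 ^ (y - 2) := Nat.pow_le_pow_right (by norm_num) (by omega)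
    exact g1.trans (hL1.trans hNL')
  have hNhi : N ≤ 2 ^ (z1 - 3) := hNw.trans (Nat.pow_le_pow_right (by norm_num) (by omega))
  have hDN : 1 ≤ D * N := by
    have g1 := mul_le_mul_of_nonneg_left hNL hDp0.le
    rw [hG] at hDL1
    linarith only [g1, hDL1]
  have hN0 : (0 : ℝ) < N := by linarith only [hNL, hL0]
  have hDN2 : D * N ≤ (M + 1) * G := by
    have g1 := mul_le_mul_of_nonneg_left hNle hDp0.le
    rw [hG]
    linarith only [g1]
  have hENE : EE μ s N ≤ E := by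
    rw [hE]
    exact EE_mono hNw
  -- smallness
  have hJδ : 0 ≤ (J : ℝ) * δ' := by positivity
  have hCC : 0 ≤ (Ci + CW) * ((M : ℝ) + 1) := by positivity
  have s1 : V1 * 2 ≤ δ / 4 := by
    have : V1 * 2 ≤ V1 * (2 + J * δ' + (Ci + CW) * (M + 1)) := mul_le_mul_of_nonneg_left (by linarith only [hJδ, hCC]) hV1p0.le
    linarith only [this, hVδ]
  have s2 : V1 * (1 + J * δ') ≤ δ / 4 := by
    have : V1 * (1 + J * δ') ≤ V1 * (2 + J * δ' + (Ci + CW) * (M + 1)) := mul_le_mul_of_nonneg_left (by linarith only [hJδ, hCC]) hV1p0.le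
    linarith only [this, hVδ]
  have s3 : V1 * (1 + (Ci + CW) * (M + 1)) ≤ δ / 4 := by
    have : V1 * (1 + (Ci + CW) * (M + 1)) ≤ V1 * (2 + J * δ' + (Ci + CW) * (M + 1)) :=
      mul_le_mul_of_nonneg_left (by linarith only [hJδ, hCC]) hV1p0.le
    linarith only [this, hVδ]
  have s4 : Ci * D ≤ δ / 4 := by
    have g1 : Ci * D ≤ (Ci + CW) * (M + 1) * V1 := by
      have g2 : Ci * D ≤ Ci * V1 := mul_le_mul_of_nonneg_left (by linarith) hCi
      have g3 : Ci ≤ (Ci + CW) * (M + 1) := by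
        have : (Ci + CW) * 1 ≤ (Ci + CW) * (M + 1) := mul_le_mul_of_nonneg_left (by linarith) (by linarith)
        linarith
      have g4 := mul_le_mul_of_nonneg_right g3 hV1p0.le
      linarith
    linarith
  -- the end point
  obtain ⟨z, hz⟩ : ∃ z : ℤ, z = ⌊q * N + (Rs - Ci * D) * N⌋ := ⟨_, rfl⟩
  have hz1' : (z : ℝ) ≤ q * N + (Rs - Ci * D) * N := by rw [hz]; exact Int.floor_le _
  have hz2' : q * N + (Rs - Ci * D) * N < z + 1 := by rw [hz]; exact Int.lt_floor_add_one _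
  have hδN : 32 ≤ δ * N := hLδ.trans (mul_le_mul_of_nonneg_left hNL hδ0.le)
  have hz0 : 0 ≤ z := by
    have g1 := mul_le_mul_of_nonneg_right s4 hN0.le
    have g2 := mul_le_mul_of_nonneg_right hlo hN0.le
    have g3 : 0 ≤ Rs * N := by positivity
    have g4 : (-1 : ℝ) < z := by linarith only [g1, g2, g3, hz2', hδN]
    have g5 : (-1 : ℤ) < z := by exact_mod_cast g4
    omega
  have hzN : z ≤ N := by
    have g1 := mul_le_mul_of_nonneg_right (hRsV.trans (show V1 ≤ δ / 4 by linarith)) hN0.le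
    have g2 := mul_le_mul_of_nonneg_right hhi hN0.le
    have g3 : 0 ≤ Ci * D * N := by positivity
    have g4 : (z : ℝ) ≤ N := by linarith only [g1, g2, g3, hz1', hδN]
    exact_mod_cast g4
  have hpath : e μ s N z ≤ c1 * E := by
    refine le_trans ?_ (mul_le_mul_of_nonneg_left hENE (by linarith))
    refine hin N hNlo hNhi z ?_ ?_
    · have g1 : 2 * (Ci + 16) * D ≤ V1 := by
        have := mul_le_mul_of_nonneg_right hCe hDp0.le
        linarith
      have g2 : 32 * D ≤ V1 - 2 * Ci * D := by linarith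
      have g3 := mul_le_mul_of_nonneg_right g2 hN0.le
      rw [hV1R] at g3
      linarith only [g3, hz2', hDN]
    · linarith only [hz1']
  -- the windows
  obtain ⟨DN, hDNe⟩ : ∃ x, x = D * (N : ℝ) := ⟨_, rfl⟩
  have hz1 : (z : ℝ) ≤ q * N + (Rs * N - Ci * DN) := by rw [hDNe]; linarith
  have hz2 : q * N + (Rs * N - Ci * DN) < z + 1 := by rw [hDNe]; linarith
  have hDN0 : 0 ≤ DN := by rw [hDNe]; linarith
  have hDN2' := hDN2
  rw [← hDNe] at hDN hDN2
  obtain ⟨lo', hlo'⟩ : ∃ lo' : ℕ → ℤ, lo' = fun j => ⌊q * ((j * t : ℕ) : ℝ) + Rs * ((j * t : ℕ) : ℝ) - (Ci + CW) * DN⌋ := ⟨_, rfl⟩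
  have hl1 : ∀ j : ℕ, (lo' j : ℝ) ≤ q * ((j * t : ℕ) : ℝ) + Rs * ((j * t : ℕ) : ℝ) - (Ci + CW) * DN := fun j => by
    rw [hlo']
    exact Int.floor_le _
  have hl2 : ∀ j : ℕ, q * ((j * t : ℕ) : ℝ) + Rs * ((j * t : ℕ) : ℝ) - (Ci + CW) * DN < lo' j + 1 := fun j => by
    rw [hlo']
    exact Int.lt_floor_add_one _
  have hJw : (Ci + 2 * CW) * DN ≤ J * w := by
    have g1 := mul_le_mul_of_nonneg_left hDN2 (show 0 ≤ Ci + 2 * CW by linarith only [hCi, hCW])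
    have g2 := mul_le_mul_of_nonneg_right hJ hG0.le
    have g3 := mul_le_mul_of_nonneg_left m3 (Nat.cast_nonneg (α := ℝ) J)
    linarith only [g1, g2, g3]
  have hCWD : 0 ≤ CW * DN := mul_nonneg (by linarith) hDN0
  have hCCD : 0 ≤ (Ci + CW) * DN := mul_nonneg (by linarith) hDN0
  have hJwu : (J : ℝ) * w ≤ J * δ' * (V1 * L / 32) := by
    have g1 := mul_le_mul_of_nonneg_left m1 (Nat.cast_nonneg (α := ℝ) J)
    have g2 := mul_le_mul_of_nonneg_left (show G ≤ V1 * L / 32 by linarith only [hGV]) hJδ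
    linarith only [g1, g2]
  have hCWu : CW * DN ≤ (Ci + CW) * (M + 1) * (V1 * L / 32) := by
    have g1 := mul_le_mul_of_nonneg_left hDN2 (show 0 ≤ CW by linarith)
    have g2 := mul_le_mul_of_nonneg_left (show G ≤ V1 * L / 32 by linarith only [hGV]) (show 0 ≤ CW * ((M : ℝ) + 1) by positivity)
    have g3 : 0 ≤ Ci * ((M : ℝ) + 1) * (V1 * L / 32) := by positivity
    linarith only [g1, g2, g3]
  have hwallR : ∀ j, 1 ≤ j → j ≤ M → ∃ c : ℤ, 0 ≤ c ∧ c ≤ (j * t : ℕ) ∧ c ≤ lo' j + J * w + 1 ∧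
      Bw * E < e μ s (j * t) (lo' j + J * w + 1) - e μ s (j * t) c := by
    intro j hj1 hj2
    have hT1 : t ≤ j * t := Nat.le_mul_of_pos_left t (by omega)
    have hjt : j * t ≤ M * t := Nat.mul_le_mul_right t hj2
    have hTN : j * t ≤ N := by omega
    have hTr : (t : ℝ) ≤ ((j * t : ℕ) : ℝ) := by exact_mod_cast hT1
    obtain ⟨T, hT⟩ : ∃ T, T = j * t := ⟨_, rfl⟩
    have a1 := hl1 j
    have a2 := hl2 j
    rw [← hT] at hT1 hTN hTr a1 a2 ⊢
    have hTL : (L : ℝ) ≤ 2 * T := by linarith only [hTr, ht2]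
    have hT0 : (0 : ℝ) < T := by linarith only [hTL, hL0]
    have g2 : J * δ' * (V1 * L / 32) ≤ J * δ' * (V1 * T) := by
      refine mul_le_mul_of_nonneg_left ?_ hJδ
      have h1 := mul_le_mul_of_nonneg_left hTL hV1p0.le
      have h2 : 0 ≤ V1 * T := by positivity
      linarith only [h1, h2]
    have g4 := mul_le_mul_of_nonneg_right s2 hT0.le
    have g6 := mul_le_mul_of_nonneg_left hTL hδ0.le
    obtain ⟨b1, b2, b3⟩ := wr61 (Jw := J * w) (V1 := V1) (δ := δ)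
      (mul_nonneg (hδ0.le.trans hlo) hT0.le) (mul_nonneg hRs0 hT0.le) hCWD hCCD a1 a2 hJw
      (mul_le_mul_of_nonneg_right hRsV hT0.le) (by linarith only [hJwu, g2, g4]) (mul_le_mul_of_nonneg_right hhi hT0.le)
      (by linarith only [g6, hLδ])
    have e1 : ((lo' j + J * w + 1 : ℤ) : ℝ) = lo' j + J * w + 1 := by push_cast; ring
    have e2 : ((T : ℤ) : ℝ) = (T : ℝ) := Int.cast_natCast T
    rw [hE]
    refine wall61 h hs hA0 W (w := y + m) (by omega) (by omega) hNw8 hNw (by omega) hTN hCW hBw hCWB ?_ ?_ ?_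
    · rw [← e1] at b3
      exact_mod_cast b3
    · rw [← e1, ← e2] at b2
      exact_mod_cast b2
    · rw [← hRs, ← hD, ← hq, e1, ← hDNe]
      exact b1
  have hwallL : ∀ j, 1 ≤ j → j ≤ M → ∃ c : ℤ, 0 ≤ c ∧ c ≤ (N - j * t : ℕ) ∧ lo' j - 1 + c ≤ z ∧
      Bw * E < e μ s (N - j * t) (z - (lo' j - 1)) - e μ s (N - j * t) c := by
    intro j hj1 hj2
    have hjt : j * t ≤ M * t := Nat.mul_le_mul_right t hj2
    have hTN : j * t + L ≤ N := by omega
    have a1 := hl1 j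
    have a2 := hl2 j
    obtain ⟨T, hT⟩ : ∃ T, T = N - j * t := ⟨_, rfl⟩
    have hTr : (T : ℝ) = N - ((j * t : ℕ) : ℝ) := by rw [hT, Nat.cast_sub (by omega)]
    have hTL : L ≤ T := by omega
    have hTLr : (L : ℝ) ≤ T := by exact_mod_cast hTL
    rw [← hT]
    have hT0 : (0 : ℝ) < T := by linarith only [hTLr, hL0]
    have g2 : (Ci + CW) * (M + 1) * (V1 * L / 32) ≤ (Ci + CW) * (M + 1) * (V1 * T) := by
      refine mul_le_mul_of_nonneg_left ?_ hCC
      have h1 := mul_le_mul_of_nonneg_left hTLr hV1p0.le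
      have h2 : 0 ≤ V1 * T := by positivity
      linarith only [h1, h2]
    have g4 := mul_le_mul_of_nonneg_right s3 hT0.le
    have g6 := mul_le_mul_of_nonneg_left hTLr hδ0.le
    obtain ⟨b1, b2, b3⟩ := wl61 (V1 := V1) (δ := δ) (T := T) (N := N) (by linarith only [hTr])
      (mul_nonneg (hδ0.le.trans hlo) hT0.le) (mul_nonneg hRs0 hT0.le) hCWD a1 a2 hz1 hz2
      (mul_le_mul_of_nonneg_right hRsV hT0.le) (by linarith only [hCWu, g2, g4]) (mul_le_mul_of_nonneg_right hhi hT0.le)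
      (by linarith only [g6, hLδ])
    have e1 : ((z - (lo' j - 1) : ℤ) : ℝ) = z - (lo' j - 1) := by push_cast; ring
    have e2 : ((T : ℤ) : ℝ) = (T : ℝ) := Int.cast_natCast T
    obtain ⟨c, c1', c2', c3', c4'⟩ := wall61 h hs hA0 W (w := y + m) (T := T) (Y := z - (lo' j - 1)) (by omega) (by omega)
      hNw8 hNw (by omega) (by omega) hCW hBw hCWB (by
        rw [← e1] at b3
        exact_mod_cast b3) (by
        rw [← e1, ← e2] at b2
        exact_mod_cast b2) (by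
        rw [← hRs, ← hD, ← hq, e1, ← hDNe]
        exact b1)
    refine ⟨c, c1', c2', by linarith only [c3'], ?_⟩
    rw [hE]
    exact c4'
  -- the mean displacement
  obtain ⟨mid, hmid⟩ : ∃ x : ℤ, x = (z + M * (hh - w)) / ((M : ℤ) + 1) := ⟨_, rfl⟩
  have hloc : (q + (Rs - Ce * D)) * L ≤ (mid : ℝ) := by
    have g0 := div_lo61 (a := z + M * (hh - w)) (N := (M : ℤ) + 1) (by omega) (x := (q + (Rs - Ce * D)) * L + 1) (by
      push_cast
      have g1 := (abs_le.1 hloc1).1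
      push_cast at g1
      exact loc61 hG hDL1 hNeq hMr hn0.le hRsV f1 hDN2' hCi hCe hz2' (by linarith only [g1, hww2]))
    rw [← hmid] at g0
    linarith
  have hmid0 : 0 ≤ mid := by
    rw [hmid]
    refine Int.ediv_nonneg ?_ (by omega)
    have : 0 ≤ (M : ℤ) * (hh - w) := mul_nonneg (by omega) (by omega)
    omega
  have hmid1 : mid + 1 ≤ L := by
    have g0 := div_up61 (a := z + M * (hh - w)) (N := (M : ℤ) + 1) (by omega) (x := q * L + V1 * L + 12 * G + 2) (by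
      push_cast
      have g1 := (abs_le.1 hloc1).2
      push_cast at g1
      have g2 : (hh : ℝ) - w ≤ q * n' + 12 * G + 1 := by linarith only [g1, hww2]
      have g3 := mul_le_mul_of_nonneg_left g2 (show (0 : ℝ) ≤ M by positivity)
      have g4 := mul_le_mul_of_nonneg_left hNle hV1p0.le
      have g5 := mul_le_mul_of_nonneg_right hRsV hN0.le
      have g6 : 0 ≤ Ci * D * N := by positivity
      have e1 : q * N + M * (q * n') = (M + 1) * (q * L) := by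
        have : q * ((N : ℝ) + M * n') = q * ((M + 1) * L) := by rw [hNeq]
        linarith only [this]
      linarith only [g3, g4, g5, g6, e1, hz1', hMr, hG0])
    rw [← hmid] at g0
    have g5 := mul_le_mul_of_nonneg_right hhi hL0.le
    have g6 := mul_le_mul_of_nonneg_right s1 hL0.le
    have g7 : (mid : ℝ) + 1 ≤ L := by linarith only [g0, g5, g6, hGV, hLδ]
    exact_mod_cast g7
  refine ⟨n', N, w, z, hh, lo', ?_⟩
  rw [← hE]
  exact
    { n1 := hn1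
      n2 := by omega
      nN := by rw [hN, htL]
      w1 := hw1
      J1 := hJ1
      hw := by omega
      hn := k2.trans r02
      z0' := hz0
      zN := hzN
      path := hpath
      refh := hrefh
      refh' := hrefh'
      wallR := by
        rw [htL]
        exact hwallR
      wallL := by
        rw [htL]
        exact hwallL
      loc := by
        rw [← hmid, ← hq, ← hRs, ← hD]
        exact hloc
      mid0 := by
        rw [← hmid]
        exact hmid0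
      mid1 := by
        rw [← hmid]
        exact hmid1
      midm := by
        rw [← hmid]
        intro hx
        exact e_incr61 h.em s hx hmid1 }

/-- **THE NUMBERS OF THE RIGHT INNER EDGE.** -/
theorem numR_all (h : Dirs μ H δ A) (hR : Rate μ A) (hG : Grow μ A) (hA0 : 0 < A0) (h01 : A0 < A1) (hCh : CheapH A0 μ A)
    {c0 : ℝ} (hIN : InFH μ A A0 A1 c0) : NumRH μ A A0 A1 := by
  obtain ⟨Ci, c1, c', n0, hCi, hc1, hc', hin⟩ := hIN
  obtain ⟨cc, C', hcc, hch⟩ := hCh.cheapI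
  obtain ⟨kk, hkk⟩ := pow_unbounded_of_one_lt c0 (one_lt_two : (1 : ℝ) < 2)
  refine ⟨c1, kk, hc1, fun k hk => ?_⟩
  have hck : c0 ≤ 2 ^ k := hkk.le.trans (pow_le_pow_right₀ one_le_two hk)
  obtain ⟨Ce, hCe1, hCe2, hCe3⟩ : ∃ Ce : ℝ, Ci + 16 ≤ Ce ∧ (2 : ℝ) ^ (k + 1) ≤ Ce ∧ 1 / (2 * c') ≤ Ce :=
    ⟨max (Ci + 16) (max (2 ^ (k + 1)) (1 / (2 * c'))), le_max_left _ _, (le_max_left _ _).trans (le_max_right _ _),
      (le_max_right _ _).trans (le_max_right _ _)⟩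
  refine ⟨Ce, by linarith, fun m M hM hK Bw rm hBw hrm => ?_⟩
  have hδ0 := h.δ0
  obtain ⟨cJ, hcJe⟩ : ∃ x, x = A1 - A0 := ⟨_, rfl⟩
  have hcJ : 0 < cJ := by rw [hcJe]; linarith
  obtain ⟨δ', hδ, hδ1, hδ2⟩ : ∃ δ' : ℝ, 0 < δ' ∧ 16 * δ' ≤ cc ∧ 16 * δ' / cc * |C'| ≤ rm := by
    refine ⟨min (cc / 16) (rm * cc / (16 * (|C'| + 1))), lt_min (by positivity) (by positivity), ?_, ?_⟩
    · have := min_le_left (cc / 16) (rm * cc / (16 * (|C'| + 1)))
      linarith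
    · have h1 := min_le_right (cc / 16) (rm * cc / (16 * (|C'| + 1)))
      obtain ⟨t, ht⟩ : ∃ t, t = min (cc / 16) (rm * cc / (16 * (|C'| + 1))) := ⟨_, rfl⟩
      have ht0 : 0 ≤ t := by rw [ht]; exact le_min (by positivity) (by positivity)
      rw [← ht] at h1 ⊢
      rw [le_div_iff₀ (by positivity)] at h1
      rw [div_mul_eq_mul_div, div_le_iff₀ hcc]
      linarith
  obtain ⟨CW, hCW, hCW1⟩ : ∃ CW : ℝ, 1 ≤ CW ∧ Bw + 1 ≤ (CW - 1) * (A0 / 50) := by
    refine ⟨1 + 50 * (Bw + 1) / A0, ?_, ?_⟩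
    · have : 0 ≤ 50 * (Bw + 1) / A0 := by positivity
      linarith
    · have e1 : (1 + 50 * (Bw + 1) / A0 - 1) * (A0 / 50) = Bw + 1 := by
        field_simp
        ring
      rw [e1]
  obtain ⟨J, hJ⟩ := exists_nat_ge (max 1 (2 * ((Ci + 2 * CW) * (M + 1)) / δ'))
  have hJ1 : 1 ≤ J := by
    have : (1 : ℝ) ≤ J := (le_max_left _ _).trans hJ
    exact_mod_cast this
  have hJ2 : 2 * ((Ci + 2 * CW) * (M + 1)) / δ' ≤ J := (le_max_right _ _).trans hJ
  rw [div_le_iff₀ hδ] at hJ2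
  obtain ⟨Q, hQ⟩ : ∃ Q : ℝ, Q = 2 + J * δ' + (Ci + CW) * (M + 1) := ⟨_, rfl⟩
  have hQ0 : 0 < Q := by
    rw [hQ]
    have h1 : 0 ≤ (J : ℝ) * δ' := by positivity
    have h2 : 0 ≤ (Ci + CW) * ((M : ℝ) + 1) := by positivity
    linarith
  obtain ⟨v, hv, hv1, hv2⟩ : ∃ v : ℝ, 0 < v ∧ 16 * v ≤ cJ ∧ v * Q ≤ δ / 4 := by
    refine ⟨min (cJ / 16) (δ / 4 / Q), lt_min (by positivity) (by positivity), ?_, ?_⟩
    · have := min_le_left (cJ / 16) (δ / 4 / Q)
      linarith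
    · have h1 := min_le_right (cJ / 16) (δ / 4 / Q)
      rwa [le_div_iff₀ hQ0] at h1
  obtain ⟨nv, hnv, hvs⟩ := h.vA_small hR hA0 hv
  obtain ⟨nG, hnG⟩ := hG (max 1 (max (2 / δ') (8 / cc)) / cJ)
  obtain ⟨nL, hnL⟩ := exists_nat_ge (32 / δ)
  rw [div_le_iff₀ hδ0] at hnL
  refine ⟨J, nv + nG + n0 + nL + k + 4, fun s hs y hy k1 hk1 W hdl L hL1 hL2 => ?_⟩
  have hDp := W.dl_pos h hs hA0
  have h2y : y - 2 < 2 ^ (y - 2) := Nat.lt_two_pow_self
  have hV : vA A0 μ s (2 ^ (y + m + k1)) ≤ v := hvs s hs _ (by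
    have : y + m + k1 < 2 ^ (y + m + k1) := Nat.lt_two_pow_self
    omega)
  have hVp : 0 < vA A0 μ s (2 ^ (y + m + k1)) := h.vA_pos hs hA0 Nat.one_le_two_pow
  have hth := W.thick (n := L) h hs hA0 h01 (le_trans (Nat.pow_le_pow_right (by norm_num) (by omega)) hL1)
    (hL2.trans (Nat.pow_le_pow_right (by norm_num) (by omega)))
  rw [← hcJe] at hth
  have hEL : max 1 (max (2 / δ') (8 / cc)) / cJ ≤ EE μ s L := hnG s hs L (by omega)
  rw [div_le_iff₀ hcJ] at hEL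
  have hDL : max 1 (max (2 / δ') (8 / cc)) ≤ dl A0 μ s (y - 2 - k) (y + m + k1) * L := by linarith
  have g1 := (le_max_left _ _).trans hDL
  have g2 := (le_max_left (2 / δ') (8 / cc)).trans ((le_max_right (1 : ℝ) _).trans hDL)
  have g3 := (le_max_right (2 / δ') (8 / cc)).trans ((le_max_right (1 : ℝ) _).trans hDL)
  rw [div_le_iff₀ hδ] at g2
  rw [div_le_iff₀ hcc] at g3
  refine num_scale61 (C' := |C'|) (CW := CW) (δ' := δ') h hs hA0 h01 W (by omega) (by omega) hM hK hL1 hL2 hcc (abs_nonneg C')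
    (hch.mono (le_abs_self C')) hCi hc1 (fun N hN1 hN2 y' => hin s hs k _ _ W hck ?_ N ?_ hN1 hN2 y') hCe1 hCe2 hdl hCW hBw
    hCW1 hδ hδ1 hδ2 hJ1 (by linarith) ?_ g1 (by linarith) (by linarith) ?_ ?_
  · have e1 : dl A0 μ s (y - 2 - k) (y + m + k1) ≤ 2 * Ce * dl A0 μ s (y - 2 - k) (y + m + k1) * c' := by
      have e2 : 1 ≤ 2 * Ce * c' := by
        rw [div_le_iff₀ (by positivity)] at hCe3
        linarith
      have := mul_le_mul_of_nonneg_right e2 hDp.le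
      linarith
    have e3 := mul_le_mul_of_nonneg_right hdl hc'.le
    linarith
  · have : 2 ^ (y - 2 - k + k) = 2 ^ (y - 2) := by
      congr 1
      omega
    omega
  · have e1 := mul_le_mul_of_nonneg_left (one_le_EE (μ := μ) (s := s) L) hcJ.le
    linarith
  · rw [← hQ]
    exact (mul_le_mul_of_nonneg_right hV hQ0.le).trans hv2
  · have hLn : (nL : ℝ) ≤ L := by
      have : nL ≤ L := by omega
      exact_mod_cast this
    have := mul_le_mul_of_nonneg_right hLn hδ0.le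
    linarith

end

end Pool.Agent.W_7d29a1_H
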