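import Pool.Agent.W_7d29a1_H.HOctDefs52
import Pool.Agent.W_7d29a1_H.UnitH

/-!
MP_7d29a1_pr, TRACK H (all tilts), section (D4): **the record trick in the mean** (`RecH`), at every tilt. Model:
`W_7d29a1_g/CrossRec.lean` (`cross_rec`) and `W_1b8d5d_h14/RecB14.lean` (`rec14`). (helper76)
-/

set_option autoImplicit false

namespace Pool.Agent.W_7d29a1_H

open MeasureTheory ProbabilityTheory Filter Topology Set
open Pool.Agent.W_7d29a1_F Pool.Agent.W_7d29a1_h4g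
open Pool.Agent.W_7d29a1_g (HasPath eR Tube mem_Tube_self cross_cost cross_mean)

variable {μ : Measure ℝ}

/-- **The record trick**, with windows of duration `t₀ = (m - 1) / 2`. -/
theorem rec_all76 [IsProbabilityMeasure μ] (hEM : Pool.Agent.W_7d29a1_h47.EM μ) (s : ℝ) : RecH μ s := by
  intro ρ m hρ hm hm2 hEm ξ hξ0 hξ1 hξ r D hD hgap K Z hK hpath
  obtain ⟨t, ht⟩ : ∃ t : ℕ, t = (m - 1) / 2 := ⟨_, rfl⟩
  obtain ⟨p, hp⟩ : ∃ p : ℕ, p = m - t := ⟨_, rfl⟩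
  rw [← ht] at hξ1 hξ hgap hpath ⊢
  rw [← hp] at hpath ⊢
  have hpt : p + t = m := by omega
  have htp : t ≤ p := by omega
  have hTK : K * p + t - K * p = t := Nat.add_sub_cancel_left _ _
  obtain ⟨x, hx⟩ : ∃ x : ℕ → ℤ, ∀ k, x k = ⌊r * (k * p : ℕ) + D⌋ := ⟨fun k => ⌊r * (k * p : ℕ) + D⌋, fun _ => rfl⟩
  have hx1 : ∀ k ≤ K, ∀ q : ℤ, (((0 : Pt).1 + k * p, q) : Pt) ∈ Tube 0 r D → q ≤ x k := by
    intro k _ q hq
    simp only [Tube, Set.mem_setOf_eq, Prod.fst_zero, Prod.snd_zero, zero_add, sub_zero] at hq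
    have h2 := (abs_le.1 hq).2
    rw [hx, Int.le_floor]
    push_cast at h2 ⊢
    linarith
  have hy1 : ∀ k ≤ K, ∀ q : ℤ, (((0 : Pt).1 + (k * p + t), q) : Pt) ∈ Tube 0 r D → x k + ξ ≤ q := by
    intro k _ q hq
    simp only [Tube, Set.mem_setOf_eq, Prod.fst_zero, Prod.snd_zero, zero_add, sub_zero] at hq
    have h2 := (abs_le.1 hq).1
    have h3 := Int.floor_le (r * (k * p : ℕ) + D)
    rw [← hx] at h3
    have h4 : ((x k + ξ : ℤ) : ℝ) ≤ (q : ℝ) := by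
      push_cast at h2 h3 ⊢
      nlinarith
    exact_mod_cast h4
  have hd1 : ∀ k ≤ K, 0 ≤ (x k + ξ) - x k ∧ (x k + ξ) - x k ≤ t := by
    intro k _
    constructor <;> omega
  have ha : (0 : Pt) ∈ Tube 0 r D := mem_Tube_self 0 r (by linarith)
  obtain ⟨hA, hM, hB, -⟩ := cross_cost (μ := μ) (s := s) (Tube 0 r D) 0 (K * p + t) Z K p t x
    (fun k => x k + ξ) 0 ha hpath htp le_rfl hx1 hy1 hd1
  have hcm := cross_mean (μ := μ) (s := s) (Tube 0 r D) 0 (K * p + t) Z K p t x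
    (fun k => x k + ξ) hEM ha hpath htp le_rfl hx1 hy1 hd1
  rw [hTK] at hcm hB
  rw [hpt] at hcm hM
  have hA' := hξ _ hA.1 hA.2
  have hB' := hξ _ hB.1 hB.2
  have hM' : (K : ℝ) * (Em μ s (2 * ρ) - 1) ≤
      ∑ k ∈ Finset.range K, e μ s m ((x (k + 1) + ξ) - x k) := by
    have h2 : ∑ k ∈ Finset.range K, (Em μ s (2 * ρ) - 1) ≤
        ∑ k ∈ Finset.range K, e μ s m ((x (k + 1) + ξ) - x k) :=
      Finset.sum_le_sum fun k hk => by
        have h3 := xs_le (μ := μ) (s := s) (hM k (Finset.mem_range.1 hk)).1 (hM k (Finset.mem_range.1 hk)).2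
        linarith
    rw [Finset.sum_const, Finset.card_range, nsmul_eq_mul] at h2
    exact h2
  have hR : ∑ k ∈ Finset.range (K + 1), e μ s t ((x k + ξ) - x k) = (K + 1) * e μ s t ξ := by
    have h2 : ∀ k ∈ Finset.range (K + 1), e μ s t ((x k + ξ) - x k) = e μ s t ξ := by
      intro k _
      rw [add_sub_cancel_left]
    rw [Finset.sum_congr rfl h2, Finset.sum_const, Finset.card_range, nsmul_eq_mul]
    push_cast
    ring
  rw [hR] at hcm
  have hxs := xs_mem (μ := μ) (s := s) t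
  have h5 : e μ s t ξ ≤ Em μ s ρ - 1 := by
    have h6 := hξ _ hxs.1 hxs.2
    have h7 := le_Em (μ := μ) (s := s) (show t ≤ ρ by omega)
    linarith
  have hK1 : (1 : ℝ) ≤ K := by exact_mod_cast hK
  have h8 : ((K : ℝ) - 1) * e μ s t ξ ≤ (K - 1) * (Em μ s ρ - 1) :=
    mul_le_mul_of_nonneg_left h5 (by linarith)
  linarith

end Pool.Agent.W_7d29a1_H
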