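import Pool.Agent.W_7d29a1_H.OctHc52
import Pool.Agent.W_7d29a1_H.OctHd52
import Pool.Agent.W_7d29a1_H.RecH76
import Pool.Agent.W_7d29a1_H.InnH93

/-!
MP_7d29a1_pr, TRACK H (all tilts), section (D4): one octave for every set of tilts, from (IN) and the numbers of the inner edge.
(helper52)
-/

set_option autoImplicit false

namespace Pool.Agent.W_7d29a1_H

open MeasureTheory ProbabilityTheory Filter Topology Set
open Pool.Agent.W_7d29a1_F Pool.Agent.W_7d29a1_h4g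
open Pool.Agent.W_1b8d5d_p (SlowU OctU)

variable {μ : Measure ℝ} [IsProbabilityMeasure μ] {H δ : ℝ} {A : Set ℝ} {A0 A1 a : ℝ}

omit [IsProbabilityMeasure μ] in
theorem OctH.mono {A' : Set ℝ} (h : OctH a μ A') (hA : A ⊆ A') : OctH a μ A := by
  obtain ⟨C0, Km, k0, k1, l1, hC0, h⟩ := h
  refine ⟨C0, Km, k0, k1, l1, hC0, fun ε m hε hε1 hm => ?_⟩
  obtain ⟨α, x0, h⟩ := h ε m hε hε1 hm
  exact ⟨α, x0, fun d a b ha h1 h2 x y hx hy hb h3 => h ⟨d.1, hA d.2⟩ a b ha h1 h2 x y hx hy hb h3⟩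

/-- The symmetric hull. -/
theorem Dirs.union_ng (hD : Dirs μ H δ A) : Dirs μ H δ (A ∪ ng A) where
  em := hD.em
  nd := hD.nd
  bd s hs := hs.elim (hD.bd s) (hD.mir.bd s)
  δ0 := hD.δ0
  lo s hs := hs.elim (hD.lo s) (hD.mir.lo s)
  hi s hs := hs.elim (hD.hi s) (hD.mir.hi s)
  nc ε hε := by
    obtain ⟨d1, h1, h1'⟩ := hD.nc ε hε
    obtain ⟨d2, h2, h2'⟩ := hD.mir.nc ε hε
    exact ⟨min d1 d2, lt_min h1 h2, fun s hs x hx => hs.elim (fun h => h1' s h x (hx.trans (min_le_left _ _)))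
      fun h => h2' s h x (hx.trans (min_le_right _ _))⟩
  strict r hr := by
    obtain ⟨j1, h1, h1'⟩ := hD.strict r hr
    obtain ⟨j2, h2, h2'⟩ := hD.mir.strict r hr
    refine ⟨min j1 j2, lt_min h1 h2, fun s hs x hx => hs.elim (fun h => le_trans ?_ (h1' s h x hx))
      fun h => le_trans ?_ (h2' s h x hx)⟩
    · exact mul_le_mul_of_nonneg_right (min_le_left _ _) (abs_nonneg _)
    · exact mul_le_mul_of_nonneg_right (min_le_right _ _) (abs_nonneg _)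

omit [IsProbabilityMeasure μ] in
theorem union_ng_sym : ∀ s ∈ A ∪ ng A, -s ∈ A ∪ ng A := by
  intro s hs
  rcases hs with h | h
  · exact Or.inr (neg_mem_ng h)
  · exact Or.inl h

/-- **ONE OCTAVE** for a symmetric set of tilts. -/
theorem octH_sym (hD : Dirs μ H δ A) (hsym : ∀ s ∈ A, -s ∈ A) (hR : Rate μ A) (hG : Grow μ A) (hL : LogG μ A) (hA0 : 0 < A0)
    (h01 : A0 < A1) {c0 : ℝ} (hc0 : 0 < c0) (hIN : InWH μ A A0 A0 A1 c0)
    (hNum : InFH μ A A0 A1 c0 → NumRH μ A A0 A1) : OctH A0 μ A :=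
  octH_of_R52 hD.em hD.nd hsym (octR52 hD hsym hR hG hL hA0 h01 (in_flat hD hR hA0 h01 hc0 hIN)
    (innerR hD hG hA0 h01 (hNum (in_flat hD hR hA0 h01 hc0 hIN))) fun s => rec_all76 hD.em s)

end Pool.Agent.W_7d29a1_H
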