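import Pool.Agent.W_7d29a1_H.TubeMir28
import Pool.Agent.W_7d29a1_H.UnitH

/-!
MP_7d29a1_pr, TRACK H (all tilts), section (hF2): the record trick along one tube, on both sides, at every tilt: references of duration
`t` and of the cheapest displacement, pieces of duration `p + t`. Model: `W_1b8d5d_p/RecH99`, `RecH76`. (helper70)
-/

set_option autoImplicit false

namespace Pool.Agent.W_7d29a1_H

open MeasureTheory ProbabilityTheory Filter Topology Set
open Pool.Agent.W_7d29a1_F Pool.Agent.W_7d29a1_h4g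
open Pool.Agent.W_7d29a1_g (HasPath eR Tube mem_Tube_self cross_cost cross_mean)
open Pool.Agent.W_7d29a1_h47 (EM)

noncomputable section

variable {μ : Measure ℝ} [IsProbabilityMeasure μ]

/-- The right side: a tube which is right of a cheapest displacement `ξ`. -/
theorem recWR70 (hEM : EM μ) (s : ℝ) {r D : ℝ} {t p k : ℕ} {Z ξ : ℤ} (hD : 0 ≤ D) (htp : t ≤ p)
    (hξ0 : 0 ≤ ξ) (hξ1 : ξ ≤ t) (hξ : ∀ y : ℤ, 0 ≤ y → y ≤ t → e μ s t ξ ≤ e μ s t y)
    (hgap : 2 * D + 1 ≤ r * t - ξ) (hpath : HasPath (Tube 0 r D) 0 (k * p + t) Z) :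
    (∀ i < k, 0 ≤ ⌊r * ((i + 1 : ℕ) * p : ℝ) + D⌋ + ξ - ⌊r * (i * p : ℝ) + D⌋ ∧
      ⌊r * ((i + 1 : ℕ) * p : ℝ) + D⌋ + ξ - ⌊r * (i * p : ℝ) + D⌋ ≤ (p + t : ℕ)) ∧
    ∑ i ∈ Finset.range k, e μ s (p + t) (⌊r * ((i + 1 : ℕ) * p : ℝ) + D⌋ + ξ - ⌊r * (i * p : ℝ) + D⌋) ≤
      eR μ s (Tube 0 r D) 0 (k * p + t) Z + (k - 1) * e μ s t ξ := by
  obtain ⟨x, hx⟩ : ∃ x : ℕ → ℤ, ∀ i, x i = ⌊r * (i * p : ℝ) + D⌋ := ⟨fun i => ⌊r * (i * p : ℝ) + D⌋, fun _ => rfl⟩
  have hTK : k * p + t - k * p = t := Nat.add_sub_cancel_left _ _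
  have hx1 : ∀ i ≤ k, ∀ q : ℤ, (((0 : Pt).1 + i * p, q) : Pt) ∈ Tube 0 r D → q ≤ x i := by
    intro i _ q hq
    simp only [Tube, Set.mem_ofPred_eq, Prod.fst_zero, Prod.snd_zero, zero_add, sub_zero] at hq
    have h2 := (abs_le.1 hq).2
    rw [hx, Int.le_floor]
    push_cast at h2 ⊢
    linarith
  have hy1 : ∀ i ≤ k, ∀ q : ℤ, (((0 : Pt).1 + (i * p + t), q) : Pt) ∈ Tube 0 r D → x i + ξ ≤ q := by
    intro i _ q hq
    simp only [Tube, Set.mem_ofPred_eq, Prod.fst_zero, Prod.snd_zero, zero_add, sub_zero] at hq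
    have h2 := (abs_le.1 hq).1
    have h3 := Int.floor_le (r * (i * p : ℝ) + D)
    rw [← hx] at h3
    have h4 : ((x i + ξ : ℤ) : ℝ) ≤ (q : ℝ) := by
      push_cast at h2 h3 ⊢
      nlinarith
    exact_mod_cast h4
  have hd1 : ∀ i ≤ k, 0 ≤ (x i + ξ) - x i ∧ (x i + ξ) - x i ≤ t := by
    intro i _
    constructor <;> omega
  have ha : (0 : Pt) ∈ Tube 0 r D := mem_Tube_self 0 r hD
  obtain ⟨hA, hM, hB, -⟩ := cross_cost (μ := μ) (s := s) (Tube 0 r D) 0 (k * p + t) Z k p t x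
    (fun i => x i + ξ) 0 ha hpath htp le_rfl hx1 hy1 hd1
  have hcm := cross_mean (μ := μ) (s := s) (Tube 0 r D) 0 (k * p + t) Z k p t x
    (fun i => x i + ξ) hEM ha hpath htp le_rfl hx1 hy1 hd1
  rw [hTK] at hcm hB
  have hA' := hξ _ hA.1 hA.2
  have hB' := hξ _ hB.1 hB.2
  have hR : ∑ i ∈ Finset.range (k + 1), e μ s t ((x i + ξ) - x i) = (k + 1) * e μ s t ξ := by
    have h2 : ∀ i ∈ Finset.range (k + 1), e μ s t ((x i + ξ) - x i) = e μ s t ξ := by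
      intro i _
      rw [add_sub_cancel_left]
    rw [Finset.sum_congr rfl h2, Finset.sum_const, Finset.card_range, nsmul_eq_mul]
    push_cast
    ring
  rw [hR] at hcm
  refine ⟨fun i hi => ?_, ?_⟩
  · have h1 := hM i hi
    rw [← hx, ← hx]
    exact h1
  · have h2 : ∑ i ∈ Finset.range k, e μ s (p + t) (⌊r * ((i + 1 : ℕ) * p : ℝ) + D⌋ + ξ - ⌊r * (i * p : ℝ) + D⌋) =
        ∑ i ∈ Finset.range k, e μ s (p + t) ((x (i + 1) + ξ) - x i) :=
      Finset.sum_congr rfl fun i _ => by rw [← hx, ← hx]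
    rw [h2]
    linarith

/-- **The record trick along one tube**, both sides. -/
theorem recW70 (hEM : EM μ) (s r D sg : ℝ) (t p k : ℕ) (Z : ℤ) (hsg : sg = 1 ∨ sg = -1) (hD : 0 ≤ D)
    (htp : t ≤ p) (hgap : 2 * D + 2 ≤ sg * (r * t - xs μ s t))
    (hpath : HasPath (Tube 0 r D) 0 (k * p + t) Z) :
    ∃ xx : ℕ → ℤ, (∀ i : ℕ, |(xx i : ℝ) - (r * (i * p) + sg * D)| ≤ 1) ∧
      (∀ i < k, 0 ≤ xx (i + 1) + xs μ s t - xx i ∧ xx (i + 1) + xs μ s t - xx i ≤ (p + t : ℕ)) ∧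
      ∑ i ∈ Finset.range k, e μ s (p + t) (xx (i + 1) + xs μ s t - xx i) ≤
        eR μ s (Tube 0 r D) 0 (k * p + t) Z + (k - 1) * e μ s t (xs μ s t) := by
  have hm := xs_mem (μ := μ) (s := s) t
  have hmin : ∀ y : ℤ, 0 ≤ y → y ≤ t → e μ s t (xs μ s t) ≤ e μ s t y := fun y h0 h1 => xs_le h0 h1
  rcases hsg with rfl | rfl
  · rw [one_mul] at hgap
    obtain ⟨h1, h2⟩ := recWR70 hEM s hD htp hm.1 hm.2 hmin (by linarith) hpath
    refine ⟨fun i => ⌊r * (i * p : ℝ) + D⌋, fun i => ?_, fun i hi => ?_, ?_⟩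
    · have h3 := Int.floor_le (r * (i * p : ℝ) + D)
      have h4 := Int.lt_floor_add_one (r * (i * p : ℝ) + D)
      rw [one_mul, abs_le]
      constructor <;> linarith
    · have h3 := h1 i hi
      exact_mod_cast h3
    · exact_mod_cast h2
  · -- the mirror image
    have hmir : ∀ q : Pt, ((q.1, q.1 - q.2) : Pt) ∈ Tube 0 (1 - r) D ↔ q ∈ Tube 0 r D := fun q => mem_Tube_mir28 r D q
    have hpath' := hasPath_mir28 hmir hpath
    have hem : ∀ (n : ℕ) (y : ℤ), e μ (-s) n y = e μ s n (n - y) := fun n y => by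
      have h1 := e_mir28 (s := s) hEM n (n - y)
      rwa [sub_sub_cancel] at h1
    have hmin' : ∀ y : ℤ, 0 ≤ y → y ≤ t → e μ (-s) t (t - xs μ s t) ≤ e μ (-s) t y := fun y h0 h1 => by
      rw [hem, hem, sub_sub_cancel]
      exact xs_le (by omega) (by omega)
    have hg : 2 * D + 1 ≤ (1 - r) * t - ((t - xs μ s t : ℤ) : ℝ) := by
      push_cast
      linarith
    obtain ⟨h1, h2⟩ := recWR70 hEM (-s) hD htp (by omega) (by omega) hmin' hg hpath'
    refine ⟨fun i => (i * p : ℕ) - ⌊(1 - r) * (i * p : ℝ) + D⌋, fun i => ?_, fun i hi => ?_, ?_⟩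
    · have h3 := Int.floor_le ((1 - r) * (i * p : ℝ) + D)
      have h4 := Int.lt_floor_add_one ((1 - r) * (i * p : ℝ) + D)
      rw [abs_le]
      push_cast
      constructor <;> linarith
    · have h3 := h1 i hi
      push_cast at h3 ⊢
      have e1 : ((i : ℤ) + 1) * p = i * p + p := by ring
      constructor <;> linarith [h3.1, h3.2]
    · have h3 := eR_mir28 (s := s) hEM hmir (k * p + t) Z
      rw [h3] at h2
      rw [hem t, sub_sub_cancel] at h2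
      refine le_trans (le_of_eq ?_) h2
      refine Finset.sum_congr rfl fun i _ => ?_
      rw [hem]
      congr 1
      push_cast
      ring

end

end Pool.Agent.W_7d29a1_H
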