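import Pool.Agent.W_7d29a1_H.RtDefH99
import Pool.Agent.W_7d29a1_H.WidthH
import Pool.Agent.W_7d29a1_H.RecW70

/-!
MP_7d29a1_pr, TRACK H (all tilts), (hF2): from the cheap tubes at the two edges (TF) and the record trick to the predicate `RTFH`.
Model: `W_1b8d5d_p.RtF99`.
-/

set_option autoImplicit false

namespace Pool.Agent.W_7d29a1_H

open MeasureTheory ProbabilityTheory Filter Topology Set
open Pool.Agent.W_7d29a1_F Pool.Agent.W_7d29a1_h4g
open Pool.Agent.W_7d29a1_g (HasPath eR Tube)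

noncomputable section

variable {μ : Measure ℝ} [IsProbabilityMeasure μ] {H δ θ a : ℝ} {A : Set ℝ}

/-- The number of the pieces. -/
theorem rt_count99 {t N : ℕ} (ht : 1 ≤ t) (hN : 8 * t ≤ N) : ∃ k : ℕ, 1 ≤ k ∧ k * (t + 1) + t ≤ N ∧
    N ≤ 2 * (k * (t + 1) + t) ∧ N ≤ 4 * (k * t) := by
  refine ⟨(N - t) / (t + 1), ?_, ?_, ?_, ?_⟩
  · exact (Nat.one_le_div_iff (by omega)).2 (by omega)
  · have := Nat.div_mul_le_self (N - t) (t + 1)
    omega
  · have h1 := Nat.lt_div_mul_add (a := N - t) (b := t + 1) (by omega)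
    omega
  · have h1 := Nat.lt_div_mul_add (a := N - t) (b := t + 1) (by omega)
    obtain ⟨k, hk⟩ : ∃ k, k = (N - t) / (t + 1) := ⟨_, rfl⟩
    rw [← hk] at h1 ⊢
    have h2 : k ≤ k * t := Nat.le_mul_of_pos_right k (by omega)
    have h3 : k * (t + 1) = k * t + k := by ring
    rw [h3] at h1
    omega

/-- **From the tubes and the record trick to `RTFH`.** -/
theorem rtfH99 (hD : Dirs μ H δ A) (ha : 0 < a) (hR : Rate μ A) (hT : TFH θ a μ A) : RTFH θ a μ A := by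
  obtain ⟨c7, C7, h0, hc7, hC7, hT⟩ := hT
  refine ⟨c7, 4 * C7, 3, h0, hc7, by positivity, by norm_num, fun c0 hc0 h hh => ?_⟩
  obtain ⟨D, hDd⟩ : ∃ D, D = c7 * c0 / 16 := ⟨_, rfl⟩
  have hD0 : 0 < D := by
    rw [hDd]
    positivity
  obtain ⟨L, x1, δ', hδ, hT⟩ := hT D hD0 h hh
  obtain ⟨n2, -, hn2⟩ := hD.w_large hR ha (1 / D)
  refine ⟨L, max x1 n2, δ', hδ, fun s hs x hx hslow hflat => ?_⟩
  have hxn2 : n2 ≤ 2 ^ x := ((le_max_right _ _).trans hx).trans Nat.lt_two_pow_self.le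
  obtain ⟨sp, sm, h1, h2, h3, hsm, hsp, h4⟩ := hT s hs x ((le_max_left _ _).trans hx) hslow hflat
  have hv : 0 < vA a μ s (2 ^ x) := hD.vA_pos hs ha Nat.one_le_two_pow
  have hwbig : 1 ≤ D * (vA a μ s (2 ^ x) * 2 ^ x) := by
    have k2 := hn2 s hs (2 ^ x) hxn2
    have k3 := one_le_EE (μ := μ) (s := s) (2 ^ x)
    have k4 : 1 / D * EE μ s (2 ^ x) ≤ vA a μ s (2 ^ x) * 2 ^ x := by
      push_cast at k2
      linarith
    rw [div_mul_eq_mul_div, one_mul, div_le_iff₀ hD0] at k4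
    linarith
  have hgap0 : sm ≤ sp := by
    have := mul_pos hc7 hv
    linarith
  refine ⟨sp, sm, ⟨h1, h2.trans ?_, h3.trans ?_, fun t ht htN r hr hfar => ?_⟩⟩
  · nlinarith [mul_pos hC7 hv]
  · nlinarith [mul_pos hC7 hv]
  have hr01 : 0 ≤ r ∧ r ≤ 1 := by
    rcases hr with hr | hr
    · rw [hr]
      exact ⟨hsm.trans hgap0, hsp⟩
    · rw [hr]
      exact ⟨hsm, hgap0.trans hsp⟩
  have htpos : (0 : ℝ) < t := lt_of_lt_of_le (by positivity) ht
  have ht1 : 1 ≤ t := by exact_mod_cast htpos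
  obtain ⟨k, hk1, hk2, hk3, hk4⟩ := rt_count99 ht1 htN
  obtain ⟨Z, -, hHas, hXT⟩ := h4 (k * (t + 1) + t) (by omega) hk2 r hr
  -- the side
  obtain ⟨σ, hσ, hσ2⟩ : ∃ σ : ℝ, (σ = 1 ∨ σ = -1) ∧ σ * (r * t - xs μ s t) = |r * t - xs μ s t| := by
    rcases le_total 0 (r * t - xs μ s t) with k1 | k1
    · exact ⟨1, Or.inl rfl, by rw [one_mul, abs_of_nonneg k1]⟩
    · exact ⟨-1, Or.inr rfl, by rw [abs_of_nonpos k1]; ring⟩
  have hside : 2 * (D * (vA a μ s (2 ^ x) * 2 ^ x)) + 2 ≤ σ * (r * t - xs μ s t) := by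
    rw [hσ2]
    refine le_trans ?_ hfar
    have k2 : c7 * (c0 * 2 ^ x * vA a μ s (2 ^ x)) ≤ c7 * (t * vA a μ s (2 ^ x)) :=
      mul_le_mul_of_nonneg_left (mul_le_mul_of_nonneg_right ht hv.le) hc7.le
    have k3 : D * (vA a μ s (2 ^ x) * 2 ^ x) = c7 * (c0 * 2 ^ x * vA a μ s (2 ^ x)) / 16 := by
      rw [hDd]
      ring
    rw [k3] at hwbig ⊢
    linarith
  obtain ⟨xx, hxx, hrange, hsum⟩ := recW70 hD.em s r (D * (vA a μ s (2 ^ x) * 2 ^ x)) σ t (t + 1) k Z hσ (by positivity)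
    (Nat.le_succ t) hside hHas
  have hE := EE_pos (μ := μ) (s := s) (2 ^ (x + h))
  have hk0 : (0 : ℝ) < k := by exact_mod_cast hk1
  have hest := e_xs_nonneg hD.em s t
  have hN0 : (0 : ℝ) < (2 ^ (x + h) : ℕ) := by positivity
  -- the cheapest piece
  have hex : ∃ i ∈ Finset.range k, e μ s (t + 1 + t) (xx (i + 1) + xs μ s t - xx i) ≤
      e μ s t (xs μ s t) + 4 * C7 * (t / (2 ^ (x + h) : ℕ)) * EE μ s (2 ^ (x + h)) := by
    by_contra hcon
    push Not at hcon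
    have k1 : ∑ i ∈ Finset.range k, (e μ s t (xs μ s t) + 4 * C7 * (t / (2 ^ (x + h) : ℕ)) * EE μ s (2 ^ (x + h))) <
        ∑ i ∈ Finset.range k, e μ s (t + 1 + t) (xx (i + 1) + xs μ s t - xx i) :=
      Finset.sum_lt_sum_of_nonempty (Finset.nonempty_range_iff.2 (by omega)) hcon
    rw [Finset.sum_const, Finset.card_range, nsmul_eq_mul] at k1
    have k2 : C7 * EE μ s (2 ^ (x + h)) ≤ k * (4 * C7 * (t / (2 ^ (x + h) : ℕ)) * EE μ s (2 ^ (x + h))) := by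
      have k3 : (1 : ℝ) ≤ 4 * (k * t) / (2 ^ (x + h) : ℕ) := by
        rw [one_le_div hN0]
        exact_mod_cast hk4
      have k4 := mul_le_mul_of_nonneg_left k3 (show 0 ≤ C7 * EE μ s (2 ^ (x + h)) by positivity)
      calc C7 * EE μ s (2 ^ (x + h)) = C7 * EE μ s (2 ^ (x + h)) * 1 := by ring
        _ ≤ C7 * EE μ s (2 ^ (x + h)) * (4 * (k * t) / (2 ^ (x + h) : ℕ)) := k4
        _ = _ := by ring
    linarith
  obtain ⟨i, hi0, hi⟩ := hex
  have hrg := hrange i (Finset.mem_range.1 hi0)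
  have e0 : 2 * t + 1 = t + 1 + t := by ring
  refine ⟨xx (i + 1) + xs μ s t - xx i, hrg.1, ?_, ?_, ?_⟩
  · rw [e0]
    exact hrg.2
  · have k1 := hxx (i + 1)
    have k2 := hxx i
    have e1 : ((xx (i + 1) + xs μ s t - xx i : ℤ) : ℝ) - (r * t + xs μ s t) =
        ((xx (i + 1) : ℝ) - (r * ((i + 1 : ℕ) * (t + 1 : ℕ)) + σ * (D * (vA a μ s (2 ^ x) * 2 ^ x)))) +
          (-((xx i : ℝ) - (r * (i * (t + 1 : ℕ)) + σ * (D * (vA a μ s (2 ^ x) * 2 ^ x)))) + r) := by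
      push_cast
      ring
    rw [e1]
    refine (abs_add_le _ _).trans ?_
    have k9 := abs_add_le (-((xx i : ℝ) - (r * (i * (t + 1 : ℕ)) + σ * (D * (vA a μ s (2 ^ x) * 2 ^ x))))) r
    rw [abs_neg, abs_of_nonneg hr01.1] at k9
    linarith [hr01.2]
  · rw [e0]
    linarith

end

end Pool.Agent.W_7d29a1_H
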