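import Pool.Agent.W_7d29a1_H.PredH
import Pool.Agent.W_7d29a1_g.CrossRec

/-!
MP_7d29a1_pr, TRACK H (all tilts), (hF2): the predicates of the window: two cheap tubes (TF), the record trick along both (RTF).
Models: `W_1b8d5d_p.HfE99`, `HfP99`.
-/

set_option autoImplicit false

namespace Pool.Agent.W_7d29a1_H

open MeasureTheory ProbabilityTheory Filter Topology Set
open Pool.Agent.W_7d29a1_F Pool.Agent.W_7d29a1_h4g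
open Pool.Agent.W_7d29a1_g (HasPath eR Tube)

noncomputable section

/-- Two slopes `sm < sp` at a distance of at least `c7 v`, with the record trick along both: pieces of the duration `2 t + 1` and
the displacement `r t + xs t` cost at most the cheapest displacement of the duration `t` and a share of the tube. -/
structure TwoLH (a c7 C7 Cc : ℝ) (μ : Measure ℝ) (s : ℝ) (n N : ℕ) (t0 sp sm : ℝ) : Prop where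
  gap : c7 * vA a μ s n ≤ sp - sm
  absp : |sp - sl μ s| ≤ C7 * vA a μ s n
  absm : |sm - sl μ s| ≤ C7 * vA a μ s n
  rt : ∀ t : ℕ, t0 ≤ t → 8 * t ≤ N → ∀ r : ℝ, r = sp ∨ r = sm → c7 / 4 * (vA a μ s n * t) ≤ |r * t - xs μ s t| →
    ∃ y : ℤ, 0 ≤ y ∧ y ≤ (2 * t + 1 : ℕ) ∧ |(y : ℝ) - (r * t + xs μ s t)| ≤ Cc ∧
      e μ s (2 * t + 1) y ≤ e μ s t (xs μ s t) + C7 * (t / N) * EE μ s N + Cc

/-- **Two tubes and the record trick, uniformly**, in slow windows (exponent `θ`) with flat widths (flat also on `j0` octaves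
before the window, `j0 ∈ Js`). -/
def RTFsH (Js : Set ℕ) (θ a : ℝ) (μ : Measure ℝ) (A : Set ℝ) : Prop :=
  ∃ (c7 C7 Cc : ℝ) (h0 : ℕ), 0 < c7 ∧ 0 < C7 ∧ 0 < Cc ∧ ∀ c0 : ℝ, 0 < c0 → ∃ j0 ∈ Js, ∀ h : ℕ, h0 ≤ h →
    ∃ (L x1 : ℕ) (δ : ℝ), 0 < δ ∧ ∀ s ∈ A, ∀ x : ℕ, x1 ≤ x → j0 ≤ x →
      (∀ j : ℕ, j ≤ L → gg μ s (x + j) ≤ gg μ s x + θ * j) → ff a μ s (x + L) < ff a μ s (x - j0) + δ →
      ∃ sp sm : ℝ, TwoLH a c7 C7 Cc μ s (2 ^ x) (2 ^ (x + h)) (c0 * 2 ^ x) sp sm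

/-- The same without octaves before the window. -/
def RTFH (θ a : ℝ) (μ : Measure ℝ) (A : Set ℝ) : Prop :=
  ∃ (c7 C7 Cc : ℝ) (h0 : ℕ), 0 < c7 ∧ 0 < C7 ∧ 0 < Cc ∧ ∀ c0 : ℝ, 0 < c0 → ∀ h : ℕ, h0 ≤ h →
    ∃ (L x1 : ℕ) (δ : ℝ), 0 < δ ∧ ∀ s ∈ A, ∀ x : ℕ, x1 ≤ x →
      (∀ j : ℕ, j ≤ L → gg μ s (x + j) ≤ gg μ s x + θ * j) → ff a μ s (x + L) < ff a μ s x + δ →
      ∃ sp sm : ℝ, TwoLH a c7 C7 Cc μ s (2 ^ x) (2 ^ (x + h)) (c0 * 2 ^ x) sp sm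

theorem RTFH.to {θ a : ℝ} {μ : Measure ℝ} {A : Set ℝ} (h : RTFH θ a μ A) : RTFsH {0} θ a μ A := by
  obtain ⟨c7, C7, Cc, h0, h1, h2, h3, h4⟩ := h
  refine ⟨c7, C7, Cc, h0, h1, h2, h3, fun c0 hc0 => ⟨0, rfl, fun h hh => ?_⟩⟩
  obtain ⟨L, x1, δ, hδ, h5⟩ := h4 c0 hc0 h hh
  exact ⟨L, x1, δ, hδ, fun s hs x hx _ => h5 s hs x hx⟩

/-- **(TF)**: cheap tubes of two slopes at a distance of at least `c7 v`, at all durations in `[N / 4, N]`, `N = 2 ^ (x + h)`. -/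
def TFH (θ a : ℝ) (μ : Measure ℝ) (A : Set ℝ) : Prop :=
  ∃ (c7 C7 : ℝ) (h0 : ℕ), 0 < c7 ∧ 0 < C7 ∧ ∀ D : ℝ, 0 < D → ∀ h : ℕ, h0 ≤ h →
    ∃ (L x1 : ℕ) (δ : ℝ), 0 < δ ∧ ∀ s ∈ A, ∀ x : ℕ, x1 ≤ x →
      (∀ j : ℕ, j ≤ L → gg μ s (x + j) ≤ gg μ s x + θ * j) → ff a μ s (x + L) < ff a μ s x + δ →
      ∃ sp sm : ℝ, c7 * vA a μ s (2 ^ x) ≤ sp - sm ∧ |sp - sl μ s| ≤ C7 * vA a μ s (2 ^ x) ∧
        |sm - sl μ s| ≤ C7 * vA a μ s (2 ^ x) ∧ 0 ≤ sm ∧ sp ≤ 1 ∧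
        ∀ T : ℕ, 2 ^ (x + h) ≤ 4 * T → T ≤ 2 ^ (x + h) → ∀ r : ℝ, r = sp ∨ r = sm →
          ∃ Z : ℤ, |(Z : ℝ) - r * T| ≤ 1 ∧ HasPath (Tube 0 r (D * (vA a μ s (2 ^ x) * 2 ^ x))) 0 T Z ∧
            eR μ s (Tube 0 r (D * (vA a μ s (2 ^ x) * 2 ^ x))) 0 T Z ≤ C7 * EE μ s (2 ^ (x + h))

end

end Pool.Agent.W_7d29a1_H
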