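import Pool.Agent.W_7d29a1_H.PredH
import Pool.Agent.W_7d29a1_h57g.TubeLine

/-!
MP_7d29a1_pr, TRACK H (all tilts), section TUBES: the mirror image of a straight tube, and the tube lemma `tube_line` at both edges.
(helper28)
-/

set_option autoImplicit false

namespace Pool.Agent.W_7d29a1_H

open MeasureTheory ProbabilityTheory Filter Topology Set
open Pool.Agent.W_7d29a1_F Pool.Agent.W_7d29a1_h4g Pool.Agent.W_7d29a1_h57g
open Pool.Agent.W_7d29a1_g (HasPath eR Tube)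
open Pool.Agent.W_7d29a1_h47 (EM Nondeg)

noncomputable section

variable {μ : Measure ℝ} [IsProbabilityMeasure μ] {s : ℝ}

/-- The mirror image of a restricted partition function. -/
theorem Zr_mir28 {R R' : Set Pt} (h : ∀ p : Pt, ((p.1, p.1 - p.2) : Pt) ∈ R' ↔ p ∈ R) (η : Env) (n : ℕ) (y : ℤ) :
    Zr R' (fun p => η (p.1, p.1 - p.2)) 0 n (n - y) = Zr R η 0 n y := by
  induction n generalizing y with
  | zero =>
    simp only [Zr, Nat.cast_zero, zero_sub, neg_eq_zero]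
  | succ n ih =>
    have h1 := ih y
    have h2 := ih (y - 1)
    have e1 : ((n : ℤ) - (y - 1)) = ((n + 1 : ℕ) : ℤ) - y := by push_cast; ring
    have e2 : ((n + 1 : ℕ) : ℤ) - y - 1 = (n : ℤ) - y := by push_cast; ring
    rw [e1] at h2
    simp only [Zr]
    rw [e2, h1, h2]
    have h3 : R'.indicator (fun p : Pt => Real.exp (η (p.1, p.1 - p.2))) ((0 : Pt).1 + ((n : ℤ) + 1), (0 : Pt).2 +
        (((n + 1 : ℕ) : ℤ) - y)) = R.indicator (fun p : Pt => Real.exp (η p)) ((0 : Pt).1 + ((n : ℤ) + 1), (0 : Pt).2 + y) := by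
      have e3 : (((0 : Pt).1 + ((n : ℤ) + 1), (0 : Pt).1 + ((n : ℤ) + 1) - ((0 : Pt).2 + y)) : Pt) =
          ((0 : Pt).1 + ((n : ℤ) + 1), (0 : Pt).2 + (((n + 1 : ℕ) : ℤ) - y)) := by
        refine Prod.ext rfl ?_
        show (0 : ℤ) + ((n : ℤ) + 1) - (0 + y) = 0 + (((n + 1 : ℕ) : ℤ) - y)
        push_cast
        ring
      have e4 := h ((0 : Pt).1 + ((n : ℤ) + 1), (0 : Pt).2 + y)
      rw [e3] at e4
      by_cases hR : (((0 : Pt).1 + ((n : ℤ) + 1), (0 : Pt).2 + y) : Pt) ∈ R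
      · rw [Set.indicator_of_mem (e4.2 hR), Set.indicator_of_mem hR]
        congr 2
        refine Prod.ext rfl ?_
        show (0 : ℤ) + ((n : ℤ) + 1) - (0 + (((n + 1 : ℕ) : ℤ) - y)) = 0 + y
        push_cast
        ring
      · rw [Set.indicator_of_notMem (fun hc => hR (e4.1 hc)), Set.indicator_of_notMem hR]
    rw [h3]
    ring

/-- The mirror image of a tube is a tube. -/
theorem mem_Tube_mir28 (c D : ℝ) (p : Pt) : ((p.1, p.1 - p.2) : Pt) ∈ Tube 0 (1 - c) D ↔ p ∈ Tube 0 c D := by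
  have e1 : ((p.1 - p.2 - 0 : ℤ) : ℝ) - (1 - c) * ((p.1 - 0 : ℤ) : ℝ) = -(((p.2 - 0 : ℤ) : ℝ) - c * ((p.1 - 0 : ℤ) : ℝ)) := by
    push_cast
    ring
  show |((p.1 - p.2 - 0 : ℤ) : ℝ) - (1 - c) * ((p.1 - 0 : ℤ) : ℝ)| ≤ D ↔ |((p.2 - 0 : ℤ) : ℝ) - c * ((p.1 - 0 : ℤ) : ℝ)| ≤ D
  rw [e1, abs_neg]

theorem WR_mir28 (hμ : EM μ) {R R' : Set Pt} (h : ∀ p : Pt, ((p.1, p.1 - p.2) : Pt) ∈ R' ↔ p ∈ R) (η : Env) (n : ℕ) (y : ℤ) :
    WR μ (-s) R' (fun p => η (p.1, p.1 - p.2)) 0 n (n - y) = WR μ s R η 0 n y := by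
  unfold WR
  rw [Zr_mir28 h, lam_neg hμ]
  congr 2
  push_cast
  ring

/-- The mean cost in the mirror image of a region. -/
theorem eR_mir28 (hμ : EM μ) {R R' : Set Pt} (h : ∀ p : Pt, ((p.1, p.1 - p.2) : Pt) ∈ R' ↔ p ∈ R) (n : ℕ) (y : ℤ) :
    eR μ (-s) R' 0 n (n - y) = eR μ s R 0 n y := by
  have hm : Measurable fun η : Env => -Real.log (WR μ (-s) R' η 0 n (n - y)) :=
    (Real.measurable_log.comp (measurable_WR R' 0 n (n - y))).neg
  unfold eR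
  have h1 := (mp_mirror (μ := μ)).map_eq
  conv_lhs => rw [← h1]
  rw [integral_map (mp_mirror (μ := μ)).measurable.aemeasurable hm.aestronglyMeasurable]
  refine integral_congr_ae (Filter.Eventually.of_forall fun η => ?_)
  show -Real.log (WR μ (-s) R' (fun p => η (p.1, p.1 - p.2)) 0 n (n - y)) = -Real.log (WR μ s R η 0 n y)
  rw [WR_mir28 hμ h]

/-- The mirror image of a path. -/
theorem hasPath_mir28 {R R' : Set Pt} (h : ∀ p : Pt, ((p.1, p.1 - p.2) : Pt) ∈ R' ↔ p ∈ R) {n : ℕ} {y : ℤ}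
    (hp : HasPath R 0 n y) : HasPath R' 0 n (n - y) := by
  obtain ⟨p, p0, pn, pst, pR⟩ := hp
  refine ⟨fun k => k - p k, by simp [p0], by simp [pn], fun k hk => ?_, fun k hk1 hk2 => ?_⟩
  · rcases pst k hk with h1 | h1
    · right
      push_cast
      rw [h1]
      ring
    · left
      push_cast
      rw [h1]
      ring
  · have h1 := (h _).2 (pR k hk1 hk2)
    have e1 : (((0 : Pt).1 + (k : ℤ), (0 : Pt).1 + (k : ℤ) - ((0 : Pt).2 + p k)) : Pt) = ((0 : Pt).1 + (k : ℤ), (0 : Pt).2 + ((k : ℤ) - p k)) := by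
      refine Prod.ext rfl ?_
      show (0 : ℤ) + (k : ℤ) - (0 + p k) = 0 + ((k : ℤ) - p k)
      ring
    rw [← e1]
    exact h1

theorem X_mir28 (hμ : EM μ) (η : Env) (n : ℕ) (y : ℤ) :
    X μ (-s) (fun p => η (p.1, p.1 - p.2)) 0 n (n - y) = X μ s η 0 n y := by
  unfold X W
  rw [WR_mir28 hμ (R := Set.univ) (R' := Set.univ) fun p => by simp]

theorem e_mir28 (hμ : EM μ) (n : ℕ) (y : ℤ) : e μ (-s) n (n - y) = e μ s n y :=
  e_mirror (lam_neg hμ s) n y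

theorem Xp_mir28 (hμ : EM μ) (n : ℕ) (y : ℤ) :
    ∫ η, max (X μ (-s) η 0 n (n - y)) 0 ∂(law μ) = ∫ η, max (X μ s η 0 n y) 0 ∂(law μ) := by
  have hm : Measurable fun η : Env => max (X μ (-s) η 0 n (n - y)) 0 := (measurable_X 0 n (n - y)).max measurable_const
  have h1 := (mp_mirror (μ := μ)).map_eq
  conv_lhs => rw [← h1]
  rw [integral_map (mp_mirror (μ := μ)).measurable.aemeasurable hm.aestronglyMeasurable]
  refine integral_congr_ae (Filter.Eventually.of_forall fun η => ?_)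
  show max (X μ (-s) (fun p => η (p.1, p.1 - p.2)) 0 n (n - y)) 0 = max (X μ s η 0 n y) 0
  rw [X_mir28 hμ]

/-- The unit of the mirror image. -/
theorem EU_mir28 (hμ : EM μ) (z : ℕ → ℤ) (n : ℕ) : EU μ (-s) (fun m => (m : ℤ) - z m) n = EU μ s z n := by
  unfold EU
  congr 1
  refine Finset.sup'_congr _ rfl fun m _ => ?_
  exact Xp_mir28 hμ m (z m)

/-- **The tube lemma at both edges**: `sg = 1`: right edge, `sg = -1`: left edge. -/
theorem tube_side28 (hEM : EM μ) (hnd : Nondeg μ) {K : ℝ} (hK : 1 ≤ K) : ∃ (T : ℕ) (C : ℝ), 1 ≤ C ∧ ∀ (s : ℝ) (z : ℕ → ℤ),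
    (∀ m, 0 ≤ z m ∧ z m ≤ m) → ∀ (c D B : ℝ) (n : ℕ) (sg : ℝ), sg = 1 ∨ sg = -1 → 0 ≤ c → c ≤ 1 → 1 ≤ D → 1 ≤ n →
      EU μ s z (2 ^ T * n) ≤ B → Real.log (4 * n) ≤ K * B →
      (∀ (m : ℕ) (y : ℤ), n ≤ m → m ≤ 2 * n → 0 ≤ y → y ≤ m → |(y : ℝ) - c * m| ≤ 1 → e μ s m y ≤ K * B) →
      (∀ y : ℤ, |(y : ℝ) - (c * (2 * n : ℕ) - sg * D)| ≤ 1 → 0 ≤ y ∧ y ≤ (2 * n : ℕ) ∧ e μ s (2 * n) y ≤ K * B) →
      (∀ y : ℤ, |(y : ℝ) - (c * (2 * n : ℕ) + sg * D)| ≤ 1 → C * B < e μ s (2 * n) y) →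
      ∃ y : ℤ, |(y : ℝ) - c * n| ≤ 1 ∧ HasPath (Tube 0 c D) 0 n y ∧ eR μ s (Tube 0 c D) 0 n y ≤ C * B := by
  obtain ⟨T, C, hC, h⟩ := tube_line hEM hnd (ε := 1 / 2) (K := K) (by norm_num) hK
  refine ⟨T, C, hC, fun s z hz c D B n sg hsg hc0 hc1 hD hn hB hlog hch hin hout => ?_⟩
  have hfl : ∀ r : ℝ, |((⌊r⌋ : ℤ) : ℝ) - r| ≤ 1 := fun r => by
    have h1 := Int.floor_le r
    have h2 := Int.lt_floor_add_one r
    rw [abs_le]
    constructor <;> linarith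
  rcases hsg with rfl | rfl
  · have h1 := h s z hz c D B n hc0 hc1 hD hn hB hlog hch (fun y hy => hin y (by rwa [one_mul]))
      (fun y hy => hout y (by rwa [one_mul]))
    exact ⟨⌊c * n⌋, hfl _, h1.2.2.1, h1.2.2.2⟩
  · have h1 := h (-s) (fun m => (m : ℤ) - z m) (fun m => ⟨by have := (hz m).2; omega, by have := (hz m).1; omega⟩) (1 - c) D B n
      (by linarith) (by linarith) hD hn (by rw [EU_mir28 hEM]; exact hB) hlog ?_ ?_ ?_
    · obtain ⟨-, -, h3, h4⟩ := h1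
      have hm : ∀ p : Pt, ((p.1, p.1 - p.2) : Pt) ∈ Tube 0 c D ↔ p ∈ Tube 0 (1 - c) D := fun p => by
        have h5 := mem_Tube_mir28 (1 - c) D p
        rwa [sub_sub_cancel] at h5
      refine ⟨(n : ℤ) - ⌊(1 - c) * (n : ℝ)⌋, ?_, hasPath_mir28 hm h3, ?_⟩
      · have h5 := hfl ((1 - c) * (n : ℝ))
        have e1 : ((((n : ℤ) - ⌊(1 - c) * (n : ℝ)⌋ : ℤ)) : ℝ) - c * n = -(((⌊(1 - c) * (n : ℝ)⌋ : ℤ) : ℝ) - (1 - c) * n) := by
          push_cast
          ring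
        rw [e1, abs_neg]
        exact h5
      · have h5 := eR_mir28 (μ := μ) (s := -s) hEM hm n ⌊(1 - c) * (n : ℝ)⌋
        rw [neg_neg] at h5
        rw [h5]
        exact h4
    · intro m y h2 h3 h4 h5 h6
      have e1 := e_mir28 (μ := μ) (s := s) hEM m ((m : ℤ) - y)
      rw [sub_sub_cancel] at e1
      rw [e1]
      refine hch m _ h2 h3 (by omega) (by omega) ?_
      have e2 : ((((m : ℤ) - y : ℤ)) : ℝ) - c * m = -((y : ℝ) - (1 - c) * m) := by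
        push_cast
        ring
      rw [e2, abs_neg]
      exact h6
    · intro y hy
      have h5 := hin (((2 * n : ℕ) : ℤ) - y) (by
        have e2 : ((((2 * n : ℕ) : ℤ) - y : ℤ) : ℝ) - (c * (2 * n : ℕ) - -1 * D) =
            -((y : ℝ) - ((1 - c) * (2 * n : ℕ) - D)) := by
          push_cast
          ring
        rw [e2, abs_neg]
        exact hy)
      obtain ⟨h6, h7, h8⟩ := h5
      have e1 := e_mir28 (μ := μ) (s := s) hEM (2 * n) (((2 * n : ℕ) : ℤ) - y)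
      rw [sub_sub_cancel] at e1
      refine ⟨by omega, by omega, ?_⟩
      rw [e1]
      exact h8
    · intro y hy
      have e1 := e_mir28 (μ := μ) (s := s) hEM (2 * n) (((2 * n : ℕ) : ℤ) - y)
      rw [sub_sub_cancel] at e1
      rw [e1]
      refine hout _ ?_
      have e2 : ((((2 * n : ℕ) : ℤ) - y : ℤ) : ℝ) - (c * (2 * n : ℕ) + -1 * D) =
          -((y : ℝ) - ((1 - c) * (2 * n : ℕ) + D)) := by
        push_cast
        ring
      rw [e2, abs_neg]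
      exact hy

end

end Pool.Agent.W_7d29a1_H
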