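import Pool.Agent.W_7d29a1_H.TFcH28
import Pool.Agent.W_7d29a1_H.TubeMir28
import Pool.Agent.W_7d29a1_H.RtDefH99

/-!
MP_7d29a1_pr, TRACK H (all tilts), section TUBES: the cheap tubes at both edges of a slow window with a flat width (TF); the file
`W_1b8d5d_p28/TF` at positive temperature. (helper28)
-/

set_option autoImplicit false

namespace Pool.Agent.W_7d29a1_H

open MeasureTheory ProbabilityTheory Filter Topology Set
open Pool.Agent.W_7d29a1_F Pool.Agent.W_7d29a1_h4g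
open Pool.Agent.W_1b8d5d_p (wR wL Rf)
open Pool.Agent.W_7d29a1_g (HasPath eR Tube)
open Pool.Agent.W_7d29a1_h47 (EM Nondeg)

noncomputable section

variable {μ : Measure ℝ} [IsProbabilityMeasure μ] {H δ a A0 A1 θ c0 : ℝ} {A : Set ℝ} {s : ℝ}

omit [IsProbabilityMeasure μ] in
theorem Tube_mono28 {c D D' : ℝ} (h : D ≤ D') : Tube 0 c D ⊆ Tube 0 c D' := fun p hp => by
  have h1 : |((p.2 - (0 : Pt).2 : ℤ) : ℝ) - c * ((p.1 - (0 : Pt).1 : ℤ) : ℝ)| ≤ D := hp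
  exact h1.trans h

/-- The tube at one duration. -/
theorem tube_at28 (hμ : EM μ) {C Cb c1 δ V c D' sg : ℝ} {Tt T : ℕ} (hCb : Cb = C * 2 ^ Tt) (hsg : sg = 1 ∨ sg = -1) (hT1 : 1 ≤ T)
    (hc1 : 1 ≤ c1) (hδ : 0 < δ) (hcl : 3 / 4 * δ ≤ c) (hcu : c ≤ 1 - 3 / 4 * δ) (hD1 : 1 ≤ D') (hDδ : D' ≤ δ / 8 * T)
    (hDV : 4 * D' ≤ V * (2 * T : ℕ)) (hδT : 12 ≤ δ * T) (hlog : 2 * Real.log (2 * T : ℕ) ≤ EE μ s (2 * T))
    (htube : ∀ (c D B : ℝ) (n : ℕ) (sg : ℝ), sg = 1 ∨ sg = -1 → 0 ≤ c → c ≤ 1 → 1 ≤ D → 1 ≤ n →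
      EU μ s (zs μ s) (2 ^ Tt * n) ≤ B → Real.log (4 * n) ≤ c1 * B →
      (∀ (m : ℕ) (y : ℤ), n ≤ m → m ≤ 2 * n → 0 ≤ y → y ≤ m → |(y : ℝ) - c * m| ≤ 1 → e μ s m y ≤ c1 * B) →
      (∀ y : ℤ, |(y : ℝ) - (c * (2 * n : ℕ) - sg * D)| ≤ 1 → 0 ≤ y ∧ y ≤ (2 * n : ℕ) ∧ e μ s (2 * n) y ≤ c1 * B) →
      (∀ y : ℤ, |(y : ℝ) - (c * (2 * n : ℕ) + sg * D)| ≤ 1 → C * B < e μ s (2 * n) y) →
      ∃ y : ℤ, |(y : ℝ) - c * n| ≤ 1 ∧ HasPath (Tube 0 c D) 0 n y ∧ eR μ s (Tube 0 c D) 0 n y ≤ C * B) (hV : 0 < V)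
    (hcheap : ∀ (r : ℝ) (m : ℕ) (y' : ℤ), 0 ≤ r → 4 * r ≤ V * m → T ≤ m → m ≤ 2 * T →
      |(y' : ℝ) - (c * m - sg * r)| ≤ 1 → e μ s m y' ≤ c1 * EE μ s (2 * T))
    (hdear : ∀ y' : ℤ, 0 ≤ y' → y' ≤ (2 * T : ℕ) → |(y' : ℝ) - (c * (2 * T : ℕ) + sg * D')| ≤ 1 →
      Cb * EE μ s (2 * T) < e μ s (2 * T) y') :
    ∃ Z : ℤ, |(Z : ℝ) - c * T| ≤ 1 ∧ HasPath (Tube 0 c D') 0 T Z ∧ eR μ s (Tube 0 c D') 0 T Z ≤ Cb * EE μ s (2 * T) := by
  have hTr : (1 : ℝ) ≤ T := by exact_mod_cast hT1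
  have h2T : (1 : ℝ) ≤ 2 ^ Tt := one_le_pow₀ one_le_two
  have hE2 := one_le_EE (μ := μ) (s := s) (2 * T)
  have hD0 : 0 < D' := by linarith
  -- displacements near the line are admissible
  have hadm : ∀ (r : ℝ) (y' : ℤ), |r| ≤ D' → |(y' : ℝ) - (c * (2 * T : ℕ) + r)| ≤ 1 → 0 ≤ y' ∧ y' ≤ (2 * T : ℕ) := by
    intro r y' hr hy'
    have h1 := abs_le.1 hy'
    have h2 := abs_le.1 hr
    have hTp : (0 : ℝ) ≤ 2 * T := by positivity
    have h6 : 3 / 4 * δ * (2 * T) ≤ c * (2 * T) := mul_le_mul_of_nonneg_right hcl hTp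
    have h7 : c * (2 * T) ≤ (1 - 3 / 4 * δ) * (2 * T) := mul_le_mul_of_nonneg_right hcu hTp
    push_cast at h1 ⊢
    have h8 : (0 : ℝ) ≤ y' := by linarith [h1.1, h2.1]
    have h9 : (y' : ℝ) ≤ 2 * T := by linarith [h1.2, h2.2]
    exact ⟨by exact_mod_cast h8, by exact_mod_cast h9⟩
  obtain ⟨B, hB⟩ : ∃ B : ℝ, B = 2 ^ Tt * EE μ s (2 * T) := ⟨_, rfl⟩
  have hEB : EE μ s (2 * T) ≤ B := by
    rw [hB]
    exact le_mul_of_one_le_left (by linarith) h2T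
  have hKB : c1 * EE μ s (2 * T) ≤ c1 * B := mul_le_mul_of_nonneg_left hEB (by linarith)
  have hsD : |sg * D'| ≤ D' := by
    rcases hsg with rfl | rfl
    · rw [one_mul, abs_of_pos hD0]
    · rw [neg_one_mul, abs_neg, abs_of_pos hD0]
  have hres := htube c D' B T sg hsg (by linarith) (by linarith) hD1 hT1 ?_ ?_ ?_ ?_ ?_
  · obtain ⟨Z, hZ1, hZ2, hZ3⟩ := hres
    refine ⟨Z, hZ1, hZ2, hZ3.trans (le_of_eq ?_)⟩
    rw [hB, hCb]
    ring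
  · have h1 : EE μ s (2 ^ Tt * T) ≤ 2 ^ Tt * EE μ s T := by
      have h2 := EE_mul hμ s T (k := 2 ^ Tt) Nat.one_le_two_pow
      push_cast at h2
      exact h2
    have h3 : EE μ s T ≤ EE μ s (2 * T) := EE_mono (by omega)
    refine h1.trans ?_
    rw [hB]
    exact mul_le_mul_of_nonneg_left h3 (by positivity)
  · push_cast at hlog
    have h2 : Real.log (4 * T) = Real.log 2 + Real.log (2 * T) := by
      rw [← Real.log_mul (by norm_num) (by positivity)]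
      ring_nf
    have h3 : Real.log 2 ≤ Real.log (2 * T) := Real.log_le_log two_pos (by linarith)
    have h4 : 1 * EE μ s (2 * T) ≤ c1 * EE μ s (2 * T) := mul_le_mul_of_nonneg_right hc1 (by linarith)
    linarith
  · intro m y' h1 h2 _ _ h5
    refine (hcheap 0 m y' le_rfl (by rw [mul_zero]; positivity) h1 h2 ?_).trans hKB
    rwa [mul_zero, sub_zero]
  · intro y' hy'
    have h1 := hadm (-(sg * D')) y' (by rwa [abs_neg]) (by rwa [← sub_eq_add_neg])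
    exact ⟨h1.1, h1.2, (hcheap D' (2 * T) y' hD0.le hDV (by omega) le_rfl hy').trans hKB⟩
  · intro y' hy'
    have h1 := hadm (sg * D') y' hsD hy'
    calc C * B = Cb * EE μ s (2 * T) := by rw [hB, hCb]; ring
      _ < _ := hdear y' h1.1 h1.2 hy'

/-- **(TF)**, general form. -/
theorem tf0H28 (hD : Dirs μ H δ A) (hR : Rate μ A) (hG : LogG μ A) (hA : 0 < a) (hA0 : a ≤ A0) (hA1 : A0 < A1)
    (hc0 : 0 < c0) (hin : InWH μ A a A0 A1 c0) (hθ : θ < 1) : TFH θ a μ A := by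
  obtain ⟨Ci, c1, nI, hCi, hc1, hin⟩ := hin
  have hin' : ∀ s ∈ A, In28 μ s a A0 A1 c0 Ci c1 nI := fun s hs N hN w S h1 h2 h3 h4 h5 h6 h7 y h8 h9 =>
    hin s hs N hN w S h1 h2 h3 h4 h5 h6 h7 y h8 h9
  obtain ⟨Tt, C, hC1, htube⟩ := tube_side28 hD.em hD.nd (K := c1) hc1
  obtain ⟨Cb, hCb⟩ : ∃ Cb : ℝ, Cb = C * 2 ^ Tt := ⟨_, rfl⟩
  have h2T : (1 : ℝ) ≤ 2 ^ Tt := one_le_pow₀ one_le_two
  have hCb1 : 1 ≤ Cb := by rw [hCb]; exact one_le_mul_of_one_le_of_one_le hC1 h2T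
  have hA1' : 0 < A1 := by linarith
  have ha : 0 < A1 - A0 := by linarith
  have h1θ : 0 < 1 - θ := by linarith
  obtain ⟨Kw, hKw⟩ : ∃ Kw : ℝ, Kw = 256 * Ci + 16 / c0 + 16 * (6 / c0 + 1) + 64 * (2 * Ci) + 4 * Cb / (A1 - A0) + 17 := ⟨_, rfl⟩
  have k1 : 0 ≤ 256 * Ci := by positivity
  have k2 : 0 < 16 / c0 := by positivity
  have k3 : 0 < 16 * (6 / c0 + 1) := by positivity
  have k4 : 0 ≤ 64 * (2 * Ci) := by positivity
  have k5 : 0 < 4 * Cb / (A1 - A0) := by positivity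
  have hK : 0 < Kw := by linarith
  have hK16 : 16 ≤ Kw := by linarith
  have hK64 : 64 * (2 * Ci) ≤ Kw := by linarith
  have hKC : 4 * Cb < (A1 - A0) * Kw := by
    have h1 : 4 * Cb / (A1 - A0) < Kw := by linarith
    rw [div_lt_iff₀ ha] at h1
    linarith
  obtain ⟨h0, hh0⟩ := exists_nat_ge ((Real.logb 2 (A1 / a) + θ + 2) / (1 - θ))
  refine ⟨1 / 4, 2 * Cb + 1, max h0 4, by norm_num, by positivity, ?_⟩
  intro D hD0 h hh
  have hh4 : 4 ≤ h := (le_max_right _ _).trans hh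
  have hh2 : 2 ≤ h := by omega
  have hh1 : h0 ≤ h := (le_max_left _ _).trans hh
  obtain ⟨D1, hD1⟩ : ∃ D1 : ℝ, D1 = min D 1 := ⟨_, rfl⟩
  have hD10 : 0 < D1 := by rw [hD1]; exact lt_min hD0 one_pos
  have hD11 : D1 ≤ 1 := by rw [hD1]; exact min_le_right _ _
  have hD1D : D1 ≤ D := by rw [hD1]; exact min_le_left _ _
  obtain ⟨q, hq⟩ : ∃ q : ℕ, q = h + 1 := ⟨_, rfl⟩
  have hq1 : 1 ≤ q := by omega
  have hqr : A1 * (2 : ℝ) ^ (θ * q + 2) ≤ a * 2 ^ h := by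
    have h1 : (Real.logb 2 (A1 / a) + θ + 2) ≤ (1 - θ) * h := by
      have h2 : (Real.logb 2 (A1 / a) + θ + 2) / (1 - θ) ≤ h := hh0.trans (by exact_mod_cast hh1)
      rw [div_le_iff₀ h1θ] at h2
      linarith
    have h2 : A1 = a * (2 : ℝ) ^ Real.logb 2 (A1 / a) := by
      rw [Real.rpow_logb two_pos (by norm_num) (by positivity)]
      field_simp
    have h3 : A1 * (2 : ℝ) ^ (θ * q + 2) = a * 2 ^ (Real.logb 2 (A1 / a) + (θ * q + 2)) := by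
      rw [Real.rpow_add two_pos (Real.logb 2 (A1 / a)) (θ * q + 2), ← mul_assoc, ← h2]
    rw [h3]
    refine mul_le_mul_of_nonneg_left ?_ hA.le
    rw [← Real.rpow_natCast 2 h]
    refine Real.rpow_le_rpow_of_exponent_le one_le_two ?_
    rw [hq]
    push_cast
    linarith
  obtain ⟨L0, hL0⟩ := exists_nat_ge ((q : ℝ) / (1 - θ))
  obtain ⟨L, hL⟩ : ∃ L : ℕ, L = L0 + q := ⟨_, rfl⟩
  have hLq : q ≤ L := by omega
  have hL1 : θ * L + q ≤ L := by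
    have h1 : (q : ℝ) / (1 - θ) ≤ L := hL0.trans (by exact_mod_cast (by omega : L0 ≤ L))
    rw [div_le_iff₀ h1θ] at h1
    linarith
  have hL2 : θ * L + 1 ≤ L := by
    have : (1 : ℝ) ≤ q := by exact_mod_cast hq1
    linarith
  obtain ⟨y, hy⟩ : ∃ y : ℝ, y = D1 / ((c0 + 1) * Kw * 2 ^ q) := ⟨_, rfl⟩
  have hy0 : 0 < y := by rw [hy]; positivity
  have hq2 : (1 : ℝ) ≤ 2 ^ q := one_le_pow₀ one_le_two
  have hyK : y * ((c0 + 1) * Kw * 2 ^ q) = D1 := by rw [hy, div_mul_cancel₀ _ (by positivity)]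
  have hy1 : y ≤ 1 := by
    rw [hy, div_le_one (by positivity)]
    have h1 : 1 ≤ (c0 + 1) * Kw := one_le_mul_of_one_le_of_one_le (by linarith only [hc0]) (by linarith)
    have h2 : 1 ≤ (c0 + 1) * Kw * 2 ^ q := one_le_mul_of_one_le_of_one_le h1 hq2
    linarith only [h2, hD11]
  have hyc : y * (c0 * Kw) ≤ D1 := by
    rw [← hyK]
    refine mul_le_mul_of_nonneg_left ?_ hy0.le
    have h1 : (c0 + 1) * Kw * 1 ≤ (c0 + 1) * Kw * 2 ^ q := mul_le_mul_of_nonneg_left hq2 (by positivity)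
    have h2 : (c0 + 1) * Kw * 1 = c0 * Kw + Kw := by ring
    linarith only [h1, h2, hK]
  have hyq : Kw * (y * 2 ^ q) ≤ D1 := by
    rw [← hyK]
    have h1 : 0 ≤ y * (c0 * Kw * 2 ^ q) := by positivity
    have h2 : y * ((c0 + 1) * Kw * 2 ^ q) = y * (c0 * Kw * 2 ^ q) + Kw * (y * 2 ^ q) := by ring
    linarith only [h1, h2]
  obtain ⟨Q, hQ⟩ : ∃ Q : ℝ, Q = (Kw + 24 + 64) / D1 + 2 * (66 + 8 / c0) := ⟨_, rfl⟩
  have hδ := hD.δ0
  obtain ⟨n1, hn1, hwl⟩ := hD.w_large hR hA Q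
  obtain ⟨n2, hn2, hvs⟩ := hD.vA_small hR hA (ε := min 1 (δ / 8)) (lt_min one_pos (by positivity))
  obtain ⟨n3, hn3⟩ := hG 2
  obtain ⟨n4, hn4⟩ := exists_nat_ge (12 / δ)
  refine ⟨L, max (max nI (max n1 n2)) (max n3 (max n4 2)), Real.logb 2 (1 + y), Real.logb_pos one_lt_two (by linarith), ?_⟩
  intro s hs x hx hslow hflat
  have hxx : max (max nI (max n1 n2)) (max n3 (max n4 2)) ≤ 2 ^ x := hx.trans Nat.lt_two_pow_self.le
  have hxI : nI ≤ 2 ^ x := by omega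
  have hx1 : n1 ≤ 2 ^ x := by omega
  have hx2 : n2 ≤ 2 ^ x := by omega
  have hx3 : n3 ≤ 2 ^ x := by omega
  have hx5 : n4 ≤ 2 ^ x := by omega
  have hx4 : 2 ≤ x := by omega
  have hp0 : (0 : ℝ) < 2 ^ x := by positivity
  have hp4 : (4 : ℝ) ≤ 2 ^ x := by
    calc (4 : ℝ) = 2 ^ 2 := by norm_num
      _ ≤ 2 ^ x := pow_le_pow_right₀ one_le_two hx4
  have hNn : (2 : ℝ) ^ x ≤ 2 ^ (x + h) := pow_le_pow_right₀ one_le_two (by omega)
  obtain ⟨hb, hVv, hvV, hfl⟩ := flat28 hD hs hA hA0 hA1.le (j0 := 0) hy0 (hslow L le_rfl) (hslow q hLq) hL1 hh2 hqr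
    (Nat.zero_le x) (by rw [Nat.sub_zero]; exact hflat)
  obtain ⟨V, hV⟩ : ∃ V, V = vA a μ s (2 ^ (x + L)) := ⟨_, rfl⟩
  obtain ⟨v, hv⟩ : ∃ v, v = vA a μ s (2 ^ x) := ⟨_, rfl⟩
  rw [← hV] at hVv hvV hfl
  rw [← hv] at hVv hvV
  have hV0 : 0 < V := by rw [hV]; exact hD.vA_pos hs hA Nat.one_le_two_pow
  have hv0 : 0 < v := hV0.trans_le hVv
  have hv2V : v ≤ 2 * V := by
    have : (1 + y) * V ≤ 2 * V := mul_le_mul_of_nonneg_right (by linarith) hV0.le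
    linarith
  have hvδ : v ≤ δ / 8 := by
    rw [hv]
    exact (hvs s hs (2 ^ x) hx2).trans (min_le_right _ _)
  have hQv : Q ≤ 2 ^ x * v := by
    have h1 := hwl s hs (2 ^ x) hx1
    have h2 := one_le_EE (μ := μ) (s := s) (2 ^ x)
    have hQ0 : 0 ≤ Q := by rw [hQ]; positivity
    have h3 : Q * 1 ≤ Q * EE μ s (2 ^ x) := mul_le_mul_of_nonneg_left h2 hQ0
    push_cast at h1
    rw [← hv] at h1
    linarith
  have hnV1 : 66 + 8 / c0 ≤ 2 ^ x * V := by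
    have h1 : 2 ^ x * v ≤ 2 ^ x * (2 * V) := mul_le_mul_of_nonneg_left hv2V hp0.le
    have h2 : 0 ≤ (Kw + 24 + 64) / D1 := by positivity
    linarith
  obtain ⟨D', hD'⟩ : ∃ D', D' = D1 * (v * 2 ^ x) := ⟨_, rfl⟩
  have hD'2 : Kw + 24 + 64 ≤ D' := by
    have h1 : D1 * Q ≤ D1 * (2 ^ x * v) := mul_le_mul_of_nonneg_left hQv hD10.le
    have h2 : D1 * ((Kw + 24 + 64) / D1) = Kw + 24 + 64 := by field_simp
    have h3 : 0 ≤ D1 * (2 * (66 + 8 / c0)) := by positivity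
    rw [hQ, mul_add, h2] at h1
    rw [hD']
    linarith
  have hD'v : D' ≤ v * 2 ^ x := by
    rw [hD']
    have h1 : D1 * (v * 2 ^ x) ≤ 1 * (v * 2 ^ x) := mul_le_mul_of_nonneg_right hD11 (by positivity)
    linarith
  obtain ⟨w, hw⟩ : ∃ w, w = ⌈D' / Kw⌉₊ := ⟨_, rfl⟩
  obtain ⟨e0, he0⟩ : ∃ e0 : ℝ, e0 = 4 * (Ci * w + 1) / 2 ^ (x + h) := ⟨_, rfl⟩
  have hk8 : 0 < 8 / c0 := by positivity
  have hN : Nm28 c0 Ci Kw V D' e0 (2 ^ x) (2 ^ (x + h)) w :=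
    nums28 (D := D1) hc0 hCi (by linarith) (by linarith) (by linarith) hV0 hp4 hNn hD11 hv0 hv2V hD' (by linarith)
      (by linarith) (by linarith) hw he0
  have hVs : V = vs a μ s 1 (2 ^ (x + L)) + vs a μ s (-1) (2 ^ (x + L)) := by
    rw [hV]
    exact vA_vs28 a μ s _
  have htp : 0 ≤ vs a μ s 1 (2 ^ (x + L)) := vs_nonneg hD hs (Or.inl rfl) hA.le
  have htm : 0 ≤ vs a μ s (-1) (2 ^ (x + L)) := vs_nonneg hD hs (Or.inr rfl) hA.le
  have heV := hN.eV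
  have he0p := hN.e0p
  have habs : ∀ sg : ℝ, sg = 1 ∨ sg = -1 → |sg * (vs a μ s sg (2 ^ (x + L)) - e0)| ≤ V := by
    intro sg hsg
    rcases hsg with rfl | rfl
    · rw [one_mul, abs_le]
      constructor <;> linarith
    · rw [neg_one_mul, abs_neg, abs_le]
      constructor <;> linarith
  have hlo := hD.lo s hs
  have hhi := hD.hi s hs
  have hcb : ∀ sg : ℝ, sg = 1 ∨ sg = -1 → 3 / 4 * δ ≤ sl μ s + sg * (vs a μ s sg (2 ^ (x + L)) - e0) ∧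
      sl μ s + sg * (vs a μ s sg (2 ^ (x + L)) - e0) ≤ 1 - 3 / 4 * δ := by
    intro sg hsg
    have h1 := abs_le.1 (habs sg hsg)
    constructor <;> linarith [h1.1, h1.2]
  -- the widths at the durations of the window
  have hwin : ∀ m : ℕ, 2 ^ (x + h) ≤ 4 * m → m ≤ 2 ^ (x + q) → ∀ sg : ℝ, sg = 1 ∨ sg = -1 →
      vs a μ s sg (2 ^ (x + L)) ≤ vs A0 μ s sg m ∧ vs A0 μ s sg m ≤ vs A1 μ s sg m ∧
        m * (vs A1 μ s sg m - vs a μ s sg (2 ^ (x + L))) ≤ w := by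
    intro m hm1 hm2 sg hsg
    obtain ⟨-, -, -, h1⟩ := hfl m hm1 hm2
    obtain ⟨h2, h3⟩ := h1 sg hsg
    refine ⟨h2, vs_mono hD hs hsg (hA.le.trans hA0) hA1.le, ?_⟩
    have h4 : (m : ℝ) ≤ 2 ^ x * 2 ^ q := by
      rw [← pow_add]
      exact_mod_cast hm2
    have h5 : (m : ℝ) * (vs A1 μ s sg m - vs a μ s sg (2 ^ (x + L))) ≤ (2 ^ x * 2 ^ q) * (y * V) := by
      calc (m : ℝ) * (vs A1 μ s sg m - vs a μ s sg (2 ^ (x + L))) ≤ m * (y * V) :=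
            mul_le_mul_of_nonneg_left (by linarith) (Nat.cast_nonneg _)
        _ ≤ _ := mul_le_mul_of_nonneg_right h4 (by positivity)
    have h6 : Kw * ((2 ^ x * 2 ^ q) * (y * V)) ≤ Kw * w := by
      calc Kw * ((2 ^ x * 2 ^ q) * (y * V)) = Kw * (y * 2 ^ q) * (2 ^ x * V) := by ring
        _ ≤ D1 * (2 ^ x * V) := mul_le_mul_of_nonneg_right hyq (by positivity)
        _ ≤ D1 * (2 ^ x * v) := mul_le_mul_of_nonneg_left (mul_le_mul_of_nonneg_left hVv hp0.le) hD10.le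
        _ = D' := by rw [hD']; ring
        _ ≤ Kw * w := hN.wl
    exact h5.trans (le_of_mul_le_mul_left h6 hK)
  -- the tubes
  have htb : ∀ sg : ℝ, sg = 1 ∨ sg = -1 → ∀ T : ℕ, 2 ^ (x + h) ≤ 4 * T → T ≤ 2 ^ (x + h) → ∃ Z : ℤ,
      |(Z : ℝ) - (sl μ s + sg * (vs a μ s sg (2 ^ (x + L)) - e0)) * T| ≤ 1 ∧
      HasPath (Tube 0 (sl μ s + sg * (vs a μ s sg (2 ^ (x + L)) - e0)) D') 0 T Z ∧
        eR μ s (Tube 0 (sl μ s + sg * (vs a μ s sg (2 ^ (x + L)) - e0)) D') 0 T Z ≤ Cb * EE μ s (2 * T) := by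
    intro sg hsg T hT1 hT2
    have hxT : 2 ^ x ≤ T := by
      have h3 : 2 ^ (x + 2) ≤ 2 ^ (x + h) := Nat.pow_le_pow_right (by norm_num) (by omega)
      have h4 : 2 ^ (x + 2) = 4 * 2 ^ x := by ring
      omega
    have hT1' : 1 ≤ T := Nat.one_le_two_pow.trans hxT
    have h2Tq : 2 * T ≤ 2 ^ (x + q) := by
      calc 2 * T ≤ 2 * 2 ^ (x + h) := Nat.mul_le_mul_left 2 hT2
        _ = 2 ^ (x + q) := by rw [hq]; ring
    have hxTr : (2 : ℝ) ^ x ≤ T := by exact_mod_cast hxT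
    have hcs := hcb sg hsg
    have hcheap : ∀ (r : ℝ) (m : ℕ) (y' : ℤ), 0 ≤ r → 4 * r ≤ V * m → T ≤ m → m ≤ 2 * T →
        |(y' : ℝ) - ((sl μ s + sg * (vs a μ s sg (2 ^ (x + L)) - e0)) * m - sg * r)| ≤ 1 → e μ s m y' ≤ c1 * EE μ s (2 * T) := by
      intro r m y' hr0 hr hm1 hm2 hy'
      have hm4 : 2 ^ (x + h) ≤ 4 * m := by omega
      have hmq : m ≤ 2 ^ (x + q) := hm2.trans h2Tq
      obtain ⟨g1, g2, g3, -⟩ := hfl m hm4 hmq
      have h1 := cheap_in28 hD hs hA hc0 (hin' s hs) (y := y) (θ := θ) hN hV hm4 g1 (hxI.trans g1)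
        ((hvs s hs m (hx2.trans g1)).trans (min_le_left _ _)) g2
        (g3.trans (mul_le_mul_of_nonneg_right (by linarith) hV0.le)) (by rw [← hv]; exact hvV) hy1 ?_
        (hslow L le_rfl) hL2 (hwin m hm4 hmq) hsg hr0 hr hy'
      · exact h1.trans (mul_le_mul_of_nonneg_left (EE_mono hm2) (by linarith))
      · calc y * (c0 * Kw * (2 ^ x * V)) = y * (c0 * Kw) * (2 ^ x * V) := by ring
          _ ≤ D1 * (2 ^ x * V) := mul_le_mul_of_nonneg_right hyc (by positivity)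
          _ ≤ D1 * (2 ^ x * v) := mul_le_mul_of_nonneg_left (mul_le_mul_of_nonneg_left hVv hp0.le) hD10.le
          _ = D' := by rw [hD']; ring
    have hT4 : (4 : ℝ) * 2 ^ x ≤ T := by
      have h1 : 2 ^ (x + 4) ≤ 2 ^ (x + h) := Nat.pow_le_pow_right (by norm_num) (by omega)
      have h2 : 2 ^ (x + 4) = 16 * 2 ^ x := by ring
      have h3 : 4 * 2 ^ x ≤ T := by omega
      exact_mod_cast h3
    refine tube_at28 (C := C) (Cb := Cb) (δ := δ) (V := V) (c1 := c1) hD.em hCb hsg hT1' hc1 hδ hcs.1 hcs.2 (by linarith only [hD'2, hK]) ?_ ?_ ?_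
      (hn3 s hs (2 * T) (hx3.trans (hxT.trans (Nat.le_mul_of_pos_left T two_pos)))) (htube s (zs μ s) fun m => zs_mem m) hV0 hcheap ?_
    · calc D' ≤ v * 2 ^ x := hD'v
        _ ≤ δ / 8 * T := mul_le_mul hvδ hxTr hp0.le (by positivity)
    · have h1 : v * 2 ^ x ≤ 2 * V * 2 ^ x := mul_le_mul_of_nonneg_right hv2V hp0.le
      have h2 : V * (4 * 2 ^ x) ≤ V * T := mul_le_mul_of_nonneg_left hT4 hV0.le
      push_cast
      linarith only [h1, h2, hD'v]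
    · have h5 : 12 / δ ≤ T := hn4.trans (by exact_mod_cast hx5.trans hxT)
      rw [div_le_iff₀ hδ] at h5
      linarith only [h5]
    · intro y' h0 h1 hy'
      have h2 := hwin (2 * T) (by omega) h2Tq sg hsg
      refine dear_out28 (R := 2) (C := Cb) hD hs (hA.le.trans hA0) hA1 hN (by linarith only [hK16]) (by linarith only [hK64]) (by norm_num) hKC
        (by linarith only [hD'2, hK]) (M := 2 * T) ?_ (by omega) hsg h2.2.2 ?_ h0 h1 (hy'.trans (by norm_num))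
      · push_cast
        have h4 : (T : ℝ) ≤ 2 ^ (x + h) := by exact_mod_cast hT2
        linarith only [h4]
      · refine le_trans (mul_le_mul_of_nonneg_left ?_ (Nat.cast_nonneg _)) h2.2.2
        linarith only [h2.1]
  refine ⟨sl μ s + 1 * (vs a μ s 1 (2 ^ (x + L)) - e0), sl μ s + -1 * (vs a μ s (-1) (2 ^ (x + L)) - e0), ?_, ?_, ?_, ?_, ?_, ?_⟩
  · rw [← hv]
    linarith
  · have h1 := habs 1 (Or.inl rfl)
    rw [← hv]
    have e1 : sl μ s + 1 * (vs a μ s 1 (2 ^ (x + L)) - e0) - sl μ s = 1 * (vs a μ s 1 (2 ^ (x + L)) - e0) := by ring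
    rw [e1]
    have h2 : 0 ≤ Cb * v := by positivity
    linarith
  · have h1 := habs (-1) (Or.inr rfl)
    rw [← hv]
    have e1 : sl μ s + -1 * (vs a μ s (-1) (2 ^ (x + L)) - e0) - sl μ s = -1 * (vs a μ s (-1) (2 ^ (x + L)) - e0) := by ring
    rw [e1]
    have h2 : 0 ≤ Cb * v := by positivity
    linarith
  · linarith [(hcb (-1) (Or.inr rfl)).1]
  · linarith [(hcb 1 (Or.inl rfl)).2]
  · intro T hT1 hT2 r hr
    obtain ⟨sg, hsg, rfl⟩ : ∃ sg : ℝ, (sg = 1 ∨ sg = -1) ∧ r = sl μ s + sg * (vs a μ s sg (2 ^ (x + L)) - e0) := by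
      rcases hr with h1 | h1
      · exact ⟨1, Or.inl rfl, h1⟩
      · exact ⟨-1, Or.inr rfl, h1⟩
    obtain ⟨Z, h1, h2, h3⟩ := htb sg hsg T hT1 hT2
    have hDD : D' ≤ D * (vA a μ s (2 ^ x) * 2 ^ x) := by
      rw [hD', ← hv]
      exact mul_le_mul_of_nonneg_right hD1D (by positivity)
    refine ⟨Z, h1, h2.mono (Tube_mono28 hDD), (Pool.Agent.W_7d29a1_h57g.eR_anti hD.em (Tube_mono28 hDD) h2).trans (h3.trans ?_)⟩
    have h6 : EE μ s (2 * T) ≤ 2 * EE μ s (2 ^ (x + h)) := EE_le_mul hD.em s (k := 2) (by norm_num) (Nat.mul_le_mul_left 2 hT2)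
    have h7 := mul_le_mul_of_nonneg_left h6 (by linarith : (0 : ℝ) ≤ Cb)
    have h8 := EE_pos (μ := μ) (s := s) (2 ^ (x + h))
    linarith

/-- **(TF)** for a set of tilts, every `θ < 1`. -/
theorem tf_allH (hD : Dirs μ H δ A) (hR : Rate μ A) (hG : LogG μ A) (hA : 0 < a) (hc0 : 0 < c0)
    (hin : InWH μ A a a (a + 1) c0) (hθ : θ < 1) : TFH θ a μ A :=
  tf0H28 hD hR hG hA le_rfl (by linarith) hc0 hin hθ

end

end Pool.Agent.W_7d29a1_H
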