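import Pool.Agent.W_7d29a1_H.MainA92
import Pool.Agent.W_7d29a1_H.CoreAll83
import Pool.Agent.W_7d29a1_H.BAll48
import Pool.Agent.W_7d29a1_H.D7Hd66
import Pool.Agent.W_7d29a1_H.HB0H71
import Pool.Agent.W_7d29a1_H.FrAllH78
import Pool.Agent.W_7d29a1_H.OctHe52
import Pool.Agent.W_7d29a1_H.NumH61
import Pool.Agent.W_7d29a1_H.TubeFlatH28
import Pool.Agent.W_7d29a1_H.RtFH99
import Pool.Agent.W_7d29a1_H.HfEsH65
import Pool.Agent.W_7d29a1_H.FinH6

/-!
MP_7d29a1_pr, TRACK H (all tilts): the seven statements of `SecH` from the three statements which are proved in the last files: (L*) at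
one scale (`FrameAtH`), the inner edges (`InWH`) and the exponential moments of the lanes (`ELH`).
-/

set_option autoImplicit false

namespace Pool.Agent.W_7d29a1_H

open MeasureTheory ProbabilityTheory Filter Topology Set
open Pool.Agent.W_7d29a1_F Pool.Agent.W_7d29a1_h4g
open Pool.Agent.W_7d29a1_h47 (EM Nondeg)

/-- The three last statements, for every family of tilts. -/
structure LastH (μ : Measure ℝ) : Prop where
  frame : ∀ (H δ : ℝ) (A : Set ℝ), Dirs μ H δ A → FrameAtH μ A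
  inn : ∀ (H δ : ℝ) (A : Set ℝ), Dirs μ H δ A → FrameH 1 μ A → ∃ c0 : ℝ, 0 < c0 ∧ InWH μ A 1 1 2 c0
  el : ∀ (H δ : ℝ) (A : Set ℝ), Dirs μ H δ A → FrameH 1 μ A → ELH 1 μ A

variable {μ : Measure ℝ} [IsProbabilityMeasure μ] {A : Set ℝ} {H δ : ℝ}

theorem LastH.fr (hL : LastH μ) (hD : Dirs μ H δ A) : FrameH 1 μ A := frameH_of78 hD le_rfl (hL.frame H δ A hD)

/-- Restriction to a smaller family. -/
theorem octH_mono92 {a : ℝ} {A' : Set ℝ} (hA : A ⊆ A') (h : OctH a μ A') : OctH a μ A := by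
  obtain ⟨C0, Km, k0, k1, l1, h0, h⟩ := h
  refine ⟨C0, Km, k0, k1, l1, h0, fun ε m hε h1 hK => ?_⟩
  obtain ⟨α, x0, h'⟩ := h ε m hε h1 hK
  exact ⟨α, x0, fun d => h' ⟨d.1, hA d.2⟩⟩

/-- One octave of (D4), for every family of tilts. -/
theorem octH_of92 (hL : LastH μ) (hD : Dirs μ H δ A) : OctH 1 μ A := by
  obtain ⟨d, hI⟩ := dirs_Icc hD.em hD.nd H
  have hsub : A ⊆ Icc (-H) H := fun s hs => abs_le.1 (hD.bd s hs)
  have hF := hL.fr hI
  obtain ⟨c0, hc0, hin⟩ := hL.inn H d _ hI hF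
  have hO : OctH 1 μ (Icc (-H) H) := octH_sym hI (fun s hs => ⟨by linarith [hs.2], by linarith [hs.1]⟩) hI.rate hI.grow hI.logg one_pos
    one_lt_two hc0 hin (numR_all hI hI.rate hI.grow one_pos one_lt_two hF.cheap)
  exact octH_mono92 hsub hO

/-- **(hF2)** from the inner edges. -/
theorem hf2H_of92 (hD : Dirs μ H δ A) (hF : LStarH 1 μ A) {c0 : ℝ} (hc0 : 0 < c0) (hin : InWH μ A 1 1 2 c0) : HF2H 1 μ A := by
  have hT : TFH (3 / 4) 1 μ A :=
    tf_allH hD hD.rate hD.logg one_pos hc0 (by norm_num at hin ⊢; exact hin) (by norm_num)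
  obtain ⟨c8, C8, h8, -, h⟩ := hfEsH hD le_rfl hD.rate hD.grow (by norm_num) (rtfH99 hD one_pos hD.rate hT).to
  refine hF2H6 hD one_pos hD.grow one_pos hF ⟨c8, h8, fun T x2 h1 S ε hε => ?_⟩
  obtain ⟨j0, hj0, L, x1, δ', hδ', h5⟩ := h T x2 h1 S ε hε
  refine ⟨j0, hj0, L, x1, δ', hδ', fun s hs x hx hj h6 h7 q hq1 hq2 => ?_⟩
  obtain ⟨lo, hi, k1, k2, k3, k4⟩ := h5 s hs x hx hj h6 h7 q hq1 hq2
  exact ⟨lo, hi, k1, k2, k3, fun y h8 h9 => (k4 y h8 h9).1⟩

/-- **The seven statements from the three last ones.** -/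
theorem LastH.sec (hL : LastH μ) : SecH μ where
  frame H δ A hD := hL.fr hD
  oct H δ A hD := octH_of92 hL hD
  d7 H δ A hD := d7H_of66 hD hD.rate hD.grow one_pos (hL.fr hD).cheap (hL.el H δ A hD (hL.fr hD))
    (i1H_of hD zero_le_one (hL.fr hD).tilt)
  hB0 H δ A hD := hb0H_all hD one_pos
  core H δ A hD := by
    obtain ⟨r, C3, -, -, h⟩ := coreH_fr83 hD one_pos hD.grow hD.logg (hL.fr hD)
    exact ⟨r, C3, h⟩
  hB H δ A hD := by
    obtain ⟨r, C3, -, -, h⟩ := coreH_fr83 hD one_pos hD.grow hD.logg (hL.fr hD)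
    exact hbH_all48 hD one_pos hD.rate hD.grow (hL.fr hD).cheap h (confPH_all hD one_pos)
  hF2 H δ A hD := by
    obtain ⟨c0, hc0, hin⟩ := hL.inn H δ A hD (hL.fr hD)
    exact hf2H_of92 hD (hL.fr hD).luck hc0 hin

/-- **TRACK H**, parts 1 and 2, from the three last statements. -/
theorem LastH.out (hL : LastH μ) (hμ : EM μ) (hnd : Nondeg μ) (H : ℝ) : OutH μ H := hL.sec.out hμ hnd H

end Pool.Agent.W_7d29a1_H
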