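import Pool.Agent.W_7d29a1_H.VsH52

/-!
MP_7d29a1_pr, TRACK H (all tilts), section (D4): THE FLAT WINDOW. On a stretch of slow growth all one-sided widths of the
scales between `2 ^ (z₀ + k)` and `2 ^ (z₁ - 3)` lie between those of the scales `2 ^ z₁` and `2 ^ z₀`; the rate function beyond the
window; widths of the smaller scales. One side `sg = 1` or `-1` at a time. Port of `W_1b8d5d_h52p/OctPa`. (helper52)
-/

set_option autoImplicit false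

namespace Pool.Agent.W_7d29a1_H

open MeasureTheory ProbabilityTheory Filter Topology Set
open Pool.Agent.W_7d29a1_F Pool.Agent.W_7d29a1_h4g
open Pool.Agent.W_1b8d5d_p (wR wL Rf SlowU)

variable {μ : Measure ℝ} [IsProbabilityMeasure μ] {H δ : ℝ} {A : Set ℝ} {s sg A0 A1 : ℝ} {k z0 z1 n : ℕ}

/-- The window in a stretch. -/
theorem fw_of {a b : ℕ} (hsl : SlowU (fun x => EE μ s (2 ^ x)) a b) (hlev : 15 / 4 * A1 * (5 / 8 : ℝ) ^ k ≤ A0) (h0 : a ≤ z0)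
    (h1 : z1 < b) (h2 : z0 + k + 3 ≤ z1) (h3 : z0 + 4 ≤ z1) : FW μ s A0 A1 k z0 z1 where
  slow z z' hz hzz hz' := hsl z z' (h0.trans hz) hzz (lt_of_le_of_lt hz' h1)
  lev := hlev
  len := h2
  len4 := h3

theorem exists_lev (hA0 : 0 < A0) (hA1 : 0 < A1) : ∃ k : ℕ, ∀ k' : ℕ, k ≤ k' → 15 / 4 * A1 * (5 / 8 : ℝ) ^ k' ≤ A0 := by
  obtain ⟨k, hk⟩ := exists_pow_lt_of_lt_one (show (0 : ℝ) < A0 / (15 / 4 * A1) by positivity)
    (show (5 / 8 : ℝ) < 1 by norm_num)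
  refine ⟨k, fun k' hk' => ?_⟩
  have h1 : (5 / 8 : ℝ) ^ k' ≤ (5 / 8 : ℝ) ^ k := pow_le_pow_of_le_one (by norm_num) (by norm_num) hk'
  have h2 := (h1.trans hk.le)
  rw [le_div_iff₀ (by positivity)] at h2
  linarith

/-- The octave of a number. -/
theorem op_octave {y M n : ℕ} (h1 : 2 ^ y ≤ n) (h2 : n ≤ 2 ^ (M + 1)) (hyM : y ≤ M) :
    ∃ z, y ≤ z ∧ z ≤ M ∧ 2 ^ z ≤ n ∧ n ≤ 2 ^ (z + 1) := by
  induction M with
  | zero => exact ⟨0, by omega, le_rfl, by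
      have : y = 0 := by omega
      subst this
      exact h1, h2⟩
  | succ M ih =>
    by_cases h3 : 2 ^ (M + 1) ≤ n
    · exact ⟨M + 1, hyM, le_rfl, h3, h2⟩
    · push Not at h3
      have hy : y ≤ M := by
        by_contra hcon
        push Not at hcon
        have h4 : 2 ^ (M + 1) ≤ 2 ^ y := Nat.pow_le_pow_right (by norm_num) hcon
        omega
      obtain ⟨z, hz1, hz2, hz3, hz4⟩ := ih h3.le hy
      exact ⟨z, hz1, by omega, hz3, hz4⟩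

/-- The unit per time decreases along the octaves. -/
theorem op_EE_dec (hEM : Pool.Agent.W_7d29a1_h47.EM μ) (s : ℝ) {z z' : ℕ} (h : z ≤ z') :
    EE μ s (2 ^ z') / (2 ^ z' : ℕ) ≤ EE μ s (2 ^ z) / (2 ^ z : ℕ) := by
  have h1 := EE_div_mul hEM s (n := 2 ^ z) (k := 2 ^ (z' - z)) Nat.one_le_two_pow Nat.one_le_two_pow
  have e1 : 2 ^ (z' - z) * 2 ^ z = 2 ^ z' := by
    rw [← pow_add]
    congr 1
    omega
  rw [e1] at h1
  exact h1

/-- (1.1), lower half, for the levels. -/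
theorem FW.lev_lo (hEM : Pool.Agent.W_7d29a1_h47.EM μ) (W : FW μ s A0 A1 k z0 z1) (h1 : 2 ^ z0 ≤ n) (h2 : n ≤ 2 ^ (z1 - 3)) :
    EE μ s (2 ^ z1) / (2 ^ z1 : ℕ) ≤ EE μ s n / n := by
  have hl := W.len4
  obtain ⟨z, hz1, hz2, hz3, hz4⟩ := op_octave (M := z1 - 4) h1 (by
    rw [show z1 - 4 + 1 = z1 - 3 by omega]
    exact h2) (by omega)
  refine (op_EE_dec hEM s (show z + 4 ≤ z1 by omega)).trans ?_
  have h6 := W.slow z (z + 4) hz1 (by omega) (by omega)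
  rw [show z + 4 - z = 4 by omega] at h6
  have h7 : EE μ s (2 ^ z) ≤ EE μ s n := EE_mono hz3
  have h8 : (n : ℝ) ≤ 2 ^ (z + 1) := by exact_mod_cast hz4
  have hn : (0 : ℝ) < n := by
    have : 0 < n := lt_of_lt_of_le (by positivity) hz3
    exact_mod_cast this
  have hE := EE_pos (μ := μ) (s := s) n
  have hE' := EE_pos (μ := μ) (s := s) (2 ^ z)
  have hz : (0 : ℝ) < 2 ^ z := by positivity
  have e4 : (((2 ^ (z + 4) : ℕ)) : ℝ) = 16 * 2 ^ z := by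
    push_cast
    rw [pow_add]
    ring
  rw [e4, div_le_div_iff₀ (by positivity) hn]
  have e1 : (2 : ℝ) ^ (z + 1) = 2 * 2 ^ z := by rw [pow_succ]; ring
  rw [e1] at h8
  norm_num at h6
  have h9 : EE μ s (2 ^ (z + 4)) * n ≤ (1875 / 256 * EE μ s (2 ^ z)) * (2 * 2 ^ z) :=
    mul_le_mul h6 h8 hn.le (by positivity)
  have h10 : (1875 / 256 * EE μ s (2 ^ z)) * (2 * 2 ^ z) ≤ (1875 / 256 * EE μ s n) * (2 * 2 ^ z) :=
    mul_le_mul_of_nonneg_right (mul_le_mul_of_nonneg_left h7 (by norm_num)) (by positivity)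
  have h11 : 0 < EE μ s n * 2 ^ z := by positivity
  nlinarith

/-- (1.1), upper half, for the levels. -/
theorem FW.lev_hi (W : FW μ s A0 A1 k z0 z1) (hA1 : 0 < A1) (h1 : 2 ^ (z0 + k) ≤ n) (h2 : n ≤ 2 ^ z1) :
    A1 * EE μ s n / n ≤ A0 * EE μ s (2 ^ z0) / (2 ^ z0 : ℕ) := by
  have hl := W.len
  obtain ⟨z, hz1, hz2, hz3, hz4⟩ := op_octave (M := z1 - 1) h1 (by
    rw [show z1 - 1 + 1 = z1 by omega]
    exact h2) (by omega)
  have h6 := W.slow z0 (z + 1) le_rfl (by omega) (by omega)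
  rw [show z + 1 - z0 = (z - z0) + 1 by omega] at h6
  have h7 : EE μ s n ≤ EE μ s (2 ^ (z + 1)) := EE_mono hz4
  have h8 : (2 ^ z : ℝ) ≤ n := by exact_mod_cast hz3
  have hE := EE_pos (μ := μ) (s := s) (2 ^ z0)
  have hz0 : (0 : ℝ) < 2 ^ z0 := by positivity
  have hn : (0 : ℝ) < n := lt_of_lt_of_le (by positivity) h8
  have hp : (5 / 8 : ℝ) ^ (z - z0) ≤ (5 / 8 : ℝ) ^ k := pow_le_pow_of_le_one (by norm_num) (by norm_num) (by omega)
  have hlev : 15 / 4 * A1 * (5 / 8 : ℝ) ^ (z - z0) ≤ A0 :=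
    (mul_le_mul_of_nonneg_left hp (by positivity)).trans W.lev
  have e1 : (2 : ℝ) ^ z = 2 ^ z0 * 2 ^ (z - z0) := by
    rw [← pow_add]
    congr 1
    omega
  have e2 : (5 / 4 : ℝ) ^ (z - z0 + 1) = 5 / 4 * ((5 / 8 : ℝ) ^ (z - z0) * 2 ^ (z - z0)) := by
    rw [pow_succ, ← mul_pow]
    norm_num
    ring
  rw [e2] at h6
  rw [e1] at h8
  have e3 : (((2 ^ z0 : ℕ)) : ℝ) = 2 ^ z0 := by push_cast; ring
  rw [e3, div_le_div_iff₀ hn hz0]
  have h2k : (0 : ℝ) < 2 ^ (z - z0) := by positivity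
  have h9 : A1 * EE μ s n ≤ A1 * (3 * (5 / 4 * ((5 / 8 : ℝ) ^ (z - z0) * 2 ^ (z - z0))) * EE μ s (2 ^ z0)) :=
    mul_le_mul_of_nonneg_left (h7.trans h6) hA1.le
  have h10 : A1 * (3 * (5 / 4 * ((5 / 8 : ℝ) ^ (z - z0) * 2 ^ (z - z0))) * EE μ s (2 ^ z0)) =
      (15 / 4 * A1 * (5 / 8 : ℝ) ^ (z - z0)) * (2 ^ (z - z0) * EE μ s (2 ^ z0)) := by ring
  have h11 : (15 / 4 * A1 * (5 / 8 : ℝ) ^ (z - z0)) * (2 ^ (z - z0) * EE μ s (2 ^ z0)) ≤
      A0 * (2 ^ (z - z0) * EE μ s (2 ^ z0)) := mul_le_mul_of_nonneg_right hlev (by positivity)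
  have hA0 : 0 < A0 := lt_of_lt_of_le (by positivity) hlev
  calc A1 * EE μ s n * 2 ^ z0 ≤ (A0 * (2 ^ (z - z0) * EE μ s (2 ^ z0))) * 2 ^ z0 := by
        refine mul_le_mul_of_nonneg_right ?_ hz0.le
        linarith
    _ = A0 * EE μ s (2 ^ z0) * (2 ^ z0 * 2 ^ (z - z0)) := by ring
    _ ≤ A0 * EE μ s (2 ^ z0) * n := mul_le_mul_of_nonneg_left h8 (by positivity)

/-- Comparison of one-sided widths by the levels. -/
theorem op_vs_le (h : Dirs μ H δ A) (hs : s ∈ A) (hsg : sg = 1 ∨ sg = -1) {a a' : ℝ} {n n' : ℕ} (ha : 0 ≤ a)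
    (hle : a * EE μ s n / n ≤ a' * EE μ s n' / n') : vs a μ s sg n ≤ vs a' μ s sg n' :=
  (ed_rf h hs hsg).wR_mono (lev_nonneg ha) hle

/-- The one-sided widths decrease along the octaves. -/
theorem op_vs_dec (h : Dirs μ H δ A) (hs : s ∈ A) (hsg : sg = 1 ∨ sg = -1) {a : ℝ} (ha : 0 ≤ a) {z z' : ℕ} (hz : z ≤ z') :
    vs a μ s sg (2 ^ z') ≤ vs a μ s sg (2 ^ z) := by
  refine op_vs_le h hs hsg ha ?_
  rw [mul_div_assoc, mul_div_assoc]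
  exact mul_le_mul_of_nonneg_left (op_EE_dec h.em s hz) ha

theorem op_vA_dec (h : Dirs μ H δ A) (hs : s ∈ A) {a : ℝ} (ha : 0 ≤ a) {z z' : ℕ} (hz : z ≤ z') :
    vA a μ s (2 ^ z') ≤ vA a μ s (2 ^ z) := by
  have h1 := op_vs_dec (sg := 1) h hs (Or.inl rfl) ha hz
  have h2 := op_vs_dec (sg := -1) h hs (Or.inr rfl) ha hz
  rw [vs_one, vs_one] at h1
  rw [vs_neg, vs_neg] at h2
  unfold vA
  linarith

/-- **(1.1)**, lower half. -/
theorem FW.lo (W : FW μ s A0 A1 k z0 z1) (h : Dirs μ H δ A) (hs : s ∈ A) (hsg : sg = 1 ∨ sg = -1) (hA0 : 0 < A0)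
    (h1 : 2 ^ z0 ≤ n) (h2 : n ≤ 2 ^ (z1 - 3)) : vs A0 μ s sg (2 ^ z1) ≤ vs A0 μ s sg n := by
  refine op_vs_le h hs hsg hA0.le ?_
  rw [mul_div_assoc, mul_div_assoc]
  exact mul_le_mul_of_nonneg_left (FW.lev_lo h.em W h1 h2) hA0.le

/-- **(1.1)**, upper half. -/
theorem FW.hi (W : FW μ s A0 A1 k z0 z1) (h : Dirs μ H δ A) (hs : s ∈ A) (hsg : sg = 1 ∨ sg = -1) (hA1 : 0 < A1)
    (h1 : 2 ^ (z0 + k) ≤ n) (h2 : n ≤ 2 ^ z1) : vs A1 μ s sg n ≤ vs A0 μ s sg (2 ^ z0) :=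
  op_vs_le h hs hsg hA1.le (W.lev_hi hA1 h1 h2)

/-- The gaps of the two sides. -/
theorem op_gap (h : Dirs μ H δ A) (hs : s ∈ A) (hsg : sg = 1 ∨ sg = -1) (hA0 : 0 ≤ A0) (hz : z0 ≤ z1) :
    vs A0 μ s sg (2 ^ z0) - vs A0 μ s sg (2 ^ z1) ≤ dl A0 μ s z0 z1 := by
  have h1 := op_vs_dec (sg := 1) h hs (Or.inl rfl) hA0 hz
  have h2 := op_vs_dec (sg := -1) h hs (Or.inr rfl) hA0 hz
  rw [vs_one, vs_one] at h1
  rw [vs_neg, vs_neg] at h2
  unfold dl vA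
  rcases hsg with rfl | rfl
  · rw [vs_one, vs_one]
    linarith
  · rw [vs_neg, vs_neg]
    linarith

theorem op_dl_nonneg (h : Dirs μ H δ A) (hs : s ∈ A) (hA0 : 0 ≤ A0) (hz : z0 ≤ z1) : 0 ≤ dl A0 μ s z0 z1 := by
  unfold dl
  linarith [op_vA_dec h hs hA0 hz]

/-- The level at the end of the window is at most half of the one at its beginning. -/
theorem FW.half (hEM : Pool.Agent.W_7d29a1_h47.EM μ) (W : FW μ s A0 A1 k z0 z1) :
    EE μ s (2 ^ z1) / (2 ^ z1 : ℕ) ≤ 1 / 2 * (EE μ s (2 ^ z0) / (2 ^ z0 : ℕ)) := by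
  have hl := W.len4
  refine (op_EE_dec hEM s hl).trans ?_
  have h6 := W.slow z0 (z0 + 4) le_rfl (by omega) hl
  rw [show z0 + 4 - z0 = 4 by omega] at h6
  norm_num at h6
  have hE' := EE_pos (μ := μ) (s := s) (2 ^ z0)
  have e4 : (((2 ^ (z0 + 4) : ℕ)) : ℝ) = 16 * 2 ^ z0 := by
    push_cast
    rw [pow_add]
    ring
  have e3 : (((2 ^ z0 : ℕ)) : ℝ) = 2 ^ z0 := by push_cast; ring
  have hz : (0 : ℝ) < 2 ^ z0 := by positivity
  rw [e4, e3, div_le_iff₀ (by positivity)]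
  have e5 : 1 / 2 * (EE μ s (2 ^ z0) / 2 ^ z0) * (16 * 2 ^ z0) = 8 * EE μ s (2 ^ z0) := by
    field_simp
    norm_num
  rw [e5]
  linarith

/-- The two sides of the window lose width. -/
theorem FW.gap_pos (W : FW μ s A0 A1 k z0 z1) (h : Dirs μ H δ A) (hs : s ∈ A) (hsg : sg = 1 ∨ sg = -1) (hA0 : 0 < A0) :
    0 < vs A0 μ s sg (2 ^ z0) - vs A0 μ s sg (2 ^ z1) := by
  have hl := W.len4
  have h1 := op_vs_dec h hs hsg hA0.le (show z0 ≤ z1 by omega)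
  rcases h1.lt_or_eq with h2 | h2
  · linarith
  · exfalso
    have e0 := ed_J' (n := 2 ^ z0) h hs hsg hA0.le
    have e1 := ed_J' (n := 2 ^ z1) h hs hsg hA0.le
    rw [h2, e0] at e1
    have h3 := (FW.half h.em W)
    have h4 : 0 < EE μ s (2 ^ z0) / (2 ^ z0 : ℕ) := div_pos (EE_pos (μ := μ) (s := s) _) (by positivity)
    rw [mul_div_assoc, mul_div_assoc] at e1
    have h5 := mul_left_cancel₀ hA0.ne' e1
    linarith

theorem FW.dl_pos (W : FW μ s A0 A1 k z0 z1) (h : Dirs μ H δ A) (hs : s ∈ A) (hA0 : 0 < A0) : 0 < dl A0 μ s z0 z1 := by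
  have hl := W.len4
  exact (W.gap_pos (sg := 1) h hs (Or.inl rfl) hA0).trans_le (op_gap h hs (Or.inl rfl) hA0.le (by omega))

/-- **(1.2)** The rate function beyond the window. -/
theorem FW.far (W : FW μ s A0 A1 k z0 z1) (h : Dirs μ H δ A) (hs : s ∈ A) (hsg : sg = 1 ∨ sg = -1) (hA0 : 0 < A0) {r : ℝ}
    (hr : 0 ≤ r) : A0 * EE μ s (2 ^ z0) / (2 ^ z0 : ℕ) * (1 + r / (2 * dl A0 μ s z0 z1)) ≤
      J μ s (sg * (vs A0 μ s sg (2 ^ z0) + r)) := by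
  have hl := W.len4
  obtain ⟨R0, hR0⟩ : ∃ x, x = vs A0 μ s sg (2 ^ z0) := ⟨_, rfl⟩
  obtain ⟨R1, hR1⟩ : ∃ x, x = vs A0 μ s sg (2 ^ z1) := ⟨_, rfl⟩
  obtain ⟨D, hD⟩ : ∃ x, x = dl A0 μ s z0 z1 := ⟨_, rfl⟩
  obtain ⟨j0, hj0⟩ : ∃ x, x = A0 * EE μ s (2 ^ z0) / (2 ^ z0 : ℕ) := ⟨_, rfl⟩
  have hgp := W.gap_pos h hs hsg hA0
  have hgl := op_gap h hs hsg hA0.le (show z0 ≤ z1 by omega)
  rw [← hR0, ← hR1] at hgp hgl
  rw [← hD] at hgl ⊢
  rw [← hj0, ← hR0]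
  have hrf := ed_rf h hs hsg
  have e0 : J μ s (sg * R0) = j0 := by
    rw [hR0, hj0]
    exact ed_J' h hs hsg hA0.le
  have e1 : J μ s (sg * R1) ≤ j0 / 2 := by
    rw [hR1, ed_J' h hs hsg hA0.le, hj0, mul_div_assoc, mul_div_assoc]
    have h3 := mul_le_mul_of_nonneg_left (FW.half h.em W) hA0.le
    linarith
  have hj0p : 0 < j0 := by
    rw [hj0]
    exact div_pos (mul_pos hA0 (EE_pos (μ := μ) (s := s) _)) (by positivity)
  have hden : 0 < (R0 - R1) + r := by linarith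
  have ha1 : 0 ≤ r / ((R0 - R1) + r) := div_nonneg hr hden.le
  have ha2 : 0 ≤ (R0 - R1) / ((R0 - R1) + r) := div_nonneg hgp.le hden.le
  have ha3 : r / ((R0 - R1) + r) + (R0 - R1) / ((R0 - R1) + r) = 1 := by
    field_simp
    ring
  have hc := hrf.conv.2 (mem_univ R1) (mem_univ (R0 + r)) ha1 ha2 ha3
  simp only [smul_eq_mul] at hc
  have e3 : r / ((R0 - R1) + r) * R1 + (R0 - R1) / ((R0 - R1) + r) * (R0 + r) = R0 := by
    field_simp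
    ring
  rw [e3, e0] at hc
  have h5 := mul_le_mul_of_nonneg_right hc hden.le
  have e4 : (r / ((R0 - R1) + r) * J μ s (sg * R1) + (R0 - R1) / ((R0 - R1) + r) * J μ s (sg * (R0 + r))) *
      ((R0 - R1) + r) = r * J μ s (sg * R1) + (R0 - R1) * J μ s (sg * (R0 + r)) := by
    field_simp
  rw [e4] at h5
  have h6 : r * J μ s (sg * R1) ≤ r * (j0 / 2) := mul_le_mul_of_nonneg_left e1 hr
  have h7 : (R0 - R1) * j0 + r * (j0 / 2) ≤ (R0 - R1) * J μ s (sg * (R0 + r)) := by linarith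
  have h8 : (R0 - R1) * (j0 + r * (j0 / 2) / (R0 - R1)) ≤ (R0 - R1) * J μ s (sg * (R0 + r)) := by
    have e5 : (R0 - R1) * (j0 + r * (j0 / 2) / (R0 - R1)) = (R0 - R1) * j0 + r * (j0 / 2) := by
      field_simp
    rw [e5]
    exact h7
  have h9 := le_of_mul_le_mul_left h8 hgp
  refine le_trans ?_ h9
  have hDp : 0 < D := hgp.trans_le hgl
  have h10 : r * (j0 / 2) / D ≤ r * (j0 / 2) / (R0 - R1) :=
    div_le_div_of_nonneg_left (by positivity) hgp hgl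
  have e6 : j0 * (1 + r / (2 * D)) = j0 + r * (j0 / 2) / D := by
    field_simp
  rw [e6]
  linarith

/-- **(1.3)** SLOW VARIATION: the widths of the smaller scales, any level. -/
theorem FW.small (W : FW μ s A0 A1 k z0 z1) (h : Dirs μ H δ A) (hs : s ∈ A) (hsg : sg = 1 ∨ sg = -1) (hA0 : 0 < A0)
    {A' : ℝ} (hA' : 0 ≤ A') (h1 : 1 ≤ n) (h2 : n ≤ 2 ^ z0) :
    vs A' μ s sg n ≤ vs A0 μ s sg (2 ^ z0) + 2 * dl A0 μ s z0 z1 * (A' / A0) * (2 ^ z0 / n) := by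
  obtain ⟨R0, hR0⟩ : ∃ x, x = vs A0 μ s sg (2 ^ z0) := ⟨_, rfl⟩
  obtain ⟨D, hD⟩ : ∃ x, x = dl A0 μ s z0 z1 := ⟨_, rfl⟩
  have hDp : 0 < D := by rw [hD]; exact W.dl_pos h hs hA0
  have hn : (0 : ℝ) < n := by exact_mod_cast h1
  rw [← hD, ← hR0]
  rcases le_total (vs A' μ s sg n) R0 with h3 | h3
  · have : 0 ≤ 2 * D * (A' / A0) * (2 ^ z0 / n) := by positivity
    linarith
  · obtain ⟨r, hr⟩ : ∃ r, r = vs A' μ s sg n - R0 := ⟨_, rfl⟩
    have hr0 : 0 ≤ r := by rw [hr]; linarith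
    have h4 := W.far h hs hsg hA0 hr0
    rw [← hR0, ← hD] at h4
    have e1 : R0 + r = vs A' μ s sg n := by rw [hr]; ring
    rw [e1, ed_J' h hs hsg hA'] at h4
    have h5 : A' * EE μ s n / n ≤ A' * EE μ s (2 ^ z0) / n :=
      div_le_div_of_nonneg_right (mul_le_mul_of_nonneg_left (EE_mono h2) hA') hn.le
    have hE := EE_pos (μ := μ) (s := s) (2 ^ z0)
    have e3 : (((2 ^ z0 : ℕ)) : ℝ) = 2 ^ z0 := by push_cast; ring
    rw [e3] at h4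
    have hz : (0 : ℝ) < 2 ^ z0 := by positivity
    have h6 : A0 * EE μ s (2 ^ z0) / 2 ^ z0 * (r / (2 * D)) ≤ A' * EE μ s (2 ^ z0) / n := by
      have h7 : 0 ≤ A0 * EE μ s (2 ^ z0) / 2 ^ z0 := by positivity
      linarith
    have h8 : EE μ s (2 ^ z0) * (A0 / 2 ^ z0 * (r / (2 * D))) ≤ EE μ s (2 ^ z0) * (A' / n) := by
      have e4 : EE μ s (2 ^ z0) * (A0 / 2 ^ z0 * (r / (2 * D))) = A0 * EE μ s (2 ^ z0) / 2 ^ z0 * (r / (2 * D)) := by ring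
      have e5 : EE μ s (2 ^ z0) * (A' / n) = A' * EE μ s (2 ^ z0) / n := by ring
      rw [e4, e5]
      exact h6
    have h9 := le_of_mul_le_mul_left h8 hE
    have h10 : r ≤ 2 * D * (A' / A0) * (2 ^ z0 / n) := by
      have e6 : A0 / 2 ^ z0 * (r / (2 * D)) = r * (A0 / (2 ^ z0 * (2 * D))) := by
        field_simp
      rw [e6] at h9
      have h11 : r ≤ A' / n / (A0 / (2 ^ z0 * (2 * D))) := by
        rw [le_div_iff₀ (by positivity)]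
        exact h9
      have e7 : A' / n / (A0 / (2 ^ z0 * (2 * D))) = 2 * D * (A' / A0) * (2 ^ z0 / n) := by
        field_simp
      rwa [e7] at h11
    linarith

/-- (1.3) for the total width. -/
theorem FW.small_vA (W : FW μ s A0 A1 k z0 z1) (h : Dirs μ H δ A) (hs : s ∈ A) (hA0 : 0 < A0) {A' : ℝ} (hA' : 0 ≤ A')
    (h1 : 1 ≤ n) (h2 : n ≤ 2 ^ z0) :
    vA A' μ s n ≤ vA A0 μ s (2 ^ z0) + 4 * dl A0 μ s z0 z1 * (A' / A0) * (2 ^ z0 / n) := by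
  have h3 := W.small (sg := 1) h hs (Or.inl rfl) hA0 hA' h1 h2
  have h4 := W.small (sg := -1) h hs (Or.inr rfl) hA0 hA' h1 h2
  rw [vs_one, vs_one] at h3
  rw [vs_neg, vs_neg] at h4
  unfold vA
  linarith

/-- The edges of one side of the scales of the window are at most `dl` thick. -/
theorem FW.thin (W : FW μ s A0 A1 k z0 z1) (h : Dirs μ H δ A) (hs : s ∈ A) (hsg : sg = 1 ∨ sg = -1) (hA0 : 0 < A0)
    (h01 : A0 < A1) (h1 : 2 ^ (z0 + k) ≤ n) (h2 : n ≤ 2 ^ (z1 - 3)) :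
    vs A1 μ s sg n - vs A0 μ s sg n ≤ dl A0 μ s z0 z1 := by
  have hl := W.len4
  have h3 := W.lo h hs hsg hA0 ((Nat.pow_le_pow_right (by norm_num) (show z0 ≤ z0 + k by omega)).trans h1) h2
  have h4 := W.hi h hs hsg (hA0.trans h01) h1 (h2.trans (Nat.pow_le_pow_right (by norm_num) (show z1 - 3 ≤ z1 by omega)))
  have h5 := op_gap h hs hsg hA0.le (show z0 ≤ z1 by omega)
  linarith

/-- **(1.4)** -/
theorem FW.thick (W : FW μ s A0 A1 k z0 z1) (h : Dirs μ H δ A) (hs : s ∈ A) (hA0 : 0 < A0)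
    (h01 : A0 < A1) (h1 : 2 ^ (z0 + k) ≤ n) (h2 : n ≤ 2 ^ (z1 - 3)) :
    (A1 - A0) * EE μ s n ≤ dl A0 μ s z0 z1 * n := by
  have hn : 1 ≤ n := le_trans Nat.one_le_two_pow h1
  have h3 := ed_om (sg := 1) h hs (Or.inl rfl) hA0.le h01.le hn
  have h4 := W.thin (sg := 1) h hs (Or.inl rfl) hA0 h01 h1 h2
  have h5 : (n : ℝ) * (vs A1 μ s 1 n - vs A0 μ s 1 n) ≤ n * dl A0 μ s z0 z1 := mul_le_mul_of_nonneg_left h4 (Nat.cast_nonneg n)
  linarith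

/-- The loss of width from the difference of the closings. -/
theorem op_ratio (h : Dirs μ H δ A) (hs : s ∈ A) (hA : 0 < A0) (hz : z0 ≤ z1) (hf : ff A0 μ s z1 - ff A0 μ s z0 ≤ 1) :
    dl A0 μ s z0 z1 ≤ (ff A0 μ s z1 - ff A0 μ s z0) * vA A0 μ s (2 ^ z1) := by
  have h1 : ff A0 μ s z0 ≤ ff A0 μ s z1 := ff_mono h hA hs hz
  have hx : 0 < vA A0 μ s (2 ^ z1) := h.vA_pos hs hA Nat.one_le_two_pow
  obtain ⟨u, hu⟩ : ∃ u : ℝ, u = ff A0 μ s z1 - ff A0 μ s z0 := ⟨_, rfl⟩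
  rw [← hu] at hf ⊢
  have hu0 : 0 ≤ u := by rw [hu]; linarith
  have e1 : vA A0 μ s (2 ^ z0) = (2 : ℝ) ^ u * vA A0 μ s (2 ^ z1) := by
    rw [← pow_ff h hA hs z0, ← pow_ff h hA hs z1, ← Real.rpow_add two_pos]
    congr 1
    rw [hu]
    ring
  have h2 : (2 : ℝ) ^ u ≤ 1 + u := by
    have h3 := rpow_one_add_le_one_add_mul_self (s := 1) (by norm_num) hu0 hf
    norm_num at h3
    linarith
  unfold dl
  rw [e1]
  nlinarith

end Pool.Agent.W_7d29a1_H
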