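import Pool.Agent.W_7d29a1_H.MirH52
import Pool.Agent.W_7d29a1_H.UnitH

/-!
MP_7d29a1_pr, TRACK H (all tilts), section (D4): one octave follows from its right half (mirror); auxiliary facts for the right half:
durations, the level of softness, the displacements between two cheap ones, the linear lower bound of the cost. (helper52)
-/

set_option autoImplicit false

namespace Pool.Agent.W_7d29a1_H

open MeasureTheory ProbabilityTheory Filter Topology Set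
open Pool.Agent.W_7d29a1_F Pool.Agent.W_7d29a1_h4g
open Pool.Agent.W_1b8d5d_p (SlowU OctU)
open Pool.Agent.W_7d29a1_g (HasPath eR Tube)

variable {μ : Measure ℝ} {A : Set ℝ} {s A0 : ℝ}

/-- One octave, when the cheapest displacement of the duration `(m0 - 1) / 2` is left of the middle of the flat window. -/
def OctRH (μ : Measure ℝ) (A : Set ℝ) (A0 : ℝ) : Prop :=
  ∃ (C₀ Km : ℝ) (k₀ k₁ : ℕ), 0 ≤ C₀ ∧ ∀ (ε : ℝ) (m : ℕ), 0 < ε → ε ≤ 1 → Km ≤ ε * 2 ^ m →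
    ∃ (α : ℝ) (x₀ : ℕ), ∀ s ∈ A, ∀ a b : ℕ, x₀ ≤ a → (∀ z, a ≤ z → z < b → ¬ Sf μ s z α) →
    SlowU (fun x => EE μ s (2 ^ x)) a b → ∀ x y : ℕ, a + k₀ ≤ x → x + 2 ≤ y → y + m + k₁ < b →
    C₀ * (ff A0 μ s (y + m + k₁) - ff A0 μ s (y - k₀)) ≤ (1 / 2 : ℝ) ^ (y - x) →
    ∀ m0 : ℕ, 2 ^ x < m0 → m0 ≤ 2 * 2 ^ x → Em μ s (2 * 2 ^ x) ≤ 1 + e μ s m0 (xs μ s m0) →
    ∀ ξ : ℤ, 0 ≤ ξ → ξ ≤ ((m0 - 1) / 2 : ℕ) →
    (∀ y' : ℤ, 0 ≤ y' → y' ≤ ((m0 - 1) / 2 : ℕ) → e μ s ((m0 - 1) / 2) ξ ≤ e μ s ((m0 - 1) / 2) y') →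
    ξ - sl μ s * ((m0 - 1) / 2 : ℕ) ≤
      (vr A0 μ s (2 ^ (y + m + k₁)) - vl A0 μ s (2 ^ (y + m + k₁))) / 2 * ((m0 - 1) / 2 : ℕ) →
    Em μ s (2 ^ (x + 1)) - Em μ s (2 ^ x) ≤
      2 * (1 / 2 : ℝ) ^ (y - x) * (Em μ s (2 ^ (y + m)) - Em μ s (2 ^ x) + ε * EE μ s (2 ^ (y + m)))

/-- The record of the bulk in the octave of `ρ`. -/
theorem em_record52 [IsProbabilityMeasure μ] (s : ℝ) (ρ : ℕ) : Em μ s (2 * ρ) = Em μ s ρ ∨
    ∃ m : ℕ, ρ < m ∧ m ≤ 2 * ρ ∧ Em μ s (2 * ρ) ≤ 1 + e μ s m (xs μ s m) := by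
  obtain ⟨m, hm, hm2⟩ := Finset.exists_mem_eq_sup' (s := Finset.range (2 * ρ + 1)) ⟨0, by simp⟩
    fun m => e μ s m (xs μ s m)
  have h1 : Em μ s (2 * ρ) = 1 + e μ s m (xs μ s m) := by
    unfold Em
    rw [hm2]
  rcases le_or_gt m ρ with h2 | h2
  · left
    refine le_antisymm ?_ (Em_mono (by omega))
    rw [h1]
    have h3 := le_Em (μ := μ) (s := s) h2
    linarith
  · right
    exact ⟨m, h2, Nat.lt_succ_iff.1 (Finset.mem_range.1 hm), h1.le⟩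

/-- The octave from its right half, for a symmetric set of tilts. -/
theorem octH_of_R52 [IsProbabilityMeasure μ] (hEM : Pool.Agent.W_7d29a1_h47.EM μ) (hnd : Pool.Agent.W_7d29a1_h47.Nondeg μ)
    (hsym : ∀ s ∈ A, -s ∈ A) (h : OctRH μ A A0) : OctH A0 μ A := by
  obtain ⟨C0, Km, k0, k1, hC0, h⟩ := h
  refine ⟨C0, Km, k0, k1, 2, hC0, fun ε m hε hε1 hm => ?_⟩
  obtain ⟨α, x0, h⟩ := h ε m hε hε1 hm
  refine ⟨α, x0, fun d a b ha hnS hslow x y hx hy hb hf => ?_⟩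
  obtain ⟨s, hs⟩ := d
  have hfy : C0 * (ff A0 μ s (y + m + k1) - ff A0 μ s (y - k0)) ≤ (1 / 2 : ℝ) ^ (y - x) := hf y (by omega) le_rfl
  have hnS' : ∀ z, a ≤ z → z < b → ¬ Sf μ s z α := hnS
  have hslow' : SlowU (fun x => EE μ s (2 ^ x)) a b := hslow
  show Em μ s (2 ^ (x + 1)) - Em μ s (2 ^ x) ≤
    2 * (1 / 2 : ℝ) ^ (y - x) * (Em μ s (2 ^ (y + m)) - Em μ s (2 ^ x) + ε * EE μ s (2 ^ (y + m)))
  rcases em_record52 (μ := μ) s (2 ^ x) with hcase | ⟨m0, hm1, hm2, hrec⟩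
  · rw [pow_succ', hcase, sub_self]
    have h1 := Em_mono (μ := μ) (s := s) (Nat.pow_le_pow_right (n := 2) (by norm_num) (show x ≤ y + m by omega))
    have h2 : 0 ≤ ε * EE μ s (2 ^ (y + m)) := mul_nonneg hε.le (EE_pos _).le
    have h3 : 0 ≤ Em μ s (2 ^ (y + m)) - Em μ s (2 ^ x) + ε * EE μ s (2 ^ (y + m)) := by linarith
    positivity
  · have hx0 := xs_mem (μ := μ) (s := s) ((m0 - 1) / 2)
    have hmin : ∀ y' : ℤ, 0 ≤ y' → y' ≤ ((m0 - 1) / 2 : ℕ) →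
        e μ s ((m0 - 1) / 2) (xs μ s ((m0 - 1) / 2)) ≤ e μ s ((m0 - 1) / 2) y' := fun y' h1 h2 => xs_le h1 h2
    rcases le_total ((xs μ s ((m0 - 1) / 2) : ℝ) - sl μ s * ((m0 - 1) / 2 : ℕ))
      ((vr A0 μ s (2 ^ (y + m + k1)) - vl A0 μ s (2 ^ (y + m + k1))) / 2 * ((m0 - 1) / 2 : ℕ)) with hside | hside
    · exact h s hs a b ha hnS' hslow' x y hx hy hb hfy m0 hm1 hm2 hrec _ hx0.1 hx0.2 hmin hside
    · have hfin := h (-s) (hsym s hs) a b ha (fun z h1 h2 => by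
          rw [Sf_mir hEM]
          exact hnS' z h1 h2) (by
          intro z z' h1 h2 h3
          show EE μ (-s) (2 ^ z') ≤ 3 * (5 / 4 : ℝ) ^ (z' - z) * EE μ (-s) (2 ^ z)
          rw [EE_mir hEM, EE_mir hEM]
          exact hslow' z z' h1 h2 h3) x y hx hy hb (by
          rw [ff_mir hEM s hnd, ff_mir hEM s hnd]
          exact hfy) m0 hm1 hm2 (by
          rw [Em_mir hEM, e_xs_mir hEM]
          exact hrec) (((m0 - 1) / 2 : ℕ) - xs μ s ((m0 - 1) / 2)) (by omega) (by omega) (by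
          intro y' h1 h2
          rw [e_mir hEM]
          have h3 := hmin (((m0 - 1) / 2 : ℕ) - y') (by omega) (by omega)
          have h4 := e_mir hEM s ((m0 - 1) / 2) (((m0 - 1) / 2 : ℕ) - y')
          rw [sub_sub_cancel] at h4
          rw [h4]
          exact h3) (by
          rw [sl_mir hEM s hnd, vr_mir hEM s hnd, vl_mir hEM s hnd, Int.cast_sub, Int.cast_natCast]
          linarith)
      rwa [Em_mir hEM, Em_mir hEM, Em_mir hEM, EE_mir hEM] at hfin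

/-! ### Auxiliary facts -/

/-- The duration of the tube. -/
theorem duration52 {x y m : ℕ} (hx : 1 ≤ x) (hxy : x + 2 ≤ y) (h1 : 2 ^ x < m) (h2 : m ≤ 2 * 2 ^ x) :
    2 ^ (x - 1) ≤ (m - 1) / 2 ∧ 2 ^ (y - 2) ≤ 2 ^ (y - x - 1) * (m - (m - 1) / 2) + (m - 1) / 2 ∧
      2 ^ (y - x - 1) * (m - (m - 1) / 2) + (m - 1) / 2 ≤ 2 ^ y := by
  obtain ⟨j, rfl⟩ : ∃ j, y = x + (j + 2) := ⟨y - x - 2, by omega⟩
  obtain ⟨i, rfl⟩ : ∃ i, x = i + 1 := ⟨x - 1, by omega⟩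
  rw [show i + 1 + (j + 2) - (i + 1) - 1 = j + 1 by omega, show i + 1 + (j + 2) - 2 = i + j + 1 by omega,
    show i + 1 - 1 = i by omega]
  have e1 : 2 ^ (j + 1) = 2 * 2 ^ j := by rw [pow_succ]; ring
  have e2 : 2 ^ (i + j + 1) = 2 * (2 ^ i * 2 ^ j) := by rw [pow_succ, pow_add]; ring
  have e3 : 2 ^ (i + 1 + (j + 2)) = 8 * (2 ^ i * 2 ^ j) := by rw [pow_add, pow_add, pow_add]; ring
  have e4 : 2 ^ (i + 1) = 2 * 2 ^ i := by rw [pow_succ]; ring
  rw [e4] at h1 h2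
  rw [e1, e2, e3]
  have hj : 1 ≤ 2 ^ j := Nat.one_le_two_pow
  have hi : 1 ≤ 2 ^ i := Nat.one_le_two_pow
  obtain ⟨P, hP⟩ : ∃ P, P = 2 ^ j := ⟨_, rfl⟩
  obtain ⟨Q, hQ⟩ : ∃ Q, Q = 2 ^ i := ⟨_, rfl⟩
  rw [← hP, ← hQ]
  rw [← hP] at hj
  rw [← hQ] at h1 h2 hi
  obtain ⟨t, ht⟩ : ∃ t, t = (m - 1) / 2 := ⟨_, rfl⟩
  rw [← ht]
  obtain ⟨p, hp⟩ : ∃ p, p = m - t := ⟨_, rfl⟩
  rw [← hp]
  have h3 : Q ≤ t := by omega
  have h4 : t + 1 ≤ 2 * Q := by omega
  have h5 : Q + 1 ≤ p := by omega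
  have h6 : p ≤ 2 * Q + 1 := by omega
  refine ⟨h3, ?_, ?_⟩
  · have h7 : 2 * P * Q ≤ 2 * P * p := Nat.mul_le_mul_left _ (by omega)
    nlinarith
  · have h7 : 2 * P * p ≤ 2 * P * (2 * Q + 1) := Nat.mul_le_mul_left _ h6
    have h8 : P * 1 ≤ P * Q := Nat.mul_le_mul_left _ hi
    have h9 : 1 * Q ≤ P * Q := Nat.mul_le_mul_right _ hj
    nlinarith

/-- The level of softness. -/
theorem alpha52 (αi : ℝ) {B1 B2 ε : ℝ} (hB1 : 1 ≤ B1) (hB2 : 1 ≤ B2) (hε : 0 < ε) :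
    ∃ α : ℝ, αi ≤ α ∧ 2 ≤ α ∧ B1 ≤ (2 : ℝ) ^ α ∧ B2 ≤ (2 : ℝ) ^ α ∧ 2 * (2 : ℝ) ^ (-α) ≤ ε / 4 := by
  refine ⟨max αi (max 2 (max (Real.logb 2 B1) (max (Real.logb 2 B2) (Real.logb 2 (8 / ε))))), le_max_left _ _,
    (le_max_left _ _).trans (le_max_right _ _), ?_, ?_, ?_⟩
  · refine (Real.logb_le_iff_le_rpow one_lt_two ?_).1 ?_
    · linarith
    · exact (le_max_left _ _).trans ((le_max_right _ _).trans (le_max_right _ _))
  · refine (Real.logb_le_iff_le_rpow one_lt_two ?_).1 ?_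
    · linarith
    · exact (le_max_left _ _).trans ((le_max_right _ _).trans ((le_max_right _ _).trans (le_max_right _ _)))
  · have h1 : 8 / ε ≤ (2 : ℝ) ^ (max αi (max 2 (max (Real.logb 2 B1) (max (Real.logb 2 B2) (Real.logb 2 (8 / ε)))))) := by
      refine (Real.logb_le_iff_le_rpow one_lt_two ?_).1 ?_
      · positivity
      · exact (le_max_right _ _).trans ((le_max_right _ _).trans ((le_max_right _ _).trans (le_max_right _ _)))
    rw [Real.rpow_neg two_pos.le]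
    have h2 : 0 < 8 / ε := by positivity
    have h3 := inv_anti₀ h2 h1
    rw [inv_div] at h3
    linarith

/-- The displacements next to the line of the tube are inside both inner edges. -/
theorem inside52 {R1 L1 δ s' C' Cx c3 : ℝ} {m : ℕ} (hc3 : 0 < c3) (hCx' : Cx + 4 / c3 ≤ C')
    (hs1 : -(L1 - C' * δ) ≤ s') (hs2 : s' ≤ R1 - C' * δ) (hm : c3 ≤ δ * m) {r : ℝ} (hr : |r - s' * m| ≤ 1) :
    -(L1 - Cx * δ) * m ≤ r ∧ r ≤ (R1 - Cx * δ) * m := by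
  have h1 : 4 ≤ (C' - Cx) * (δ * m) := by
    have h2 : 4 / c3 * c3 ≤ (C' - Cx) * (δ * m) := mul_le_mul (by linarith) hm hc3.le (by
      have : 0 < 4 / c3 := by positivity
      linarith)
    rwa [div_mul_cancel₀ _ hc3.ne'] at h2
  rw [abs_le] at hr
  have hm0 : (0 : ℝ) ≤ m := Nat.cast_nonneg m
  have h3 := mul_le_mul_of_nonneg_right hs1 hm0
  have h4 := mul_le_mul_of_nonneg_right hs2 hm0
  constructor <;> nlinarith

/-- A discretely convex function between two points where it is small. -/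
theorem convex_between52 {f : ℤ → ℝ} {a b : ℤ} {R : ℝ} (hc : ∀ y, a < y → y < b → 2 * f y ≤ f (y - 1) + f (y + 1))
    (ha : f a ≤ R) (hb : f b ≤ R) {i : ℤ} (h1 : a ≤ i) (h2 : i ≤ b) : f i ≤ R := by
  obtain ⟨k, hk, hmax⟩ := Finset.exists_max_image (Finset.Icc a b) f ⟨i, Finset.mem_Icc.2 ⟨h1, h2⟩⟩
  rw [Finset.mem_Icc] at hk
  have hmax' : ∀ j, a ≤ j → j ≤ b → f j ≤ f k := fun j h3 h4 => hmax j (Finset.mem_Icc.2 ⟨h3, h4⟩)
  refine (hmax' i h1 h2).trans ?_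
  rcases hk.2.lt_or_eq with h3 | h3
  · have key : ∀ j : ℕ, (j : ℤ) ≤ k - a → f k ≤ f (k - j) := by
      intro j
      induction j with
      | zero =>
        intro _
        simp
      | succ j ih =>
        intro h4
        have h5 := ih (by push_cast at h4; omega)
        push_cast at h4 ⊢
        have h6 := hc (k - j) (by omega) (by omega)
        have h7 := hmax' (k - j + 1) (by omega) (by omega)
        have e1 : k - ((j : ℤ) + 1) = k - j - 1 := by ring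
        rw [e1]
        linarith
    have h4 := key (k - a).toNat (by omega)
    have e1 : k - ((k - a).toNat : ℤ) = a := by omega
    rw [e1] at h4
    linarith
  · rw [h3]
    exact hb

/-- The displacements between two cheap ones. -/
theorem e_between52 [IsProbabilityMeasure μ] (hEM : Pool.Agent.W_7d29a1_h47.EM μ) (s : ℝ) {n : ℕ} {a b : ℤ} {R : ℝ}
    (ha0 : 0 ≤ a) (hbn : b ≤ n) (ha : e μ s n a ≤ R) (hb : e μ s n b ≤ R) {i : ℤ} (h1 : a ≤ i) (h2 : i ≤ b) :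
    e μ s n i ≤ R :=
  convex_between52 (f := fun y => e μ s n y) (fun y h3 h4 => e_convex hEM (by omega) (by omega)) ha hb h1 h2

/-- The cost is at least the rate function. -/
theorem e_ge52 [IsProbabilityMeasure μ] (hEM : Pool.Agent.W_7d29a1_h47.EM μ) (s : ℝ) {n : ℕ} (hn : 1 ≤ n) {y : ℤ}
    (h0 : 0 ≤ y) (h1 : y ≤ n) : n * J μ s ((y : ℝ) / n - sl μ s) ≤ e μ s n y := by
  have hn0 : (0 : ℝ) < n := by exact_mod_cast hn
  have key : J μ s ((y : ℝ) / n - sl μ s) ≤ e μ s n y / n := by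
    unfold J
    refine csSup_le ⟨0 * ((y : ℝ) / n - sl μ s) - ex μ s 0, 0, by simp, rfl⟩ ?_
    rintro q ⟨r, -, rfl⟩
    have h2 : e μ (s + r) n y = e μ s n y - r * y + n * (lam μ (s + r) - lam μ s) := by
      unfold e
      have hX : ∀ η : Env, X μ (s + r) η 0 n y = X μ s η 0 n y + (-(r * y) + n * (lam μ (s + r) - lam μ s)) := by
        intro η
        have hW : W μ (s + r) η 0 n y = Real.exp (r * y - n * (lam μ (s + r) - lam μ s)) * W μ s η 0 n y := by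
          unfold W WR
          rw [← mul_assoc, ← Real.exp_add]
          congr 2
          ring
        unfold X
        rw [hW, Real.log_mul (Real.exp_pos _).ne' (W_pos η 0 h0 h1).ne', Real.log_exp]
        ring
      simp only [hX]
      rw [integral_add ((Sub_X 0 h0 h1).integrable hEM) (integrable_const _), integral_const, probReal_univ, one_smul]
      ring
    have h3 := e_nonneg hEM (s + r) (n := n) h0 h1
    rw [h2] at h3
    rw [le_div_iff₀ hn0]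
    unfold ex
    have e1 : (r * ((y : ℝ) / n - sl μ s) - (lam μ (s + r) - lam μ s - r * sl μ s)) * n =
        r * y - n * (lam μ (s + r) - lam μ s) := by
      field_simp
      ring
    rw [e1]
    linarith
  have h4 := mul_le_mul_of_nonneg_left key hn0.le
  rwa [mul_div_cancel₀ _ hn0.ne'] at h4

end Pool.Agent.W_7d29a1_H
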