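import Pool.Agent.W_7d29a1_H.OctHb52
import Pool.Agent.W_7d29a1_H.OctHa52
import Pool.Agent.W_7d29a1_H.SixH93
import Pool.Agent.W_7d29a1_h57g.TubeLine

/-!
MP_7d29a1_pr, TRACK H (all tilts), section (D4): ONE OCTAVE. On a stretch without soft scale the growth of the bulk in the octave `x` is
at most `2 ^ (x - y)` times the growth between `x` and `y + m` (plus `ε` units), as long as the tube of the octave `y` has room for the
cheapest displacements of the octave `x`. Uniformly in the tilt; the right half, for a symmetric set of tilts. (helper52)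
-/

set_option autoImplicit false

namespace Pool.Agent.W_7d29a1_H

open MeasureTheory ProbabilityTheory Filter Topology Set
open Pool.Agent.W_7d29a1_F Pool.Agent.W_7d29a1_h4g
open Pool.Agent.W_1b8d5d_p (SlowU OctU)
open Pool.Agent.W_7d29a1_g (HasPath eR Tube)

variable {μ : Measure ℝ} [IsProbabilityMeasure μ] {H δ : ℝ} {A : Set ℝ} {s A0 A1 : ℝ}

/-- The price of the right side. -/
theorem FW.price52 {k z0 z1 : ℕ} (W : FW μ s A0 A1 k z0 z1) (hD : Dirs μ H δ A) (hs : s ∈ A) (hA0 : 0 < A0) (hA1 : 0 < A1)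
    {s' D C' C2 : ℝ} (hC2 : 0 ≤ C2) {N : ℕ} (hs' : s' = vr A0 μ s (2 ^ z1) - C' * dl A0 μ s z0 z1) (h1 : 2 ^ (z0 + k) ≤ N)
    (h2 : N ≤ 2 ^ z1) (hDC : (C' + 1 + 2 * C2) * dl A0 μ s z0 z1 * N ≤ D - 1) {y : ℤ} (hy0 : 0 ≤ y) (hyN : y ≤ N)
    (hy : |(y : ℝ) - ((sl μ s + s') * N + D)| ≤ 1) : A1 * (1 + C2) * EE μ s N ≤ e μ s N y := by
  have hl := W.len4
  obtain ⟨d, hd⟩ : ∃ d, d = dl A0 μ s z0 z1 := ⟨_, rfl⟩
  have hdp : 0 < d := by rw [hd]; exact W.dl_pos hD hs hA0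
  have hgap := op_gap (sg := 1) hD hs (Or.inl rfl) hA0.le (show z0 ≤ z1 by omega)
  rw [← hd] at hs' hDC hgap
  have hN1 : 1 ≤ N := le_trans Nat.one_le_two_pow h1
  have hN : (0 : ℝ) < N := by exact_mod_cast hN1
  obtain ⟨x, hx⟩ : ∃ x, x = (y : ℝ) / N - sl μ s := ⟨_, rfl⟩
  have hxN : x * N = y - sl μ s * N := by
    rw [hx]
    field_simp
  have hyt : D - 1 ≤ y - (sl μ s + s') * N := by
    have := neg_le_of_abs_le hy
    linarith
  have hv1 : vs A0 μ s 1 (2 ^ z1) = vr A0 μ s (2 ^ z1) := vs_one _ _ _ _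
  have hx1 : (vs A0 μ s 1 (2 ^ z0) + 2 * C2 * d) * N ≤ x * N := by
    rw [hxN]
    have h3 : (vs A0 μ s 1 (2 ^ z0) - vs A0 μ s 1 (2 ^ z1)) * N ≤ d * N := mul_le_mul_of_nonneg_right hgap hN.le
    rw [hv1] at h3
    rw [hs'] at hyt
    linarith
  have hx2 : vs A0 μ s 1 (2 ^ z0) + 2 * C2 * d ≤ x := le_of_mul_le_mul_right hx1 hN
  have h3 := W.far hD hs (sg := 1) (Or.inl rfl) hA0 (r := x - vs A0 μ s 1 (2 ^ z0)) (by
    have : 0 ≤ 2 * C2 * d := by positivity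
    linarith)
  rw [← hd, show vs A0 μ s 1 (2 ^ z0) + (x - vs A0 μ s 1 (2 ^ z0)) = x by ring, one_mul] at h3
  have h4 := W.lev_hi hA1 h1 h2
  have h5 : 1 + C2 ≤ 1 + (x - vs A0 μ s 1 (2 ^ z0)) / (2 * d) := by
    have : C2 ≤ (x - vs A0 μ s 1 (2 ^ z0)) / (2 * d) := by
      rw [le_div_iff₀ (by positivity)]
      linarith
    linarith
  have h6 : A1 * EE μ s N / N * (1 + C2) ≤ J μ s x := by
    refine le_trans ?_ h3
    have hEN := EE_pos (μ := μ) (s := s) N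
    exact mul_le_mul h4 h5 (by linarith) (le_trans (by positivity) h4)
  have h7 := e_ge52 hD.em s hN1 hy0 hyN
  rw [← hx] at h7
  refine le_trans ?_ h7
  have h8 := mul_le_mul_of_nonneg_left h6 hN.le
  have e3 : (N : ℝ) * (A1 * EE μ s N / N * (1 + C2)) = A1 * (1 + C2) * EE μ s N := by
    field_simp
  rwa [e3] at h8

/-- **ONE OCTAVE**, the right half, for a symmetric set of tilts. -/
theorem octR52 (hD : Dirs μ H δ A) (hsym : ∀ s ∈ A, -s ∈ A) (hR : Rate μ A) (hG : Grow μ A) (hL : LogG μ A) (hA0 : 0 < A0)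
    (h01 : A0 < A1) {c0 : ℝ} (hIN : InFH μ A A0 A1 c0) (hInner : InnerRH μ A A0) (hRec : ∀ s : ℝ, RecH μ s) :
    OctRH μ A A0 := by
  have hA1 : 0 < A1 := hA0.trans h01
  have hEM := hD.em
  have hnd := hD.nd
  obtain ⟨Ci, c1, c', n1, hCi, hc1, hc', hin⟩ := hIN
  obtain ⟨Ce, Km, ki, k1i, hCe, hinner⟩ := hInner
  obtain ⟨T0, C, hC, htube⟩ := Pool.Agent.W_7d29a1_h57g.tube_line (μ := μ) hEM hnd (ε := 1 / 4) (K := 2 * c1 + 4) (by norm_num)
    (by linarith)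
  obtain ⟨kj, hkj⟩ := exists_lev hA0 hA1
  obtain ⟨kc, hkc⟩ := pow_unbounded_of_one_lt c0 (one_lt_two : (1 : ℝ) < 2)
  obtain ⟨k0, hk0⟩ : ∃ k0, k0 = max ki (max kj kc) := ⟨_, rfl⟩
  have hki : ki ≤ k0 := by rw [hk0]; exact le_max_left _ _
  have hkj0 : kj ≤ k0 := by rw [hk0]; exact (le_max_left _ _).trans (le_max_right _ _)
  have hkc0 : kc ≤ k0 := by rw [hk0]; exact (le_max_right _ _).trans (le_max_right _ _)
  have hc02 : c0 ≤ 2 ^ k0 := hkc.le.trans (pow_le_pow_right₀ one_le_two hkc0)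
  obtain ⟨k1, hk1⟩ : ∃ k1, k1 = max k1i 4 := ⟨_, rfl⟩
  have hk1i : k1i ≤ k1 := by rw [hk1]; exact le_max_left _ _
  have hk1R : 4 ≤ k1 := by rw [hk1]; exact le_max_right _ _
  obtain ⟨c3, hc3⟩ : ∃ c3, c3 = A1 - A0 := ⟨_, rfl⟩
  have hc3p : 0 < c3 := by
    rw [hc3]
    linarith
  obtain ⟨C', hC'⟩ : ∃ C' : ℝ, C' = Ce + Ci + 4 / c3 := ⟨_, rfl⟩
  have h4c : 0 < 4 / c3 := by positivity
  have hC'0 : 0 < C' := by rw [hC']; linarith
  have h2T0 : (1 : ℝ) ≤ 2 ^ T0 := one_le_pow₀ (by norm_num)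
  have hC2T : 1 ≤ C * 2 ^ T0 := one_le_mul_of_one_le_of_one_le hC h2T0
  obtain ⟨C2, hC2⟩ : ∃ C2 : ℝ, C2 = C * 2 ^ T0 / A1 := ⟨_, rfl⟩
  have hC2p : 0 < C2 := by rw [hC2]; positivity
  obtain ⟨M0, hM0⟩ : ∃ M0 : ℝ, M0 = 2 * (C' + 1 + 2 * C2) := ⟨_, rfl⟩
  have hM0p : 0 < M0 := by rw [hM0]; positivity
  obtain ⟨C0, hC0⟩ : ∃ C0 : ℝ, C0 = 1 + 1 / c' + 8 * C' + 6 * (2 * M0 + 3 / c3) := ⟨_, rfl⟩
  have hx1 : 0 < 1 / c' := by positivity
  have hx2 : 0 < 3 / c3 := by positivity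
  have hC0a : 1 ≤ C0 := by rw [hC0]; linarith
  have hC0b : 1 / c' ≤ C0 := by rw [hC0]; linarith
  have hC0c : 8 * C' ≤ C0 := by rw [hC0]; linarith
  have hC0d : 6 * (2 * M0 + 3 / c3) ≤ C0 := by rw [hC0]; linarith
  refine ⟨C0, 2 * Km, k0 + 2, k1, by linarith, fun ε m hε hε1 hm => ?_⟩
  obtain ⟨αi, xi, hI⟩ := hinner (ε / 2) m (by linarith) (by linarith) (by linarith)
  obtain ⟨α, hα1, hα2, hα3, hα4, hα5⟩ := alpha52 αi (B1 := c1) (B2 := C * 2 ^ T0) (ε := ε) hc1 hC2T hε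
  have hδ0 := hD.δ0
  obtain ⟨nv, hnv, hv⟩ := hD.vA_small hR hA0 (ε := min (δ / 8) (1 / 8)) (lt_min (by linarith) (by norm_num))
  obtain ⟨ng, hng⟩ := hG (8 / ε)
  obtain ⟨nl, hnl⟩ := hL 1
  refine ⟨α, max xi (max n1 (max nv (max ng (max nl 1)))), fun s hs a b ha hnS hslow x y hx hy hb hfy m0 hm1 hm2 hrecm ξ hξ0 hξ1
    hmin hside => ?_⟩
  have ha1 : xi ≤ a := (le_max_left _ _).trans ha
  have ha' : max n1 (max nv (max ng (max nl 1))) ≤ a := (le_max_right _ _).trans ha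
  have ha2 : n1 ≤ a := (le_max_left _ _).trans ha'
  have ha'2 : max nv (max ng (max nl 1)) ≤ a := (le_max_right _ _).trans ha'
  have ha4 : nv ≤ a := (le_max_left _ _).trans ha'2
  have ha'4 : max ng (max nl 1) ≤ a := (le_max_right _ _).trans ha'2
  have ha5 : ng ≤ a := (le_max_left _ _).trans ha'4
  have ha'5 : max nl 1 ≤ a := (le_max_right _ _).trans ha'4
  have ha6 : nl ≤ a := (le_max_left _ _).trans ha'5
  have ha7 : 1 ≤ a := (le_max_right _ _).trans ha'5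
  rw [show y - (k0 + 2) = y - 2 - k0 by omega] at hfy
  -- the window
  obtain ⟨z0, hz0⟩ : ∃ z0, z0 = y - 2 - k0 := ⟨_, rfl⟩
  obtain ⟨z1, hz1⟩ : ∃ z1, z1 = y + m + k1 := ⟨_, rfl⟩
  have W : FW μ s A0 A1 k0 z0 z1 := fw_of hslow (hkj k0 hkj0) (by omega) (by omega) (by omega) (by omega)
  obtain ⟨U, hU⟩ : ∃ U : ℝ, U = ff A0 μ s z1 - ff A0 μ s z0 := ⟨_, rfl⟩
  rw [← hz0, ← hz1, ← hU] at hfy
  rw [← hz1] at hside
  have hU0 : 0 ≤ U := by
    have h1 : ff A0 μ s z0 ≤ ff A0 μ s z1 := ff_mono hD hA0 hs (show z0 ≤ z1 by omega)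
    rw [hU]
    linarith
  have hhalf : ((1 : ℝ) / 2) ^ (y - x) ≤ 1 / 4 := by
    have h1 : ((1 : ℝ) / 2) ^ (y - x) ≤ (1 / 2) ^ 2 := pow_le_pow_of_le_one (by norm_num) (by norm_num) (by omega)
    linarith
  have hU1 : U ≤ 1 / 4 := (le_mul_of_one_le_left hU0 hC0a).trans (hfy.trans hhalf)
  obtain ⟨V1, hV1⟩ : ∃ V1, V1 = vA A0 μ s (2 ^ z1) := ⟨_, rfl⟩
  obtain ⟨d, hd⟩ : ∃ d, d = dl A0 μ s z0 z1 := ⟨_, rfl⟩
  have hV1p : 0 < V1 := by rw [hV1]; exact hD.vA_pos hs hA0 Nat.one_le_two_pow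
  have hdp : 0 < d := by rw [hd]; exact W.dl_pos hD hs hA0
  have hdU : d ≤ U * V1 := by
    rw [hd, hU, hV1]
    refine op_ratio hD hs hA0 (by omega) ?_
    rw [← hU]
    linarith
  have hdC : C0 * d ≤ 1 / 4 * V1 := by
    have h1 : C0 * d ≤ C0 * (U * V1) := mul_le_mul_of_nonneg_left hdU (by linarith)
    have h2 : C0 * U * V1 ≤ 1 / 4 * V1 := mul_le_mul_of_nonneg_right (hfy.trans hhalf) hV1p.le
    linarith
  have hdc' : d ≤ c' * V1 := by
    have h1 : 1 / c' * d ≤ 1 / 4 * V1 := (mul_le_mul_of_nonneg_right hC0b hdp.le).trans hdC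
    rw [div_mul_eq_mul_div, one_mul, div_le_iff₀ hc'] at h1
    nlinarith
  have hdC' : C' * d ≤ 1 / 32 * V1 := by
    have h1 : 8 * C' * d ≤ C0 * d := mul_le_mul_of_nonneg_right hC0c hdp.le
    linarith
  have hthick : ∀ n : ℕ, 2 ^ (y - 2) ≤ n → n ≤ 2 ^ (z1 - 3) → c3 ≤ d * n := by
    intro n h1 h2
    have h3 := W.thick hD hs hA0 h01 (n := n) (by
      rw [show z0 + k0 = y - 2 by omega]
      exact h1) h2
    rw [← hd, ← hc3] at h3
    exact (le_mul_of_one_le_right hc3p.le (one_le_EE n)).trans h3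
  obtain ⟨R1, hR1'⟩ : ∃ R1, R1 = vr A0 μ s (2 ^ z1) := ⟨_, rfl⟩
  obtain ⟨L1, hL1'⟩ : ∃ L1, L1 = vl A0 μ s (2 ^ z1) := ⟨_, rfl⟩
  have hR1n : 0 ≤ R1 := by rw [hR1']; exact hD.vr_nonneg hs hA0.le _
  have hL1n : 0 ≤ L1 := by rw [hL1']; exact hD.vl_nonneg hs hA0.le _
  have hRL : R1 + L1 = V1 := by rw [hR1', hL1', hV1]; rfl
  rw [← hR1', ← hL1'] at hside
  -- powers of two
  have epow : ((1 : ℝ) / 2) ^ (y - x) * 2 ^ y = 2 ^ x := by
    have h1 : (2 : ℝ) ^ y = 2 ^ (y - x) * 2 ^ x := by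
      rw [← pow_add]
      congr 1
      omega
    rw [h1, ← mul_assoc, ← mul_pow]
    norm_num
  have h2y : (0 : ℝ) < 2 ^ y := by positivity
  have h2x : (0 : ℝ) < 2 ^ x := by positivity
  have hd2y : C0 * (d * 2 ^ y) ≤ V1 * 2 ^ x := by
    have h1 : C0 * (d * 2 ^ y) ≤ C0 * (U * V1 * 2 ^ y) :=
      mul_le_mul_of_nonneg_left (mul_le_mul_of_nonneg_right hdU h2y.le) (by linarith)
    have h2 : V1 * (C0 * U * 2 ^ y) ≤ V1 * 2 ^ x := by
      refine mul_le_mul_of_nonneg_left ?_ hV1p.le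
      have h3 := mul_le_mul_of_nonneg_right hfy h2y.le
      rwa [epow] at h3
    linarith
  have hwy : c3 ≤ d * 2 ^ y := by
    have h1 := hthick (2 ^ y) (Nat.pow_le_pow_right (by norm_num) (by omega)) (Nat.pow_le_pow_right (by norm_num) (by omega))
    push_cast at h1
    exact h1
  -- the width of the tube
  obtain ⟨D, hDdef⟩ : ∃ D : ℝ, D = M0 * (d * 2 ^ y) + 1 := ⟨_, rfl⟩
  have hD1 : 1 ≤ D := by
    rw [hDdef]
    have : 0 ≤ M0 * (d * 2 ^ y) := by positivity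
    linarith
  have hV2x : 0 < V1 * 2 ^ x := by positivity
  have hDx : 2 * D + 1 ≤ 1 / 6 * (V1 * 2 ^ x) := by
    have h1 : 3 ≤ 3 / c3 * (d * 2 ^ y) := by
      rw [div_mul_eq_mul_div, le_div_iff₀ hc3p]
      exact mul_le_mul_of_nonneg_left hwy (by positivity)
    have h2 : 6 * (2 * M0 + 3 / c3) * (d * 2 ^ y) ≤ C0 * (d * 2 ^ y) :=
      mul_le_mul_of_nonneg_right hC0d (by positivity)
    rw [hDdef]
    linarith
  have hhp : (0 : ℝ) < (1 / 2) ^ (y - x) := by positivity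
  obtain ⟨ht0, hTlo, hThi⟩ := duration52 (show 1 ≤ x by omega) hy hm1 hm2
  obtain ⟨t0, ht0'⟩ : ∃ t0, t0 = (m0 - 1) / 2 := ⟨_, rfl⟩
  obtain ⟨Kk, hKk⟩ : ∃ Kk, Kk = 2 ^ (y - x - 1) := ⟨_, rfl⟩
  obtain ⟨T, hT⟩ : ∃ T, T = Kk * (m0 - (m0 - 1) / 2) + (m0 - 1) / 2 := ⟨_, rfl⟩
  rw [← ht0'] at ht0 hξ1 hmin hside
  rw [← hKk, ← hT] at hTlo hThi
  -- the slope of the tube
  obtain ⟨s', hs'⟩ : ∃ s', s' = R1 - C' * d := ⟨_, rfl⟩
  have hs1 : -(L1 - C' * d) ≤ s' := by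
    rw [hs']
    linarith
  have hs2 : s' ≤ R1 - C' * d := hs'.le
  have ht0r : (2 : ℝ) ^ x ≤ 2 * t0 := by
    have h1 : 2 ^ x ≤ 2 * t0 := by
      have h2 : 2 ^ x = 2 * 2 ^ (x - 1) := by
        rw [← pow_succ']
        congr 1
        omega
      omega
    exact_mod_cast h1
  have hcross : 2 * D + 1 ≤ (sl μ s + s') * t0 - ξ := by
    have h3 : 1 / 6 * (V1 * 2 ^ x) ≤ (V1 - 2 * C' * d) * t0 / 2 := by
      have h4 : 1 / 6 * (V1 * 2 ^ x) ≤ 1 / 6 * (V1 * (2 * t0)) :=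
        mul_le_mul_of_nonneg_left (mul_le_mul_of_nonneg_left ht0r hV1p.le) (by norm_num)
      have h5 : 2 / 3 * V1 * t0 ≤ (V1 - 2 * C' * d) * t0 := by
        refine mul_le_mul_of_nonneg_right ?_ (Nat.cast_nonneg _)
        linarith
      linarith
    have h6 := hDx.trans h3
    rw [← hRL] at h6
    rw [hs']
    linarith
  have hT1 : 1 ≤ T := le_trans Nat.one_le_two_pow hTlo
  have hTpos : (0 : ℝ) < T := by exact_mod_cast hT1
  have hTy : (T : ℝ) ≤ 2 ^ y := by exact_mod_cast hThi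
  have haT : a ≤ T := by
    have h1 : a < 2 ^ a := Nat.lt_two_pow_self
    have h2 : 2 ^ a ≤ 2 ^ (y - 2) := Nat.pow_le_pow_right (by norm_num) (by omega)
    omega
  have h2xT : (2 : ℝ) ^ x ≤ T := by
    have h1 : 2 ^ x ≤ 2 ^ (y - 2) := Nat.pow_le_pow_right (by norm_num) (by omega)
    exact_mod_cast h1.trans hTlo
  have h2Tz : 2 * T ≤ 2 ^ (z1 - 3) := by
    have h1 : 2 * T ≤ 2 ^ (y + 1) := by
      rw [pow_succ]
      omega
    exact h1.trans (Nat.pow_le_pow_right (by norm_num) (by omega))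
  have hTym : T ≤ 2 ^ (y + m) := hThi.trans (Nat.pow_le_pow_right (by norm_num) (by omega))
  have hV1s : V1 ≤ min (δ / 8) (1 / 8) := by
    rw [hV1]
    refine hv s hs (2 ^ z1) ?_
    have h1 : z1 < 2 ^ z1 := Nat.lt_two_pow_self
    omega
  have hV1a : V1 ≤ δ / 8 := hV1s.trans (min_le_left _ _)
  have hsla := hD.lo s hs
  have hslb := hD.hi s hs
  have hs'a : -V1 ≤ s' := by
    have h0 : 0 ≤ C' * d := by positivity
    linarith
  have hs'b : s' ≤ V1 := by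
    have h0 : 0 ≤ C' * d := by positivity
    linarith
  -- the cheap displacements
  have hcheapIn : ∀ (n : ℕ) (i : ℤ), T ≤ n → n ≤ 2 * T → -(L1 - Ci * d) * n ≤ i - sl μ s * n →
      i - sl μ s * n ≤ (R1 - Ci * d) * n → e μ s n i ≤ c1 * EE μ s n := by
    intro n i h1 h2 h4 h5
    rw [hL1', hd] at h4
    rw [hR1', hd] at h5
    exact hin s hs k0 z0 z1 W hc02 (by rw [← hd, ← hV1]; exact hdc') n (by omega) (by
      rw [show z0 + k0 = y - 2 by omega]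
      exact hTlo.trans h1) (h2.trans h2Tz) i h4 h5
  have hinside : ∀ (n : ℕ) (i : ℤ), T ≤ n → n ≤ 2 * T → |(i : ℝ) - (sl μ s + s') * n| ≤ 1 →
      ∀ Cx : ℝ, Cx + 4 / c3 ≤ C' → -(L1 - Cx * d) * n ≤ i - sl μ s * n ∧ i - sl μ s * n ≤ (R1 - Cx * d) * n := by
    intro n i h1 h2 h3 Cx hCx'
    refine inside52 hc3p hCx' hs1 hs2 (hthick n (hTlo.trans h1) (h2.trans h2Tz)) ?_
    have e1 : (i : ℝ) - sl μ s * n - s' * n = i - (sl μ s + s') * n := by ring
    rw [e1]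
    exact h3
  obtain ⟨B, hB⟩ : ∃ B, B = EE μ s (2 ^ T0 * T) := ⟨_, rfl⟩
  have hET := one_le_EE (μ := μ) (s := s) T
  have hBT : EE μ s T ≤ B := by
    rw [hB]
    exact EE_mono (Nat.le_mul_of_pos_left T (by positivity))
  have hBT' : B ≤ 2 ^ T0 * EE μ s T := by
    have h := EE_mul hEM s T (k := 2 ^ T0) Nat.one_le_two_pow
    push_cast at h
    rw [hB]
    exact h
  have hE2T : EE μ s (2 * T) ≤ 2 * EE μ s T := by
    have h := EE_mul hEM s T (k := 2) (by norm_num)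
    push_cast at h
    exact h
  have hKB : ∀ n : ℕ, n ≤ 2 * T → c1 * EE μ s n ≤ (2 * c1 + 4) * B := by
    intro n hn
    have h1 : EE μ s n ≤ 2 * B := (EE_mono hn).trans (hE2T.trans (by linarith))
    have h2 : c1 * EE μ s n ≤ c1 * (2 * B) := mul_le_mul_of_nonneg_left h1 (by linarith)
    have h3 : 0 ≤ B := by linarith
    linarith
  have hDT : D + 1 ≤ 1 / 6 * (V1 * T) := by
    have h1 : 1 / 6 * (V1 * 2 ^ x) ≤ 1 / 6 * (V1 * T) :=
      mul_le_mul_of_nonneg_left (mul_le_mul_of_nonneg_left h2xT hV1p.le) (by norm_num)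
    linarith
  have hVT : V1 * T ≤ δ / 8 * T := mul_le_mul_of_nonneg_right hV1a hTpos.le
  have hslT1 : δ * T ≤ sl μ s * T := mul_le_mul_of_nonneg_right hsla hTpos.le
  have hslT2 : sl μ s * T ≤ (1 - δ) * T := mul_le_mul_of_nonneg_right hslb hTpos.le
  have hs'T1 : -V1 * T ≤ s' * T := mul_le_mul_of_nonneg_right hs'a hTpos.le
  have hs'T2 : s' * T ≤ V1 * T := mul_le_mul_of_nonneg_right hs'b hTpos.le
  have hδT : 0 < δ * T := by positivity
  have h2Tr : ((2 * T : ℕ) : ℝ) = 2 * T := by push_cast; ring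
  obtain ⟨-, q2, q3, q4⟩ := htube s (zs μ s) (fun m => zs_mem m) (sl μ s + s') D B T (by
      have : V1 ≤ δ := by linarith
      linarith) (by
      have : V1 ≤ δ := by linarith
      linarith) hD1 hT1 (by rw [hB]; rfl) (by
      have h1 := hnl s hs (4 * T) (by omega)
      rw [one_mul] at h1
      push_cast at h1
      have h2 := EE_mul hEM s T (k := 4) (by norm_num)
      push_cast at h2
      have h3 : 0 ≤ c1 * B := by
        have : 0 ≤ B := by linarith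
        positivity
      linarith) (by
      intro m' y' h1 h2 _ _ h3
      obtain ⟨h4, h5⟩ := hinside m' y' h1 h2 h3 Ci (by rw [hC']; linarith)
      exact (hcheapIn m' y' h1 h2 h4 h5).trans (hKB m' h2)) (by
      intro y' h3
      rw [h2Tr] at h3
      obtain ⟨h3a, h3b⟩ := abs_le.1 h3
      have hy0 : (0 : ℝ) ≤ y' := by linarith
      have hyT : (y' : ℝ) ≤ ((2 * T : ℕ) : ℤ) := by
        push_cast
        linarith
      refine ⟨by exact_mod_cast hy0, by exact_mod_cast hyT, (hcheapIn (2 * T) y' (by omega) le_rfl ?_ ?_).trans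
        (hKB (2 * T) le_rfl)⟩
      · rw [h2Tr]
        have h4 : (R1 - C' * d) * T = s' * T := by rw [hs']
        have h5 : Ci * d * T ≤ C' * d * T := by
          refine mul_le_mul_of_nonneg_right (mul_le_mul_of_nonneg_right ?_ hdp.le) hTpos.le
          rw [hC']
          linarith
        have h6 : C' * d * T ≤ 1 / 32 * V1 * T := mul_le_mul_of_nonneg_right hdC' hTpos.le
        have h7 : R1 * T + L1 * T = V1 * T := by rw [← hRL]; ring
        linarith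
      · rw [h2Tr]
        have h4 : (R1 - C' * d) * T = s' * T := by rw [hs']
        have h5 : Ci * d * T ≤ C' * d * T := by
          refine mul_le_mul_of_nonneg_right (mul_le_mul_of_nonneg_right ?_ hdp.le) hTpos.le
          rw [hC']
          linarith
        linarith) (by
      intro y' h3
      have h3' := h3
      rw [h2Tr] at h3
      obtain ⟨h3a, h3b⟩ := abs_le.1 h3
      have hy0 : (0 : ℝ) ≤ y' := by linarith
      have hyT : (y' : ℝ) ≤ ((2 * T : ℕ) : ℤ) := by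
        push_cast
        linarith
      have h4 := W.price52 hD hs hA0 hA1 hC2p.le (N := 2 * T) (C' := C') (s' := s') (D := D) (by rw [← hR1', ← hd]; exact hs') (by
        rw [show z0 + k0 = y - 2 by omega]
        omega) (h2Tz.trans (Nat.pow_le_pow_right (by norm_num) (by omega))) (by
        rw [← hd, h2Tr, hDdef, hM0]
        have h5 : (C' + 1 + 2 * C2) * d * (2 * T) ≤ (C' + 1 + 2 * C2) * d * (2 * 2 ^ y) :=
          mul_le_mul_of_nonneg_left (by linarith) (by positivity)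
        linarith) (y := y') (by exact_mod_cast hy0) (by exact_mod_cast hyT) (by
        rw [h2Tr]
        exact h3)
      have h5 : A1 * (1 + C2) = A1 + C * 2 ^ T0 := by
        rw [hC2]
        field_simp
      rw [h5] at h4
      have h6 : EE μ s T ≤ EE μ s (2 * T) := EE_mono (by omega)
      have h7 : C * B ≤ C * 2 ^ T0 * EE μ s (2 * T) := by
        have h8 : C * B ≤ C * (2 ^ T0 * EE μ s T) := mul_le_mul_of_nonneg_left hBT' (by linarith)
        have h9 : C * 2 ^ T0 * EE μ s T ≤ C * 2 ^ T0 * EE μ s (2 * T) := mul_le_mul_of_nonneg_left h6 (by linarith)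
        linarith
      have h10 : 0 < A1 * EE μ s (2 * T) := mul_pos hA1 (EE_pos _)
      linarith)
  -- the end point
  obtain ⟨z, hz⟩ : ∃ z : ℤ, z = ⌊(sl μ s + s') * (T : ℝ)⌋ := ⟨_, rfl⟩
  rw [← hz] at q2 q3 q4
  have hz1' : (z : ℝ) ≤ (sl μ s + s') * T := by rw [hz]; exact Int.floor_le _
  have hz2' : (sl μ s + s') * T < z + 1 := by rw [hz]; exact Int.lt_floor_add_one _
  have hzc : |(z : ℝ) - (sl μ s + s') * T| ≤ 1 := by
    rw [abs_le]
    constructor <;> linarith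
  have hgrow := hRec s (2 ^ x) m0 (by
      have h1 : 2 ^ 1 ≤ 2 ^ x := Nat.pow_le_pow_right (by norm_num) (by omega)
      omega) hm1 hm2 hrecm ξ hξ0 (by rw [← ht0']; exact hξ1) (by rw [← ht0']; exact hmin) (sl μ s + s') D hD1
    (by rw [← ht0']; exact hcross) Kk z (by rw [hKk]; exact Nat.one_le_two_pow) (by
      rw [← hT]
      exact q3)
  rw [← hT] at hgrow
  obtain ⟨g1, g2⟩ := hinside T z le_rfl (by omega) hzc Ci (by rw [hC']; linarith)
  have he := hcheapIn T z le_rfl (by omega) g1 g2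
  have hEy := EE_pos (μ := μ) (s := s) (2 ^ (y + m))
  have hETy : EE μ s T ≤ EE μ s (2 ^ (y + m)) := EE_mono hTym
  have hmean := six93 (hnS (y + m) (by omega) (by omega)) hα2 q3 hTym
    (he.trans (mul_le_mul hα3 hETy (by linarith) (by positivity)))
    (q4.trans (by
      have h1 : C * B ≤ C * (2 ^ T0 * EE μ s T) := mul_le_mul_of_nonneg_left hBT' (by linarith)
      have h2 : C * 2 ^ T0 * EE μ s T ≤ C * 2 ^ T0 * EE μ s (2 ^ (y + m)) :=
        mul_le_mul_of_nonneg_left hETy (by linarith)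
      have h3 : C * 2 ^ T0 * EE μ s (2 ^ (y + m)) ≤ (2 : ℝ) ^ α * EE μ s (2 ^ (y + m)) :=
        mul_le_mul_of_nonneg_right hα4 hEy.le
      linarith)) q2
  -- the inner edges
  have hdle : dl A0 μ s (y - 2 - ki) (y + m + k1i) ≤ d := by
    rw [hd]
    unfold dl
    have h1 := op_vA_dec hD hs hA0.le (show z0 ≤ y - 2 - ki by omega)
    have h2 := op_vA_dec hD hs hA0.le (show y + m + k1i ≤ z1 by omega)
    linarith
  have hCed : Ce * dl A0 μ s (y - 2 - ki) (y + m + k1i) ≤ Ce * d := mul_le_mul_of_nonneg_left hdle hCe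
  have hCeC : Ce * d ≤ C' * d := mul_le_mul_of_nonneg_right (by rw [hC']; linarith) hdp.le
  have hRle : R1 ≤ vr A0 μ s (2 ^ (y + m + k1i)) := by
    have h1 := op_vs_dec (sg := 1) hD hs (Or.inl rfl) hA0.le (show y + m + k1i ≤ z1 by omega)
    rw [vs_one, vs_one] at h1
    rw [hR1']
    exact h1
  have hLle : L1 ≤ vl A0 μ s (2 ^ (y + m + k1i)) := by
    have h1 := op_vs_dec (sg := -1) hD hs (Or.inr rfl) hA0.le (show y + m + k1i ≤ z1 by omega)
    rw [vs_neg, vs_neg] at h1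
    rw [hL1']
    exact h1
  have hVle : V1 ≤ vA A0 μ s (2 ^ (y + m + k1i)) := by
    rw [hV1]
    exact op_vA_dec hD hs hA0.le (show y + m + k1i ≤ z1 by omega)
  have hflat : 2 * (Ce * dl A0 μ s (y - 2 - ki) (y + m + k1i)) ≤ vA A0 μ s (2 ^ (y + m + k1i)) := by linarith
  obtain ⟨i, hi0, hi1, hi2, hi3⟩ := hI s hs a b ha1 (fun w hw1 hw2 hw3 => hnS w hw1 hw2 (hw3.mono hα1)) hslow y (by omega)
    (by omega) hflat T hTlo hThi
  obtain ⟨j, hj0, hj1, hj2, hj3⟩ := hI (-s) (hsym s hs) a b ha1 (fun w hw1 hw2 hw3 => hnS w hw1 hw2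
    (((Sf_mir hEM s w αi).1 hw3).mono hα1)) (by
      intro w w' h1 h2 h3
      show EE μ (-s) (2 ^ w') ≤ 3 * (5 / 4 : ℝ) ^ (w' - w) * EE μ (-s) (2 ^ w)
      rw [EE_mir hEM, EE_mir hEM]
      exact hslow w w' h1 h2 h3) y (by omega) (by omega) (by
      rw [dl_mir hEM s hnd, vA_mir hEM s hnd]
      exact hflat) T hTlo hThi
  rw [sl_mir hEM s hnd, vr_mir hEM s hnd, dl_mir hEM s hnd] at hj2
  rw [Em_mir hEM, EE_mir hEM] at hj3
  have hj4 := e_mir hEM s T ((T : ℤ) - j)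
  rw [sub_sub_cancel] at hj4
  rw [hj4] at hj3
  have hzi : z ≤ i := by
    have h1 : (z : ℝ) ≤ i := by
      refine le_trans hz1' (le_trans ?_ hi2)
      refine mul_le_mul_of_nonneg_right ?_ hTpos.le
      rw [hs']
      linarith
    exact_mod_cast h1
  have hjz : (T : ℤ) - j ≤ z := by
    have h1 : ((T : ℤ) - j : ℝ) < z + 1 := by
      refine lt_of_le_of_lt ?_ hz2'
      have h2 : L1 - C' * d ≤ vl A0 μ s (2 ^ (y + m + k1i)) - Ce * dl A0 μ s (y - 2 - ki) (y + m + k1i) := by linarith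
      have h3 := mul_le_mul_of_nonneg_right h2 hTpos.le
      have h4 := mul_le_mul_of_nonneg_right hs1 hTpos.le
      push_cast
      linarith
    have h2 : (T : ℤ) - j < z + 1 := by
      have h3 : (((T : ℤ) - j : ℤ) : ℝ) < ((z + 1 : ℤ) : ℝ) := by
        push_cast
        push_cast at h1
        exact h1
      exact_mod_cast h3
    omega
  have hez : e μ s T z ≤ Em μ s T + ε / 2 * EE μ s (2 ^ (y + m)) :=
    e_between52 hEM s (a := (T : ℤ) - j) (b := i) (by omega) hi1 hj3 hi3 hjz hzi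
  have hEmT : Em μ s T ≤ Em μ s (2 ^ (y + m)) := Em_mono hTym
  have hE8 : 2 ≤ ε / 4 * EE μ s (2 ^ (y + m)) := by
    have h1 := hng s hs (2 ^ (y + m)) (by
      have h2 : y + m < 2 ^ (y + m) := Nat.lt_two_pow_self
      omega)
    rw [div_le_iff₀ hε] at h1
    linarith
  have hlog2 : Real.log 2 ≤ 1 := by
    have h1 := Real.log_two_lt_d9
    linarith
  have hα6 : 2 * ((2 : ℝ) ^ (-α) * EE μ s (2 ^ (y + m))) ≤ ε / 4 * EE μ s (2 ^ (y + m)) := by
    have h1 := mul_le_mul_of_nonneg_right hα5 hEy.le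
    linarith
  have hmono1 : Em μ s (2 ^ x) ≤ Em μ s (2 ^ (x + 1)) := Em_mono (Nat.pow_le_pow_right (by norm_num) (by omega))
  rw [← pow_succ'] at hgrow
  have hKr : (Kk : ℝ) * ((1 / 2) ^ (y - x)) = 1 / 2 := by
    have h1 : (2 : ℝ) ^ (y - x) * (1 / 2) ^ (y - x) = 1 := by
      rw [← mul_pow]
      norm_num
    have h2 : (2 : ℝ) ^ (y - x) = 2 * 2 ^ (y - x - 1) := by
      rw [← pow_succ']
      congr 1
      omega
    rw [h2] at h1
    rw [hKk]
    push_cast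
    linarith
  have hfin : Kk * (Em μ s (2 ^ (x + 1)) - Em μ s (2 ^ x)) ≤
      Em μ s (2 ^ (y + m)) - Em μ s (2 ^ x) + ε * EE μ s (2 ^ (y + m)) := by linarith
  have h1 := mul_le_mul_of_nonneg_left hfin hhp.le
  have h2 : (1 / 2) ^ (y - x) * (Kk * (Em μ s (2 ^ (x + 1)) - Em μ s (2 ^ x))) =
      1 / 2 * (Em μ s (2 ^ (x + 1)) - Em μ s (2 ^ x)) := by
    rw [← mul_assoc, mul_comm (((1 : ℝ) / 2) ^ (y - x)) (Kk : ℝ), hKr]
  linarith

end Pool.Agent.W_7d29a1_H
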