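import Pool.Agent.W_7d29a1_H.CoreH83
import Pool.Agent.W_7d29a1_h21g.PickB

/-!
MP_7d29a1_pr, TRACK H (all tilts), section CORE: the place of the core. A lucky end at a random position of a window at the time
`l` is continued by cheap displacements to one deterministic point. (helper83)
-/

set_option autoImplicit false

namespace Pool.Agent.W_7d29a1_H

open MeasureTheory ProbabilityTheory Filter Topology Set
open Pool.Agent.W_7d29a1_F Pool.Agent.W_7d29a1_h4g
open Pool.Agent.W_7d29a1_h21g (pick_end)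

noncomputable section

variable {μ : Measure ℝ} [IsProbabilityMeasure μ] {s : ℝ}

/-- Sums of `r` cheap displacements. -/
theorem ep_pieces83 (hEM : Pool.Agent.W_7d29a1_h47.EM μ) {m : ℕ} {lo hi : ℤ} (hlo : 0 ≤ lo) (hhi : hi ≤ m) {B : ℝ}
    (hB : ∀ y, lo ≤ y → y ≤ hi → ep μ s m y ≤ B) {r : ℕ} (hr : 1 ≤ r) :
    ∀ y : ℤ, r * lo ≤ y → y ≤ r * hi → ep μ s (r * m) y ≤ r * B := by
  induction r, hr using Nat.le_induction with
  | base =>
    intro y h1 h2
    rw [one_mul]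
    push_cast at h1 h2 ⊢
    rw [one_mul] at h1 h2 ⊢
    exact hB y h1 h2
  | succ r hr ih =>
    intro y h1 h2
    have hr0 : (0 : ℤ) < r := by exact_mod_cast hr
    push_cast at h1 h2
    have hlh : lo ≤ hi := by
      have h3 : ((r : ℤ) + 1) * lo ≤ ((r : ℤ) + 1) * hi := h1.trans h2
      exact le_of_mul_le_mul_left h3 (by omega)
    have hrl : (r : ℤ) * lo ≤ r * hi := mul_le_mul_of_nonneg_left hlh hr0.le
    have hrlo : 0 ≤ (r : ℤ) * lo := mul_nonneg hr0.le hlo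
    have hrhi : (r : ℤ) * hi ≤ r * m := mul_le_mul_of_nonneg_left hhi hr0.le
    have e0 : ((r : ℤ) + 1) * lo = r * lo + lo := by ring
    have e1 : ((r : ℤ) + 1) * hi = r * hi + hi := by ring
    rw [e0] at h1
    rw [e1] at h2
    have hz : ∃ z : ℤ, lo ≤ z ∧ z ≤ hi ∧ r * lo ≤ y - z ∧ y - z ≤ r * hi := by
      rcases le_total lo (y - r * hi) with h | h
      · exact ⟨y - r * hi, h, by omega, by omega, by omega⟩
      · exact ⟨lo, le_rfl, hlh, by omega, by omega⟩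
    obtain ⟨z, hz1, hz2, hz3, hz4⟩ := hz
    have h3 := ep_sub hEM s (m := r * m) (n := m) (k := y - z) (y := z) (hrlo.trans hz3)
      (by push_cast; exact hz4.trans hrhi) (hlo.trans hz1) (hz2.trans hhi)
    rw [sub_add_cancel] at h3
    have e2 : (r + 1) * m = r * m + m := by ring
    rw [e2]
    push_cast
    linarith [ih (y - z) hz3 hz4, hB z hz1 hz2]

/-- Sums of `r` cheap displacements and a filler. -/
theorem ep_fill83 (hEM : Pool.Agent.W_7d29a1_h47.EM μ) {j m r : ℕ} {lo hi f : ℤ} (hlo : 0 ≤ lo) (hhi : hi ≤ m)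
    (hf0 : 0 ≤ f) (hf1 : f ≤ j) {B B' : ℝ} (hf : ep μ s j f ≤ B') (hB : ∀ y, lo ≤ y → y ≤ hi → ep μ s m y ≤ B)
    (hr : 1 ≤ r) (y : ℤ) (h1 : f + r * lo ≤ y) (h2 : y ≤ f + r * hi) :
    ep μ s (j + r * m) y ≤ B' + r * B := by
  have hr0 : (0 : ℤ) ≤ r := Int.natCast_nonneg r
  have hrlo : 0 ≤ (r : ℤ) * lo := mul_nonneg hr0 hlo
  have hrhi : (r : ℤ) * hi ≤ r * m := mul_le_mul_of_nonneg_left hhi hr0
  have h3 := ep_pieces83 hEM hlo hhi hB hr (y - f) (by omega) (by omega)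
  have h4 := ep_sub hEM s (m := j) (n := r * m) (k := f) (y := y - f) hf0 hf1 (by omega) (by push_cast; omega)
  rw [show f + (y - f) = y by ring] at h4
  linarith

/-- PLACE, for any fresh part of duration `N` with an interval `[lo, hi]` of displacements of mean at most `B`. -/
theorem place0_83 (hEM : Pool.Agent.W_7d29a1_h47.EM μ) {l N : ℕ} {lo hi qa qb : ℤ} {B : ℝ} (hB0 : 0 < B) (hlo : 0 ≤ lo)
    (hhi : hi ≤ N) (hqa : 0 ≤ qa) (hqb : qb ≤ l) (hB : ∀ y, lo ≤ y → y ≤ hi → ep μ s N y ≤ B)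
    (hw : qb - qa ≤ hi - lo) {k k' : ℝ} (hk : k + 2 * B ≤ k') :
    (1 / 2) * (law μ).real {η | ∃ q, qa ≤ q ∧ q ≤ qb ∧ k' ≤ -X μ s η 0 l q} ≤
      (law μ).real {η | k ≤ -X μ s η 0 (l + N) (qb + lo)} := by
  have h1 := pick_end (μ := μ) (s := s) hEM l N (Finset.Icc qa qb) (qb + lo) (fun b hb => by
    rw [Finset.mem_Icc] at hb
    refine ⟨by omega, by omega, by omega, by omega⟩) hB0 (fun b hb => by
    rw [Finset.mem_Icc] at hb
    exact hB _ (by omega) (by omega)) k'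
  have h2 : {η : Env | ∃ b ∈ Finset.Icc qa qb, k' ≤ -X μ s η 0 l b} = {η | ∃ q, qa ≤ q ∧ q ≤ qb ∧ k' ≤ -X μ s η 0 l q} := by
    ext η
    simp only [Finset.mem_Icc, mem_ofPred_eq, and_assoc]
  rw [h2] at h1
  have h3 : (law μ).real {η : Env | k' - 2 * B ≤ -X μ s η 0 (l + N) (qb + lo)} ≤
      (law μ).real {η | k ≤ -X μ s η 0 (l + N) (qb + lo)} := by
    refine measureReal_mono (fun η hη => ?_) (measure_ne_top _ _)
    rw [mem_ofPred_eq] at hη ⊢
    linarith
  linarith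

/-- **PLACE.** -/
theorem plH83 (hEM : Pool.Agent.W_7d29a1_h47.EM μ) : PlH83 μ := by
  intro s m r l j lo hi x f qa qb w E C c0 c1 hl hlj hE hc0 hC hc1 hw hlen hlh hlo hhi hep hlat hf0 hf1 hf hfl hx0 hx1 hx hxl
    hqa0 hqa hqb hqbl hq hr hr1
  have hr0 : (1 : ℝ) ≤ r := by exact_mod_cast hr
  have hrZ : (0 : ℤ) ≤ r := Int.natCast_nonneg r
  have hw0 : 0 < w := lt_of_lt_of_le (by positivity) hw
  have h1 : 2 ≤ c0 * w := by
    rw [div_le_iff₀ hc0] at hw
    linarith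
  have h2 : c0 * w / 2 ≤ (hi : ℝ) - lo := by linarith
  have hwin : qb - qa ≤ (f + r * hi) - (f + r * lo) := by
    have h3 : c1 * w ≤ r * (c0 * w / 2) := by
      rw [div_le_iff₀ hc0] at hr1
      have h4 := mul_le_mul_of_nonneg_right hr1 hw0.le
      linarith
    have h4 : (r : ℝ) * (c0 * w / 2) ≤ r * ((hi : ℝ) - lo) := mul_le_mul_of_nonneg_left h2 (by linarith)
    have h5 : ((qb - qa : ℤ) : ℝ) ≤ (((f + r * hi) - (f + r * lo) : ℤ) : ℝ) := by
      push_cast
      linarith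
    exact_mod_cast h5
  have hMe : l + (j + r * m) = (1 + r) * m := by rw [← hlj]; ring
  have hfill := ep_fill83 (μ := μ) (s := s) hEM (j := j) (m := m) (r := r) hlo hhi hf0 hf1 hf hep hr
  have hCE : 0 < C * E := by positivity
  have hc1E : 0 ≤ c1 * E := mul_nonneg hc1 hE.le
  have hrCE : 0 ≤ (r : ℝ) * (C * E) := by positivity
  have hrlo : 0 ≤ (r : ℤ) * lo := mul_nonneg hrZ hlo
  have hrlh : (r : ℤ) * lo ≤ r * hi := mul_le_mul_of_nonneg_left hlh hrZ
  have hrhi : (r : ℤ) * hi ≤ r * m := mul_le_mul_of_nonneg_left hhi hrZ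
  have hlo2 : 0 ≤ f + (r : ℤ) * lo := by omega
  have hhi2 : f + (r : ℤ) * hi ≤ ((j + r * m : ℕ) : ℤ) := by push_cast; omega
  refine ⟨⟨by omega, ?_⟩, ?_, ?_, fun k => ?_⟩
  · rw [← hMe]
    push_cast at hhi2 ⊢
    omega
  · have h3 := ep_sub hEM s (m := l) (n := j + r * m) (k := x) (y := qb + (f + r * lo) - x) hx0 hx1 (by omega)
      (by omega)
    rw [show x + (qb + (f + r * lo) - x) = qb + (f + r * lo) by ring, hMe] at h3
    have h4 := hfill (qb + (f + r * lo) - x) (by omega) (by omega)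
    have e1 : (c1 + (3 + 2 * (r : ℝ)) * C) * E = c1 * E + 3 * (C * E) + 2 * (r * (C * E)) := by ring
    rw [e1]
    linarith
  · have h3 := abs_le.1 hxl
    have h4 := abs_le.1 (hlat lo le_rfl hlh)
    have h5 : (qb : ℝ) - x ≤ c1 * w := by
      have : (qa : ℝ) ≤ x := by exact_mod_cast hqa
      linarith
    have h6 : (0 : ℝ) ≤ (qb : ℝ) - x := by
      have : (x : ℝ) ≤ qb := by exact_mod_cast hqb
      linarith
    have h7 := abs_le.1 hfl
    have hme : (m : ℝ) = l + j := by exact_mod_cast hlj.symm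
    have e1 : ((qb + (f + r * lo) : ℤ) : ℝ) - sl μ s * (((1 + r) * m : ℕ) : ℝ) =
        ((qb : ℝ) - x) + (x - sl μ s * l) + (f - sl μ s * j) + r * (lo - sl μ s * m) := by
      push_cast
      linear_combination (-sl μ s) * hme
    have h8 : (r : ℝ) * (lo - sl μ s * m) ≤ r * (C * w) := mul_le_mul_of_nonneg_left h4.2 (by linarith)
    have h9 : (r : ℝ) * (-(C * w)) ≤ r * (lo - sl μ s * m) := mul_le_mul_of_nonneg_left h4.1 (by linarith)
    have h10 : 0 ≤ (r : ℝ) * (C * w) := by positivity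
    have h11 : 0 ≤ c1 * w := mul_nonneg hc1 hw0.le
    have h12 : 0 ≤ C * w := by positivity
    have e2 : (c1 + (3 + 2 * (r : ℝ)) * C) * w = c1 * w + 3 * (C * w) + 2 * (r * (C * w)) := by ring
    rw [e1, e2, abs_le]
    constructor <;> linarith [h3.1, h3.2, h7.1, h7.2]
  · have h3 := place0_83 (μ := μ) (s := s) hEM (l := l) (N := j + r * m) (lo := f + r * lo) (hi := f + r * hi) (qa := qa)
      (qb := qb) (B := C * E + r * (C * E)) (by positivity) hlo2 hhi2 hqa0 hqbl hfill hwin (k := k * E)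
      (k' := (k + (c1 + (3 + 2 * r) * C)) * E) (by
        have e1 : (k + (c1 + (3 + 2 * (r : ℝ)) * C)) * E = k * E + c1 * E + 3 * (C * E) + 2 * (r * (C * E)) := by ring
        rw [e1]
        linarith)
    rw [hMe] at h3
    exact h3

end

end Pool.Agent.W_7d29a1_H
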