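import Pool.Agent.W_7d29a1_H.PredH

/-!
MP_7d29a1_pr, TRACK H (all tilts), part 2: the predicates of the comparison of two tilts (COMPARE, BALANCE, DOUBLING).
-/

set_option autoImplicit false

namespace Pool.Agent.W_7d29a1_H

open MeasureTheory ProbabilityTheory Filter Topology Set
open Pool.Agent.W_7d29a1_F Pool.Agent.W_7d29a1_h4g

noncomputable section

/-- **(LANES)** at every scale `2 ^ x`: a displacement `(M, k)`, `M ≤ Cm 2 ^ x`, `|k - sl M| ≤ C3 w`, which has with probability at least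
`p` a luck of at least `K` units inside the tube of half width `R w`. -/
def LaneH (a : ℝ) (μ : Measure ℝ) (A : Set ℝ) (C3 Cm : ℝ) : Prop :=
  ∀ K : ℝ, ∃ (p R : ℝ) (x1 : ℕ), 0 < p ∧ 0 ≤ R ∧ ∀ s ∈ A, ∀ x : ℕ, x1 ≤ x → ∃ (M : ℕ) (k : ℤ), 1 ≤ M ∧ (M : ℝ) ≤ Cm * 2 ^ x ∧
    0 ≤ k ∧ k ≤ M ∧ |(k : ℝ) - sl μ s * M| ≤ C3 * wH a μ s (2 ^ x) ∧
    p ≤ (law μ).real {η | EvH μ s (R * wH a μ s (2 ^ x)) (K * EE μ s (2 ^ x)) M k 0 η}

/-- **(COMPARE)** the widths of two tilts `s`, `s'` at the scales `2 ^ x ≤ 2 ^ x'`, if the unit of `s'` is at most a multiple of the unit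
of `s` and the two linear forms differ by at most a multiple of the unit on the displacements of the lanes. -/
def CmpH (a : ℝ) (μ : Measure ℝ) (A : Set ℝ) (C3 Cm : ℝ) : Prop :=
  ∀ C1 : ℝ, ∃ (C2 : ℝ) (x1 : ℕ), ∀ s ∈ A, ∀ s' ∈ A, ∀ x x' : ℕ, x1 ≤ x → x ≤ x' →
    EE μ s' (2 ^ x') ≤ C1 * EE μ s (2 ^ x) →
    (∀ M k : ℝ, 0 ≤ M → M ≤ Cm * 2 ^ x → |k - sl μ s * M| ≤ C3 * wH a μ s (2 ^ x) →
      |(lam μ s' - lam μ s) * M - (s' - s) * k| ≤ C1 * EE μ s (2 ^ x)) →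
    wH a μ s' (2 ^ x') ≤ C2 * wH a μ s (2 ^ x)

/-- The family `A` contains the tilts near those of `A0`. -/
def FamH (A0 A : Set ℝ) (s0 : ℝ) : Prop := 0 < s0 ∧ ∀ s ∈ A0, ∀ σ : ℝ, |σ| ≤ s0 → s + σ ∈ A

end

end Pool.Agent.W_7d29a1_H
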