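import Pool.Agent.W_7d29a1_H.FrTH4
import Pool.Agent.W_7d29a1_H.UnitH
import Pool.Agent.W_7d29a1_H.MeanA
import Pool.Agent.W_7d29a1_G.FinC

/-!
MP_7d29a1_pr, TRACK H, (hF2), (ii) and (iii): two parallel costs at a large distance are almost functions of disjoint sets of
sites (one separating line of the slope `v`, the way to the line is paid by a tilt); if they are almost equal, they are almost
constant. Ports of `G/FinB`, `G/FinD` to all tilts, with the exponential moments of the tilted lucks. (helper6)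
-/

set_option autoImplicit false

namespace Pool.Agent.W_7d29a1_H

open MeasureTheory ProbabilityTheory Filter Topology Set
open Pool.Agent.W_7d29a1_F Pool.Agent.W_7d29a1_h4g Pool.Agent.W_7d29a1_h95g
open Pool.Agent.W_7d29a1_L (Mh T kap Bx Mh_le le_Mh Mh_nonneg Sub_Mh mem_Bx exp_T T_sh)
open Pool.Agent.W_7d29a1_h47 (EM Nondeg)

noncomputable section

variable {μ : Measure ℝ} {s : ℝ}

/-- The weight of the paths which touch the line is small (tilted lucks). -/
theorem exit_bound6 {L : Set Pt} {c : ℤ → ℤ} (hL : ExitAt L c) {a : Pt} (ha : a ∈ L) (s v h : ℝ) (n : ℕ) (y : ℤ)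
    (η : Env) {Y D : ℝ} (hY1 : ∀ j < n, T μ s v h η a (j + 1) ≤ Y)
    (hY2 : ∀ j < n, V μ s η (bk c a j) (n - (j + 1)) ≤ Y)
    (hD : ∀ j < n, D ≤ h * ((dk c a j : ℝ) - v * ((j : ℝ) + 1))) :
    W μ s η a n y ≤ WR μ s L η a n y + n * Real.exp (2 * Y - D) := by
  have h1 := exit_decomp hL Set.univ η ha n y
  rw [Set.univ_inter] at h1
  have h2 : W μ s η a n y = WR μ s L η a n y + ∑ k ∈ Finset.range n,
      Real.exp (s * y - n * lam μ s) * (Fk Set.univ L c η a k * Zr Set.univ η (bk c a k) (n - (k + 1)) (y - dk c a k)) := by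
    unfold W WR
    rw [h1, mul_add, Finset.mul_sum]
  rw [h2]
  have h3 : ∀ k ∈ Finset.range n, Real.exp (s * y - n * lam μ s) *
      (Fk Set.univ L c η a k * Zr Set.univ η (bk c a k) (n - (k + 1)) (y - dk c a k)) ≤ Real.exp (2 * Y - D) := by
    intro k hk
    rw [Finset.mem_range] at hk
    have hF : Fk Set.univ L c η a k ≤ Zr Set.univ η a (k + 1) (dk c a k) := by
      unfold Fk
      exact Zr_mono (Set.inter_subset_left) η a _ _
    have hZ : 0 ≤ Zr Set.univ η (bk c a k) (n - (k + 1)) (y - dk c a k) := Zr_nonneg _ _ _ _ _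
    have e1 : Real.exp (s * y - n * lam μ s) =
        Real.exp (s * (dk c a k : ℝ) - ((k + 1 : ℕ) : ℝ) * lam μ s) *
          Real.exp (s * ((y - dk c a k : ℤ) : ℝ) - ((n - (k + 1) : ℕ) : ℝ) * lam μ s) := by
      rw [← Real.exp_add]
      congr 1
      rw [Nat.cast_sub (by omega)]
      push_cast
      ring
    have e2 : Real.exp (s * y - n * lam μ s) *
        (Zr Set.univ η a (k + 1) (dk c a k) * Zr Set.univ η (bk c a k) (n - (k + 1)) (y - dk c a k)) =
        W μ s η a (k + 1) (dk c a k) * W μ s η (bk c a k) (n - (k + 1)) (y - dk c a k) := by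
      unfold W WR
      rw [e1]
      ring
    have g1 : W μ s η a (k + 1) (dk c a k) ≤ Real.exp (Y - D) := by
      rw [Pool.Agent.W_7d29a1_G.W_tilt s h]
      have g2 : W μ (s + h) η a (k + 1) (dk c a k) ≤ Real.exp (V μ (s + h) η a (k + 1)) := by
        have g3 := WS_le_exp_V (μ := μ) (s := s + h) η a (k + 1) {dk c a k}
        unfold WS at g3
        rwa [Finset.sum_singleton] at g3
      have g4 : V μ (s + h) η a (k + 1) +
          (((k + 1 : ℕ) : ℝ) * (lam μ (s + h) - lam μ s) - h * (dk c a k : ℝ)) ≤ Y - D := by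
        have g5 := hY1 k hk
        have g6 := hD k hk
        unfold T kap at g5
        push_cast at g5 ⊢
        linarith
      calc W μ (s + h) η a (k + 1) (dk c a k) *
            Real.exp (((k + 1 : ℕ) : ℝ) * (lam μ (s + h) - lam μ s) - h * (dk c a k : ℝ))
          ≤ Real.exp (V μ (s + h) η a (k + 1)) *
            Real.exp (((k + 1 : ℕ) : ℝ) * (lam μ (s + h) - lam μ s) - h * (dk c a k : ℝ)) :=
            mul_le_mul_of_nonneg_right g2 (Real.exp_pos _).le
        _ ≤ Real.exp (Y - D) := by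
            rw [← Real.exp_add]
            exact Real.exp_le_exp.2 g4
    have g5 : W μ s η (bk c a k) (n - (k + 1)) (y - dk c a k) ≤ Real.exp Y := by
      have g3 := WS_le_exp_V (μ := μ) (s := s) η (bk c a k) (n - (k + 1)) {y - dk c a k}
      unfold WS at g3
      rw [Finset.sum_singleton] at g3
      exact g3.trans (Real.exp_le_exp.2 (hY2 k hk))
    calc Real.exp (s * y - n * lam μ s) *
          (Fk Set.univ L c η a k * Zr Set.univ η (bk c a k) (n - (k + 1)) (y - dk c a k))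
        ≤ Real.exp (s * y - n * lam μ s) *
          (Zr Set.univ η a (k + 1) (dk c a k) * Zr Set.univ η (bk c a k) (n - (k + 1)) (y - dk c a k)) :=
          mul_le_mul_of_nonneg_left (mul_le_mul_of_nonneg_right hF hZ) (Real.exp_pos _).le
      _ = W μ s η a (k + 1) (dk c a k) * W μ s η (bk c a k) (n - (k + 1)) (y - dk c a k) := e2
      _ ≤ Real.exp (Y - D) * Real.exp Y := mul_le_mul g1 g5 (W_nonneg _ _ _ _) (Real.exp_pos _).le
      _ = Real.exp (2 * Y - D) := by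
          rw [← Real.exp_add]
          congr 1
          ring
  have h4 := Finset.sum_le_card_nsmul (Finset.range n) _ _ h3
  rw [Finset.card_range, nsmul_eq_mul] at h4
  linarith

/-- Under the bounds of `exit_bound6`, the cost inside `L` is the cost up to `log 2`. -/
theorem cost_inside6 {L : Set Pt} {c : ℤ → ℤ} (hL : ExitAt L c) {a : Pt} (ha : a ∈ L) (s v h : ℝ) {n : ℕ} {y : ℤ}
    (h0 : 0 ≤ y) (h1 : y ≤ n) (η : Env) {Y Z D : ℝ} (hY1 : ∀ j < n, T μ s v h η a (j + 1) ≤ Y)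
    (hY2 : ∀ j < n, V μ s η (bk c a j) (n - (j + 1)) ≤ Y)
    (hD : ∀ j < n, D ≤ h * ((dk c a j : ℝ) - v * ((j : ℝ) + 1)))
    (hX : X μ s η a n y ≤ Z) (hn : Real.log (2 * n) + 2 * Y + Z ≤ D) :
    |-Real.log (WR μ s L η a n y) - X μ s η a n y| ≤ Real.log 2 := by
  have hb := exit_bound6 hL ha s v h n y η hY1 hY2 hD
  have hW := W_pos (μ := μ) (s := s) η a h0 h1
  have hWZ : Real.exp (-Z) ≤ W μ s η a n y := by
    have e1 : W μ s η a n y = Real.exp (-X μ s η a n y) := by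
      unfold X
      rw [neg_neg, Real.exp_log hW]
    rw [e1, Real.exp_le_exp]
    linarith
  have hhalf : (n : ℝ) * Real.exp (2 * Y - D) ≤ (1 / 2) * W μ s η a n y := by
    rcases Nat.eq_zero_or_pos n with hn0 | hn0
    · subst hn0
      simp only [Nat.cast_zero, zero_mul]
      positivity
    · have hn1 : (0 : ℝ) < n := by exact_mod_cast hn0
      have e1 : 2 * (n : ℝ) * Real.exp (2 * Y - D) ≤ Real.exp (-Z) := by
        rw [← Real.exp_log (show (0 : ℝ) < 2 * n by positivity), ← Real.exp_add, Real.exp_le_exp]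
        linarith
      linarith
  have hlow : (1 / 2) * W μ s η a n y ≤ WR μ s L η a n y := by linarith
  have hpos : 0 < WR μ s L η a n y := lt_of_lt_of_le (by positivity) hlow
  have hup := WR_le_W (μ := μ) (s := s) L η a n y
  have l1 := Real.log_le_log hpos hup
  have l2 := Real.log_le_log (by positivity) hlow
  rw [Real.log_mul (by norm_num) hW.ne', one_div, Real.log_inv] at l2
  have l3 : 0 ≤ Real.log 2 := Real.log_nonneg (by norm_num)
  unfold X
  rw [abs_le]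
  constructor <;> linarith

/-- The line of the slope `v` through `(0, B)`. -/
def cl6 (v B : ℝ) (t : ℤ) : ℤ := ⌊v * (t : ℝ) + B⌋

theorem cl6_right {v B : ℝ} (hv1 : v ≤ 1) : ExitAt {p : Pt | cl6 v B p.1 < p.2} (cl6 v B) :=
  exitAt_right fun t => by
    unfold cl6
    rw [← Int.floor_add_one]
    refine Int.floor_le_floor ?_
    push_cast
    linarith

theorem cl6_left {v B : ℝ} (hv0 : 0 ≤ v) : ExitAt {p : Pt | p.2 < cl6 v B p.1} (cl6 v B) :=
  exitAt_left fun t => by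
    unfold cl6
    refine Int.floor_le_floor ?_
    push_cast
    linarith

/-- The displacement to the line. -/
theorem dk6 {v B : ℝ} (a : Pt) (j : ℕ) : B + v * a.1 - a.2 - 1 < (dk (cl6 v B) a j : ℝ) - v * ((j : ℝ) + 1) ∧
    (dk (cl6 v B) a j : ℝ) - v * ((j : ℝ) + 1) ≤ B + v * a.1 - a.2 := by
  have h1 := Int.floor_le (v * ((a.1 + ((j : ℤ) + 1) : ℤ) : ℝ) + B)
  have h2 := Int.lt_floor_add_one (v * ((a.1 + ((j : ℤ) + 1) : ℤ) : ℝ) + B)
  unfold dk cl6
  push_cast at h1 h2 ⊢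
  constructor <;> linarith

variable [IsProbabilityMeasure μ]

/-- Large tilted lucks are exponentially rare. -/
theorem mh_markov6 (hμ : EM μ) {v w h θ C : ℝ} (hθ : 0 ≤ θ) {M : ℕ} {z : ℝ}
    (hL : ∫ η, Real.exp (θ * Mh μ s v h w z M η) ∂(law μ) ≤ C) (Y : ℝ) :
    (law μ).real {η | Y ≤ Mh μ s v h w z M η} ≤ C * Real.exp (-(θ * Y)) := by
  have h2 := measure_ge_le_exp_mul_mgf (μ := law μ) (X := fun η => Mh μ s v h w z M η) Y (t := θ) hθ
    (int_exp_Mh4 hμ _ _ _ _ _ _)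
  refine h2.trans ?_
  have e1 : -θ * Y = -(θ * Y) := by ring
  rw [e1, mul_comm]
  exact mul_le_mul_of_nonneg_right hL (Real.exp_pos _).le

/-- The cost inside the half plane is the cost up to `log 2`, with a large probability. -/
theorem bad6 (hμ : EM μ) {v w θ C h : ℝ} (hv0 : 0 ≤ v) (hv1 : v ≤ 1) (hw : 1 ≤ w) (hθ : 0 ≤ θ) {m M : ℕ} (hmM : m ≤ M)
    (hLh : ∀ z : ℝ, ∫ η, Real.exp (θ * Mh μ s v h w z M η) ∂(law μ) ≤ C)
    (hL0 : ∀ z : ℝ, ∫ η, Real.exp (θ * Mh μ s v 0 w z M η) ∂(law μ) ≤ C)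
    {L : Set Pt} {B : ℝ} (hL : ExitAt L (cl6 v B)) {a : Pt} (ha : a ∈ L) {k : ℤ} (hk : 0 ≤ k ∧ k ≤ m) {A D Y Z : ℝ}
    (hZ : 0 < Z) (hD : ∀ j < m, D ≤ h * ((dk (cl6 v B) a j : ℝ) - v * ((j : ℝ) + 1))) (hX : ep μ s m k ≤ A)
    (hn : Real.log (2 * m) + 2 * Y + Z ≤ D) :
    (law μ).real {η | ¬ |-Real.log (WR μ s L η a m k) - X μ s η a m k| ≤ Real.log 2} ≤
      2 * (C * Real.exp (-(θ * Y))) + A / Z := by
  obtain ⟨b, hb⟩ : ∃ b : ℝ, b = B + v * a.1 - a.2 := ⟨_, rfl⟩
  have hw0 : 0 < w := by linarith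
  obtain ⟨S1, hS1⟩ : ∃ S : Set Env, S = {η | Y ≤ Mh μ s v h w (-(w / 2)) M η} := ⟨_, rfl⟩
  obtain ⟨S2, hS2⟩ : ∃ S : Set Env, S = {η | Y ≤ Mh μ s v 0 w (b - w) M η} := ⟨_, rfl⟩
  have hm1 : MeasurableSet S1 := by rw [hS1]; exact measurableSet_le measurable_const Sub_Mh.1
  have hm2 : MeasurableSet S2 := by rw [hS2]; exact measurableSet_le measurable_const Sub_Mh.1
  have p1 : (law μ).real {η | sh a η ∈ S1} ≤ C * Real.exp (-(θ * Y)) := by
    rw [real_sh (μ := μ) a hm1, hS1]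
    exact mh_markov6 hμ hθ (hLh _) Y
  have p2 : (law μ).real {η | sh a η ∈ S2} ≤ C * Real.exp (-(θ * Y)) := by
    rw [real_sh (μ := μ) a hm2, hS2]
    exact mh_markov6 hμ hθ (hL0 _) Y
  have p3 : (law μ).real {η | Z < X μ s η a m k} ≤ A / Z := by
    have h2 := mul_meas_ge_le_integral_of_nonneg (μ := law μ)
      (Filter.Eventually.of_forall fun η => le_max_right (X μ s η a m k) 0) (Xp_int hμ s a hk.1 hk.2) Z
    rw [ep_at] at h2
    rw [le_div_iff₀ hZ, mul_comm]
    refine le_trans (mul_le_mul_of_nonneg_left (measureReal_mono fun η hη => ?_) hZ.le) (h2.trans hX)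
    have hη' : Z < X μ s η a m k := hη
    exact hη'.le.trans (le_max_left _ _)
  have hsub : {η | ¬ |-Real.log (WR μ s L η a m k) - X μ s η a m k| ≤ Real.log 2} ⊆
      {η | sh a η ∈ S1} ∪ ({η | sh a η ∈ S2} ∪ {η | Z < X μ s η a m k}) := by
    intro η hη
    by_contra hcon
    simp only [Set.mem_union, Set.mem_ofPred_eq, not_or, not_lt] at hcon
    obtain ⟨g1, g2, g3⟩ := hcon
    rw [hS1] at g1
    rw [hS2] at g2
    simp only [Set.mem_ofPred_eq, not_le] at g1 g2
    refine hη (cost_inside6 hL ha s v h hk.1 hk.2 η (Y := Y) (fun j hj => ?_) (fun j hj => ?_) hD g3 hn)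
    · have h1 := T_le_Mh4 (μ := μ) (s := s) hv0 hv1 hw0 (show j + 1 ≤ M by omega) h (sh a η)
      rw [T_sh, zero_add] at h1
      exact h1.trans g1.le
    · have hbx : (((j + 1, cl6 v B (a.1 + ((j : ℤ) + 1)) - a.2), m - (j + 1)) : (ℕ × ℤ) × ℕ) ∈ Bx v w (b - w) M := by
        rw [mem_Bx hv0 hv1]
        have h1 := dk6 (v := v) (B := B) a j
        unfold dk at h1
        rw [← hb] at h1
        push_cast at h1
        refine ⟨by show j + 1 + (m - (j + 1)) ≤ M; omega, ?_, ?_⟩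
        · push_cast
          linarith [h1.1]
        · push_cast
          linarith [h1.2]
      have h1 := le_Mh (μ := μ) (s := s) (h := 0) (sh a η) hbx
      rw [T_tilt_zero4, V_sh] at h1
      have e1 : ((((j + 1 : ℕ) : ℤ), cl6 v B (a.1 + ((j : ℤ) + 1)) - a.2) : Pt) + a = bk (cl6 v B) a j := by
        unfold bk
        ext
        · show ((j + 1 : ℕ) : ℤ) + a.1 = a.1 + ((j : ℤ) + 1)
          push_cast
          ring
        · show cl6 v B (a.1 + ((j : ℤ) + 1)) - a.2 + a.2 = cl6 v B (a.1 + ((j : ℤ) + 1))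
          ring
      have h2 : V μ s η (bk (cl6 v B) a j) (m - (j + 1)) ≤ Mh μ s v 0 w (b - w) M (sh a η) := by
        rw [← e1]
        exact h1
      exact h2.trans g2.le
  have h1 := (measureReal_mono (μ := law μ) hsub (measure_ne_top _ _)).trans (measureReal_union_le _ _)
  have h2 := measureReal_union_le (μ := law μ) {η | sh a η ∈ S2} {η | Z < X μ s η a m k}
  linarith

/-- **(ii) + (iii)**: two cheap displacements `lo < hi` of the same duration at a large distance and a cheap displacement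
`(m, k)`: the cost of `(m, k)` is concentrated around a constant. -/
theorem conc6 (hμ : EM μ) {v w t θ C : ℝ} (hv0 : 0 ≤ v) (hv1 : v ≤ 1) (hw : 1 ≤ w) (ht : 0 ≤ t) (hθ : 0 ≤ θ) {m M : ℕ}
    (hmM : m ≤ M) (hLM : ∀ h : ℝ, |h| ≤ t → ∀ z : ℝ, ∫ η, Real.exp (θ * Mh μ s v h w z M η) ∂(law μ) ≤ C)
    {q : ℕ} {lo hi k : ℤ} (hlo : 0 ≤ lo) (hlh : 2 ≤ hi - lo) (hhi : hi ≤ q) (hk : 0 ≤ k ∧ k ≤ m) {α b Y Z : ℝ}
    (h1 : e μ s q lo ≤ α) (h2 : e μ s q hi ≤ α) (h3 : e μ s m k ≤ α) (hb : 0 < b) (hZ : 0 < Z)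
    (hsep : Real.log (2 * m) + 2 * Y + Z + t ≤ t * (((hi : ℝ) - lo) / 2)) :
    ∃ c0 : ℝ, (law μ).real {η | b + 3 * Real.log 2 < |X μ s η 0 m k - c0|} ≤
      10 * α / b + 3 * (2 * (C * Real.exp (-(θ * Y))) + (α + es μ s m) / Z) := by
  obtain ⟨B, hB⟩ : ∃ B : ℝ, B = ((lo : ℝ) + hi) / 2 - v * q := ⟨_, rfl⟩
  obtain ⟨a1, ha1⟩ : ∃ a1 : Pt, a1 = ((q : ℤ), hi) := ⟨_, rfl⟩
  obtain ⟨a2, ha2⟩ : ∃ a2 : Pt, a2 = ((q : ℤ), lo) := ⟨_, rfl⟩
  have hmid : cl6 v B (q : ℤ) = ⌊((lo : ℝ) + hi) / 2⌋ := by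
    unfold cl6
    rw [hB]
    push_cast
    congr 1
    ring
  have hlh' : (2 : ℝ) ≤ (hi : ℝ) - lo := by exact_mod_cast hlh
  have hmem1 : a1 ∈ {p : Pt | cl6 v B p.1 < p.2} := by
    show cl6 v B a1.1 < a1.2
    rw [ha1]
    show cl6 v B (q : ℤ) < hi
    rw [hmid, Int.floor_lt]
    linarith
  have hmem2 : a2 ∈ {p : Pt | p.2 < cl6 v B p.1} := by
    show a2.2 < cl6 v B a2.1
    rw [ha2]
    show lo < cl6 v B (q : ℤ)
    rw [hmid]
    have h4 : lo + 1 ≤ ⌊((lo : ℝ) + hi) / 2⌋ := by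
      rw [Int.le_floor]
      push_cast
      linarith
    omega
  have hep : ep μ s m k ≤ α + es μ s m := (ep_le_es hμ s hk.1 hk.2).trans (by linarith)
  obtain ⟨D, hDd⟩ : ∃ D : ℝ, D = t * (((hi : ℝ) - lo) / 2) - t := ⟨_, rfl⟩
  have hn : Real.log (2 * m) + 2 * Y + Z ≤ D := by rw [hDd]; linarith
  have hL0 : ∀ z : ℝ, ∫ η, Real.exp (θ * Mh μ s v 0 w z M η) ∂(law μ) ≤ C := hLM 0 (by rw [abs_zero]; exact ht)
  have hg1 := bad6 (μ := μ) (s := s) hμ hv0 hv1 hw hθ hmM (h := -t) (hLM (-t) (by rw [abs_neg, abs_of_nonneg ht])) hL0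
    (cl6_right (B := B) hv1) hmem1 hk (A := α + es μ s m) (D := D) (Y := Y) hZ (fun j _ => by
      have h4 := (dk6 (v := v) (B := B) a1 j).2
      have e1 : B + v * (a1.1 : ℝ) - a1.2 = -(((hi : ℝ) - lo) / 2) := by
        rw [ha1, hB]
        push_cast
        ring
      rw [e1] at h4
      have h5 := mul_le_mul_of_nonneg_left h4 ht
      rw [hDd]
      linarith) hep hn
  have hg2 := bad6 (μ := μ) (s := s) hμ hv0 hv1 hw hθ hmM (h := t) (hLM t (by rw [abs_of_nonneg ht])) hL0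
    (cl6_left (B := B) hv0) hmem2 hk (A := α + es μ s m) (D := D) (Y := Y) hZ (fun j _ => by
      have h4 := (dk6 (v := v) (B := B) a2 j).1
      have e1 : B + v * (a2.1 : ℝ) - a2.2 = ((hi : ℝ) - lo) / 2 := by
        rw [ha2, hB]
        push_cast
        ring
      rw [e1] at h4
      have h5 := mul_le_mul_of_nonneg_left h4.le ht
      rw [hDd]
      linarith) hep hn
  -- the two alternatives
  have h12 : (law μ).real {η | b < |X μ s η a1 m k - X μ s η a2 m k|} ≤ 10 * α / b := by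
    have hta := Pool.Agent.W_7d29a1_G.two_alt (μ := μ) (s := s) hμ (m0 := q) (m := m) (m1 := q) (a1 := hi) (a2 := lo)
      (b1 := lo) (b2 := hi) (k := k) ⟨by omega, by omega⟩ ⟨by omega, by omega⟩ ⟨by omega, by omega⟩ ⟨by omega, by omega⟩ hk
      (by ring)
    have hta' : ∫ η, |X μ s η a1 m k - X μ s η a2 m k| ∂(law μ) ≤ 10 * α := by
      rw [ha1, ha2]
      linarith
    have hS : Sub fun η : Env => |X μ s η a1 m k - X μ s η a2 m k| :=
      ((Sub_X a1 hk.1 hk.2).sub (Sub_X a2 hk.1 hk.2)).abs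
    have h4 := mul_meas_ge_le_integral_of_nonneg (μ := law μ)
      (Filter.Eventually.of_forall fun η => abs_nonneg (X μ s η a1 m k - X μ s η a2 m k))
      (hS.integrable hμ) b
    rw [le_div_iff₀ hb, mul_comm]
    refine le_trans (mul_le_mul_of_nonneg_left (measureReal_mono fun η hη => ?_) hb.le) (h4.trans hta')
    have hη' : b < |X μ s η a1 m k - X μ s η a2 m k| := hη
    exact hη'.le
  obtain ⟨c0, hc0⟩ := Pool.Agent.W_7d29a1_G.conc_const (μ := μ) (s := s) (c := cl6 v B) (a1 := a1) (a2 := a2) (m := m)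
    (k := k) hg1 hg2 h12
  refine ⟨c0, hc0.trans (le_of_eq ?_)⟩
  ring

end

end Pool.Agent.W_7d29a1_H
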