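import Pool.Agent.W_7d29a1_H.ConH
import Pool.Agent.W_7d29a1_H.MeanB

/-!
MP_7d29a1_pr, TRACK H (all tilts). The mean costs near a cheap displacement (spread), uniformly in the tilt; (TRAV*) with a linear
term. Model: `W_1b8d5d_p.UnitS`.
-/

set_option autoImplicit false

namespace Pool.Agent.W_7d29a1_H

open MeasureTheory ProbabilityTheory Filter Topology Set
open Pool.Agent.W_7d29a1_F Pool.Agent.W_7d29a1_h4g
open Pool.Agent.W_7d29a1_h47 (EM Nondeg)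

noncomputable section

variable {μ : Measure ℝ} [IsProbabilityMeasure μ] {H δ : ℝ} {A : Set ℝ}

/-- The mean cost is at least the rate function. -/
theorem e_ge61 (hμ : EM μ) (s : ℝ) {n : ℕ} (hn : 1 ≤ n) {y : ℤ} (h0 : 0 ≤ y) (h1 : y ≤ n) :
    n * J μ s ((y : ℝ) / n - sl μ s) ≤ e μ s n y := by
  have hn0 : (0 : ℝ) < n := by exact_mod_cast hn
  rw [mul_comm, ← le_div_iff₀ hn0]
  refine J_le fun r _ => ?_
  rw [le_div_iff₀ hn0]
  have h2 := e_nonneg hμ (s + r) h0 h1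
  rw [e_eq hμ (s + r) h0 h1] at h2
  rw [e_eq hμ s h0 h1]
  unfold ex
  have e1 : (r * ((y : ℝ) / n - sl μ s) - (lam μ (s + r) - lam μ s - r * sl μ s)) * n =
      r * y - n * (lam μ (s + r) - lam μ s) := by
    field_simp
    ring
  rw [e1]
  linarith

/-- The mean costs of small slopes. -/
theorem Dirs.small (h : Dirs μ H δ A) {ε : ℝ} (hε : 0 < ε) : ∃ δ' : ℝ, 0 < δ' ∧ δ' ≤ δ ∧ ∀ x : ℝ, 0 < x → x ≤ δ' →
    ∃ n0 : ℕ, 1 ≤ n0 ∧ ∀ s ∈ A, ∀ n : ℕ, n0 ≤ n → ∀ y : ℤ, |(y : ℝ) - sl μ s * n| ≤ x * n → e μ s n y ≤ ε * (x * n) := by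
  obtain ⟨δ1, hδ1, hnc⟩ := h.nc (ε / 2) (by positivity)
  obtain ⟨ρ, hρ, hup⟩ := h.e_up
  refine ⟨min (min δ1 ρ) δ, lt_min (lt_min hδ1 hρ) h.δ0, min_le_right _ _, fun x hx hxδ => ?_⟩
  obtain ⟨N, hN1⟩ := hup (ε / 2 * x) (by positivity)
  refine ⟨max N 1, le_max_right _ _, fun s hs n hn y hy => ?_⟩
  have hn1 : 1 ≤ n := (le_max_right _ _).trans hn
  have hn0 : (0 : ℝ) < n := by exact_mod_cast hn1
  have hxρ : x ≤ ρ := hxδ.trans ((min_le_left _ _).trans (min_le_right _ _))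
  have hxδ1 : x ≤ δ1 := hxδ.trans ((min_le_left _ _).trans (min_le_left _ _))
  have h2 := hN1 s hs n ((le_max_left _ _).trans hn) y (hy.trans (mul_le_mul_of_nonneg_right hxρ hn0.le))
  have h3 : |(y : ℝ) / n - sl μ s| ≤ x := by
    have e1 : (y : ℝ) / n - sl μ s = (y - sl μ s * n) / n := by field_simp
    rw [e1, abs_div, Nat.abs_cast, div_le_iff₀ hn0]
    exact hy
  have h4 := hnc s hs ((y : ℝ) / n - sl μ s) (h3.trans hxδ1)
  have h5 : J μ s ((y : ℝ) / n - sl μ s) ≤ ε / 2 * x := h4.trans (mul_le_mul_of_nonneg_left h3 (by positivity))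
  refine h2.trans ?_
  have h6 : (n : ℝ) * (J μ s ((y : ℝ) / n - sl μ s) + ε / 2 * x) ≤ n * (ε / 2 * x + ε / 2 * x) :=
    mul_le_mul_of_nonneg_left (by linarith) hn0.le
  refine h6.trans (le_of_eq ?_)
  ring

/-- A cheap displacement has a slope close to the slope of the tilt. -/
theorem Dirs.cheap_slope (h : Dirs μ H δ A) {x : ℝ} (hx : 0 < x) : ∃ δ' : ℝ, 0 < δ' ∧ ∀ s ∈ A, ∀ N : ℕ, 1 ≤ N → ∀ c : ℤ,
    0 ≤ c → c ≤ N → e μ s N c ≤ δ' * N → |(c : ℝ) - sl μ s * N| ≤ x * N := by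
  obtain ⟨j, hj, hj1⟩ := h.strict x hx
  refine ⟨j * x / 2, by positivity, fun s hs N hN c hc0 hcN hc => ?_⟩
  have hN0 : (0 : ℝ) < N := by exact_mod_cast hN
  by_contra hcon
  push Not at hcon
  have e1 : |(c : ℝ) / N - sl μ s| = |(c : ℝ) - sl μ s * N| / N := by
    rw [show (c : ℝ) / N - sl μ s = (c - sl μ s * N) / N by field_simp, abs_div, Nat.abs_cast]
  have h1 : x ≤ |(c : ℝ) / N - sl μ s| := by
    rw [e1, le_div_iff₀ hN0]
    exact hcon.le
  have h2 := hj1 s hs _ h1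
  have h3 := e_ge61 h.em s hN hc0 hcN
  have h4 : j * x * N ≤ e μ s N c := by
    refine le_trans ?_ h3
    have h5 : j * x ≤ J μ s ((c : ℝ) / N - sl μ s) := (mul_le_mul_of_nonneg_left h1 hj.le).trans h2
    have h6 := mul_le_mul_of_nonneg_left h5 hN0.le
    linarith
  have h5 : 0 < j * x * N := by positivity
  linarith

/-- **SPREAD.** The mean costs grow slowly around a cheap displacement. -/
theorem Dirs.spread (h : Dirs μ H δ A) {ε : ℝ} (hε : 0 < ε) : ∃ η δ' : ℝ, 0 < η ∧ 0 < δ' ∧ ∃ n0 : ℕ, 1 ≤ n0 ∧ ∀ s ∈ A,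
    ∀ N : ℕ, n0 ≤ N → ∀ c : ℤ, 0 ≤ c → c ≤ N → e μ s N c ≤ δ' * N → ∀ z : ℤ, |(z : ℝ) - c| ≤ η * N →
      0 ≤ z ∧ z ≤ N ∧ e μ s N z ≤ e μ s N c + ε * |(z : ℝ) - c| := by
  obtain ⟨x, hx, hxδ, hx1⟩ := h.small (ε := ε / 4) (by positivity)
  obtain ⟨N0, hN0, hN1⟩ := hx1 x hx le_rfl
  obtain ⟨δ', hδ', hδ1⟩ := h.cheap_slope (x := x / 2) (by positivity)
  obtain ⟨N2, hN2⟩ := exists_nat_ge (4 / x)
  refine ⟨x / 4, δ', by positivity, hδ', max N0 N2, hN0.trans (le_max_left _ _), fun s hs N hN c hc0 hcN hc z hz => ?_⟩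
  have hNN : N0 ≤ N := (le_max_left _ _).trans hN
  have hN1' : 1 ≤ N := hN0.trans hNN
  have hNp : (0 : ℝ) < N := by exact_mod_cast hN1'
  have hxN : 4 ≤ x * N := by
    have h1 : (N2 : ℝ) ≤ N := by exact_mod_cast (le_max_right _ _).trans hN
    have h2 : 4 / x ≤ N := hN2.trans h1
    rw [div_le_iff₀ hx] at h2
    linarith
  have hcs := hδ1 s hs N hN1' c hc0 hcN hc
  have hlo := h.lo s hs
  have hhi := h.hi s hs
  -- everything within `x N` of the line is in range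
  have hrng : ∀ w : ℤ, |(w : ℝ) - sl μ s * N| ≤ x * N → 0 ≤ w ∧ w ≤ N := by
    intro w hw
    have h1 := abs_le.1 hw
    have h2 : x * N ≤ δ * N := mul_le_mul_of_nonneg_right hxδ hNp.le
    have h3 : δ * N ≤ sl μ s * N := mul_le_mul_of_nonneg_right hlo hNp.le
    have h4 : sl μ s * N ≤ (1 - δ) * N := mul_le_mul_of_nonneg_right hhi hNp.le
    constructor
    · have : (0 : ℝ) ≤ w := by linarith
      exact_mod_cast this
    · have : (w : ℝ) ≤ N := by linarith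
      exact_mod_cast this
  have hwin : ∀ w : ℤ, |(w : ℝ) - c| ≤ x / 2 * N → |(w : ℝ) - sl μ s * N| ≤ x * N := by
    intro w hw
    have h2 := abs_add_le ((w : ℝ) - c) ((c : ℝ) - sl μ s * N)
    rw [sub_add_sub_cancel] at h2
    linarith
  obtain ⟨D, hD⟩ : ∃ D : ℤ, D = ⌊x / 2 * N⌋ := ⟨_, rfl⟩
  have hD1 : (D : ℝ) ≤ x / 2 * N := by rw [hD]; exact Int.floor_le _
  have hD2 : x / 2 * N - 1 < (D : ℝ) := by rw [hD]; exact Int.sub_one_lt_floor _
  have hD3 : x / 4 * N ≤ (D : ℝ) := by linarith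
  have hD0 : (0 : ℝ) < D := by linarith
  have hcost : ∀ w : ℤ, |(w : ℝ) - c| = D → 0 ≤ w ∧ w ≤ N ∧ e μ s N w ≤ ε * D := by
    intro w hw
    have h1 := hwin w (by rw [hw]; exact hD1)
    have h2 := hN1 s hs N hNN w h1
    have h3 : ε / 4 * (x * N) ≤ ε * D := by
      have := mul_le_mul_of_nonneg_left hD3 hε.le
      linarith
    exact ⟨(hrng w h1).1, (hrng w h1).2, by linarith⟩
  have hzD : |(z : ℝ) - c| ≤ D := hz.trans hD3
  have hzr := hrng z (hwin z (hz.trans (by nlinarith)))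
  refine ⟨hzr.1, hzr.2, ?_⟩
  have hm1 : 0 ≤ e μ s N c := e_nonneg h.em s hc0 hcN
  rcases le_total c z with hcz | hcz
  · have hz' : (c : ℝ) ≤ z := by exact_mod_cast hcz
    have ha : |(z : ℝ) - c| = z - c := abs_of_nonneg (by linarith)
    rw [ha] at hzD ⊢
    have hy1 : z ≤ c + D := by
      have : (z : ℝ) ≤ ((c + D : ℤ) : ℝ) := by push_cast; linarith
      exact_mod_cast this
    obtain ⟨h20, h21, h2⟩ := hcost (c + D) (by push_cast; rw [add_sub_cancel_left, abs_of_pos hD0])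
    have h1 := e_chord61 (s := s) h.em hc0 hcz hy1 h21
    push_cast at h1
    rw [add_sub_cancel_left] at h1
    have h3 : (D : ℝ) * e μ s N z ≤ D * (e μ s N c + ε * (z - c)) := by
      have h4 : ((c : ℝ) + D - z) * e μ s N c ≤ D * e μ s N c := mul_le_mul_of_nonneg_right (by linarith) hm1
      have h5 : ((z : ℝ) - c) * e μ s N (c + D) ≤ (z - c) * (ε * D) :=
        mul_le_mul_of_nonneg_left h2 (by linarith)
      linarith
    exact le_of_mul_le_mul_left h3 hD0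
  · have hz' : (z : ℝ) ≤ c := by exact_mod_cast hcz
    have ha : |(z : ℝ) - c| = c - z := by rw [abs_sub_comm, abs_of_nonneg (by linarith)]
    rw [ha] at hzD ⊢
    have hy1 : c - D ≤ z := by
      have : ((c - D : ℤ) : ℝ) ≤ (z : ℝ) := by push_cast; linarith
      exact_mod_cast this
    obtain ⟨h20, h21, h2⟩ := hcost (c - D) (by
      push_cast
      rw [show (c : ℝ) - D - c = -D by ring, abs_neg, abs_of_pos hD0])
    have h1 := e_chord61 (s := s) h.em h20 hy1 hcz hcN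
    push_cast at h1
    rw [sub_sub_cancel] at h1
    have h3 : (D : ℝ) * e μ s N z ≤ D * (e μ s N c + ε * (c - z)) := by
      have h4 : ((z : ℝ) - (c - D)) * e μ s N c ≤ D * e μ s N c := mul_le_mul_of_nonneg_right (by linarith) hm1
      have h5 : ((c : ℝ) - z) * e μ s N (c - D) ≤ (c - z) * (ε * D) :=
        mul_le_mul_of_nonneg_left h2 (by linarith)
      linarith
    exact le_of_mul_le_mul_left h3 hD0

/-- **(TRAV*)** with a linear term. -/
theorem Dirs.trav_eps (h : Dirs μ H δ A) {ε : ℝ} (hε : 0 < ε) : ∃ η δ' : ℝ, 0 < η ∧ 0 < δ' ∧ ∃ n0 : ℕ, 1 ≤ n0 ∧ ∀ s ∈ A,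
    ∀ n : ℕ, n0 ≤ n → ∀ E r Y l : ℝ, 0 ≤ E → E ≤ δ' * n → 1 ≤ l →
      (∀ t : ℕ, t ≤ n → ∀ z : ℤ, |(z : ℝ) - (Y + r * t)| ≤ l → z ∈ CI μ s (12 * n + t) E) →
      ∀ t : ℕ, t ≤ n → ∀ z : ℤ, |(z : ℝ) - (Y + r * t)| ≤ η * n →
        z ∈ CI μ s (12 * n + t) (E + ε * |(z : ℝ) - (Y + r * t)|) := by
  obtain ⟨η, δ', hη, hδ, n0, hn0, hs⟩ := h.spread hε
  refine ⟨η, δ', hη, hδ, n0, hn0, fun s hsA n hn E r Y l hE0 hE hl hcore t ht z hz => ?_⟩
  have hnp : (0 : ℝ) ≤ n := Nat.cast_nonneg _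
  have hNn : (n : ℝ) ≤ ((12 * n + t : ℕ) : ℝ) := by push_cast; linarith [Nat.cast_nonneg (α := ℝ) t]
  have hε0 : 0 ≤ ε * |(z : ℝ) - (Y + r * t)| := by positivity
  by_cases hcase : |(z : ℝ) - (Y + r * t)| ≤ l
  · exact CI_mono (by linarith) (hcore t ht z hcase)
  push Not at hcase
  -- the end of the core next to `z`
  have key : ∀ c : ℤ, |(c : ℝ) - (Y + r * t)| ≤ l → |(z : ℝ) - c| ≤ |(z : ℝ) - (Y + r * t)| →
      z ∈ CI μ s (12 * n + t) (E + ε * |(z : ℝ) - (Y + r * t)|) := by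
    intro c hc hzc
    have h1 := hcore t ht c hc
    have h2 : e μ s (12 * n + t) c ≤ δ' * ((12 * n + t : ℕ) : ℝ) :=
      ((CI_e h1).trans hE).trans (mul_le_mul_of_nonneg_left hNn hδ.le)
    have h3 : |(z : ℝ) - c| ≤ η * ((12 * n + t : ℕ) : ℝ) :=
      (hzc.trans hz).trans (mul_le_mul_of_nonneg_left hNn hη.le)
    obtain ⟨h40, h41, h4⟩ := hs s hsA (12 * n + t) (by omega) c (CI_0 h1) (CI_n h1) h2 z h3
    have h6 := mul_le_mul_of_nonneg_left hzc hε.le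
    exact CI_mk h40 h41 (by linarith [CI_e h1])
  have f1 : ((⌊Y + r * t⌋ : ℤ) : ℝ) ≤ Y + r * t := Int.floor_le _
  have f2 : Y + r * t < (⌊Y + r * t⌋ : ℤ) + 1 := Int.lt_floor_add_one _
  rcases le_total (Y + r * t) z with hzY | hzY
  · rw [abs_of_nonneg (by linarith)] at hcase
    refine key (⌊Y + r * t⌋ + 1) ?_ ?_
    · push_cast
      rw [abs_le]
      constructor <;> linarith
    · push_cast
      rw [abs_of_nonneg (by linarith), abs_of_nonneg (by linarith)]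
      linarith
  · rw [abs_of_nonpos (by linarith)] at hcase
    refine key ⌊Y + r * t⌋ ?_ ?_
    · rw [abs_le]
      constructor <;> linarith
    · rw [abs_of_nonpos (by linarith), abs_of_nonpos (by linarith)]
      linarith

end

end Pool.Agent.W_7d29a1_H
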