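import Pool.Agent.W_7d29a1_H.CmpH14
import Pool.Agent.W_7d29a1_G.SecA3
import Pool.Agent.W_7d29a1_L.LsA1

/-!
MP_7d29a1_pr, TRACK H (all tilts), (SUB), first half: the exponential moment of the luck of `M` blocks at the unit of one block,
uniformly in the tilt. (helper35, after helper66's W_7d29a1_SR/SubH; cell kernels of W_7d29a1_G/SecA2, SecA3)
-/

set_option autoImplicit false

namespace Pool.Agent.W_7d29a1_H

open MeasureTheory ProbabilityTheory Filter Topology Set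
open Pool.Agent.W_7d29a1_F
open Pool.Agent.W_7d29a1_L (Mh T kap Bx mem_Bx exp_T T_sh Sub_T Mh_nonneg le_Mh Sub_Mh)
open Pool.Agent.W_7d29a1_G20 (Bk Gk Mom Bk_dom Gk_dom Gk_iter Gk_mom sum_Bk_le le_Gk Dom)
open Pool.Agent.W_7d29a1_h47 (EM Nondeg)

variable {μ : Measure ℝ} [IsProbabilityMeasure μ] {H δ a : ℝ} {A : Set ℝ}

omit [IsProbabilityMeasure μ] in
/-- A part of the end points, all of them at the distance at least `r` on one side. -/
private lemma sb_part35 {s v h r : ℝ} (η : Env) (p : Pt) (n : ℕ) (w : ℕ) (f : ℕ → ℤ) (hf : Function.Injective f)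
    (hr : ∀ l < w, h * r ≤ h * ((f l : ℝ) - v * n)) :
    ∑ l ∈ Finset.range w, W μ s η p n (f l) ≤ Real.exp (T μ s v h η p n - h * r) := by
  rw [Real.exp_sub, le_div_iff₀ (Real.exp_pos _), Finset.sum_mul, exp_T]
  have h1 : ∀ l ∈ Finset.range w, W μ s η p n (f l) * Real.exp (h * r) ≤
      W μ s η p n (f l) * Real.exp (h * ((f l : ℝ) - v * n)) := fun l hl =>
    mul_le_mul_of_nonneg_left (Real.exp_le_exp.2 (hr l (Finset.mem_range.1 hl))) (W_nonneg _ _ _ _)
  refine (Finset.sum_le_sum h1).trans ?_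
  have h2 : ∑ l ∈ Finset.range w, W μ s η p n (f l) * Real.exp (h * ((f l : ℝ) - v * n)) =
      ∑ y ∈ (Finset.range w).image f, W μ s η p n y * Real.exp (h * ((y : ℝ) - v * n)) := by
    rw [Finset.sum_image fun x _ y _ hxy => hf hxy]
  rw [h2]
  have h3 : ∑ y ∈ (Finset.range w).image f, W μ s η p n y * Real.exp (h * ((y : ℝ) - v * n)) =
      ∑ y ∈ ((Finset.range w).image f).filter (fun y : ℤ => 0 ≤ y ∧ y ≤ n),
        W μ s η p n y * Real.exp (h * ((y : ℝ) - v * n)) := by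
    rw [Finset.sum_filter_of_ne]
    intro y _ hy
    by_contra hcon
    exact hy (by rw [W_eq_zero η p hcon, zero_mul])
  rw [h3]
  refine Finset.sum_le_sum_of_subset_of_nonneg ?_ fun y _ _ => mul_nonneg (W_nonneg _ _ _ _) (Real.exp_nonneg _)
  intro y hy
  rw [Finset.mem_filter] at hy
  exact Finset.mem_Icc.2 hy.2

omit [IsProbabilityMeasure μ] in
/-- The luck is at most the maximum of the two tilted lucks. -/
private lemma sb_T035 {s v h : ℝ} (η : Env) (p : Pt) (n : ℕ) :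
    Real.exp (V μ s η p n) ≤ Real.exp (max (T μ s v h η p n) (T μ s v (-h) η p n)) := by
  have p1 : ∀ y : ℤ, W μ s η p n y ≤
      (W μ s η p n y * Real.exp (h * ((y : ℝ) - v * n)) +
        W μ s η p n y * Real.exp (-h * ((y : ℝ) - v * n))) / 2 := by
    intro y
    have q1 := Real.add_one_le_exp (h * ((y : ℝ) - v * n))
    have q2 := Real.add_one_le_exp (-h * ((y : ℝ) - v * n))
    have q3 := W_nonneg (μ := μ) (s := s) η p n y
    nlinarith
  have p2 : Real.exp (V μ s η p n) ≤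
      (Real.exp (T μ s v h η p n) + Real.exp (T μ s v (-h) η p n)) / 2 := by
    rw [exp_T, exp_T, exp_V, ← Finset.sum_add_distrib, Finset.sum_div]
    exact Finset.sum_le_sum fun y _ => p1 y
  have p3 := Real.exp_le_exp.2 (le_max_left (T μ s v h η p n) (T μ s v (-h) η p n))
  have p4 := Real.exp_le_exp.2 (le_max_right (T μ s v h η p n) (T μ s v (-h) η p n))
  linarith

omit [IsProbabilityMeasure μ] in
/-- The tilted luck of one block from the start `(0, i)`, `0 ≤ i < w`. -/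
private lemma sb_T35 {s v : ℝ} (hv0 : 0 ≤ v) (hv1 : v ≤ 1) {w : ℕ} {W' : ℝ} (hW : (w : ℝ) ≤ W') {n l : ℕ} (hl : l ≤ n) {i : ℕ}
    (hi : i < w) (η : Env) (h' : ℝ) : T μ s v h' η (0, (i : ℤ)) l ≤ Mh μ s v h' W' (-1) n η := by
  have hiR : (i : ℝ) + 1 ≤ w := by exact_mod_cast hi
  have hi0 : (0 : ℝ) ≤ i := Nat.cast_nonneg i
  refine le_Mh (μ := μ) (s := s) (v := v) (h := h') (w := W') (z := -1) (n := n) η
    (q := ((0, (i : ℤ)), l)) ((mem_Bx hv0 hv1).2 ⟨by dsimp only; omega, ?_, ?_⟩)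
  · push_cast
    linarith
  · push_cast
    linarith

omit [IsProbabilityMeasure μ] in
/-- One block: the kernel to the cell `k` against the two tilted lucks. -/
private lemma sb_Bk35 {s v : ℝ} (hv0 : 0 ≤ v) (hv1 : v ≤ 1) {h : ℝ} (hh : 0 ≤ h) {w : ℕ} (hw : 0 < w) {W' : ℝ}
    (hW : (w : ℝ) ≤ W') (n : ℕ) {D : ℤ} (hD1 : (D : ℝ) ≤ v * n) (hD2 : v * n - 1 ≤ D) (k : ℤ) (η : Env) :
    Bk μ s w n D k η ≤
      Real.exp (max (Mh μ s v h W' (-1) n η) (Mh μ s v (-h) W' (-1) n η) - h * (max (|(k : ℝ)| - 1) 0 * w)) := by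
  have : Nonempty (Fin w) := ⟨⟨0, hw⟩⟩
  refine ciSup_le fun i => ?_
  obtain ⟨i, hi⟩ := i
  have hiR : (i : ℝ) + 1 ≤ w := by exact_mod_cast hi
  have hi0 : (0 : ℝ) ≤ i := Nat.cast_nonneg i
  have hT : ∀ h' : ℝ, T μ s v h' η (0, (i : ℤ)) n ≤ Mh μ s v h' W' (-1) n η := fun h' =>
    sb_T35 hv0 hv1 hW le_rfl hi η h'
  have hinj : Function.Injective fun l : ℕ => D + k * w + (l : ℤ) - (i : ℕ) := by
    intro l l' hl
    simp only at hl
    omega
  have hM1 := le_max_left (Mh μ s v h W' (-1) n η) (Mh μ s v (-h) W' (-1) n η)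
  have hM2 := le_max_right (Mh μ s v h W' (-1) n η) (Mh μ s v (-h) W' (-1) n η)
  rcases lt_or_ge k 1 with hk | hk
  · rcases lt_or_ge k 0 with hk0 | hk0
    · -- to the left
      have hkR : (k : ℝ) ≤ -1 := by exact_mod_cast (by omega : k ≤ -1)
      have hab : max (|(k : ℝ)| - 1) 0 = -k - 1 := by
        rw [abs_of_nonpos (by linarith), max_eq_left (by linarith)]
      refine (sb_part35 (μ := μ) (s := s) (v := v) (h := -h) (r := -((-k - 1) * w)) η (0, (i : ℤ)) n w _ hinj ?_).trans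
        (Real.exp_le_exp.2 ?_)
      · intro l hl
        have hlR : (l : ℝ) + 1 ≤ w := by exact_mod_cast hl
        push_cast
        have h1 : (D : ℝ) + k * w + l - i - v * n ≤ -((-k - 1) * w) := by
          have : -((-(k : ℝ) - 1) * w) = k * w + w := by ring
          rw [this]
          linarith
        have := mul_le_mul_of_nonneg_left h1 hh
        linarith
      · rw [hab]
        have h1 := (hT (-h)).trans hM2
        have h2 : -h * -((-(k : ℝ) - 1) * w) = h * ((-(k : ℝ) - 1) * w) := by ring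
        linarith
    · -- the same cell
      have hk1 : k = 0 := by omega
      subst hk1
      have hab : max (|((0 : ℤ) : ℝ)| - 1) 0 = 0 := by
        rw [Int.cast_zero, abs_zero, max_eq_right (by norm_num)]
      rw [hab, zero_mul ((w : ℕ) : ℝ), mul_zero h, sub_zero]
      have h0 := sb_part35 (μ := μ) (s := s) (v := v) (h := 0) (r := 0) η (0, (i : ℤ)) n w _ hinj (fun l hl => by simp)
      refine h0.trans ?_
      have e0 : T μ s v 0 η (0, (i : ℤ)) n - 0 * 0 = V μ s η (0, (i : ℤ)) n := by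
        unfold T kap
        simp
      rw [e0]
      refine (sb_T035 (μ := μ) (s := s) (v := v) (h := h) η _ n).trans (Real.exp_le_exp.2 ?_)
      exact max_le ((hT h).trans hM1) ((hT (-h)).trans hM2)
  · -- to the right
    have hkR : (1 : ℝ) ≤ k := by exact_mod_cast hk
    have hab : max (|(k : ℝ)| - 1) 0 = k - 1 := by
      rw [abs_of_nonneg (by linarith), max_eq_left (by linarith)]
    refine (sb_part35 (μ := μ) (s := s) (v := v) (h := h) (r := (k - 1) * w) η (0, (i : ℤ)) n w _ hinj ?_).trans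
      (Real.exp_le_exp.2 ?_)
    · intro l hl
      have hl0 : (0 : ℝ) ≤ l := Nat.cast_nonneg l
      push_cast
      have h1 : ((k : ℝ) - 1) * w ≤ (D : ℝ) + k * w + l - i - v * n := by
        have : ((k : ℝ) - 1) * w = k * w - w := by ring
        rw [this]
        linarith
      exact mul_le_mul_of_nonneg_left h1 hh
    · rw [hab]
      have h1 := (hT h).trans hM1
      linarith

/-- Two tilts: the exponential of the maximum. -/
private lemma sb_max35 {θ x y : ℝ} (_ : 0 ≤ θ) : Real.exp (θ * max x y) ≤ Real.exp (θ * x) + Real.exp (θ * y) := by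
  rcases le_total x y with h3 | h3
  · rw [max_eq_right h3]
    linarith [Real.exp_pos (θ * x)]
  · rw [max_eq_left h3]
    linarith [Real.exp_pos (θ * y)]

/-- **The exponential moment of the luck of `M` blocks at the unit of one block**, uniformly in the tilt. -/
theorem block_exp35 (hD : Dirs μ H δ A) (ha : 0 < a) (hG : Grow μ A) (hL : LStarH a μ A) :
    ∃ c B : ℝ, 0 < c ∧ c ≤ 1 ∧ 1 ≤ B ∧ ∃ n₁ : ℕ, 1 ≤ n₁ ∧ ∀ s ∈ A, ∀ n, n₁ ≤ n → ∀ M l : ℕ, l ≤ M * n →
      ∫ η, Real.exp (c / EE μ s n * V μ s η 0 l) ∂(law μ) ≤ B ^ (M + 1) := by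
  obtain ⟨c0, C0, n0, hc0, hluck⟩ := hL 1
  obtain ⟨n2, hn2⟩ := hG (4 / (2 * a))
  obtain ⟨c, hc⟩ : ∃ c : ℝ, c = min c0 1 := ⟨_, rfl⟩
  obtain ⟨C, hC⟩ : ∃ C : ℝ, C = max C0 1 := ⟨_, rfl⟩
  have hcp : 0 < c := by rw [hc]; exact lt_min hc0 one_pos
  have hcc0 : c ≤ c0 := by rw [hc]; exact min_le_left _ _
  have hc1 : c ≤ 1 := by rw [hc]; exact min_le_right _ _
  have hCC0 : C0 ≤ C := by rw [hC]; exact le_max_left _ _
  have hC1 : 1 ≤ C := by rw [hC]; exact le_max_right _ _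
  obtain ⟨ρ, hρ⟩ : ∃ ρ : ℝ, ρ = Real.exp (-(c ^ 2 / 6)) := ⟨_, rfl⟩
  obtain ⟨C', hC'⟩ : ∃ C' : ℝ, C' = 2 * C * Real.exp (c ^ 2 / 2) := ⟨_, rfl⟩
  have hρ0 : 0 ≤ ρ := by rw [hρ]; exact Real.exp_nonneg _
  have hρ1 : ρ < 1 := by
    rw [hρ, Real.exp_lt_one_iff]
    have : 0 < c ^ 2 / 6 := by positivity
    linarith
  have hC'1 : 1 ≤ C' := by
    have h1 : 1 ≤ Real.exp (c ^ 2 / 2) := Real.one_le_exp (by positivity)
    rw [hC']
    nlinarith
  obtain ⟨B, hB⟩ : ∃ B : ℝ, B = max (C' * (2 / (1 - ρ))) (2 * C) := ⟨_, rfl⟩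
  have hB1 : 1 ≤ B := by
    have : 2 * C ≤ B := by rw [hB]; exact le_max_right _ _
    linarith
  refine ⟨c, B, hcp, hc1, hB1, max (max n0 n2) 1, le_max_right _ _, fun s hs n hn M l hl => ?_⟩
  have hn0 : n0 ≤ n := (le_max_left _ _).trans ((le_max_left _ _).trans hn)
  have hn2' : n2 ≤ n := (le_max_right _ _).trans ((le_max_left _ _).trans hn)
  have hn1 : 1 ≤ n := (le_max_right _ _).trans hn
  have hnR : (0 : ℝ) < n := by exact_mod_cast hn1
  have hE1 : 1 ≤ EE μ s n := one_le_EE n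
  have hE0 : 0 < EE μ s n := by linarith
  -- the width
  have hw4 : 4 ≤ wH a μ s n := by
    have h1 := wH_ge14 hD ha hs hn1
    have h2 := hn2 s hs n hn2'
    rw [div_le_iff₀ (by positivity)] at h2
    linarith
  have hw0 : 0 < wH a μ s n := by linarith
  obtain ⟨W', hW'⟩ : ∃ W' : ℝ, W' = wH a μ s n := ⟨_, rfl⟩
  rw [← hW'] at hw4 hw0
  obtain ⟨w, hwd⟩ : ∃ w : ℕ, w = ⌊W'⌋₊ := ⟨_, rfl⟩
  have hw1 : (w : ℝ) ≤ W' := by rw [hwd]; exact Nat.floor_le hw0.le
  have hw2 : W' < w + 1 := by rw [hwd]; exact Nat.lt_floor_add_one _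
  have hw3 : W' / 2 ≤ w := by linarith
  have hwp : 0 < w := by
    have : (0 : ℝ) < w := by linarith
    exact_mod_cast this
  -- the slope
  obtain ⟨v, hv⟩ : ∃ v : ℝ, v = sl μ s := ⟨_, rfl⟩
  have hv0 : 0 ≤ v := by rw [hv]; exact (sl_mem hD.em hD.nd s).1.le
  have hv1 : v ≤ 1 := by rw [hv]; exact (sl_mem hD.em hD.nd s).2.le
  obtain ⟨D, hDd⟩ : ∃ D : ℤ, D = ⌊v * n⌋ := ⟨_, rfl⟩
  have hD1 : (D : ℝ) ≤ v * n := by rw [hDd]; exact Int.floor_le _
  have hD2 : v * n - 1 ≤ D := by rw [hDd]; exact (Int.sub_one_lt_floor _).le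
  have hD0 : 0 ≤ D := by rw [hDd]; exact Int.floor_nonneg.2 (by positivity)
  have hDn : D ≤ n := by
    have h1 : (D : ℝ) ≤ n := hD1.trans (by nlinarith)
    exact_mod_cast h1
  -- the tilts
  obtain ⟨t, htd⟩ : ∃ t : ℝ, t = c * EE μ s n / W' := ⟨_, rfl⟩
  have ht0 : 0 ≤ t := by rw [htd]; positivity
  have htw : t * W' = c * EE μ s n := by rw [htd]; field_simp
  have hcE : c * EE μ s n ≤ c0 * EE μ s n := mul_le_mul_of_nonneg_right hcc0 hE0.le
  have habs1 : |t| * wH a μ s n ≤ c0 * EE μ s n := by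
    rw [← hW', abs_of_nonneg ht0, htw]
    exact hcE
  have habs2 : |(-t)| * wH a μ s n ≤ c0 * EE μ s n := by rw [abs_neg]; exact habs1
  obtain ⟨θ, hθd⟩ : ∃ θ : ℝ, θ = c / EE μ s n := ⟨_, rfl⟩
  have hθ0 : 0 < θ := by rw [hθd]; positivity
  have hθ1 : θ ≤ 1 := by
    rw [hθd, div_le_one hE0]
    linarith
  have hθE : θ * EE μ s n = c := by rw [hθd]; field_simp
  rw [← hθd]
  obtain ⟨M1, hM1⟩ : ∃ M1 : Env → ℝ, M1 = fun η => Mh μ s v t W' (-1) n η := ⟨_, rfl⟩
  obtain ⟨M2, hM2⟩ : ∃ M2 : Env → ℝ, M2 = fun η => Mh μ s v (-t) W' (-1) n η := ⟨_, rfl⟩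
  have hS1 : Sub M1 := by rw [hM1]; exact Sub_Mh
  have hS2 : Sub M2 := by rw [hM2]; exact Sub_Mh
  have hI1 : Integrable (fun η => Real.exp (θ * M1 η)) (law μ) := (hS1.const_mul θ).exp_int hD.em
  have hI2 : Integrable (fun η => Real.exp (θ * M2 η)) (law μ) := (hS2.const_mul θ).exp_int hD.em
  have hB' : ∀ (t' : ℝ) (N : Env → ℝ), N = (fun η => Mh μ s v t' W' (-1) n η) → |t'| * wH a μ s n ≤ c0 * EE μ s n →
      ∫ η, Real.exp (θ * N η) ∂(law μ) ≤ C := by
    intro t' N hN ht'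
    have h1 := hluck s hs n hn0 t' (-1) ht'
    rw [one_mul, ← hv, ← hW'] at h1
    refine le_trans ?_ (h1.trans hCC0)
    have hSN : Sub N := by rw [hN]; exact Sub_Mh
    refine integral_mono ((hSN.const_mul θ).exp_int hD.em) ?_ fun η => ?_
    · have := (hSN.const_mul (c0 / EE μ s n)).exp_int hD.em
      rwa [hN] at this
    · simp only [hN]
      refine Real.exp_le_exp.2 (mul_le_mul_of_nonneg_right ?_ (Mh_nonneg η))
      rw [hθd]
      exact div_le_div_of_nonneg_right hcc0 hE0.le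
  have hB1' := hB' t M1 hM1 habs1
  have hB2' := hB' (-t) M2 hM2 habs2
  -- the moment of one block
  have hMom : Mom μ s θ w n D C' ρ := by
    intro k
    obtain ⟨r, hr⟩ : ∃ r : ℝ, r = max (|(k : ℝ)| - 1) 0 := ⟨_, rfl⟩
    have hr0 : 0 ≤ r := by rw [hr]; exact le_max_right _ _
    have hpt : ∀ η, Bk μ s w n D k η ^ θ ≤ Real.exp (-(θ * (t * (r * w)))) * (Real.exp (θ * M1 η) + Real.exp (θ * M2 η)) := by
      intro η
      have h1 := sb_Bk35 (μ := μ) (s := s) hv0 hv1 ht0 hwp hw1 n hD1 hD2 k η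
      have h2 := Real.rpow_le_rpow ((Bk_dom (μ := μ) (s := s) hwp n D k).nonneg η) h1 hθ0.le
      refine h2.trans ?_
      rw [← Real.exp_mul, ← hr]
      have e1 : (max (Mh μ s v t W' (-1) n η) (Mh μ s v (-t) W' (-1) n η) -
          t * (r * w)) * θ = -(θ * (t * (r * w))) + θ * max (M1 η) (M2 η) := by
        rw [hM1, hM2]
        ring
      rw [e1, Real.exp_add]
      exact mul_le_mul_of_nonneg_left (sb_max35 hθ0.le) (Real.exp_nonneg _)
    have hint : ∫ η, Bk μ s w n D k η ^ θ ∂(law μ) ≤ Real.exp (-(θ * (t * (r * w)))) * (C + C) := by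
      calc ∫ η, Bk μ s w n D k η ^ θ ∂(law μ)
          ≤ ∫ η, Real.exp (-(θ * (t * (r * w)))) * (Real.exp (θ * M1 η) + Real.exp (θ * M2 η)) ∂(law μ) :=
            integral_mono ((Bk_dom (μ := μ) (s := s) hwp n D k).rpow_int hD.em hθ0.le)
              ((hI1.add hI2).const_mul _) hpt
        _ = Real.exp (-(θ * (t * (r * w)))) * ((∫ η, Real.exp (θ * M1 η) ∂(law μ)) + ∫ η, Real.exp (θ * M2 η) ∂(law μ)) := by
            rw [integral_const_mul, integral_add hI1 hI2]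
        _ ≤ _ := mul_le_mul_of_nonneg_left (add_le_add hB1' hB2') (Real.exp_nonneg _)
    refine hint.trans ?_
    -- the exponent
    have h1 : c ^ 2 / 2 ≤ θ * (t * w) := by
      have h2 : c * EE μ s n / 2 ≤ t * w := by
        have := mul_le_mul_of_nonneg_left hw3 ht0
        have h3 : t * (W' / 2) = t * W' / 2 := by ring
        rw [h3, htw] at this
        exact this
      have h4 := mul_le_mul_of_nonneg_left h2 hθ0.le
      refine le_trans (le_of_eq ?_) h4
      calc c ^ 2 / 2 = (θ * EE μ s n) * c / 2 := by rw [hθE]; ring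
        _ = θ * (c * EE μ s n / 2) := by ring
    have h5 : c ^ 2 / 2 * r ≤ θ * (t * (r * w)) := by
      have := mul_le_mul_of_nonneg_right h1 hr0
      have h6 : θ * (t * w) * r = θ * (t * (r * w)) := by ring
      linarith
    have h6 : |(k : ℝ)| - 1 ≤ r := by rw [hr]; exact le_max_left _ _
    have h7 : Real.exp (-(θ * (t * (r * w)))) ≤ Real.exp (c ^ 2 / 2) * ρ ^ (3 * k.natAbs) := by
      rw [hρ, ← Real.exp_nat_mul, ← Real.exp_add]
      refine Real.exp_le_exp.2 ?_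
      have hk : ((k.natAbs : ℕ) : ℝ) = |(k : ℝ)| := by
        rw [← Int.cast_natCast, Int.natCast_natAbs, Int.cast_abs]
      push_cast
      rw [hk]
      have h8 : c ^ 2 / 2 * (|(k : ℝ)| - 1) ≤ c ^ 2 / 2 * r := mul_le_mul_of_nonneg_left h6 (by positivity)
      have h9 : 3 * |(k : ℝ)| * -(c ^ 2 / 6) = -(c ^ 2 / 2 * |(k : ℝ)|) := by ring
      rw [h9]
      linarith
    calc Real.exp (-(θ * (t * (r * w)))) * (C + C)
        ≤ (Real.exp (c ^ 2 / 2) * ρ ^ (3 * k.natAbs)) * (C + C) :=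
          mul_le_mul_of_nonneg_right h7 (by linarith)
      _ = C' * ρ ^ (3 * k.natAbs) := by rw [hC']; ring
  -- short durations
  have hbase : ∀ l' : ℕ, l' ≤ n → ∫ η, Gk μ s w l' η ^ θ ∂(law μ) ≤ B := by
    intro l' hl'
    have hpt : ∀ η, Gk μ s w l' η ^ θ ≤ Real.exp (θ * M1 η) + Real.exp (θ * M2 η) := by
      intro η
      have h1 : Gk μ s w l' η ≤ Real.exp (max (M1 η) (M2 η)) := by
        have : Nonempty (Fin w) := ⟨⟨0, hwp⟩⟩
        refine ciSup_le fun i => ?_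
        obtain ⟨i, hi⟩ := i
        refine (sb_T035 (μ := μ) (s := s) (v := v) (h := t) η _ l').trans (Real.exp_le_exp.2 ?_)
        rw [hM1, hM2]
        exact max_le_max (sb_T35 hv0 hv1 hw1 hl' hi η t) (sb_T35 hv0 hv1 hw1 hl' hi η (-t))
      have h2 := Real.rpow_le_rpow ((Gk_dom (μ := μ) (s := s) hwp l').nonneg η) h1 hθ0.le
      refine h2.trans ?_
      rw [← Real.exp_mul, mul_comm]
      exact sb_max35 hθ0.le
    calc ∫ η, Gk μ s w l' η ^ θ ∂(law μ) ≤ ∫ η, (Real.exp (θ * M1 η) + Real.exp (θ * M2 η)) ∂(law μ) :=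
          integral_mono ((Gk_dom (μ := μ) (s := s) hwp l').rpow_int hD.em hθ0.le) (hI1.add hI2) hpt
      _ = (∫ η, Real.exp (θ * M1 η) ∂(law μ)) + ∫ η, Real.exp (θ * M2 η) ∂(law μ) := integral_add hI1 hI2
      _ ≤ 2 * C := by linarith
      _ ≤ B := by rw [hB]; exact le_max_right _ _
  have hKB : C' * (2 / (1 - ρ)) ≤ B := by rw [hB]; exact le_max_left _ _
  -- blocks
  have hiter : ∀ (M : ℕ) (l' : ℕ), l' ≤ n → ∫ η, Gk μ s w (M * n + l') η ^ θ ∂(law μ) ≤ B ^ (M + 1) := by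
    intro M
    induction M with
    | zero =>
      intro l' hl'
      rw [Nat.zero_mul, Nat.zero_add, Nat.zero_add, pow_one]
      exact hbase l' hl'
    | succ M ih =>
      intro l' hl'
      have e1 : (M + 1) * n + l' = n + (M * n + l') := by ring
      have hL0 : (0 : ℤ) ≤ n := by positivity
      have hw1' : (1 : ℤ) ≤ w := by exact_mod_cast hwp
      have hJ1 : D ≤ (n : ℕ) * w := by nlinarith
      have hJ2 : ((n : ℕ) : ℤ) ≤ D + (n : ℕ) * w := by nlinarith
      rw [e1]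
      refine (Gk_mom (s := s) hD.em hθ0 hθ1 hwp n (M * n + l') D n hJ1 hJ2).trans ?_
      rw [pow_succ, mul_comm (B ^ (M + 1))]
      exact mul_le_mul ((sum_Bk_le hD.em hC'1 hρ0 hρ1 hMom n).trans hKB) (ih l' hl')
        (integral_nonneg fun η => Real.rpow_nonneg ((Gk_dom (μ := μ) hwp _).nonneg η) _) (by linarith)
  -- the duration `l`
  have hfin : ∫ η, Gk μ s w l η ^ θ ∂(law μ) ≤ B ^ (M + 1) := by
    have h1 := hiter (l / n) (l % n) (Nat.mod_lt l (by omega)).le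
    have h2 : l / n * n + l % n = l := by
      rw [mul_comm]
      exact Nat.div_add_mod l n
    rw [h2] at h1
    refine h1.trans (pow_le_pow_right₀ hB1 ?_)
    have h3 : l / n ≤ M := Nat.div_le_of_le_mul (by rw [mul_comm]; exact hl)
    omega
  refine le_trans ?_ hfin
  refine integral_mono (((Sub_V (μ := μ) (s := s) 0 l).const_mul _).exp_int hD.em)
    ((Gk_dom (μ := μ) (s := s) hwp l).rpow_int hD.em hθ0.le) fun η => ?_
  have h1 := le_Gk (μ := μ) (s := s) l η 0 hwp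
  have h2 := Real.rpow_le_rpow (Real.exp_nonneg _) h1 hθ0.le
  refine le_trans (le_of_eq ?_) h2
  rw [← Real.exp_mul, mul_comm]
  rfl

end Pool.Agent.W_7d29a1_H
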