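import Pool.Agent.W_7d29a1_H.TFaH28
import Pool.Agent.W_7d29a1_H.EdOutH16
import Pool.Agent.W_7d29a1_H.EdOutH28

/-!
MP_7d29a1_pr, TRACK H (all tilts), section TUBES: the numbers of a flat window, the means at the lines of the two edges and outside of
them (first half of `W_1b8d5d_p28/TF` at positive temperature). (helper28)
-/

set_option autoImplicit false

namespace Pool.Agent.W_7d29a1_H

open MeasureTheory ProbabilityTheory Filter Topology Set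
open Pool.Agent.W_7d29a1_F Pool.Agent.W_7d29a1_h4g
open Pool.Agent.W_1b8d5d_p (wR wL Rf)
open Pool.Agent.W_7d29a1_h47 (EM Nondeg)

noncomputable section

variable {μ : Measure ℝ} [IsProbabilityMeasure μ] {H δ a A0 A1 θ c0 : ℝ} {A : Set ℝ} {s : ℝ}

/-- (IN) for one tilt: the means inside of both edges. -/
def In28 (μ : Measure ℝ) (s : ℝ) (a A0 A1 c0 Ci c1 : ℝ) (n0 : ℕ) : Prop :=
  ∀ N : ℕ, n0 ≤ N → ∀ w S : ℕ, 1 ≤ w → 1 ≤ S → 2 * S + 1 ≤ N →
    (∀ sg : ℝ, sg = 1 ∨ sg = -1 → N * (vs A1 μ s sg N - vs A0 μ s sg N) ≤ w) →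
    2 * ((w : ℝ) + 2) ≤ c0 * (S * vA a μ s N) → S * vA a μ s N ≤ (6 / c0 + 1) * w → vA a μ s S ≤ 8 * vA a μ s N →
    ∀ y : ℤ, -(N * vl A1 μ s N) + Ci * w ≤ y - sl μ s * N → y - sl μ s * N ≤ N * vr A1 μ s N - Ci * w →
      e μ s N y ≤ c1 * EE μ s N

/-- The numbers of a window: `n = 2 ^ x`, `N = 2 ^ (x + h)`; `V` is the width, `w` the cell width, `e0` the inset of the slopes,
`D'` the half width of the tubes. -/
structure Nm28 (c0 Ci Kw V D' e0 n N : ℝ) (w : ℕ) : Prop where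
  V0 : 0 < V
  n1 : 4 ≤ n
  D0 : 0 < D'
  wl : D' ≤ Kw * w
  wu : Kw * w ≤ 2 * D'
  w1 : 1 ≤ w
  e : e0 * N = 4 * (Ci * w + 1)
  e0p : 0 < e0
  eV : 8 * e0 ≤ V
  room : 2 * ((w : ℝ) + 2) + c0 ≤ c0 * (n * V)
  S : (6 / c0 + 1) * w ≤ n / 4 * V

theorem nums28 {c0 Ci Kw V D D' v n N : ℝ} (hc0 : 0 < c0) (hCi : 0 ≤ Ci) (hK1 : 256 * Ci ≤ Kw) (hK2 : 16 / c0 ≤ Kw)
    (hK3 : 16 * (6 / c0 + 1) ≤ Kw) (hV : 0 < V) (hn : 4 ≤ n) (hnN : n ≤ N) (hD1 : D ≤ 1) (hv : 0 < v)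
    (hvV : v ≤ 2 * V) (hD' : D' = D * (v * n)) (hDK : Kw ≤ D') (hnV1 : 64 ≤ n * V) (hnV2 : 8 / c0 + 2 ≤ n * V)
    {w : ℕ} (hw : w = ⌈D' / Kw⌉₊) {e0 : ℝ} (he : e0 = 4 * (Ci * w + 1) / N) : Nm28 c0 Ci Kw V D' e0 n N w := by
  have hK : 0 < Kw := lt_of_lt_of_le (by positivity) hK2
  have hn0 : 0 < n := by linarith
  have hN0 : 0 < N := by linarith
  have hD'0 : 0 < D' := by linarith
  have hw1 : D' / Kw ≤ w := by
    rw [hw]
    exact Nat.le_ceil _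
  have hw2 : (w : ℝ) < D' / Kw + 1 := by
    rw [hw]
    exact Nat.ceil_lt_add_one (by positivity)
  have hq : 0 < D' / Kw := by positivity
  have hw1' : D' ≤ Kw * w := by
    rw [div_le_iff₀ hK] at hw1
    linarith
  have hw2' : Kw * w ≤ 2 * D' := by
    have h1 : Kw * w ≤ Kw * (D' / Kw + 1) := mul_le_mul_of_nonneg_left hw2.le hK.le
    have e1 : Kw * (D' / Kw + 1) = D' + Kw := by field_simp
    linarith
  have hw0 : (0 : ℝ) < w := lt_of_lt_of_le hq hw1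
  have hnV : 0 < n * V := by positivity
  -- `D' ≤ 2 n V`
  have hD2 : D' ≤ 2 * (n * V) := by
    have h1 : D * (v * n) ≤ 1 * (v * n) := mul_le_mul_of_nonneg_right hD1 (by positivity)
    have h2 : v * n ≤ 2 * V * n := mul_le_mul_of_nonneg_right hvV hn0.le
    rw [hD']
    linarith
  have hwV : Kw * w ≤ 4 * (n * V) := by linarith
  have hwV2 : ∀ r : ℝ, 0 ≤ r → r ≤ Kw → r * w ≤ 4 * (n * V) := fun r hr hr2 =>
    (mul_le_mul_of_nonneg_right hr2 hw0.le).trans hwV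
  have hC := hwV2 (256 * Ci) (by positivity) hK1
  have h16 := hwV2 (16 / c0) (by positivity) hK2
  have hS := hwV2 (16 * (6 / c0 + 1)) (by positivity) hK3
  have heN : e0 * N = 4 * (Ci * w + 1) := by
    rw [he]
    field_simp
  have he0 : 0 < e0 := by
    rw [he]
    positivity
  refine ⟨hV, hn, hD'0, hw1', hw2', ?_, heN, he0, ?_, ?_, ?_⟩
  · have : (0 : ℝ) < w := hw0
    exact_mod_cast this
  · have h1 : 8 * e0 * n ≤ V * n := by
      have h2 : e0 * n ≤ e0 * N := mul_le_mul_of_nonneg_left hnN he0.le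
      nlinarith
    exact le_of_mul_le_mul_right h1 hn0
  · have h1 : 16 * (w : ℝ) ≤ c0 * (4 * (n * V)) := by
      have h2 := mul_le_mul_of_nonneg_left h16 hc0.le
      have e1 : c0 * (16 / c0 * w) = 16 * w := by field_simp
      linarith
    have h3 : 8 + 2 * c0 ≤ c0 * (n * V) := by
      have h2 := mul_le_mul_of_nonneg_left hnV2 hc0.le
      have e1 : c0 * (8 / c0 + 2) = 8 + 2 * c0 := by field_simp
      linarith
    linarith
  · linarith

/-- The tube slopes of a window. -/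
theorem cheap_in28 (hD : Dirs μ H δ A) (hd : s ∈ A) (hA : 0 < a) (hc0 : 0 < c0) {Ci c1 : ℝ} {nI : ℕ}
    (hin : In28 μ s a A0 A1 c0 Ci c1 nI) {Kw V D' e0 : ℝ} {w x h L m : ℕ} {y : ℝ}
    (hN : Nm28 c0 Ci Kw V D' e0 (2 ^ x) (2 ^ (x + h)) w) (hV : V = vA a μ s (2 ^ (x + L)))
    (hm4 : 2 ^ (x + h) ≤ 4 * m) (hxm : 2 ^ x ≤ m) (hmI : nI ≤ m) (hm1 : vA a μ s m ≤ 1)
    (hVm : V ≤ vA a μ s m) (hVm2 : vA a μ s m ≤ 2 * V) (hV2 : vA a μ s (2 ^ x) ≤ (1 + y) * V) (hy1 : y ≤ 1)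
    (hyD : y * (c0 * Kw * (2 ^ x * V)) ≤ D')
    (hs : gg μ s (x + L) ≤ gg μ s x + θ * L) (hL : θ * L + 1 ≤ L)
    (hsg : ∀ sg : ℝ, sg = 1 ∨ sg = -1 → vs a μ s sg (2 ^ (x + L)) ≤ vs A0 μ s sg m ∧ vs A0 μ s sg m ≤ vs A1 μ s sg m ∧
      m * (vs A1 μ s sg m - vs a μ s sg (2 ^ (x + L))) ≤ w)
    {sg : ℝ} (hsg0 : sg = 1 ∨ sg = -1) {r : ℝ} (hr0 : 0 ≤ r) (hr : 4 * r ≤ V * m) {z : ℤ}
    (hz : |(z : ℝ) - ((sl μ s + sg * (vs a μ s sg (2 ^ (x + L)) - e0)) * m - sg * r)| ≤ 1) : e μ s m z ≤ c1 * EE μ s m := by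
  have hm : 1 ≤ m := Nat.one_le_two_pow.trans hxm
  have hm0 : (0 : ℝ) < m := by exact_mod_cast hm
  have hxm' : (2 : ℝ) ^ x ≤ m := by exact_mod_cast hxm
  have hx0 : (0 : ℝ) < 2 ^ x := by positivity
  have hV0 := hN.V0
  have hw1 : (1 : ℝ) ≤ w := by exact_mod_cast hN.w1
  have hv0 : 0 < vA a μ s m := hV0.trans_le hVm
  -- the connections
  obtain ⟨S, hS1, hSm, hSr, hSr'⟩ := exists_S16 hD hA hd hc0 hm hN.w1 hm1 (by
    unfold wH
    have h1 := hN.room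
    have h2 : 2 ^ x * V ≤ m * vA a μ s m := mul_le_mul hxm' hVm hV0.le hm0.le
    have h3 : c0 * (2 ^ x * V) ≤ c0 * (m * vA a μ s m) := mul_le_mul_of_nonneg_left h2 hc0.le
    have h4 : c0 * vA a μ s m ≤ c0 * 1 := mul_le_mul_of_nonneg_left hm1 hc0.le
    linarith)
  have hS0 : (0 : ℝ) < S := by exact_mod_cast hS1
  have hS4 : (S : ℝ) ≤ 2 ^ x / 4 := by
    have h1 : (S : ℝ) * V ≤ S * vA a μ s m := mul_le_mul_of_nonneg_left hVm hS0.le
    have h2 := hN.S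
    exact le_of_mul_le_mul_right (h1.trans (hSr'.trans h2)) hV0
  have hSx : S ≤ 2 ^ x := by
    have h1 : (S : ℝ) ≤ 2 ^ x := by linarith
    exact_mod_cast h1
  have h2S : 2 * S + 1 ≤ m := by
    have h1 : (2 : ℝ) * S + 1 ≤ m := by
      have := hN.n1
      linarith
    exact_mod_cast h1
  have hSy : y * 2 ^ x ≤ S := by
    have h1 : 2 * (w : ℝ) ≤ c0 * (S * (2 * V)) := by
      have h3 : c0 * (S * vA a μ s m) ≤ c0 * (S * (2 * V)) :=
        mul_le_mul_of_nonneg_left (mul_le_mul_of_nonneg_left hVm2 hS0.le) hc0.le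
      linarith
    have hK : 0 < Kw := by
      have h3 := hN.wl
      have h4 := hN.D0
      by_contra hcon
      rw [not_lt] at hcon
      nlinarith
    have h2 : D' ≤ Kw * (c0 * (S * V)) := by
      have h3 : Kw * w ≤ Kw * (c0 * (S * V)) := mul_le_mul_of_nonneg_left (by linarith) hK.le
      linarith [hN.wl]
    have h3 : (y * 2 ^ x) * (c0 * Kw * V) ≤ S * (c0 * Kw * V) := by
      calc (y * 2 ^ x) * (c0 * Kw * V) = y * (c0 * Kw * (2 ^ x * V)) := by ring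
        _ ≤ D' := hyD
        _ ≤ Kw * (c0 * (S * V)) := h2
        _ = _ := by ring
    exact le_of_mul_le_mul_right h3 (by positivity)
  have hvS : vA a μ s S ≤ 8 * vA a μ s m := by
    have h1 := below28 hD hd hA hs hL hS1 hSx
    rw [← hV] at h1
    have h2 : vA a μ s (2 ^ x) - V ≤ y * V := by linarith
    have h3 : (vA a μ s (2 ^ x) - V) * (2 ^ x / S) ≤ V := by
      calc (vA a μ s (2 ^ x) - V) * (2 ^ x / S) ≤ (y * V) * (2 ^ x / S) :=
            mul_le_mul_of_nonneg_right h2 (by positivity)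
        _ = V * (y * 2 ^ x / S) := by ring
        _ ≤ V * 1 := by
            refine mul_le_mul_of_nonneg_left ?_ hV0.le
            rw [div_le_one hS0]
            exact hSy
        _ = V := mul_one V
    have h4 : (1 + y) * V ≤ 2 * V := mul_le_mul_of_nonneg_right (by linarith) hV0.le
    linarith
  -- the line
  have hp := hsg 1 (Or.inl rfl)
  have hm' := hsg (-1) (Or.inr rfl)
  have hVs : V = vs a μ s 1 (2 ^ (x + L)) + vs a μ s (-1) (2 ^ (x + L)) := by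
    rw [hV]
    exact vA_vs28 a μ s _
  have heN : Ci * w + 1 ≤ e0 * m := by
    have h1 := hN.e
    have h2 : (2 : ℝ) ^ (x + h) ≤ 4 * m := by exact_mod_cast hm4
    have h3 : e0 * 2 ^ (x + h) ≤ e0 * (4 * m) := mul_le_mul_of_nonneg_left h2 hN.e0p.le
    linarith
  have hVm0 : 8 * (e0 * m) ≤ V * m := by
    have h1 := mul_le_mul_of_nonneg_right hN.eV hm0.le
    linarith
  obtain ⟨tp, htp⟩ : ∃ tp, tp = vs a μ s 1 (2 ^ (x + L)) := ⟨_, rfl⟩
  obtain ⟨tm, htm⟩ : ∃ tm, tm = vs a μ s (-1) (2 ^ (x + L)) := ⟨_, rfl⟩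
  rw [← htp] at hp
  rw [← htm] at hm'
  rw [← htp, ← htm] at hVs
  have ha : m * tp ≤ m * vr A1 μ s m := by
    rw [← vs_one]
    exact mul_le_mul_of_nonneg_left (hp.1.trans hp.2.1) hm0.le
  have hb : m * tm ≤ m * vl A1 μ s m := by
    rw [← vs_neg]
    exact mul_le_mul_of_nonneg_left (hm'.1.trans hm'.2.1) hm0.le
  have hVs' : V * m = m * tp + m * tm := by
    rw [hVs]
    ring
  rw [abs_le] at hz
  have key : -(m * vl A1 μ s m) + Ci * w ≤ z - sl μ s * m ∧ z - sl μ s * m ≤ m * vr A1 μ s m - Ci * w := by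
    rcases hsg0 with rfl | rfl
    · rw [← htp] at hz
      have e1 : (z : ℝ) - ((sl μ s + 1 * (tp - e0)) * m - 1 * r) = z - sl μ s * m - m * tp + e0 * m + r := by ring
      rw [e1] at hz
      constructor <;> linarith [hz.1, hz.2]
    · rw [← htm] at hz
      have e1 : (z : ℝ) - ((sl μ s + -1 * (tm - e0)) * m - -1 * r) = z - sl μ s * m + m * tm - e0 * m - r := by ring
      rw [e1] at hz
      constructor <;> linarith [hz.1, hz.2]
  refine hin m hmI w S hN.w1 hS1 h2S ?_ hSr hSr' hvS z key.1 key.2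
  intro sg hsg1
  have h1 := hsg sg hsg1
  have h2 : (m : ℝ) * (vs A1 μ s sg m - vs A0 μ s sg m) ≤ m * (vs A1 μ s sg m - vs a μ s sg (2 ^ (x + L))) :=
    mul_le_mul_of_nonneg_left (by linarith) hm0.le
  linarith

/-- The price outside of the tube. -/
theorem dear_out28 (hD : Dirs μ H δ A) (hd : s ∈ A) (hA0 : 0 ≤ A0) (hA1 : A0 < A1) {Ci Kw V D' e0 C R : ℝ} {w x h M : ℕ}
    {n : ℝ} (hN : Nm28 c0 Ci Kw V D' e0 n (2 ^ (x + h)) w) (hK0 : 16 ≤ Kw) (hK1 : 64 * (R * Ci) ≤ Kw) (hR : 1 ≤ R)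
    (hC : 4 * C < (A1 - A0) * Kw) (hDR : 24 + 32 * R ≤ D') (hM : (M : ℝ) ≤ R * 2 ^ (x + h)) (hM1 : 1 ≤ M) {sg t : ℝ}
    (hsg : sg = 1 ∨ sg = -1) (ht : M * (vs A1 μ s sg M - t) ≤ w) (hw : M * (vs A1 μ s sg M - vs A0 μ s sg M) ≤ w) {z : ℤ}
    (hz0 : 0 ≤ z) (hz1 : z ≤ M) (hz : |(z : ℝ) - ((sl μ s + sg * (t - e0)) * M + sg * D')| ≤ 3) : C * EE μ s M < e μ s M z := by
  have hM0 : (0 : ℝ) < M := by exact_mod_cast hM1
  have hw1 : (1 : ℝ) ≤ w := by exact_mod_cast hN.w1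
  have hE := EE_pos (μ := μ) (s := s) M
  have hK : 0 < Kw := by linarith
  have hsg2 : sg * sg = 1 := by rcases hsg with rfl | rfl <;> norm_num
  have h1 : -3 ≤ sg * ((z : ℝ) - ((sl μ s + sg * (t - e0)) * M + sg * D')) := by
    rw [abs_le] at hz
    rcases hsg with rfl | rfl
    · linarith [hz.1]
    · linarith [hz.2]
  have e1 : sg * ((z : ℝ) - ((sl μ s + sg * (t - e0)) * M + sg * D')) =
      sg * (z - (sl μ s + sg * vs A1 μ s sg M) * M) + (sg * sg) * (M * (vs A1 μ s sg M - t)) + (sg * sg) * (e0 * M) -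
        (sg * sg) * D' := by ring
  rw [e1, hsg2] at h1
  have h2 : e0 * M ≤ R * (4 * (Ci * w + 1)) := by
    rw [← hN.e]
    calc e0 * M ≤ e0 * (R * 2 ^ (x + h)) := mul_le_mul_of_nonneg_left hM hN.e0p.le
      _ = _ := by ring
  have h3 : 16 * (w : ℝ) ≤ 2 * D' := (mul_le_mul_of_nonneg_right hK0 (by linarith)).trans hN.wu
  have h4 : 64 * (R * Ci) * w ≤ 2 * D' := (mul_le_mul_of_nonneg_right hK1 (by linarith)).trans hN.wu
  have h5 : D' / 2 ≤ sg * (z - (sl μ s + sg * vs A1 μ s sg M) * M) := by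
    linarith
  have h6 := ed_out28' (w := (w : ℝ)) hD hd hsg hA0 hA1 hM1 le_rfl (ρ := Kw / 4) (by linarith) (c := 1) (c2 := 1) zero_le_one zero_le_one
    (by rw [one_mul]; exact hw) z hz0 hz1 (by
      have := hN.wu
      linarith)
  have h7 : (A1 - A0) * (Kw / 4) ≤ e μ s M z / EE μ s M := by
    calc (A1 - A0) * (Kw / 4) = 1 * (A1 - A0) * 1 * (Kw / 4) := by ring
      _ ≤ 1 / EE μ s M * e μ s M z := h6
      _ = _ := by ring
  have h8 : C < e μ s M z / EE μ s M := by linarith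
  rwa [lt_div_iff₀ hE] at h8


end

end Pool.Agent.W_7d29a1_H
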