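import Pool.Agent.W_7d29a1_H.SprH

/-!
MP_7d29a1_pr, TRACK H (all tilts). Travellers from one far point to a whole box of lateral size `R0 n` (TRAV* for the frame),
references, cheap intervals as intervals of integers. Model: `W_1b8d5d_p.UnitT`.
-/

set_option autoImplicit false

namespace Pool.Agent.W_7d29a1_H

open MeasureTheory ProbabilityTheory Filter Topology Set
open Pool.Agent.W_7d29a1_F Pool.Agent.W_7d29a1_h4g
open Pool.Agent.W_7d29a1_h47 (EM Nondeg)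

noncomputable section

variable {μ : Measure ℝ} [IsProbabilityMeasure μ] {H δ : ℝ} {A : Set ℝ} {s : ℝ}

theorem ep_le_EE61 (hμ : EM μ) (s : ℝ) {n N : ℕ} (hN : n ≤ N) {y : ℤ} (h0 : 0 ≤ y) (h1 : y ≤ n) :
    ep μ s n y ≤ e μ s n y + EE μ s N - 1 := by
  have h2 := ep_le61 hμ s h0 h1
  have h3 := le_EE (μ := μ) (s := s) hN
  linarith

/-- References. -/
theorem ref_le {m N : ℕ} (h : m ≤ N) : ∃ y : ℤ, 0 ≤ y ∧ y ≤ m ∧ ep μ s m y ≤ EE μ s N := by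
  refine ⟨zs μ s m, (zs_mem m).1, (zs_mem m).2, ?_⟩
  rw [ep_zs]
  have h3 := le_EE (μ := μ) (s := s) h
  linarith

/-- A cheap interval as an interval of integers. -/
theorem CI_int (hμ : EM μ) {m : ℕ} {B : ℝ} (hB : e μ s m (xs μ s m) ≤ B) :
    ∃ lo hi : ℤ, lo ≤ hi ∧ ∀ y : ℤ, y ∈ CI μ s m B ↔ lo ≤ y ∧ y ≤ hi := by
  have hx : xs μ s m ∈ CI μ s m B := CI_mk (xs_mem m).1 (xs_mem m).2 hB
  obtain ⟨lo, hlo, hlo1⟩ := Int.exists_least_of_bdd (P := fun y => y ∈ CI μ s m B) ⟨0, fun y hy => CI_0 hy⟩ ⟨_, hx⟩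
  obtain ⟨hi, hhi, hhi1⟩ := Int.exists_greatest_of_bdd (P := fun y => y ∈ CI μ s m B) ⟨m, fun y hy => CI_n hy⟩ ⟨_, hx⟩
  exact ⟨lo, hi, hlo1 hi hhi, fun y => ⟨fun hy => ⟨hlo1 y hy, hhi1 y hy⟩, fun hy => CI_conv hμ hlo hhi hy.1 hy.2⟩⟩

theorem CI_int' (hμ : EM μ) {m N : ℕ} (hmN : m ≤ N) {a : ℝ} (ha : 1 ≤ a) :
    ∃ lo hi : ℤ, lo ≤ hi ∧ lo ≤ xs μ s m ∧ xs μ s m ≤ hi ∧ ∀ y : ℤ, y ∈ CI μ s m (a * EE μ s N) ↔ lo ≤ y ∧ y ≤ hi := by
  have hB : e μ s m (xs μ s m) ≤ a * EE μ s N := by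
    have h1 := e_xs_le hμ s m
    have h2 := le_EE (μ := μ) (s := s) hmN
    have h4 := EE_pos (μ := μ) (s := s) N
    nlinarith
  obtain ⟨lo, hi, h1, h2⟩ := CI_int hμ hB
  have h3 := (h2 _).1 (CI_mk (xs_mem m).1 (xs_mem m).2 hB)
  exact ⟨lo, hi, h1, h3.1, h3.2, h2⟩

/-- **(TRAV*)** with the flat core: one far point, a box of lateral size `R0 n`. -/
theorem Dirs.trav_flat (h : Dirs μ H δ A) (hr : Rate μ A) (hg : Grow μ A) {ε : ℝ} (hε : 0 < ε) (R0 : ℝ) :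
    ∃ K' n0 : ℕ, 1 ≤ n0 ∧ 1 ≤ K' ∧ ∀ s ∈ A, ∀ n : ℕ, n0 ≤ n → ∃ (r ys : ℝ) (T : ℕ), 1 ≤ T ∧ 12 * n ≤ T ∧ T + n ≤ K' * n ∧
      |r - sl μ s| ≤ ε ∧ r = (xs μ s n : ℝ) / n ∧ 1 ≤ ln μ s n (2 * EE μ s (12 * n)) ∧
      (∀ t : ℕ, t ≤ n → |(xs μ s t : ℝ) - r * t| ≤ 3 * ln μ s n (2 * EE μ s (12 * n))) ∧
      ∀ t : ℕ, t ≤ n → ∀ y : ℤ, |(y : ℝ) - (ys + r * t)| ≤ R0 * n → 0 ≤ y ∧ y ≤ (T + t : ℕ) ∧
        ep μ s (T + t) y ≤ 30 * EE μ s (K' * n) +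
          ε * max (|(y : ℝ) - (ys + r * t)| - 3 * ln μ s n (2 * EE μ s (12 * n))) 0 := by
  have hμ := h.em
  obtain ⟨ε1, hε1, hε1ε, hε1C⟩ : ∃ ε1 : ℝ, 0 < ε1 ∧ ε1 ≤ ε ∧ ε1 ≤ 1 :=
    ⟨min ε 1, lt_min hε one_pos, min_le_left _ _, min_le_right _ _⟩
  obtain ⟨η, δ1, hη, hδ1, n1, hn1, hsp⟩ := h.spread hε1
  obtain ⟨δ', hδ', hcs⟩ := h.cheap_slope hε
  obtain ⟨Cl, hCl, hl1⟩ := one_le_ln hμ h.nd H
  obtain ⟨n3, hn3⟩ := hg Cl
  obtain ⟨K1, hK1⟩ := exists_nat_ge (max ((|R0| + 1) / η) 1)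
  have hK1a : (|R0| + 1) / η ≤ K1 := (le_max_left _ _).trans hK1
  have hK1b : (1 : ℝ) ≤ K1 := (le_max_right _ _).trans hK1
  have hK1c : 1 ≤ K1 := by exact_mod_cast hK1b
  rw [div_le_iff₀ hη] at hK1a
  obtain ⟨n2, hn2⟩ := hr (min δ1 δ' / (K1 + 14)) (by positivity)
  refine ⟨K1 + 14, max n3 (max n1 (max n2 1)), (le_max_right _ _).trans ((le_max_right _ _).trans (le_max_right _ _)), by omega,
    fun s hs n hn => ?_⟩
  have hnn3 : n3 ≤ n := (le_max_left _ _).trans hn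
  have hn' : max n1 (max n2 1) ≤ n := (le_max_right _ _).trans hn
  have hnn1 : n1 ≤ n := (le_max_left _ _).trans hn'
  have hnn2 : n2 ≤ n := ((le_max_left _ _).trans (le_max_right _ _)).trans hn'
  have hn1' : 1 ≤ n := ((le_max_right _ _).trans (le_max_right _ _)).trans hn'
  have hnp : (0 : ℝ) < n := by exact_mod_cast hn1'
  obtain ⟨E, hE⟩ : ∃ E, E = EE μ s ((K1 + 14) * n) := ⟨_, rfl⟩
  have hE0 : 0 < E := by rw [hE]; exact EE_pos _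
  have hE1 : 1 ≤ E := by rw [hE]; exact one_le_EE _
  have hEr : E ≤ min δ1 δ' * n := by
    have h1 := hn2 s hs ((K1 + 14) * n) (by nlinarith)
    rw [← hE] at h1
    refine h1.trans (le_of_eq ?_)
    push_cast
    field_simp
  have hEδ : E ≤ δ1 * n := hEr.trans (mul_le_mul_of_nonneg_right (min_le_left _ _) hnp.le)
  have hEδ' : E ≤ δ' * n := hEr.trans (mul_le_mul_of_nonneg_right (min_le_right _ _) hnp.le)
  have h12 : EE μ s (12 * n) ≤ E := by rw [hE]; exact EE_mono (by nlinarith)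
  obtain ⟨r, Y, hr1, hr2, hr3⟩ := trav_star (s := s) hμ hn1' (le_refl (EE μ s (12 * n)))
  have hxs : ∀ m : ℕ, m ≤ (K1 + 14) * n → e μ s m (xs μ s m) ≤ E - 1 := by
    intro m hm
    have h1 := e_xs_le hμ s m
    have h2 := le_EE (μ := μ) (s := s) hm
    rw [← hE] at h2
    linarith
  have hln1 : 1 ≤ ln μ s n (2 * EE μ s (12 * n)) := by
    refine hl1 s (h.bd s hs) n hn1' _ ?_
    have h2 := EE_mono (μ := μ) (s := s) (show n ≤ 12 * n by omega)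
    have h3 := hn3 s hs (12 * n) (by omega)
    linarith
  refine ⟨r, Y + xs μ s (K1 * n), 12 * n + K1 * n, by omega, by omega, by nlinarith, ?_, hr1, hln1, hr2, ?_⟩
  · have h1 := hcs s hs n hn1' (xs μ s n) (xs_mem n).1 (xs_mem n).2 (by have := hxs n (by nlinarith); linarith)
    have e1 : r - sl μ s = ((xs μ s n : ℝ) - sl μ s * n) / n := by rw [hr1]; field_simp
    rw [e1, abs_div, Nat.abs_cast, div_le_iff₀ hnp]
    exact h1
  intro t ht y hy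
  obtain ⟨x, hx⟩ : ∃ x : ℝ, x = (y : ℝ) - (Y + xs μ s (K1 * n) + r * t) := ⟨_, rfl⟩
  rw [← hx] at hy ⊢
  obtain ⟨l, hl⟩ : ∃ l : ℝ, l = 3 * ln μ s n (2 * EE μ s (12 * n)) := ⟨_, rfl⟩
  rw [← hl] at hr3 ⊢
  have hl0 : 1 ≤ l := by
    have h2 : (1 : ℝ) ≤ ln μ s n (2 * EE μ s (12 * n)) := by exact_mod_cast hln1
    rw [hl]
    linarith
  -- the lateral part
  obtain ⟨c, hs1, hs2, hs3⟩ : ∃ c : ℤ, |x - c| ≤ l ∧ |(c : ℝ)| ≤ max (|x| - l) 0 + 1 ∧ |(c : ℝ)| ≤ |x| + 1 := by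
    rcases le_total |x| l with hxl | hxl
    · refine ⟨0, by simpa using hxl, ?_, ?_⟩
      · simp only [Int.cast_zero, abs_zero]
        have := le_max_right (|x| - l) 0
        linarith
      · simp only [Int.cast_zero, abs_zero]
        have := abs_nonneg x
        linarith
    · have hm : max (|x| - l) 0 = |x| - l := max_eq_left (by linarith)
      rcases le_total 0 x with hx0 | hx0
      · rw [abs_of_nonneg hx0] at hxl hm ⊢
        have f1 : x - l ≤ ((⌈x - l⌉ : ℤ) : ℝ) := Int.le_ceil _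
        have f2 : ((⌈x - l⌉ : ℤ) : ℝ) < x - l + 1 := Int.ceil_lt_add_one _
        refine ⟨⌈x - l⌉, ?_, ?_, ?_⟩
        · rw [abs_le]
          constructor <;> linarith
        · rw [hm, abs_of_nonneg (by linarith)]
          linarith
        · rw [abs_of_nonneg (by linarith)]
          linarith
      · rw [abs_of_nonpos hx0] at hxl hm ⊢
        have f1 : ((⌊x + l⌋ : ℤ) : ℝ) ≤ x + l := Int.floor_le _
        have f2 : x + l < ((⌊x + l⌋ : ℤ) : ℝ) + 1 := Int.lt_floor_add_one _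
        refine ⟨⌊x + l⌋, ?_, ?_, ?_⟩
        · rw [abs_le]
          constructor <;> linarith
        · rw [hm, abs_of_nonpos (by linarith)]
          linarith
        · rw [abs_of_nonpos (by linarith)]
          linarith
  -- the first piece
  have h1 : y - (xs μ s (K1 * n) + c) ∈ CI μ s (12 * n + t) (26 * E) := by
    refine CI_mono (by linarith) (hr3 t ht _ ?_)
    push_cast
    have e1 : (y : ℝ) - (xs μ s (K1 * n) + c) - (Y + r * t) = x - c := by rw [hx]; ring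
    rw [e1]
    exact hs1
  -- the second piece
  have hKn : n ≤ K1 * n := Nat.le_mul_of_pos_left n (by omega)
  have h2 : xs μ s (K1 * n) + c ∈ CI μ s (K1 * n) (E - 1 + ε1 * (max (|x| - l) 0 + 1)) := by
    have hc := hxs (K1 * n) (by nlinarith)
    have h3 := hsp s hs (K1 * n) (hnn1.trans hKn) (xs μ s (K1 * n)) (xs_mem _).1 (xs_mem _).2 ?_ (xs μ s (K1 * n) + c) ?_
    · obtain ⟨h30, h31, h32⟩ := h3
      refine CI_mk h30 h31 ?_
      push_cast at h32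
      rw [add_sub_cancel_left] at h32
      have h6 := mul_le_mul_of_nonneg_left hs2 hε1.le
      linarith
    · push_cast
      have h4 : δ1 * n ≤ δ1 * (K1 * n) := mul_le_mul_of_nonneg_left (by nlinarith) hδ1.le
      linarith
    · push_cast
      rw [add_sub_cancel_left]
      have h4 : R0 * n ≤ |R0| * n := mul_le_mul_of_nonneg_right (le_abs_self R0) hnp.le
      have h5 : (|R0| + 1) * n ≤ K1 * η * n := mul_le_mul_of_nonneg_right hK1a hnp.le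
      have h6 : (1 : ℝ) ≤ n := by exact_mod_cast hn1'
      nlinarith
  have h3 := CI_add hμ h1 h2
  rw [sub_add_cancel, show 12 * n + t + K1 * n = 12 * n + K1 * n + t by ring] at h3
  refine ⟨CI_0 h3, CI_n h3, ?_⟩
  have h4 := ep_le_EE61 hμ s (n := 12 * n + K1 * n + t) (N := (K1 + 14) * n) (by nlinarith) (CI_0 h3) (CI_n h3)
  rw [← hE] at h4 ⊢
  have h5 : ε1 * max (|x| - l) 0 ≤ ε * max (|x| - l) 0 := mul_le_mul_of_nonneg_right hε1ε (le_max_right _ _)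
  have h6 := CI_e h3
  linarith

/-- **(TRAV*)** for the frame: one far point, a box of lateral size `R0 n`. -/
theorem Dirs.trav_far (h : Dirs μ H δ A) (hr : Rate μ A) (hg : Grow μ A) {ε : ℝ} (hε : 0 < ε) (R0 : ℝ) :
    ∃ K' n0 : ℕ, 1 ≤ n0 ∧ 1 ≤ K' ∧ ∀ s ∈ A, ∀ n : ℕ, n0 ≤ n → ∃ (r ys : ℝ) (T : ℕ), 1 ≤ T ∧ 12 * n ≤ T ∧ T + n ≤ K' * n ∧
      |r - sl μ s| ≤ ε ∧ r = (xs μ s n : ℝ) / n ∧ 1 ≤ ln μ s n (2 * EE μ s (12 * n)) ∧
      (∀ t : ℕ, t ≤ n → |(xs μ s t : ℝ) - r * t| ≤ 3 * ln μ s n (2 * EE μ s (12 * n))) ∧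
      ∀ t : ℕ, t ≤ n → ∀ y : ℤ, |(y : ℝ) - (ys + r * t)| ≤ R0 * n → 0 ≤ y ∧ y ≤ (T + t : ℕ) ∧
        ep μ s (T + t) y ≤ 30 * EE μ s (K' * n) + ε * |(y : ℝ) - (ys + r * t)| := by
  obtain ⟨K', n0, h1, h2, h3⟩ := h.trav_flat hr hg hε R0
  refine ⟨K', n0, h1, h2, fun s hs n hn => ?_⟩
  obtain ⟨r, ys, T, g1, g2, g3, g4, g5, g50, g6, g7⟩ := h3 s hs n hn
  refine ⟨r, ys, T, g1, g2, g3, g4, g5, g50, g6, fun t ht y hy => ?_⟩
  obtain ⟨k1, k2, k3⟩ := g7 t ht y hy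
  refine ⟨k1, k2, k3.trans ?_⟩
  have h4 : max (|(y : ℝ) - (ys + r * t)| - 3 * ln μ s n (2 * EE μ s (12 * n))) 0 ≤ |(y : ℝ) - (ys + r * t)| :=
    max_le (by linarith [Nat.cast_nonneg (α := ℝ) (ln μ s n (2 * EE μ s (12 * n)))]) (abs_nonneg _)
  have h5 := mul_le_mul_of_nonneg_left h4 hε.le
  linarith

end

end Pool.Agent.W_7d29a1_H
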