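import Pool.Agent.W_7d29a1_H.HOctDefs52
import Pool.Agent.W_7d29a1_H.WidthH

/-!
MP_7d29a1_pr, TRACK H (all tilts): the one-sided widths `vs a μ s sg n` (`sg = 1`: right, `sg = -1`: left). Port of the first part of
`W_1b8d5d_p/EdOut30` (helper30). The Lipschitz constant of the rate function is `1`. (helper52)
-/

set_option autoImplicit false

namespace Pool.Agent.W_7d29a1_H

open MeasureTheory ProbabilityTheory Filter Topology Set
open Pool.Agent.W_7d29a1_F Pool.Agent.W_7d29a1_h4g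
open Pool.Agent.W_1b8d5d_p (wR wL Rf)

variable {μ : Measure ℝ} [IsProbabilityMeasure μ] {H δ : ℝ} {A : Set ℝ} {s sg a A0 A1 : ℝ} {n : ℕ}

theorem ed_rf (h : Dirs μ H δ A) (hd : s ∈ A) (hsg : sg = 1 ∨ sg = -1) : Rf fun x => J μ s (sg * x) := by
  rcases hsg with rfl | rfl
  · simpa only [one_mul] using h.rf hd
  · simpa only [neg_mul, one_mul] using (h.rf hd).neg

theorem vs_nonneg (h : Dirs μ H δ A) (hd : s ∈ A) (hsg : sg = 1 ∨ sg = -1) (ha : 0 ≤ a) : 0 ≤ vs a μ s sg n :=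
  (ed_rf h hd hsg).wR_nonneg (lev_nonneg ha)

theorem ed_J' (h : Dirs μ H δ A) (hd : s ∈ A) (hsg : sg = 1 ∨ sg = -1) (ha : 0 ≤ a) :
    J μ s (sg * vs a μ s sg n) = a * EE μ s n / n := (ed_rf h hd hsg).J_wR (lev_nonneg ha)

theorem ed_J (h : Dirs μ H δ A) (hd : s ∈ A) (hsg : sg = 1 ∨ sg = -1) (ha : 0 ≤ a) (hn : 1 ≤ n) :
    n * J μ s (sg * vs a μ s sg n) = a * EE μ s n := by
  have hn0 : (n : ℝ) ≠ 0 := by exact_mod_cast (show n ≠ 0 by omega)
  rw [ed_J' h hd hsg ha, mul_div_cancel₀ _ hn0]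

theorem vs_mono (h : Dirs μ H δ A) (hd : s ∈ A) (hsg : sg = 1 ∨ sg = -1) (ha : 0 ≤ a) {a' : ℝ} (haa : a ≤ a') :
    vs a μ s sg n ≤ vs a' μ s sg n := by
  refine (ed_rf h hd hsg).wR_mono (lev_nonneg ha) ?_
  exact div_le_div_of_nonneg_right (mul_le_mul_of_nonneg_right haa (EE_pos n).le) (Nat.cast_nonneg _)

theorem vs_mul (h : Dirs μ H δ A) (hd : s ∈ A) (hsg : sg = 1 ∨ sg = -1) (ha : 0 ≤ a) {t : ℝ} (ht : 1 ≤ t) :
    vs (t * a) μ s sg n ≤ t * vs a μ s sg n := by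
  have h1 := (ed_rf h hd hsg).wR_mul (lev_nonneg (μ := μ) (s := s) (n := n) ha) ht
  unfold vs
  have e1 : t * a * EE μ s n / n = t * (a * EE μ s n / n) := by ring
  rw [e1]
  exact h1

/-- The Lipschitz constant of the rate function. -/
theorem ed_lip (h : Dirs μ H δ A) (s x y : ℝ) : |J μ s x - J μ s y| ≤ |x - y| := by
  have h1 := J_lip h.em h.nd s x y
  have h2 := J_lip h.em h.nd s y x
  rw [abs_sub_comm y x] at h2
  rw [abs_le]
  constructor <;> linarith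

/-- **(B1)** The thickness of the edge is at least a constant times the unit. -/
theorem ed_om (h : Dirs μ H δ A) (hd : s ∈ A) (hsg : sg = 1 ∨ sg = -1) (h0 : 0 ≤ A0) (h01 : A0 ≤ A1) (hn : 1 ≤ n) :
    (A1 - A0) * EE μ s n ≤ n * (vs A1 μ s sg n - vs A0 μ s sg n) := by
  have hn0 : (0 : ℝ) < n := by exact_mod_cast hn
  have h1 := ed_J h hd hsg h0 hn (n := n)
  have h2 := ed_J h hd hsg (h0.trans h01) hn (n := n)
  have h3 := vs_mono (n := n) h hd hsg h0 h01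
  have h4 := le_of_abs_le (ed_lip h s (sg * vs A1 μ s sg n) (sg * vs A0 μ s sg n))
  have h5 : |sg * vs A1 μ s sg n - sg * vs A0 μ s sg n| = vs A1 μ s sg n - vs A0 μ s sg n := by
    rw [← mul_sub, abs_mul]
    rcases hsg with rfl | rfl
    · rw [abs_one, one_mul, abs_of_nonneg (sub_nonneg.2 h3)]
    · rw [abs_neg, abs_one, one_mul, abs_of_nonneg (sub_nonneg.2 h3)]
  rw [h5] at h4
  have h6 := mul_le_mul_of_nonneg_left h4 hn0.le
  nlinarith

theorem ed_om_pos (h : Dirs μ H δ A) (hd : s ∈ A) (hsg : sg = 1 ∨ sg = -1) (h0 : 0 ≤ A0) (h01 : A0 < A1) (hn : 1 ≤ n) :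
    0 < n * (vs A1 μ s sg n - vs A0 μ s sg n) := by
  have h1 := ed_om (n := n) h hd hsg h0 h01.le hn
  have h2 : 0 < (A1 - A0) * EE μ s n := mul_pos (sub_pos.2 h01) (EE_pos n)
  linarith

/-- The thickness is at most a constant times the one-sided width. -/
theorem ed_om_le (h : Dirs μ H δ A) (hd : s ∈ A) (hsg : sg = 1 ∨ sg = -1) (h0 : 0 < A0) (h01 : A0 ≤ A1) :
    vs A1 μ s sg n - vs A0 μ s sg n ≤ (A1 / A0 - 1) * vs A0 μ s sg n := by
  have h1 := vs_mul (n := n) h hd hsg h0.le ((one_le_div h0).2 h01)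
  rw [div_mul_cancel₀ _ h0.ne'] at h1
  linarith

/-- A one-sided width is at most the total width. -/
theorem vs_le_vA (h : Dirs μ H δ A) (hd : s ∈ A) (hsg : sg = 1 ∨ sg = -1) (ha : 0 ≤ a) : vs a μ s sg n ≤ vA a μ s n := by
  have h1 := h.vr_nonneg hd ha n
  have h2 := h.vl_nonneg hd ha n
  unfold vA
  rcases hsg with rfl | rfl
  · rw [vs_one]
    linarith
  · rw [vs_neg]
    linarith

theorem vs_le_vA' (h : Dirs μ H δ A) (hd : s ∈ A) (hsg : sg = 1 ∨ sg = -1) (ha : 0 < a) {a' : ℝ} (haa : a ≤ a') :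
    vs a' μ s sg n ≤ a' / a * vA a μ s n := by
  have h1 := vs_mul (n := n) h hd hsg ha.le ((one_le_div ha).2 haa)
  rw [div_mul_cancel₀ _ ha.ne'] at h1
  exact h1.trans (mul_le_mul_of_nonneg_left (vs_le_vA h hd hsg ha.le) (div_nonneg (ha.le.trans haa) ha.le))

end Pool.Agent.W_7d29a1_H
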